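import Pool.Agent.LibPM3.Surf

/-! Base data: the Fuchsian group, its letters, frames; abstract structure. -/

namespace PM3
open Matrix Filter Topology
open scoped MatrixGroups

noncomputable section

/-- ports of family I -/
inductive QI : Type
  | dP (i : Fin 3) : QI
  | dH (i : Fin 3) : QI
  | mp (i : Fin 3) : QI
  | mm (i : Fin 3) : QI
  deriving DecidableEq

/-- ports of family II -/
inductive QII : Type
  | dP2 : QII
  | dH2 : QII
  | mp (i : Fin 3) : QII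
  | mm (i : Fin 3) : QII
  | cQ : QII
  | cP : QII
  deriving DecidableEq

structure BaseData where
  rt : M2
  R : Fin 6 → M2
  k : Fin 6 → M2
  Y : Fin 3 → M2
  fd : Fin 3 → M2
  fp : Fin 3 → M2
  fm : Fin 3 → M2
  fc : M2
  Ld : ℝ
  Lm : ℝ
  Lc : ℝ
  lb : ℝ
  mu : ℝ
  M : ℝ

namespace BaseData
variable (B : BaseData)

/-- the matrix of `x_i` -/
def X (i : Fin 3) : M2 := B.R (l0 i) * B.R (l1 i)

def fI : QI → M2
  | QI.dP i => B.fd i
  | QI.dH i => B.fd i * J2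
  | QI.mp i => B.fp i
  | QI.mm i => B.fm i

def fII : QII → M2
  | QII.dP2 => B.fd 2
  | QII.dH2 => B.fd 2 * J2
  | QII.mp i => B.fp i
  | QII.mm i => B.fm i
  | QII.cQ => B.fc
  | QII.cP => B.fc * J2

end BaseData

def aI : QI → Fin 6
  | QI.dP i => l0 i
  | QI.dH i => l2 i
  | QI.mp i => l0 i
  | QI.mm i => l1 i

def bI : QI → Fin 6
  | QI.dP i => l2 i
  | QI.dH i => l0 i
  | QI.mp i => l1 i
  | QI.mm i => l2 i

def aII : QII → Fin 6
  | QII.dP2 => 4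
  | QII.dH2 => 0
  | QII.mp i => l0 i
  | QII.mm i => l1 i
  | QII.cQ => 1
  | QII.cP => 3

def bII : QII → Fin 6
  | QII.dP2 => 0
  | QII.dH2 => 4
  | QII.mp i => l1 i
  | QII.mm i => l2 i
  | QII.cQ => 3
  | QII.cP => 1

/-- port sets -/
def SH (i : Fin 3) : Set QI := {QI.dH i, QI.mp i, QI.mm i}
def SZ : Set QI := {QI.dP 0, QI.dP 1, QI.dP 2}
def S5 : Set QI := {QI.dP 2, QI.mp 0, QI.mm 0, QI.mp 1, QI.mm 1}
def S5' : Set QII := {QII.dP2, QII.mp 0, QII.mm 0, QII.mp 1, QII.mm 1}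
def SPc : Set QII := {QII.mm 0, QII.mp 1, QII.cP}
def SQc : Set QII := {QII.mp 0, QII.cQ, QII.mm 1, QII.dP2}

/-- eigenvalue matrix `-diag(e^{-L/2}, e^{L/2})` of a boundary element in its frame -/
def eg (L : ℝ) : M2 := -!![Real.exp (-(L / 2)), 0; 0, Real.exp (L / 2)]

structure Base extends BaseData where
  hLd : 0 < Ld
  hLm : 0 < Lm
  hLc : 0 < Lc
  rt_det : rt.det = 1
  rt_cube : rt * rt * rt = -1
  R_sq : ∀ f, R f * R f = 1
  R_det : ∀ f, (R f).det = -1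
  R_rot : ∀ f, R (f + 2) * rt = rt * R f
  Y_det : ∀ i, (Y i).det = 1
  Y_rot : ∀ i, Y (i + 1) * rt = rt * Y i
  Y_conj : ∀ i, Y i * (R (l1 i) * R (l0 i)) = R (l1 i) * R (l2 i) * Y i
  Y_tr : ∀ i, (Y i).trace = (R (l0 i) * R (l1 i)).trace
  YX_tr : ∀ i, 2 < (Y i * (R (l0 i) * R (l1 i))).trace
  fd_det : ∀ i, (fd i).det = 1
  fp_det : ∀ i, (fp i).det = 1
  fm_det : ∀ i, (fm i).det = 1
  fc_det : fc.det = 1
  fd_rot : ∀ i, symMat (fd (i + 1)) = symMat rt * symMat (fd i)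
  fp_rot : ∀ i, symMat (fp (i + 1)) = symMat rt * symMat (fp i)
  fm_rot : ∀ i, symMat (fm (i + 1)) = symMat rt * symMat (fm i)
  fd_eig : ∀ i, R (l0 i) * R (l2 i) * fd i = fd i * eg Ld
  fp_eig : ∀ i, R (l0 i) * R (l1 i) * fp i = fp i * eg Lm
  fm_eig : ∀ i, R (l1 i) * R (l2 i) * fm i = fm i * eg Lm
  fc_eig : R 1 * R 3 * fc = fc * eg Lc
  polyH : ∀ i, PolySys (AH i) (SH i) R k toBaseData.fI aI bI lb mu M
  polyZ : PolySys AZ SZ R k toBaseData.fI aI bI lb mu M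
  poly5 : PolySys A5 S5 R k toBaseData.fI aI bI lb mu M
  poly5' : PolySys A5 S5' R k toBaseData.fII aII bII lb mu M
  polyPc : PolySys APc SPc R k toBaseData.fII aII bII lb mu M
  polyQc : PolySys AQc SQc R k toBaseData.fII aII bII lb mu M
  lb_big : (5 : ℝ) * 2 ^ (2 * 4) * lb ^ (-(1 / 4 : ℝ)) ≤ 1 / 2
  E0 : ∃ n : ℕ, 1 ≤ ∑ j ∈ Finset.range n,
    (nrm (symMat ((fd 0 * J2)⁻¹ * ((Y 0 * (R (l0 0) * R (l1 0))) ^ (j + 1) * (R (l0 0) * R (l1 0))) *
      (fd 0 * J2)))) ^ (-(1 / 7 : ℝ))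

/-- `diag(e^{a+ϑ}, e^{-2a}, e^{a-ϑ})` -/
def dgv (a ϑ : ℝ) : Fin 3 → ℝ := ![Real.exp (a + ϑ), Real.exp (-(2 * a)), Real.exp (a - ϑ)]

/-- conjugate of a diagonal by a symmetric square -/
def cj (f : M2) (d : Fin 3 → ℝ) : M3 := symMat f * diagonal d * (symMat f)⁻¹

def P2 : M2 := !![0, 1; 1, 0]
def P3 : M3 := !![0, 0, 1; 0, 1, 0; 1, 0, 0]

def revd (d : Fin 3 → ℝ) : Fin 3 → ℝ := ![d 2, d 1, d 0]
def invr (d : Fin 3 → ℝ) : Fin 3 → ℝ := ![(d 2)⁻¹, (d 1)⁻¹, (d 0)⁻¹]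

/-- an invertible matrix from a matrix -/
def glOf (A : M3) : GL (Fin 3) ℝ :=
  if h : A.det ≠ 0 then Matrix.GeneralLinearGroup.mkOfDetNeZero A h else 1

theorem glOf_coe {A : M3} (h : A.det ≠ 0) : (glOf A : M3) = A := by
  simp only [glOf, h, dif_pos, ne_eq, not_false_eq_true]; rfl

namespace Base
variable (B : Base)

/-- the swap of the handle `i`: `s X s⁻¹ = Y`, `s Y s⁻¹ = X`, `det s = -1` -/
def sw (i : Fin 3) : M2 :=
  (1 / Real.sqrt ((B.Y i * B.X i).trace - 2)) • (B.X i + B.Y i - (B.X i).trace • (1 : M2))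

private theorem pm_BaseA_Xdet (i : Fin 3) : (B.X i).det = 1 := by
  show (B.R (l0 i) * B.R (l1 i)).det = 1
  rw [det_mul, B.R_det, B.R_det]
  norm_num

private theorem pm_BaseA_ch (A : M2) (h : A.det = 1) : A * A = A.trace • A - 1 := by
  rw [det_fin_two] at h
  ext i j
  fin_cases i <;> fin_cases j <;>
    simp [Matrix.mul_apply, Fin.sum_univ_two, trace_fin_two] <;> linarith

private theorem pm_BaseA_det2 (A C : M2) (hA : A.det = 1) (hC : C.det = 1)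
    (hT : C.trace = A.trace) : (A + C - A.trace • (1 : M2)).det = 2 - (C * A).trace := by
  rw [det_fin_two] at hA hC
  rw [trace_fin_two, trace_fin_two] at hT
  simp only [det_fin_two, trace_fin_two, Matrix.mul_apply, Fin.sum_univ_two, Matrix.sub_apply, Matrix.add_apply,
    Matrix.smul_apply, one_apply_eq, smul_eq_mul]
  have h01 : (1 : M2) 0 1 = 0 := rfl
  have h10 : (1 : M2) 1 0 = 0 := rfl
  rw [h01, h10]
  have hd : C 1 1 = A 0 0 + A 1 1 - C 0 0 := by linarith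
  rw [hd] at hC ⊢
  linear_combination hA + hC

private theorem pm_BaseA_pos (i : Fin 3) : 0 < (B.Y i * B.X i).trace - 2 := by
  have := B.YX_tr i
  show 0 < (B.Y i * (B.R (l0 i) * B.R (l1 i))).trace - 2
  linarith

private theorem pm_BaseA_Ytr (i : Fin 3) : (B.Y i).trace = (B.X i).trace := B.Y_tr i

theorem sw_det (i : Fin 3) : (B.sw i).det = -1 := by
  have h := pm_BaseA_pos B i
  unfold sw
  rw [det_smul, pm_BaseA_det2 _ _ (pm_BaseA_Xdet B i) (B.Y_det i) (pm_BaseA_Ytr B i)]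
  simp only [Fintype.card_fin]
  rw [div_pow, one_pow, Real.sq_sqrt h.le]
  field_simp
  ring

theorem sw_X (i : Fin 3) : B.sw i * B.X i = B.Y i * B.sw i := by
  unfold sw
  rw [smul_mul_assoc, mul_smul_comm]
  congr 1
  have hX := pm_BaseA_ch _ (pm_BaseA_Xdet B i)
  have hY := pm_BaseA_ch _ (B.Y_det i)
  rw [pm_BaseA_Ytr] at hY
  rw [sub_mul, add_mul, mul_sub, mul_add, hX, hY, smul_mul_assoc, one_mul, mul_smul_comm, mul_one]
  abel

theorem sw_Y (i : Fin 3) : B.sw i * B.Y i = B.X i * B.sw i := by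
  unfold sw
  rw [smul_mul_assoc, mul_smul_comm]
  congr 1
  have hX := pm_BaseA_ch _ (pm_BaseA_Xdet B i)
  have hY := pm_BaseA_ch _ (B.Y_det i)
  rw [pm_BaseA_Ytr] at hY
  rw [sub_mul, add_mul, mul_sub, mul_add, hX, hY, smul_mul_assoc, one_mul, mul_smul_comm, mul_one]
  abel

private theorem pm_BaseA_l0 (i : Fin 3) : l0 (i + 1) = l0 i + 2 := by
  fin_cases i <;> rfl

private theorem pm_BaseA_l1 (i : Fin 3) : l1 (i + 1) = l1 i + 2 := by
  fin_cases i <;> rfl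

private theorem pm_BaseA_Xrot (i : Fin 3) : B.X (i + 1) * B.rt = B.rt * B.X i := by
  show B.R (l0 (i + 1)) * B.R (l1 (i + 1)) * B.rt = B.rt * (B.R (l0 i) * B.R (l1 i))
  rw [pm_BaseA_l0, pm_BaseA_l1, mul_assoc, B.R_rot, ← mul_assoc, B.R_rot, mul_assoc]

private theorem pm_BaseA_trace (A C r : M2) (hr : r.det = 1) (h : A * r = r * C) :
    A.trace = C.trace := by
  have hu : IsUnit r.det := by rw [hr]; exact isUnit_one
  have h1 : A = r * C * r⁻¹ := by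
    rw [← h, mul_assoc, mul_nonsing_inv r hu, mul_one]
  rw [h1, trace_mul_comm, ← mul_assoc, nonsing_inv_mul r hu, one_mul]

theorem sw_rot (i : Fin 3) : B.sw (i + 1) * B.rt = B.rt * B.sw i := by
  have hX := pm_BaseA_Xrot B i
  have hY := B.Y_rot i
  have hYX : (B.Y (i + 1) * B.X (i + 1)) * B.rt = B.rt * (B.Y i * B.X i) := by
    rw [mul_assoc, hX, ← mul_assoc, hY, mul_assoc]
  have t1 := pm_BaseA_trace _ _ _ B.rt_det hYX
  have t2 := pm_BaseA_trace _ _ _ B.rt_det hX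
  unfold sw
  rw [t1, t2, smul_mul_assoc, mul_smul_comm]
  congr 1
  rw [sub_mul, add_mul, mul_sub, mul_add, hX, hY, smul_mul_assoc, one_mul, mul_smul_comm, mul_one]

/-- offset of the loop -/
def eta (i : Fin 3) : ℝ := ((B.fm i * J2)⁻¹ * B.Y i * B.fp i) 0 0

/-- offset of the mirrored handle -/
def qq (i : Fin 3) : ℝ := ((B.fd i)⁻¹ * B.sw i * B.fd i) 1 0

private theorem pm_BaseA_J2 : (J2 : M2).det = 1 := by
  simp [J2, det_fin_two]

/-- inverse of the eigenvalue matrix -/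
private theorem pm_BaseA_eg (L : ℝ) : eg L * (-!![Real.exp (L / 2), 0; 0, Real.exp (-(L / 2))]) = 1 := by
  unfold eg
  have h1 : Real.exp (-(L / 2)) * Real.exp (L / 2) = 1 := by
    rw [← Real.exp_add]; simp
  ext i j
  fin_cases i <;> fin_cases j <;> simp [Matrix.mul_apply, Fin.sum_univ_two]
  · exact h1
  · rw [mul_comm]; exact h1

private theorem pm_BaseA_egJ (L : ℝ) :
    eg L * J2 = J2 * (-!![Real.exp (L / 2), 0; 0, Real.exp (-(L / 2))]) := by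
  unfold eg J2
  ext i j
  fin_cases i <;> fin_cases j <;> simp [Matrix.mul_apply, Fin.sum_univ_two]

private theorem pm_BaseA_inv (A C : M2) (h : A * C = 1) : C * A = 1 := mul_eq_one_comm.1 h

/-- the product of the inverse of `X` -/
private theorem pm_BaseA_Xinv (i : Fin 3) : B.X i * (B.R (l1 i) * B.R (l0 i)) = 1 := by
  show B.R (l0 i) * B.R (l1 i) * (B.R (l1 i) * B.R (l0 i)) = 1
  calc B.R (l0 i) * B.R (l1 i) * (B.R (l1 i) * B.R (l0 i))
      = B.R (l0 i) * (B.R (l1 i) * B.R (l1 i)) * B.R (l0 i) := by simp only [mul_assoc]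
    _ = 1 := by rw [B.R_sq, mul_one, B.R_sq]

private theorem pm_BaseA_exp (L : ℝ) (hL : 0 < L) : Real.exp (-(L / 2)) < Real.exp (L / 2) := by
  apply Real.exp_lt_exp.2
  linarith

/-- a matrix commuting with the eigenvalue matrix is diagonal -/
private theorem pm_BaseA_diag (L : ℝ) (hL : 0 < L) (N : M2) (hN : N.det = 1)
    (h : N * (-!![Real.exp (L / 2), 0; 0, Real.exp (-(L / 2))]) =
      (-!![Real.exp (L / 2), 0; 0, Real.exp (-(L / 2))]) * N) :
    N 0 0 ≠ 0 ∧ N = !![N 0 0, 0; 0, (N 0 0)⁻¹] := by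
  have he := pm_BaseA_exp L hL
  have h01 := congrFun (congrFun h 0) 1
  have h10 := congrFun (congrFun h 1) 0
  simp [Matrix.mul_apply, Fin.sum_univ_two] at h01 h10
  have h1 : N 0 1 = 0 := by
    have : N 0 1 * (Real.exp (L / 2) - Real.exp (-(L / 2))) = 0 := by linarith
    rcases mul_eq_zero.1 this with h | h
    · exact h
    · linarith
  have h2 : N 1 0 = 0 := by
    have : N 1 0 * (Real.exp (L / 2) - Real.exp (-(L / 2))) = 0 := by linarith
    rcases mul_eq_zero.1 this with h | h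
    · exact h
    · linarith
  rw [det_fin_two, h1, h2] at hN
  have h3 : N 0 0 * N 1 1 = 1 := by linarith
  have h4 : N 0 0 ≠ 0 := by
    intro h
    rw [h, zero_mul] at h3
    exact zero_ne_one h3
  refine ⟨h4, ?_⟩
  have h5 : N 1 1 = (N 0 0)⁻¹ := by
    field_simp
    linarith
  ext a b
  fin_cases a <;> fin_cases b <;> simp [h1, h2, h5]

private theorem pm_BaseA_anti (L : ℝ) (hL : 0 < L) (N : M2) (hN : N.det = -1)
    (h : N * eg L = (-!![Real.exp (L / 2), 0; 0, Real.exp (-(L / 2))]) * N) :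
    N 1 0 ≠ 0 ∧ N = !![0, (N 1 0)⁻¹; N 1 0, 0] := by
  have he := pm_BaseA_exp L hL
  unfold eg at h
  have h00 := congrFun (congrFun h 0) 0
  have h11 := congrFun (congrFun h 1) 1
  simp [Matrix.mul_apply, Fin.sum_univ_two] at h00 h11
  have h1 : N 0 0 = 0 := by
    have : N 0 0 * (Real.exp (L / 2) - Real.exp (-(L / 2))) = 0 := by linarith
    rcases mul_eq_zero.1 this with h | h
    · exact h
    · linarith
  have h2 : N 1 1 = 0 := by
    have : N 1 1 * (Real.exp (L / 2) - Real.exp (-(L / 2))) = 0 := by linarith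
    rcases mul_eq_zero.1 this with h | h
    · exact h
    · linarith
  rw [det_fin_two, h1, h2] at hN
  have h3 : N 0 1 * N 1 0 = 1 := by linarith
  have h4 : N 1 0 ≠ 0 := by
    intro h
    rw [h, mul_zero] at h3
    exact zero_ne_one h3
  refine ⟨h4, ?_⟩
  have h5 : N 0 1 = (N 1 0)⁻¹ := by
    field_simp
    linarith
  ext a b
  fin_cases a <;> fin_cases b <;> simp [h1, h2, h5]

private theorem pm_BaseA_eta (i : Fin 3) : B.eta i ≠ 0 ∧
    (B.fm i * J2)⁻¹ * B.Y i * B.fp i = !![B.eta i, 0; 0, (B.eta i)⁻¹] := by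
  set I : M2 := -!![Real.exp (B.Lm / 2), 0; 0, Real.exp (-(B.Lm / 2))] with hI
  set P : M2 := B.fm i * J2 with hP
  have hPd : P.det = 1 := by rw [hP, det_mul, B.fm_det, pm_BaseA_J2, one_mul]
  have hPu : IsUnit P.det := by rw [hPd]; exact isUnit_one
  set U : M2 := B.R (l1 i) * B.R (l2 i) with hU
  set Z : M2 := B.R (l1 i) * B.R (l0 i) with hZ
  have hUP : U * P = P * I := by
    rw [hP, ← mul_assoc, B.fm_eig i, mul_assoc, pm_BaseA_egJ, mul_assoc]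
  have hZX : Z * B.X i = 1 := pm_BaseA_inv _ _ (pm_BaseA_Xinv B i)
  have hXf : B.X i * B.fp i = B.fp i * eg B.Lm := B.fp_eig i
  have hZf : Z * B.fp i = B.fp i * I := by
    have h1 : B.fp i = B.X i * B.fp i * I := by
      rw [hXf, mul_assoc, pm_BaseA_eg, mul_one]
    calc Z * B.fp i = Z * (B.X i * B.fp i * I) := by rw [← h1]
      _ = (Z * B.X i) * B.fp i * I := by simp only [mul_assoc]
      _ = B.fp i * I := by rw [hZX, one_mul]
  have hYZ : B.Y i * Z = U * B.Y i := B.Y_conj i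
  have hUY : U * (B.Y i * B.fp i) = B.Y i * B.fp i * I := by
    rw [← mul_assoc, ← hYZ, mul_assoc, hZf, mul_assoc]
  have hPU : P⁻¹ * U = I * P⁻¹ := by
    calc P⁻¹ * U = P⁻¹ * (U * P) * P⁻¹ := by
          rw [mul_assoc, mul_assoc, mul_nonsing_inv P hPu, mul_one]
      _ = P⁻¹ * (P * I) * P⁻¹ := by rw [hUP]
      _ = I * P⁻¹ := by rw [← mul_assoc, nonsing_inv_mul P hPu, one_mul]
  have hN : (P⁻¹ * B.Y i * B.fp i) * I = I * (P⁻¹ * B.Y i * B.fp i) := by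
    calc (P⁻¹ * B.Y i * B.fp i) * I = P⁻¹ * (B.Y i * B.fp i * I) := by simp only [mul_assoc]
      _ = P⁻¹ * (U * (B.Y i * B.fp i)) := by rw [hUY]
      _ = (P⁻¹ * U) * (B.Y i * B.fp i) := by simp only [mul_assoc]
      _ = I * (P⁻¹ * B.Y i * B.fp i) := by rw [hPU]; simp only [mul_assoc]
  have hNd : (P⁻¹ * B.Y i * B.fp i).det = 1 := by
    rw [det_mul, det_mul, det_nonsing_inv, hPd, B.Y_det, B.fp_det]
    simp
  exact pm_BaseA_diag B.Lm B.hLm _ hNd hN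

theorem eta_ne (i : Fin 3) : B.eta i ≠ 0 := (pm_BaseA_eta B i).1

private theorem pm_BaseA_com (i : Fin 3) : B.X i * B.Y i * (B.X i)⁻¹ * (B.Y i)⁻¹ =
    B.R (l0 i) * B.R (l2 i) := by
  have hYu : IsUnit (B.Y i).det := by rw [B.Y_det]; exact isUnit_one
  have hXi : (B.X i)⁻¹ = B.R (l1 i) * B.R (l0 i) := inv_eq_right_inv (pm_BaseA_Xinv B i)
  rw [hXi]
  calc B.X i * B.Y i * (B.R (l1 i) * B.R (l0 i)) * (B.Y i)⁻¹
      = B.X i * (B.Y i * (B.R (l1 i) * B.R (l0 i))) * (B.Y i)⁻¹ := by simp only [mul_assoc]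
    _ = B.X i * (B.R (l1 i) * B.R (l2 i) * B.Y i) * (B.Y i)⁻¹ := by rw [B.Y_conj]
    _ = B.X i * (B.R (l1 i) * B.R (l2 i)) * (B.Y i * (B.Y i)⁻¹) := by simp only [mul_assoc]
    _ = B.X i * (B.R (l1 i) * B.R (l2 i)) := by rw [mul_nonsing_inv _ hYu, mul_one]
    _ = B.R (l0 i) * (B.R (l1 i) * B.R (l1 i)) * B.R (l2 i) := by
        show B.R (l0 i) * B.R (l1 i) * (B.R (l1 i) * B.R (l2 i)) = _
        simp only [mul_assoc]
    _ = B.R (l0 i) * B.R (l2 i) := by rw [B.R_sq, mul_one]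

private theorem pm_BaseA_qq (i : Fin 3) : B.qq i ≠ 0 ∧
    (B.fd i)⁻¹ * B.sw i * B.fd i = !![0, (B.qq i)⁻¹; B.qq i, 0] := by
  set I : M2 := -!![Real.exp (B.Ld / 2), 0; 0, Real.exp (-(B.Ld / 2))] with hI
  set F : M2 := B.fd i with hF
  have hFd : F.det = 1 := B.fd_det i
  have hFu : IsUnit F.det := by rw [hFd]; exact isUnit_one
  have hXu : IsUnit (B.X i).det := by rw [pm_BaseA_Xdet]; exact isUnit_one
  have hYu : IsUnit (B.Y i).det := by rw [B.Y_det]; exact isUnit_one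
  set D : M2 := B.R (l0 i) * B.R (l2 i) with hD
  have hDc : B.X i * B.Y i * (B.X i)⁻¹ * (B.Y i)⁻¹ = D := pm_BaseA_com B i
  set s : M2 := B.sw i with hs
  have hsX : s * B.X i = B.Y i * s := sw_X B i
  have hsY : s * B.Y i = B.X i * s := sw_Y B i
  have hsX' : s * (B.X i)⁻¹ = (B.Y i)⁻¹ * s := by
    calc s * (B.X i)⁻¹ = ((B.Y i)⁻¹ * B.Y i) * s * (B.X i)⁻¹ := by
          rw [nonsing_inv_mul _ hYu, one_mul]
      _ = (B.Y i)⁻¹ * (B.Y i * s) * (B.X i)⁻¹ := by simp only [mul_assoc]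
      _ = (B.Y i)⁻¹ * (s * B.X i) * (B.X i)⁻¹ := by rw [hsX]
      _ = (B.Y i)⁻¹ * s * (B.X i * (B.X i)⁻¹) := by simp only [mul_assoc]
      _ = (B.Y i)⁻¹ * s := by rw [mul_nonsing_inv _ hXu, mul_one]
  have hsY' : s * (B.Y i)⁻¹ = (B.X i)⁻¹ * s := by
    calc s * (B.Y i)⁻¹ = ((B.X i)⁻¹ * B.X i) * s * (B.Y i)⁻¹ := by
          rw [nonsing_inv_mul _ hXu, one_mul]
      _ = (B.X i)⁻¹ * (B.X i * s) * (B.Y i)⁻¹ := by simp only [mul_assoc]
      _ = (B.X i)⁻¹ * (s * B.Y i) * (B.Y i)⁻¹ := by rw [hsY]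
      _ = (B.X i)⁻¹ * s * (B.Y i * (B.Y i)⁻¹) := by simp only [mul_assoc]
      _ = (B.X i)⁻¹ * s := by rw [mul_nonsing_inv _ hYu, mul_one]
  set D' : M2 := B.Y i * B.X i * (B.Y i)⁻¹ * (B.X i)⁻¹ with hD'
  have hsD : s * D = D' * s := by
    rw [← hDc]
    calc s * (B.X i * B.Y i * (B.X i)⁻¹ * (B.Y i)⁻¹)
        = (s * B.X i) * B.Y i * (B.X i)⁻¹ * (B.Y i)⁻¹ := by simp only [mul_assoc]
      _ = B.Y i * (s * B.Y i) * (B.X i)⁻¹ * (B.Y i)⁻¹ := by rw [hsX]; simp only [mul_assoc]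
      _ = B.Y i * B.X i * (s * (B.X i)⁻¹) * (B.Y i)⁻¹ := by rw [hsY]; simp only [mul_assoc]
      _ = B.Y i * B.X i * (B.Y i)⁻¹ * (s * (B.Y i)⁻¹) := by rw [hsX']; simp only [mul_assoc]
      _ = D' * s := by rw [hsY', hD']; simp only [mul_assoc]
  have hD'D : D' * D = 1 := by
    rw [← hDc, hD']
    calc B.Y i * B.X i * (B.Y i)⁻¹ * (B.X i)⁻¹ * (B.X i * B.Y i * (B.X i)⁻¹ * (B.Y i)⁻¹)
        = B.Y i * B.X i * (B.Y i)⁻¹ * ((B.X i)⁻¹ * B.X i) * B.Y i * (B.X i)⁻¹ * (B.Y i)⁻¹ := by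
          simp only [mul_assoc]
      _ = B.Y i * B.X i * ((B.Y i)⁻¹ * B.Y i) * (B.X i)⁻¹ * (B.Y i)⁻¹ := by
          rw [nonsing_inv_mul _ hXu, mul_one]; simp only [mul_assoc]
      _ = B.Y i * (B.X i * (B.X i)⁻¹) * (B.Y i)⁻¹ := by
          rw [nonsing_inv_mul _ hYu, mul_one]; simp only [mul_assoc]
      _ = 1 := by rw [mul_nonsing_inv _ hXu, mul_one, mul_nonsing_inv _ hYu]
  have hDF : D * F = F * eg B.Ld := B.fd_eig i
  have hD'F : D' * F = F * I := by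
    have h1 : F = D * F * I := by
      rw [hDF, mul_assoc, pm_BaseA_eg, mul_one]
    calc D' * F = D' * (D * F * I) := by rw [← h1]
      _ = (D' * D) * F * I := by simp only [mul_assoc]
      _ = F * I := by rw [hD'D, one_mul]
  have hFD' : F⁻¹ * D' = I * F⁻¹ := by
    calc F⁻¹ * D' = F⁻¹ * (D' * F) * F⁻¹ := by
          rw [mul_assoc, mul_assoc, mul_nonsing_inv F hFu, mul_one]
      _ = F⁻¹ * (F * I) * F⁻¹ := by rw [hD'F]
      _ = I * F⁻¹ := by rw [← mul_assoc, nonsing_inv_mul F hFu, one_mul]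
  have hN : (F⁻¹ * s * F) * eg B.Ld = I * (F⁻¹ * s * F) := by
    calc (F⁻¹ * s * F) * eg B.Ld = F⁻¹ * s * (F * eg B.Ld) := by simp only [mul_assoc]
      _ = F⁻¹ * s * (D * F) := by rw [hDF]
      _ = F⁻¹ * (s * D) * F := by simp only [mul_assoc]
      _ = (F⁻¹ * D') * s * F := by rw [hsD]; simp only [mul_assoc]
      _ = I * (F⁻¹ * s * F) := by rw [hFD']; simp only [mul_assoc]
  have hNd : (F⁻¹ * s * F).det = -1 := by
    rw [det_mul, det_mul, det_nonsing_inv, hFd, sw_det]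
    simp
  exact pm_BaseA_anti B.Ld B.hLd _ hNd hN

theorem qq_ne (i : Fin 3) : B.qq i ≠ 0 := (pm_BaseA_qq B i).1

theorem Y_fp (i : Fin 3) : B.Y i * B.fp i = B.fm i * J2 * !![B.eta i, 0; 0, (B.eta i)⁻¹] := by
  have hPd : (B.fm i * J2).det = 1 := by rw [det_mul, B.fm_det, pm_BaseA_J2, one_mul]
  have hPu : IsUnit (B.fm i * J2).det := by rw [hPd]; exact isUnit_one
  rw [← (pm_BaseA_eta B i).2, mul_assoc (B.fm i * J2)⁻¹, ← mul_assoc (B.fm i * J2),
    mul_nonsing_inv _ hPu, one_mul]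

theorem sw_fd (i : Fin 3) : B.sw i * B.fd i = B.fd i * !![0, (B.qq i)⁻¹; B.qq i, 0] := by
  have hFu : IsUnit (B.fd i).det := by rw [B.fd_det]; exact isUnit_one
  rw [← (pm_BaseA_qq B i).2, mul_assoc (B.fd i)⁻¹, ← mul_assoc (B.fd i),
    mul_nonsing_inv _ hFu, one_mul]

theorem X_det (i : Fin 3) : (B.X i).det = 1 := pm_BaseA_Xdet B i

/-- `[X, Y] = R_{2i} R_{2i+2}` -/
theorem com_XY (i : Fin 3) : B.X i * B.Y i * (B.X i)⁻¹ * (B.Y i)⁻¹ = B.R (l0 i) * B.R (l2 i) :=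
  pm_BaseA_com B i

theorem X_rot (i : Fin 3) : B.X (i + 1) * B.rt = B.rt * B.X i := pm_BaseA_Xrot B i

private theorem pm_BaseB_P2sq : P2 * P2 = 1 := by
  ext i j
  fin_cases i <;> fin_cases j <;> simp [P2, Matrix.mul_apply, Fin.sum_univ_two]

private theorem pm_BaseB_P2inv : P2⁻¹ = P2 := Matrix.inv_eq_right_inv pm_BaseB_P2sq

private theorem pm_BaseB_P2det : P2.det = -1 := by
  simp [P2, Matrix.det_fin_two]

private theorem pm_BaseB_P2J2 : P2 * J2 = -(J2 * P2) := by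
  ext i j
  fin_cases i <;> fin_cases j <;> simp [P2, J2, Matrix.mul_apply, Fin.sum_univ_two]

private theorem pm_BaseB_conj (A : M2) : P2 * A * P2 = !![A 1 1, A 1 0; A 0 1, A 0 0] := by
  have h : A = !![A 0 0, A 0 1; A 1 0, A 1 1] := Matrix.eta_fin_two A
  generalize A 0 0 = a at *
  generalize A 0 1 = b at *
  generalize A 1 0 = c at *
  generalize A 1 1 = d at *
  subst h
  simp only [P2, Matrix.mul_fin_two]
  congr! <;> ring

private theorem pm_BaseB_PB_conj {lo hi : ℝ} {A : M2} (h : PB lo hi A) :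
    PB lo hi (P2 * A * P2) := by
  obtain ⟨σ, hσ, h⟩ := h
  refine ⟨σ, hσ, ?_⟩
  rw [pm_BaseB_conj]
  intro i j
  fin_cases i <;> fin_cases j
  · exact h 1 1
  · exact h 1 0
  · exact h 0 1
  · exact h 0 0

private theorem pm_BaseB_PB_neg {lo hi : ℝ} {A : M2} (h : PB lo hi A) : PB lo hi (-A) := by
  obtain ⟨σ, hσ, h⟩ := h
  refine ⟨-σ, ?_, ?_⟩
  · rcases hσ with h1 | h1
    · right; rw [h1]
    · left; rw [h1]; norm_num
  · intro i j
    have := h i j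
    rw [Matrix.neg_apply, neg_mul_neg]
    exact this

private theorem pm_BaseB_PB_mono {lo hi hi' : ℝ} {A : M2} (h : PB lo hi A) (hh : hi ≤ hi') :
    PB lo hi' A := by
  obtain ⟨σ, hσ, h⟩ := h
  exact ⟨σ, hσ, fun i j => ⟨(h i j).1, (h i j).2.trans hh⟩⟩

private theorem pm_BaseB_eig {R₀ R₂ f : M2} {L : ℝ} (h0 : R₀ * R₀ = 1) (h2 : R₂ * R₂ = 1)
    (h : R₀ * R₂ * f = f * eg L) : R₂ * R₀ * (f * J2) = f * J2 * eg L := by
  have hJ : eg L * (J2 * eg L) = J2 := by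
    have e1 : Real.exp (-(L / 2)) * Real.exp (L / 2) = 1 := by
      rw [← Real.exp_add]; simp
    have e2 : Real.exp (L / 2) * Real.exp (-(L / 2)) = 1 := by
      rw [← Real.exp_add]; simp
    ext i j
    fin_cases i <;> fin_cases j <;>
      simp [eg, J2, Matrix.mul_apply, Fin.sum_univ_two, e1, e2]
  have h3 : R₂ * R₀ * (R₀ * R₂) = 1 := by
    calc R₂ * R₀ * (R₀ * R₂) = R₂ * (R₀ * R₀) * R₂ := by simp only [mul_assoc]
      _ = 1 := by rw [h0, mul_one, h2]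
  calc R₂ * R₀ * (f * J2) = R₂ * R₀ * (f * (eg L * (J2 * eg L))) := by rw [hJ]
    _ = R₂ * R₀ * ((f * eg L) * (J2 * eg L)) := by simp only [mul_assoc]
    _ = R₂ * R₀ * ((R₀ * R₂ * f) * (J2 * eg L)) := by rw [h]
    _ = (R₂ * R₀ * (R₀ * R₂)) * (f * J2 * eg L) := by simp only [mul_assoc]
    _ = f * J2 * eg L := by rw [h3, one_mul]

private theorem pm_BaseB_port (i : Fin 3) (p : QI) (hp : p ∈ SH i) :
    ∃ L : ℝ, 0 ≤ L ∧ L ≤ max B.Ld B.Lm ∧
      B.R (aI p) * B.R (bI p) * B.fI p = B.fI p * eg L := by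
  simp only [SH, Set.mem_insert_iff, Set.mem_singleton_iff] at hp
  rcases hp with rfl | rfl | rfl
  · refine ⟨B.Ld, B.hLd.le, le_max_left _ _, ?_⟩
    exact pm_BaseB_eig (B.R_sq _) (B.R_sq _) (B.fd_eig i)
  · exact ⟨B.Lm, B.hLm.le, le_max_right _ _, B.fp_eig i⟩
  · exact ⟨B.Lm, B.hLm.le, le_max_right _ _, B.fm_eig i⟩

private theorem pm_BaseB_hE {Ra Rb f : M2} {m L : ℝ} (hm : m ≠ 0) (hf : f.det = 1)
    (haa : Ra * Ra = 1) (hE : f⁻¹ * Ra * f = !![0, m; 1 / m, 0])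
    (h : Ra * Rb * f = f * eg L) :
    P2 * (f⁻¹ * Rb * f) * P2 =
      !![0, -(Real.exp (-(L / 2)) / m); 1 / -(Real.exp (-(L / 2)) / m), 0] := by
  have hfu : IsUnit f.det := by rw [hf]; exact isUnit_one
  have hff : f⁻¹ * f = 1 := Matrix.nonsing_inv_mul f hfu
  have h1 : f⁻¹ * Rb * f = !![0, m; 1 / m, 0] * eg L := by
    have e1 : Rb * f = Ra * (f * eg L) := by
      rw [← h]
      calc Rb * f = (Ra * Ra) * (Rb * f) := by rw [haa, one_mul]
        _ = Ra * (Ra * Rb * f) := by simp only [mul_assoc]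
    calc f⁻¹ * Rb * f = f⁻¹ * (Rb * f) := by rw [mul_assoc]
      _ = f⁻¹ * (Ra * (f * eg L)) := by rw [e1]
      _ = (f⁻¹ * Ra * f) * eg L := by simp only [mul_assoc]
      _ = _ := by rw [hE]
  rw [h1, pm_BaseB_conj]
  have hexp : Real.exp (L / 2) = (Real.exp (-(L / 2)))⁻¹ := by
    rw [Real.exp_neg, inv_inv]
  have hpos : Real.exp (-(L / 2)) ≠ 0 := (Real.exp_pos _).ne'
  ext i j
  fin_cases i <;> fin_cases j
  · simp [eg, Matrix.mul_apply, Fin.sum_univ_two]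
  · simp [eg, Matrix.mul_apply, Fin.sum_univ_two]
    field_simp
  · simp only [eg, Matrix.mul_apply, Fin.sum_univ_two, hexp]
    simp
    field_simp
  · simp [eg, Matrix.mul_apply, Fin.sum_univ_two]

/-- the mirrored polygon of a handle -/
theorem mirror (i : Fin 3) : ∃ M' : ℝ, PolySys (AH i) (SH i) (fun x => B.sw i * B.R x * (B.sw i)⁻¹)
    (fun x => B.sw i * B.k x * P2) (fun p => B.sw i * B.fI p * P2) bI aI B.lb B.mu M' := by
  have hP := B.polyH i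
  have hsu : IsUnit (B.sw i).det := by
    rw [sw_det]
    exact isUnit_one.neg
  have hss : (B.sw i)⁻¹ * B.sw i = 1 := Matrix.nonsing_inv_mul _ hsu
  have hss' : B.sw i * (B.sw i)⁻¹ = 1 := Matrix.mul_nonsing_inv _ hsu
  have hsdi : (B.sw i)⁻¹.det * (B.sw i).det = 1 := by
    rw [← Matrix.det_mul, hss, Matrix.det_one]
  have hM := hP.hM
  have hM0 : 0 < B.M := by linarith
  set mL : ℝ := max B.Ld B.Lm with hmL
  have hmL0 : 0 < mL := lt_max_of_lt_left B.hLd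
  have hex : 1 ≤ Real.exp (mL / 2) := Real.one_le_exp (by positivity)
  have hMM : B.M ≤ B.M * Real.exp (mL / 2) := le_mul_of_one_le_right hM0.le hex
  have c1 : ∀ (k R l : M2), (B.sw i * k * P2)⁻¹ * (B.sw i * R * (B.sw i)⁻¹) * (B.sw i * l * P2) =
      P2 * (k⁻¹ * R * l) * P2 := by
    intro k R l
    rw [Matrix.mul_inv_rev, Matrix.mul_inv_rev, pm_BaseB_P2inv]
    calc P2 * (k⁻¹ * (B.sw i)⁻¹) * (B.sw i * R * (B.sw i)⁻¹) * (B.sw i * l * P2)
        = P2 * (k⁻¹ * ((B.sw i)⁻¹ * B.sw i) * R * ((B.sw i)⁻¹ * B.sw i) * l) * P2 := by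
          simp only [mul_assoc]
      _ = _ := by rw [hss]; simp only [mul_one]
  have c2 : ∀ (k l : M2), (B.sw i * k * P2)⁻¹ * (B.sw i * l * P2) = P2 * (k⁻¹ * l) * P2 := by
    intro k l
    rw [Matrix.mul_inv_rev, Matrix.mul_inv_rev, pm_BaseB_P2inv]
    calc P2 * (k⁻¹ * (B.sw i)⁻¹) * (B.sw i * l * P2)
        = P2 * (k⁻¹ * ((B.sw i)⁻¹ * B.sw i) * l) * P2 := by
          simp only [mul_assoc]
      _ = _ := by rw [hss]; simp only [mul_one]
  have c3 : ∀ A : M2, P2 * A * P2 * J2 = -(P2 * (A * J2) * P2) := by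
    intro A
    calc P2 * A * P2 * J2 = P2 * A * (P2 * J2) := by simp only [mul_assoc]
      _ = P2 * A * (-(J2 * P2)) := by rw [pm_BaseB_P2J2]
      _ = -(P2 * A * (J2 * P2)) := by rw [mul_neg]
      _ = _ := by simp only [mul_assoc]
  refine ⟨B.M * Real.exp (mL / 2), ?_⟩
  refine ⟨hP.hl, hP.hmu, hM.trans hMM, ?_, ?_, ?_, ?_, ?_, ?_, ?_, ?_, ?_, ?_⟩
  · intro x hx
    change B.sw i * B.R x * (B.sw i)⁻¹ * (B.sw i * B.R x * (B.sw i)⁻¹) = 1
    calc B.sw i * B.R x * (B.sw i)⁻¹ * (B.sw i * B.R x * (B.sw i)⁻¹)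
        = B.sw i * (B.R x * ((B.sw i)⁻¹ * B.sw i) * B.R x) * (B.sw i)⁻¹ := by
          simp only [mul_assoc]
      _ = 1 := by rw [hss, mul_one, B.R_sq, mul_one, hss']
  · intro x hx
    rw [Matrix.det_mul, Matrix.det_mul, B.R_det]
    linear_combination (-1 : ℝ) * hsdi
  · intro x hx
    rw [Matrix.det_mul, Matrix.det_mul, hP.hkd x hx, pm_BaseB_P2det, sw_det]
    norm_num
  · intro p hp
    rw [Matrix.det_mul, Matrix.det_mul, hP.hfd p hp, pm_BaseB_P2det, sw_det]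
    norm_num
  · intro p hp
    obtain ⟨h1, h2, h3⟩ := hP.hab p hp
    exact ⟨h2, h1, h3.symm⟩
  · intro x hx y hy hxy
    change PB _ _ ((B.sw i * B.k x * P2)⁻¹ * (B.sw i * B.R x * (B.sw i)⁻¹) * (B.sw i * B.k y * P2))
    rw [c1]
    exact pm_BaseB_PB_conj (pm_BaseB_PB_mono (hP.hL x hx y hy hxy) hMM)
  · intro p hp x hx h1 h2
    change PB _ _ ((B.sw i * B.fI p * P2)⁻¹ * (B.sw i * B.k x * P2))
    rw [c2]
    exact pm_BaseB_PB_conj (pm_BaseB_PB_mono (hP.hin p hp x hx h2 h1) hMM)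
  · intro p hp x hx h1 h2
    change PB _ _ ((B.sw i * B.k x * P2)⁻¹ * (B.sw i * B.R x * (B.sw i)⁻¹) *
      (B.sw i * B.fI p * P2) * J2)
    rw [c1, c3]
    exact pm_BaseB_PB_neg (pm_BaseB_PB_conj (pm_BaseB_PB_mono (hP.hout p hp x hx h2 h1) hMM))
  · intro p hp q hq hpq
    change PB _ _ ((B.sw i * B.fI p * P2)⁻¹ * (B.sw i * B.fI q * P2) * J2)
    rw [c2, c3]
    exact pm_BaseB_PB_neg (pm_BaseB_PB_conj (pm_BaseB_PB_mono (hP.hdir p hp q hq hpq) hMM))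
  · intro p hp
    obtain ⟨m, hm1, hm2, hm3⟩ := hP.hE p hp
    obtain ⟨L, hL0, hLm, hL⟩ := pm_BaseB_port B i p hp
    have hmpos : 0 < |m| := lt_of_lt_of_le (by positivity) hm1
    have hm0 : m ≠ 0 := abs_pos.1 hmpos
    have hE := pm_BaseB_hE hm0 (hP.hfd p hp) (B.R_sq _) hm3 hL
    refine ⟨-(Real.exp (-(L / 2)) / m), ?_, ?_, ?_⟩
    · rw [abs_neg, abs_div, abs_of_pos (Real.exp_pos _)]
      rw [div_le_div_iff₀ (by positivity) hmpos, one_mul]
      have e1 : Real.exp (-(L / 2)) * Real.exp (mL / 2) ≥ 1 := by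
        rw [← Real.exp_add]
        exact Real.one_le_exp (by linarith)
      calc |m| ≤ B.M := hm2
        _ = B.M * 1 := (mul_one _).symm
        _ ≤ B.M * (Real.exp (-(L / 2)) * Real.exp (mL / 2)) :=
            mul_le_mul_of_nonneg_left e1 hM0.le
        _ = Real.exp (-(L / 2)) * (B.M * Real.exp (mL / 2)) := by ring
    · rw [abs_neg, abs_div, abs_of_pos (Real.exp_pos _)]
      rw [div_le_iff₀ hmpos]
      have e1 : Real.exp (-(L / 2)) ≤ 1 := by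
        rw [Real.exp_le_one_iff]
        linarith
      have e2 : 1 ≤ B.M * |m| := by
        rw [div_le_iff₀ hM0] at hm1
        linarith
      have e3 : B.M * |m| ≤ B.M * Real.exp (mL / 2) * |m| :=
        mul_le_mul_of_nonneg_right hMM hmpos.le
      linarith
    · change (B.sw i * B.fI p * P2)⁻¹ * (B.sw i * B.R (bI p) * (B.sw i)⁻¹) *
        (B.sw i * B.fI p * P2) = _
      rw [c1, hE]

end Base

end

end PM3
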