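import Mathlib

/-! Abstract counting along a path of length functions. -/

namespace PM3
open Filter Topology MeasureTheory

noncomputable section

variable {𝒞 : Type*}

def cR (ℓ : 𝒞 → ℝ) (T : ℝ) : Set 𝒞 := {κ | ℓ κ ≤ T}

/-- average of `f/ℓ` over `R_T` -/
def cAvg (ℓ f : 𝒞 → ℝ) (T : ℝ) : ℝ := (∑ᶠ κ ∈ cR ℓ T, f κ / ℓ κ) / ((cR ℓ T).ncard : ℝ)

def cEnt (ℓ : 𝒞 → ℝ) : ℝ := limsup (fun T : ℝ => Real.log ((cR ℓ T).ncard) / T) atTop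

def cInt (ℓ f : 𝒞 → ℝ) : ℝ := limsup (fun T : ℝ => cAvg ℓ f T) atTop

def cJ (ℓ f : 𝒞 → ℝ) : ℝ := cEnt f / cEnt ℓ * cInt ℓ f

def cSpeedSq (ℓ : ℝ → 𝒞 → ℝ) (t : ℝ) : ENNReal :=
  limsup (fun s : ℝ => ENNReal.ofReal (2 * (cJ (ℓ t) (ℓ s) - 1) / (s - t) ^ 2)) (𝓝[≠] t)

def cLen (ℓ : ℝ → 𝒞 → ℝ) (a b : ℝ) : ENNReal := ∫⁻ t in Set.Icc a b, (cSpeedSq ℓ t) ^ ((1 : ℝ) / 2)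

/-- hypotheses of the move lemma -/
structure MoveHyp (ℓ : ℝ → 𝒞 → ℝ) (i : 𝒞 → ℝ) (a b C β : ℝ) : Prop where
  hab : a < b
  hC : 0 ≤ C
  hβ : 0 < β
  hβ1 : β ≤ 1
  pos : ∀ t ∈ Set.Icc a b, ∀ κ, 0 < ℓ t κ
  inn : ∀ κ, 0 ≤ i κ
  fin : ∀ t ∈ Set.Icc a b, ∀ T, (cR (ℓ t) T).Finite
  reg1 : ∀ s ∈ Set.Icc a b, ∀ t ∈ Set.Icc a b, ∀ κ, |ℓ s κ - ℓ t κ| ≤ C * i κ * |s - t|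
  reg2 : ∃ u₀ > 0, ∀ t u, |u| ≤ u₀ → t - u ∈ Set.Icc a b → t + u ∈ Set.Icc a b →
    ∀ κ, ℓ (t + u) κ + ℓ (t - u) κ - 2 * ℓ t κ ≤ C * i κ * u ^ 2
  lim : ∀ t ∈ Set.Icc a b, ∃ h > 0,
    Tendsto (fun T : ℝ => Real.log ((cR (ℓ t) T).ncard) / T) atTop (𝓝 h)
  bd : ∀ t ∈ Set.Icc a b, ∀ β' > β, ∀ᶠ T in atTop, cAvg (ℓ t) i T ≤ β'

end

end PM3
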