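import Pool.Agent.LibPM3.MatA
import Pool.Agent.LibPM3.MoveDefs

/-! [PM3 Bridge] the abstract counting quantities and the pressure length. -/

namespace PM3
open Matrix Filter Topology MeasureTheory
open scoped MatrixGroups

noncomputable section

/-- nontrivial conjugacy classes -/
abbrev Cls : Type := {κ : ConjClasses Surf // κ ≠ 1}

private theorem pm_Bridge1_RT (ρ : Rep) (T : ℝ) :
    RT ρ T = (Subtype.val : Cls → ConjClasses Surf) '' cR (fun κ : Cls => ellC ρ κ.1) T := by
  ext κ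
  constructor
  · rintro ⟨h1, h2⟩
    exact ⟨⟨κ, h1⟩, h2, rfl⟩
  · rintro ⟨κ', h, rfl⟩
    exact ⟨κ'.2, h⟩

private theorem pm_Bridge1_ncard (ρ : Rep) (T : ℝ) :
    (RT ρ T).ncard = (cR (fun κ : Cls => ellC ρ κ.1) T).ncard := by
  rw [pm_Bridge1_RT, Set.ncard_image_of_injective _ Subtype.val_injective]

private theorem pm_Bridge1_ent (ρ : Rep) : ent ρ = cEnt (fun κ : Cls => ellC ρ κ.1) := by
  unfold ent cEnt
  simp only [pm_Bridge1_ncard]

private theorem pm_Bridge1_inter (ρ σ : Rep) :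
    inter ρ σ = cInt (fun κ : Cls => ellC ρ κ.1) (fun κ : Cls => ellC σ κ.1) := by
  unfold inter cInt cAvg
  have h : ∀ T : ℝ, (∑ᶠ κ ∈ RT ρ T, ellC σ κ / ellC ρ κ) =
      ∑ᶠ κ ∈ cR (fun κ : Cls => ellC ρ κ.1) T, ellC σ κ.1 / ellC ρ κ.1 := by
    intro T
    rw [pm_Bridge1_RT]
    exact finsum_mem_image (Subtype.val_injective.injOn)
  simp only [pm_Bridge1_ncard, h]

/-- the pressure length is the abstract length -/
theorem len_eq (c : ℝ → Rep) (a b : ℝ) :
    len c a b = cLen (fun t (κ : Cls) => ellC (c t) κ.1) a b := by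
  have h : ∀ ρ σ : Rep, renJ ρ σ =
      cJ (fun κ : Cls => ellC ρ κ.1) (fun κ : Cls => ellC σ κ.1) := by
    intro ρ σ
    unfold renJ cJ
    rw [pm_Bridge1_ent, pm_Bridge1_ent, pm_Bridge1_inter]
  unfold len cLen speedSq cSpeedSq
  simp only [h]

private theorem pm_Bridge1_lam (A B : SL(3, ℝ)) :
    lam ((A * B * A⁻¹ : SL(3, ℝ)) : M3) = lam (B : M3) := by
  have h := lam_conj (Matrix.SpecialLinearGroup.toGL A) (B : M3)
  rw [← map_inv] at h
  exact h

/-- `ell` is a class function -/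
theorem ell_conj (ρ : Rep) {γ γ' : Surf} (h : IsConj γ γ') : ell ρ γ = ell ρ γ' := by
  obtain ⟨c, hc⟩ := isConj_iff.mp h
  unfold ell
  rw [← hc, map_mul, map_mul, map_inv, pm_Bridge1_lam]

/-- conjugation of the representation -/
theorem ell_conj_rep (ρ : Rep) (g : SL(3, ℝ)) (γ : Surf) :
    ell ((MulAut.conj g).toMonoidHom.comp ρ) γ = ell ρ γ := by
  unfold ell
  have : ((MulAut.conj g).toMonoidHom.comp ρ) γ = g * ρ γ * g⁻¹ := rfl
  rw [this, pm_Bridge1_lam]

theorem pm_Bridge2_ind {Y : Type*} (P : (Y → ℝ) → Prop) (hconst : ∀ a : ℝ, P (fun _ => a))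
    (hadd : ∀ f g : Y → ℝ, P f → P g → P (fun y => f y + g y))
    (hmul : ∀ f g : Y → ℝ, P f → P g → P (fun y => f y * g y)) (c : Y → Rep)
    (h : ∀ k i j, P (fun t => (c t (sx k) : M3) i j) ∧ P (fun t => (c t (sy k) : M3) i j))
    (γ : Surf) : ∀ i j, P (fun t => (c t γ : M3) i j) := by
  have hsub : ∀ f g : Y → ℝ, P f → P g → P (fun y => f y - g y) := by
    intro f g hf hg
    have := hadd f (fun y => (-1) * g y) hf (hmul (fun _ => -1) g (hconst _) hg)
    have e : (fun y => f y - g y) = fun y => f y + (-1) * g y := by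
      funext y
      ring
    rw [e]
    exact this
  have htop : γ ∈ Subgroup.closure (Set.range (PresentedGroup.of (rels := {relator}))) := by
    rw [PresentedGroup.closure_range_of]
    trivial
  induction htop using Subgroup.closure_induction with
  | mem x hx =>
    obtain ⟨g, rfl⟩ := hx
    cases g with
    | x k => exact fun i j => (h k i j).1
    | y k => exact fun i j => (h k i j).2
  | one =>
    intro i j
    have e : (fun t => (c t (1 : Surf) : M3) i j) = fun _ => (1 : M3) i j := by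
      funext t
      rw [map_one]
      rfl
    rw [e]
    exact hconst _
  | mul x y _ _ hx hy =>
    intro i j
    have e : (fun t => (c t (x * y) : M3) i j) = fun t =>
        ((c t x : M3) i 0 * (c t y : M3) 0 j + (c t x : M3) i 1 * (c t y : M3) 1 j)
          + (c t x : M3) i 2 * (c t y : M3) 2 j := by
      funext t
      have e1 : (c t (x * y) : M3) = (c t x : M3) * (c t y : M3) :=
        (congrArg Subtype.val (map_mul (c t) x y)).trans (Matrix.SpecialLinearGroup.coe_mul _ _)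
      rw [e1, Matrix.mul_apply, Fin.sum_univ_three]
    rw [e]
    exact hadd _ _ (hadd _ _ (hmul _ _ (hx _ _) (hy _ _)) (hmul _ _ (hx _ _) (hy _ _)))
      (hmul _ _ (hx _ _) (hy _ _))
  | inv x _ hx =>
    have e : ∀ t, (c t x⁻¹ : M3) = (c t x : M3).adjugate := fun t =>
      (congrArg Subtype.val (map_inv (c t) x)).trans (Matrix.SpecialLinearGroup.coe_inv _)
    have hn : ∀ f : Y → ℝ, P f → P (fun y => -f y) := by
      intro f hf
      have := hsub (fun _ => 0) f (hconst _) hf
      simpa using this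
    have hm2 : ∀ a b a' b' : Fin 3, P (fun t => (c t x : M3) a b * (c t x : M3) a' b') :=
      fun a b a' b' => hmul _ _ (hx _ _) (hx _ _)
    intro i j
    simp only [e, Matrix.adjugate_fin_three]
    fin_cases i <;> fin_cases j <;>
      simp only [Fin.zero_eta, Fin.mk_one, Fin.reduceFinMk, Matrix.of_apply, Matrix.cons_val] <;>
      first
        | exact hsub _ _ (hm2 _ _ _ _) (hm2 _ _ _ _)
        | exact hadd _ _ (hn _ (hm2 _ _ _ _)) (hm2 _ _ _ _)

/-- smooth paths: enough on the generators -/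
theorem smoothPath_of_gens (c : ℝ → Rep)
    (h : ∀ k i j, ContDiff ℝ (⊤ : ℕ∞) (fun t => (c t (sx k) : M3) i j) ∧
      ContDiff ℝ (⊤ : ℕ∞) (fun t => (c t (sy k) : M3) i j)) : SmoothPath c := by
  intro γ
  exact pm_Bridge2_ind (fun f : ℝ → ℝ => ContDiff ℝ (⊤ : ℕ∞) f) (fun a => contDiff_const)
    (fun f g hf hg => hf.add hg) (fun f g hf hg => hf.mul hg) c h γ

/-- continuity into `Rep`: enough on the generators -/
theorem continuous_of_gens {Y : Type*} [TopologicalSpace Y] (c : Y → Rep)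
    (h : ∀ k i j, Continuous (fun t => (c t (sx k) : M3) i j) ∧
      Continuous (fun t => (c t (sy k) : M3) i j)) : Continuous c := by
  have key : ∀ γ i j, Continuous (fun t => (c t γ : M3) i j) := fun γ =>
    pm_Bridge2_ind (fun f : Y → ℝ => Continuous f) (fun a => continuous_const)
      (fun f g hf hg => hf.add hg) (fun f g hf hg => hf.mul hg) c h γ
  rw [continuous_induced_rng]
  refine continuous_pi fun γ => ?_
  refine continuous_induced_rng.2 ?_
  exact continuous_matrix fun i j => key γ i j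

/-- `Hit` is stable along paths -/
theorem hit_of_joined {Y : Type*} [TopologicalSpace Y] [PreconnectedSpace Y] (c : Y → Rep)
    (hc : Continuous c) {y₀ : Y} (h : c y₀ ∈ Hit) (y : Y) : c y ∈ Hit := by
  obtain ⟨ρ₀, h0, h1⟩ := h
  refine ⟨ρ₀, h0, ?_⟩
  rw [connectedComponent_eq h1]
  exact (isPreconnected_range hc).subset_connectedComponent (Set.mem_range_self y₀)
    (Set.mem_range_self y)

private theorem pm_Bridge3_cont (φ : MulAut Surf) : Continuous (act φ) := by
  refine continuous_induced_rng.2 (continuous_pi fun γ => ?_)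
  exact (continuous_apply ((φ⁻¹ : MulAut Surf) γ)).comp continuous_induced_dom

theorem hit_act {ρ : Rep} (h : ρ ∈ Hit) (φ : MulAut Surf) : act φ ρ ∈ Hit := by
  obtain ⟨ρ₀, hF, hρ⟩ := h
  refine ⟨ρ₀.comp (φ⁻¹ : MulAut Surf).toMonoidHom, ?_, ?_⟩
  · obtain ⟨U, hU, hU'⟩ := hF
    refine ⟨U, hU, fun γ hγ => ?_⟩
    have h1 : (φ⁻¹ : MulAut Surf) γ = 1 := hU' _ hγ
    exact (map_eq_one_iff _ (φ⁻¹ : MulAut Surf).injective).1 h1
  · exact (pm_Bridge3_cont φ).image_connectedComponent_subset _ ⟨ρ, hρ, rfl⟩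

/-- the action on the conjugacy classes -/
private def pm_Bridge3_map (φ : MulAut Surf) : ConjClasses Surf ≃ ConjClasses Surf where
  toFun := ConjClasses.map φ.toMonoidHom
  invFun := ConjClasses.map (φ⁻¹ : MulAut Surf).toMonoidHom
  left_inv κ := by
    refine Quotient.inductionOn κ fun γ => ?_
    change ConjClasses.mk ((φ⁻¹ : MulAut Surf) (φ γ)) = ConjClasses.mk γ
    rw [MulAut.inv_apply_self]
  right_inv κ := by
    refine Quotient.inductionOn κ fun γ => ?_
    change ConjClasses.mk (φ ((φ⁻¹ : MulAut Surf) γ)) = ConjClasses.mk γ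
    rw [MulAut.apply_inv_self]

private theorem pm_Bridge3_one (φ : MulAut Surf) (κ : ConjClasses Surf) :
    pm_Bridge3_map φ κ = 1 ↔ κ = 1 := by
  have h1 : pm_Bridge3_map φ 1 = 1 := by
    change ConjClasses.mk (φ 1) = ConjClasses.mk 1
    rw [map_one]
  rw [← h1]
  exact (pm_Bridge3_map φ).injective.eq_iff.trans (by rw [h1])

private theorem pm_Bridge3_ellC (φ : MulAut Surf) (ρ : Rep) (κ : ConjClasses Surf) :
    ellC (act φ ρ) κ = ellC ρ (pm_Bridge3_map φ⁻¹ κ) := by
  have h1 : ellC (act φ ρ) κ = ell ρ ((φ⁻¹ : MulAut Surf) (Quotient.out κ)) := rfl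
  rw [h1]
  unfold ellC
  refine ell_conj ρ ?_
  rw [← ConjClasses.mk_eq_mk_iff_isConj]
  have h2 : ConjClasses.mk (Quotient.out (pm_Bridge3_map φ⁻¹ κ)) = pm_Bridge3_map φ⁻¹ κ :=
    Quotient.out_eq _
  have h3 : ConjClasses.mk (Quotient.out κ) = κ := Quotient.out_eq _
  rw [h2]
  conv_rhs => rw [← h3]
  rfl

private theorem pm_Bridge3_RT (φ : MulAut Surf) (ρ : Rep) (T : ℝ) :
    RT (act φ ρ) T = pm_Bridge3_map φ⁻¹ ⁻¹' RT ρ T := by
  ext κ
  unfold RT
  rw [Set.mem_preimage, Set.mem_ofPred_eq, Set.mem_ofPred_eq, pm_Bridge3_ellC]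
  rw [Ne, Ne, pm_Bridge3_one]

private theorem pm_Bridge3_card (φ : MulAut Surf) (ρ : Rep) (T : ℝ) :
    (RT (act φ ρ) T).ncard = (RT ρ T).ncard := by
  rw [pm_Bridge3_RT, ← Equiv.image_symm_eq_preimage]
  exact Set.ncard_image_of_injective _ (Equiv.injective _)

private theorem pm_Bridge3_sum (φ : MulAut Surf) (ρ σ : Rep) (T : ℝ) :
    ∑ᶠ κ ∈ RT (act φ ρ) T, ellC (act φ σ) κ / ellC (act φ ρ) κ =
      ∑ᶠ κ ∈ RT ρ T, ellC σ κ / ellC ρ κ := by
  refine finsum_mem_eq_of_bijOn (pm_Bridge3_map φ⁻¹) ?_ fun κ _ => ?_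
  · rw [pm_Bridge3_RT]
    refine ⟨fun κ hκ => hκ, (Equiv.injective _).injOn, fun κ hκ => ?_⟩
    obtain ⟨κ', rfl⟩ := (pm_Bridge3_map φ⁻¹).surjective κ
    exact ⟨κ', hκ, rfl⟩
  · rw [pm_Bridge3_ellC, pm_Bridge3_ellC]

private theorem pm_Bridge3_renJ (φ : MulAut Surf) (ρ σ : Rep) :
    renJ (act φ ρ) (act φ σ) = renJ ρ σ := by
  unfold renJ ent inter
  simp only [pm_Bridge3_card, pm_Bridge3_sum]

private theorem pm_Bridge3_actinv (φ : MulAut Surf) (ρ : Rep) : act φ⁻¹ (act φ ρ) = ρ := by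
  refine MonoidHom.ext fun γ => ?_
  change ρ ((φ⁻¹ : MulAut Surf) ((φ⁻¹⁻¹ : MulAut Surf) γ)) = ρ γ
  rw [inv_inv, MulAut.inv_apply_self]

private theorem pm_Bridge3_reach (φ : MulAut Surf) {ρ σ : Rep} {L : ENNReal}
    (h : Reach ρ σ L) : Reach (act φ ρ) (act φ σ) L := by
  induction h with
  | conj ρ g => exact Reach.conj (act φ ρ) g
  | path c a b hab hc hH =>
    have h1 := Reach.path (fun t => act φ (c t)) a b hab
      (fun γ i j => hc ((φ⁻¹ : MulAut Surf) γ) i j) (fun t ht => hit_act (hH t ht) φ)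
    have h2 : len (fun t => act φ (c t)) a b = len c a b := by
      unfold len speedSq
      simp only [pm_Bridge3_renJ]
    rw [h2] at h1
    exact h1
  | trans _ _ h1 h2 => exact Reach.trans h1 h2

theorem dP_act (φ : MulAut Surf) (ρ σ : Rep) : dP (act φ ρ) (act φ σ) = dP ρ σ := by
  refine le_antisymm ?_ ?_
  · exact sInf_le_sInf fun L hL => pm_Bridge3_reach φ hL
  · refine sInf_le_sInf fun L hL => ?_
    have h1 := pm_Bridge3_reach φ⁻¹ (show Reach (act φ ρ) (act φ σ) L from hL)
    rw [pm_Bridge3_actinv, pm_Bridge3_actinv] at h1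
    exact h1

theorem dP_triangle (ρ σ τ : Rep) : dP ρ τ ≤ dP ρ σ + dP σ τ := by
  unfold dP
  rw [sInf_eq_iInf' {L | Reach ρ σ L}, ENNReal.iInf_add]
  refine le_iInf fun L => ?_
  rw [sInf_eq_iInf' {L | Reach σ τ L}, ENNReal.add_iInf]
  exact le_iInf fun L' => sInf_le (Reach.trans L.2 L'.2)

theorem act_mul (φ ψ : MulAut Surf) (ρ : Rep) : act (φ * ψ) ρ = act φ (act ψ ρ) := by
  refine MonoidHom.ext fun γ => ?_
  change ρ (((φ * ψ)⁻¹ : MulAut Surf) γ) = ρ ((ψ⁻¹ : MulAut Surf) ((φ⁻¹ : MulAut Surf) γ))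
  rw [_root_.mul_inv_rev]
  rfl

/-- inner automorphisms act trivially -/
theorem dP_inner (g : Surf) (ρ : Rep) : dP ρ (act (MulAut.conj g) ρ) = 0 := by
  have h1 := Reach.conj ρ (ρ g)⁻¹
  have e : (MulAut.conj (ρ g)⁻¹).toMonoidHom.comp ρ = act (MulAut.conj g) ρ := by
    refine MonoidHom.ext fun γ => ?_
    change MulAut.conj (ρ g)⁻¹ (ρ γ) = ρ (((MulAut.conj g)⁻¹ : MulAut Surf) γ)
    rw [MulAut.conj_inv_apply, MulAut.conj_apply, map_mul, map_mul, map_inv, inv_inv]
  rw [e] at h1
  exact le_antisymm (sInf_le h1) zero_le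

/-- reversal of a smooth path: lengths over `[a,b]` of `c` and of `t ↦ c (a + b - t)` agree -/
theorem len_reverse (c : ℝ → Rep) {a b : ℝ} (hab : a ≤ b) :
    len (fun t => c (a + b - t)) a b = len c a b := by
  have hsp : ∀ t, speedSq (fun t => c (a + b - t)) t = speedSq c (a + b - t) := by
    intro t
    have hmap : Filter.map (fun s : ℝ => a + b - s) (𝓝[≠] t) = 𝓝[≠] (a + b - t) := by
      have h1 := (Homeomorph.subLeft (a + b)).isEmbedding.map_nhdsWithin_eq {t}ᶜ t
      have h2 : (Homeomorph.subLeft (a + b)) '' {t}ᶜ = {a + b - t}ᶜ := by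
        rw [Set.image_compl_eq (Homeomorph.bijective _), Set.image_singleton]
        rfl
      rw [h2] at h1
      exact h1
    unfold speedSq
    rw [← hmap]
    have h3 : ∀ (u : ℝ → ENNReal) (g : ℝ → ℝ) (F : Filter ℝ),
        Filter.limsup u (Filter.map g F) = Filter.limsup (fun s => u (g s)) F := by
      intro u g F
      unfold Filter.limsup
      rw [Filter.map_map]
      rfl
    rw [h3]
    congr 1
    funext s
    rw [show (a + b - s - (a + b - t)) ^ 2 = (s - t) ^ 2 by ring]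
  unfold len
  simp only [hsp]
  have hmp := Measure.measurePreserving_sub_left (volume : Measure ℝ) (a + b)
  have h1 := hmp.setLIntegral_comp_preimage_emb
    (Homeomorph.subLeft (a + b)).measurableEmbedding
    (fun t => (speedSq c t) ^ ((1 : ℝ) / 2)) (Set.Icc a b)
  have h2 : (fun x : ℝ => a + b - x) ⁻¹' Set.Icc a b = Set.Icc a b := by
    ext x
    simp only [Set.mem_preimage, Set.mem_Icc]
    constructor <;> rintro ⟨h3, h4⟩ <;> constructor <;> linarith
  rw [h2] at h1
  exact h1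

private theorem pm_Bridge4_reach {ρ σ : Rep} {L : ENNReal} (h : Reach ρ σ L) :
    Reach σ ρ L := by
  induction h with
  | conj ρ g =>
    have h1 := Reach.conj ((MulAut.conj g).toMonoidHom.comp ρ) g⁻¹
    have e : (MulAut.conj g⁻¹).toMonoidHom.comp ((MulAut.conj g).toMonoidHom.comp ρ) = ρ := by
      refine MonoidHom.ext fun γ => ?_
      change MulAut.conj g⁻¹ (MulAut.conj g (ρ γ)) = ρ γ
      rw [map_inv, MulAut.inv_apply_self]
    rw [e] at h1
    exact h1
  | path c a b hab hc hH =>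
    have h1 := Reach.path (fun t => c (a + b - t)) a b hab
      (fun γ i j => (hc γ i j).comp (contDiff_const.sub contDiff_id))
      (fun t ht => hH _ ⟨by linarith [ht.2], by linarith [ht.1]⟩)
    rw [len_reverse c hab] at h1
    have h2 : Reach (c (a + b - a)) (c (a + b - b)) (len c a b) := h1
    rw [show a + b - a = b by ring, show a + b - b = a by ring] at h2
    exact h2
  | trans _ _ h1 h2 =>
    rw [add_comm]
    exact Reach.trans h2 h1

theorem dP_symm (ρ σ : Rep) : dP ρ σ = dP σ ρ :=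
  le_antisymm (sInf_le_sInf fun _ hL => pm_Bridge4_reach hL)
    (sInf_le_sInf fun _ hL => pm_Bridge4_reach hL)

/-- the group of mapping classes with small displacement: if every generator moves every base point in
some translate class by a small amount then all `tau` vanish -/
theorem tau_zero_of_gens (ρs : ℕ → Rep) (hH : ∀ n, ρs n ∈ Hit)
    (hX : ∀ i f, IsTwX i f → Tendsto (fun n => dP (ρs n) (act f (ρs n))) atTop (𝓝 0))
    (hY : ∀ i f, IsTwY i f → Tendsto (fun n => dP (ρs n) (act f (ρs n))) atTop (𝓝 0))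
    (hC : ∀ i f, IsTwC i f → Tendsto (fun n => dP (ρs n) (act f (ρs n))) atTop (𝓝 0)) :
    ∀ φ ∈ mcg, tau φ = 0 := by
  intro φ hφ
  have key : Tendsto (fun n => dP (ρs n) (act φ (ρs n))) atTop (𝓝 0) := by
    unfold mcg at hφ
    induction hφ using Subgroup.closure_induction with
    | mem f hf =>
      rcases hf with ⟨g, rfl⟩ | ⟨i, hf⟩ | ⟨i, hf⟩ | hf | hf
      · simp only [dP_inner]
        exact tendsto_const_nhds
      · exact hX i f hf
      · exact hY i f hf
      · exact hC 0 f hf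
      · exact hC 1 f hf
    | one =>
      have h1 : ∀ ρ : Rep, dP ρ (act 1 ρ) = 0 := by
        intro ρ
        have := dP_inner 1 ρ
        rwa [map_one] at this
      simp only [h1]
      exact tendsto_const_nhds
    | mul x y _ _ hx hy =>
      have h1 := hx.add hy
      rw [add_zero] at h1
      refine tendsto_of_tendsto_of_tendsto_of_le_of_le tendsto_const_nhds h1
        (fun n => zero_le) fun n => ?_
      change dP (ρs n) (act (x * y) (ρs n)) ≤ dP (ρs n) (act x (ρs n)) + dP (ρs n) (act y (ρs n))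
      rw [act_mul]
      refine (dP_triangle _ (act x (ρs n)) _).trans ?_
      rw [dP_act]
    | inv x _ hx =>
      have h1 : ∀ ρ : Rep, dP ρ (act x⁻¹ ρ) = dP ρ (act x ρ) := by
        intro ρ
        have e : act x (act x⁻¹ ρ) = ρ := by
          rw [← act_mul, mul_inv_cancel]
          exact MonoidHom.ext fun γ => rfl
        rw [← dP_act x ρ (act x⁻¹ ρ), e, dP_symm]
      simp only [h1]
      exact hx
  refine le_antisymm ?_ zero_le
  refine ge_of_tendsto' key fun n => ?_
  exact iInf₂_le (ρs n) (hH n)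

end

end PM3
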