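import Pool.Agent.LibPM3.GoGG

/-! [PM3 GoGH] further generic statements. -/

namespace PM3
open Matrix Filter Topology
open scoped MatrixGroups

noncomputable section

theorem pm_GoGH1_count {Γ : Type*} [Group Γ] {X : Subgroup Γ} {N : Γ → ℝ} (h1 : ∀ g ∈ X, 1 ≤ N g)
    {s : ℝ} (hs : 0 ≤ s) (h : poin X N s < ⊤) (T : ℝ) : (nX X N T).Finite ∧
      ((nX X N T).ncard : ℝ) ≤ (poin X N s).toReal * Real.exp (s * T) := by
  have he : ENNReal.ofReal (Real.exp (-(s * T))) ≠ 0 := by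
    rw [Ne, ENNReal.ofReal_eq_zero, not_le]
    exact Real.exp_pos _
  obtain ⟨hf, hcard⟩ := ENNReal.finset_card_const_le_le_of_tsum_le
    (a := fun g : X => ENNReal.ofReal ((N g) ^ (-s))) h.ne le_rfl he
  have hsub : ∀ g : X, N g ≤ Real.exp T →
      ENNReal.ofReal (Real.exp (-(s * T))) ≤ ENNReal.ofReal ((N g) ^ (-s)) := by
    intro g hg
    apply ENNReal.ofReal_le_ofReal
    have hN : 0 < N g := lt_of_lt_of_le one_pos (h1 g g.2)
    have e1 : Real.exp (-(s * T)) = (Real.exp T) ^ (-s) := by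
      rw [← Real.exp_mul]
      congr 1
      ring
    rw [e1]
    exact Real.rpow_le_rpow_of_nonpos hN hg (by linarith)
  have himg : nX X N T ⊆ (fun g : X => (g : Γ)) '' (hf.toFinset : Set X) := by
    rintro g ⟨hgX, hgT⟩
    refine ⟨⟨g, hgX⟩, ?_, rfl⟩
    rw [Set.Finite.coe_toFinset]
    exact hsub ⟨g, hgX⟩ hgT
  have hfin : (nX X N T).Finite := (hf.toFinset.finite_toSet.image _).subset himg
  refine ⟨hfin, ?_⟩
  have hc1 : (nX X N T).ncard ≤ hf.toFinset.card := by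
    refine (Set.ncard_le_ncard himg (hf.toFinset.finite_toSet.image _)).trans ?_
    refine (Set.ncard_image_le hf.toFinset.finite_toSet).trans ?_
    rw [Set.ncard_coe_finset]
  have hc2 : ((nX X N T).ncard : ENNReal) ≤
      poin X N s / ENNReal.ofReal (Real.exp (-(s * T))) := by
    refine le_trans ?_ hcard
    exact_mod_cast hc1
  have hd : poin X N s / ENNReal.ofReal (Real.exp (-(s * T))) ≠ ⊤ :=
    ENNReal.div_ne_top h.ne he
  have hc3 := ENNReal.toReal_mono hd hc2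
  rw [ENNReal.toReal_natCast, ENNReal.toReal_div, ENNReal.toReal_ofReal (Real.exp_pos _).le,
    Real.exp_neg, div_inv_eq_mul] at hc3
  exact hc3

theorem pm_GoGH1_log_nonneg (n : ℕ) : 0 ≤ Real.log (n : ℝ) := by
  rcases Nat.eq_zero_or_pos n with h | h
  · rw [h]
    simp
  · exact Real.log_nonneg (by exact_mod_cast h)

theorem pm_GoGH1_limsup_le {f g : ℝ → ℝ} {L : ℝ} (hf : ∀ᶠ T in atTop, 0 ≤ f T)
    (hfg : ∀ᶠ T in atTop, f T ≤ g T) (hg : Tendsto g atTop (𝓝 L)) : limsup f atTop ≤ L := by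
  have hco : IsCoboundedUnder (· ≤ ·) atTop f :=
    IsBoundedUnder.isCoboundedUnder_le ⟨0, hf⟩
  calc limsup f atTop ≤ limsup g atTop := limsup_le_limsup hfg hco hg.isBoundedUnder_le
    _ = L := hg.limsup_eq

/-- finiteness of the Poincaré series bounds the exponent -/
theorem expo_le_of_poin {Γ : Type*} [Group Γ] {X : Subgroup Γ} {N : Γ → ℝ} (h1 : ∀ g ∈ X, 1 ≤ N g)
    {s : ℝ} (hs : 0 ≤ s) (h : poin X N s < ⊤) : expo X N ≤ s ∧ ∀ T, (nX X N T).Finite := by
  refine ⟨?_, fun T => (pm_GoGH1_count h1 hs h T).1⟩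
  set P : ℝ := (poin X N s).toReal + 1 with hP
  have hP1 : 1 ≤ P := by
    have : 0 ≤ (poin X N s).toReal := ENNReal.toReal_nonneg
    linarith
  have hlim : Tendsto (fun T : ℝ => s + Real.log P / T) atTop (𝓝 s) := by
    have h2 : Tendsto (fun T : ℝ => Real.log P / T) atTop (𝓝 0) :=
      tendsto_const_nhds.div_atTop tendsto_id
    have h3 := (tendsto_const_nhds (x := s)).add h2
    rwa [add_zero] at h3
  unfold expo
  refine pm_GoGH1_limsup_le ?_ ?_ hlim
  · filter_upwards [eventually_gt_atTop 0] with T hT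
    exact div_nonneg (pm_GoGH1_log_nonneg _) hT.le
  · filter_upwards [eventually_gt_atTop 0] with T hT
    have hlogP : 0 ≤ Real.log P := Real.log_nonneg hP1
    rw [div_le_iff₀ hT, add_mul, div_mul_cancel₀ _ hT.ne']
    rcases Nat.eq_zero_or_pos (nX X N T).ncard with h0 | h0
    · rw [h0]
      simp only [Nat.cast_zero, Real.log_zero]
      have : 0 ≤ s * T := mul_nonneg hs hT.le
      linarith
    · have hn : (0 : ℝ) < (nX X N T).ncard := by exact_mod_cast h0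
      have hle : ((nX X N T).ncard : ℝ) ≤ P * Real.exp (s * T) := by
        refine (pm_GoGH1_count h1 hs h T).2.trans ?_
        exact mul_le_mul_of_nonneg_right (by linarith) (Real.exp_pos _).le
      have hlog := Real.log_le_log hn hle
      rw [Real.log_mul (by linarith) (Real.exp_pos _).ne', Real.log_exp] at hlog
      linarith

/-- the Poincaré series diverges below the exponent -/
theorem poin_top_of_lt {Γ : Type*} [Group Γ] {X : Subgroup Γ} {N : Γ → ℝ} (h1 : ∀ g ∈ X, 1 ≤ N g)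
    {s : ℝ} (hs : 0 ≤ s) (h : s < expo X N) : poin X N s = ⊤ := by
  by_contra hne
  have := (expo_le_of_poin h1 hs (lt_top_iff_ne_top.2 hne)).1
  linarith

theorem poin_anti {Γ : Type*} [Group Γ] {X : Subgroup Γ} {N : Γ → ℝ} (h1 : ∀ g ∈ X, 1 ≤ N g)
    {s s' : ℝ} (h : s ≤ s') : poin X N s' ≤ poin X N s := by
  unfold poin
  apply ENNReal.tsum_le_tsum
  intro g
  apply ENNReal.ofReal_le_ofReal
  exact Real.rpow_le_rpow_of_exponent_le (h1 g g.2) (by linarith)

/-- comparison of two sizes -/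
theorem poin_comp {Γ : Type*} [Group Γ] {X : Subgroup Γ} {N N' : Γ → ℝ} (h1 : ∀ g ∈ X, 0 < N g)
    {c : ℝ} (hc : 0 < c) (h : ∀ g ∈ X, N g ≤ c * N' g) (h2 : ∀ g ∈ X, 0 < N' g) {s : ℝ} (hs : 0 ≤ s) :
    poin X N' s ≤ ENNReal.ofReal (c ^ s) * poin X N s := by
  unfold poin
  rw [← ENNReal.tsum_mul_left]
  apply ENNReal.tsum_le_tsum
  intro g
  rw [← ENNReal.ofReal_mul (Real.rpow_nonneg hc.le s)]
  apply ENNReal.ofReal_le_ofReal
  have hN := h1 g g.2
  have hN' := h2 g g.2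
  have e1 : (c * N' g) ^ (-s) ≤ (N g) ^ (-s) :=
    Real.rpow_le_rpow_of_nonpos hN (h g g.2) (by linarith)
  rw [Real.mul_rpow hc.le hN'.le] at e1
  have e2 := mul_le_mul_of_nonneg_left e1 (Real.rpow_nonneg hc.le s)
  rw [← mul_assoc, ← Real.rpow_add hc, add_neg_cancel, Real.rpow_zero, one_mul] at e2
  exact e2

/-- `E(N) ≤ (1 + η) E(N')` if `N' ≤ C N^{1+η}` -/
theorem expo_comp {Γ : Type*} [Group Γ] {X : Subgroup Γ} {N N' : Γ → ℝ} (h1 : ∀ g ∈ X, 1 ≤ N g)
    (hfin' : ∀ T, (nX X N' T).Finite)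
    (hlim' : Tendsto (fun T : ℝ => Real.log ((nX X N' T).ncard) / T) atTop (𝓝 (expo X N')))
    {C η : ℝ} (hC : 0 < C) (hη : 0 ≤ η) (h : ∀ g ∈ X, N' g ≤ C * (N g) ^ (1 + η)) :
    expo X N ≤ (1 + η) * expo X N' := by
  have hT' : Tendsto (fun T : ℝ => (1 + η) * T + Real.log C) atTop atTop :=
    tendsto_atTop_add_const_right _ _ (tendsto_id.const_mul_atTop (by linarith))
  have hsub : ∀ T, nX X N T ⊆ nX X N' ((1 + η) * T + Real.log C) := by
    rintro T g ⟨hgX, hgT⟩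
    refine ⟨hgX, (h g hgX).trans ?_⟩
    rw [Real.exp_add, Real.exp_log hC, mul_comm (Real.exp _) C]
    apply mul_le_mul_of_nonneg_left _ hC.le
    have hN : 0 ≤ N g := le_trans zero_le_one (h1 g hgX)
    calc (N g) ^ (1 + η) ≤ (Real.exp T) ^ (1 + η) :=
          Real.rpow_le_rpow hN hgT (by linarith)
      _ = Real.exp ((1 + η) * T) := by
          rw [← Real.exp_mul]
          congr 1
          ring
  have hlim1 := hlim'.comp hT'
  have hlim2 : Tendsto (fun T : ℝ => ((1 + η) * T + Real.log C) / T) atTop (𝓝 (1 + η)) := by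
    have h2 : Tendsto (fun T : ℝ => Real.log C / T) atTop (𝓝 0) :=
      tendsto_const_nhds.div_atTop tendsto_id
    have h3 := (tendsto_const_nhds (x := 1 + η)).add h2
    rw [add_zero] at h3
    refine h3.congr' ?_
    filter_upwards [eventually_gt_atTop 0] with T hT
    field_simp
  have hlim3 := hlim2.mul hlim1
  unfold expo at hlim3 ⊢
  refine pm_GoGH1_limsup_le ?_ ?_ hlim3
  · filter_upwards [eventually_gt_atTop 0] with T hT
    exact div_nonneg (pm_GoGH1_log_nonneg _) hT.le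
  · filter_upwards [eventually_gt_atTop 0, hT'.eventually_gt_atTop 0] with T hT hTT
    have hle : Real.log ((nX X N T).ncard) ≤
        Real.log ((nX X N' ((1 + η) * T + Real.log C)).ncard) := by
      rcases Nat.eq_zero_or_pos (nX X N T).ncard with h0 | h0
      · rw [h0]
        simp only [Nat.cast_zero, Real.log_zero]
        exact pm_GoGH1_log_nonneg _
      · apply Real.log_le_log (by exact_mod_cast h0)
        exact_mod_cast Set.ncard_le_ncard (hsub T) (hfin' _)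
    simp only [Function.comp_apply]
    have e : ((1 + η) * T + Real.log C) / T *
        (Real.log ((nX X N' ((1 + η) * T + Real.log C)).ncard) / ((1 + η) * T + Real.log C)) =
        Real.log ((nX X N' ((1 + η) * T + Real.log C)).ncard) / T := by
      field_simp
    rw [e]
    exact div_le_div_of_nonneg_right hle hT.le

section
variable {Γ Z Q V : Type} [Group Γ] {ps : PS Γ Z Q} {at_ : Q → V} {G : V → Subgroup Γ} {S : V → Set Q}
  {I : Set Q}

/-- sizes of a representation into `SL(3)` in a frame: `N ≥ 1`, submultiplicative -/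
theorem N_basic (ps : PS Γ Z Q) (p : Q) (z : Z) (hdet : ∀ g, (ps.r z g : M3).det = 1) :
    (∀ g, 1 ≤ ps.N p z g) ∧ (∀ g h, ps.N p z (g * h) ≤ ps.N p z g * ps.N p z h) := by
  have hF1 : (((ps.F p z)⁻¹ : GL (Fin 3) ℝ) : M3) * (ps.F p z : M3) = 1 := by
    rw [← Units.val_mul, inv_mul_cancel, Units.val_one]
  have hF2 : (ps.F p z : M3) * (((ps.F p z)⁻¹ : GL (Fin 3) ℝ) : M3) = 1 := by
    rw [← Units.val_mul, mul_inv_cancel, Units.val_one]
  refine ⟨fun g => ?_, fun g h => ?_⟩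
  · rw [PS.N]
    refine (one_le_lam ?_).trans (lam_le_nrm _)
    rw [Matrix.det_mul, Matrix.det_mul, hdet g, mul_one, ← Matrix.det_mul, hF1, Matrix.det_one]
  · rw [PS.N, PS.N, PS.N]
    refine le_trans (le_of_eq ?_) (nrm_mul_le _ _)
    congr 1
    rw [map_mul, Units.val_mul]
    calc (((ps.F p z)⁻¹ : GL (Fin 3) ℝ) : M3) * ((ps.r z g : M3) * (ps.r z h : M3)) *
          (ps.F p z : M3)
        = (((ps.F p z)⁻¹ : GL (Fin 3) ℝ) : M3) * (ps.r z g : M3) * 1 *
          ((ps.r z h : M3) * (ps.F p z : M3)) := by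
          rw [Matrix.mul_one]; simp only [Matrix.mul_assoc]
      _ = _ := by
          rw [← hF2]; simp only [Matrix.mul_assoc]

/-- version of `Zs_le_poin` for two different ports -/
theorem Zs_le_poin' {K κ : ℝ} (hκ : 0 ≤ κ) {Λ : Set Q} {G : Subgroup Γ} (z : Z) {s : ℝ} (hs : 0 ≤ s)
    (p q : Q) : Zs ps K κ Λ G z s p q ≤
      ENNReal.ofReal ((9 * K ^ 2 *
        nrm ((((ps.F q z)⁻¹ : GL (Fin 3) ℝ) : M3) * (ps.F p z : M3))) ^ s) *
        ∑' g : G, ENNReal.ofReal ((ps.N p z g) ^ (-s)) := by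
  set c0 : ℝ := nrm ((((ps.F q z)⁻¹ : GL (Fin 3) ℝ) : M3) * (ps.F p z : M3)) with hc0
  have hc0n : 0 ≤ c0 := nrm_nonneg _
  rw [← ENNReal.tsum_mul_left, Zs]
  let c : {g : Γ // g ∈ G ∧ Nrm ps K κ Λ p g q} → G := fun g => ⟨g.1, g.2.1⟩
  have hc : Function.Injective c := by
    intro x y hxy
    exact Subtype.ext (congrArg (fun u : G => (u : Γ)) hxy)
  refine (ENNReal.tsum_le_tsum fun g => ?_).trans (ENNReal.tsum_comp_le_tsum_of_injective hc
    (fun g : G => ENNReal.ofReal ((9 * K ^ 2 * c0) ^ s) * ENNReal.ofReal ((ps.N p z g) ^ (-s))))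
  obtain ⟨g, hg, w, hw, hT⟩ := g
  simp only [c]
  have hA := Word.bal hκ hw ps z
  rw [← hT z] at hA
  set A := ps.TT z p g q with hAdef
  have hK : 1 ≤ K := hA.one_le
  have hmn := hA.mn_pos
  have h1 : nrm A ≤ 9 * K ^ 2 * mn A := by
    have h2 := (nrm_le_mx hA.pos).2
    have h3 := hA.mx_le
    linarith
  have h4 : 0 < nrm A := lt_of_lt_of_le (lt_of_lt_of_le (hA.pos 0 0) (le_mx A 0 0))
    (nrm_le_mx hA.pos).1
  have hFp : (ps.F p z : M3) * (((ps.F p z)⁻¹ : GL (Fin 3) ℝ) : M3) = 1 := by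
    rw [← Units.val_mul, mul_inv_cancel, Units.val_one]
  have hFq : (ps.F q z : M3) * (((ps.F q z)⁻¹ : GL (Fin 3) ℝ) : M3) = 1 := by
    rw [← Units.val_mul, mul_inv_cancel, Units.val_one]
  have hnA : nrm A = nrm ((((ps.F p z)⁻¹ : GL (Fin 3) ℝ) : M3) * (ps.r z g : M3) *
      (ps.F q z : M3)) := by
    rw [hAdef, PS.TT, pm_GoGD3_nrm_J]
  have hN1 : ps.N p z g ≤ nrm A * c0 := by
    rw [hnA, hc0, PS.N]
    refine le_trans (le_of_eq ?_) (nrm_mul_le _ _)
    congr 1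
    calc (((ps.F p z)⁻¹ : GL (Fin 3) ℝ) : M3) * (ps.r z g : M3) * (ps.F p z : M3)
        = (((ps.F p z)⁻¹ : GL (Fin 3) ℝ) : M3) * (ps.r z g : M3) *
          ((ps.F q z : M3) * (((ps.F q z)⁻¹ : GL (Fin 3) ℝ) : M3)) * (ps.F p z : M3) := by
          rw [hFq, Matrix.mul_one]
      _ = _ := by simp only [Matrix.mul_assoc]
  have hN2 : nrm A ≤ ps.N p z g *
      nrm ((((ps.F p z)⁻¹ : GL (Fin 3) ℝ) : M3) * (ps.F q z : M3)) := by
    rw [hnA, PS.N]
    refine le_trans (le_of_eq ?_) (nrm_mul_le _ _)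
    congr 1
    calc (((ps.F p z)⁻¹ : GL (Fin 3) ℝ) : M3) * (ps.r z g : M3) * (ps.F q z : M3)
        = (((ps.F p z)⁻¹ : GL (Fin 3) ℝ) : M3) * (ps.r z g : M3) *
          ((ps.F p z : M3) * (((ps.F p z)⁻¹ : GL (Fin 3) ℝ) : M3)) * (ps.F q z : M3) := by
          rw [hFp, Matrix.mul_one]
      _ = _ := by simp only [Matrix.mul_assoc]
  have hNn : 0 ≤ ps.N p z g := nrm_nonneg _
  have hNpos : 0 < ps.N p z g := by
    rcases hNn.eq_or_lt with h | h
    · rw [← h, zero_mul] at hN2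
      linarith
    · exact h
  have hc0pos : 0 < c0 := by
    rcases hc0n.eq_or_lt with h | h
    · rw [← h, mul_zero] at hN1
      linarith
    · exact h
  have h7 : ps.N p z g ≤ 9 * K ^ 2 * c0 * mn A := by
    have h8 := mul_le_mul_of_nonneg_right h1 hc0n
    nlinarith
  rw [← ENNReal.ofReal_mul (by positivity)]
  apply ENNReal.ofReal_le_ofReal
  have h5 : (9 * K ^ 2 * c0 * mn A) ^ (-s) ≤ ps.N p z g ^ (-s) :=
    Real.rpow_le_rpow_of_nonpos hNpos h7 (by linarith)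
  rw [Real.mul_rpow (by positivity) hmn.le] at h5
  have h6 : (9 * K ^ 2 * c0) ^ s * (9 * K ^ 2 * c0) ^ (-s) = 1 := by
    rw [← Real.rpow_add (by positivity)]
    simp
  calc mn A ^ (-s) = (9 * K ^ 2 * c0) ^ s * ((9 * K ^ 2 * c0) ^ (-s) * mn A ^ (-s)) := by
        rw [← mul_assoc, h6, one_mul]
    _ ≤ _ := mul_le_mul_of_nonneg_left h5 (by positivity)

theorem pm_GoGH3_nrm_pos (A : GL (Fin 3) ℝ) : 0 < nrm (A : M3) := by
  have h0 := nrm_nonneg (A : M3)
  rcases h0.lt_or_eq with h | h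
  · exact h
  · exfalso
    have h1 : ∀ i j, (A : M3) i j = 0 := by
      intro i j
      have hs : ∑ i, ∑ j, |(A : M3) i j| = 0 := h.symm
      have h2 := (Finset.sum_eq_zero_iff_of_nonneg (fun i _ =>
        Finset.sum_nonneg (fun j _ => abs_nonneg ((A : M3) i j)))).1 hs i (Finset.mem_univ i)
      have h3 := (Finset.sum_eq_zero_iff_of_nonneg (fun j _ => abs_nonneg ((A : M3) i j))).1 h2 j
        (Finset.mem_univ j)
      exact abs_eq_zero.1 h3
    have h4 : (A : M3) = 0 := by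
      ext i j
      simpa using h1 i j
    have h5 : (A : M3) * ((A⁻¹ : GL (Fin 3) ℝ) : M3) = 1 := Units.mul_inv A
    rw [h4, zero_mul] at h5
    exact zero_ne_one h5

/-- the vertex part: finiteness of the sum over the classes which meet `G` -/
theorem pm_GoGH3_vertex {K κ : ℝ} (hκ : 0 < κ) {Λ' Λ M : Set Q} (hΛ : Λ' ⊆ Λ) {G : Subgroup Γ}
    {Φ : Finset (Z → GL (Fin 3) ℝ)} (hC : CR ps K κ Λ' G (Φ : Set _)) {s s' κ₀ : ℝ} (hs' : 0 ≤ s')
    (hκ₀ : 0 ≤ κ₀) (hsv : s' = s - 3 * κ₀ / Real.log (1 + κ)) (z : Z) (p : Q)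
    (hp : ∑' g : G, ENNReal.ofReal ((ps.N p z g) ^ (-s')) < ⊤) :
    ∑' C : {C : ConjClasses Γ // C ≠ 1 ∧ ∃ g ∈ G, ConjClasses.mk g = C},
      ENNReal.ofReal (Real.exp (κ₀ * icnt ps K κ Λ (Φ : Set _) M C) *
        (lam (ps.r z (Quotient.out C.1) : M3)) ^ (-s)) < ⊤ := by
  refine lt_of_le_of_lt (class_sum_vertex hκ hΛ (Φ' := Φ) (le_refl _) hC hs' hκ₀ hsv z) ?_
  rw [ENNReal.sum_lt_top]
  intro φ _
  obtain ⟨c, hc, hcA⟩ := nrm_frame_change (ps.F p z) (φ z)
  have hK : (0 : ℝ) ≤ (9 * K ^ 2) ^ s' := Real.rpow_nonneg (by positivity) _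
  have hb : ∀ g : G, ENNReal.ofReal ((9 * K ^ 2) ^ s' *
      (nrm ((((φ z)⁻¹ : GL (Fin 3) ℝ) : M3) * (ps.r z g : M3) * (φ z : M3))) ^ (-s')) ≤
      ENNReal.ofReal ((9 * K ^ 2) ^ s' * c ^ s') * ENNReal.ofReal ((ps.N p z g) ^ (-s')) := by
    intro g
    rw [← ENNReal.ofReal_mul (mul_nonneg hK (Real.rpow_nonneg hc.le _))]
    apply ENNReal.ofReal_le_ofReal
    rw [mul_assoc ((9 * K ^ 2) ^ s') (c ^ s')]
    apply mul_le_mul_of_nonneg_left _ hK
    have hN : 0 < ps.N p z g := by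
      have := pm_GoGH3_nrm_pos ((ps.F p z)⁻¹ * ps.r z g * ps.F p z)
      simpa [PS.N] using this
    have hn : 0 < nrm ((((φ z)⁻¹ : GL (Fin 3) ℝ) : M3) * (ps.r z g : M3) * (φ z : M3)) := by
      have := pm_GoGH3_nrm_pos ((φ z)⁻¹ * ps.r z g * φ z)
      simpa using this
    have h1 : ps.N p z g ≤ c * nrm ((((φ z)⁻¹ : GL (Fin 3) ℝ) : M3) * (ps.r z g : M3) * (φ z : M3)) :=
      hcA _
    have h2 : (c * nrm ((((φ z)⁻¹ : GL (Fin 3) ℝ) : M3) * (ps.r z g : M3) * (φ z : M3))) ^ (-s') ≤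
        (ps.N p z g) ^ (-s') := Real.rpow_le_rpow_of_nonpos hN h1 (by linarith)
    rw [Real.mul_rpow hc.le hn.le] at h2
    have h3 := mul_le_mul_of_nonneg_left h2 (Real.rpow_nonneg hc.le s')
    rw [← mul_assoc, ← Real.rpow_add hc] at h3
    simpa using h3
  refine lt_of_le_of_lt (ENNReal.tsum_le_tsum hb) ?_
  rw [ENNReal.tsum_mul_left]
  exact ENNReal.mul_lt_top ENNReal.ofReal_lt_top hp

/-- finiteness of the weighted sum over all classes with letters in `M` -/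
theorem closed_sum [Finite V] [Nonempty V] (H : GH ps at_ G S I ⊤) {K κ : ℝ} (hκ : 0 < κ)
    {Λv : V → Set Q} {Λ M : Set Q} (hΛ : I ⊆ Λ) (hΛv : ∀ v, Λv v ⊆ Λ)
    (hV : ∀ v, VC ps K κ (Λv v) (G v) (S v)) {Φ : Finset (Z → GL (Fin 3) ℝ)}
    (hΦ : ∀ e ∈ I, ps.FJ e ∈ Φ) (hC : ∀ v, CR ps K κ (Λv v) (G v) (Φ : Set _))
    (hI : I.Finite) {s κ₀ : ℝ} (hs : 0 ≤ s) (hκ₀ : 0 ≤ κ₀) (sv : V → ℝ)
    (z : Z)
    (hsv : ∀ v, (Λv v ∩ M = ∅ ∧ sv v = s) ∨ (sv v = s - 3 * κ₀ / Real.log (1 + κ) ∧ 0 ≤ sv v ∧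
      ∃ p : Q, ∑' g : G v, ENNReal.ofReal ((ps.N p z g) ^ (-(sv v))) < ⊤))
    (hrow : ∀ e ∈ I, ENNReal.ofReal (Real.exp κ₀) * Xs ps z s e *
      ∑' e' : {e' : Q // e' ∈ I ∧ at_ e' = at_ (ps.bar e)},
        (ENNReal.ofReal (K ^ (6 * κ₀ / Real.log (1 + κ))) *
          Zs ps K κ (Λv (at_ (ps.bar e))) (G (at_ (ps.bar e))) z (sv (at_ (ps.bar e)))
            (ps.bar e) e') ≤ 1 / 2) :
    ∑' C : {C : ConjClasses Γ // C ≠ 1 ∧ icnt ps K κ Λ (Φ : Set _) M C ≠ 0},
        ENNReal.ofReal (Real.exp (κ₀ * icnt ps K κ Λ (Φ : Set _) M C) *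
          (lam (ps.r z (Quotient.out C.1) : M3)) ^ (-s)) < ⊤ := by
  classical
  have := Fintype.ofFinite V
  obtain ⟨f, hf⟩ : ∃ f : ConjClasses Γ → ENNReal, f = fun C =>
      ENNReal.ofReal (Real.exp (κ₀ * icnt ps K κ Λ (Φ : Set _) M C) *
          (lam (ps.r z (Quotient.out C) : M3)) ^ (-s)) := ⟨_, rfl⟩
  obtain ⟨D, hD⟩ : ∃ D : Set (ConjClasses Γ),
      D = {C | C ≠ 1 ∧ icnt ps K κ Λ (Φ : Set _) M C ≠ 0} := ⟨_, rfl⟩
  obtain ⟨A0, hA0⟩ : ∃ A0 : Set (ConjClasses Γ),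
      A0 = {C | ¬ ∃ v, ∃ g ∈ G v, ConjClasses.mk g = C} := ⟨_, rfl⟩
  obtain ⟨A, hA⟩ : ∃ A : V → Set (ConjClasses Γ),
      A = fun v => {C | (C ≠ 1 ∧ ∃ g ∈ G v, ConjClasses.mk g = C) ∧
        icnt ps K κ Λ (Φ : Set _) M C ≠ 0} := ⟨_, rfl⟩
  have h0 : ∑' C : A0, f C ≤ I.ncard := by
    have := class_sum H hκ (M := M) hΛ hΛv hV (Φ := (Φ : Set _)) (fun e he => hΦ e he) hI hs hκ₀ sv
      (fun v => (hsv v).imp_right (fun h => h.1)) z hrow
    subst hA0 hf
    exact this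
  have hv : ∀ v, ∑' C : A v, f C < ⊤ := by
    intro v
    rcases hsv v with ⟨h1, _⟩ | ⟨h1, h2, p, hp⟩
    · have : A v = ∅ := by
        rw [Set.eq_empty_iff_forall_notMem]
        intro C hCm
        subst hA
        exact hCm.2 (icnt_zero (hΛv v) h1 (le_refl _) (hC v) hCm.1.1 hCm.1.2)
      rw [this]
      simp
    · have hmain := pm_GoGH3_vertex (M := M) hκ (hΛv v) (hC v) h2 hκ₀ h1 z p hp
      refine lt_of_le_of_lt ?_ hmain
      let j : A v → {C : ConjClasses Γ // C ≠ 1 ∧ ∃ g ∈ G v, ConjClasses.mk g = C} :=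
        fun C => ⟨C.1, by have := C.2; subst hA; exact this.1⟩
      have hj : Function.Injective j := by
        intro x y hxy
        exact Subtype.ext (congrArg (fun u : {C : ConjClasses Γ // C ≠ 1 ∧ ∃ g ∈ G v,
          ConjClasses.mk g = C} => u.1) hxy)
      have := ENNReal.tsum_comp_le_tsum_of_injective hj
        (fun C : {C : ConjClasses Γ // C ≠ 1 ∧ ∃ g ∈ G v, ConjClasses.mk g = C} => f C.1)
      refine le_trans this (le_of_eq ?_)
      subst hf
      rfl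
  have hgoal : ∑' C : D, f C < ⊤ := by
    rw [tsum_subtype D f]
    have hpt : ∀ C, D.indicator f C ≤ A0.indicator f C + ∑ v, (A v).indicator f C := by
      intro C
      by_cases hCD : C ∈ D
      · rw [Set.indicator_of_mem hCD]
        by_cases hC0 : C ∈ A0
        · rw [Set.indicator_of_mem hC0]
          exact le_self_add
        · have hex : ∃ v, C ∈ A v := by
            subst hA0 hA hD
            simp only [Set.mem_setOf_eq, not_not] at hC0 hCD
            obtain ⟨v, hv'⟩ := hC0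
            exact ⟨v, ⟨hCD.1, hv'⟩, hCD.2⟩
          obtain ⟨v, hv'⟩ := hex
          have h3 : (A v).indicator f C ≤ ∑ v, (A v).indicator f C :=
            Finset.single_le_sum (f := fun v => (A v).indicator f C) (fun _ _ => bot_le)
              (Finset.mem_univ v)
          rw [Set.indicator_of_mem hv'] at h3
          exact le_trans h3 le_add_self
      · rw [Set.indicator_of_notMem hCD]
        exact bot_le
    refine lt_of_le_of_lt (ENNReal.tsum_le_tsum hpt) ?_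
    rw [ENNReal.tsum_add, Summable.tsum_finsetSum (fun _ _ => ENNReal.summable)]
    rw [← tsum_subtype A0 f]
    refine ENNReal.add_lt_top.2 ⟨lt_of_le_of_lt h0 (ENNReal.natCast_lt_top _), ?_⟩
    rw [ENNReal.sum_lt_top]
    intro v _
    rw [← tsum_subtype (A v) f]
    exact hv v
  subst hD hf
  exact hgoal


end

/-- crossing sums: `mxd(D) ≥ e^{(a+|ϑ|)/2}` -/
theorem mxd_dgv {a ϑ ε : ℝ} (ha : 0 ≤ a) (hε : ε = 1 ∨ ε = -1) :
    Real.exp ((a + |ϑ|) / 2) ≤ mxd ![Real.exp (ε * a + ϑ), Real.exp (-(2 * (ε * a))), Real.exp (ε * a - ϑ)] := by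
  have h0 : Real.exp (ε * a + ϑ) ≤
      mxd ![Real.exp (ε * a + ϑ), Real.exp (-(2 * (ε * a))), Real.exp (ε * a - ϑ)] :=
    le_mxd ![Real.exp (ε * a + ϑ), Real.exp (-(2 * (ε * a))), Real.exp (ε * a - ϑ)] 0
  have h1 : Real.exp (-(2 * (ε * a))) ≤
      mxd ![Real.exp (ε * a + ϑ), Real.exp (-(2 * (ε * a))), Real.exp (ε * a - ϑ)] :=
    le_mxd ![Real.exp (ε * a + ϑ), Real.exp (-(2 * (ε * a))), Real.exp (ε * a - ϑ)] 1
  have h2 : Real.exp (ε * a - ϑ) ≤
      mxd ![Real.exp (ε * a + ϑ), Real.exp (-(2 * (ε * a))), Real.exp (ε * a - ϑ)] :=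
    le_mxd ![Real.exp (ε * a + ϑ), Real.exp (-(2 * (ε * a))), Real.exp (ε * a - ϑ)] 2
  have habs := abs_nonneg ϑ
  rcases hε with rfl | rfl
  · rcases le_total 0 ϑ with hϑ | hϑ
    · refine le_trans (Real.exp_le_exp.mpr ?_) h0
      rw [abs_of_nonneg hϑ]
      linarith
    · refine le_trans (Real.exp_le_exp.mpr ?_) h2
      rw [abs_of_nonpos hϑ]
      linarith
  · by_cases h3 : |ϑ| ≤ 3 * a
    · refine le_trans (Real.exp_le_exp.mpr ?_) h1
      linarith
    · push Not at h3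
      rcases le_total 0 ϑ with hϑ | hϑ
      · refine le_trans (Real.exp_le_exp.mpr ?_) h0
        rw [abs_of_nonneg hϑ] at h3 ⊢
        linarith
      · refine le_trans (Real.exp_le_exp.mpr ?_) h2
        rw [abs_of_nonpos hϑ] at h3 ⊢
        linarith

private theorem pm_GoGH4_summ {c : ℝ} (hc : 0 < c) :
    Summable (fun j : ℤ => Real.exp (-(c * |(j : ℝ)|))) := by
  have hr : Real.exp (-c) < 1 := by
    rw [Real.exp_lt_one_iff]
    linarith
  have hg : Summable (fun n : ℕ => (Real.exp (-c)) ^ n) :=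
    summable_geometric_of_lt_one (Real.exp_pos _).le hr
  have he : ∀ n : ℕ, (Real.exp (-c)) ^ n = Real.exp (-(c * (n : ℝ))) := by
    intro n
    rw [← Real.exp_nat_mul]
    congr 1
    ring
  refine Summable.of_nat_of_neg ?_ ?_
  · refine hg.congr ?_
    intro n
    rw [he n]
    have h1 : |((n : ℤ) : ℝ)| = (n : ℝ) := by
      rw [Int.cast_natCast, abs_of_nonneg (Nat.cast_nonneg n)]
    rw [h1]
  · refine hg.congr ?_
    intro n
    rw [he n]
    have h1 : |((-(n : ℤ) : ℤ) : ℝ)| = (n : ℝ) := by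
      rw [Int.cast_neg, abs_neg, Int.cast_natCast, abs_of_nonneg (Nat.cast_nonneg n)]
    rw [h1]

theorem cross_sum {L : ℝ} (hL : 0 < L) : ∃ C > (0 : ℝ), ∀ (o a s ε : ℝ), 0 ≤ a → 1 / 8 ≤ s →
    (ε = 1 ∨ ε = -1) →
    ∑' k : ℤ, ENNReal.ofReal ((mxd ![Real.exp (ε * a + (o - k * L)), Real.exp (-(2 * (ε * a))),
      Real.exp (ε * a - (o - k * L))]) ^ (-s)) ≤ ENNReal.ofReal (C * Real.exp (-(s / 2) * a)) := by
  have hc : 0 < L / 16 := by positivity
  have hS := pm_GoGH4_summ hc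
  obtain ⟨S, hSdef⟩ : ∃ S : ℝ, S = ∑' j : ℤ, Real.exp (-(L / 16 * |(j : ℝ)|)) := ⟨_, rfl⟩
  have hS0 : 0 ≤ S := by
    rw [hSdef]
    exact tsum_nonneg (fun j => (Real.exp_pos _).le)
  refine ⟨Real.exp (L / 32) * S + 1, by positivity, ?_⟩
  intro o a s ε ha hs hε
  obtain ⟨m, hm⟩ : ∃ m : ℤ, |o - m * L| ≤ L / 2 := by
    refine ⟨round (o / L), ?_⟩
    have h1 := abs_sub_round (o / L)
    have h2 : o - (round (o / L) : ℝ) * L = (o / L - (round (o / L) : ℝ)) * L := by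
      field_simp
    rw [h2, abs_mul, abs_of_pos hL]
    nlinarith
  have key : ∀ k : ℤ, (mxd ![Real.exp (ε * a + (o - k * L)), Real.exp (-(2 * (ε * a))),
      Real.exp (ε * a - (o - k * L))]) ^ (-s) ≤
      Real.exp (-(s / 2) * a) * Real.exp (L / 32) * Real.exp (-(L / 16 * |((k - m : ℤ) : ℝ)|)) := by
    intro k
    have h1 := mxd_dgv (a := a) (ϑ := o - k * L) (ε := ε) ha hε
    have h2 : (mxd ![Real.exp (ε * a + (o - k * L)), Real.exp (-(2 * (ε * a))),
      Real.exp (ε * a - (o - k * L))]) ^ (-s) ≤ (Real.exp ((a + |o - k * L|) / 2)) ^ (-s) :=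
      Real.rpow_le_rpow_of_nonpos (Real.exp_pos _) h1 (by linarith)
    refine h2.trans ?_
    rw [← Real.exp_mul, ← Real.exp_add, ← Real.exp_add]
    apply Real.exp_le_exp.mpr
    have h3 : |((k - m : ℤ) : ℝ)| * L ≤ |o - k * L| + L / 2 := by
      have h4 : ((k - m : ℤ) : ℝ) * L = (o - m * L) - (o - k * L) := by
        push_cast
        ring
      have h5 : |((k - m : ℤ) : ℝ)| * L = |((k - m : ℤ) : ℝ) * L| := by
        rw [abs_mul, abs_of_pos hL]
      rw [h5, h4]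
      have h6 := abs_sub (o - m * L) (o - k * L)
      linarith
    have h7 : 0 ≤ |o - k * L| := abs_nonneg _
    have h8 : 1 / 8 * |o - k * L| ≤ s * |o - k * L| := mul_le_mul_of_nonneg_right hs h7
    nlinarith
  calc ∑' k : ℤ, ENNReal.ofReal ((mxd ![Real.exp (ε * a + (o - k * L)), Real.exp (-(2 * (ε * a))),
      Real.exp (ε * a - (o - k * L))]) ^ (-s))
      ≤ ∑' k : ℤ, ENNReal.ofReal (Real.exp (-(s / 2) * a) * Real.exp (L / 32) *
          Real.exp (-(L / 16 * |((k - m : ℤ) : ℝ)|))) := by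
        apply ENNReal.tsum_le_tsum
        intro k
        exact ENNReal.ofReal_le_ofReal (key k)
    _ = ∑' j : ℤ, ENNReal.ofReal (Real.exp (-(s / 2) * a) * Real.exp (L / 32) *
          Real.exp (-(L / 16 * |(j : ℝ)|))) :=
        (Equiv.subRight m).tsum_eq (fun j : ℤ => ENNReal.ofReal (Real.exp (-(s / 2) * a) *
          Real.exp (L / 32) * Real.exp (-(L / 16 * |(j : ℝ)|))))
    _ = ENNReal.ofReal (∑' j : ℤ, Real.exp (-(s / 2) * a) * Real.exp (L / 32) *
          Real.exp (-(L / 16 * |(j : ℝ)|))) := by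
        rw [ENNReal.ofReal_tsum_of_nonneg (fun j => by positivity) (hS.mul_left _)]
    _ ≤ ENNReal.ofReal ((Real.exp (L / 32) * S + 1) * Real.exp (-(s / 2) * a)) := by
        apply ENNReal.ofReal_le_ofReal
        rw [tsum_mul_left, ← hSdef]
        have h1 := Real.exp_pos (-(s / 2) * a)
        nlinarith

end

end PM3
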