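import Pool.Agent.LibPM3.PolyA

/-! [PM3 Had] bulging along separating edges: Hadamard square comparison with the undeformed group. -/

namespace PM3
open Matrix Filter Topology

noncomputable section

variable {Γ Z Q V : Type} [Group Γ] {ps : PS Γ Z Q} {at_ : Q → V} {G : V → Subgroup Γ} {S : V → Set Q}
  {I : Set Q} {Gn : Subgroup Γ}

private theorem pm_Had1_cons (ps : PS Γ Z Q) (z : Z) (x : Q × ℤ × M3) (l : List (Q × ℤ × M3)) :
    ps.evL (x :: l) z = diagonal (ps.Dl x.1 x.2.1 z) * x.2.2 * ps.evL l z := by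
  unfold PS.evL prodL
  rw [List.map_cons, List.map_cons, List.prod_cons]

private theorem pm_Had1_diag {d : ℝ} (hd : 0 < d) :
    symMat (diagonal ![d, 1 / d]) = diagonal ![d ^ 2, 1, 1 / d ^ 2] := by
  ext i j
  fin_cases i <;> fin_cases j <;> simp [symMat, Matrix.diagonal_apply] <;> field_simp

private theorem pm_Had1_cs {a b x y : ℝ} : (1 / 2) * (a * x + b * y) ^ 2 ≤
    a ^ 2 * x ^ 2 + b ^ 2 * y ^ 2 := by
  nlinarith [sq_nonneg (a * x - b * y)]

private theorem pm_Had1_ind (z z₀ : Z) (xp : Q → ℝ) (l : List (Q × ℤ × M3)) :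
    ∀ (_ : ∀ x ∈ l, ps.Dl x.1 x.2.1 z 0 = Real.exp (xp x.1) * ps.Dl x.1 x.2.1 z₀ 0 ∧
      ps.Dl x.1 x.2.1 z 2 = Real.exp (xp x.1) * ps.Dl x.1 x.2.1 z₀ 2)
    (_ : ∀ x ∈ l, ps.Dl x.1 x.2.1 z₀ 1 = 1)
    (_ : ∀ x ∈ l, ∃ T' : M2, (∀ i j, 0 ≤ T' i j) ∧ x.2.2 = symMat T')
    (A : M2) (U : M3) (c : ℝ) (_ : ∀ i j, 0 ≤ A i j) (_ : ∀ j, 0 ≤ U 0 j) (_ : 0 ≤ c)
    (_ : c * A 0 0 ^ 2 ≤ U 0 0) (_ : c * A 0 1 ^ 2 ≤ U 0 2),
    c * ((1 / 2) ^ l.length * Real.exp ((l.map (fun x => xp x.1)).sum)) *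
      (symMat A * ps.evL l z₀) 0 0 ≤ (U * ps.evL l z) 0 0 := by
  induction l with
  | nil =>
    intro _ _ _ A U c _ _ _ h1 _
    have e : ∀ y, ps.evL [] y = 1 := fun y => rfl
    rw [e, e, mul_one, mul_one]
    simp only [List.length_nil, pow_zero, List.map_nil, List.sum_nil, Real.exp_zero, mul_one]
    have h2 : symMat A 0 0 = A 0 0 ^ 2 := by simp [symMat, pow_two]
    rw [h2]
    exact h1
  | cons x l ih =>
    intro hx h0 hl A U c hA hU hc h1 h2
    obtain ⟨T', hT', hT⟩ := hl x List.mem_cons_self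
    obtain ⟨hx0, hx2⟩ := hx x List.mem_cons_self
    have h01 := h0 x List.mem_cons_self
    obtain ⟨hp, hpr⟩ := Dl_pos ps x.1 x.2.1 z₀
    obtain ⟨hpz, -⟩ := Dl_pos ps x.1 x.2.1 z
    set D := ps.Dl x.1 x.2.1 z₀ with hD
    set D' := ps.Dl x.1 x.2.1 z with hD'
    set d := Real.sqrt (D 0) with hd
    have hd0 : 0 < d := Real.sqrt_pos.2 (hp 0)
    have hd2 : d ^ 2 = D 0 := Real.sq_sqrt (hp 0).le
    have hD2 : D 2 = 1 / d ^ 2 := by
      rw [h01, mul_one] at hpr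
      rw [hd2, eq_div_iff (hp 0).ne', mul_comm]
      exact hpr
    have hdiag : diagonal D = symMat (diagonal ![d, 1 / d]) := by
      rw [pm_Had1_diag hd0]
      congr 1
      funext i
      fin_cases i
      · exact hd2.symm
      · exact h01
      · exact hD2
    set E := Real.exp (xp x.1) with hE
    have hE0 : 0 < E := Real.exp_pos _
    rw [pm_Had1_cons, pm_Had1_cons, hT, ← hD, ← hD', hdiag]
    have g1 : symMat A * (symMat (diagonal ![d, 1 / d]) * symMat T' * ps.evL l z₀) =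
        symMat (A * diagonal ![d, 1 / d] * T') * ps.evL l z₀ := by
      rw [symMat_mul, symMat_mul]
      simp only [mul_assoc]
    have g2 : U * (diagonal D' * symMat T' * ps.evL l z) =
        U * diagonal D' * symMat T' * ps.evL l z := by
      simp only [mul_assoc]
    rw [g1, g2]
    have h3 := ih (fun y hy => hx y (List.mem_cons_of_mem _ hy))
      (fun y hy => h0 y (List.mem_cons_of_mem _ hy))
      (fun y hy => hl y (List.mem_cons_of_mem _ hy))
      (A * diagonal ![d, 1 / d] * T') (U * diagonal D' * symMat T') (c * (1 / 2 * E)) ?_ ?_ ?_ ?_ ?_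
    · refine le_trans (le_of_eq ?_) h3
      rw [List.length_cons, List.map_cons, List.sum_cons, Real.exp_add, pow_succ]
      ring
    · intro i j
      simp only [Matrix.mul_apply, Fin.sum_univ_two, Matrix.diagonal_apply]
      have h4 : 0 ≤ 1 / d := (one_div_pos.2 hd0).le
      simp only [Fin.isValue, Matrix.cons_val_zero, Matrix.cons_val_one, if_true,
        mul_ite, mul_zero, add_zero, zero_add]
      have := hA i 0
      have := hA i 1
      have := hT' 0 j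
      have := hT' 1 j
      simp
      positivity
    · intro j
      rw [Matrix.mul_apply]
      refine Finset.sum_nonneg fun i _ => mul_nonneg ?_ ?_
      · rw [Matrix.mul_diagonal]
        exact mul_nonneg (hU i) (hpz i).le
      · have a00 := hT' 0 0
        have a01 := hT' 0 1
        have a10 := hT' 1 0
        have a11 := hT' 1 1
        fin_cases i <;> fin_cases j <;> simp [symMat] <;> positivity
    · positivity
    · have e1 : (A * diagonal ![d, 1 / d] * T') 0 0 = A 0 0 * (d * T' 0 0) + A 0 1 * (1 / d * T' 1 0) := by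
        simp [Matrix.mul_apply, Fin.sum_univ_two, Matrix.diagonal_apply]
        ring
      have e2 : (U * diagonal D' * symMat T') 0 0 = U 0 0 * D' 0 * T' 0 0 ^ 2 +
          U 0 1 * D' 1 * (T' 0 0 * T' 1 0) + U 0 2 * D' 2 * T' 1 0 ^ 2 := by
        rw [Matrix.mul_apply, Fin.sum_univ_three]
        simp only [Matrix.mul_diagonal]
        simp [symMat, pow_two]
      rw [e1, e2, hx0, hx2, hD2, ← hd2]
      have h5 : 0 ≤ U 0 1 * D' 1 * (T' 0 0 * T' 1 0) :=
        mul_nonneg (mul_nonneg (hU 1) (hpz 1).le) (mul_nonneg (hT' 0 0) (hT' 1 0))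
      have h6 := mul_le_mul_of_nonneg_right h1
        (show 0 ≤ E * (d * T' 0 0) ^ 2 by positivity)
      have h7 := mul_le_mul_of_nonneg_right h2
        (show 0 ≤ E * (1 / d * T' 1 0) ^ 2 by positivity)
      have h8 := mul_le_mul_of_nonneg_left
        (pm_Had1_cs (a := A 0 0) (b := A 0 1) (x := d * T' 0 0) (y := 1 / d * T' 1 0))
        (show 0 ≤ c * E by positivity)
      have h9 : E * (1 / d ^ 2) * T' 1 0 ^ 2 = E * (1 / d * T' 1 0) ^ 2 := by
        rw [mul_pow, div_pow, one_pow]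
        ring
      have h10 : U 0 2 * (E * (1 / d ^ 2)) * T' 1 0 ^ 2 = U 0 2 * (E * (1 / d * T' 1 0) ^ 2) := by
        rw [← h9]; ring
      rw [h10]
      nlinarith [h5, h6, h7, h8]
    · have e1 : (A * diagonal ![d, 1 / d] * T') 0 1 = A 0 0 * (d * T' 0 1) + A 0 1 * (1 / d * T' 1 1) := by
        simp [Matrix.mul_apply, Fin.sum_univ_two, Matrix.diagonal_apply]
        ring
      have e2 : (U * diagonal D' * symMat T') 0 2 = U 0 0 * D' 0 * T' 0 1 ^ 2 +
          U 0 1 * D' 1 * (T' 0 1 * T' 1 1) + U 0 2 * D' 2 * T' 1 1 ^ 2 := by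
        rw [Matrix.mul_apply, Fin.sum_univ_three]
        simp only [Matrix.mul_diagonal]
        simp [symMat, pow_two]
      rw [e1, e2, hx0, hx2, hD2, ← hd2]
      have h5 : 0 ≤ U 0 1 * D' 1 * (T' 0 1 * T' 1 1) :=
        mul_nonneg (mul_nonneg (hU 1) (hpz 1).le) (mul_nonneg (hT' 0 1) (hT' 1 1))
      have h6 := mul_le_mul_of_nonneg_right h1
        (show 0 ≤ E * (d * T' 0 1) ^ 2 by positivity)
      have h7 := mul_le_mul_of_nonneg_right h2
        (show 0 ≤ E * (1 / d * T' 1 1) ^ 2 by positivity)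
      have h8 := mul_le_mul_of_nonneg_left
        (pm_Had1_cs (a := A 0 0) (b := A 0 1) (x := d * T' 0 1) (y := 1 / d * T' 1 1))
        (show 0 ≤ c * E by positivity)
      have h9 : E * (1 / d ^ 2) * T' 1 1 ^ 2 = E * (1 / d * T' 1 1) ^ 2 := by
        rw [mul_pow, div_pow, one_pow]
        ring
      have h10 : U 0 2 * (E * (1 / d ^ 2)) * T' 1 1 ^ 2 = U 0 2 * (E * (1 / d * T' 1 1) ^ 2) := by
        rw [← h9]; ring
      rw [h10]
      nlinarith [h5, h6, h7, h8]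

/-- `(A∘A)(B∘B) ≥ (1/2) (AB)∘(AB)` along a word, restricted to the indices `0, 2` -/
theorem had_word (z z₀ : Z) (xp : Q → ℝ)
    (T : M2) (hT : ∀ i j, 0 ≤ T i j) (l : List (Q × ℤ × M3))
    (hx : ∀ x ∈ l, ps.Dl x.1 x.2.1 z 0 = Real.exp (xp x.1) * ps.Dl x.1 x.2.1 z₀ 0 ∧
      ps.Dl x.1 x.2.1 z 2 = Real.exp (xp x.1) * ps.Dl x.1 x.2.1 z₀ 2)
    (h0 : ∀ x ∈ l, ps.Dl x.1 x.2.1 z₀ 1 = 1)
    (hl : ∀ x ∈ l, ∃ T' : M2, (∀ i j, 0 ≤ T' i j) ∧ x.2.2 = symMat T') :
    (1 / 2) ^ l.length * Real.exp ((l.map (fun x => xp x.1)).sum) * ps.eval ⟨symMat T, l⟩ z₀ 0 0 ≤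
      ps.eval ⟨symMat T, l⟩ z 0 0 := by
  have h1 := pm_Had1_ind z z₀ xp l hx h0 hl T (symMat T) 1 hT ?_ zero_le_one ?_ ?_
  · rw [one_mul] at h1
    exact h1
  · intro j
    have a00 := hT 0 0
    have a01 := hT 0 1
    fin_cases j <;> simp [symMat] <;> positivity
  · simp [symMat, pow_two]
  · simp [symMat, pow_two]

private theorem pm_Had2_head {v w : V} {l : List (Γ × Q)} {gl : Γ}
    (h : IsPath ps at_ G I v l gl w) : ∀ x ∈ l.head?, x.2 ∈ I := by
  intro x hx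
  cases h with
  | nil _ => exact absurd hx (by simp)
  | cons _ he _ _ =>
    simp only [List.head?_cons, Option.mem_def, Option.some.injEq] at hx
    rw [← hx]
    exact he

private theorem pm_Had2_ind (H : GH ps at_ G S I Gn) {K κ : ℝ} (hV : ∀ v, VCs ps K κ (G v) (S v))
    {q : Q} (hq : q ∈ S (at_ q)) (hqI : q ∉ I) (xp : Q → ℝ) (hv : V → ℝ)
    (hxp : ∀ e ∈ I, xp e = hv (at_ (ps.bar e)) - hv (at_ e))
    {v w : V} {l : List (Γ × Q)} {gl : Γ} (hpath : IsPath ps at_ G I v l gl w) :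
    ∀ (_ : w = at_ q) (_ : ps.Red l) (p : Q) (_ : p ∈ S (at_ p)) (_ : at_ p = v)
      (_ : l = [] → ¬ (p = q ∧ gl ∈ Subgroup.zpowers (ps.c p)))
      (_ : ∀ x ∈ l.head?, ¬ (p = x.2 ∧ x.1 ∈ Subgroup.zpowers (ps.c p))),
    ∃ (k k' : ℤ) (T : M2) (l' : List (Q × ℤ × M3)), (∀ i j, 0 < T i j) ∧
      (∀ x ∈ l', x.1 ∈ I ∧ ∃ T' : M2, (∀ i j, 0 < T' i j) ∧ x.2.2 = symMat T') ∧
      (Word.mk (symMat T) l').Ok K κ I ∧ l'.length ≤ l.length ∧
      (l'.map (fun x => xp x.1)).sum = hv (at_ q) - hv (at_ p) ∧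
      ∀ z, ps.TT z p (ps.pval l * gl) q =
        Cd (ps.L p) k * ps.eval ⟨symMat T, l'⟩ z * Cd (ps.L q) k' := by
  induction hpath with
  | @nil v g hg =>
    intro hw _ p hp hpv hdeg _
    have hvq : at_ p = at_ q := hpv.trans hw
    obtain ⟨k, k', T, hT, hB, hTT⟩ := hV v p (hpv ▸ hp) q (hw ▸ hq) g hg (hdeg rfl)
    refine ⟨k, k', T, [], hT, fun x hx => absurd hx (List.not_mem_nil), ⟨hB, fun x hx =>
      absurd hx (List.not_mem_nil)⟩, le_refl _, ?_, fun z => ?_⟩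
    · rw [hvq]
      simp
    · have e1 : ps.pval [] * g = g := by
        unfold PS.pval
        simp
      have e2 : ps.eval ⟨symMat T, []⟩ z = symMat T := by
        unfold PS.eval
        change symMat T * 1 = _
        rw [mul_one]
      rw [e1, e2]
      exact hTT z
  | @cons v w g gl e l hg he hev hrest ih =>
    intro hw hred p hp hpv _ hst
    have hdeg1 : ¬ (p = e ∧ g ∈ Subgroup.zpowers (ps.c p)) := hst (g, e) rfl
    have heS : e ∈ S v := hev ▸ (H.hI e he).2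
    obtain ⟨k1, k1', T1, hT1, hB1, hTT1⟩ := hV v p (hpv ▸ hp) e heS g hg hdeg1
    have hbar := H.hI e he
    have hred' : ps.Red l := by
      unfold PS.Red at hred ⊢
      exact hred.tail
    obtain ⟨k2, k2', T2, l2, hT2, hl2, hOk, hlen, hsum, hTT2⟩ := ih hw hred' (ps.bar e)
      (H.hI _ hbar.1).2 rfl
      (fun _ h => hqI (h.1 ▸ hbar.1)) (by
        intro x hx h
        unfold PS.Red at hred
        rcases l with _ | ⟨y, l⟩
        · exact absurd hx (by simp)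
        · have hy : y = x := by simpa using hx
          have hnb : ps.NB (g, e) y := (List.isChain_cons_cons.1 hred).1
          rw [hy] at hnb
          exact hnb h.1.symm h.2)
    refine ⟨k1, k2', T1, (e, k1' + k2, symMat T2) :: l2, hT1, ?_, ⟨hB1, ?_⟩, ?_, ?_, fun z => ?_⟩
    · intro x hx
      rcases List.mem_cons.1 hx with rfl | hx
      · exact ⟨he, T2, hT2, rfl⟩
      · exact hl2 x hx
    · intro x hx
      rcases List.mem_cons.1 hx with rfl | hx
      · exact ⟨he, hOk.1⟩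
      · exact hOk.2 x hx
    · simpa using hlen
    · rw [List.map_cons, List.sum_cons, hsum]
      change xp e + _ = _
      rw [hxp e he, hev, ← hpv]
      ring
    · have e1 : ps.pval ((g, e) :: l) * gl = g * ps.t e * (ps.pval l * gl) := by
        unfold PS.pval
        rw [List.map_cons, List.prod_cons, mul_assoc]
      have e2 : ps.eval ⟨symMat T1, (e, k1' + k2, symMat T2) :: l2⟩ z =
          symMat T1 * (diagonal (ps.Dl e (k1' + k2) z) * (symMat T2 * ps.evL l2 z)) := by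
        unfold PS.eval PS.evL prodL
        rw [List.map_cons, List.map_cons, List.prod_cons, mul_assoc]
      rw [e1, TT_cross, hTT1 z, hTT2 z, e2, ← Cd_D0_Cd]
      unfold PS.eval
      rw [ps.L_bar]
      simp only [mul_assoc]

/-- gluing with control of the number of letters and of the potentials -/
theorem glue_len (H : GH ps at_ G S I Gn) {K κ : ℝ} (hV : ∀ v, VCs ps K κ (G v) (S v)) {p q : Q}
    (hp : p ∈ S (at_ p)) (hq : q ∈ S (at_ q)) (hpI : p ∉ I) (hqI : q ∉ I) (xp : Q → ℝ) (hv : V → ℝ)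
    (hxp : ∀ e ∈ I, xp e = hv (at_ (ps.bar e)) - hv (at_ e))
    {l : List (Γ × Q)} {gl : Γ} (hpath : IsPath ps at_ G I (at_ p) l gl (at_ q))
    (hdeg : ¬ (p = q ∧ ps.pval l * gl ∈ Subgroup.zpowers (ps.c p))) :
    ∃ (k k' : ℤ) (T : M2) (l' : List (Q × ℤ × M3)), (∀ i j, 0 < T i j) ∧
      (∀ x ∈ l', x.1 ∈ I ∧ ∃ T' : M2, (∀ i j, 0 < T' i j) ∧ x.2.2 = symMat T') ∧
      (Word.mk (symMat T) l').Ok K κ I ∧ l'.length ≤ l.length ∧
      (l'.map (fun x => xp x.1)).sum = hv (at_ q) - hv (at_ p) ∧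
      ∀ z, ps.TT z p (ps.pval l * gl) q =
        Cd (ps.L p) k * ps.eval ⟨symMat T, l'⟩ z * Cd (ps.L q) k' := by
  obtain ⟨l', gl', hpath', hred, hval, hlen⟩ := reduce H hpath
  have hI : ∀ x ∈ l'.head?, x.2 ∈ I := pm_Had2_head hpath'
  obtain ⟨k, k', T, l2, hT, hl2, hOk, hlen2, hsum, hTT⟩ := pm_Had2_ind H hV hq hqI xp hv hxp hpath' rfl
    hred p hp rfl (by
      rintro rfl h
      apply hdeg
      rw [← hval]
      unfold PS.pval
      simpa using h) (fun x hx h => hpI (h.1 ▸ hI x hx))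
  rw [hval] at hTT
  exact ⟨k, k', T, l2, hT, hl2, hOk, hlen2.trans hlen, hsum, hTT⟩

/-- concatenation of paths -/
private theorem pm_Had3_concat {v w u : V} {l l' : List (Γ × Q)} {gl gl' : Γ}
    (h : IsPath ps at_ G I v l gl w) (h' : IsPath ps at_ G I w l' gl' u) :
    ∃ l'' gl'', IsPath ps at_ G I v l'' gl'' u ∧
      ps.pval l'' * gl'' = (ps.pval l * gl) * (ps.pval l' * gl') ∧
      l''.length = l.length + l'.length := by
  induction h with
  | @nil v g hg =>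
    cases h' with
    | nil hg' =>
      exact ⟨[], _, IsPath.nil (mul_mem hg hg'), by simp [PS.pval], rfl⟩
    | @cons _ _ g1 gl1 e l1 hg1 he hat hrest =>
      refine ⟨(g * g1, e) :: l1, _, IsPath.cons (mul_mem hg hg1) he hat hrest, ?_, by simp⟩
      simp [PS.pval, mul_assoc]
  | @cons v w g gl e l hg he hat _ ih =>
    obtain ⟨l'', gl'', h1, h2, h3⟩ := ih h'
    refine ⟨(g, e) :: l'', gl'', IsPath.cons hg he hat h1, ?_, ?_⟩
    · have e1 : ∀ l0 : List (Γ × Q), ps.pval ((g, e) :: l0) = g * ps.t e * ps.pval l0 := by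
        intro l0; simp [PS.pval]
      rw [e1, e1, mul_assoc, h2]
      simp only [mul_assoc]
    · rw [List.length_cons, List.length_cons, h3]; ring

/-- paths of even words -/
private theorem pm_Had3_word {ι : Type} {A : Finset ι} {el : ι → ι → Γ} (v₀ : V) (c₀ : ℕ)
    (hlen : ∀ x ∈ A, ∀ y ∈ A, ∃ l gl, IsPath ps at_ G I v₀ l gl v₀ ∧ ps.pval l * gl = el x y ∧
      l.length ≤ c₀) : ∀ w : List ι, (∀ x ∈ w, x ∈ A) →
    ∃ l gl, IsPath ps at_ G I v₀ l gl v₀ ∧ ps.pval l * gl = evw el w ∧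
      l.length ≤ c₀ * (w.length / 2)
  | [], _ => ⟨[], 1, IsPath.nil (one_mem _), by simp [PS.pval, evw], by simp⟩
  | [x], _ => ⟨[], 1, IsPath.nil (one_mem _), by simp [PS.pval, evw], by simp⟩
  | x :: y :: w, h => by
    obtain ⟨l1, g1, a1, a2, a3⟩ := hlen x (h x List.mem_cons_self) y
      (h y (List.mem_cons_of_mem _ List.mem_cons_self))
    obtain ⟨l2, g2, b1, b2, b3⟩ := pm_Had3_word v₀ c₀ hlen w
      (fun z hz => h z (List.mem_cons_of_mem _ (List.mem_cons_of_mem _ hz)))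
    obtain ⟨l, g, d1, d2, d3⟩ := pm_Had3_concat a1 b1
    refine ⟨l, g, d1, ?_, ?_⟩
    · rw [d2, a2, b2]; rfl
    · have e : (x :: y :: w).length / 2 = w.length / 2 + 1 := by
        rw [List.length_cons, List.length_cons]; omega
      rw [e, d3, mul_add, mul_one]
      omega

private theorem pm_Had3_entry (L L' : ℝ) (k k' : ℤ) (B : M3) :
    (Cd L k * B * Cd L' k') 0 0 = Real.exp (-(k * L)) * B 0 0 * Real.exp (-(k' * L')) ∧
    (Cd L k * B * Cd L' k') 2 0 = Real.exp (k * L) * B 2 0 * Real.exp (-(k' * L')) ∧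
    (Cd L k * B * Cd L' k') 0 2 = Real.exp (-(k * L)) * B 0 2 * Real.exp (k' * L') := by
  unfold Cd
  refine ⟨?_, ?_, ?_⟩ <;> rw [Matrix.mul_diagonal, Matrix.diagonal_mul] <;> simp

/-- comparison of balanced matrices in the same double coset of the diagonal group -/
private theorem pm_Had3_cmp {K K' κ κ' L L' : ℝ} {k k' : ℤ} {A B : M3} (hA : Bal K κ A)
    (hB : Bal K' κ' B) (h : B = Cd L k * A * Cd L' k') :
    |(k : ℝ) * L| ≤ Real.log (K * K') ∧ |(k' : ℝ) * L'| ≤ Real.log (K * K') := by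
  obtain ⟨e00, e20, e02⟩ := pm_Had3_entry L L' k k' A
  rw [← h] at e00 e20 e02
  have hK : 1 ≤ K := hA.one_le
  have hK' : 1 ≤ K' := hB.one_le
  have hKK : 1 ≤ K * K' := by nlinarith
  have hlog : 0 ≤ Real.log (K * K') := Real.log_nonneg hKK
  have a00 := hA.pos 0 0
  have a20 := hA.pos 2 0
  have a02 := hA.pos 0 2
  have key : ∀ t : ℝ, ∀ x y : ℝ, 0 < x → 0 < y → y ≤ K * x → Real.exp (-t) * x ≤
      K' * (Real.exp t * y) → -(2 * t) ≤ Real.log (K * K') := by
    intro t x y hx hy hyx hle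
    rw [← Real.log_exp (-(2 * t))]
    apply Real.log_le_log (Real.exp_pos _)
    have h1 : Real.exp (-t) * x ≤ (K' * Real.exp t * K) * x := by
      have : K' * (Real.exp t * y) ≤ K' * (Real.exp t * (K * x)) := by
        apply mul_le_mul_of_nonneg_left _ (by linarith)
        exact mul_le_mul_of_nonneg_left hyx (Real.exp_pos _).le
      linarith
    have h2 : Real.exp (-t) ≤ K' * Real.exp t * K := le_of_mul_le_mul_right h1 hx
    have h3 : Real.exp (-(2 * t)) = Real.exp (-t) * Real.exp (-t) := by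
      rw [← Real.exp_add]; congr 1; ring
    have h4 : Real.exp t * Real.exp (-t) = 1 := by
      rw [← Real.exp_add]; simp
    calc Real.exp (-(2 * t)) = Real.exp (-t) * Real.exp (-t) := h3
      _ ≤ (K' * Real.exp t * K) * Real.exp (-t) :=
          mul_le_mul_of_nonneg_right h2 (Real.exp_pos _).le
      _ = K * K' * (Real.exp t * Real.exp (-t)) := by ring
      _ = K * K' := by rw [h4, mul_one]
  have r1 := hB.row 0 2 0
  have r2 := hB.row 2 0 0
  have c1 := hB.col 0 0 2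
  have c2 := hB.col 0 2 0
  rw [e00, e20] at r1 r2
  rw [e00, e02] at c1 c2
  have p1 : 0 < Real.exp (-((k' : ℝ) * L')) := Real.exp_pos _
  have p2 : 0 < Real.exp (-((k : ℝ) * L)) := Real.exp_pos _
  have q1 := key ((k : ℝ) * L) _ _ a00 a20 (hA.row 2 0 0) (by
    apply le_of_mul_le_mul_right _ p1
    calc _ ≤ _ := r1
      _ = _ := by ring)
  have q2 := key (-((k : ℝ) * L)) _ _ a20 a00 (hA.row 0 2 0) (by
    rw [neg_neg]
    apply le_of_mul_le_mul_right _ p1
    calc _ ≤ _ := r2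
      _ = _ := by ring)
  have q3 := key ((k' : ℝ) * L') _ _ a00 a02 (hA.col 0 2 0) (by
    apply le_of_mul_le_mul_left _ p2
    calc _ = Real.exp (-((k : ℝ) * L)) * A 0 0 * Real.exp (-((k' : ℝ) * L')) := by ring
      _ ≤ _ := c1
      _ = _ := by ring)
  have q4 := key (-((k' : ℝ) * L')) _ _ a02 a00 (hA.col 0 0 2) (by
    rw [neg_neg]
    apply le_of_mul_le_mul_left _ p2
    calc _ = Real.exp (-((k : ℝ) * L)) * A 0 2 * Real.exp ((k' : ℝ) * L') := by ring
      _ ≤ _ := c2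
      _ = _ := by ring)
  constructor
  · rw [abs_le]; constructor <;> linarith
  · rw [abs_le]; constructor <;> linarith

/-- sum over the lists -/
private theorem pm_Had3_list {α : Type} [Fintype α] (r : ENNReal)
    (hr : (Fintype.card α : ENNReal) * r ≤ 1 / 2) :
    ∑' w : List α, r ^ w.length ≤ 2 := by
  rw [← (List.equivSigmaTuple (α := α)).symm.tsum_eq, ENNReal.tsum_sigma']
  have e : ∀ n : ℕ, ∑' b : Fin n → α,
      r ^ ((List.equivSigmaTuple (α := α)).symm ⟨n, b⟩).length =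
      ((Fintype.card α : ENNReal) * r) ^ n := by
    intro n
    rw [tsum_fintype]
    have : ∀ b : Fin n → α, ((List.equivSigmaTuple (α := α)).symm ⟨n, b⟩).length = n := by
      intro b
      simp [List.equivSigmaTuple]
    simp only [this, Finset.sum_const, Finset.card_univ, Fintype.card_fun, Fintype.card_fin,
      nsmul_eq_mul]
    rw [mul_pow]
    push_cast
    rfl
  simp only [e]
  calc ∑' n : ℕ, ((Fintype.card α : ENNReal) * r) ^ n ≤ ∑' n : ℕ, (1 / 2 : ENNReal) ^ n := by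
        apply ENNReal.tsum_le_tsum
        intro n
        exact pow_le_pow_left' hr n
    _ = 2 := by
      rw [ENNReal.tsum_geometric]
      simp

/-- sums over a group glued along separating edges which are bulged by arbitrary amounts; `Z1` is the set
of admissible parameters, `z₀` the undeformed one, where the glued group is a polygon group -/
theorem sep_Z (H : GH ps at_ G S I Gn) {K κ : ℝ} (hK : 1 ≤ K) (hκ : 0 ≤ κ)
    (hV : ∀ v, VCs ps K κ (G v) (S v))
    (Sn : Set Q) (hSf : Sn.Finite) (hSn : ∀ p ∈ Sn, p ∈ S (at_ p) ∧ p ∉ I) (hcn : ∀ p ∈ Sn, ps.c p ∈ G (at_ p))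
    {ι : Type} {A : Finset ι} {R k : ι → M2} {f : Q → M2} {a b : Q → ι} {el : ι → ι → Γ}
    {Zc : Z → GL (Fin 3) ℝ} {lb mu M : ℝ} (hP : PolySys A Sn R k f a b lb mu M) (z₀ : Z)
    (hPV : PolyV ps Gn Sn {z₀} A R f a b el Zc) (v₀ : V) (c₀ : ℕ)
    (hlen : ∀ x ∈ A, ∀ y ∈ A, ∃ l gl, IsPath ps at_ G I v₀ l gl v₀ ∧ ps.pval l * gl = el x y ∧
      l.length ≤ c₀)
    (hlb : (A.card : ℝ) * 2 ^ (2 * c₀) * lb ^ (-(1 / 4 : ℝ)) ≤ 1 / 2) (s₁ : ℝ)
    (Z1 : Set Z) (xp : Z → Q → ℝ) (hv : Z → V → ℝ)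
    (hxp : ∀ z ∈ Z1, ∀ e ∈ I, xp z e = hv z (at_ (ps.bar e)) - hv z (at_ e))
    (hx : ∀ z ∈ Z1, ∀ e ∈ I, ∀ k, ps.Dl e k z 0 = Real.exp (xp z e) * ps.Dl e k z₀ 0 ∧
      ps.Dl e k z 2 = Real.exp (xp z e) * ps.Dl e k z₀ 2)
    (h0 : ∀ e ∈ I, ∀ k, ps.Dl e k z₀ 1 = 1) :
    ∃ A₀ > (0 : ℝ), ∀ Λ : Set Q, ∀ z ∈ Z1, ∀ (s : ℝ), 1 / 8 ≤ s → s ≤ s₁ → ∀ p ∈ Sn, ∀ q ∈ Sn,
      Zs ps K κ Λ Gn z s p q ≤
        ENNReal.ofReal (A₀ * Real.exp (s * (hv z (at_ p) - hv z (at_ q)))) := by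
  classical
  obtain ⟨K₁, hK₁, κ₁, hκ₁, lo, hlo, hcore⟩ := poly_core hP.hmu hP.hM
  choose lc gc hc using H.conn
  set Cm : ℕ := ∑ p ∈ hSf.toFinset, ((lc (at_ p) v₀).length + (lc v₀ (at_ p)).length) with hCm
  have hCm1 : ∀ p ∈ Sn, (lc (at_ p) v₀).length ≤ Cm ∧ (lc v₀ (at_ p)).length ≤ Cm := by
    intro p hp
    have h := Finset.single_le_sum (f := fun p => (lc (at_ p) v₀).length + (lc v₀ (at_ p)).length)
      (fun _ _ => Nat.zero_le _) (hSf.mem_toFinset.mpr hp)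
    rw [← hCm] at h
    omega
  have hK0 : 0 < K := by linarith
  have hK₁0 : 0 < K₁ := by linarith
  have hlogK : 0 ≤ Real.log (K * K) := Real.log_nonneg (by nlinarith)
  have hlogK₁ : 0 ≤ Real.log (K * K₁) := Real.log_nonneg (by nlinarith)
  set bb : ℝ := Real.log (K * K) + Real.log (K * K₁) with hbb
  set B : ℕ := ∑ p ∈ hSf.toFinset, ⌈bb / ps.L p⌉₊ with hB
  have hB1 : ∀ p ∈ Sn, ∀ m : ℤ, |(m : ℝ) * ps.L p| ≤ bb → m ∈ Finset.Icc (-(B : ℤ)) B := by
    intro p hp m hm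
    have hL := ps.L_pos p
    have h := Finset.single_le_sum (f := fun p => ⌈bb / ps.L p⌉₊)
      (fun _ _ => Nat.zero_le _) (hSf.mem_toFinset.mpr hp)
    rw [← hB] at h
    rw [abs_mul, abs_of_pos hL, ← le_div_iff₀ hL] at hm
    have h1 : |(m : ℝ)| ≤ (B : ℝ) :=
      hm.trans ((Nat.le_ceil _).trans (by exact_mod_cast h))
    have h2 : |m| ≤ (B : ℤ) := by exact_mod_cast h1
    rw [Finset.mem_Icc]
    exact abs_le.mp h2
  set ρ : ℝ := lb ^ 2 * (1 / 2) ^ c₀ with hρ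
  set c₃ : ℝ := (K ^ 2)⁻¹ * ((K * K)⁻¹ * (K * K)⁻¹) * (1 / 2) ^ (2 * Cm + c₀) *
    ((K * K₁)⁻¹ * (K * K₁)⁻¹) * lo with hc₃
  have hc₃0 : 0 < c₃ := by positivity
  have hlb0 : 0 < lb := by linarith [hP.hl]
  have hρ0 : 0 < ρ := by positivity
  set x : ℝ := ρ ^ (-(1 / 8 : ℝ)) with hxdef
  have hx0 : 0 < x := by positivity
  have hcx : (A.card : ℝ) * x ≤ 1 / 2 := by
    refine le_trans ?_ hlb
    have e1 : x = lb ^ (-(1 / 4 : ℝ)) * (2 ^ c₀ : ℝ) ^ (1 / 8 : ℝ) := by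
      rw [hxdef, hρ, Real.mul_rpow (by positivity) (by positivity), ← Real.rpow_natCast,
        ← Real.rpow_mul hlb0.le]
      congr 1
      · congr 1; push_cast; norm_num
      · rw [one_div, inv_pow, Real.inv_rpow (by positivity), Real.rpow_neg (by positivity), inv_inv]
    have e2 : (2 ^ c₀ : ℝ) ^ (1 / 8 : ℝ) ≤ 2 ^ (2 * c₀) := by
      have h1 : (1 : ℝ) ≤ 2 ^ c₀ := one_le_pow₀ (by norm_num)
      calc (2 ^ c₀ : ℝ) ^ (1 / 8 : ℝ) ≤ (2 ^ c₀ : ℝ) ^ (1 : ℝ) :=
            Real.rpow_le_rpow_of_exponent_le h1 (by norm_num)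
        _ = 2 ^ c₀ := Real.rpow_one _
        _ ≤ 2 ^ (2 * c₀) := pow_le_pow_right₀ (by norm_num) (by omega)
    rw [e1]
    calc (A.card : ℝ) * (lb ^ (-(1 / 4 : ℝ)) * (2 ^ c₀ : ℝ) ^ (1 / 8 : ℝ)) ≤
        (A.card : ℝ) * (lb ^ (-(1 / 4 : ℝ)) * 2 ^ (2 * c₀)) := by gcongr
      _ = (A.card : ℝ) * 2 ^ (2 * c₀) * lb ^ (-(1 / 4 : ℝ)) := by ring
  set c₄ : ℝ := 1 + c₃ ^ (-s₁) with hc₄
  have hc₄0 : 0 < c₄ := by positivity
  set D : Type := (Finset.Icc (-(B : ℤ)) B) × (Finset.Icc (-(B : ℤ)) B) × Bool × Bool with hD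
  set nD : ℕ := Fintype.card ((Finset.Icc (-(B : ℤ)) B) × (Finset.Icc (-(B : ℤ)) B) × Bool × Bool)
    with hnD
  refine ⟨nD * (c₄ * 2) + 1, by positivity, ?_⟩
  intro Λ z hz s hs1 hs2 p hp q hq
  have hs0 : 0 < s := by linarith
  have hA1 : 1 ≤ (A.card : ℝ) := by
    have : 0 < A.card := Finset.card_pos.mpr ⟨a p, (hP.hab p hp).1⟩
    exact_mod_cast this
  have hρ1 : 1 ≤ ρ := by
    have h1 : 2 ^ (2 * c₀) * lb ^ (-(1 / 4 : ℝ)) ≤ 1 := by
      have h2 : 0 < 2 ^ (2 * c₀) * lb ^ (-(1 / 4 : ℝ)) := by positivity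
      have h3 : 1 * (2 ^ (2 * c₀) * lb ^ (-(1 / 4 : ℝ))) ≤
          (A.card : ℝ) * (2 ^ (2 * c₀) * lb ^ (-(1 / 4 : ℝ))) :=
        mul_le_mul_of_nonneg_right hA1 h2.le
      rw [one_mul, ← mul_assoc] at h3
      linarith
    have h2 : (2 : ℝ) ^ (2 * c₀) ≤ lb ^ (1 / 4 : ℝ) := by
      rw [Real.rpow_neg hlb0.le, ← div_eq_mul_inv, div_le_one (by positivity)] at h1
      exact h1
    have h3 : (lb ^ (1 / 4 : ℝ)) ^ 4 = lb := by
      rw [← Real.rpow_natCast, ← Real.rpow_mul hlb0.le]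
      norm_num
    have h4 : (1 : ℝ) ≤ 2 ^ (2 * c₀) := one_le_pow₀ (by norm_num)
    have h5 : (2 : ℝ) ^ c₀ ≤ lb := by
      calc (2 : ℝ) ^ c₀ ≤ 2 ^ (2 * c₀) := pow_le_pow_right₀ (by norm_num) (by omega)
        _ ≤ lb ^ (1 / 4 : ℝ) := h2
        _ = (lb ^ (1 / 4 : ℝ)) ^ 1 := (pow_one _).symm
        _ ≤ (lb ^ (1 / 4 : ℝ)) ^ 4 := pow_le_pow_right₀ (h4.trans h2) (by norm_num)
        _ = lb := h3
    have h6 : (2 : ℝ) ^ c₀ ≤ lb ^ 2 := by
      have h8 : lb * 1 ≤ lb * lb := mul_le_mul_of_nonneg_left hP.hl hlb0.le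
      rw [mul_one] at h8
      rw [sq]
      exact h5.trans h8
    have h7 : (2 : ℝ) ^ c₀ * (1 / 2) ^ c₀ = 1 := by
      rw [← mul_pow]; norm_num
    calc (1 : ℝ) = 2 ^ c₀ * (1 / 2) ^ c₀ := h7.symm
      _ ≤ lb ^ 2 * (1 / 2) ^ c₀ := mul_le_mul_of_nonneg_right h6 (by positivity)
      _ = ρ := hρ.symm
  set Ez : ℝ := Real.exp (hv z (at_ q) - hv z (at_ p)) with hEz
  set E' : ℝ := Real.exp (s * (hv z (at_ p) - hv z (at_ q))) with hE'
  have hdata : ∀ g : {g : Γ // g ∈ Gn ∧ Nrm ps K κ Λ p g q},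
      ∃ d : ((Finset.Icc (-(B : ℤ)) B) × (Finset.Icc (-(B : ℤ)) B) × Bool × Bool) × List A,
        (g : Γ) = (ps.c p) ^ (d.1.1 : ℤ) *
          evw el (opt d.1.2.2.1 (a p) ++ d.2.map Subtype.val ++ opt d.1.2.2.2 (a q)) *
          (ps.c q) ^ (d.1.2.1 : ℤ) ∧
        c₃ * ρ ^ d.2.length * Ez ≤ mn (ps.TT z p g q) := by
    rintro ⟨g, hg, w0, hok0, heq0⟩
    have hbalT : Bal K κ (ps.TT z p g q) := by
      rw [heq0 z]; exact Word.bal hκ hok0 ps z
    have hnd : ¬ (p = q ∧ g ∈ Subgroup.zpowers (ps.c p)) := by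
      rintro ⟨hpq, hgz⟩
      subst hpq
      have h1 := TT_degenerate ps z p hgz
      have h2 := hbalT.pos 0 0
      rw [h1] at h2
      exact lt_irrefl _ h2
    obtain ⟨m, m', w, σ, σ', T₀, hw, _, hgeq, _, hT₀bal, hT₀mn, hTT₀⟩ := hcore hP hPV hp hq hg hnd
    set wf : List ι := opt σ (a p) ++ w ++ opt σ' (a q) with hwf
    have hopt : ∀ (τ : Bool) (y t : ι), t ∈ opt τ y → t = y := by
      intro τ y t ht
      cases τ with
      | false => simp [opt] at ht
      | true => simpa [opt] using ht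
    have hoptl : ∀ (τ : Bool) (y : ι), (opt τ y).length ≤ 1 := by
      intro τ y
      cases τ <;> simp [opt]
    have hwfA : ∀ t ∈ wf, t ∈ A := by
      intro t ht
      rw [hwf, List.mem_append, List.mem_append] at ht
      rcases ht with (ht | ht) | ht
      · rw [hopt _ _ _ ht]; exact (hP.hab p hp).1
      · exact hw t ht
      · rw [hopt _ _ _ ht]; exact (hP.hab q hq).1
    have hwfl : wf.length ≤ w.length + 2 := by
      rw [hwf, List.length_append, List.length_append]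
      have h1 := hoptl σ (a p)
      have h2 := hoptl σ' (a q)
      omega
    obtain ⟨l1, g1, a1, a2, a3⟩ := pm_Had3_word v₀ c₀ hlen wf hwfA
    obtain ⟨l2, g2, b1, b2, b3⟩ := pm_Had3_concat (hc (at_ p) v₀).1 a1
    obtain ⟨l3, g3, d1, d2, d3⟩ := pm_Had3_concat b1 (hc v₀ (at_ q)).1
    have hval : ps.pval l3 * g3 = evw el wf := by
      rw [d2, b2, (hc (at_ p) v₀).2, (hc v₀ (at_ q)).2, a2, one_mul, mul_one]
    have hl3 : l3.length ≤ (2 * Cm + c₀) + c₀ * w.length := by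
      rw [d3, b3]
      have h1 := (hCm1 p hp).1
      have h2 := (hCm1 q hq).2
      have h3 : wf.length / 2 ≤ w.length + 1 := by omega
      have h4 := a3.trans (Nat.mul_le_mul_left c₀ h3)
      rw [mul_add, mul_one] at h4
      omega
    have hdeg : ¬ (p = q ∧ ps.pval l3 * g3 ∈ Subgroup.zpowers (ps.c p)) := by
      rintro ⟨hpq, hgz⟩
      apply hnd
      refine ⟨hpq, ?_⟩
      rw [hval] at hgz
      rw [hgeq, ← hpq]
      exact mul_mem (mul_mem (zpow_mem (Subgroup.mem_zpowers _) _) hgz)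
        (zpow_mem (Subgroup.mem_zpowers _) _)
    obtain ⟨k, k', T', l', hT'pos, hl', hok, hlen', hsum, hTT'⟩ :=
      glue_len H hV (hSn p hp).1 (hSn q hq).1 (hSn p hp).2 (hSn q hq).2 (xp z) (hv z)
        (hxp z hz) d1 hdeg
    rw [hval] at hTT'
    have hW : ∀ z, Bal K κ (ps.eval ⟨symMat T', l'⟩ z) := fun z => Word.bal hκ hok ps z
    have hhad := had_word (ps := ps) z z₀ (xp z) T' (fun i j => (hT'pos i j).le) l'
      (fun y hy => hx z hz y.1 (hl' y hy).1 y.2.1) (fun y hy => h0 y.1 (hl' y hy).1 y.2.1)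
      (fun y hy => by
        obtain ⟨T'', h1, h2⟩ := (hl' y hy).2
        exact ⟨T'', fun i j => (h1 i j).le, h2⟩)
    rw [hsum, ← hEz] at hhad
    have hTg : ps.TT z p g q = Cd (ps.L p) (m + k) * ps.eval ⟨symMat T', l'⟩ z *
        Cd (ps.L q) (k' + -m') := by
      rw [hgeq, TT_c, hTT' z, Cd_add, Cd_add]
      simp only [mul_assoc]
    obtain ⟨c1, c2⟩ := pm_Had3_cmp (hW z) hbalT hTg
    have hT₀' : symMat T₀ = Cd (ps.L p) k * ps.eval ⟨symMat T', l'⟩ z₀ * Cd (ps.L q) k' := by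
      rw [← hTT' z₀, hTT₀ z₀ rfl]
    obtain ⟨c3, c4⟩ := pm_Had3_cmp (hW z₀) hT₀bal hT₀'
    have hm : m ∈ Finset.Icc (-(B : ℤ)) B := by
      apply hB1 p hp
      have e : (m : ℝ) * ps.L p = (((m + k : ℤ) : ℝ) * ps.L p) - (k : ℝ) * ps.L p := by
        push_cast; ring
      rw [e, hbb]
      exact (abs_sub _ _).trans (add_le_add c1 c3)
    have hm' : m' ∈ Finset.Icc (-(B : ℤ)) B := by
      apply hB1 q hq
      have e : (m' : ℝ) * ps.L q = (k' : ℝ) * ps.L q - (((k' + -m' : ℤ) : ℝ) * ps.L q) := by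
        push_cast; ring
      rw [e, hbb]
      refine (abs_sub _ _).trans ?_
      rw [add_comm]
      exact add_le_add c2 c4
    have hbound : c₃ * ρ ^ w.length * Ez ≤ mn (ps.TT z p g q) := by
      set X : ℝ := mn (ps.TT z p g q) with hX
      have f1 : (ps.TT z p g q) 0 0 ≤ K ^ 2 * X := (le_mx _ 0 0).trans hbalT.mx_le
      have e1 := (pm_Had3_entry (ps.L p) (ps.L q) (m + k) (k' + -m')
        (ps.eval ⟨symMat T', l'⟩ z)).1
      rw [← hTg] at e1
      have e2 := (pm_Had3_entry (ps.L p) (ps.L q) k k' (ps.eval ⟨symMat T', l'⟩ z₀)).1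
      rw [← hT₀'] at e2
      set W1 : ℝ := ps.eval ⟨symMat T', l'⟩ z 0 0 with hW1
      set W0 : ℝ := ps.eval ⟨symMat T', l'⟩ z₀ 0 0 with hW0
      have hW1p : 0 < W1 := (hW z).pos 0 0
      have hW0p : 0 < W0 := (hW z₀).pos 0 0
      have hKK : 0 < K * K := by positivity
      have hKK₁ : 0 < K * K₁ := by positivity
      have gKK : (K * K)⁻¹ = Real.exp (-Real.log (K * K)) := by
        rw [Real.exp_neg, Real.exp_log hKK]
      have g1 : (K * K)⁻¹ ≤ Real.exp (-(((m + k : ℤ) : ℝ) * ps.L p)) := by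
        rw [gKK]
        apply Real.exp_le_exp.mpr
        have := le_abs_self (((m + k : ℤ) : ℝ) * ps.L p)
        linarith
      have g2 : (K * K)⁻¹ ≤ Real.exp (-(((k' + -m' : ℤ) : ℝ) * ps.L q)) := by
        rw [gKK]
        apply Real.exp_le_exp.mpr
        have := le_abs_self (((k' + -m' : ℤ) : ℝ) * ps.L q)
        linarith
      have g3 : Real.exp (-((k : ℝ) * ps.L p)) ≤ K * K₁ := by
        have h1 : Real.exp (-((k : ℝ) * ps.L p)) ≤ Real.exp (Real.log (K * K₁)) := by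
          apply Real.exp_le_exp.mpr
          have := neg_abs_le ((k : ℝ) * ps.L p)
          linarith
        rwa [Real.exp_log hKK₁] at h1
      have g4 : Real.exp (-((k' : ℝ) * ps.L q)) ≤ K * K₁ := by
        have h1 : Real.exp (-((k' : ℝ) * ps.L q)) ≤ Real.exp (Real.log (K * K₁)) := by
          apply Real.exp_le_exp.mpr
          have := neg_abs_le ((k' : ℝ) * ps.L q)
          linarith
        rwa [Real.exp_log hKK₁] at h1
      have f2 : (K * K)⁻¹ * W1 * (K * K)⁻¹ ≤ K ^ 2 * X := by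
        calc (K * K)⁻¹ * W1 * (K * K)⁻¹ ≤
            Real.exp (-(((m + k : ℤ) : ℝ) * ps.L p)) * W1 *
              Real.exp (-(((k' + -m' : ℤ) : ℝ) * ps.L q)) := by
              apply mul_le_mul (mul_le_mul_of_nonneg_right g1 hW1p.le) g2 (by positivity)
                (by positivity)
          _ = (ps.TT z p g q) 0 0 := e1.symm
          _ ≤ _ := f1
      have f3 : lo * lb ^ (2 * w.length) ≤ (K * K₁) * W0 * (K * K₁) := by
        calc lo * lb ^ (2 * w.length) ≤ mn (symMat T₀) := hT₀mn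
          _ ≤ symMat T₀ 0 0 := mn_le _ 0 0
          _ = Real.exp (-((k : ℝ) * ps.L p)) * W0 * Real.exp (-((k' : ℝ) * ps.L q)) := e2
          _ ≤ _ := by
            apply mul_le_mul (mul_le_mul_of_nonneg_right g3 hW0p.le) g4 (by positivity)
              (by positivity)
      have f4 : (K * K₁)⁻¹ * (K * K₁)⁻¹ * (lo * lb ^ (2 * w.length)) ≤ W0 := by
        calc (K * K₁)⁻¹ * (K * K₁)⁻¹ * (lo * lb ^ (2 * w.length)) ≤
            (K * K₁)⁻¹ * (K * K₁)⁻¹ * ((K * K₁) * W0 * (K * K₁)) := by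
              apply mul_le_mul_of_nonneg_left f3 (by positivity)
          _ = W0 := by field_simp
      have f5 : ((1 / 2 : ℝ)) ^ ((2 * Cm + c₀) + c₀ * w.length) ≤ (1 / 2) ^ l'.length :=
        pow_le_pow_of_le_one (by norm_num) (by norm_num) (hlen'.trans hl3)
      have f6 : (1 / 2 : ℝ) ^ ((2 * Cm + c₀) + c₀ * w.length) * Ez *
          ((K * K₁)⁻¹ * (K * K₁)⁻¹ * (lo * lb ^ (2 * w.length))) ≤ W1 := by
        refine le_trans ?_ hhad
        apply mul_le_mul (mul_le_mul_of_nonneg_right f5 (Real.exp_pos _).le) f4 (by positivity)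
          (by positivity)
      have f7 : (K ^ 2)⁻¹ * ((K * K)⁻¹ * W1 * (K * K)⁻¹) ≤ X := by
        calc (K ^ 2)⁻¹ * ((K * K)⁻¹ * W1 * (K * K)⁻¹) ≤ (K ^ 2)⁻¹ * (K ^ 2 * X) := by
              apply mul_le_mul_of_nonneg_left f2 (by positivity)
          _ = X := by field_simp
      refine le_trans ?_ f7
      have f8 : c₃ * ρ ^ w.length * Ez = (K ^ 2)⁻¹ * ((K * K)⁻¹ *
          ((1 / 2 : ℝ) ^ ((2 * Cm + c₀) + c₀ * w.length) * Ez *
          ((K * K₁)⁻¹ * (K * K₁)⁻¹ * (lo * lb ^ (2 * w.length)))) * (K * K)⁻¹) := by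
        have p1 : (1 / 2 : ℝ) ^ ((2 * Cm + c₀) + c₀ * w.length) =
            (1 / 2) ^ (2 * Cm + c₀) * ((1 / 2) ^ c₀) ^ w.length := by
          rw [pow_add (1 / 2 : ℝ) (2 * Cm + c₀), pow_mul]
        have p2 : lb ^ (2 * w.length) = (lb ^ 2) ^ w.length := pow_mul _ _ _
        rw [p1, p2, hc₃, hρ, mul_pow]
        generalize ((1 / 2 : ℝ) ^ c₀) ^ w.length = t1
        generalize (lb ^ 2) ^ w.length = t2
        generalize (1 / 2 : ℝ) ^ (2 * Cm + c₀) = t3
        ring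
      rw [f8]
      apply mul_le_mul_of_nonneg_left _ (by positivity)
      apply mul_le_mul_of_nonneg_right _ (by positivity)
      apply mul_le_mul_of_nonneg_left f6 (by positivity)
    clear_value wf
    subst hwf
    lift w to List A using hw
    refine ⟨((⟨m, hm⟩, ⟨m', hm'⟩, σ, σ'), w), hgeq, ?_⟩
    rw [List.length_map] at hbound
    exact hbound
  choose d hd1 hd2 using hdata
  have hinj : Function.Injective d := by
    intro g g' h
    apply Subtype.ext
    rw [hd1 g, hd1 g', h]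
  have hterm : ∀ g : {g : Γ // g ∈ Gn ∧ Nrm ps K κ Λ p g q},
      ENNReal.ofReal ((mn (ps.TT z p g q)) ^ (-s)) ≤
        ENNReal.ofReal (c₄ * E') * (ENNReal.ofReal x) ^ (d g).2.length := by
    intro g
    rw [← ENNReal.ofReal_pow hx0.le, ← ENNReal.ofReal_mul (by positivity)]
    apply ENNReal.ofReal_le_ofReal
    have h1 := hd2 g
    have hY : 0 < c₃ * ρ ^ (d g).2.length * Ez := by positivity
    have h2 := Real.rpow_le_rpow_of_nonpos hY h1 (by linarith : -s ≤ 0)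
    refine h2.trans ?_
    rw [Real.mul_rpow (by positivity) (by positivity), Real.mul_rpow (by positivity) (by positivity)]
    have t1 : c₃ ^ (-s) ≤ c₄ := by
      rw [hc₄]
      have hpos : 0 < c₃ ^ (-s₁) := by positivity
      by_cases h : 1 ≤ c₃
      · have := Real.rpow_le_one_of_one_le_of_nonpos h (by linarith : -s ≤ 0)
        linarith
      · have := Real.rpow_le_rpow_of_exponent_ge hc₃0 (by linarith) (by linarith : -s₁ ≤ -s)
        linarith
    have t2 : (ρ ^ (d g).2.length) ^ (-s) ≤ x ^ (d g).2.length := by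
      rw [← Real.rpow_natCast, ← Real.rpow_mul hρ0.le, mul_comm, Real.rpow_mul hρ0.le,
        Real.rpow_natCast]
      apply pow_le_pow_left₀ (by positivity)
      exact Real.rpow_le_rpow_of_exponent_le hρ1 (by linarith)
    have t3 : Ez ^ (-s) = E' := by
      rw [hEz, hE', ← Real.exp_mul]
      congr 1; ring
    rw [t3]
    calc c₃ ^ (-s) * (ρ ^ (d g).2.length) ^ (-s) * E' ≤ c₄ * x ^ (d g).2.length * E' := by
          apply mul_le_mul_of_nonneg_right _ (by positivity)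
          exact mul_le_mul t1 t2 (by positivity) (by positivity)
      _ = c₄ * E' * x ^ (d g).2.length := by ring
  have hlist := pm_Had3_list (α := A) (ENNReal.ofReal x) (by
    rw [Fintype.card_coe]
    have h1 : (A.card : ENNReal) * ENNReal.ofReal x = ENNReal.ofReal ((A.card : ℝ) * x) := by
      rw [ENNReal.ofReal_mul (by positivity), ENNReal.ofReal_natCast]
    rw [h1]
    refine (ENNReal.ofReal_le_ofReal hcx).trans (le_of_eq ?_)
    rw [ENNReal.ofReal_div_of_pos (by norm_num)]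
    simp)
  unfold Zs
  calc ∑' g : {g : Γ // g ∈ Gn ∧ Nrm ps K κ Λ p g q},
      ENNReal.ofReal ((mn (ps.TT z p g q)) ^ (-s)) ≤
      ∑' g : {g : Γ // g ∈ Gn ∧ Nrm ps K κ Λ p g q},
        ENNReal.ofReal (c₄ * E') * (ENNReal.ofReal x) ^ (d g).2.length :=
        ENNReal.tsum_le_tsum hterm
    _ ≤ ∑' e : ((Finset.Icc (-(B : ℤ)) B) × (Finset.Icc (-(B : ℤ)) B) × Bool × Bool) × List A,
        ENNReal.ofReal (c₄ * E') * (ENNReal.ofReal x) ^ e.2.length :=
        ENNReal.tsum_comp_le_tsum_of_injective hinj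
          (fun e => ENNReal.ofReal (c₄ * E') * (ENNReal.ofReal x) ^ e.2.length)
    _ = ∑' e1 : ((Finset.Icc (-(B : ℤ)) B) × (Finset.Icc (-(B : ℤ)) B) × Bool × Bool),
        ∑' e2 : List A, ENNReal.ofReal (c₄ * E') * (ENNReal.ofReal x) ^ e2.length :=
        ENNReal.tsum_prod (f := fun (_ : (Finset.Icc (-(B : ℤ)) B) × (Finset.Icc (-(B : ℤ)) B) ×
          Bool × Bool) (e2 : List A) => ENNReal.ofReal (c₄ * E') * (ENNReal.ofReal x) ^ e2.length)
    _ = (nD : ENNReal) * (ENNReal.ofReal (c₄ * E') *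
        ∑' e2 : List A, (ENNReal.ofReal x) ^ e2.length) := by
        rw [tsum_fintype, Finset.sum_const, Finset.card_univ, nsmul_eq_mul, ENNReal.tsum_mul_left]
    _ ≤ (nD : ENNReal) * (ENNReal.ofReal (c₄ * E') * 2) := by gcongr
    _ = ENNReal.ofReal (nD * (c₄ * 2) * E') := by
        have hcE : 0 ≤ c₄ * E' := by positivity
        rw [show (nD : ℝ) * (c₄ * 2) * E' = nD * ((c₄ * E') * 2) by ring,
          ENNReal.ofReal_mul (Nat.cast_nonneg nD), ENNReal.ofReal_natCast,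
          ENNReal.ofReal_mul hcE]
        simp
    _ ≤ _ := by
        apply ENNReal.ofReal_le_ofReal
        have : 0 < E' := Real.exp_pos _
        nlinarith

end

end PM3
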