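import Pool.Agent.LibPM3.FamI
import Pool.Agent.LibPM3.GoGH
import Pool.Agent.LibPM3.Had

/-! Compositions in family I. -/

namespace PM3
open Matrix Filter Topology
open scoped MatrixGroups

noncomputable section

/-- label sets -/
def LB (i : Fin 3) : Set QI := {QI.mp i, QI.mm i}
def LW : Set QI := {QI.dP 2, QI.dH 2, QI.mp 2, QI.mm 2}
def LR : Set QI := {QI.dP 0, QI.dH 0, QI.dP 1, QI.dH 1, QI.mp 0, QI.mm 0, QI.mp 1, QI.mm 1}

/-- bulge and twist of a port -/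
def blI (p : QI) (z : ZI) : ℝ :=
  match p with
  | QI.dP i => z.t i
  | QI.dH i => z.t i
  | QI.mp i => z.a i
  | QI.mm i => z.a i

/-- properties of the polygon vertices of family I with common constants -/
structure PkI (B : Base) (b : Fin 3 → Bool) (K κ : ℝ) (Φ : Finset (ZI → GL (Fin 3) ℝ)) : Prop where
  hK : 1 ≤ K
  hκ : 0 < κ
  vz : VCs (B.psI b) K κ PZ SZ
  vh : ∀ i, VCs (B.psI b) K κ (PH (b i) i) (SH i)
  cz : CR (B.psI b) K κ ∅ PZ Φ
  ch : ∀ i, CR (B.psI b) K κ ∅ (PH (b i) i) Φ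
  fj : ∀ e, (B.psI b).FJ e ∈ Φ
  zz : ∀ s₁ : ℝ, ∃ A₀ > (0 : ℝ), ∀ (Λ : Set QI) (z : ZI) (s : ℝ), 1 / 8 ≤ s → s ≤ s₁ →
    ∀ p ∈ SZ, ∀ q ∈ SZ, Zs (B.psI b) K κ Λ PZ z s p q ≤ ENNReal.ofReal A₀
  zh : ∀ s₁ : ℝ, ∃ A₀ > (0 : ℝ), ∀ (Λ : Set QI) (z : ZI) (s : ℝ), 1 / 8 ≤ s → s ≤ s₁ →
    ∀ i, ∀ p ∈ SH i, ∀ q ∈ SH i, Zs (B.psI b) K κ Λ (PH (b i) i) z s p q ≤ ENNReal.ofReal A₀

section
variable (B : Base) (b : Fin 3 → Bool)

private theorem pm_CI1_r (z : ZI) (g : Surf) :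
    (((B.psI b).r z g : GL (Fin 3) ℝ) : M3) = (B.repI b z g : M3) := rfl

private theorem pm_CI1_F (p : QI) (z : ZI) :
    (((B.psI b).F p z : GL (Fin 3) ℝ) : M3) = B.FI b p z := glOf_coe (B.FI_det b p z)

private theorem pm_CI1_P2 : symMat P2 = P3 := by
  ext i j
  fin_cases i <;> fin_cases j <;> simp [symMat, P2, P3]

private theorem pm_CI1_elG (i : Fin 3) (c : Bool) : PH c i = elG (elH c i) (AH i) := rfl

theorem polyV_Z : PolyV (B.psI b) PZ SZ Set.univ AZ B.R B.fI aI bI elS (fun _ => 1) := by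
  refine ⟨?_, fun x _ => elS_self x, fun x _ y _ w _ => elS_mul x y w, le_rfl, ?_, ?_, ?_⟩
  · intro x hx y hy
    exact Subgroup.subset_closure ⟨x, hx, y, hy, rfl⟩
  · intro p hp
    rcases hp with rfl | rfl | rfl
    · exact (elS_l02 0).symm
    · exact (elS_l02 1).symm
    · exact (elS_l02 2).symm
  · intro z _ x hx y hy
    rw [pm_CI1_r, B.repI_PZ b z hx hy]
    simp
  · intro z _ p hp
    rw [pm_CI1_F]
    rcases hp with rfl | rfl | rfl
    · simp [Base.FI, BaseData.fI]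
    · simp [Base.FI, BaseData.fI]
    · simp [Base.FI, BaseData.fI]

theorem polyV_H (i : Fin 3) (hb : b i = false) : PolyV (B.psI b) (PH (b i) i) (SH i) Set.univ (AH i)
    B.R B.fI aI bI elS (fun z => glOf (B.gI b z i)) := by
  have hel : elH (b i) i = elS := by
    funext x y
    rw [hb]
    rfl
  have hG : PH (b i) i = elG elS (AH i) := by rw [pm_CI1_elG, hel]
  have hR : ∀ z : ZI, ∀ x ∈ AH i, ∀ y ∈ AH i, (B.repI b z (elS x y) : M3) * B.gI b z i =
      B.gI b z i * symMat (B.R x * B.R y) := by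
    intro z x hx y hy
    have h := B.repI_PH b z i hx hy
    rw [hel] at h
    exact h
  rw [hG]
  refine ⟨?_, fun x _ => elS_self x, fun x _ y _ w _ => elS_mul x y w, le_rfl, ?_, ?_, ?_⟩
  · intro x hx y hy
    exact Subgroup.subset_closure ⟨x, hx, y, hy, rfl⟩
  · intro p hp
    rcases hp with rfl | rfl | rfl
    · show (dd i)⁻¹ = elS (l2 i) (l0 i)
      rw [← elS_l02 i]
      simp [elS]
    · show (if b i then (sy i)⁻¹ else sx i) = elS (l0 i) (l1 i)
      rw [hb, elS_l01]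
      simp
    · show (if b i then sx i * sy i * (sx i)⁻¹ else sy i * (sx i)⁻¹ * (sy i)⁻¹) =
        elS (l1 i) (l2 i)
      rw [hb, elS_l12]
      simp
  · intro z _ x hx y hy
    rw [pm_CI1_r, glOf_coe (B.gI_det b z i)]
    exact hR z x hx y hy
  · intro z _ p hp
    rw [pm_CI1_F, glOf_coe (B.gI_det b z i)]
    rcases hp with rfl | rfl | rfl
    · simp [Base.FI, BaseData.fI, hb]
    · simp [Base.FI, BaseData.fI, hb]
    · simp [Base.FI, BaseData.fI, hb]

theorem polyV_M (i : Fin 3) (hb : b i = true) : PolyV (B.psI b) (PH (b i) i) (SH i) Set.univ (AH i)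
    (fun x => B.sw i * B.R x * (B.sw i)⁻¹) (fun p => B.sw i * B.fI p * P2) bI aI (elM i)
    (fun z => glOf (B.Zb z i)) := by
  have hel : elH (b i) i = elM i := by
    funext x y
    rw [hb]
    rfl
  have hG : PH (b i) i = elG (elM i) (AH i) := by rw [pm_CI1_elG, hel]
  have hZ : ∀ z, (B.Zb z i).det ≠ 0 := fun z => by
    rw [B.pm_FamIA_Zb_det]
    exact one_ne_zero
  have hgI : ∀ z, B.gI b z i = B.Zb z i * symMat (B.sw i) := by
    intro z
    unfold Base.gI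
    rw [if_pos hb]
  have hsu : IsUnit (B.sw i).det := by
    rw [B.sw_det]
    exact isUnit_one.neg
  have hss : (B.sw i)⁻¹ * B.sw i = 1 := Matrix.nonsing_inv_mul _ hsu
  have hss' : B.sw i * (B.sw i)⁻¹ = 1 := Matrix.mul_nonsing_inv _ hsu
  have hS : symMat (B.sw i) * symMat ((B.sw i)⁻¹) = 1 := by
    rw [← symMat_mul, hss', symMat_one]
  have hinv : ∀ x y, (elM i x y)⁻¹ = elM i y x := by
    intro x y
    simp [elM]
  rw [hG]
  refine ⟨?_, fun x _ => elM_self i x, fun x _ y _ w _ => elM_mul i x y w, le_rfl, ?_, ?_, ?_⟩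
  · intro x hx y hy
    exact Subgroup.subset_closure ⟨x, hx, y, hy, rfl⟩
  · intro p hp
    rcases hp with rfl | rfl | rfl
    · exact (elM_l02 i).symm
    · show (if b i then (sy i)⁻¹ else sx i) = elM i (l1 i) (l0 i)
      rw [if_pos hb, ← hinv, elM_l01]
    · show (if b i then sx i * sy i * (sx i)⁻¹ else sy i * (sx i)⁻¹ * (sy i)⁻¹) =
        elM i (l2 i) (l1 i)
      rw [if_pos hb, ← hinv, elM_l12]
      group
  · intro z _ x hx y hy
    rw [pm_CI1_r, glOf_coe (hZ z)]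
    have h := B.repI_PH b z i hx hy
    rw [hel, hgI z] at h
    have e1 : B.sw i * B.R x * (B.sw i)⁻¹ * (B.sw i * B.R y * (B.sw i)⁻¹) =
        B.sw i * (B.R x * B.R y) * (B.sw i)⁻¹ := by
      calc B.sw i * B.R x * (B.sw i)⁻¹ * (B.sw i * B.R y * (B.sw i)⁻¹)
          = B.sw i * B.R x * ((B.sw i)⁻¹ * B.sw i) * B.R y * (B.sw i)⁻¹ := by
            simp only [Matrix.mul_assoc]
        _ = _ := by rw [hss, Matrix.mul_one]; simp only [Matrix.mul_assoc]
    show (B.repI b z (elM i x y) : M3) * B.Zb z i =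
      B.Zb z i * symMat (B.sw i * B.R x * (B.sw i)⁻¹ * (B.sw i * B.R y * (B.sw i)⁻¹))
    rw [e1, symMat_mul, symMat_mul]
    calc (B.repI b z (elM i x y) : M3) * B.Zb z i
        = (B.repI b z (elM i x y) : M3) * (B.Zb z i * symMat (B.sw i)) * symMat ((B.sw i)⁻¹) := by
          rw [Matrix.mul_assoc, Matrix.mul_assoc (B.Zb z i), hS, Matrix.mul_one]
      _ = B.Zb z i * symMat (B.sw i) * symMat (B.R x * B.R y) * symMat ((B.sw i)⁻¹) := by rw [h]
      _ = _ := by simp only [Matrix.mul_assoc]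
  · intro z _ p hp
    rw [pm_CI1_F, glOf_coe (hZ z)]
    show B.FI b p z = B.Zb z i * symMat (B.sw i * B.fI p * P2)
    rw [symMat_mul, symMat_mul, pm_CI1_P2]
    rcases hp with rfl | rfl | rfl
    · simp only [Base.FI, BaseData.fI, hgI z, hb, if_true, Matrix.mul_assoc]
    · simp only [Base.FI, BaseData.fI, hgI z, hb, if_true, Matrix.mul_assoc]
    · simp only [Base.FI, BaseData.fI, hgI z, hb, if_true, Matrix.mul_assoc]

private theorem pm_CI2_finQI : Finite QI := by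
  refine Finite.of_surjective
    (fun x : Fin 4 × Fin 3 => (![QI.dP x.2, QI.dH x.2, QI.mp x.2, QI.mm x.2] : Fin 4 → QI) x.1) ?_
  rintro (i | i | i | i)
  · exact ⟨(0, i), rfl⟩
  · exact ⟨(1, i), rfl⟩
  · exact ⟨(2, i), rfl⟩
  · exact ⟨(3, i), rfl⟩

private theorem pm_CI2_nonempty : Nonempty ZI := ⟨⟨fun _ => 0, fun _ => 0, fun _ => 0⟩⟩

/-- everything for one polygon group -/
private theorem pm_CI2_one {G : Subgroup Surf} {S : Set QI} {A : Finset (Fin 6)}
    {R k : Fin 6 → M2} {f : QI → M2} {a c : QI → Fin 6} {el : Fin 6 → Fin 6 → Surf}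
    {Zc : ZI → GL (Fin 3) ℝ} {M : ℝ}
    (hP : PolySys A S R k f a c B.lb B.mu M)
    (hV : PolyV (B.psI b) G S Set.univ A R f a c el Zc) (hA : A.Nonempty) (hc : A.card ≤ 5) :
    ∃ K κ : ℝ, 1 ≤ K ∧ 0 < κ ∧ VCs (B.psI b) K κ G S ∧ ∃ Φ : Set (ZI → GL (Fin 3) ℝ), Φ.Finite ∧
      CR (B.psI b) K κ ∅ G Φ ∧ ∀ K' κ' : ℝ, 1 ≤ K' → 0 ≤ κ' → ∀ s₁ : ℝ, ∃ A₀ > (0 : ℝ),
        ∀ (Λ : Set QI) (z : ZI) (s : ℝ), 1 / 8 ≤ s → s ≤ s₁ → ∀ p ∈ S, ∀ q ∈ S,
          Zs (B.psI b) K' κ' Λ G z s p q ≤ ENNReal.ofReal A₀ := by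
  have := pm_CI2_finQI
  have := pm_CI2_nonempty
  obtain ⟨K1, hK1, κ1, hκ1, h1⟩ := poly_VC hP hV
  obtain ⟨K2, hK2, κ2, hκ2, h2⟩ := poly_CR hA hP hV
  refine ⟨max K1 K2, min κ1 κ2, hK1.trans (le_max_left _ _), lt_min hκ1 hκ2,
    h1.mono (le_max_left _ _) (min_le_left _ _),
    {φ | ∃ x ∈ A, φ = fun z => Zc z * symG (k x)}, ?_,
    (h2 ∅).mono (le_max_right _ _) (min_le_right _ _) (le_refl _) (le_refl _), ?_⟩
  · have h3 : {φ : ZI → GL (Fin 3) ℝ | ∃ x ∈ A, φ = fun z => Zc z * symG (k x)} =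
        (fun x => fun z => Zc z * symG (k x)) '' (A : Set (Fin 6)) := by
      ext φ
      constructor
      · rintro ⟨x, hx, rfl⟩
        exact ⟨x, hx, rfl⟩
      · rintro ⟨x, hx, rfl⟩
        exact ⟨x, hx, rfl⟩
    rw [h3]
    exact (Finset.finite_toSet A).image _
  · intro K' κ' hK' hκ' s₁
    have hlb : (A.card : ℝ) * B.lb ^ (-(1 / 4 : ℝ)) ≤ 1 / 2 := by
      have h3 := B.lb_big
      have h4 : 0 ≤ B.lb ^ (-(1 / 4 : ℝ)) := Real.rpow_nonneg (by linarith [hP.hl]) _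
      have h5 : (A.card : ℝ) ≤ 5 := by exact_mod_cast hc
      have h6 : (A.card : ℝ) * B.lb ^ (-(1 / 4 : ℝ)) ≤
          ((5 : ℝ) * 2 ^ (2 * 4)) * B.lb ^ (-(1 / 4 : ℝ)) :=
        mul_le_mul_of_nonneg_right (h5.trans (by norm_num)) h4
      linarith
    exact poly_Z (Set.toFinite S) hP hV hlb hK' hκ' s₁

private theorem pm_CI2_card (i : Fin 3) : (AH i).Nonempty ∧ (AH i).card ≤ 5 := by
  fin_cases i <;> decide

private theorem pm_CI2_handle (i : Fin 3) :
    ∃ K κ : ℝ, 1 ≤ K ∧ 0 < κ ∧ VCs (B.psI b) K κ (PH (b i) i) (SH i) ∧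
      ∃ Φ : Set (ZI → GL (Fin 3) ℝ), Φ.Finite ∧
      CR (B.psI b) K κ ∅ (PH (b i) i) Φ ∧ ∀ K' κ' : ℝ, 1 ≤ K' → 0 ≤ κ' → ∀ s₁ : ℝ, ∃ A₀ > (0 : ℝ),
        ∀ (Λ : Set QI) (z : ZI) (s : ℝ), 1 / 8 ≤ s → s ≤ s₁ → ∀ p ∈ SH i, ∀ q ∈ SH i,
          Zs (B.psI b) K' κ' Λ (PH (b i) i) z s p q ≤ ENNReal.ofReal A₀ := by
  have hc := pm_CI2_card i
  cases hb : b i with
  | false =>
    have hV := polyV_H B b i hb
    rw [hb] at hV
    exact pm_CI2_one B b (B.polyH i) hV hc.1 hc.2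
  | true =>
    have hV := polyV_M B b i hb
    rw [hb] at hV
    obtain ⟨M', hM'⟩ := B.mirror i
    exact pm_CI2_one B b hM' hV hc.1 hc.2

theorem exists_PkI : ∃ K κ Φ, PkI B b K κ Φ := by
  have := pm_CI2_finQI
  obtain ⟨K0, κ0, hK0, hκ0, vz, Φ0, hΦ0, cz, zz⟩ :=
    pm_CI2_one B b B.polyZ (polyV_Z B b) (by decide) (by decide)
  choose K1 κ1 hK1 hκ1 vh Φ1 hΦ1 ch zh using fun i => pm_CI2_handle B b i
  have hfin : (Φ0 ∪ (⋃ i, Φ1 i) ∪ Set.range (fun e => (B.psI b).FJ e)).Finite :=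
    (hΦ0.union (Set.finite_iUnion hΦ1)).union (Set.finite_range _)
  have e0 : K0 ≤ max K0 (max (K1 0) (max (K1 1) (K1 2))) := le_max_left _ _
  have e1 : ∀ i, K1 i ≤ max K0 (max (K1 0) (max (K1 1) (K1 2))) := by
    intro i
    fin_cases i
    · exact (le_max_left _ _).trans (le_max_right _ _)
    · exact ((le_max_left _ _).trans (le_max_right _ _)).trans (le_max_right _ _)
    · exact ((le_max_right _ _).trans (le_max_right _ _)).trans (le_max_right _ _)
  have f0 : min κ0 (min (κ1 0) (min (κ1 1) (κ1 2))) ≤ κ0 := min_le_left _ _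
  have f1 : ∀ i, min κ0 (min (κ1 0) (min (κ1 1) (κ1 2))) ≤ κ1 i := by
    intro i
    fin_cases i
    · exact (min_le_right _ _).trans (min_le_left _ _)
    · exact (min_le_right _ _).trans ((min_le_right _ _).trans (min_le_left _ _))
    · exact (min_le_right _ _).trans ((min_le_right _ _).trans (min_le_right _ _))
  have f2 : 0 < min κ0 (min (κ1 0) (min (κ1 1) (κ1 2))) :=
    lt_min hκ0 (lt_min (hκ1 0) (lt_min (hκ1 1) (hκ1 2)))
  refine ⟨max K0 (max (K1 0) (max (K1 1) (K1 2))), min κ0 (min (κ1 0) (min (κ1 1) (κ1 2))),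
    hfin.toFinset, ?_⟩
  have hsub0 : Φ0 ⊆ (hfin.toFinset : Set (ZI → GL (Fin 3) ℝ)) := by
    rw [Set.Finite.coe_toFinset]
    intro x hx
    exact Or.inl (Or.inl hx)
  have hsub1 : ∀ i, Φ1 i ⊆ (hfin.toFinset : Set (ZI → GL (Fin 3) ℝ)) := by
    intro i
    rw [Set.Finite.coe_toFinset]
    intro x hx
    exact Or.inl (Or.inr (Set.mem_iUnion.2 ⟨i, hx⟩))
  constructor
  · exact hK0.trans e0
  · exact f2
  · exact vz.mono e0 f0
  · intro i
    exact (vh i).mono (e1 i) (f1 i)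
  · exact cz.mono e0 f0 (le_refl _) hsub0
  · intro i
    exact (ch i).mono (e1 i) (f1 i) (le_refl _) (hsub1 i)
  · intro e
    rw [Set.Finite.mem_toFinset]
    exact Or.inr ⟨e, rfl⟩
  · intro s₁
    exact zz _ _ (hK0.trans e0) f2.le s₁
  · intro s₁
    choose A hA hA' using fun i => zh i _ _ (hK0.trans e0) f2.le s₁
    refine ⟨A 0 + A 1 + A 2, by linarith [hA 0, hA 1, hA 2], ?_⟩
    intro Λ z s hs1 hs2 i p hp q hq
    refine (hA' i Λ z s hs1 hs2 p hp q hq).trans (ENNReal.ofReal_le_ofReal ?_)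
    have := hA 0
    have := hA 1
    have := hA 2
    fin_cases i
    · change A 0 ≤ _; linarith
    · change A 1 ≤ _; linarith
    · change A 2 ≤ _; linarith

/-- a crossing diagonal in exponential form -/
def pm_CI3_Form (d : Fin 3 → ℝ) (a : ℝ) : Prop :=
  ∃ o ε : ℝ, (ε = 1 ∨ ε = -1) ∧ d 0 = Real.exp (ε * a + o) ∧ d 1 = Real.exp (-(2 * (ε * a))) ∧
    d 2 = Real.exp (ε * a - o)

theorem pm_CI3_dl {d : Fin 3 → ℝ} {o a ε L : ℝ} (h0 : d 0 = Real.exp (ε * a + o))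
    (h1 : d 1 = Real.exp (-(2 * (ε * a)))) (h2 : d 2 = Real.exp (ε * a - o)) (k : ℤ) :
    (fun i => d i * (![Real.exp (-(k * L)), 1, Real.exp (k * L)] : Fin 3 → ℝ) i) =
      ![Real.exp (ε * a + (o - k * L)), Real.exp (-(2 * (ε * a))),
        Real.exp (ε * a - (o - k * L))] := by
  funext i
  fin_cases i
  · show d 0 * Real.exp (-(k * L)) = Real.exp (ε * a + (o - k * L))
    rw [h0, ← Real.exp_add]
    congr 1
    ring
  · show d 1 * 1 = Real.exp (-(2 * (ε * a)))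
    rw [h1, mul_one]
  · show d 2 * Real.exp (k * L) = Real.exp (ε * a - (o - k * L))
    rw [h2, ← Real.exp_add]
    congr 1
    ring

theorem pm_CI3_sq {x : ℝ} (hx : x ≠ 0) : x ^ 2 = Real.exp (2 * Real.log |x|) := by
  have h : 0 < |x| := abs_pos.mpr hx
  rw [← sq_abs, two_mul, Real.exp_add, Real.exp_log h]
  ring

theorem pm_CI3_form (p : QI) (z : ZI) : pm_CI3_Form ((B.psI b).D0 p z) (blI p z) := by
  have hq : ∀ i, B.qb b i ≠ 0 := by
    intro i
    unfold Base.qb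
    split_ifs
    · exact B.qq_ne i
    · exact one_ne_zero
  cases p with
  | dP i =>
    refine ⟨2 * Real.log |B.qb b i|, 1, Or.inl rfl, ?_, ?_, ?_⟩
    · show (B.qb b i) ^ 2 * Real.exp (z.t i) = Real.exp (1 * z.t i + _)
      rw [pm_CI3_sq (hq i), ← Real.exp_add]
      congr 1; ring
    · show Real.exp (-(2 * z.t i)) = Real.exp (-(2 * (1 * z.t i)))
      congr 1; ring
    · show ((B.qb b i) ^ 2)⁻¹ * Real.exp (z.t i) = Real.exp (1 * z.t i - _)
      rw [pm_CI3_sq (hq i), ← Real.exp_neg, ← Real.exp_add]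
      congr 1; ring
  | dH i =>
    refine ⟨2 * Real.log |B.qb b i|, -1, Or.inr rfl, ?_, ?_, ?_⟩
    · show (((B.qb b i) ^ 2)⁻¹ * Real.exp (z.t i))⁻¹ = Real.exp (-1 * z.t i + _)
      rw [pm_CI3_sq (hq i), ← Real.exp_neg, ← Real.exp_add, ← Real.exp_neg]
      congr 1; ring
    · show (Real.exp (-(2 * z.t i)))⁻¹ = Real.exp (-(2 * (-1 * z.t i)))
      rw [← Real.exp_neg]
      congr 1; ring
    · show ((B.qb b i) ^ 2 * Real.exp (z.t i))⁻¹ = Real.exp (-1 * z.t i - _)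
      rw [pm_CI3_sq (hq i), ← Real.exp_add, ← Real.exp_neg]
      congr 1; ring
  | mp i =>
    by_cases hb : b i = true
    · refine ⟨-(2 * Real.log |B.eta i|) + z.th i * B.Lm, -1, Or.inr rfl, ?_, ?_, ?_⟩
      · show (if b i then invr (revd (B.dMM i z)) else invr (B.dMM i z)) 0 = _
        rw [if_pos hb]
        show ((B.eta i) ^ 2 * Real.exp (z.a i - z.th i * B.Lm))⁻¹ = Real.exp (-1 * z.a i + _)
        rw [pm_CI3_sq (B.eta_ne i), ← Real.exp_add, ← Real.exp_neg]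
        congr 1; ring
      · show (if b i then invr (revd (B.dMM i z)) else invr (B.dMM i z)) 1 = _
        rw [if_pos hb]
        show (Real.exp (-(2 * z.a i)))⁻¹ = Real.exp (-(2 * (-1 * z.a i)))
        rw [← Real.exp_neg]
        congr 1; ring
      · show (if b i then invr (revd (B.dMM i z)) else invr (B.dMM i z)) 2 = _
        rw [if_pos hb]
        show (((B.eta i) ^ 2)⁻¹ * Real.exp (z.a i + z.th i * B.Lm))⁻¹ = Real.exp (-1 * z.a i - _)
        rw [pm_CI3_sq (B.eta_ne i), ← Real.exp_neg, ← Real.exp_add, ← Real.exp_neg]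
        congr 1; ring
    · refine ⟨2 * Real.log |B.eta i| - z.th i * B.Lm, -1, Or.inr rfl, ?_, ?_, ?_⟩
      · show (if b i then invr (revd (B.dMM i z)) else invr (B.dMM i z)) 0 = _
        rw [if_neg hb]
        show (((B.eta i) ^ 2)⁻¹ * Real.exp (z.a i + z.th i * B.Lm))⁻¹ = Real.exp (-1 * z.a i + _)
        rw [pm_CI3_sq (B.eta_ne i), ← Real.exp_neg, ← Real.exp_add, ← Real.exp_neg]
        congr 1; ring
      · show (if b i then invr (revd (B.dMM i z)) else invr (B.dMM i z)) 1 = _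
        rw [if_neg hb]
        show (Real.exp (-(2 * z.a i)))⁻¹ = Real.exp (-(2 * (-1 * z.a i)))
        rw [← Real.exp_neg]
        congr 1; ring
      · show (if b i then invr (revd (B.dMM i z)) else invr (B.dMM i z)) 2 = _
        rw [if_neg hb]
        show ((B.eta i) ^ 2 * Real.exp (z.a i - z.th i * B.Lm))⁻¹ = Real.exp (-1 * z.a i - _)
        rw [pm_CI3_sq (B.eta_ne i), ← Real.exp_add, ← Real.exp_neg]
        congr 1; ring
  | mm i =>
    by_cases hb : b i = true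
    · refine ⟨-(2 * Real.log |B.eta i|) + z.th i * B.Lm, 1, Or.inl rfl, ?_, ?_, ?_⟩
      · show (if b i then revd (B.dMM i z) else B.dMM i z) 0 = _
        rw [if_pos hb]
        show ((B.eta i) ^ 2)⁻¹ * Real.exp (z.a i + z.th i * B.Lm) = Real.exp (1 * z.a i + _)
        rw [pm_CI3_sq (B.eta_ne i), ← Real.exp_neg, ← Real.exp_add]
        congr 1; ring
      · show (if b i then revd (B.dMM i z) else B.dMM i z) 1 = _
        rw [if_pos hb]
        show Real.exp (-(2 * z.a i)) = Real.exp (-(2 * (1 * z.a i)))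
        congr 1; ring
      · show (if b i then revd (B.dMM i z) else B.dMM i z) 2 = _
        rw [if_pos hb]
        show (B.eta i) ^ 2 * Real.exp (z.a i - z.th i * B.Lm) = Real.exp (1 * z.a i - _)
        rw [pm_CI3_sq (B.eta_ne i), ← Real.exp_add]
        congr 1; ring
    · refine ⟨2 * Real.log |B.eta i| - z.th i * B.Lm, 1, Or.inl rfl, ?_, ?_, ?_⟩
      · show (if b i then revd (B.dMM i z) else B.dMM i z) 0 = _
        rw [if_neg hb]
        show (B.eta i) ^ 2 * Real.exp (z.a i - z.th i * B.Lm) = Real.exp (1 * z.a i + _)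
        rw [pm_CI3_sq (B.eta_ne i), ← Real.exp_add]
        congr 1; ring
      · show (if b i then revd (B.dMM i z) else B.dMM i z) 1 = _
        rw [if_neg hb]
        show Real.exp (-(2 * z.a i)) = Real.exp (-(2 * (1 * z.a i)))
        congr 1; ring
      · show (if b i then revd (B.dMM i z) else B.dMM i z) 2 = _
        rw [if_neg hb]
        show ((B.eta i) ^ 2)⁻¹ * Real.exp (z.a i + z.th i * B.Lm) = Real.exp (1 * z.a i - _)
        rw [pm_CI3_sq (B.eta_ne i), ← Real.exp_neg, ← Real.exp_add]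
        congr 1; ring

/-- crossing sums -/
theorem crossI : ∃ C > (0 : ℝ), ∀ (p : QI) (z : ZI) (s : ℝ), 0 ≤ blI p z → 1 / 8 ≤ s →
    Xs (B.psI b) z s p ≤ ENNReal.ofReal (C * Real.exp (-(s / 2) * blI p z)) := by
  obtain ⟨C1, hC1, h1⟩ := cross_sum B.hLd
  obtain ⟨C2, hC2, h2⟩ := cross_sum B.hLm
  have hL : ∀ p : QI, (B.psI b).L p = B.Ld ∨ (B.psI b).L p = B.Lm := by
    intro p
    cases p
    · exact Or.inl rfl
    · exact Or.inl rfl
    · exact Or.inr rfl
    · exact Or.inr rfl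
  refine ⟨max C1 C2, lt_max_of_lt_left hC1, ?_⟩
  intro p z s ha hs
  obtain ⟨o, ε, hε, f0, f1, f2⟩ := pm_CI3_form B b p z
  have hX : Xs (B.psI b) z s p = ∑' k : ℤ, ENNReal.ofReal
      ((mxd ![Real.exp (ε * blI p z + (o - k * (B.psI b).L p)), Real.exp (-(2 * (ε * blI p z))),
        Real.exp (ε * blI p z - (o - k * (B.psI b).L p))]) ^ (-s)) := by
    unfold Xs
    congr 1
    funext k
    unfold PS.Dl
    rw [pm_CI3_dl f0 f1 f2 k]
  have hexp := Real.exp_pos (-(s / 2) * blI p z)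
  rw [hX]
  rcases hL p with hl | hl
  · rw [hl]
    refine (h1 o (blI p z) s ε ha hs hε).trans ?_
    apply ENNReal.ofReal_le_ofReal
    exact mul_le_mul_of_nonneg_right (le_max_left _ _) hexp.le
  · rw [hl]
    refine (h2 o (blI p z) s ε ha hs hε).trans ?_
    apply ENNReal.ofReal_le_ofReal
    exact mul_le_mul_of_nonneg_right (le_max_right _ _) hexp.le

/-! ### graphs of groups -/

theorem pm_CI4_sx (i : Fin 3) : sx i ∈ BH i := Subgroup.subset_closure (Or.inl rfl)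
theorem pm_CI4_sy (i : Fin 3) : sy i ∈ BH i := Subgroup.subset_closure (Or.inr rfl)

theorem pm_CI4_dd (i : Fin 3) : dd i ∈ BH i := by
  unfold dd com
  exact (BH i).mul_mem ((BH i).mul_mem ((BH i).mul_mem (pm_CI4_sx i) (pm_CI4_sy i))
    ((BH i).inv_mem (pm_CI4_sx i))) ((BH i).inv_mem (pm_CI4_sy i))

theorem pm_CI4_l0 (i : Fin 3) : l0 i ∈ AH i := by simp [AH]
theorem pm_CI4_l1 (i : Fin 3) : l1 i ∈ AH i := by simp [AH]
theorem pm_CI4_l2 (i : Fin 3) : l2 i ∈ AH i := by simp [AH]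

theorem pm_CI4_mem (b : Bool) (i : Fin 3) {x y : Fin 6} (hx : x ∈ AH i) (hy : y ∈ AH i) :
    elH b i x y ∈ PH b i := Subgroup.subset_closure ⟨x, hx, y, hy, rfl⟩

theorem pm_CI4_le (b : Bool) (i : Fin 3) : PH b i ≤ BH i := by
  have key : ∀ x ∈ AH i, elH b i (l0 i) x ∈ BH i := by
    intro x hx
    simp only [AH, Finset.mem_insert, Finset.mem_singleton] at hx
    rcases hx with rfl | rfl | rfl
    · rw [elH_self]; exact (BH i).one_mem
    · cases b
      · show elS _ _ ∈ _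
        rw [elS_l01]; exact pm_CI4_sx i
      · show elM i _ _ ∈ _
        rw [elM_l01]; exact pm_CI4_sy i
    · cases b
      · show elS _ _ ∈ _
        rw [elS_l02]; exact pm_CI4_dd i
      · show elM i _ _ ∈ _
        rw [elM_l02]; exact (BH i).inv_mem (pm_CI4_dd i)
  unfold PH elG
  rw [Subgroup.closure_le]
  rintro g ⟨x, hx, y, hy, rfl⟩
  have h : elH b i x y = (elH b i (l0 i) x)⁻¹ * elH b i (l0 i) y := by
    rw [← elH_mul b i (l0 i) x y, inv_mul_cancel_left]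
  rw [h]
  exact (BH i).mul_mem ((BH i).inv_mem (key x hx)) (key y hy)

/-- C1: the handle group from its polygon group -/
theorem ghB (i : Fin 3) : GH (B.psI b) (fun _ => ()) (fun _ : Unit => PH (b i) i) (fun _ => SH i)
    (LB i) (BH i) := by
  have hm01 : elH (b i) i (l0 i) (l1 i) ∈ PH (b i) i :=
    pm_CI4_mem _ i (pm_CI4_l0 i) (pm_CI4_l1 i)
  have hm12 : elH (b i) i (l1 i) (l2 i) ∈ PH (b i) i :=
    pm_CI4_mem _ i (pm_CI4_l1 i) (pm_CI4_l2 i)
  refine ⟨fun v p _ => rfl, ?_, ?_, fun _ => pm_CI4_le _ i, ?_, ?_, ?_⟩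
  · rintro p (rfl | rfl)
    · exact ⟨Or.inr rfl, Or.inr (Or.inl rfl)⟩
    · exact ⟨Or.inl rfl, Or.inr (Or.inr rfl)⟩
  · rintro p (rfl | rfl)
    · show (if b i then (sy i)⁻¹ else sx i) ∈ PH (b i) i
      cases hb : b i
      · rw [hb] at hm01
        have : elH false i (l0 i) (l1 i) = sx i := elS_l01 i
        rw [this] at hm01
        simpa using hm01
      · rw [hb] at hm01
        have : elH true i (l0 i) (l1 i) = sy i := elM_l01 i
        rw [this] at hm01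
        simpa using hm01
    · show (if b i then sx i * sy i * (sx i)⁻¹ else sy i * (sx i)⁻¹ * (sy i)⁻¹) ∈ PH (b i) i
      cases hb : b i
      · rw [hb] at hm12
        have : elH false i (l1 i) (l2 i) = sy i * (sx i)⁻¹ * (sy i)⁻¹ := elS_l12 i
        rw [this] at hm12
        simpa using hm12
      · rw [hb] at hm12
        have : elH true i (l1 i) (l2 i) = sx i * (sy i)⁻¹ * (sx i)⁻¹ := elM_l12 i
        rw [this] at hm12
        have h2 := (PH true i).inv_mem hm12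
        have e : (sx i * (sy i)⁻¹ * (sx i)⁻¹)⁻¹ = sx i * sy i * (sx i)⁻¹ := by group
        rw [e] at h2
        simpa using h2
  · rintro p (rfl | rfl)
    · show (if b i then (sx i)⁻¹ else (sy i)⁻¹) ∈ BH i
      split_ifs
      · exact (BH i).inv_mem (pm_CI4_sx i)
      · exact (BH i).inv_mem (pm_CI4_sy i)
    · show (if b i then sx i else sy i) ∈ BH i
      split_ifs
      · exact pm_CI4_sx i
      · exact pm_CI4_sy i
  · intro v w
    exact ⟨[], 1, IsPath.nil (PH (b i) i).one_mem, by simp [PS.pval]⟩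
  · have ht : (B.psI b).t (QI.mm i) ∈ Subgroup.closure ({g | ∃ v : Unit, g ∈ PH (b i) i} ∪
        {g | ∃ p ∈ LB i, g = (B.psI b).t p}) :=
      Subgroup.subset_closure (Or.inr ⟨QI.mm i, Or.inr rfl, rfl⟩)
    have ht' : (B.psI b).t (QI.mm i) = if b i then sx i else sy i := rfl
    rw [ht'] at ht
    have h01 : elH (b i) i (l0 i) (l1 i) ∈ Subgroup.closure ({g | ∃ v : Unit, g ∈ PH (b i) i} ∪
        {g | ∃ p ∈ LB i, g = (B.psI b).t p}) :=
      Subgroup.subset_closure (Or.inl ⟨(), hm01⟩)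
    have h01' : elH (b i) i (l0 i) (l1 i) = if b i then sy i else sx i := by
      unfold elH
      split_ifs
      · exact elM_l01 i
      · exact elS_l01 i
    rw [h01'] at h01
    unfold BH
    rw [Subgroup.closure_le]
    rintro g (rfl | rfl)
    · cases hb : b i
      · rw [hb] at h01; simpa [hb] using h01
      · rw [hb] at ht; simpa [hb] using ht
    · cases hb : b i
      · rw [hb] at ht; simpa [hb] using ht
      · rw [hb] at h01; simpa [hb] using h01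

def atW : QI → Bool
  | QI.dP _ => false
  | _ => true

/-- C2: `W = ⟨P_z, B_2⟩` -/
theorem ghW : GH (B.psI b) atW (fun v => if v then BH 2 else PZ)
    (fun v => if v then {QI.dH 2} else SZ) {QI.dP 2, QI.dH 2} WG := by
  have w0 : dd 0 ∈ WG := Subgroup.subset_closure (Or.inl rfl)
  have w1 : dd 1 ∈ WG := Subgroup.subset_closure (Or.inr (Or.inl rfl))
  have w2 : sx 2 ∈ WG := Subgroup.subset_closure (Or.inr (Or.inr (Or.inl rfl)))
  have w3 : sy 2 ∈ WG := Subgroup.subset_closure (Or.inr (Or.inr (Or.inr rfl)))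
  have hPZ : PZ ≤ WG := by
    have key : ∀ x ∈ AZ, pf x ∈ WG := by
      intro x hx
      simp only [AZ, Finset.mem_insert, Finset.mem_singleton] at hx
      rcases hx with rfl | rfl | rfl
      · exact WG.one_mem
      · exact w0
      · exact WG.mul_mem w0 w1
    unfold PZ elG
    rw [Subgroup.closure_le]
    rintro g ⟨x, hx, y, hy, rfl⟩
    exact WG.mul_mem (WG.inv_mem (key x hx)) (key y hy)
  have hBW : BH 2 ≤ WG := by
    unfold BH
    rw [Subgroup.closure_le]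
    rintro g (rfl | rfl)
    · exact w2
    · exact w3
  have hz : ∀ i : Fin 3, dd i ∈ PZ := by
    intro i
    rw [← elS_l02 i]
    refine Subgroup.subset_closure ⟨l0 i, ?_, l2 i, ?_, rfl⟩
    · fin_cases i <;> simp [l0, AZ]
    · fin_cases i <;> simp [l2, AZ]
  refine ⟨?_, ?_, ?_, ?_, ?_, ?_, ?_⟩
  · intro v p hp
    cases v
    · simp only [Bool.false_eq_true, if_false] at hp
      rcases hp with rfl | rfl | rfl <;> rfl
    · simp only [if_true] at hp
      have : p = QI.dH 2 := hp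
      rw [this]; rfl
  · rintro p (rfl | rfl)
    · exact ⟨Or.inr rfl, Or.inr (Or.inr rfl)⟩
    · exact ⟨Or.inl rfl, rfl⟩
  · rintro p (rfl | rfl)
    · exact hz 2
    · exact (BH 2).inv_mem (pm_CI4_dd 2)
  · intro v
    cases v
    · exact hPZ
    · exact hBW
  · rintro p (rfl | rfl)
    · exact WG.one_mem
    · exact WG.one_mem
  · intro v w
    cases v <;> cases w
    · exact ⟨[], 1, IsPath.nil (Subgroup.one_mem _), by simp [PS.pval]⟩
    · refine ⟨[(1, QI.dP 2)], 1, IsPath.cons (Subgroup.one_mem _) (Or.inl rfl) rfl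
        (IsPath.nil (Subgroup.one_mem _)), ?_⟩
      have : (B.psI b).t (QI.dP 2) = 1 := rfl
      simp [PS.pval, this]
    · refine ⟨[(1, QI.dH 2)], 1, IsPath.cons (Subgroup.one_mem _) (Or.inr rfl) rfl
        (IsPath.nil (Subgroup.one_mem _)), ?_⟩
      have : (B.psI b).t (QI.dH 2) = 1 := rfl
      simp [PS.pval, this]
    · exact ⟨[], 1, IsPath.nil (Subgroup.one_mem _), by simp [PS.pval]⟩
  · unfold WG
    rw [Subgroup.closure_le]
    rintro g (rfl | rfl | rfl | rfl)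
    · exact Subgroup.subset_closure (Or.inl ⟨false, hz 0⟩)
    · exact Subgroup.subset_closure (Or.inl ⟨false, hz 1⟩)
    · exact Subgroup.subset_closure (Or.inl ⟨true, pm_CI4_sx 2⟩)
    · exact Subgroup.subset_closure (Or.inl ⟨true, pm_CI4_sy 2⟩)

def at5 : QI → Fin 3
  | QI.dP _ => 2
  | QI.dH i => i
  | QI.mp i => i
  | QI.mm i => i

private theorem pm_CI5_elG {el : Fin 6 → Fin 6 → Surf} {A : Finset (Fin 6)} {x y : Fin 6}
    (hx : x ∈ A) (hy : y ∈ A) : el x y ∈ elG el A :=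
  Subgroup.subset_closure ⟨x, hx, y, hy, rfl⟩

private theorem pm_CI5_elG_mono {el : Fin 6 → Fin 6 → Surf} {A A' : Finset (Fin 6)}
    (h : A ⊆ A') : elG el A ≤ elG el A' := by
  apply Subgroup.closure_mono
  rintro g ⟨x, hx, y, hy, rfl⟩
  exact ⟨x, h hx, y, h hy, rfl⟩

private theorem pm_CI5_PH (i : Fin 3) : PH false i = elG elS (AH i) := by
  unfold PH
  congr 1

private theorem pm_CI5_ddZ0 : dd 0 ∈ PZ := by
  rw [← elS_l02 0]
  exact pm_CI5_elG (by decide) (by decide)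

private theorem pm_CI5_ddZ1 : dd 1 ∈ PZ := by
  rw [← elS_l02 1]
  exact pm_CI5_elG (by decide) (by decide)

private theorem pm_CI5_ddH (i : Fin 3) : dd i ∈ PH false i := by
  rw [pm_CI5_PH, ← elS_l02 i]
  exact pm_CI5_elG (by simp [AH]) (by simp [AH])

private theorem pm_CI5_le (v : Fin 3) :
    (![PH false 0, PH false 1, PZ] : Fin 3 → Subgroup Surf) v ≤ V5 := by
  fin_cases v
  · show PH false 0 ≤ V5
    rw [pm_CI5_PH]
    exact pm_CI5_elG_mono (by decide)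
  · show PH false 1 ≤ V5
    rw [pm_CI5_PH]
    exact pm_CI5_elG_mono (by decide)
  · show PZ ≤ V5
    exact pm_CI5_elG_mono (by decide)

private theorem pm_CI5_gen {H : Subgroup Surf} (hz : PZ ≤ H) (h0 : PH false 0 ≤ H)
    (h1 : PH false 1 ≤ H) : V5 ≤ H := by
  have key : ∀ y ∈ A5, elS 0 y ∈ H := by
    intro y hy
    have hy' : y = 0 ∨ y = 1 ∨ y = 2 ∨ y = 3 ∨ y = 4 := by
      revert hy; revert y; decide
    rcases hy' with rfl | rfl | rfl | rfl | rfl
    · rw [elS_self]; exact one_mem _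
    · apply h0
      rw [pm_CI5_PH]
      exact pm_CI5_elG (by decide) (by decide)
    · apply hz
      exact pm_CI5_elG (by decide) (by decide)
    · rw [← elS_mul 0 2 3]
      apply mul_mem
      · apply hz
        exact pm_CI5_elG (by decide) (by decide)
      · apply h1
        rw [pm_CI5_PH]
        exact pm_CI5_elG (by decide) (by decide)
    · apply hz
      exact pm_CI5_elG (by decide) (by decide)
  unfold V5 elG
  rw [Subgroup.closure_le]
  rintro g ⟨x, hx, y, hy, rfl⟩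
  have e : elS x y = (elS 0 x)⁻¹ * elS 0 y := by
    rw [← elS_mul 0 x y]; group
  rw [SetLike.mem_coe, e]
  exact mul_mem (inv_mem (key x hx)) (key y hy)

/-- C3: `V_5 = ⟨P_z, P_0, P_1⟩` (handles 0, 1 of type x) -/
theorem gh5 (h0 : b 0 = false) (h1 : b 1 = false) :
    GH (B.psI b) at5 (![PH false 0, PH false 1, PZ] : Fin 3 → Subgroup Surf)
      (![SH 0, SH 1, SZ] : Fin 3 → Set QI) {QI.dP 0, QI.dH 0, QI.dP 1, QI.dH 1} V5 where
  hS := by
    intro v p hp
    fin_cases v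
    · have hp' : p ∈ SH 0 := hp
      rcases hp' with rfl | rfl | rfl <;> rfl
    · have hp' : p ∈ SH 1 := hp
      rcases hp' with rfl | rfl | rfl <;> rfl
    · have hp' : p ∈ SZ := hp
      rcases hp' with rfl | rfl | rfl <;> rfl
  hI := by
    intro p hp
    rcases hp with rfl | rfl | rfl | rfl
    · exact ⟨by show QI.dH 0 ∈ _; simp, by show QI.dP 0 ∈ SZ; simp [SZ]⟩
    · exact ⟨by show QI.dP 0 ∈ _; simp, by show QI.dH 0 ∈ SH 0; simp [SH]⟩
    · exact ⟨by show QI.dH 1 ∈ _; simp, by show QI.dP 1 ∈ SZ; simp [SZ]⟩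
    · exact ⟨by show QI.dP 1 ∈ _; simp, by show QI.dH 1 ∈ SH 1; simp [SH]⟩
  hc := by
    intro p hp
    rcases hp with rfl | rfl | rfl | rfl
    · show dd 0 ∈ PZ
      exact pm_CI5_ddZ0
    · show (dd 0)⁻¹ ∈ PH false 0
      exact inv_mem (pm_CI5_ddH 0)
    · show dd 1 ∈ PZ
      exact pm_CI5_ddZ1
    · show (dd 1)⁻¹ ∈ PH false 1
      exact inv_mem (pm_CI5_ddH 1)
  hG := pm_CI5_le
  ht := by
    intro p hp
    rcases hp with rfl | rfl | rfl | rfl <;> exact one_mem V5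
  conn := by
    intro v w
    have h02 : ∀ {l gl w}, IsPath (B.psI b) at5 (![PH false 0, PH false 1, PZ] : Fin 3 → Subgroup Surf)
        {QI.dP 0, QI.dH 0, QI.dP 1, QI.dH 1} 2 l gl w →
        IsPath (B.psI b) at5 (![PH false 0, PH false 1, PZ] : Fin 3 → Subgroup Surf)
        {QI.dP 0, QI.dH 0, QI.dP 1, QI.dH 1} 0 ((1, QI.dH 0) :: l) gl w := by
      intro l gl w h
      exact IsPath.cons (one_mem _) (by simp) rfl h
    have h12 : ∀ {l gl w}, IsPath (B.psI b) at5 (![PH false 0, PH false 1, PZ] : Fin 3 → Subgroup Surf)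
        {QI.dP 0, QI.dH 0, QI.dP 1, QI.dH 1} 2 l gl w →
        IsPath (B.psI b) at5 (![PH false 0, PH false 1, PZ] : Fin 3 → Subgroup Surf)
        {QI.dP 0, QI.dH 0, QI.dP 1, QI.dH 1} 1 ((1, QI.dH 1) :: l) gl w := by
      intro l gl w h
      exact IsPath.cons (one_mem _) (by simp) rfl h
    have h20 : IsPath (B.psI b) at5 (![PH false 0, PH false 1, PZ] : Fin 3 → Subgroup Surf)
        {QI.dP 0, QI.dH 0, QI.dP 1, QI.dH 1} 2 [(1, QI.dP 0)] 1 0 := 
      IsPath.cons (one_mem _) (by simp) rfl (IsPath.nil (one_mem _))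
    have h21 : IsPath (B.psI b) at5 (![PH false 0, PH false 1, PZ] : Fin 3 → Subgroup Surf)
        {QI.dP 0, QI.dH 0, QI.dP 1, QI.dH 1} 2 [(1, QI.dP 1)] 1 1 := 
      IsPath.cons (one_mem _) (by simp) rfl (IsPath.nil (one_mem _))
    have h22 : IsPath (B.psI b) at5 (![PH false 0, PH false 1, PZ] : Fin 3 → Subgroup Surf)
        {QI.dP 0, QI.dH 0, QI.dP 1, QI.dH 1} 2 [] 1 2 := IsPath.nil (one_mem _)
    have t0 : (B.psI b).t (QI.dP 0) = 1 := rfl
    have t1 : (B.psI b).t (QI.dP 1) = 1 := rfl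
    have t2 : (B.psI b).t (QI.dH 0) = 1 := rfl
    have t3 : (B.psI b).t (QI.dH 1) = 1 := rfl
    fin_cases v <;> fin_cases w
    · exact ⟨_, _, IsPath.nil (one_mem _), by simp [PS.pval]⟩
    · exact ⟨_, _, h02 h21, by simp [PS.pval, t1, t2]⟩
    · exact ⟨_, _, h02 h22, by simp [PS.pval, t2]⟩
    · exact ⟨_, _, h12 h20, by simp [PS.pval, t0, t3]⟩
    · exact ⟨_, _, IsPath.nil (one_mem _), by simp [PS.pval]⟩
    · exact ⟨_, _, h12 h22, by simp [PS.pval, t3]⟩
    · exact ⟨_, _, h20, by simp [PS.pval, t0]⟩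
    · exact ⟨_, _, h21, by simp [PS.pval, t1]⟩
    · exact ⟨_, _, h22, by simp [PS.pval]⟩
  gen := by
    apply pm_CI5_gen
    · intro g hg
      exact Subgroup.subset_closure (Or.inl ⟨2, hg⟩)
    · intro g hg
      exact Subgroup.subset_closure (Or.inl ⟨0, hg⟩)
    · intro g hg
      exact Subgroup.subset_closure (Or.inl ⟨1, hg⟩)

private theorem pm_CI5_pf {f : Fin 6} (hf : f ∈ A5) : pf f ∈ RG := by
  have hx0 : sx 0 ∈ RG := Subgroup.subset_closure (by simp)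
  have hy0 : sy 0 ∈ RG := Subgroup.subset_closure (by simp)
  have hx1 : sx 1 ∈ RG := Subgroup.subset_closure (by simp)
  have hy1 : sy 1 ∈ RG := Subgroup.subset_closure (by simp)
  have hd0 : dd 0 ∈ RG := by
    unfold dd com
    exact mul_mem (mul_mem (mul_mem hx0 hy0) (inv_mem hx0)) (inv_mem hy0)
  have hd1 : dd 1 ∈ RG := by
    unfold dd com
    exact mul_mem (mul_mem (mul_mem hx1 hy1) (inv_mem hx1)) (inv_mem hy1)
  have hf' : f = 0 ∨ f = 1 ∨ f = 2 ∨ f = 3 ∨ f = 4 := by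
    revert hf; revert f; decide
  rcases hf' with rfl | rfl | rfl | rfl | rfl
  · exact one_mem _
  · exact hx0
  · exact hd0
  · exact mul_mem hd0 hx1
  · exact mul_mem hd0 hd1

private theorem pm_CI5_V5le : V5 ≤ RG := by
  unfold V5 elG
  rw [Subgroup.closure_le]
  rintro g ⟨x, hx, y, hy, rfl⟩
  rw [SetLike.mem_coe]
  exact mul_mem (inv_mem (pm_CI5_pf hx)) (pm_CI5_pf hy)

private theorem pm_CI5_x0 : sx 0 ∈ V5 := by
  rw [← elS_l01 0]
  exact pm_CI5_elG (by decide) (by decide)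

private theorem pm_CI5_x1 : sx 1 ∈ V5 := by
  rw [← elS_l01 1]
  exact pm_CI5_elG (by decide) (by decide)

/-- C4: `R` from `V_5` by the two loops -/
theorem ghR (h0 : b 0 = false) (h1 : b 1 = false) :
    GH (B.psI b) (fun _ => ()) (fun _ : Unit => V5) (fun _ => S5)
      {QI.mp 0, QI.mm 0, QI.mp 1, QI.mm 1} RG where
  hS := by
    intro v p _
    rfl
  hI := by
    intro p hp
    rcases hp with rfl | rfl | rfl | rfl
    · exact ⟨by show QI.mm 0 ∈ _; simp, by simp [S5]⟩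
    · exact ⟨by show QI.mp 0 ∈ _; simp, by simp [S5]⟩
    · exact ⟨by show QI.mm 1 ∈ _; simp, by simp [S5]⟩
    · exact ⟨by show QI.mp 1 ∈ _; simp, by simp [S5]⟩
  hc := by
    intro p hp
    rcases hp with rfl | rfl | rfl | rfl
    · have e : (B.psI b).c (QI.mp 0) = sx 0 := by simp [Base.psI, Base.cI, h0]
      rw [e]; exact pm_CI5_x0
    · have e : (B.psI b).c (QI.mm 0) = elS (l1 0) (l2 0) := by
        rw [elS_l12]; simp [Base.psI, Base.cI, h0]
      rw [e]; exact pm_CI5_elG (by decide) (by decide)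
    · have e : (B.psI b).c (QI.mp 1) = sx 1 := by simp [Base.psI, Base.cI, h1]
      rw [e]; exact pm_CI5_x1
    · have e : (B.psI b).c (QI.mm 1) = elS (l1 1) (l2 1) := by
        rw [elS_l12]; simp [Base.psI, Base.cI, h1]
      rw [e]; exact pm_CI5_elG (by decide) (by decide)
  hG := by
    intro _
    exact pm_CI5_V5le
  ht := by
    have hy0 : sy 0 ∈ RG := Subgroup.subset_closure (by simp)
    have hy1 : sy 1 ∈ RG := Subgroup.subset_closure (by simp)
    intro p hp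
    rcases hp with rfl | rfl | rfl | rfl
    · have e : (B.psI b).t (QI.mp 0) = (sy 0)⁻¹ := by simp [Base.psI, Base.tI, h0]
      rw [e]; exact inv_mem hy0
    · have e : (B.psI b).t (QI.mm 0) = sy 0 := by simp [Base.psI, Base.tI, h0]
      rw [e]; exact hy0
    · have e : (B.psI b).t (QI.mp 1) = (sy 1)⁻¹ := by simp [Base.psI, Base.tI, h1]
      rw [e]; exact inv_mem hy1
    · have e : (B.psI b).t (QI.mm 1) = sy 1 := by simp [Base.psI, Base.tI, h1]
      rw [e]; exact hy1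
  conn := by
    intro v w
    exact ⟨[], 1, IsPath.nil (one_mem _), by simp [PS.pval]⟩
  gen := by
    unfold RG
    rw [Subgroup.closure_le]
    intro g hg
    rw [SetLike.mem_coe]
    rcases hg with rfl | rfl | rfl | rfl
    · exact Subgroup.subset_closure (Or.inl ⟨(), pm_CI5_x0⟩)
    · exact Subgroup.subset_closure (Or.inr ⟨QI.mm 0, by simp, by simp [Base.psI, Base.tI, h0]⟩)
    · exact Subgroup.subset_closure (Or.inl ⟨(), pm_CI5_x1⟩)
    · exact Subgroup.subset_closure (Or.inr ⟨QI.mm 1, by simp, by simp [Base.psI, Base.tI, h1]⟩)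

private theorem pm_CI6_top {H : Subgroup Surf} (hx : ∀ i, sx i ∈ H) (hy : ∀ i, sy i ∈ H) :
    (⊤ : Subgroup Surf) ≤ H := by
  have h := PresentedGroup.closure_range_of ({relator} : Set (FreeGroup Gen))
  rw [← h, Subgroup.closure_le]
  rintro _ ⟨g, rfl⟩
  cases g with
  | x i => exact hx i
  | y i => exact hy i

private theorem pm_CI6_x (i : Fin 3) : sx i ∈ BH i := Subgroup.subset_closure (Or.inl rfl)
private theorem pm_CI6_y (i : Fin 3) : sy i ∈ BH i := Subgroup.subset_closure (Or.inr rfl)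

private theorem pm_CI6_dd (i : Fin 3) : dd i ∈ BH i :=
  mul_mem (mul_mem (mul_mem (pm_CI6_x i) (pm_CI6_y i)) (inv_mem (pm_CI6_x i)))
    (inv_mem (pm_CI6_y i))

private theorem pm_CI6_ddZ (i : Fin 3) : dd i ∈ PZ := by
  rw [← elS_l02 i]
  refine Subgroup.subset_closure ⟨l0 i, ?_, l2 i, ?_, rfl⟩
  · fin_cases i <;> simp [l0, AZ]
  · fin_cases i <;> simp [l2, AZ]

private theorem pm_CI6_tP (i : Fin 3) : (B.psI b).t (QI.dP i) = 1 := rfl
private theorem pm_CI6_tH (i : Fin 3) : (B.psI b).t (QI.dH i) = 1 := rfl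

def at7 : QI → Option (Fin 3)
  | QI.dP _ => none
  | QI.dH i => some i
  | QI.mp i => some i
  | QI.mm i => some i

/-- C7: the closed surface from `P_z`, `B_0`, `B_1`, `B_2` -/
theorem gh7 : GH (B.psI b) at7 (fun v => v.elim PZ BH) (fun v => v.elim SZ (fun i => {QI.dH i}))
    {p | ∃ i, p = QI.dP i ∨ p = QI.dH i} ⊤ := by
  refine ⟨?_, ?_, ?_, fun _ => le_top, fun _ _ => Subgroup.mem_top _, ?_, ?_⟩
  · intro v p hp
    cases v with
    | none => rcases hp with rfl | rfl | rfl <;> rfl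
    | some i =>
      have hp' : p = QI.dH i := hp
      rw [hp']; rfl
  · rintro p ⟨i, rfl | rfl⟩
    · refine ⟨⟨i, Or.inr rfl⟩, ?_⟩
      show QI.dP i ∈ SZ
      fin_cases i <;> simp [SZ]
    · exact ⟨⟨i, Or.inl rfl⟩, rfl⟩
  · rintro p ⟨i, rfl | rfl⟩
    · exact pm_CI6_ddZ i
    · exact inv_mem (pm_CI6_dd i)
  · have hP : ∀ i : Fin 3, QI.dP i ∈ {p | ∃ i, p = QI.dP i ∨ p = QI.dH i} :=
      fun i => ⟨i, Or.inl rfl⟩
    have hH : ∀ i : Fin 3, QI.dH i ∈ {p | ∃ i, p = QI.dP i ∨ p = QI.dH i} :=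
      fun i => ⟨i, Or.inr rfl⟩
    intro v w
    cases v with
    | none =>
      cases w with
      | none => exact ⟨[], 1, IsPath.nil (one_mem _), by simp [PS.pval]⟩
      | some j =>
        exact ⟨[(1, QI.dP j)], 1, IsPath.cons (one_mem _) (hP j) rfl (IsPath.nil (one_mem _)),
          by simp [PS.pval, pm_CI6_tP]⟩
    | some i =>
      cases w with
      | none =>
        exact ⟨[(1, QI.dH i)], 1, IsPath.cons (one_mem _) (hH i) rfl (IsPath.nil (one_mem _)),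
          by simp [PS.pval, pm_CI6_tH]⟩
      | some j =>
        exact ⟨[(1, QI.dH i), (1, QI.dP j)], 1, IsPath.cons (one_mem _) (hH i) rfl
          (IsPath.cons (one_mem _) (hP j) rfl (IsPath.nil (one_mem _))),
          by simp [PS.pval, pm_CI6_tH, pm_CI6_tP]⟩
  · apply pm_CI6_top
    · intro i
      exact Subgroup.subset_closure (Or.inl ⟨some i, pm_CI6_x i⟩)
    · intro i
      exact Subgroup.subset_closure (Or.inl ⟨some i, pm_CI6_y i⟩)

/-- C8: the closed surface from `W`, `B_0`, `B_1` -/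
theorem gh8 : GH (B.psI b) at5 (![BH 0, BH 1, WG] : Fin 3 → Subgroup Surf)
    (![{QI.dH 0}, {QI.dH 1}, {QI.dP 0, QI.dP 1}] : Fin 3 → Set QI)
    {QI.dP 0, QI.dH 0, QI.dP 1, QI.dH 1} ⊤ := by
  have w0 : dd 0 ∈ WG := Subgroup.subset_closure (Or.inl rfl)
  have w1 : dd 1 ∈ WG := Subgroup.subset_closure (Or.inr (Or.inl rfl))
  have w2 : sx 2 ∈ WG := Subgroup.subset_closure (Or.inr (Or.inr (Or.inl rfl)))
  have w3 : sy 2 ∈ WG := Subgroup.subset_closure (Or.inr (Or.inr (Or.inr rfl)))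
  refine ⟨?_, ?_, ?_, fun _ => le_top, fun _ _ => Subgroup.mem_top _, ?_, ?_⟩
  · intro v p hp
    fin_cases v
    · have hp' : p = QI.dH 0 := hp
      rw [hp']; rfl
    · have hp' : p = QI.dH 1 := hp
      rw [hp']; rfl
    · have hp' : p = QI.dP 0 ∨ p = QI.dP 1 := hp
      rcases hp' with rfl | rfl <;> rfl
  · rintro p (rfl | rfl | rfl | rfl)
    · exact ⟨Or.inr (Or.inl rfl), Or.inl rfl⟩
    · exact ⟨Or.inl rfl, rfl⟩
    · exact ⟨Or.inr (Or.inr (Or.inr rfl)), Or.inr rfl⟩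
    · exact ⟨Or.inr (Or.inr (Or.inl rfl)), rfl⟩
  · rintro p (rfl | rfl | rfl | rfl)
    · exact w0
    · exact inv_mem (pm_CI6_dd 0)
    · exact w1
    · exact inv_mem (pm_CI6_dd 1)
  · have a1 : QI.dP 0 ∈ ({QI.dP 0, QI.dH 0, QI.dP 1, QI.dH 1} : Set QI) := Or.inl rfl
    have a2 : QI.dH 0 ∈ ({QI.dP 0, QI.dH 0, QI.dP 1, QI.dH 1} : Set QI) := Or.inr (Or.inl rfl)
    have a3 : QI.dP 1 ∈ ({QI.dP 0, QI.dH 0, QI.dP 1, QI.dH 1} : Set QI) :=
      Or.inr (Or.inr (Or.inl rfl))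
    have a4 : QI.dH 1 ∈ ({QI.dP 0, QI.dH 0, QI.dP 1, QI.dH 1} : Set QI) :=
      Or.inr (Or.inr (Or.inr rfl))
    intro v w
    fin_cases v <;> fin_cases w
    · exact ⟨[], 1, IsPath.nil (one_mem _), by simp [PS.pval]⟩
    · exact ⟨[(1, QI.dH 0), (1, QI.dP 1)], 1, IsPath.cons (one_mem _) a2 rfl
        (IsPath.cons (one_mem _) a3 rfl (IsPath.nil (one_mem _))),
        by simp [PS.pval, pm_CI6_tH, pm_CI6_tP]⟩
    · exact ⟨[(1, QI.dH 0)], 1, IsPath.cons (one_mem _) a2 rfl (IsPath.nil (one_mem _)),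
        by simp [PS.pval, pm_CI6_tH]⟩
    · exact ⟨[(1, QI.dH 1), (1, QI.dP 0)], 1, IsPath.cons (one_mem _) a4 rfl
        (IsPath.cons (one_mem _) a1 rfl (IsPath.nil (one_mem _))),
        by simp [PS.pval, pm_CI6_tH, pm_CI6_tP]⟩
    · exact ⟨[], 1, IsPath.nil (one_mem _), by simp [PS.pval]⟩
    · exact ⟨[(1, QI.dH 1)], 1, IsPath.cons (one_mem _) a4 rfl (IsPath.nil (one_mem _)),
        by simp [PS.pval, pm_CI6_tH]⟩
    · exact ⟨[(1, QI.dP 0)], 1, IsPath.cons (one_mem _) a1 rfl (IsPath.nil (one_mem _)),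
        by simp [PS.pval, pm_CI6_tP]⟩
    · exact ⟨[(1, QI.dP 1)], 1, IsPath.cons (one_mem _) a3 rfl (IsPath.nil (one_mem _)),
        by simp [PS.pval, pm_CI6_tP]⟩
    · exact ⟨[], 1, IsPath.nil (one_mem _), by simp [PS.pval]⟩
  · apply pm_CI6_top
    · intro i
      fin_cases i
      · exact Subgroup.subset_closure (Or.inl ⟨0, pm_CI6_x 0⟩)
      · exact Subgroup.subset_closure (Or.inl ⟨1, pm_CI6_x 1⟩)
      · exact Subgroup.subset_closure (Or.inl ⟨2, w2⟩)
    · intro i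
      fin_cases i
      · exact Subgroup.subset_closure (Or.inl ⟨0, pm_CI6_y 0⟩)
      · exact Subgroup.subset_closure (Or.inl ⟨1, pm_CI6_y 1⟩)
      · exact Subgroup.subset_closure (Or.inl ⟨2, w3⟩)

def at9 : QI → Bool
  | QI.dH _ => true
  | _ => false

/-- C9: the closed surface from `R` and `B_2` -/
theorem gh9 : GH (B.psI b) at9 (fun v => if v then BH 2 else RG)
    (fun v => if v then {QI.dH 2} else {QI.dP 2}) {QI.dP 2, QI.dH 2} ⊤ := by
  have r0 : sx 0 ∈ RG := Subgroup.subset_closure (Or.inl rfl)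
  have r1 : sy 0 ∈ RG := Subgroup.subset_closure (Or.inr (Or.inl rfl))
  have r2 : sx 1 ∈ RG := Subgroup.subset_closure (Or.inr (Or.inr (Or.inl rfl)))
  have r3 : sy 1 ∈ RG := Subgroup.subset_closure (Or.inr (Or.inr (Or.inr rfl)))
  have d0 : dd 0 ∈ RG := mul_mem (mul_mem (mul_mem r0 r1) (inv_mem r0)) (inv_mem r1)
  have d1 : dd 1 ∈ RG := mul_mem (mul_mem (mul_mem r2 r3) (inv_mem r2)) (inv_mem r3)
  have d2 : dd 2 ∈ RG := by
    have h : dd 2 = (dd 0 * dd 1)⁻¹ := by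
      rw [eq_inv_iff_mul_eq_one, ← mul_left_inj (dd 2)⁻¹, one_mul]
      have h1 := surf_rel
      have h2 : dd 0 * dd 1 = (dd 2)⁻¹ := by
        rw [eq_inv_iff_mul_eq_one]; exact h1
      rw [h2]; group
    rw [h]
    exact inv_mem (mul_mem d0 d1)
  refine ⟨?_, ?_, ?_, fun _ => le_top, fun _ _ => Subgroup.mem_top _, ?_, ?_⟩
  · intro v p hp
    cases v
    · have hp' : p = QI.dP 2 := hp
      rw [hp']; rfl
    · have hp' : p = QI.dH 2 := hp
      rw [hp']; rfl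
  · rintro p (rfl | rfl)
    · exact ⟨Or.inr rfl, rfl⟩
    · exact ⟨Or.inl rfl, rfl⟩
  · rintro p (rfl | rfl)
    · exact d2
    · exact inv_mem (pm_CI6_dd 2)
  · have a1 : QI.dP 2 ∈ ({QI.dP 2, QI.dH 2} : Set QI) := Or.inl rfl
    have a2 : QI.dH 2 ∈ ({QI.dP 2, QI.dH 2} : Set QI) := Or.inr rfl
    intro v w
    cases v <;> cases w
    · exact ⟨[], 1, IsPath.nil (one_mem _), by simp [PS.pval]⟩
    · exact ⟨[(1, QI.dP 2)], 1, IsPath.cons (one_mem _) a1 rfl (IsPath.nil (one_mem _)),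
        by simp [PS.pval, pm_CI6_tP]⟩
    · exact ⟨[(1, QI.dH 2)], 1, IsPath.cons (one_mem _) a2 rfl (IsPath.nil (one_mem _)),
        by simp [PS.pval, pm_CI6_tH]⟩
    · exact ⟨[], 1, IsPath.nil (one_mem _), by simp [PS.pval]⟩
  · apply pm_CI6_top
    · intro i
      fin_cases i
      · exact Subgroup.subset_closure (Or.inl ⟨false, r0⟩)
      · exact Subgroup.subset_closure (Or.inl ⟨false, r2⟩)
      · exact Subgroup.subset_closure (Or.inl ⟨true, pm_CI6_x 2⟩)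
    · intro i
      fin_cases i
      · exact Subgroup.subset_closure (Or.inl ⟨false, r1⟩)
      · exact Subgroup.subset_closure (Or.inl ⟨false, r3⟩)
      · exact Subgroup.subset_closure (Or.inl ⟨true, pm_CI6_y 2⟩)

end

section
variable {B : Base} {b : Fin 3 → Bool} {K κ : ℝ} {Φ : Finset (ZI → GL (Fin 3) ℝ)}

/-! ### vertex conditions and class representations of the composed groups -/

theorem PkI.vB (P : PkI B b K κ Φ) (i : Fin 3) :
    VC (B.psI b) K κ (LB i) (BH i) {QI.dH i} ∧ CR (B.psI b) K κ (LB i) (BH i) (Φ : Set _) := by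
  have hV : ∀ _ : Unit, VC (B.psI b) K κ (LB i) (PH (b i) i) (SH i) := fun _ => (P.vh i).vc (LB i)
  refine ⟨VC_glue (ghB B b i) (Set.Subset.refl _) hV _ ?_,
    CR_glue (ghB B b i) (Set.Subset.refl _) hV ?_ ?_⟩
  · rintro p hp
    rw [Set.mem_singleton_iff] at hp
    subst hp
    exact ⟨by simp [SH], by simp [LB]⟩
  · exact fun _ => (P.ch i).mono le_rfl le_rfl (Set.empty_subset _) (Set.Subset.refl _)
  · exact fun e _ => P.fj e

theorem PkI.vW (P : PkI B b K κ Φ) :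
    VC (B.psI b) K κ LW WG {QI.dP 0, QI.dP 1} ∧ CR (B.psI b) K κ LW WG (Φ : Set _) := by
  have hΛ : ({QI.dP 2, QI.dH 2} : Set QI) ⊆ LW := by
    intro p hp
    simp only [Set.mem_insert_iff, Set.mem_singleton_iff] at hp
    rcases hp with rfl | rfl <;> simp [LW]
  have hL2 : LB 2 ⊆ LW := by
    intro p hp
    simp only [LB, Set.mem_insert_iff, Set.mem_singleton_iff] at hp
    rcases hp with rfl | rfl <;> simp [LW]
  have hV : ∀ v : Bool, VC (B.psI b) K κ LW (if v then BH 2 else PZ)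
      (if v then {QI.dH 2} else SZ) := by
    intro v
    cases v
    · exact P.vz.vc LW
    · exact (P.vB 2).1.mono le_rfl le_rfl hL2 (Set.Subset.refl _)
  have hC : ∀ v : Bool, CR (B.psI b) K κ LW (if v then BH 2 else PZ) (Φ : Set _) := by
    intro v
    cases v
    · exact P.cz.mono le_rfl le_rfl (Set.empty_subset _) (Set.Subset.refl _)
    · exact (P.vB 2).2.mono le_rfl le_rfl hL2 (Set.Subset.refl _)
  refine ⟨VC_glue (ghW B b) hΛ hV _ ?_, CR_glue (ghW B b) hΛ hV hC (fun e _ => P.fj e)⟩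
  intro p hp
  simp only [Set.mem_insert_iff, Set.mem_singleton_iff] at hp
  rcases hp with rfl | rfl <;> simp [atW, SZ]

theorem PkI.v5 (P : PkI B b K κ Φ) (h0 : b 0 = false) (h1 : b 1 = false) :
    VC (B.psI b) K κ {QI.dP 0, QI.dH 0, QI.dP 1, QI.dH 1} V5 S5 ∧
      CR (B.psI b) K κ {QI.dP 0, QI.dH 0, QI.dP 1, QI.dH 1} V5 (Φ : Set _) := by
  have e0 : VCs (B.psI b) K κ (PH false 0) (SH 0) := by have := P.vh 0; rwa [h0] at this
  have e1 : VCs (B.psI b) K κ (PH false 1) (SH 1) := by have := P.vh 1; rwa [h1] at this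
  have c0 : CR (B.psI b) K κ ∅ (PH false 0) Φ := by have := P.ch 0; rwa [h0] at this
  have c1 : CR (B.psI b) K κ ∅ (PH false 1) Φ := by have := P.ch 1; rwa [h1] at this
  have hV : ∀ v : Fin 3, VC (B.psI b) K κ {QI.dP 0, QI.dH 0, QI.dP 1, QI.dH 1}
      ((![PH false 0, PH false 1, PZ] : Fin 3 → Subgroup Surf) v)
      ((![SH 0, SH 1, SZ] : Fin 3 → Set QI) v) := by
    intro v
    fin_cases v
    · exact e0.vc _
    · exact e1.vc _
    · exact P.vz.vc _
  have hC : ∀ v : Fin 3, CR (B.psI b) K κ {QI.dP 0, QI.dH 0, QI.dP 1, QI.dH 1}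
      ((![PH false 0, PH false 1, PZ] : Fin 3 → Subgroup Surf) v) (Φ : Set _) := by
    intro v
    fin_cases v
    · exact c0.mono le_rfl le_rfl (Set.empty_subset _) (Set.Subset.refl _)
    · exact c1.mono le_rfl le_rfl (Set.empty_subset _) (Set.Subset.refl _)
    · exact P.cz.mono le_rfl le_rfl (Set.empty_subset _) (Set.Subset.refl _)
  refine ⟨VC_glue (gh5 B b h0 h1) (Set.Subset.refl _) hV _ ?_,
    CR_glue (gh5 B b h0 h1) (Set.Subset.refl _) hV hC (fun e _ => P.fj e)⟩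
  intro p hp
  simp only [S5, Set.mem_insert_iff, Set.mem_singleton_iff] at hp
  rcases hp with rfl | rfl | rfl | rfl | rfl <;> simp [at5, SZ, SH]

theorem PkI.vR (P : PkI B b K κ Φ) (h0 : b 0 = false) (h1 : b 1 = false) :
    VC (B.psI b) K κ LR RG {QI.dP 2} ∧ CR (B.psI b) K κ LR RG (Φ : Set _) := by
  have hΛ : ({QI.mp 0, QI.mm 0, QI.mp 1, QI.mm 1} : Set QI) ⊆ LR := by
    intro p hp
    simp only [Set.mem_insert_iff, Set.mem_singleton_iff] at hp
    rcases hp with rfl | rfl | rfl | rfl <;> simp [LR]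
  have hL5 : ({QI.dP 0, QI.dH 0, QI.dP 1, QI.dH 1} : Set QI) ⊆ LR := by
    intro p hp
    simp only [Set.mem_insert_iff, Set.mem_singleton_iff] at hp
    rcases hp with rfl | rfl | rfl | rfl <;> simp [LR]
  have hV : ∀ _ : Unit, VC (B.psI b) K κ LR V5 S5 := fun _ =>
    (P.v5 h0 h1).1.mono le_rfl le_rfl hL5 (Set.Subset.refl _)
  have hC : ∀ _ : Unit, CR (B.psI b) K κ LR V5 (Φ : Set _) := fun _ =>
    (P.v5 h0 h1).2.mono le_rfl le_rfl hL5 (Set.Subset.refl _)
  refine ⟨VC_glue (ghR B b h0 h1) hΛ hV _ ?_, CR_glue (ghR B b h0 h1) hΛ hV hC (fun e _ => P.fj e)⟩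
  intro p hp
  rw [Set.mem_singleton_iff] at hp
  subst hp
  exact ⟨by simp [S5], by simp⟩

theorem PkI.top (P : PkI B b K κ Φ) : CR (B.psI b) K κ Set.univ ⊤ (Φ : Set _) := by
  have hV : ∀ v : Option (Fin 3), VC (B.psI b) K κ Set.univ (v.elim PZ BH)
      (v.elim SZ (fun i => {QI.dH i})) := by
    intro v
    cases v with
    | none => exact P.vz.vc _
    | some i => exact (P.vB i).1.mono le_rfl le_rfl (Set.subset_univ _) (Set.Subset.refl _)
  have hC : ∀ v : Option (Fin 3), CR (B.psI b) K κ Set.univ (v.elim PZ BH) (Φ : Set _) := by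
    intro v
    cases v with
    | none => exact P.cz.mono le_rfl le_rfl (Set.empty_subset _) (Set.Subset.refl _)
    | some i => exact (P.vB i).2.mono le_rfl le_rfl (Set.subset_univ _) (Set.Subset.refl _)
  exact CR_glue (gh7 B b) (Set.subset_univ _) hV hC (fun e _ => P.fj e)

private theorem pm_CI8_finite : Finite QI := by
  let f : QI → Fin 4 × Fin 3 := fun p =>
    match p with
    | QI.dP i => (0, i)
    | QI.dH i => (1, i)
    | QI.mp i => (2, i)
    | QI.mm i => (3, i)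
  refine Finite.of_injective f ?_
  intro p q h
  cases p <;> cases q <;> simp_all [f]

private theorem pm_CI8_Cd (L : ℝ) (k : ℤ) :
    PosD ![Real.exp (-(k * L)), 1, Real.exp (k * L)] := by
  refine ⟨fun i => ?_, ?_⟩
  · fin_cases i <;> simp [Real.exp_pos]
  · simp [← Real.exp_add]

private theorem pm_CI8_ratio {d d' e : Fin 3 → ℝ} (_hd : ∀ i, 0 < d i) (he : ∀ i, 0 < e i)
    {C : ℝ} (hC0 : 0 ≤ C) (hC : ∀ i, d' i ≤ C * d i) :
    mxd (fun i => d' i * e i) ≤ C * mxd (fun i => d i * e i) := by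
  have h : ∀ i, d' i * e i ≤ C * mxd (fun i => d i * e i) := by
    intro i
    calc d' i * e i ≤ C * d i * e i := mul_le_mul_of_nonneg_right (hC i) (he i).le
      _ = C * (d i * e i) := by ring
      _ ≤ _ := mul_le_mul_of_nonneg_left (le_mxd (fun i => d i * e i) i) hC0
  exact max_le (h 0) (max_le (h 1) (h 2))

/-- the constant of the comparison of the crossing diagonals -/
private theorem pm_CI8_const {Γ Z Q : Type} [Group Γ] [Finite Q] (ps : PS Γ Z Q) (z z' : Z) :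
    ∃ c₁ ≥ (0 : ℝ), ∀ (e : Q) (k : ℤ),
      Real.log (mxd (ps.Dl e k z')) ≤ c₁ * (1 + Real.log (mxd (ps.Dl e k z))) := by
  obtain ⟨C, hC⟩ := (Set.finite_range (fun x : Q × Fin 3 => ps.D0 x.1 z' x.2 / ps.D0 x.1 z x.2)).bddAbove
  have hC' : ∀ (e : Q) (i : Fin 3), ps.D0 e z' i ≤ max C 1 * ps.D0 e z i := by
    intro e i
    have h1 : ps.D0 e z' i / ps.D0 e z i ≤ C := hC ⟨(e, i), rfl⟩
    have h2 : 0 < ps.D0 e z i := (ps.D0_pos e z).1 i
    exact ((div_le_iff₀ h2).mp h1).trans (mul_le_mul_of_nonneg_right (le_max_left _ _) h2.le)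
  have hM1 : (1 : ℝ) ≤ max C 1 := le_max_right _ _
  have hl : 0 ≤ Real.log (max C 1) := Real.log_nonneg hM1
  refine ⟨1 + Real.log (max C 1), by positivity, fun e k => ?_⟩
  have h1 : mxd (ps.Dl e k z') ≤ max C 1 * mxd (ps.Dl e k z) :=
    pm_CI8_ratio (d := ps.D0 e z) (d' := ps.D0 e z')
      (e := (![Real.exp (-(k * ps.L e)), 1, Real.exp (k * ps.L e)] : Fin 3 → ℝ))
      (ps.D0_pos e z).1 (pm_CI8_Cd (ps.L e) k).1 (by positivity) (hC' e)
  have h2 : 1 ≤ mxd (ps.Dl e k z) := one_le_mxd (Dl_pos ps e k z)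
  have h3 : 1 ≤ mxd (ps.Dl e k z') := one_le_mxd (Dl_pos ps e k z')
  have h4 : Real.log (mxd (ps.Dl e k z')) ≤ Real.log (max C 1) + Real.log (mxd (ps.Dl e k z)) := by
    rw [← Real.log_mul (by positivity) (by positivity)]
    exact Real.log_le_log (by positivity) h1
  have h5 : 0 ≤ Real.log (mxd (ps.Dl e k z)) := Real.log_nonneg h2
  nlinarith

/-- quasi-isometry from the normal form -/
private theorem pm_CI8_qi {Γ Z Q : Type} [Group Γ] [Finite Q] (ps : PS Γ Z Q) {K κ : ℝ} (hκ : 0 < κ)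
    (z z' : Z) : ∃ c > (0 : ℝ), ∀ N : Z → ℝ,
    ((∃ (L : ℝ) (k : ℤ), ∀ z, N z = nrm (Cd L k)) ∨
    (∃ e ∈ (Set.univ : Set Q), ∃ k : ℤ, ∀ z, N z = nrm (diagonal (ps.Dl e k z))) ∨
    ∃ (D D' : Z → M3) (w : Word Q), OutD ps Set.univ D ∧ OutD ps Set.univ D' ∧ w.Ok K κ Set.univ ∧
      ∀ z, N z = nrm (D z * ps.eval w z * D' z)) → 1 ≤ N z →
    Real.log (N z') ≤ c * (1 + Real.log (N z)) := by
  obtain ⟨c₁, hc₁, hcmp⟩ := pm_CI8_const ps z z'
  obtain ⟨c, hc, hqi⟩ := N_qi (K := K) hκ hc₁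
  have hl3 : 0 < Real.log 3 := Real.log_pos (by norm_num)
  refine ⟨c + (1 + c₁ + Real.log 3), by positivity, fun N hN hN1 => ?_⟩
  have hN0 : 0 ≤ Real.log (N z) := Real.log_nonneg hN1
  rcases hN with ⟨L, k, h⟩ | ⟨e, -, k, h⟩ | ⟨D, D', w, hD, hD', hw, h⟩
  · rw [h z'] at *
    rw [← h z]
    nlinarith [mul_nonneg (add_nonneg (add_nonneg hc.le hc₁) hl3.le) hN0]
  · have h1 := log_nrm_diag (Dl_pos ps e k z)
    have h2 := log_nrm_diag (Dl_pos ps e k z')
    have h3 := hcmp e k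
    rw [← h z] at h1
    rw [← h z'] at h2
    have h6 : c₁ * (1 + Real.log (mxd (ps.Dl e k z))) ≤ c₁ * (1 + Real.log (N z)) :=
      mul_le_mul_of_nonneg_left (by linarith [h1.1]) hc₁
    nlinarith [mul_nonneg hc.le hN0, mul_nonneg hl3.le hN0]
  · have h1 := hqi ps Set.univ z' z (fun e _ k => hcmp e k) D D' w hD hD' hw
    rw [← h z, ← h z'] at h1
    nlinarith [mul_nonneg hc₁ hN0, mul_nonneg hl3.le hN0]

/-- quasi-isometry for the closed group: at `d`-ports, all parameters -/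
theorem PkI.size_top (P : PkI B b K κ Φ) (z z' : ZI) (i : Fin 3) : ∃ c > (0 : ℝ), ∀ g : Surf,
    Real.log ((B.psI b).N (QI.dP i) z' g) ≤ c * (1 + Real.log ((B.psI b).N (QI.dP i) z g)) ∧
    Real.log ((B.psI b).N (QI.dH i) z' g) ≤ c * (1 + Real.log ((B.psI b).N (QI.dH i) z g)) := by
  have := pm_CI8_finite
  obtain ⟨c, hc, hqi⟩ := pm_CI8_qi (B.psI b) (K := K) P.hκ z z'
  have hdet : ∀ g : Surf, ((B.psI b).r z g : M3).det = 1 := fun g => (B.repI b z g).2
  have hV : ∀ v : Option (Fin 3), VC (B.psI b) K κ Set.univ (v.elim PZ BH)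
      (v.elim SZ (fun i => ({QI.dH i} : Set QI))) := by
    intro v
    cases v with
    | none => exact P.vz.vc _
    | some j => exact (P.vB j).1.mono le_rfl le_rfl (Set.subset_univ _) subset_rfl
  refine ⟨c, hc, fun g => ⟨?_, ?_⟩⟩
  · exact hqi (fun z => (B.psI b).N (QI.dP i) z g)
      (N_form_int (gh7 B b) (Set.subset_univ _) hV ⟨i, Or.inl rfl⟩ (Subgroup.mem_top g))
      ((N_basic (B.psI b) (QI.dP i) z hdet).1 g)
  · exact hqi (fun z => (B.psI b).N (QI.dH i) z g)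
      (N_form_int (gh7 B b) (Set.subset_univ _) hV ⟨i, Or.inr rfl⟩ (Subgroup.mem_top g))
      ((N_basic (B.psI b) (QI.dH i) z hdet).1 g)

/-! ### sums -/

/-- numeric part of the bounds -/
theorem pm_CI9_num {K s s₁ A δ n a : ℝ} (hK : 1 ≤ K) (hs : s ≤ s₁) (hA : 0 ≤ A)
    (hsm : n * A * δ ≤ 1 / 2) :
    a * a * K ^ (2 * s) * (A + 2 * n * A ^ 2 * δ) ≤ a * a * K ^ (2 * s₁) * (2 * A) := by
  have h1 : K ^ (2 * s) ≤ K ^ (2 * s₁) := Real.rpow_le_rpow_of_exponent_le hK (by linarith)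
  have h2 : A + 2 * n * A ^ 2 * δ ≤ 2 * A := by nlinarith
  have h3 : 0 ≤ a * a := mul_self_nonneg a
  have h4 : 0 < K ^ (2 * s) := Real.rpow_pos_of_pos (by linarith) _
  calc a * a * K ^ (2 * s) * (A + 2 * n * A ^ 2 * δ)
      ≤ a * a * K ^ (2 * s) * (2 * A) := mul_le_mul_of_nonneg_left h2 (by positivity)
    _ ≤ a * a * K ^ (2 * s₁) * (2 * A) :=
        mul_le_mul_of_nonneg_right (mul_le_mul_of_nonneg_left h1 h3) (by linarith)

/-- choice of the bulge -/
theorem pm_CI9_tau {A C n : ℝ} (hA : 0 < A) (hC : 0 < C) (hn : 0 < n) :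
    ∃ τ₀ > (0 : ℝ), n * A * (C * Real.exp (-τ₀ / 16)) ≤ 1 / 2 := by
  refine ⟨16 * (2 * n * A * C), by positivity, ?_⟩
  have h1 : -(16 * (2 * n * A * C)) / 16 = -(2 * n * A * C) := by ring
  rw [h1]
  have h2 : 0 < 2 * n * A * C := by positivity
  have h3 := Real.add_one_le_exp (2 * n * A * C)
  have h4 : Real.exp (-(2 * n * A * C)) * Real.exp (2 * n * A * C) = 1 := by
    rw [← Real.exp_add]
    simp
  have h5 : 0 < Real.exp (-(2 * n * A * C)) := Real.exp_pos _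
  nlinarith

theorem pm_CI9_cross {C a τ₀ s : ℝ} (hC : 0 < C) (h0 : 0 < τ₀) (ha : τ₀ ≤ a) (hs : 1 / 8 ≤ s) :
    C * Real.exp (-(s / 2) * a) ≤ C * Real.exp (-τ₀ / 16) := by
  apply mul_le_mul_of_nonneg_left _ hC.le
  apply Real.exp_le_exp.2
  nlinarith

theorem pm_CI9_cd (B : Base) (b : Fin 3 → Bool) (i : Fin 3) :
    (B.psI b).c (QI.dH i) ∈ PH (b i) i := by
  have hc : (B.psI b).c (QI.dH i) = (dd i)⁻¹ := rfl
  rw [hc]
  have h0 : l0 i ∈ AH i := by simp [AH]
  have h2 : l2 i ∈ AH i := by simp [AH]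
  cases hb : b i
  · apply Subgroup.inv_mem
    have h := elS_l02 i
    rw [← h]
    exact Subgroup.subset_closure ⟨l0 i, h0, l2 i, h2, by simp [elH]⟩
  · have h := elM_l02 i
    rw [← h]
    exact Subgroup.subset_closure ⟨l0 i, h0, l2 i, h2, by simp [elH]⟩

/-- weak handle: if the loop is bulged enough the sum over the handle group is bounded for `s ≥ 1/8` -/
theorem PkI.weakB (P : PkI B b K κ Φ) (s₁ : ℝ) : ∃ τ₀ > (0 : ℝ), ∃ A₁ > (0 : ℝ), ∀ (z : ZI) (i : Fin 3),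
    τ₀ ≤ z.a i → ∀ s : ℝ, 1 / 8 ≤ s → s ≤ s₁ → ∀ Λ, LB i ⊆ Λ →
      Zs (B.psI b) K κ Λ (BH i) z s (QI.dH i) (QI.dH i) ≤ ENNReal.ofReal A₁ := by
  obtain ⟨A₀, hA₀, hzh⟩ := P.zh s₁
  obtain ⟨C, hC, hcr⟩ := crossI B b
  obtain ⟨τ₀, hτ₀, hτ⟩ := pm_CI9_tau hA₀ hC (by norm_num : (0 : ℝ) < 2)
  have hK := P.hK
  have hK0 : (0 : ℝ) < K := by linarith
  refine ⟨τ₀, hτ₀, amb K B.Ld * amb K B.Ld * K ^ (2 * s₁) * (2 * A₀) + 1, ?_, ?_⟩
  · have h1 : 0 < K ^ (2 * s₁) := Real.rpow_pos_of_pos hK0 _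
    have h2 : 0 ≤ amb K B.Ld * amb K B.Ld := mul_self_nonneg _
    positivity
  · intro z i ha s hs hs' Λ hΛ
    have hs0 : 0 ≤ s := by linarith
    have hLB : (LB i).ncard ≤ 2 := by
      unfold LB
      have h := Set.ncard_insert_le (QI.mp i) {QI.mm i}
      rw [Set.ncard_singleton] at h
      exact h
    have hLBR : ((LB i).ncard : ℝ) ≤ 2 := by exact_mod_cast hLB
    set δ : ℝ := C * Real.exp (-τ₀ / 16) with hδdef
    have hδ : 0 < δ := by positivity
    have hsm : ((LB i).ncard : ℝ) * A₀ * δ ≤ 1 / 2 := by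
      refine le_trans ?_ hτ
      apply mul_le_mul_of_nonneg_right _ hδ.le
      exact mul_le_mul_of_nonneg_right hLBR hA₀.le
    have key := Z_glue (ghB B b i) P.hκ.le (Λ := Λ) hΛ (fun _ => (P.vh i).vc Λ) {QI.dH i}
      (by
        intro p hp
        rw [Set.mem_singleton_iff] at hp
        subst hp
        constructor
        · simp [SH]
        · simp [LB])
      (by
        intro p hp
        rw [Set.mem_singleton_iff] at hp
        subst hp
        exact pm_CI9_cd B b i)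
      (by unfold LB; exact Set.toFinite _) (fun _ => 0) (fun _ _ => rfl) (A := A₀) (Ai := A₀) (δ := δ) hs0 hA₀.le hA₀.le
      hδ.le z
      (by
        intro _ p hp q hq
        have h := hzh Λ z s hs hs' i p hp q hq
        simpa using h)
      (by
        intro e he e' he' _
        have he1 : (B.psI b).bar e ∈ SH i := by
          rcases he with rfl | he
          · exact Or.inr (Or.inr rfl)
          · rw [Set.mem_singleton_iff] at he
            subst he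
            exact Or.inr (Or.inl rfl)
        have he2 : e' ∈ SH i := by
          rcases he' with rfl | he'
          · exact Or.inr (Or.inl rfl)
          · rw [Set.mem_singleton_iff] at he'
            subst he'
            exact Or.inr (Or.inr rfl)
        have h := hzh Λ z s hs hs' i _ he1 _ he2
        simpa using h)
      (by
        intro e he
        have hb : blI e z = z.a i := by
          rcases he with rfl | he
          · rfl
          · rw [Set.mem_singleton_iff] at he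
            subst he
            rfl
        have h1 := hcr e z s (by rw [hb]; linarith) hs
        rw [hb] at h1
        exact h1.trans (ENNReal.ofReal_le_ofReal (pm_CI9_cross hC hτ₀ ha hs)))
      hsm (p := QI.dH i) (q := QI.dH i) rfl rfl
    refine key.trans (ENNReal.ofReal_le_ofReal ?_)
    have hnum := pm_CI9_num (a := amb K B.Ld) hK hs' hA₀.le hsm
    have hL : (B.psI b).L (QI.dH i) = B.Ld := rfl
    rw [hL, sub_zero, mul_zero, Real.exp_zero, mul_one]
    linarith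

private theorem pm_CI10_concat {Γ Z Q V : Type} [Group Γ] {ps : PS Γ Z Q} {at_ : Q → V}
    {G : V → Subgroup Γ} {I : Set Q} {v w u : V} {l l' : List (Γ × Q)} {gl gl' : Γ}
    (h : IsPath ps at_ G I v l gl w) (h' : IsPath ps at_ G I w l' gl' u) :
    ∃ l'' gl'', IsPath ps at_ G I v l'' gl'' u ∧
      ps.pval l'' * gl'' = (ps.pval l * gl) * (ps.pval l' * gl') ∧
      l''.length = l.length + l'.length := by
  induction h with
  | @nil v g hg =>
    cases h' with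
    | nil hg' =>
      exact ⟨[], _, IsPath.nil (mul_mem hg hg'), by simp [PS.pval], rfl⟩
    | @cons _ _ g1 gl1 e l1 hg1 he hat hrest =>
      refine ⟨(g * g1, e) :: l1, _, IsPath.cons (mul_mem hg hg1) he hat hrest, ?_, by simp⟩
      simp [PS.pval, mul_assoc]
  | @cons v w g gl e l hg he hat _ ih =>
    obtain ⟨l'', gl'', h1, h2, h3⟩ := ih h'
    refine ⟨(g, e) :: l'', gl'', IsPath.cons hg he hat h1, ?_, ?_⟩
    · have e1 : ∀ l0 : List (Γ × Q), ps.pval ((g, e) :: l0) = g * ps.t e * ps.pval l0 := by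
        intro l0; simp [PS.pval]
      rw [e1, e1, mul_assoc, h2]
      simp only [mul_assoc]
    · rw [List.length_cons, List.length_cons, h3]; ring

private theorem pm_CI10_el {el : Fin 6 → Fin 6 → Surf} {A : Finset (Fin 6)} {x y : Fin 6}
    (hx : x ∈ A) (hy : y ∈ A) : el x y ∈ elG el A :=
  Subgroup.subset_closure ⟨x, hx, y, hy, rfl⟩

private theorem pm_CI10_PH (i : Fin 3) {x y : Fin 6} (hx : x ∈ AH i) (hy : y ∈ AH i) :
    elS x y ∈ PH false i := by
  have h : PH false i = elG elS (AH i) := by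
    unfold PH
    congr 1
  rw [h]
  exact pm_CI10_el hx hy

private abbrev pm_CI10_G : Fin 3 → Subgroup Surf := ![PH false 0, PH false 1, PZ]
private abbrev pm_CI10_I : Set QI := {QI.dP 0, QI.dH 0, QI.dP 1, QI.dH 1}

private theorem pm_CI10_path (B : Base) (b : Fin 3 → Bool) (x : Fin 6) (hx : x ∈ A5) :
    (∃ l gl, IsPath (B.psI b) at5 pm_CI10_G pm_CI10_I 2 l gl 2 ∧
      (B.psI b).pval l * gl = elS 0 x ∧ l.length ≤ 2) ∧
    (∃ l gl, IsPath (B.psI b) at5 pm_CI10_G pm_CI10_I 2 l gl 2 ∧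
      (B.psI b).pval l * gl = elS x 0 ∧ l.length ≤ 2) := by
  have a1 : QI.dP 0 ∈ pm_CI10_I := Or.inl rfl
  have a2 : QI.dH 0 ∈ pm_CI10_I := Or.inr (Or.inl rfl)
  have a3 : QI.dP 1 ∈ pm_CI10_I := Or.inr (Or.inr (Or.inl rfl))
  have a4 : QI.dH 1 ∈ pm_CI10_I := Or.inr (Or.inr (Or.inr rfl))
  have tP : ∀ i, (B.psI b).t (QI.dP i) = 1 := fun _ => rfl
  have tH : ∀ i, (B.psI b).t (QI.dH i) = 1 := fun _ => rfl
  have z0 : (0 : Fin 6) ∈ AZ := by decide
  have z2 : (2 : Fin 6) ∈ AZ := by decide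
  have hx' : x ∈ AZ ∨ x = 1 ∨ x = 3 := by
    revert hx; revert x; decide
  rcases hx' with hx' | rfl | rfl
  · exact ⟨⟨[], elS 0 x, IsPath.nil (pm_CI10_el z0 hx'), by simp [PS.pval], by simp⟩,
      ⟨[], elS x 0, IsPath.nil (pm_CI10_el hx' z0), by simp [PS.pval], by simp⟩⟩
  · have h01 : elS 0 1 ∈ PH false 0 := pm_CI10_PH 0 (by decide) (by decide)
    have h10 : elS 1 0 ∈ PH false 0 := pm_CI10_PH 0 (by decide) (by decide)
    refine ⟨⟨[(1, QI.dP 0), (elS 0 1, QI.dH 0)], 1, IsPath.cons (one_mem _) a1 rfl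
      (IsPath.cons h01 a2 rfl (IsPath.nil (one_mem _))), ?_, by simp⟩,
      ⟨[(1, QI.dP 0), (elS 1 0, QI.dH 0)], 1, IsPath.cons (one_mem _) a1 rfl
      (IsPath.cons h10 a2 rfl (IsPath.nil (one_mem _))), ?_, by simp⟩⟩
    · simp [PS.pval, tP, tH]
    · simp [PS.pval, tP, tH]
  · have h23 : elS 2 3 ∈ PH false 1 := pm_CI10_PH 1 (by decide) (by decide)
    have h32 : elS 3 2 ∈ PH false 1 := pm_CI10_PH 1 (by decide) (by decide)
    refine ⟨⟨[(elS 0 2, QI.dP 1), (elS 2 3, QI.dH 1)], 1,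
      IsPath.cons (pm_CI10_el z0 z2) a3 rfl (IsPath.cons h23 a4 rfl (IsPath.nil (one_mem _))),
      ?_, by simp⟩,
      ⟨[(1, QI.dP 1), (elS 3 2, QI.dH 1)], elS 2 0, IsPath.cons (one_mem _) a3 rfl
      (IsPath.cons h32 a4 rfl (IsPath.nil (pm_CI10_el z2 z0))), ?_, by simp⟩⟩
    · simp [PS.pval, tP, tH, elS_mul]
    · simp [PS.pval, tP, tH, elS_mul]

private theorem pm_CI10_gI (B : Base) (b : Fin 3 → Bool) (z : ZI) (i : Fin 3)
    (hz : z.t i = 0) (hb : b i = false) : B.gI b z i = 1 := by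
  unfold Base.gI Base.Zb cj
  have h1 : diagonal (dgv (z.t i) 0) = (1 : M3) := by
    rw [hz, ← Matrix.diagonal_one]
    congr 1
    funext j
    fin_cases j <;> simp [dgv]
  have h2 : IsUnit (symMat (B.fd i)).det := by
    rw [symMat_det, B.fd_det]; simp
  rw [h1, mul_one, Matrix.mul_nonsing_inv _ h2, hb]
  simp

private def pm_CI10_xp (z : ZI) (p : QI) : ℝ :=
  match p with
  | QI.dP i => z.t i
  | QI.dH i => -z.t i
  | QI.mp _ => 0
  | QI.mm _ => 0

private def pm_CI10_z0 : ZI := ⟨fun _ => 0, fun _ => 0, fun _ => 0⟩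

private theorem pm_CI10_c (B : Base) (b : Fin 3 → Bool) (h0 : b 0 = false) (h1 : b 1 = false) :
    ∀ p ∈ S5, (B.psI b).c p = elS (aI p) (bI p) := by
  rintro p (rfl | rfl | rfl | rfl | rfl)
  · exact (elS_l02 2).symm
  · show (if b 0 then (sy 0)⁻¹ else sx 0) = elS (l0 0) (l1 0)
    rw [h0, elS_l01]; simp
  · show (if b 0 then sx 0 * sy 0 * (sx 0)⁻¹ else sy 0 * (sx 0)⁻¹ * (sy 0)⁻¹) = elS (l1 0) (l2 0)
    rw [h0, elS_l12]; simp
  · show (if b 1 then (sy 1)⁻¹ else sx 1) = elS (l0 1) (l1 1)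
    rw [h1, elS_l01]; simp
  · show (if b 1 then sx 1 * sy 1 * (sx 1)⁻¹ else sy 1 * (sx 1)⁻¹ * (sy 1)⁻¹) = elS (l1 1) (l2 1)
    rw [h1, elS_l12]; simp

private theorem pm_CI10_PV (B : Base) (b : Fin 3 → Bool) (h0 : b 0 = false) (h1 : b 1 = false) :
    PolyV (B.psI b) V5 S5 {pm_CI10_z0} A5 B.R B.fI aI bI elS (fun _ => 1) where
  el_mem := fun x hx y hy => pm_CI10_el hx hy
  el_self := fun x _ => elS_self x
  el_mul := fun x _ y _ w _ => elS_mul x y w
  gen := le_rfl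
  hc := pm_CI10_c B b h0 h1
  hr := by
    rintro z rfl x hx y hy
    have h := B.repI_zero b pm_CI10_z0 (fun _ => rfl) hx hy ⟨h0, h1⟩
    show (B.repI b pm_CI10_z0 (elS x y) : M3) * ((1 : GL (Fin 3) ℝ) : M3) =
      ((1 : GL (Fin 3) ℝ) : M3) * symMat (B.R x * B.R y)
    rw [h]
    simp
  hF := by
    rintro z rfl p hp
    show (glOf (B.FI b p pm_CI10_z0) : M3) = ((1 : GL (Fin 3) ℝ) : M3) * symMat (B.fI p)
    rw [glOf_coe (B.FI_det b p _)]
    have g0 := pm_CI10_gI B b pm_CI10_z0 0 rfl h0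
    have g1 := pm_CI10_gI B b pm_CI10_z0 1 rfl h1
    rcases hp with rfl | rfl | rfl | rfl | rfl
    · simp [Base.FI, BaseData.fI]
    · simp [Base.FI, BaseData.fI, g0, h0]
    · simp [Base.FI, BaseData.fI, g0, h0]
    · simp [Base.FI, BaseData.fI, g1, h1]
    · simp [Base.FI, BaseData.fI, g1, h1]

/-- `V_5` with arbitrary bulges along `d_0`, `d_1` -/
theorem PkI.z5 (P : PkI B b K κ Φ) (h0 : b 0 = false) (h1 : b 1 = false) (s₁ : ℝ) :
    ∃ A₀ > (0 : ℝ), ∀ (Λ : Set QI) (z : ZI) (s : ℝ), 1 / 8 ≤ s → s ≤ s₁ →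
    ∀ p ∈ S5, ∀ q ∈ S5, Zs (B.psI b) K κ Λ V5 z s p q ≤
      ENNReal.ofReal (A₀ * Real.exp (s * ((![z.t 0, z.t 1, 0] : Fin 3 → ℝ) (at5 p) -
        (![z.t 0, z.t 1, 0] : Fin 3 → ℝ) (at5 q)))) := by
  have hlen : ∀ x ∈ A5, ∀ y ∈ A5, ∃ l gl, IsPath (B.psI b) at5 pm_CI10_G pm_CI10_I 2 l gl 2 ∧
      (B.psI b).pval l * gl = elS x y ∧ l.length ≤ 4 := by
    intro x hx y hy
    obtain ⟨l1, g1, a1, a2, a3⟩ := (pm_CI10_path B b x hx).2
    obtain ⟨l2, g2, c1, c2, c3⟩ := (pm_CI10_path B b y hy).1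
    obtain ⟨l, g, d1, d2, d3⟩ := pm_CI10_concat a1 c1
    exact ⟨l, g, d1, by rw [d2, a2, c2, elS_mul], by omega⟩
  have hV : ∀ v, VCs (B.psI b) K κ (pm_CI10_G v) ((![SH 0, SH 1, SZ] : Fin 3 → Set QI) v) := by
    intro v
    fin_cases v
    · have h := P.vh 0
      rw [h0] at h
      exact h
    · have h := P.vh 1
      rw [h1] at h
      exact h
    · exact P.vz
  have hSn : ∀ p ∈ S5, p ∈ (![SH 0, SH 1, SZ] : Fin 3 → Set QI) (at5 p) ∧
      p ∉ pm_CI10_I := by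
    rintro p (rfl | rfl | rfl | rfl | rfl)
    · exact ⟨Or.inr (Or.inr rfl), by simp⟩
    · exact ⟨Or.inr (Or.inl rfl), by simp⟩
    · exact ⟨Or.inr (Or.inr rfl), by simp⟩
    · exact ⟨Or.inr (Or.inl rfl), by simp⟩
    · exact ⟨Or.inr (Or.inr rfl), by simp⟩
  have hcn : ∀ p ∈ S5, (B.psI b).c p ∈ pm_CI10_G (at5 p) := by
    intro p hp
    rw [pm_CI10_c B b h0 h1 p hp]
    rcases hp with rfl | rfl | rfl | rfl | rfl
    · exact pm_CI10_el (A := AZ) (by decide) (by decide)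
    · exact pm_CI10_PH 0 (by decide) (by decide)
    · exact pm_CI10_PH 0 (by decide) (by decide)
    · exact pm_CI10_PH 1 (by decide) (by decide)
    · exact pm_CI10_PH 1 (by decide) (by decide)
  have hSf : S5.Finite := by
    unfold S5
    exact Set.toFinite _
  have hcard : A5.card = 5 := by decide
  have hlb : (A5.card : ℝ) * 2 ^ (2 * 4) * B.lb ^ (-(1 / 4 : ℝ)) ≤ 1 / 2 := by
    rw [hcard]; exact_mod_cast B.lb_big
  have hxp : ∀ z ∈ (Set.univ : Set ZI), ∀ e ∈ pm_CI10_I, pm_CI10_xp z e =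
      (fun z : ZI => (![z.t 0, z.t 1, 0] : Fin 3 → ℝ)) z (at5 ((B.psI b).bar e)) -
      (fun z : ZI => (![z.t 0, z.t 1, 0] : Fin 3 → ℝ)) z (at5 e) := by
    rintro z _ e (rfl | rfl | rfl | rfl)
    · show z.t 0 = z.t 0 - 0
      ring
    · show -z.t 0 = 0 - z.t 0
      ring
    · show z.t 1 = z.t 1 - 0
      ring
    · show -z.t 1 = 0 - z.t 1
      ring
  have hx : ∀ z ∈ (Set.univ : Set ZI), ∀ e ∈ pm_CI10_I, ∀ k,
      (B.psI b).Dl e k z 0 = Real.exp (pm_CI10_xp z e) * (B.psI b).Dl e k pm_CI10_z0 0 ∧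
      (B.psI b).Dl e k z 2 = Real.exp (pm_CI10_xp z e) * (B.psI b).Dl e k pm_CI10_z0 2 := by
    have key : ∀ (z : ZI) (i : Fin 3) (k : ℤ),
        ((B.psI b).Dl (QI.dP i) k z 0 = Real.exp (z.t i) * (B.psI b).Dl (QI.dP i) k pm_CI10_z0 0 ∧
        (B.psI b).Dl (QI.dP i) k z 2 = Real.exp (z.t i) * (B.psI b).Dl (QI.dP i) k pm_CI10_z0 2) ∧
        ((B.psI b).Dl (QI.dH i) k z 0 = Real.exp (-z.t i) * (B.psI b).Dl (QI.dH i) k pm_CI10_z0 0 ∧
        (B.psI b).Dl (QI.dH i) k z 2 = Real.exp (-z.t i) * (B.psI b).Dl (QI.dH i) k pm_CI10_z0 2) := by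
      intro z i k
      refine ⟨⟨?_, ?_⟩, ?_, ?_⟩
      · simp [PS.Dl, Base.psI, Base.D0I, Base.dDP, pm_CI10_z0]; ring
      · simp [PS.Dl, Base.psI, Base.D0I, Base.dDP, pm_CI10_z0]; ring
      · simp [PS.Dl, Base.psI, Base.D0I, Base.dDP, invr, pm_CI10_z0, Real.exp_neg]; ring
      · simp [PS.Dl, Base.psI, Base.D0I, Base.dDP, invr, pm_CI10_z0, Real.exp_neg]; ring
    rintro z _ e (rfl | rfl | rfl | rfl) k
    · exact (key z 0 k).1
    · exact (key z 0 k).2
    · exact (key z 1 k).1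
    · exact (key z 1 k).2
  have hone : ∀ e ∈ pm_CI10_I, ∀ k, (B.psI b).Dl e k pm_CI10_z0 1 = 1 := by
    rintro e (rfl | rfl | rfl | rfl) k <;>
      simp [PS.Dl, Base.psI, Base.D0I, Base.dDP, invr, pm_CI10_z0]
  obtain ⟨A₀, hA₀, h⟩ := sep_Z (gh5 B b h0 h1) P.hK P.hκ.le hV S5 hSf hSn hcn B.poly5 pm_CI10_z0
    (pm_CI10_PV B b h0 h1) 2 4 hlen hlb s₁ Set.univ pm_CI10_xp
    (fun z => (![z.t 0, z.t 1, 0] : Fin 3 → ℝ)) hxp hx hone
  exact ⟨A₀, hA₀, fun Λ z s hs1 hs2 p hp q hq => h Λ z (Set.mem_univ _) s hs1 hs2 p hp q hq⟩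

/-- numeric part of the bounds -/
theorem pm_CI11_num {K s s₁ A δ n a : ℝ} (hK : 1 ≤ K) (hs : s ≤ s₁) (hA : 0 ≤ A)
    (hsm : n * A * δ ≤ 1 / 2) :
    a * a * K ^ (2 * s) * (A + 2 * n * A ^ 2 * δ) ≤ a * a * K ^ (2 * s₁) * (2 * A) := by
  have h1 : K ^ (2 * s) ≤ K ^ (2 * s₁) := Real.rpow_le_rpow_of_exponent_le hK (by linarith)
  have h2 : A + 2 * n * A ^ 2 * δ ≤ 2 * A := by nlinarith
  have h3 : 0 ≤ a * a := mul_self_nonneg a
  have h4 : 0 < K ^ (2 * s) := Real.rpow_pos_of_pos (by linarith) _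
  calc a * a * K ^ (2 * s) * (A + 2 * n * A ^ 2 * δ)
      ≤ a * a * K ^ (2 * s) * (2 * A) := mul_le_mul_of_nonneg_left h2 (by positivity)
    _ ≤ a * a * K ^ (2 * s₁) * (2 * A) :=
        mul_le_mul_of_nonneg_right (mul_le_mul_of_nonneg_left h1 h3) (by linarith)

/-- choice of the bulge -/
theorem pm_CI11_tau {A C n : ℝ} (hA : 0 < A) (hC : 0 < C) (hn : 0 < n) :
    ∃ τ₀ > (0 : ℝ), n * A * (C * Real.exp (-τ₀ / 16)) ≤ 1 / 2 := by
  refine ⟨16 * (2 * n * A * C), by positivity, ?_⟩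
  have h1 : -(16 * (2 * n * A * C)) / 16 = -(2 * n * A * C) := by ring
  rw [h1]
  have h2 : 0 < 2 * n * A * C := by positivity
  have h3 := Real.add_one_le_exp (2 * n * A * C)
  have h4 : Real.exp (-(2 * n * A * C)) * Real.exp (2 * n * A * C) = 1 := by
    rw [← Real.exp_add]
    simp
  have h5 : 0 < Real.exp (-(2 * n * A * C)) := Real.exp_pos _
  nlinarith

theorem pm_CI11_cross {C a τ₀ s : ℝ} (hC : 0 < C) (h0 : 0 < τ₀) (ha : τ₀ ≤ a) (hs : 1 / 8 ≤ s) :
    C * Real.exp (-(s / 2) * a) ≤ C * Real.exp (-τ₀ / 16) := by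
  apply mul_le_mul_of_nonneg_left _ hC.le
  apply Real.exp_le_exp.2
  nlinarith

theorem pm_CI11_cd (B : Base) (b : Fin 3 → Bool) : (B.psI b).c (QI.dP 2) ∈ V5 := by
  have hc : (B.psI b).c (QI.dP 2) = dd 2 := rfl
  rw [hc, ← elS_l02 2]
  exact Subgroup.subset_closure ⟨l0 2, by decide, l2 2, by decide, rfl⟩

/-- the four loop ports -/
theorem pm_CI11_cases {e : QI} (he : e ∈ ({QI.mp 0, QI.mm 0, QI.mp 1, QI.mm 1} : Set QI)) :
    e = QI.mp 0 ∨ e = QI.mm 0 ∨ e = QI.mp 1 ∨ e = QI.mm 1 := by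
  simpa using he

theorem pm_CI11_ncard : (({QI.mp 0, QI.mm 0, QI.mp 1, QI.mm 1} : Set QI).ncard : ℝ) ≤ 4 := by
  have h1 := Set.ncard_insert_le (QI.mp 0) {QI.mm 0, QI.mp 1, QI.mm 1}
  have h2 := Set.ncard_insert_le (QI.mm 0) {QI.mp 1, QI.mm 1}
  have h3 := Set.ncard_insert_le (QI.mp 1) {QI.mm 1}
  rw [Set.ncard_singleton] at h3
  have h4 : ({QI.mp 0, QI.mm 0, QI.mp 1, QI.mm 1} : Set QI).ncard ≤ 4 := by omega
  exact_mod_cast h4

/-- `R` with weak loops and arbitrary bulges along `d_0`, `d_1` -/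
theorem PkI.zR (P : PkI B b K κ Φ) (h0 : b 0 = false) (h1 : b 1 = false) (s₁ : ℝ) :
    ∃ τ₀ > (0 : ℝ), ∃ A₁ > (0 : ℝ), ∀ z : ZI, τ₀ ≤ z.a 0 → τ₀ ≤ z.a 1 → ∀ s : ℝ, 1 / 8 ≤ s → s ≤ s₁ →
      ∀ Λ, LR ⊆ Λ → Zs (B.psI b) K κ Λ RG z s (QI.dP 2) (QI.dP 2) ≤ ENNReal.ofReal A₁ := by
  obtain ⟨A₀, hA₀, hz5⟩ := P.z5 h0 h1 s₁
  obtain ⟨C, hC, hcr⟩ := crossI B b
  obtain ⟨τ₀, hτ₀, hτ⟩ := pm_CI11_tau hA₀ hC (by norm_num : (0 : ℝ) < 4)
  have hK := P.hK
  have hK0 : (0 : ℝ) < K := by linarith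
  refine ⟨τ₀, hτ₀, amb K B.Ld * amb K B.Ld * K ^ (2 * s₁) * (2 * A₀) + 1, ?_, ?_⟩
  · have h1 : 0 < K ^ (2 * s₁) := Real.rpow_pos_of_pos hK0 _
    have h2 : 0 ≤ amb K B.Ld * amb K B.Ld := mul_self_nonneg _
    positivity
  · intro z ha0 ha1 s hs hs' Λ hΛ
    have hs0 : 0 ≤ s := by linarith
    set δ : ℝ := C * Real.exp (-τ₀ / 16) with hδdef
    have hδ : 0 < δ := by positivity
    have hsm : ((({QI.mp 0, QI.mm 0, QI.mp 1, QI.mm 1} : Set QI)).ncard : ℝ) * A₀ * δ ≤ 1 / 2 := by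
      refine le_trans ?_ hτ
      apply mul_le_mul_of_nonneg_right _ hδ.le
      exact mul_le_mul_of_nonneg_right pm_CI11_ncard hA₀.le
    have hIΛ : ({QI.mp 0, QI.mm 0, QI.mp 1, QI.mm 1} : Set QI) ⊆ Λ := by
      intro e he
      apply hΛ
      rcases pm_CI11_cases he with rfl | rfl | rfl | rfl <;> simp [LR]
    have hIS : ∀ e ∈ ({QI.mp 0, QI.mm 0, QI.mp 1, QI.mm 1} : Set QI), e ∈ S5 := by
      intro e he
      rcases pm_CI11_cases he with rfl | rfl | rfl | rfl <;> simp [S5]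
    have hbar : ∀ e ∈ ({QI.mp 0, QI.mm 0, QI.mp 1, QI.mm 1} : Set QI),
        (B.psI b).bar e ∈ ({QI.mp 0, QI.mm 0, QI.mp 1, QI.mm 1} : Set QI) := by
      intro e he
      rcases pm_CI11_cases he with rfl | rfl | rfl | rfl <;> simp [Base.psI, Base.barI]
    have hV : VC (B.psI b) K κ Λ V5 S5 := by
      refine VC.mono le_rfl le_rfl (Set.Subset.trans ?_ hΛ) (Set.Subset.refl _) (P.v5 h0 h1).1
      intro e he
      have h : e = QI.dP 0 ∨ e = QI.dH 0 ∨ e = QI.dP 1 ∨ e = QI.dH 1 := by simpa using he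
      rcases h with rfl | rfl | rfl | rfl <;> simp [LR]
    have key := Z_glue (ghR B b h0 h1) P.hκ.le (Λ := Λ) hIΛ (fun _ => hV) {QI.dP 2}
      (by
        intro p hp
        rw [Set.mem_singleton_iff] at hp
        subst hp
        constructor
        · simp [S5]
        · simp)
      (by
        intro p hp
        rw [Set.mem_singleton_iff] at hp
        subst hp
        exact pm_CI11_cd B b)
      (Set.toFinite _) (fun p => (![z.t 0, z.t 1, 0] : Fin 3 → ℝ) (at5 p))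
      (by
        intro e he
        rcases pm_CI11_cases he with rfl | rfl | rfl | rfl <;> rfl)
      (A := A₀) (Ai := A₀) (δ := δ) hs0 hA₀.le hA₀.le hδ.le z
      (by
        intro _ p hp q hq
        exact hz5 Λ z s hs hs' p hp q hq)
      (by
        intro e he e' he' _
        exact hz5 Λ z s hs hs' _ (hIS _ (hbar e he)) _ (hIS e' he'))
      (by
        intro e he
        have hb : τ₀ ≤ blI e z := by
          rcases pm_CI11_cases he with rfl | rfl | rfl | rfl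
          · exact ha0
          · exact ha0
          · exact ha1
          · exact ha1
        have h1 := hcr e z s (by linarith) hs
        exact h1.trans (ENNReal.ofReal_le_ofReal (pm_CI11_cross hC hτ₀ hb hs)))
      hsm (p := QI.dP 2) (q := QI.dP 2) rfl rfl
    refine key.trans (ENNReal.ofReal_le_ofReal ?_)
    have hnum := pm_CI11_num (a := amb K B.Ld) hK hs' hA₀.le hsm
    have hL : (B.psI b).L (QI.dP 2) = B.Ld := rfl
    rw [hL, sub_self, mul_zero, Real.exp_zero, mul_one]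
    linarith

end

end

end PM3
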