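import Mathlib

/-! [PM3 Div] divergence at the critical exponent (greedy cutting). -/

namespace PM3
open Filter Topology

noncomputable section

private def pm_Div_S {Γ P : Type} (N : P → P → Γ → ℝ) (s : ℝ) (p q : P) (A : Set Γ) : ENNReal :=
  ∑' g : A, ENNReal.ofReal ((N p q g) ^ (-s))

private lemma pm_Div_mono {Γ P : Type} (N : P → P → Γ → ℝ) (s : ℝ) (p q : P) {A B : Set Γ}
    (h : A ⊆ B) : pm_Div_S N s p q A ≤ pm_Div_S N s p q B :=
  ENNReal.tsum_mono_subtype (fun g => ENNReal.ofReal ((N p q g) ^ (-s))) h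

private lemma pm_Div_mul {Γ P : Type} [Group Γ] {N : P → P → Γ → ℝ} (hN : ∀ p q g, 0 < N p q g)
    {c : ℝ} (hc : 0 < c) {W : P → P → Set Γ}
    (hlow : ∀ p q r, ∀ g ∈ W p q, ∀ g' ∈ W q r, c * (N p q g * N q r g') ≤ N p r (g * g'))
    {s : ℝ} (hs : 0 ≤ s) {p m q : P} {A B : Set Γ} (hA : A ⊆ W p m) (hB : B ⊆ W m q) :
    pm_Div_S N s p q (Set.image2 (· * ·) A B) ≤
      ENNReal.ofReal (c ^ (-s)) * (pm_Div_S N s p m A * pm_Div_S N s m q B) := by
  unfold pm_Div_S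
  let φ : A × B → (Set.image2 (· * ·) A B : Set Γ) :=
    fun z => ⟨(z.1 : Γ) * (z.2 : Γ), z.1, z.1.2, z.2, z.2.2, rfl⟩
  have hφ : Function.Surjective φ := by
    rintro ⟨g, a, ha, b, hb, rfl⟩
    exact ⟨(⟨a, ha⟩, ⟨b, hb⟩), rfl⟩
  refine (ENNReal.tsum_le_tsum_comp_of_surjective hφ _).trans ?_
  have h1 : (∑' z : A × B, ENNReal.ofReal ((N p q (φ z : Γ)) ^ (-s))) ≤
      ∑' z : A × B, ENNReal.ofReal (c ^ (-s)) * (ENNReal.ofReal ((N p m (z.1 : Γ)) ^ (-s)) *
        ENNReal.ofReal ((N m q (z.2 : Γ)) ^ (-s))) := by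
    refine ENNReal.tsum_le_tsum fun z => ?_
    have h2 := hlow p m q z.1 (hA z.1.2) z.2 (hB z.2.2)
    have p1 := hN p m (z.1 : Γ)
    have p2 := hN m q (z.2 : Γ)
    rw [← ENNReal.ofReal_mul (Real.rpow_nonneg p1.le _),
      ← ENNReal.ofReal_mul (Real.rpow_nonneg hc.le _),
      ← Real.mul_rpow p1.le p2.le, ← Real.mul_rpow hc.le (mul_pos p1 p2).le]
    exact ENNReal.ofReal_le_ofReal (Real.rpow_le_rpow_of_nonpos
      (mul_pos hc (mul_pos p1 p2)) h2 (by linarith))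
  refine h1.trans (le_of_eq ?_)
  rw [ENNReal.tsum_mul_left]
  congr 1
  rw [ENNReal.tsum_prod (f := fun (a : A) (b : B) => ENNReal.ofReal ((N p m (a : Γ)) ^ (-s)) *
        ENNReal.ofReal ((N m q (b : Γ)) ^ (-s)))]
  simp_rw [ENNReal.tsum_mul_left]
  rw [ENNReal.tsum_mul_right]

private lemma pm_Div_interp {Γ P : Type} {N : P → P → Γ → ℝ} (hN : ∀ p q g, 0 < N p q g)
    {s₁ s E L : ℝ} (h1 : s₁ ≤ s) (h2 : s ≤ E) (hL : 0 < L) (p q : P) (A : Set Γ) :
    pm_Div_S N s p q A ≤ ENNReal.ofReal (L ^ (E - s)) * pm_Div_S N E p q A +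
      ENNReal.ofReal (L ^ (-(s - s₁))) * pm_Div_S N s₁ p q A := by
  unfold pm_Div_S
  rw [← ENNReal.tsum_mul_left, ← ENNReal.tsum_mul_left, ← ENNReal.tsum_add]
  refine ENNReal.tsum_le_tsum fun g => ?_
  have hp := hN p q (g : Γ)
  set n := N p q (g : Γ) with hn
  have a1 : 0 ≤ L ^ (E - s) := Real.rpow_nonneg hL.le _
  have a2 : 0 ≤ L ^ (-(s - s₁)) := Real.rpow_nonneg hL.le _
  have b1 : 0 ≤ n ^ (-E) := Real.rpow_nonneg hp.le _
  have b2 : 0 ≤ n ^ (-s₁) := Real.rpow_nonneg hp.le _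
  rw [← ENNReal.ofReal_mul a1, ← ENNReal.ofReal_mul a2,
    ← ENNReal.ofReal_add (mul_nonneg a1 b1) (mul_nonneg a2 b2)]
  refine ENNReal.ofReal_le_ofReal ?_
  rcases le_total n L with h | h
  · have e1 : n ^ (-s) = n ^ (E - s) * n ^ (-E) := by
      rw [← Real.rpow_add hp]
      congr 1
      ring
    have e2 : n ^ (E - s) ≤ L ^ (E - s) := Real.rpow_le_rpow hp.le h (by linarith)
    rw [e1]
    have := mul_le_mul_of_nonneg_right e2 b1
    have := mul_nonneg a2 b2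
    linarith
  · have e1 : n ^ (-s) = n ^ (-(s - s₁)) * n ^ (-s₁) := by
      rw [← Real.rpow_add hp]
      congr 1
      ring
    have e2 : n ^ (-(s - s₁)) ≤ L ^ (-(s - s₁)) :=
      Real.rpow_le_rpow_of_nonpos hL h (by linarith)
    rw [e1]
    have := mul_le_mul_of_nonneg_right e2 b2
    have := mul_nonneg a1 b1
    linarith

private lemma pm_Div_rem {Γ P : Type} {N : P → P → Γ → ℝ} (hN : ∀ p q g, 0 < N p q g)
    {s E R : ℝ} (h2 : s ≤ E) (hR : 0 < R) (p q : P) (A : Set Γ) (hA : ∀ g ∈ A, N p q g ≤ R) :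
    pm_Div_S N s p q A ≤ ENNReal.ofReal (R ^ (E - s)) * pm_Div_S N E p q A := by
  unfold pm_Div_S
  rw [← ENNReal.tsum_mul_left]
  refine ENNReal.tsum_le_tsum fun g => ?_
  have hp := hN p q (g : Γ)
  have a1 : 0 ≤ R ^ (E - s) := Real.rpow_nonneg hR.le _
  rw [← ENNReal.ofReal_mul a1]
  refine ENNReal.ofReal_le_ofReal ?_
  have e1 : N p q (g : Γ) ^ (-s) = N p q (g : Γ) ^ (E - s) * N p q (g : Γ) ^ (-E) := by
    rw [← Real.rpow_add hp]
    congr 1
    ring
  rw [e1]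
  exact mul_le_mul_of_nonneg_right (Real.rpow_le_rpow hp.le (hA g g.2) (by linarith))
    (Real.rpow_nonneg hp.le _)

private lemma pm_Div_tail {Γ P : Type} (N : P → P → Γ → ℝ) (hN : ∀ p q g, 0 < N p q g)
    (E : ℝ) (p q : P) (A : Set Γ) (hA : pm_Div_S N E p q A ≠ ⊤) {η : ENNReal} (hη : 0 < η) :
    ∃ R : ℝ, 0 < R ∧ ∀ R', R ≤ R' → pm_Div_S N E p q {g | g ∈ A ∧ R' < N p q g} ≤ η := by
  classical
  have h1 := ENNReal.tendsto_tsum_compl_atTop_zero (f := fun g : A =>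
    ENNReal.ofReal ((N p q g) ^ (-E))) hA
  obtain ⟨F, hF⟩ := (h1.eventually (gt_mem_nhds hη)).exists
  refine ⟨∑ g ∈ F, N p q (g : Γ) + 1, ?_, fun R' hR' => ?_⟩
  · have : 0 ≤ ∑ g ∈ F, N p q (g : Γ) := Finset.sum_nonneg fun g _ => (hN p q g).le
    linarith
  · refine le_trans ?_ hF.le
    unfold pm_Div_S
    have hmem : ∀ g : {g | g ∈ A ∧ R' < N p q g}, (⟨g, g.2.1⟩ : A) ∉ F := by
      intro g hg
      have h3 : N p q (g : Γ) ≤ ∑ g ∈ F, N p q (g : Γ) :=
        Finset.single_le_sum (f := fun g : A => N p q (g : Γ))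
          (fun g _ => (hN p q g).le) hg
      have := g.2.2
      linarith
    let φ : {g | g ∈ A ∧ R' < N p q g} → {x : A // x ∉ F} := fun g => ⟨⟨g, g.2.1⟩, hmem g⟩
    have hφ : Function.Injective φ := by
      intro g g' h
      have := congrArg (fun z : {x : A // x ∉ F} => ((z : A) : Γ)) h
      exact Subtype.ext this
    exact ENNReal.tsum_comp_le_tsum_of_injective hφ
      (fun z : {x : A // x ∉ F} => ENNReal.ofReal ((N p q ((z : A) : Γ)) ^ (-E)))

private def pm_Div_Rem {Γ P : Type} (N : P → P → Γ → ℝ) (W : P → P → Set Γ) (R : ℝ) (p q : P) :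
    Set Γ := {g | g ∈ W p q ∧ N p q g ≤ R}

private def pm_Div_Let {Γ P X : Type} (src tgt : X → P) (val : X → Γ) (p q : P) : Set Γ :=
  {g | ∃ x, src x = p ∧ tgt x = q ∧ val x = g}

private def pm_Div_B {Γ P X : Type} [Group Γ] (src tgt : X → P) (val : X → Γ)
    (N : P → P → Γ → ℝ) (W : P → P → Set Γ) (R : ℝ) (p q : P) : Set Γ :=
  {g | g ∈ W p q ∧ R < N p q g ∧ (g ∈ pm_Div_Let src tgt val p q ∨
    ∃ m, g ∈ Set.image2 (· * ·) (pm_Div_Rem N W R p m) (pm_Div_Let src tgt val m q))}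

private def pm_Div_A {Γ P : Type} [Group Γ] (B : P → P → Set Γ) : ℕ → P → P → Set Γ
  | 0, p, q => B p q
  | (k + 1), p, q => ⋃ m, Set.image2 (· * ·) (pm_Div_A B k p m) (B m q)

private lemma pm_Div_W_let {Γ P X : Type} [Group Γ] (src tgt : X → P) (val : X → Γ)
    (W : P → P → Set Γ)
    (hW : ∀ p q, W p q = {g | ∃ (x : X) (l : List X), (x :: l).IsChain (fun a b => tgt a = src b) ∧
      src x = p ∧ tgt ((x :: l).getLast (by simp)) = q ∧ ((x :: l).map val).prod = g})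
    (p q : P) : pm_Div_Let src tgt val p q ⊆ W p q := by
  rintro g ⟨x, h1, h2, h3⟩
  rw [hW]
  exact ⟨x, [], by simp, h1, by simpa using h2, by simpa using h3⟩

private lemma pm_Div_W_append {Γ P X : Type} [Group Γ] (src tgt : X → P) (val : X → Γ)
    (W : P → P → Set Γ)
    (hW : ∀ p q, W p q = {g | ∃ (x : X) (l : List X), (x :: l).IsChain (fun a b => tgt a = src b) ∧
      src x = p ∧ tgt ((x :: l).getLast (by simp)) = q ∧ ((x :: l).map val).prod = g})
    (p q : P) (g : Γ) (hg : g ∈ W p q) (x : X) (hx : src x = q) : g * val x ∈ W p (tgt x) := by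
  rw [hW] at hg ⊢
  obtain ⟨y, l, h1, h2, h3, h4⟩ := hg
  refine ⟨y, l ++ [x], ?_, h2, ?_, ?_⟩
  · rw [← List.cons_append, List.isChain_append]
    refine ⟨h1, by simp, ?_⟩
    intro a ha b hb
    simp only [List.head?_cons, Option.mem_def, Option.some.injEq] at hb
    rw [List.getLast?_eq_getLast_of_ne_nil (by simp)] at ha
    simp only [Option.mem_def, Option.some.injEq] at ha
    rw [← ha, ← hb, h3, hx]
  · simp
  · rw [← List.cons_append, List.map_append, List.prod_append, h4]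
    simp

private lemma pm_Div_W_ind {Γ P X : Type} [Group Γ] (src tgt : X → P) (val : X → Γ)
    (W : P → P → Set Γ)
    (hW : ∀ p q, W p q = {g | ∃ (x : X) (l : List X), (x :: l).IsChain (fun a b => tgt a = src b) ∧
      src x = p ∧ tgt ((x :: l).getLast (by simp)) = q ∧ ((x :: l).map val).prod = g})
    (G : P → P → Γ → Prop) (h0 : ∀ x, G (src x) (tgt x) (val x))
    (h1 : ∀ p q g x, g ∈ W p q → G p q g → src x = q → G p (tgt x) (g * val x)) :
    ∀ p q g, g ∈ W p q → G p q g := by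
  have key : ∀ (l : List X) (x : X), (x :: l).IsChain (fun a b => tgt a = src b) →
      G (src x) (tgt ((x :: l).getLast (by simp))) ((x :: l).map val).prod := by
    intro l
    induction l using List.reverseRecOn with
    | nil =>
      intro x _
      simpa using h0 x
    | append_singleton l y ih =>
      intro x hx
      have hx' := hx
      rw [← List.cons_append, List.isChain_append] at hx
      obtain ⟨c1, -, c3⟩ := hx
      have hgl : tgt ((x :: l).getLast (by simp)) = src y := by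
        apply c3
        · rw [List.getLast?_eq_getLast_of_ne_nil (by simp)]
          simp
        · simp
      have hW' : ((x :: l).map val).prod ∈ W (src x) (tgt ((x :: l).getLast (by simp))) := by
        rw [hW]
        exact ⟨x, l, c1, rfl, rfl, rfl⟩
      have := h1 _ _ _ y hW' (ih x c1) hgl.symm
      have e1 : ((x :: (l ++ [y])).map val).prod = ((x :: l).map val).prod * val y := by
        rw [← List.cons_append, List.map_append, List.prod_append]
        simp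
      have e2 : tgt ((x :: (l ++ [y])).getLast (by simp)) = tgt y := by
        simp
      rw [e1, e2]
      exact this
  intro p q g hg
  rw [hW] at hg
  obtain ⟨x, l, c1, rfl, rfl, rfl⟩ := hg
  exact key l x c1

private lemma pm_Div_W_mul {Γ P X : Type} [Group Γ] (src tgt : X → P) (val : X → Γ)
    (W : P → P → Set Γ)
    (hW : ∀ p q, W p q = {g | ∃ (x : X) (l : List X), (x :: l).IsChain (fun a b => tgt a = src b) ∧
      src x = p ∧ tgt ((x :: l).getLast (by simp)) = q ∧ ((x :: l).map val).prod = g})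
    (p m q : P) (g g' : Γ) (hg : g ∈ W p m) (hg' : g' ∈ W m q) : g * g' ∈ W p q := by
  have key := pm_Div_W_ind src tgt val W hW
    (fun m q g' => ∀ p g, g ∈ W p m → g * g' ∈ W p q)
    (fun x p g hg => pm_Div_W_append src tgt val W hW p (src x) g hg x rfl)
    (fun m q g' x _ ih hx p g hg => by
      have := pm_Div_W_append src tgt val W hW p q (g * g') (ih p g hg) x hx
      rwa [mul_assoc] at this)
  exact key m q g' hg' p g hg

private lemma pm_Div_A_sub {Γ P X : Type} [Group Γ] (src tgt : X → P) (val : X → Γ)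
    (W : P → P → Set Γ)
    (hW : ∀ p q, W p q = {g | ∃ (x : X) (l : List X), (x :: l).IsChain (fun a b => tgt a = src b) ∧
      src x = p ∧ tgt ((x :: l).getLast (by simp)) = q ∧ ((x :: l).map val).prod = g})
    (B : P → P → Set Γ) (hB : ∀ p q, B p q ⊆ W p q) :
    ∀ k p q, pm_Div_A B k p q ⊆ W p q := by
  intro k
  induction k with
  | zero => exact fun p q => hB p q
  | succ k ih =>
    intro p q g hg
    obtain ⟨m, a, ha, b, hb, rfl⟩ := Set.mem_iUnion.1 hg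
    exact pm_Div_W_mul src tgt val W hW p m q a b (ih p m ha) (hB m q hb)

private lemma pm_Div_cover {Γ P X : Type} [Group Γ] (src tgt : X → P) (val : X → Γ)
    (N : P → P → Γ → ℝ) (W : P → P → Set Γ)
    (hW : ∀ p q, W p q = {g | ∃ (x : X) (l : List X), (x :: l).IsChain (fun a b => tgt a = src b) ∧
      src x = p ∧ tgt ((x :: l).getLast (by simp)) = q ∧ ((x :: l).map val).prod = g})
    (R : ℝ) : ∀ p q g, g ∈ W p q → (g ∈ pm_Div_Rem N W R p q ∨
      (∃ k, g ∈ pm_Div_A (pm_Div_B src tgt val N W R) k p q) ∨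
      (∃ k m, g ∈ Set.image2 (· * ·) (pm_Div_A (pm_Div_B src tgt val N W R) k p m)
        (pm_Div_Rem N W R m q))) := by
  apply pm_Div_W_ind src tgt val W hW
  · intro x
    have h1 : val x ∈ pm_Div_Let src tgt val (src x) (tgt x) := ⟨x, rfl, rfl, rfl⟩
    have h2 := pm_Div_W_let src tgt val W hW _ _ h1
    by_cases h : N (src x) (tgt x) (val x) ≤ R
    · exact Or.inl ⟨h2, h⟩
    · push Not at h
      exact Or.inr (Or.inl ⟨0, h2, h, Or.inl h1⟩)
  · rintro p q g x hgW hG rfl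
    have hl : val x ∈ pm_Div_Let src tgt val (src x) (tgt x) := ⟨x, rfl, rfl, rfl⟩
    have hlW := pm_Div_W_let src tgt val W hW _ _ hl
    rcases hG with hG | ⟨k, hG⟩ | ⟨k, m, a, ha, v, hv, rfl⟩
    · have h2 := pm_Div_W_append src tgt val W hW p (src x) g hgW x rfl
      by_cases h : N p (tgt x) (g * val x) ≤ R
      · exact Or.inl ⟨h2, h⟩
      · push Not at h
        exact Or.inr (Or.inl ⟨0, h2, h, Or.inr ⟨src x, g, hG, val x, hl, rfl⟩⟩)
    · by_cases h : N (src x) (tgt x) (val x) ≤ R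
      · exact Or.inr (Or.inr ⟨k, src x, g, hG, val x, ⟨hlW, h⟩, rfl⟩)
      · push Not at h
        refine Or.inr (Or.inl ⟨k + 1, Set.mem_iUnion.2 ⟨src x, g, hG, val x, ?_, rfl⟩⟩)
        exact ⟨hlW, h, Or.inl hl⟩
    · have h2 := pm_Div_W_append src tgt val W hW m (src x) v hv.1 x rfl
      by_cases h : N m (tgt x) (v * val x) ≤ R
      · exact Or.inr (Or.inr ⟨k, m, a, ha, v * val x, ⟨h2, h⟩, by simp only [mul_assoc]⟩)
      · push Not at h
        refine Or.inr (Or.inl ⟨k + 1, Set.mem_iUnion.2 ⟨m, a, ha, v * val x, ?_,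
          by simp only [mul_assoc]⟩⟩)
        exact ⟨h2, h, Or.inr ⟨src x, v, hv, val x, hl, rfl⟩⟩

private lemma pm_Div_iUnion_fin {Γ P : Type} [Fintype P] (N : P → P → Γ → ℝ) (s : ℝ) (p q : P)
    (A : P → Set Γ) : pm_Div_S N s p q (⋃ m, A m) ≤ ∑ m, pm_Div_S N s p q (A m) :=
  ENNReal.tsum_iUnion_le (fun g => ENNReal.ofReal ((N p q g) ^ (-s))) A

private lemma pm_Div_iUnion_nat {Γ P : Type} (N : P → P → Γ → ℝ) (s : ℝ) (p q : P)
    (A : ℕ → Set Γ) : pm_Div_S N s p q (⋃ m, A m) ≤ ∑' m, pm_Div_S N s p q (A m) :=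
  ENNReal.tsum_iUnion_le_tsum (fun g => ENNReal.ofReal ((N p q g) ^ (-s))) A

private lemma pm_Div_union {Γ P : Type} (N : P → P → Γ → ℝ) (s : ℝ) (p q : P)
    (A B : Set Γ) : pm_Div_S N s p q (A ∪ B) ≤ pm_Div_S N s p q A + pm_Div_S N s p q B :=
  ENNReal.tsum_union_le (fun g => ENNReal.ofReal ((N p q g) ^ (-s))) A B

private lemma pm_Div_let_sum {Γ P X : Type} (src tgt : X → P) (val : X → Γ)
    (N : P → P → Γ → ℝ) (s : ℝ) (p q : P) :
    pm_Div_S N s p q (pm_Div_Let src tgt val p q) ≤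
      ∑' x : X, ENNReal.ofReal ((N (src x) (tgt x) (val x)) ^ (-s)) := by
  unfold pm_Div_S
  let φ : {x : X // src x = p ∧ tgt x = q} → pm_Div_Let src tgt val p q :=
    fun x => ⟨val x, x, x.2.1, x.2.2, rfl⟩
  have hφ : Function.Surjective φ := by
    rintro ⟨g, x, h1, h2, h3⟩
    exact ⟨⟨x, h1, h2⟩, Subtype.ext h3⟩
  refine (ENNReal.tsum_le_tsum_comp_of_surjective hφ _).trans ?_
  have h1 : (∑' x : {x : X // src x = p ∧ tgt x = q},
      ENNReal.ofReal ((N p q (φ x : Γ)) ^ (-s))) =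
      ∑' x : {x : X // src x = p ∧ tgt x = q},
        ENNReal.ofReal ((N (src x) (tgt x) (val x)) ^ (-s)) := by
    refine tsum_congr fun x => ?_
    rw [x.2.1, x.2.2]
  rw [h1]
  exact ENNReal.tsum_comp_le_tsum_of_injective Subtype.val_injective
    (fun x : X => ENNReal.ofReal ((N (src x) (tgt x) (val x)) ^ (-s)))

private lemma pm_Div_A_sum {Γ P X : Type} [Group Γ] [Fintype P] (src tgt : X → P) (val : X → Γ)
    {N : P → P → Γ → ℝ} (hN : ∀ p q g, 0 < N p q g) {c : ℝ} (hc : 0 < c) (W : P → P → Set Γ)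
    (hW : ∀ p q, W p q = {g | ∃ (x : X) (l : List X), (x :: l).IsChain (fun a b => tgt a = src b) ∧
      src x = p ∧ tgt ((x :: l).getLast (by simp)) = q ∧ ((x :: l).map val).prod = g})
    (hlow : ∀ p q r, ∀ g ∈ W p q, ∀ g' ∈ W q r, c * (N p q g * N q r g') ≤ N p r (g * g'))
    {s : ℝ} (hs : 0 ≤ s) (B : P → P → Set Γ) (hB : ∀ p q, B p q ⊆ W p q) {b : ENNReal}
    (hb : ∀ p q, pm_Div_S N s p q (B p q) ≤ b)
    (hκ : (Fintype.card P : ENNReal) * ENNReal.ofReal (c ^ (-s)) * b ≤ 2⁻¹) :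
    ∀ k p q, pm_Div_S N s p q (pm_Div_A B k p q) ≤ b * 2⁻¹ ^ k := by
  intro k
  induction k with
  | zero =>
    intro p q
    rw [pow_zero, mul_one]
    exact hb p q
  | succ k ih =>
    intro p q
    refine (pm_Div_iUnion_fin N s p q _).trans ?_
    have h1 : ∀ m ∈ (Finset.univ : Finset P),
        pm_Div_S N s p q (Set.image2 (· * ·) (pm_Div_A B k p m) (B m q)) ≤
          ENNReal.ofReal (c ^ (-s)) * ((b * 2⁻¹ ^ k) * b) := by
      intro m _
      refine (pm_Div_mul hN hc hlow hs (pm_Div_A_sub src tgt val W hW B hB k p m)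
        (hB m q)).trans ?_
      exact mul_le_mul_right (mul_le_mul' (ih p m) (hb m q)) _
    refine (Finset.sum_le_sum h1).trans ?_
    rw [Finset.sum_const, Finset.card_univ, nsmul_eq_mul]
    calc (Fintype.card P : ENNReal) * (ENNReal.ofReal (c ^ (-s)) * ((b * 2⁻¹ ^ k) * b))
        = ((Fintype.card P : ENNReal) * ENNReal.ofReal (c ^ (-s)) * b) * (b * 2⁻¹ ^ k) := by ring
      _ ≤ 2⁻¹ * (b * 2⁻¹ ^ k) := mul_le_mul_left hκ _
      _ = b * 2⁻¹ ^ (k + 1) := by ring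

/-- An automaton with finitely many states `P`, letters `x : X` from `src x` to `tgt x` with values in a
group, and sizes `N p q g` which are quasi-multiplicative along composable lists. If the sum over letters
converges at some `s₁ < E`, and all sums over values of lists diverge below `E` (for some pair of states),
then some sum diverges at `E`. -/
theorem divergence {Γ P X : Type} [Group Γ] [Finite P] (src tgt : X → P) (val : X → Γ)
    (N : P → P → Γ → ℝ) (hN : ∀ p q g, 0 < N p q g) {c C : ℝ} (hc : 0 < c)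
    (W : P → P → Set Γ)
    (hW : ∀ p q, W p q = {g | ∃ (x : X) (l : List X), (x :: l).IsChain (fun a b => tgt a = src b) ∧
      src x = p ∧ tgt ((x :: l).getLast (by simp)) = q ∧ ((x :: l).map val).prod = g})
    (hlow : ∀ p q r, ∀ g ∈ W p q, ∀ g' ∈ W q r, c * (N p q g * N q r g') ≤ N p r (g * g'))
    (hupp : ∀ p q r, ∀ g ∈ W p q, ∀ g' ∈ W q r, N p r (g * g') ≤ C * (N p q g * N q r g'))
    {s₁ E : ℝ} (hs₁ : 0 < s₁) (hE : s₁ < E)
    (hlet : ∑' x : X, ENNReal.ofReal ((N (src x) (tgt x) (val x)) ^ (-s₁)) < ⊤)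
    (hdiv : ∀ s, s₁ < s → s < E → ∃ p q, ∑' g : W p q, ENNReal.ofReal ((N p q g) ^ (-s)) = ⊤) :
    ∃ p q, ∑' g : W p q, ENNReal.ofReal ((N p q g) ^ (-E)) = ⊤ := by
  classical
  haveI := Fintype.ofFinite P
  by_contra hcon
  have hfin : ∀ p q, pm_Div_S N E p q (W p q) ≠ ⊤ := by
    intro p q h
    exact hcon ⟨p, q, h⟩
  obtain ⟨c', hc', hc1, hlow'⟩ : ∃ c' : ℝ, 0 < c' ∧ c' ≤ 1 ∧
      ∀ p q r, ∀ g ∈ W p q, ∀ g' ∈ W q r, c' * (N p q g * N q r g') ≤ N p r (g * g') :=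
    ⟨min c 1, lt_min hc one_pos, min_le_right _ _, fun p q r g hg g' hg' =>
      (mul_le_mul_of_nonneg_right (min_le_left _ _) (mul_pos (hN p q g) (hN q r g')).le).trans
        (hlow p q r g hg g' hg')⟩
  set κ : ENNReal := (Fintype.card P : ENNReal) * ENNReal.ofReal (c' ^ (-E)) with hκ
  have hκtop : κ ≠ ⊤ := ENNReal.mul_ne_top (ENNReal.natCast_ne_top _) ENNReal.ofReal_ne_top
  -- choice of `η`
  obtain ⟨η, hη0, hηtop, hη⟩ : ∃ η : ENNReal, 0 < η ∧ η ≠ ⊤ ∧ κ * (2 * η) ≤ 4⁻¹ := by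
    refine ⟨4⁻¹ / (κ * 2 + 1), ?_, ?_, ?_⟩
    · refine ENNReal.div_pos (by simp) ?_
      exact ENNReal.add_ne_top.2 ⟨ENNReal.mul_ne_top hκtop (by simp), by simp⟩
    · exact ENNReal.div_ne_top (by simp) (by simp)
    · rw [← mul_assoc]
      calc κ * 2 * (4⁻¹ / (κ * 2 + 1)) ≤ (κ * 2 + 1) * (4⁻¹ / (κ * 2 + 1)) :=
            mul_le_mul_left le_self_add _
        _ ≤ 4⁻¹ := ENNReal.mul_div_le
  -- choice of `R`
  have hR : ∀ p q, ∃ R : ℝ, 0 < R ∧ ∀ R', R ≤ R' →
      pm_Div_S N E p q {g | g ∈ W p q ∧ R' < N p q g} ≤ η := fun p q =>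
    pm_Div_tail N hN E p q (W p q) (hfin p q) hη0
  choose Rf hRf0 hRf using hR
  obtain ⟨R, hR0, hR⟩ : ∃ R : ℝ, 0 < R ∧ ∀ p q, Rf p q ≤ R := by
    refine ⟨∑ p, ∑ q, Rf p q + 1, ?_, fun p q => ?_⟩
    · have : 0 ≤ ∑ p, ∑ q, Rf p q :=
        Finset.sum_nonneg fun p _ => Finset.sum_nonneg fun q _ => (hRf0 p q).le
      linarith
    · have h1 : Rf p q ≤ ∑ q, Rf p q :=
        Finset.single_le_sum (f := fun q => Rf p q) (fun q _ => (hRf0 p q).le) (Finset.mem_univ q)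
      have h2 : ∑ q, Rf p q ≤ ∑ p, ∑ q, Rf p q :=
        Finset.single_le_sum (f := fun p => ∑ q, Rf p q)
          (fun p _ => Finset.sum_nonneg fun q _ => (hRf0 p q).le) (Finset.mem_univ p)
      linarith
  set B := pm_Div_B src tgt val N W R with hB
  have hBW : ∀ p q, B p q ⊆ W p q := fun p q g hg => hg.1
  have hBE : ∀ p q, pm_Div_S N E p q (B p q) ≤ η := by
    intro p q
    refine (pm_Div_mono N E p q ?_).trans (hRf p q R (hR p q))
    exact fun g hg => ⟨hg.1, hg.2.1⟩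
  -- the block sum at `s₁`
  have hRemW : ∀ p q, pm_Div_Rem N W R p q ⊆ W p q := fun p q g hg => hg.1
  have hRem : ∀ s, s ≤ E → ∀ p q, pm_Div_S N s p q (pm_Div_Rem N W R p q) ≠ ⊤ := by
    intro s hs p q
    refine ne_top_of_le_ne_top ?_ (pm_Div_rem hN hs hR0 p q _ (fun g hg => hg.2))
    refine ENNReal.mul_ne_top ENNReal.ofReal_ne_top ?_
    exact ne_top_of_le_ne_top (hfin p q) (pm_Div_mono N E p q (hRemW p q))
  have hLetW := fun p q => pm_Div_W_let src tgt val W hW p q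
  have hLet : ∀ p q, pm_Div_S N s₁ p q (pm_Div_Let src tgt val p q) ≠ ⊤ := fun p q =>
    ne_top_of_le_ne_top hlet.ne (pm_Div_let_sum src tgt val N s₁ p q)
  have hB1 : ∀ p q, pm_Div_S N s₁ p q (B p q) ≠ ⊤ := by
    intro p q
    have h1 : B p q ⊆ pm_Div_Let src tgt val p q ∪
        ⋃ m, Set.image2 (· * ·) (pm_Div_Rem N W R p m) (pm_Div_Let src tgt val m q) := by
      intro g hg
      rcases hg.2.2 with h | ⟨m, h⟩
      · exact Or.inl h
      · exact Or.inr (Set.mem_iUnion.2 ⟨m, h⟩)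
    refine ne_top_of_le_ne_top ?_ ((pm_Div_mono N s₁ p q h1).trans (pm_Div_union N s₁ p q _ _))
    refine ENNReal.add_ne_top.2 ⟨hLet p q, ?_⟩
    refine ne_top_of_le_ne_top ?_ (pm_Div_iUnion_fin N s₁ p q _)
    refine (ENNReal.sum_ne_top.2 fun m _ => ?_)
    refine ne_top_of_le_ne_top ?_ (pm_Div_mul hN hc' hlow' hs₁.le (hRemW p m) (hLetW m q))
    exact ENNReal.mul_ne_top ENNReal.ofReal_ne_top
      (ENNReal.mul_ne_top (hRem s₁ hE.le p m) (hLet m q))
  obtain ⟨M, hMtop, hM⟩ : ∃ M : ENNReal, M ≠ ⊤ ∧ ∀ p q, pm_Div_S N s₁ p q (B p q) ≤ M := by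
    refine ⟨∑ p, ∑ q, pm_Div_S N s₁ p q (B p q), ?_, fun p q => ?_⟩
    · exact ENNReal.sum_ne_top.2 fun p _ => ENNReal.sum_ne_top.2 fun q _ => hB1 p q
    · exact (Finset.single_le_sum (f := fun q => pm_Div_S N s₁ p q (B p q))
        (fun q _ => zero_le) (Finset.mem_univ q)).trans
        (Finset.single_le_sum (f := fun p => ∑ q, pm_Div_S N s₁ p q (B p q))
        (fun p _ => zero_le) (Finset.mem_univ p))
  -- choice of `y`, `L`, `s`
  obtain ⟨y, hy0, hy⟩ : ∃ y : ℝ, 0 < y ∧ κ * (ENNReal.ofReal y * M) ≤ 4⁻¹ := by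
    have hD : κ * M ≠ ⊤ := ENNReal.mul_ne_top hκtop hMtop
    refine ⟨(4 * ((κ * M).toReal + 1))⁻¹, by positivity, ?_⟩
    have e1 : κ * (ENNReal.ofReal (4 * ((κ * M).toReal + 1))⁻¹ * M) =
        ENNReal.ofReal ((κ * M).toReal * (4 * ((κ * M).toReal + 1))⁻¹) := by
      rw [ENNReal.ofReal_mul ENNReal.toReal_nonneg, ENNReal.ofReal_toReal hD]
      ring
    have e2 : (4 : ENNReal)⁻¹ = ENNReal.ofReal (4⁻¹ : ℝ) := by
      rw [ENNReal.ofReal_inv_of_pos (by norm_num)]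
      simp
    rw [e1, e2]
    refine ENNReal.ofReal_le_ofReal ?_
    have h0 : 0 ≤ (κ * M).toReal := ENNReal.toReal_nonneg
    rw [← div_eq_mul_inv, div_le_iff₀ (by positivity)]
    linarith
  obtain ⟨L, hL1, hLy⟩ : ∃ L : ℝ, 1 ≤ L ∧ L ^ (-((E - s₁) / 2)) ≤ y := by
    have h1 := (tendsto_rpow_neg_atTop (y := (E - s₁) / 2) (by linarith)).eventually
      (gt_mem_nhds hy0)
    obtain ⟨L, hL, hL'⟩ := (h1.and (eventually_ge_atTop 1)).exists
    exact ⟨L, hL', hL.le⟩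
  have hL0 : 0 < L := by linarith
  have hlogL : 0 ≤ Real.log L := Real.log_nonneg hL1
  obtain ⟨δ, hδ0, hδ1, hδ2⟩ : ∃ δ : ℝ, 0 < δ ∧ δ ≤ (E - s₁) / 2 ∧ L ^ δ ≤ 2 := by
    refine ⟨min ((E - s₁) / 2) (Real.log 2 / (Real.log L + 1)), ?_, min_le_left _ _, ?_⟩
    · exact lt_min (by linarith) (div_pos (Real.log_pos (by norm_num)) (by linarith))
    · have h1 : L ^ (min ((E - s₁) / 2) (Real.log 2 / (Real.log L + 1))) ≤
          L ^ (Real.log 2 / (Real.log L + 1)) :=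
        Real.rpow_le_rpow_of_exponent_le hL1 (min_le_right _ _)
      refine h1.trans ?_
      rw [Real.rpow_def_of_pos hL0]
      have h2 : Real.log L * (Real.log 2 / (Real.log L + 1)) ≤ Real.log 2 := by
        rw [mul_div_assoc', div_le_iff₀ (by linarith)]
        have := Real.log_pos (by norm_num : (1 : ℝ) < 2)
        nlinarith
      calc Real.exp (Real.log L * (Real.log 2 / (Real.log L + 1))) ≤ Real.exp (Real.log 2) :=
            Real.exp_le_exp.2 h2
        _ = 2 := Real.exp_log (by norm_num)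
  set s := E - δ with hs
  have hsE : s < E := by linarith
  have hs1 : s₁ < s := by linarith
  obtain ⟨b, hbtop, hb, hκb⟩ : ∃ b : ENNReal, b ≠ ⊤ ∧ (∀ p q, pm_Div_S N s p q (B p q) ≤ b) ∧
      κ * b ≤ 2⁻¹ := by
    refine ⟨2 * η + ENNReal.ofReal y * M, ?_, fun p q => ?_, ?_⟩
    · exact ENNReal.add_ne_top.2 ⟨ENNReal.mul_ne_top (by simp) hηtop,
        ENNReal.mul_ne_top ENNReal.ofReal_ne_top hMtop⟩
    · refine (pm_Div_interp hN hs1.le hsE.le hL0 p q (B p q)).trans ?_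
      refine add_le_add ?_ ?_
      · refine mul_le_mul' ?_ (hBE p q)
        have : E - s = δ := by rw [hs]; ring
        rw [this]
        calc ENNReal.ofReal (L ^ δ) ≤ ENNReal.ofReal 2 := ENNReal.ofReal_le_ofReal hδ2
          _ = 2 := by simp
      · refine mul_le_mul' (ENNReal.ofReal_le_ofReal ?_) (hM p q)
        refine le_trans (Real.rpow_le_rpow_of_exponent_le hL1 ?_) hLy
        linarith
    · rw [mul_add]
      calc κ * (2 * η) + κ * (ENNReal.ofReal y * M) ≤ 4⁻¹ + 4⁻¹ := add_le_add hη hy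
        _ = 2⁻¹ := by
          have e4 : (4 : ENNReal)⁻¹ = 2⁻¹ / 2 := by
            rw [div_eq_mul_inv, ← ENNReal.mul_inv (by simp) (by simp)]
            norm_num
          rw [e4, ENNReal.add_halves]
  have hκs : (Fintype.card P : ENNReal) * ENNReal.ofReal (c' ^ (-s)) * b ≤ 2⁻¹ := by
    refine le_trans ?_ hκb
    refine mul_le_mul_left (mul_le_mul_right ?_ _) _
    refine ENNReal.ofReal_le_ofReal ?_
    exact Real.rpow_le_rpow_of_exponent_ge hc' hc1 (by linarith)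
  have hA := pm_Div_A_sum src tgt val hN hc' W hW hlow' (by linarith : (0 : ℝ) ≤ s) B hBW hb hκs
  have hAW := pm_Div_A_sub src tgt val W hW B hBW
  obtain ⟨p, q, hpq⟩ := hdiv s hs1 hsE
  refine absurd hpq ?_
  change pm_Div_S N s p q (W p q) ≠ ⊤
  have hcov : W p q ⊆ (pm_Div_Rem N W R p q ∪ ⋃ k, pm_Div_A B k p q) ∪
      ⋃ k, ⋃ m, Set.image2 (· * ·) (pm_Div_A B k p m) (pm_Div_Rem N W R m q) := by
    intro g hg
    rcases pm_Div_cover src tgt val N W hW R p q g hg with h | ⟨k, h⟩ | ⟨k, m, h⟩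
    · exact Or.inl (Or.inl h)
    · exact Or.inl (Or.inr (Set.mem_iUnion.2 ⟨k, h⟩))
    · exact Or.inr (Set.mem_iUnion.2 ⟨k, Set.mem_iUnion.2 ⟨m, h⟩⟩)
  have hgeo : (∑' k : ℕ, (2⁻¹ : ENNReal) ^ k) ≠ ⊤ := by
    rw [ENNReal.tsum_geometric]
    simp
  refine ne_top_of_le_ne_top ?_ ((pm_Div_mono N s p q hcov).trans (pm_Div_union N s p q _ _))
  refine ENNReal.add_ne_top.2 ⟨ne_top_of_le_ne_top ?_ (pm_Div_union N s p q _ _), ?_⟩
  · refine ENNReal.add_ne_top.2 ⟨hRem s hsE.le p q, ?_⟩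
    refine ne_top_of_le_ne_top ?_ ((pm_Div_iUnion_nat N s p q _).trans
      (ENNReal.tsum_le_tsum fun k => hA k p q))
    rw [ENNReal.tsum_mul_left]
    exact ENNReal.mul_ne_top hbtop hgeo
  · refine ne_top_of_le_ne_top ?_ ((pm_Div_iUnion_nat N s p q _).trans
      (ENNReal.tsum_le_tsum fun k => (pm_Div_iUnion_fin N s p q _).trans
        (Finset.sum_le_sum fun m _ => (pm_Div_mul hN hc' hlow' (by linarith : (0 : ℝ) ≤ s)
          (hAW k p m) (hRemW m q)).trans
          (mul_le_mul_right (mul_le_mul_left (hA k p m) _) _))))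
    have e1 : ∀ k : ℕ, (∑ m : P, ENNReal.ofReal (c' ^ (-s)) * (b * 2⁻¹ ^ k *
        pm_Div_S N s m q (pm_Div_Rem N W R m q))) =
        2⁻¹ ^ k * (∑ m : P, ENNReal.ofReal (c' ^ (-s)) * (b *
        pm_Div_S N s m q (pm_Div_Rem N W R m q))) := by
      intro k
      rw [Finset.mul_sum]
      refine Finset.sum_congr rfl fun m _ => ?_
      ring
    simp_rw [e1]
    rw [ENNReal.tsum_mul_right]
    refine ENNReal.mul_ne_top hgeo ?_
    refine ENNReal.sum_ne_top.2 fun m _ => ?_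
    exact ENNReal.mul_ne_top ENNReal.ofReal_ne_top (ENNReal.mul_ne_top hbtop (hRem s hsE.le m q))

end

end PM3
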