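import Pool.Agent.LibPM3.GoGH

/-! [PM3 GoGI] the Poincaré series of a closed glued group in the frame of an internal port. -/

namespace PM3
open Matrix Filter Topology

noncomputable section

variable {Γ Z Q V : Type} [Group Γ] {ps : PS Γ Z Q} {at_ : Q → V} {G : V → Subgroup Γ} {S : V → Set Q}
  {I : Set Q} {Gn : Subgroup Γ}

theorem pm_GoGI_nrm_J (A : M3) : nrm (J3 * A) = nrm A := by
  simp only [nrm, J3, Fin.sum_univ_three, Matrix.mul_apply, Matrix.of_apply, Matrix.cons_val',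
    Matrix.cons_val_zero, Matrix.cons_val_one, Matrix.cons_val, Matrix.cons_val_fin_one]
  simp only [zero_mul, one_mul, zero_add, add_zero, neg_mul, abs_neg]
  ring

/-- left caps -/
def pm_GoGI_lc (ps : PS Γ Z Q) (p : Q) : Bool → ℤ → Γ
  | false, k => ps.c p ^ k
  | true, k => ps.t p * ps.c (ps.bar p) ^ k

/-- right caps -/
def pm_GoGI_rc (ps : PS Γ Z Q) (p : Q) : Bool → ℤ → Γ
  | false, m => ps.c p ^ m
  | true, m => ps.t (ps.bar p) * ps.c p ^ m

/-- ports of the caps -/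
def pm_GoGI_port (ps : PS Γ Z Q) (p : Q) : Bool → Q
  | false => p
  | true => ps.bar p

/-- diagonals of the left caps -/
def pm_GoGI_ld (ps : PS Γ Z Q) (p : Q) (z : Z) : Bool → ℤ → (Fin 3 → ℝ)
  | false, k => ![Real.exp (-(k * ps.L p)), 1, Real.exp (k * ps.L p)]
  | true, k => ps.Dl p k z

/-- diagonals of the right caps -/
def pm_GoGI_rd (ps : PS Γ Z Q) (p : Q) (z : Z) : Bool → ℤ → (Fin 3 → ℝ)
  | false, m => ![Real.exp (m * ps.L p), 1, Real.exp (-(m * ps.L p))]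
  | true, m => ps.Dl (ps.bar p) m z

/-- `1` or `J3` -/
def pm_GoGI_U : Bool → M3
  | false => 1
  | true => J3

theorem pm_GoGI_nrm_U (b b' : Bool) (A : M3) : nrm (pm_GoGI_U b * A * pm_GoGI_U b') = nrm A := by
  cases b <;> cases b' <;>
    simp only [pm_GoGI_U, one_mul, mul_one, pm_GoGI_nrm_J, pm_GoGD3_nrm_J]

theorem pm_GoGI_Cd_neg (L : ℝ) (m : ℤ) :
    Cd L (-m) = diagonal ![Real.exp (m * L), 1, Real.exp (-(m * L))] := by
  unfold Cd
  congr 1
  push_cast
  rw [neg_mul, neg_neg]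

theorem pm_GoGI_left (ps : PS Γ Z Q) (p q : Q) (z : Z) (b : Bool) (k : ℤ) (g : Γ) :
    ps.TT z p (pm_GoGI_lc ps p b k * g) q =
      pm_GoGI_U b * diagonal (pm_GoGI_ld ps p z b k) * ps.TT z (pm_GoGI_port ps p b) g q := by
  cases b with
  | false =>
    have h := TT_c ps z p q g k 0
    rw [zpow_zero, mul_one, neg_zero, pm_GoGD1_Cd_zero, mul_one] at h
    simp only [pm_GoGI_lc, pm_GoGI_U, pm_GoGI_ld, pm_GoGI_port, one_mul]
    exact h
  | true =>
    simp only [pm_GoGI_lc, pm_GoGI_U, pm_GoGI_ld, pm_GoGI_port]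
    have h1 : ps.t p * ps.c (ps.bar p) ^ k * g = 1 * ps.t p * (ps.c (ps.bar p) ^ k * g) := by
      group
    have h := TT_c ps z (ps.bar p) q g k 0
    rw [zpow_zero, mul_one, neg_zero, pm_GoGD1_Cd_zero, mul_one, ps.L_bar] at h
    rw [h1, TT_cross, pm_GoGC1_TT_one, h, ← pm_GoGC1_D0_Cd]
    simp only [mul_assoc]

theorem pm_GoGI_right (ps : PS Γ Z Q) (a p : Q) (z : Z) (b : Bool) (m : ℤ) (g : Γ) :
    ps.TT z a (g * pm_GoGI_rc ps p b m) p =
      ps.TT z a g (pm_GoGI_port ps p b) * diagonal (pm_GoGI_rd ps p z b m) * pm_GoGI_U b := by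
  cases b with
  | false =>
    have h := TT_c ps z a p g 0 m
    rw [zpow_zero, one_mul, pm_GoGD1_Cd_zero, one_mul, pm_GoGI_Cd_neg] at h
    simp only [pm_GoGI_rc, pm_GoGI_U, pm_GoGI_rd, pm_GoGI_port, mul_one]
    exact h
  | true =>
    simp only [pm_GoGI_rc, pm_GoGI_U, pm_GoGI_rd, pm_GoGI_port]
    have h := TT_c ps z p p 1 m 0
    rw [zpow_zero, mul_one, mul_one, neg_zero, pm_GoGD1_Cd_zero, mul_one, pm_GoGC1_TT_one] at h
    rw [← mul_assoc g, TT_cross, ps.bar_bar, h, ← pm_GoGC1_D0_Cd, ps.L_bar]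
    simp only [mul_assoc]

/-- entries of a product with two diagonals -/
theorem pm_GoGI_low {dl dr : Fin 3 → ℝ} (hl : ∀ i, 0 ≤ dl i) (hr : ∀ i, 0 ≤ dr i) {A : M3} {c : ℝ}
    (_hc : 0 ≤ c) (hcA : ∀ i j, c ≤ A i j) :
    mxd dl * c * mxd dr ≤ nrm (diagonal dl * A * diagonal dr) := by
  have hmx : ∀ d : Fin 3 → ℝ, ∃ i, mxd d = d i := by
    intro d
    unfold mxd
    rcases max_choice (d 0) (max (d 1) (d 2)) with h | h
    · exact ⟨0, h⟩
    · rcases max_choice (d 1) (d 2) with h' | h'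
      · exact ⟨1, h.trans h'⟩
      · exact ⟨2, h.trans h'⟩
  obtain ⟨i, hi⟩ := hmx dl
  obtain ⟨j, hj⟩ := hmx dr
  have h1 : (diagonal dl * A * diagonal dr) i j ≤ nrm (diagonal dl * A * diagonal dr) := by
    refine (le_abs_self _).trans ?_
    refine (Finset.single_le_sum (f := fun j => |(diagonal dl * A * diagonal dr) i j|)
      (fun j _ => abs_nonneg _) (Finset.mem_univ j)).trans ?_
    exact Finset.single_le_sum (f := fun i => ∑ j, |(diagonal dl * A * diagonal dr) i j|)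
      (fun i _ => Finset.sum_nonneg fun j _ => abs_nonneg _) (Finset.mem_univ i)
  refine le_trans ?_ h1
  rw [Matrix.mul_diagonal, Matrix.diagonal_mul, hi, hj]
  exact mul_le_mul_of_nonneg_right (mul_le_mul_of_nonneg_left (hcA i j) (hl i)) (hr j)

theorem pm_GoGI_ld_pos (ps : PS Γ Z Q) (p : Q) (z : Z) (b : Bool) (k : ℤ) (i : Fin 3) :
    0 < pm_GoGI_ld ps p z b k i := by
  cases b with
  | false =>
    simp only [pm_GoGI_ld]
    fin_cases i
    · simpa using Real.exp_pos _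
    · simp
    · simpa using Real.exp_pos _
  | true => exact (Dl_pos ps p k z).1 i

theorem pm_GoGI_rd_pos (ps : PS Γ Z Q) (p : Q) (z : Z) (b : Bool) (k : ℤ) (i : Fin 3) :
    0 < pm_GoGI_rd ps p z b k i := by
  cases b with
  | false =>
    simp only [pm_GoGI_rd]
    fin_cases i
    · simpa using Real.exp_pos _
    · simp
    · simpa using Real.exp_pos _
  | true => exact (Dl_pos ps (ps.bar p) k z).1 i

theorem pm_GoGI_mxd_pos {d : Fin 3 → ℝ} (h : ∀ i, 0 < d i) : 0 < mxd d :=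
  lt_of_lt_of_le (h 0) (le_max_left _ _)

theorem pm_GoGI_exp_l (L : ℝ) (k : ℤ) :
    Real.exp (|(k : ℝ)| * L) ≤ mxd ![Real.exp (-(k * L)), 1, Real.exp (k * L)] := by
  unfold mxd
  simp only [Matrix.cons_val_zero, Matrix.cons_val_one, Matrix.cons_val]
  rcases le_total 0 (k : ℝ) with h | h
  · rw [abs_of_nonneg h]
    exact le_max_of_le_right (le_max_right _ _)
  · rw [abs_of_nonpos h, neg_mul]
    exact le_max_left _ _

theorem pm_GoGI_exp_r (L : ℝ) (k : ℤ) :
    Real.exp (|(k : ℝ)| * L) ≤ mxd ![Real.exp (k * L), 1, Real.exp (-(k * L))] := by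
  unfold mxd
  simp only [Matrix.cons_val_zero, Matrix.cons_val_one, Matrix.cons_val]
  rcases le_total 0 (k : ℝ) with h | h
  · rw [abs_of_nonneg h]
    exact le_max_left _ _
  · rw [abs_of_nonpos h, neg_mul]
    exact le_max_of_le_right (le_max_right _ _)

/-- `ps.c e ^ m * ps.t e = ps.t e * ps.c (ps.bar e) ^ (-m)` -/
theorem pm_GoGI_ct (ps : PS Γ Z Q) (e : Q) (m : ℤ) :
    ps.c e ^ m * ps.t e = ps.t e * ps.c (ps.bar e) ^ (-m) := pm_GoGC2_tc ps e m

/-- decomposition of a reduced path which ends at the vertex of the internal port `p` -/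
theorem pm_GoGI_path (H : GH ps at_ G S I Gn) {K κ : ℝ} {Λ : Set Q}
    (hV : ∀ v, VC ps K κ Λ (G v) (S v)) {p : Q} (hp : p ∈ I) {v w : V} {l : List (Γ × Q)} {gl : Γ}
    (hpath : IsPath ps at_ G I v l gl w) :
    w = at_ p → ps.Red l → ∀ a ∈ S v, ps.c a ∈ G v →
      (l = [] → ¬ (a = p ∧ gl ∈ Subgroup.zpowers (ps.c a))) →
      (∀ x l', l = x :: l' → ¬ (a = x.2 ∧ x.1 ∈ Subgroup.zpowers (ps.c a))) →
      ∃ (k : ℤ) (rb : Bool) (m : ℤ) (n : ℕ) (g0 : Γ),
        ps.pval l * gl = ps.c a ^ k * g0 * pm_GoGI_rc ps p rb m ∧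
        g0 ∈ pm_GoGD2_NP ps at_ G I K κ Λ (pm_GoGI_port ps p rb) n a := by
  induction hpath with
  | @nil v g hg =>
    intro hw _ a ha hca h0 _
    have hat : at_ a = v := H.hS v a ha
    have hp' : p ∈ S v := by rw [hw]; exact (H.hI p hp).2
    obtain ⟨k, m, g', hgg, hN⟩ := exists_nrm (hV v) ha hp' hg (h0 rfl)
    have hg' : g' ∈ G v := by
      have h1 : g' = ps.c a ^ (-k) * g * ps.c p ^ (-m) := by rw [hgg]; group
      rw [h1]
      refine (G v).mul_mem ((G v).mul_mem ((G v).zpow_mem hca _) hg) ((G v).zpow_mem ?_ _)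
      rw [hw]
      exact H.hc p hp
    refine ⟨k, false, m, 0, g', ?_, ?_⟩
    · simpa [PS.pval, pm_GoGI_rc] using hgg
    · exact ⟨by rw [hat, hw]; rfl, by rw [hat]; exact hg', hN⟩
  | @cons v w g gl e l hg he hat hp' ih =>
    intro hw hred a ha hca _ h1
    have hata : at_ a = v := H.hS v a ha
    have he' : e ∈ S v := by rw [← hat]; exact (H.hI e he).2
    obtain ⟨k, m, g1, hgg, hN⟩ := exists_nrm (hV v) ha he' hg (h1 _ _ rfl)
    have hce : ps.c e ∈ G v := by rw [← hat]; exact H.hc e he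
    have hg1 : g1 ∈ G v := by
      have h2 : g1 = ps.c a ^ (-k) * g * ps.c e ^ (-m) := by rw [hgg]; group
      rw [h2]
      exact (G v).mul_mem ((G v).mul_mem ((G v).zpow_mem hca _) hg) ((G v).zpow_mem hce _)
    have hbI : ps.bar e ∈ I := (H.hI e he).1
    have h8 : ps.pval ((g, e) :: l) * gl = g * ps.t e * (ps.pval l * gl) := by
      simp [PS.pval, mul_assoc]
    have h4 := pm_GoGI_ct ps e m
    by_cases hd : l = [] ∧ ps.bar e = p ∧ gl ∈ Subgroup.zpowers (ps.c (ps.bar e))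
    · obtain ⟨rfl, hbe, hgl⟩ := hd
      obtain ⟨j, hj⟩ := Subgroup.mem_zpowers_iff.1 hgl
      have he2 : ps.bar p = e := by rw [← hbe, ps.bar_bar]
      refine ⟨k, true, -m + j, 0, g1, ?_, ?_⟩
      · rw [h8, hgg]
        simp only [pm_GoGI_rc]
        rw [he2, ← hbe, ← hj]
        have h9 : ps.pval ([] : List (Γ × Q)) = 1 := by simp [PS.pval]
        rw [h9, one_mul, _root_.zpow_add]
        calc ps.c a ^ k * g1 * ps.c e ^ m * ps.t e * ps.c (ps.bar e) ^ j
            = ps.c a ^ k * g1 * (ps.c e ^ m * ps.t e) * ps.c (ps.bar e) ^ j := by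
              simp only [mul_assoc]
          _ = _ := by rw [h4]; simp only [mul_assoc]
      · refine ⟨?_, by rw [hata]; exact hg1, ?_⟩
        · show at_ a = at_ (ps.bar p)
          rw [he2, hat, hata]
        · show Nrm ps K κ Λ a g1 (ps.bar p)
          rw [he2]
          exact hN
    · have hred' : ps.Red l := by
        cases l with
        | nil => exact List.isChain_nil
        | cons y l' => exact (List.isChain_cons_cons.1 hred).2
      obtain ⟨k', rb, m', n, g2, hgg2, hg2⟩ := ih hw hred' (ps.bar e) (H.hI _ hbI).2 (H.hc _ hbI)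
        (fun hl hc => hd ⟨hl, hc.1, hc.2⟩) (by
          rintro y l' rfl ⟨hy1, hy2⟩
          have h3 : ps.NB (g, e) y := (List.isChain_cons_cons.1 hred).1
          exact h3 hy1.symm hy2)
      refine ⟨k, rb, m', n + 1, g1 * ps.t e * ps.c (ps.bar e) ^ (-m + k') * g2, ?_, ?_⟩
      · rw [h8, hgg2, hgg]
        calc ps.c a ^ k * g1 * ps.c e ^ m * ps.t e *
              (ps.c (ps.bar e) ^ k' * g2 * pm_GoGI_rc ps p rb m')
            = ps.c a ^ k * g1 * (ps.c e ^ m * ps.t e) *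
                (ps.c (ps.bar e) ^ k' * g2 * pm_GoGI_rc ps p rb m') := by simp only [mul_assoc]
          _ = ps.c a ^ k * g1 * (ps.t e * ps.c (ps.bar e) ^ (-m)) *
                (ps.c (ps.bar e) ^ k' * g2 * pm_GoGI_rc ps p rb m') := by rw [h4]
          _ = _ := by rw [_root_.zpow_add]; simp only [mul_assoc]
      · exact ⟨e, he, by rw [hat, hata], g1, by rw [hata]; exact hg1, hN, -m + k', g2, hg2, rfl⟩

/-- decomposition of an element of the glued group -/
theorem pm_GoGI_decomp (H : GH ps at_ G S I Gn) {K κ : ℝ} {Λ : Set Q}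
    (hV : ∀ v, VC ps K κ Λ (G v) (S v)) {p : Q} (hp : p ∈ I) {g : Γ} (hg : g ∈ Gn) :
    (∃ k : ℤ, g = ps.c p ^ k) ∨ ∃ (lb : Bool) (k : ℤ) (rb : Bool) (m : ℤ) (n : ℕ) (g0 : Γ),
      g = pm_GoGI_lc ps p lb k * g0 * pm_GoGI_rc ps p rb m ∧
      g0 ∈ pm_GoGD2_NP ps at_ G I K κ Λ (pm_GoGI_port ps p rb) n (pm_GoGI_port ps p lb) := by
  obtain ⟨l0, gl0, hl0, hv0⟩ := paths_exist H (at_ p) (at_ p) hg
  obtain ⟨l, gl, hl, hred, hv, _⟩ := reduce H hl0
  have hgv : ps.pval l * gl = g := by rw [hv, hv0]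
  by_cases h1 : l = [] ∧ gl ∈ Subgroup.zpowers (ps.c p)
  · obtain ⟨rfl, hgl⟩ := h1
    obtain ⟨k, hk⟩ := Subgroup.mem_zpowers_iff.1 hgl
    refine Or.inl ⟨k, ?_⟩
    rw [← hgv, hk]
    simp [PS.pval]
  right
  by_cases h2 : ∃ x l', l = x :: l' ∧ p = x.2 ∧ x.1 ∈ Subgroup.zpowers (ps.c p)
  · obtain ⟨⟨x1, x2⟩, l', rfl, hx2, hx1⟩ := h2
    simp only at hx2 hx1
    subst hx2
    obtain ⟨k, rfl⟩ := Subgroup.mem_zpowers_iff.1 hx1
    cases hl with
    | cons _ he hat htail =>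
      have hred' : ps.Red l' := by
        cases l' with
        | nil => exact List.isChain_nil
        | cons y l' => exact (List.isChain_cons_cons.1 hred).2
      have hbI : ps.bar p ∈ I := (H.hI p hp).1
      obtain ⟨k', rb, m, n, g0, hgg, hg0⟩ := pm_GoGI_path H hV hp htail rfl hred' (ps.bar p)
        (H.hI _ hbI).2 (H.hc _ hbI) (fun _ hc => ps.bar_ne p hc.1) (by
          rintro y l'' rfl ⟨hy1, hy2⟩
          have h3 := (List.isChain_cons_cons.1 hred).1
          exact h3 hy1.symm hy2)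
      refine ⟨true, -k + k', rb, m, n, g0, ?_, hg0⟩
      have h8 : ps.pval ((ps.c p ^ k, p) :: l') * gl = ps.c p ^ k * ps.t p * (ps.pval l' * gl) := by
        simp [PS.pval, mul_assoc]
      rw [← hgv, h8, hgg, pm_GoGI_ct]
      simp only [pm_GoGI_lc]
      rw [_root_.zpow_add]
      simp only [mul_assoc]
  · obtain ⟨k, rb, m, n, g0, hgg, hg0⟩ := pm_GoGI_path H hV hp hl rfl hred p
      (H.hI p hp).2 (H.hc p hp) (fun h3 hc => h1 ⟨h3, hc.2⟩)
      (fun x l' h3 hc => h2 ⟨x, l', h3, hc.1, hc.2⟩)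
    exact ⟨false, k, rb, m, n, g0, by rw [← hgv, hgg]; rfl, hg0⟩

theorem poin_glue (H : GH ps at_ G S I Gn) {K κ : ℝ} (hκ : 0 ≤ κ) {Λ : Set Q} (hΛ : I ⊆ Λ)
    (hV : ∀ v, VC ps K κ Λ (G v) (S v)) (hI : I.Finite) {A δ s : ℝ} (hs : 0 < s)
    (hA : 0 ≤ A) (hδ : 0 ≤ δ) (z : Z)
    (hZ : ∀ v, ∀ p ∈ S v, ∀ q ∈ S v, Zs ps K κ Λ (G v) z s p q ≤ ENNReal.ofReal A)
    (hX : ∀ e ∈ I, Xs ps z s e ≤ ENNReal.ofReal δ) (hsm : I.ncard * A * δ ≤ 1 / 2)
    {p : Q} (hp : p ∈ I) :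
    ∑' g : Gn, ENNReal.ofReal ((ps.N p z g) ^ (-s)) < ⊤ := by
  classical
  have hL := ps.L_pos p
  have hbI : ps.bar p ∈ I := (H.hI p hp).1
  let X : Bool × Bool → Type := fun b =>
    (ℤ × ℤ) × (Σ n : ℕ, {g // g ∈ pm_GoGD2_NP ps at_ G I K κ Λ (pm_GoGI_port ps p b.2) n
      (pm_GoGI_port ps p b.1)})
  let T : Type := ℤ ⊕ (Σ b : Bool × Bool, X b)
  let dec : T → Γ := Sum.elim (fun k => ps.c p ^ k)
    (fun x => pm_GoGI_lc ps p x.1.1 x.2.1.1 * x.2.2.2.1 * pm_GoGI_rc ps p x.1.2 x.2.1.2)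
  let wl : Bool → ℤ → ENNReal := fun b k => ENNReal.ofReal ((mxd (pm_GoGI_ld ps p z b k)) ^ (-s))
  let wr : Bool → ℤ → ENNReal := fun b k => ENNReal.ofReal ((mxd (pm_GoGI_rd ps p z b k)) ^ (-s))
  let F2 : (b : Bool × Bool) → X b → ENNReal := fun b x =>
    wl b.1 x.1.1 * wr b.2 x.1.2 * ENNReal.ofReal ((mn (ps.TT z (pm_GoGI_port ps p b.1) x.2.2.1
      (pm_GoGI_port ps p b.2))) ^ (-s))
  let F : T → ENNReal := Sum.elim (fun k => ENNReal.ofReal (Real.exp (-(s * ps.L p * |(k : ℝ)|))))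
    (fun x => F2 x.1 x.2)
  have hcode : ∀ g : Gn, ∃ x : T, dec x = g ∧ ENNReal.ofReal ((ps.N p z g) ^ (-s)) ≤ F x := by
    rintro ⟨g, hg⟩
    rcases pm_GoGI_decomp H hV hp hg with ⟨k, hk⟩ | ⟨lb, k, rb, m, n, g0, hgg, hg0⟩
    · refine ⟨Sum.inl k, hk.symm, ?_⟩
      simp only [F, Sum.elim_inl]
      apply ENNReal.ofReal_le_ofReal
      have h1 : ps.N p z g = nrm (Cd (ps.L p) k) := by
        have h2 := TT_c ps z p p 1 k 0
        rw [zpow_zero, mul_one, mul_one, neg_zero, pm_GoGD1_Cd_zero, mul_one, pm_GoGC1_TT_one] at h2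
        rw [pm_GoGD3_N, hk, h2, pm_GoGD3_nrm_J]
      have h6 : Real.exp (|(k : ℝ)| * ps.L p) ≤ nrm (Cd (ps.L p) k) := by
        have h7 : nrm (Cd (ps.L p) k) = Real.exp (-(k * ps.L p)) + 1 + Real.exp (k * ps.L p) := by
          simp [nrm, Cd, Fin.sum_univ_three, Matrix.diagonal, abs_of_pos, Real.exp_pos]
        rw [h7]
        have h8 := Real.exp_pos (-(k * ps.L p))
        have h9 := Real.exp_pos (k * ps.L p)
        rcases le_total 0 (k : ℝ) with h | h
        · rw [abs_of_nonneg h]; linarith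
        · rw [abs_of_nonpos h, neg_mul]; linarith
      rw [h1]
      refine (Real.rpow_le_rpow_of_nonpos (Real.exp_pos _) h6 (by linarith)).trans (le_of_eq ?_)
      rw [← Real.exp_mul]
      congr 1
      ring
    · refine ⟨Sum.inr ⟨(lb, rb), ((k, m), ⟨n, ⟨g0, hg0⟩⟩)⟩, hgg.symm, ?_⟩
      simp only [F, Sum.elim_inr, F2, wl, wr]
      have hN := pm_GoGD2_NP_nrm hΛ _ _ _ hg0
      obtain ⟨w, hw, hT⟩ := hN
      have hB := Word.bal hκ hw ps z
      rw [← hT z] at hB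
      have hm := hB.mn_pos
      have hl := pm_GoGI_mxd_pos (pm_GoGI_ld_pos ps p z lb k)
      have hr := pm_GoGI_mxd_pos (pm_GoGI_rd_pos ps p z rb m)
      rw [← ENNReal.ofReal_mul (by positivity), ← ENNReal.ofReal_mul (by positivity),
        ← Real.mul_rpow hl.le hr.le, ← Real.mul_rpow (by positivity) hm.le]
      apply ENNReal.ofReal_le_ofReal
      refine Real.rpow_le_rpow_of_nonpos (by positivity) ?_ (by linarith)
      rw [pm_GoGD3_N, hgg, mul_assoc (pm_GoGI_lc ps p lb k), pm_GoGI_left, pm_GoGI_right]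
      have h1 := pm_GoGI_nrm_U lb rb (diagonal (pm_GoGI_ld ps p z lb k) *
        ps.TT z (pm_GoGI_port ps p lb) g0 (pm_GoGI_port ps p rb) *
        diagonal (pm_GoGI_rd ps p z rb m))
      have h2 := pm_GoGI_low (fun i => (pm_GoGI_ld_pos ps p z lb k i).le)
        (fun i => (pm_GoGI_rd_pos ps p z rb m i).le) hm.le (fun i j => mn_le
          (ps.TT z (pm_GoGI_port ps p lb) g0 (pm_GoGI_port ps p rb)) i j)
      rw [← h1] at h2
      calc mxd (pm_GoGI_ld ps p z lb k) * mxd (pm_GoGI_rd ps p z rb m) *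
            mn (ps.TT z (pm_GoGI_port ps p lb) g0 (pm_GoGI_port ps p rb))
          = mxd (pm_GoGI_ld ps p z lb k) *
            mn (ps.TT z (pm_GoGI_port ps p lb) g0 (pm_GoGI_port ps p rb)) *
            mxd (pm_GoGI_rd ps p z rb m) := by ring
        _ ≤ _ := h2
        _ = _ := by simp only [mul_assoc]
  choose code hdec hle using hcode
  have hinj : Function.Injective code := by
    intro x y hxy
    apply Subtype.ext
    rw [← hdec x, ← hdec y, hxy]
  refine ((ENNReal.tsum_le_tsum hle).trans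
    (ENNReal.tsum_comp_le_tsum_of_injective hinj F)).trans_lt ?_
  have hexp : ∑' k : ℤ, ENNReal.ofReal (Real.exp (-(s * ps.L p * |(k : ℝ)|))) < ⊤ :=
    (pm_GoGD3_geom (mul_pos hs hL)).trans_lt ENNReal.ofReal_lt_top
  have hcap : ∀ (f : ℤ → ℝ), (∀ k : ℤ, Real.exp (|(k : ℝ)| * ps.L p) ≤ f k) →
      ∑' k : ℤ, ENNReal.ofReal ((f k) ^ (-s)) < ⊤ := by
    intro f hf
    refine (ENNReal.tsum_le_tsum fun k => ENNReal.ofReal_le_ofReal ?_).trans_lt hexp
    refine (Real.rpow_le_rpow_of_nonpos (Real.exp_pos _) (hf k) (by linarith)).trans (le_of_eq ?_)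
    rw [← Real.exp_mul]
    congr 1
    ring
  have hwl : ∀ b, ∑' k, wl b k < ⊤ := by
    intro b
    cases b with
    | false => exact hcap _ fun k => pm_GoGI_exp_l _ k
    | true => exact (hX p hp).trans_lt ENNReal.ofReal_lt_top
  have hwr : ∀ b, ∑' k, wr b k < ⊤ := by
    intro b
    cases b with
    | false => exact hcap _ fun k => pm_GoGI_exp_r _ k
    | true => exact (hX _ hbI).trans_lt ENNReal.ofReal_lt_top
  have hport : ∀ b, ∃ e ∈ I, ps.bar e = pm_GoGI_port ps p b := by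
    intro b
    cases b with
    | false => exact ⟨ps.bar p, hbI, ps.bar_bar p⟩
    | true => exact ⟨p, hp, rfl⟩
  have hportI : ∀ b, pm_GoGI_port ps p b ∈ I := by
    intro b
    cases b with
    | false => exact hp
    | true => exact hbI
  have hmid : ∀ b : Bool × Bool, ∑' x : (Σ n : ℕ, {g // g ∈ pm_GoGD2_NP ps at_ G I K κ Λ
      (pm_GoGI_port ps p b.2) n (pm_GoGI_port ps p b.1)}),
      ENNReal.ofReal ((mn (ps.TT z (pm_GoGI_port ps p b.1) x.2.1
        (pm_GoGI_port ps p b.2))) ^ (-s)) < ⊤ := by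
    rintro ⟨lb, rb⟩
    simp only
    rw [ENNReal.tsum_sigma']
    obtain ⟨e, he, hbe⟩ := hport lb
    have hx0 : (0 : ℝ) ≤ I.ncard * A * δ := by positivity
    have h1 : ∀ n : ℕ, ∑' g : {g // g ∈ pm_GoGD2_NP ps at_ G I K κ Λ
        (pm_GoGI_port ps p rb) n (pm_GoGI_port ps p lb)},
        ENNReal.ofReal ((mn (ps.TT z (pm_GoGI_port ps p lb) g.1
          (pm_GoGI_port ps p rb))) ^ (-s)) ≤ ENNReal.ofReal ((1 / 2 : ℝ) ^ n * A) := by
      intro n
      have h2 := pm_GoGD2_sum H hκ hΛ hI (fun _ => (0 : ℝ)) (fun _ _ => rfl) (A := A) (Ai := A)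
        hs.le hA hA hδ z (fun v p hp q hq => by simpa using hZ v p hp q hq)
        (fun e he e' he' hat => by
          have h3 := hZ (at_ e') (ps.bar e) (by rw [hat]; exact (H.hI _ (H.hI e he).1).2) e'
            (H.hI e' he').2
          simpa using h3) hX (q := pm_GoGI_port ps p rb) (H.hI _ (hportI rb)).2 n e he
      rw [hbe] at h2
      refine h2.trans (ENNReal.ofReal_le_ofReal ?_)
      rw [sub_self, mul_zero, Real.exp_zero, mul_one]
      exact mul_le_mul_of_nonneg_right (pow_le_pow_left₀ hx0 hsm n) hA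
    refine (ENNReal.tsum_le_tsum h1).trans_lt ?_
    have h14 : HasSum (fun n : ℕ => (1 / 2 : ℝ) ^ n * A) (2 * A) := hasSum_geometric_two.mul_right _
    rw [← ENNReal.ofReal_tsum_of_nonneg (fun n => by positivity) h14.summable]
    exact ENNReal.ofReal_lt_top
  have hF2 : ∀ b, ∑' x : X b, F2 b x < ⊤ := by
    intro b
    have h1 : ∑' x : X b, F2 b x = (∑' k, wl b.1 k) * (∑' m, wr b.2 m) *
        ∑' x : (Σ n : ℕ, {g // g ∈ pm_GoGD2_NP ps at_ G I K κ Λ
          (pm_GoGI_port ps p b.2) n (pm_GoGI_port ps p b.1)}),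
          ENNReal.ofReal ((mn (ps.TT z (pm_GoGI_port ps p b.1) x.2.1
            (pm_GoGI_port ps p b.2))) ^ (-s)) := by
      simp only [F2, X]
      rw [ENNReal.tsum_prod']
      simp_rw [ENNReal.tsum_mul_left]
      rw [ENNReal.tsum_mul_right, ENNReal.tsum_prod']
      simp_rw [ENNReal.tsum_mul_left]
      rw [ENNReal.tsum_mul_right]
    rw [h1]
    exact ENNReal.mul_lt_top (ENNReal.mul_lt_top (hwl _) (hwr _)) (hmid b)
  rw [Summable.tsum_sum ENNReal.summable ENNReal.summable]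
  simp only [F, Sum.elim_inl, Sum.elim_inr]
  refine ENNReal.add_lt_top.2 ⟨hexp, ?_⟩
  rw [ENNReal.tsum_sigma', tsum_fintype]
  exact ENNReal.sum_lt_top.2 fun b _ => hF2 b

end

end PM3
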