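import Pool.Agent.LibPM3.CompI
import Pool.Agent.LibPM3.Div
import Pool.Agent.LibPM3.GoGI

/-! The handle group and its exponents. -/

namespace PM3
open Matrix Filter Topology
open scoped MatrixGroups

noncomputable section

/-- the free group on `p = of false`, `r = of true` -/
abbrev F2 : Type := FreeGroup Bool

def gp : F2 := FreeGroup.of false
def gr : F2 := FreeGroup.of true

theorem pm_HD1_com (X Y : SL(2, ℝ)) : ((com X Y : SL(2, ℝ)) : M2) =
    (X : M2) * (Y : M2) * (X : M2)⁻¹ * (Y : M2)⁻¹ := by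
  have e : ∀ Z : SL(2, ℝ), ((Z⁻¹ : SL(2, ℝ)) : M2) = (Z : M2)⁻¹ := by
    intro Z
    rw [Matrix.SpecialLinearGroup.coe_inv, Matrix.inv_def, Z.2]
    simp
  simp only [com, Matrix.SpecialLinearGroup.coe_mul, e]

/-- the Fuchsian representation of the surface group -/
theorem exists_fuchs (B : Base) : ∃ φ : Surf →* SL(2, ℝ),
    (∀ i, (φ (sx i) : M2) = B.X i) ∧ (∀ i, (φ (sy i) : M2) = B.Y i) := by
  have hc : ∀ i : Fin 3, ((com (⟨B.X i, B.X_det i⟩ : SL(2, ℝ)) (⟨B.Y i, B.Y_det i⟩ : SL(2, ℝ)) :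
      SL(2, ℝ)) : M2) = B.R (l0 i) * B.R (l2 i) := by
    intro i
    rw [pm_HD1_com]
    exact B.com_XY i
  obtain ⟨φ, h1, h2⟩ := surf_lift (G := SL(2, ℝ)) (fun i => ⟨B.X i, B.X_det i⟩)
    (fun i => ⟨B.Y i, B.Y_det i⟩) (by
      apply Subtype.ext
      rw [Matrix.SpecialLinearGroup.coe_mul, Matrix.SpecialLinearGroup.coe_mul, hc 0, hc 1, hc 2]
      have e0 : l0 0 = 0 := rfl
      have e1 : l0 1 = 2 := rfl
      have e2 : l0 2 = 4 := rfl
      have f0 : l2 0 = 2 := rfl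
      have f1 : l2 1 = 4 := rfl
      have f2 : l2 2 = 0 := rfl
      rw [e0, e1, e2, f0, f1, f2]
      have g : B.R 0 * B.R 2 * (B.R 2 * B.R 4) * (B.R 4 * B.R 0) =
        B.R 0 * ((B.R 2 * B.R 2) * ((B.R 4 * B.R 4) * B.R 0)) := by
        simp only [Matrix.mul_assoc]
      rw [g, B.R_sq 2, B.R_sq 4, Matrix.one_mul, Matrix.one_mul, B.R_sq 0]
      rfl)
  refine ⟨φ, ?_, ?_⟩
  · intro i
    rw [h1 i]
  · intro i
    rw [h2 i]

namespace Base
variable (B : Base)

def rhoS : Surf →* SL(2, ℝ) := (exists_fuchs B).choose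

theorem rhoS_x (i : Fin 3) : (B.rhoS (sx i) : M2) = B.X i := (exists_fuchs B).choose_spec.1 i
theorem rhoS_y (i : Fin 3) : (B.rhoS (sy i) : M2) = B.Y i := (exists_fuchs B).choose_spec.2 i

theorem hX_det (i : Fin 3) : (B.hX i).det = 1 := by
  rw [hX, symMat_det, B.X_det, one_pow]

theorem pm_HD1_cj_det (f : M2) (hf : f.det = 1) (d : Fin 3 → ℝ) : (cj f d).det = d 0 * d 1 * d 2 := by
  unfold cj
  have h1 : (symMat f).det = 1 := by rw [symMat_det, hf, one_pow]
  rw [Matrix.det_mul, Matrix.det_mul, Matrix.det_nonsing_inv, h1, Matrix.det_diagonal,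
    Fin.prod_univ_three]
  simp

theorem hY_det (i : Fin 3) (a th : ℝ) : (B.hY i a th).det = 1 := by
  unfold hY Dm
  rw [Matrix.det_mul, pm_HD1_cj_det _ (B.fp_det i), symMat_det, B.Y_det, one_pow, one_mul]
  simp only [dgv, Matrix.cons_val_zero, Matrix.cons_val_one, Matrix.cons_val]
  rw [← Real.exp_add, ← Real.exp_add, ← Real.exp_zero]
  congr 1
  ring

def slH (a th : ℝ) (c : Bool) : SL(3, ℝ) :=
  if c then ⟨B.hY 0 a th, B.hY_det 0 a th⟩ else ⟨B.hX 0, B.hX_det 0⟩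

/-- the handle representation -/
def Hr (a th : ℝ) : F2 →* SL(3, ℝ) := FreeGroup.lift (B.slH a th)

/-- the size in the frame of the boundary -/
def NH (a th : ℝ) (g : F2) : ℝ :=
  nrm ((symMat (B.fd 0 * J2))⁻¹ * (B.Hr a th g : M3) * symMat (B.fd 0 * J2))

/-- exponent of the handle -/
def EH (a th : ℝ) : ℝ := expo (⊤ : Subgroup F2) (B.NH a th)

/-- the Fuchsian representation of the handle -/
def rhoF : F2 →* SL(2, ℝ) := FreeGroup.lift (fun c => if c then B.rhoS (sy 0) else B.rhoS (sx 0))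

end Base

/-- embedding of the free group as the handle group `B_i`; the mirrored type exchanges `x` and `y` -/
def phi (b : Bool) (i : Fin 3) : F2 →* Surf :=
  FreeGroup.lift (fun c => if c then (if b then sx i else sy i) else (if b then sy i else sx i))

theorem pm_HD1_left (b : Bool) (i : Fin 3) : ∃ ψ : Surf →* F2, ψ.comp (phi b i) = MonoidHom.id F2 := by
  have key : ∀ p r : F2, ∃ ψ : Surf →* F2, ψ (sx i) = p ∧ ψ (sy i) = r := by
    intro p r
    have h0 : com p r * com r p * com (1 : F2) (1 : F2) = 1 := by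
      simp only [com]; group
    have h1 : com (1 : F2) (1 : F2) * com p r * com r p = 1 := by
      simp only [com]; group
    have h2 : com r p * com (1 : F2) (1 : F2) * com p r = 1 := by
      simp only [com]; group
    fin_cases i
    · obtain ⟨ψ, h3, h4⟩ := surf_lift (G := F2) ![p, r, 1] ![r, p, 1] h0
      exact ⟨ψ, h3 0, h4 0⟩
    · obtain ⟨ψ, h3, h4⟩ := surf_lift (G := F2) ![1, p, r] ![1, r, p] h1
      exact ⟨ψ, h3 1, h4 1⟩
    · obtain ⟨ψ, h3, h4⟩ := surf_lift (G := F2) ![r, 1, p] ![p, 1, r] h2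
      exact ⟨ψ, h3 2, h4 2⟩
  cases b with
  | false =>
    obtain ⟨ψ, h1, h2⟩ := key gp gr
    refine ⟨ψ, ?_⟩
    ext c
    cases c
    · simp [phi, h1, gp]
    · simp [phi, h2, gr]
  | true =>
    obtain ⟨ψ, h1, h2⟩ := key gr gp
    refine ⟨ψ, ?_⟩
    ext c
    cases c
    · simp [phi, h2, gp]
    · simp [phi, h1, gr]

theorem phi_inj (b : Bool) (i : Fin 3) : Function.Injective (phi b i) := by
  obtain ⟨ψ, hψ⟩ := pm_HD1_left b i
  intro x y hxy
  have h1 := DFunLike.congr_fun hψ x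
  have h2 := DFunLike.congr_fun hψ y
  simp only [MonoidHom.comp_apply, MonoidHom.id_apply] at h1 h2
  rw [← h1, ← h2, hxy]

theorem phi_range (b : Bool) (i : Fin 3) : (phi b i).range = BH i := by
  have h : (phi b i).range = Subgroup.closure (Set.range
      (fun c : Bool => if c then (if b then sx i else sy i) else (if b then sy i else sx i))) :=
    FreeGroup.range_lift_eq_closure
  rw [h]
  unfold BH
  congr 1
  ext g
  simp only [Set.mem_range, Bool.exists_bool, Set.mem_insert_iff, Set.mem_singleton_iff]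
  cases b
  · simp [eq_comm]
  · simp [eq_comm, or_comm]

section HD8


/-- positive matrices with comparable entries in each row -/
def pm_HD8_MB (K : ℝ) (M : M3) : Prop := (∀ i j, 0 < M i j) ∧ ∀ i j j', M i j ≤ K * M i j'

theorem pm_HD8_nrm_pos_eq {M : M3} (h : ∀ i j, 0 ≤ M i j) : nrm M = ∑ i, ∑ j, M i j := by
  unfold nrm
  refine Finset.sum_congr rfl fun i _ => Finset.sum_congr rfl fun j _ => abs_of_nonneg (h i j)

theorem pm_HD8_row {K : ℝ} {M : M3} (h : pm_HD8_MB K M) (i k : Fin 3) :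
    ∑ j, M i j ≤ 3 * K * M i k := by
  rw [Fin.sum_univ_three]
  have h0 := h.2 i 0 k
  have h1 := h.2 i 1 k
  have h2 := h.2 i 2 k
  linarith

theorem pm_HD8_mul {K : ℝ} {M M' : M3} (h : pm_HD8_MB K M) (h' : ∀ i j, 0 ≤ M' i j) :
    nrm M * nrm M' ≤ 3 * K * nrm (M * M') := by
  have hp : ∀ i j, 0 ≤ (M * M') i j := by
    intro i j
    rw [Matrix.mul_apply]
    exact Finset.sum_nonneg fun k _ => mul_nonneg (h.1 i k).le (h' k j)
  rw [pm_HD8_nrm_pos_eq (fun i j => (h.1 i j).le), pm_HD8_nrm_pos_eq h', pm_HD8_nrm_pos_eq hp,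
    Finset.sum_mul, Finset.mul_sum]
  refine Finset.sum_le_sum fun i _ => ?_
  have e1 : ∑ j, (M * M') i j = ∑ k, M i k * ∑ j, M' k j := by
    simp only [Matrix.mul_apply]
    rw [Finset.sum_comm]
    refine Finset.sum_congr rfl fun k _ => ?_
    rw [Finset.mul_sum]
  rw [e1, Finset.mul_sum, Finset.mul_sum]
  refine Finset.sum_le_sum fun k _ => ?_
  rw [← mul_assoc]
  exact mul_le_mul_of_nonneg_right (pm_HD8_row h i k) (Finset.sum_nonneg fun j _ => h' k j)

theorem pm_HD8_mn {K : ℝ} (hK : 0 ≤ K) {A M A' : M3} {d : Fin 3 → ℝ} (hA : ∀ i j, 0 < A i j)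
    (hM : pm_HD8_MB K M) (hd : PosD d) (hA' : ∀ i j, 0 < A' i j) :
    mn A * nrm M * mxd d * mn A' ≤ 3 * K * mn (A * M * diagonal d * A') := by
  obtain ⟨i, j, e⟩ := exists_mn (A * M * diagonal d * A')
  obtain ⟨l, el⟩ := exists_mxd d
  have hmn : 0 < mn A := by
    obtain ⟨i, j, e⟩ := exists_mn A
    rw [e]; exact hA i j
  have hmn' : 0 < mn A' := by
    obtain ⟨i, j, e⟩ := exists_mn A'
    rw [e]; exact hA' i j
  have hAM : ∀ i j, 0 ≤ (A * M) i j := by
    intro i j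
    rw [Matrix.mul_apply]
    exact Finset.sum_nonneg fun k _ => mul_nonneg (hA i k).le (hM.1 k j).le
  have h1 : (A * M) i l * d l * A' l j ≤ (A * M * diagonal d * A') i j := by
    have h0 : (A * M * diagonal d * A') i j = ∑ k, (A * M * diagonal d) i k * A' k j :=
      Matrix.mul_apply
    rw [h0]
    have h2 : ∀ k, 0 ≤ (A * M * diagonal d) i k * A' k j := by
      intro k
      rw [Matrix.mul_diagonal]
      exact mul_nonneg (mul_nonneg (hAM i k) (hd.1 k).le) (hA' k j).le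
    refine le_trans (le_of_eq ?_) (Finset.single_le_sum
      (f := fun k => (A * M * diagonal d) i k * A' k j) (fun k _ => h2 k) (Finset.mem_univ l))
    simp only [Matrix.mul_diagonal]
  have h3 : mn A * nrm M ≤ 3 * K * (A * M) i l := by
    rw [pm_HD8_nrm_pos_eq (fun i j => (hM.1 i j).le), Matrix.mul_apply, Finset.mul_sum,
      Finset.mul_sum]
    refine Finset.sum_le_sum fun k _ => ?_
    have h4 := pm_HD8_row hM k l
    have h5 : 0 ≤ ∑ j, M k j := Finset.sum_nonneg fun j _ => (hM.1 k j).le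
    calc mn A * ∑ j, M k j ≤ A i k * ∑ j, M k j :=
          mul_le_mul_of_nonneg_right (mn_le A i k) h5
      _ ≤ A i k * (3 * K * M k l) := mul_le_mul_of_nonneg_left h4 (hA i k).le
      _ = 3 * K * (A i k * M k l) := by ring
  rw [e, el]
  have hdl : 0 < d l := hd.1 l
  have h6 : 0 ≤ 3 * K * (A * M) i l := by
    have := hAM i l
    positivity
  calc mn A * nrm M * d l * mn A' ≤ 3 * K * (A * M) i l * d l * A' l j := by
        apply mul_le_mul _ (mn_le A' l j) hmn'.le (by positivity)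
        exact mul_le_mul_of_nonneg_right h3 hdl.le
    _ = 3 * K * ((A * M) i l * d l * A' l j) := by ring
    _ ≤ 3 * K * (A * M * diagonal d * A') i j :=
        mul_le_mul_of_nonneg_left h1 (by positivity)



theorem pm_HD8_GL_pos (u : GL (Fin 3) ℝ) : 0 < nrm (u : M3) := by
  by_contra hc
  have h0 : nrm (u : M3) = 0 := le_antisymm (not_lt.1 hc) (nrm_nonneg _)
  have h1 : ((u : M3) * ((u⁻¹ : GL (Fin 3) ℝ) : M3)) = 1 := by
    rw [← Units.val_mul, mul_inv_cancel, Units.val_one]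
  have h2 : nrm ((u : M3) * ((u⁻¹ : GL (Fin 3) ℝ) : M3)) ≤ 0 := by
    refine (nrm_mul_le _ _).trans ?_
    rw [h0, zero_mul]
  rw [h1] at h2
  have h3 : nrm (1 : M3) = 3 := by
    simp [nrm, Fin.sum_univ_three, Matrix.one_apply]
    norm_num
  rw [h3] at h2
  linarith

variable {Γ Z Q : Type} [Group Γ] {ps : PS Γ Z Q} {S : Set Q} {I : Set Q} {G Gn : Subgroup Γ}

abbrev pm_HD8_X (ps : PS Γ Z Q) (K κ : ℝ) (G : Subgroup Γ) (I : Set Q) : Type :=
  Ltr ps K κ (fun _ => ()) (fun _ : Unit => G) (fun _ => I) I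

def pm_HD8_src {K κ : ℝ} (x : pm_HD8_X ps K κ G I) : I := ⟨x.e, x.he⟩
def pm_HD8_tgt {K κ : ℝ} (x : pm_HD8_X ps K κ G I) : I := ⟨x.e', x.he'⟩

/-- matrix between outer frames -/
def pm_HD8_M (ps : PS Γ Z Q) (z : Z) (p q : Q) (g : Γ) : M3 :=
  (((ps.FJ p z)⁻¹ : GL (Fin 3) ℝ) : M3) * (ps.r z g : M3) * (ps.FJ q z : M3)

def pm_HD8_N (ps : PS Γ Z Q) (z : Z) (I : Set Q) (p q : I) (g : Γ) : ℝ :=
  nrm (pm_HD8_M ps z p q g)

theorem pm_HD8_N_pos (z : Z) (p q : I) (g : Γ) : 0 < pm_HD8_N ps z I p q g := by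
  have h : pm_HD8_M ps z p q g = (((ps.FJ p z)⁻¹ * ps.r z g * ps.FJ q z : GL (Fin 3) ℝ) : M3) := by
    unfold pm_HD8_M
    rw [Units.val_mul, Units.val_mul]
  unfold pm_HD8_N
  rw [h]
  exact pm_HD8_GL_pos _

theorem pm_HD8_M_mul (z : Z) (p q r : Q) (g g' : Γ) :
    pm_HD8_M ps z p r (g * g') = pm_HD8_M ps z p q g * pm_HD8_M ps z q r g' := by
  unfold pm_HD8_M
  have h1 : (ps.FJ q z : M3) * (((ps.FJ q z)⁻¹ : GL (Fin 3) ℝ) : M3) = 1 := by
    rw [← Units.val_mul, mul_inv_cancel, Units.val_one]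
  rw [map_mul, Units.val_mul]
  calc (((ps.FJ p z)⁻¹ : GL (Fin 3) ℝ) : M3) * ((ps.r z g : M3) * (ps.r z g' : M3)) *
        (ps.FJ r z : M3)
      = (((ps.FJ p z)⁻¹ : GL (Fin 3) ℝ) : M3) * (ps.r z g : M3) * 1 * ((ps.r z g' : M3) *
        (ps.FJ r z : M3)) := by rw [Matrix.mul_one]; simp only [Matrix.mul_assoc]
    _ = _ := by rw [← h1]; simp only [Matrix.mul_assoc]

theorem pm_HD8_TT (z : Z) (p e e' : Q) (g g' : Γ) :
    ps.TT z p (g * g') e' = ps.TT z p g e * pm_HD8_M ps z e e' g' := by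
  unfold pm_HD8_M PS.TT
  have h1 : (ps.F e z : M3) * J3 = (ps.FJ e z : M3) := by
    unfold PS.FJ
    rw [Units.val_mul]
    rfl
  have h2 : (ps.FJ e z : M3) * (((ps.FJ e z)⁻¹ : GL (Fin 3) ℝ) : M3) = 1 := by
    rw [← Units.val_mul, mul_inv_cancel, Units.val_one]
  have h3 : (ps.F e' z : M3) * J3 = (ps.FJ e' z : M3) := by
    unfold PS.FJ
    rw [Units.val_mul]
    rfl
  rw [map_mul, Units.val_mul, Matrix.mul_assoc _ (ps.F e' z : M3), h3, Matrix.mul_assoc _
    (ps.F e z : M3), h1]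
  calc (((ps.F p z)⁻¹ : GL (Fin 3) ℝ) : M3) * ((ps.r z g : M3) * (ps.r z g' : M3)) *
        (ps.FJ e' z : M3)
      = (((ps.F p z)⁻¹ : GL (Fin 3) ℝ) : M3) * (ps.r z g : M3) * 1 * ((ps.r z g' : M3) *
        (ps.FJ e' z : M3)) := by rw [Matrix.mul_one]; simp only [Matrix.mul_assoc]
    _ = _ := by rw [← h2]; simp only [Matrix.mul_assoc]

theorem pm_HD8_evL {K κ : ℝ} (hκ : 0 ≤ κ) {Λ : Set Q} {l : List (Q × ℤ × M3)}
    (hl : OkL K κ Λ l) (hne : l ≠ []) (z : Z) : pm_HD8_MB K (ps.evL l z) := by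
  cases l with
  | nil => exact absurd rfl hne
  | cons x l =>
    obtain ⟨e, k, B⟩ := x
    have hB : Bal K κ B := (hl (e, k, B) (by simp)).2
    have hok : (⟨B, l⟩ : Word Q).Ok K κ Λ := ⟨hB, fun y hy => hl y (List.mem_cons_of_mem _ hy)⟩
    have hb := Word.bal hκ hok ps z
    have hD := Dl_pos ps e k z
    have he : ps.evL ((e, k, B) :: l) z = diagonal (ps.Dl e k z) * ps.eval ⟨B, l⟩ z := by
      rw [pm_GoGC1_evL_cons]
      unfold PS.eval
      rw [Matrix.mul_assoc]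
    rw [he]
    constructor
    · intro i j
      rw [Matrix.diagonal_mul]
      exact mul_pos (hD.1 i) (hb.pos i j)
    · intro i j j'
      rw [Matrix.diagonal_mul, Matrix.diagonal_mul]
      have := mul_le_mul_of_nonneg_left (hb.col i j j') (hD.1 i).le
      calc ps.Dl e k z i * ps.eval ⟨B, l⟩ z i j ≤ ps.Dl e k z i * (K * ps.eval ⟨B, l⟩ z i j') := this
        _ = _ := by ring

def pm_HD8_W (ps : PS Γ Z Q) (K κ : ℝ) (G : Subgroup Γ) (I : Set Q) (p q : I) : Set Γ :=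
  {g | ∃ (x : pm_HD8_X ps K κ G I) (l : List (pm_HD8_X ps K κ G I)),
    (x :: l).IsChain (fun a b => pm_HD8_tgt a = pm_HD8_src b) ∧
    pm_HD8_src x = p ∧ pm_HD8_tgt ((x :: l).getLast (by simp)) = q ∧ ((x :: l).map Ltr.val).prod = g}

theorem pm_HD8_okL {K κ : ℝ} (l : List (pm_HD8_X ps K κ G I)) :
    OkL K κ I (l.flatMap Ltr.list) := by
  intro y hy
  rw [List.mem_flatMap] at hy
  obtain ⟨x, -, hx⟩ := hy
  have hok : x.w.Ok K κ I := x.hn.choose_spec.1
  unfold Ltr.list at hx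
  rcases List.mem_cons.1 hx with rfl | hx
  · exact ⟨x.he, hok.1⟩
  · exact hok.2 y hx

theorem pm_HD8_W_MB {K κ : ℝ} (hκ : 0 ≤ κ) (z : Z) {p q : I} {g : Γ}
    (hg : g ∈ pm_HD8_W ps K κ G I p q) : pm_HD8_MB K (pm_HD8_M ps z p q g) := by
  obtain ⟨x, l, hch, rfl, rfl, rfl⟩ := hg
  have hch' : (x :: l).IsChain (fun x y => x.e' = y.e) :=
    hch.imp fun a b hab => congrArg Subtype.val hab
  have h := letters_mat x l hch' z
  have h2 : pm_HD8_M ps z (pm_HD8_src x) (pm_HD8_tgt ((x :: l).getLast (by simp)))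
      (((x :: l).map Ltr.val).prod) = ps.evL ((x :: l).flatMap Ltr.list) z := h
  rw [h2]
  refine pm_HD8_evL hκ (pm_HD8_okL (x :: l)) ?_ z
  rw [List.flatMap_cons]
  unfold Ltr.list
  simp

theorem pm_HD8_W_mem (H : GH ps (fun _ => ()) (fun _ : Unit => G) (fun _ => S) I Gn) {K κ : ℝ}
    {p q : I} {g : Γ} (hg : g ∈ pm_HD8_W ps K κ G I p q) : g ∈ Gn := by
  obtain ⟨x, l, -, -, -, rfl⟩ := hg
  apply Subgroup.list_prod_mem
  intro y hy
  obtain ⟨x, -, rfl⟩ := List.mem_map.mp hy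
  exact pm_GoGC2_val_mem H x

theorem pm_HD8_fin {I : Set Q} (hI : I.Finite) {f : I → ENNReal} (hf : ∀ e, f e < ⊤) :
    ∑' e : I, f e < ⊤ := by
  have := hI.fintype
  rw [tsum_fintype]
  exact ENNReal.sum_lt_top.2 fun e _ => hf e

theorem pm_HD8_let {K κ : ℝ} (hκ : 0 ≤ κ) (hI : I.Finite) (z : Z) {s : ℝ} (hs : 0 ≤ s)
    (hZ : ∀ e ∈ I, ∀ e' ∈ I, Zs ps K κ I G z s (ps.bar e) e' < ⊤)
    (hX : ∀ e ∈ I, Xs ps z s e < ⊤) :
    ∑' x : pm_HD8_X ps K κ G I,
      ENNReal.ofReal ((pm_HD8_N ps z I (pm_HD8_src x) (pm_HD8_tgt x) x.val) ^ (-s)) < ⊤ := by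
  let T : Type := Σ e : I, Σ e' : I, ℤ × {g : Γ // g ∈ G ∧ Nrm ps K κ I (ps.bar e) g e'}
  let code : pm_HD8_X ps K κ G I → T := fun x => ⟨⟨x.e, x.he⟩, ⟨x.e', x.he'⟩, x.k, ⟨x.g, x.hg, x.hn⟩⟩
  have hinj : Function.Injective code := by
    intro x y h
    have h1 : x.e = y.e := congrArg (fun t : T => (t.1 : Q)) h
    have h2 : x.e' = y.e' := congrArg (fun t : T => (t.2.1 : Q)) h
    have h3 : x.k = y.k := congrArg (fun t : T => t.2.2.1) h
    have h4 : x.g = y.g := congrArg (fun t : T => t.2.2.2.1) h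
    obtain ⟨e, k, e', g, he, he', hat, hg, hn⟩ := x
    obtain ⟨f, k2, f', g2, hf, hf', hat2, hg2, hn2⟩ := y
    simp only at h1 h2 h3 h4
    subst h1 h2 h3 h4
    rfl
  let F : T → ENNReal := fun t => ENNReal.ofReal ((mxd (ps.Dl t.1 t.2.2.1 z)) ^ (-s)) *
    ENNReal.ofReal ((mn (ps.TT z (ps.bar t.1) t.2.2.2.1 t.2.1)) ^ (-s))
  have hle : ∀ x : pm_HD8_X ps K κ G I,
      ENNReal.ofReal ((pm_HD8_N ps z I (pm_HD8_src x) (pm_HD8_tgt x) x.val) ^ (-s)) ≤ F (code x) := by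
    intro x
    have hm := (Ltr.mat x z)
    have h1 : pm_HD8_M ps z (pm_HD8_src x) (pm_HD8_tgt x) x.val =
        diagonal (ps.Dl x.e x.k z) * ps.TT z (ps.bar x.e) x.g x.e' := hm.1.trans hm.2
    obtain ⟨w, hw, hT⟩ := x.hn
    have hB := Word.bal hκ hw ps z
    rw [← hT z] at hB
    have hD := Dl_pos ps x.e x.k z
    have hmx : 0 < mxd (ps.Dl x.e x.k z) := lt_of_lt_of_le one_pos (one_le_mxd hD)
    have h2 : mxd (ps.Dl x.e x.k z) * mn (ps.TT z (ps.bar x.e) x.g x.e') ≤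
        pm_HD8_N ps z I (pm_HD8_src x) (pm_HD8_tgt x) x.val := by
      unfold pm_HD8_N
      rw [h1]
      obtain ⟨i, hi⟩ := exists_mxd (ps.Dl x.e x.k z)
      rw [hi]
      have hnn : ∀ i j, 0 ≤ (diagonal (ps.Dl x.e x.k z) * ps.TT z (ps.bar x.e) x.g x.e') i j := by
        intro i j
        rw [Matrix.diagonal_mul]
        exact mul_nonneg (hD.1 i).le (hB.pos i j).le
      rw [pm_HD8_nrm_pos_eq hnn]
      refine le_trans ?_ (Finset.single_le_sum (f := fun i => ∑ j,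
        (diagonal (ps.Dl x.e x.k z) * ps.TT z (ps.bar x.e) x.g x.e') i j)
        (fun i _ => Finset.sum_nonneg fun j _ => hnn i j) (Finset.mem_univ i))
      refine le_trans ?_ (Finset.single_le_sum (f := fun j =>
        (diagonal (ps.Dl x.e x.k z) * ps.TT z (ps.bar x.e) x.g x.e') i j)
        (fun j _ => hnn i j) (Finset.mem_univ 0))
      simp only [Matrix.diagonal_mul]
      exact mul_le_mul_of_nonneg_left (mn_le _ i 0) (hD.1 i).le
    show _ ≤ ENNReal.ofReal ((mxd (ps.Dl x.e x.k z)) ^ (-s)) *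
      ENNReal.ofReal ((mn (ps.TT z (ps.bar x.e) x.g x.e')) ^ (-s))
    rw [← ENNReal.ofReal_mul (by positivity), ← Real.mul_rpow hmx.le hB.mn_pos.le]
    exact ENNReal.ofReal_le_ofReal (Real.rpow_le_rpow_of_nonpos (mul_pos hmx hB.mn_pos) h2
      (by linarith))
  refine lt_of_le_of_lt ((ENNReal.tsum_le_tsum hle).trans
    (ENNReal.tsum_comp_le_tsum_of_injective hinj F)) ?_
  rw [ENNReal.tsum_sigma']
  refine pm_HD8_fin hI fun e => ?_
  rw [ENNReal.tsum_sigma']
  refine pm_HD8_fin hI fun e' => ?_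
  have h3 : ∑' x : ℤ × {g : Γ // g ∈ G ∧ Nrm ps K κ I (ps.bar e) g e'}, F ⟨e, e', x⟩ =
      Xs ps z s e * Zs ps K κ I G z s (ps.bar e) e' := by
    rw [ENNReal.tsum_prod']
    simp only [F]
    simp_rw [ENNReal.tsum_mul_left]
    rw [ENNReal.tsum_mul_right]
    rfl
  rw [h3]
  exact ENNReal.mul_lt_top (hX e e.2) (hZ e e.2 e' e'.2)




theorem pm_HD8_last {at_ : Q → Unit} {v w : Unit} {l : List (Γ × Q)} {gl : Γ}
    (h : IsPath ps at_ (fun _ : Unit => G) I v l gl w) : gl ∈ G := by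
  induction h with
  | nil hg => exact hg
  | cons _ _ _ _ ih => exact ih

/-- the values of the pieces -/
abbrev pm_HD8_Zt (ps : PS Γ Z Q) (K κ : ℝ) (G : Subgroup Γ) (I : Set Q) (p q : Q) : Type :=
  {g : Γ // g ∈ G ∧ Nrm ps K κ I p g q}

/-- decomposition of the elements of the glued group -/
theorem pm_HD8_decomp (H : GH ps (fun _ => ()) (fun _ : Unit => G) (fun _ => S) I Gn) {K κ : ℝ}
    (hV : VC ps K κ I G S) {p : Q} (hp : p ∈ S) (hpI : p ∉ I) (hcp : ps.c p ∈ G) {g : Γ}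
    (hg : g ∈ Gn) : g ∈ G ∨ ∃ k m : ℤ,
      (∃ e ∈ I, ∃ g1 ∈ G, Nrm ps K κ I p g1 e ∧ ∃ j : ℤ, ∃ g' ∈ G, Nrm ps K κ I (ps.bar e) g' p ∧
        g = ps.c p ^ k * (g1 * ps.t e * ps.c (ps.bar e) ^ j * g') * ps.c p ^ m) ∨
      (∃ e1 e : I, ∃ g1 ∈ G, Nrm ps K κ I p g1 e1 ∧ ∃ w ∈ pm_HD8_W ps K κ G I e1 e,
        ∃ j : ℤ, ∃ g' ∈ G, Nrm ps K κ I (ps.bar e) g' p ∧
        g = ps.c p ^ k * (g1 * w * ps.t e * ps.c (ps.bar e) ^ j * g') * ps.c p ^ m) := by
  obtain ⟨l0, gl0, hl0, hv0⟩ := paths_exist H () () hg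
  obtain ⟨l, gl, hl, hred, hv, _⟩ := reduce H hl0
  rw [hv0] at hv
  have hglm := pm_HD8_last hl
  cases l with
  | nil =>
    left
    have : gl = g := by rw [← hv]; simp [PS.pval]
    rw [← this]
    exact hglm
  | cons x l =>
    right
    obtain ⟨g1, e1⟩ := x
    cases hl with
    | cons hg1 he1 hat1 hpath =>
      have he1S : e1 ∈ S := (H.hI e1 he1).2
      obtain ⟨k, m1, g1', hgg1, hN1⟩ := exists_nrm hV hp he1S hg1
        (fun h => hpI (by rw [h.1]; exact he1))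
      have hg1' : g1' ∈ G := by
        have h2 : g1' = ps.c p ^ (-k) * g1 * ps.c e1 ^ (-m1) := by rw [hgg1]; group
        rw [h2]
        exact G.mul_mem (G.mul_mem (G.zpow_mem hcp _) hg1) (G.zpow_mem (H.hc e1 he1) _)
      obtain ⟨L, m', en, hen, henI, hatn, hLC, hval⟩ :=
        pm_GoGC2_main (Λv := fun _ => I) H (fun _ => hV) hpath g1 e1 (-m1) he1 rfl hred
      have hbn : ps.bar en ∈ I := (H.hI en henI).1
      have hbnS : ps.bar en ∈ S := (H.hI _ hbn).2
      obtain ⟨k2, m2, g', hgg', hN'⟩ := exists_nrm hV hbnS hp hglm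
        (fun h => hpI (by rw [← h.1]; exact hbn))
      have hg' : g' ∈ G := by
        have h2 : g' = ps.c (ps.bar en) ^ (-k2) * gl * ps.c p ^ (-m2) := by rw [hgg']; group
        rw [h2]
        exact G.mul_mem (G.mul_mem (G.zpow_mem (H.hc _ hbn) _) hglm) (G.zpow_mem hcp _)
      have e3 := pm_GoGC2_tc ps e1 m1
      have hfin : g = ps.c p ^ k * (g1' * (L.map Ltr.val).prod * ps.t en *
          ps.c (ps.bar en) ^ (m' + k2) * g') * ps.c p ^ m2 := by
        have e4 : ps.pval ((g1, e1) :: l) = g1 * ps.t e1 * ps.pval l := by simp [PS.pval]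
        rw [← hv, e4]
        conv_lhs => rw [hgg1, hgg']
        calc ps.c p ^ k * g1' * ps.c e1 ^ m1 * ps.t e1 * ps.pval l *
              (ps.c (ps.bar en) ^ k2 * g' * ps.c p ^ m2)
            = ps.c p ^ k * g1' * (ps.c e1 ^ m1 * ps.t e1) * ps.pval l *
              (ps.c (ps.bar en) ^ k2 * g' * ps.c p ^ m2) := by simp only [mul_assoc]
          _ = ps.c p ^ k * g1' * (ps.t e1 * ps.c (ps.bar e1) ^ (-m1) * ps.pval l) *
              (ps.c (ps.bar en) ^ k2 * g' * ps.c p ^ m2) := by rw [e3]; simp only [mul_assoc]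
          _ = ps.c p ^ k * g1' * ((L.map Ltr.val).prod * (ps.t en * ps.c (ps.bar en) ^ m')) *
              (ps.c (ps.bar en) ^ k2 * g' * ps.c p ^ m2) := by rw [hval]
          _ = _ := by rw [_root_.zpow_add]; simp only [mul_assoc]
      refine ⟨k, m2, ?_⟩
      cases L with
      | nil =>
        left
        have hee : e1 = en := hLC
        subst hee
        refine ⟨e1, he1, g1', hg1', hN1, m' + k2, g', hg', hN', ?_⟩
        rw [hfin]
        simp
      | cons y L =>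
        right
        obtain ⟨c1, c2, c3⟩ := pm_GoGC2_LC_chain L y hLC
        refine ⟨⟨e1, he1⟩, ⟨en, henI⟩, g1', hg1', hN1, ((y :: L).map Ltr.val).prod, ?_,
          m' + k2, g', hg', hN', hfin⟩
        exact ⟨y, L, c1.imp fun a b hab => Subtype.ext hab, Subtype.ext c3, Subtype.ext c2, rfl⟩

/-- finiteness of the sums over words implies finiteness of the Poincaré series -/
theorem pm_HD8_fin_poin (H : GH ps (fun _ => ()) (fun _ : Unit => G) (fun _ => S) I Gn) {K κ : ℝ}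
    (hκ : 0 ≤ κ) (hV : VC ps K κ I G S) (hI : I.Finite) {p : Q} (hp : p ∈ S) (hpI : p ∉ I)
    (hcp : ps.c p ∈ G) (z : Z) {s : ℝ} (hs : 0 < s)
    (hZ : ∀ p ∈ S, ∀ q ∈ S, Zs ps K κ I G z s p q < ⊤)
    (hX : ∀ e ∈ I, Xs ps z s e < ⊤)
    (hW : ∀ e e' : I, ∑' g : pm_HD8_W ps K κ G I e e',
      ENNReal.ofReal ((pm_HD8_N ps z I e e' g) ^ (-s)) < ⊤) :
    ∑' g : Gn, ENNReal.ofReal ((ps.N p z g) ^ (-s)) < ⊤ := by
  classical
  by_cases hK0 : 0 < K
  swap
  · -- impossible unless there are no elements at all outside `G`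
    have hno : ∀ (q q' : Q) (g : Γ), ¬ Nrm ps K κ I q g q' := by
      rintro q q' g ⟨w, hw, -⟩
      have := (Word.bal hκ hw ps z).one_le
      exact hK0 (by linarith)
    have hsub : ∀ g : Gn, (g : Γ) ∈ G := by
      intro g
      rcases pm_HD8_decomp H hV hp hpI hcp g.2 with h | ⟨k, m, ⟨e, -, g1, -, hn, -⟩ |
        ⟨e1, e, g1, -, hn, -⟩⟩
      · exact h
      · exact absurd hn (hno _ _ _)
      · exact absurd hn (hno _ _ _)
    have hc : Function.Injective (fun g : Gn => (⟨(g : Γ), hsub g⟩ : G)) := by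
      intro x y hxy
      exact Subtype.ext (congrArg (fun u : G => (u : Γ)) hxy)
    refine lt_of_le_of_lt (ENNReal.tsum_comp_le_tsum_of_injective hc
      (fun g : G => ENNReal.ofReal ((ps.N p z g) ^ (-s)))) ?_
    refine lt_of_le_of_lt (poin_le_Zs hκ hV z hs hp hcp) ?_
    exact ENNReal.mul_lt_top ENNReal.ofReal_lt_top
      (ENNReal.add_lt_top.2 ⟨ENNReal.one_lt_top, hZ p hp p hp⟩)
  have hL := ps.L_pos p
  let T1 : Type := Σ e : I, pm_HD8_Zt ps K κ G I p e × ℤ × pm_HD8_Zt ps K κ G I (ps.bar e) p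
  let T2 : Type := Σ e1 : I, Σ e : I, pm_HD8_Zt ps K κ G I p e1 × (pm_HD8_W ps K κ G I e1 e) × ℤ ×
    pm_HD8_Zt ps K κ G I (ps.bar e) p
  let d1 : T1 → Γ := fun x => x.2.1.1 * ps.t x.1 * ps.c (ps.bar x.1) ^ x.2.2.1 * x.2.2.2.1
  let d2 : T2 → Γ := fun x => x.2.2.1.1 * x.2.2.2.1.1 * ps.t x.2.1 *
    ps.c (ps.bar x.2.1) ^ x.2.2.2.2.1 * x.2.2.2.2.2.1
  let dec : G ⊕ ((ℤ × ℤ) × (T1 ⊕ T2)) → Γ :=
    Sum.elim (fun g => g) (fun x => ps.c p ^ x.1.1 * Sum.elim d1 d2 x.2 * ps.c p ^ x.1.2)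
  let E : ℤ → ENNReal := fun k => ENNReal.ofReal (Real.exp (-(s * ps.L p * |(k : ℝ)|)))
  let V1 : T1 → ENNReal := fun x =>
    ENNReal.ofReal ((mn (ps.TT z p x.2.1.1 x.1)) ^ (-s)) *
      (ENNReal.ofReal ((mxd (ps.Dl x.1 x.2.2.1 z)) ^ (-s)) *
      ENNReal.ofReal ((mn (ps.TT z (ps.bar x.1) x.2.2.2.1 p)) ^ (-s)))
  let V2 : T2 → ENNReal := fun x =>
    ENNReal.ofReal ((3 * K) ^ s) * (ENNReal.ofReal ((mn (ps.TT z p x.2.2.1.1 x.1)) ^ (-s)) *
      (ENNReal.ofReal ((pm_HD8_N ps z I x.1 x.2.1 x.2.2.2.1.1) ^ (-s)) *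
      (ENNReal.ofReal ((mxd (ps.Dl x.2.1 x.2.2.2.2.1 z)) ^ (-s)) *
      ENNReal.ofReal ((mn (ps.TT z (ps.bar x.2.1) x.2.2.2.2.2.1 p)) ^ (-s)))))
  let F : G ⊕ ((ℤ × ℤ) × (T1 ⊕ T2)) → ENNReal :=
    Sum.elim (fun g => ENNReal.ofReal ((ps.N p z g) ^ (-s)))
      (fun x => E x.1.1 * E x.1.2 * Sum.elim V1 V2 x.2)
  have hexp : ∀ (k m : ℤ) (c N : ℝ), 0 < c →
      Real.exp (|(k : ℝ)| * ps.L p) * Real.exp (|(m : ℝ)| * ps.L p) * c ≤ N →
      ENNReal.ofReal (N ^ (-s)) ≤ E k * E m * ENNReal.ofReal (c ^ (-s)) := by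
    intro k m c N hc hN
    have h1 := Real.exp_pos (|(k : ℝ)| * ps.L p)
    have h2 := Real.exp_pos (|(m : ℝ)| * ps.L p)
    have h3 : N ^ (-s) ≤ (Real.exp (|(k : ℝ)| * ps.L p) * Real.exp (|(m : ℝ)| * ps.L p) * c) ^ (-s) :=
      Real.rpow_le_rpow_of_nonpos (by positivity) hN (by linarith)
    refine (ENNReal.ofReal_le_ofReal h3).trans (le_of_eq ?_)
    rw [Real.mul_rpow (by positivity) hc.le, Real.mul_rpow h1.le h2.le,
      ENNReal.ofReal_mul (by positivity), ENNReal.ofReal_mul (by positivity)]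
    congr 1
    congr 1
    · simp only [E]
      rw [← Real.exp_mul]
      congr 2
      ring
    · simp only [E]
      rw [← Real.exp_mul]
      congr 2
      ring
  have hlow : ∀ (k m : ℤ) (g : Γ), (∀ i j, 0 < ps.TT z p g p i j) →
      ENNReal.ofReal ((ps.N p z (ps.c p ^ k * g * ps.c p ^ m)) ^ (-s)) ≤
        E k * E m * ENNReal.ofReal ((mn (ps.TT z p g p)) ^ (-s)) := by
    intro k m g hpos
    have hmn : 0 < mn (ps.TT z p g p) := by
      obtain ⟨i, j, e⟩ := exists_mn (ps.TT z p g p)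
      rw [e]; exact hpos i j
    refine hexp k m _ _ hmn ?_
    rw [pm_GoGD3_N, TT_c]
    exact pm_GoGD3_low _ _ k m (fun i j => (hpos i j).le) _ hmn.le (fun i j => mn_le _ i j)
  have hcode : ∀ g : Gn, ∃ x : G ⊕ ((ℤ × ℤ) × (T1 ⊕ T2)), dec x = g ∧
      ENNReal.ofReal ((ps.N p z g) ^ (-s)) ≤ F x := by
    intro g
    rcases pm_HD8_decomp H hV hp hpI hcp g.2 with h | ⟨k, m,
      ⟨e, he, g1, hg1, hN1, j, g', hg', hN', hgeq⟩ |
      ⟨e1, e, g1, hg1, hN1, w, hw, j, g', hg', hN', hgeq⟩⟩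
    · exact ⟨Sum.inl ⟨g, h⟩, rfl, le_rfl⟩
    · refine ⟨Sum.inr ((k, m), Sum.inl ⟨⟨e, he⟩, ⟨g1, hg1, hN1⟩, j, ⟨g', hg', hN'⟩⟩), hgeq.symm, ?_⟩
      obtain ⟨w1, hw1, hT1⟩ := hN1
      obtain ⟨w2, hw2, hT2⟩ := hN'
      have hB1 := Word.bal hκ hw1 ps z
      have hB2 := Word.bal hκ hw2 ps z
      rw [← hT1 z] at hB1
      rw [← hT2 z] at hB2
      have hD := Dl_pos ps e j z
      have hm1 := hB1.mn_pos
      have hm2 := hB2.mn_pos
      have hm3 : 0 < mxd (ps.Dl e j z) := lt_of_lt_of_le one_pos (one_le_mxd hD)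
      have hmul := mn_mul hB1.pos hD hB2.pos
      have hpos : ∀ i j', 0 < ps.TT z p (g1 * ps.t e * ps.c (ps.bar e) ^ j * g') p i j' := by
        intro i j'
        rw [pm_GoGD2_TT]
        exact lt_of_lt_of_le (lt_of_lt_of_le (by positivity) hmul) (mn_le _ i j')
      rw [hgeq]
      refine (hlow k m _ hpos).trans ?_
      simp only [F, Sum.elim_inr, Sum.elim_inl, V1]
      refine mul_le_mul' le_rfl ?_
      rw [← ENNReal.ofReal_mul (by positivity), ← ENNReal.ofReal_mul (by positivity)]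
      apply ENNReal.ofReal_le_ofReal
      rw [pm_GoGD2_TT, ← Real.mul_rpow hm3.le hm2.le, ← Real.mul_rpow hm1.le (by positivity),
        ← mul_assoc]
      exact Real.rpow_le_rpow_of_nonpos (by positivity) hmul (by linarith)
    · refine ⟨Sum.inr ((k, m), Sum.inr ⟨e1, e, ⟨g1, hg1, hN1⟩, ⟨w, hw⟩, j, ⟨g', hg', hN'⟩⟩),
        hgeq.symm, ?_⟩
      obtain ⟨w1, hw1, hT1⟩ := hN1
      obtain ⟨w2, hw2, hT2⟩ := hN'
      have hB1 := Word.bal hκ hw1 ps z
      have hB2 := Word.bal hκ hw2 ps z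
      rw [← hT1 z] at hB1
      rw [← hT2 z] at hB2
      have hMB := pm_HD8_W_MB hκ z hw
      have hD := Dl_pos ps e j z
      have hm1 := hB1.mn_pos
      have hm2 := hB2.mn_pos
      have hm3 : 0 < mxd (ps.Dl e j z) := lt_of_lt_of_le one_pos (one_le_mxd hD)
      have hm4 : 0 < pm_HD8_N ps z I e1 e w := pm_HD8_N_pos z e1 e w
      have hTT : ps.TT z p (g1 * w * ps.t e * ps.c (ps.bar e) ^ j * g') p =
          ps.TT z p g1 e1 * pm_HD8_M ps z e1 e w * diagonal (ps.Dl e j z) *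
            ps.TT z (ps.bar e) g' p := by
        rw [pm_GoGD2_TT, pm_HD8_TT z p e1 e g1 w]
      have hmul := pm_HD8_mn hK0.le hB1.pos hMB hD hB2.pos
      have hlo : (3 * K)⁻¹ * (mn (ps.TT z p g1 e1) * pm_HD8_N ps z I e1 e w *
          mxd (ps.Dl e j z) * mn (ps.TT z (ps.bar e) g' p)) ≤
          mn (ps.TT z p (g1 * w * ps.t e * ps.c (ps.bar e) ^ j * g') p) := by
        rw [hTT, inv_mul_le_iff₀ (by positivity)]
        exact hmul
      have hpos : ∀ i j', 0 < ps.TT z p (g1 * w * ps.t e * ps.c (ps.bar e) ^ j * g') p i j' := by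
        intro i j'
        exact lt_of_lt_of_le (lt_of_lt_of_le (by positivity) hlo) (mn_le _ i j')
      rw [hgeq]
      refine (hlow k m _ hpos).trans ?_
      simp only [F, Sum.elim_inr, V2]
      refine mul_le_mul' le_rfl ?_
      rw [← ENNReal.ofReal_mul (by positivity), ← ENNReal.ofReal_mul (by positivity),
        ← ENNReal.ofReal_mul (by positivity), ← ENNReal.ofReal_mul (by positivity)]
      apply ENNReal.ofReal_le_ofReal
      have h3K : (3 * K) ^ s = ((3 * K)⁻¹) ^ (-s) := by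
        rw [Real.inv_rpow (by positivity), ← Real.rpow_neg (by positivity), neg_neg]
      rw [h3K, ← Real.mul_rpow hm3.le hm2.le, ← Real.mul_rpow hm4.le (by positivity),
        ← Real.mul_rpow hm1.le (by positivity), ← Real.mul_rpow (by positivity) (by positivity)]
      refine Real.rpow_le_rpow_of_nonpos (by positivity) ?_ (by linarith)
      refine le_trans (le_of_eq ?_) hlo
      ring
  choose code hdec hle using hcode
  have hinj : Function.Injective code := by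
    intro x y hxy
    apply Subtype.ext
    rw [← hdec x, ← hdec y, hxy]
  refine lt_of_le_of_lt ((ENNReal.tsum_le_tsum hle).trans
    (ENNReal.tsum_comp_le_tsum_of_injective hinj F)) ?_
  have hE : ∑' k : ℤ, E k < ⊤ :=
    lt_of_le_of_lt (pm_GoGD3_geom (mul_pos hs hL)) ENNReal.ofReal_lt_top
  rw [Summable.tsum_sum ENNReal.summable ENNReal.summable]
  refine ENNReal.add_lt_top.2 ⟨?_, ?_⟩
  · refine lt_of_le_of_lt (poin_le_Zs hκ hV z hs hp hcp) ?_
    exact ENNReal.mul_lt_top ENNReal.ofReal_lt_top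
      (ENNReal.add_lt_top.2 ⟨ENNReal.one_lt_top, hZ p hp p hp⟩)
  · have hF : ∑' x : (ℤ × ℤ) × (T1 ⊕ T2), F (Sum.inr x) =
        (∑' k, E k) * (∑' k, E k) * ∑' y, Sum.elim V1 V2 y := by
      rw [ENNReal.tsum_prod']
      simp only [F, Sum.elim_inr]
      simp_rw [ENNReal.tsum_mul_left]
      rw [ENNReal.tsum_mul_right, ENNReal.tsum_prod']
      simp_rw [ENNReal.tsum_mul_left]
      rw [ENNReal.tsum_mul_right]
    rw [hF]
    refine ENNReal.mul_lt_top (ENNReal.mul_lt_top hE hE) ?_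
    rw [Summable.tsum_sum ENNReal.summable ENNReal.summable]
    refine ENNReal.add_lt_top.2 ⟨?_, ?_⟩
    · simp only [Sum.elim_inl]
      rw [ENNReal.tsum_sigma']
      refine pm_HD8_fin hI fun e => ?_
      have h3 : ∑' x : pm_HD8_Zt ps K κ G I p e × ℤ × pm_HD8_Zt ps K κ G I (ps.bar e) p,
          V1 ⟨e, x⟩ = Zs ps K κ I G z s p e * (Xs ps z s e * Zs ps K κ I G z s (ps.bar e) p) := by
        rw [ENNReal.tsum_prod']
        simp only [V1]
        simp_rw [ENNReal.tsum_mul_left]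
        rw [ENNReal.tsum_mul_right, ENNReal.tsum_prod']
        simp_rw [ENNReal.tsum_mul_left]
        rw [ENNReal.tsum_mul_right]
        rfl
      rw [h3]
      have hbe : ps.bar e ∈ S := (H.hI _ (H.hI e e.2).1).2
      exact ENNReal.mul_lt_top (hZ p hp e (H.hI e e.2).2)
        (ENNReal.mul_lt_top (hX e e.2) (hZ _ hbe p hp))
    · simp only [Sum.elim_inr]
      rw [ENNReal.tsum_sigma']
      refine pm_HD8_fin hI fun e1 => ?_
      rw [ENNReal.tsum_sigma']
      refine pm_HD8_fin hI fun e => ?_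
      have h3 : ∑' x : pm_HD8_Zt ps K κ G I p e1 × (pm_HD8_W ps K κ G I e1 e) × ℤ ×
            pm_HD8_Zt ps K κ G I (ps.bar e) p, V2 ⟨e1, e, x⟩ =
          ENNReal.ofReal ((3 * K) ^ s) * (Zs ps K κ I G z s p e1 *
            ((∑' g : pm_HD8_W ps K κ G I e1 e,
              ENNReal.ofReal ((pm_HD8_N ps z I e1 e g) ^ (-s))) *
            (Xs ps z s e * Zs ps K κ I G z s (ps.bar e) p))) := by
        simp only [V2]
        rw [ENNReal.tsum_mul_left, ENNReal.tsum_prod']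
        simp_rw [ENNReal.tsum_mul_left]
        rw [ENNReal.tsum_mul_right, ENNReal.tsum_prod']
        simp_rw [ENNReal.tsum_mul_left]
        rw [ENNReal.tsum_mul_right, ENNReal.tsum_prod']
        simp_rw [ENNReal.tsum_mul_left]
        rw [ENNReal.tsum_mul_right]
        rfl
      rw [h3]
      have hbe : ps.bar e ∈ S := (H.hI _ (H.hI e e.2).1).2
      exact ENNReal.mul_lt_top ENNReal.ofReal_lt_top (ENNReal.mul_lt_top
        (hZ p hp e1 (H.hI e1 e1.2).2) (ENNReal.mul_lt_top (hW e1 e)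
        (ENNReal.mul_lt_top (hX e e.2) (hZ _ hbe p hp))))

/-- divergence at the critical exponent for a glued group with one vertex -/
theorem pm_HD8_gen (H : GH ps (fun _ => ()) (fun _ : Unit => G) (fun _ => S) I Gn) {K κ : ℝ}
    (hκ : 0 ≤ κ) (hK : 0 < K) (hV : VC ps K κ I G S) (hI : I.Finite) {p : Q} (hp : p ∈ S)
    (hpI : p ∉ I) (hcp : ps.c p ∈ G) (z : Z) {s₁ E : ℝ} (hs₁ : 0 < s₁) (hE : s₁ < E)
    (hZ : ∀ s, s₁ ≤ s → s ≤ E → ∀ p ∈ S, ∀ q ∈ S, Zs ps K κ I G z s p q < ⊤)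
    (hX : ∀ s, s₁ ≤ s → s ≤ E → ∀ e ∈ I, Xs ps z s e < ⊤)
    (hdiv : ∀ s, s₁ < s → s < E → ∑' g : Gn, ENNReal.ofReal ((ps.N p z g) ^ (-s)) = ⊤) :
    ∑' g : Gn, ENNReal.ofReal ((ps.N p z g) ^ (-E)) = ⊤ := by
  have := hI.to_subtype
  obtain ⟨e, e', hW⟩ := divergence (Γ := Γ) (P := I) (X := pm_HD8_X ps K κ G I)
    pm_HD8_src pm_HD8_tgt Ltr.val (pm_HD8_N ps z I) (fun p q g => pm_HD8_N_pos z p q g)
    (c := (3 * K)⁻¹) (C := 1) (by positivity) (pm_HD8_W ps K κ G I) (fun p q => rfl)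
    (by
      intro p q r g hg g' hg'
      have h1 := pm_HD8_W_MB hκ z hg
      have h2 := pm_HD8_W_MB hκ z hg'
      have h3 := pm_HD8_mul h1 (fun i j => (h2.1 i j).le)
      rw [← pm_HD8_M_mul] at h3
      rw [inv_mul_le_iff₀ (by positivity)]
      exact h3)
    (by
      intro p q r g _ g' _
      rw [one_mul]
      unfold pm_HD8_N
      rw [pm_HD8_M_mul (ps := ps) z (p : Q) (q : Q) (r : Q)]
      exact nrm_mul_le _ _)
    hs₁ hE
    (pm_HD8_let hκ hI z hs₁.le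
      (fun e he e' he' => hZ s₁ le_rfl hE.le _ (H.hI _ (H.hI e he).1).2 _ (H.hI e' he').2)
      (fun e he => hX s₁ le_rfl hE.le e he))
    (by
      intro s h1 h2
      by_contra hcon
      push Not at hcon
      have h3 := pm_HD8_fin_poin H hκ hV hI hp hpI hcp z (s := s) (by linarith)
        (hZ s h1.le h2.le) (hX s h1.le h2.le) (fun e e' => lt_top_iff_ne_top.2 (hcon e e'))
      exact h3.ne (hdiv s h1 h2))
  -- comparison of the sizes
  set C : ℝ := nrm ((((ps.F p z)⁻¹ * ps.FJ e z : GL (Fin 3) ℝ)) : M3) *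
    nrm ((((ps.FJ e' z)⁻¹ * ps.F p z : GL (Fin 3) ℝ)) : M3) with hC
  have hC0 : 0 < C := mul_pos (pm_HD8_GL_pos _) (pm_HD8_GL_pos _)
  have hNp : ∀ g, 0 < ps.N p z g := by
    intro g
    have h : ps.N p z g = nrm ((((ps.F p z)⁻¹ * ps.r z g * ps.F p z : GL (Fin 3) ℝ)) : M3) := by
      unfold PS.N
      rw [Units.val_mul, Units.val_mul]
    rw [h]
    exact pm_HD8_GL_pos _
  have hcmp : ∀ g, ps.N p z g ≤ C * pm_HD8_N ps z I e e' g := by
    intro g
    have h1 : ((ps.F p z)⁻¹ * ps.r z g * ps.F p z : GL (Fin 3) ℝ) =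
        ((ps.F p z)⁻¹ * ps.FJ e z) * ((ps.FJ e z)⁻¹ * ps.r z g * ps.FJ e' z) *
          ((ps.FJ e' z)⁻¹ * ps.F p z) := by group
    have h2 : ps.N p z g = nrm ((((ps.F p z)⁻¹ * ps.r z g * ps.F p z : GL (Fin 3) ℝ)) : M3) := by
      unfold PS.N
      rw [Units.val_mul, Units.val_mul]
    have h3 : pm_HD8_N ps z I e e' g =
        nrm ((((ps.FJ e z)⁻¹ * ps.r z g * ps.FJ e' z : GL (Fin 3) ℝ)) : M3) := by
      unfold pm_HD8_N pm_HD8_M
      rw [Units.val_mul, Units.val_mul]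
    rw [h2, h3, h1, Units.val_mul (_ * _) (_ * _), Units.val_mul (_ * _) (_ * _ * _)]
    refine (nrm_mul_le _ _).trans ?_
    refine (mul_le_mul_of_nonneg_right (nrm_mul_le _ _) (nrm_nonneg _)).trans (le_of_eq ?_)
    rw [hC]
    ring
  have hle : ENNReal.ofReal (C ^ (-E)) * ∑' g : pm_HD8_W ps K κ G I e e',
      ENNReal.ofReal ((pm_HD8_N ps z I e e' g) ^ (-E)) ≤
      ∑' g : Gn, ENNReal.ofReal ((ps.N p z g) ^ (-E)) := by
    rw [← ENNReal.tsum_mul_left]
    let c : pm_HD8_W ps K κ G I e e' → Gn := fun g => ⟨g.1, pm_HD8_W_mem H g.2⟩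
    have hc : Function.Injective c := by
      intro x y hxy
      exact Subtype.ext (congrArg (fun u : Gn => (u : Γ)) hxy)
    refine (ENNReal.tsum_le_tsum fun g => ?_).trans (ENNReal.tsum_comp_le_tsum_of_injective hc
      (fun g : Gn => ENNReal.ofReal ((ps.N p z g) ^ (-E))))
    have h4 := pm_HD8_N_pos (ps := ps) z e e' (g : Γ)
    rw [← ENNReal.ofReal_mul (by positivity), ← Real.mul_rpow hC0.le h4.le]
    exact ENNReal.ofReal_le_ofReal (Real.rpow_le_rpow_of_nonpos (hNp _) (hcmp _) (by linarith))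
  rw [hW, ENNReal.mul_top] at hle
  · exact top_le_iff.1 hle
  · have : 0 < C ^ (-E) := by positivity
    simp [this]


end HD8

section
variable (B : Base) (b : Fin 3 → Bool)

private theorem pm_HD2_intertw (φ ψ : F2 →* SL(3, ℝ)) (T : M3)
    (hg : ∀ c, (φ (FreeGroup.of c) : M3) * T = T * (ψ (FreeGroup.of c) : M3)) (g : F2) :
    (φ g : M3) * T = T * (ψ g : M3) := by
  have hinv : ∀ A : SL(3, ℝ), ((A⁻¹ : SL(3, ℝ)) : M3) * (A : M3) = 1 ∧
      (A : M3) * ((A⁻¹ : SL(3, ℝ)) : M3) = 1 := by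
    intro A
    constructor
    · rw [← Matrix.SpecialLinearGroup.coe_mul, inv_mul_cancel, Matrix.SpecialLinearGroup.coe_one]
    · rw [← Matrix.SpecialLinearGroup.coe_mul, mul_inv_cancel, Matrix.SpecialLinearGroup.coe_one]
  have hi : ∀ g, (φ g : M3) * T = T * (ψ g : M3) → (φ g⁻¹ : M3) * T = T * (ψ g⁻¹ : M3) := by
    intro g h
    rw [map_inv, map_inv]
    calc (((φ g)⁻¹ : SL(3, ℝ)) : M3) * T
        = (((φ g)⁻¹ : SL(3, ℝ)) : M3) * T * ((ψ g : M3) * (((ψ g)⁻¹ : SL(3, ℝ)) : M3)) := by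
          rw [(hinv (ψ g)).2, Matrix.mul_one]
      _ = (((φ g)⁻¹ : SL(3, ℝ)) : M3) * (T * (ψ g : M3)) * (((ψ g)⁻¹ : SL(3, ℝ)) : M3) := by
          simp only [Matrix.mul_assoc]
      _ = (((φ g)⁻¹ : SL(3, ℝ)) : M3) * ((φ g : M3) * T) * (((ψ g)⁻¹ : SL(3, ℝ)) : M3) := by rw [h]
      _ = ((((φ g)⁻¹ : SL(3, ℝ)) : M3) * (φ g : M3)) * T * (((ψ g)⁻¹ : SL(3, ℝ)) : M3) := by
          simp only [Matrix.mul_assoc]
      _ = _ := by rw [(hinv (φ g)).1, Matrix.one_mul]
  induction g using FreeGroup.induction_on with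
  | C1 => simp
  | of c => exact hg c
  | inv_of c h => exact hi _ h
  | mul x y hx hy =>
    rw [map_mul, map_mul, Matrix.SpecialLinearGroup.coe_mul, Matrix.SpecialLinearGroup.coe_mul,
      Matrix.mul_assoc, hy, ← Matrix.mul_assoc, hx, Matrix.mul_assoc]

/-- the handle representation of the handle `i` in the frame of the polygon -/
private def pm_HD2_H (i : Fin 3) (a th : ℝ) : F2 →* SL(3, ℝ) :=
  FreeGroup.lift (fun c => if c then ⟨B.hY i a th, B.hY_det i a th⟩ else ⟨B.hX i, B.hX_det i⟩)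

private theorem pm_HD2_H_f (i : Fin 3) (a th : ℝ) :
    (pm_HD2_H B i a th (FreeGroup.of false) : M3) = B.hX i := by
  simp [pm_HD2_H]

private theorem pm_HD2_H_t (i : Fin 3) (a th : ℝ) :
    (pm_HD2_H B i a th (FreeGroup.of true) : M3) = B.hY i a th := by
  simp [pm_HD2_H]

private theorem pm_HD2_det {A : M2} (h : A.det = 1) : IsUnit (symMat A).det := by
  rw [symMat_det, h]; simp

private theorem pm_HD2_cj (i : Fin 3) (d : Fin 3 → ℝ) :
    cj (B.fp (i + 1)) d * symMat B.rt = symMat B.rt * cj (B.fp i) d := by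
  have hr := pm_HD2_det B.rt_det
  unfold cj
  rw [B.fp_rot i, Matrix.mul_inv_rev]
  simp only [Matrix.mul_assoc]
  rw [Matrix.nonsing_inv_mul _ hr, Matrix.mul_one]

private theorem pm_HD2_rot (i : Fin 3) (a th : ℝ) (g : F2) :
    (pm_HD2_H B (i + 1) a th g : M3) * symMat B.rt = symMat B.rt * (pm_HD2_H B i a th g : M3) := by
  refine pm_HD2_intertw _ _ _ ?_ g
  intro c
  cases c
  · rw [pm_HD2_H_f, pm_HD2_H_f]
    unfold Base.hX
    rw [← symMat_mul, ← symMat_mul, B.X_rot]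
  · rw [pm_HD2_H_t, pm_HD2_H_t]
    unfold Base.hY Base.Dm
    rw [Matrix.mul_assoc, pm_HD2_cj, ← Matrix.mul_assoc, ← symMat_mul, B.Y_rot, symMat_mul,
      Matrix.mul_assoc]

private theorem pm_HD2_frame (i : Fin 3) (a th : ℝ) (g : F2) :
    (symMat (B.fd (i + 1) * J2))⁻¹ * (pm_HD2_H B (i + 1) a th g : M3) * symMat (B.fd (i + 1) * J2) =
    (symMat (B.fd i * J2))⁻¹ * (pm_HD2_H B i a th g : M3) * symMat (B.fd i * J2) := by
  have hr := pm_HD2_det B.rt_det
  have e : symMat (B.fd (i + 1) * J2) = symMat B.rt * symMat (B.fd i * J2) := by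
    rw [symMat_mul, B.fd_rot, symMat_mul, Matrix.mul_assoc]
  rw [e, Matrix.mul_inv_rev]
  calc (symMat (B.fd i * J2))⁻¹ * (symMat B.rt)⁻¹ * (pm_HD2_H B (i + 1) a th g : M3) *
        (symMat B.rt * symMat (B.fd i * J2))
      = (symMat (B.fd i * J2))⁻¹ * ((symMat B.rt)⁻¹ * ((pm_HD2_H B (i + 1) a th g : M3) *
        symMat B.rt)) * symMat (B.fd i * J2) := by simp only [Matrix.mul_assoc]
    _ = (symMat (B.fd i * J2))⁻¹ * (((symMat B.rt)⁻¹ * symMat B.rt) *
        (pm_HD2_H B i a th g : M3)) * symMat (B.fd i * J2) := by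
        rw [pm_HD2_rot]; simp only [Matrix.mul_assoc]
    _ = _ := by rw [Matrix.nonsing_inv_mul _ hr, Matrix.one_mul]

private theorem pm_HD2_frame0 (i : Fin 3) (a th : ℝ) (g : F2) :
    (symMat (B.fd i * J2))⁻¹ * (pm_HD2_H B i a th g : M3) * symMat (B.fd i * J2) =
    (symMat (B.fd 0 * J2))⁻¹ * (pm_HD2_H B 0 a th g : M3) * symMat (B.fd 0 * J2) := by
  fin_cases i
  · rfl
  · exact pm_HD2_frame B 0 a th g
  · exact (pm_HD2_frame B 1 a th g).trans (pm_HD2_frame B 0 a th g)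

private theorem pm_HD2_rep (z : ZI) (i : Fin 3) (g : F2) :
    (B.repI b z (phi (b i) i g) : M3) * B.gI b z i =
      B.gI b z i * (pm_HD2_H B i (z.a i) (z.th i) g : M3) := by
  have hu : IsUnit (B.gI b z i).det := isUnit_iff_ne_zero.2 (B.gI_det b z i)
  refine pm_HD2_intertw ((B.repI b z).comp (phi (b i) i)) _ _ ?_ g
  intro c
  have key : ∀ A : M3, B.gI b z i * A * (B.gI b z i)⁻¹ * B.gI b z i = B.gI b z i * A := by
    intro A
    rw [Matrix.mul_assoc, Matrix.nonsing_inv_mul _ hu, Matrix.mul_one]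
  cases c
  · rw [pm_HD2_H_f]
    cases hbi : b i
    · have e : (((B.repI b z).comp (phi false i)) (FreeGroup.of false) : M3) = B.mX b z i := by
        rw [← B.repI_x b z i]; simp [phi]
      rw [e]
      unfold Base.mX
      rw [hbi]
      exact key _
    · have e : (((B.repI b z).comp (phi true i)) (FreeGroup.of false) : M3) = B.mY b z i := by
        rw [← B.repI_y b z i]; simp [phi]
      rw [e]
      unfold Base.mY
      rw [hbi]
      exact key _
  · rw [pm_HD2_H_t]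
    cases hbi : b i
    · have e : (((B.repI b z).comp (phi false i)) (FreeGroup.of true) : M3) = B.mY b z i := by
        rw [← B.repI_y b z i]; simp [phi]
      rw [e]
      unfold Base.mY
      rw [hbi]
      exact key _
    · have e : (((B.repI b z).comp (phi true i)) (FreeGroup.of true) : M3) = B.mX b z i := by
        rw [← B.repI_x b z i]; simp [phi]
      rw [e]
      unfold Base.mX
      rw [hbi]
      exact key _

private theorem pm_HD2_P3 : P3 * P3 = 1 := by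
  ext i j
  fin_cases i <;> fin_cases j <;> simp [P3, Matrix.mul_apply, Fin.sum_univ_three]

private theorem pm_HD2_nrm (A : M3) : nrm (P3 * A * P3) = nrm A := by
  simp only [nrm, P3, Matrix.mul_apply, Fin.sum_univ_three]
  simp
  ring

/-- sizes of the handle groups -/
theorem N_handle (z : ZI) (i : Fin 3) (g : F2) :
    (B.psI b).N (QI.dH i) z (phi (b i) i g) = B.NH (z.a i) (z.th i) g := by
  have hu : IsUnit (B.gI b z i).det := isUnit_iff_ne_zero.2 (B.gI_det b z i)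
  have hF : ((B.psI b).F (QI.dH i) z : M3) =
      B.gI b z i * symMat (B.fd i * J2) * (if b i then P3 else 1) := by
    have := glOf_coe (B.FI_det b (QI.dH i) z)
    exact this
  have hr : ((B.psI b).r z (phi (b i) i g) : M3) = (B.repI b z (phi (b i) i g) : M3) := rfl
  unfold PS.N Base.NH
  rw [Matrix.coe_units_inv, hF, hr]
  have hP : (if b i then P3 else (1 : M3))⁻¹ = (if b i then P3 else 1) := by
    split_ifs
    · exact Matrix.inv_eq_left_inv pm_HD2_P3
    · exact inv_one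
  have e1 : (B.gI b z i * symMat (B.fd i * J2) * (if b i then P3 else 1))⁻¹ *
      (B.repI b z (phi (b i) i g) : M3) * (B.gI b z i * symMat (B.fd i * J2) *
      (if b i then P3 else 1)) =
      (if b i then P3 else 1) * ((symMat (B.fd i * J2))⁻¹ *
        (pm_HD2_H B i (z.a i) (z.th i) g : M3) * symMat (B.fd i * J2)) * (if b i then P3 else 1) := by
    rw [Matrix.mul_inv_rev, Matrix.mul_inv_rev, hP]
    calc (if b i then P3 else 1) * ((symMat (B.fd i * J2))⁻¹ * (B.gI b z i)⁻¹) *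
          (B.repI b z (phi (b i) i g) : M3) * (B.gI b z i * symMat (B.fd i * J2) *
          (if b i then P3 else 1))
        = (if b i then P3 else 1) * ((symMat (B.fd i * J2))⁻¹ * ((B.gI b z i)⁻¹ *
          ((B.repI b z (phi (b i) i g) : M3) * B.gI b z i)) * symMat (B.fd i * J2)) *
          (if b i then P3 else 1) := by simp only [Matrix.mul_assoc]
      _ = (if b i then P3 else 1) * ((symMat (B.fd i * J2))⁻¹ * (((B.gI b z i)⁻¹ *
          B.gI b z i) * (pm_HD2_H B i (z.a i) (z.th i) g : M3)) * symMat (B.fd i * J2)) *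
          (if b i then P3 else 1) := by
          rw [pm_HD2_rep]; simp only [Matrix.mul_assoc]
      _ = _ := by rw [Matrix.nonsing_inv_mul _ hu, Matrix.one_mul]
  rw [e1, pm_HD2_frame0]
  have e2 : (pm_HD2_H B 0 (z.a i) (z.th i) g : M3) = (B.Hr (z.a i) (z.th i) g : M3) := rfl
  rw [e2]
  split_ifs
  · exact pm_HD2_nrm _
  · rw [Matrix.one_mul, Matrix.mul_one]

private theorem pm_HD2_mem (b : Bool) (i : Fin 3) (g : F2) : phi b i g ∈ BH i := by
  rw [← phi_range b i]; exact ⟨g, rfl⟩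

theorem poin_handle (z : ZI) (i : Fin 3) (s : ℝ) :
    ∑' g : BH i, ENNReal.ofReal (((B.psI b).N (QI.dH i) z g) ^ (-s)) =
      poin (⊤ : Subgroup F2) (B.NH (z.a i) (z.th i)) s := by
  unfold poin
  let e : (⊤ : Subgroup F2) → BH i := fun g => ⟨phi (b i) i g, pm_HD2_mem (b i) i g⟩
  have he : Function.Bijective e := by
    constructor
    · intro x y hxy
      exact Subtype.ext (phi_inj (b i) i (congrArg Subtype.val hxy))
    · rintro ⟨y, hy⟩
      have hy' : y ∈ (phi (b i) i).range := by rw [phi_range]; exact hy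
      obtain ⟨g, rfl⟩ := hy'
      exact ⟨⟨g, Subgroup.mem_top g⟩, rfl⟩
  rw [← (Equiv.ofBijective e he).tsum_eq (fun g : BH i =>
    ENNReal.ofReal (((B.psI b).N (QI.dH i) z g) ^ (-s)))]
  refine tsum_congr fun g => ?_
  have : ((Equiv.ofBijective e he g : BH i) : Surf) = phi (b i) i g := rfl
  rw [this, N_handle]

theorem expo_handle (z : ZI) (i : Fin 3) :
    expo (BH i) ((B.psI b).N (QI.dH i) z) = B.EH (z.a i) (z.th i) := by
  unfold Base.EH expo
  have h : ∀ T : ℝ, (nX (BH i) ((B.psI b).N (QI.dH i) z) T).ncard =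
      (nX (⊤ : Subgroup F2) (B.NH (z.a i) (z.th i)) T).ncard := by
    intro T
    have e : nX (BH i) ((B.psI b).N (QI.dH i) z) T =
        (phi (b i) i) '' (nX (⊤ : Subgroup F2) (B.NH (z.a i) (z.th i)) T) := by
      ext y
      constructor
      · rintro ⟨hy, hN⟩
        have hy' : y ∈ (phi (b i) i).range := by rw [phi_range]; exact hy
        obtain ⟨g, rfl⟩ := hy'
        rw [N_handle] at hN
        exact ⟨g, ⟨Subgroup.mem_top g, hN⟩, rfl⟩
      · rintro ⟨g, ⟨-, hN⟩, rfl⟩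
        refine ⟨pm_HD2_mem (b i) i g, ?_⟩
        rw [N_handle]
        exact hN
    rw [e, Set.ncard_image_of_injective _ (phi_inj (b i) i)]
  simp_rw [h]

/-! ### discreteness -/

private def pm_HD3_b0 : Fin 3 → Bool := fun _ => false

private def pm_HD3_z0 : ZI := ⟨0, 0, 0⟩

private theorem pm_HD3_cj_one {f : M2} (hf : f.det = 1) : cj f (dgv 0 0) = 1 := by
  have h1 : diagonal (dgv 0 0) = (1 : M3) := by
    rw [← diagonal_one]
    congr 1
    funext i
    fin_cases i <;> simp [dgv]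
  have h2 : IsUnit (symMat f).det := by rw [symMat_det, hf]; simp
  unfold cj
  rw [h1, Matrix.mul_one, Matrix.mul_nonsing_inv _ h2]

private theorem pm_HD3_zero : B.repI pm_HD3_b0 pm_HD3_z0 = irr.comp B.rhoS := by
  have hZ : ∀ i, B.Zb pm_HD3_z0 i = 1 := by
    intro i
    have : pm_HD3_z0.t i = 0 := rfl
    unfold Base.Zb
    rw [this, pm_HD3_cj_one (B.fd_det i)]
  have hY : ∀ i, B.hY i (pm_HD3_z0.a i) (pm_HD3_z0.th i) = symMat (B.Y i) := by
    intro i
    have h1 : pm_HD3_z0.a i = 0 := rfl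
    have h2 : pm_HD3_z0.th i = 0 := rfl
    unfold Base.hY Base.Dm
    rw [h1, h2, zero_mul, neg_zero, pm_HD3_cj_one (B.fp_det i), Matrix.mul_one]
  refine surf_ext (fun i => ?_) (fun i => ?_)
  · apply Subtype.ext
    rw [B.repI_x pm_HD3_b0 pm_HD3_z0 i]
    have e : ((irr.comp B.rhoS) (sx i) : M3) = symMat (B.X i) := by
      rw [← B.rhoS_x i]; rfl
    rw [e]
    unfold Base.mX Base.gI
    rw [hZ i, hY i, Matrix.one_mul]
    simp [Base.hX, pm_HD3_b0]
  · apply Subtype.ext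
    rw [B.repI_y pm_HD3_b0 pm_HD3_z0 i]
    have e : ((irr.comp B.rhoS) (sy i) : M3) = symMat (B.Y i) := by
      rw [← B.rhoS_y i]; rfl
    rw [e]
    unfold Base.mY Base.gI
    rw [hZ i, hY i, Matrix.one_mul]
    simp [pm_HD3_b0]

private theorem pm_HD3_sym (A : M2) : nrm (symMat A) ≤ 2 * nrm2 A ^ 2 := by
  have h2 : |(2 : ℝ)| = 2 := abs_of_pos (by norm_num)
  have h3 : |A 0 0 * A 1 1 + A 0 1 * A 1 0| ≤ |A 0 0| * |A 1 1| + |A 0 1| * |A 1 0| := by
    refine (abs_add_le _ _).trans ?_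
    rw [abs_mul, abs_mul]
  have e : nrm (symMat A) = |A 0 0| * |A 0 0| + 2 * (|A 0 0| * |A 0 1|) + |A 0 1| * |A 0 1| +
      (|A 0 0| * |A 1 0| + |A 0 0 * A 1 1 + A 0 1 * A 1 0| + |A 0 1| * |A 1 1|) +
      (|A 1 0| * |A 1 0| + 2 * (|A 1 0| * |A 1 1|) + |A 1 1| * |A 1 1|) := by
    simp [nrm, symMat, Fin.sum_univ_three, abs_mul]
  have e2 : nrm2 A = |A 0 0| + |A 0 1| + (|A 1 0| + |A 1 1|) := by
    simp [nrm2, Fin.sum_univ_two]
  rw [e, e2]
  have a1 := abs_nonneg (A 0 0)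
  have a2 := abs_nonneg (A 0 1)
  have a3 := abs_nonneg (A 1 0)
  have a4 := abs_nonneg (A 1 1)
  nlinarith [mul_nonneg a1 a2, mul_nonneg a1 a3, mul_nonneg a1 a4, mul_nonneg a2 a3,
    mul_nonneg a2 a4, mul_nonneg a3 a4, mul_nonneg a1 a1, mul_nonneg a2 a2, mul_nonneg a3 a3,
    mul_nonneg a4 a4]

private theorem pm_HD3_det (z : ZI) (g : Surf) :
    (((B.psI b).r z g : GL (Fin 3) ℝ) : M3).det = 1 := (B.repI b z g).2

/-- a parameter where the closed group has finitely many elements of bounded size -/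
private theorem pm_HD3_big : ∃ z : ZI, ∀ R : ℝ,
    {γ : Surf | (B.psI pm_HD3_b0).N (QI.dP 0) z γ ≤ R}.Finite := by
  obtain ⟨K, κ, Φ, P⟩ := exists_PkI B pm_HD3_b0
  obtain ⟨τ₀, hτ, A₁, hA₁, hw⟩ := P.weakB 1
  obtain ⟨A₀, hA₀, hz⟩ := P.zz 1
  obtain ⟨C, hC, hx⟩ := crossI B pm_HD3_b0
  set I : Set QI := {p | ∃ i, p = QI.dP i ∨ p = QI.dH i} with hI
  have hIf : I.Finite := by
    have : I = Set.range QI.dP ∪ Set.range QI.dH := by
      ext p
      constructor
      · rintro ⟨i, h | h⟩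
        · exact Or.inl ⟨i, h.symm⟩
        · exact Or.inr ⟨i, h.symm⟩
      · rintro (⟨i, h⟩ | ⟨i, h⟩)
        · exact ⟨i, Or.inl h.symm⟩
        · exact ⟨i, Or.inr h.symm⟩
    rw [this]
    exact (Set.finite_range _).union (Set.finite_range _)
  set A : ℝ := max A₀ A₁ with hA
  have hApos : 0 < A := lt_max_of_lt_left hA₀
  -- the large bulge
  obtain ⟨T, hT0, hT⟩ : ∃ T : ℝ, 0 ≤ T ∧
      (I.ncard : ℝ) * A * (C * Real.exp (-(1 / 2) * T)) ≤ 1 / 2 := by
    have h1 : Tendsto (fun T : ℝ => (I.ncard : ℝ) * A * (C * Real.exp (-(1 / 2) * T))) atTop (𝓝 0) := by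
      have h2 : Tendsto (fun T : ℝ => Real.exp (-(1 / 2) * T)) atTop (𝓝 0) :=
        Real.tendsto_exp_atBot.comp (tendsto_id.const_mul_atTop_of_neg (by norm_num))
      simpa using (h2.const_mul C).const_mul ((I.ncard : ℝ) * A)
    obtain ⟨T, h2, h3⟩ := ((h1.eventually (ge_mem_nhds (by norm_num : (0 : ℝ) < 1 / 2))).and
      (eventually_ge_atTop 0)).exists
    exact ⟨T, h3, h2⟩
  set z : ZI := ⟨fun _ => T, fun _ => τ₀, fun _ => 0⟩ with hzdef
  refine ⟨z, fun R => ?_⟩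
  have hfin : ∑' g : (⊤ : Subgroup Surf), ENNReal.ofReal (((B.psI pm_HD3_b0).N (QI.dP 0) z g) ^ (-(1 : ℝ))) < ⊤ := by
    refine poin_glue (gh7 B pm_HD3_b0) (K := K) P.hκ.le (Λ := Set.univ) (Set.subset_univ _) ?_ hIf
      (A := A) (δ := C * Real.exp (-(1 / 2) * T)) one_pos hApos.le (by positivity) z ?_ ?_ hT
      (p := QI.dP 0) ⟨0, Or.inl rfl⟩
    · intro v
      cases v with
      | none => exact P.vz.vc Set.univ
      | some i => exact VC.mono le_rfl le_rfl (Set.subset_univ _) (le_refl _) (P.vB i).1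
    · intro v
      cases v with
      | none =>
        intro p hp q hq
        exact (hz Set.univ z 1 (by norm_num) le_rfl p hp q hq).trans
          (ENNReal.ofReal_le_ofReal (le_max_left _ _))
      | some i =>
        intro p hp q hq
        have hp' : p = QI.dH i := hp
        have hq' : q = QI.dH i := hq
        rw [hp', hq']
        exact (hw z i le_rfl 1 (by norm_num) le_rfl Set.univ (Set.subset_univ _)).trans
          (ENNReal.ofReal_le_ofReal (le_max_right _ _))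
    · rintro e ⟨i, rfl | rfl⟩
      · exact hx (QI.dP i) z 1 hT0 (by norm_num)
      · exact hx (QI.dH i) z 1 hT0 (by norm_num)
  have h1 : ∀ g ∈ (⊤ : Subgroup Surf), 1 ≤ (B.psI pm_HD3_b0).N (QI.dP 0) z g := fun g _ =>
    (N_basic (B.psI pm_HD3_b0) (QI.dP 0) z (pm_HD3_det B pm_HD3_b0 z)).1 g
  obtain ⟨-, h2⟩ := expo_le_of_poin h1 (zero_le_one) hfin
  refine (h2 (Real.log (max R 1))).subset ?_
  intro γ hγ
  refine ⟨Subgroup.mem_top _, ?_⟩
  rw [Real.exp_log (lt_max_of_lt_right one_pos)]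
  exact le_trans hγ (le_max_left _ _)

/-- the closed group is discrete in the Fuchsian representation -/
theorem fuchs_fin (C : ℝ) : {γ : Surf | nrm2 (B.rhoS γ : M2) ≤ C}.Finite := by
  obtain ⟨zb, hzb⟩ := pm_HD3_big B
  obtain ⟨K, κ, Φ, P⟩ := exists_PkI B pm_HD3_b0
  obtain ⟨c, hc, hcc⟩ := P.size_top pm_HD3_z0 zb 0
  obtain ⟨c', hc', hfr⟩ := nrm_frame_change ((B.psI pm_HD3_b0).F (QI.dP 0) pm_HD3_z0) 1
  have h1 : ∀ g, 1 ≤ (B.psI pm_HD3_b0).N (QI.dP 0) zb g :=
    (N_basic (B.psI pm_HD3_b0) (QI.dP 0) zb (pm_HD3_det B pm_HD3_b0 zb)).1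
  have h10 : ∀ g, 1 ≤ (B.psI pm_HD3_b0).N (QI.dP 0) pm_HD3_z0 g :=
    (N_basic (B.psI pm_HD3_b0) (QI.dP 0) pm_HD3_z0 (pm_HD3_det B pm_HD3_b0 pm_HD3_z0)).1
  refine (hzb (Real.exp (c * (1 + Real.log (max 1 (c' * (2 * C ^ 2))))))).subset ?_
  intro γ hγ
  have hγ' : nrm2 (B.rhoS γ : M2) ≤ C := hγ
  have hn0 : 0 ≤ nrm2 (B.rhoS γ : M2) := Finset.sum_nonneg fun i _ =>
    Finset.sum_nonneg fun j _ => abs_nonneg _
  have e1 : (B.psI pm_HD3_b0).N (QI.dP 0) pm_HD3_z0 γ ≤ c' * nrm (symMat (B.rhoS γ : M2)) := by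
    have h2 := hfr (((B.psI pm_HD3_b0).r pm_HD3_z0 γ : GL (Fin 3) ℝ) : M3)
    have e : (((B.psI pm_HD3_b0).r pm_HD3_z0 γ : GL (Fin 3) ℝ) : M3) = symMat (B.rhoS γ : M2) := by
      have e3 : (((B.psI pm_HD3_b0).r pm_HD3_z0 γ : GL (Fin 3) ℝ) : M3) =
          (B.repI pm_HD3_b0 pm_HD3_z0 γ : M3) := rfl
      rw [e3, pm_HD3_zero]
      rfl
    rw [e] at h2
    simp only [inv_one, Units.val_one, Matrix.one_mul, Matrix.mul_one] at h2
    unfold PS.N
    rw [e]
    exact h2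
  have e2 : (B.psI pm_HD3_b0).N (QI.dP 0) pm_HD3_z0 γ ≤ max 1 (c' * (2 * C ^ 2)) := by
    refine le_trans (e1.trans ?_) (le_max_right _ _)
    refine mul_le_mul_of_nonneg_left ((pm_HD3_sym _).trans ?_) hc'.le
    have := pow_le_pow_left₀ hn0 hγ' 2
    linarith
  have e3 := (hcc γ).1
  have hpos : 0 < (B.psI pm_HD3_b0).N (QI.dP 0) zb γ := by linarith [h1 γ]
  have hpos0 : 0 < (B.psI pm_HD3_b0).N (QI.dP 0) pm_HD3_z0 γ := by linarith [h10 γ]
  have e4 : Real.log ((B.psI pm_HD3_b0).N (QI.dP 0) zb γ) ≤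
      c * (1 + Real.log (max 1 (c' * (2 * C ^ 2)))) := by
    refine e3.trans (mul_le_mul_of_nonneg_left ?_ hc.le)
    have := Real.log_le_log hpos0 e2
    linarith
  show (B.psI pm_HD3_b0).N (QI.dP 0) zb γ ≤ _
  rw [← Real.log_le_iff_le_exp hpos]
  exact e4

private theorem pm_HD3_ne {γ : Surf} (hγ : γ ≠ 1) : B.rhoS γ ≠ 1 ∧ - B.rhoS γ ≠ 1 := by
  obtain ⟨K, κ, Φ, P⟩ := exists_PkI B pm_HD3_b0
  obtain ⟨γ', -, hconj, φ, -, cw, hok, hcw⟩ := P.top γ (Subgroup.mem_top _) hγ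
  have h1 := (nrm_evC_le P.hκ hok (B.psI pm_HD3_b0) pm_HD3_z0).2
  rw [← hcw pm_HD3_z0, pm_GoGG3_lam'] at h1
  have hlog : 0 < Real.log (1 + κ) := Real.log_pos (by linarith [P.hκ])
  have e : (((B.psI pm_HD3_b0).r pm_HD3_z0 γ' : GL (Fin 3) ℝ) : M3) = symMat (B.rhoS γ' : M2) := by
    have e3 : (((B.psI pm_HD3_b0).r pm_HD3_z0 γ' : GL (Fin 3) ℝ) : M3) =
        (B.repI pm_HD3_b0 pm_HD3_z0 γ' : M3) := rfl
    rw [e3, pm_HD3_zero]
    rfl
  rw [e] at h1
  obtain ⟨c, hc⟩ := isConj_iff.1 hconj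
  have h2 : symMat (B.rhoS γ' : M2) ≠ 1 := by
    intro h
    rw [h, lam_one, Real.log_one] at h1
    linarith
  constructor
  · intro h
    apply h2
    have h3 : B.rhoS γ' = 1 := by
      rw [← hc, map_mul, map_mul, h, map_inv, mul_one, mul_inv_cancel]
    rw [h3, Matrix.SpecialLinearGroup.coe_one, symMat_one]
  · intro h
    apply h2
    have h4 : B.rhoS γ = -1 := by
      rw [← h, neg_neg]
    have h3 : B.rhoS γ' = -1 := by
      rw [← hc, map_mul, map_mul, h4, map_inv]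
      simp
    rw [h3]
    ext i j
    fin_cases i <;> fin_cases j <;> simp [symMat]

theorem fuchs_isFuchsian : IsFuchsian B.rhoS := by
  have hcont : Continuous (fun A : SL(2, ℝ) => nrm2 (A : M2)) := by
    unfold nrm2
    refine continuous_finset_sum _ fun i _ => continuous_finset_sum _ fun j _ => ?_
    exact ((continuous_subtype_val.matrix_elem i j)).abs
  have hF := fuchs_fin B 3
  set S3 : Set Surf := {γ : Surf | nrm2 (B.rhoS γ : M2) ≤ 3} \ {1} with hS3
  have hS3f : S3.Finite := hF.subset Set.diff_subset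
  set U : Set SL(2, ℝ) := {A | nrm2 (A : M2) < 3} ∩
    ((B.rhoS '' S3)ᶜ ∩ ((fun A => - A) '' (B.rhoS '' S3))ᶜ) with hU
  have hnrm1 : nrm2 ((1 : SL(2, ℝ)) : M2) < 3 := by
    simp [nrm2, Fin.sum_univ_two]
    norm_num
  refine ⟨U, ?_, ?_⟩
  · refine Filter.inter_mem ((isOpen_lt hcont continuous_const).mem_nhds hnrm1)
      (Filter.inter_mem ?_ ?_)
    · refine ((hS3f.image _).isClosed.isOpen_compl).mem_nhds ?_
      rintro ⟨γ, hγ, h⟩
      exact (pm_HD3_ne B (fun h1 => hγ.2 h1)).1 h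
    · refine (((hS3f.image _).image _).isClosed.isOpen_compl).mem_nhds ?_
      rintro ⟨_, ⟨γ, hγ, rfl⟩, h⟩
      exact (pm_HD3_ne B (fun h1 => hγ.2 h1)).2 h
  · intro γ hγ
    have hneg : nrm2 ((-B.rhoS γ : SL(2, ℝ)) : M2) = nrm2 (B.rhoS γ : M2) := by
      simp [nrm2]
    by_contra hne
    rcases hγ with h | h
    · have h00 : nrm2 ((B.rhoS γ : SL(2, ℝ)) : M2) < 3 := h.1
      have h1 : γ ∈ S3 := ⟨le_of_lt h00, hne⟩
      exact h.2.1 ⟨γ, h1, rfl⟩
    · have h0 : nrm2 ((-B.rhoS γ : SL(2, ℝ)) : M2) < 3 := h.1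
      rw [hneg] at h0
      have h1 : γ ∈ S3 := ⟨le_of_lt h0, hne⟩
      exact h.2.2 ⟨_, ⟨γ, h1, rfl⟩, rfl⟩

private theorem pm_HD4_inv_cont {f : ℝ → M3} (hf : Continuous f) (h : ∀ s, (f s).det ≠ 0) :
    Continuous (fun s => (f s)⁻¹) := by
  have e : (fun s => (f s)⁻¹) = fun s => ((f s).det)⁻¹ • (f s).adjugate := by
    funext s
    rw [Matrix.inv_def, Ring.inverse_eq_inv']
  rw [e]
  exact (hf.matrix_det.inv₀ h).smul hf.matrix_adjugate

private theorem pm_HD4_dgv {u v : ℝ → ℝ} (hu : Continuous u) (hv : Continuous v) :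
    Continuous (fun s => dgv (u s) (v s)) := by
  unfold dgv
  refine continuous_pi fun i => ?_
  fin_cases i
  · exact Real.continuous_exp.comp (hu.add hv)
  · exact Real.continuous_exp.comp (continuous_const.mul hu).neg
  · exact Real.continuous_exp.comp (hu.sub hv)

private theorem pm_HD4_cj (f : M2) {g : ℝ → Fin 3 → ℝ} (hg : Continuous g) :
    Continuous (fun s => cj f (g s)) := by
  unfold cj
  exact (continuous_const.matrix_mul hg.matrix_diagonal).matrix_mul continuous_const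

private theorem pm_HD4_symMat_det {A : M2} (h : A.det ≠ 0) : (symMat A).det ≠ 0 := by
  rw [symMat_det]; exact pow_ne_zero 3 h

private theorem pm_HD4_cj_one {f : M2} (hf : f.det = 1) : cj f (dgv 0 0) = 1 := by
  have h1 : diagonal (dgv 0 0) = (1 : M3) := by
    rw [← diagonal_one]
    congr 1
    funext i
    fin_cases i <;> simp [dgv]
  unfold cj
  rw [h1, Matrix.mul_one, Matrix.mul_nonsing_inv _ (isUnit_iff_ne_zero.2
    (pm_HD4_symMat_det (by rw [hf]; norm_num)))]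

/-- the scaled parameter -/
private def pm_HD4_z (z : ZI) (s : ℝ) : ZI := ⟨s • z.t, s • z.a, s • z.th⟩

private theorem pm_HD4_zero (z : ZI) : B.repI b (pm_HD4_z z 0) = irr.comp B.rhoS := by
  have hZ : ∀ i, B.Zb (pm_HD4_z z 0) i = 1 := by
    intro i
    have : (pm_HD4_z z 0).t i = 0 := by simp [pm_HD4_z]
    unfold Base.Zb
    rw [this, pm_HD4_cj_one (B.fd_det i)]
  have hY : ∀ i, B.hY i ((pm_HD4_z z 0).a i) ((pm_HD4_z z 0).th i) = symMat (B.Y i) := by
    intro i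
    have h1 : (pm_HD4_z z 0).a i = 0 := by simp [pm_HD4_z]
    have h2 : (pm_HD4_z z 0).th i = 0 := by simp [pm_HD4_z]
    unfold Base.hY Base.Dm
    rw [h1, h2, zero_mul, neg_zero, pm_HD4_cj_one (B.fp_det i), Matrix.mul_one]
  have hsw : ∀ i, symMat (B.sw i) * (symMat (B.sw i))⁻¹ = 1 := fun i =>
    Matrix.mul_nonsing_inv _ (isUnit_iff_ne_zero.2 (pm_HD4_symMat_det (by rw [B.sw_det i]; norm_num)))
  refine surf_ext (fun i => ?_) (fun i => ?_)
  · apply Subtype.ext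
    rw [B.repI_x b (pm_HD4_z z 0) i]
    have e : ((irr.comp B.rhoS) (sx i) : M3) = symMat (B.X i) := by
      rw [← B.rhoS_x i]; rfl
    rw [e]
    unfold Base.mX Base.gI
    rw [hZ i, hY i, Matrix.one_mul]
    cases b i
    · simp [Base.hX]
    · simp only [if_true]
      rw [← symMat_mul, B.sw_Y i, symMat_mul, Matrix.mul_assoc, hsw i, Matrix.mul_one]
  · apply Subtype.ext
    rw [B.repI_y b (pm_HD4_z z 0) i]
    have e : ((irr.comp B.rhoS) (sy i) : M3) = symMat (B.Y i) := by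
      rw [← B.rhoS_y i]; rfl
    rw [e]
    unfold Base.mY Base.gI
    rw [hZ i, hY i, Matrix.one_mul]
    cases b i
    · simp
    · simp only [if_true]
      unfold Base.hX
      rw [← symMat_mul, B.sw_X i, symMat_mul, Matrix.mul_assoc, hsw i, Matrix.mul_one]

private theorem pm_HD4_cont (z : ZI) : Continuous (fun s => B.repI b (pm_HD4_z z s)) := by
  have hg : ∀ i, Continuous (fun s => B.gI b (pm_HD4_z z s) i) := by
    intro i
    unfold Base.gI
    refine Continuous.matrix_mul ?_ continuous_const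
    unfold Base.Zb
    exact pm_HD4_cj _ (pm_HD4_dgv (continuous_id.mul continuous_const) continuous_const)
  have hgi : ∀ i, Continuous (fun s => (B.gI b (pm_HD4_z z s) i)⁻¹) := fun i =>
    pm_HD4_inv_cont (hg i) (fun s => B.gI_det b _ i)
  have hY : ∀ i, Continuous (fun s => B.hY i ((pm_HD4_z z s).a i) ((pm_HD4_z z s).th i)) := by
    intro i
    unfold Base.hY
    refine continuous_const.matrix_mul ?_
    unfold Base.Dm
    exact pm_HD4_cj _ (pm_HD4_dgv (continuous_id.mul continuous_const)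
      ((continuous_id.mul continuous_const).mul continuous_const).neg)
  have hX : ∀ k, Continuous (fun s => B.mX b (pm_HD4_z z s) k) := by
    intro k
    unfold Base.mX
    refine ((hg k).matrix_mul ?_).matrix_mul (hgi k)
    cases b k
    · exact continuous_const
    · exact hY k
  have hY' : ∀ k, Continuous (fun s => B.mY b (pm_HD4_z z s) k) := by
    intro k
    unfold Base.mY
    refine ((hg k).matrix_mul ?_).matrix_mul (hgi k)
    cases b k
    · exact hY k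
    · exact continuous_const
  refine continuous_of_gens _ fun k i j => ⟨?_, ?_⟩
  · have e : (fun s => (B.repI b (pm_HD4_z z s) (sx k) : M3) i j) =
        fun s => B.mX b (pm_HD4_z z s) k i j := by
      funext s; rw [B.repI_x]
    rw [e]
    exact (hX k).matrix_elem i j
  · have e : (fun s => (B.repI b (pm_HD4_z z s) (sy k) : M3) i j) =
        fun s => B.mY b (pm_HD4_z z s) k i j := by
      funext s; rw [B.repI_y]
    rw [e]
    exact (hY' k).matrix_elem i j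

theorem repI_hit (z : ZI) : B.repI b z ∈ Hit := by
  have h0 : B.repI b (pm_HD4_z z 0) ∈ Hit := by
    rw [pm_HD4_zero]
    exact ⟨B.rhoS, fuchs_isFuchsian B, mem_connectedComponent⟩
  have h1 := hit_of_joined (fun s => B.repI b (pm_HD4_z z s)) (pm_HD4_cont B b z) (y₀ := 0) h0 1
  have e : pm_HD4_z z 1 = z := by
    unfold pm_HD4_z
    simp only [one_smul]
  simpa only [e] using h1

theorem fuchs_fin_F (C : ℝ) : {γ : F2 | nrm2 (B.rhoF γ : M2) ≤ C}.Finite := by
  have e : B.rhoF = B.rhoS.comp (phi false 0) := by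
    apply FreeGroup.ext_hom
    intro c
    cases c <;> simp [Base.rhoF, phi]
  have h := (fuchs_fin B C).preimage (phi_inj false 0).injOn
  rw [e]
  exact h

private theorem pm_HD4_coe_inv (A : SL(2, ℝ)) : ((A⁻¹ : SL(2, ℝ)) : M2) = (A : M2)⁻¹ := by
  rw [Matrix.SpecialLinearGroup.coe_inv, Matrix.inv_def, A.2, Ring.inverse_one, one_smul]

private theorem pm_HD4_eg (L : ℝ) : (eg L).trace = -(Real.exp (-(L / 2)) + Real.exp (L / 2)) := by
  unfold eg
  simp [Matrix.trace_fin_two]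
  ring

private theorem pm_HD4_tr {A f : M2} {L : ℝ} (hf : f.det = 1) (h : A * f = f * eg L) :
    A.trace = -(Real.exp (-(L / 2)) + Real.exp (L / 2)) := by
  have hu : IsUnit f.det := by rw [hf]; exact isUnit_one
  have e : A = f * eg L * f⁻¹ := by
    rw [← h, Matrix.mul_assoc, Matrix.mul_nonsing_inv _ hu, Matrix.mul_one]
  rw [e, Matrix.trace_mul_comm, ← Matrix.mul_assoc, Matrix.nonsing_inv_mul _ hu, Matrix.one_mul,
    pm_HD4_eg]

private theorem pm_HD4_gt {L : ℝ} (hL : 0 < L) : 2 < Real.exp (-(L / 2)) + Real.exp (L / 2) := by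
  have h1 : 0 < Real.exp (L / 2) := Real.exp_pos _
  have h2 : 1 < Real.exp (L / 2) := Real.one_lt_exp_iff.2 (by linarith)
  rw [Real.exp_neg]
  have h3 : (Real.exp (L / 2))⁻¹ * Real.exp (L / 2) = 1 := inv_mul_cancel₀ h1.ne'
  have h4 : 0 < (Real.exp (L / 2))⁻¹ := by positivity
  nlinarith [mul_pos h4 (mul_pos (sub_pos.2 h2) (sub_pos.2 h2))]

private theorem pm_HD4_abs {x L : ℝ} (hL : 0 < L) (h : x = -(Real.exp (-(L / 2)) + Real.exp (L / 2))) :
    2 < |x| := by
  have := pm_HD4_gt hL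
  rw [h, abs_neg, abs_of_pos (by linarith)]
  exact this

private theorem pm_HD4_ne {x L : ℝ} (hL : 0 < L) (h : x = -(Real.exp (-(L / 2)) + Real.exp (L / 2))) :
    x ≠ 2 := by
  have := pm_HD4_gt hL
  intro h2
  linarith

private theorem pm_HD4_X (i : Fin 3) : (B.X i).trace = -(Real.exp (-(B.Lm / 2)) + Real.exp (B.Lm / 2)) :=
  pm_HD4_tr (B.fp_det i) (B.fp_eig i)

private theorem pm_HD4_Y (i : Fin 3) : (B.Y i).trace = -(Real.exp (-(B.Lm / 2)) + Real.exp (B.Lm / 2)) := by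
  rw [B.Y_tr i]
  exact pm_HD4_tr (B.fp_det i) (B.fp_eig i)

private theorem pm_HD4_C (i : Fin 3) : (B.X i * B.Y i * (B.X i)⁻¹ * (B.Y i)⁻¹).trace =
    -(Real.exp (-(B.Ld / 2)) + Real.exp (B.Ld / 2)) := by
  rw [B.com_XY i]
  exact pm_HD4_tr (B.fd_det i) (B.fd_eig i)

/-- the hyperbolic pair -/
theorem hyp_pair : 2 < |(B.rhoF gp : M2).trace| ∧ 2 < |(B.rhoF gr : M2).trace| ∧
    ((B.rhoF (gp * gr * gp⁻¹ * gr⁻¹)) : M2).trace ≠ 2 ∧
    2 < |(B.rhoS (sx 2) : M2).trace| ∧ 2 < |(B.rhoS (sy 2) : M2).trace| ∧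
    ((B.rhoS (sx 2 * sy 2 * (sx 2)⁻¹ * (sy 2)⁻¹)) : M2).trace ≠ 2 := by
  have hp : B.rhoF gp = B.rhoS (sx 0) := by simp [Base.rhoF, gp]
  have hr : B.rhoF gr = B.rhoS (sy 0) := by simp [Base.rhoF, gr]
  have hcom : ∀ i, ((B.rhoS (sx i) * B.rhoS (sy i) * (B.rhoS (sx i))⁻¹ * (B.rhoS (sy i))⁻¹ : SL(2, ℝ)) : M2) =
      B.X i * B.Y i * (B.X i)⁻¹ * (B.Y i)⁻¹ := by
    intro i
    rw [Matrix.SpecialLinearGroup.coe_mul, Matrix.SpecialLinearGroup.coe_mul,
      Matrix.SpecialLinearGroup.coe_mul, pm_HD4_coe_inv, pm_HD4_coe_inv, B.rhoS_x, B.rhoS_y]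
  refine ⟨?_, ?_, ?_, ?_, ?_, ?_⟩
  · rw [hp, B.rhoS_x]; exact pm_HD4_abs B.hLm (pm_HD4_X B 0)
  · rw [hr, B.rhoS_y]; exact pm_HD4_abs B.hLm (pm_HD4_Y B 0)
  · rw [map_mul, map_mul, map_mul, map_inv, map_inv, hp, hr, hcom 0]
    exact pm_HD4_ne B.hLd (pm_HD4_C B 0)
  · rw [B.rhoS_x]; exact pm_HD4_abs B.hLm (pm_HD4_X B 2)
  · rw [B.rhoS_y]; exact pm_HD4_abs B.hLm (pm_HD4_Y B 2)
  · rw [map_mul, map_mul, map_mul, map_inv, map_inv, hcom 2]
    exact pm_HD4_ne B.hLd (pm_HD4_C B 2)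

/-- the base parameter -/
private def pm_HD12_z0 : ZI := ⟨fun _ => 0, fun _ => 0, fun _ => 0⟩

private theorem pm_HD12_abs_le (A : M3) (i j : Fin 3) : |A i j| ≤ nrm A := by
  have h1 : |A i j| ≤ ∑ j', |A i j'| :=
    Finset.single_le_sum (f := fun j' => |A i j'|) (fun _ _ => abs_nonneg _) (Finset.mem_univ j)
  have h2 : ∑ j', |A i j'| ≤ nrm A :=
    Finset.single_le_sum (f := fun i' => ∑ j', |A i' j'|)
      (fun _ _ => Finset.sum_nonneg fun _ _ => abs_nonneg _) (Finset.mem_univ i)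
  exact h1.trans h2

private theorem pm_HD12_nrm2 (A : M2) : nrm2 A ≤ 4 * Real.sqrt (nrm (symMat A)) := by
  have h : ∀ i j, |A i j| ≤ Real.sqrt (nrm (symMat A)) := by
    intro i j
    apply Real.le_sqrt_of_sq_le
    rw [sq_abs]
    fin_cases i <;> fin_cases j
    · refine le_trans (le_of_eq ?_) (pm_HD12_abs_le (symMat A) 0 0)
      change A 0 0 ^ 2 = |A 0 0 * A 0 0|
      rw [abs_mul_self, sq]
    · refine le_trans (le_of_eq ?_) (pm_HD12_abs_le (symMat A) 0 2)
      change A 0 1 ^ 2 = |A 0 1 * A 0 1|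
      rw [abs_mul_self, sq]
    · refine le_trans (le_of_eq ?_) (pm_HD12_abs_le (symMat A) 2 0)
      change A 1 0 ^ 2 = |A 1 0 * A 1 0|
      rw [abs_mul_self, sq]
    · refine le_trans (le_of_eq ?_) (pm_HD12_abs_le (symMat A) 2 2)
      change A 1 1 ^ 2 = |A 1 1 * A 1 1|
      rw [abs_mul_self, sq]
  unfold nrm2
  simp only [Fin.sum_univ_two]
  have h1 := h 0 0
  have h2 := h 0 1
  have h3 := h 1 0
  have h4 := h 1 1
  linarith

private theorem pm_HD12_log (A : M2) (h : 1 ≤ nrm (symMat A)) :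
    Real.log (nrm2 A) ≤ Real.log 4 + 1 / 2 * Real.log (nrm (symMat A)) := by
  have hl := Real.log_nonneg h
  have h4 : 0 ≤ Real.log 4 := Real.log_nonneg (by norm_num)
  rcases eq_or_ne (nrm2 A) 0 with h0 | h0
  · rw [h0, Real.log_zero]
    linarith
  · have hpos : 0 < nrm2 A := lt_of_le_of_ne
      (Finset.sum_nonneg fun _ _ => Finset.sum_nonneg fun _ _ => abs_nonneg _) (Ne.symm h0)
    have h1 := Real.log_le_log hpos (pm_HD12_nrm2 A)
    have h2 : 0 < Real.sqrt (nrm (symMat A)) := Real.sqrt_pos.2 (by linarith)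
    rw [Real.log_mul (by norm_num) h2.ne', Real.log_sqrt (by linarith)] at h1
    linarith

private theorem pm_HD12_cj (f : M2) (hf : f.det = 1) : cj f (dgv 0 0) = 1 := by
  have hd : diagonal (dgv 0 0) = (1 : M3) := by
    rw [← Matrix.diagonal_one]
    congr 1
    funext i
    fin_cases i <;> simp [dgv]
  unfold cj
  rw [hd, Matrix.mul_one]
  exact Matrix.mul_nonsing_inv _ (by rw [symMat_det, hf]; simp)

private theorem pm_HD12_rep0 (B : Base) (b : Fin 3 → Bool) :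
    B.repI b pm_HD12_z0 = irr.comp B.rhoS := by
  have hgI : ∀ i, B.gI b pm_HD12_z0 i = if b i then symMat (B.sw i) else 1 := by
    intro i
    change cj (B.fd i) (dgv 0 0) * (if b i then symMat (B.sw i) else 1) = _
    rw [pm_HD12_cj _ (B.fd_det i), Matrix.one_mul]
  have hhY : ∀ i, B.hY i 0 0 = symMat (B.Y i) := by
    intro i
    unfold Base.hY Base.Dm
    rw [zero_mul, neg_zero, pm_HD12_cj _ (B.fp_det i), Matrix.mul_one]
  have hsw : ∀ i, symMat (B.sw i) * (symMat (B.sw i))⁻¹ = 1 := fun i =>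
    Matrix.mul_nonsing_inv _ (by rw [symMat_det, B.sw_det]; norm_num)
  have hmX : ∀ i, B.mX b pm_HD12_z0 i = symMat (B.X i) := by
    intro i
    unfold Base.mX
    rw [hgI]
    change (if b i then symMat (B.sw i) else 1) * (if b i then B.hY i 0 0 else B.hX i) *
      (if b i then symMat (B.sw i) else 1)⁻¹ = _
    by_cases hb : b i = true
    · rw [if_pos hb, if_pos hb, hhY, ← symMat_mul, B.sw_Y, symMat_mul, Matrix.mul_assoc, hsw,
        Matrix.mul_one]
    · rw [if_neg hb, if_neg hb, inv_one, Matrix.mul_one, Matrix.one_mul]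
      rfl
  have hmY : ∀ i, B.mY b pm_HD12_z0 i = symMat (B.Y i) := by
    intro i
    unfold Base.mY
    rw [hgI]
    change (if b i then symMat (B.sw i) else 1) * (if b i then B.hX i else B.hY i 0 0) *
      (if b i then symMat (B.sw i) else 1)⁻¹ = _
    by_cases hb : b i = true
    · rw [if_pos hb, if_pos hb]
      unfold Base.hX
      rw [← symMat_mul, B.sw_X, symMat_mul, Matrix.mul_assoc, hsw, Matrix.mul_one]
    · rw [if_neg hb, if_neg hb, inv_one, Matrix.mul_one, Matrix.one_mul, hhY]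
  refine surf_ext (fun i => Subtype.ext ?_) (fun i => Subtype.ext ?_)
  · exact (B.repI_x b _ i).trans ((hmX i).trans (congrArg symMat (B.rhoS_x i)).symm)
  · exact (B.repI_y b _ i).trans ((hmY i).trans (congrArg symMat (B.rhoS_y i)).symm)

private theorem pm_HD12_det (B : Base) (b : Fin 3 → Bool) (z : ZI) (g : Surf) :
    ((B.psI b).r z g : M3).det = 1 :=
  (B.repI b z g).2

private theorem pm_HD12_qi0 (B : Base) (b : Fin 3 → Bool) (p : QI) : ∃ c : ℝ, 0 < c ∧
    ∀ g : Surf, Real.log (nrm2 (B.rhoS g : M2)) ≤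
      c * (1 + Real.log ((B.psI b).N p pm_HD12_z0 g)) := by
  obtain ⟨c₁, hc₁, h1⟩ := nrm_frame_change (1 : GL (Fin 3) ℝ) ((B.psI b).F p pm_HD12_z0)
  have h40 : 0 ≤ Real.log 4 := Real.log_nonneg (by norm_num)
  refine ⟨Real.log 4 + |Real.log c₁| + 1, by positivity, fun g => ?_⟩
  have hr : ((B.psI b).r pm_HD12_z0 g : M3) = symMat (B.rhoS g : M2) := by
    change ((B.repI b pm_HD12_z0 g : SL(3, ℝ)) : M3) = _
    rw [pm_HD12_rep0]
    rfl
  have h2 := h1 ((B.psI b).r pm_HD12_z0 g : M3)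
  rw [inv_one, Units.val_one, Matrix.one_mul, Matrix.mul_one] at h2
  have hN1 := (N_basic (B.psI b) p pm_HD12_z0 (pm_HD12_det B b pm_HD12_z0)).1 g
  change nrm ((B.psI b).r pm_HD12_z0 g : M3) ≤ c₁ * (B.psI b).N p pm_HD12_z0 g at h2
  rw [hr] at h2
  have hs1 : 1 ≤ nrm (symMat (B.rhoS g : M2)) :=
    (one_le_lam (by rw [symMat_det, (B.rhoS g).2, one_pow])).trans (lam_le_nrm _)
  have h3 := pm_HD12_log _ hs1
  have h4 : Real.log (nrm (symMat (B.rhoS g : M2))) ≤
      Real.log c₁ + Real.log ((B.psI b).N p pm_HD12_z0 g) := by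
    rw [← Real.log_mul hc₁.ne' (by linarith)]
    exact Real.log_le_log (by linarith) h2
  have h5 := Real.log_nonneg hN1
  have h6 := le_abs_self (Real.log c₁)
  have h7 := abs_nonneg (Real.log c₁)
  have h8 : 0 ≤ (Real.log 4 + |Real.log c₁|) * Real.log ((B.psI b).N p pm_HD12_z0 g) := by
    positivity
  nlinarith

private theorem pm_HD12_size {B : Base} {b : Fin 3 → Bool} {K κ : ℝ}
    {Φ : Finset (ZI → GL (Fin 3) ℝ)} (P : PkI B b K κ Φ) (z : ZI) (i : Fin 3) (p : QI)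
    (hp : p = QI.dP i ∨ p = QI.dH i) :
    ∃ c : ℝ, IsSize B.rhoS (sx 2) (sy 2) c ⊤ ((B.psI b).N p z) := by
  obtain ⟨c₁, hc₁, h1⟩ := P.size_top z pm_HD12_z0 i
  obtain ⟨c₂, hc₂, h2⟩ := pm_HD12_qi0 B b p
  have hb := N_basic (B.psI b) p z (pm_HD12_det B b z)
  have h1' : ∀ g : Surf, Real.log ((B.psI b).N p pm_HD12_z0 g) ≤
      c₁ * (1 + Real.log ((B.psI b).N p z g)) := by
    intro g
    rcases hp with rfl | rfl
    · exact (h1 g).1
    · exact (h1 g).2
  have n1 := hb.1 (sx 2)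
  have n2 := hb.1 (sx 2)⁻¹
  have n3 := hb.1 (sy 2)
  have n4 := hb.1 (sy 2)⁻¹
  have n5 : 0 < c₂ * (1 + c₁) := by positivity
  refine ⟨(B.psI b).N p z (sx 2) + (B.psI b).N p z (sx 2)⁻¹ + (B.psI b).N p z (sy 2) +
    (B.psI b).N p z (sy 2)⁻¹ + c₂ * (1 + c₁), ?_⟩
  refine ⟨trivial, trivial, fun g _ => hb.1 g, fun g _ h _ => hb.2 g h, ?_, fun g _ => ?_⟩
  · refine ⟨?_, ?_, ?_, ?_⟩ <;> linarith
  · have h3 := Real.log_nonneg (hb.1 g)
    have h4 : c₂ * (1 + Real.log ((B.psI b).N p pm_HD12_z0 g)) ≤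
        c₂ * (1 + c₁) * (1 + Real.log ((B.psI b).N p z g)) := by
      rw [mul_assoc]
      refine mul_le_mul_of_nonneg_left ?_ hc₂.le
      have := h1' g
      linarith
    refine (h2 g).trans (h4.trans ?_)
    refine mul_le_mul_of_nonneg_right ?_ (by linarith)
    linarith


/-! HD5 -/

private theorem pm_HD5_inv (A : M3) (h : A.det = 1) : nrm A⁻¹ ≤ 18 * nrm A ^ 2 := by
  have h1 : A⁻¹ = A.adjugate := by
    rw [Matrix.inv_def, h, Ring.inverse_one, one_smul]
  have key : ∀ i j k l i' j' k' l' : Fin 3, |A i j * A k l - A i' j' * A k' l'| ≤ 2 * nrm A ^ 2 := by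
    intro i j k l i' j' k' l'
    have h2 : |A i j * A k l| ≤ nrm A ^ 2 := by
      rw [abs_mul, sq]
      exact mul_le_mul (pm_HD12_abs_le A i j) (pm_HD12_abs_le A k l) (abs_nonneg _) (nrm_nonneg A)
    have h3 : |A i' j' * A k' l'| ≤ nrm A ^ 2 := by
      rw [abs_mul, sq]
      exact mul_le_mul (pm_HD12_abs_le A i' j') (pm_HD12_abs_le A k' l') (abs_nonneg _) (nrm_nonneg A)
    have h4 := abs_sub (A i j * A k l) (A i' j' * A k' l')
    linarith
  have key' : ∀ i j k l i' j' k' l' : Fin 3,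
      |-(A i j * A k l) + A i' j' * A k' l'| ≤ 2 * nrm A ^ 2 := by
    intro i j k l i' j' k' l'
    have h2 := key i' j' k' l' i j k l
    rw [show -(A i j * A k l) + A i' j' * A k' l' = A i' j' * A k' l' - A i j * A k l by ring]
    exact h2
  obtain ⟨N, hN⟩ : ∃ N, N = nrm A := ⟨_, rfl⟩
  rw [← hN] at key key' ⊢
  rw [h1, Matrix.adjugate_fin_three]
  unfold nrm
  simp only [Fin.sum_univ_three, Matrix.of_apply, Matrix.cons_val', Matrix.cons_val_zero,
    Matrix.cons_val_one, Matrix.cons_val]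
  have a1 := key 1 1 2 2 1 2 2 1
  have a2 := key' 0 1 2 2 0 2 2 1
  have a3 := key 0 1 1 2 0 2 1 1
  have a4 := key' 1 0 2 2 1 2 2 0
  have a5 := key 0 0 2 2 0 2 2 0
  have a6 := key' 0 0 1 2 0 2 1 0
  have a7 := key 1 0 2 1 1 1 2 0
  have a8 := key' 0 0 2 1 0 1 2 0
  have a9 := key 0 0 1 1 0 1 1 0
  linarith

/-- the parameter with `a i = a`, `th i = th` -/
private def pm_HD5_za (a th : ℝ) : ZI := ⟨fun _ => 0, fun _ => a, fun _ => th⟩

private theorem pm_HD5_NH (B : Base) (a th : ℝ) (g : F2) :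
    B.NH a th g = (B.psI (fun _ => false)).N (QI.dH 0) (pm_HD5_za a th) (phi false 0 g) :=
  (N_handle B (fun _ => false) (pm_HD5_za a th) 0 g).symm

private theorem pm_HD5_P (B : Base) : IsUnit (symMat (B.fd 0 * J2)).det := by
  rw [symMat_det, Matrix.det_mul, B.fd_det, one_mul]
  simp [J2, Matrix.det_fin_two]

private theorem pm_HD5_NHinv (B : Base) (a th : ℝ) (g : F2) :
    B.NH a th g⁻¹ ≤ 18 * B.NH a th g ^ 2 := by
  have hP := pm_HD5_P B
  have h1 : (B.Hr a th g⁻¹ : M3) = (B.Hr a th g : M3)⁻¹ := by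
    rw [map_inv, Matrix.SpecialLinearGroup.coe_inv, Matrix.inv_def, (B.Hr a th g).2,
      Ring.inverse_one, one_smul]
  have h2 : (symMat (B.fd 0 * J2))⁻¹ * (B.Hr a th g⁻¹ : M3) * symMat (B.fd 0 * J2) =
      ((symMat (B.fd 0 * J2))⁻¹ * (B.Hr a th g : M3) * symMat (B.fd 0 * J2))⁻¹ := by
    rw [Matrix.mul_inv_rev, Matrix.mul_inv_rev, Matrix.nonsing_inv_nonsing_inv _ hP, h1,
      Matrix.mul_assoc]
  unfold Base.NH
  rw [h2]
  refine pm_HD5_inv _ ?_
  rw [Matrix.det_mul, Matrix.det_mul, (B.Hr a th g).2, mul_one, ← Matrix.det_mul,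
    Matrix.nonsing_inv_mul _ hP, Matrix.det_one]

private theorem pm_HD5_gr (B : Base) (A : ℝ) : ∃ c : ℝ, ∀ a th : ℝ, 0 ≤ a → a ≤ A → 0 ≤ th →
    th ≤ 1 → B.NH a th gr ≤ c := by
  set P := symMat (B.fd 0 * J2) with hP
  set S := symMat (B.fp 0) with hS
  refine ⟨nrm (P⁻¹ * symMat (B.Y 0) * S) * (3 * Real.exp (2 * A + B.Lm)) * nrm (S⁻¹ * P),
    fun a th h1 h2 h3 h4 => ?_⟩
  have hH : (B.Hr a th gr : M3) = symMat (B.Y 0) * (S * diagonal (dgv a (-(th * B.Lm))) * S⁻¹) := by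
    unfold Base.Hr gr
    rw [FreeGroup.lift_apply_of]
    rfl
  have h5 : P⁻¹ * (B.Hr a th gr : M3) * P =
      (P⁻¹ * symMat (B.Y 0) * S) * diagonal (dgv a (-(th * B.Lm))) * (S⁻¹ * P) := by
    rw [hH]
    simp only [Matrix.mul_assoc]
  have hLm := B.hLm
  have h6 : nrm (diagonal (dgv a (-(th * B.Lm)))) ≤ 3 * Real.exp (2 * A + B.Lm) := by
    have e1 : 0 ≤ th * B.Lm := mul_nonneg h3 hLm.le
    have e2 : th * B.Lm ≤ B.Lm := by nlinarith
    have e3 : Real.exp (a + -(th * B.Lm)) ≤ Real.exp (2 * A + B.Lm) :=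
      Real.exp_le_exp.2 (by linarith)
    have e4 : Real.exp (-(2 * a)) ≤ Real.exp (2 * A + B.Lm) := Real.exp_le_exp.2 (by linarith)
    have e5 : Real.exp (a - -(th * B.Lm)) ≤ Real.exp (2 * A + B.Lm) :=
      Real.exp_le_exp.2 (by linarith)
    unfold nrm
    simp only [Fin.sum_univ_three, Matrix.diagonal_apply, dgv]
    simp only [Fin.isValue, Matrix.cons_val_zero, Matrix.cons_val_one, Matrix.cons_val, if_true,
      Fin.reduceEq, if_false, abs_zero, add_zero, zero_add, Real.abs_exp]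
    linarith
  unfold Base.NH
  rw [← hP, h5]
  refine (nrm_mul_le _ _).trans (mul_le_mul_of_nonneg_right ?_ (nrm_nonneg _))
  exact (nrm_mul_le _ _).trans (mul_le_mul_of_nonneg_left h6 (nrm_nonneg _))

private theorem pm_HD5_gp (B : Base) (a th : ℝ) : B.NH a th gp = B.NH 0 0 gp := by
  unfold Base.NH Base.Hr gp
  rw [FreeGroup.lift_apply_of, FreeGroup.lift_apply_of]
  rfl

/-- crossing diagonals of the loops -/
private theorem pm_HD5_Dl (B : Base) (e : QI) (he : e ∈ LB 0) (k : ℤ) : ∃ ε : ℝ, (ε = 1 ∨ ε = -1) ∧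
    ∀ a th : ℝ, (B.psI (fun _ => false)).Dl e k (pm_HD5_za a th) =
      ![Real.exp (ε * a + (Real.log (B.eta 0 ^ 2) - th * B.Lm - k * B.Lm)),
        Real.exp (-(2 * (ε * a))),
        Real.exp (ε * a - (Real.log (B.eta 0 ^ 2) - th * B.Lm - k * B.Lm))] := by
  have hη : 0 < B.eta 0 ^ 2 := by
    have := B.eta_ne 0
    positivity
  have hη1 : Real.exp (Real.log (B.eta 0 ^ 2)) = B.eta 0 ^ 2 := Real.exp_log hη
  rcases he with rfl | he
  · refine ⟨-1, Or.inr rfl, fun a th => ?_⟩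
    funext j
    change (B.D0I (fun _ => false) (QI.mp 0) (pm_HD5_za a th)) j *
      (![Real.exp (-(k * B.Lm)), 1, Real.exp (k * B.Lm)] : Fin 3 → ℝ) j = _
    have h0 : B.D0I (fun _ => false) (QI.mp 0) (pm_HD5_za a th) =
        invr (B.dMM 0 (pm_HD5_za a th)) := rfl
    rw [h0]
    fin_cases j
    · change ((B.eta 0 ^ 2)⁻¹ * Real.exp (a + th * B.Lm))⁻¹ * Real.exp (-(k * B.Lm)) =
        Real.exp (-1 * a + (Real.log (B.eta 0 ^ 2) - th * B.Lm - k * B.Lm))
      rw [mul_inv, inv_inv, ← Real.exp_neg, ← hη1, mul_assoc, ← Real.exp_add, ← Real.exp_add,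
        Real.log_exp]
      congr 1
      ring
    · change (Real.exp (-(2 * a)))⁻¹ * 1 = Real.exp (-(2 * (-1 * a)))
      rw [mul_one, ← Real.exp_neg]
      congr 1
      ring
    · change (B.eta 0 ^ 2 * Real.exp (a - th * B.Lm))⁻¹ * Real.exp (k * B.Lm) =
        Real.exp (-1 * a - (Real.log (B.eta 0 ^ 2) - th * B.Lm - k * B.Lm))
      rw [mul_inv, ← Real.exp_neg, ← hη1, ← Real.exp_neg, mul_assoc, ← Real.exp_add,
        ← Real.exp_add, Real.log_exp]
      congr 1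
      ring
  · have he' : e = QI.mm 0 := he
    subst he'
    refine ⟨1, Or.inl rfl, fun a th => ?_⟩
    funext j
    change (B.D0I (fun _ => false) (QI.mm 0) (pm_HD5_za a th)) j *
      (![Real.exp (-(k * B.Lm)), 1, Real.exp (k * B.Lm)] : Fin 3 → ℝ) j = _
    have h0 : B.D0I (fun _ => false) (QI.mm 0) (pm_HD5_za a th) =
        B.dMM 0 (pm_HD5_za a th) := rfl
    rw [h0]
    fin_cases j
    · change (B.eta 0 ^ 2 * Real.exp (a - th * B.Lm)) * Real.exp (-(k * B.Lm)) =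
        Real.exp (1 * a + (Real.log (B.eta 0 ^ 2) - th * B.Lm - k * B.Lm))
      rw [← hη1, mul_assoc, ← Real.exp_add, ← Real.exp_add, Real.log_exp]
      congr 1
      ring
    · change Real.exp (-(2 * a)) * 1 = Real.exp (-(2 * (1 * a)))
      rw [mul_one, one_mul]
    · change ((B.eta 0 ^ 2)⁻¹ * Real.exp (a + th * B.Lm)) * Real.exp (k * B.Lm) =
        Real.exp (1 * a - (Real.log (B.eta 0 ^ 2) - th * B.Lm - k * B.Lm))
      rw [← hη1, ← Real.exp_neg, mul_assoc, ← Real.exp_add, ← Real.exp_add, Real.log_exp]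
      congr 1
      ring

private theorem pm_HD5_mxd (B : Base) (e : QI) (he : e ∈ LB 0) (k : ℤ) (a th : ℝ) (ha : 0 ≤ a)
    (h3 : 0 ≤ th) (h4 : th ≤ 1) :
    Real.log (mxd ((B.psI (fun _ => false)).Dl e k (pm_HD5_za 0 0))) ≤
      (2 + B.Lm) * (1 + Real.log (mxd ((B.psI (fun _ => false)).Dl e k (pm_HD5_za a th)))) := by
  obtain ⟨ε, hε, h⟩ := pm_HD5_Dl B e he k
  rw [h 0 0, h a th]
  have hLm := B.hLm
  set o := Real.log (B.eta 0 ^ 2) with ho
  have hlow := mxd_dgv (ϑ := o - th * B.Lm - k * B.Lm) ha hε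
  have h5 : (a + |o - th * B.Lm - k * B.Lm|) / 2 ≤
      Real.log (mxd ![Real.exp (ε * a + (o - th * B.Lm - k * B.Lm)), Real.exp (-(2 * (ε * a))),
        Real.exp (ε * a - (o - th * B.Lm - k * B.Lm))]) := by
    rw [← Real.log_exp ((a + |o - th * B.Lm - k * B.Lm|) / 2)]
    exact Real.log_le_log (Real.exp_pos _) hlow
  have h6 : mxd ![Real.exp (ε * 0 + (o - 0 * B.Lm - k * B.Lm)), Real.exp (-(2 * (ε * 0))),
        Real.exp (ε * 0 - (o - 0 * B.Lm - k * B.Lm))] ≤ Real.exp |o - k * B.Lm| := by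
    have b1 := le_abs_self (o - k * B.Lm)
    have b2 := neg_abs_le (o - k * B.Lm)
    have b3 := abs_nonneg (o - k * B.Lm)
    unfold mxd
    refine max_le ?_ (max_le ?_ ?_)
    · change Real.exp (ε * 0 + (o - 0 * B.Lm - k * B.Lm)) ≤ _
      exact Real.exp_le_exp.2 (by linarith)
    · change Real.exp (-(2 * (ε * 0))) ≤ _
      exact Real.exp_le_exp.2 (by linarith)
    · change Real.exp (ε * 0 - (o - 0 * B.Lm - k * B.Lm)) ≤ _
      exact Real.exp_le_exp.2 (by linarith)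
  have h7 : 0 < mxd ![Real.exp (ε * 0 + (o - 0 * B.Lm - k * B.Lm)), Real.exp (-(2 * (ε * 0))),
        Real.exp (ε * 0 - (o - 0 * B.Lm - k * B.Lm))] :=
    lt_max_of_lt_left (Real.exp_pos _)
  have h8 := Real.log_le_log h7 h6
  rw [Real.log_exp] at h8
  have h9 : |o - k * B.Lm| ≤ |o - th * B.Lm - k * B.Lm| + B.Lm := by
    have e1 : 0 ≤ th * B.Lm := mul_nonneg h3 hLm.le
    have e2 : th * B.Lm ≤ B.Lm := by nlinarith
    have e3 : |th * B.Lm| ≤ B.Lm := by rwa [abs_of_nonneg e1]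
    calc |o - k * B.Lm| = |(o - th * B.Lm - k * B.Lm) + th * B.Lm| := by
          congr 1
          ring
      _ ≤ |o - th * B.Lm - k * B.Lm| + |th * B.Lm| := abs_add_le _ _
      _ ≤ _ := by linarith
  set T := Real.log (mxd ![Real.exp (ε * a + (o - th * B.Lm - k * B.Lm)),
    Real.exp (-(2 * (ε * a))), Real.exp (ε * a - (o - th * B.Lm - k * B.Lm))]) with hT
  have h10 := abs_nonneg (o - th * B.Lm - k * B.Lm)
  have h11 : 0 ≤ T := by linarith
  have h12 : 0 ≤ B.Lm * T := mul_nonneg hLm.le h11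
  nlinarith

private theorem pm_HD5_rhoF (B : Base) (g : F2) : B.rhoF g = B.rhoS (phi false 0 g) := by
  have h : B.rhoF = B.rhoS.comp (phi false 0) := by
    refine FreeGroup.ext_hom _ _ fun c => ?_
    unfold Base.rhoF phi
    rw [MonoidHom.comp_apply, FreeGroup.lift_apply_of, FreeGroup.lift_apply_of]
    cases c
    · rfl
    · rfl
  rw [h]
  rfl

/-! ### growth -/

/-- uniform size data of the handles -/
theorem handle_size (A : ℝ) : ∃ c : ℝ, ∀ a th : ℝ, 0 ≤ a → a ≤ A → 0 ≤ th → th ≤ 1 →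
    IsSize B.rhoF gp gr c ⊤ (B.NH a th) := by
  obtain ⟨K, κ, Φ, P⟩ := exists_PkI B (fun _ => false)
  obtain ⟨cy, hcy⟩ := pm_HD5_gr B A
  obtain ⟨cq, hcq, hq⟩ := pm_HD12_qi0 B (fun _ => false) (QI.dH 0)
  obtain ⟨cn, hcn, hn⟩ := N_qi (K := K) (c₁ := 2 + B.Lm) P.hκ (by linarith [B.hLm])
  have hV := (P.vB 0).1
  have hb := fun a th => N_basic (B.psI (fun _ => false)) (QI.dH 0) (pm_HD5_za a th)
    (pm_HD12_det B (fun _ => false) (pm_HD5_za a th))
  set cx := B.NH 0 0 gp with hcx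
  refine ⟨|cx| + 18 * cx ^ 2 + |cy| + 18 * cy ^ 2 + cq * (1 + (cn + 1)), fun a th h1 h2 h3 h4 => ?_⟩
  have hx : B.NH a th gp = cx := pm_HD5_gp B a th
  have hy : B.NH a th gr ≤ cy := hcy a th h1 h2 h3 h4
  have hx0 : 0 ≤ cq * (1 + (cn + 1)) := by positivity
  have hge : ∀ g, 1 ≤ B.NH a th g := fun g => by rw [pm_HD5_NH]; exact (hb a th).1 _
  refine ⟨trivial, trivial, fun g _ => hge g, fun g _ h _ => ?_, ⟨?_, ?_, ?_, ?_⟩, fun g _ => ?_⟩
  · rw [pm_HD5_NH, pm_HD5_NH, pm_HD5_NH, map_mul]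
    exact (hb a th).2 _ _
  · rw [hx]
    have := le_abs_self cx
    have := sq_nonneg cx
    have := sq_nonneg cy
    have := abs_nonneg cy
    linarith
  · have e := pm_HD5_NHinv B a th gp
    rw [hx] at e
    have := abs_nonneg cx
    have := sq_nonneg cy
    have := abs_nonneg cy
    linarith
  · have := le_abs_self cy
    have := sq_nonneg cx
    have := sq_nonneg cy
    have := abs_nonneg cx
    linarith
  · have e := pm_HD5_NHinv B a th gr
    have e1 : B.NH a th gr ^ 2 ≤ cy ^ 2 := pow_le_pow_left₀ (by linarith [hge gr]) hy 2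
    have := abs_nonneg cx
    have := sq_nonneg cx
    have := abs_nonneg cy
    linarith
  · have hmem : phi false 0 g ∈ BH 0 := by
      rw [← phi_range false 0]
      exact ⟨g, rfl⟩
    have hz0 : pm_HD5_za 0 0 = pm_HD12_z0 := rfl
    have hlog := Real.log_nonneg (hge g)
    have hqi : Real.log ((B.psI (fun _ => false)).N (QI.dH 0) pm_HD12_z0 (phi false 0 g)) ≤
        (cn + 1) * (1 + Real.log (B.NH a th g)) := by
      rw [pm_HD5_NH] at hlog ⊢
      rcases N_form_free hV (rfl : QI.dH 0 ∈ ({QI.dH 0} : Set QI)) hmem with ⟨k, hk⟩ |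
        ⟨D, D', w, hD, hD', hw, he⟩
      · rw [hk pm_HD12_z0]
        rw [hk (pm_HD5_za a th)] at hlog ⊢
        have h5 : 0 ≤ cn * (1 + Real.log (nrm (Cd ((B.psI (fun _ => false)).L (QI.dH 0)) k))) := by
          positivity
        linarith
      · have h5 := hn (B.psI (fun _ => false)) (LB 0) (pm_HD5_za 0 0) (pm_HD5_za a th)
          (fun e he k => pm_HD5_mxd B e he k a th h1 h3 h4) D D' w hD hD' hw
        rw [hz0, ← he, ← he] at h5
        refine h5.trans ?_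
        refine mul_le_mul_of_nonneg_right ?_ (by linarith)
        linarith
    rw [pm_HD5_rhoF]
    have h6 := hq (phi false 0 g)
    have h7 : cq * (1 + Real.log ((B.psI (fun _ => false)).N (QI.dH 0) pm_HD12_z0
        (phi false 0 g))) ≤ cq * (1 + (cn + 1)) * (1 + Real.log (B.NH a th g)) := by
      rw [mul_assoc]
      refine mul_le_mul_of_nonneg_left ?_ hcq.le
      linarith
    refine (h6.trans h7).trans ?_
    refine mul_le_mul_of_nonneg_right ?_ (by linarith)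
    have := abs_nonneg cx
    have := sq_nonneg cx
    have := abs_nonneg cy
    have := sq_nonneg cy
    linarith

/-- uniform growth of the handles -/
theorem handle_growth (A : ℝ) : ∃ C > (0 : ℝ), ∀ a th : ℝ, 0 ≤ a → a ≤ A → 0 ≤ th → th ≤ 1 →
    0 ≤ B.EH a th ∧ B.EH a th ≤ C ∧
    (∀ T, (nX (⊤ : Subgroup F2) (B.NH a th) T).Finite) ∧
    Tendsto (fun T : ℝ => Real.log ((nX (⊤ : Subgroup F2) (B.NH a th) T).ncard) / T) atTop (𝓝 (B.EH a th)) ∧
    (∀ s, B.EH a th < s → s ≤ B.EH a th + 1 →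
      poin (⊤ : Subgroup F2) (B.NH a th) s ≤ ENNReal.ofReal (C / (s - B.EH a th) ^ 2)) := by
  obtain ⟨c, hc⟩ := handle_size B A
  obtain ⟨h1, h2, h3, _, _, _⟩ := hyp_pair B
  obtain ⟨C, hC, hg⟩ := growth B.rhoF gp gr (fuchs_fin_F B) h1 h2 h3 c
  refine ⟨C, hC, fun a th ha hA ht ht1 => ?_⟩
  obtain ⟨g1, g2, g3, g4, _, _, g7, _⟩ := hg ⊤ _ (hc a th ha hA ht ht1)
  exact ⟨g1, g2, g3, g4, g7⟩

private theorem pm_HD6_det (B : Base) (b : Fin 3 → Bool) (z : ZI) (g : Surf) :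
    (((B.psI b).r z g : GL (Fin 3) ℝ) : M3).det = 1 := by
  have h := (B.repI b z g).2
  exact h

private theorem pm_HD6_N_ge (B : Base) (a th : ℝ) (g : F2) : 1 ≤ B.NH a th g := by
  have h := N_handle B (fun _ => false) ⟨fun _ => 0, fun _ => a, fun _ => th⟩ 0 g
  rw [← h]
  exact (N_basic _ _ _ (pm_HD6_det B _ _)).1 _

private theorem pm_HD6_exp (c u a a' : ℝ) (hc : 0 ≤ c) (hu : |u| ≤ 2) :
    c * Real.exp (u * a') ≤ Real.exp (2 * |a - a'|) * (c * Real.exp (u * a)) := by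
  have h1 : Real.exp (u * a') ≤ Real.exp (2 * |a - a'| + u * a) := by
    apply Real.exp_le_exp.mpr
    have h2 : u * (a' - a) ≤ |u| * |a - a'| := by
      rw [← abs_sub_comm a' a, ← abs_mul]
      exact le_abs_self _
    have h3 : |u| * |a - a'| ≤ 2 * |a - a'| := mul_le_mul_of_nonneg_right hu (abs_nonneg _)
    linarith
  rw [Real.exp_add] at h1
  calc c * Real.exp (u * a') ≤ c * (Real.exp (2 * |a - a'|) * Real.exp (u * a)) :=
        mul_le_mul_of_nonneg_left h1 hc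
    _ = _ := by ring

private theorem pm_HD6_cont (B : Base) : ∃ η > (0 : ℝ), ∀ a a' : ℝ, ∀ g : F2,
    B.NH a' 0 g ≤ Real.exp (2 * (2 * |a - a'|)) *
      (B.NH a 0 g) ^ (1 + 3 * (2 * |a - a'|) / η) := by
  obtain ⟨K, κ, Φ, P⟩ := exists_PkI B (fun _ => false)
  refine ⟨Real.log (1 + κ), Real.log_pos (by linarith [P.hκ]), fun a a' g => ?_⟩
  set b : Fin 3 → Bool := fun _ => false with hb
  let zz : ℝ → ZI := fun a => ⟨fun _ => 0, fun _ => a, fun _ => 0⟩
  have hN : ∀ a, B.NH a 0 g = (B.psI b).N (QI.dH 0) (zz a) (phi (b 0) 0 g) :=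
    fun a => (N_handle B b (zz a) 0 g).symm
  have hg : phi (b 0) 0 g ∈ BH 0 := by
    rw [← phi_range (b 0) 0]
    exact ⟨g, rfl⟩
  have hlk : 0 < Real.log (1 + κ) := Real.log_pos (by linarith [P.hκ])
  have hD : ∀ e ∈ LB 0, ∀ k : ℤ, ∀ i, (B.psI b).Dl e k (zz a') i ≤
      Real.exp (2 * |a - a'|) * (B.psI b).Dl e k (zz a) i := by
    intro e he k i
    have hpos : 0 < (![Real.exp (-(k * (B.psI b).L e)), 1, Real.exp (k * (B.psI b).L e)] :
        Fin 3 → ℝ) i := by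
      fin_cases i <;> simp [Real.exp_pos]
    simp only [PS.Dl]
    rw [← mul_assoc]
    apply mul_le_mul_of_nonneg_right _ hpos.le
    have he2 : 0 ≤ (B.eta 0) ^ 2 := sq_nonneg _
    have he3 : 0 ≤ ((B.eta 0) ^ 2)⁻¹ := inv_nonneg.mpr he2
    have q1 := pm_HD6_exp ((B.eta 0) ^ 2) (-1) a a' he2 (by norm_num)
    have q2 := pm_HD6_exp 1 2 a a' zero_le_one (by norm_num)
    have q3 := pm_HD6_exp ((B.eta 0) ^ 2)⁻¹ (-1) a a' he3 (by norm_num)
    have q4 := pm_HD6_exp ((B.eta 0) ^ 2) 1 a a' he2 (by norm_num)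
    have q5 := pm_HD6_exp 1 (-2) a a' zero_le_one (by norm_num)
    have q6 := pm_HD6_exp ((B.eta 0) ^ 2)⁻¹ 1 a a' he3 (by norm_num)
    have eN : ∀ x : ℝ, (Real.exp x)⁻¹ = Real.exp (-x) := fun x => (Real.exp_neg x).symm
    rcases he with rfl | he
    · show B.D0I b (QI.mp 0) (zz a') i ≤ _ * B.D0I b (QI.mp 0) (zz a) i
      fin_cases i
      · simpa [Base.D0I, invr, Base.dMM, hb, zz, mul_inv, eN, mul_comm] using q1
      · simpa [Base.D0I, invr, Base.dMM, hb, zz, mul_inv, eN] using q2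
      · simpa [Base.D0I, invr, Base.dMM, hb, zz, mul_inv, eN, mul_comm] using q3
    · rw [Set.mem_singleton_iff] at he
      subst he
      show B.D0I b (QI.mm 0) (zz a') i ≤ _ * B.D0I b (QI.mm 0) (zz a) i
      fin_cases i
      · simpa [Base.D0I, invr, Base.dMM, hb, zz] using q4
      · simpa [Base.D0I, invr, Base.dMM, hb, zz] using q5
      · simpa [Base.D0I, invr, Base.dMM, hb, zz] using q6
  have h1 : 1 ≤ (B.psI b).N (QI.dH 0) (zz a) (phi (b 0) 0 g) :=
    (N_basic _ _ _ (pm_HD6_det B b _)).1 _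
  rw [hN a, hN a']
  rcases N_form_free (P.vB 0).1 (Set.mem_singleton _) hg with ⟨k, hk⟩ | ⟨D, D', w, hD1, hD2, hw, hk⟩
  · rw [hk (zz a'), ← hk (zz a)]
    have e1 : (1 : ℝ) ≤ Real.exp (2 * (2 * |a - a'|)) := Real.one_le_exp (by positivity)
    have e2 : (B.psI b).N (QI.dH 0) (zz a) (phi (b 0) 0 g) ≤
        ((B.psI b).N (QI.dH 0) (zz a) (phi (b 0) 0 g)) ^ (1 + 3 * (2 * |a - a'|) / Real.log (1 + κ)) := by
      conv_lhs => rw [← Real.rpow_one ((B.psI b).N (QI.dH 0) (zz a) (phi (b 0) 0 g))]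
      apply Real.rpow_le_rpow_of_exponent_le h1
      have : 0 ≤ 3 * (2 * |a - a'|) / Real.log (1 + κ) := by positivity
      linarith
    have e3 : 0 ≤ ((B.psI b).N (QI.dH 0) (zz a) (phi (b 0) 0 g)) ^
        (1 + 3 * (2 * |a - a'|) / Real.log (1 + κ)) := Real.rpow_nonneg (by linarith) _
    nlinarith
  · rw [hk (zz a'), hk (zz a)]
    exact N_cont P.hκ _ (LB 0) (by positivity) hD D D' w hD1 hD2 hw

/-- the exponent is a continuous function of the bulge -/
theorem EH_cont : ContinuousOn (fun a => B.EH a 0) (Set.Ici 0) := by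
  obtain ⟨η, hη, hc⟩ := pm_HD6_cont B
  intro a₀ ha₀
  have ha₀' : 0 ≤ a₀ := ha₀
  obtain ⟨C, hC, hgr⟩ := handle_growth B (a₀ + 1)
  have comp : ∀ a a', 0 ≤ a → a ≤ a₀ + 1 → 0 ≤ a' → a' ≤ a₀ + 1 →
      B.EH a 0 ≤ B.EH a' 0 + 6 * |a - a'| / η * C := by
    intro a a' ha ha1 ha' ha1'
    obtain ⟨-, hb', hf, hl, -⟩ := hgr a' 0 ha' ha1' le_rfl zero_le_one
    have h := expo_comp (X := (⊤ : Subgroup F2)) (N := B.NH a 0) (N' := B.NH a' 0)
      (fun g _ => pm_HD6_N_ge B a 0 g) hf hl (C := Real.exp (2 * (2 * |a - a'|)))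
      (η := 3 * (2 * |a - a'|) / η) (Real.exp_pos _) (by positivity) (fun g _ => hc a a' g)
    have h' : B.EH a 0 ≤ (1 + 3 * (2 * |a - a'|) / η) * B.EH a' 0 := h
    have h2 : 3 * (2 * |a - a'|) / η * B.EH a' 0 ≤ 3 * (2 * |a - a'|) / η * C :=
      mul_le_mul_of_nonneg_left hb' (by positivity)
    have h3 : 3 * (2 * |a - a'|) / η = 6 * |a - a'| / η := by ring
    rw [h3] at h' h2
    linarith
  rw [Metric.continuousWithinAt_iff]
  intro ε hε
  refine ⟨min 1 (ε * η / (12 * C)), lt_min one_pos (by positivity), fun a ha hd => ?_⟩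
  have ha' : 0 ≤ a := ha
  rw [Real.dist_eq] at hd ⊢
  have hd1 : |a - a₀| < 1 := lt_of_lt_of_le hd (min_le_left _ _)
  have hd2 : |a - a₀| < ε * η / (12 * C) := lt_of_lt_of_le hd (min_le_right _ _)
  have ha1 : a ≤ a₀ + 1 := by linarith [(abs_lt.mp hd1).2]
  have c1 := comp a a₀ ha' ha1 ha₀' (by linarith)
  have c2 := comp a₀ a ha₀' (by linarith) ha' ha1
  rw [abs_sub_comm a₀ a] at c2
  have h4 : 6 * |a - a₀| / η * C < ε := by
    rw [lt_div_iff₀ (by positivity)] at hd2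
    have : 6 * |a - a₀| * C < ε * η := by nlinarith [abs_nonneg (a - a₀)]
    calc 6 * |a - a₀| / η * C = 6 * |a - a₀| * C / η := by ring
      _ < ε := by rw [div_lt_iff₀ hη]; exact this
  rw [abs_lt]
  constructor <;> linarith

/-- positive words -/
def pm_HD7_pos (L : List Bool) : F2 := FreeGroup.mk (L.map (fun c => (c, true)))

theorem pm_HD7_red (L : List Bool) : FreeGroup.IsReduced (L.map (fun c => (c, true))) := by
  unfold FreeGroup.IsReduced
  induction L with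
  | nil => simp
  | cons a L ih =>
    cases L with
    | nil => simp
    | cons c L =>
      simp only [List.map_cons, List.isChain_cons_cons] at ih ⊢
      exact ⟨fun _ => trivial, ih⟩

theorem pm_HD7_inj {L L' : List Bool} (h : pm_HD7_pos L = pm_HD7_pos L') : L = L' := by
  have h1 : FreeGroup.toWord (pm_HD7_pos L) = FreeGroup.toWord (pm_HD7_pos L') := by rw [h]
  unfold pm_HD7_pos at h1
  rw [FreeGroup.toWord_mk, FreeGroup.toWord_mk, (pm_HD7_red L).reduce_eq,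
    (pm_HD7_red L').reduce_eq] at h1
  exact List.map_injective_iff.mpr (fun a b hab => by simpa using hab) h1

theorem pm_HD7_mul (L L' : List Bool) :
    pm_HD7_pos (L ++ L') = pm_HD7_pos L * pm_HD7_pos L' := by
  unfold pm_HD7_pos
  rw [List.map_append, FreeGroup.mul_mk]

/-- blocks -/
def pm_HD7_blk : ℕ → List Bool
  | 0 => [true, false, false]
  | j + 1 => true :: false :: pm_HD7_blk j

theorem pm_HD7_blk_pre (j : ℕ) : ∀ (j' : ℕ) (L L' : List Bool),
    pm_HD7_blk j ++ L = pm_HD7_blk j' ++ L' → j = j' ∧ L = L' := by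
  induction j with
  | zero =>
    intro j' L L' h
    cases j' with
    | zero => simpa [pm_HD7_blk] using h
    | succ j' => cases j' <;> simp [pm_HD7_blk] at h
  | succ j ih =>
    intro j' L L' h
    cases j' with
    | zero => cases j <;> simp [pm_HD7_blk] at h
    | succ j' =>
      simp only [pm_HD7_blk, List.cons_append, List.cons.injEq, true_and] at h
      obtain ⟨h1, h2⟩ := ih j' L L' h
      exact ⟨by rw [h1], h2⟩

theorem pm_HD7_flat (l : List ℕ) : ∀ l' : List ℕ,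
    (l.map pm_HD7_blk).flatten = (l'.map pm_HD7_blk).flatten → l = l' := by
  induction l with
  | nil =>
    intro l' h
    cases l' with
    | nil => rfl
    | cons j' l' => cases j' <;> simp [pm_HD7_blk] at h
  | cons j l ih =>
    intro l' h
    cases l' with
    | nil => cases j <;> simp [pm_HD7_blk] at h
    | cons j' l' =>
      simp only [List.map_cons, List.flatten_cons] at h
      obtain ⟨h1, h2⟩ := pm_HD7_blk_pre j j' _ _ h
      rw [h1, ih l' h2]

/-- the words `(r p)^(j+1) p` -/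
def pm_HD7_w (j : ℕ) : F2 := (gr * gp) ^ (j + 1) * gp

theorem pm_HD7_w_eq (j : ℕ) : pm_HD7_w j = pm_HD7_pos (pm_HD7_blk j) := by
  induction j with
  | zero =>
    show (gr * gp) ^ (0 + 1) * gp = pm_HD7_pos ([true] ++ ([false] ++ [false]))
    rw [pm_HD7_mul, pm_HD7_mul, zero_add, pow_one, mul_assoc]
    rfl
  | succ j ih =>
    show (gr * gp) ^ (j + 1 + 1) * gp = pm_HD7_pos ([true] ++ ([false] ++ pm_HD7_blk j))
    rw [pm_HD7_mul, pm_HD7_mul, ← ih, pow_succ', mul_assoc, mul_assoc]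
    rfl

theorem pm_HD7_prod (l : List ℕ) :
    (l.map pm_HD7_w).prod = pm_HD7_pos (l.map pm_HD7_blk).flatten := by
  induction l with
  | nil => rfl
  | cons j l ih =>
    rw [List.map_cons, List.prod_cons, List.map_cons, List.flatten_cons, pm_HD7_mul, ih,
      pm_HD7_w_eq]

theorem pm_HD7_words {l l' : List ℕ} (h : (l.map pm_HD7_w).prod = (l'.map pm_HD7_w).prod) :
    l = l' := by
  rw [pm_HD7_prod, pm_HD7_prod] at h
  exact pm_HD7_flat l l' (pm_HD7_inj h)

/-- abstract divergence -/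
theorem pm_HD7_div {N : F2 → ℝ} (h1 : ∀ g, 1 ≤ N g) (hmul : ∀ g h, N (g * h) ≤ N g * N h)
    {s : ℝ} (hs : 0 ≤ s) {n : ℕ}
    (hn : 1 ≤ ∑ j ∈ Finset.range n, (N (pm_HD7_w j)) ^ (-s)) :
    poin (⊤ : Subgroup F2) N s = ⊤ := by
  classical
  have hN0 : ∀ g, 0 < N g := fun g => lt_of_lt_of_le one_pos (h1 g)
  let f : Fin n → ENNReal := fun j => ENNReal.ofReal ((N (pm_HD7_w j)) ^ (-s))
  let W : (Σ m : ℕ, (Fin m → Fin n)) → F2 := fun x =>
    ((List.ofFn (fun i => ((x.2 i : Fin n) : ℕ))).map pm_HD7_w).prod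
  have hW : Function.Injective W := by
    intro x y hxy
    have h := pm_HD7_words hxy
    obtain ⟨m, v⟩ := x
    obtain ⟨m', v'⟩ := y
    simp only at h
    have hlen : m = m' := by
      have := congrArg List.length h
      simpa using this
    subst hlen
    have h2 := List.ofFn_injective h
    congr 1
    funext i
    exact Fin.ext (congrFun h2 i)
  have hprod : ∀ l : List ℕ, ((l.map pm_HD7_w).map (fun g => ENNReal.ofReal ((N g) ^ (-s)))).prod ≤
      ENNReal.ofReal ((N (l.map pm_HD7_w).prod) ^ (-s)) ∨ l = [] := by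
    intro l
    induction l with
    | nil => right; rfl
    | cons j l ih =>
      left
      rcases ih with ih | ih
      · simp only [List.map_cons, List.prod_cons]
        calc _ ≤ ENNReal.ofReal ((N (pm_HD7_w j)) ^ (-s)) *
            ENNReal.ofReal ((N (l.map pm_HD7_w).prod) ^ (-s)) := by
              gcongr
          _ = ENNReal.ofReal ((N (pm_HD7_w j) * N (l.map pm_HD7_w).prod) ^ (-s)) := by
              rw [← ENNReal.ofReal_mul (Real.rpow_nonneg (hN0 _).le _),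
                Real.mul_rpow (hN0 _).le (hN0 _).le]
          _ ≤ _ := by
              apply ENNReal.ofReal_le_ofReal
              exact Real.rpow_le_rpow_of_nonpos (hN0 _) (hmul _ _) (by linarith)
      · subst ih
        simp
  have hsum : (1 : ENNReal) ≤ ∑ j : Fin n, f j := by
    have e : ∑ j : Fin n, f j = ENNReal.ofReal (∑ j ∈ Finset.range n, (N (pm_HD7_w j)) ^ (-s)) := by
      rw [ENNReal.ofReal_sum_of_nonneg (fun j _ => Real.rpow_nonneg (hN0 _).le _)]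
      exact Fin.sum_univ_eq_sum_range (fun j => ENNReal.ofReal ((N (pm_HD7_w j)) ^ (-s))) n
    rw [e, ENNReal.one_le_ofReal]
    exact hn
  have hge : ∀ m : ℕ, (1 : ENNReal) ≤ ∑' v : Fin (m + 1) → Fin n,
      ENNReal.ofReal ((N (W ⟨m + 1, v⟩)) ^ (-s)) := by
    intro m
    rw [tsum_fintype]
    calc (1 : ENNReal) ≤ (∑ j : Fin n, f j) ^ (m + 1) := one_le_pow_of_one_le' hsum _
      _ = ∏ _i : Fin (m + 1), ∑ j : Fin n, f j := by
          rw [Finset.prod_const, Finset.card_univ, Fintype.card_fin]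
      _ = ∑ v : Fin (m + 1) → Fin n, ∏ i, f (v i) := by
          rw [Finset.prod_univ_sum, Fintype.piFinset_univ]
      _ ≤ _ := by
          apply Finset.sum_le_sum
          intro v _
          have h := hprod (List.ofFn (fun i => ((v i : Fin n) : ℕ)))
          rcases h with h | h
          · refine le_trans (le_of_eq ?_) h
            rw [List.map_map, List.map_ofFn, List.prod_ofFn]
            rfl
          · exfalso
            have := congrArg List.length h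
            simp at this
  unfold poin
  have step1 : ∑' x : (Σ m : ℕ, (Fin m → Fin n)), ENNReal.ofReal ((N (W x)) ^ (-s)) ≤
      ∑' g : (⊤ : Subgroup F2), ENNReal.ofReal ((N g) ^ (-s)) := by
    let W' : (Σ m : ℕ, (Fin m → Fin n)) → (⊤ : Subgroup F2) := fun x => ⟨W x, trivial⟩
    have hW' : Function.Injective W' := fun x y hxy => hW (congrArg Subtype.val hxy)
    exact ENNReal.tsum_comp_le_tsum_of_injective hW' (fun g => ENNReal.ofReal ((N g) ^ (-s)))
  rw [eq_top_iff]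
  refine le_trans ?_ step1
  rw [ENNReal.tsum_sigma (fun (m : ℕ) (v : Fin m → Fin n) =>
    ENNReal.ofReal ((N (W ⟨m, v⟩)) ^ (-s)))]
  calc (⊤ : ENNReal) = ∑' _m : ℕ, (1 : ENNReal) :=
        (ENNReal.tsum_const_eq_top_of_ne_zero one_ne_zero).symm
    _ ≤ ∑' m : ℕ, ∑' v : Fin (m + 1) → Fin n, ENNReal.ofReal ((N (W ⟨m + 1, v⟩)) ^ (-s)) :=
        ENNReal.tsum_le_tsum hge
    _ ≤ ∑' m : ℕ, ∑' v : Fin m → Fin n, ENNReal.ofReal ((N (W ⟨m, v⟩)) ^ (-s)) :=
        ENNReal.tsum_comp_le_tsum_of_injective (Nat.succ_injective)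
          (fun m => ∑' v : Fin m → Fin n, ENNReal.ofReal ((N (W ⟨m, v⟩)) ^ (-s)))

theorem pm_HD7_symMat_pow (A : M2) (n : ℕ) : symMat (A ^ n) = (symMat A) ^ n := by
  induction n with
  | zero => rw [pow_zero, pow_zero, symMat_one]
  | succ n ih => rw [pow_succ, pow_succ, symMat_mul, ih]

theorem pm_HD7_symMat_inv {F : M2} (h : F.det ≠ 0) : (symMat F)⁻¹ = symMat F⁻¹ := by
  apply Matrix.inv_eq_left_inv
  rw [← symMat_mul, Matrix.nonsing_inv_mul _ (Ne.isUnit h), symMat_one]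

theorem pm_HD7_Dm (B : Base) : B.Dm 0 0 0 = 1 := by
  have hd : dgv 0 (-(0 * B.Lm)) = fun _ => 1 := by
    funext i
    fin_cases i <;> simp [dgv]
  have hf : (symMat (B.fp 0)).det ≠ 0 := by
    rw [symMat_det, B.fp_det 0]
    norm_num
  unfold Base.Dm cj
  rw [hd, Matrix.diagonal_one, mul_one, Matrix.mul_nonsing_inv _ (Ne.isUnit hf)]

/-- the parameters of a handle with bulge `a` and twist `th` -/
def pm_HD7_z (a th : ℝ) : ZI := ⟨fun _ => 0, fun _ => a, fun _ => th⟩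

theorem pm_HD7_N (B : Base) (a th : ℝ) (g : F2) :
    (B.psI (fun _ => false)).N (QI.dH 0) (pm_HD7_z a th) (phi false 0 g) = B.NH a th g :=
  N_handle B (fun _ => false) (pm_HD7_z a th) 0 g

theorem pm_HD7_det (B : Base) (b : Fin 3 → Bool) (z : ZI) (g : Surf) :
    ((B.psI b).r z g : M3).det = 1 := by
  show ((B.repI b z g : SL(3, ℝ)) : M3).det = 1
  exact (B.repI b z g).2

theorem pm_HD7_one_le (B : Base) (a th : ℝ) (g : F2) : 1 ≤ B.NH a th g := by
  rw [← pm_HD7_N]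
  exact (N_basic (B.psI (fun _ => false)) (QI.dH 0) (pm_HD7_z a th)
    (pm_HD7_det B _ _)).1 _

theorem pm_HD7_sub (B : Base) (a th : ℝ) (g h : F2) :
    B.NH a th (g * h) ≤ B.NH a th g * B.NH a th h := by
  rw [← pm_HD7_N, ← pm_HD7_N, ← pm_HD7_N, map_mul]
  exact (N_basic (B.psI (fun _ => false)) (QI.dH 0) (pm_HD7_z a th)
    (pm_HD7_det B _ _)).2 _ _

theorem pm_HD7_Nw (B : Base) (j : ℕ) : B.NH 0 0 (pm_HD7_w j) =
    nrm (symMat ((B.fd 0 * J2)⁻¹ * ((B.Y 0 * (B.R (l0 0) * B.R (l1 0))) ^ (j + 1) *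
      (B.R (l0 0) * B.R (l1 0))) * (B.fd 0 * J2))) := by
  have hF : (B.fd 0 * J2).det ≠ 0 := by
    rw [Matrix.det_mul, B.fd_det 0]
    simp [J2, Matrix.det_fin_two]
  have h1 : ((B.Hr 0 0 gp : SL(3, ℝ)) : M3) = symMat (B.R (l0 0) * B.R (l1 0)) := by
    unfold Base.Hr gp
    rw [FreeGroup.lift_apply_of]
    rfl
  have h2 : ((B.Hr 0 0 gr : SL(3, ℝ)) : M3) = symMat (B.Y 0) := by
    unfold Base.Hr gr
    rw [FreeGroup.lift_apply_of]
    show symMat (B.Y 0) * B.Dm 0 0 0 = symMat (B.Y 0)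
    rw [pm_HD7_Dm, mul_one]
  have h3 : ((B.Hr 0 0 (pm_HD7_w j) : SL(3, ℝ)) : M3) =
      symMat ((B.Y 0 * (B.R (l0 0) * B.R (l1 0))) ^ (j + 1) * (B.R (l0 0) * B.R (l1 0))) := by
    unfold pm_HD7_w
    rw [map_mul, map_pow, map_mul, Matrix.SpecialLinearGroup.coe_mul,
      Matrix.SpecialLinearGroup.coe_pow, Matrix.SpecialLinearGroup.coe_mul, h1, h2,
      symMat_mul (_ ^ (j + 1)), pm_HD7_symMat_pow, symMat_mul (B.Y 0)]
  unfold Base.NH
  rw [h3, pm_HD7_symMat_inv hF, ← symMat_mul, ← symMat_mul]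

theorem EH_zero : 1 / 7 ≤ B.EH 0 0 := by
  obtain ⟨n, hn⟩ := B.E0
  have htop : poin (⊤ : Subgroup F2) (B.NH 0 0) (1 / 7) = ⊤ := by
    apply pm_HD7_div (pm_HD7_one_le B 0 0) (pm_HD7_sub B 0 0) (by norm_num) (n := n)
    simp only [pm_HD7_Nw]
    exact hn
  by_contra hcon
  push Not at hcon
  obtain ⟨C, hC, hg⟩ := handle_growth B 0
  obtain ⟨h0, -, -, -, h5⟩ := hg 0 0 le_rfl le_rfl le_rfl zero_le_one
  have := h5 (1 / 7) hcon (by linarith)
  rw [htop] at this
  exact absurd this (by simp)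

/-- weak handles -/
theorem EH_weak : ∃ τ₀ > (0 : ℝ), ∀ a th : ℝ, τ₀ ≤ a → 0 ≤ th → th ≤ 1 → B.EH a th ≤ 1 / 8 := by
  obtain ⟨K, κ, Φ, P⟩ := exists_PkI B (fun _ => false)
  obtain ⟨τ₀, hτ, A₁, hA, hw⟩ := P.weakB 1
  refine ⟨τ₀, hτ, ?_⟩
  intro a th ha _ _
  have h1 := hw (pm_HD7_z a th) 0 ha (1 / 8) le_rfl (by norm_num) (LB 0) le_rfl
  have hVC := (P.vB 0).1
  have hc : (B.psI (fun _ => false)).c (QI.dH 0) ∈ BH 0 := by
    show (dd 0)⁻¹ ∈ BH 0
    apply Subgroup.inv_mem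
    have hx : sx 0 ∈ BH 0 := Subgroup.subset_closure (by simp)
    have hy : sy 0 ∈ BH 0 := Subgroup.subset_closure (by simp)
    exact Subgroup.mul_mem _ (Subgroup.mul_mem _ (Subgroup.mul_mem _ hx hy)
      (Subgroup.inv_mem _ hx)) (Subgroup.inv_mem _ hy)
  have h2 := poin_le_Zs P.hκ.le hVC (pm_HD7_z a th) (s := 1 / 8) (by norm_num)
    (p := QI.dH 0) rfl hc
  rw [poin_handle] at h2
  have h3 : poin (⊤ : Subgroup F2) (B.NH a th) (1 / 8) < ⊤ := by
    refine lt_of_le_of_lt h2 ?_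
    apply ENNReal.mul_lt_top ENNReal.ofReal_lt_top
    refine ENNReal.add_lt_top.mpr ⟨ENNReal.one_lt_top, ?_⟩
    exact lt_of_le_of_lt h1 ENNReal.ofReal_lt_top
  exact (expo_le_of_poin (fun g _ => pm_HD7_one_le B a th g) (by norm_num) h3).1

/-- divergence at the critical exponent, if it is larger than `1/8` -/
theorem handle_div {a : ℝ} (ha : 0 ≤ a) (h : 1 / 8 < B.EH a 0) :
    poin (⊤ : Subgroup F2) (B.NH a 0) (B.EH a 0) = ⊤ := by
  obtain ⟨K, κ, Φ, P⟩ := exists_PkI B (fun _ => false)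
  obtain ⟨A₀, -, hzh⟩ := P.zh (B.EH a 0)
  obtain ⟨C, -, hcr⟩ := crossI B (fun _ => false)
  have hK0 : (0 : ℝ) < K := by linarith [P.hK]
  have hpo : ∀ s, poin (BH 0) ((B.psI (fun _ => false)).N (QI.dH 0) (pm_HD5_za a 0)) s =
      poin (⊤ : Subgroup F2) (B.NH a 0) s := fun s =>
    poin_handle B (fun _ => false) (pm_HD5_za a 0) 0 s
  have hdH : QI.dH 0 ∈ SH 0 := by simp [SH]
  have hdI : QI.dH 0 ∉ LB 0 := by simp [LB]
  have key := pm_HD8_gen (ghB B (fun _ => false) 0) P.hκ.le hK0 ((P.vh 0).vc (LB 0))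
    (by unfold LB; exact Set.toFinite _) hdH hdI (pm_CI9_cd B (fun _ => false) 0)
    (pm_HD5_za a 0) (s₁ := 1 / 8) (E := B.EH a 0) (by norm_num) h
    (fun s h1 h2 p hp q hq => lt_of_le_of_lt (hzh (LB 0) (pm_HD5_za a 0) s h1 h2 0 p hp q hq)
      ENNReal.ofReal_lt_top)
    (fun s h1 _ e he => by
      have hb : blI e (pm_HD5_za a 0) = a := by
        rcases he with rfl | he
        · rfl
        · rw [Set.mem_singleton_iff] at he
          subst he
          rfl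
      exact lt_of_le_of_lt (hcr e (pm_HD5_za a 0) s (by rw [hb]; exact ha) h1)
        ENNReal.ofReal_lt_top)
    (fun s h1 h2 => by
      have h3 := hpo s
      rw [poin_top_of_lt (fun g _ => pm_HD7_one_le B a 0 g) (by linarith) h2] at h3
      exact h3)
  have h4 := hpo (B.EH a 0)
  rw [← h4]
  exact key

/-- choice of `a*` and of the maximal exponent `Mx` -/
theorem exists_params : ∃ τw as Mx : ℝ, 0 < τw ∧ 0 ≤ as ∧ as ≤ τw ∧ 1 / 7 ≤ Mx ∧
    B.EH as 0 = Mx ∧ (∀ a, 0 ≤ a → B.EH a 0 ≤ Mx) ∧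
    (∀ a th, τw ≤ a → 0 ≤ th → th ≤ 1 → B.EH a th ≤ Mx) := by
  obtain ⟨τ, hτ, hw⟩ := EH_weak B
  have hcont : ContinuousOn (fun a => B.EH a 0) (Set.Icc 0 τ) :=
    (EH_cont B).mono (fun x hx => hx.1)
  obtain ⟨as, has, hmax⟩ := isCompact_Icc.exists_isMaxOn
    (Set.nonempty_Icc.mpr hτ.le) hcont
  have h0 : B.EH 0 0 ≤ B.EH as 0 := hmax (Set.left_mem_Icc.mpr hτ.le)
  have h7 := EH_zero B
  refine ⟨τ, as, B.EH as 0, hτ, has.1, has.2, h7.trans h0, rfl, ?_, ?_⟩
  · intro a ha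
    rcases le_total a τ with h | h
    · exact hmax ⟨ha, h⟩
    · have := hw a 0 h le_rfl zero_le_one
      linarith
  · intro a th ha h1 h2
    have := hw a th ha h1 h2
    linarith

/-! ### the group `W` -/

/-- the base parameter -/
private def pm_HD9_z0 : ZI := ⟨fun _ => 0, fun _ => 0, fun _ => 0⟩

private theorem pm_HD9_abs_le (A : M3) (i j : Fin 3) : |A i j| ≤ nrm A := by
  have h1 : |A i j| ≤ ∑ j', |A i j'| :=
    Finset.single_le_sum (f := fun j' => |A i j'|) (fun _ _ => abs_nonneg _) (Finset.mem_univ j)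
  have h2 : ∑ j', |A i j'| ≤ nrm A :=
    Finset.single_le_sum (f := fun i' => ∑ j', |A i' j'|)
      (fun _ _ => Finset.sum_nonneg fun _ _ => abs_nonneg _) (Finset.mem_univ i)
  exact h1.trans h2

private theorem pm_HD9_nrm2 (A : M2) : nrm2 A ≤ 4 * Real.sqrt (nrm (symMat A)) := by
  have h : ∀ i j, |A i j| ≤ Real.sqrt (nrm (symMat A)) := by
    intro i j
    apply Real.le_sqrt_of_sq_le
    rw [sq_abs]
    fin_cases i <;> fin_cases j
    · refine le_trans (le_of_eq ?_) (pm_HD9_abs_le (symMat A) 0 0)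
      change A 0 0 ^ 2 = |A 0 0 * A 0 0|
      rw [abs_mul_self, sq]
    · refine le_trans (le_of_eq ?_) (pm_HD9_abs_le (symMat A) 0 2)
      change A 0 1 ^ 2 = |A 0 1 * A 0 1|
      rw [abs_mul_self, sq]
    · refine le_trans (le_of_eq ?_) (pm_HD9_abs_le (symMat A) 2 0)
      change A 1 0 ^ 2 = |A 1 0 * A 1 0|
      rw [abs_mul_self, sq]
    · refine le_trans (le_of_eq ?_) (pm_HD9_abs_le (symMat A) 2 2)
      change A 1 1 ^ 2 = |A 1 1 * A 1 1|
      rw [abs_mul_self, sq]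
  unfold nrm2
  simp only [Fin.sum_univ_two]
  have h1 := h 0 0
  have h2 := h 0 1
  have h3 := h 1 0
  have h4 := h 1 1
  linarith

private theorem pm_HD9_log (A : M2) (h : 1 ≤ nrm (symMat A)) :
    Real.log (nrm2 A) ≤ Real.log 4 + 1 / 2 * Real.log (nrm (symMat A)) := by
  have hl := Real.log_nonneg h
  have h4 : 0 ≤ Real.log 4 := Real.log_nonneg (by norm_num)
  rcases eq_or_ne (nrm2 A) 0 with h0 | h0
  · rw [h0, Real.log_zero]
    linarith
  · have hpos : 0 < nrm2 A := lt_of_le_of_ne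
      (Finset.sum_nonneg fun _ _ => Finset.sum_nonneg fun _ _ => abs_nonneg _) (Ne.symm h0)
    have h1 := Real.log_le_log hpos (pm_HD9_nrm2 A)
    have h2 : 0 < Real.sqrt (nrm (symMat A)) := Real.sqrt_pos.2 (by linarith)
    rw [Real.log_mul (by norm_num) h2.ne', Real.log_sqrt (by linarith)] at h1
    linarith

private theorem pm_HD9_cj (f : M2) (hf : f.det = 1) : cj f (dgv 0 0) = 1 := by
  have hd : diagonal (dgv 0 0) = (1 : M3) := by
    rw [← Matrix.diagonal_one]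
    congr 1
    funext i
    fin_cases i <;> simp [dgv]
  unfold cj
  rw [hd, Matrix.mul_one]
  exact Matrix.mul_nonsing_inv _ (by rw [symMat_det, hf]; simp)

private theorem pm_HD9_rep0 (B : Base) (b : Fin 3 → Bool) :
    B.repI b pm_HD9_z0 = irr.comp B.rhoS := by
  have hgI : ∀ i, B.gI b pm_HD9_z0 i = if b i then symMat (B.sw i) else 1 := by
    intro i
    change cj (B.fd i) (dgv 0 0) * (if b i then symMat (B.sw i) else 1) = _
    rw [pm_HD9_cj _ (B.fd_det i), Matrix.one_mul]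
  have hhY : ∀ i, B.hY i 0 0 = symMat (B.Y i) := by
    intro i
    unfold Base.hY Base.Dm
    rw [zero_mul, neg_zero, pm_HD9_cj _ (B.fp_det i), Matrix.mul_one]
  have hsw : ∀ i, symMat (B.sw i) * (symMat (B.sw i))⁻¹ = 1 := fun i =>
    Matrix.mul_nonsing_inv _ (by rw [symMat_det, B.sw_det]; norm_num)
  have hmX : ∀ i, B.mX b pm_HD9_z0 i = symMat (B.X i) := by
    intro i
    unfold Base.mX
    rw [hgI]
    change (if b i then symMat (B.sw i) else 1) * (if b i then B.hY i 0 0 else B.hX i) *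
      (if b i then symMat (B.sw i) else 1)⁻¹ = _
    by_cases hb : b i = true
    · rw [if_pos hb, if_pos hb, hhY, ← symMat_mul, B.sw_Y, symMat_mul, Matrix.mul_assoc, hsw,
        Matrix.mul_one]
    · rw [if_neg hb, if_neg hb, inv_one, Matrix.mul_one, Matrix.one_mul]
      rfl
  have hmY : ∀ i, B.mY b pm_HD9_z0 i = symMat (B.Y i) := by
    intro i
    unfold Base.mY
    rw [hgI]
    change (if b i then symMat (B.sw i) else 1) * (if b i then B.hX i else B.hY i 0 0) *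
      (if b i then symMat (B.sw i) else 1)⁻¹ = _
    by_cases hb : b i = true
    · rw [if_pos hb, if_pos hb]
      unfold Base.hX
      rw [← symMat_mul, B.sw_X, symMat_mul, Matrix.mul_assoc, hsw, Matrix.mul_one]
    · rw [if_neg hb, if_neg hb, inv_one, Matrix.mul_one, Matrix.one_mul, hhY]
  refine surf_ext (fun i => Subtype.ext ?_) (fun i => Subtype.ext ?_)
  · exact (B.repI_x b _ i).trans ((hmX i).trans (congrArg symMat (B.rhoS_x i)).symm)
  · exact (B.repI_y b _ i).trans ((hmY i).trans (congrArg symMat (B.rhoS_y i)).symm)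

private theorem pm_HD9_det (B : Base) (b : Fin 3 → Bool) (z : ZI) (g : Surf) :
    ((B.psI b).r z g : M3).det = 1 :=
  (B.repI b z g).2

private theorem pm_HD9_qi0 (B : Base) (b : Fin 3 → Bool) (p : QI) : ∃ c : ℝ, 0 < c ∧
    ∀ g : Surf, Real.log (nrm2 (B.rhoS g : M2)) ≤
      c * (1 + Real.log ((B.psI b).N p pm_HD9_z0 g)) := by
  obtain ⟨c₁, hc₁, h1⟩ := nrm_frame_change (1 : GL (Fin 3) ℝ) ((B.psI b).F p pm_HD9_z0)
  have h40 : 0 ≤ Real.log 4 := Real.log_nonneg (by norm_num)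
  refine ⟨Real.log 4 + |Real.log c₁| + 1, by positivity, fun g => ?_⟩
  have hr : ((B.psI b).r pm_HD9_z0 g : M3) = symMat (B.rhoS g : M2) := by
    change ((B.repI b pm_HD9_z0 g : SL(3, ℝ)) : M3) = _
    rw [pm_HD9_rep0]
    rfl
  have h2 := h1 ((B.psI b).r pm_HD9_z0 g : M3)
  rw [inv_one, Units.val_one, Matrix.one_mul, Matrix.mul_one] at h2
  have hN1 := (N_basic (B.psI b) p pm_HD9_z0 (pm_HD9_det B b pm_HD9_z0)).1 g
  change nrm ((B.psI b).r pm_HD9_z0 g : M3) ≤ c₁ * (B.psI b).N p pm_HD9_z0 g at h2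
  rw [hr] at h2
  have hs1 : 1 ≤ nrm (symMat (B.rhoS g : M2)) :=
    (one_le_lam (by rw [symMat_det, (B.rhoS g).2, one_pow])).trans (lam_le_nrm _)
  have h3 := pm_HD9_log _ hs1
  have h4 : Real.log (nrm (symMat (B.rhoS g : M2))) ≤
      Real.log c₁ + Real.log ((B.psI b).N p pm_HD9_z0 g) := by
    rw [← Real.log_mul hc₁.ne' (by linarith)]
    exact Real.log_le_log (by linarith) h2
  have h5 := Real.log_nonneg hN1
  have h6 := le_abs_self (Real.log c₁)
  have h7 := abs_nonneg (Real.log c₁)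
  have h8 : 0 ≤ (Real.log 4 + |Real.log c₁|) * Real.log ((B.psI b).N p pm_HD9_z0 g) := by
    positivity
  nlinarith

private theorem pm_HD9_size {B : Base} {b : Fin 3 → Bool} {K κ : ℝ}
    {Φ : Finset (ZI → GL (Fin 3) ℝ)} (P : PkI B b K κ Φ) (z : ZI) (i : Fin 3) (p : QI)
    (hp : p = QI.dP i ∨ p = QI.dH i) :
    ∃ c : ℝ, IsSize B.rhoS (sx 2) (sy 2) c ⊤ ((B.psI b).N p z) := by
  obtain ⟨c₁, hc₁, h1⟩ := P.size_top z pm_HD9_z0 i
  obtain ⟨c₂, hc₂, h2⟩ := pm_HD9_qi0 B b p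
  have hb := N_basic (B.psI b) p z (pm_HD9_det B b z)
  have h1' : ∀ g : Surf, Real.log ((B.psI b).N p pm_HD9_z0 g) ≤
      c₁ * (1 + Real.log ((B.psI b).N p z g)) := by
    intro g
    rcases hp with rfl | rfl
    · exact (h1 g).1
    · exact (h1 g).2
  have n1 := hb.1 (sx 2)
  have n2 := hb.1 (sx 2)⁻¹
  have n3 := hb.1 (sy 2)
  have n4 := hb.1 (sy 2)⁻¹
  have n5 : 0 < c₂ * (1 + c₁) := by positivity
  refine ⟨(B.psI b).N p z (sx 2) + (B.psI b).N p z (sx 2)⁻¹ + (B.psI b).N p z (sy 2) +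
    (B.psI b).N p z (sy 2)⁻¹ + c₂ * (1 + c₁), ?_⟩
  refine ⟨trivial, trivial, fun g _ => hb.1 g, fun g _ h _ => hb.2 g h, ?_, fun g _ => ?_⟩
  · refine ⟨?_, ?_, ?_, ?_⟩ <;> linarith
  · have h3 := Real.log_nonneg (hb.1 g)
    have h4 : c₂ * (1 + Real.log ((B.psI b).N p pm_HD9_z0 g)) ≤
        c₂ * (1 + c₁) * (1 + Real.log ((B.psI b).N p z g)) := by
      rw [mul_assoc]
      refine mul_le_mul_of_nonneg_left ?_ hc₂.le
      have := h1' g
      linarith
    refine (h2 g).trans (h4.trans ?_)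
    refine mul_le_mul_of_nonneg_right ?_ (by linarith)
    linarith


private theorem pm_HD9_dd (B : Base) (b b' : Fin 3 → Bool) (z z' : ZI) (i : Fin 3) :
    B.repI b z (dd i) = B.repI b' z' (dd i) := by
  have h : ∀ (b : Fin 3 → Bool) (z : ZI),
      B.repI b z (dd i) = com (B.slX b z i) (B.slY b z i) := by
    intro b z
    have h1 : B.repI b z (dd i) = com (B.repI b z (sx i)) (B.repI b z (sy i)) := by
      simp only [dd, com, map_mul, map_inv]
    rw [h1, B.repI_sx, B.repI_sy]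
  rw [h b z, h b' z']
  exact Subtype.ext ((B.com_mXY b z i).trans (B.com_mXY b' z' i).symm)

private theorem pm_HD9_rep (B : Base) (b b' : Fin 3 → Bool) (hb : b 2 = false) (hb' : b' 2 = false)
    {z z' : ZI} (ht : z.t 2 = z'.t 2) (ha : z.a 2 = z'.a 2) (hth : z.th 2 = z'.th 2) {g : Surf}
    (hg : g ∈ WG) : B.repI b z g = B.repI b' z' g := by
  have hgI : B.gI b z 2 = B.gI b' z' 2 := by
    unfold Base.gI Base.Zb
    rw [hb, hb', ht]
  have hX : B.mX b z 2 = B.mX b' z' 2 := by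
    unfold Base.mX
    rw [hgI, hb, hb', ha, hth]
  have hY : B.mY b z 2 = B.mY b' z' 2 := by
    unfold Base.mY
    rw [hgI, hb, hb', ha, hth]
  have hle : WG ≤ (B.repI b z).eqLocus (B.repI b' z') := by
    unfold WG
    rw [Subgroup.closure_le]
    rintro x (hx | hx | hx | hx)
    · rw [hx]
      exact pm_HD9_dd B b b' z z' 0
    · rw [hx]
      exact pm_HD9_dd B b b' z z' 1
    · rw [hx]
      exact Subtype.ext ((B.repI_x b z 2).trans (hX.trans (B.repI_x b' z' 2).symm))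
    · rw [Set.mem_singleton_iff.1 hx]
      exact Subtype.ext ((B.repI_y b z 2).trans (hY.trans (B.repI_y b' z' 2).symm))
  exact hle hg

/-- sizes on `W` depend only on the parameters of the handle 2 -/
theorem N_W (b' : Fin 3 → Bool) (hb : b 2 = false) (hb' : b' 2 = false) {z z' : ZI} (ht : z.t 2 = z'.t 2)
    (ha : z.a 2 = z'.a 2)
    (hth : z.th 2 = z'.th 2) {g : Surf} (hg : g ∈ WG) :
    (B.psI b).N (QI.dP 0) z g = (B.psI b').N (QI.dP 0) z' g := by
  have h := pm_HD9_rep B b b' hb hb' ht ha hth hg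
  change nrm ((((glOf (symMat (B.fd 0)))⁻¹ : GL (Fin 3) ℝ) : M3) * ((B.repI b z g : SL(3, ℝ)) : M3) *
      ((glOf (symMat (B.fd 0)) : GL (Fin 3) ℝ) : M3)) =
    nrm ((((glOf (symMat (B.fd 0)))⁻¹ : GL (Fin 3) ℝ) : M3) * ((B.repI b' z' g : SL(3, ℝ)) : M3) *
      ((glOf (symMat (B.fd 0)) : GL (Fin 3) ℝ) : M3))
  rw [h]

/-- size data and growth for `W` -/
theorem W_growth (hb : b 2 = false) (T a : ℝ) (ha : 0 ≤ a) : ∃ C > (0 : ℝ), ∀ z : ZI, z.t 2 = T → z.a 2 = a → z.th 2 = 0 →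
    (∀ R, (nX WG ((B.psI b).N (QI.dP 0) z) R).Finite) ∧
    Tendsto (fun R : ℝ => Real.log ((nX WG ((B.psI b).N (QI.dP 0) z) R).ncard) / R) atTop
      (𝓝 (expo WG ((B.psI b).N (QI.dP 0) z))) ∧
    (∀ s, expo WG ((B.psI b).N (QI.dP 0) z) < s → s ≤ expo WG ((B.psI b).N (QI.dP 0) z) + 1 →
      poin WG ((B.psI b).N (QI.dP 0) z) s ≤
        ENNReal.ofReal (C / (s - expo WG ((B.psI b).N (QI.dP 0) z)) ^ 2)) := by
  obtain ⟨K, κ, Φ, P⟩ := exists_PkI B b
  obtain ⟨c, hc⟩ := pm_HD9_size P ⟨fun _ => T, fun _ => a, fun _ => 0⟩ 0 (QI.dP 0) (Or.inl rfl)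
  have hx : sx 2 ∈ WG := Subgroup.subset_closure (by simp)
  have hy : sy 2 ∈ WG := Subgroup.subset_closure (by simp)
  have hW : IsSize B.rhoS (sx 2) (sy 2) c WG
      ((B.psI b).N (QI.dP 0) ⟨fun _ => T, fun _ => a, fun _ => 0⟩) :=
    ⟨hx, hy, fun g _ => hc.one_le g trivial, fun g _ h _ => hc.mul_le g trivial h trivial,
      hc.gens, fun g _ => hc.qi g trivial⟩
  obtain ⟨-, -, -, h1, h2, h3⟩ := hyp_pair B
  obtain ⟨C, hC, hg⟩ := growth B.rhoS (sx 2) (sy 2) (fuchs_fin B) h1 h2 h3 c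
  obtain ⟨-, -, g1, g2, -, -, g3, -⟩ := hg WG _ hW
  refine ⟨C, hC, fun z hz1 hz2 hz3 => ?_⟩
  have hN : ∀ g ∈ WG, (B.psI b).N (QI.dP 0) z g =
      (B.psI b).N (QI.dP 0) ⟨fun _ => T, fun _ => a, fun _ => 0⟩ g := fun g hg =>
    N_W B b b hb hb hz1 hz2 hz3 hg
  have hnX : ∀ R, nX WG ((B.psI b).N (QI.dP 0) z) R =
      nX WG ((B.psI b).N (QI.dP 0) ⟨fun _ => T, fun _ => a, fun _ => 0⟩) R := by
    intro R
    ext g
    constructor
    · rintro ⟨hg1, hg2⟩
      exact ⟨hg1, (hN g hg1) ▸ hg2⟩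
    · rintro ⟨hg1, hg2⟩
      exact ⟨hg1, (hN g hg1).symm ▸ hg2⟩
  have hex : expo WG ((B.psI b).N (QI.dP 0) z) =
      expo WG ((B.psI b).N (QI.dP 0) ⟨fun _ => T, fun _ => a, fun _ => 0⟩) := by
    unfold expo
    simp only [hnX]
  have hpo : ∀ s, poin WG ((B.psI b).N (QI.dP 0) z) s =
      poin WG ((B.psI b).N (QI.dP 0) ⟨fun _ => T, fun _ => a, fun _ => 0⟩) s := by
    intro s
    unfold poin
    refine tsum_congr fun g => ?_
    rw [hN g g.2]
  rw [hex]
  simp only [hnX, hpo]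
  exact ⟨g1, g2, g3⟩

theorem pm_HD10_lift : ∃ θ : Surf →* Monoid.CoprodI (fun _ : Bool => F2),
    (∀ u : F2, θ (phi true 2 u) = Monoid.CoprodI.of (i := true) gp * Monoid.CoprodI.of (i := false) u *
      Monoid.CoprodI.of (i := true) gp⁻¹) ∧
    θ (dd 0) = Monoid.CoprodI.of (i := false) (com gp gr) := by
  set P : Monoid.CoprodI (fun _ : Bool => F2) := Monoid.CoprodI.of (i := false) gp with hP
  set R : Monoid.CoprodI (fun _ : Bool => F2) := Monoid.CoprodI.of (i := false) gr with hR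
  set g : Monoid.CoprodI (fun _ : Bool => F2) := Monoid.CoprodI.of (i := true) gp with hg
  have h0 : com P R * com (com P R)⁻¹ g * com (g * R * g⁻¹) (g * P * g⁻¹) = 1 := by
    simp only [com]; group
  obtain ⟨θ, h1, h2⟩ := surf_lift (G := Monoid.CoprodI (fun _ : Bool => F2))
    ![P, (com P R)⁻¹, g * R * g⁻¹] ![R, g, g * P * g⁻¹] h0
  refine ⟨θ, ?_, ?_⟩
  · have e : θ.comp (phi true 2) = ((MulAut.conj g).toMonoidHom).comp
        (Monoid.CoprodI.of (M := fun _ : Bool => F2) (i := false)) := by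
      ext c
      have h3 := h1 2
      have h4 := h2 2
      cases c
      · simp only [MonoidHom.comp_apply, phi, FreeGroup.lift_apply_of]
        simp [h4, hP, gp]
      · simp only [MonoidHom.comp_apply, phi, FreeGroup.lift_apply_of]
        simp [h3, hR, gr]
    intro u
    have h3 := DFunLike.congr_fun e u
    simp only [MonoidHom.comp_apply] at h3
    rw [h3, map_inv, ← hg]
    simp
  · have h3 := h1 0
    have h4 := h2 0
    simp only [dd, com, map_mul, map_inv, h3, h4]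
    simp [hP, hR]

theorem pm_HD10_w_ne : com gp gr ≠ 1 := by
  intro h
  have : com (gp : FreeGroup Bool) gr = com gp gr := rfl
  simp only [com, gp, gr] at h
  have h2 := congrArg FreeGroup.toWord h
  revert h2
  decide

/-- the word of a list -/
def pm_HD10_lst : List F2 → List (Σ _ : Bool, F2)
  | [] => []
  | u :: l => ⟨true, gp⟩ :: ⟨false, u⟩ :: ⟨true, gp⁻¹⟩ :: ⟨false, com gp gr⟩ :: pm_HD10_lst l

theorem pm_HD10_lst_inj : ∀ l l' : List F2, pm_HD10_lst l = pm_HD10_lst l' → l = l'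
  | [], [], _ => rfl
  | [], _ :: _, h => by simp [pm_HD10_lst] at h
  | _ :: _, [], h => by simp [pm_HD10_lst] at h
  | u :: l, u' :: l', h => by
      simp only [pm_HD10_lst, List.cons.injEq, Sigma.mk.injEq, heq_eq_eq, true_and] at h
      rw [h.1, pm_HD10_lst_inj l l' h.2]

theorem pm_HD10_gp_ne : gp ≠ 1 := FreeGroup.of_ne_one _

theorem pm_HD10_ne : ∀ l : List F2, (∀ u ∈ l, u ≠ 1) → ∀ x ∈ pm_HD10_lst l, Sigma.snd x ≠ 1
  | [], _, x, hx => by simp [pm_HD10_lst] at hx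
  | u :: l, hl, x, hx => by
      simp only [pm_HD10_lst, List.mem_cons] at hx
      rcases hx with rfl | rfl | rfl | rfl | hx
      · exact pm_HD10_gp_ne
      · exact hl u (by simp)
      · exact inv_ne_one.2 pm_HD10_gp_ne
      · exact pm_HD10_w_ne
      · exact pm_HD10_ne l (fun v hv => hl v (by simp [hv])) x hx

theorem pm_HD10_chain : ∀ l : List F2,
    (pm_HD10_lst l).IsChain fun a b => Sigma.fst a ≠ Sigma.fst b
  | [] => by simp [pm_HD10_lst]
  | [u] => by simp [pm_HD10_lst]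
  | u :: v :: l => by
      have ih := pm_HD10_chain (v :: l)
      simp only [pm_HD10_lst] at ih ⊢
      refine List.IsChain.cons_cons (by simp) (List.IsChain.cons_cons (by simp)
        (List.IsChain.cons_cons (by simp) (List.IsChain.cons_cons (by simp) ih)))

def pm_HD10_word (l : List F2) (hl : ∀ u ∈ l, u ≠ 1) : Monoid.CoprodI.Word (fun _ : Bool => F2) where
  toList := pm_HD10_lst l
  ne_one := pm_HD10_ne l hl
  chain_ne := pm_HD10_chain l

theorem pm_HD10_prod : ∀ l : List F2,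
    ((pm_HD10_lst l).map fun x => Monoid.CoprodI.of (M := fun _ : Bool => F2) (i := x.fst) x.snd).prod =
    (l.map fun u => Monoid.CoprodI.of (M := fun _ : Bool => F2) (i := true) gp *
      Monoid.CoprodI.of (i := false) u * Monoid.CoprodI.of (i := true) gp⁻¹ *
      Monoid.CoprodI.of (i := false) (com gp gr)).prod
  | [] => rfl
  | u :: l => by
      have ih := pm_HD10_prod l
      simp only [pm_HD10_lst, List.map_cons, List.prod_cons]
      rw [ih]
      simp only [mul_assoc]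

/-- words `b₁ d₀ b₂ d₀ ⋯` with nontrivial `b_i ∈ B_2` are distinct -/
theorem W_words_inj (l l' : List Surf) (hl : ∀ g ∈ l, g ∈ BH 2 ∧ g ≠ 1) (hl' : ∀ g ∈ l', g ∈ BH 2 ∧ g ≠ 1)
    (h : (l.map (fun g => g * dd 0)).prod = (l'.map (fun g => g * dd 0)).prod) :
    l = l' := by
  obtain ⟨θ, hθ, hw⟩ := pm_HD10_lift
  have hex : ∀ g : Surf, ∃ u : F2, g ∈ BH 2 → phi true 2 u = g := by
    intro g
    by_cases hg : g ∈ BH 2
    · rw [← phi_range true 2] at hg
      obtain ⟨u, hu⟩ := hg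
      exact ⟨u, fun _ => hu⟩
    · exact ⟨1, fun h => absurd h hg⟩
  choose u hu using hex
  have hn : ∀ g : Surf, g ∈ BH 2 ∧ g ≠ 1 → u g ≠ 1 := by
    intro g hg h1
    apply hg.2
    rw [← hu g hg.1, h1, map_one]
  have hmap : ∀ m : List Surf, (∀ g ∈ m, g ∈ BH 2 ∧ g ≠ 1) →
      θ ((m.map (fun g => g * dd 0)).prod) = ((pm_HD10_lst (m.map u)).map
        fun x => Monoid.CoprodI.of (M := fun _ : Bool => F2) (i := x.fst) x.snd).prod := by
    intro m hm
    rw [pm_HD10_prod, map_list_prod, List.map_map, List.map_map]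
    congr 1
    apply List.map_congr_left
    intro g hg
    simp only [Function.comp_apply, map_mul]
    rw [hw, ← hθ (u g), hu g (hm g hg).1]
  have e := congrArg θ h
  rw [hmap l hl, hmap l' hl'] at e
  have hl1 : ∀ v ∈ l.map u, v ≠ 1 := by
    intro v hv
    obtain ⟨g, hg, rfl⟩ := List.mem_map.1 hv
    exact hn g (hl g hg)
  have hl1' : ∀ v ∈ l'.map u, v ≠ 1 := by
    intro v hv
    obtain ⟨g, hg, rfl⟩ := List.mem_map.1 hv
    exact hn g (hl' g hg)
  have e2 : (pm_HD10_word (l.map u) hl1).prod = (pm_HD10_word (l'.map u) hl1').prod := e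
  have e3 : pm_HD10_word (l.map u) hl1 = pm_HD10_word (l'.map u) hl1' :=
    Monoid.CoprodI.Word.equiv.symm.injective e2
  have e4 : pm_HD10_lst (l.map u) = pm_HD10_lst (l'.map u) :=
    congrArg Monoid.CoprodI.Word.toList e3
  have e5 := pm_HD10_lst_inj _ _ e4
  have e6 : ∀ m : List Surf, (∀ g ∈ m, g ∈ BH 2 ∧ g ≠ 1) → (m.map u).map (phi true 2) = m := by
    intro m hm
    rw [List.map_map]
    conv_rhs => rw [← List.map_id m]
    apply List.map_congr_left
    intro g hg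
    simp only [Function.comp_apply, id_eq]
    exact hu g (hm g hg).1
  rw [← e6 l hl, ← e6 l' hl', e5]

/-- change of frame for the size -/
theorem pm_HD11_frame {Γ Z Q : Type} [Group Γ] (ps : PS Γ Z Q) (p q : Q) (z : Z) :
    ∃ c > (0 : ℝ), ∀ g, ps.N p z g ≤ c * ps.N q z g := by
  obtain ⟨c, hc, h⟩ := nrm_frame_change (ps.F p z) (ps.F q z)
  exact ⟨c, hc, fun g => h _⟩

theorem pm_HD11_det (z : ZI) (g : Surf) :
    (((B.psI b).r z g : GL (Fin 3) ℝ) : M3).det = 1 := (B.repI b z g).2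

/-- the exponent of `W` is larger than that of `B_2` -/
theorem W_strict (hb : b 2 = false) {a : ℝ} (ha : 0 ≤ a) (h : 1 / 8 < B.EH a 0) (z : ZI) (hz : z.a 2 = a) (hth : z.th 2 = 0) :
    B.EH a 0 < expo WG ((B.psI b).N (QI.dP 0) z) := by
  classical
  set N := (B.psI b).N (QI.dP 0) z with hN
  set N2 := (B.psI b).N (QI.dH 2) z with hN2
  set E := B.EH a 0 with hE
  obtain ⟨hN1, hNm⟩ := N_basic (B.psI b) (QI.dP 0) z (pm_HD11_det B b z)
  obtain ⟨hN21, -⟩ := N_basic (B.psI b) (QI.dH 2) z (pm_HD11_det B b z)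
  obtain ⟨c, hc, hfr⟩ := pm_HD11_frame (B.psI b) (QI.dP 0) (QI.dH 2) z
  -- constant
  set C : ℝ := c * N (dd 0) with hC
  have hd1 : 1 ≤ N (dd 0) := hN1 _
  have hCpos : 0 < C := by positivity
  have hle : ∀ g, N (g * dd 0) ≤ C * N2 g := by
    intro g
    have h1 := hNm g (dd 0)
    have h2 := hfr g
    calc N (g * dd 0) ≤ N g * N (dd 0) := h1
      _ ≤ (c * N2 g) * N (dd 0) := mul_le_mul_of_nonneg_right h2 (by linarith)
      _ = C * N2 g := by rw [hC]; ring
  have hCN : ∀ g, 1 ≤ C * N2 g := fun g => (hN1 _).trans (hle g)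
  -- the divergent series over `B_2`
  have hdiv : ∑' g : BH 2, ENNReal.ofReal ((N2 g) ^ (-E)) = ⊤ := by
    have := poin_handle B b z 2 E
    rw [← hN2] at this
    rw [this, hz, hth]
    exact handle_div B ha h
  have hdiv2 : ∑' g : BH 2, ENNReal.ofReal ((C * N2 g) ^ (-E)) = ⊤ := by
    have e : ∀ g : BH 2, ENNReal.ofReal ((C * N2 g) ^ (-E)) =
        ENNReal.ofReal (C ^ (-E)) * ENNReal.ofReal ((N2 g) ^ (-E)) := by
      intro g
      rw [← ENNReal.ofReal_mul (by positivity), Real.mul_rpow hCpos.le (by linarith [hN21 g])]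
    simp_rw [e]
    rw [ENNReal.tsum_mul_left, hdiv, ENNReal.mul_top]
    have : 0 < C ^ (-E) := by positivity
    simp [this]
  -- a finite set of nontrivial elements with sum larger than one
  obtain ⟨T, hT1, hTsum⟩ : ∃ T : Finset Surf, (∀ g ∈ T, g ∈ BH 2 ∧ g ≠ 1) ∧
      1 < ∑ g ∈ T, (C * N2 g) ^ (-E) := by
    have hlt : (3 : ENNReal) < ∑' g : BH 2, ENNReal.ofReal ((C * N2 g) ^ (-E)) := by
      rw [hdiv2]; exact ENNReal.ofNat_lt_top
    rw [ENNReal.tsum_eq_iSup_sum, lt_iSup_iff] at hlt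
    obtain ⟨T0, hT0⟩ := hlt
    refine ⟨(T0.image Subtype.val).erase 1, ?_, ?_⟩
    · intro g hg
      rw [Finset.mem_erase, Finset.mem_image] at hg
      obtain ⟨hg1, ⟨x, _, rfl⟩⟩ := hg
      exact ⟨x.2, hg1⟩
    · have e1 : ∑ g ∈ T0.image Subtype.val, (C * N2 g) ^ (-E) = ∑ g ∈ T0, (C * N2 g) ^ (-E) :=
        Finset.sum_image (fun x _ y _ h => Subtype.ext h)
      have e2 : (3 : ℝ) < ∑ g ∈ T0, (C * N2 g) ^ (-E) := by
        have h3 : ∀ g ∈ T0, (0 : ℝ) ≤ (C * N2 g) ^ (-E) := fun g _ => by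
          have := hCN g; positivity
        rw [← ENNReal.ofReal_sum_of_nonneg h3] at hT0
        have h4 : ENNReal.ofReal 3 < ENNReal.ofReal (∑ g ∈ T0, (C * N2 g) ^ (-E)) := by
          rw [ENNReal.ofReal_ofNat]; exact hT0
        exact (ENNReal.ofReal_lt_ofReal_iff_of_nonneg (by norm_num)).1 h4
      have e3 : ∑ g ∈ T0.image Subtype.val, (C * N2 g) ^ (-E) ≤
          ∑ g ∈ (T0.image Subtype.val).erase 1, (C * N2 g) ^ (-E) + 1 := by
        by_cases h1 : (1 : Surf) ∈ T0.image Subtype.val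
        · rw [← Finset.sum_erase_add _ _ h1]
          have : (C * N2 1) ^ (-E) ≤ 1 :=
            Real.rpow_le_one_of_one_le_of_nonpos (hCN 1) (by linarith)
          linarith
        · rw [Finset.erase_eq_of_notMem h1]; linarith
      linarith
  -- a larger exponent with sum at least one
  obtain ⟨s, hsE, hs⟩ : ∃ s, E < s ∧ 1 ≤ ∑ g ∈ T, (C * N2 g) ^ (-s) := by
    have hcont : Continuous (fun s : ℝ => ∑ g ∈ T, (C * N2 g) ^ (-s)) := by
      refine continuous_finset_sum _ fun g _ => ?_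
      have := hCN g
      exact continuous_const.rpow continuous_neg (fun _ => Or.inl (by linarith))
    have hnh := (hcont.tendsto E).eventually (lt_mem_nhds hTsum)
    have hnh2 : ∀ᶠ s in 𝓝[>] E, (1 : ℝ) < ∑ g ∈ T, (C * N2 g) ^ (-s) :=
      hnh.filter_mono nhdsWithin_le_nhds
    obtain ⟨s, hs1, hs2⟩ := (hnh2.and self_mem_nhdsWithin).exists
    exact ⟨s, hs2, hs1.le⟩
  have hs0 : 0 < s := by linarith
  -- sizes of words
  have hword : ∀ l : List Surf, N ((l.map (fun g => g * dd 0)).prod) ≤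
      N 1 * (l.map (fun g => C * N2 g)).prod := by
    intro l
    induction l with
    | nil => simp
    | cons g l ih =>
      simp only [List.map_cons, List.prod_cons]
      have h1 := hNm (g * dd 0) ((l.map (fun g => g * dd 0)).prod)
      have h2 := hle g
      have h3 : 0 ≤ N ((l.map (fun g => g * dd 0)).prod) := by linarith [hN1 ((l.map (fun g => g * dd 0)).prod)]
      have h4 := hCN g
      calc N (g * dd 0 * (l.map (fun g => g * dd 0)).prod)
          ≤ N (g * dd 0) * N ((l.map (fun g => g * dd 0)).prod) := h1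
        _ ≤ (C * N2 g) * N ((l.map (fun g => g * dd 0)).prod) := mul_le_mul_of_nonneg_right h2 h3
        _ ≤ (C * N2 g) * (N 1 * (l.map (fun g => C * N2 g)).prod) :=
            mul_le_mul_of_nonneg_left ih (by linarith)
        _ = _ := by ring
  -- membership in `W`
  have hBW : BH 2 ≤ WG := by
    unfold BH WG
    refine Subgroup.closure_mono ?_
    intro x hx
    simp only [Set.mem_insert_iff, Set.mem_singleton_iff] at hx ⊢
    tauto
  have hdW : dd 0 ∈ WG := Subgroup.subset_closure (by simp)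
  have hmem : ∀ l : List Surf, (∀ g ∈ l, g ∈ T) → (l.map (fun g => g * dd 0)).prod ∈ WG := by
    intro l hl
    refine Subgroup.list_prod_mem _ ?_
    intro x hx
    rw [List.mem_map] at hx
    obtain ⟨g, hg, rfl⟩ := hx
    exact WG.mul_mem (hBW (hT1 g (hl g hg)).1) hdW
  -- divergence of the Poincaré series of `W`
  have hpoin : poin WG N s = ⊤ := by
    let J := Σ n : ℕ, (Fin n → T)
    let lst : J → List Surf := fun j => List.ofFn (fun i => ((j.2 i : T) : Surf))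
    have hlst : ∀ j, ∀ g ∈ lst j, g ∈ T := by
      intro j g hg
      rw [List.mem_ofFn] at hg
      obtain ⟨i, rfl⟩ := hg
      exact (j.2 i).2
    let F : J → WG := fun j => ⟨((lst j).map (fun g => g * dd 0)).prod, hmem _ (hlst j)⟩
    have hF : Function.Injective F := by
      intro j j' hjj
      have h1 : ((lst j).map (fun g => g * dd 0)).prod = ((lst j').map (fun g => g * dd 0)).prod :=
        congrArg Subtype.val hjj
      have h2 := W_words_inj (lst j) (lst j') (fun g hg => hT1 g (hlst j g hg))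
        (fun g hg => hT1 g (hlst j' g hg)) h1
      obtain ⟨n, f⟩ := j
      obtain ⟨n', f'⟩ := j'
      have h3 : n = n' := by
        have := congrArg List.length h2
        simpa [lst] using this
      subst h3
      have h4 := List.ofFn_injective h2
      have h5 : f = f' := by
        funext i
        exact Subtype.ext (congrFun h4 i)
      rw [h5]
    have h1 : ∑' j : J, ENNReal.ofReal ((N (F j)) ^ (-s)) ≤ poin WG N s := by
      unfold poin
      exact ENNReal.tsum_comp_le_tsum_of_injective hF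
        (fun g : WG => ENNReal.ofReal ((N g) ^ (-s)))
    have h2 : ∀ j : J, ENNReal.ofReal ((N 1) ^ (-s)) *
        ENNReal.ofReal (∏ i, (C * N2 ((j.2 i : T) : Surf)) ^ (-s)) ≤
        ENNReal.ofReal ((N (F j)) ^ (-s)) := by
      intro j
      have hpos1 : 0 < N 1 := by linarith [hN1 1]
      have e1 : (((lst j).map (fun g => C * N2 g)).prod) = ∏ i, (C * N2 ((j.2 i : T) : Surf)) := by
        simp only [lst, List.map_ofFn, List.prod_ofFn, Function.comp]
      have e2 := hword (lst j)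
      rw [e1] at e2
      have hpp : 0 < ∏ i, (C * N2 ((j.2 i : T) : Surf)) :=
        Finset.prod_pos fun i _ => by linarith [hCN ((j.2 i : T) : Surf)]
      have hNF : 1 ≤ N (F j) := hN1 _
      rw [← ENNReal.ofReal_mul (by positivity)]
      apply ENNReal.ofReal_le_ofReal
      rw [Real.finset_prod_rpow _ _ (fun i _ => by linarith [hCN ((j.2 i : T) : Surf)]),
        ← Real.mul_rpow hpos1.le hpp.le]
      exact Real.rpow_le_rpow_of_nonpos (by linarith) e2 (by linarith)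
    have h3 : ∑' j : J, ENNReal.ofReal ((N 1) ^ (-s)) *
        ENNReal.ofReal (∏ i, (C * N2 ((j.2 i : T) : Surf)) ^ (-s)) = ⊤ := by
      rw [ENNReal.tsum_mul_left]
      have h4 : ∑' j : J, ENNReal.ofReal (∏ i, (C * N2 ((j.2 i : T) : Surf)) ^ (-s)) = ⊤ := by
        have hsig := ENNReal.tsum_sigma (fun (n : ℕ) (f : Fin n → T) =>
          ENNReal.ofReal (∏ i, (C * N2 ((f i : T) : Surf)) ^ (-s)))
        refine Eq.trans hsig ?_
        rw [← top_le_iff]
        have h5 : ∀ n : ℕ, (1 : ENNReal) ≤ ∑' f : Fin n → T,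
            ENNReal.ofReal (∏ i, (C * N2 ((f i : T) : Surf)) ^ (-s)) := by
          intro n
          rw [tsum_fintype, ← ENNReal.ofReal_sum_of_nonneg]
          · rw [← Fintype.sum_pow (fun g : T => (C * N2 (g : Surf)) ^ (-s)) n]
            have h6 : ∑ g : T, (C * N2 (g : Surf)) ^ (-s) = ∑ g ∈ T, (C * N2 g) ^ (-s) :=
              Finset.sum_coe_sort T (fun g => (C * N2 g) ^ (-s))
            rw [h6, ← ENNReal.ofReal_one]
            exact ENNReal.ofReal_le_ofReal (one_le_pow₀ hs)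
          · intro f _
            exact Finset.prod_nonneg fun i _ => by
              have := hCN ((f i : T) : Surf); positivity
        calc (⊤ : ENNReal) = ∑' _ : ℕ, (1 : ENNReal) := by
              rw [ENNReal.tsum_const_eq_top_of_ne_zero one_ne_zero]
          _ ≤ _ := ENNReal.tsum_le_tsum h5
      rw [h4, ENNReal.mul_top]
      have : 0 < (N 1) ^ (-s) := by have := hN1 1; positivity
      simp [this]
    exact top_le_iff.1 (h3 ▸ (ENNReal.tsum_le_tsum h2).trans h1)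
  -- conclusion
  refine lt_of_lt_of_le hsE ?_
  by_contra hlt
  push Not at hlt
  obtain ⟨C', hC', hW⟩ := W_growth B b hb (z.t 2) a ha
  obtain ⟨-, -, h3⟩ := hW z rfl hz hth
  rw [← hN] at h3
  set s' := min s (expo WG N + 1) with hs'
  have h4 := h3 s' (lt_min hlt (by linarith)) (min_le_right _ _)
  have h5 := poin_anti (X := WG) (N := N) (fun g _ => hN1 g) (min_le_left s (expo WG N + 1))
  rw [← hs', hpoin] at h5
  exact absurd (h5.trans h4) (by simp)

/-! ### the closed group -/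

/-- counting of classes for every parameter -/
theorem closed_lim (z : ZI) (i : Fin 3) :
    (∀ T, (cR (fun κ : Cls => ellC (B.repI b z) κ.1) T).Finite) ∧
    Tendsto (fun T : ℝ => Real.log ((cR (fun κ : Cls => ellC (B.repI b z) κ.1) T).ncard) / T) atTop
      (𝓝 (expo ⊤ ((B.psI b).N (QI.dP i) z))) ∧
    expo ⊤ ((B.psI b).N (QI.dP i) z) = expo ⊤ ((B.psI b).N (QI.dH i) z) ∧
    (∀ T, (nX (⊤ : Subgroup Surf) ((B.psI b).N (QI.dP i) z) T).Finite) ∧
    (∀ T, (nX (⊤ : Subgroup Surf) ((B.psI b).N (QI.dH i) z) T).Finite) ∧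
    Tendsto (fun T : ℝ => Real.log ((nX (⊤ : Subgroup Surf) ((B.psI b).N (QI.dP i) z) T).ncard) / T) atTop
      (𝓝 (expo ⊤ ((B.psI b).N (QI.dP i) z))) := by
  obtain ⟨K, κ, Φ, P⟩ := exists_PkI B b
  obtain ⟨c, hP⟩ := pm_HD12_size P z i (QI.dP i) (Or.inl rfl)
  obtain ⟨c', hH⟩ := pm_HD12_size P z i (QI.dH i) (Or.inr rfl)
  obtain ⟨_, _, _, h4, h5, h6⟩ := hyp_pair B
  have hL := lim_classes P.hκ P.top B.rhoS (sx 2) (sy 2) (fuchs_fin B) h4 h5 h6 (QI.dP i) z hP
  obtain ⟨C1, _, g1⟩ := growth B.rhoS (sx 2) (sy 2) (fuchs_fin B) h4 h5 h6 c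
  obtain ⟨_, _, finP, limP, _⟩ := g1 ⊤ _ hP
  obtain ⟨C2, _, g2⟩ := growth B.rhoS (sx 2) (sy 2) (fuchs_fin B) h4 h5 h6 c'
  obtain ⟨_, _, finH, limH, _⟩ := g2 ⊤ _ hH
  have heq : expo ⊤ ((B.psI b).N (QI.dP i) z) = expo ⊤ ((B.psI b).N (QI.dH i) z) := by
    obtain ⟨a, ha, hab⟩ := nrm_frame_change ((B.psI b).F (QI.dP i) z) ((B.psI b).F (QI.dH i) z)
    obtain ⟨a', ha', hab'⟩ := nrm_frame_change ((B.psI b).F (QI.dH i) z) ((B.psI b).F (QI.dP i) z)
    apply le_antisymm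
    · have h := expo_comp (X := (⊤ : Subgroup Surf)) (N := (B.psI b).N (QI.dP i) z)
        (N' := (B.psI b).N (QI.dH i) z) hP.one_le finH limH ha' le_rfl
        (fun g _ => by rw [add_zero, Real.rpow_one]; exact hab' _)
      rwa [add_zero, one_mul] at h
    · have h := expo_comp (X := (⊤ : Subgroup Surf)) (N := (B.psI b).N (QI.dH i) z)
        (N' := (B.psI b).N (QI.dP i) z) hH.one_le finP limP ha le_rfl
        (fun g _ => by rw [add_zero, Real.rpow_one]; exact hab _)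
      rwa [add_zero, one_mul] at h
  exact ⟨hL.1, hL.2, heq, finP, finH, limP⟩

end

end

end PM3
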