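import Pool.Agent.LibPM3.FamII
import Pool.Agent.LibPM3.Hand

/-! Compositions in family II. -/

namespace PM3
open Matrix Filter Topology
open scoped MatrixGroups

noncomputable section

def LB2 : Set QII := {QII.mp 2, QII.mm 2}
def LR' : Set QII := {QII.cQ, QII.cP, QII.mp 0, QII.mm 0, QII.mp 1, QII.mm 1}

def SH2' : Set QII := {QII.dH2, QII.mp 2, QII.mm 2}

def blII (p : QII) (z : ZII) : ℝ :=
  match p with
  | QII.dP2 => z.t2
  | QII.dH2 => z.t2
  | QII.mp i => z.a i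
  | QII.mm i => z.a i
  | QII.cQ => z.ac
  | QII.cP => z.ac

/-- properties of the polygon vertices of family II with common constants -/
structure PkII (B : Base) (K κ : ℝ) (Φ : Finset (ZII → GL (Fin 3) ℝ)) : Prop where
  hK : 1 ≤ K
  hκ : 0 < κ
  vq : VCs B.psII K κ QC SQc
  vp : VCs B.psII K κ PC SPc
  vh : VCs B.psII K κ (PH false 2) SH2'
  cq : CR B.psII K κ ∅ QC Φ
  cp : CR B.psII K κ ∅ PC Φ
  ch : CR B.psII K κ ∅ (PH false 2) Φ
  fj : ∀ e, B.psII.FJ e ∈ Φ
  zq : ∀ s₁ : ℝ, ∃ A₀ > (0 : ℝ), ∀ (Λ : Set QII) (z : ZII) (s : ℝ), 1 / 8 ≤ s → s ≤ s₁ →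
    (∀ p ∈ SQc, ∀ q ∈ SQc, Zs B.psII K κ Λ QC z s p q ≤ ENNReal.ofReal A₀) ∧
    (∀ p ∈ SPc, ∀ q ∈ SPc, Zs B.psII K κ Λ PC z s p q ≤ ENNReal.ofReal A₀)

/-- relabelling of ports -/
private def pm_CII1_phi : QII → QI
  | QII.dP2 => QI.dP 2
  | QII.dH2 => QI.dH 2
  | QII.mp i => QI.mp i
  | QII.mm i => QI.mm i
  | QII.cQ => QI.dP 0
  | QII.cP => QI.dP 1

private theorem pm_CII1_eg (L : ℝ) : symMat (eg L) = diagonal ![Real.exp (-L), 1, Real.exp L] := by
  have h1 : Real.exp (-(L / 2)) * Real.exp (-(L / 2)) = Real.exp (-L) := by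
    rw [← Real.exp_add]; congr 1; ring
  have h2 : Real.exp (-(L / 2)) * Real.exp (L / 2) = 1 := by
    rw [← Real.exp_add, Real.exp_eq_one_iff]; ring
  have h3 : Real.exp (L / 2) * Real.exp (L / 2) = Real.exp L := by
    rw [← Real.exp_add]; congr 1; ring
  ext i j
  fin_cases i <;> fin_cases j <;> simp [symMat, eg, h1, h2, h3]

/-- the conjugated diagonals commute with the boundary element -/
private theorem pm_CII1_comm {A f : M2} (hf : f.det = 1) {L : ℝ} (h : A * f = f * eg L)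
    (d : Fin 3 → ℝ) : symMat A * cj f d = cj f d * symMat A := by
  have hu : IsUnit (symMat f).det := by
    rw [symMat_det, hf, one_pow]
    exact isUnit_one
  have h1 : symMat A * symMat f = symMat f * diagonal ![Real.exp (-L), 1, Real.exp L] := by
    rw [← symMat_mul, h, symMat_mul, pm_CII1_eg]
  have h2 : (symMat f)⁻¹ * symMat A = diagonal ![Real.exp (-L), 1, Real.exp L] * (symMat f)⁻¹ := by
    calc (symMat f)⁻¹ * symMat A = (symMat f)⁻¹ * (symMat A * symMat f) * (symMat f)⁻¹ := by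
          rw [Matrix.mul_assoc, Matrix.mul_assoc, Matrix.mul_nonsing_inv _ hu, Matrix.mul_one]
      _ = (symMat f)⁻¹ * (symMat f * diagonal ![Real.exp (-L), 1, Real.exp L]) * (symMat f)⁻¹ := by
          rw [h1]
      _ = _ := by
          rw [← Matrix.mul_assoc (symMat f)⁻¹, Matrix.nonsing_inv_mul _ hu, Matrix.one_mul]
  unfold cj
  calc symMat A * (symMat f * diagonal d * (symMat f)⁻¹)
      = (symMat A * symMat f) * diagonal d * (symMat f)⁻¹ := by simp only [Matrix.mul_assoc]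
    _ = symMat f * (diagonal ![Real.exp (-L), 1, Real.exp L] * diagonal d) * (symMat f)⁻¹ := by
        rw [h1]; simp only [Matrix.mul_assoc]
    _ = symMat f * (diagonal d * diagonal ![Real.exp (-L), 1, Real.exp L]) * (symMat f)⁻¹ := by
        rw [Matrix.diagonal_mul_diagonal, Matrix.diagonal_mul_diagonal]
        simp only [mul_comm]
    _ = symMat f * diagonal d * (diagonal ![Real.exp (-L), 1, Real.exp L] * (symMat f)⁻¹) := by
        simp only [Matrix.mul_assoc]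
    _ = symMat f * diagonal d * ((symMat f)⁻¹ * symMat A) := by rw [h2]
    _ = symMat f * diagonal d * (symMat f)⁻¹ * symMat A := by simp only [Matrix.mul_assoc]

/-- intertwining of an inverse -/
private theorem pm_CII1_inv (A : SL(3, ℝ)) {F C C' : M3} (h : A.1 * F = F * C) (hC : C * C' = 1) :
    (A⁻¹ : SL(3, ℝ)).1 * F = F * C' := by
  have e : (A⁻¹ : SL(3, ℝ)).1 * A.1 = 1 := by
    have : (A⁻¹ * A : SL(3, ℝ)) = 1 := inv_mul_cancel A
    exact congrArg Subtype.val this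
  calc (A⁻¹ : SL(3, ℝ)).1 * F = (A⁻¹ : SL(3, ℝ)).1 * (F * (C * C')) := by rw [hC, Matrix.mul_one]
    _ = (A⁻¹ : SL(3, ℝ)).1 * (F * C) * C' := by simp only [Matrix.mul_assoc]
    _ = ((A⁻¹ : SL(3, ℝ)).1 * A.1) * F * C' := by rw [← h]; simp only [Matrix.mul_assoc]
    _ = F * C' := by rw [e, Matrix.one_mul]

private theorem pm_CII1_mul {A B : SL(3, ℝ)} {F C D : M3} (hA : A.1 * F = F * C)
    (hB : B.1 * F = F * D) : (A * B : SL(3, ℝ)).1 * F = F * (C * D) := by
  have e : (A * B : SL(3, ℝ)).1 = A.1 * B.1 := rfl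
  rw [e, Matrix.mul_assoc, hB, ← Matrix.mul_assoc, hA, Matrix.mul_assoc]

private theorem pm_CII1_AH2 {x : Fin 6} (hx : x ∈ AH 2) : x = 4 ∨ x = 5 ∨ x = 0 := by
  have h : AH 2 = {4, 5, 0} := rfl
  rw [h] at hx
  simpa using hx

private theorem pm_CII1_RR (B : Base) (f g : Fin 6) : B.R g * B.R f * (B.R f * B.R g) = 1 := by
  calc B.R g * B.R f * (B.R f * B.R g) = B.R g * (B.R f * B.R f) * B.R g := by
        simp only [Matrix.mul_assoc]
    _ = 1 := by rw [B.R_sq, Matrix.mul_one, B.R_sq]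

private theorem pm_CII1_SRR (B : Base) (f g : Fin 6) :
    symMat (B.R g * B.R f) * symMat (B.R f * B.R g) = 1 := by
  rw [← symMat_mul, pm_CII1_RR, symMat_one]

private theorem pm_CII1_elS_inv (f g : Fin 6) : (elS f g)⁻¹ = elS g f := by
  unfold elS
  group

/-- values on the handle 2 -/
private theorem pm_CII1_H2 (B : Base) (z : ZII) {x y : Fin 6} (hx : x ∈ AH 2) (hy : y ∈ AH 2) :
    (B.repII z (elS x y)).1 * B.Z2 z = B.Z2 z * symMat (B.R x * B.R y) := by
  have key : ∀ x : Fin 6, x = 4 ∨ x = 5 ∨ x = 0 →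
      (B.repII z (elS 4 x)).1 * B.Z2 z = B.Z2 z * symMat (B.R 4 * B.R x) := by
    rintro x (rfl | rfl | rfl)
    · rw [elS_self, map_one, B.R_sq, symMat_one]
      change (1 : M3) * _ = _
      rw [Matrix.one_mul, Matrix.mul_one]
    · have h1 : elS 4 5 = sx 2 := elS_l01 2
      have hu : IsUnit (B.Z2 z).det := by rw [B.Z2_det]; exact isUnit_one
      have h2 : (B.repII z (sx 2)).1 = B.Z2 z * B.hX 2 * (B.Z2 z)⁻¹ := by
        have h3 := B.repII_x z 2
        have h4 : (B.repII z (sx 2)).1 = B.mX' z 2 := h3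
        rw [h4]
        unfold Base.mX'
        simp
      rw [h1, h2, Matrix.mul_assoc, Matrix.nonsing_inv_mul _ hu, Matrix.mul_one]
      rfl
    · have h1 : (B.repII z (elS 4 0)).1 = symMat (B.R 4 * B.R 0) :=
        B.repII_QC z (by decide) (by decide)
      rw [h1]
      exact pm_CII1_comm (B.fd_det 2) (B.fd_eig 2) _
  have h1 : elS x y = (elS 4 x)⁻¹ * elS 4 y := by
    rw [pm_CII1_elS_inv, elS_mul]
  rw [h1, map_mul, map_inv]
  have h2 := pm_CII1_mul (pm_CII1_inv _ (key x (pm_CII1_AH2 hx)) (pm_CII1_SRR B x 4))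
    (key y (pm_CII1_AH2 hy))
  rw [h2, ← symMat_mul]
  congr 2
  calc B.R x * B.R 4 * (B.R 4 * B.R y) = B.R x * (B.R 4 * B.R 4) * B.R y := by
        simp only [Matrix.mul_assoc]
    _ = _ := by rw [B.R_sq, Matrix.mul_one]

private theorem pm_CII1_r (B : Base) (z : ZII) (g : Surf) :
    (B.psII.r z g : M3) = (B.repII z g).1 := rfl

private theorem pm_CII1_F (B : Base) (z : ZII) (p : QII) : (B.psII.F p z : M3) = B.FII p z :=
  glOf_coe (B.FII_det p z)

private theorem pm_CII1_finQ : (Set.univ : Set QII).Finite := by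
  have : Finite QII := by
    refine Finite.of_injective (β := Fin 6 × Fin 3) (fun p => match p with
      | QII.dP2 => (0, 0)
      | QII.dH2 => (1, 0)
      | QII.mp i => (2, i)
      | QII.mm i => (3, i)
      | QII.cQ => (4, 0)
      | QII.cP => (5, 0)) ?_
    intro p q h
    cases p <;> cases q <;> simp_all
  exact Set.finite_univ
private theorem pm_CII2_elS_inv (f g : Fin 6) : (elS f g)⁻¹ = elS g f := by
  unfold elS
  group

private theorem pm_CII2_mem {A : Finset (Fin 6)} {x y : Fin 6} (hx : x ∈ A) (hy : y ∈ A) :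
    elS x y ∈ elG elS A :=
  Subgroup.subset_closure ⟨x, hx, y, hy, rfl⟩

/-- it suffices to know the elements `el o x` -/
private theorem pm_CII2_le {A : Finset (Fin 6)} (o : Fin 6) {H : Subgroup Surf}
    (h : ∀ x ∈ A, elS o x ∈ H) : elG elS A ≤ H := by
  unfold elG
  rw [Subgroup.closure_le]
  rintro g ⟨x, hx, y, hy, rfl⟩
  have h1 : elS x y = (elS o x)⁻¹ * elS o y := by
    rw [pm_CII2_elS_inv, elS_mul]
  rw [h1]
  exact H.mul_mem (H.inv_mem (h x hx)) (h y hy)

private theorem pm_CII2_exp {q : ℝ} (hq : 0 < q) (u v : ℝ) :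
    Real.exp (Real.log q + u + v) = q * Real.exp u * Real.exp v := by
  rw [Real.exp_add, Real.exp_add, Real.exp_log hq]

private theorem pm_CII2_exp' {q : ℝ} (hq : 0 < q) (u v : ℝ) :
    Real.exp (-Real.log q + u + v) = q⁻¹ * Real.exp u * Real.exp v := by
  rw [Real.exp_add, Real.exp_add, Real.exp_neg, Real.exp_log hq]

/-- form of the crossing diagonals -/
private theorem pm_CII2_form (B : Base) (p : QII) (z : ZII) : ∃ o ε : ℝ, (ε = 1 ∨ ε = -1) ∧
    ∀ k : ℤ, B.psII.Dl p k z = ![Real.exp (ε * blII p z + (o - k * B.LII p)),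
      Real.exp (-(2 * (ε * blII p z))), Real.exp (ε * blII p z - (o - k * B.LII p))] := by
  have hDl : ∀ k : ℤ, B.psII.Dl p k z = fun i => B.D0II p z i *
      (![Real.exp (-(k * B.LII p)), 1, Real.exp (k * B.LII p)] : Fin 3 → ℝ) i := fun k => rfl
  have heta : ∀ i, 0 < (B.eta i) ^ 2 := by
    intro i
    have := B.eta_ne i
    positivity
  have hM : ∀ (i : Fin 3) (k : ℤ), (fun j => B.dMM' i z j *
      (![Real.exp (-(k * B.Lm)), 1, Real.exp (k * B.Lm)] : Fin 3 → ℝ) j) =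
      ![Real.exp (1 * z.a i + ((Real.log ((B.eta i) ^ 2) - z.th i * B.Lm) - k * B.Lm)),
      Real.exp (-(2 * (1 * z.a i))),
      Real.exp (1 * z.a i - ((Real.log ((B.eta i) ^ 2) - z.th i * B.Lm) - k * B.Lm))] := by
    intro i k
    funext j
    fin_cases j
    · simp only [Base.dMM', Fin.zero_eta, Matrix.cons_val_zero]
      rw [show 1 * z.a i + ((Real.log ((B.eta i) ^ 2) - z.th i * B.Lm) - k * B.Lm) =
        Real.log ((B.eta i) ^ 2) + (z.a i - z.th i * B.Lm) + (-(k * B.Lm)) by ring,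
        pm_CII2_exp (heta i)]
    · simp [Base.dMM']
    · simp only [Base.dMM', Fin.reduceFinMk, Matrix.cons_val]
      rw [show 1 * z.a i - ((Real.log ((B.eta i) ^ 2) - z.th i * B.Lm) - k * B.Lm) =
        -Real.log ((B.eta i) ^ 2) + (z.a i + z.th i * B.Lm) + (k * B.Lm) by ring,
        pm_CII2_exp' (heta i)]
  have hM' : ∀ (i : Fin 3) (k : ℤ), (fun j => invr (B.dMM' i z) j *
      (![Real.exp (-(k * B.Lm)), 1, Real.exp (k * B.Lm)] : Fin 3 → ℝ) j) =
      ![Real.exp (-1 * z.a i + ((Real.log ((B.eta i) ^ 2) - z.th i * B.Lm) - k * B.Lm)),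
      Real.exp (-(2 * (-1 * z.a i))),
      Real.exp (-1 * z.a i - ((Real.log ((B.eta i) ^ 2) - z.th i * B.Lm) - k * B.Lm))] := by
    intro i k
    funext j
    fin_cases j
    · simp only [Base.dMM', invr, Fin.zero_eta, Matrix.cons_val_zero, Matrix.cons_val]
      rw [show -1 * z.a i + ((Real.log ((B.eta i) ^ 2) - z.th i * B.Lm) - k * B.Lm) =
        Real.log ((B.eta i) ^ 2) + (-(z.a i + z.th i * B.Lm)) + (-(k * B.Lm)) by ring,
        pm_CII2_exp (heta i), Real.exp_neg (z.a i + z.th i * B.Lm), mul_inv, inv_inv]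
    · simp only [Base.dMM', invr, Fin.mk_one, Matrix.cons_val_one, Matrix.cons_val_zero,
        Matrix.cons_val, mul_one]
      rw [← Real.exp_neg]
      congr 1
      ring
    · simp only [Base.dMM', invr, Fin.reduceFinMk, Matrix.cons_val, Matrix.cons_val_zero]
      rw [show -1 * z.a i - ((Real.log ((B.eta i) ^ 2) - z.th i * B.Lm) - k * B.Lm) =
        -Real.log ((B.eta i) ^ 2) + (-(z.a i - z.th i * B.Lm)) + (k * B.Lm) by ring,
        pm_CII2_exp' (heta i), Real.exp_neg (z.a i - z.th i * B.Lm), mul_inv]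
  have hD : ∀ (a ϑ L : ℝ) (k : ℤ), (fun j => dgv a ϑ j *
      (![Real.exp (-(k * L)), 1, Real.exp (k * L)] : Fin 3 → ℝ) j) =
      ![Real.exp (1 * a + (ϑ - k * L)), Real.exp (-(2 * (1 * a))), Real.exp (1 * a - (ϑ - k * L))] := by
    intro a ϑ L k
    funext j
    fin_cases j
    · simp only [dgv, Fin.zero_eta, Matrix.cons_val_zero]
      rw [← Real.exp_add]
      congr 1
      ring
    · simp [dgv]
    · simp only [dgv, Fin.reduceFinMk, Matrix.cons_val]
      rw [← Real.exp_add]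
      congr 1
      ring
  have hD' : ∀ (a ϑ L : ℝ) (k : ℤ), (fun j => invr (dgv a ϑ) j *
      (![Real.exp (-(k * L)), 1, Real.exp (k * L)] : Fin 3 → ℝ) j) =
      ![Real.exp (-1 * a + (ϑ - k * L)), Real.exp (-(2 * (-1 * a))),
        Real.exp (-1 * a - (ϑ - k * L))] := by
    intro a ϑ L k
    funext j
    fin_cases j
    · simp only [dgv, invr, Fin.zero_eta, Matrix.cons_val_zero, Matrix.cons_val]
      rw [← Real.exp_neg, ← Real.exp_add]
      congr 1
      ring
    · simp only [dgv, invr, Fin.mk_one, Matrix.cons_val_one, Matrix.cons_val_zero,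
        Matrix.cons_val, mul_one]
      rw [← Real.exp_neg]
      congr 1
      ring
    · simp only [dgv, invr, Fin.reduceFinMk, Matrix.cons_val, Matrix.cons_val_zero]
      rw [← Real.exp_neg, ← Real.exp_add]
      congr 1
      ring
  cases p with
  | dP2 => exact ⟨0, 1, Or.inl rfl, fun k => (hDl k).trans (hD z.t2 0 B.Ld k)⟩
  | dH2 => exact ⟨0, -1, Or.inr rfl, fun k => (hDl k).trans (hD' z.t2 0 B.Ld k)⟩
  | mp i => exact ⟨_, -1, Or.inr rfl, fun k => (hDl k).trans (hM' i k)⟩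
  | mm i => exact ⟨_, 1, Or.inl rfl, fun k => (hDl k).trans (hM i k)⟩
  | cQ => exact ⟨_, 1, Or.inl rfl, fun k => (hDl k).trans (hD z.ac (z.tc * B.Lc) B.Lc k)⟩
  | cP => exact ⟨_, -1, Or.inr rfl, fun k => (hDl k).trans (hD' z.ac (z.tc * B.Lc) B.Lc k)⟩

private theorem pm_CII2_pval_nil (B : Base) : B.psII.pval ([] : List (Surf × QII)) * 1 = 1 := by
  simp [PS.pval]

section
variable (B : Base)

/-- relabelling of the ports of the handle 2 -/
theorem polyH2' : PolySys (AH 2) SH2' B.R B.k B.fII aII bII B.lb B.mu B.M := by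
  have H := B.polyH 2
  have hS : ∀ p ∈ SH2', pm_CII1_phi p ∈ SH 2 ∧ B.fII p = B.fI (pm_CII1_phi p) ∧
      aII p = aI (pm_CII1_phi p) ∧ bII p = bI (pm_CII1_phi p) := by
    intro p hp
    rcases hp with rfl | rfl | rfl
    · exact ⟨Or.inl rfl, rfl, rfl, rfl⟩
    · exact ⟨Or.inr (Or.inl rfl), rfl, rfl, rfl⟩
    · exact ⟨Or.inr (Or.inr rfl), rfl, rfl, rfl⟩
  have hinj : ∀ p ∈ SH2', ∀ q ∈ SH2', p ≠ q → pm_CII1_phi p ≠ pm_CII1_phi q := by
    intro p hp q hq hne
    rcases hp with rfl | rfl | rfl <;> rcases hq with rfl | rfl | rfl <;>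
      first | exact absurd rfl hne | (intro h; cases h)
  refine ⟨H.hl, H.hmu, H.hM, H.hRR, H.hRd, H.hkd, ?_, ?_, H.hL, ?_, ?_, ?_, ?_⟩
  · intro p hp
    obtain ⟨h1, h2, _, _⟩ := hS p hp
    rw [h2]
    exact H.hfd _ h1
  · intro p hp
    obtain ⟨h1, _, h3, h4⟩ := hS p hp
    rw [h3, h4]
    exact H.hab _ h1
  · intro p hp x hx hxa hxb
    obtain ⟨h1, h2, h3, h4⟩ := hS p hp
    rw [h2]
    exact H.hin _ h1 x hx (by rw [← h3]; exact hxa) (by rw [← h4]; exact hxb)
  · intro p hp x hx hxa hxb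
    obtain ⟨h1, h2, h3, h4⟩ := hS p hp
    rw [h2]
    exact H.hout _ h1 x hx (by rw [← h3]; exact hxa) (by rw [← h4]; exact hxb)
  · intro p hp q hq hne
    obtain ⟨h1, h2, _, _⟩ := hS p hp
    obtain ⟨h1', h2', _, _⟩ := hS q hq
    rw [h2, h2']
    exact H.hdir _ h1 _ h1' (hinj p hp q hq hne)
  · intro p hp
    obtain ⟨h1, h2, h3, _⟩ := hS p hp
    rw [h2, h3]
    exact H.hE _ h1

theorem polyV_QC : PolyV B.psII QC SQc Set.univ AQc B.R B.fII aII bII elS (fun _ => 1) := by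
  refine ⟨?_, fun x _ => elS_self x, fun x _ y _ w _ => elS_mul x y w, le_rfl, ?_, ?_, ?_⟩
  · intro x hx y hy
    exact Subgroup.subset_closure ⟨x, hx, y, hy, rfl⟩
  · intro p hp
    rcases hp with rfl | rfl | rfl | rfl
    · exact (elS_l01 0).symm
    · exact elS_13.symm
    · exact (elS_l12 1).symm
    · exact (elS_l02 2).symm
  · intro z _ x hx y hy
    rw [pm_CII1_r]
    have h := B.repII_QC z hx hy
    have h' : (B.repII z (elS x y)).1 = symMat (B.R x * B.R y) := h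
    rw [h']
    simp
  · intro z _ p hp
    rw [pm_CII1_F]
    rcases hp with rfl | rfl | rfl | rfl
    · simp [Base.FII, BaseData.fII]
    · simp [Base.FII, BaseData.fII]
    · simp [Base.FII, BaseData.fII]
    · simp [Base.FII, BaseData.fII]

theorem polyV_PC : PolyV B.psII PC SPc Set.univ APc B.R B.fII aII bII elS
    (fun z => glOf (B.Zc z)) := by
  have hZ : ∀ z, (B.Zc z).det ≠ 0 := fun z => by rw [B.Zc_det]; exact one_ne_zero
  refine ⟨?_, fun x _ => elS_self x, fun x _ y _ w _ => elS_mul x y w, le_rfl, ?_, ?_, ?_⟩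
  · intro x hx y hy
    exact Subgroup.subset_closure ⟨x, hx, y, hy, rfl⟩
  · intro p hp
    rcases hp with rfl | rfl | rfl
    · exact (elS_l12 0).symm
    · exact (elS_l01 1).symm
    · change (cc 0)⁻¹ = elS 3 1
      rw [← elS_13, pm_CII1_elS_inv]
  · intro z _ x hx y hy
    rw [pm_CII1_r, glOf_coe (hZ z)]
    exact B.repII_PC z hx hy
  · intro z _ p hp
    rw [pm_CII1_F, glOf_coe (hZ z)]
    rcases hp with rfl | rfl | rfl
    · simp [Base.FII, BaseData.fII]
    · simp [Base.FII, BaseData.fII]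
    · simp [Base.FII, BaseData.fII]

theorem polyV_H2' : PolyV B.psII (PH false 2) SH2' Set.univ (AH 2) B.R B.fII aII bII elS
    (fun z => glOf (B.Z2 z)) := by
  have hZ : ∀ z, (B.Z2 z).det ≠ 0 := fun z => by rw [B.Z2_det]; exact one_ne_zero
  have hG : PH false 2 = elG elS (AH 2) := rfl
  rw [hG]
  refine ⟨?_, fun x _ => elS_self x, fun x _ y _ w _ => elS_mul x y w, le_rfl, ?_, ?_, ?_⟩
  · intro x hx y hy
    exact Subgroup.subset_closure ⟨x, hx, y, hy, rfl⟩
  · intro p hp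
    rcases hp with rfl | rfl | rfl
    · change (dd 2)⁻¹ = elS 0 4
      have h : elS 4 0 = dd 2 := elS_l02 2
      rw [← h, pm_CII1_elS_inv]
    · exact (elS_l01 2).symm
    · exact (elS_l12 2).symm
  · intro z _ x hx y hy
    rw [pm_CII1_r, glOf_coe (hZ z)]
    exact pm_CII1_H2 B z hx hy
  · intro z _ p hp
    rw [pm_CII1_F, glOf_coe (hZ z)]
    rcases hp with rfl | rfl | rfl
    · simp [Base.FII, BaseData.fII]
    · simp [Base.FII, BaseData.fII]
    · simp [Base.FII, BaseData.fII]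

theorem exists_PkII : ∃ K κ Φ, PkII B K κ Φ := by
  classical
  have hAQ : AQc.Nonempty := ⟨0, by decide⟩
  have hAP : APc.Nonempty := ⟨1, by decide⟩
  have hAH : (AH 2).Nonempty := ⟨4, by decide⟩
  obtain ⟨K1, hK1, κ1, hκ1, v1⟩ := poly_VC B.polyQc (polyV_QC B)
  obtain ⟨K2, hK2, κ2, hκ2, v2⟩ := poly_VC B.polyPc (polyV_PC B)
  obtain ⟨K3, hK3, κ3, hκ3, v3⟩ := poly_VC (polyH2' B) (polyV_H2' B)
  obtain ⟨K4, hK4, κ4, hκ4, c1⟩ := poly_CR hAQ B.polyQc (polyV_QC B)
  obtain ⟨K5, hK5, κ5, hκ5, c2⟩ := poly_CR hAP B.polyPc (polyV_PC B)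
  obtain ⟨K6, hK6, κ6, hκ6, c3⟩ := poly_CR hAH (polyH2' B) (polyV_H2' B)
  set K := K1 + K2 + K3 + K4 + K5 + K6 with hKdef
  set κ := min κ1 (min κ2 (min κ3 (min κ4 (min κ5 κ6)))) with hκdef
  have hK : 1 ≤ K := by linarith
  have hκ : 0 < κ := by
    simp only [hκdef, lt_min_iff]
    exact ⟨hκ1, hκ2, hκ3, hκ4, hκ5, hκ6⟩
  have k1 : κ ≤ κ1 := min_le_left _ _
  have r1 : κ ≤ min κ2 (min κ3 (min κ4 (min κ5 κ6))) := min_le_right _ _
  have k2 : κ ≤ κ2 := r1.trans (min_le_left _ _)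
  have r2 : κ ≤ min κ3 (min κ4 (min κ5 κ6)) := r1.trans (min_le_right _ _)
  have k3 : κ ≤ κ3 := r2.trans (min_le_left _ _)
  have r3 : κ ≤ min κ4 (min κ5 κ6) := r2.trans (min_le_right _ _)
  have k4 : κ ≤ κ4 := r3.trans (min_le_left _ _)
  have r4 : κ ≤ min κ5 κ6 := r3.trans (min_le_right _ _)
  have k5 : κ ≤ κ5 := r4.trans (min_le_left _ _)
  have k6 : κ ≤ κ6 := r4.trans (min_le_right _ _)
  have hfin : (Set.range B.psII.FJ).Finite := by
    have := pm_CII1_finQ.image B.psII.FJ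
    rwa [Set.image_univ] at this
  set Φ : Finset (ZII → GL (Fin 3) ℝ) :=
    (AQc.image (fun x => fun _ : ZII => (1 : GL (Fin 3) ℝ) * symG (B.k x))) ∪
    (APc.image (fun x => fun z : ZII => glOf (B.Zc z) * symG (B.k x))) ∪
    ((AH 2).image (fun x => fun z : ZII => glOf (B.Z2 z) * symG (B.k x))) ∪ hfin.toFinset with hΦ
  have hlb : ∀ n : ℕ, n ≤ 5 → (n : ℝ) * B.lb ^ (-(1 / 4 : ℝ)) ≤ 1 / 2 := by
    intro n hn
    have h0 : 0 ≤ B.lb ^ (-(1 / 4 : ℝ)) := Real.rpow_nonneg (by linarith [B.polyQc.hl]) _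
    have h1 := B.lb_big
    have h2 : (n : ℝ) ≤ 5 * 2 ^ (2 * 4) := by
      have : (n : ℝ) ≤ 5 := by exact_mod_cast hn
      norm_num
      linarith
    exact (mul_le_mul_of_nonneg_right h2 h0).trans h1
  have hne : Nonempty ZII := ⟨⟨0, 0, 0, 0, 0⟩⟩
  have fQ : SQc.Finite := pm_CII1_finQ.subset (Set.subset_univ _)
  have fP : SPc.Finite := pm_CII1_finQ.subset (Set.subset_univ _)
  refine ⟨K, κ, Φ, hK, hκ, v1.mono (by linarith) k1, v2.mono (by linarith) k2,
    v3.mono (by linarith) k3, ?_, ?_, ?_, ?_, ?_⟩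
  · refine (c1 ∅).mono (by linarith) k4 le_rfl ?_
    rintro φ ⟨x, hx, rfl⟩
    simp only [hΦ, Finset.coe_union, Finset.coe_image, Set.mem_union, Set.mem_image]
    exact Or.inl (Or.inl (Or.inl ⟨x, hx, rfl⟩))
  · refine (c2 ∅).mono (by linarith) k5 le_rfl ?_
    rintro φ ⟨x, hx, rfl⟩
    simp only [hΦ, Finset.coe_union, Finset.coe_image, Set.mem_union, Set.mem_image]
    exact Or.inl (Or.inl (Or.inr ⟨x, hx, rfl⟩))
  · refine (c3 ∅).mono (by linarith) k6 le_rfl ?_
    rintro φ ⟨x, hx, rfl⟩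
    simp only [hΦ, Finset.coe_union, Finset.coe_image, Set.mem_union, Set.mem_image]
    exact Or.inl (Or.inr ⟨x, hx, rfl⟩)
  · intro e
    rw [hΦ, Finset.mem_union]
    right
    rw [Set.Finite.mem_toFinset]
    exact ⟨e, rfl⟩
  · intro s₁
    obtain ⟨A1, hA1, z1⟩ := poly_Z fQ B.polyQc (polyV_QC B)
      (hlb _ (by decide)) hK hκ.le s₁
    obtain ⟨A2, hA2, z2⟩ := poly_Z fP B.polyPc (polyV_PC B)
      (hlb _ (by decide)) hK hκ.le s₁
    refine ⟨A1 + A2, by linarith, ?_⟩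
    intro Λ z s hs hs₁
    refine ⟨?_, ?_⟩
    · intro p hp q hq
      exact (z1 Λ z s hs hs₁ p hp q hq).trans (ENNReal.ofReal_le_ofReal (by linarith))
    · intro p hp q hq
      exact (z2 Λ z s hs hs₁ p hp q hq).trans (ENNReal.ofReal_le_ofReal (by linarith))

theorem crossII : ∃ C > (0 : ℝ), ∀ (p : QII) (z : ZII) (s : ℝ), 0 ≤ blII p z → 1 / 8 ≤ s →
    Xs B.psII z s p ≤ ENNReal.ofReal (C * Real.exp (-(s / 2) * blII p z)) := by
  obtain ⟨C1, hC1, h1⟩ := cross_sum B.hLd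
  obtain ⟨C2, hC2, h2⟩ := cross_sum B.hLm
  obtain ⟨C3, hC3, h3⟩ := cross_sum B.hLc
  have key : ∀ p : QII, ∃ C > (0 : ℝ), C ≤ C1 + C2 + C3 ∧ ∀ (o a s ε : ℝ), 0 ≤ a → 1 / 8 ≤ s →
      (ε = 1 ∨ ε = -1) →
      ∑' k : ℤ, ENNReal.ofReal ((mxd ![Real.exp (ε * a + (o - k * B.LII p)),
        Real.exp (-(2 * (ε * a))), Real.exp (ε * a - (o - k * B.LII p))]) ^ (-s)) ≤
        ENNReal.ofReal (C * Real.exp (-(s / 2) * a)) := by
    intro p
    cases p with
    | dP2 => exact ⟨C1, hC1, by linarith, h1⟩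
    | dH2 => exact ⟨C1, hC1, by linarith, h1⟩
    | mp i => exact ⟨C2, hC2, by linarith, h2⟩
    | mm i => exact ⟨C2, hC2, by linarith, h2⟩
    | cQ => exact ⟨C3, hC3, by linarith, h3⟩
    | cP => exact ⟨C3, hC3, by linarith, h3⟩
  refine ⟨C1 + C2 + C3, by linarith, ?_⟩
  intro p z s hb hs
  obtain ⟨o, ε, hε, hform⟩ := pm_CII2_form B p z
  obtain ⟨C, _, hCle, hC⟩ := key p
  unfold Xs
  simp only [hform]
  refine (hC o (blII p z) s ε hb hs hε).trans (ENNReal.ofReal_le_ofReal ?_)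
  exact mul_le_mul_of_nonneg_right hCle (Real.exp_pos _).le

/-! ### graphs of groups -/

theorem ghB2' : GH B.psII (fun _ => ()) (fun _ : Unit => PH false 2) (fun _ => SH2') LB2 (BH 2) := by
  have hx : sx 2 ∈ BH 2 := Subgroup.subset_closure (Or.inl rfl)
  have hy : sy 2 ∈ BH 2 := Subgroup.subset_closure (Or.inr rfl)
  have hG : PH false 2 = elG elS (AH 2) := rfl
  have e01 : elS 4 5 = sx 2 := elS_l01 2
  have e02 : elS 4 0 = dd 2 := elS_l02 2
  have e12 : elS 5 0 = sy 2 * (sx 2)⁻¹ * (sy 2)⁻¹ := elS_l12 2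
  refine ⟨fun _ _ _ => rfl, ?_, ?_, ?_, ?_, ?_, ?_⟩
  · intro p hp
    rcases hp with rfl | rfl
    · exact ⟨Or.inr rfl, Or.inr (Or.inl rfl)⟩
    · exact ⟨Or.inl rfl, Or.inr (Or.inr rfl)⟩
  · intro p hp
    rw [hG]
    rcases hp with rfl | rfl
    · change sx 2 ∈ _
      rw [← e01]
      exact pm_CII2_mem (by decide) (by decide)
    · change sy 2 * (sx 2)⁻¹ * (sy 2)⁻¹ ∈ _
      rw [← e12]
      exact pm_CII2_mem (by decide) (by decide)
  · intro _
    rw [hG]
    apply pm_CII2_le 4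
    intro x hx'
    have h : AH 2 = {4, 5, 0} := rfl
    rw [h] at hx'
    simp only [Finset.mem_insert, Finset.mem_singleton] at hx'
    rcases hx' with rfl | rfl | rfl
    · rw [elS_self]; exact (BH 2).one_mem
    · rw [e01]; exact hx
    · rw [e02]
      unfold dd com
      exact (BH 2).mul_mem ((BH 2).mul_mem ((BH 2).mul_mem hx hy) ((BH 2).inv_mem hx))
        ((BH 2).inv_mem hy)
  · intro p hp
    rcases hp with rfl | rfl
    · exact (BH 2).inv_mem hy
    · exact hy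
  · intro v w
    exact ⟨[], 1, IsPath.nil (Subgroup.one_mem _), pm_CII2_pval_nil B⟩
  · unfold BH
    rw [Subgroup.closure_le]
    rintro g (rfl | rfl)
    · apply Subgroup.subset_closure
      refine Or.inl ⟨(), ?_⟩
      rw [hG, ← e01]
      exact pm_CII2_mem (by decide) (by decide)
    · apply Subgroup.subset_closure
      exact Or.inr ⟨QII.mm 2, Or.inr rfl, rfl⟩

def at5' : QII → Bool
  | QII.mm i => if i = 0 then true else false
  | QII.mp i => if i = 1 then true else false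
  | QII.cP => true
  | _ => false

/-- C5: `V_5` from `P_c` (vertex `true`) and `Q_c` (vertex `false`) -/
theorem gh5' : GH B.psII at5' (fun v => if v then PC else QC) (fun v => if v then SPc else SQc)
    {QII.cQ, QII.cP} V5 := by
  have hne : ∀ g : Surf, g ∈ elG elS A5 → g ∈ V5 := fun g h => h
  refine ⟨?_, ?_, ?_, ?_, ?_, ?_, ?_⟩
  · intro v p hp
    cases v
    · have hp' : p ∈ SQc := hp
      rcases hp' with rfl | rfl | rfl | rfl <;> rfl
    · have hp' : p ∈ SPc := hp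
      rcases hp' with rfl | rfl | rfl <;> rfl
  · intro p hp
    rcases hp with rfl | rfl
    · exact ⟨Or.inr rfl, Or.inr (Or.inl rfl)⟩
    · exact ⟨Or.inl rfl, Or.inr (Or.inr rfl)⟩
  · intro p hp
    rcases hp with rfl | rfl
    · change cc 0 ∈ QC
      rw [← elS_13]
      exact pm_CII2_mem (by decide) (by decide)
    · change (cc 0)⁻¹ ∈ PC
      rw [← elS_13, pm_CII2_elS_inv]
      exact pm_CII2_mem (by decide) (by decide)
  · intro v
    cases v
    · change elG elS AQc ≤ elG elS A5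
      apply pm_CII2_le 0
      intro x hx
      exact pm_CII2_mem (by decide) (by revert x; decide)
    · change elG elS APc ≤ elG elS A5
      apply pm_CII2_le 1
      intro x hx
      exact pm_CII2_mem (by decide) (by revert x; decide)
  · intro p hp
    rcases hp with rfl | rfl
    · exact V5.one_mem
    · exact V5.one_mem
  · intro v w
    cases v <;> cases w
    · exact ⟨[], 1, IsPath.nil (Subgroup.one_mem _), pm_CII2_pval_nil B⟩
    · refine ⟨[(1, QII.cQ)], 1, IsPath.cons (Subgroup.one_mem _) (Or.inl rfl) rfl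
        (IsPath.nil (Subgroup.one_mem _)), ?_⟩
      have ht : B.psII.t QII.cQ = 1 := rfl
      simp [PS.pval, ht]
    · refine ⟨[(1, QII.cP)], 1, IsPath.cons (Subgroup.one_mem _) (Or.inr rfl) rfl
        (IsPath.nil (Subgroup.one_mem _)), ?_⟩
      have ht : B.psII.t QII.cP = 1 := rfl
      simp [PS.pval, ht]
    · exact ⟨[], 1, IsPath.nil (Subgroup.one_mem _), pm_CII2_pval_nil B⟩
  · change elG elS A5 ≤ _
    apply pm_CII2_le 1
    intro x hx
    apply Subgroup.subset_closure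
    left
    have hcase : x = 2 ∨ x ∈ AQc := by
      revert x
      decide
    rcases hcase with rfl | h
    · refine ⟨true, ?_⟩
      change elS 1 2 ∈ elG elS APc
      exact pm_CII2_mem (by decide) (by decide)
    · refine ⟨false, ?_⟩
      change elS 1 x ∈ elG elS AQc
      exact pm_CII2_mem (by decide) h

/-- C6: `R` from `V_5` by the two loops -/
theorem ghR' : GH B.psII (fun _ => ()) (fun _ : Unit => V5) (fun _ => S5')
    {QII.mp 0, QII.mm 0, QII.mp 1, QII.mm 1} RG := by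
  have x0 : sx 0 ∈ RG := Subgroup.subset_closure (Or.inl rfl)
  have y0 : sy 0 ∈ RG := Subgroup.subset_closure (Or.inr (Or.inl rfl))
  have x1 : sx 1 ∈ RG := Subgroup.subset_closure (Or.inr (Or.inr (Or.inl rfl)))
  have y1 : sy 1 ∈ RG := Subgroup.subset_closure (Or.inr (Or.inr (Or.inr rfl)))
  have d0 : dd 0 ∈ RG :=
    RG.mul_mem (RG.mul_mem (RG.mul_mem x0 y0) (RG.inv_mem x0)) (RG.inv_mem y0)
  have d1 : dd 1 ∈ RG :=
    RG.mul_mem (RG.mul_mem (RG.mul_mem x1 y1) (RG.inv_mem x1)) (RG.inv_mem y1)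
  have e01 : elS 0 1 = sx 0 := elS_l01 0
  have e12 : elS 1 2 = sy 0 * (sx 0)⁻¹ * (sy 0)⁻¹ := elS_l12 0
  have e23 : elS 2 3 = sx 1 := elS_l01 1
  have e34 : elS 3 4 = sy 1 * (sx 1)⁻¹ * (sy 1)⁻¹ := elS_l12 1
  refine ⟨fun _ _ _ => rfl, ?_, ?_, ?_, ?_, ?_, ?_⟩
  · intro p hp
    rcases hp with rfl | rfl | rfl | rfl
    · exact ⟨Or.inr (Or.inl rfl), Or.inr (Or.inl rfl)⟩
    · exact ⟨Or.inl rfl, Or.inr (Or.inr (Or.inl rfl))⟩
    · exact ⟨Or.inr (Or.inr (Or.inr rfl)), Or.inr (Or.inr (Or.inr (Or.inl rfl)))⟩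
    · exact ⟨Or.inr (Or.inr (Or.inl rfl)), Or.inr (Or.inr (Or.inr (Or.inr rfl)))⟩
  · intro p hp
    change _ ∈ elG elS A5
    rcases hp with rfl | rfl | rfl | rfl
    · change sx 0 ∈ _
      rw [← e01]
      exact pm_CII2_mem (by decide) (by decide)
    · change sy 0 * (sx 0)⁻¹ * (sy 0)⁻¹ ∈ _
      rw [← e12]
      exact pm_CII2_mem (by decide) (by decide)
    · change sx 1 ∈ _
      rw [← e23]
      exact pm_CII2_mem (by decide) (by decide)
    · change sy 1 * (sx 1)⁻¹ * (sy 1)⁻¹ ∈ _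
      rw [← e34]
      exact pm_CII2_mem (by decide) (by decide)
  · intro _
    change elG elS A5 ≤ RG
    apply pm_CII2_le 0
    intro x hx
    have hcase : x = 0 ∨ x = 1 ∨ x = 2 ∨ x = 3 ∨ x = 4 := by
      revert x
      decide
    have h0 : ∀ y, elS 0 y = pf y := by
      intro y
      unfold elS
      have : pf 0 = 1 := rfl
      rw [this, inv_one, one_mul]
    rw [h0]
    rcases hcase with rfl | rfl | rfl | rfl | rfl
    · exact RG.one_mem
    · exact x0
    · exact d0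
    · exact RG.mul_mem d0 x1
    · exact RG.mul_mem d0 d1
  · intro p hp
    rcases hp with rfl | rfl | rfl | rfl
    · exact RG.inv_mem y0
    · exact y0
    · exact RG.inv_mem y1
    · exact y1
  · intro v w
    exact ⟨[], 1, IsPath.nil (Subgroup.one_mem _), pm_CII2_pval_nil B⟩
  · unfold RG
    rw [Subgroup.closure_le]
    rintro g (rfl | rfl | rfl | rfl)
    · apply Subgroup.subset_closure
      refine Or.inl ⟨(), ?_⟩
      change sx 0 ∈ elG elS A5
      rw [← e01]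
      exact pm_CII2_mem (by decide) (by decide)
    · apply Subgroup.subset_closure
      exact Or.inr ⟨QII.mm 0, Or.inr (Or.inl rfl), rfl⟩
    · apply Subgroup.subset_closure
      refine Or.inl ⟨(), ?_⟩
      change sx 1 ∈ elG elS A5
      rw [← e23]
      exact pm_CII2_mem (by decide) (by decide)
    · apply Subgroup.subset_closure
      exact Or.inr ⟨QII.mm 1, Or.inr (Or.inr (Or.inr rfl)), rfl⟩

def at9' : QII → Bool
  | QII.dH2 => true
  | _ => false

theorem gh9' : GH B.psII at9' (fun v => if v then BH 2 else RG)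
    (fun v => if v then {QII.dH2} else {QII.dP2}) {QII.dP2, QII.dH2} ⊤ := by
  have x0 : sx 0 ∈ RG := Subgroup.subset_closure (Or.inl rfl)
  have y0 : sy 0 ∈ RG := Subgroup.subset_closure (Or.inr (Or.inl rfl))
  have x1 : sx 1 ∈ RG := Subgroup.subset_closure (Or.inr (Or.inr (Or.inl rfl)))
  have y1 : sy 1 ∈ RG := Subgroup.subset_closure (Or.inr (Or.inr (Or.inr rfl)))
  have x2 : sx 2 ∈ BH 2 := Subgroup.subset_closure (Or.inl rfl)
  have y2 : sy 2 ∈ BH 2 := Subgroup.subset_closure (Or.inr rfl)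
  have d0 : dd 0 ∈ RG :=
    RG.mul_mem (RG.mul_mem (RG.mul_mem x0 y0) (RG.inv_mem x0)) (RG.inv_mem y0)
  have d1 : dd 1 ∈ RG :=
    RG.mul_mem (RG.mul_mem (RG.mul_mem x1 y1) (RG.inv_mem x1)) (RG.inv_mem y1)
  have d2 : dd 2 ∈ BH 2 :=
    (BH 2).mul_mem ((BH 2).mul_mem ((BH 2).mul_mem x2 y2) ((BH 2).inv_mem x2)) ((BH 2).inv_mem y2)
  have d2' : dd 2 ∈ RG := by
    have h : dd 2 = (dd 0 * dd 1)⁻¹ := by
      have := surf_rel
      exact (inv_eq_of_mul_eq_one_right this).symm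
    rw [h]
    exact RG.inv_mem (RG.mul_mem d0 d1)
  refine ⟨?_, ?_, ?_, ?_, ?_, ?_, ?_⟩
  · intro v p hp
    cases v
    · have hp' : p = QII.dP2 := hp
      rw [hp']
      rfl
    · have hp' : p = QII.dH2 := hp
      rw [hp']
      rfl
  · intro p hp
    rcases hp with rfl | rfl
    · exact ⟨Or.inr rfl, rfl⟩
    · exact ⟨Or.inl rfl, rfl⟩
  · intro p hp
    rcases hp with rfl | rfl
    · exact d2'
    · exact (BH 2).inv_mem d2
  · intro v
    exact le_top
  · intro p _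
    exact Subgroup.mem_top _
  · intro v w
    cases v <;> cases w
    · exact ⟨[], 1, IsPath.nil (Subgroup.one_mem _), pm_CII2_pval_nil B⟩
    · refine ⟨[(1, QII.dP2)], 1, IsPath.cons (Subgroup.one_mem _) (Or.inl rfl) rfl
        (IsPath.nil (Subgroup.one_mem _)), ?_⟩
      have ht : B.psII.t QII.dP2 = 1 := rfl
      simp [PS.pval, ht]
    · refine ⟨[(1, QII.dH2)], 1, IsPath.cons (Subgroup.one_mem _) (Or.inr rfl) rfl
        (IsPath.nil (Subgroup.one_mem _)), ?_⟩
      have ht : B.psII.t QII.dH2 = 1 := rfl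
      simp [PS.pval, ht]
    · exact ⟨[], 1, IsPath.nil (Subgroup.one_mem _), pm_CII2_pval_nil B⟩
  · have htop : (⊤ : Subgroup Surf) =
        Subgroup.closure (Set.range (PresentedGroup.of : Gen → Surf)) :=
      (PresentedGroup.closure_range_of _).symm
    rw [htop, Subgroup.closure_le]
    rintro g ⟨a, rfl⟩
    apply Subgroup.subset_closure
    left
    cases a with
    | x i =>
      fin_cases i
      · exact ⟨false, x0⟩
      · exact ⟨false, x1⟩
      · exact ⟨true, x2⟩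
    | y i =>
      fin_cases i
      · exact ⟨false, y0⟩
      · exact ⟨false, y1⟩
      · exact ⟨true, y2⟩

theorem pm_CII3_Rt_det : (symMat B.rt).det = 1 := by
  rw [symMat_det, B.rt_det]; norm_num

theorem pm_CII3_det_of {A : M2} (h : A.det = 1) : IsUnit (symMat A).det := by
  rw [symMat_det, h]; norm_num

/-- the conjugating matrix of the handle 2 -/
def pm_CII3_W (z : ZII) : SL(3, ℝ) :=
  ⟨B.Z2 z * (symMat B.rt * symMat B.rt), by
    rw [Matrix.det_mul, Matrix.det_mul, B.Z2_det, pm_CII3_Rt_det]; norm_num⟩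

theorem pm_CII3_fin1 : (0 : Fin 3) + 1 = 1 := rfl
theorem pm_CII3_fin2 : (1 : Fin 3) + 1 = 2 := rfl

theorem pm_CII3_hX : B.hX 2 * (symMat B.rt * symMat B.rt) =
    (symMat B.rt * symMat B.rt) * B.hX 0 := by
  have h1 := B.X_rot 0
  have h2 := B.X_rot 1
  rw [pm_CII3_fin1] at h1
  rw [pm_CII3_fin2] at h2
  have h1' := congrArg symMat h1
  have h2' := congrArg symMat h2
  rw [symMat_mul, symMat_mul] at h1' h2'
  unfold Base.hX
  rw [← Matrix.mul_assoc, h2', Matrix.mul_assoc, h1', ← Matrix.mul_assoc]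

theorem pm_CII3_Y : symMat (B.Y 2) * (symMat B.rt * symMat B.rt) =
    (symMat B.rt * symMat B.rt) * symMat (B.Y 0) := by
  have h1 := B.Y_rot 0
  have h2 := B.Y_rot 1
  rw [pm_CII3_fin1] at h1
  rw [pm_CII3_fin2] at h2
  have h1' := congrArg symMat h1
  have h2' := congrArg symMat h2
  rw [symMat_mul, symMat_mul] at h1' h2'
  rw [← Matrix.mul_assoc, h2', Matrix.mul_assoc, h1', ← Matrix.mul_assoc]

theorem pm_CII3_fp : symMat (B.fp 2) = (symMat B.rt * symMat B.rt) * symMat (B.fp 0) := by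
  have h1 := B.fp_rot 0
  have h2 := B.fp_rot 1
  rw [pm_CII3_fin1] at h1
  rw [pm_CII3_fin2] at h2
  rw [h2, h1, Matrix.mul_assoc]

theorem pm_CII3_fd : symMat (B.fd 2) = (symMat B.rt * symMat B.rt) * symMat (B.fd 0) := by
  have h1 := B.fd_rot 0
  have h2 := B.fd_rot 1
  rw [pm_CII3_fin1] at h1
  rw [pm_CII3_fin2] at h2
  rw [h2, h1, Matrix.mul_assoc]

theorem pm_CII3_Rt2 : IsUnit (symMat B.rt * symMat B.rt).det := by
  rw [Matrix.det_mul, pm_CII3_Rt_det]; norm_num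

theorem pm_CII3_Dm (a th : ℝ) : B.Dm 2 a th * (symMat B.rt * symMat B.rt) =
    (symMat B.rt * symMat B.rt) * B.Dm 0 a th := by
  unfold Base.Dm cj
  rw [pm_CII3_fp, Matrix.mul_inv_rev]
  simp only [Matrix.mul_assoc]
  rw [Matrix.nonsing_inv_mul _ (pm_CII3_Rt2 B), Matrix.mul_one]

theorem pm_CII3_hY (a th : ℝ) : B.hY 2 a th * (symMat B.rt * symMat B.rt) =
    (symMat B.rt * symMat B.rt) * B.hY 0 a th := by
  unfold Base.hY
  rw [Matrix.mul_assoc, pm_CII3_Dm, ← Matrix.mul_assoc, pm_CII3_Y, Matrix.mul_assoc]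

theorem pm_CII3_rep (z : ZII) : (B.repII z).comp (phi false 2) =
    (MulAut.conj (pm_CII3_W B z)).toMonoidHom.comp (B.Hr (z.a 2) (z.th 2)) := by
  have hZ : IsUnit (B.Z2 z).det := by rw [B.Z2_det]; exact isUnit_one
  refine FreeGroup.ext_hom _ _ fun c => ?_
  have key : B.repII z (phi false 2 (FreeGroup.of c)) * pm_CII3_W B z =
      pm_CII3_W B z * B.Hr (z.a 2) (z.th 2) (FreeGroup.of c) := by
    refine Subtype.ext ?_
    change (B.repII z (phi false 2 (FreeGroup.of c)) : M3) *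
      (B.Z2 z * (symMat B.rt * symMat B.rt)) =
      (B.Z2 z * (symMat B.rt * symMat B.rt)) * (B.Hr (z.a 2) (z.th 2) (FreeGroup.of c) : M3)
    cases c with
    | false =>
      have e1 : phi false 2 (FreeGroup.of false) = sx 2 := by simp [phi]
      have e2 : (B.Hr (z.a 2) (z.th 2) (FreeGroup.of false) : M3) = B.hX 0 := by
        simp [Base.Hr, Base.slH]
      rw [e1, e2, B.repII_x]
      have e3 : B.mX' z 2 = B.Z2 z * B.hX 2 * (B.Z2 z)⁻¹ := by
        unfold Base.mX'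
        rw [if_neg (by decide), if_neg (by decide)]
      rw [e3, Matrix.mul_assoc, ← Matrix.mul_assoc (B.Z2 z)⁻¹, Matrix.nonsing_inv_mul _ hZ,
        Matrix.one_mul, Matrix.mul_assoc, pm_CII3_hX, ← Matrix.mul_assoc]
    | true =>
      have e1 : phi false 2 (FreeGroup.of true) = sy 2 := by simp [phi]
      have e2 : (B.Hr (z.a 2) (z.th 2) (FreeGroup.of true) : M3) = B.hY 0 (z.a 2) (z.th 2) := by
        simp [Base.Hr, Base.slH]
      rw [e1, e2, B.repII_y]
      have e3 : B.mY' z 2 = B.Z2 z * B.hY 2 (z.a 2) (z.th 2) * (B.Z2 z)⁻¹ := by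
        unfold Base.mY'
        rw [if_neg (by decide), if_neg (by decide)]
      rw [e3, Matrix.mul_assoc, ← Matrix.mul_assoc (B.Z2 z)⁻¹, Matrix.nonsing_inv_mul _ hZ,
        Matrix.one_mul, Matrix.mul_assoc, pm_CII3_hY, ← Matrix.mul_assoc]
  change B.repII z (phi false 2 (FreeGroup.of c)) =
    pm_CII3_W B z * B.Hr (z.a 2) (z.th 2) (FreeGroup.of c) * (pm_CII3_W B z)⁻¹
  rw [← key, mul_assoc, mul_inv_cancel, mul_one]

/-- sizes of the handle 2 -/
theorem N_handle' (z : ZII) (g : F2) :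
    B.psII.N QII.dH2 z (phi false 2 g) = B.NH (z.a 2) (z.th 2) g := by
  have h1 : B.repII z (phi false 2 g) * pm_CII3_W B z =
      pm_CII3_W B z * B.Hr (z.a 2) (z.th 2) g := by
    have h := DFunLike.congr_fun (pm_CII3_rep B z) g
    change B.repII z (phi false 2 g) =
      pm_CII3_W B z * B.Hr (z.a 2) (z.th 2) g * (pm_CII3_W B z)⁻¹ at h
    rw [h, mul_assoc, inv_mul_cancel, mul_one]
  have h2 : (B.repII z (phi false 2 g) : M3) * (B.Z2 z * (symMat B.rt * symMat B.rt)) =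
      (B.Z2 z * (symMat B.rt * symMat B.rt)) * (B.Hr (z.a 2) (z.th 2) g : M3) :=
    congrArg Subtype.val h1
  have hF : B.FII QII.dH2 z = (B.Z2 z * (symMat B.rt * symMat B.rt)) * symMat (B.fd 0 * J2) := by
    change B.Z2 z * symMat (B.fd 2 * J2) = _
    rw [symMat_mul, pm_CII3_fd, symMat_mul]
    simp only [Matrix.mul_assoc]
  have hW : IsUnit (B.Z2 z * (symMat B.rt * symMat B.rt)).det := by
    rw [Matrix.det_mul, Matrix.det_mul, B.Z2_det, pm_CII3_Rt_det]; norm_num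
  unfold PS.N Base.NH
  congr 1
  have e1 : ((B.psII.F QII.dH2 z : GL (Fin 3) ℝ) : M3) = B.FII QII.dH2 z :=
    glOf_coe (B.FII_det QII.dH2 z)
  have e2 : ((B.psII.r z (phi false 2 g) : GL (Fin 3) ℝ) : M3) = (B.repII z (phi false 2 g) : M3) := rfl
  rw [Matrix.coe_units_inv, e1, e2, hF, Matrix.mul_inv_rev]
  generalize B.Z2 z * (symMat B.rt * symMat B.rt) = W at *
  calc (symMat (B.fd 0 * J2))⁻¹ * W⁻¹ * (B.repII z (phi false 2 g) : M3) * (W * symMat (B.fd 0 * J2))
      = (symMat (B.fd 0 * J2))⁻¹ * W⁻¹ * ((B.repII z (phi false 2 g) : M3) * W) *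
        symMat (B.fd 0 * J2) := by simp only [Matrix.mul_assoc]
    _ = (symMat (B.fd 0 * J2))⁻¹ * (W⁻¹ * W) * (B.Hr (z.a 2) (z.th 2) g : M3) *
        symMat (B.fd 0 * J2) := by rw [h2]; simp only [Matrix.mul_assoc]
    _ = _ := by rw [Matrix.nonsing_inv_mul _ hW, Matrix.mul_one]

theorem pm_CII3_mem (g : F2) : phi false 2 g ∈ BH 2 := by
  rw [← phi_range false 2]; exact ⟨g, rfl⟩

theorem poin_handle' (z : ZII) (s : ℝ) :
    ∑' g : BH 2, ENNReal.ofReal ((B.psII.N QII.dH2 z g) ^ (-s)) =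
      poin (⊤ : Subgroup F2) (B.NH (z.a 2) (z.th 2)) s := by
  let e : (⊤ : Subgroup F2) ≃ BH 2 := Equiv.ofBijective
    (fun g => (⟨phi false 2 g.1, pm_CII3_mem g.1⟩ : BH 2)) ⟨fun x y h => by
      have h' : phi false 2 x.1 = phi false 2 y.1 := congrArg Subtype.val h
      exact Subtype.ext (phi_inj false 2 h'), fun y => by
      have hy : y.1 ∈ (phi false 2).range := by rw [phi_range false 2]; exact y.2
      obtain ⟨g, hg⟩ := hy
      exact ⟨⟨g, Subgroup.mem_top g⟩, Subtype.ext hg⟩⟩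
  unfold poin
  rw [← e.tsum_eq (fun g : BH 2 => ENNReal.ofReal ((B.psII.N QII.dH2 z g) ^ (-s)))]
  refine tsum_congr fun g => ?_
  have h := N_handle' B z g.1
  change ENNReal.ofReal ((B.psII.N QII.dH2 z (phi false 2 g.1)) ^ (-s)) = _
  rw [h]

theorem expo_handle' (z : ZII) :
    expo (BH 2) (B.psII.N QII.dH2 z) = B.EH (z.a 2) (z.th 2) := by
  have key : ∀ T, nX (BH 2) (B.psII.N QII.dH2 z) T =
      phi false 2 '' nX (⊤ : Subgroup F2) (B.NH (z.a 2) (z.th 2)) T := by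
    intro T
    ext g
    constructor
    · rintro ⟨h1, h2⟩
      have hy : g ∈ (phi false 2).range := by rw [phi_range false 2]; exact h1
      obtain ⟨g', hg'⟩ := hy
      refine ⟨g', ⟨Subgroup.mem_top g', ?_⟩, hg'⟩
      rw [← N_handle' B z g', hg']
      exact h2
    · rintro ⟨g', ⟨_, h2⟩, rfl⟩
      refine ⟨pm_CII3_mem g', ?_⟩
      rw [N_handle' B z g']
      exact h2
  unfold expo Base.EH expo
  simp only [key, Set.ncard_image_of_injective _ (phi_inj false 2)]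

/-- scaled parameters -/
def pm_CII3_sc (z : ZII) (s : ℝ) : ZII where
  t2 := s * z.t2
  a i := s * z.a i
  th i := s * z.th i
  ac := s * z.ac
  tc := s * z.tc

theorem pm_CII3_dgv0 : dgv 0 0 = fun _ => 1 := by
  funext i
  fin_cases i <;> simp [dgv]

theorem pm_CII3_cj_one {f : M2} (hf : f.det = 1) : cj f (dgv 0 0) = 1 := by
  unfold cj
  rw [pm_CII3_dgv0, Matrix.diagonal_one, Matrix.mul_one,
    Matrix.mul_nonsing_inv _ (pm_CII3_det_of hf)]

theorem pm_CII3_zero (z : ZII) : B.repII (pm_CII3_sc z 0) = irr.comp B.rhoS := by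
  have hc : B.Zc (pm_CII3_sc z 0) = 1 := by
    unfold Base.Zc
    have : (pm_CII3_sc z 0).ac = 0 ∧ -((pm_CII3_sc z 0).tc * B.Lc) = 0 := by simp [pm_CII3_sc]
    rw [this.1, this.2, pm_CII3_cj_one B.fc_det]
  have h2 : B.Z2 (pm_CII3_sc z 0) = 1 := by
    unfold Base.Z2
    have : (pm_CII3_sc z 0).t2 = 0 := by simp [pm_CII3_sc]
    rw [this, pm_CII3_cj_one (B.fd_det 2)]
  have hY : ∀ i, B.hY i ((pm_CII3_sc z 0).a i) ((pm_CII3_sc z 0).th i) = symMat (B.Y i) := by
    intro i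
    unfold Base.hY Base.Dm
    have : (pm_CII3_sc z 0).a i = 0 ∧ -((pm_CII3_sc z 0).th i * B.Lm) = 0 := by simp [pm_CII3_sc]
    rw [this.1, this.2, pm_CII3_cj_one (B.fp_det i), Matrix.mul_one]
  refine surf_ext (fun i => Subtype.ext ?_) (fun i => Subtype.ext ?_)
  · change (B.repII (pm_CII3_sc z 0) (sx i) : M3) = symMat (B.rhoS (sx i) : M2)
    rw [B.repII_x, B.rhoS_x]
    unfold Base.mX'
    rw [hc, h2, inv_one]
    unfold Base.hX
    fin_cases i <;> simp
  · change (B.repII (pm_CII3_sc z 0) (sy i) : M3) = symMat (B.rhoS (sy i) : M2)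
    rw [B.repII_y, B.rhoS_y]
    unfold Base.mY'
    rw [hc, h2, inv_one]
    fin_cases i <;> simp [hY]

theorem pm_CII3_cont_cj (f : M2) {a b : ℝ → ℝ} (ha : Continuous a) (hb : Continuous b) :
    Continuous (fun s => cj f (dgv (a s) (b s))) := by
  unfold cj
  refine (continuous_const.matrix_mul ?_).matrix_mul continuous_const
  refine Continuous.matrix_diagonal ?_
  refine continuous_pi fun i => ?_
  fin_cases i
  · exact Real.continuous_exp.comp (ha.add hb)
  · exact Real.continuous_exp.comp (continuous_const.mul ha).neg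
  · exact Real.continuous_exp.comp (ha.sub hb)

theorem pm_CII3_inv_of {A : M3} (h : A.det = 1) : A⁻¹ = A.adjugate := by
  rw [Matrix.inv_def, h, Ring.inverse_one, one_smul]

theorem pm_CII3_cont (z : ZII) : Continuous (fun s => B.repII (pm_CII3_sc z s)) := by
  have hc : Continuous (fun s => B.Zc (pm_CII3_sc z s)) := by
    unfold Base.Zc
    exact pm_CII3_cont_cj B.fc (continuous_id.mul continuous_const)
      ((continuous_id.mul continuous_const).mul continuous_const).neg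
  have h2 : Continuous (fun s => B.Z2 (pm_CII3_sc z s)) := by
    unfold Base.Z2
    exact pm_CII3_cont_cj (B.fd 2) (continuous_id.mul continuous_const) continuous_const
  have hci : Continuous (fun s => (B.Zc (pm_CII3_sc z s))⁻¹) := by
    have : (fun s => (B.Zc (pm_CII3_sc z s))⁻¹) = fun s => (B.Zc (pm_CII3_sc z s)).adjugate := by
      funext s
      exact pm_CII3_inv_of (B.Zc_det _)
    rw [this]
    exact hc.matrix_adjugate
  have h2i : Continuous (fun s => (B.Z2 (pm_CII3_sc z s))⁻¹) := by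
    have : (fun s => (B.Z2 (pm_CII3_sc z s))⁻¹) = fun s => (B.Z2 (pm_CII3_sc z s)).adjugate := by
      funext s
      exact pm_CII3_inv_of (B.Z2_det _)
    rw [this]
    exact h2.matrix_adjugate
  have hY : ∀ i, Continuous (fun s => B.hY i ((pm_CII3_sc z s).a i) ((pm_CII3_sc z s).th i)) := by
    intro i
    unfold Base.hY Base.Dm
    exact continuous_const.matrix_mul (pm_CII3_cont_cj (B.fp i) (continuous_id.mul continuous_const)
      ((continuous_id.mul continuous_const).mul continuous_const).neg)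
  have hmX : ∀ k, Continuous (fun s => B.mX' (pm_CII3_sc z s) k) := by
    intro k
    unfold Base.mX'
    by_cases h0 : k = 0
    · simp only [h0, if_true]
      exact continuous_const
    · by_cases h1 : k = 1
      · simp only [h0, h1, if_false, if_true]
        exact (hc.matrix_mul continuous_const).matrix_mul hci
      · simp only [h0, h1, if_false]
        exact (h2.matrix_mul continuous_const).matrix_mul h2i
  have hmY : ∀ k, Continuous (fun s => B.mY' (pm_CII3_sc z s) k) := by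
    intro k
    unfold Base.mY'
    by_cases h0 : k = 0
    · simp only [h0, if_true]
      exact hc.matrix_mul (hY 0)
    · by_cases h1 : k = 1
      · simp only [h0, h1, if_false, if_true]
        exact (hY 1).matrix_mul hci
      · simp only [h0, h1, if_false]
        exact (h2.matrix_mul (hY 2)).matrix_mul h2i
  refine continuous_of_gens _ fun k i j => ⟨?_, ?_⟩
  · simp only [B.repII_x]
    exact (hmX k).matrix_elem i j
  · simp only [B.repII_y]
    exact (hmY k).matrix_elem i j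

theorem repII_hit (z : ZII) : B.repII z ∈ Hit := by
  have h0 : (fun s => B.repII (pm_CII3_sc z s)) 0 ∈ Hit := by
    change B.repII (pm_CII3_sc z 0) ∈ Hit
    rw [pm_CII3_zero]
    exact ⟨B.rhoS, fuchs_isFuchsian B, mem_connectedComponent⟩
  have h1 := hit_of_joined (fun s : ℝ => B.repII (pm_CII3_sc z s)) (pm_CII3_cont B z) h0 1
  have h2 : pm_CII3_sc z 1 = z := by
    cases z
    simp [pm_CII3_sc]
  change B.repII (pm_CII3_sc z 1) ∈ Hit at h1
  rw [h2] at h1
  exact h1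

/-! helpers for `closed_lim'` -/

theorem pm_CII4_top {K κ : ℝ} {Φ : Finset (ZII → GL (Fin 3) ℝ)} (P : PkII B K κ Φ) :
    (∀ v : Bool, VC B.psII K κ Set.univ (if v then BH 2 else RG)
      (if v then {QII.dH2} else {QII.dP2})) ∧ CR B.psII K κ Set.univ ⊤ (Φ : Set _) := by
  -- the handle 2
  have hVB : ∀ _ : Unit, VC B.psII K κ Set.univ (PH false 2) SH2' := fun _ => P.vh.vc Set.univ
  have vB : VC B.psII K κ Set.univ (BH 2) {QII.dH2} := by
    refine VC_glue (ghB2' B) (Set.subset_univ _) hVB _ ?_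
    rintro p hp
    rw [Set.mem_singleton_iff] at hp
    subst hp
    exact ⟨by simp [SH2'], by simp [LB2]⟩
  have cB : CR B.psII K κ Set.univ (BH 2) (Φ : Set _) :=
    CR_glue (ghB2' B) (Set.subset_univ _) hVB
      (fun _ => P.ch.mono le_rfl le_rfl (Set.empty_subset _) (Set.Subset.refl _)) (fun e _ => P.fj e)
  -- the group V_5
  have hV5 : ∀ v : Bool, VC B.psII K κ Set.univ (if v then PC else QC) (if v then SPc else SQc) := by
    intro v
    cases v
    · exact P.vq.vc Set.univ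
    · exact P.vp.vc Set.univ
  have hC5 : ∀ v : Bool, CR B.psII K κ Set.univ (if v then PC else QC) (Φ : Set _) := by
    intro v
    cases v
    · exact P.cq.mono le_rfl le_rfl (Set.empty_subset _) (Set.Subset.refl _)
    · exact P.cp.mono le_rfl le_rfl (Set.empty_subset _) (Set.Subset.refl _)
  have v5 : VC B.psII K κ Set.univ V5 S5' := by
    refine VC_glue (gh5' B) (Set.subset_univ _) hV5 _ ?_
    intro p hp
    simp only [S5', Set.mem_insert_iff, Set.mem_singleton_iff] at hp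
    rcases hp with rfl | rfl | rfl | rfl | rfl <;> simp [at5', SQc, SPc]
  have c5 : CR B.psII K κ Set.univ V5 (Φ : Set _) :=
    CR_glue (gh5' B) (Set.subset_univ _) hV5 hC5 (fun e _ => P.fj e)
  -- the group R
  have vR : VC B.psII K κ Set.univ RG {QII.dP2} := by
    refine VC_glue (ghR' B) (Set.subset_univ _) (fun _ => v5) _ ?_
    intro p hp
    rw [Set.mem_singleton_iff] at hp
    subst hp
    exact ⟨by simp [S5'], by simp⟩
  have cR' : CR B.psII K κ Set.univ RG (Φ : Set _) :=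
    CR_glue (ghR' B) (Set.subset_univ _) (fun _ => v5) (fun _ => c5) (fun e _ => P.fj e)
  -- the closed group
  have hV9 : ∀ v : Bool, VC B.psII K κ Set.univ (if v then BH 2 else RG)
      (if v then {QII.dH2} else {QII.dP2}) := by
    intro v
    cases v
    · exact vR
    · exact vB
  have hC9 : ∀ v : Bool, CR B.psII K κ Set.univ (if v then BH 2 else RG) (Φ : Set _) := by
    intro v
    cases v
    · exact cR'
    · exact cB
  exact ⟨hV9, CR_glue (gh9' B) (Set.subset_univ _) hV9 hC9 (fun e _ => P.fj e)⟩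

/-- the Fuchsian parameter -/
def pm_CII4_z0 : ZII := ⟨0, fun _ => 0, fun _ => 0, 0, 0⟩

theorem pm_CII4_dgv0 : dgv 0 0 = fun _ => 1 := by
  funext i
  fin_cases i <;> simp [dgv]

theorem pm_CII4_cj_one {f : M2} (hf : f.det = 1) : cj f (dgv 0 0) = 1 := by
  have h : IsUnit (symMat f).det := by rw [symMat_det, hf]; norm_num
  unfold cj
  rw [pm_CII4_dgv0, Matrix.diagonal_one, Matrix.mul_one, Matrix.mul_nonsing_inv _ h]

theorem pm_CII4_zero : B.repII pm_CII4_z0 = irr.comp B.rhoS := by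
  have hc : B.Zc pm_CII4_z0 = 1 := by
    unfold Base.Zc
    have : pm_CII4_z0.ac = 0 ∧ -(pm_CII4_z0.tc * B.Lc) = 0 := by simp [pm_CII4_z0]
    rw [this.1, this.2, pm_CII4_cj_one B.fc_det]
  have h2 : B.Z2 pm_CII4_z0 = 1 := by
    unfold Base.Z2
    have : pm_CII4_z0.t2 = 0 := by simp [pm_CII4_z0]
    rw [this, pm_CII4_cj_one (B.fd_det 2)]
  have hY : ∀ i, B.hY i (pm_CII4_z0.a i) (pm_CII4_z0.th i) = symMat (B.Y i) := by
    intro i
    unfold Base.hY Base.Dm
    have : pm_CII4_z0.a i = 0 ∧ -(pm_CII4_z0.th i * B.Lm) = 0 := by simp [pm_CII4_z0]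
    rw [this.1, this.2, pm_CII4_cj_one (B.fp_det i), Matrix.mul_one]
  refine surf_ext (fun i => Subtype.ext ?_) (fun i => Subtype.ext ?_)
  · change (B.repII pm_CII4_z0 (sx i) : M3) = symMat (B.rhoS (sx i) : M2)
    rw [B.repII_x, B.rhoS_x]
    unfold Base.mX'
    rw [hc, h2, inv_one]
    unfold Base.hX
    fin_cases i <;> simp
  · change (B.repII pm_CII4_z0 (sy i) : M3) = symMat (B.rhoS (sy i) : M2)
    rw [B.repII_y, B.rhoS_y]
    unfold Base.mY'
    rw [hc, h2, inv_one]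
    fin_cases i <;> simp [hY]

/-- the symmetric square dominates the square of the 2 x 2 norm -/
theorem pm_CII4_sq (A : M2) : nrm2 A ^ 2 ≤ 4 * nrm (symMat A) := by
  have e1 : nrm2 A = |A 0 0| + |A 0 1| + (|A 1 0| + |A 1 1|) := by
    simp [nrm2, Fin.sum_univ_two]
  have e2 : |A 0 0| ^ 2 + |A 0 1| ^ 2 + (|A 1 0| ^ 2 + |A 1 1| ^ 2) ≤ nrm (symMat A) := by
    have h : nrm (symMat A) = (|A 0 0| ^ 2 + |2 * (A 0 0 * A 0 1)| + |A 0 1| ^ 2) +
        (|A 0 0 * A 1 0| + |A 0 0 * A 1 1 + A 0 1 * A 1 0| + |A 0 1 * A 1 1|) +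
        (|A 1 0| ^ 2 + |2 * (A 1 0 * A 1 1)| + |A 1 1| ^ 2) := by
      simp only [nrm, Fin.sum_univ_three, symMat]
      simp [abs_mul_abs_self, sq, abs_mul]
    rw [h]
    have h1 := abs_nonneg (2 * (A 0 0 * A 0 1))
    have h2 := abs_nonneg (A 0 0 * A 1 0)
    have h3 := abs_nonneg (A 0 0 * A 1 1 + A 0 1 * A 1 0)
    have h4 := abs_nonneg (A 0 1 * A 1 1)
    have h5 := abs_nonneg (2 * (A 1 0 * A 1 1))
    linarith
  rw [e1]
  nlinarith [e2, sq_nonneg (|A 0 0| - |A 0 1|), sq_nonneg (|A 0 0| - |A 1 0|),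
    sq_nonneg (|A 0 0| - |A 1 1|), sq_nonneg (|A 0 1| - |A 1 0|), sq_nonneg (|A 0 1| - |A 1 1|),
    sq_nonneg (|A 1 0| - |A 1 1|)]

theorem pm_CII4_nrm2_pos (A : SL(2, ℝ)) : 0 < nrm2 (A : M2) := by
  have h0 : 0 ≤ nrm2 (A : M2) := Finset.sum_nonneg fun i _ => Finset.sum_nonneg fun j _ => abs_nonneg _
  rcases h0.lt_or_eq with h | h
  · exact h
  · exfalso
    have hz : ∀ i j, (A : M2) i j = 0 := by
      intro i j
      have h1 : ∀ i ∈ Finset.univ, ∑ j, |(A : M2) i j| = 0 :=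
        (Finset.sum_eq_zero_iff_of_nonneg
          (fun i _ => Finset.sum_nonneg fun j _ => abs_nonneg _)).mp h.symm
      have h2 := (Finset.sum_eq_zero_iff_of_nonneg (fun j _ => abs_nonneg _)).mp
        (h1 i (Finset.mem_univ i)) j (Finset.mem_univ j)
      exact abs_eq_zero.mp h2
    have hd := A.2
    rw [Matrix.det_fin_two] at hd
    have h00 := hz 0 0
    have h01 := hz 0 1
    rw [h00, h01] at hd
    norm_num at hd

theorem pm_CII4_det (z : ZII) (g : Surf) : (B.psII.r z g : M3).det = 1 := (B.repII z g).2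

/-- the Fuchsian size controls the representation into `SL(2)` -/
theorem pm_CII4_fuchs : ∃ C > (0 : ℝ), ∀ g : Surf, Real.log (nrm2 (B.rhoS g : M2)) ≤
    C + Real.log (B.psII.N QII.dH2 pm_CII4_z0 g) := by
  obtain ⟨c, hc, h⟩ := nrm_frame_change 1 (B.psII.F QII.dH2 pm_CII4_z0)
  obtain ⟨h1, -⟩ := N_basic B.psII QII.dH2 pm_CII4_z0 (pm_CII4_det B pm_CII4_z0)
  refine ⟨|Real.log (4 * c)| + 1, by positivity, fun g => ?_⟩
  have hr : (B.psII.r pm_CII4_z0 g : M3) = symMat (B.rhoS g : M2) := by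
    have h2 : (B.psII.r pm_CII4_z0 g : M3) = (B.repII pm_CII4_z0 g : M3) := rfl
    rw [h2, pm_CII4_zero]
    rfl
  have h3 : nrm (symMat (B.rhoS g : M2)) ≤ c * B.psII.N QII.dH2 pm_CII4_z0 g := by
    have h4 := h (B.psII.r pm_CII4_z0 g : M3)
    rw [hr] at h4
    simp only [inv_one, Units.val_one, one_mul, mul_one] at h4
    unfold PS.N
    rw [hr]
    exact h4
  have hN := h1 g
  have hp := pm_CII4_nrm2_pos (B.rhoS g)
  have h5 := pm_CII4_sq (B.rhoS g : M2)
  have h6 : nrm2 (B.rhoS g : M2) ^ 2 ≤ (4 * c) * B.psII.N QII.dH2 pm_CII4_z0 g := by linarith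
  have h7 := Real.log_le_log (by positivity) h6
  rw [Real.log_pow, Real.log_mul (by positivity) (by positivity)] at h7
  have h8 : 0 ≤ Real.log (B.psII.N QII.dH2 pm_CII4_z0 g) := Real.log_nonneg hN
  have h9 := le_abs_self (Real.log (4 * c))
  have h10 := abs_nonneg (Real.log (4 * c))
  push_cast at h7
  by_cases h11 : 0 ≤ Real.log (nrm2 (B.rhoS g : M2))
  · linarith
  · linarith

theorem pm_CII4_finQ : Finite QII := by
  let f : QII → (Fin 3 ⊕ Fin 3) ⊕ Fin 4 := fun q => match q with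
    | QII.dP2 => Sum.inr 0
    | QII.dH2 => Sum.inr 1
    | QII.mp i => Sum.inl (Sum.inl i)
    | QII.mm i => Sum.inl (Sum.inr i)
    | QII.cQ => Sum.inr 2
    | QII.cP => Sum.inr 3
  refine Finite.of_injective f ?_
  intro p q h
  cases p <;> cases q <;> simp_all [f]

/-- comparison of the crossing diagonals at two parameters -/
theorem pm_CII4_cross (z : ZII) : ∃ c₁ : ℝ, 0 ≤ c₁ ∧ ∀ e : QII, ∀ k : ℤ,
    Real.log (mxd (B.psII.Dl e k pm_CII4_z0)) ≤ c₁ * (1 + Real.log (mxd (B.psII.Dl e k z))) := by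
  have := pm_CII4_finQ
  obtain ⟨C, hC⟩ := (Set.finite_range (fun x : QII × Fin 3 =>
    B.psII.D0 x.1 pm_CII4_z0 x.2 / B.psII.D0 x.1 z x.2)).bddAbove
  have hr : ∀ e i, B.psII.D0 e pm_CII4_z0 i ≤ (|C| + 1) * B.psII.D0 e z i := by
    intro e i
    have h1 : B.psII.D0 e pm_CII4_z0 i / B.psII.D0 e z i ≤ C := hC ⟨(e, i), rfl⟩
    have h2 : 0 < B.psII.D0 e z i := (B.psII.D0_pos e z).1 i
    rw [div_le_iff₀ h2] at h1
    have h3 := le_abs_self C
    nlinarith
  have hC1 : 1 ≤ |C| + 1 := by linarith [abs_nonneg C]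
  have hl : 0 ≤ Real.log (|C| + 1) := Real.log_nonneg hC1
  refine ⟨Real.log (|C| + 1) + 1, by positivity, fun e k => ?_⟩
  have hw : ∀ i, 0 < (![Real.exp (-(k * B.psII.L e)), 1, Real.exp (k * B.psII.L e)] : Fin 3 → ℝ) i := by
    intro i
    fin_cases i
    · exact Real.exp_pos _
    · exact one_pos
    · exact Real.exp_pos _
  have hd : ∀ i, B.psII.Dl e k pm_CII4_z0 i ≤ (|C| + 1) * mxd (B.psII.Dl e k z) := by
    intro i
    have h1 : B.psII.Dl e k pm_CII4_z0 i ≤ (|C| + 1) * B.psII.Dl e k z i := by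
      have h2 := mul_le_mul_of_nonneg_right (hr e i) (hw i).le
      unfold PS.Dl
      calc _ ≤ _ := h2
        _ = _ := by ring
    have h3 : B.psII.Dl e k z i ≤ mxd (B.psII.Dl e k z) := by
      unfold mxd
      fin_cases i
      · exact le_max_left _ _
      · exact (le_max_left _ _).trans (le_max_right _ _)
      · exact (le_max_right _ _).trans (le_max_right _ _)
    exact h1.trans (mul_le_mul_of_nonneg_left h3 (by positivity))
  have hmx : mxd (B.psII.Dl e k pm_CII4_z0) ≤ (|C| + 1) * mxd (B.psII.Dl e k z) :=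
    max_le (hd 0) (max_le (hd 1) (hd 2))
  have hp0 : PosD (B.psII.Dl e k pm_CII4_z0) := Dl_pos B.psII e k pm_CII4_z0
  have hp1 : PosD (B.psII.Dl e k z) := Dl_pos B.psII e k z
  have h10 := one_le_mxd hp0
  have h11 := one_le_mxd hp1
  have h12 := Real.log_le_log (by linarith) hmx
  rw [Real.log_mul (by positivity) (by linarith)] at h12
  have h13 : 0 ≤ Real.log (mxd (B.psII.Dl e k z)) := Real.log_nonneg h11
  nlinarith

/-- quasi-isometry with the Fuchsian size -/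
theorem pm_CII4_qi (z : ZII) : ∃ c > (0 : ℝ), ∀ g : Surf,
    Real.log (B.psII.N QII.dH2 pm_CII4_z0 g) ≤ c * (1 + Real.log (B.psII.N QII.dH2 z g)) := by
  obtain ⟨K, κ, Φ, P⟩ := exists_PkII B
  obtain ⟨hV, -⟩ := pm_CII4_top B P
  obtain ⟨c₁, hc₁, h1⟩ := pm_CII4_cross B z
  obtain ⟨c, hc, h2⟩ := N_qi (K := K) P.hκ hc₁
  obtain ⟨hN1, -⟩ := N_basic B.psII QII.dH2 z (pm_CII4_det B z)
  have h3 : 0 ≤ Real.log 3 := Real.log_nonneg (by norm_num)
  refine ⟨1 + (Real.log 3 + c₁) + c, by positivity, fun g => ?_⟩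
  have hl : 0 ≤ Real.log (B.psII.N QII.dH2 z g) := Real.log_nonneg (hN1 g)
  have hI : QII.dH2 ∈ ({QII.dP2, QII.dH2} : Set QII) := by simp
  rcases N_form_int (gh9' B) (Set.subset_univ _) hV hI (Subgroup.mem_top g) with
    ⟨L, k, h⟩ | ⟨e, -, k, h⟩ | ⟨D, D', w, hD, hD', hw, h⟩
  · rw [h pm_CII4_z0, ← h z]
    nlinarith [mul_nonneg (add_nonneg h3 hc₁) hl, mul_nonneg hc.le hl]
  · obtain ⟨-, h5⟩ := log_nrm_diag (Dl_pos B.psII e k pm_CII4_z0)
    obtain ⟨h6, -⟩ := log_nrm_diag (Dl_pos B.psII e k z)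
    rw [← h pm_CII4_z0] at h5
    rw [← h z] at h6
    have h7 := h1 e k
    have h8 : c₁ * (1 + Real.log (mxd (B.psII.Dl e k z))) ≤
        c₁ * (1 + Real.log (B.psII.N QII.dH2 z g)) := mul_le_mul_of_nonneg_left (by linarith) hc₁
    nlinarith [mul_nonneg h3 hl, mul_nonneg hc.le hl]
  · have h9 := h2 B.psII Set.univ pm_CII4_z0 z (fun e _ k => h1 e k) D D' w hD hD' hw
    rw [← h pm_CII4_z0, ← h z] at h9
    nlinarith [mul_nonneg (add_nonneg h3 hc₁) hl]

theorem pm_CII4_size (z : ZII) : ∃ c : ℝ, IsSize B.rhoS (sx 2) (sy 2) c ⊤ (B.psII.N QII.dH2 z) := by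
  obtain ⟨C, hC, hf⟩ := pm_CII4_fuchs B
  obtain ⟨c, hc, hq⟩ := pm_CII4_qi B z
  obtain ⟨hN1, hN2⟩ := N_basic B.psII QII.dH2 z (pm_CII4_det B z)
  have n1 := hN1 (sx 2)
  have n2 := hN1 (sx 2)⁻¹
  have n3 := hN1 (sy 2)
  have n4 := hN1 (sy 2)⁻¹
  set N := B.psII.N QII.dH2 z with hN
  refine ⟨N (sx 2) + N (sx 2)⁻¹ + N (sy 2) + N (sy 2)⁻¹ + (C + c), Subgroup.mem_top _,
    Subgroup.mem_top _, fun g _ => hN1 g, fun g _ h _ => hN2 g h, ?_, ?_⟩
  · refine ⟨?_, ?_, ?_, ?_⟩ <;> linarith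
  · intro g _
    have h1 := hf g
    have h2 := hq g
    have hl : 0 ≤ Real.log (N g) := Real.log_nonneg (hN1 g)
    have h3 : 0 ≤ N (sx 2) + N (sx 2)⁻¹ + N (sy 2) + N (sy 2)⁻¹ := by linarith
    have h4 : Real.log (nrm2 (B.rhoS g : M2)) ≤ (C + c) * (1 + Real.log (N g)) := by
      nlinarith [mul_nonneg hC.le hl]
    have h5 := mul_nonneg h3 (add_nonneg zero_le_one hl)
    nlinarith

theorem closed_lim' (z : ZII) :
    (∀ T, (cR (fun κ : Cls => ellC (B.repII z) κ.1) T).Finite) ∧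
    Tendsto (fun T : ℝ => Real.log ((cR (fun κ : Cls => ellC (B.repII z) κ.1) T).ncard) / T) atTop
      (𝓝 (expo ⊤ (B.psII.N QII.dH2 z))) ∧
    (∀ T, (nX (⊤ : Subgroup Surf) (B.psII.N QII.dH2 z) T).Finite) ∧
    Tendsto (fun T : ℝ => Real.log ((nX (⊤ : Subgroup Surf) (B.psII.N QII.dH2 z) T).ncard) / T) atTop
      (𝓝 (expo ⊤ (B.psII.N QII.dH2 z))) := by
  obtain ⟨K, κ, Φ, P⟩ := exists_PkII B
  obtain ⟨-, hCR⟩ := pm_CII4_top B P
  obtain ⟨c, hN⟩ := pm_CII4_size B z
  obtain ⟨-, -, -, hα, hβ, hαβ⟩ := hyp_pair B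
  obtain ⟨C, -, hg⟩ := growth B.rhoS (sx 2) (sy 2) (fuchs_fin B) hα hβ hαβ c
  obtain ⟨-, -, h3, h4, -⟩ := hg ⊤ (B.psII.N QII.dH2 z) hN
  obtain ⟨h1, h2⟩ := lim_classes P.hκ hCR B.rhoS (sx 2) (sy 2) (fuchs_fin B) hα hβ hαβ QII.dH2 z hN
  exact ⟨h1, h2, h3, h4⟩

end

section
variable {B : Base} {K κ : ℝ} {Φ : Finset (ZII → GL (Fin 3) ℝ)}

theorem PkII.vB (P : PkII B K κ Φ) :
    VC B.psII K κ LB2 (BH 2) {QII.dH2} ∧ CR B.psII K κ LB2 (BH 2) (Φ : Set _) := by
  have hV : ∀ _ : Unit, VC B.psII K κ LB2 (PH false 2) SH2' := fun _ => P.vh.vc _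
  have hC : ∀ _ : Unit, CR B.psII K κ LB2 (PH false 2) (Φ : Set _) :=
    fun _ => P.ch.mono le_rfl le_rfl (Set.empty_subset _) subset_rfl
  refine ⟨VC_glue (ghB2' B) subset_rfl hV _ ?_, CR_glue (ghB2' B) subset_rfl hV hC
    (fun e _ => P.fj e)⟩
  intro p hp
  rw [Set.mem_singleton_iff] at hp
  subst hp
  simp [SH2', LB2]

theorem PkII.v5 (P : PkII B K κ Φ) : VC B.psII K κ {QII.cQ, QII.cP} V5 S5' ∧
    CR B.psII K κ {QII.cQ, QII.cP} V5 (Φ : Set _) := by
  have hV : ∀ v : Bool, VC B.psII K κ {QII.cQ, QII.cP} (if v then PC else QC)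
      (if v then SPc else SQc) := by
    intro v
    cases v
    · exact P.vq.vc _
    · exact P.vp.vc _
  have hC : ∀ v : Bool, CR B.psII K κ {QII.cQ, QII.cP} (if v then PC else QC) (Φ : Set _) := by
    intro v
    cases v
    · exact P.cq.mono le_rfl le_rfl (Set.empty_subset _) subset_rfl
    · exact P.cp.mono le_rfl le_rfl (Set.empty_subset _) subset_rfl
  refine ⟨VC_glue (gh5' B) subset_rfl hV _ ?_, CR_glue (gh5' B) subset_rfl hV hC
    (fun e _ => P.fj e)⟩
  intro p hp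
  simp only [S5', Set.mem_insert_iff, Set.mem_singleton_iff] at hp
  rcases hp with rfl | rfl | rfl | rfl | rfl <;> simp [at5', SPc, SQc]

theorem PkII.vR (P : PkII B K κ Φ) : VC B.psII K κ LR' RG {QII.dP2} ∧
    CR B.psII K κ LR' RG (Φ : Set _) := by
  have h1 : ({QII.cQ, QII.cP} : Set QII) ⊆ LR' := by
    intro p hp
    simp only [Set.mem_insert_iff, Set.mem_singleton_iff] at hp
    rcases hp with rfl | rfl <;> simp [LR']
  have h2 : ({QII.mp 0, QII.mm 0, QII.mp 1, QII.mm 1} : Set QII) ⊆ LR' := by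
    intro p hp
    simp only [Set.mem_insert_iff, Set.mem_singleton_iff] at hp
    rcases hp with rfl | rfl | rfl | rfl <;> simp [LR']
  have hV : ∀ _ : Unit, VC B.psII K κ LR' V5 S5' :=
    fun _ => P.v5.1.mono le_rfl le_rfl h1 subset_rfl
  have hC : ∀ _ : Unit, CR B.psII K κ LR' V5 (Φ : Set _) :=
    fun _ => P.v5.2.mono le_rfl le_rfl h1 subset_rfl
  refine ⟨VC_glue (ghR' B) h2 hV _ ?_, CR_glue (ghR' B) h2 hV hC (fun e _ => P.fj e)⟩
  intro p hp
  rw [Set.mem_singleton_iff] at hp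
  subst hp
  simp [S5']

theorem PkII.top (P : PkII B K κ Φ) : CR B.psII K κ Set.univ ⊤ (Φ : Set _) := by
  have hV : ∀ v : Bool, VC B.psII K κ Set.univ (if v then BH 2 else RG)
      (if v then {QII.dH2} else {QII.dP2}) := by
    intro v
    cases v
    · exact P.vR.1.mono le_rfl le_rfl (Set.subset_univ _) subset_rfl
    · exact P.vB.1.mono le_rfl le_rfl (Set.subset_univ _) subset_rfl
  have hC : ∀ v : Bool, CR B.psII K κ Set.univ (if v then BH 2 else RG) (Φ : Set _) := by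
    intro v
    cases v
    · exact P.vR.2.mono le_rfl le_rfl (Set.subset_univ _) subset_rfl
    · exact P.vB.2.mono le_rfl le_rfl (Set.subset_univ _) subset_rfl
  exact CR_glue (gh9' B) (Set.subset_univ _) hV hC (fun e _ => P.fj e)

/-! ### the separated estimate for `V_5` (CII6) -/

private theorem pm_CII6_concat {Γ Z Q V : Type} [Group Γ] {ps : PS Γ Z Q} {at_ : Q → V}
    {G : V → Subgroup Γ} {I : Set Q} {v w u : V} {l : List (Γ × Q)} {gl : Γ}
    (h : IsPath ps at_ G I v l gl w) {l' : List (Γ × Q)} {gl' : Γ}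
    (h' : IsPath ps at_ G I w l' gl' u) :
    ∃ l'' gl'', IsPath ps at_ G I v l'' gl'' u ∧
      ps.pval l'' * gl'' = (ps.pval l * gl) * (ps.pval l' * gl') ∧ l''.length ≤ l.length + l'.length := by
  induction h with
  | nil hg =>
    cases h' with
    | nil hg' => exact ⟨[], _, IsPath.nil (mul_mem hg hg'), by simp [PS.pval], by simp⟩
    | cons h1 h2 h3 h4 =>
      exact ⟨_, _, IsPath.cons (mul_mem hg h1) h2 h3 h4, by simp [PS.pval, mul_assoc], by simp⟩
  | cons h1 h2 h3 _ ih =>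
    obtain ⟨l2, g2, e1, e2, e3⟩ := ih h'
    refine ⟨_, g2, IsPath.cons h1 h2 h3 e1, ?_, by simp; omega⟩
    have hc : ∀ (a : Γ × Q) (m : List (Γ × Q)), ps.pval (a :: m) = a.1 * ps.t a.2 * ps.pval m := by
      intro a m; simp [PS.pval]
    rw [hc, hc, mul_assoc, e2]
    simp only [mul_assoc]

private abbrev pm_CII6_G : Bool → Subgroup Surf := fun v => if v then PC else QC

private theorem pm_CII6_path (B : Base) (x : Fin 6) (hx : x ∈ A5) :
    (∃ l gl, IsPath B.psII at5' pm_CII6_G {QII.cQ, QII.cP} false l gl false ∧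
      B.psII.pval l * gl = elS 0 x ∧ l.length ≤ 2) ∧
    (∃ l gl, IsPath B.psII at5' pm_CII6_G {QII.cQ, QII.cP} false l gl false ∧
      B.psII.pval l * gl = elS x 0 ∧ l.length ≤ 2) := by
  have a1 : QII.cQ ∈ ({QII.cQ, QII.cP} : Set QII) := Or.inl rfl
  have a2 : QII.cP ∈ ({QII.cQ, QII.cP} : Set QII) := Or.inr rfl
  have tQ : B.psII.t QII.cQ = 1 := rfl
  have tP : B.psII.t QII.cP = 1 := rfl
  have hx' : x ∈ AQc ∨ x = 2 := by
    revert hx; revert x; decide
  rcases hx' with hx' | rfl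
  · have h0 : elS 0 x ∈ QC := pm_CII2_mem (by decide) hx'
    have h1 : elS x 0 ∈ QC := pm_CII2_mem hx' (by decide)
    exact ⟨⟨[], elS 0 x, IsPath.nil h0, by simp [PS.pval], by simp⟩,
      ⟨[], elS x 0, IsPath.nil h1, by simp [PS.pval], by simp⟩⟩
  · have h01 : elS 0 1 ∈ QC := pm_CII2_mem (by decide) (by decide)
    have h10 : elS 1 0 ∈ QC := pm_CII2_mem (by decide) (by decide)
    have h12 : elS 1 2 ∈ PC := pm_CII2_mem (by decide) (by decide)
    have h21 : elS 2 1 ∈ PC := pm_CII2_mem (by decide) (by decide)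
    refine ⟨⟨[(elS 0 1, QII.cQ), (elS 1 2, QII.cP)], 1, IsPath.cons h01 a1 rfl
      (IsPath.cons h12 a2 rfl (IsPath.nil (one_mem _))), ?_, by simp⟩,
      ⟨[(1, QII.cQ), (elS 2 1, QII.cP)], elS 1 0, IsPath.cons (one_mem _) a1 rfl
      (IsPath.cons h21 a2 rfl (IsPath.nil h10)), ?_, by simp⟩⟩
    · simp [PS.pval, tQ, tP, elS_mul]
    · simp [PS.pval, tQ, tP, elS_mul]

private def pm_CII6_xp (z : ZII) (p : QII) : ℝ :=
  match p with
  | QII.cQ => z.ac
  | QII.cP => -z.ac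
  | _ => 0

private def pm_CII6_z0 : ZII := ⟨0, fun _ => 0, fun _ => 0, 0, 0⟩

private theorem pm_CII6_c (B : Base) : ∀ p ∈ S5', B.psII.c p = elS (aII p) (bII p) := by
  rintro p (rfl | rfl | rfl | rfl | rfl)
  · exact (elS_l02 2).symm
  · exact (elS_l01 0).symm
  · exact (elS_l12 0).symm
  · exact (elS_l01 1).symm
  · exact (elS_l12 1).symm

private theorem pm_CII6_Zc (B : Base) : B.Zc pm_CII6_z0 = 1 := by
  have h := pm_CII4_cj_one B.fc_det
  unfold Base.Zc
  simpa [pm_CII6_z0] using h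

private theorem pm_CII6_PV (B : Base) :
    PolyV B.psII V5 S5' {pm_CII6_z0} A5 B.R B.fII aII bII elS (fun _ => 1) where
  el_mem := fun x hx y hy => pm_CII2_mem hx hy
  el_self := fun x _ => elS_self x
  el_mul := fun x _ y _ w _ => elS_mul x y w
  gen := le_rfl
  hc := pm_CII6_c B
  hr := by
    rintro z rfl x hx y hy
    have h := B.repII_zero pm_CII6_z0 rfl rfl hx hy
    show (B.repII pm_CII6_z0 (elS x y) : M3) * ((1 : GL (Fin 3) ℝ) : M3) =
      ((1 : GL (Fin 3) ℝ) : M3) * symMat (B.R x * B.R y)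
    rw [h]
    simp
  hF := by
    rintro z rfl p hp
    show (glOf (B.FII p pm_CII6_z0) : M3) = ((1 : GL (Fin 3) ℝ) : M3) * symMat (B.fII p)
    rw [glOf_coe (B.FII_det p _)]
    have hZ := pm_CII6_Zc B
    rcases hp with rfl | rfl | rfl | rfl | rfl
    · simp [Base.FII, BaseData.fII]
    · simp [Base.FII, BaseData.fII]
    · simp [Base.FII, BaseData.fII, hZ]
    · simp [Base.FII, BaseData.fII, hZ]
    · simp [Base.FII, BaseData.fII]

/-- `V_5` with bulge along `c` and no twist -/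
theorem PkII.z5 (P : PkII B K κ Φ) (s₁ : ℝ) :
    ∃ A₀ > (0 : ℝ), ∀ (Λ : Set QII) (z : ZII) (s : ℝ), z.tc = 0 → 1 / 8 ≤ s → s ≤ s₁ →
    ∀ p ∈ S5', ∀ q ∈ S5', Zs B.psII K κ Λ V5 z s p q ≤
      ENNReal.ofReal (A₀ * Real.exp (s * ((if at5' p then z.ac else 0) - (if at5' q then z.ac else 0)))) := by
  have hlen : ∀ x ∈ A5, ∀ y ∈ A5, ∃ l gl, IsPath B.psII at5' pm_CII6_G {QII.cQ, QII.cP} false l gl false ∧
      B.psII.pval l * gl = elS x y ∧ l.length ≤ 4 := by
    intro x hx y hy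
    obtain ⟨l1, g1, a1, a2, a3⟩ := (pm_CII6_path B x hx).2
    obtain ⟨l2, g2, c1, c2, c3⟩ := (pm_CII6_path B y hy).1
    obtain ⟨l, g, d1, d2, d3⟩ := pm_CII6_concat a1 c1
    exact ⟨l, g, d1, by rw [d2, a2, c2, elS_mul], by omega⟩
  have hV : ∀ v : Bool, VCs B.psII K κ (if v then PC else QC) (if v then SPc else SQc) := by
    intro v
    cases v
    · exact P.vq
    · exact P.vp
  have hSn : ∀ p ∈ S5', p ∈ (if at5' p then SPc else SQc) ∧ p ∉ ({QII.cQ, QII.cP} : Set QII) := by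
    rintro p (rfl | rfl | rfl | rfl | rfl)
    · exact ⟨Or.inr (Or.inr (Or.inr rfl)), by simp⟩
    · exact ⟨Or.inl rfl, by simp⟩
    · exact ⟨Or.inl rfl, by simp⟩
    · exact ⟨Or.inr (Or.inl rfl), by simp⟩
    · exact ⟨Or.inr (Or.inr (Or.inl rfl)), by simp⟩
  have hcn : ∀ p ∈ S5', B.psII.c p ∈ (if at5' p then PC else QC) := by
    intro p hp
    rw [pm_CII6_c B p hp]
    rcases hp with rfl | rfl | rfl | rfl | rfl
    · exact pm_CII2_mem (A := AQc) (by decide) (by decide)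
    · exact pm_CII2_mem (A := AQc) (by decide) (by decide)
    · exact pm_CII2_mem (A := APc) (by decide) (by decide)
    · exact pm_CII2_mem (A := APc) (by decide) (by decide)
    · exact pm_CII2_mem (A := AQc) (by decide) (by decide)
  have hSf : S5'.Finite := by
    unfold S5'
    exact Set.toFinite _
  have hcard : A5.card = 5 := by decide
  have hlb : (A5.card : ℝ) * 2 ^ (2 * 4) * B.lb ^ (-(1 / 4 : ℝ)) ≤ 1 / 2 := by
    rw [hcard]; exact_mod_cast B.lb_big
  have hxp : ∀ z ∈ {z : ZII | z.tc = 0}, ∀ e ∈ ({QII.cQ, QII.cP} : Set QII), pm_CII6_xp z e =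
      (fun (z : ZII) (v : Bool) => if v then z.ac else 0) z (at5' (B.psII.bar e)) -
      (fun (z : ZII) (v : Bool) => if v then z.ac else 0) z (at5' e) := by
    rintro z _ e (rfl | rfl)
    · show z.ac = z.ac - 0
      ring
    · show -z.ac = 0 - z.ac
      ring
  have hx : ∀ z ∈ {z : ZII | z.tc = 0}, ∀ e ∈ ({QII.cQ, QII.cP} : Set QII), ∀ k,
      B.psII.Dl e k z 0 = Real.exp (pm_CII6_xp z e) * B.psII.Dl e k pm_CII6_z0 0 ∧
      B.psII.Dl e k z 2 = Real.exp (pm_CII6_xp z e) * B.psII.Dl e k pm_CII6_z0 2 := by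
    rintro z hz e (rfl | rfl) k
    · have hz' : z.tc = 0 := hz
      refine ⟨?_, ?_⟩
      · simp [PS.Dl, Base.psII, Base.D0II, dgv, pm_CII6_xp, pm_CII6_z0, hz']
      · simp [PS.Dl, Base.psII, Base.D0II, dgv, pm_CII6_xp, pm_CII6_z0, hz']
    · have hz' : z.tc = 0 := hz
      refine ⟨?_, ?_⟩
      · simp [PS.Dl, Base.psII, Base.D0II, dgv, invr, pm_CII6_xp, pm_CII6_z0, hz', Real.exp_neg]
      · simp [PS.Dl, Base.psII, Base.D0II, dgv, invr, pm_CII6_xp, pm_CII6_z0, hz', Real.exp_neg]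
  have hone : ∀ e ∈ ({QII.cQ, QII.cP} : Set QII), ∀ k, B.psII.Dl e k pm_CII6_z0 1 = 1 := by
    rintro e (rfl | rfl) k <;>
      simp [PS.Dl, Base.psII, Base.D0II, dgv, invr, pm_CII6_z0]
  obtain ⟨A₀, hA₀, h⟩ := sep_Z (gh5' B) P.hK P.hκ.le hV S5' hSf hSn hcn B.poly5' pm_CII6_z0
    (pm_CII6_PV B) false 4 hlen hlb s₁ {z : ZII | z.tc = 0} pm_CII6_xp
    (fun (z : ZII) (v : Bool) => if v then z.ac else 0) hxp hx hone
  exact ⟨A₀, hA₀, fun Λ z s hz hs1 hs2 p hp q hq => h Λ z hz s hs1 hs2 p hp q hq⟩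

private theorem pm_CII6_amb {K : ℝ} (hK : 1 ≤ K) (p : QII) (hp : p ∈ S5') :
    0 ≤ amb K (B.psII.L p) ∧ amb K (B.psII.L p) ≤ amb K B.Ld + amb K B.Lm := by
  have hlog : 0 ≤ Real.log K := Real.log_nonneg hK
  have h1 : 0 ≤ amb K B.Ld := by
    unfold amb
    have := div_nonneg (mul_nonneg (by norm_num : (0 : ℝ) ≤ 2) hlog) B.hLd.le
    linarith
  have h2 : 0 ≤ amb K B.Lm := by
    unfold amb
    have := div_nonneg (mul_nonneg (by norm_num : (0 : ℝ) ≤ 2) hlog) B.hLm.le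
    linarith
  rcases hp with rfl | rfl | rfl | rfl | rfl
  · exact ⟨h1, le_add_of_nonneg_right h2⟩
  · exact ⟨h2, le_add_of_nonneg_left h1⟩
  · exact ⟨h2, le_add_of_nonneg_left h1⟩
  · exact ⟨h2, le_add_of_nonneg_left h1⟩
  · exact ⟨h2, le_add_of_nonneg_left h1⟩

private theorem pm_CII6_mulle {a1 a2 a K s s₁ A n δ : ℝ} (h1 : 0 ≤ a1) (h1' : a1 ≤ a) (h2 : 0 ≤ a2)
    (h2' : a2 ≤ a) (hK : 1 ≤ K) (hs : s ≤ s₁) (hA : 0 ≤ A) (hn : 0 ≤ n) (hδ : 0 ≤ δ)
    (hsm : n * A * δ ≤ 1 / 2) :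
    a1 * a2 * K ^ (2 * s) * (A + 2 * n * A ^ 2 * δ) ≤ a * a * K ^ (2 * s₁) * (2 * A) := by
  refine le_trans ?_ (pm_CI11_num (a := a) hK hs hA hsm)
  have h3 : 0 < K ^ (2 * s) := Real.rpow_pos_of_pos (by linarith) _
  have h4 : a1 * a2 ≤ a * a := mul_le_mul h1' h2' h2 (h1.trans h1')
  have h5 : 0 ≤ A + 2 * n * A ^ 2 * δ := by positivity
  exact mul_le_mul_of_nonneg_right (mul_le_mul_of_nonneg_right h4 h3.le) h5

/-- `V_5` with strong bulge along `c` and any twist -/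
theorem PkII.z5t (P : PkII B K κ Φ) (s₁ : ℝ) :
    ∃ τc > (0 : ℝ), ∃ A₀ > (0 : ℝ), ∀ (Λ : Set QII) (z : ZII) (s : ℝ), {QII.cQ, QII.cP} ⊆ Λ → z.ac = τc →
    1 / 8 ≤ s → s ≤ s₁ →
    ∀ p ∈ S5', ∀ q ∈ S5', Zs B.psII K κ Λ V5 z s p q ≤ ENNReal.ofReal A₀ := by
  obtain ⟨A₀, hA₀, hzq⟩ := P.zq s₁
  obtain ⟨C, hC, hcr⟩ := crossII B
  obtain ⟨τ₀, hτ₀, hτ⟩ := pm_CI11_tau hA₀ hC (by norm_num : (0 : ℝ) < 4)
  have hK := P.hK
  have hK0 : (0 : ℝ) < K := by linarith
  have hLd : 0 < amb K B.Ld := by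
    unfold amb
    have := div_nonneg (mul_nonneg (by norm_num : (0 : ℝ) ≤ 2) (Real.log_nonneg hK)) B.hLd.le
    linarith
  have hLm : 0 < amb K B.Lm := by
    unfold amb
    have := div_nonneg (mul_nonneg (by norm_num : (0 : ℝ) ≤ 2) (Real.log_nonneg hK)) B.hLm.le
    linarith
  refine ⟨τ₀, hτ₀, (amb K B.Ld + amb K B.Lm) * (amb K B.Ld + amb K B.Lm) * K ^ (2 * s₁) * (2 * A₀), ?_, ?_⟩
  · have h1 : 0 < K ^ (2 * s₁) := Real.rpow_pos_of_pos hK0 _
    positivity
  · intro Λ z s hΛ hac hs hs' p hp q hq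
    have hs0 : 0 ≤ s := by linarith
    set δ : ℝ := C * Real.exp (-τ₀ / 16) with hδdef
    have hδ : 0 < δ := by positivity
    have hn : ((({QII.cQ, QII.cP} : Set QII)).ncard : ℝ) ≤ 4 := by
      have h1 := Set.ncard_insert_le QII.cQ {QII.cP}
      rw [Set.ncard_singleton] at h1
      have h2 : ({QII.cQ, QII.cP} : Set QII).ncard ≤ 4 := by omega
      exact_mod_cast h2
    have hsm : ((({QII.cQ, QII.cP} : Set QII)).ncard : ℝ) * A₀ * δ ≤ 1 / 2 := by
      refine le_trans ?_ hτ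
      exact mul_le_mul_of_nonneg_right (mul_le_mul_of_nonneg_right hn hA₀.le) hδ.le
    have hV : ∀ v : Bool, VC B.psII K κ Λ (if v then PC else QC) (if v then SPc else SQc) := by
      intro v
      cases v
      · exact P.vq.vc _
      · exact P.vp.vc _
    have hSn : ∀ p ∈ S5', p ∈ (if at5' p then SPc else SQc) ∧ p ∉ ({QII.cQ, QII.cP} : Set QII) := by
      rintro p (rfl | rfl | rfl | rfl | rfl)
      · exact ⟨Or.inr (Or.inr (Or.inr rfl)), by simp⟩
      · exact ⟨Or.inl rfl, by simp⟩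
      · exact ⟨Or.inl rfl, by simp⟩
      · exact ⟨Or.inr (Or.inl rfl), by simp⟩
      · exact ⟨Or.inr (Or.inr (Or.inl rfl)), by simp⟩
    have hcn : ∀ p ∈ S5', B.psII.c p ∈ (if at5' p then PC else QC) := by
      intro p hp
      rw [pm_CII6_c B p hp]
      rcases hp with rfl | rfl | rfl | rfl | rfl
      · exact pm_CII2_mem (A := AQc) (by decide) (by decide)
      · exact pm_CII2_mem (A := AQc) (by decide) (by decide)
      · exact pm_CII2_mem (A := APc) (by decide) (by decide)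
      · exact pm_CII2_mem (A := APc) (by decide) (by decide)
      · exact pm_CII2_mem (A := AQc) (by decide) (by decide)
    have hZ : ∀ v : Bool, ∀ p ∈ (if v then SPc else SQc), ∀ q ∈ (if v then SPc else SQc),
        Zs B.psII K κ Λ (if v then PC else QC) z s p q ≤
          ENNReal.ofReal (A₀ * Real.exp (s * ((fun _ : QII => (0 : ℝ)) p - (fun _ : QII => (0 : ℝ)) q))) := by
      intro v p hp q hq
      have h0 : A₀ * Real.exp (s * ((fun _ : QII => (0 : ℝ)) p - (fun _ : QII => (0 : ℝ)) q)) = A₀ := by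
        simp
      rw [h0]
      cases v
      · exact (hzq Λ z s hs hs').1 p hp q hq
      · exact (hzq Λ z s hs hs').2 p hp q hq
    have key := Z_glue (gh5' B) P.hκ.le (Λ := Λ) hΛ hV S5' hSn hcn (Set.toFinite _)
      (fun _ : QII => (0 : ℝ)) (fun _ _ => rfl) (A := A₀) (Ai := A₀) (δ := δ) hs0 hA₀.le hA₀.le hδ.le z
      hZ
      (by
        intro e he e' he' hat
        have hb := (gh5' B).hI e he
        have hb' := (gh5' B).hI _ hb.1
        have he2 := (gh5' B).hI e' he'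
        refine hZ (at5' e') _ ?_ _ he2.2
        rw [hat]
        exact hb'.2)
      (by
        intro e he
        have hb : τ₀ ≤ blII e z := by
          rcases he with rfl | rfl
          · exact hac.ge
          · exact hac.ge
        exact (hcr e z s (by linarith) hs).trans (ENNReal.ofReal_le_ofReal (pm_CI11_cross hC hτ₀ hb hs)))
      hsm hp hq
    refine key.trans (ENNReal.ofReal_le_ofReal ?_)
    obtain ⟨a1, a2⟩ := pm_CII6_amb (B := B) hK p hp
    obtain ⟨a3, a4⟩ := pm_CII6_amb (B := B) hK q hq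
    have hnum := pm_CII6_mulle a1 a2 a3 a4 hK hs' hA₀.le
      (Nat.cast_nonneg (({QII.cQ, QII.cP} : Set QII)).ncard) hδ.le hsm
    rw [sub_self, mul_zero, Real.exp_zero, mul_one]
    exact hnum

/-- `R` with weak loops; `c` bulged by `ac ∈ [0,τc]` without twist, or bulged by `τc` and twisted -/
theorem PkII.zR (P : PkII B K κ Φ) (s₁ : ℝ) :
    ∃ τc > (0 : ℝ), ∃ τ₀ > (0 : ℝ), ∃ A₁ > (0 : ℝ), ∀ z : ZII, τ₀ ≤ z.a 0 → τ₀ ≤ z.a 1 →
      ((0 ≤ z.ac ∧ z.ac ≤ τc ∧ z.tc = 0) ∨ z.ac = τc) → ∀ s : ℝ, 1 / 8 ≤ s → s ≤ s₁ →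
      ∀ Λ, LR' ⊆ Λ → Zs B.psII K κ Λ RG z s QII.dP2 QII.dP2 ≤ ENNReal.ofReal A₁ := by
  obtain ⟨A₀, hA₀, hz5⟩ := P.z5 s₁
  obtain ⟨τc, hτc, A₀', hA₀', hz5t⟩ := P.z5t s₁
  set A₂ : ℝ := A₀ * Real.exp (s₁ * τc) + A₀' with hA₂def
  have hA₂ : 0 < A₂ := by positivity
  obtain ⟨C, hC, hcr⟩ := crossII B
  obtain ⟨τ₀, hτ₀, hτ⟩ := pm_CI11_tau hA₂ hC (by norm_num : (0 : ℝ) < 4)
  have hK := P.hK
  have hK0 : (0 : ℝ) < K := by linarith
  have hLd : 0 < amb K B.Ld := by
    unfold amb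
    have := div_nonneg (mul_nonneg (by norm_num : (0 : ℝ) ≤ 2) (Real.log_nonneg hK)) B.hLd.le
    linarith
  refine ⟨τc, hτc, τ₀, hτ₀, amb K B.Ld * amb K B.Ld * K ^ (2 * s₁) * (2 * A₂), ?_, ?_⟩
  · have h1 : 0 < K ^ (2 * s₁) := Real.rpow_pos_of_pos hK0 _
    positivity
  · intro z ha0 ha1 hac s hs hs' Λ hΛ
    have hs0 : 0 ≤ s := by linarith
    set δ : ℝ := C * Real.exp (-τ₀ / 16) with hδdef
    have hδ : 0 < δ := by positivity
    have hcases : ∀ e ∈ ({QII.mp 0, QII.mm 0, QII.mp 1, QII.mm 1} : Set QII),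
        e = QII.mp 0 ∨ e = QII.mm 0 ∨ e = QII.mp 1 ∨ e = QII.mm 1 := fun e he => by simpa using he
    have hn : ((({QII.mp 0, QII.mm 0, QII.mp 1, QII.mm 1} : Set QII)).ncard : ℝ) ≤ 4 := by
      have h1 := Set.ncard_insert_le (QII.mp 0) {QII.mm 0, QII.mp 1, QII.mm 1}
      have h2 := Set.ncard_insert_le (QII.mm 0) {QII.mp 1, QII.mm 1}
      have h3 := Set.ncard_insert_le (QII.mp 1) {QII.mm 1}
      rw [Set.ncard_singleton] at h3
      have h4 : ({QII.mp 0, QII.mm 0, QII.mp 1, QII.mm 1} : Set QII).ncard ≤ 4 := by omega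
      exact_mod_cast h4
    have hsm : ((({QII.mp 0, QII.mm 0, QII.mp 1, QII.mm 1} : Set QII)).ncard : ℝ) * A₂ * δ ≤ 1 / 2 := by
      refine le_trans ?_ hτ
      exact mul_le_mul_of_nonneg_right (mul_le_mul_of_nonneg_right hn hA₂.le) hδ.le
    have hIΛ : ({QII.mp 0, QII.mm 0, QII.mp 1, QII.mm 1} : Set QII) ⊆ Λ := by
      intro e he
      apply hΛ
      rcases hcases e he with rfl | rfl | rfl | rfl <;> simp [LR']
    have hcΛ : ({QII.cQ, QII.cP} : Set QII) ⊆ Λ := by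
      intro e he
      apply hΛ
      rcases he with rfl | rfl <;> simp [LR']
    have hIS : ∀ e ∈ ({QII.mp 0, QII.mm 0, QII.mp 1, QII.mm 1} : Set QII), e ∈ S5' := by
      intro e he
      rcases hcases e he with rfl | rfl | rfl | rfl <;> simp [S5']
    have hbar : ∀ e ∈ ({QII.mp 0, QII.mm 0, QII.mp 1, QII.mm 1} : Set QII),
        B.psII.bar e ∈ ({QII.mp 0, QII.mm 0, QII.mp 1, QII.mm 1} : Set QII) := by
      intro e he
      rcases hcases e he with rfl | rfl | rfl | rfl <;> simp [Base.psII, Base.barII]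
    have hV : VC B.psII K κ Λ V5 S5' :=
      VC.mono le_rfl le_rfl hcΛ (Set.Subset.refl _) P.v5.1
    have hZ : ∀ p ∈ S5', ∀ q ∈ S5', Zs B.psII K κ Λ V5 z s p q ≤
        ENNReal.ofReal (A₂ * Real.exp (s * ((fun _ : QII => (0 : ℝ)) p - (fun _ : QII => (0 : ℝ)) q))) := by
      intro p hp q hq
      have h0 : A₂ * Real.exp (s * ((fun _ : QII => (0 : ℝ)) p - (fun _ : QII => (0 : ℝ)) q)) = A₂ := by
        simp
      rw [h0]
      rcases hac with ⟨hac0, hac1, htc⟩ | hac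
      · refine (hz5 Λ z s htc hs hs' p hp q hq).trans (ENNReal.ofReal_le_ofReal ?_)
        have h1 : (if at5' p then z.ac else 0) - (if at5' q then z.ac else 0) ≤ τc := by
          split_ifs <;> linarith
        have h2 : s * ((if at5' p then z.ac else 0) - (if at5' q then z.ac else 0)) ≤ s₁ * τc :=
          (mul_le_mul_of_nonneg_left h1 hs0).trans (mul_le_mul_of_nonneg_right hs' hτc.le)
        have h3 := mul_le_mul_of_nonneg_left (Real.exp_le_exp.2 h2) hA₀.le
        rw [hA₂def]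
        linarith
      · refine (hz5t Λ z s hcΛ hac hs hs' p hp q hq).trans (ENNReal.ofReal_le_ofReal ?_)
        have : 0 < A₀ * Real.exp (s₁ * τc) := by positivity
        rw [hA₂def]
        linarith
    have key := Z_glue (ghR' B) P.hκ.le (Λ := Λ) hIΛ (fun _ => hV) {QII.dP2}
      (by
        intro p hp
        rw [Set.mem_singleton_iff] at hp
        subst hp
        constructor
        · simp [S5']
        · simp)
      (by
        intro p hp
        rw [Set.mem_singleton_iff] at hp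
        subst hp
        rw [pm_CII6_c B QII.dP2 (by simp [S5'])]
        exact pm_CII2_mem (by decide) (by decide))
      (Set.toFinite _) (fun _ : QII => (0 : ℝ)) (fun _ _ => rfl)
      (A := A₂) (Ai := A₂) (δ := δ) hs0 hA₂.le hA₂.le hδ.le z
      (fun _ p hp q hq => hZ p hp q hq)
      (fun e he e' he' _ => hZ _ (hIS _ (hbar e he)) _ (hIS e' he'))
      (by
        intro e he
        have hb : τ₀ ≤ blII e z := by
          rcases hcases e he with rfl | rfl | rfl | rfl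
          · exact ha0
          · exact ha0
          · exact ha1
          · exact ha1
        exact (hcr e z s (by linarith) hs).trans (ENNReal.ofReal_le_ofReal (pm_CI11_cross hC hτ₀ hb hs)))
      hsm (p := QII.dP2) (q := QII.dP2) rfl rfl
    refine key.trans (ENNReal.ofReal_le_ofReal ?_)
    have hnum := pm_CI11_num (a := amb K B.Ld) hK hs' hA₂.le hsm
    have hL : B.psII.L QII.dP2 = B.Ld := rfl
    rw [hL, sub_self, mul_zero, Real.exp_zero, mul_one]
    exact hnum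

end

end

end PM3
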