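import Mathlib

/-! Definitions for MP_e3d6d5_gt: pressure metric on the Hitchin component `H_3(S)`, genus 3. -/

namespace PM3
open Matrix Filter Topology MeasureTheory
open scoped MatrixGroups

noncomputable section

/-- 2 x 2 and 3 x 3 real matrices -/
abbrev M2 := Matrix (Fin 2) (Fin 2) ℝ
abbrev M3 := Matrix (Fin 3) (Fin 3) ℝ

/-- generators `x_0, x_1, x_2, y_0, y_1, y_2` of the fundamental group -/
inductive Gen : Type
  | x (i : Fin 3) : Gen
  | y (i : Fin 3) : Gen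
  deriving DecidableEq

/-- the commutator `[a,b] = a b a⁻¹ b⁻¹` -/
def com {G : Type*} [Group G] (a b : G) : G := a * b * a⁻¹ * b⁻¹

/-- the relator `[x_0,y_0][x_1,y_1][x_2,y_2]` -/
def relator : FreeGroup Gen :=
  com (FreeGroup.of (Gen.x 0)) (FreeGroup.of (Gen.y 0)) *
  com (FreeGroup.of (Gen.x 1)) (FreeGroup.of (Gen.y 1)) *
  com (FreeGroup.of (Gen.x 2)) (FreeGroup.of (Gen.y 2))

/-- the fundamental group of the closed oriented surface of genus 3 -/
abbrev Surf : Type := PresentedGroup ({relator} : Set (FreeGroup Gen))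

def sx (i : Fin 3) : Surf := PresentedGroup.of (Gen.x i)
def sy (i : Fin 3) : Surf := PresentedGroup.of (Gen.y i)

/-- representations into `SL(3,ℝ) = PSL(3,ℝ)` -/
abbrev Rep : Type := Surf →* SL(3, ℝ)

/-- topology of pointwise convergence -/
instance : TopologicalSpace Rep := TopologicalSpace.induced (fun ρ (γ : Surf) => ρ γ) Pi.topologicalSpace

/-- entries of the second symmetric power of a 2 x 2 matrix -/
def symMat (A : M2) : M3 :=
  !![A 0 0 * A 0 0, 2 * (A 0 0 * A 0 1), A 0 1 * A 0 1;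
     A 0 0 * A 1 0, A 0 0 * A 1 1 + A 0 1 * A 1 0, A 0 1 * A 1 1;
     A 1 0 * A 1 0, 2 * (A 1 0 * A 1 1), A 1 1 * A 1 1]

theorem symMat_mul (A B : M2) : symMat (A * B) = symMat A * symMat B := by
  ext i j
  fin_cases i <;> fin_cases j <;>
    simp [symMat, Matrix.mul_apply, Fin.sum_univ_two, Fin.sum_univ_three] <;> ring

theorem symMat_one : symMat 1 = 1 := by
  ext i j
  fin_cases i <;> fin_cases j <;> simp [symMat]

theorem symMat_det (A : M2) : (symMat A).det = A.det ^ 3 := by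
  simp [symMat, Matrix.det_fin_three, Matrix.det_fin_two]; ring

/-- the irreducible representation `ι_3 : SL(2,ℝ) → SL(3,ℝ)` -/
def irr : SL(2, ℝ) →* SL(3, ℝ) where
  toFun A := ⟨symMat A.1, by rw [symMat_det, A.2]; norm_num⟩
  map_one' := Subtype.ext symMat_one
  map_mul' A B := Subtype.ext (symMat_mul A.1 B.1)

/-- `ρ₀` is faithful and discrete as a representation into `PSL(2,ℝ)` -/
def IsFuchsian (ρ₀ : Surf →* SL(2, ℝ)) : Prop :=
  ∃ U ∈ 𝓝 (1 : SL(2, ℝ)), ∀ γ, (ρ₀ γ ∈ U ∨ -ρ₀ γ ∈ U) → γ = 1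

/-- the Hitchin component, as a set of representations -/
def Hit : Set Rep :=
  {ρ | ∃ ρ₀ : Surf →* SL(2, ℝ), IsFuchsian ρ₀ ∧ ρ ∈ connectedComponent (irr.comp ρ₀ : Rep)}

/-- spectral radius of a real 3 x 3 matrix -/
def lam (A : M3) : ℝ := (spectralRadius ℂ (A.map (fun r : ℝ => (r : ℂ)))).toReal

/-- `ℓ_ρ(γ)`: logarithm of the spectral radius -/
def ell (ρ : Rep) (γ : Surf) : ℝ := Real.log (lam (ρ γ : M3))

/-- `ℓ_ρ` of a conjugacy class -/
def ellC (ρ : Rep) (κ : ConjClasses Surf) : ℝ := ell ρ (Quotient.out κ)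

/-- `R_T(ρ)`: nontrivial conjugacy classes of length at most `T` -/
def RT (ρ : Rep) (T : ℝ) : Set (ConjClasses Surf) := {κ | κ ≠ 1 ∧ ellC ρ κ ≤ T}

/-- entropy -/
def ent (ρ : Rep) : ℝ := limsup (fun T : ℝ => Real.log ((RT ρ T).ncard) / T) atTop

/-- intersection `I(ρ,σ)` -/
def inter (ρ σ : Rep) : ℝ :=
  limsup (fun T : ℝ => (∑ᶠ κ ∈ RT ρ T, ellC σ κ / ellC ρ κ) / ((RT ρ T).ncard : ℝ)) atTop

/-- renormalised intersection `J(ρ,σ)` -/
def renJ (ρ σ : Rep) : ℝ := ent σ / ent ρ * inter ρ σ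

/-- the squared pressure speed of a path at time `t`: the second derivative of
`s ↦ J(c(t),c(s))` at `s = t` (recall `J ≥ 1 = J(ρ,ρ)`) -/
def speedSq (c : ℝ → Rep) (t : ℝ) : ENNReal :=
  limsup (fun s : ℝ => ENNReal.ofReal (2 * (renJ (c t) (c s) - 1) / (s - t) ^ 2)) (𝓝[≠] t)

/-- the pressure length of the path `c` over `[a,b]` -/
def len (c : ℝ → Rep) (a b : ℝ) : ENNReal := ∫⁻ t in Set.Icc a b, (speedSq c t) ^ ((1 : ℝ) / 2)

/-- smooth paths of representations -/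
def SmoothPath (c : ℝ → Rep) : Prop :=
  ∀ γ i j, ContDiff ℝ (⊤ : ℕ∞) (fun t => (c t γ : M3) i j)

/-- `Reach ρ σ L`: the classes of `ρ` and `σ` are joined by a piecewise smooth path of length `L`
in the Hitchin component -/
inductive Reach : Rep → Rep → ENNReal → Prop
  | conj (ρ : Rep) (g : SL(3, ℝ)) : Reach ρ ((MulAut.conj g).toMonoidHom.comp ρ) 0
  | path (c : ℝ → Rep) (a b : ℝ) (hab : a ≤ b) (hc : SmoothPath c)
      (hH : ∀ t ∈ Set.Icc a b, c t ∈ Hit) : Reach (c a) (c b) (len c a b)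
  | trans {ρ σ τ : Rep} {L L' : ENNReal} : Reach ρ σ L → Reach σ τ L' → Reach ρ τ (L + L')

/-- the pressure distance between the classes of two representations -/
def dP (ρ σ : Rep) : ENNReal := sInf {L | Reach ρ σ L}

/-- the action of an automorphism: `φ·ρ = ρ ∘ φ⁻¹` -/
def act (φ : MulAut Surf) (ρ : Rep) : Rep := ρ.comp (φ⁻¹ : MulAut Surf).toMonoidHom

/-- Dehn twist along `x_i` -/
def IsTwX (i : Fin 3) (f : MulAut Surf) : Prop :=
  (∀ j, f (sx j) = sx j) ∧ (∀ j, j ≠ i → f (sy j) = sy j) ∧ f (sy i) = sy i * sx i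

/-- Dehn twist along `y_i` -/
def IsTwY (i : Fin 3) (f : MulAut Surf) : Prop :=
  (∀ j, f (sy j) = sy j) ∧ (∀ j, j ≠ i → f (sx j) = sx j) ∧ f (sx i) = sx i * sy i

/-- the curve `c_i = y_i x_i⁻¹ y_i⁻¹ x_{i+1}` -/
def cc (i : Fin 3) : Surf := sy i * (sx i)⁻¹ * (sy i)⁻¹ * sx (i + 1)

/-- Dehn twist along `c_i`, linking the handles `i` and `i+1` -/
def IsTwC (i : Fin 3) (f : MulAut Surf) : Prop :=
  f (sx i) = sx i ∧ f (sy i) = cc i * sy i ∧
  f (sx (i + 1)) = cc i * sx (i + 1) * (cc i)⁻¹ ∧ f (sy (i + 1)) = sy (i + 1) * (cc i)⁻¹ ∧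
  ∀ j, j ≠ i → j ≠ i + 1 → f (sx j) = sx j ∧ f (sy j) = sy j

/-- the group generated by inner automorphisms and the Lickorish twists; by Lickorish and
Dehn-Nielsen-Baer its image in `Out` is the mapping class group `Mod(S)` -/
def mcg : Subgroup (MulAut Surf) :=
  Subgroup.closure {f | (∃ g, f = MulAut.conj g) ∨ (∃ i, IsTwX i f) ∨ (∃ i, IsTwY i f) ∨
    IsTwC 0 f ∨ IsTwC 1 f}

/-- translation length `τ_3(φ)` on the Hitchin component with the pressure metric -/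
def tau (φ : MulAut Surf) : ENNReal := ⨅ ρ ∈ Hit, dP ρ (act φ ρ)

end

end PM3
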