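import Pool.Agent.LibPM3.Base
import Pool.Agent.LibPM3.Bridge

/-! Family I: bulges `t i` along the `d_i`, bulges `a i` and twists `th i` along the loops of the handles. -/

namespace PM3
open Matrix Filter Topology
open scoped MatrixGroups

noncomputable section

theorem pm_FamIA_prod (a ϑ : ℝ) : ∏ i, dgv a ϑ i = 1 := by
  rw [Fin.prod_univ_three]
  simp only [dgv, Matrix.cons_val_zero, Matrix.cons_val_one, Matrix.cons_val]
  rw [← Real.exp_add, ← Real.exp_add, Real.exp_eq_one_iff]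
  ring

theorem pm_FamIA_cj_det {f : M2} (hf : f.det = 1) (a ϑ : ℝ) : (cj f (dgv a ϑ)).det = 1 := by
  have hu : IsUnit (symMat f) := by
    rw [Matrix.isUnit_iff_isUnit_det, symMat_det, hf, one_pow]
    exact isUnit_one
  unfold cj
  rw [Matrix.det_conj hu, Matrix.det_diagonal, pm_FamIA_prod]

theorem pm_FamIA_eg (L : ℝ) : symMat (eg L) = diagonal ![Real.exp (-L), 1, Real.exp L] := by
  have h1 : Real.exp (-(L / 2)) * Real.exp (-(L / 2)) = Real.exp (-L) := by
    rw [← Real.exp_add]; congr 1; ring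
  have h2 : Real.exp (-(L / 2)) * Real.exp (L / 2) = 1 := by
    rw [← Real.exp_add, Real.exp_eq_one_iff]; ring
  have h3 : Real.exp (L / 2) * Real.exp (L / 2) = Real.exp L := by
    rw [← Real.exp_add]; congr 1; ring
  ext i j
  fin_cases i <;> fin_cases j <;> simp [symMat, eg, h1, h2, h3]

/-- the conjugated diagonals commute with the boundary element -/
theorem pm_FamIA_comm {A f : M2} (hf : f.det = 1) {L : ℝ} (h : A * f = f * eg L) (d : Fin 3 → ℝ) :
    symMat A * cj f d = cj f d * symMat A := by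
  have hu : IsUnit (symMat f).det := by
    rw [symMat_det, hf, one_pow]
    exact isUnit_one
  have h1 : symMat A * symMat f = symMat f * diagonal ![Real.exp (-L), 1, Real.exp L] := by
    rw [← symMat_mul, h, symMat_mul, pm_FamIA_eg]
  have h2 : (symMat f)⁻¹ * symMat A = diagonal ![Real.exp (-L), 1, Real.exp L] * (symMat f)⁻¹ := by
    calc (symMat f)⁻¹ * symMat A = (symMat f)⁻¹ * (symMat A * symMat f) * (symMat f)⁻¹ := by
          rw [Matrix.mul_assoc, Matrix.mul_assoc, Matrix.mul_nonsing_inv _ hu, Matrix.mul_one]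
      _ = (symMat f)⁻¹ * (symMat f * diagonal ![Real.exp (-L), 1, Real.exp L]) * (symMat f)⁻¹ := by
          rw [h1]
      _ = _ := by
          rw [← Matrix.mul_assoc (symMat f)⁻¹, Matrix.nonsing_inv_mul _ hu, Matrix.one_mul]
  unfold cj
  calc symMat A * (symMat f * diagonal d * (symMat f)⁻¹)
      = (symMat A * symMat f) * diagonal d * (symMat f)⁻¹ := by simp only [Matrix.mul_assoc]
    _ = symMat f * (diagonal ![Real.exp (-L), 1, Real.exp L] * diagonal d) * (symMat f)⁻¹ := by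
        rw [h1]; simp only [Matrix.mul_assoc]
    _ = symMat f * (diagonal d * diagonal ![Real.exp (-L), 1, Real.exp L]) * (symMat f)⁻¹ := by
        rw [Matrix.diagonal_mul_diagonal, Matrix.diagonal_mul_diagonal]
        simp only [mul_comm]
    _ = symMat f * diagonal d * (diagonal ![Real.exp (-L), 1, Real.exp L] * (symMat f)⁻¹) := by
        simp only [Matrix.mul_assoc]
    _ = symMat f * diagonal d * ((symMat f)⁻¹ * symMat A) := by rw [h2]
    _ = symMat f * diagonal d * (symMat f)⁻¹ * symMat A := by simp only [Matrix.mul_assoc]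

theorem pm_FamIA_com (A B : SL(3, ℝ)) (C : M3) (h : A.1 * B.1 = C * (B.1 * A.1)) :
    (com A B : SL(3, ℝ)).1 = C := by
  have e1 : (com A B : SL(3, ℝ)).1 = (A.1 * B.1) * ((A⁻¹ * B⁻¹ : SL(3, ℝ))).1 := by
    have : com A B = (A * B) * (A⁻¹ * B⁻¹) := by unfold com; group
    rw [this]
    rfl
  have e2 : (B.1 * A.1) * ((A⁻¹ * B⁻¹ : SL(3, ℝ))).1 = 1 := by
    have : (B * A) * (A⁻¹ * B⁻¹) = (1 : SL(3, ℝ)) := by group
    have h3 := congrArg Subtype.val this
    exact h3
  rw [e1, h, Matrix.mul_assoc, e2, Matrix.mul_one]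

theorem pm_FamIA_posD_invr {d : Fin 3 → ℝ} (h : PosD d) : PosD (invr d) := by
  obtain ⟨h1, h2⟩ := h
  have a0 := h1 0
  have a1 := h1 1
  have a2 := h1 2
  refine ⟨?_, ?_⟩
  · intro i
    fin_cases i <;> simp [invr] <;> assumption
  · simp only [invr, Matrix.cons_val_zero, Matrix.cons_val_one, Matrix.cons_val]
    rw [← mul_inv, ← mul_inv]
    have : d 2 * d 1 * d 0 = 1 := by rw [← h2]; ring
    rw [this, inv_one]

theorem pm_FamIA_posD_revd {d : Fin 3 → ℝ} (h : PosD d) : PosD (revd d) := by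
  obtain ⟨h1, h2⟩ := h
  have a0 := h1 0
  have a1 := h1 1
  have a2 := h1 2
  refine ⟨?_, ?_⟩
  · intro i
    fin_cases i <;> simp [revd] <;> assumption
  · simp only [revd, Matrix.cons_val_zero, Matrix.cons_val_one, Matrix.cons_val]
    rw [← h2]; ring

theorem pm_FamIA_posD {q a ϑ : ℝ} (hq : q ≠ 0) :
    PosD ![q ^ 2 * Real.exp (a - ϑ), Real.exp (-(2 * a)), (q ^ 2)⁻¹ * Real.exp (a + ϑ)] := by
  have hq2 : 0 < q ^ 2 := by positivity
  refine ⟨?_, ?_⟩
  · intro i
    fin_cases i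
    · simp only [Fin.zero_eta, Matrix.cons_val_zero]; positivity
    · simp only [Fin.mk_one, Matrix.cons_val_one, Matrix.cons_val_zero]; positivity
    · simp only [Fin.reduceFinMk, Matrix.cons_val]; positivity
  · simp only [Matrix.cons_val_zero, Matrix.cons_val_one, Matrix.cons_val]
    have e : Real.exp (a - ϑ) * Real.exp (-(2 * a)) * Real.exp (a + ϑ) = 1 := by
      rw [← Real.exp_add, ← Real.exp_add, Real.exp_eq_one_iff]
      ring
    calc q ^ 2 * Real.exp (a - ϑ) * Real.exp (-(2 * a)) * ((q ^ 2)⁻¹ * Real.exp (a + ϑ))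
        = (q ^ 2 * (q ^ 2)⁻¹) * (Real.exp (a - ϑ) * Real.exp (-(2 * a)) * Real.exp (a + ϑ)) := by ring
      _ = 1 := by rw [e, mul_inv_cancel₀ hq2.ne', mul_one]

theorem pm_FamIB_diag_J3 (d : Fin 3 → ℝ) : diagonal d * J3 = J3 * diagonal (revd d) := by
  ext i j
  fin_cases i <;> fin_cases j <;>
    simp [J3, revd, Matrix.mul_apply, Fin.sum_univ_three, Matrix.diagonal]

theorem pm_FamIB_diag_P3 (d : Fin 3 → ℝ) : diagonal d * P3 = P3 * diagonal (revd d) := by
  ext i j
  fin_cases i <;> fin_cases j <;>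
    simp [P3, revd, Matrix.mul_apply, Fin.sum_univ_three, Matrix.diagonal]

theorem pm_FamIB_J3_P3 : J3 * P3 = P3 * J3 := by
  ext i j
  fin_cases i <;> fin_cases j <;>
    simp [J3, P3, Matrix.mul_apply, Fin.sum_univ_three]

theorem pm_FamIB_symJ : symMat J2 = J3 := by
  ext i j
  fin_cases i <;> fin_cases j <;> simp [J2, J3, symMat]

theorem pm_FamIB_Cd1 (L : ℝ) : Cd L 1 = diagonal ![Real.exp (-L), 1, Real.exp L] := by
  unfold Cd
  norm_num

theorem pm_FamIB_Cd_cancel (L : ℝ) : Cd L 1 * Cd L (-1) = 1 := by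
  rw [← Cd_add]
  unfold Cd
  ext i j
  fin_cases i <;> fin_cases j <;> simp [Matrix.diagonal]

theorem pm_FamIB_Cd_cancel' (L : ℝ) : Cd L (-1) * Cd L 1 = 1 := by
  rw [← Cd_add]
  unfold Cd
  ext i j
  fin_cases i <;> fin_cases j <;> simp [Matrix.diagonal]

theorem pm_FamIB_Cd_P3 (L : ℝ) : Cd L (-1) * P3 = P3 * Cd L 1 := by
  unfold Cd
  rw [pm_FamIB_diag_P3]
  congr 2
  funext i
  fin_cases i <;> simp [revd]

theorem pm_FamIB_Cd_P3' (L : ℝ) : Cd L 1 * P3 = P3 * Cd L (-1) := by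
  unfold Cd
  rw [pm_FamIB_diag_P3]
  congr 2
  funext i
  fin_cases i <;> simp [revd]

theorem pm_FamIB_Cd_J3 (L : ℝ) : Cd L (-1) * J3 = J3 * Cd L 1 := by
  unfold Cd
  rw [pm_FamIB_diag_J3]
  congr 2
  funext i
  fin_cases i <;> simp [revd]

theorem pm_FamIB_Cd_J3' (L : ℝ) : Cd L 1 * J3 = J3 * Cd L (-1) := by
  unfold Cd
  rw [pm_FamIB_diag_J3]
  congr 2
  funext i
  fin_cases i <;> simp [revd]

theorem pm_FamIB_eig {A f : M2} {L : ℝ} (h : A * f = f * eg L) :
    symMat A * symMat f = symMat f * Cd L 1 := by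
  rw [← symMat_mul, h, symMat_mul, pm_FamIA_eg, pm_FamIB_Cd1]

theorem pm_FamIB_eig_inv {A A' f : M2} {L : ℝ} (h : A * f = f * eg L) (hA : A' * A = 1) :
    symMat A' * symMat f = symMat f * Cd L (-1) := by
  have h1 := pm_FamIB_eig h
  calc symMat A' * symMat f = symMat A' * (symMat f * (Cd L 1 * Cd L (-1))) := by
        rw [pm_FamIB_Cd_cancel, Matrix.mul_one]
    _ = symMat A' * (symMat f * Cd L 1) * Cd L (-1) := by simp only [Matrix.mul_assoc]
    _ = (symMat A' * symMat A) * symMat f * Cd L (-1) := by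
        rw [← h1]; simp only [Matrix.mul_assoc]
    _ = symMat f * Cd L (-1) := by
        rw [← symMat_mul, hA, symMat_one, Matrix.one_mul]

/-- intertwining of an inverse -/
theorem pm_FamIB_inv (A : SL(3, ℝ)) {F C C' : M3} (h : A.1 * F = F * C) (hC : C * C' = 1) :
    (A⁻¹ : SL(3, ℝ)).1 * F = F * C' := by
  have e : (A⁻¹ : SL(3, ℝ)).1 * A.1 = 1 := by
    have : (A⁻¹ * A : SL(3, ℝ)) = 1 := inv_mul_cancel A
    exact congrArg Subtype.val this
  calc (A⁻¹ : SL(3, ℝ)).1 * F = (A⁻¹ : SL(3, ℝ)).1 * (F * (C * C')) := by rw [hC, Matrix.mul_one]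
    _ = (A⁻¹ : SL(3, ℝ)).1 * (F * C) * C' := by simp only [Matrix.mul_assoc]
    _ = ((A⁻¹ : SL(3, ℝ)).1 * A.1) * F * C' := by rw [← h]; simp only [Matrix.mul_assoc]
    _ = F * C' := by rw [e, Matrix.one_mul]

theorem pm_FamIB_mul {A B : SL(3, ℝ)} {F C D : M3} (hA : A.1 * F = F * C) (hB : B.1 * F = F * D) :
    (A * B : SL(3, ℝ)).1 * F = F * (C * D) := by
  have e : (A * B : SL(3, ℝ)).1 = A.1 * B.1 := rfl
  rw [e, Matrix.mul_assoc, hB, ← Matrix.mul_assoc, hA, Matrix.mul_assoc]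

/-- the gluing relation for the inverse -/
theorem pm_FamIB_glue_inv (A : SL(3, ℝ)) {F F' : M3} {d : Fin 3 → ℝ} (hd : PosD d)
    (h : A.1 * F' = F * J3 * diagonal d) : (A⁻¹ : SL(3, ℝ)).1 * F = F' * J3 * diagonal (invr d) := by
  have e : (A⁻¹ : SL(3, ℝ)).1 * A.1 = 1 := by
    have : (A⁻¹ * A : SL(3, ℝ)) = 1 := inv_mul_cancel A
    exact congrArg Subtype.val this
  have h1 : F' = (A⁻¹ : SL(3, ℝ)).1 * (F * J3 * diagonal d) := by
    rw [← h, ← Matrix.mul_assoc, e, Matrix.one_mul]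
  have h2 : J3 * diagonal d * J3 * diagonal (invr d) = 1 := by
    rw [Matrix.mul_assoc J3, pm_FamIB_diag_J3, ← Matrix.mul_assoc J3 J3, J3_mul_J3, Matrix.one_mul,
      Matrix.diagonal_mul_diagonal, ← Matrix.diagonal_one]
    congr 1
    funext i
    have a0 := (hd.1 0).ne'
    have a1 := (hd.1 1).ne'
    have a2 := (hd.1 2).ne'
    fin_cases i
    · simp [revd, invr, a2]
    · simp [revd, invr, a1]
    · simp [revd, invr, a0]
  rw [h1]
  calc (A⁻¹ : SL(3, ℝ)).1 * F = (A⁻¹ : SL(3, ℝ)).1 * (F * 1) := by rw [Matrix.mul_one]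
    _ = (A⁻¹ : SL(3, ℝ)).1 * (F * (J3 * diagonal d * J3 * diagonal (invr d))) := by rw [h2]
    _ = _ := by simp only [Matrix.mul_assoc]

theorem pm_FamIB_invr_invr (d : Fin 3 → ℝ) : invr (invr d) = d := by
  funext i
  fin_cases i <;> simp [invr]

/-- `cj f d * symMat f = symMat f * diagonal d` -/
theorem pm_FamIB_cj {f : M2} (hf : f.det = 1) (d : Fin 3 → ℝ) :
    cj f d * symMat f = symMat f * diagonal d := by
  have hu : IsUnit (symMat f).det := by
    rw [symMat_det, hf, one_pow]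
    exact isUnit_one
  unfold cj
  rw [Matrix.mul_assoc, Matrix.nonsing_inv_mul _ hu, Matrix.mul_one]

/-- parameters of family I -/
structure ZI : Type where
  t : Fin 3 → ℝ
  a : Fin 3 → ℝ
  th : Fin 3 → ℝ

namespace Base
variable (B : Base) (b : Fin 3 → Bool) (z : ZI)

/-- bulge along `d_i` -/
def Zb (i : Fin 3) : M3 := cj (B.fd i) (dgv (z.t i) 0)

/-- bulge and twist in the centraliser of `X_i` -/
def Dm (i : Fin 3) (a th : ℝ) : M3 := cj (B.fp i) (dgv a (-(th * B.Lm)))

def hX (i : Fin 3) : M3 := symMat (B.X i)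
def hY (i : Fin 3) (a th : ℝ) : M3 := symMat (B.Y i) * B.Dm i a th

/-- conjugating matrix of the handle `i` -/
def gI (i : Fin 3) : M3 := B.Zb z i * (if b i then symMat (B.sw i) else 1)

def mX (i : Fin 3) : M3 :=
  B.gI b z i * (if b i then B.hY i (z.a i) (z.th i) else B.hX i) * (B.gI b z i)⁻¹

def mY (i : Fin 3) : M3 :=
  B.gI b z i * (if b i then B.hX i else B.hY i (z.a i) (z.th i)) * (B.gI b z i)⁻¹

theorem pm_FamIA_Zb_det (i : Fin 3) : (B.Zb z i).det = 1 :=
  pm_FamIA_cj_det (B.fd_det i) _ _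

theorem pm_FamIA_Dm_det (i : Fin 3) (a th : ℝ) : (B.Dm i a th).det = 1 :=
  pm_FamIA_cj_det (B.fp_det i) _ _

theorem pm_FamIA_hX_det (i : Fin 3) : (B.hX i).det = 1 := by
  unfold hX
  rw [symMat_det, B.X_det, one_pow]

theorem pm_FamIA_hY_det (i : Fin 3) (a th : ℝ) : (B.hY i a th).det = 1 := by
  unfold hY
  rw [Matrix.det_mul, symMat_det, B.Y_det, one_pow, one_mul, B.pm_FamIA_Dm_det]

theorem pm_FamIA_gI_det (i : Fin 3) : (B.gI b z i).det ≠ 0 := by
  unfold gI
  rw [Matrix.det_mul, B.pm_FamIA_Zb_det, one_mul]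
  split_ifs
  · rw [symMat_det, B.sw_det]
    norm_num
  · rw [Matrix.det_one]
    norm_num

theorem pm_FamIA_gI_unit (i : Fin 3) : IsUnit (B.gI b z i).det :=
  isUnit_iff_ne_zero.mpr (B.pm_FamIA_gI_det b z i)

/-- `X` commutes with the diagonal of the loop -/
theorem pm_FamIA_XD (i : Fin 3) (a th : ℝ) : B.hX i * B.Dm i a th = B.Dm i a th * B.hX i :=
  pm_FamIA_comm (B.fp_det i) (B.fp_eig i) _

/-- the boundary element commutes with the bulge -/
theorem pm_FamIA_SZ (i : Fin 3) : symMat (B.R (l0 i) * B.R (l2 i)) * B.Zb z i =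
    B.Zb z i * symMat (B.R (l0 i) * B.R (l2 i)) :=
  pm_FamIA_comm (B.fd_det i) (B.fd_eig i) _

/-- `X Y = (R R) Y X` -/
theorem pm_FamIA_XY (i : Fin 3) : B.X i * B.Y i = B.R (l0 i) * B.R (l2 i) * (B.Y i * B.X i) := by
  have hx : IsUnit (B.X i).det := by rw [B.X_det]; exact isUnit_one
  have hy : IsUnit (B.Y i).det := by rw [B.Y_det]; exact isUnit_one
  rw [← B.com_XY i]
  calc B.X i * B.Y i = B.X i * B.Y i * (B.X i)⁻¹ * 1 * B.X i := by
        rw [Matrix.mul_one, Matrix.mul_assoc _ (B.X i)⁻¹, Matrix.nonsing_inv_mul _ hx, Matrix.mul_one]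
    _ = B.X i * B.Y i * (B.X i)⁻¹ * ((B.Y i)⁻¹ * B.Y i) * B.X i := by
        rw [Matrix.nonsing_inv_mul _ hy]
    _ = _ := by simp only [Matrix.mul_assoc]

/-- commutator relation in the frame of the handle, both types -/
theorem pm_FamIA_key (i : Fin 3) :
    B.gI b z i * ((if b i then B.hY i (z.a i) (z.th i) else B.hX i) *
      (if b i then B.hX i else B.hY i (z.a i) (z.th i))) =
    symMat (B.R (l0 i) * B.R (l2 i)) * (B.gI b z i *
      ((if b i then B.hX i else B.hY i (z.a i) (z.th i)) *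
      (if b i then B.hY i (z.a i) (z.th i) else B.hX i))) := by
  have hXY : symMat (B.X i) * symMat (B.Y i) =
      symMat (B.R (l0 i) * B.R (l2 i)) * (symMat (B.Y i) * symMat (B.X i)) := by
    rw [← symMat_mul, B.pm_FamIA_XY i, symMat_mul, symMat_mul (B.Y i)]
  have hSZ := B.pm_FamIA_SZ z i
  have hXD := B.pm_FamIA_XD i (z.a i) (z.th i)
  unfold hX at hXD
  unfold gI hX hY
  cases hb : b i
  · simp only [Bool.false_eq_true, if_false, Matrix.mul_one]
    calc B.Zb z i * (symMat (B.X i) * (symMat (B.Y i) * B.Dm i (z.a i) (z.th i)))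
        = B.Zb z i * ((symMat (B.X i) * symMat (B.Y i)) * B.Dm i (z.a i) (z.th i)) := by
          simp only [Matrix.mul_assoc]
      _ = B.Zb z i * (symMat (B.R (l0 i) * B.R (l2 i)) * (symMat (B.Y i) *
            (symMat (B.X i) * B.Dm i (z.a i) (z.th i)))) := by
          rw [hXY]; simp only [Matrix.mul_assoc]
      _ = (B.Zb z i * symMat (B.R (l0 i) * B.R (l2 i))) * (symMat (B.Y i) *
            (B.Dm i (z.a i) (z.th i) * symMat (B.X i))) := by
          rw [hXD]; simp only [Matrix.mul_assoc]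
      _ = (symMat (B.R (l0 i) * B.R (l2 i)) * B.Zb z i) * (symMat (B.Y i) *
            (B.Dm i (z.a i) (z.th i) * symMat (B.X i))) := by
          rw [hSZ]
      _ = _ := by simp only [Matrix.mul_assoc]
  · simp only [if_true]
    have hsX : symMat (B.sw i) * symMat (B.X i) = symMat (B.Y i) * symMat (B.sw i) := by
      rw [← symMat_mul, B.sw_X, symMat_mul]
    have hsY : symMat (B.sw i) * symMat (B.Y i) = symMat (B.X i) * symMat (B.sw i) := by
      rw [← symMat_mul, B.sw_Y, symMat_mul]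
    calc B.Zb z i * symMat (B.sw i) * (symMat (B.Y i) * B.Dm i (z.a i) (z.th i) * symMat (B.X i))
        = B.Zb z i * (symMat (B.sw i) * symMat (B.Y i)) *
            (B.Dm i (z.a i) (z.th i) * symMat (B.X i)) := by simp only [Matrix.mul_assoc]
      _ = B.Zb z i * (symMat (B.X i) * symMat (B.sw i)) *
            (symMat (B.X i) * B.Dm i (z.a i) (z.th i)) := by rw [hsY, hXD]
      _ = B.Zb z i * symMat (B.X i) * (symMat (B.sw i) * symMat (B.X i)) *
            B.Dm i (z.a i) (z.th i) := by simp only [Matrix.mul_assoc]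
      _ = B.Zb z i * (symMat (B.X i) * symMat (B.Y i)) * symMat (B.sw i) *
            B.Dm i (z.a i) (z.th i) := by rw [hsX]; simp only [Matrix.mul_assoc]
      _ = (B.Zb z i * symMat (B.R (l0 i) * B.R (l2 i))) * (symMat (B.Y i) *
            (symMat (B.X i) * symMat (B.sw i)) * B.Dm i (z.a i) (z.th i)) := by
          rw [hXY]; simp only [Matrix.mul_assoc]
      _ = (symMat (B.R (l0 i) * B.R (l2 i)) * B.Zb z i) * (symMat (B.Y i) *
            (symMat (B.sw i) * symMat (B.Y i)) * B.Dm i (z.a i) (z.th i)) := by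
          rw [hsY, hSZ]
      _ = symMat (B.R (l0 i) * B.R (l2 i)) * B.Zb z i * ((symMat (B.Y i) *
            symMat (B.sw i)) * symMat (B.Y i) * B.Dm i (z.a i) (z.th i)) := by
          simp only [Matrix.mul_assoc]
      _ = symMat (B.R (l0 i) * B.R (l2 i)) * B.Zb z i * ((symMat (B.sw i) *
            symMat (B.X i)) * symMat (B.Y i) * B.Dm i (z.a i) (z.th i)) := by
          rw [hsX]
      _ = _ := by simp only [Matrix.mul_assoc]

theorem mX_det (i : Fin 3) : (B.mX b z i).det = 1 := by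
  unfold mX
  rw [Matrix.det_conj ((Matrix.isUnit_iff_isUnit_det _).mpr (B.pm_FamIA_gI_unit b z i))]
  split_ifs
  · exact B.pm_FamIA_hY_det i _ _
  · exact B.pm_FamIA_hX_det i

theorem mY_det (i : Fin 3) : (B.mY b z i).det = 1 := by
  unfold mY
  rw [Matrix.det_conj ((Matrix.isUnit_iff_isUnit_det _).mpr (B.pm_FamIA_gI_unit b z i))]
  split_ifs
  · exact B.pm_FamIA_hX_det i
  · exact B.pm_FamIA_hY_det i _ _

theorem gI_det (i : Fin 3) : (B.gI b z i).det ≠ 0 :=
  B.pm_FamIA_gI_det b z i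

def slX (i : Fin 3) : SL(3, ℝ) := ⟨B.mX b z i, B.mX_det b z i⟩
def slY (i : Fin 3) : SL(3, ℝ) := ⟨B.mY b z i, B.mY_det b z i⟩

/-- `[X, Y]` of the handle does not depend on the parameters -/
theorem com_mXY (i : Fin 3) : (com (B.slX b z i) (B.slY b z i) : SL(3, ℝ)).1 =
    symMat (B.R (l0 i) * B.R (l2 i)) := by
  apply pm_FamIA_com
  have hg := B.pm_FamIA_gI_unit b z i
  have key := B.pm_FamIA_key b z i
  have e1 : (B.slX b z i).1 * (B.slY b z i).1 = B.gI b z i *
      ((if b i then B.hY i (z.a i) (z.th i) else B.hX i) *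
      (if b i then B.hX i else B.hY i (z.a i) (z.th i))) * (B.gI b z i)⁻¹ := by
    change B.mX b z i * B.mY b z i = _
    unfold mX mY
    calc _ = B.gI b z i * (if b i then B.hY i (z.a i) (z.th i) else B.hX i) *
          ((B.gI b z i)⁻¹ * B.gI b z i) *
          (if b i then B.hX i else B.hY i (z.a i) (z.th i)) * (B.gI b z i)⁻¹ := by
          simp only [Matrix.mul_assoc]
      _ = _ := by
          rw [Matrix.nonsing_inv_mul _ hg]; simp only [Matrix.mul_assoc, Matrix.one_mul]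
  have e2 : (B.slY b z i).1 * (B.slX b z i).1 = B.gI b z i *
      ((if b i then B.hX i else B.hY i (z.a i) (z.th i)) *
      (if b i then B.hY i (z.a i) (z.th i) else B.hX i)) * (B.gI b z i)⁻¹ := by
    change B.mY b z i * B.mX b z i = _
    unfold mX mY
    calc _ = B.gI b z i * (if b i then B.hX i else B.hY i (z.a i) (z.th i)) *
          ((B.gI b z i)⁻¹ * B.gI b z i) *
          (if b i then B.hY i (z.a i) (z.th i) else B.hX i) * (B.gI b z i)⁻¹ := by
          simp only [Matrix.mul_assoc]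
      _ = _ := by
          rw [Matrix.nonsing_inv_mul _ hg]; simp only [Matrix.mul_assoc, Matrix.one_mul]
  rw [e1, e2, key]
  simp only [Matrix.mul_assoc]

theorem rel_I : com (B.slX b z 0) (B.slY b z 0) * com (B.slX b z 1) (B.slY b z 1) *
    com (B.slX b z 2) (B.slY b z 2) = 1 := by
  apply Subtype.ext
  have h : (com (B.slX b z 0) (B.slY b z 0) * com (B.slX b z 1) (B.slY b z 1) *
      com (B.slX b z 2) (B.slY b z 2) : SL(3, ℝ)).1 =
      (com (B.slX b z 0) (B.slY b z 0)).1 * (com (B.slX b z 1) (B.slY b z 1)).1 *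
      (com (B.slX b z 2) (B.slY b z 2)).1 := rfl
  rw [h, B.com_mXY, B.com_mXY, B.com_mXY, ← symMat_mul, ← symMat_mul]
  have e : B.R (l0 0) * B.R (l2 0) * (B.R (l0 1) * B.R (l2 1)) * (B.R (l0 2) * B.R (l2 2)) = 1 := by
    simp only [l0, l2, Matrix.cons_val_zero, Matrix.cons_val_one, Matrix.cons_val]
    calc B.R 0 * B.R 2 * (B.R 2 * B.R 4) * (B.R 4 * B.R 0)
        = B.R 0 * (B.R 2 * B.R 2) * (B.R 4 * B.R 4) * B.R 0 := by simp only [Matrix.mul_assoc]
      _ = 1 := by rw [B.R_sq, B.R_sq, Matrix.mul_one, Matrix.mul_one, B.R_sq]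
  rw [e, symMat_one]
  rfl

/-- the representation of family I -/
def repI : Rep := (surf_lift (B.slX b z) (B.slY b z) (B.rel_I b z)).choose

theorem repI_sx (i : Fin 3) : B.repI b z (sx i) = B.slX b z i :=
  (surf_lift (B.slX b z) (B.slY b z) (B.rel_I b z)).choose_spec.1 i

theorem repI_sy (i : Fin 3) : B.repI b z (sy i) = B.slY b z i :=
  (surf_lift (B.slX b z) (B.slY b z) (B.rel_I b z)).choose_spec.2 i

theorem repI_x (i : Fin 3) : (B.repI b z (sx i) : M3) = B.mX b z i := by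
  rw [repI_sx]; rfl

theorem repI_y (i : Fin 3) : (B.repI b z (sy i) : M3) = B.mY b z i := by
  rw [repI_sy]; rfl

/-- frames -/
def FI (p : QI) (z : ZI) : M3 :=
  match p with
  | QI.dP i => symMat (B.fd i)
  | QI.dH i => B.gI b z i * symMat (B.fd i * J2) * (if b i then P3 else 1)
  | QI.mp i => B.gI b z i * symMat (B.fp i) * (if b i then P3 else 1)
  | QI.mm i => B.gI b z i * symMat (B.fm i) * (if b i then P3 else 1)

theorem FI_det (p : QI) (z : ZI) : (B.FI b p z).det ≠ 0 := by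
  have hJ : J2.det = 1 := by simp [J2, Matrix.det_fin_two]
  have hP : P3.det = -1 := by simp [P3, Matrix.det_fin_three]
  have hg := B.gI_det b z
  have hite : ∀ i : Fin 3, (if b i then P3 else (1 : M3)).det ≠ 0 := by
    intro i
    split_ifs
    · rw [hP]; norm_num
    · rw [Matrix.det_one]; norm_num
  cases p with
  | dP i =>
    simp only [FI]
    rw [symMat_det, B.fd_det]
    norm_num
  | dH i =>
    simp only [FI]
    rw [Matrix.det_mul, Matrix.det_mul, symMat_det, Matrix.det_mul, B.fd_det, hJ]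
    refine mul_ne_zero (mul_ne_zero (hg i) (by norm_num)) (hite i)
  | mp i =>
    simp only [FI]
    rw [Matrix.det_mul, Matrix.det_mul, symMat_det, B.fp_det]
    refine mul_ne_zero (mul_ne_zero (hg i) (by norm_num)) (hite i)
  | mm i =>
    simp only [FI]
    rw [Matrix.det_mul, Matrix.det_mul, symMat_det, B.fm_det]
    refine mul_ne_zero (mul_ne_zero (hg i) (by norm_num)) (hite i)

/-- boundary elements -/
def cI : QI → Surf
  | QI.dP i => dd i
  | QI.dH i => (dd i)⁻¹
  | QI.mp i => if b i then (sy i)⁻¹ else sx i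
  | QI.mm i => if b i then sx i * sy i * (sx i)⁻¹ else sy i * (sx i)⁻¹ * (sy i)⁻¹

def LI : QI → ℝ
  | QI.dP _ => B.Ld
  | QI.dH _ => B.Ld
  | QI.mp _ => B.Lm
  | QI.mm _ => B.Lm

def barI : QI → QI
  | QI.dP i => QI.dH i
  | QI.dH i => QI.dP i
  | QI.mp i => QI.mm i
  | QI.mm i => QI.mp i

def tI : QI → Surf
  | QI.dP _ => 1
  | QI.dH _ => 1
  | QI.mp i => if b i then (sx i)⁻¹ else (sy i)⁻¹
  | QI.mm i => if b i then sx i else sy i

/-- offset factor of `d_i` -/
def qb (i : Fin 3) : ℝ := if b i then B.qq i else 1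

def dDP (i : Fin 3) (z : ZI) : Fin 3 → ℝ :=
  ![(B.qb b i) ^ 2 * Real.exp (z.t i), Real.exp (-(2 * z.t i)), ((B.qb b i) ^ 2)⁻¹ * Real.exp (z.t i)]

def dMM (i : Fin 3) (z : ZI) : Fin 3 → ℝ :=
  ![(B.eta i) ^ 2 * Real.exp (z.a i - z.th i * B.Lm), Real.exp (-(2 * z.a i)),
    ((B.eta i) ^ 2)⁻¹ * Real.exp (z.a i + z.th i * B.Lm)]

/-- crossing diagonals -/
def D0I (p : QI) (z : ZI) : Fin 3 → ℝ :=
  match p with
  | QI.dP i => B.dDP b i z
  | QI.dH i => invr (B.dDP b i z)
  | QI.mp i => if b i then invr (revd (B.dMM i z)) else invr (B.dMM i z)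
  | QI.mm i => if b i then revd (B.dMM i z) else B.dMM i z

theorem D0I_pos (p : QI) (z : ZI) : PosD (B.D0I b p z) := by
  have h1 : ∀ i, PosD (B.dDP b i z) := by
    intro i
    have hq : B.qb b i ≠ 0 := by
      unfold qb
      split_ifs
      · exact B.qq_ne i
      · exact one_ne_zero
    have := pm_FamIA_posD (a := z.t i) (ϑ := 0) hq
    simpa [dDP] using this
  have h2 : ∀ i, PosD (B.dMM i z) := by
    intro i
    exact pm_FamIA_posD (a := z.a i) (ϑ := z.th i * B.Lm) (B.eta_ne i)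
  cases p with
  | dP i => exact h1 i
  | dH i => exact pm_FamIA_posD_invr (h1 i)
  | mp i =>
    simp only [D0I]
    split_ifs
    · exact pm_FamIA_posD_invr (pm_FamIA_posD_revd (h2 i))
    · exact pm_FamIA_posD_invr (h2 i)
  | mm i =>
    simp only [D0I]
    split_ifs
    · exact pm_FamIA_posD_revd (h2 i)
    · exact h2 i

theorem tI_c (p : QI) : tI b p * cI b (barI p) * (tI b p)⁻¹ = (cI b p)⁻¹ := by
  cases p with
  | dP i => simp [tI, cI, barI]
  | dH i => simp [tI, cI, barI]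
  | mp i =>
    simp only [tI, cI, barI]
    split_ifs <;> group
  | mm i =>
    simp only [tI, cI, barI]
    split_ifs <;> group

theorem pm_FamIB_RR (f g : Fin 6) : B.R g * B.R f * (B.R f * B.R g) = 1 := by
  calc B.R g * B.R f * (B.R f * B.R g) = B.R g * (B.R f * B.R f) * B.R g := by
        simp only [Matrix.mul_assoc]
    _ = 1 := by rw [B.R_sq, Matrix.mul_one, B.R_sq]

/-- `ρ(x_i) g = g hX` or `g hY` -/
theorem pm_FamIB_sx (i : Fin 3) : (B.repI b z (sx i)).1 * B.gI b z i =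
    B.gI b z i * (if b i then B.hY i (z.a i) (z.th i) else B.hX i) := by
  have h : (B.repI b z (sx i)).1 = B.mX b z i := B.repI_x b z i
  rw [h]
  unfold mX
  rw [Matrix.mul_assoc, Matrix.nonsing_inv_mul _ (B.pm_FamIA_gI_unit b z i), Matrix.mul_one]

theorem pm_FamIB_sy (i : Fin 3) : (B.repI b z (sy i)).1 * B.gI b z i =
    B.gI b z i * (if b i then B.hX i else B.hY i (z.a i) (z.th i)) := by
  have h : (B.repI b z (sy i)).1 = B.mY b z i := B.repI_y b z i
  rw [h]
  unfold mY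
  rw [Matrix.mul_assoc, Matrix.nonsing_inv_mul _ (B.pm_FamIA_gI_unit b z i), Matrix.mul_one]

theorem pm_FamIB_hY_unit (i : Fin 3) (a th : ℝ) : IsUnit (B.hY i a th).det := by
  rw [B.pm_FamIA_hY_det]; exact isUnit_one

/-- `Y X = (R R) Y` -/
theorem pm_FamIB_YX (i : Fin 3) : B.Y i * B.X i = B.R (l2 i) * B.R (l1 i) * B.Y i := by
  have h := B.Y_conj i
  have e1 : B.R (l2 i) * B.R (l1 i) * (B.R (l1 i) * B.R (l2 i)) = 1 := B.pm_FamIB_RR _ _
  have e2 : B.R (l1 i) * B.R (l0 i) * (B.R (l0 i) * B.R (l1 i)) = 1 := B.pm_FamIB_RR _ _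
  unfold BaseData.X
  calc B.Y i * (B.R (l0 i) * B.R (l1 i))
      = (B.R (l2 i) * B.R (l1 i) * (B.R (l1 i) * B.R (l2 i))) * B.Y i *
          (B.R (l0 i) * B.R (l1 i)) := by rw [e1, Matrix.one_mul]
    _ = (B.R (l2 i) * B.R (l1 i)) * ((B.R (l1 i) * B.R (l2 i)) * B.Y i) *
          (B.R (l0 i) * B.R (l1 i)) := by simp only [Matrix.mul_assoc]
    _ = (B.R (l2 i) * B.R (l1 i)) * (B.Y i * (B.R (l1 i) * B.R (l0 i))) *
          (B.R (l0 i) * B.R (l1 i)) := by rw [h]
    _ = (B.R (l2 i) * B.R (l1 i)) * B.Y i * (B.R (l1 i) * B.R (l0 i) *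
          (B.R (l0 i) * B.R (l1 i))) := by simp only [Matrix.mul_assoc]
    _ = _ := by rw [e2, Matrix.mul_one]

/-- `hY hX = symMat (R R) hY` -/
theorem pm_FamIB_hYX (i : Fin 3) (a th : ℝ) : B.hY i a th * B.hX i =
    symMat (B.R (l2 i) * B.R (l1 i)) * B.hY i a th := by
  have hXD := B.pm_FamIA_XD i a th
  unfold hY
  rw [Matrix.mul_assoc, ← hXD]
  unfold hX
  rw [← Matrix.mul_assoc, ← symMat_mul, B.pm_FamIB_YX i, symMat_mul (B.R (l2 i) * B.R (l1 i)),
    Matrix.mul_assoc]

/-- `ρ(c) g = g symMat (R R)` for the boundary element of `mm` -/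
theorem pm_FamIB_hconj (i : Fin 3) (a th : ℝ) : B.hY i a th * B.hX i * (B.hY i a th)⁻¹ =
    symMat (B.R (l2 i) * B.R (l1 i)) := by
  rw [B.pm_FamIB_hYX, Matrix.mul_assoc, Matrix.mul_nonsing_inv _ (B.pm_FamIB_hY_unit i a th),
    Matrix.mul_one]

theorem pm_FamIB_dd (i : Fin 3) : (B.repI b z (dd i)).1 = symMat (B.R (l0 i) * B.R (l2 i)) := by
  have h : B.repI b z (dd i) = com (B.slX b z i) (B.slY b z i) := by
    unfold dd com
    simp only [map_mul, map_inv, B.repI_sx, B.repI_sy]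
  rw [h, B.com_mXY]

/-- `D⁻¹ sw = sw D`, `D = [X, Y]` -/
theorem pm_FamIB_swD (i : Fin 3) : B.R (l2 i) * B.R (l0 i) * B.sw i =
    B.sw i * (B.R (l0 i) * B.R (l2 i)) := by
  have hx : IsUnit (B.X i).det := by rw [B.X_det]; exact isUnit_one
  have hy : IsUnit (B.Y i).det := by rw [B.Y_det]; exact isUnit_one
  have h1 := B.pm_FamIA_XY i
  have h2 : (B.R (l0 i) * B.R (l2 i)) * (B.sw i * (B.R (l0 i) * B.R (l2 i))) * (B.Y i * B.X i) =
      B.sw i * (B.Y i * B.X i) := by
    calc (B.R (l0 i) * B.R (l2 i)) * (B.sw i * (B.R (l0 i) * B.R (l2 i))) * (B.Y i * B.X i)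
        = (B.R (l0 i) * B.R (l2 i)) * (B.sw i * (B.R (l0 i) * B.R (l2 i) * (B.Y i * B.X i))) := by
          simp only [Matrix.mul_assoc]
      _ = (B.R (l0 i) * B.R (l2 i)) * ((B.sw i * B.X i) * B.Y i) := by
          rw [← h1]; simp only [Matrix.mul_assoc]
      _ = (B.R (l0 i) * B.R (l2 i)) * (B.Y i * (B.sw i * B.Y i)) := by
          rw [B.sw_X]; simp only [Matrix.mul_assoc]
      _ = (B.R (l0 i) * B.R (l2 i) * (B.Y i * B.X i)) * B.sw i := by
          rw [B.sw_Y]; simp only [Matrix.mul_assoc]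
      _ = B.X i * (B.Y i * B.sw i) := by rw [← h1]; simp only [Matrix.mul_assoc]
      _ = B.X i * B.sw i * B.X i := by rw [← B.sw_X]; simp only [Matrix.mul_assoc]
      _ = B.sw i * (B.Y i * B.X i) := by rw [← B.sw_Y]; simp only [Matrix.mul_assoc]
  have h3 : (B.R (l0 i) * B.R (l2 i)) * (B.sw i * (B.R (l0 i) * B.R (l2 i))) = B.sw i := by
    have hu : IsUnit (B.Y i * B.X i).det := by
      rw [Matrix.det_mul, B.Y_det, B.X_det, one_mul]; exact isUnit_one
    have := congrArg (fun M => M * (B.Y i * B.X i)⁻¹) h2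
    simp only [Matrix.mul_assoc _ (B.Y i * B.X i), Matrix.mul_nonsing_inv _ hu, Matrix.mul_one] at this
    exact this
  calc B.R (l2 i) * B.R (l0 i) * B.sw i
      = B.R (l2 i) * B.R (l0 i) * ((B.R (l0 i) * B.R (l2 i)) *
          (B.sw i * (B.R (l0 i) * B.R (l2 i)))) := by rw [h3]
    _ = (B.R (l2 i) * B.R (l0 i) * (B.R (l0 i) * B.R (l2 i))) *
          (B.sw i * (B.R (l0 i) * B.R (l2 i))) := by simp only [Matrix.mul_assoc]
    _ = _ := by rw [B.pm_FamIB_RR, Matrix.one_mul]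

/-- `ρ(d_i)⁻¹ g = g D^{∓1}` -/
theorem pm_FamIB_ddinv (i : Fin 3) : (B.repI b z (dd i)⁻¹).1 * B.gI b z i = B.gI b z i *
    (if b i then symMat (B.R (l0 i) * B.R (l2 i)) else symMat (B.R (l2 i) * B.R (l0 i))) := by
  have e0 : B.R (l0 i) * B.R (l2 i) * (B.R (l2 i) * B.R (l0 i)) = 1 := B.pm_FamIB_RR _ _
  have e0' : B.R (l2 i) * B.R (l0 i) * (B.R (l0 i) * B.R (l2 i)) = 1 := B.pm_FamIB_RR _ _
  have e1 : symMat (B.R (l0 i) * B.R (l2 i)) * symMat (B.R (l2 i) * B.R (l0 i)) = 1 := by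
    rw [← symMat_mul, e0, symMat_one]
  have e1' : symMat (B.R (l2 i) * B.R (l0 i)) * symMat (B.R (l0 i) * B.R (l2 i)) = 1 := by
    rw [← symMat_mul, e0', symMat_one]
  rw [map_inv]
  have hSZ := B.pm_FamIA_SZ z i
  have hdd := B.pm_FamIB_dd b z i
  cases hb : b i
  · simp only [Bool.false_eq_true, if_false]
    refine pm_FamIB_inv _ ?_ e1
    rw [hdd]
    unfold gI
    simp only [hb, Bool.false_eq_true, if_false, Matrix.mul_one]
    exact hSZ
  · simp only [if_true]
    refine pm_FamIB_inv _ (C := symMat (B.R (l2 i) * B.R (l0 i))) ?_ e1'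
    rw [hdd]
    unfold gI
    simp only [hb, if_true]
    have h4 : symMat (B.R (l0 i) * B.R (l2 i)) * symMat (B.sw i) =
        symMat (B.sw i) * symMat (B.R (l2 i) * B.R (l0 i)) := by
      have h5 : symMat (B.R (l2 i) * B.R (l0 i)) * symMat (B.sw i) =
          symMat (B.sw i) * symMat (B.R (l0 i) * B.R (l2 i)) := by
        rw [← symMat_mul, B.pm_FamIB_swD, symMat_mul]
      calc symMat (B.R (l0 i) * B.R (l2 i)) * symMat (B.sw i)
          = symMat (B.R (l0 i) * B.R (l2 i)) * (symMat (B.sw i) *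
            (symMat (B.R (l0 i) * B.R (l2 i)) * symMat (B.R (l2 i) * B.R (l0 i)))) := by
            rw [e1, Matrix.mul_one]
        _ = symMat (B.R (l0 i) * B.R (l2 i)) * (symMat (B.sw i) *
            symMat (B.R (l0 i) * B.R (l2 i))) * symMat (B.R (l2 i) * B.R (l0 i)) := by
            simp only [Matrix.mul_assoc]
        _ = (symMat (B.R (l0 i) * B.R (l2 i)) * symMat (B.R (l2 i) * B.R (l0 i))) *
            symMat (B.sw i) * symMat (B.R (l2 i) * B.R (l0 i)) := by
            rw [← h5]; simp only [Matrix.mul_assoc]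
        _ = _ := by rw [e1, Matrix.one_mul]
    calc symMat (B.R (l0 i) * B.R (l2 i)) * (B.Zb z i * symMat (B.sw i))
        = (symMat (B.R (l0 i) * B.R (l2 i)) * B.Zb z i) * symMat (B.sw i) := by
          simp only [Matrix.mul_assoc]
      _ = B.Zb z i * (symMat (B.R (l0 i) * B.R (l2 i)) * symMat (B.sw i)) := by
          rw [hSZ]; simp only [Matrix.mul_assoc]
      _ = _ := by rw [h4]; simp only [Matrix.mul_assoc]

/-- `ρ(c_{mm}) g = g (R R)^{±1}` -/
theorem pm_FamIB_cmm (i : Fin 3) : (B.repI b z (cI b (QI.mm i))).1 * B.gI b z i = B.gI b z i *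
    (if b i then symMat (B.R (l2 i) * B.R (l1 i)) else symMat (B.R (l1 i) * B.R (l2 i))) := by
  have hsx := B.pm_FamIB_sx b z i
  have hsy := B.pm_FamIB_sy b z i
  have hYu := B.pm_FamIB_hY_unit i (z.a i) (z.th i)
  have hc := B.pm_FamIB_hconj i (z.a i) (z.th i)
  simp only [cI]
  cases hb : b i
  · simp only [hb, Bool.false_eq_true, if_false] at hsx hsy ⊢
    have e0 : B.R (l2 i) * B.R (l1 i) * (B.R (l1 i) * B.R (l2 i)) = 1 := B.pm_FamIB_RR _ _
    have e1 : symMat (B.R (l2 i) * B.R (l1 i)) * symMat (B.R (l1 i) * B.R (l2 i)) = 1 := by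
      rw [← symMat_mul, e0, symMat_one]
    have h1 : B.repI b z (sy i * (sx i)⁻¹ * (sy i)⁻¹) =
        (B.repI b z (sy i) * B.repI b z (sx i) * (B.repI b z (sy i))⁻¹)⁻¹ := by
      simp only [map_mul, map_inv, _root_.mul_inv_rev, inv_inv, mul_assoc]
    rw [h1]
    refine pm_FamIB_inv _ (C := symMat (B.R (l2 i) * B.R (l1 i))) ?_ e1
    rw [← hc]
    refine pm_FamIB_mul (pm_FamIB_mul hsy hsx) ?_
    exact pm_FamIB_inv _ hsy (Matrix.mul_nonsing_inv _ hYu)
  · simp only [hb, if_true] at hsx hsy ⊢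
    rw [map_mul, map_mul, map_inv, ← hc]
    refine pm_FamIB_mul (pm_FamIB_mul hsx hsy) ?_
    exact pm_FamIB_inv _ hsx (Matrix.mul_nonsing_inv _ hYu)

theorem rcI (p : QI) (z : ZI) :
    (B.repI b z (cI b p) : M3) * B.FI b p z = B.FI b p z * Cd (B.LI p) 1 := by
  cases p with
  | dP i =>
    simp only [cI, FI, LI]
    have h := B.pm_FamIB_dd b z i
    change (B.repI b z (dd i)).1 * _ = _
    rw [h]
    exact pm_FamIB_eig (B.fd_eig i)
  | dH i =>
    simp only [cI, FI, LI]
    have h := B.pm_FamIB_ddinv b z i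
    change (B.repI b z (dd i)⁻¹).1 * _ = _
    rw [symMat_mul, pm_FamIB_symJ]
    cases hb : b i
    · simp only [hb, Bool.false_eq_true, if_false, Matrix.mul_one] at h ⊢
      have h1 := pm_FamIB_eig_inv (B.fd_eig i) (B.pm_FamIB_RR (l0 i) (l2 i))
      calc (B.repI b z (dd i)⁻¹).1 * (B.gI b z i * (symMat (B.fd i) * J3))
          = ((B.repI b z (dd i)⁻¹).1 * B.gI b z i) * (symMat (B.fd i) * J3) := by
            simp only [Matrix.mul_assoc]
        _ = B.gI b z i * (symMat (B.R (l2 i) * B.R (l0 i)) * symMat (B.fd i)) * J3 := by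
            rw [h]; simp only [Matrix.mul_assoc]
        _ = B.gI b z i * symMat (B.fd i) * (Cd B.Ld (-1) * J3) := by
            rw [h1]; simp only [Matrix.mul_assoc]
        _ = _ := by rw [pm_FamIB_Cd_J3]; simp only [Matrix.mul_assoc]
    · simp only [hb, if_true] at h ⊢
      have h1 := pm_FamIB_eig (B.fd_eig i)
      calc (B.repI b z (dd i)⁻¹).1 * (B.gI b z i * (symMat (B.fd i) * J3) * P3)
          = ((B.repI b z (dd i)⁻¹).1 * B.gI b z i) * (symMat (B.fd i) * J3) * P3 := by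
            simp only [Matrix.mul_assoc]
        _ = B.gI b z i * (symMat (B.R (l0 i) * B.R (l2 i)) * symMat (B.fd i)) * J3 * P3 := by
            rw [h]; simp only [Matrix.mul_assoc]
        _ = B.gI b z i * symMat (B.fd i) * (Cd B.Ld 1 * J3) * P3 := by
            rw [h1]; simp only [Matrix.mul_assoc]
        _ = B.gI b z i * symMat (B.fd i) * J3 * (Cd B.Ld (-1) * P3) := by
            rw [pm_FamIB_Cd_J3']; simp only [Matrix.mul_assoc]
        _ = _ := by rw [pm_FamIB_Cd_P3]; simp only [Matrix.mul_assoc]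
  | mp i =>
    have hsx := B.pm_FamIB_sx b z i
    have hsy := B.pm_FamIB_sy b z i
    have hXu : IsUnit (B.hX i).det := by rw [B.pm_FamIA_hX_det]; exact isUnit_one
    simp only [cI, FI, LI]
    cases hb : b i
    · simp only [hb, Bool.false_eq_true, if_false, Matrix.mul_one] at hsx ⊢
      have h1 : B.hX i * symMat (B.fp i) = symMat (B.fp i) * Cd B.Lm 1 := pm_FamIB_eig (B.fp_eig i)
      calc (B.repI b z (sx i)).1 * (B.gI b z i * symMat (B.fp i))
          = ((B.repI b z (sx i)).1 * B.gI b z i) * symMat (B.fp i) := by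
            simp only [Matrix.mul_assoc]
        _ = B.gI b z i * (B.hX i * symMat (B.fp i)) := by rw [hsx]; simp only [Matrix.mul_assoc]
        _ = _ := by rw [h1]; simp only [Matrix.mul_assoc]
    · simp only [hb, if_true] at hsy ⊢
      have h1 : symMat (B.R (l1 i) * B.R (l0 i)) * symMat (B.fp i) =
          symMat (B.fp i) * Cd B.Lm (-1) :=
        pm_FamIB_eig_inv (B.fp_eig i) (B.pm_FamIB_RR (l0 i) (l1 i))
      have e1 : B.hX i * symMat (B.R (l1 i) * B.R (l0 i)) = 1 := by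
        unfold hX BaseData.X
        rw [← symMat_mul, B.pm_FamIB_RR, symMat_one]
      have h2 : (B.repI b z (sy i)⁻¹).1 * B.gI b z i =
          B.gI b z i * symMat (B.R (l1 i) * B.R (l0 i)) := by
        rw [map_inv]
        exact pm_FamIB_inv _ hsy e1
      calc (B.repI b z (sy i)⁻¹).1 * (B.gI b z i * symMat (B.fp i) * P3)
          = ((B.repI b z (sy i)⁻¹).1 * B.gI b z i) * symMat (B.fp i) * P3 := by
            simp only [Matrix.mul_assoc]
        _ = B.gI b z i * (symMat (B.R (l1 i) * B.R (l0 i)) * symMat (B.fp i)) * P3 := by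
            rw [h2]; simp only [Matrix.mul_assoc]
        _ = B.gI b z i * symMat (B.fp i) * (Cd B.Lm (-1) * P3) := by
            rw [h1]; simp only [Matrix.mul_assoc]
        _ = _ := by rw [pm_FamIB_Cd_P3]; simp only [Matrix.mul_assoc]
  | mm i =>
    have hc := B.pm_FamIB_cmm b z i
    simp only [FI, LI]
    cases hb : b i
    · simp only [hb, Bool.false_eq_true, if_false, Matrix.mul_one] at hc ⊢
      have h1 : symMat (B.R (l1 i) * B.R (l2 i)) * symMat (B.fm i) = symMat (B.fm i) * Cd B.Lm 1 :=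
        pm_FamIB_eig (B.fm_eig i)
      calc (B.repI b z (cI b (QI.mm i))).1 * (B.gI b z i * symMat (B.fm i))
          = ((B.repI b z (cI b (QI.mm i))).1 * B.gI b z i) * symMat (B.fm i) := by
            simp only [Matrix.mul_assoc]
        _ = B.gI b z i * (symMat (B.R (l1 i) * B.R (l2 i)) * symMat (B.fm i)) := by
            rw [hc]; simp only [Matrix.mul_assoc]
        _ = _ := by rw [h1]; simp only [Matrix.mul_assoc]
    · simp only [hb, if_true] at hc ⊢
      have h1 : symMat (B.R (l2 i) * B.R (l1 i)) * symMat (B.fm i) =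
          symMat (B.fm i) * Cd B.Lm (-1) :=
        pm_FamIB_eig_inv (B.fm_eig i) (B.pm_FamIB_RR (l1 i) (l2 i))
      calc (B.repI b z (cI b (QI.mm i))).1 * (B.gI b z i * symMat (B.fm i) * P3)
          = ((B.repI b z (cI b (QI.mm i))).1 * B.gI b z i) * symMat (B.fm i) * P3 := by
            simp only [Matrix.mul_assoc]
        _ = B.gI b z i * (symMat (B.R (l2 i) * B.R (l1 i)) * symMat (B.fm i)) * P3 := by
            rw [hc]; simp only [Matrix.mul_assoc]
        _ = B.gI b z i * symMat (B.fm i) * (Cd B.Lm (-1) * P3) := by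
            rw [h1]; simp only [Matrix.mul_assoc]
        _ = _ := by rw [pm_FamIB_Cd_P3]; simp only [Matrix.mul_assoc]

/-- gluing along `d_i` -/
theorem pm_FamIB_glue_d (i : Fin 3) (z : ZI) :
    B.FI b (QI.dH i) z = B.FI b (QI.dP i) z * J3 * diagonal (B.dDP b i z) := by
  have hcj : B.Zb z i * symMat (B.fd i) = symMat (B.fd i) * diagonal (dgv (z.t i) 0) :=
    pm_FamIB_cj (B.fd_det i) _
  simp only [FI]
  unfold gI dDP qb
  cases hb : b i
  · simp only [Bool.false_eq_true, if_false, Matrix.mul_one]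
    rw [symMat_mul, pm_FamIB_symJ, ← Matrix.mul_assoc, hcj, Matrix.mul_assoc, pm_FamIB_diag_J3,
      ← Matrix.mul_assoc]
    congr 2
    funext i
    fin_cases i <;> simp [revd, dgv]
  · simp only [if_true]
    have h1 : symMat (B.sw i) * symMat (B.fd i * J2) =
        symMat (B.fd i) * symMat (!![0, (B.qq i)⁻¹; B.qq i, 0] * J2) := by
      rw [← symMat_mul, ← symMat_mul, ← Matrix.mul_assoc, B.sw_fd, Matrix.mul_assoc]
    have h2 : diagonal (dgv (z.t i) 0) * symMat (!![0, (B.qq i)⁻¹; B.qq i, 0] * J2) * P3 =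
        J3 * diagonal ![(B.qq i) ^ 2 * Real.exp (z.t i), Real.exp (-(2 * z.t i)),
          ((B.qq i) ^ 2)⁻¹ * Real.exp (z.t i)] := by
      have hq := B.qq_ne i
      ext a c
      fin_cases a <;> fin_cases c <;>
        simp [J3, P3, J2, symMat, dgv, Matrix.mul_apply, Fin.sum_univ_three, Matrix.diagonal] <;>
        field_simp
    calc B.Zb z i * symMat (B.sw i) * symMat (B.fd i * J2) * P3
        = B.Zb z i * (symMat (B.sw i) * symMat (B.fd i * J2)) * P3 := by
          simp only [Matrix.mul_assoc]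
      _ = (B.Zb z i * symMat (B.fd i)) * symMat (!![0, (B.qq i)⁻¹; B.qq i, 0] * J2) * P3 := by
          rw [h1]; simp only [Matrix.mul_assoc]
      _ = symMat (B.fd i) * (diagonal (dgv (z.t i) 0) *
          symMat (!![0, (B.qq i)⁻¹; B.qq i, 0] * J2) * P3) := by
          rw [hcj]; simp only [Matrix.mul_assoc]
      _ = _ := by rw [h2]; simp only [Matrix.mul_assoc]

/-- `hY` carries the frame of `mp` to the flipped frame of `mm` -/
theorem pm_FamIB_hY_fp (i : Fin 3) (z : ZI) : B.hY i (z.a i) (z.th i) * symMat (B.fp i) =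
    symMat (B.fm i) * J3 * diagonal (B.dMM i z) := by
  have hcj : B.Dm i (z.a i) (z.th i) * symMat (B.fp i) =
      symMat (B.fp i) * diagonal (dgv (z.a i) (-(z.th i * B.Lm))) := pm_FamIB_cj (B.fp_det i) _
  have h2 : symMat !![B.eta i, 0; 0, (B.eta i)⁻¹] * diagonal (dgv (z.a i) (-(z.th i * B.Lm))) =
      diagonal (B.dMM i z) := by
    have he := B.eta_ne i
    unfold dMM
    ext a c
    fin_cases a <;> fin_cases c <;>
      simp [symMat, dgv, Matrix.mul_apply, Fin.sum_univ_three, Matrix.diagonal] <;>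
      first | (field_simp; ring_nf) | field_simp
  unfold hY
  rw [Matrix.mul_assoc, hcj, ← Matrix.mul_assoc, ← symMat_mul, B.Y_fp, symMat_mul, symMat_mul,
    pm_FamIB_symJ, Matrix.mul_assoc, h2]

theorem pm_FamIB_glue_mm (i : Fin 3) (z : ZI) :
    (B.repI b z (tI b (QI.mm i))).1 * B.FI b (QI.mp i) z =
      B.FI b (QI.mm i) z * J3 * diagonal (B.D0I b (QI.mm i) z) := by
  have hsx := B.pm_FamIB_sx b z i
  have hsy := B.pm_FamIB_sy b z i
  have hf := B.pm_FamIB_hY_fp i z
  simp only [tI, FI, D0I]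
  cases hb : b i
  · simp only [hb, Bool.false_eq_true, if_false, Matrix.mul_one] at hsy ⊢
    calc (B.repI b z (sy i)).1 * (B.gI b z i * symMat (B.fp i))
        = ((B.repI b z (sy i)).1 * B.gI b z i) * symMat (B.fp i) := by
          simp only [Matrix.mul_assoc]
      _ = B.gI b z i * (B.hY i (z.a i) (z.th i) * symMat (B.fp i)) := by
          rw [hsy]; simp only [Matrix.mul_assoc]
      _ = _ := by rw [hf]; simp only [Matrix.mul_assoc]
  · simp only [hb, if_true] at hsx ⊢
    calc (B.repI b z (sx i)).1 * (B.gI b z i * symMat (B.fp i) * P3)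
        = ((B.repI b z (sx i)).1 * B.gI b z i) * symMat (B.fp i) * P3 := by
          simp only [Matrix.mul_assoc]
      _ = B.gI b z i * (B.hY i (z.a i) (z.th i) * symMat (B.fp i)) * P3 := by
          rw [hsx]; simp only [Matrix.mul_assoc]
      _ = B.gI b z i * symMat (B.fm i) * J3 * (diagonal (B.dMM i z) * P3) := by
          rw [hf]; simp only [Matrix.mul_assoc]
      _ = B.gI b z i * symMat (B.fm i) * (J3 * P3) * diagonal (revd (B.dMM i z)) := by
          rw [pm_FamIB_diag_P3]; simp only [Matrix.mul_assoc]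
      _ = _ := by rw [pm_FamIB_J3_P3]; simp only [Matrix.mul_assoc]

theorem glueI (p : QI) (z : ZI) :
    (B.repI b z (tI b p) : M3) * B.FI b (barI p) z = B.FI b p z * J3 * diagonal (B.D0I b p z) := by
  cases p with
  | dP i =>
    have h := B.pm_FamIB_glue_d b i z
    have e : (B.repI b z (tI b (QI.dP i)) : M3) = 1 := by
      simp only [tI, map_one]
      rfl
    rw [e, Matrix.one_mul]
    exact h
  | dH i =>
    have h := B.pm_FamIB_glue_d b i z
    have e : (B.repI b z (tI b (QI.dP i)) : M3) = 1 := by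
      simp only [tI, map_one]
      rfl
    have h1 : (B.repI b z (tI b (QI.dP i))).1 * B.FI b (QI.dH i) z =
        B.FI b (QI.dP i) z * J3 * diagonal (B.dDP b i z) := by
      have e' : (B.repI b z (tI b (QI.dP i))).1 = 1 := e
      rw [e', Matrix.one_mul]
      exact h
    have h2 := pm_FamIB_glue_inv _ (B.D0I_pos b (QI.dP i) z) h1
    have e2 : (B.repI b z (tI b (QI.dP i)))⁻¹ = B.repI b z (tI b (QI.dH i)) := by
      simp only [tI, map_one, inv_one]
    rw [e2] at h2
    exact h2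
  | mp i =>
    have h1 := B.pm_FamIB_glue_mm b i z
    have h2 := pm_FamIB_glue_inv _ (B.D0I_pos b (QI.mm i) z) h1
    have e2 : (B.repI b z (tI b (QI.mm i)))⁻¹ = B.repI b z (tI b (QI.mp i)) := by
      rw [← map_inv]
      congr 1
      simp only [tI]
      split_ifs <;> simp
    have e3 : invr (B.D0I b (QI.mm i) z) = B.D0I b (QI.mp i) z := by
      simp only [D0I]
      split_ifs <;> rfl
    rw [e2, e3] at h2
    exact h2
  | mm i => exact B.pm_FamIB_glue_mm b i z

/-- the port system of family I -/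
def psI : PS Surf ZI QI where
  r z := (Matrix.SpecialLinearGroup.toGL).comp (B.repI b z)
  c := cI b
  F p z := glOf (B.FI b p z)
  L := B.LI
  bar := barI
  t := tI b
  D0 := B.D0I b
  L_pos := by
    intro p; cases p
    · exact B.hLd
    · exact B.hLd
    · exact B.hLm
    · exact B.hLm
  D0_pos := B.D0I_pos b
  bar_bar := by intro p; cases p <;> rfl
  bar_ne := by intro p; cases p <;> simp [barI]
  L_bar := by intro p; cases p <;> rfl
  t_bar := by
    intro p
    cases p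
    · simp [tI, barI]
    · simp [tI, barI]
    · simp only [tI, barI]; split_ifs <;> simp
    · simp only [tI, barI]; split_ifs <;> simp
  t_c := tI_c b
  rc := by
    intro p z
    have h := B.rcI b p z
    rw [glOf_coe (B.FI_det b p z)]
    exact h
  glue := by
    intro p z
    have h := B.glueI b p z
    rw [glOf_coe (B.FI_det b p z), glOf_coe (B.FI_det b (barI p) z)]
    exact h

/-! ### helper lemmas for FamIC -/

private theorem pm_FamIC_mul (φ : Rep) (g h : Surf) :
    ((φ (g * h) : SL(3, ℝ)) : M3) = (φ g : M3) * (φ h : M3) := by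
  rw [map_mul]
  exact Matrix.SpecialLinearGroup.coe_mul _ _

private theorem pm_FamIC_one (φ : Rep) : ((φ 1 : SL(3, ℝ)) : M3) = 1 := by
  rw [map_one]
  exact Matrix.SpecialLinearGroup.coe_one

private theorem pm_FamIC_inv_mul (φ : Rep) (g : Surf) :
    ((φ g⁻¹ : SL(3, ℝ)) : M3) * (φ g : M3) = 1 := by
  rw [← pm_FamIC_mul, inv_mul_cancel, pm_FamIC_one]

private theorem pm_FamIC_RR (x y w : Fin 6) : (B.R x * B.R y) * (B.R y * B.R w) = B.R x * B.R w := by
  have h := B.R_sq y
  calc (B.R x * B.R y) * (B.R y * B.R w) = B.R x * (B.R y * B.R y) * B.R w := by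
        simp only [Matrix.mul_assoc]
    _ = B.R x * B.R w := by rw [h, Matrix.mul_one]

private theorem pm_FamIC_sRR (x y : Fin 6) :
    symMat (B.R x * B.R y) * symMat (B.R y * B.R x) = 1 := by
  rw [← symMat_mul, pm_FamIC_RR, B.R_sq, symMat_one]

/-- conjugated values: from values on `g x` to values on `(g x)⁻¹ * g y` -/
private theorem pm_FamIC_conj (φ : Rep) (G : M3) {u v : Surf} {l x y : Fin 6}
    (hu : (φ u : M3) * G = G * symMat (B.R l * B.R x))
    (hv : (φ v : M3) * G = G * symMat (B.R l * B.R y)) :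
    ((φ (u⁻¹ * v) : SL(3, ℝ)) : M3) * G = G * symMat (B.R x * B.R y) := by
  have h1 : ((φ u⁻¹ : SL(3, ℝ)) : M3) * G = G * symMat (B.R x * B.R l) := by
    calc ((φ u⁻¹ : SL(3, ℝ)) : M3) * G
        = ((φ u⁻¹ : SL(3, ℝ)) : M3) * (G * (symMat (B.R l * B.R x) * symMat (B.R x * B.R l))) := by
          rw [pm_FamIC_sRR, Matrix.mul_one]
      _ = ((φ u⁻¹ : SL(3, ℝ)) : M3) * (G * symMat (B.R l * B.R x)) * symMat (B.R x * B.R l) := by
          simp only [Matrix.mul_assoc]
      _ = ((φ u⁻¹ : SL(3, ℝ)) : M3) * ((φ u : M3) * G) * symMat (B.R x * B.R l) := by rw [hu]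
      _ = (((φ u⁻¹ : SL(3, ℝ)) : M3) * (φ u : M3)) * G * symMat (B.R x * B.R l) := by
          simp only [Matrix.mul_assoc]
      _ = G * symMat (B.R x * B.R l) := by rw [pm_FamIC_inv_mul, Matrix.one_mul]
  calc ((φ (u⁻¹ * v) : SL(3, ℝ)) : M3) * G = ((φ u⁻¹ : SL(3, ℝ)) : M3) * ((φ v : M3) * G) := by
        rw [pm_FamIC_mul, Matrix.mul_assoc]
    _ = (((φ u⁻¹ : SL(3, ℝ)) : M3) * G) * symMat (B.R l * B.R y) := by
        rw [hv, Matrix.mul_assoc]
    _ = G * (symMat (B.R x * B.R l) * symMat (B.R l * B.R y)) := by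
        rw [h1, Matrix.mul_assoc]
    _ = G * symMat (B.R x * B.R y) := by rw [← symMat_mul, pm_FamIC_RR]

private theorem pm_FamIC_dd (i : Fin 3) (z : ZI) :
    (B.repI b z (dd i) : M3) = symMat (B.R (l0 i) * B.R (l2 i)) := by
  have h : B.repI b z (dd i) = com (B.slX b z i) (B.slY b z i) := by
    rw [← B.repI_sx b z i, ← B.repI_sy b z i]
    simp only [dd, com, map_mul, map_inv]
  rw [h]
  exact B.com_mXY b z i

private theorem pm_FamIC_of (φ : Rep) {u : Surf} {A : M3} (h : (φ u : M3) = A) :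
    (φ u : M3) * 1 = 1 * A := by rw [h, Matrix.mul_one, Matrix.one_mul]

private theorem pm_FamIC_symd (f : M2) (hf : f.det = 1) : symMat f * (symMat f)⁻¹ = 1 := by
  apply Matrix.mul_nonsing_inv
  rw [symMat_det, hf]
  simp

private theorem pm_FamIC_symd' (f : M2) (hf : f.det = 1) : (symMat f)⁻¹ * symMat f = 1 := by
  apply Matrix.nonsing_inv_mul
  rw [symMat_det, hf]
  simp

private theorem pm_FamIC_eg (L : ℝ) : ∃ d : Fin 3 → ℝ, symMat (eg L) = diagonal d := by
  refine ⟨![(eg L) 0 0 * (eg L) 0 0, (eg L) 0 0 * (eg L) 1 1, (eg L) 1 1 * (eg L) 1 1], ?_⟩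
  ext i j
  fin_cases i <;> fin_cases j <;> simp [symMat, eg, diagonal]

/-- the boundary element commutes with `Zb` -/
private theorem pm_FamIC_Zcomm (i : Fin 3) (z : ZI) :
    symMat (B.R (l0 i) * B.R (l2 i)) * B.Zb z i = B.Zb z i * symMat (B.R (l0 i) * B.R (l2 i)) := by
  obtain ⟨d, hd⟩ := pm_FamIC_eg B.Ld
  have h1 : symMat (B.R (l0 i) * B.R (l2 i)) * symMat (B.fd i) = symMat (B.fd i) * diagonal d := by
    rw [← symMat_mul, B.fd_eig i, symMat_mul, hd]
  have e1 := pm_FamIC_symd (B.fd i) (B.fd_det i)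
  have e2 := pm_FamIC_symd' (B.fd i) (B.fd_det i)
  have h2 : (symMat (B.fd i))⁻¹ * symMat (B.R (l0 i) * B.R (l2 i)) =
      diagonal d * (symMat (B.fd i))⁻¹ := by
    calc (symMat (B.fd i))⁻¹ * symMat (B.R (l0 i) * B.R (l2 i))
        = (symMat (B.fd i))⁻¹ * symMat (B.R (l0 i) * B.R (l2 i)) *
          (symMat (B.fd i) * (symMat (B.fd i))⁻¹) := by rw [e1, Matrix.mul_one]
      _ = (symMat (B.fd i))⁻¹ * (symMat (B.R (l0 i) * B.R (l2 i)) *
          symMat (B.fd i)) * (symMat (B.fd i))⁻¹ := by simp only [Matrix.mul_assoc]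
      _ = ((symMat (B.fd i))⁻¹ * symMat (B.fd i)) * diagonal d * (symMat (B.fd i))⁻¹ := by
          rw [h1]; simp only [Matrix.mul_assoc]
      _ = diagonal d * (symMat (B.fd i))⁻¹ := by rw [e2, Matrix.one_mul]
  have hdd : diagonal d * diagonal (dgv (z.t i) 0) = diagonal (dgv (z.t i) 0) * diagonal d := by
    rw [diagonal_mul_diagonal, diagonal_mul_diagonal]
    congr 1
    ext j
    exact mul_comm _ _
  unfold Zb cj
  calc symMat (B.R (l0 i) * B.R (l2 i)) *
        (symMat (B.fd i) * diagonal (dgv (z.t i) 0) * (symMat (B.fd i))⁻¹)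
      = (symMat (B.R (l0 i) * B.R (l2 i)) * symMat (B.fd i)) * diagonal (dgv (z.t i) 0) *
        (symMat (B.fd i))⁻¹ := by simp only [Matrix.mul_assoc]
    _ = symMat (B.fd i) * (diagonal d * diagonal (dgv (z.t i) 0)) * (symMat (B.fd i))⁻¹ := by
        rw [h1]; simp only [Matrix.mul_assoc]
    _ = symMat (B.fd i) * diagonal (dgv (z.t i) 0) * (diagonal d * (symMat (B.fd i))⁻¹) := by
        rw [hdd]; simp only [Matrix.mul_assoc]
    _ = symMat (B.fd i) * diagonal (dgv (z.t i) 0) * (symMat (B.fd i))⁻¹ *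
        symMat (B.R (l0 i) * B.R (l2 i)) := by rw [← h2]; simp only [Matrix.mul_assoc]

/-- `C s C = s` for `C = [X, Y]` and the swap `s` -/
private theorem pm_FamIC_swC (i : Fin 3) :
    (B.R (l0 i) * B.R (l2 i)) * B.sw i * (B.R (l0 i) * B.R (l2 i)) = B.sw i := by
  have hX := B.X_det i
  have hY := B.Y_det i
  have x1 : B.X i * (B.X i)⁻¹ = 1 := Matrix.mul_nonsing_inv _ (by rw [hX]; simp)
  have x2 : (B.X i)⁻¹ * B.X i = 1 := Matrix.nonsing_inv_mul _ (by rw [hX]; simp)
  have y1 : B.Y i * (B.Y i)⁻¹ = 1 := Matrix.mul_nonsing_inv _ (by rw [hY]; simp)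
  have y2 : (B.Y i)⁻¹ * B.Y i = 1 := Matrix.nonsing_inv_mul _ (by rw [hY]; simp)
  have hs1 : B.sw i * (B.X i)⁻¹ = (B.Y i)⁻¹ * B.sw i := by
    calc B.sw i * (B.X i)⁻¹ = ((B.Y i)⁻¹ * B.Y i) * (B.sw i * (B.X i)⁻¹) := by
          rw [y2, Matrix.one_mul]
      _ = (B.Y i)⁻¹ * (B.Y i * B.sw i) * (B.X i)⁻¹ := by simp only [Matrix.mul_assoc]
      _ = (B.Y i)⁻¹ * B.sw i * (B.X i * (B.X i)⁻¹) := by
          rw [← B.sw_X i]; simp only [Matrix.mul_assoc]
      _ = (B.Y i)⁻¹ * B.sw i := by rw [x1, Matrix.mul_one]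
  have hs2 : B.sw i * (B.Y i)⁻¹ = (B.X i)⁻¹ * B.sw i := by
    calc B.sw i * (B.Y i)⁻¹ = ((B.X i)⁻¹ * B.X i) * (B.sw i * (B.Y i)⁻¹) := by
          rw [x2, Matrix.one_mul]
      _ = (B.X i)⁻¹ * (B.X i * B.sw i) * (B.Y i)⁻¹ := by simp only [Matrix.mul_assoc]
      _ = (B.X i)⁻¹ * B.sw i * (B.Y i * (B.Y i)⁻¹) := by
          rw [← B.sw_Y i]; simp only [Matrix.mul_assoc]
      _ = (B.X i)⁻¹ * B.sw i := by rw [y1, Matrix.mul_one]
  rw [← B.com_XY i]
  have hsc : B.sw i * (B.X i * B.Y i * (B.X i)⁻¹ * (B.Y i)⁻¹) =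
      B.Y i * B.X i * (B.Y i)⁻¹ * (B.X i)⁻¹ * B.sw i := by
    calc B.sw i * (B.X i * B.Y i * (B.X i)⁻¹ * (B.Y i)⁻¹)
        = (B.sw i * B.X i) * B.Y i * (B.X i)⁻¹ * (B.Y i)⁻¹ := by simp only [Matrix.mul_assoc]
      _ = B.Y i * (B.sw i * B.Y i) * (B.X i)⁻¹ * (B.Y i)⁻¹ := by
          rw [B.sw_X i]; simp only [Matrix.mul_assoc]
      _ = B.Y i * B.X i * (B.sw i * (B.X i)⁻¹) * (B.Y i)⁻¹ := by
          rw [B.sw_Y i]; simp only [Matrix.mul_assoc]
      _ = B.Y i * B.X i * (B.Y i)⁻¹ * (B.sw i * (B.Y i)⁻¹) := by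
          rw [hs1]; simp only [Matrix.mul_assoc]
      _ = B.Y i * B.X i * (B.Y i)⁻¹ * (B.X i)⁻¹ * B.sw i := by
          rw [hs2]; simp only [Matrix.mul_assoc]
  rw [Matrix.mul_assoc, hsc]
  calc B.X i * B.Y i * (B.X i)⁻¹ * (B.Y i)⁻¹ * (B.Y i * B.X i * (B.Y i)⁻¹ * (B.X i)⁻¹ * B.sw i)
      = B.X i * B.Y i * ((B.X i)⁻¹ * (((B.Y i)⁻¹ * B.Y i) * B.X i)) * (B.Y i)⁻¹ * (B.X i)⁻¹ *
        B.sw i := by simp only [Matrix.mul_assoc]
    _ = B.X i * (B.Y i * (B.Y i)⁻¹) * (B.X i)⁻¹ * B.sw i := by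
        rw [y2, Matrix.one_mul, x2, Matrix.mul_one]; simp only [Matrix.mul_assoc]
    _ = B.sw i := by rw [y1, Matrix.mul_one, x1, Matrix.one_mul]

private theorem pm_FamIC_gi (i : Fin 3) (z : ZI) : (B.gI b z i)⁻¹ * B.gI b z i = 1 := by
  apply Matrix.nonsing_inv_mul
  exact (B.gI_det b z i).isUnit

/-- values of the representation on the elements of the polygon groups -/
theorem repI_PZ (z : ZI) {x y : Fin 6} (hx : x ∈ AZ) (hy : y ∈ AZ) :
    (B.repI b z (elS x y) : M3) = symMat (B.R x * B.R y) := by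
  have key : ∀ f : Fin 6, f ∈ AZ → (B.repI b z (pf f) : M3) = symMat (B.R 0 * B.R f) := by
    intro f hf
    have hd0 := B.pm_FamIC_dd b 0 z
    have hd1 := B.pm_FamIC_dd b 1 z
    simp only [AZ, Finset.mem_insert, Finset.mem_singleton] at hf
    rcases hf with rfl | rfl | rfl
    · show (B.repI b z (1 : Surf) : M3) = _
      rw [pm_FamIC_one, B.R_sq, symMat_one]
    · show (B.repI b z (dd 0) : M3) = _
      rw [hd0]
      rfl
    · show (B.repI b z (dd 0 * dd 1) : M3) = _
      rw [pm_FamIC_mul, hd0, hd1, ← symMat_mul]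
      congr 1
      exact B.pm_FamIC_RR 0 2 4
  have h := B.pm_FamIC_conj (B.repI b z) 1 (pm_FamIC_of _ (key x hx)) (pm_FamIC_of _ (key y hy))
  rw [Matrix.mul_one, Matrix.one_mul] at h
  exact h

theorem repI_PH (z : ZI) (i : Fin 3) {x y : Fin 6} (hx : x ∈ AH i) (hy : y ∈ AH i) :
    (B.repI b z (elH (b i) i x y) : M3) * B.gI b z i =
      B.gI b z i * symMat (B.R x * B.R y) := by
  have key : ∀ f : Fin 6, f ∈ AH i → (B.repI b z (elH (b i) i (l0 i) f) : M3) * B.gI b z i =
      B.gI b z i * symMat (B.R (l0 i) * B.R f) := by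
    intro f hf
    simp only [AH, Finset.mem_insert, Finset.mem_singleton] at hf
    have hgi := B.pm_FamIC_gi b i z
    have hZ := B.pm_FamIC_Zcomm i z
    rcases hf with rfl | rfl | rfl
    · rw [elH_self, pm_FamIC_one, B.R_sq, symMat_one, Matrix.one_mul, Matrix.mul_one]
    · by_cases hb : b i = true
      · have e : elH (b i) i (l0 i) (l1 i) = sy i := by
          rw [elH, if_pos hb, elM_l01]
        rw [e, B.repI_y b z i]
        unfold mY
        rw [if_pos hb, Matrix.mul_assoc, hgi, Matrix.mul_one]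
        rfl
      · have e : elH (b i) i (l0 i) (l1 i) = sx i := by
          rw [elH, if_neg hb, elS_l01]
        rw [e, B.repI_x b z i]
        unfold mX
        rw [if_neg hb, Matrix.mul_assoc, hgi, Matrix.mul_one]
        rfl
    · by_cases hb : b i = true
      · have e : elH (b i) i (l0 i) (l2 i) = (dd i)⁻¹ := by
          rw [elH, if_pos hb, elM_l02]
        have hg : B.gI b z i = B.Zb z i * symMat (B.sw i) := by
          unfold gI; rw [if_pos hb]
        have hd := B.pm_FamIC_dd b i z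
        have h1 : symMat (B.R (l0 i) * B.R (l2 i)) * (B.gI b z i * symMat (B.R (l0 i) * B.R (l2 i)))
            = B.gI b z i := by
          rw [hg]
          calc symMat (B.R (l0 i) * B.R (l2 i)) * (B.Zb z i * symMat (B.sw i) *
                symMat (B.R (l0 i) * B.R (l2 i)))
              = (symMat (B.R (l0 i) * B.R (l2 i)) * B.Zb z i) * (symMat (B.sw i) *
                symMat (B.R (l0 i) * B.R (l2 i))) := by simp only [Matrix.mul_assoc]
            _ = B.Zb z i * (symMat (B.R (l0 i) * B.R (l2 i)) * symMat (B.sw i) *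
                symMat (B.R (l0 i) * B.R (l2 i))) := by
                rw [hZ]; simp only [Matrix.mul_assoc]
            _ = B.Zb z i * symMat (B.sw i) := by
                rw [← symMat_mul, ← symMat_mul, B.pm_FamIC_swC i]
        rw [e]
        calc (B.repI b z (dd i)⁻¹ : M3) * B.gI b z i
            = (B.repI b z (dd i)⁻¹ : M3) * (symMat (B.R (l0 i) * B.R (l2 i)) *
              (B.gI b z i * symMat (B.R (l0 i) * B.R (l2 i)))) := by rw [h1]
          _ = ((B.repI b z (dd i)⁻¹ : M3) * (B.repI b z (dd i) : M3)) *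
              (B.gI b z i * symMat (B.R (l0 i) * B.R (l2 i))) := by
              rw [hd]; simp only [Matrix.mul_assoc]
          _ = B.gI b z i * symMat (B.R (l0 i) * B.R (l2 i)) := by
              rw [pm_FamIC_inv_mul, Matrix.one_mul]
      · have e : elH (b i) i (l0 i) (l2 i) = dd i := by
          rw [elH, if_neg hb, elS_l02]
        have hg : B.gI b z i = B.Zb z i := by
          unfold gI; rw [if_neg hb, Matrix.mul_one]
        rw [e, B.pm_FamIC_dd b i z, hg]
        exact hZ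
  have hel : elH (b i) i x y = (elH (b i) i (l0 i) x)⁻¹ * elH (b i) i (l0 i) y := by
    rw [eq_inv_mul_iff_mul_eq, elH_mul]
  rw [hel]
  exact B.pm_FamIC_conj (B.repI b z) (B.gI b z i) (key x hx) (key y hy)

/-- at the base point the representation is the Fuchsian one on all letters -/
theorem repI_zero (z : ZI) (ht : ∀ i, z.t i = 0) {x y : Fin 6} (hx : x ∈ A5) (hy : y ∈ A5)
    (hb : b 0 = false ∧ b 1 = false) : (B.repI b z (elS x y) : M3) = symMat (B.R x * B.R y) := by
  have hZ : ∀ i, B.Zb z i = 1 := by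
    intro i
    have e : dgv (z.t i) 0 = 1 := by
      ext j
      fin_cases j <;> simp [dgv, ht i]
    unfold Zb cj
    rw [e, show (diagonal (1 : Fin 3 → ℝ) : M3) = 1 from Matrix.diagonal_one, Matrix.mul_one]
    exact pm_FamIC_symd _ (B.fd_det i)
  have hX : ∀ i, b i = false → (B.repI b z (sx i) : M3) = symMat (B.R (l0 i) * B.R (l1 i)) := by
    intro i hi
    rw [B.repI_x b z i]
    have hg : B.gI b z i = 1 := by
      unfold gI
      rw [hZ i, hi]
      simp
    unfold mX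
    rw [hg, hi]
    simp only [Bool.false_eq_true, if_false, Matrix.one_mul, inv_one, Matrix.mul_one]
    rfl
  have key : ∀ f : Fin 6, f ∈ A5 → (B.repI b z (pf f) : M3) = symMat (B.R 0 * B.R f) := by
    intro f hf
    have hd0 := B.pm_FamIC_dd b 0 z
    have hd1 := B.pm_FamIC_dd b 1 z
    simp only [A5, Finset.mem_insert, Finset.mem_singleton] at hf
    rcases hf with rfl | rfl | rfl | rfl | rfl
    · show (B.repI b z (1 : Surf) : M3) = _
      rw [pm_FamIC_one, B.R_sq, symMat_one]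
    · show (B.repI b z (sx 0) : M3) = _
      rw [hX 0 hb.1]
      rfl
    · show (B.repI b z (dd 0) : M3) = _
      rw [hd0]
      rfl
    · show (B.repI b z (dd 0 * sx 1) : M3) = _
      rw [pm_FamIC_mul, hd0, hX 1 hb.2, ← symMat_mul]
      congr 1
      exact B.pm_FamIC_RR 0 2 3
    · show (B.repI b z (dd 0 * dd 1) : M3) = _
      rw [pm_FamIC_mul, hd0, hd1, ← symMat_mul]
      congr 1
      exact B.pm_FamIC_RR 0 2 4
  have h := B.pm_FamIC_conj (B.repI b z) 1 (pm_FamIC_of _ (key x hx)) (pm_FamIC_of _ (key y hy))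
  rw [Matrix.mul_one, Matrix.one_mul] at h
  exact h

end Base

end

end PM3
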