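import Pool.Agent.LibPM3.FamI

/-! Family II: bulge `ac` and twist `tc` along `c = c_0`, handles 0, 1, 2 with `a i`, `th i`, and bulge `t2`
along `d_2`. -/

namespace PM3
open Matrix Filter Topology
open scoped MatrixGroups

noncomputable section

/-- parameters of family II -/
structure ZII : Type where
  t2 : ℝ
  a : Fin 3 → ℝ
  th : Fin 3 → ℝ
  ac : ℝ
  tc : ℝ

/-! ### helper lemmas: groups -/

private theorem pm_FamIIA_key {G : Type*} [Group G] {x y d u v : G} (hd : d * x = x * d)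
    (hv : v = x⁻¹) (hy : y * v = u * y) : (y * d) * x⁻¹ * (y * d)⁻¹ = u := by
  have h1 : d * x⁻¹ = x⁻¹ * d := by
    calc d * x⁻¹ = x⁻¹ * (x * d) * x⁻¹ := by group
      _ = x⁻¹ * (d * x) * x⁻¹ := by rw [hd]
      _ = x⁻¹ * d := by group
  calc (y * d) * x⁻¹ * (y * d)⁻¹ = y * (d * x⁻¹) * (y * d)⁻¹ := by group
    _ = y * (x⁻¹ * d) * (y * d)⁻¹ := by rw [h1]
    _ = (y * x⁻¹) * y⁻¹ := by group
    _ = (u * y) * y⁻¹ := by rw [← hv, hy]
    _ = u := by group

private theorem pm_FamIIA_conj {G : Type*} [Group G] {c x : G} (h : c * x = x * c) :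
    c * x * c⁻¹ = x := by
  rw [h, mul_assoc, mul_inv_cancel, mul_one]

/-- `c = g' w g⁻¹`, `w x⁻¹ w⁻¹ = u` -/
private theorem pm_FamIIA_mm {G : Type*} [Group G] {g g' w x u : G} (h : w * x⁻¹ * w⁻¹ = u) :
    (g' * w * g⁻¹) * (g * x * g⁻¹)⁻¹ * (g' * w * g⁻¹)⁻¹ = g' * u * g'⁻¹ := by
  rw [← h]; group

private theorem pm_FamIIA_com {G : Type*} [Group G] {a b u : G} (h : b * a⁻¹ * b⁻¹ = u) :
    com a b = a * u := by
  rw [← h]; unfold com; group

/-! ### helper lemmas: matrices -/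

private theorem pm_FamIIA_sne {A : M2} (h : A.det ≠ 0) : (symMat A).det ≠ 0 := by
  rw [symMat_det]; exact pow_ne_zero 3 h

private theorem pm_FamIIA_s1 {A : M2} (h : A.det = 1) : (symMat A).det = 1 := by
  rw [symMat_det, h, one_pow]

private theorem pm_FamIIA_eg (L : ℝ) : symMat (eg L) = Cd L 1 := by
  have h1 : Real.exp (-(L / 2)) * Real.exp (-(L / 2)) = Real.exp (-L) := by
    rw [← Real.exp_add]; congr 1; ring
  have h2 : Real.exp (L / 2) * Real.exp (L / 2) = Real.exp L := by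
    rw [← Real.exp_add]; congr 1; ring
  have h3 : Real.exp (-(L / 2)) * Real.exp (L / 2) = 1 := by
    rw [← Real.exp_add]; simp
  ext i j
  fin_cases i <;> fin_cases j <;> simp [symMat, eg, Cd, h1, h2, h3]

private theorem pm_FamIIA_J2 : symMat J2 = J3 := by
  ext i j
  fin_cases i <;> fin_cases j <;> simp [symMat, J2, J3]

private theorem pm_FamIIA_J2det : J2.det = 1 := by
  simp [J2, Matrix.det_fin_two]

private theorem pm_FamIIA_unit {f : M2} (hf : f.det = 1) : IsUnit (symMat f) := by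
  rw [Matrix.isUnit_iff_isUnit_det, pm_FamIIA_s1 hf]
  exact isUnit_one

private theorem pm_FamIIA_inv_mul {f : M2} (hf : f.det = 1) : (symMat f)⁻¹ * symMat f = 1 :=
  Matrix.nonsing_inv_mul _ ((Matrix.isUnit_iff_isUnit_det _).1 (pm_FamIIA_unit hf))

private theorem pm_FamIIA_mul_inv {f : M2} (hf : f.det = 1) : symMat f * (symMat f)⁻¹ = 1 :=
  Matrix.mul_nonsing_inv _ ((Matrix.isUnit_iff_isUnit_det _).1 (pm_FamIIA_unit hf))

private theorem pm_FamIIA_cj_mul {f : M2} (hf : f.det = 1) (d : Fin 3 → ℝ) :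
    cj f d * symMat f = symMat f * diagonal d := by
  unfold cj
  rw [mul_assoc, pm_FamIIA_inv_mul hf, mul_one]

private theorem pm_FamIIA_eig {A f : M2} {L : ℝ} (h : A * f = f * eg L) :
    symMat A * symMat f = symMat f * Cd L 1 := by
  rw [← symMat_mul, h, symMat_mul, pm_FamIIA_eg]

private theorem pm_FamIIA_comm {A f : M2} {L : ℝ} (hf : f.det = 1) (h : A * f = f * eg L)
    (d : Fin 3 → ℝ) : cj f d * symMat A = symMat A * cj f d := by
  have h1 := pm_FamIIA_eig h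
  have h2 : (symMat f)⁻¹ * symMat A = Cd L 1 * (symMat f)⁻¹ := by
    calc (symMat f)⁻¹ * symMat A = (symMat f)⁻¹ * symMat A * (symMat f * (symMat f)⁻¹) := by
          rw [pm_FamIIA_mul_inv hf, mul_one]
      _ = (symMat f)⁻¹ * (symMat A * symMat f) * (symMat f)⁻¹ := by simp only [mul_assoc]
      _ = ((symMat f)⁻¹ * symMat f) * Cd L 1 * (symMat f)⁻¹ := by rw [h1]; simp only [mul_assoc]
      _ = Cd L 1 * (symMat f)⁻¹ := by rw [pm_FamIIA_inv_mul hf, one_mul]
  unfold cj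
  calc symMat f * diagonal d * (symMat f)⁻¹ * symMat A
      = symMat f * diagonal d * ((symMat f)⁻¹ * symMat A) := by simp only [mul_assoc]
    _ = symMat f * (diagonal d * Cd L 1) * (symMat f)⁻¹ := by rw [h2]; simp only [mul_assoc]
    _ = symMat f * (Cd L 1 * diagonal d) * (symMat f)⁻¹ := by
        unfold Cd
        rw [diagonal_mul_diagonal, diagonal_mul_diagonal]
        congr 3
        funext i
        exact mul_comm _ _
    _ = symMat A * (symMat f * diagonal d * (symMat f)⁻¹) := by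
        rw [← mul_assoc (symMat f), ← h1]; simp only [mul_assoc]

private theorem pm_FamIIA_dgv_prod (a t : ℝ) : dgv a t 0 * dgv a t 1 * dgv a t 2 = 1 := by
  simp only [dgv, Matrix.cons_val_zero, Matrix.cons_val_one, Matrix.cons_val]
  rw [← Real.exp_add, ← Real.exp_add, ← Real.exp_zero]
  congr 1
  ring

private theorem pm_FamIIA_dgv_pos (a t : ℝ) (i : Fin 3) : 0 < dgv a t i := by
  fin_cases i <;> simp [dgv, Real.exp_pos]

private theorem pm_FamIIA_cj_det {f : M2} (hf : f.det = 1) (a t : ℝ) :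
    (cj f (dgv a t)).det = 1 := by
  unfold cj
  rw [Matrix.det_conj (pm_FamIIA_unit hf), det_diagonal, Fin.prod_univ_three,
    pm_FamIIA_dgv_prod]

private theorem pm_FamIIA_cj_one {f : M2} (hf : f.det = 1) : cj f (dgv 0 0) = 1 := by
  have h : diagonal (dgv 0 0) = (1 : M3) := by
    rw [← diagonal_one]
    congr 1
    funext i
    fin_cases i <;> simp [dgv]
  unfold cj
  rw [h, mul_one, pm_FamIIA_mul_inv hf]

private theorem pm_FamIIA_J3_diag (d : Fin 3 → ℝ) : J3 * diagonal d = diagonal (revd d) * J3 := by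
  ext i j
  fin_cases i <;> fin_cases j <;>
    simp [J3, revd, Matrix.mul_apply, diagonal]

private theorem pm_FamIIA_diag_one {d e : Fin 3 → ℝ} (h : ∀ i, d i * e i = 1) :
    diagonal d * diagonal e = (1 : M3) := by
  rw [diagonal_mul_diagonal, ← diagonal_one]
  congr 1
  funext i
  exact h i

namespace Base
variable (B : Base) (z : ZII)

/-- bulge and twist along `c` -/
def Zc : M3 := cj B.fc (dgv z.ac (-(z.tc * B.Lc)))

/-- bulge along `d_2` -/
def Z2 : M3 := cj (B.fd 2) (dgv z.t2 0)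

def mX' (i : Fin 3) : M3 :=
  if i = 0 then B.hX 0 else if i = 1 then B.Zc z * B.hX 1 * (B.Zc z)⁻¹
  else B.Z2 z * B.hX 2 * (B.Z2 z)⁻¹

def mY' (i : Fin 3) : M3 :=
  if i = 0 then B.Zc z * B.hY 0 (z.a 0) (z.th 0)
  else if i = 1 then B.hY 1 (z.a 1) (z.th 1) * (B.Zc z)⁻¹
  else B.Z2 z * B.hY 2 (z.a 2) (z.th 2) * (B.Z2 z)⁻¹

private theorem pm_FamIIA_Zc : (B.Zc z).det = 1 := pm_FamIIA_cj_det B.fc_det _ _

private theorem pm_FamIIA_Z2 : (B.Z2 z).det = 1 := pm_FamIIA_cj_det (B.fd_det 2) _ _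

private theorem pm_FamIIA_unit1 {A : M3} (h : A.det = 1) : IsUnit A := by
  rw [Matrix.isUnit_iff_isUnit_det, h]
  exact isUnit_one

private theorem pm_FamIIA_detinv {A : M3} (h : A.det = 1) : (A⁻¹).det = 1 := by
  rw [Matrix.det_nonsing_inv, h, Ring.inverse_one]

private theorem pm_FamIIA_hX (i : Fin 3) : (B.hX i).det = 1 := pm_FamIIA_s1 (B.X_det i)

private theorem pm_FamIIA_Dm (i : Fin 3) (a th : ℝ) : (B.Dm i a th).det = 1 :=
  pm_FamIIA_cj_det (B.fp_det i) _ _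

private theorem pm_FamIIA_hY (i : Fin 3) (a th : ℝ) : (B.hY i a th).det = 1 := by
  unfold hY
  rw [det_mul, pm_FamIIA_s1 (B.Y_det i), pm_FamIIA_Dm, one_mul]

theorem mX'_det (i : Fin 3) : (B.mX' z i).det = 1 := by
  unfold mX'
  split_ifs
  · exact pm_FamIIA_hX B 0
  · rw [Matrix.det_conj (pm_FamIIA_unit1 (pm_FamIIA_Zc B z))]
    exact pm_FamIIA_hX B 1
  · rw [Matrix.det_conj (pm_FamIIA_unit1 (pm_FamIIA_Z2 B z))]
    exact pm_FamIIA_hX B 2

theorem mY'_det (i : Fin 3) : (B.mY' z i).det = 1 := by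
  unfold mY'
  split_ifs
  · rw [det_mul, pm_FamIIA_Zc, pm_FamIIA_hY, one_mul]
  · rw [det_mul, pm_FamIIA_detinv (pm_FamIIA_Zc B z), pm_FamIIA_hY, one_mul]
  · rw [Matrix.det_conj (pm_FamIIA_unit1 (pm_FamIIA_Z2 B z))]
    exact pm_FamIIA_hY B 2 _ _

theorem Zc_det : (B.Zc z).det = 1 := pm_FamIIA_Zc B z

theorem Z2_det : (B.Z2 z).det = 1 := pm_FamIIA_Z2 B z

def slX' (i : Fin 3) : SL(3, ℝ) := ⟨B.mX' z i, B.mX'_det z i⟩
def slY' (i : Fin 3) : SL(3, ℝ) := ⟨B.mY' z i, B.mY'_det z i⟩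

/-! group elements -/

private def gr (f : Fin 6) : GL (Fin 3) ℝ := glOf (symMat (B.R f))
private def gy (i : Fin 3) : GL (Fin 3) ℝ := glOf (symMat (B.Y i))
private def gd (i : Fin 3) : GL (Fin 3) ℝ := glOf (B.Dm i (z.a i) (z.th i))
private def gc : GL (Fin 3) ℝ := glOf (B.Zc z)
private def ge : GL (Fin 3) ℝ := glOf (B.Z2 z)

private theorem pm_FamIIA_R_ne (f : Fin 6) : (B.R f).det ≠ 0 := by
  rw [B.R_det f]; norm_num

private theorem gr_coe (f : Fin 6) : (gr B f : M3) = symMat (B.R f) :=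
  glOf_coe (pm_FamIIA_sne (pm_FamIIA_R_ne B f))

private theorem gy_coe (i : Fin 3) : (gy B i : M3) = symMat (B.Y i) :=
  glOf_coe (by rw [pm_FamIIA_s1 (B.Y_det i)]; exact one_ne_zero)

private theorem gd_coe (i : Fin 3) : (gd B z i : M3) = B.Dm i (z.a i) (z.th i) :=
  glOf_coe (by rw [pm_FamIIA_Dm]; exact one_ne_zero)

private theorem gc_coe : (gc B z : M3) = B.Zc z :=
  glOf_coe (by rw [pm_FamIIA_Zc]; exact one_ne_zero)

private theorem ge_coe : (ge B z : M3) = B.Z2 z :=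
  glOf_coe (by rw [pm_FamIIA_Z2]; exact one_ne_zero)

private theorem gr_sq (f : Fin 6) : gr B f * gr B f = 1 := by
  apply Units.ext
  rw [Units.val_mul, gr_coe, ← symMat_mul, B.R_sq, symMat_one]
  rfl

private theorem gr_inv (f : Fin 6) : (gr B f)⁻¹ = gr B f := by
  rw [inv_eq_iff_mul_eq_one]
  exact gr_sq B f

private theorem gr_mul_coe (f g : Fin 6) : ((gr B f * gr B g : GL (Fin 3) ℝ) : M3) =
    symMat (B.R f * B.R g) := by
  rw [Units.val_mul, gr_coe, gr_coe, symMat_mul]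

private theorem gy_conj (i : Fin 3) : gy B i * (gr B (l1 i) * gr B (l0 i)) =
    gr B (l1 i) * gr B (l2 i) * gy B i := by
  apply Units.ext
  rw [Units.val_mul (gy B i), Units.val_mul _ (gy B i), gr_mul_coe, gr_mul_coe, gy_coe,
    ← symMat_mul, ← symMat_mul,
    B.Y_conj]

private theorem gd_comm (i : Fin 3) : gd B z i * (gr B (l0 i) * gr B (l1 i)) =
    gr B (l0 i) * gr B (l1 i) * gd B z i := by
  apply Units.ext
  rw [Units.val_mul (gd B z i), Units.val_mul _ (gd B z i), gr_mul_coe, gd_coe]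
  exact pm_FamIIA_comm (B.fp_det i) (B.fp_eig i) _

private theorem gc_comm : gc B z * (gr B 1 * gr B 3) = gr B 1 * gr B 3 * gc B z := by
  apply Units.ext
  rw [Units.val_mul (gc B z), Units.val_mul _ (gc B z), gr_mul_coe, gc_coe]
  exact pm_FamIIA_comm B.fc_det B.fc_eig _

private theorem ge_comm : ge B z * (gr B 4 * gr B 0) = gr B 4 * gr B 0 * ge B z := by
  apply Units.ext
  rw [Units.val_mul (ge B z), Units.val_mul _ (ge B z), gr_mul_coe, ge_coe]
  exact pm_FamIIA_comm (B.fd_det 2) (B.fd_eig 2) _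

private theorem gkey (i : Fin 3) : (gy B i * gd B z i) * (gr B (l0 i) * gr B (l1 i))⁻¹ *
    (gy B i * gd B z i)⁻¹ = gr B (l1 i) * gr B (l2 i) :=
  pm_FamIIA_key (gd_comm B z i) (by rw [_root_.mul_inv_rev, gr_inv, gr_inv]) (gy_conj B i)

/-- conjugating elements -/
private def g1 (i : Fin 3) : GL (Fin 3) ℝ := if i = 0 then 1 else if i = 1 then gc B z else ge B z
private def g2 (i : Fin 3) : GL (Fin 3) ℝ := if i = 0 then gc B z else if i = 1 then 1 else ge B z

private theorem toGL_X (i : Fin 3) : Matrix.SpecialLinearGroup.toGL (B.slX' z i) =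
    g1 B z i * (gr B (l0 i) * gr B (l1 i)) * (g1 B z i)⁻¹ := by
  apply Units.ext
  have h0 : ((Matrix.SpecialLinearGroup.toGL (B.slX' z i) : GL (Fin 3) ℝ) : M3) = B.mX' z i := rfl
  rw [h0, Units.val_mul, Units.val_mul, gr_mul_coe, Matrix.coe_units_inv]
  fin_cases i
  · simp [mX', g1, hX, BaseData.X]
  · simp [mX', g1, hX, BaseData.X, gc_coe]
  · simp [mX', g1, hX, BaseData.X, ge_coe]

private theorem toGL_Y (i : Fin 3) : Matrix.SpecialLinearGroup.toGL (B.slY' z i) =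
    g2 B z i * (gy B i * gd B z i) * (g1 B z i)⁻¹ := by
  apply Units.ext
  have h0 : ((Matrix.SpecialLinearGroup.toGL (B.slY' z i) : GL (Fin 3) ℝ) : M3) = B.mY' z i := rfl
  rw [h0, Units.val_mul, Units.val_mul, Units.val_mul, gy_coe, gd_coe, Matrix.coe_units_inv]
  fin_cases i
  · simp [mY', g1, g2, hY, gc_coe]
  · simp [mY', g1, g2, hY, gc_coe]
  · simp [mY', g1, g2, hY, ge_coe]

/-- `[x_i, y_i]` -/
private def gD (i : Fin 3) : GL (Fin 3) ℝ :=
  g1 B z i * (gr B (l0 i) * gr B (l1 i)) * (g1 B z i)⁻¹ *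
    (g2 B z i * (gr B (l1 i) * gr B (l2 i)) * (g2 B z i)⁻¹)

private theorem gcom (i : Fin 3) :
    com (g1 B z i * (gr B (l0 i) * gr B (l1 i)) * (g1 B z i)⁻¹)
      (g2 B z i * (gy B i * gd B z i) * (g1 B z i)⁻¹) = gD B z i :=
  pm_FamIIA_com (pm_FamIIA_mm (gkey B z i))

private theorem gD0 : gD B z 0 = gr B 0 * gr B 1 * (gc B z * (gr B 1 * gr B 2) * (gc B z)⁻¹) := by
  have h : gD B z 0 = 1 * (gr B 0 * gr B 1) * (1 : GL (Fin 3) ℝ)⁻¹ *
    (gc B z * (gr B 1 * gr B 2) * (gc B z)⁻¹) := rfl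
  rw [h, inv_one, mul_one, one_mul]

private theorem gD1 : gD B z 1 = gc B z * (gr B 2 * gr B 3) * (gc B z)⁻¹ * (gr B 3 * gr B 4) := by
  have h : gD B z 1 = gc B z * (gr B 2 * gr B 3) * (gc B z)⁻¹ *
    (1 * (gr B 3 * gr B 4) * (1 : GL (Fin 3) ℝ)⁻¹) := rfl
  rw [h, inv_one, mul_one, one_mul]

private theorem gD2 : gD B z 2 = gr B 4 * gr B 0 := by
  have h : gD B z 2 = ge B z * (gr B 4 * gr B 5) * (ge B z)⁻¹ *
    (ge B z * (gr B 5 * gr B 0) * (ge B z)⁻¹) := rfl
  rw [h]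
  calc ge B z * (gr B 4 * gr B 5) * (ge B z)⁻¹ * (ge B z * (gr B 5 * gr B 0) * (ge B z)⁻¹)
      = ge B z * (gr B 4 * (gr B 5 * gr B 5) * gr B 0) * (ge B z)⁻¹ := by group
    _ = ge B z * (gr B 4 * gr B 0) * (ge B z)⁻¹ := by rw [gr_sq, mul_one]
    _ = gr B 4 * gr B 0 := pm_FamIIA_conj (ge_comm B z)

private theorem gD0c : gD B z 0 * (gc B z * (gr B 2 * gr B 3) * (gc B z)⁻¹) =
    gr B 0 * gr B 3 := by
  rw [gD0]
  calc gr B 0 * gr B 1 * (gc B z * (gr B 1 * gr B 2) * (gc B z)⁻¹) *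
        (gc B z * (gr B 2 * gr B 3) * (gc B z)⁻¹)
      = gr B 0 * gr B 1 * (gc B z * (gr B 1 * (gr B 2 * gr B 2) * gr B 3) * (gc B z)⁻¹) := by group
    _ = gr B 0 * gr B 1 * (gc B z * (gr B 1 * gr B 3) * (gc B z)⁻¹) := by rw [gr_sq, mul_one]
    _ = gr B 0 * gr B 1 * (gr B 1 * gr B 3) := by rw [pm_FamIIA_conj (gc_comm B z)]
    _ = gr B 0 * (gr B 1 * gr B 1) * gr B 3 := by group
    _ = gr B 0 * gr B 3 := by rw [gr_sq, mul_one]

private theorem gD01 : gD B z 0 * gD B z 1 = gr B 0 * gr B 4 := by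
  rw [gD1, ← mul_assoc, gD0c]
  calc gr B 0 * gr B 3 * (gr B 3 * gr B 4) = gr B 0 * (gr B 3 * gr B 3) * gr B 4 := by group
    _ = gr B 0 * gr B 4 := by rw [gr_sq, mul_one]

theorem rel_II : com (B.slX' z 0) (B.slY' z 0) * com (B.slX' z 1) (B.slY' z 1) *
    com (B.slX' z 2) (B.slY' z 2) = 1 := by
  apply Matrix.SpecialLinearGroup.toGL_injective
  have hc : ∀ i : Fin 3, Matrix.SpecialLinearGroup.toGL (com (B.slX' z i) (B.slY' z i)) =
      gD B z i := by
    intro i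
    rw [← gcom, ← toGL_X, ← toGL_Y]
    unfold com
    simp only [map_mul, map_inv]
  rw [map_mul, map_mul, hc, hc, hc, gD01, gD2, map_one]
  calc gr B 0 * gr B 4 * (gr B 4 * gr B 0) = gr B 0 * (gr B 4 * gr B 4) * gr B 0 := by group
    _ = 1 := by rw [gr_sq, mul_one, gr_sq]

/-- the representation of family II -/
def repII : Rep := (surf_lift (B.slX' z) (B.slY' z) (B.rel_II z)).choose

theorem repII_sx (i : Fin 3) : B.repII z (sx i) = B.slX' z i :=
  (surf_lift (B.slX' z) (B.slY' z) (B.rel_II z)).choose_spec.1 i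

theorem repII_sy (i : Fin 3) : B.repII z (sy i) = B.slY' z i :=
  (surf_lift (B.slX' z) (B.slY' z) (B.rel_II z)).choose_spec.2 i

theorem repII_x (i : Fin 3) : (B.repII z (sx i) : M3) = B.mX' z i := by
  rw [repII_sx]; rfl

theorem repII_y (i : Fin 3) : (B.repII z (sy i) : M3) = B.mY' z i := by
  rw [repII_sy]; rfl

/-! the representation with values in `GL` -/

private def rho : Surf →* GL (Fin 3) ℝ := (Matrix.SpecialLinearGroup.toGL).comp (B.repII z)

private theorem rho_coe (g : Surf) : (rho B z g : M3) = (B.repII z g : M3) := rfl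

private theorem rho_x (i : Fin 3) : rho B z (sx i) =
    g1 B z i * (gr B (l0 i) * gr B (l1 i)) * (g1 B z i)⁻¹ := by
  have h : rho B z (sx i) = Matrix.SpecialLinearGroup.toGL (B.repII z (sx i)) := rfl
  rw [h, repII_sx, toGL_X]

private theorem rho_y (i : Fin 3) : rho B z (sy i) =
    g2 B z i * (gy B i * gd B z i) * (g1 B z i)⁻¹ := by
  have h : rho B z (sy i) = Matrix.SpecialLinearGroup.toGL (B.repII z (sy i)) := rfl
  rw [h, repII_sy, toGL_Y]

private theorem rho_dd (i : Fin 3) : rho B z (dd i) = gD B z i := by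
  rw [← gcom, ← rho_x, ← rho_y]
  unfold dd com
  simp only [map_mul, map_inv]

private theorem rho_mm (i : Fin 3) : rho B z (sy i * (sx i)⁻¹ * (sy i)⁻¹) =
    g2 B z i * (gr B (l1 i) * gr B (l2 i)) * (g2 B z i)⁻¹ := by
  rw [map_mul, map_mul, map_inv, map_inv, rho_x, rho_y]
  exact pm_FamIIA_mm (gkey B z i)

private theorem rho_x0 : rho B z (sx 0) = gr B 0 * gr B 1 := by
  have h : rho B z (sx 0) = 1 * (gr B 0 * gr B 1) * (1 : GL (Fin 3) ℝ)⁻¹ := rho_x B z 0
  rw [h, inv_one, mul_one, one_mul]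

private theorem rho_x1 : rho B z (sx 1) = gc B z * (gr B 2 * gr B 3) * (gc B z)⁻¹ :=
  rho_x B z 1

private theorem rho_cc : rho B z (cc 0) = gr B 1 * gr B 3 := by
  have h : cc 0 = sy 0 * (sx 0)⁻¹ * (sy 0)⁻¹ * sx 1 := rfl
  have h2 : rho B z (sy 0 * (sx 0)⁻¹ * (sy 0)⁻¹) = gc B z * (gr B 1 * gr B 2) * (gc B z)⁻¹ :=
    rho_mm B z 0
  rw [h, map_mul, h2, rho_x1]
  calc gc B z * (gr B 1 * gr B 2) * (gc B z)⁻¹ * (gc B z * (gr B 2 * gr B 3) * (gc B z)⁻¹)
      = gc B z * (gr B 1 * (gr B 2 * gr B 2) * gr B 3) * (gc B z)⁻¹ := by group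
    _ = gc B z * (gr B 1 * gr B 3) * (gc B z)⁻¹ := by rw [gr_sq, mul_one]
    _ = gr B 1 * gr B 3 := pm_FamIIA_conj (gc_comm B z)

private theorem g1_coe (i : Fin 3) : (g1 B z i : M3) =
    if i = 0 then 1 else if i = 1 then B.Zc z else B.Z2 z := by
  unfold g1
  split_ifs
  · rfl
  · exact gc_coe B z
  · exact ge_coe B z

private theorem g2_coe (i : Fin 3) : (g2 B z i : M3) =
    if i = 0 then B.Zc z else if i = 1 then 1 else B.Z2 z := by
  unfold g2
  split_ifs
  · exact gc_coe B z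
  · rfl
  · exact ge_coe B z

private theorem gl_inv_mul (g : GL (Fin 3) ℝ) (A : M3) :
    ((g⁻¹ : GL (Fin 3) ℝ) : M3) * ((g : M3) * A) = A := by
  rw [← mul_assoc, ← Units.val_mul, inv_mul_cancel, Units.val_one, one_mul]

/-- boundary relation of an inner frame -/
private theorem pm_FamIIB_rc (h k : GL (Fin 3) ℝ) {A f : M2} {L : ℝ} (hA : A * f = f * eg L)
    (hk : (k : M3) = symMat A) :
    ((h * k * h⁻¹ : GL (Fin 3) ℝ) : M3) * ((h : M3) * symMat f) =
      (h : M3) * symMat f * Cd L 1 := by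
  rw [Units.val_mul, Units.val_mul, mul_assoc, gl_inv_mul, hk, mul_assoc, pm_FamIIA_eig hA,
    mul_assoc]

/-- boundary relation of an outer frame -/
private theorem pm_FamIIB_rc' (h k : GL (Fin 3) ℝ) {A f : M2} {L : ℝ} (hA : A * f = f * eg L)
    (hk : (k : M3) = symMat A) :
    ((h * k⁻¹ * h⁻¹ : GL (Fin 3) ℝ) : M3) * ((h : M3) * symMat (f * J2)) =
      (h : M3) * symMat (f * J2) * Cd L 1 := by
  have h1 : ((k⁻¹ : GL (Fin 3) ℝ) : M3) * symMat f * Cd L 1 = symMat f := by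
    rw [mul_assoc, ← pm_FamIIA_eig hA, ← hk, gl_inv_mul]
  have hC : Cd L 1 * Cd L (-1) = 1 := by
    rw [← Cd_add]
    unfold Cd
    rw [← diagonal_one]
    congr 1
    funext i
    fin_cases i <;> simp
  have h2 : ((k⁻¹ : GL (Fin 3) ℝ) : M3) * symMat f = symMat f * Cd L (-1) := by
    calc ((k⁻¹ : GL (Fin 3) ℝ) : M3) * symMat f
        = ((k⁻¹ : GL (Fin 3) ℝ) : M3) * symMat f * (Cd L 1 * Cd L (-1)) := by rw [hC, mul_one]
      _ = (((k⁻¹ : GL (Fin 3) ℝ) : M3) * symMat f * Cd L 1) * Cd L (-1) := by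
          simp only [mul_assoc]
      _ = symMat f * Cd L (-1) := by rw [h1]
  have h3 : Cd L (-1) * J3 = J3 * Cd L 1 := by
    have h4 := J3_Cd L (-1)
    rw [neg_neg] at h4
    rw [← h4, ← mul_assoc, ← mul_assoc, J3_mul_J3, one_mul]
  rw [Units.val_mul, Units.val_mul, mul_assoc, gl_inv_mul, symMat_mul, pm_FamIIA_J2]
  calc (h : M3) * ((k⁻¹ : GL (Fin 3) ℝ) : M3) * (symMat f * J3)
      = (h : M3) * ((((k⁻¹ : GL (Fin 3) ℝ) : M3) * symMat f) * J3) := by simp only [mul_assoc]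
    _ = (h : M3) * (symMat f * (Cd L (-1) * J3)) := by rw [h2]; simp only [mul_assoc]
    _ = (h : M3) * (symMat f * J3) * Cd L 1 := by rw [h3]; simp only [mul_assoc]

/-! diagonals -/

private theorem pm_FamIIB_revd (a t : ℝ) : revd (dgv a t) = dgv a (-t) := by
  funext i
  fin_cases i <;> simp [revd, dgv, sub_eq_add_neg]

private theorem pm_FamIIB_invr (a t : ℝ) (i : Fin 3) : dgv a (-t) i * invr (dgv a t) i = 1 := by
  fin_cases i <;> simp [invr, dgv, sub_eq_add_neg]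

private theorem pm_FamIIB_revinv {d : Fin 3 → ℝ} (h : ∀ i, 0 < d i) (i : Fin 3) :
    revd d i * invr d i = 1 := by
  have h' : ∀ j, d j * (d j)⁻¹ = 1 := fun j => mul_inv_cancel₀ (h j).ne'
  fin_cases i <;> simp [revd, invr, h']

private theorem pm_FamIIB_invr_pos {d : Fin 3 → ℝ} (h : PosD d) : PosD (invr d) := by
  obtain ⟨h1, h2⟩ := h
  refine ⟨?_, ?_⟩
  · intro i
    fin_cases i
    · simpa [invr] using h1 2
    · simpa [invr] using h1 1
    · simpa [invr] using h1 0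
  · have h3 : invr d 0 * invr d 1 * invr d 2 = (d 0 * d 1 * d 2)⁻¹ := by
      simp only [invr, Matrix.cons_val_zero, Matrix.cons_val_one, Matrix.cons_val]
      rw [_root_.mul_inv, _root_.mul_inv]
      ring
    rw [h3, h2, inv_one]

private theorem pm_FamIIB_dgv (a t : ℝ) : PosD (dgv a t) :=
  ⟨pm_FamIIA_dgv_pos a t, pm_FamIIA_dgv_prod a t⟩

/-- frames -/
def FII (p : QII) (z : ZII) : M3 :=
  match p with
  | QII.dP2 => symMat (B.fd 2)
  | QII.dH2 => B.Z2 z * symMat (B.fd 2 * J2)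
  | QII.mp i => (if i = 0 then 1 else if i = 1 then B.Zc z else B.Z2 z) * symMat (B.fp i)
  | QII.mm i => (if i = 0 then B.Zc z else if i = 1 then 1 else B.Z2 z) * symMat (B.fm i)
  | QII.cQ => symMat B.fc
  | QII.cP => B.Zc z * symMat (B.fc * J2)

theorem FII_det (p : QII) (z : ZII) : (B.FII p z).det ≠ 0 := by
  have hJ : ∀ f : M2, f.det = 1 → (symMat (f * J2)).det = 1 := by
    intro f hf
    apply pm_FamIIA_s1
    rw [det_mul, hf, pm_FamIIA_J2det, one_mul]
  have h1 : (B.FII p z).det = 1 := by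
    cases p with
    | dP2 => exact pm_FamIIA_s1 (B.fd_det 2)
    | dH2 =>
      unfold FII
      simp only
      rw [det_mul, Z2_det, hJ _ (B.fd_det 2), one_mul]
    | mp i =>
      unfold FII
      simp only
      rw [det_mul, pm_FamIIA_s1 (B.fp_det i), mul_one]
      split_ifs
      · exact det_one
      · exact B.Zc_det z
      · exact B.Z2_det z
    | mm i =>
      unfold FII
      simp only
      rw [det_mul, pm_FamIIA_s1 (B.fm_det i), mul_one]
      split_ifs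
      · exact B.Zc_det z
      · exact det_one
      · exact B.Z2_det z
    | cQ => exact pm_FamIIA_s1 B.fc_det
    | cP =>
      unfold FII
      simp only
      rw [det_mul, Zc_det, hJ _ B.fc_det, one_mul]
  rw [h1]
  exact one_ne_zero

/-- boundary elements -/
def cII : QII → Surf
  | QII.dP2 => dd 2
  | QII.dH2 => (dd 2)⁻¹
  | QII.mp i => sx i
  | QII.mm i => sy i * (sx i)⁻¹ * (sy i)⁻¹
  | QII.cQ => cc 0
  | QII.cP => (cc 0)⁻¹

def LII : QII → ℝ
  | QII.dP2 => B.Ld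
  | QII.dH2 => B.Ld
  | QII.mp _ => B.Lm
  | QII.mm _ => B.Lm
  | QII.cQ => B.Lc
  | QII.cP => B.Lc

def barII : QII → QII
  | QII.dP2 => QII.dH2
  | QII.dH2 => QII.dP2
  | QII.mp i => QII.mm i
  | QII.mm i => QII.mp i
  | QII.cQ => QII.cP
  | QII.cP => QII.cQ

def tII : QII → Surf
  | QII.dP2 => 1
  | QII.dH2 => 1
  | QII.mp i => (sy i)⁻¹
  | QII.mm i => sy i
  | QII.cQ => 1
  | QII.cP => 1

def dMM' (i : Fin 3) (z : ZII) : Fin 3 → ℝ :=
  ![(B.eta i) ^ 2 * Real.exp (z.a i - z.th i * B.Lm), Real.exp (-(2 * z.a i)),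
    ((B.eta i) ^ 2)⁻¹ * Real.exp (z.a i + z.th i * B.Lm)]

/-- crossing diagonals -/
def D0II (p : QII) (z : ZII) : Fin 3 → ℝ :=
  match p with
  | QII.dP2 => dgv z.t2 0
  | QII.dH2 => invr (dgv z.t2 0)
  | QII.mp i => invr (B.dMM' i z)
  | QII.mm i => B.dMM' i z
  | QII.cQ => dgv z.ac (z.tc * B.Lc)
  | QII.cP => invr (dgv z.ac (z.tc * B.Lc))

private theorem pm_FamIIA_dMM (i : Fin 3) (z : ZII) : PosD (B.dMM' i z) := by
  have he : B.eta i ^ 2 ≠ 0 := pow_ne_zero 2 (B.eta_ne i)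
  have he0 : 0 < B.eta i ^ 2 := lt_of_le_of_ne (sq_nonneg _) (Ne.symm he)
  refine ⟨?_, ?_⟩
  · intro j
    fin_cases j
    · simp only [dMM', Fin.zero_eta, Matrix.cons_val_zero]
      positivity
    · simp only [dMM', Fin.mk_one, Matrix.cons_val_one, Matrix.cons_val_zero]
      positivity
    · simp only [dMM', Fin.reduceFinMk, Matrix.cons_val]
      positivity
  · simp only [dMM', Matrix.cons_val_zero, Matrix.cons_val_one, Matrix.cons_val]
    have h1 : Real.exp (z.a i - z.th i * B.Lm) * Real.exp (-(2 * z.a i)) *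
        Real.exp (z.a i + z.th i * B.Lm) = 1 := by
      rw [← Real.exp_add, ← Real.exp_add, ← Real.exp_zero]
      congr 1
      ring
    calc B.eta i ^ 2 * Real.exp (z.a i - z.th i * B.Lm) * Real.exp (-(2 * z.a i)) *
          ((B.eta i ^ 2)⁻¹ * Real.exp (z.a i + z.th i * B.Lm))
        = (B.eta i ^ 2 * (B.eta i ^ 2)⁻¹) * (Real.exp (z.a i - z.th i * B.Lm) *
          Real.exp (-(2 * z.a i)) * Real.exp (z.a i + z.th i * B.Lm)) := by ring
      _ = 1 := by rw [h1, mul_inv_cancel₀ he, mul_one]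

theorem D0II_pos (p : QII) (z : ZII) : PosD (B.D0II p z) := by
  cases p with
  | dP2 => exact pm_FamIIB_dgv _ _
  | dH2 => exact pm_FamIIB_invr_pos (pm_FamIIB_dgv _ _)
  | mp i => exact pm_FamIIB_invr_pos (pm_FamIIA_dMM B i z)
  | mm i => exact pm_FamIIA_dMM B i z
  | cQ => exact pm_FamIIB_dgv _ _
  | cP => exact pm_FamIIB_invr_pos (pm_FamIIB_dgv _ _)

theorem tII_c (p : QII) : tII p * cII (barII p) * (tII p)⁻¹ = (cII p)⁻¹ := by
  cases p <;> simp [tII, cII, barII, mul_assoc]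

theorem rcII (p : QII) (z : ZII) :
    (B.repII z (cII p) : M3) * B.FII p z = B.FII p z * Cd (B.LII p) 1 := by
  rw [← rho_coe]
  cases p with
  | dP2 =>
    have h1 : rho B z (dd 2) = gr B 4 * gr B 0 := by rw [rho_dd, gD2]
    have h2 : (rho B z (dd 2) : M3) = symMat (B.R 4 * B.R 0) := by rw [h1, gr_mul_coe]
    have h3 : (rho B z (dd 2) : M3) * symMat (B.fd 2) = symMat (B.fd 2) * Cd B.Ld 1 := by
      rw [h2]
      exact pm_FamIIA_eig (B.fd_eig 2)
    exact h3
  | dH2 =>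
    have h1 : rho B z (dd 2)⁻¹ = ge B z * (gr B 4 * gr B 0)⁻¹ * (ge B z)⁻¹ := by
      rw [map_inv, rho_dd, gD2]
      symm
      apply pm_FamIIA_conj
      exact ((show Commute (ge B z) (gr B 4 * gr B 0) from ge_comm B z).inv_right).eq
    have h3 := pm_FamIIB_rc' (ge B z) (gr B 4 * gr B 0) (A := B.R 4 * B.R 0) (f := B.fd 2)
      (L := B.Ld) (B.fd_eig 2) (gr_mul_coe B 4 0)
    rw [← h1, ge_coe] at h3
    exact h3
  | mp i =>
    have h3 := pm_FamIIB_rc (g1 B z i) (gr B (l0 i) * gr B (l1 i))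
      (A := B.R (l0 i) * B.R (l1 i)) (f := B.fp i) (L := B.Lm) (B.fp_eig i)
      (gr_mul_coe B (l0 i) (l1 i))
    rw [← rho_x, g1_coe] at h3
    exact h3
  | mm i =>
    have h3 := pm_FamIIB_rc (g2 B z i) (gr B (l1 i) * gr B (l2 i))
      (A := B.R (l1 i) * B.R (l2 i)) (f := B.fm i) (L := B.Lm) (B.fm_eig i)
      (gr_mul_coe B (l1 i) (l2 i))
    rw [← rho_mm, g2_coe] at h3
    exact h3
  | cQ =>
    have h2 : (rho B z (cc 0) : M3) = symMat (B.R 1 * B.R 3) := by rw [rho_cc, gr_mul_coe]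
    have h3 : (rho B z (cc 0) : M3) * symMat B.fc = symMat B.fc * Cd B.Lc 1 := by
      rw [h2]
      exact pm_FamIIA_eig B.fc_eig
    exact h3
  | cP =>
    have h1 : rho B z (cc 0)⁻¹ = gc B z * (gr B 1 * gr B 3)⁻¹ * (gc B z)⁻¹ := by
      rw [map_inv, rho_cc]
      symm
      apply pm_FamIIA_conj
      exact ((show Commute (gc B z) (gr B 1 * gr B 3) from gc_comm B z).inv_right).eq
    have h3 := pm_FamIIB_rc' (gc B z) (gr B 1 * gr B 3) (A := B.R 1 * B.R 3) (f := B.fc)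
      (L := B.Lc) B.fc_eig (gr_mul_coe B 1 3)
    rw [← h1, gc_coe] at h3
    exact h3

private theorem pm_FamIIB_y (i : Fin 3) (z : ZII) :
    (rho B z (sy i) : M3) * ((g1 B z i : M3) * symMat (B.fp i)) =
      (g2 B z i : M3) * symMat (B.fm i) * J3 * diagonal (B.dMM' i z) := by
  have hs : symMat !![B.eta i, 0; 0, (B.eta i)⁻¹] = diagonal ![B.eta i ^ 2, 1, (B.eta i ^ 2)⁻¹] := by
    have he := B.eta_ne i
    ext a b
    fin_cases a <;> fin_cases b <;> simp [symMat, he] <;> ring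
  have hY : symMat (B.Y i) * symMat (B.fp i) =
      symMat (B.fm i) * J3 * diagonal ![B.eta i ^ 2, 1, (B.eta i ^ 2)⁻¹] := by
    rw [← symMat_mul, B.Y_fp, symMat_mul, symMat_mul, pm_FamIIA_J2, hs]
  have hD : B.Dm i (z.a i) (z.th i) * symMat (B.fp i) =
      symMat (B.fp i) * diagonal (dgv (z.a i) (-(z.th i * B.Lm))) :=
    pm_FamIIA_cj_mul (B.fp_det i) _
  have hdd : diagonal ![B.eta i ^ 2, 1, (B.eta i ^ 2)⁻¹] *
      diagonal (dgv (z.a i) (-(z.th i * B.Lm))) = (diagonal (B.dMM' i z) : M3) := by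
    rw [diagonal_mul_diagonal]
    congr 1
    funext j
    fin_cases j <;> simp [dgv, dMM', sub_eq_add_neg]
  rw [rho_y, Units.val_mul, Units.val_mul, Units.val_mul, gy_coe, gd_coe, mul_assoc, gl_inv_mul]
  calc (g2 B z i : M3) * (symMat (B.Y i) * B.Dm i (z.a i) (z.th i)) * symMat (B.fp i)
      = (g2 B z i : M3) * (symMat (B.Y i) * (B.Dm i (z.a i) (z.th i) * symMat (B.fp i))) := by
        simp only [mul_assoc]
    _ = (g2 B z i : M3) * ((symMat (B.Y i) * symMat (B.fp i)) *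
          diagonal (dgv (z.a i) (-(z.th i * B.Lm)))) := by rw [hD]; simp only [mul_assoc]
    _ = (g2 B z i : M3) * (symMat (B.fm i) * J3 * (diagonal ![B.eta i ^ 2, 1, (B.eta i ^ 2)⁻¹] *
          diagonal (dgv (z.a i) (-(z.th i * B.Lm))))) := by rw [hY]; simp only [mul_assoc]
    _ = (g2 B z i : M3) * symMat (B.fm i) * J3 * diagonal (B.dMM' i z) := by
        rw [hdd]; simp only [mul_assoc]

private theorem pm_FamIIB_rep1 (z : ZII) : ((B.repII z (1 : Surf) : SL(3, ℝ)) : M3) = 1 := by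
  rw [map_one]; rfl

theorem glueII (p : QII) (z : ZII) :
    (B.repII z (tII p) : M3) * B.FII (barII p) z = B.FII p z * J3 * diagonal (B.D0II p z) := by
  cases p with
  | dP2 =>
    have h : (B.repII z (1 : Surf) : M3) * (B.Z2 z * symMat (B.fd 2 * J2)) =
        symMat (B.fd 2) * J3 * diagonal (dgv z.t2 0) := by
      rw [pm_FamIIB_rep1, one_mul, symMat_mul, pm_FamIIA_J2, ← mul_assoc]
      have h1 : B.Z2 z * symMat (B.fd 2) = symMat (B.fd 2) * diagonal (dgv z.t2 0) :=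
        pm_FamIIA_cj_mul (B.fd_det 2) _
      rw [h1, mul_assoc, mul_assoc, pm_FamIIA_J3_diag, pm_FamIIB_revd, neg_zero]
    exact h
  | dH2 =>
    have h : (B.repII z (1 : Surf) : M3) * symMat (B.fd 2) =
        (B.Z2 z * symMat (B.fd 2 * J2)) * J3 * diagonal (invr (dgv z.t2 0)) := by
      rw [pm_FamIIB_rep1, one_mul, symMat_mul, pm_FamIIA_J2, ← mul_assoc]
      have h1 : B.Z2 z * symMat (B.fd 2) = symMat (B.fd 2) * diagonal (dgv z.t2 0) :=
        pm_FamIIA_cj_mul (B.fd_det 2) _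
      have h2 : diagonal (dgv z.t2 0) * diagonal (invr (dgv z.t2 0)) = (1 : M3) := by
        apply pm_FamIIA_diag_one
        intro i
        have := pm_FamIIB_invr z.t2 0 i
        rwa [neg_zero] at this
      rw [h1, mul_assoc _ J3 J3, J3_mul_J3, mul_one, mul_assoc, h2, mul_one]
    exact h
  | mp i =>
    have hE := pm_FamIIB_y B i z
    have hd : (J3 * diagonal (B.dMM' i z)) * (J3 * diagonal (invr (B.dMM' i z))) = 1 := by
      rw [pm_FamIIA_J3_diag, mul_assoc, ← mul_assoc J3 J3, J3_mul_J3, one_mul]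
      exact pm_FamIIA_diag_one (pm_FamIIB_revinv (pm_FamIIA_dMM B i z).1)
    have h : (rho B z (sy i)⁻¹ : M3) * ((g2 B z i : M3) * symMat (B.fm i)) =
        ((g1 B z i : M3) * symMat (B.fp i)) * J3 * diagonal (invr (B.dMM' i z)) := by
      have h5 : (g1 B z i : M3) * symMat (B.fp i) = (rho B z (sy i)⁻¹ : M3) *
          ((g2 B z i : M3) * symMat (B.fm i) * J3 * diagonal (B.dMM' i z)) := by
        rw [← hE, map_inv, gl_inv_mul]
      rw [h5]
      calc (rho B z (sy i)⁻¹ : M3) * ((g2 B z i : M3) * symMat (B.fm i))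
          = (rho B z (sy i)⁻¹ : M3) * ((g2 B z i : M3) * symMat (B.fm i)) *
            ((J3 * diagonal (B.dMM' i z)) * (J3 * diagonal (invr (B.dMM' i z)))) := by
              rw [hd, mul_one]
        _ = _ := by simp only [mul_assoc]
    rw [g1_coe, g2_coe, rho_coe] at h
    exact h
  | mm i =>
    have h := pm_FamIIB_y B i z
    rw [g1_coe, g2_coe, rho_coe] at h
    exact h
  | cQ =>
    have h : (B.repII z (1 : Surf) : M3) * (B.Zc z * symMat (B.fc * J2)) =
        symMat B.fc * J3 * diagonal (dgv z.ac (z.tc * B.Lc)) := by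
      rw [pm_FamIIB_rep1, one_mul, symMat_mul, pm_FamIIA_J2, ← mul_assoc]
      have h1 : B.Zc z * symMat B.fc = symMat B.fc * diagonal (dgv z.ac (-(z.tc * B.Lc))) :=
        pm_FamIIA_cj_mul B.fc_det _
      rw [h1, mul_assoc, mul_assoc, pm_FamIIA_J3_diag, pm_FamIIB_revd]
    exact h
  | cP =>
    have h : (B.repII z (1 : Surf) : M3) * symMat B.fc =
        (B.Zc z * symMat (B.fc * J2)) * J3 * diagonal (invr (dgv z.ac (z.tc * B.Lc))) := by
      rw [pm_FamIIB_rep1, one_mul, symMat_mul, pm_FamIIA_J2, ← mul_assoc]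
      have h1 : B.Zc z * symMat B.fc = symMat B.fc * diagonal (dgv z.ac (-(z.tc * B.Lc))) :=
        pm_FamIIA_cj_mul B.fc_det _
      have h2 : diagonal (dgv z.ac (-(z.tc * B.Lc))) * diagonal (invr (dgv z.ac (z.tc * B.Lc))) =
          (1 : M3) := pm_FamIIA_diag_one (pm_FamIIB_invr z.ac (z.tc * B.Lc))
      rw [h1, mul_assoc _ J3 J3, J3_mul_J3, mul_one, mul_assoc, h2, mul_one]
    exact h

/-- the port system of family II -/
def psII : PS Surf ZII QII where
  r z := (Matrix.SpecialLinearGroup.toGL).comp (B.repII z)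
  c := cII
  F p z := glOf (B.FII p z)
  L := B.LII
  bar := barII
  t := tII
  D0 := B.D0II
  L_pos := by
    intro p; cases p
    · exact B.hLd
    · exact B.hLd
    · exact B.hLm
    · exact B.hLm
    · exact B.hLc
    · exact B.hLc
  D0_pos := B.D0II_pos
  bar_bar := by intro p; cases p <;> rfl
  bar_ne := by intro p; cases p <;> simp [barII]
  L_bar := by intro p; cases p <;> rfl
  t_bar := by intro p; cases p <;> simp [tII, barII]
  t_c := tII_c
  rc := by
    intro p z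
    have h := B.rcII p z
    rw [glOf_coe (B.FII_det p z)]
    exact h
  glue := by
    intro p z
    have h := B.glueII p z
    rw [glOf_coe (B.FII_det p z), glOf_coe (B.FII_det (barII p) z)]
    exact h

private theorem pm_FamIIB_els (z : ZII) {u v w : GL (Fin 3) ℝ} {x y : Fin 6}
    (hx : rho B z (pf x) = u * (v * gr B x) * w) (hy : rho B z (pf y) = u * (v * gr B y) * w) :
    rho B z (elS x y) = w⁻¹ * (gr B x * gr B y) * w := by
  unfold elS
  rw [map_mul, map_inv, hx, hy]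
  calc (u * (v * gr B x) * w)⁻¹ * (u * (v * gr B y) * w)
      = w⁻¹ * ((gr B x)⁻¹ * gr B y) * w := by group
    _ = w⁻¹ * (gr B x * gr B y) * w := by rw [gr_inv]

private theorem pm_FamIIB_pf0 (z : ZII) : rho B z (pf 0) = 1 * (gr B 0 * gr B 0) * 1 := by
  have h : pf 0 = 1 := rfl
  rw [h, map_one, gr_sq, mul_one, mul_one]

private theorem pm_FamIIB_pf1 (z : ZII) : rho B z (pf 1) = 1 * (gr B 0 * gr B 1) * 1 := by
  have h : pf 1 = sx 0 := rfl
  rw [h, rho_x0, mul_one, one_mul]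

private theorem pm_FamIIB_pf3 (z : ZII) : rho B z (pf 3) = 1 * (gr B 0 * gr B 3) * 1 := by
  have h : pf 3 = dd 0 * sx 1 := rfl
  rw [h, map_mul, rho_dd, rho_x1, gD0c, mul_one, one_mul]

private theorem pm_FamIIB_pf4 (z : ZII) : rho B z (pf 4) = 1 * (gr B 0 * gr B 4) * 1 := by
  have h : pf 4 = dd 0 * dd 1 := rfl
  rw [h, map_mul, rho_dd, rho_dd, gD01, mul_one, one_mul]

private theorem pm_FamIIB_fin {z : ZII} {x y : Fin 6}
    (h : rho B z (elS x y) = 1⁻¹ * (gr B x * gr B y) * 1) :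
    (B.repII z (elS x y) : M3) = symMat (B.R x * B.R y) := by
  rw [← rho_coe, h, inv_one, mul_one, one_mul, gr_mul_coe]

theorem repII_QC (z : ZII) {x y : Fin 6} (hx : x ∈ AQc) (hy : y ∈ AQc) :
    (B.repII z (elS x y) : M3) = symMat (B.R x * B.R y) := by
  have hp : ∀ u ∈ AQc, rho B z (pf u) = 1 * (gr B 0 * gr B u) * 1 := by
    intro u hu
    simp only [AQc, Finset.mem_insert, Finset.mem_singleton] at hu
    rcases hu with rfl | rfl | rfl | rfl
    · exact pm_FamIIB_pf0 B z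
    · exact pm_FamIIB_pf1 B z
    · exact pm_FamIIB_pf3 B z
    · exact pm_FamIIB_pf4 B z
  exact pm_FamIIB_fin B (pm_FamIIB_els B z (hp x hx) (hp y hy))

theorem repII_PC (z : ZII) {x y : Fin 6} (hx : x ∈ APc) (hy : y ∈ APc) :
    (B.repII z (elS x y) : M3) * B.Zc z = B.Zc z * symMat (B.R x * B.R y) := by
  have hp : ∀ u ∈ APc, rho B z (pf u) =
      (gr B 0 * gr B 1 * gc B z) * (gr B 1 * gr B u) * (gc B z)⁻¹ := by
    intro u hu
    simp only [APc, Finset.mem_insert, Finset.mem_singleton] at hu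
    rcases hu with rfl | rfl | rfl
    · rw [pm_FamIIB_pf1, gr_sq]; group
    · have h : pf 2 = dd 0 := rfl
      rw [h, rho_dd, gD0]; group
    · rw [pm_FamIIB_pf3]
      calc 1 * (gr B 0 * gr B 3) * 1 = gr B 0 * (gr B 1 * gr B 1) * gr B 3 := by
            rw [gr_sq]; group
        _ = gr B 0 * gr B 1 * (gr B 1 * gr B 3) := by group
        _ = gr B 0 * gr B 1 * (gc B z * (gr B 1 * gr B 3) * (gc B z)⁻¹) := by
            rw [pm_FamIIA_conj (gc_comm B z)]
        _ = _ := by group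
  have h := pm_FamIIB_els B z (hp x hx) (hp y hy)
  rw [inv_inv] at h
  rw [← rho_coe, h, ← gc_coe, Units.val_mul, Units.val_mul, gr_mul_coe, mul_assoc, ← Units.val_mul,
    inv_mul_cancel, Units.val_one, mul_one]

private theorem pm_FamIIB_Zc1 {z : ZII} (h1 : z.ac = 0) (h2 : z.tc = 0) : B.Zc z = 1 := by
  unfold Zc
  rw [h1, h2, zero_mul, neg_zero]
  exact pm_FamIIA_cj_one B.fc_det

theorem repII_zero (z : ZII) (h1 : z.ac = 0) (h2 : z.tc = 0) {x y : Fin 6} (hx : x ∈ A5) (hy : y ∈ A5) :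
    (B.repII z (elS x y) : M3) = symMat (B.R x * B.R y) := by
  have hc : gc B z = 1 := by
    apply Units.ext
    rw [gc_coe, pm_FamIIB_Zc1 B h1 h2]
    rfl
  have hp : ∀ u ∈ A5, rho B z (pf u) = 1 * (gr B 0 * gr B u) * 1 := by
    intro u hu
    simp only [A5, Finset.mem_insert, Finset.mem_singleton] at hu
    rcases hu with rfl | rfl | rfl | rfl | rfl
    · exact pm_FamIIB_pf0 B z
    · exact pm_FamIIB_pf1 B z
    · have h : pf 2 = dd 0 := rfl
      rw [h, rho_dd, gD0, hc]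
      calc gr B 0 * gr B 1 * (1 * (gr B 1 * gr B 2) * 1⁻¹)
          = 1 * (gr B 0 * (gr B 1 * gr B 1) * gr B 2) * 1 := by group
        _ = 1 * (gr B 0 * gr B 2) * 1 := by rw [gr_sq, mul_one (gr B 0)]
    · exact pm_FamIIB_pf3 B z
    · exact pm_FamIIB_pf4 B z
  exact pm_FamIIB_fin B (pm_FamIIB_els B z (hp x hx) (hp y hy))

/-- at `ac = tc = 0` the family agrees with family I at `t_0 = t_1 = 0` -/
theorem repII_eq_repI (z : ZII) (h1 : z.ac = 0) (h2 : z.tc = 0) (w : ZI) (hw0 : w.t 0 = 0)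
    (hw1 : w.t 1 = 0) (hw2 : w.t 2 = z.t2) (ha : w.a = z.a) (hth : w.th = z.th)
    (b : Fin 3 → Bool) (hb : ∀ i, b i = false) : B.repII z = B.repI b w := by
  have hZc : B.Zc z = 1 := pm_FamIIB_Zc1 B h1 h2
  have hZ0 : B.Zb w 0 = 1 := by
    unfold Zb
    rw [hw0]
    exact pm_FamIIA_cj_one (B.fd_det 0)
  have hZ1 : B.Zb w 1 = 1 := by
    unfold Zb
    rw [hw1]
    exact pm_FamIIA_cj_one (B.fd_det 1)
  have hZ2 : B.Zb w 2 = B.Z2 z := by
    unfold Zb Z2
    rw [hw2]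
  have hg : ∀ i, B.gI b w i = B.Zb w i := by
    intro i
    unfold gI
    rw [hb i]
    simp
  have hX : ∀ i, B.mX' z i = B.mX b w i := by
    intro i
    unfold mX
    rw [hg, hb i]
    fin_cases i
    · simp [mX', hZ0]
    · simp [mX', hZ1, hZc]
    · simp [mX', hZ2]
  have hY : ∀ i, B.mY' z i = B.mY b w i := by
    intro i
    unfold mY
    rw [hg, hb i, ha, hth]
    fin_cases i
    · simp [mY', hZ0, hZc]
    · simp [mY', hZ1, hZc]
    · simp [mY', hZ2]
  apply surf_ext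
  · intro i
    apply Subtype.ext
    rw [repII_x, repI_x, hX]
  · intro i
    apply Subtype.ext
    rw [repII_y, repI_y, hY]

end Base

end

end PM3
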