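import Pool.Agent.LibPM3.Base

/-! The concrete base data, depending on a small angle `ω`. -/

namespace PM3
open Matrix Filter Topology Real

noncomputable section

/-- reflection (matrix of determinant -1) in the geodesic with endpoints `φ ± ω` -/
def iv (w φ : ℝ) : M2 := (1 / sin w) • !![-sin φ, cos φ + cos w; cos φ - cos w, sin φ]

/-- rotation -/
def rot (t : ℝ) : M2 := !![cos t, -sin t; sin t, cos t]

/-- frame of the arc from `a` to `b` (boundary points `(cos (t/2), sin (t/2))`) -/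
def fr (a b : ℝ) : M2 := (1 / Real.sqrt (sin ((b - a) / 2))) • !![cos (a / 2), cos (b / 2); sin (a / 2), sin (b / 2)]

/-- half-width of the outer arc of a port with half-gap `Δ` -/
def nu (w Δ : ℝ) : ℝ := arccos (cos Δ / cos w)

/-- inner frame of the port between the letters at angles `lo` and `hi` -/
def pfr (w lo hi : ℝ) : M2 :=
  fr ((lo + hi) / 2 + nu w ((hi - lo) / 2)) ((lo + hi) / 2 - nu w ((hi - lo) / 2) + 2 * π)

def mmw (w Δ : ℝ) : ℝ := (sin Δ - Real.sqrt (cos w ^ 2 - cos Δ ^ 2)) / sin w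

def Lpw (w Δ : ℝ) : ℝ := -4 * Real.log (mmw w Δ)

/-- angle of the letter `f` -/
def ang (f : ℕ) : ℝ := f * (π / 3)

/-- reflection in the diameter through the letter 1 -/
def refl : M2 := !![1 / 2, Real.sqrt 3 / 2; Real.sqrt 3 / 2, -(1 / 2)]

def disc (w : ℝ) : ℝ := 12 * cos w ^ 6 - 20 * cos w ^ 4 + 12 * cos w ^ 2 - 3

def be (w : ℝ) : ℝ := (1 - 2 * cos w ^ 2) / cos w

def al (w : ℝ) : ℝ := -((1 - 2 * cos w ^ 2) ^ 2 + Real.sqrt (disc w)) / (2 * cos w * sin w ^ 2)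

def X0 (w : ℝ) : M2 := iv w 0 * iv w (π / 3)

def Y0 (w : ℝ) : M2 := refl * (al w • (1 : M2) + be w • X0 w)

/-- the base data -/
def bd (w mu M : ℝ) : BaseData where
  rt := rot (π / 3)
  R f := iv w (ang f.val)
  k f := fr (ang f.val - w) (ang f.val + w)
  Y i := rot (i.val * (π / 3)) * Y0 w * rot (-(i.val * (π / 3)))
  fd i := pfr w (ang (2 * i.val)) (ang (2 * i.val + 2))
  fp i := pfr w (ang (2 * i.val)) (ang (2 * i.val + 1))
  fm i := pfr w (ang (2 * i.val + 1)) (ang (2 * i.val + 2))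
  fc := pfr w (ang 1) (ang 3)
  Ld := Lpw w (π / 3)
  Lm := Lpw w (π / 6)
  Lc := Lpw w (π / 3)
  lb := 1 / (4 * w)
  mu := mu
  M := M

/-! ### elementary identities -/

theorem iv_sq {w : ℝ} (h : sin w ≠ 0) (φ : ℝ) : iv w φ * iv w φ = 1 := by
  have h3 : sin φ ^ 2 + cos φ ^ 2 = 1 := sin_sq_add_cos_sq φ
  have h4 : sin w ^ 2 + cos w ^ 2 = 1 := sin_sq_add_cos_sq w
  unfold iv
  rw [smul_mul_smul_comm, Matrix.mul_fin_two, Matrix.one_fin_two, Matrix.smul_of]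
  ext i j
  fin_cases i <;> fin_cases j <;> simp
  · field_simp
    nlinarith
  · right
    ring
  · right
    ring
  · field_simp
    nlinarith

theorem iv_det {w : ℝ} (h : sin w ≠ 0) (φ : ℝ) : (iv w φ).det = -1 := by
  have h3 : sin φ ^ 2 + cos φ ^ 2 = 1 := sin_sq_add_cos_sq φ
  have h4 : sin w ^ 2 + cos w ^ 2 = 1 := sin_sq_add_cos_sq w
  unfold iv
  rw [Matrix.det_smul, Matrix.det_fin_two_of]
  simp only [Fintype.card_fin]
  field_simp
  nlinarith

theorem iv_rot (w φ t : ℝ) : iv w (φ + 2 * t) * rot t = rot t * iv w φ := by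
  have h1 : sin (φ + 2 * t) = sin φ * (1 - 2 * sin t ^ 2) + cos φ * (2 * sin t * cos t) := by
    rw [sin_add, cos_two_mul, sin_two_mul, cos_sq']
    ring
  have h2 : cos (φ + 2 * t) = cos φ * (1 - 2 * sin t ^ 2) - sin φ * (2 * sin t * cos t) := by
    rw [cos_add, cos_two_mul, sin_two_mul, cos_sq']
    ring
  have h3 : cos t ^ 2 = 1 - sin t ^ 2 := cos_sq' t
  unfold iv rot
  rw [Matrix.smul_mul, Matrix.mul_smul, Matrix.mul_fin_two, Matrix.mul_fin_two, h1, h2]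
  congr 1
  ext i j
  fin_cases i <;> fin_cases j <;> simp
  · linear_combination (-(2 * sin t * cos φ)) * h3
  · linear_combination (-(2 * sin t * sin φ)) * h3
  · linear_combination (-(2 * sin t * sin φ)) * h3
  · linear_combination (2 * sin t * cos φ) * h3

theorem iv_period (w φ : ℝ) (n : ℤ) : iv w (φ + n * (2 * π)) = iv w φ := by
  unfold iv
  rw [sin_add_int_mul_two_pi, cos_add_int_mul_two_pi]

theorem rot_add (s t : ℝ) : rot (s + t) = rot s * rot t := by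
  unfold rot
  rw [Matrix.mul_fin_two, sin_add, cos_add]
  ext i j
  fin_cases i <;> fin_cases j <;> simp <;> ring

theorem fr_det {a b : ℝ} (h : 0 < sin ((b - a) / 2)) : (fr a b).det = 1 := by
  have h1 : sin ((b - a) / 2) = sin (b / 2) * cos (a / 2) - cos (b / 2) * sin (a / 2) := by
    rw [← sin_sub]
    congr 1
    ring
  unfold fr
  rw [Matrix.det_smul, Matrix.det_fin_two_of]
  simp only [Fintype.card_fin]
  rw [div_pow, one_pow, Real.sq_sqrt h.le]
  field_simp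
  rw [h1]
  ring

/-- change between two arcs -/
theorem fr_inv_mul {a b c d : ℝ} (h : 0 < sin ((b - a) / 2)) (h' : 0 < sin ((d - c) / 2)) :
    (fr a b)⁻¹ * fr c d = (1 / (Real.sqrt (sin ((b - a) / 2)) * Real.sqrt (sin ((d - c) / 2)))) •
      !![sin ((b - c) / 2), sin ((b - d) / 2); sin ((c - a) / 2), sin ((d - a) / 2)] := by
  have hs : 0 < Real.sqrt (sin ((b - a) / 2)) := Real.sqrt_pos.2 h
  have hs' : 0 < Real.sqrt (sin ((d - c) / 2)) := Real.sqrt_pos.2 h'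
  have hinv : (fr a b)⁻¹ = (1 / Real.sqrt (sin ((b - a) / 2))) •
      !![sin (b / 2), -cos (b / 2); -sin (a / 2), cos (a / 2)] := by
    rw [Matrix.inv_def, fr_det h]
    simp only [Ring.inverse_one, one_smul]
    unfold fr
    rw [Matrix.adjugate_smul, Matrix.adjugate_fin_two_of]
    simp
  have f1 : ∀ x y : ℝ, sin ((x - y) / 2) = sin (x / 2) * cos (y / 2) - cos (x / 2) * sin (y / 2) := by
    intro x y
    rw [← sin_sub]
    congr 1
    ring
  rw [hinv]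
  unfold fr
  rw [smul_mul_smul_comm, Matrix.mul_fin_two, f1 b c, f1 b d, f1 c a, f1 d a]
  have e : (1 / Real.sqrt (sin ((b - a) / 2))) * (1 / Real.sqrt (sin ((d - c) / 2)))
      = 1 / (Real.sqrt (sin ((b - a) / 2)) * Real.sqrt (sin ((d - c) / 2))) := by
    field_simp
  rw [e]
  congr 1
  ext i j
  fin_cases i <;> fin_cases j <;> simp <;> ring

theorem fr_J2 {a b : ℝ} (h : 0 < sin ((b - a) / 2)) : fr a b * J2 = fr b (a + 2 * π) := by
  have h1 : sin ((a + 2 * π - b) / 2) = sin ((b - a) / 2) := by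
    have : (a + 2 * π - b) / 2 = π - (b - a) / 2 := by ring
    rw [this, sin_pi_sub]
  have h2 : cos ((a + 2 * π) / 2) = - cos (a / 2) := by
    have : (a + 2 * π) / 2 = a / 2 + π := by ring
    rw [this, cos_add_pi]
  have h3 : sin ((a + 2 * π) / 2) = - sin (a / 2) := by
    have : (a + 2 * π) / 2 = a / 2 + π := by ring
    rw [this, sin_add_pi]
  unfold fr J2
  rw [Matrix.smul_mul, Matrix.mul_fin_two, h1, h2, h3]
  simp

theorem rot_fr (t a b : ℝ) : rot t * fr a b = fr (a + 2 * t) (b + 2 * t) := by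
  have e1 : (b + 2 * t - (a + 2 * t)) / 2 = (b - a) / 2 := by ring
  have e2 : (a + 2 * t) / 2 = a / 2 + t := by ring
  have e3 : (b + 2 * t) / 2 = b / 2 + t := by ring
  unfold fr rot
  rw [Matrix.mul_smul, Matrix.mul_fin_two, e1, e2, e3, sin_add, cos_add, sin_add, cos_add]
  congr 1
  ext i j
  fin_cases i <;> fin_cases j <;> simp <;> ring

/-- the reflection in its own frame -/
theorem iv_k {w : ℝ} (hw : 0 < w) (hw' : w < 1) (φ : ℝ) :
    iv w φ * fr (φ - w) (φ + w) = fr (φ - w) (φ + w) * !![-1, 0; 0, 1] := by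
  have hs : 0 < sin w := sin_pos_of_pos_of_lt_pi hw (by linarith [pi_gt_three])
  have e1 : (φ + w - (φ - w)) / 2 = w := by ring
  have e2 : (φ - w) / 2 = φ / 2 - w / 2 := by ring
  have e3 : (φ + w) / 2 = φ / 2 + w / 2 := by ring
  have d1 : sin φ = 2 * sin (φ / 2) * cos (φ / 2) := by
    rw [← sin_two_mul]; congr 1; ring
  have d2 : cos φ = 1 - 2 * sin (φ / 2) ^ 2 := by
    have : cos φ = cos (2 * (φ / 2)) := by congr 1; ring
    rw [this, cos_two_mul, cos_sq']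
    ring
  have d3 : sin w = 2 * sin (w / 2) * cos (w / 2) := by
    rw [← sin_two_mul]; congr 1; ring
  have d4 : cos w = 1 - 2 * sin (w / 2) ^ 2 := by
    have : cos w = cos (2 * (w / 2)) := by congr 1; ring
    rw [this, cos_two_mul, cos_sq']
    ring
  have c1 : cos (φ / 2) ^ 2 = 1 - sin (φ / 2) ^ 2 := cos_sq' _
  have c2 : cos (w / 2) ^ 2 = 1 - sin (w / 2) ^ 2 := cos_sq' _
  unfold iv fr
  rw [e1, e2, e3, cos_sub, sin_sub, cos_add, sin_add, smul_mul_smul_comm, Matrix.smul_mul,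
    Matrix.mul_fin_two, Matrix.mul_fin_two, mul_comm (1 / sin w), ← smul_smul]
  congr 1
  set sf := sin (φ / 2)
  set cf := cos (φ / 2)
  set sw := sin (w / 2)
  set cw := cos (w / 2)
  rw [Matrix.smul_of]
  have hsw : 2 * sw * cw ≠ 0 := by rw [← d3]; exact hs.ne'
  rw [d3, d1, d2, d4]
  ext i j
  fin_cases i <;> fin_cases j <;> simp
  all_goals rw [show cw⁻¹ * (sw⁻¹ * 2⁻¹) = (2 * sw * cw)⁻¹ by rw [mul_inv, mul_inv]; ring,
    inv_mul_eq_iff_eq_mul₀ hsw]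
  · linear_combination (-2 * sf * cw) * c1 + (2 * sw * cf) * c2
  · linear_combination (-2 * sf * cw) * c1 + (-2 * sw * cf) * c2
  · linear_combination (-2 * sf * sw) * c1 + (2 * sf * sw) * c2
  · linear_combination (2 * sf * sw) * c1 + (-2 * sf * sw) * c2

/-! ### arcs -/

/-- the arc `(s,t)` is contained in the open arc `(a,b)`, modulo `2π` -/
def InArc (a b s t : ℝ) : Prop := s < t ∧ ∃ j : ℤ, a < s + j * (2 * π) ∧ t + j * (2 * π) < b

/-- qualitative positivity -/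
def PS2 (A : M2) : Prop := ∃ σ : ℝ, (σ = 1 ∨ σ = -1) ∧ ∀ i j, 0 < σ * A i j

theorem pm_GeoB_sin_add (x : ℝ) {y : ℝ} (j : ℤ) (h : x = y + j * π) : sin x = (-1 : ℝ) ^ j * sin y := by
  rw [h, Real.sin_add_int_mul_pi]

theorem pm_GeoB_sin_sub (x : ℝ) {y : ℝ} (j : ℤ) (h : x = y - j * π) : sin x = (-1 : ℝ) ^ j * sin y := by
  rw [h, Real.sin_sub_int_mul_pi]

theorem pm_GeoB_sgn (j : ℤ) : (-1 : ℝ) ^ j = 1 ∨ (-1 : ℝ) ^ j = -1 := by
  rcases Int.even_or_odd j with h | h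
  · exact Or.inl h.neg_one_zpow
  · exact Or.inr h.neg_one_zpow

theorem pm_GeoB_sgn_sq (j : ℤ) : (-1 : ℝ) ^ j * (-1 : ℝ) ^ j = 1 := by
  rcases pm_GeoB_sgn j with h | h <;> rw [h] <;> norm_num

theorem pm_GeoB_ent {c x y : ℝ} (j : ℤ) (hc : 0 < c) (hy : 0 < y) (h : x = (-1 : ℝ) ^ j * y) :
    0 < (-1 : ℝ) ^ j * (c * x) := by
  have e : (-1 : ℝ) ^ j * (c * x) = ((-1 : ℝ) ^ j * (-1 : ℝ) ^ j) * (c * y) := by rw [h]; ring
  rw [e, pm_GeoB_sgn_sq, one_mul]
  exact mul_pos hc hy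

theorem fr_pos {a b s t : ℝ} (hab : b - a < 2 * π) (h : InArc a b s t) : PS2 ((fr a b)⁻¹ * fr s t) := by
  obtain ⟨hst, j, h1, h2⟩ := h
  have p1 : 0 < sin ((b - a) / 2) := sin_pos_of_pos_of_lt_pi (by linarith) (by linarith)
  have p2 : 0 < sin ((t - s) / 2) := sin_pos_of_pos_of_lt_pi (by linarith) (by linarith)
  have hc : 0 < 1 / (Real.sqrt (sin ((b - a) / 2)) * Real.sqrt (sin ((t - s) / 2))) := by positivity
  rw [fr_inv_mul p1 p2]
  set c := 1 / (Real.sqrt (sin ((b - a) / 2)) * Real.sqrt (sin ((t - s) / 2)))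
  have e1 := pm_GeoB_ent j hc (sin_pos_of_pos_of_lt_pi (x := (b - (s + j * (2 * π))) / 2)
    (by linarith) (by linarith)) (pm_GeoB_sin_add ((b - s) / 2) j (by ring))
  have e2 := pm_GeoB_ent j hc (sin_pos_of_pos_of_lt_pi (x := (b - (t + j * (2 * π))) / 2)
    (by linarith) (by linarith)) (pm_GeoB_sin_add ((b - t) / 2) j (by ring))
  have e3 := pm_GeoB_ent j hc (sin_pos_of_pos_of_lt_pi (x := ((s + j * (2 * π)) - a) / 2)
    (by linarith) (by linarith)) (pm_GeoB_sin_sub ((s - a) / 2) j (by ring))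
  have e4 := pm_GeoB_ent j hc (sin_pos_of_pos_of_lt_pi (x := ((t + j * (2 * π)) - a) / 2)
    (by linarith) (by linarith)) (pm_GeoB_sin_sub ((t - a) / 2) j (by ring))
  refine ⟨(-1 : ℝ) ^ j, pm_GeoB_sgn j, ?_⟩
  intro i i'
  fin_cases i <;> fin_cases i'
  · exact e1
  · exact e2
  · exact e3
  · exact e4

theorem pm_GeoB_kinv {w : ℝ} (hw : 0 < w) (hw' : w < 1) (φ : ℝ) :
    (fr (φ - w) (φ + w))⁻¹ * iv w φ = !![-1, 0; 0, 1] * (fr (φ - w) (φ + w))⁻¹ := by
  have hs : 0 < sin w := sin_pos_of_pos_of_lt_pi hw (by linarith [pi_gt_three])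
  have e1 : (φ + w - (φ - w)) / 2 = w := by ring
  have hd : (fr (φ - w) (φ + w)).det = 1 := fr_det (by rw [e1]; exact hs)
  have hu : IsUnit (fr (φ - w) (φ + w)).det := by rw [hd]; exact isUnit_one
  have h1 := iv_k hw hw' φ
  calc (fr (φ - w) (φ + w))⁻¹ * iv w φ
      = (fr (φ - w) (φ + w))⁻¹ * (iv w φ * fr (φ - w) (φ + w)) * (fr (φ - w) (φ + w))⁻¹ := by
        rw [Matrix.mul_assoc, Matrix.mul_assoc, Matrix.mul_nonsing_inv _ hu, Matrix.mul_one]
    _ = _ := by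
        rw [h1, ← Matrix.mul_assoc, Matrix.nonsing_inv_mul _ hu, Matrix.one_mul]

/-- transitions between letters -/
theorem k_pos {w : ℝ} (hw : 0 < w) (hw' : w ≤ 1 / 10) {φ ψ : ℝ}
    (h : π / 3 ≤ |ψ - φ| ∧ |ψ - φ| ≤ 5 * (π / 3)) : ∃ M : ℝ, ∀ M' ≥ M,
    PB (1 / (4 * w)) M' ((fr (φ - w) (φ + w))⁻¹ * iv w φ * fr (ψ - w) (ψ + w)) := by
  have hs : 0 < sin w := sin_pos_of_pos_of_lt_pi hw (by linarith [pi_gt_three])
  have hsw : sin w ≤ w := (sin_lt hw).le
  have e1 : (φ + w - (φ - w)) / 2 = w := by ring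
  have e2 : (ψ + w - (ψ - w)) / 2 = w := by ring
  have hpi := pi_gt_three
  have hlow : ∀ x : ℝ, π / 6 - w ≤ x → x ≤ 5 * (π / 6) + w → 1 / 4 ≤ sin x := by
    intro x h1 h2
    have hq : sin (π / 6) = 1 / 2 := sin_pi_div_six
    have hq2 : cos (π / 6) = Real.sqrt 3 / 2 := cos_pi_div_six
    have hbase : 1 / 4 ≤ sin (π / 6 - w) := by
      rw [sin_sub, hq, hq2]
      have c1 : 1 - w ^ 2 / 2 ≤ cos w := one_sub_sq_div_two_le_cos
      have c2 : Real.sqrt 3 ≤ 2 := by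
        rw [show (2 : ℝ) = Real.sqrt 4 by
          rw [show (4 : ℝ) = 2 ^ 2 by norm_num, Real.sqrt_sq (by norm_num)]]
        exact Real.sqrt_le_sqrt (by norm_num)
      have c3 : Real.sqrt 3 / 2 * sin w ≤ 1 * w := by
        apply mul_le_mul _ hsw hs.le (by norm_num)
        linarith
      nlinarith
    rcases le_total x (π / 2) with h3 | h3
    · exact hbase.trans (sin_le_sin_of_le_of_le_pi_div_two (by linarith) h3 h1)
    · rw [← sin_pi_sub x]
      exact hbase.trans (sin_le_sin_of_le_of_le_pi_div_two (by linarith) (by linarith) (by linarith))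
  refine ⟨1 / sin w, fun M' hM' => ?_⟩
  have key : ∀ (σ y : ℝ), 1 / 4 ≤ σ * y → σ * y ≤ 1 →
      1 / (4 * w) ≤ σ * (1 / sin w * y) ∧ σ * (1 / sin w * y) ≤ M' := by
    intro σ y h1 h2
    have e : σ * (1 / sin w * y) = (σ * y) / sin w := by ring
    rw [e]
    constructor
    · rw [div_le_div_iff₀ (by positivity) hs]
      nlinarith
    · refine le_trans ?_ hM'
      exact div_le_div_of_nonneg_right h2 hs.le
  have hm : (fr (φ - w) (φ + w))⁻¹ * iv w φ * fr (ψ - w) (ψ + w) = (1 / sin w) •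
      !![sin ((ψ - φ) / 2 - w), sin ((ψ - φ) / 2); sin ((ψ - φ) / 2), sin ((ψ - φ) / 2 + w)] := by
    rw [pm_GeoB_kinv hw (by linarith) φ, Matrix.mul_assoc,
      fr_inv_mul (by rw [e1]; exact hs) (by rw [e2]; exact hs), e1, e2, Real.mul_self_sqrt hs.le,
      Matrix.mul_smul, Matrix.mul_fin_two]
    have s1 : (φ + w - (ψ - w)) / 2 = -((ψ - φ) / 2 - w) := by ring
    have s2 : (φ + w - (ψ + w)) / 2 = -((ψ - φ) / 2) := by ring
    have s3 : (ψ - w - (φ - w)) / 2 = (ψ - φ) / 2 := by ring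
    have s4 : (ψ + w - (φ - w)) / 2 = (ψ - φ) / 2 + w := by ring
    rw [s1, s2, s3, s4, sin_neg, sin_neg]
    simp
  rw [hm]
  obtain ⟨h1, h2⟩ := h
  rcases le_total 0 (ψ - φ) with h0 | h0
  · rw [abs_of_nonneg h0] at h1 h2
    refine ⟨1, Or.inl rfl, ?_⟩
    have g1 := key 1 (sin ((ψ - φ) / 2 - w)) (by rw [one_mul]; exact hlow _ (by linarith) (by linarith))
      (by rw [one_mul]; exact sin_le_one _)
    have g2 := key 1 (sin ((ψ - φ) / 2)) (by rw [one_mul]; exact hlow _ (by linarith) (by linarith))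
      (by rw [one_mul]; exact sin_le_one _)
    have g3 := key 1 (sin ((ψ - φ) / 2 + w)) (by rw [one_mul]; exact hlow _ (by linarith) (by linarith))
      (by rw [one_mul]; exact sin_le_one _)
    intro i i'
    fin_cases i <;> fin_cases i'
    · exact g1
    · exact g2
    · exact g2
    · exact g3
  · rw [abs_of_nonpos h0] at h1 h2
    refine ⟨-1, Or.inr rfl, ?_⟩
    have hn : ∀ x : ℝ, -1 * sin x = sin (-x) := fun x => by rw [sin_neg]; ring
    have g1 := key (-1) (sin ((ψ - φ) / 2 - w)) (by rw [hn]; exact hlow _ (by linarith) (by linarith))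
      (by rw [hn]; exact sin_le_one _)
    have g2 := key (-1) (sin ((ψ - φ) / 2)) (by rw [hn]; exact hlow _ (by linarith) (by linarith))
      (by rw [hn]; exact sin_le_one _)
    have g3 := key (-1) (sin ((ψ - φ) / 2 + w)) (by rw [hn]; exact hlow _ (by linarith) (by linarith))
      (by rw [hn]; exact sin_le_one _)
    intro i i'
    fin_cases i <;> fin_cases i'
    · exact g1
    · exact g2
    · exact g2
    · exact g3

/-- from a letter to the outer arc of a port with inner arc `(a,b)` -/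
theorem out_pos {w : ℝ} (hw : 0 < w) (hw' : w ≤ 1 / 10) {φ a b : ℝ} (hab : a < b) (hab' : b - a < 2 * π)
    (h : InArc a b (φ - w) (φ + w)) :
    PS2 ((fr (φ - w) (φ + w))⁻¹ * iv w φ * fr a b * J2) := by
  have hs : 0 < sin w := sin_pos_of_pos_of_lt_pi hw (by linarith [pi_gt_three])
  have e1 : (φ + w - (φ - w)) / 2 = w := by ring
  obtain ⟨-, j, h1, h2⟩ := h
  have p1 : 0 < sin ((b - a) / 2) := sin_pos_of_pos_of_lt_pi (by linarith) (by linarith)
  have p2 : 0 < sin ((a + 2 * π - b) / 2) := by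
    have : (a + 2 * π - b) / 2 = π - (b - a) / 2 := by ring
    rw [this, sin_pi_sub]
    exact p1
  have hc : 0 < 1 / (Real.sqrt (sin w) * Real.sqrt (sin ((a + 2 * π - b) / 2))) := by positivity
  have hm : (fr (φ - w) (φ + w))⁻¹ * iv w φ * fr a b * J2 =
      (1 / (Real.sqrt (sin w) * Real.sqrt (sin ((a + 2 * π - b) / 2)))) •
      !![sin ((b - φ - w) / 2), sin ((φ + w - a) / 2); sin ((b - φ + w) / 2), sin ((φ - w - a) / 2)] := by
    rw [pm_GeoB_kinv hw (by linarith) φ, Matrix.mul_assoc, Matrix.mul_assoc, fr_J2 p1,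
      fr_inv_mul (by rw [e1]; exact hs) p2, e1, Matrix.mul_smul, Matrix.mul_fin_two]
    have s1 : (φ + w - b) / 2 = -((b - φ - w) / 2) := by ring
    have s2 : (φ + w - (a + 2 * π)) / 2 = (φ + w - a) / 2 - π := by ring
    have s3 : (b - (φ - w)) / 2 = (b - φ + w) / 2 := by ring
    have s4 : (a + 2 * π - (φ - w)) / 2 = π - (φ - w - a) / 2 := by ring
    rw [s1, s2, s3, s4, sin_neg, sin_sub_pi, sin_pi_sub]
    simp
  rw [hm]
  set c := 1 / (Real.sqrt (sin w) * Real.sqrt (sin ((a + 2 * π - b) / 2)))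
  have g1 := pm_GeoB_ent j hc (sin_pos_of_pos_of_lt_pi (x := (b - (φ + w + j * (2 * π))) / 2)
    (by linarith) (by linarith)) (pm_GeoB_sin_add ((b - φ - w) / 2) j (by ring))
  have g2 := pm_GeoB_ent j hc (sin_pos_of_pos_of_lt_pi (x := (φ + w + j * (2 * π) - a) / 2)
    (by linarith) (by linarith)) (pm_GeoB_sin_sub ((φ + w - a) / 2) j (by ring))
  have g3 := pm_GeoB_ent j hc (sin_pos_of_pos_of_lt_pi (x := (b - (φ - w + j * (2 * π))) / 2)
    (by linarith) (by linarith)) (pm_GeoB_sin_add ((b - φ + w) / 2) j (by ring))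
  have g4 := pm_GeoB_ent j hc (sin_pos_of_pos_of_lt_pi (x := (φ - w + j * (2 * π) - a) / 2)
    (by linarith) (by linarith)) (pm_GeoB_sin_sub ((φ - w - a) / 2) j (by ring))
  refine ⟨(-1 : ℝ) ^ j, pm_GeoB_sgn j, ?_⟩
  intro i i'
  fin_cases i <;> fin_cases i'
  · exact g1
  · exact g2
  · exact g3
  · exact g4

/-- from one port to another -/
theorem dir_pos {a b a' b' : ℝ} (hab : b - a < 2 * π) (hab' : a' < b') (hab2 : b' - a' < 2 * π)
    (h : InArc a b b' (a' + 2 * π)) : PS2 ((fr a b)⁻¹ * fr a' b' * J2) := by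
  have p1 : 0 < sin ((b' - a') / 2) := sin_pos_of_pos_of_lt_pi (by linarith) (by linarith)
  rw [Matrix.mul_assoc, fr_J2 p1]
  exact fr_pos hab h

/-- for all small `mu` and all large `M` -/
def pm_GeoB_Ev (P : ℝ → ℝ → Prop) : Prop :=
  ∃ mu₀ > (0 : ℝ), ∃ M₀ ≥ (1 : ℝ), ∀ mu, 0 < mu → mu ≤ mu₀ → ∀ M ≥ M₀, P mu M

theorem pm_GeoB_Ev_and {P Q : ℝ → ℝ → Prop} (hP : pm_GeoB_Ev P) (hQ : pm_GeoB_Ev Q) :
    pm_GeoB_Ev (fun mu M => P mu M ∧ Q mu M) := by
  obtain ⟨m1, hm1, M1, hM1, h1⟩ := hP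
  obtain ⟨m2, hm2, M2, hM2, h2⟩ := hQ
  refine ⟨min m1 m2, lt_min hm1 hm2, max M1 M2, le_trans hM1 (le_max_left _ _), ?_⟩
  intro mu h0 hmu M hM
  exact ⟨h1 mu h0 (hmu.trans (min_le_left _ _)) M ((le_max_left _ _).trans hM),
    h2 mu h0 (hmu.trans (min_le_right _ _)) M ((le_max_right _ _).trans hM)⟩

theorem pm_GeoB_Ev_mono {P Q : ℝ → ℝ → Prop} (hP : pm_GeoB_Ev P) (h : ∀ mu M, P mu M → Q mu M) :
    pm_GeoB_Ev Q := by
  obtain ⟨m1, hm1, M1, hM1, h1⟩ := hP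
  exact ⟨m1, hm1, M1, hM1, fun mu h0 hmu M hM => h _ _ (h1 mu h0 hmu M hM)⟩

theorem pm_GeoB_Ev_const {p : Prop} (h : p) : pm_GeoB_Ev (fun _ _ => p) :=
  ⟨1, one_pos, 1, le_refl _, fun _ _ _ _ _ => h⟩

theorem pm_GeoB_Ev_imp {p : Prop} {P : ℝ → ℝ → Prop} (h : p → pm_GeoB_Ev P) :
    pm_GeoB_Ev (fun mu M => p → P mu M) := by
  by_cases hp : p
  · exact pm_GeoB_Ev_mono (h hp) (fun _ _ hh _ => hh)
  · exact pm_GeoB_Ev_const (p := True) trivial |> fun h1 => pm_GeoB_Ev_mono h1 (fun _ _ _ hh => absurd hh hp)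

theorem pm_GeoB_Ev_ball {α : Type} {S : Set α} (hS : S.Finite) {P : α → ℝ → ℝ → Prop}
    (h : ∀ x ∈ S, pm_GeoB_Ev (P x)) : pm_GeoB_Ev (fun mu M => ∀ x ∈ S, P x mu M) := by
  induction S, hS using Set.Finite.induction_on with
  | empty =>
    exact pm_GeoB_Ev_mono (pm_GeoB_Ev_const (p := True) trivial)
      (fun _ _ _ x hx => absurd hx (Set.notMem_empty x))
  | @insert a S ha hS ih =>
    have h1 := h a (Set.mem_insert _ _)
    have h2 := ih (fun x hx => h x (Set.mem_insert_of_mem _ hx))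
    refine pm_GeoB_Ev_mono (pm_GeoB_Ev_and h1 h2) ?_
    rintro mu M ⟨h3, h4⟩ x hx
    rcases Set.mem_insert_iff.1 hx with h5 | h5
    · rw [h5]; exact h3
    · exact h4 x h5

theorem pm_GeoB_Ev_PS2 {A : M2} (h : PS2 A) : pm_GeoB_Ev (fun mu M => PB mu M A) := by
  obtain ⟨σ, hσ, h⟩ := h
  have h1 : pm_GeoB_Ev (fun mu M => ∀ i : Fin 2 × Fin 2, i ∈ (Set.univ : Set (Fin 2 × Fin 2)) →
      mu ≤ σ * A i.1 i.2 ∧ σ * A i.1 i.2 ≤ M) := by
    refine pm_GeoB_Ev_ball Set.finite_univ ?_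
    intro i _
    refine ⟨σ * A i.1 i.2, h i.1 i.2, max 1 (σ * A i.1 i.2), le_max_left _ _, ?_⟩
    intro mu _ hmu M hM
    exact ⟨hmu, (le_max_right _ _).trans hM⟩
  refine pm_GeoB_Ev_mono h1 ?_
  intro mu M h2
  exact ⟨σ, hσ, fun i j => h2 (i, j) (Set.mem_univ _)⟩

/-- a finite family of `±` positive matrices has uniform bounds -/
theorem PolySys_of_pos {ι Q : Type} [DecidableEq ι] {A : Finset ι} {S : Set Q} (hS : S.Finite) {R k : ι → M2}
    {f : Q → M2} {a b : Q → ι} {lb : ℝ} (hl : 1 ≤ lb)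
    (hRR : ∀ x ∈ A, R x * R x = 1) (hRd : ∀ x ∈ A, (R x).det = -1) (hkd : ∀ x ∈ A, (k x).det = 1)
    (hfd : ∀ p ∈ S, (f p).det = 1) (hab : ∀ p ∈ S, a p ∈ A ∧ b p ∈ A ∧ a p ≠ b p)
    (hL : ∀ x ∈ A, ∀ y ∈ A, x ≠ y → ∃ M : ℝ, ∀ M' ≥ M, PB lb M' ((k x)⁻¹ * R x * k y))
    (hin : ∀ p ∈ S, ∀ x ∈ A, x ≠ a p → x ≠ b p → PS2 ((f p)⁻¹ * k x))
    (hout : ∀ p ∈ S, ∀ x ∈ A, x ≠ a p → x ≠ b p → PS2 ((k x)⁻¹ * R x * f p * J2))
    (hdir : ∀ p ∈ S, ∀ q ∈ S, p ≠ q → PS2 ((f p)⁻¹ * f q * J2))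
    (hE : ∀ p ∈ S, ∃ m : ℝ, m ≠ 0 ∧ (f p)⁻¹ * R (a p) * f p = !![0, m; 1 / m, 0]) :
    ∃ mu₀ > (0 : ℝ), ∃ M₀ ≥ (1 : ℝ), ∀ mu, 0 < mu → mu ≤ mu₀ → ∀ M ≥ M₀,
      PolySys A S R k f a b lb mu M := by
  have fA : (A : Set ι).Finite := A.finite_toSet
  have g0 : pm_GeoB_Ev (fun mu M => 0 < mu ∧ 1 ≤ M) :=
    ⟨1, one_pos, 1, le_refl _, fun mu h0 _ M hM => ⟨h0, hM⟩⟩
  have g1 : pm_GeoB_Ev (fun mu M => ∀ x ∈ (A : Set ι), ∀ y ∈ (A : Set ι), x ≠ y →
      PB lb M ((k x)⁻¹ * R x * k y)) := by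
    refine pm_GeoB_Ev_ball fA fun x hx => pm_GeoB_Ev_ball fA fun y hy => pm_GeoB_Ev_imp fun hxy => ?_
    obtain ⟨M, hM⟩ := hL x (Finset.mem_coe.1 hx) y (Finset.mem_coe.1 hy) hxy
    exact ⟨1, one_pos, max 1 M, le_max_left _ _, fun mu _ _ M' hM' =>
      hM M' ((le_max_right _ _).trans hM')⟩
  have g2 : pm_GeoB_Ev (fun mu M => ∀ p ∈ S, ∀ x ∈ (A : Set ι), x ≠ a p → x ≠ b p →
      PB mu M ((f p)⁻¹ * k x)) := by
    refine pm_GeoB_Ev_ball hS fun p hp => pm_GeoB_Ev_ball fA fun x hx => pm_GeoB_Ev_imp fun h1 =>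
      pm_GeoB_Ev_imp fun h2 => pm_GeoB_Ev_PS2 (hin p hp x (Finset.mem_coe.1 hx) h1 h2)
  have g3 : pm_GeoB_Ev (fun mu M => ∀ p ∈ S, ∀ x ∈ (A : Set ι), x ≠ a p → x ≠ b p →
      PB mu M ((k x)⁻¹ * R x * f p * J2)) := by
    refine pm_GeoB_Ev_ball hS fun p hp => pm_GeoB_Ev_ball fA fun x hx => pm_GeoB_Ev_imp fun h1 =>
      pm_GeoB_Ev_imp fun h2 => pm_GeoB_Ev_PS2 (hout p hp x (Finset.mem_coe.1 hx) h1 h2)
  have g4 : pm_GeoB_Ev (fun mu M => ∀ p ∈ S, ∀ q ∈ S, p ≠ q → PB mu M ((f p)⁻¹ * f q * J2)) := by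
    refine pm_GeoB_Ev_ball hS fun p hp => pm_GeoB_Ev_ball hS fun q hq => pm_GeoB_Ev_imp fun h1 =>
      pm_GeoB_Ev_PS2 (hdir p hp q hq h1)
  have g5 : pm_GeoB_Ev (fun mu M => ∀ p ∈ S, ∃ m : ℝ, 1 / M ≤ |m| ∧ |m| ≤ M ∧
      (f p)⁻¹ * R (a p) * f p = !![0, m; 1 / m, 0]) := by
    refine pm_GeoB_Ev_ball hS fun p hp => ?_
    obtain ⟨m, hm, hm2⟩ := hE p hp
    have hm' : 0 < |m| := abs_pos.2 hm
    refine ⟨1, one_pos, max 1 (max (1 / |m|) |m|), le_max_left _ _, ?_⟩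
    intro mu _ _ M hM
    have h1 : 1 / |m| ≤ M := ((le_max_left _ _).trans (le_max_right _ _)).trans hM
    have h2 : |m| ≤ M := ((le_max_right _ _).trans (le_max_right _ _)).trans hM
    have h3 : 1 ≤ M := (le_max_left _ _).trans hM
    refine ⟨m, ?_, h2, hm2⟩
    rw [div_le_iff₀ (by linarith)]
    rw [div_le_iff₀ hm'] at h1
    linarith
  have g := pm_GeoB_Ev_and g0 (pm_GeoB_Ev_and g1 (pm_GeoB_Ev_and g2 (pm_GeoB_Ev_and g3
    (pm_GeoB_Ev_and g4 g5))))
  refine pm_GeoB_Ev_mono g ?_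
  rintro mu M ⟨⟨q1, q2⟩, h1, h2, h3, h4, h5⟩
  exact
    { hl := hl
      hmu := q1
      hM := q2
      hRR := hRR
      hRd := hRd
      hkd := hkd
      hfd := hfd
      hab := hab
      hL := fun x hx y hy hxy => h1 x (Finset.mem_coe.2 hx) y (Finset.mem_coe.2 hy) hxy
      hin := fun p hp x hx => h2 p hp x (Finset.mem_coe.2 hx)
      hout := fun p hp x hx => h3 p hp x (Finset.mem_coe.2 hx)
      hdir := h4
      hE := h5 }

/-! ### the port frames -/

theorem pm_GeoC_base {w : ℝ} (hw : 0 < w) (hw' : w ≤ 1 / 10) {Δ : ℝ} (hΔ : Δ = π / 6 ∨ Δ = π / 3) :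
    0 < sin w ∧ 0 < cos w ∧ cos w < 1 ∧ 0 < cos Δ ∧ cos Δ < cos w ∧ 1 / 2 ≤ sin Δ ∧ sin w < 1 / 2 ∧
      π / 6 ≤ Δ ∧ Δ ≤ π / 3 := by
  have hpi := pi_gt_three
  have hpi4 := pi_le_four
  have h1 : 0 < sin w := sin_pos_of_pos_of_lt_pi hw (by linarith)
  have h2 : 0 < cos w := cos_pos_of_mem_Ioo ⟨by linarith, by linarith⟩
  have h3 : cos w < 1 := by
    rw [← cos_zero]
    exact cos_lt_cos_of_nonneg_of_le_pi (le_refl _) (by linarith) hw
  have hD : π / 6 ≤ Δ ∧ Δ ≤ π / 3 := by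
    rcases hΔ with h | h <;> rw [h] <;> constructor <;> linarith
  have h4 : 0 < cos Δ := cos_pos_of_mem_Ioo ⟨by linarith [hD.1], by linarith [hD.2]⟩
  have h5 : cos Δ < cos w := cos_lt_cos_of_nonneg_of_le_pi hw.le (by linarith [hD.2]) (by linarith [hD.1])
  have h6 : 1 / 2 ≤ sin Δ := by
    rw [← sin_pi_div_six]
    exact sin_le_sin_of_le_of_le_pi_div_two (by linarith) (by linarith [hD.2]) hD.1
  have h7 : sin w < 1 / 2 := lt_of_lt_of_le (sin_lt hw) (by linarith)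
  exact ⟨h1, h2, h3, h4, h5, h6, h7, hD.1, hD.2⟩

theorem pm_GeoC_cos_nu {w : ℝ} (hw : 0 < w) (hw' : w ≤ 1 / 10) {Δ : ℝ} (hΔ : Δ = π / 6 ∨ Δ = π / 3) :
    cos (nu w Δ) = cos Δ / cos w := by
  obtain ⟨h1, h2, h3, h4, h5, h6, h7, h8, h9⟩ := pm_GeoC_base hw hw' hΔ
  unfold nu
  rw [cos_arccos]
  · have : 0 ≤ cos Δ / cos w := by positivity
    linarith
  · rw [div_le_one h2]
    exact h5.le

theorem pm_GeoC_nu {w : ℝ} (hw : 0 < w) (hw' : w ≤ 1 / 10) {Δ : ℝ} (hΔ : Δ = π / 6 ∨ Δ = π / 3) :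
    Δ - w < nu w Δ ∧ nu w Δ < Δ := by
  obtain ⟨h1, h2, h3, h4, h5, h6, h7, h8, h9⟩ := pm_GeoC_base hw hw' hΔ
  have hpi := pi_gt_three
  have hpi4 := pi_le_four
  constructor
  · have e1 : arccos (cos (Δ - w)) = Δ - w := arccos_cos (by linarith) (by linarith)
    unfold nu
    conv_lhs => rw [← e1]
    apply arccos_lt_arccos
    · have : 0 ≤ cos Δ / cos w := by positivity
      linarith
    · rw [div_lt_iff₀ h2]
      have e2 : cos (Δ - 2 * w) = cos (Δ - w) * cos w + sin (Δ - w) * sin w := by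
        rw [← cos_sub]
        congr 1
        ring
      have e3 : cos Δ = cos (Δ - w) * cos w - sin (Δ - w) * sin w := by
        rw [← cos_add]
        congr 1
        ring
      have e4 : cos Δ < cos (Δ - 2 * w) :=
        cos_lt_cos_of_nonneg_of_le_pi (by linarith) (by linarith) (by linarith)
      linarith
    · exact cos_le_one _
  · have e1 : arccos (cos Δ) = Δ := arccos_cos (by linarith) (by linarith)
    unfold nu
    conv_rhs => rw [← e1]
    apply arccos_lt_arccos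
    · linarith [neg_one_le_cos Δ]
    · rw [lt_div_iff₀ h2]
      nlinarith
    · rw [div_le_one h2]
      exact h5.le

/-- facts on `ν` -/
theorem nu_facts {w : ℝ} (hw : 0 < w) (hw' : w ≤ 1 / 10) :
    π / 6 - w < nu w (π / 6) ∧ nu w (π / 6) < π / 6 ∧ π / 3 - w < nu w (π / 3) ∧
      nu w (π / 3) < π / 3 ∧ π / 6 < nu w (π / 3) - nu w (π / 6) := by
  have a1 := pm_GeoC_nu hw hw' (Or.inl rfl : π / 6 = π / 6 ∨ π / 6 = π / 3)
  have a2 := pm_GeoC_nu hw hw' (Or.inr rfl : π / 3 = π / 6 ∨ π / 3 = π / 3)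
  have c1 := pm_GeoC_cos_nu hw hw' (Or.inl rfl : π / 6 = π / 6 ∨ π / 6 = π / 3)
  have c2 := pm_GeoC_cos_nu hw hw' (Or.inr rfl : π / 3 = π / 6 ∨ π / 3 = π / 3)
  obtain ⟨h1, h2, h3, h4, h5, h6, h7, h8, h9⟩ := pm_GeoC_base hw hw'
    (Or.inl rfl : π / 6 = π / 6 ∨ π / 6 = π / 3)
  have hpi := pi_gt_three
  refine ⟨a1.1, a1.2, a2.1, a2.2, ?_⟩
  rw [cos_pi_div_six] at c1
  rw [cos_pi_div_three] at c2
  by_contra hcon
  push Not at hcon
  have hle : nu w (π / 3) ≤ nu w (π / 6) + π / 6 := by linarith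
  have h10 : cos (nu w (π / 6) + π / 6) ≤ cos (nu w (π / 3)) :=
    cos_le_cos_of_nonneg_of_le_pi (by linarith [a2.1]) (by linarith [a1.2]) hle
  rw [cos_add, c2, c1, cos_pi_div_six, sin_pi_div_six] at h10
  have hsin : 0 < sin (nu w (π / 6)) := sin_pos_of_pos_of_lt_pi (by linarith [a1.1]) (by linarith [a1.2])
  have h3' : Real.sqrt 3 * Real.sqrt 3 = 3 := Real.mul_self_sqrt (by norm_num)
  have hsq : sin (nu w (π / 6)) ^ 2 = 1 - 3 / (4 * cos w ^ 2) := by
    rw [sin_sq, c1, div_pow, div_pow, Real.sq_sqrt (by norm_num)]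
    field_simp
    ring
  have h11 : 1 / (2 * cos w) ≤ sin (nu w (π / 6)) := by
    have e : Real.sqrt 3 / 2 / cos w * (Real.sqrt 3 / 2) = 3 / (4 * cos w) := by
      have : Real.sqrt 3 / 2 / cos w * (Real.sqrt 3 / 2) = (Real.sqrt 3 * Real.sqrt 3) / (4 * cos w) := by
        field_simp
        norm_num
      rw [this, h3']
    rw [e] at h10
    have e2 : 3 / (4 * cos w) = 3 / 2 * (1 / (2 * cos w)) := by field_simp; norm_num
    have e3 : 1 / 2 / cos w = 1 / (2 * cos w) := by field_simp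
    rw [e2, e3] at h10
    linarith
  have h12 : (1 / (2 * cos w)) ^ 2 ≤ sin (nu w (π / 6)) ^ 2 :=
    pow_le_pow_left₀ (by positivity) h11 2
  rw [hsq] at h12
  have e4 : (1 / (2 * cos w)) ^ 2 = 1 / (4 * cos w ^ 2) := by field_simp; norm_num
  rw [e4] at h12
  have h13 : 4 / (4 * cos w ^ 2) ≤ 1 := by
    have : 4 / (4 * cos w ^ 2) = 1 / (4 * cos w ^ 2) + 3 / (4 * cos w ^ 2) := by ring
    linarith
  rw [div_le_one (by positivity)] at h13
  nlinarith

theorem pm_GeoC_r {w : ℝ} (hw : 0 < w) (hw' : w ≤ 1 / 10) {Δ : ℝ} (hΔ : Δ = π / 6 ∨ Δ = π / 3) :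
    0 < Real.sqrt (cos w ^ 2 - cos Δ ^ 2) ∧
    (sin Δ - Real.sqrt (cos w ^ 2 - cos Δ ^ 2)) * (sin Δ + Real.sqrt (cos w ^ 2 - cos Δ ^ 2)) = sin w ^ 2 ∧
    Real.sqrt (cos w ^ 2 - cos Δ ^ 2) = cos w * sin (nu w Δ) := by
  obtain ⟨h1, h2, h3, h4, h5, h6, h7, h8, h9⟩ := pm_GeoC_base hw hw' hΔ
  have hn := pm_GeoC_nu hw hw' hΔ
  have hpi := pi_gt_three
  have hd : 0 < cos w ^ 2 - cos Δ ^ 2 := by nlinarith
  have hsin : 0 < sin (nu w Δ) := sin_pos_of_pos_of_lt_pi (by linarith [hn.1]) (by linarith [hn.2])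
  refine ⟨Real.sqrt_pos.2 hd, ?_, ?_⟩
  · have e : (sin Δ - Real.sqrt (cos w ^ 2 - cos Δ ^ 2)) * (sin Δ + Real.sqrt (cos w ^ 2 - cos Δ ^ 2))
        = sin Δ ^ 2 - Real.sqrt (cos w ^ 2 - cos Δ ^ 2) ^ 2 := by ring
    rw [e, Real.sq_sqrt hd.le, sin_sq, sin_sq]
    ring
  · rw [Real.sqrt_eq_iff_mul_self_eq hd.le (by positivity)]
    have e : cos w * sin (nu w Δ) * (cos w * sin (nu w Δ)) = cos w ^ 2 * sin (nu w Δ) ^ 2 := by ring
    rw [e, sin_sq, pm_GeoC_cos_nu hw hw' hΔ]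
    field_simp

theorem mmw_facts {w : ℝ} (hw : 0 < w) (hw' : w ≤ 1 / 10) {Δ : ℝ} (hΔ : Δ = π / 6 ∨ Δ = π / 3) :
    0 < mmw w Δ ∧ mmw w Δ < 1 ∧ 0 < Lpw w Δ := by
  obtain ⟨h1, h2, h3, h4, h5, h6, h7, h8, h9⟩ := pm_GeoC_base hw hw' hΔ
  obtain ⟨r1, r2, r3⟩ := pm_GeoC_r hw hw' hΔ
  have hm0 : 0 < mmw w Δ := by
    unfold mmw
    set r := Real.sqrt (cos w ^ 2 - cos Δ ^ 2)
    have : 0 < sin Δ - r := by
      by_contra hcon
      push Not at hcon
      have : (sin Δ - r) * (sin Δ + r) ≤ 0 := mul_nonpos_of_nonpos_of_nonneg hcon (by linarith)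
      have : 0 < sin w ^ 2 := by positivity
      linarith
    positivity
  have hm1 : mmw w Δ < 1 := by
    unfold mmw
    rw [div_lt_one h1]
    set r := Real.sqrt (cos w ^ 2 - cos Δ ^ 2)
    by_contra hcon
    push Not at hcon
    have : sin w * sin w < (sin Δ - r) * (sin Δ + r) := by
      have q1 : sin w < sin Δ + r := by linarith
      have q2 : sin w * sin w < sin w * (sin Δ + r) := by nlinarith
      have q3 : sin w * (sin Δ + r) ≤ (sin Δ - r) * (sin Δ + r) := by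
        apply mul_le_mul_of_nonneg_right hcon
        linarith
      linarith
    nlinarith
  refine ⟨hm0, hm1, ?_⟩
  unfold Lpw
  have := Real.log_neg hm0 hm1
  linarith

/-- the frame of a port, rotated to the symmetric position -/
theorem pm_GeoC_pfr (w lo hi : ℝ) : pfr w lo hi = rot ((lo + hi) / 2 / 2) *
    ((1 / Real.sqrt (sin (nu w ((hi - lo) / 2)))) •
      !![cos (nu w ((hi - lo) / 2) / 2), -cos (nu w ((hi - lo) / 2) / 2);
        sin (nu w ((hi - lo) / 2) / 2), sin (nu w ((hi - lo) / 2) / 2)]) := by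
  set v := nu w ((hi - lo) / 2) with hv
  unfold pfr
  rw [← hv]
  have e1 : (lo + hi) / 2 + v = v + 2 * ((lo + hi) / 2 / 2) := by ring
  have e2 : (lo + hi) / 2 - v + 2 * π = (-v + 2 * π) + 2 * ((lo + hi) / 2 / 2) := by ring
  rw [e1, e2, ← rot_fr]
  congr 1
  unfold fr
  have e3 : (-v + 2 * π - v) / 2 = π - v := by ring
  have e4 : (-v + 2 * π) / 2 = π - v / 2 := by ring
  rw [e3, e4, sin_pi_sub, sin_pi_sub, cos_pi_sub]

theorem pm_GeoC_iv1 {w : ℝ} (hw : 0 < w) (hw' : w ≤ 1 / 10) {Δ : ℝ} (hΔ : Δ = π / 6 ∨ Δ = π / 3) (c : ℝ) :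
    iv w (-Δ) * (c • !![cos (nu w Δ / 2), -cos (nu w Δ / 2); sin (nu w Δ / 2), sin (nu w Δ / 2)]) =
      (c • !![cos (nu w Δ / 2), -cos (nu w Δ / 2); sin (nu w Δ / 2), sin (nu w Δ / 2)]) *
        !![0, -(mmw w Δ); -(1 / mmw w Δ), 0] ∧
    iv w Δ * (c • !![cos (nu w Δ / 2), -cos (nu w Δ / 2); sin (nu w Δ / 2), sin (nu w Δ / 2)]) =
      (c • !![cos (nu w Δ / 2), -cos (nu w Δ / 2); sin (nu w Δ / 2), sin (nu w Δ / 2)]) *
        !![0, 1 / mmw w Δ; mmw w Δ, 0] := by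
  obtain ⟨h1, h2, h3, h4, h5, h6, h7, h8, h9⟩ := pm_GeoC_base hw hw' hΔ
  obtain ⟨r1, r2, r3⟩ := pm_GeoC_r hw hw' hΔ
  obtain ⟨m1, m2, m3⟩ := mmw_facts hw hw' hΔ
  have hc := pm_GeoC_cos_nu hw hw' hΔ
  set r := Real.sqrt (cos w ^ 2 - cos Δ ^ 2) with hr
  set v := nu w Δ with hv
  set x := cos (v / 2) with hx
  set y := sin (v / 2) with hy
  have hxy : x ^ 2 + y ^ 2 = 1 := cos_sq_add_sin_sq (v / 2)
  have hsv : sin v = 2 * y * x := by
    rw [hx, hy, ← sin_two_mul]; congr 1; ring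
  have hcv : cos v = 2 * x ^ 2 - 1 := by
    rw [hx, ← cos_two_mul]; congr 1; ring
  have hC : cos Δ = cos w * (2 * x ^ 2 - 1) := by
    rw [← hcv, hc]
    field_simp
  have k1 : (cos Δ + cos w) * y = r * x := by
    rw [hC, r3, hsv]; ring
  have k2 : (cos w - cos Δ) * x = r * y := by
    rw [hC, r3, hsv]
    linear_combination (2 * cos w * x) * (-1 : ℝ) * hxy
  have hm : mmw w Δ = (sin Δ - r) / sin w := rfl
  have hm' : 1 / mmw w Δ = (sin Δ + r) / sin w := by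
    have hne : sin Δ - r ≠ 0 := by
      intro h0
      rw [hm, h0, zero_div] at m1
      exact lt_irrefl _ m1
    rw [hm, one_div_div, div_eq_div_iff hne h1.ne']
    linear_combination -r2
  rw [hm', hm]
  constructor
  · unfold iv
    rw [cos_neg, sin_neg, smul_mul_smul_comm, Matrix.smul_mul, Matrix.mul_fin_two, Matrix.mul_fin_two,
      mul_comm (1 / sin w) c, ← smul_smul]
    congr 1
    ext i j
    fin_cases i <;> fin_cases j <;> simp <;> field_simp
    · linear_combination k1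
    · linear_combination k1
    · linear_combination -k2
    · linear_combination k2
  · unfold iv
    rw [smul_mul_smul_comm, Matrix.smul_mul, Matrix.mul_fin_two, Matrix.mul_fin_two,
      mul_comm (1 / sin w) c, ← smul_smul]
    congr 1
    ext i j
    fin_cases i <;> fin_cases j <;> simp <;> field_simp
    · linear_combination k1
    · linear_combination k1
    · linear_combination -k2
    · linear_combination k2

/-- the two reflections at a port -/
theorem pfr_refl {w : ℝ} (hw : 0 < w) (hw' : w ≤ 1 / 10) {lo hi : ℝ}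
    (h : (hi - lo) / 2 = π / 6 ∨ (hi - lo) / 2 = π / 3) :
    (pfr w lo hi).det = 1 ∧
    iv w lo * pfr w lo hi = pfr w lo hi *
      !![0, -(mmw w ((hi - lo) / 2)); -(1 / mmw w ((hi - lo) / 2)), 0] ∧
    iv w hi * pfr w lo hi = pfr w lo hi *
      !![0, 1 / mmw w ((hi - lo) / 2); mmw w ((hi - lo) / 2), 0] := by
  have hn := pm_GeoC_nu hw hw' h
  obtain ⟨h1, h2, h3, h4, h5, h6, h7, h8, h9⟩ := pm_GeoC_base hw hw' h
  have hpi := pi_gt_three
  refine ⟨?_, ?_, ?_⟩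
  · unfold pfr
    apply fr_det
    set v := nu w ((hi - lo) / 2)
    have e : ((lo + hi) / 2 - v + 2 * π - ((lo + hi) / 2 + v)) / 2 = π - v := by ring
    rw [e, sin_pi_sub]
    exact sin_pos_of_pos_of_lt_pi (by linarith [hn.1]) (by linarith [hn.2])
  · rw [pm_GeoC_pfr, ← Matrix.mul_assoc, Matrix.mul_assoc (rot _)]
    have e : lo = -((hi - lo) / 2) + 2 * ((lo + hi) / 2 / 2) := by ring
    have e2 : iv w lo * rot ((lo + hi) / 2 / 2) = rot ((lo + hi) / 2 / 2) * iv w (-((hi - lo) / 2)) := by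
      conv_lhs => rw [e]
      have e3 : (-((hi - lo) / 2) + 2 * ((lo + hi) / 2 / 2) + hi) / 2 / 2 = (lo + hi) / 2 / 2 := by ring
      rw [e3]
      exact iv_rot _ _ _
    rw [e2, Matrix.mul_assoc, (pm_GeoC_iv1 hw hw' h _).1]
  · rw [pm_GeoC_pfr, ← Matrix.mul_assoc, Matrix.mul_assoc (rot _)]
    have e : hi = (hi - lo) / 2 + 2 * ((lo + hi) / 2 / 2) := by ring
    have e2 : iv w hi * rot ((lo + hi) / 2 / 2) = rot ((lo + hi) / 2 / 2) * iv w ((hi - lo) / 2) := by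
      conv_lhs => rw [e]
      have e3 : (lo + ((hi - lo) / 2 + 2 * ((lo + hi) / 2 / 2))) / 2 / 2 = (lo + hi) / 2 / 2 := by ring
      rw [e3]
      exact iv_rot _ _ _
    rw [e2, Matrix.mul_assoc, (pm_GeoC_iv1 hw hw' h _).2]

theorem pfr_eig {w : ℝ} (hw : 0 < w) (hw' : w ≤ 1 / 10) {lo hi : ℝ}
    (h : (hi - lo) / 2 = π / 6 ∨ (hi - lo) / 2 = π / 3) :
    iv w lo * iv w hi * pfr w lo hi = pfr w lo hi * eg (Lpw w ((hi - lo) / 2)) := by
  obtain ⟨-, h1, h2⟩ := pfr_refl hw hw' h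
  obtain ⟨m1, m2, m3⟩ := mmw_facts hw hw' h
  rw [Matrix.mul_assoc, h2, ← Matrix.mul_assoc, h1, Matrix.mul_assoc]
  congr 1
  set m := mmw w ((hi - lo) / 2) with hm
  have e1 : Real.exp (-(Lpw w ((hi - lo) / 2) / 2)) = m * m := by
    have : -(Lpw w ((hi - lo) / 2) / 2) = Real.log m + Real.log m := by
      unfold Lpw
      rw [← hm]
      ring
    rw [this, Real.exp_add, Real.exp_log m1]
  have e2 : Real.exp (Lpw w ((hi - lo) / 2) / 2) = 1 / m * (1 / m) := by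
    have : Lpw w ((hi - lo) / 2) / 2 = -(-(Lpw w ((hi - lo) / 2) / 2)) := by ring
    rw [this, Real.exp_neg, e1]
    field_simp
  unfold eg
  rw [e1, e2, Matrix.mul_fin_two]
  ext i j
  fin_cases i <;> fin_cases j <;> simp

theorem pfr_rot (w lo hi t : ℝ) : pfr w (lo + 2 * t) (hi + 2 * t) = rot t * pfr w lo hi := by
  unfold pfr
  rw [rot_fr]
  have e1 : (hi + 2 * t - (lo + 2 * t)) / 2 = (hi - lo) / 2 := by ring
  rw [e1]
  congr 1 <;> ring

/-! ### the five polygons -/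

/-! ### the five polygons: ports described by arcs -/

theorem pm_GeoD_conj {f N R : M2} (hdet : f.det = 1) (h : R * f = f * N) : f⁻¹ * R * f = N := by
  rw [Matrix.mul_assoc, h, ← Matrix.mul_assoc, Matrix.nonsing_inv_mul _ (by rw [hdet]; exact isUnit_one),
    Matrix.one_mul]

theorem pm_GeoD_J2_det : J2.det = 1 := by
  simp [J2, Matrix.det_fin_two]

theorem pm_GeoD_J2_inv : J2⁻¹ = -J2 := by
  refine Matrix.inv_eq_right_inv ?_
  ext i j
  fin_cases i <;> fin_cases j <;> simp [J2, Matrix.mul_apply, Fin.sum_univ_two]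

theorem pm_GeoD_conjJ {m : ℝ} : (!![0, 1 / m; m, 0] : M2) * J2 = J2 * !![0, -m; -(1 / m), 0] := by
  ext i j
  fin_cases i <;> fin_cases j <;> simp [J2, Matrix.mul_apply, Fin.sum_univ_two]

/-- `f` is the frame of the arc `(a,b)` -/
structure pm_GeoD_Arc (f : M2) (a b : ℝ) : Prop where
  eq : f = fr a b
  lt : a < b
  lt2 : b - a < 2 * π

theorem pm_GeoD_pfr {w c n : ℝ} (lo hi Δ : ℝ) (hc : (lo + hi) / 2 = c) (hΔ : (hi - lo) / 2 = Δ)
    (hn : nu w Δ = n) (h0 : 0 < n) (h1 : n < π) :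
    pm_GeoD_Arc (pfr w lo hi) (c + n) (c - n + 2 * π) := by
  refine ⟨?_, by linarith, by linarith⟩
  unfold pfr
  rw [hc, hΔ, hn]

theorem pm_GeoD_pfrJ {w c n : ℝ} (lo hi Δ : ℝ) (hc : (lo + hi) / 2 = c) (hΔ : (hi - lo) / 2 = Δ)
    (hn : nu w Δ = n) (h0 : 0 < n) (h1 : n < π) :
    pm_GeoD_Arc (pfr w lo hi * J2) (c - n + 2 * π) (c + n + 2 * π) := by
  refine ⟨?_, by linarith, by linarith⟩
  unfold pfr
  rw [hc, hΔ, hn, fr_J2]
  refine Real.sin_pos_of_pos_of_lt_pi ?_ ?_ <;> linarith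

/-- the reflection in the letter at the angle `lo` -/
theorem pm_GeoD_Elo {w : ℝ} (hw : 0 < w) (hw' : w ≤ 1 / 10) {lo hi φ Δ : ℝ}
    (hΔ : (hi - lo) / 2 = Δ) (h : Δ = π / 6 ∨ Δ = π / 3) (hφ : φ = lo) :
    ∃ m : ℝ, m ≠ 0 ∧ (pfr w lo hi)⁻¹ * iv w φ * pfr w lo hi = !![0, m; 1 / m, 0] := by
  have h' : (hi - lo) / 2 = π / 6 ∨ (hi - lo) / 2 = π / 3 := by rw [hΔ]; exact h
  obtain ⟨h1, h2, _⟩ := pfr_refl hw hw' h'
  have hm := (mmw_facts hw hw' h').1
  refine ⟨-(mmw w ((hi - lo) / 2)), neg_ne_zero.2 hm.ne', ?_⟩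
  rw [hφ, pm_GeoD_conj h1 h2]
  ext i j
  fin_cases i <;> fin_cases j <;> simp [div_neg]

/-- the reflection in the letter at the angle `hi`, for the opposite port -/
theorem pm_GeoD_Ehi {w : ℝ} (hw : 0 < w) (hw' : w ≤ 1 / 10) {lo hi φ Δ : ℝ}
    (hΔ : (hi - lo) / 2 = Δ) (h : Δ = π / 6 ∨ Δ = π / 3) (hφ : ∃ n : ℤ, hi = φ + n * (2 * π)) :
    ∃ m : ℝ, m ≠ 0 ∧ (pfr w lo hi * J2)⁻¹ * iv w φ * (pfr w lo hi * J2) = !![0, m; 1 / m, 0] := by
  have h' : (hi - lo) / 2 = π / 6 ∨ (hi - lo) / 2 = π / 3 := by rw [hΔ]; exact h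
  obtain ⟨h1, _, h3⟩ := pfr_refl hw hw' h'
  have hm := (mmw_facts hw hw' h').1
  obtain ⟨n, hn⟩ := hφ
  have e : iv w hi = iv w φ := by rw [hn, iv_period]
  rw [e] at h3
  refine ⟨-(mmw w ((hi - lo) / 2)), neg_ne_zero.2 hm.ne', ?_⟩
  refine pm_GeoD_conj (by rw [Matrix.det_mul, h1, pm_GeoD_J2_det, one_mul]) ?_
  rw [← Matrix.mul_assoc, h3, Matrix.mul_assoc, pm_GeoD_conjJ, ← Matrix.mul_assoc]
  congr 1
  ext i j
  fin_cases i <;> fin_cases j <;> simp [div_neg]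

theorem pm_GeoD_main {Q : Type} {w mu' M' : ℝ} (hw : 0 < w) (hw' : w ≤ 1 / 10) (A : Finset (Fin 6)) (S : Set Q)
    (hS : S.Finite) (f : Q → M2) (a b : Q → Fin 6) (α β : Q → ℝ)
    (hf : ∀ p ∈ S, pm_GeoD_Arc (f p) (α p) (β p)) (hab : ∀ p ∈ S, a p ∈ A ∧ b p ∈ A ∧ a p ≠ b p)
    (hin : ∀ p ∈ S, ∀ x ∈ A, x ≠ a p → x ≠ b p →
      InArc (α p) (β p) (ang (x : Fin 6).val - w) (ang (x : Fin 6).val + w))
    (hdir : ∀ p ∈ S, ∀ q ∈ S, p ≠ q → InArc (α p) (β p) (β q) (α q + 2 * π))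
    (hE : ∀ p ∈ S, ∃ m : ℝ, m ≠ 0 ∧ (f p)⁻¹ * iv w (ang (a p).val) * f p = !![0, m; 1 / m, 0]) :
    ∃ mu₀ > (0 : ℝ), ∃ M₀ ≥ (1 : ℝ), ∀ mu, 0 < mu → mu ≤ mu₀ → ∀ M ≥ M₀,
      PolySys A S (bd w mu' M').R (bd w mu' M').k f a b (1 / (4 * w)) mu M := by
  have hsw : 0 < sin w := Real.sin_pos_of_pos_of_lt_pi hw (by linarith [Real.pi_gt_three])
  have hR : ∀ x : Fin 6, (bd w mu' M').R x = iv w (ang x.val) := fun x => rfl
  have hk : ∀ x : Fin 6, (bd w mu' M').k x = fr (ang x.val - w) (ang x.val + w) := fun x => rfl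
  refine PolySys_of_pos hS ?_ ?_ ?_ ?_ ?_ hab ?_ ?_ ?_ ?_ ?_
  · rw [le_div_iff₀ (by positivity)]
    linarith
  · intro x _
    rw [hR]
    exact iv_sq hsw.ne' _
  · intro x _
    rw [hR]
    exact iv_det hsw.ne' _
  · intro x _
    rw [hk]
    refine fr_det ?_
    rw [show (ang x.val + w - (ang x.val - w)) / 2 = w by ring]
    exact hsw
  · intro p hp
    obtain ⟨h1, h2, h3⟩ := hf p hp
    rw [h1]
    exact fr_det (Real.sin_pos_of_pos_of_lt_pi (by linarith) (by linarith))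
  · intro x _ y _ hxy
    rw [hR, hk, hk]
    refine k_pos hw hw' ?_
    have hπ := Real.pi_pos
    have e : ang (y : Fin 6).val - ang (x : Fin 6).val = (((y : ℕ) : ℝ) - ((x : ℕ) : ℝ)) * (π / 3) := by
      unfold ang
      ring
    rw [e, abs_mul, abs_of_pos (show 0 < π / 3 by positivity)]
    have hx := x.isLt
    have hy := y.isLt
    have hne : (x : ℕ) ≠ (y : ℕ) := fun h => hxy (Fin.ext h)
    have h1 : 1 ≤ |((y : ℕ) : ℝ) - ((x : ℕ) : ℝ)| := by
      rw [← Int.cast_natCast (y : ℕ), ← Int.cast_natCast (x : ℕ), ← Int.cast_sub, ← Int.cast_abs]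
      have : 1 ≤ |((y : ℕ) : ℤ) - ((x : ℕ) : ℤ)| := Int.one_le_abs (by omega)
      exact_mod_cast this
    have h2 : |((y : ℕ) : ℝ) - ((x : ℕ) : ℝ)| ≤ 5 := by
      have hx' : ((x : ℕ) : ℝ) ≤ 5 := by exact_mod_cast (by omega : (x : ℕ) ≤ 5)
      have hy' : ((y : ℕ) : ℝ) ≤ 5 := by exact_mod_cast (by omega : (y : ℕ) ≤ 5)
      have hx0 : (0 : ℝ) ≤ ((x : ℕ) : ℝ) := by positivity
      have hy0 : (0 : ℝ) ≤ ((y : ℕ) : ℝ) := by positivity
      rw [abs_le]
      constructor <;> linarith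
    constructor <;> nlinarith
  · intro p hp x hx h1 h2
    obtain ⟨e1, e2, e3⟩ := hf p hp
    rw [hk, e1]
    exact fr_pos e3 (hin p hp x hx h1 h2)
  · intro p hp x hx h1 h2
    obtain ⟨e1, e2, e3⟩ := hf p hp
    rw [hk, hR, e1]
    exact out_pos hw hw' e2 e3 (hin p hp x hx h1 h2)
  · intro p hp q hq hpq
    obtain ⟨e1, e2, e3⟩ := hf p hp
    obtain ⟨e4, e5, e6⟩ := hf q hq
    rw [e1, e4]
    exact dir_pos e3 e5 e6 (hdir p hp q hq hpq)
  · intro p hp
    rw [hR]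
    exact hE p hp

def pm_GeoD_aI (w : ℝ) : QI → ℝ
  | QI.dP i => (2 * (i.val : ℝ) + 1) * (π / 3) + nu w (π / 3)
  | QI.dH i => (2 * (i.val : ℝ) + 1) * (π / 3) - nu w (π / 3) + 2 * π
  | QI.mp i => (4 * (i.val : ℝ) + 1) * (π / 6) + nu w (π / 6)
  | QI.mm i => (4 * (i.val : ℝ) + 3) * (π / 6) + nu w (π / 6)

def pm_GeoD_bI (w : ℝ) : QI → ℝ
  | QI.dP i => (2 * (i.val : ℝ) + 1) * (π / 3) - nu w (π / 3) + 2 * π
  | QI.dH i => (2 * (i.val : ℝ) + 1) * (π / 3) + nu w (π / 3) + 2 * π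
  | QI.mp i => (4 * (i.val : ℝ) + 1) * (π / 6) - nu w (π / 6) + 2 * π
  | QI.mm i => (4 * (i.val : ℝ) + 3) * (π / 6) - nu w (π / 6) + 2 * π

def pm_GeoD_aII (w : ℝ) : QII → ℝ
  | QII.dP2 => 5 * (π / 3) + nu w (π / 3)
  | QII.dH2 => 5 * (π / 3) - nu w (π / 3) + 2 * π
  | QII.mp i => (4 * (i.val : ℝ) + 1) * (π / 6) + nu w (π / 6)
  | QII.mm i => (4 * (i.val : ℝ) + 3) * (π / 6) + nu w (π / 6)
  | QII.cQ => 2 * (π / 3) + nu w (π / 3)
  | QII.cP => 2 * (π / 3) - nu w (π / 3) + 2 * π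

def pm_GeoD_bII (w : ℝ) : QII → ℝ
  | QII.dP2 => 5 * (π / 3) - nu w (π / 3) + 2 * π
  | QII.dH2 => 5 * (π / 3) + nu w (π / 3) + 2 * π
  | QII.mp i => (4 * (i.val : ℝ) + 1) * (π / 6) - nu w (π / 6) + 2 * π
  | QII.mm i => (4 * (i.val : ℝ) + 3) * (π / 6) - nu w (π / 6) + 2 * π
  | QII.cQ => 2 * (π / 3) - nu w (π / 3) + 2 * π
  | QII.cP => 2 * (π / 3) + nu w (π / 3) + 2 * π

theorem pm_GeoD_nu {w : ℝ} (hw : 0 < w) (hw' : w ≤ 1 / 10) :
    0 < nu w (π / 6) ∧ nu w (π / 6) < π ∧ 0 < nu w (π / 3) ∧ nu w (π / 3) < π := by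
  have h := nu_facts hw hw'
  have hπ := Real.pi_gt_three
  refine ⟨?_, ?_, ?_, ?_⟩ <;> linarith [h.1, h.2.1, h.2.2.1, h.2.2.2.1]

theorem pm_GeoD_arcI {w : ℝ} (hw : 0 < w) (hw' : w ≤ 1 / 10) (mu M : ℝ) (p : QI) :
    pm_GeoD_Arc ((bd w mu M).fI p) (pm_GeoD_aI w p) (pm_GeoD_bI w p) := by
  obtain ⟨h1, h2, h3, h4⟩ := pm_GeoD_nu hw hw'
  cases p with
  | dP i =>
    exact pm_GeoD_pfr (ang (2 * i.val)) (ang (2 * i.val + 2)) (π / 3)
      (by unfold ang; push_cast; ring) (by unfold ang; push_cast; ring) rfl h3 h4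
  | dH i =>
    exact pm_GeoD_pfrJ (ang (2 * i.val)) (ang (2 * i.val + 2)) (π / 3)
      (by unfold ang; push_cast; ring) (by unfold ang; push_cast; ring) rfl h3 h4
  | mp i =>
    exact pm_GeoD_pfr (ang (2 * i.val)) (ang (2 * i.val + 1)) (π / 6)
      (by unfold ang; push_cast; ring) (by unfold ang; push_cast; ring) rfl h1 h2
  | mm i =>
    exact pm_GeoD_pfr (ang (2 * i.val + 1)) (ang (2 * i.val + 2)) (π / 6)
      (by unfold ang; push_cast; ring) (by unfold ang; push_cast; ring) rfl h1 h2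

theorem pm_GeoD_arcII {w : ℝ} (hw : 0 < w) (hw' : w ≤ 1 / 10) (mu M : ℝ) (p : QII) :
    pm_GeoD_Arc ((bd w mu M).fII p) (pm_GeoD_aII w p) (pm_GeoD_bII w p) := by
  obtain ⟨h1, h2, h3, h4⟩ := pm_GeoD_nu hw hw'
  cases p with
  | dP2 =>
    exact pm_GeoD_pfr (ang (2 * (2 : Fin 3).val)) (ang (2 * (2 : Fin 3).val + 2)) (π / 3)
      (by unfold ang; simp; ring) (by unfold ang; simp; ring) rfl h3 h4
  | dH2 =>
    exact pm_GeoD_pfrJ (ang (2 * (2 : Fin 3).val)) (ang (2 * (2 : Fin 3).val + 2)) (π / 3)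
      (by unfold ang; simp; ring) (by unfold ang; simp; ring) rfl h3 h4
  | mp i =>
    exact pm_GeoD_pfr (ang (2 * i.val)) (ang (2 * i.val + 1)) (π / 6)
      (by unfold ang; push_cast; ring) (by unfold ang; push_cast; ring) rfl h1 h2
  | mm i =>
    exact pm_GeoD_pfr (ang (2 * i.val + 1)) (ang (2 * i.val + 2)) (π / 6)
      (by unfold ang; push_cast; ring) (by unfold ang; push_cast; ring) rfl h1 h2
  | cQ =>
    exact pm_GeoD_pfr (ang 1) (ang 3) (π / 3)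
      (by unfold ang; push_cast; ring) (by unfold ang; push_cast; ring) rfl h3 h4
  | cP =>
    exact pm_GeoD_pfrJ (ang 1) (ang 3) (π / 3)
      (by unfold ang; push_cast; ring) (by unfold ang; push_cast; ring) rfl h3 h4

theorem pm_GeoD_EI {w : ℝ} (hw : 0 < w) (hw' : w ≤ 1 / 10) (mu M : ℝ) (p : QI) :
    ∃ m : ℝ, m ≠ 0 ∧ ((bd w mu M).fI p)⁻¹ * iv w (ang (aI p).val) * (bd w mu M).fI p =
      !![0, m; 1 / m, 0] := by
  cases p with
  | dP i =>
    exact pm_GeoD_Elo hw hw' (lo := ang (2 * i.val)) (hi := ang (2 * i.val + 2)) (Δ := π / 3)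
      (by unfold ang; push_cast; ring) (Or.inr rfl) (by fin_cases i <;> rfl)
  | dH i =>
    refine pm_GeoD_Ehi hw hw' (lo := ang (2 * i.val)) (hi := ang (2 * i.val + 2)) (Δ := π / 3)
      (by unfold ang; push_cast; ring) (Or.inr rfl) ?_
    fin_cases i
    · exact ⟨0, by simp [ang, aI, l2]⟩
    · exact ⟨0, by simp [ang, aI, l2]⟩
    · exact ⟨1, by simp [ang, aI, l2]; ring⟩
  | mp i =>
    exact pm_GeoD_Elo hw hw' (lo := ang (2 * i.val)) (hi := ang (2 * i.val + 1)) (Δ := π / 6)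
      (by unfold ang; push_cast; ring) (Or.inl rfl) (by fin_cases i <;> rfl)
  | mm i =>
    exact pm_GeoD_Elo hw hw' (lo := ang (2 * i.val + 1)) (hi := ang (2 * i.val + 2)) (Δ := π / 6)
      (by unfold ang; push_cast; ring) (Or.inl rfl) (by fin_cases i <;> rfl)

theorem pm_GeoD_EII {w : ℝ} (hw : 0 < w) (hw' : w ≤ 1 / 10) (mu M : ℝ) (p : QII) :
    ∃ m : ℝ, m ≠ 0 ∧ ((bd w mu M).fII p)⁻¹ * iv w (ang (aII p).val) * (bd w mu M).fII p =
      !![0, m; 1 / m, 0] := by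
  cases p with
  | dP2 =>
    exact pm_GeoD_Elo hw hw' (lo := ang (2 * (2 : Fin 3).val)) (hi := ang (2 * (2 : Fin 3).val + 2))
      (Δ := π / 3) (by unfold ang; simp; ring) (Or.inr rfl) rfl
  | dH2 =>
    refine pm_GeoD_Ehi hw hw' (lo := ang (2 * (2 : Fin 3).val)) (hi := ang (2 * (2 : Fin 3).val + 2))
      (Δ := π / 3) (by unfold ang; simp; ring) (Or.inr rfl) ?_
    exact ⟨1, by simp [ang, aII]; ring⟩
  | mp i =>
    exact pm_GeoD_Elo hw hw' (lo := ang (2 * i.val)) (hi := ang (2 * i.val + 1)) (Δ := π / 6)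
      (by unfold ang; push_cast; ring) (Or.inl rfl) (by fin_cases i <;> rfl)
  | mm i =>
    exact pm_GeoD_Elo hw hw' (lo := ang (2 * i.val + 1)) (hi := ang (2 * i.val + 2)) (Δ := π / 6)
      (by unfold ang; push_cast; ring) (Or.inl rfl) (by fin_cases i <;> rfl)
  | cQ =>
    exact pm_GeoD_Elo hw hw' (lo := ang 1) (hi := ang 3) (Δ := π / 3)
      (by unfold ang; push_cast; ring) (Or.inr rfl) rfl
  | cP =>
    exact pm_GeoD_Ehi hw hw' (lo := ang 1) (hi := ang 3) (Δ := π / 3)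
      (by unfold ang; push_cast; ring) (Or.inr rfl) ⟨0, by simp [ang, aII]⟩

theorem pm_GeoD_ang0 : ang (0 : Fin 6).val = 0 := by simp [ang]
theorem pm_GeoD_ang1 : ang (1 : Fin 6).val = π / 3 := by simp [ang]
theorem pm_GeoD_ang2 : ang (2 : Fin 6).val = 2 * (π / 3) := by simp [ang]
theorem pm_GeoD_ang3 : ang (3 : Fin 6).val = 3 * (π / 3) := by simp [ang]
theorem pm_GeoD_ang4 : ang (4 : Fin 6).val = 4 * (π / 3) := by simp [ang]
theorem pm_GeoD_ang5 : ang (5 : Fin 6).val = 5 * (π / 3) := by simp [ang]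
theorem pm_GeoD_n0 : ang 0 = 0 := by simp [ang]
theorem pm_GeoD_n1 : ang 1 = π / 3 := by simp [ang]
theorem pm_GeoD_n2 : ang 2 = 2 * (π / 3) := by simp [ang]
theorem pm_GeoD_n3 : ang 3 = 3 * (π / 3) := by simp [ang]
theorem pm_GeoD_n4 : ang 4 = 4 * (π / 3) := by simp [ang]
theorem pm_GeoD_n5 : ang 5 = 5 * (π / 3) := by simp [ang]
theorem pm_GeoD_v0 : ((0 : Fin 3).val : ℝ) = 0 := by simp
theorem pm_GeoD_v1 : ((1 : Fin 3).val : ℝ) = 1 := by simp
theorem pm_GeoD_v2 : ((2 : Fin 3).val : ℝ) = 2 := by simp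

theorem geo_polyH {w : ℝ} (hw : 0 < w) (hw' : w ≤ 1 / 10) (i : Fin 3) :
    ∃ mu₀ > (0 : ℝ), ∃ M₀ ≥ (1 : ℝ), ∀ mu, 0 < mu → mu ≤ mu₀ → ∀ M ≥ M₀,
      PolySys (AH i) (SH i) (bd w mu M).R (bd w mu M).k (bd w mu M).fI aI bI (1 / (4 * w)) mu M := by
  obtain ⟨n1, n2, n3, n4, n5⟩ := nu_facts hw hw'
  have hπ := Real.pi_gt_three
  refine pm_GeoD_main (mu' := 0) (M' := 0) hw hw' (AH i) (SH i) (by unfold SH; exact Set.toFinite _) (bd w 0 0).fI aI bI
    (pm_GeoD_aI w) (pm_GeoD_bI w) (fun p _ => pm_GeoD_arcI hw hw' 0 0 p) ?_ ?_ ?_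
    (fun p _ => pm_GeoD_EI hw hw' 0 0 p)
  · intro p hp
    simp only [SH, Set.mem_insert_iff, Set.mem_singleton_iff] at hp
    rcases hp with rfl | rfl | rfl <;> fin_cases i <;> decide
  · intro p hp x hx
    simp only [SH, Set.mem_insert_iff, Set.mem_singleton_iff] at hp
    rcases hp with rfl | rfl | rfl <;> fin_cases i <;> revert hx <;> fin_cases x <;>
      intro hx h1 h2 <;> first
        | exact absurd hx (by decide)
        | exact absurd rfl h1
        | exact absurd rfl h2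
        | (simp only [pm_GeoD_aI, pm_GeoD_bI, pm_GeoD_aII, pm_GeoD_bII, pm_GeoD_ang0, pm_GeoD_ang1,
            pm_GeoD_ang2, pm_GeoD_ang3, pm_GeoD_ang4, pm_GeoD_ang5, pm_GeoD_v0, pm_GeoD_v1, pm_GeoD_v2,
            pm_GeoD_n0, pm_GeoD_n1, pm_GeoD_n2, pm_GeoD_n3, pm_GeoD_n4, pm_GeoD_n5]
           first
            | exact ⟨by linarith, 0, by push_cast; linarith, by push_cast; linarith⟩
            | exact ⟨by linarith, 1, by push_cast; linarith, by push_cast; linarith⟩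
            | exact ⟨by linarith, -1, by push_cast; linarith, by push_cast; linarith⟩)
  · intro p hp q hq hpq
    simp only [SH, Set.mem_insert_iff, Set.mem_singleton_iff] at hp hq
    rcases hp with rfl | rfl | rfl <;> rcases hq with rfl | rfl | rfl <;> fin_cases i <;> first
        | exact absurd rfl hpq
        | (simp only [pm_GeoD_aI, pm_GeoD_bI, pm_GeoD_aII, pm_GeoD_bII, pm_GeoD_ang0, pm_GeoD_ang1,
            pm_GeoD_ang2, pm_GeoD_ang3, pm_GeoD_ang4, pm_GeoD_ang5, pm_GeoD_v0, pm_GeoD_v1, pm_GeoD_v2,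
            pm_GeoD_n0, pm_GeoD_n1, pm_GeoD_n2, pm_GeoD_n3, pm_GeoD_n4, pm_GeoD_n5]
           first
            | exact ⟨by linarith, 0, by push_cast; linarith, by push_cast; linarith⟩
            | exact ⟨by linarith, 1, by push_cast; linarith, by push_cast; linarith⟩
            | exact ⟨by linarith, -1, by push_cast; linarith, by push_cast; linarith⟩)

theorem geo_polyZ {w : ℝ} (hw : 0 < w) (hw' : w ≤ 1 / 10) :
    ∃ mu₀ > (0 : ℝ), ∃ M₀ ≥ (1 : ℝ), ∀ mu, 0 < mu → mu ≤ mu₀ → ∀ M ≥ M₀,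
      PolySys AZ SZ (bd w mu M).R (bd w mu M).k (bd w mu M).fI aI bI (1 / (4 * w)) mu M := by
  obtain ⟨n1, n2, n3, n4, n5⟩ := nu_facts hw hw'
  have hπ := Real.pi_gt_three
  refine pm_GeoD_main (mu' := 0) (M' := 0) hw hw' AZ SZ (by unfold SZ; exact Set.toFinite _) (bd w 0 0).fI aI bI
    (pm_GeoD_aI w) (pm_GeoD_bI w) (fun p _ => pm_GeoD_arcI hw hw' 0 0 p) ?_ ?_ ?_
    (fun p _ => pm_GeoD_EI hw hw' 0 0 p)
  · intro p hp
    simp only [SZ, Set.mem_insert_iff, Set.mem_singleton_iff] at hp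
    rcases hp with rfl | rfl | rfl <;> decide
  · intro p hp x hx
    simp only [SZ, Set.mem_insert_iff, Set.mem_singleton_iff] at hp
    rcases hp with rfl | rfl | rfl <;> revert hx <;> fin_cases x <;>
      intro hx h1 h2 <;> first
        | exact absurd hx (by decide)
        | exact absurd rfl h1
        | exact absurd rfl h2
        | (simp only [pm_GeoD_aI, pm_GeoD_bI, pm_GeoD_aII, pm_GeoD_bII, pm_GeoD_ang0, pm_GeoD_ang1,
            pm_GeoD_ang2, pm_GeoD_ang3, pm_GeoD_ang4, pm_GeoD_ang5, pm_GeoD_v0, pm_GeoD_v1, pm_GeoD_v2,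
            pm_GeoD_n0, pm_GeoD_n1, pm_GeoD_n2, pm_GeoD_n3, pm_GeoD_n4, pm_GeoD_n5]
           first
            | exact ⟨by linarith, 0, by push_cast; linarith, by push_cast; linarith⟩
            | exact ⟨by linarith, 1, by push_cast; linarith, by push_cast; linarith⟩
            | exact ⟨by linarith, -1, by push_cast; linarith, by push_cast; linarith⟩)
  · intro p hp q hq hpq
    simp only [SZ, Set.mem_insert_iff, Set.mem_singleton_iff] at hp hq
    rcases hp with rfl | rfl | rfl <;> rcases hq with rfl | rfl | rfl <;> first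
        | exact absurd rfl hpq
        | (simp only [pm_GeoD_aI, pm_GeoD_bI, pm_GeoD_aII, pm_GeoD_bII, pm_GeoD_ang0, pm_GeoD_ang1,
            pm_GeoD_ang2, pm_GeoD_ang3, pm_GeoD_ang4, pm_GeoD_ang5, pm_GeoD_v0, pm_GeoD_v1, pm_GeoD_v2,
            pm_GeoD_n0, pm_GeoD_n1, pm_GeoD_n2, pm_GeoD_n3, pm_GeoD_n4, pm_GeoD_n5]
           first
            | exact ⟨by linarith, 0, by push_cast; linarith, by push_cast; linarith⟩
            | exact ⟨by linarith, 1, by push_cast; linarith, by push_cast; linarith⟩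
            | exact ⟨by linarith, -1, by push_cast; linarith, by push_cast; linarith⟩)

theorem geo_poly5 {w : ℝ} (hw : 0 < w) (hw' : w ≤ 1 / 10) :
    ∃ mu₀ > (0 : ℝ), ∃ M₀ ≥ (1 : ℝ), ∀ mu, 0 < mu → mu ≤ mu₀ → ∀ M ≥ M₀,
      PolySys A5 S5 (bd w mu M).R (bd w mu M).k (bd w mu M).fI aI bI (1 / (4 * w)) mu M := by
  obtain ⟨n1, n2, n3, n4, n5⟩ := nu_facts hw hw'
  have hπ := Real.pi_gt_three
  refine pm_GeoD_main (mu' := 0) (M' := 0) hw hw' A5 S5 (by unfold S5; exact Set.toFinite _) (bd w 0 0).fI aI bI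
    (pm_GeoD_aI w) (pm_GeoD_bI w) (fun p _ => pm_GeoD_arcI hw hw' 0 0 p) ?_ ?_ ?_
    (fun p _ => pm_GeoD_EI hw hw' 0 0 p)
  · intro p hp
    simp only [S5, Set.mem_insert_iff, Set.mem_singleton_iff] at hp
    rcases hp with rfl | rfl | rfl | rfl | rfl <;> decide
  · intro p hp x hx
    simp only [S5, Set.mem_insert_iff, Set.mem_singleton_iff] at hp
    rcases hp with rfl | rfl | rfl | rfl | rfl <;> revert hx <;> fin_cases x <;>
      intro hx h1 h2 <;> first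
        | exact absurd hx (by decide)
        | exact absurd rfl h1
        | exact absurd rfl h2
        | (simp only [pm_GeoD_aI, pm_GeoD_bI, pm_GeoD_aII, pm_GeoD_bII, pm_GeoD_ang0, pm_GeoD_ang1,
            pm_GeoD_ang2, pm_GeoD_ang3, pm_GeoD_ang4, pm_GeoD_ang5, pm_GeoD_v0, pm_GeoD_v1, pm_GeoD_v2,
            pm_GeoD_n0, pm_GeoD_n1, pm_GeoD_n2, pm_GeoD_n3, pm_GeoD_n4, pm_GeoD_n5]
           first
            | exact ⟨by linarith, 0, by push_cast; linarith, by push_cast; linarith⟩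
            | exact ⟨by linarith, 1, by push_cast; linarith, by push_cast; linarith⟩
            | exact ⟨by linarith, -1, by push_cast; linarith, by push_cast; linarith⟩)
  · intro p hp q hq hpq
    simp only [S5, Set.mem_insert_iff, Set.mem_singleton_iff] at hp hq
    rcases hp with rfl | rfl | rfl | rfl | rfl <;> rcases hq with rfl | rfl | rfl | rfl | rfl <;> first
        | exact absurd rfl hpq
        | (simp only [pm_GeoD_aI, pm_GeoD_bI, pm_GeoD_aII, pm_GeoD_bII, pm_GeoD_ang0, pm_GeoD_ang1,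
            pm_GeoD_ang2, pm_GeoD_ang3, pm_GeoD_ang4, pm_GeoD_ang5, pm_GeoD_v0, pm_GeoD_v1, pm_GeoD_v2,
            pm_GeoD_n0, pm_GeoD_n1, pm_GeoD_n2, pm_GeoD_n3, pm_GeoD_n4, pm_GeoD_n5]
           first
            | exact ⟨by linarith, 0, by push_cast; linarith, by push_cast; linarith⟩
            | exact ⟨by linarith, 1, by push_cast; linarith, by push_cast; linarith⟩
            | exact ⟨by linarith, -1, by push_cast; linarith, by push_cast; linarith⟩)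

theorem geo_poly5' {w : ℝ} (hw : 0 < w) (hw' : w ≤ 1 / 10) :
    ∃ mu₀ > (0 : ℝ), ∃ M₀ ≥ (1 : ℝ), ∀ mu, 0 < mu → mu ≤ mu₀ → ∀ M ≥ M₀,
      PolySys A5 S5' (bd w mu M).R (bd w mu M).k (bd w mu M).fII aII bII (1 / (4 * w)) mu M := by
  obtain ⟨n1, n2, n3, n4, n5⟩ := nu_facts hw hw'
  have hπ := Real.pi_gt_three
  refine pm_GeoD_main (mu' := 0) (M' := 0) hw hw' A5 S5' (by unfold S5'; exact Set.toFinite _) (bd w 0 0).fII aII bII
    (pm_GeoD_aII w) (pm_GeoD_bII w) (fun p _ => pm_GeoD_arcII hw hw' 0 0 p) ?_ ?_ ?_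
    (fun p _ => pm_GeoD_EII hw hw' 0 0 p)
  · intro p hp
    simp only [S5', Set.mem_insert_iff, Set.mem_singleton_iff] at hp
    rcases hp with rfl | rfl | rfl | rfl | rfl <;> decide
  · intro p hp x hx
    simp only [S5', Set.mem_insert_iff, Set.mem_singleton_iff] at hp
    rcases hp with rfl | rfl | rfl | rfl | rfl <;> revert hx <;> fin_cases x <;>
      intro hx h1 h2 <;> first
        | exact absurd hx (by decide)
        | exact absurd rfl h1
        | exact absurd rfl h2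
        | (simp only [pm_GeoD_aI, pm_GeoD_bI, pm_GeoD_aII, pm_GeoD_bII, pm_GeoD_ang0, pm_GeoD_ang1,
            pm_GeoD_ang2, pm_GeoD_ang3, pm_GeoD_ang4, pm_GeoD_ang5, pm_GeoD_v0, pm_GeoD_v1, pm_GeoD_v2,
            pm_GeoD_n0, pm_GeoD_n1, pm_GeoD_n2, pm_GeoD_n3, pm_GeoD_n4, pm_GeoD_n5]
           first
            | exact ⟨by linarith, 0, by push_cast; linarith, by push_cast; linarith⟩
            | exact ⟨by linarith, 1, by push_cast; linarith, by push_cast; linarith⟩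
            | exact ⟨by linarith, -1, by push_cast; linarith, by push_cast; linarith⟩)
  · intro p hp q hq hpq
    simp only [S5', Set.mem_insert_iff, Set.mem_singleton_iff] at hp hq
    rcases hp with rfl | rfl | rfl | rfl | rfl <;> rcases hq with rfl | rfl | rfl | rfl | rfl <;> first
        | exact absurd rfl hpq
        | (simp only [pm_GeoD_aI, pm_GeoD_bI, pm_GeoD_aII, pm_GeoD_bII, pm_GeoD_ang0, pm_GeoD_ang1,
            pm_GeoD_ang2, pm_GeoD_ang3, pm_GeoD_ang4, pm_GeoD_ang5, pm_GeoD_v0, pm_GeoD_v1, pm_GeoD_v2,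
            pm_GeoD_n0, pm_GeoD_n1, pm_GeoD_n2, pm_GeoD_n3, pm_GeoD_n4, pm_GeoD_n5]
           first
            | exact ⟨by linarith, 0, by push_cast; linarith, by push_cast; linarith⟩
            | exact ⟨by linarith, 1, by push_cast; linarith, by push_cast; linarith⟩
            | exact ⟨by linarith, -1, by push_cast; linarith, by push_cast; linarith⟩)

theorem geo_polyPc {w : ℝ} (hw : 0 < w) (hw' : w ≤ 1 / 10) :
    ∃ mu₀ > (0 : ℝ), ∃ M₀ ≥ (1 : ℝ), ∀ mu, 0 < mu → mu ≤ mu₀ → ∀ M ≥ M₀,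
      PolySys APc SPc (bd w mu M).R (bd w mu M).k (bd w mu M).fII aII bII (1 / (4 * w)) mu M := by
  obtain ⟨n1, n2, n3, n4, n5⟩ := nu_facts hw hw'
  have hπ := Real.pi_gt_three
  refine pm_GeoD_main (mu' := 0) (M' := 0) hw hw' APc SPc (by unfold SPc; exact Set.toFinite _) (bd w 0 0).fII aII bII
    (pm_GeoD_aII w) (pm_GeoD_bII w) (fun p _ => pm_GeoD_arcII hw hw' 0 0 p) ?_ ?_ ?_
    (fun p _ => pm_GeoD_EII hw hw' 0 0 p)
  · intro p hp
    simp only [SPc, Set.mem_insert_iff, Set.mem_singleton_iff] at hp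
    rcases hp with rfl | rfl | rfl <;> decide
  · intro p hp x hx
    simp only [SPc, Set.mem_insert_iff, Set.mem_singleton_iff] at hp
    rcases hp with rfl | rfl | rfl <;> revert hx <;> fin_cases x <;>
      intro hx h1 h2 <;> first
        | exact absurd hx (by decide)
        | exact absurd rfl h1
        | exact absurd rfl h2
        | (simp only [pm_GeoD_aI, pm_GeoD_bI, pm_GeoD_aII, pm_GeoD_bII, pm_GeoD_ang0, pm_GeoD_ang1,
            pm_GeoD_ang2, pm_GeoD_ang3, pm_GeoD_ang4, pm_GeoD_ang5, pm_GeoD_v0, pm_GeoD_v1, pm_GeoD_v2,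
            pm_GeoD_n0, pm_GeoD_n1, pm_GeoD_n2, pm_GeoD_n3, pm_GeoD_n4, pm_GeoD_n5]
           first
            | exact ⟨by linarith, 0, by push_cast; linarith, by push_cast; linarith⟩
            | exact ⟨by linarith, 1, by push_cast; linarith, by push_cast; linarith⟩
            | exact ⟨by linarith, -1, by push_cast; linarith, by push_cast; linarith⟩)
  · intro p hp q hq hpq
    simp only [SPc, Set.mem_insert_iff, Set.mem_singleton_iff] at hp hq
    rcases hp with rfl | rfl | rfl <;> rcases hq with rfl | rfl | rfl <;> first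
        | exact absurd rfl hpq
        | (simp only [pm_GeoD_aI, pm_GeoD_bI, pm_GeoD_aII, pm_GeoD_bII, pm_GeoD_ang0, pm_GeoD_ang1,
            pm_GeoD_ang2, pm_GeoD_ang3, pm_GeoD_ang4, pm_GeoD_ang5, pm_GeoD_v0, pm_GeoD_v1, pm_GeoD_v2,
            pm_GeoD_n0, pm_GeoD_n1, pm_GeoD_n2, pm_GeoD_n3, pm_GeoD_n4, pm_GeoD_n5]
           first
            | exact ⟨by linarith, 0, by push_cast; linarith, by push_cast; linarith⟩
            | exact ⟨by linarith, 1, by push_cast; linarith, by push_cast; linarith⟩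
            | exact ⟨by linarith, -1, by push_cast; linarith, by push_cast; linarith⟩)

theorem geo_polyQc {w : ℝ} (hw : 0 < w) (hw' : w ≤ 1 / 10) :
    ∃ mu₀ > (0 : ℝ), ∃ M₀ ≥ (1 : ℝ), ∀ mu, 0 < mu → mu ≤ mu₀ → ∀ M ≥ M₀,
      PolySys AQc SQc (bd w mu M).R (bd w mu M).k (bd w mu M).fII aII bII (1 / (4 * w)) mu M := by
  obtain ⟨n1, n2, n3, n4, n5⟩ := nu_facts hw hw'
  have hπ := Real.pi_gt_three
  refine pm_GeoD_main (mu' := 0) (M' := 0) hw hw' AQc SQc (by unfold SQc; exact Set.toFinite _) (bd w 0 0).fII aII bII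
    (pm_GeoD_aII w) (pm_GeoD_bII w) (fun p _ => pm_GeoD_arcII hw hw' 0 0 p) ?_ ?_ ?_
    (fun p _ => pm_GeoD_EII hw hw' 0 0 p)
  · intro p hp
    simp only [SQc, Set.mem_insert_iff, Set.mem_singleton_iff] at hp
    rcases hp with rfl | rfl | rfl | rfl <;> decide
  · intro p hp x hx
    simp only [SQc, Set.mem_insert_iff, Set.mem_singleton_iff] at hp
    rcases hp with rfl | rfl | rfl | rfl <;> revert hx <;> fin_cases x <;>
      intro hx h1 h2 <;> first
        | exact absurd hx (by decide)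
        | exact absurd rfl h1
        | exact absurd rfl h2
        | (simp only [pm_GeoD_aI, pm_GeoD_bI, pm_GeoD_aII, pm_GeoD_bII, pm_GeoD_ang0, pm_GeoD_ang1,
            pm_GeoD_ang2, pm_GeoD_ang3, pm_GeoD_ang4, pm_GeoD_ang5, pm_GeoD_v0, pm_GeoD_v1, pm_GeoD_v2,
            pm_GeoD_n0, pm_GeoD_n1, pm_GeoD_n2, pm_GeoD_n3, pm_GeoD_n4, pm_GeoD_n5]
           first
            | exact ⟨by linarith, 0, by push_cast; linarith, by push_cast; linarith⟩
            | exact ⟨by linarith, 1, by push_cast; linarith, by push_cast; linarith⟩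
            | exact ⟨by linarith, -1, by push_cast; linarith, by push_cast; linarith⟩)
  · intro p hp q hq hpq
    simp only [SQc, Set.mem_insert_iff, Set.mem_singleton_iff] at hp hq
    rcases hp with rfl | rfl | rfl | rfl <;> rcases hq with rfl | rfl | rfl | rfl <;> first
        | exact absurd rfl hpq
        | (simp only [pm_GeoD_aI, pm_GeoD_bI, pm_GeoD_aII, pm_GeoD_bII, pm_GeoD_ang0, pm_GeoD_ang1,
            pm_GeoD_ang2, pm_GeoD_ang3, pm_GeoD_ang4, pm_GeoD_ang5, pm_GeoD_v0, pm_GeoD_v1, pm_GeoD_v2,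
            pm_GeoD_n0, pm_GeoD_n1, pm_GeoD_n2, pm_GeoD_n3, pm_GeoD_n4, pm_GeoD_n5]
           first
            | exact ⟨by linarith, 0, by push_cast; linarith, by push_cast; linarith⟩
            | exact ⟨by linarith, 1, by push_cast; linarith, by push_cast; linarith⟩
            | exact ⟨by linarith, -1, by push_cast; linarith, by push_cast; linarith⟩)


/-! ### the handle -/

theorem pm_GeoE_sin {w : ℝ} (hw : 0 < w) (hw' : w ≤ 1 / 10) :
    0 < sin w ∧ sin w ^ 2 ≤ w ^ 2 ∧ sin w ^ 2 ≤ 1 / 100 ∧ 0 < cos w := by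
  have hpi : (3 : ℝ) < π := Real.pi_gt_three
  have h1 : 0 < sin w := Real.sin_pos_of_pos_of_lt_pi hw (by linarith)
  have h2 : sin w ≤ w := Real.sin_le hw.le
  have h3 : sin w ^ 2 ≤ w ^ 2 := by
    apply pow_le_pow_left₀ h1.le h2
  refine ⟨h1, h3, ?_, ?_⟩
  · nlinarith
  · apply Real.cos_pos_of_mem_Ioo
    constructor <;> linarith

theorem pm_GeoE_disc (w : ℝ) : disc w = (1 - 4 * sin w ^ 2) ^ 2 - 12 * (sin w ^ 2) ^ 3 := by
  have h : cos w ^ 2 = 1 - sin w ^ 2 := by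
    have := Real.sin_sq_add_cos_sq w; linarith
  have h4 : cos w ^ 4 = (1 - sin w ^ 2) ^ 2 := by rw [← h]; ring
  have h6 : cos w ^ 6 = (1 - sin w ^ 2) ^ 3 := by rw [← h]; ring
  rw [disc, h4, h6, h]
  ring

theorem disc_pos {w : ℝ} (hw : 0 < w) (hw' : w ≤ 1 / 10) : 0 < disc w := by
  obtain ⟨h1, h2, h3, h4⟩ := pm_GeoE_sin hw hw'
  rw [pm_GeoE_disc]
  have h0 : 0 ≤ sin w ^ 2 := sq_nonneg _
  generalize sin w ^ 2 = u at *
  have : 0 ≤ (1 / 100 - u) * u := mul_nonneg (by linarith) h0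
  have hu3 : u ^ 3 ≤ 1 / 100 := by
    calc u ^ 3 ≤ (1 / 100) ^ 3 := pow_le_pow_left₀ h0 h3 3
      _ ≤ 1 / 100 := by norm_num
  nlinarith

theorem pm_GeoE_X0 (w : ℝ) : X0 w = (1 / sin w ^ 2) •
    !![(1 + cos w) * (1 / 2 - cos w), (1 + cos w) * (√3 / 2);
       -((1 - cos w) * (√3 / 2)), (1 - cos w) * (1 / 2 + cos w)] := by
  rw [X0, iv, iv, Matrix.smul_mul, Matrix.mul_smul, smul_smul]
  simp only [sin_zero, cos_zero, Real.cos_pi_div_three, Real.sin_pi_div_three, neg_zero]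
  have : 1 / sin w * (1 / sin w) = 1 / sin w ^ 2 := by
    rw [div_mul_div_comm, one_mul, sq]
  rw [this]
  congr 1
  ext i j
  fin_cases i <;> fin_cases j <;> simp [Matrix.mul_apply, Fin.sum_univ_two]

theorem X0_tr {w : ℝ} (hw : 0 < w) (hw' : w ≤ 1 / 10) :
    (X0 w).trace = (1 - 2 * cos w ^ 2) / sin w ^ 2 := by
  rw [pm_GeoE_X0, Matrix.trace_fin_two]
  simp only [Matrix.smul_apply, smul_eq_mul, Matrix.of_apply, Matrix.cons_val', Matrix.cons_val_zero,
    Matrix.cons_val_one, Matrix.empty_val', Matrix.cons_val_fin_one]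
  ring

theorem pm_GeoE_X0det {w : ℝ} (hw : 0 < w) (hw' : w ≤ 1 / 10) : (X0 w).det = 1 := by
  obtain ⟨h1, h2, h3, h4⟩ := pm_GeoE_sin hw hw'
  rw [X0, Matrix.det_mul, iv_det h1.ne', iv_det h1.ne']
  norm_num

theorem pm_GeoE_refldet : refl.det = -1 := by
  rw [refl, Matrix.det_fin_two]
  simp
  have : √3 * √3 = 3 := Real.mul_self_sqrt (by norm_num)
  nlinarith

theorem pm_GeoE_refltr : refl.trace = 0 := by
  rw [refl, Matrix.trace_fin_two]
  simp

theorem pm_GeoE_reflX0 (w : ℝ) : (refl * X0 w).trace = cos w / sin w ^ 2 := by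
  rw [pm_GeoE_X0, Matrix.mul_smul, Matrix.trace_smul, smul_eq_mul, refl, Matrix.trace_fin_two]
  simp [Matrix.mul_apply, Fin.sum_univ_two]
  have : √3 * √3 = 3 := Real.mul_self_sqrt (by norm_num)
  have h2 : 2⁻¹ * ((1 + cos w) * (2⁻¹ - cos w)) + -(√3 / 2 * ((1 - cos w) * (√3 / 2))) +
    (√3 / 2 * ((1 + cos w) * (√3 / 2)) + -(2⁻¹ * ((1 - cos w) * (2⁻¹ + cos w)))) = cos w := by
    linear_combination (2 * cos w / 4) * this
  rw [h2]
  ring

/-- the determinant of a linear polynomial in a matrix -/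
theorem pm_GeoE_detlin (A : M2) (a b : ℝ) :
    (a • (1 : M2) + b • A).det = a ^ 2 + a * b * A.trace + b ^ 2 * A.det := by
  rw [Matrix.det_fin_two, Matrix.det_fin_two, Matrix.trace_fin_two]
  simp [Matrix.add_apply, Matrix.smul_apply]
  ring

theorem pm_GeoE_S {w : ℝ} (hw : 0 < w) (hw' : w ≤ 1 / 10) : √(disc w) ^ 2 = disc w :=
  Real.sq_sqrt (disc_pos hw hw').le

theorem Y0_det {w : ℝ} (hw : 0 < w) (hw' : w ≤ 1 / 10) : (Y0 w).det = 1 := by
  obtain ⟨h1, h2, h3, h4⟩ := pm_GeoE_sin hw hw'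
  rw [Y0, Matrix.det_mul, pm_GeoE_refldet, pm_GeoE_detlin, pm_GeoE_X0det hw hw', X0_tr hw hw']
  have hS := pm_GeoE_S hw hw'
  rw [al, be]
  generalize √(disc w) = S at *
  have hs : sin w ^ 2 = 1 - cos w ^ 2 := by
    have := Real.sin_sq_add_cos_sq w; linarith
  have hs0 : (1 - cos w ^ 2) ≠ 0 := by rw [← hs]; positivity
  rw [disc] at hS
  rw [hs]
  have hc : cos w ≠ 0 := h4.ne'
  generalize cos w = c at *
  field_simp
  linear_combination (-1 : ℝ) * hS

theorem pm_GeoE_refliv (w : ℝ) :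
    refl * (iv w (π / 3) * iv w 0) = iv w (π / 3) * iv w (2 * (π / 3)) * refl := by
  have hc : cos (2 * (π / 3)) = - (1 / 2) := by
    rw [Real.cos_two_mul, Real.cos_pi_div_three]; norm_num
  have hs : sin (2 * (π / 3)) = √3 / 2 := by
    rw [Real.sin_two_mul, Real.cos_pi_div_three, Real.sin_pi_div_three]; ring
  have h3 : √3 * √3 = 3 := Real.mul_self_sqrt (by norm_num)
  rw [iv, iv, iv, hc, hs]
  simp only [sin_zero, cos_zero, Real.cos_pi_div_three, Real.sin_pi_div_three, neg_zero]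
  simp only [Matrix.smul_mul, Matrix.mul_smul, smul_smul]
  congr 1
  rw [refl]
  ext i j
  fin_cases i <;> fin_cases j <;> simp [Matrix.mul_apply, Fin.sum_univ_two]
  · linear_combination (-(1/8 : ℝ) - cos w / 4) * h3
  · linear_combination (-(√3 / 8)) * h3
  · linear_combination (-(√3 / 8)) * h3
  · linear_combination ((1/8 : ℝ) - cos w / 4) * h3

theorem Y0_conj {w : ℝ} (hw : 0 < w) (hw' : w ≤ 1 / 10) :
    Y0 w * (iv w (π / 3) * iv w 0) = iv w (π / 3) * iv w (2 * (π / 3)) * Y0 w := by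
  obtain ⟨h1, h2, h3, h4⟩ := pm_GeoE_sin hw hw'
  have hX : X0 w * (iv w (π / 3) * iv w 0) = 1 := by
    rw [X0, Matrix.mul_assoc, ← Matrix.mul_assoc (iv w (π / 3)), iv_sq h1.ne', Matrix.one_mul,
      iv_sq h1.ne']
  have hX' : (iv w (π / 3) * iv w 0) * X0 w = 1 := by
    rw [X0, Matrix.mul_assoc, ← Matrix.mul_assoc (iv w 0), iv_sq h1.ne', Matrix.one_mul,
      iv_sq h1.ne']
  rw [Y0, ← Matrix.mul_assoc _ refl, ← pm_GeoE_refliv, Matrix.mul_assoc, Matrix.mul_assoc]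
  congr 1
  rw [Matrix.add_mul, Matrix.mul_add, Matrix.smul_mul, Matrix.smul_mul, Matrix.mul_smul,
    Matrix.mul_smul, Matrix.one_mul, Matrix.mul_one, hX, hX']

theorem Y0_tr {w : ℝ} (hw : 0 < w) (hw' : w ≤ 1 / 10) : (Y0 w).trace = (X0 w).trace := by
  obtain ⟨h1, h2, h3, h4⟩ := pm_GeoE_sin hw hw'
  rw [X0_tr hw hw', Y0, Matrix.mul_add, Matrix.mul_smul, Matrix.mul_smul, Matrix.mul_one,
    Matrix.trace_add, Matrix.trace_smul, Matrix.trace_smul, pm_GeoE_refltr, pm_GeoE_reflX0, be]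
  simp only [smul_eq_mul]
  field_simp
  ring

theorem pm_GeoE_CH (A : M2) : A * A = A.trace • A - A.det • (1 : M2) := by
  rw [Matrix.det_fin_two, Matrix.trace_fin_two]
  ext i j
  fin_cases i <;> fin_cases j <;> simp [Matrix.mul_apply, Fin.sum_univ_two] <;> ring

theorem pm_GeoE_YXtr {w : ℝ} (hw : 0 < w) (hw' : w ≤ 1 / 10) :
    (Y0 w * X0 w).trace = ((1 - 2 * cos w ^ 2) ^ 2 - √(disc w)) / (2 * (sin w ^ 2) ^ 2) := by
  obtain ⟨h1, h2, h3, h4⟩ := pm_GeoE_sin hw hw'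
  have h : Y0 w * X0 w = (al w + be w * (X0 w).trace) • (refl * X0 w) - be w • refl := by
    rw [Y0, Matrix.mul_add, Matrix.mul_smul, Matrix.mul_smul, Matrix.mul_one, Matrix.add_mul,
      Matrix.smul_mul, Matrix.smul_mul, Matrix.mul_assoc, pm_GeoE_CH, pm_GeoE_X0det hw hw',
      Matrix.mul_sub, Matrix.mul_smul, one_smul, Matrix.mul_one, add_smul, smul_sub, smul_smul]
    abel
  rw [h, Matrix.trace_sub, Matrix.trace_smul, Matrix.trace_smul, pm_GeoE_refltr, pm_GeoE_reflX0,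
    X0_tr hw hw', al, be]
  simp only [smul_eq_mul]
  field_simp
  ring

theorem YX_tr {w : ℝ} (hw : 0 < w) (hw' : w ≤ 1 / 10) :
    2 < (Y0 w * X0 w).trace ∧ (Y0 w * X0 w).trace ≤ 2 + 4 * w ^ 2 := by
  obtain ⟨h1, h2, h3, h4⟩ := pm_GeoE_sin hw hw'
  rw [pm_GeoE_YXtr hw hw']
  have h0 : 0 < sin w ^ 2 := by positivity
  have hc : cos w ^ 2 = 1 - sin w ^ 2 := by
    have := Real.sin_sq_add_cos_sq w; linarith
  rw [hc, pm_GeoE_disc]
  generalize sin w ^ 2 = u at *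
  have hS1 : √((1 - 4 * u) ^ 2 - 12 * u ^ 3) < 1 - 4 * u := by
    rw [Real.sqrt_lt' (by linarith)]
    have : 0 < u ^ 3 := by positivity
    linarith
  have hS2 : 1 - 4 * u - 8 * u ^ 3 ≤ √((1 - 4 * u) ^ 2 - 12 * u ^ 3) := by
    apply Real.le_sqrt_of_sq_le
    have h5 : 0 < u ^ 3 := by positivity
    have h6 : u ^ 3 ≤ 1 / 100 := by
      calc u ^ 3 ≤ (1 / 100) ^ 3 := pow_le_pow_left₀ h0.le h3 3
        _ ≤ 1 / 100 := by norm_num
    nlinarith [mul_pos h5 h0, mul_pos h5 h5]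
  constructor
  · rw [lt_div_iff₀ (by positivity)]
    nlinarith
  · rw [div_le_iff₀ (by positivity)]
    have : u ^ 3 ≤ u ^ 2 * w ^ 2 := by
      have := mul_le_mul_of_nonneg_left h2 (sq_nonneg u)
      nlinarith
    nlinarith

theorem pm_GeoF_sc {w : ℝ} (hw : 0 < w) (hw' : w ≤ 1 / 10) :
    w / 2 ≤ sin w ∧ sin w ≤ 1 / 10 ∧ 99 / 100 ≤ cos w ∧ cos w ≤ 1 := by
  have hpi := Real.pi_gt_three
  have hpi4 := Real.pi_le_four
  refine ⟨?_, ?_, ?_, Real.cos_le_one w⟩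
  · have h := Real.mul_le_sin hw.le (by linarith : w ≤ π / 2)
    have h2 : (1 / 2 : ℝ) ≤ 2 / π := by
      rw [div_le_div_iff₀ (by norm_num) Real.pi_pos]
      linarith
    nlinarith
  · exact (Real.sin_le hw.le).trans hw'
  · have h := Real.one_sub_sq_div_two_le_cos (x := w)
    nlinarith

theorem pm_GeoF_X0 (w : ℝ) : X0 w = (1 / sin w) ^ 2 •
    !![(1 + cos w) * (1 / 2 - cos w), (1 + cos w) * (Real.sqrt 3 / 2);
      -((1 - cos w) * (Real.sqrt 3 / 2)), (1 - cos w) * (1 / 2 + cos w)] := by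
  unfold X0 iv
  rw [Real.cos_pi_div_three, Real.sin_pi_div_three, Real.sin_zero, Real.cos_zero]
  ext i j
  fin_cases i <;> fin_cases j <;>
    simp [Matrix.mul_apply, Fin.sum_univ_two] <;> ring

theorem pm_GeoF_sqrt3 : 0 ≤ Real.sqrt 3 ∧ Real.sqrt 3 ≤ 2 := by
  refine ⟨Real.sqrt_nonneg 3, ?_⟩
  rw [Real.sqrt_le_left (by norm_num)]
  norm_num

theorem pm_GeoF_X0_le {w : ℝ} (hw : 0 < w) (hw' : w ≤ 1 / 10) (i j : Fin 2) :
    |X0 w i j| ≤ 4 * (1 / sin w) ^ 2 := by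
  obtain ⟨h1, h2, h3, h4⟩ := pm_GeoF_sc hw hw'
  obtain ⟨h5, h6⟩ := pm_GeoF_sqrt3
  have hk : (0 : ℝ) ≤ (1 / sin w) ^ 2 := by positivity
  have key : ∀ x : ℝ, |x| ≤ 4 → |(1 / sin w) ^ 2 * x| ≤ 4 * (1 / sin w) ^ 2 := by
    intro x hx
    rw [abs_mul, abs_of_nonneg hk]
    nlinarith
  rw [pm_GeoF_X0]
  fin_cases i <;> fin_cases j
  · show |(1 / sin w) ^ 2 * ((1 + cos w) * (1 / 2 - cos w))| ≤ _
    apply key
    rw [abs_le]
    constructor <;> nlinarith
  · show |(1 / sin w) ^ 2 * ((1 + cos w) * (Real.sqrt 3 / 2))| ≤ _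
    apply key
    rw [abs_le]
    constructor <;> nlinarith
  · show |(1 / sin w) ^ 2 * (-((1 - cos w) * (Real.sqrt 3 / 2)))| ≤ _
    apply key
    rw [abs_le]
    constructor <;> nlinarith
  · show |(1 / sin w) ^ 2 * ((1 - cos w) * (1 / 2 + cos w))| ≤ _
    apply key
    rw [abs_le]
    constructor <;> nlinarith

theorem pm_GeoF_ch (A : M2) (h : A.det = 1) : A * A = A.trace • A - 1 := by
  rw [Matrix.det_fin_two] at h
  ext i j
  fin_cases i <;> fin_cases j <;>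
    simp [Matrix.mul_apply, Fin.sum_univ_two, Matrix.trace_fin_two] <;> linarith

theorem pm_GeoF_X0_det {w : ℝ} (hw : 0 < w) (hw' : w ≤ 1 / 10) : (X0 w).det = 1 := by
  obtain ⟨h1, h2, h3, h4⟩ := pm_GeoF_sc hw hw'
  have hs : sin w ≠ 0 := by
    have : 0 < sin w := by linarith
    exact this.ne'
  unfold X0
  rw [Matrix.det_mul, iv_det hs, iv_det hs]
  norm_num

/-- the coefficient of `X0` in `Y0 X0` -/
theorem pm_GeoF_coef {w : ℝ} (hw : 0 < w) (hw' : w ≤ 1 / 10) :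
    |al w + be w * (X0 w).trace| ≤ 5 * sin w ^ 2 := by
  obtain ⟨h1, h2, h3, h4⟩ := pm_GeoF_sc hw hw'
  have hs : 0 < sin w := by linarith
  have hc : 0 < cos w := by linarith
  rw [X0_tr hw hw']
  have hd := (disc_pos hw hw').le
  set r := Real.sqrt (disc w) with hr
  have hr0 : 0 ≤ r := Real.sqrt_nonneg _
  have hr2 : r ^ 2 = disc w := Real.sq_sqrt hd
  set y := sin w ^ 2 with hy
  have hy0 : 0 < y := by positivity
  have hy1 : y ≤ 1 / 100 := by nlinarith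
  have hcy : cos w ^ 2 = 1 - y := by
    have := Real.sin_sq_add_cos_sq w
    linarith
  have hdy : disc w = 1 - 8 * y + 16 * y ^ 2 - 12 * y ^ 3 := by
    have : disc w = 12 * (cos w ^ 2) ^ 3 - 20 * (cos w ^ 2) ^ 2 + 12 * cos w ^ 2 - 3 := by
      unfold disc; ring
    rw [this, hcy]; ring
  have e : al w + be w * ((1 - 2 * cos w ^ 2) / y) =
      ((1 - 2 * y) ^ 2 - r) / (2 * cos w * y) := by
    unfold al be
    rw [← hr, ← hy, hcy]
    field_simp
    ring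
  rw [e, abs_div, abs_of_pos (by positivity : 0 < 2 * cos w * y),
    div_le_iff₀ (by positivity)]
  have hu : (96 : ℝ) / 100 ≤ (1 - 2 * y) ^ 2 := by nlinarith
  have hprod : ((1 - 2 * y) ^ 2 - r) * ((1 - 2 * y) ^ 2 + r) =
      8 * y ^ 2 - 20 * y ^ 3 + 16 * y ^ 4 := by
    have : ((1 - 2 * y) ^ 2 - r) * ((1 - 2 * y) ^ 2 + r) = (1 - 2 * y) ^ 4 - r ^ 2 := by ring
    rw [this, hr2, hdy]; ring
  have hD0 : 0 ≤ 8 * y ^ 2 - 20 * y ^ 3 + 16 * y ^ 4 := by
    have : 8 * y ^ 2 - 20 * y ^ 3 + 16 * y ^ 4 = y ^ 2 * (8 - 20 * y + 16 * y ^ 2) := by ring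
    rw [this]
    apply mul_nonneg (by positivity)
    nlinarith
  have hD1 : 8 * y ^ 2 - 20 * y ^ 3 + 16 * y ^ 4 ≤ 8 * y ^ 2 := by
    have : 20 * y ^ 3 - 16 * y ^ 4 = y ^ 3 * (20 - 16 * y) := by ring
    have h' : 0 ≤ y ^ 3 * (20 - 16 * y) := mul_nonneg (by positivity) (by linarith)
    linarith
  have hur : 0 < (1 - 2 * y) ^ 2 + r := by linarith
  have hdiff0 : 0 ≤ (1 - 2 * y) ^ 2 - r := by
    by_contra hneg
    push Not at hneg
    have := mul_neg_of_neg_of_pos hneg hur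
    rw [hprod] at this
    linarith
  rw [abs_of_nonneg hdiff0]
  have hdiff1 : ((1 - 2 * y) ^ 2 - r) * (96 / 100) ≤ 8 * y ^ 2 := by
    have := mul_le_mul_of_nonneg_left (by linarith : (96 : ℝ) / 100 ≤ (1 - 2 * y) ^ 2 + r) hdiff0
    rw [hprod] at this
    linarith
  have hfin : 5 * y * (2 * cos w * y) ≥ 5 * y * (2 * (99 / 100) * y) := by
    apply mul_le_mul_of_nonneg_left _ (by positivity)
    nlinarith
  nlinarith

theorem pm_GeoF_YX {w : ℝ} (hw : 0 < w) (hw' : w ≤ 1 / 10) (i j : Fin 2) :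
    |(Y0 w * X0 w) i j| ≤ 44 := by
  obtain ⟨h1, h2, h3, h4⟩ := pm_GeoF_sc hw hw'
  obtain ⟨h5, h6⟩ := pm_GeoF_sqrt3
  have hs : 0 < sin w := by linarith
  have hc : 0 < cos w := by linarith
  have e : Y0 w * X0 w = refl * ((al w + be w * (X0 w).trace) • X0 w - be w • (1 : M2)) := by
    have hch := pm_GeoF_ch (X0 w) (pm_GeoF_X0_det hw hw')
    unfold Y0
    rw [mul_assoc, add_mul, smul_mul_assoc, one_mul, smul_mul_assoc, hch, smul_sub, smul_smul,
      add_smul]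
    congr 1
    abel
  have hbe : |be w| ≤ 2 := by
    unfold be
    rw [abs_div, abs_of_pos hc, div_le_iff₀ hc, abs_le]
    constructor <;> nlinarith
  have hk : 0 < (1 / sin w) ^ 2 := by positivity
  have hB : ∀ i j, |((al w + be w * (X0 w).trace) • X0 w - be w • (1 : M2)) i j| ≤ 22 := by
    intro i j
    have h7 := pm_GeoF_coef hw hw'
    have h8 := pm_GeoF_X0_le hw hw' i j
    have h9 : |(al w + be w * (X0 w).trace) * X0 w i j| ≤ 20 := by
      rw [abs_mul]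
      calc _ ≤ (5 * sin w ^ 2) * (4 * (1 / sin w) ^ 2) :=
            mul_le_mul h7 h8 (abs_nonneg _) (by positivity)
        _ = 20 := by field_simp; norm_num
    have h10 : |be w * (1 : M2) i j| ≤ 2 := by
      rw [abs_mul]
      have : |(1 : M2) i j| ≤ 1 := by
        rw [Matrix.one_apply]
        split_ifs <;> simp
      calc _ ≤ 2 * 1 := mul_le_mul hbe this (abs_nonneg _) (by norm_num)
        _ = 2 := by norm_num
    show |(al w + be w * (X0 w).trace) * X0 w i j - be w * (1 : M2) i j| ≤ 22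
    calc _ ≤ |(al w + be w * (X0 w).trace) * X0 w i j| + |be w * (1 : M2) i j| := abs_sub _ _
      _ ≤ 22 := by linarith
  rw [e, Matrix.mul_apply, Fin.sum_univ_two]
  have hR : ∀ i j, |refl i j| ≤ 1 := by
    intro i j
    fin_cases i <;> fin_cases j
    · show |(1 / 2 : ℝ)| ≤ 1
      rw [abs_le]; constructor <;> norm_num
    · show |Real.sqrt 3 / 2| ≤ 1
      rw [abs_le]; constructor <;> linarith
    · show |Real.sqrt 3 / 2| ≤ 1
      rw [abs_le]; constructor <;> linarith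
    · show |(-(1 / 2) : ℝ)| ≤ 1
      rw [abs_le]; constructor <;> norm_num
  have hm : ∀ k, |refl i k * ((al w + be w * (X0 w).trace) • X0 w - be w • (1 : M2)) k j| ≤ 22 := by
    intro k
    rw [abs_mul]
    calc _ ≤ 1 * 22 := mul_le_mul (hR i k) (hB k j) (abs_nonneg _) (by norm_num)
      _ = 22 := by norm_num
  refine (abs_add_le _ _).trans ?_
  linarith [hm 0, hm 1]

theorem pm_GeoF_F {w : ℝ} (hw : 0 < w) (hw' : w ≤ 1 / 10) (i j : Fin 2) :
    |(pfr w 0 (2 * (π / 3)) * J2) i j| ≤ 2 := by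
  obtain ⟨-, -, h1, h2, -⟩ := nu_facts hw hw'
  have hpi := Real.pi_gt_three
  have hpi4 := Real.pi_le_four
  have e : (2 * (π / 3) - 0) / 2 = π / 3 := by ring
  have e' : (0 + 2 * (π / 3)) / 2 = π / 3 := by ring
  unfold pfr
  rw [e, e']
  set ν := nu w (π / 3) with hν
  unfold fr
  have e2 : (π / 3 - ν + 2 * π - (π / 3 + ν)) / 2 = π - ν := by ring
  rw [e2, Real.sin_pi_sub]
  have hs : (1 / 4 : ℝ) ≤ sin ν := by
    have h := Real.mul_le_sin (x := ν) (by linarith) (by linarith)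
    have h2 : (1 / 2 : ℝ) ≤ 2 / π := by
      rw [div_le_div_iff₀ (by norm_num) Real.pi_pos]
      linarith
    nlinarith
  have hr : (1 / 2 : ℝ) ≤ Real.sqrt (sin ν) := by
    rw [Real.le_sqrt (by norm_num) (by linarith)]
    linarith
  have hr2 : |1 / Real.sqrt (sin ν)| ≤ 2 := by
    rw [abs_of_nonneg (by positivity), div_le_iff₀ (by linarith)]
    linarith
  have key : ∀ x : ℝ, |x| ≤ 1 → |1 / Real.sqrt (sin ν) * x| ≤ 2 := by
    intro x hx
    rw [abs_mul]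
    calc _ ≤ 2 * 1 := mul_le_mul hr2 hx (abs_nonneg _) (by norm_num)
      _ = 2 := by norm_num
  set a := π / 3 + ν
  set b := π / 3 - ν + 2 * π
  have e3 : (1 / Real.sqrt (sin ν)) • !![cos (a / 2), cos (b / 2); sin (a / 2), sin (b / 2)] * J2 =
      !![1 / Real.sqrt (sin ν) * cos (b / 2), 1 / Real.sqrt (sin ν) * -cos (a / 2);
        1 / Real.sqrt (sin ν) * sin (b / 2), 1 / Real.sqrt (sin ν) * -sin (a / 2)] := by
    ext i j
    fin_cases i <;> fin_cases j <;> simp [J2, Matrix.mul_apply, Fin.sum_univ_two]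
  rw [e3]
  fin_cases i <;> fin_cases j
  · exact key _ (Real.abs_cos_le_one _)
  · exact key _ (by rw [abs_neg]; exact Real.abs_cos_le_one _)
  · exact key _ (Real.abs_sin_le_one _)
  · exact key _ (by rw [abs_neg]; exact Real.abs_sin_le_one _)

/-- sizes -/
theorem XY_size : ∃ C > (0 : ℝ), ∀ w : ℝ, 0 < w → w ≤ 1 / 10 →
    (∀ i j, |X0 w i j| ≤ C / w ^ 2) ∧ (∀ i j, |(Y0 w * X0 w) i j| ≤ C) ∧
    (∀ i j, |(pfr w 0 (2 * (π / 3)) * J2) i j| ≤ C) := by
  refine ⟨44, by norm_num, fun w hw hw' => ⟨?_, pm_GeoF_YX hw hw', ?_⟩⟩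
  · intro i j
    obtain ⟨h1, h2, h3, h4⟩ := pm_GeoF_sc hw hw'
    have hs : 0 < sin w := by linarith
    calc |X0 w i j| ≤ 4 * (1 / sin w) ^ 2 := pm_GeoF_X0_le hw hw' i j
      _ ≤ 4 * (2 / w) ^ 2 := by
          have : 1 / sin w ≤ 2 / w := by
            rw [div_le_div_iff₀ hs hw]
            linarith
          have h0 : 0 ≤ 1 / sin w := by positivity
          nlinarith
      _ = 16 / w ^ 2 := by ring
      _ ≤ 44 / w ^ 2 := by
          apply div_le_div_of_nonneg_right (by norm_num) (by positivity)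
  · intro i j
    exact (pm_GeoF_F hw hw' i j).trans (by norm_num)

theorem pm_GeoF_rec {w : ℝ} {A : M2} (hw : 0 < w) (hw' : w ≤ 1 / 10) (hA : A.det = 1)
    (h2 : 2 < A.trace) (h3 : A.trace ≤ 2 + 4 * w ^ 2) (n : ℕ) :
    ∃ S e : ℝ, A ^ n = S • A - (S - e) • (1 : M2) ∧ 0 ≤ S ∧ 1 ≤ e ∧ e ≤ (1 + 3 * w) ^ n ∧
      3 * w * S ≤ (1 + 3 * w) ^ (n + 1) ∧ S ≤ n * (1 + 3 * w) ^ n := by
  induction n with
  | zero =>
    refine ⟨0, 1, ?_, le_rfl, le_rfl, by simp, ?_, by simp⟩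
    · simp
    · rw [mul_zero]; positivity
  | succ n ih =>
    obtain ⟨S, e, h4, h5, h6, h7, h8, h9⟩ := ih
    set q := 1 + 3 * w with hq
    have hq0 : 0 < q := by positivity
    have hqn : 0 < q ^ n := by positivity
    have hch := pm_GeoF_ch A hA
    set ε := A.trace - 2 with hε
    have hε0 : 0 < ε := by linarith
    have hε1 : ε ≤ 4 * w ^ 2 := by linarith
    refine ⟨S + (e + ε * S), e + ε * S, ?_, ?_, ?_, ?_, ?_, ?_⟩
    · rw [pow_succ, h4, sub_mul, smul_mul_assoc, smul_mul_assoc, one_mul, hch, smul_sub, smul_smul]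
      ext i j
      simp only [Matrix.sub_apply, Matrix.smul_apply, smul_eq_mul]
      have : A.trace = 2 + ε := by rw [hε]; ring
      rw [this]
      ring
    · positivity
    · have : 0 ≤ ε * S := by positivity
      linarith
    · have a1 : ε * S ≤ 4 * w ^ 2 * S := mul_le_mul_of_nonneg_right hε1 h5
      have a2 : 4 * w ^ 2 * S ≤ 4 / 3 * w * q ^ (n + 1) := by
        have := mul_le_mul_of_nonneg_left h8 (by positivity : 0 ≤ 4 / 3 * w)
        linarith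
      have a3 : 4 / 3 * w * q ^ (n + 1) ≤ 3 * w * q ^ n := by
        rw [pow_succ]
        have : q ≤ 9 / 4 := by linarith
        have h' : w * (q ^ n * q) ≤ w * (q ^ n * (9 / 4)) := by
          apply mul_le_mul_of_nonneg_left _ hw.le
          exact mul_le_mul_of_nonneg_left this hqn.le
        linarith
      have a4 : q ^ (n + 1) = q ^ n + 3 * w * q ^ n := by rw [pow_succ, hq]; ring
      rw [a4]
      linarith
    · have a1 : ε * S ≤ 4 * w ^ 2 * S := mul_le_mul_of_nonneg_right hε1 h5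
      have a2 : 4 * w ^ 2 * S ≤ 4 / 3 * w * q ^ (n + 1) := by
        have := mul_le_mul_of_nonneg_left h8 (by positivity : 0 ≤ 4 / 3 * w)
        linarith
      have a3 : 4 / 3 * w * q ^ (n + 1) ≤ 3 * w * q ^ n := by
        rw [pow_succ]
        have : q ≤ 9 / 4 := by linarith
        have h' : w * (q ^ n * q) ≤ w * (q ^ n * (9 / 4)) := by
          apply mul_le_mul_of_nonneg_left _ hw.le
          exact mul_le_mul_of_nonneg_left this hqn.le
        linarith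
      have a4 : q ^ (n + 1) = q ^ n + 3 * w * q ^ n := by rw [pow_succ, hq]; ring
      have a5 : e + ε * S ≤ q ^ (n + 1) := by linarith
      have a6 : q ^ (n + 1 + 1) = q ^ (n + 1) + 3 * w * q ^ (n + 1) := by
        rw [pow_succ q (n + 1)]
        nth_rewrite 2 [hq]
        ring
      rw [a6]
      have a7 : 3 * w * (e + ε * S) ≤ 3 * w * q ^ (n + 1) :=
        mul_le_mul_of_nonneg_left a5 (by positivity)
      linarith
    · have a1 : ε * S ≤ 4 * w ^ 2 * S := mul_le_mul_of_nonneg_right hε1 h5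
      have a2 : 4 * w ^ 2 * S ≤ 4 / 3 * w * q ^ (n + 1) := by
        have := mul_le_mul_of_nonneg_left h8 (by positivity : 0 ≤ 4 / 3 * w)
        linarith
      have a3 : 4 / 3 * w * q ^ (n + 1) ≤ 3 * w * q ^ n := by
        rw [pow_succ]
        have : q ≤ 9 / 4 := by linarith
        have h' : w * (q ^ n * q) ≤ w * (q ^ n * (9 / 4)) := by
          apply mul_le_mul_of_nonneg_left _ hw.le
          exact mul_le_mul_of_nonneg_left this hqn.le
        linarith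
      have a4 : q ^ (n + 1) = q ^ n + 3 * w * q ^ n := by rw [pow_succ, hq]; ring
      have a5 : e + ε * S ≤ q ^ (n + 1) := by linarith
      have a6 : (n : ℝ) * q ^ n ≤ n * q ^ (n + 1) := by
        apply mul_le_mul_of_nonneg_left _ (Nat.cast_nonneg n)
        rw [a4]
        have : 0 ≤ 3 * w * q ^ n := by positivity
        linarith
      push_cast
      linarith

theorem pm_GeoF_exp {w : ℝ} (hw : 0 < w) {n : ℕ} (hn : (n : ℝ) * w ≤ 1) :
    (1 + 3 * w) ^ n ≤ Real.exp 3 := by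
  have h1 : 1 + 3 * w ≤ Real.exp (3 * w) := by
    have := Real.add_one_le_exp (3 * w)
    linarith
  calc (1 + 3 * w) ^ n ≤ (Real.exp (3 * w)) ^ n := pow_le_pow_left₀ (by positivity) h1 n
    _ = Real.exp (n * (3 * w)) := by rw [← Real.exp_nat_mul]
    _ ≤ Real.exp 3 := by
        apply Real.exp_le_exp.mpr
        nlinarith

/-- powers of a nearly parabolic matrix -/
theorem pow_size {C : ℝ} (hC : 0 < C) : ∃ C' > (0 : ℝ), ∀ (w : ℝ) (A : M2), 0 < w → w ≤ 1 / 10 → A.det = 1 →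
    2 < A.trace → A.trace ≤ 2 + 4 * w ^ 2 → (∀ i j, |A i j| ≤ C) →
    ∀ n : ℕ, (n : ℝ) * w ≤ 1 → ∀ i j, |(A ^ n) i j| ≤ C' * (n + 1) := by
  refine ⟨Real.exp 3 * (C + 1), by positivity, ?_⟩
  intro w A hw hw' hA h2 h3 hAC n hn i j
  obtain ⟨S, e, h4, h5, h6, h7, h8, h9⟩ := pm_GeoF_rec hw hw' hA h2 h3 n
  have hexp := pm_GeoF_exp hw hn
  have hE := Real.exp_pos 3
  have hS : S ≤ n * Real.exp 3 :=
    h9.trans (mul_le_mul_of_nonneg_left hexp (Nat.cast_nonneg n))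
  have he : e ≤ Real.exp 3 := h7.trans hexp
  rw [h4]
  show |S * A i j - (S - e) * (1 : M2) i j| ≤ _
  have k1 : |S * A i j| ≤ n * Real.exp 3 * C := by
    rw [abs_mul, abs_of_nonneg h5]
    exact mul_le_mul hS (hAC i j) (abs_nonneg _) (by positivity)
  have k2 : |(S - e) * (1 : M2) i j| ≤ (n + 1) * Real.exp 3 := by
    rw [abs_mul]
    have a1 : |(1 : M2) i j| ≤ 1 := by
      rw [Matrix.one_apply]
      split_ifs <;> simp
    have a2 : |S - e| ≤ (n + 1) * Real.exp 3 := by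
      rw [abs_le]
      constructor
      · nlinarith
      · nlinarith
    calc _ ≤ ((n + 1) * Real.exp 3) * 1 := mul_le_mul a2 a1 (abs_nonneg _) (by positivity)
      _ = _ := mul_one _
  refine (abs_sub _ _).trans ?_
  have : (n : ℝ) * Real.exp 3 * C ≤ (n + 1) * Real.exp 3 * C := by
    have : 0 ≤ Real.exp 3 * C := by positivity
    nlinarith
  calc |S * A i j| + |(S - e) * (1 : M2) i j| ≤ (n + 1) * Real.exp 3 * C + (n + 1) * Real.exp 3 := by
        linarith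
    _ = Real.exp 3 * (C + 1) * (n + 1) := by ring

theorem pm_GeoF_nrm (A : M2) {c : ℝ} (h : ∀ i j, |A i j| ≤ c) : nrm (symMat A) ≤ 18 * c ^ 2 := by
  have hc : 0 ≤ c := (abs_nonneg _).trans (h 0 0)
  have key : ∀ i j k l, |A i j * A k l| ≤ c ^ 2 := by
    intro i j k l
    rw [abs_mul, sq]
    exact mul_le_mul (h i j) (h k l) (abs_nonneg _) hc
  have key2 : ∀ i j k l, |2 * (A i j * A k l)| ≤ 2 * c ^ 2 := by
    intro i j k l
    rw [abs_mul, abs_two]
    linarith [key i j k l]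
  have key3 : |A 0 0 * A 1 1 + A 0 1 * A 1 0| ≤ 2 * c ^ 2 :=
    (abs_add_le _ _).trans (by linarith [key 0 0 1 1, key 0 1 1 0])
  have e : nrm (symMat A) = |A 0 0 * A 0 0| + |2 * (A 0 0 * A 0 1)| + |A 0 1 * A 0 1| +
      (|A 0 0 * A 1 0| + |A 0 0 * A 1 1 + A 0 1 * A 1 0| + |A 0 1 * A 1 1|) +
      (|A 1 0 * A 1 0| + |2 * (A 1 0 * A 1 1)| + |A 1 1 * A 1 1|) := by
    simp only [nrm, Fin.sum_univ_three]
    rfl
  rw [e]
  have := sq_nonneg c
  linarith [key 0 0 0 0, key2 0 0 0 1, key 0 1 0 1, key 0 0 1 0, key 0 1 1 1, key 1 0 1 0,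
    key2 1 0 1 1, key 1 1 1 1]

theorem pm_GeoF_nrm_pos (A : M2) (h : A.det = 1) : 0 < nrm (symMat A) := by
  have h0 : 0 ≤ nrm (symMat A) := Finset.sum_nonneg fun i _ => Finset.sum_nonneg fun j _ =>
    abs_nonneg _
  rcases h0.eq_or_lt with h1 | h1
  · exfalso
    have e : nrm (symMat A) = |A 0 0 * A 0 0| + |2 * (A 0 0 * A 0 1)| + |A 0 1 * A 0 1| +
        (|A 0 0 * A 1 0| + |A 0 0 * A 1 1 + A 0 1 * A 1 0| + |A 0 1 * A 1 1|) +
        (|A 1 0 * A 1 0| + |2 * (A 1 0 * A 1 1)| + |A 1 1 * A 1 1|) := by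
      simp only [nrm, Fin.sum_univ_three]
      rfl
    rw [e] at h1
    have a1 : |A 0 0 * A 0 0| = 0 := by
      apply le_antisymm _ (abs_nonneg _)
      linarith [abs_nonneg (2 * (A 0 0 * A 0 1)), abs_nonneg (A 0 1 * A 0 1),
        abs_nonneg (A 0 0 * A 1 0), abs_nonneg (A 0 0 * A 1 1 + A 0 1 * A 1 0),
        abs_nonneg (A 0 1 * A 1 1), abs_nonneg (A 1 0 * A 1 0), abs_nonneg (2 * (A 1 0 * A 1 1)),
        abs_nonneg (A 1 1 * A 1 1)]
    have a2 : |A 1 0 * A 1 0| = 0 := by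
      apply le_antisymm _ (abs_nonneg _)
      linarith [abs_nonneg (2 * (A 0 0 * A 0 1)), abs_nonneg (A 0 1 * A 0 1),
        abs_nonneg (A 0 0 * A 1 0), abs_nonneg (A 0 0 * A 1 1 + A 0 1 * A 1 0),
        abs_nonneg (A 0 1 * A 1 1), abs_nonneg (A 0 0 * A 0 0), abs_nonneg (2 * (A 1 0 * A 1 1)),
        abs_nonneg (A 1 1 * A 1 1)]
    rw [abs_eq_zero, mul_self_eq_zero] at a1 a2
    rw [Matrix.det_fin_two, a1, a2] at h
    norm_num at h
  · exact h1

theorem pm_GeoF_mul {A B : M2} {a b : ℝ} (hA : ∀ i j, |A i j| ≤ a) (hB : ∀ i j, |B i j| ≤ b)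
    (i j : Fin 2) : |(A * B) i j| ≤ 2 * a * b := by
  have ha : 0 ≤ a := (abs_nonneg _).trans (hA 0 0)
  rw [Matrix.mul_apply, Fin.sum_univ_two]
  refine (abs_add_le _ _).trans ?_
  have key : ∀ k, |A i k * B k j| ≤ a * b := by
    intro k
    rw [abs_mul]
    exact mul_le_mul (hA i k) (hB k j) (abs_nonneg _) ha
  linarith [key 0, key 1]

theorem pm_GeoF_inv {F : M2} {c : ℝ} (h : F.det = 1) (hF : ∀ i j, |F i j| ≤ c) (i j : Fin 2) :
    |F⁻¹ i j| ≤ c := by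
  have e : F⁻¹ = !![F 1 1, -F 0 1; -F 1 0, F 0 0] := by
    rw [Matrix.inv_def, h, Ring.inverse_one, one_smul, Matrix.adjugate_fin_two]
  rw [e]
  fin_cases i <;> fin_cases j
  · exact hF 1 1
  · show |-F 0 1| ≤ c
    rw [abs_neg]; exact hF 0 1
  · show |-F 1 0| ≤ c
    rw [abs_neg]; exact hF 1 0
  · exact hF 0 0

/-- the exponent of the handle is at least `1/7` -/
theorem geo_E0 : ∃ w₀ > (0 : ℝ), ∀ w : ℝ, 0 < w → w ≤ w₀ → ∃ n : ℕ, 1 ≤ ∑ j ∈ Finset.range n,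
    (nrm (symMat ((pfr w 0 (2 * (π / 3)) * J2)⁻¹ * ((Y0 w * X0 w) ^ (j + 1) * X0 w) *
      (pfr w 0 (2 * (π / 3)) * J2)))) ^ (-(1 / 7 : ℝ)) := by
  obtain ⟨C, hC, hXY⟩ := XY_size
  obtain ⟨C', hC', hpow⟩ := pow_size hC
  set K : ℝ := 18 * (16 * C ^ 3 * C') ^ 2 with hK
  have hK0 : 0 < K := by positivity
  refine ⟨min (1 / 10) (1 / (128 * K)), by positivity, ?_⟩
  intro w hw hw0
  have hw' : w ≤ 1 / 10 := hw0.trans (min_le_left _ _)
  have hwK : w ≤ 1 / (128 * K) := hw0.trans (min_le_right _ _)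
  obtain ⟨hX, hYX, hF⟩ := hXY w hw hw'
  set F := pfr w 0 (2 * (π / 3)) * J2 with hFdef
  have hFdet : F.det = 1 := by
    have h := (pfr_refl hw hw' (lo := 0) (hi := 2 * (π / 3)) (Or.inr (by ring))).1
    rw [hFdef, Matrix.det_mul, h]
    simp [J2, Matrix.det_fin_two]
  have hXd := pm_GeoF_X0_det hw hw'
  have hAd : (Y0 w * X0 w).det = 1 := by
    rw [Matrix.det_mul, Y0_det hw hw', hXd, one_mul]
  obtain ⟨ht1, ht2⟩ := YX_tr hw hw'
  refine ⟨⌊1 / w⌋₊, ?_⟩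
  have hn1 : ((⌊1 / w⌋₊ : ℕ) : ℝ) ≤ 1 / w := Nat.floor_le (by positivity)
  have hn2 : 1 / w < (⌊1 / w⌋₊ : ℕ) + 1 := Nat.lt_floor_add_one _
  have hterm : ∀ j ∈ Finset.range ⌊1 / w⌋₊, 2 * w ≤
      (nrm (symMat (F⁻¹ * ((Y0 w * X0 w) ^ (j + 1) * X0 w) * F))) ^ (-(1 / 7 : ℝ)) := by
    intro j hj
    rw [Finset.mem_range] at hj
    have hj1 : ((j : ℝ) + 1) ≤ 1 / w := by
      have : ((j + 1 : ℕ) : ℝ) ≤ (⌊1 / w⌋₊ : ℕ) := by exact_mod_cast hj
      push_cast at this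
      linarith
    have hj2 : ((j : ℝ) + 1) * w ≤ 1 := by
      rwa [le_div_iff₀ hw] at hj1
    have hp := hpow w (Y0 w * X0 w) hw hw' hAd ht1 ht2 hYX (j + 1) (by push_cast; exact hj2)
    have hp' : ∀ i k, |((Y0 w * X0 w) ^ (j + 1)) i k| ≤ C' * (2 / w) := by
      intro i k
      refine (hp i k).trans ?_
      apply mul_le_mul_of_nonneg_left _ hC'.le
      push_cast
      have : (2 : ℝ) / w = 2 * (1 / w) := by ring
      rw [this]
      have : (0 : ℝ) ≤ j := Nat.cast_nonneg j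
      linarith
    have h1 := pm_GeoF_mul hp' hX
    have h2 := pm_GeoF_mul (pm_GeoF_inv hFdet hF) h1
    have h3 := pm_GeoF_mul h2 hF
    have h4 := pm_GeoF_nrm _ h3
    have e : 18 * (2 * (2 * C * (2 * (C' * (2 / w)) * (C / w ^ 2))) * C) ^ 2 = K / w ^ 6 := by
      rw [hK]
      field_simp
      ring
    rw [e] at h4
    have hdet : (F⁻¹ * ((Y0 w * X0 w) ^ (j + 1) * X0 w) * F).det = 1 := by
      rw [Matrix.det_mul, Matrix.det_mul, Matrix.det_mul, Matrix.det_pow, hAd, hXd, one_pow,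
        Matrix.det_nonsing_inv, hFdet]
      simp
    have hpos := pm_GeoF_nrm_pos _ hdet
    have h5 : K / w ^ 6 ≤ (1 / (2 * w)) ^ 7 := by
      rw [div_pow, one_pow, div_le_div_iff₀ (by positivity) (by positivity)]
      have h6 : 128 * K * w ≤ 1 := by
        rwa [le_div_iff₀ (by positivity), mul_comm] at hwK
      have : K * (2 * w) ^ 7 = (128 * K * w) * w ^ 6 := by ring
      rw [this]
      exact mul_le_mul_of_nonneg_right h6 (by positivity)
    calc 2 * w = ((1 / (2 * w)) ^ 7) ^ (-(1 / 7 : ℝ)) := by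
          rw [← Real.rpow_natCast, ← Real.rpow_mul (by positivity)]
          have : ((7 : ℕ) : ℝ) * -(1 / 7) = -1 := by norm_num
          rw [this, Real.rpow_neg_one, one_div, inv_inv]
      _ ≤ _ := Real.rpow_le_rpow_of_nonpos hpos (h4.trans h5) (by norm_num)
  calc (1 : ℝ) ≤ (⌊1 / w⌋₊ : ℕ) * (2 * w) := by
        have h7 : 1 / w * w = 1 := by field_simp
        have h8 : (1 / w - 1) * w ≤ (⌊1 / w⌋₊ : ℕ) * w :=
          mul_le_mul_of_nonneg_right (by linarith) hw.le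
        nlinarith
    _ = ∑ j ∈ Finset.range ⌊1 / w⌋₊, 2 * w := by
        rw [Finset.sum_const, Finset.card_range, nsmul_eq_mul]
    _ ≤ _ := Finset.sum_le_sum hterm

theorem pm_GeoG_rot_zero : rot 0 = 1 := by
  ext i j
  fin_cases i <;> fin_cases j <;> simp [rot]

theorem pm_GeoG_rot_pi : rot π = -1 := by
  ext i j
  fin_cases i <;> fin_cases j <;> simp [rot]

theorem pm_GeoG_rot_det (t : ℝ) : (rot t).det = 1 := by
  unfold rot
  rw [Matrix.det_fin_two]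
  simp only [Matrix.of_apply, Matrix.cons_val', Matrix.cons_val_zero, Matrix.cons_val_one,
    Matrix.cons_val_fin_one]
  have := Real.sin_sq_add_cos_sq t
  linarith

theorem pm_GeoG_rot_cancel (t : ℝ) : rot t * rot (-t) = 1 := by
  rw [← rot_add, add_neg_cancel, pm_GeoG_rot_zero]

theorem pm_GeoG_rot_cancel' (t : ℝ) : rot (-t) * rot t = 1 := by
  rw [← rot_add, neg_add_cancel, pm_GeoG_rot_zero]

/-- letters are rotated -/
theorem pm_GeoG_iv (w φ t : ℝ) : iv w (φ + 2 * t) = rot t * iv w φ * rot (-t) := by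
  rw [← iv_rot, mul_assoc, pm_GeoG_rot_cancel, mul_one]

theorem pm_GeoG_iv6 (w : ℝ) : iv w (ang 6) = iv w (ang 0) := by
  have h := iv_period w 0 1
  have e : ang 6 = 0 + ((1 : ℤ) : ℝ) * (2 * π) := by unfold ang; push_cast; ring
  have e' : ang 0 = 0 := by unfold ang; simp
  rw [e, e', h]

theorem pm_GeoG_l0 (w : ℝ) (i : Fin 3) :
    iv w (ang (l0 i).val) = rot (i.val * (π / 3)) * iv w 0 * rot (-(i.val * (π / 3))) := by
  rw [← pm_GeoG_iv]
  congr 1
  fin_cases i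
  · simp [l0, ang]
  · simp [l0, ang]
  · simp [l0, ang]; ring

theorem pm_GeoG_l1 (w : ℝ) (i : Fin 3) :
    iv w (ang (l1 i).val) = rot (i.val * (π / 3)) * iv w (π / 3) * rot (-(i.val * (π / 3))) := by
  rw [← pm_GeoG_iv]
  congr 1
  fin_cases i
  · simp [l1, ang]
  · simp [l1, ang]; ring
  · simp [l1, ang]; ring

theorem pm_GeoG_l2 (w : ℝ) (i : Fin 3) :
    iv w (ang (l2 i).val) =
      rot (i.val * (π / 3)) * iv w (2 * (π / 3)) * rot (-(i.val * (π / 3))) := by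
  rw [← pm_GeoG_iv]
  fin_cases i
  · congr 1
    simp [l2, ang]
  · congr 1
    simp [l2, ang]; ring
  · have h : iv w (ang (l2 (2 : Fin 3)).val) = iv w (ang 6) := by
      rw [pm_GeoG_iv6]
      rfl
    show iv w (ang (l2 (2 : Fin 3)).val) = _
    rw [h]
    congr 1
    simp [ang]; ring

/-- conjugation by a rotation -/
theorem pm_GeoG_conj (t : ℝ) (A B : M2) :
    rot t * A * rot (-t) * (rot t * B * rot (-t)) = rot t * (A * B) * rot (-t) := by
  calc _ = rot t * A * (rot (-t) * rot t) * B * rot (-t) := by simp only [mul_assoc]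
    _ = _ := by rw [pm_GeoG_rot_cancel']; simp only [mul_assoc, one_mul]

theorem pm_GeoG_tr (t : ℝ) (A : M2) : (rot t * A * rot (-t)).trace = A.trace := by
  rw [Matrix.trace_mul_comm, ← mul_assoc, pm_GeoG_rot_cancel', one_mul]

theorem pm_GeoG_symneg (A : M2) : symMat (-A) = symMat A := by
  ext i j
  fin_cases i <;> fin_cases j <;> simp [symMat]

/-- the frame of a port, three steps further -/
theorem pm_GeoG_wrap (w lo hi : ℝ) : symMat (pfr w (lo + 2 * π) (hi + 2 * π)) =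
    symMat (pfr w lo hi) := by
  rw [pfr_rot, pm_GeoG_rot_pi, neg_mul, one_mul, pm_GeoG_symneg]

theorem pm_GeoG_ang_add (n : ℕ) : ang (n + 2) = ang n + 2 * (π / 3) := by
  unfold ang; push_cast; ring

theorem pm_GeoG_half (n : ℕ) : (ang (n + 1) - ang n) / 2 = π / 6 := by
  unfold ang; push_cast; ring

theorem pm_GeoG_half2 (n : ℕ) : (ang (n + 2) - ang n) / 2 = π / 3 := by
  unfold ang; push_cast; ring

theorem pm_GeoG_lb {w : ℝ} (hw : 0 < w) (hw' : w ≤ 1 / 10 ^ 16) :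
    (5 : ℝ) * 2 ^ (2 * 4) * (1 / (4 * w)) ^ (-(1 / 4 : ℝ)) ≤ 1 / 2 := by
  have h1 : (4000 : ℝ) ^ (4 : ℕ) ≤ 1 / (4 * w) := by
    rw [le_div_iff₀ (by positivity)]
    have : (4000 : ℝ) ^ (4 : ℕ) * (4 * w) ≤ (4000 : ℝ) ^ (4 : ℕ) * (4 * (1 / 10 ^ 16)) := by
      apply mul_le_mul_of_nonneg_left _ (by positivity)
      linarith
    refine this.trans ?_
    norm_num
  have h2 : (1 / (4 * w)) ^ (-(1 / 4 : ℝ)) ≤ ((4000 : ℝ) ^ (4 : ℕ)) ^ (-(1 / 4 : ℝ)) :=
    Real.rpow_le_rpow_of_nonpos (by positivity) h1 (by norm_num)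
  have h3 : ((4000 : ℝ) ^ (4 : ℕ)) ^ (-(1 / 4 : ℝ)) = 1 / 4000 := by
    rw [← Real.rpow_natCast, ← Real.rpow_mul (by positivity)]
    have : ((4 : ℕ) : ℝ) * -(1 / 4) = -1 := by norm_num
    rw [this, Real.rpow_neg_one, one_div]
  rw [h3] at h2
  have : (5 : ℝ) * 2 ^ (2 * 4) * (1 / (4 * w)) ^ (-(1 / 4 : ℝ)) ≤
      (5 : ℝ) * 2 ^ (2 * 4) * (1 / 4000) := mul_le_mul_of_nonneg_left h2 (by norm_num)
  refine this.trans ?_
  norm_num

/-- existence of the base data -/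
theorem exists_base : Nonempty Base := by
  obtain ⟨w₀, hw₀, hE0⟩ := geo_E0
  obtain ⟨w, hw, hwE, hwl⟩ : ∃ w : ℝ, 0 < w ∧ w ≤ w₀ ∧ w ≤ 1 / 10 ^ 16 :=
    ⟨min w₀ (1 / 10 ^ 16), by positivity, min_le_left _ _, min_le_right _ _⟩
  have hw' : w ≤ 1 / 10 := hwl.trans (by norm_num)
  have hs : sin w ≠ 0 := (Real.sin_pos_of_pos_of_lt_pi hw (by linarith [Real.pi_gt_three])).ne'
  obtain ⟨n, hn⟩ := hE0 w hw hwE
  have hlb := pm_GeoG_lb hw hwl
  obtain ⟨m0, hm0, M0, hM0, H0⟩ := geo_polyH hw hw' 0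
  obtain ⟨m1, hm1, M1, hM1, H1⟩ := geo_polyH hw hw' 1
  obtain ⟨m2, hm2, M2', hM2, H2⟩ := geo_polyH hw hw' 2
  obtain ⟨m3, hm3, M3', hM3, H3⟩ := geo_polyZ hw hw'
  obtain ⟨m4, hm4, M4, hM4, H4⟩ := geo_poly5 hw hw'
  obtain ⟨m5, hm5, M5, hM5, H5⟩ := geo_poly5' hw hw'
  obtain ⟨m6, hm6, M6, hM6, H6⟩ := geo_polyPc hw hw'
  obtain ⟨m7, hm7, M7, hM7, H7⟩ := geo_polyQc hw hw'
  obtain ⟨mu, hmu, h0, h1, h2, h3, h4, h5, h6, h7⟩ : ∃ mu : ℝ, 0 < mu ∧ mu ≤ m0 ∧ mu ≤ m1 ∧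
      mu ≤ m2 ∧ mu ≤ m3 ∧ mu ≤ m4 ∧ mu ≤ m5 ∧ mu ≤ m6 ∧ mu ≤ m7 := by
    refine ⟨min m0 (min m1 (min m2 (min m3 (min m4 (min m5 (min m6 m7)))))), by positivity,
      ?_, ?_, ?_, ?_, ?_, ?_, ?_, ?_⟩ <;> simp
  obtain ⟨M, k0, k1, k2, k3, k4, k5, k6, k7⟩ : ∃ M : ℝ, M0 ≤ M ∧ M1 ≤ M ∧ M2' ≤ M ∧ M3' ≤ M ∧
      M4 ≤ M ∧ M5 ≤ M ∧ M6 ≤ M ∧ M7 ≤ M := by
    refine ⟨max M0 (max M1 (max M2' (max M3' (max M4 (max M5 (max M6 M7)))))),
      ?_, ?_, ?_, ?_, ?_, ?_, ?_, ?_⟩ <;> simp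
  have P0 := H0 mu hmu h0 M k0
  have P1 := H1 mu hmu h1 M k1
  have P2 := H2 mu hmu h2 M k2
  have P3 := H3 mu hmu h3 M k3
  have P4 := H4 mu hmu h4 M k4
  have P5 := H5 mu hmu h5 M k5
  have P6 := H6 mu hmu h6 M k6
  have P7 := H7 mu hmu h7 M k7
  -- halves
  have hf : ∀ n : ℕ, (ang (n + 2) - ang n) / 2 = π / 6 ∨ (ang (n + 2) - ang n) / 2 = π / 3 :=
    fun n => Or.inr (pm_GeoG_half2 n)
  have hf1 : ∀ n : ℕ, (ang (n + 1) - ang n) / 2 = π / 6 ∨ (ang (n + 1) - ang n) / 2 = π / 3 :=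
    fun n => Or.inl (pm_GeoG_half n)
  -- rotation of the port frames
  have hrot : ∀ lo hi : ℝ, rot (π / 3) * pfr w lo hi =
      pfr w (lo + 2 * (π / 3)) (hi + 2 * (π / 3)) := fun lo hi => (pfr_rot w lo hi (π / 3)).symm
  have hfr : ∀ (a b : ℕ) (i : Fin 3), b ≤ 2 → a ≤ 2 →
      symMat (pfr w (ang (2 * (i + 1).val + a)) (ang (2 * (i + 1).val + b))) =
        symMat (rot (π / 3)) * symMat (pfr w (ang (2 * i.val + a)) (ang (2 * i.val + b))) := by
    intro a b i _ _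
    rw [← symMat_mul, hrot]
    fin_cases i
    · congr 2 <;> simp [ang] <;> ring
    · congr 2 <;> simp [ang] <;> ring
    · have e1 : ang (2 * (2 : Fin 3).val + a) + 2 * (π / 3) =
          ang (2 * ((2 : Fin 3) + 1).val + a) + 2 * π := by
        have : ((2 : Fin 3) + 1).val = 0 := rfl
        rw [this]
        have : (2 : Fin 3).val = 2 := rfl
        rw [this]
        unfold ang; push_cast; ring
      have e2 : ang (2 * (2 : Fin 3).val + b) + 2 * (π / 3) =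
          ang (2 * ((2 : Fin 3) + 1).val + b) + 2 * π := by
        have : ((2 : Fin 3) + 1).val = 0 := rfl
        rw [this]
        have : (2 : Fin 3).val = 2 := rfl
        rw [this]
        unfold ang; push_cast; ring
      show symMat (pfr w (ang (2 * ((2 : Fin 3) + 1).val + a)) (ang (2 * ((2 : Fin 3) + 1).val + b)))
        = symMat (pfr w (ang (2 * (2 : Fin 3).val + a) + 2 * (π / 3))
          (ang (2 * (2 : Fin 3).val + b) + 2 * (π / 3)))
      rw [e1, e2, pm_GeoG_wrap]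
  -- letters as angles
  have hl0 : ∀ i : Fin 3, iv w (ang (l0 i).val) = iv w (ang (2 * i.val)) := by
    intro i; fin_cases i <;> rfl
  have hl1 : ∀ i : Fin 3, iv w (ang (l1 i).val) = iv w (ang (2 * i.val + 1)) := by
    intro i; fin_cases i <;> rfl
  have hl2 : ∀ i : Fin 3, iv w (ang (l2 i).val) = iv w (ang (2 * i.val + 2)) := by
    intro i
    fin_cases i
    · rfl
    · rfl
    · exact (pm_GeoG_iv6 w).symm
  obtain ⟨-, -, hL3⟩ := mmw_facts hw hw' (Δ := π / 3) (Or.inr rfl)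
  obtain ⟨-, -, hL6⟩ := mmw_facts hw hw' (Δ := π / 6) (Or.inl rfl)
  refine ⟨{ toBaseData := bd w mu M
            hLd := hL3
            hLm := hL6
            hLc := hL3
            rt_det := pm_GeoG_rot_det _
            rt_cube := ?_
            R_sq := fun f => iv_sq hs _
            R_det := fun f => iv_det hs _
            R_rot := ?_
            Y_det := ?_
            Y_rot := ?_
            Y_conj := ?_
            Y_tr := ?_
            YX_tr := ?_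
            fd_det := fun i => (pfr_refl hw hw' (hf _)).1
            fp_det := fun i => (pfr_refl hw hw' (hf1 _)).1
            fm_det := fun i => (pfr_refl hw hw' (hf1 _)).1
            fc_det := (pfr_refl hw hw' (hf 1)).1
            fd_rot := fun i => hfr 0 2 i le_rfl (by norm_num)
            fp_rot := fun i => hfr 0 1 i (by norm_num) (by norm_num)
            fm_rot := fun i => hfr 1 2 i (by norm_num) (by norm_num)
            fd_eig := ?_
            fp_eig := ?_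
            fm_eig := ?_
            fc_eig := ?_
            polyH := ?_
            polyZ := P3
            poly5 := P4
            poly5' := P5
            polyPc := P6
            polyQc := P7
            lb_big := hlb
            E0 := ⟨n, ?_⟩ }⟩
  · show rot (π / 3) * rot (π / 3) * rot (π / 3) = -1
    rw [← rot_add, ← rot_add, ← pm_GeoG_rot_pi]
    congr 1
    ring
  · intro f
    show iv w (ang (f + 2).val) * rot (π / 3) = rot (π / 3) * iv w (ang f.val)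
    rw [← iv_rot]
    congr 1
    have hper := iv_period w (ang (f + 2).val) 1
    have h6 : ∀ x : ℝ, iv w (x + 2 * π) = iv w x := by
      intro x
      have := iv_period w x 1
      push_cast at this
      rwa [one_mul] at this
    fin_cases f
    · congr 1
      simp [ang]
    · congr 1
      simp [ang]; ring
    · congr 1
      simp [ang]; ring
    · congr 1
      simp [ang]; ring
    · have e1 : ang ((4 : Fin 6)).val + 2 * (π / 3) = ang ((4 : Fin 6) + 2).val + 2 * π := by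
        have : ((4 : Fin 6) + 2).val = 0 := rfl
        rw [this]
        have : ((4 : Fin 6)).val = 4 := rfl
        rw [this]
        unfold ang; push_cast; ring
      show iv w (ang ((4 : Fin 6) + 2).val) = iv w (ang ((4 : Fin 6)).val + 2 * (π / 3))
      rw [e1, h6]
    · have e1 : ang ((5 : Fin 6)).val + 2 * (π / 3) = ang ((5 : Fin 6) + 2).val + 2 * π := by
        have : ((5 : Fin 6) + 2).val = 1 := rfl
        rw [this]
        have : ((5 : Fin 6)).val = 5 := rfl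
        rw [this]
        unfold ang; push_cast; ring
      show iv w (ang ((5 : Fin 6) + 2).val) = iv w (ang ((5 : Fin 6)).val + 2 * (π / 3))
      rw [e1, h6]
  · intro i
    show (rot (i.val * (π / 3)) * Y0 w * rot (-(i.val * (π / 3)))).det = 1
    rw [Matrix.det_mul, Matrix.det_mul, pm_GeoG_rot_det, pm_GeoG_rot_det, Y0_det hw hw']
    norm_num
  · intro i
    show rot ((i + 1).val * (π / 3)) * Y0 w * rot (-((i + 1).val * (π / 3))) * rot (π / 3) =
      rot (π / 3) * (rot (i.val * (π / 3)) * Y0 w * rot (-(i.val * (π / 3))))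
    have key : ∀ a b : ℝ, a = π / 3 + b → rot a * Y0 w * rot (-a) * rot (π / 3) =
        rot (π / 3) * (rot b * Y0 w * rot (-b)) := by
      intro a b hab
      have h1 : rot (-a) * rot (π / 3) = rot (-b) := by
        rw [← rot_add]
        congr 1
        rw [hab]; ring
      have h2 : rot a = rot (π / 3) * rot b := by rw [← rot_add, hab]
      rw [mul_assoc (rot a * Y0 w), h1, h2]
      simp only [mul_assoc]
    fin_cases i
    · apply key
      simp
    · apply key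
      have : ((1 : Fin 3) + 1).val = 2 := rfl
      show ((((1 : Fin 3) + 1).val : ℕ) : ℝ) * (π / 3) = π / 3 + ((1 : Fin 3).val : ℕ) * (π / 3)
      rw [this]
      have : ((1 : Fin 3)).val = 1 := rfl
      rw [this]
      push_cast
      ring
    · have e0 : ((2 : Fin 3) + 1).val = 0 := rfl
      have e2 : ((2 : Fin 3)).val = 2 := rfl
      show rot ((((2 : Fin 3) + 1).val : ℕ) * (π / 3)) * Y0 w *
        rot (-((((2 : Fin 3) + 1).val : ℕ) * (π / 3))) * rot (π / 3) =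
        rot (π / 3) * (rot (((2 : Fin 3).val : ℕ) * (π / 3)) * Y0 w *
          rot (-(((2 : Fin 3).val : ℕ) * (π / 3))))
      rw [e0, e2]
      push_cast
      rw [zero_mul, neg_zero, pm_GeoG_rot_zero, one_mul, mul_one]
      have h1 : rot (π / 3) * (rot (2 * (π / 3)) * Y0 w * rot (-(2 * (π / 3)))) =
          (rot (π / 3) * rot (2 * (π / 3))) * Y0 w * rot (-(2 * (π / 3))) := by
        simp only [mul_assoc]
      have h2 : rot (π / 3) * rot (2 * (π / 3)) = -1 := by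
        rw [← rot_add, ← pm_GeoG_rot_pi]
        congr 1
        ring
      have h3 : rot (π / 3) = -rot (-(2 * (π / 3))) := by
        have : rot (π / 3) = rot π * rot (-(2 * (π / 3))) := by
          rw [← rot_add]
          congr 1
          ring
        rw [this, pm_GeoG_rot_pi, neg_mul, one_mul]
      rw [h1, h2, neg_mul, one_mul, neg_mul, ← mul_neg, ← h3]
  · intro i
    show rot (i.val * (π / 3)) * Y0 w * rot (-(i.val * (π / 3))) *
      (iv w (ang (l1 i).val) * iv w (ang (l0 i).val)) =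
      iv w (ang (l1 i).val) * iv w (ang (l2 i).val) *
        (rot (i.val * (π / 3)) * Y0 w * rot (-(i.val * (π / 3))))
    rw [pm_GeoG_l0, pm_GeoG_l1, pm_GeoG_l2, pm_GeoG_conj, pm_GeoG_conj, pm_GeoG_conj,
      pm_GeoG_conj, Y0_conj hw hw']
  · intro i
    show (rot (i.val * (π / 3)) * Y0 w * rot (-(i.val * (π / 3)))).trace =
      (iv w (ang (l0 i).val) * iv w (ang (l1 i).val)).trace
    rw [pm_GeoG_l0, pm_GeoG_l1, pm_GeoG_conj, pm_GeoG_tr, pm_GeoG_tr]
    exact Y0_tr hw hw'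
  · intro i
    show 2 < (rot (i.val * (π / 3)) * Y0 w * rot (-(i.val * (π / 3))) *
      (iv w (ang (l0 i).val) * iv w (ang (l1 i).val))).trace
    rw [pm_GeoG_l0, pm_GeoG_l1, pm_GeoG_conj, pm_GeoG_conj, pm_GeoG_tr]
    exact (YX_tr hw hw').1
  · intro i
    show iv w (ang (l0 i).val) * iv w (ang (l2 i).val) *
      pfr w (ang (2 * i.val)) (ang (2 * i.val + 2)) =
      pfr w (ang (2 * i.val)) (ang (2 * i.val + 2)) * eg (Lpw w (π / 3))
    rw [hl0, hl2, pfr_eig hw hw' (hf _), pm_GeoG_half2]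
  · intro i
    show iv w (ang (l0 i).val) * iv w (ang (l1 i).val) *
      pfr w (ang (2 * i.val)) (ang (2 * i.val + 1)) =
      pfr w (ang (2 * i.val)) (ang (2 * i.val + 1)) * eg (Lpw w (π / 6))
    rw [hl0, hl1, pfr_eig hw hw' (hf1 _), pm_GeoG_half]
  · intro i
    show iv w (ang (l1 i).val) * iv w (ang (l2 i).val) *
      pfr w (ang (2 * i.val + 1)) (ang (2 * i.val + 2)) =
      pfr w (ang (2 * i.val + 1)) (ang (2 * i.val + 2)) * eg (Lpw w (π / 6))
    rw [hl1, hl2, pfr_eig hw hw' (hf1 _), pm_GeoG_half]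
  · show iv w (ang 1) * iv w (ang 3) * pfr w (ang 1) (ang 3) =
      pfr w (ang 1) (ang 3) * eg (Lpw w (π / 3))
    rw [pfr_eig hw hw' (hf 1), pm_GeoG_half2]
  · intro i
    fin_cases i
    · exact P0
    · exact P1
    · exact P2
  · have e1 : (bd w mu M).fd 0 = pfr w 0 (2 * (π / 3)) := by
      show pfr w (ang 0) (ang 2) = _
      congr 1
      · simp [ang]
    have e2 : (bd w mu M).Y 0 = Y0 w := by
      show rot (((0 : Fin 3).val : ℕ) * (π / 3)) * Y0 w * rot (-(((0 : Fin 3).val : ℕ) * (π / 3))) =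
        Y0 w
      have : (0 : Fin 3).val = 0 := rfl
      rw [this]
      push_cast
      rw [zero_mul, neg_zero, pm_GeoG_rot_zero, one_mul, mul_one]
    have e3 : (bd w mu M).R (l0 0) * (bd w mu M).R (l1 0) = X0 w := by
      show iv w (ang 0) * iv w (ang 1) = iv w 0 * iv w (π / 3)
      congr 2 <;> simp [ang]
    rw [e1, e2, e3]
    exact hn

end

end PM3
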