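import Pool.Agent.LibPM3.MovII
import Pool.Agent.LibPM3.Geo

/-! The final theorem. -/

namespace PM3
open Matrix Filter Topology
open scoped MatrixGroups

noncomputable section

private theorem pm_Fin1_tri {r1 r2 r3 : Rep} {x y : ℝ} (hx : 0 ≤ x) (hy : 0 ≤ y)
    (h1 : dP r1 r2 ≤ ENNReal.ofReal x) (h2 : dP r2 r3 ≤ ENNReal.ofReal y) :
    dP r1 r3 ≤ ENNReal.ofReal (x + y) := by
  rw [ENNReal.ofReal_add hx hy]
  exact (dP_triangle r1 r2 r3).trans (add_le_add h1 h2)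

private theorem pm_Fin1_tw {r r1 r2 : Rep} {x y : ℝ} (hx : 0 ≤ x) (hy : 0 ≤ y) (f : MulAut Surf)
    (h1 : dP r r1 ≤ ENNReal.ofReal x) (h2 : dP r r2 ≤ ENNReal.ofReal y) (h : act f r2 = r1) :
    dP r (act f r) ≤ ENNReal.ofReal (x + y) := by
  refine pm_Fin1_tri hx hy h1 ?_
  rw [← h, dP_act, dP_symm]
  exact h2

private theorem pm_Fin1_ext {z z' : ZI} (h1 : ∀ i, z.t i = z'.t i) (h2 : ∀ i, z.a i = z'.a i)
    (h3 : ∀ i, z.th i = z'.th i) : z = z' := by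
  obtain ⟨t, a, th⟩ := z
  obtain ⟨t', a', th'⟩ := z'
  have e1 : t = t' := funext h1
  have e2 : a = a' := funext h2
  have e3 : th = th' := funext h3
  rw [e1, e2, e3]

/-- the conclusion of `move2` for fixed `n` -/
private def PmFin1Mv (B : Base) (as τ T n δ : ℝ) (b : Fin 3 → Bool) : Prop :=
  ∀ (z u : ZI) (x y : ℝ), x < y → y - x ≤ τ + 1 →
      (∀ i, u.t i = 0) → u.a 2 = 0 → u.th 2 = 0 → (∀ i, |u.a i| ≤ 1 ∧ |u.th i| ≤ 1) →
      z.t = ![n, n, T] → z.a 2 = as → z.th 2 = 0 →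
      (∀ s ∈ Set.Icc x y, ∀ i, i ≠ 2 → HOk τ ((ray z u s).a i) ((ray z u s).th i)) →
      len (fun s => B.repI b (ray z u s)) x y ≤ ENNReal.ofReal δ

/-- the handle 0 changes its bulge from `p` to `p'` -/
private theorem pm_Fin1_a0 {B : Base} {as τ T n δ : ℝ} {b : Fin 3 → Bool}
    (H : PmFin1Mv B as τ T n δ b) {p p' q : ℝ} (hp : 0 ≤ p) (hp' : 0 ≤ p') (hpτ : p ≤ τ)
    (hpτ' : p' ≤ τ) (hq : 0 ≤ q) (hq' : q ≤ τ) :
    dP (B.repI b ⟨![n, n, T], ![p, q, as], ![0, 0, 0]⟩) (B.repI b ⟨![n, n, T], ![p', q, as], ![0, 0, 0]⟩) ≤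
      ENNReal.ofReal δ := by
  have key : ∀ p p' : ℝ, 0 ≤ p → p < p' → p' ≤ τ →
      dP (B.repI b ⟨![n, n, T], ![p, q, as], ![0, 0, 0]⟩) (B.repI b ⟨![n, n, T], ![p', q, as], ![0, 0, 0]⟩) ≤
        ENNReal.ofReal δ := by
    intro p p' hp hpp hp'
    have h1 := H ⟨![n, n, T], ![p, q, as], ![0, 0, 0]⟩ ⟨fun _ => 0, ![1, 0, 0], fun _ => 0⟩ 0 (p' - p)
      (by linarith) (by linarith) (fun i => rfl) (by simp) rfl
      (by intro i; fin_cases i <;> simp) rfl (by simp) (by simp)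
      (by
        intro s hs i hi
        have hs1 := hs.1
        have hs2 := hs.2
        fin_cases i
        · left
          simp only [ray, Fin.zero_eta, Fin.isValue, Matrix.cons_val_zero]
          exact ⟨by linarith, by linarith, by ring⟩
        · left
          simp only [ray, Fin.mk_one, Fin.isValue, Matrix.cons_val_one, Matrix.cons_val_zero]
          exact ⟨by linarith, by linarith, by ring⟩
        · exact absurd rfl hi)
    have e1 : ray ⟨![n, n, T], ![p, q, as], ![0, 0, 0]⟩ ⟨fun _ => 0, ![1, 0, 0], fun _ => 0⟩ 0 =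
        ⟨![n, n, T], ![p, q, as], ![0, 0, 0]⟩ := by
      refine pm_Fin1_ext ?_ ?_ ?_ <;> intro i <;> fin_cases i <;> simp [ray]
    have e2 : ray ⟨![n, n, T], ![p, q, as], ![0, 0, 0]⟩ ⟨fun _ => 0, ![1, 0, 0], fun _ => 0⟩ (p' - p) =
        ⟨![n, n, T], ![p', q, as], ![0, 0, 0]⟩ := by
      refine pm_Fin1_ext ?_ ?_ ?_ <;> intro i <;> fin_cases i <;> simp [ray]
    have h2 := (dP_ray B b _ _ (show (0 : ℝ) ≤ p' - p by linarith)).trans h1
    rw [e1, e2] at h2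
    exact h2
  rcases lt_trichotomy p p' with h | h | h
  · exact key p p' hp h hpτ'
  · subst h
    have h0 := dP_inner 1 (B.repI b ⟨![n, n, T], ![p, q, as], ![0, 0, 0]⟩)
    have e : act (MulAut.conj (1 : Surf)) (B.repI b ⟨![n, n, T], ![p, q, as], ![0, 0, 0]⟩) =
        B.repI b ⟨![n, n, T], ![p, q, as], ![0, 0, 0]⟩ := by
      rw [map_one]
      exact MonoidHom.ext fun γ => rfl
    rw [e] at h0
    rw [h0]
    exact zero_le
  · rw [dP_symm]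
    exact key p' p hp' h hpτ

/-- the handle 1 changes its bulge from `q` to `q'`, the handle 0 is at `τ` -/
private theorem pm_Fin1_a1 {B : Base} {as τ T n δ : ℝ} {b : Fin 3 → Bool}
    (H : PmFin1Mv B as τ T n δ b) {p q q' : ℝ} (hp : 0 ≤ p) (hpτ : p ≤ τ) (hq : 0 ≤ q) (hqq : q < q')
    (hq' : q' ≤ τ) :
    dP (B.repI b ⟨![n, n, T], ![p, q, as], ![0, 0, 0]⟩) (B.repI b ⟨![n, n, T], ![p, q', as], ![0, 0, 0]⟩) ≤
      ENNReal.ofReal δ := by
  have h1 := H ⟨![n, n, T], ![p, q, as], ![0, 0, 0]⟩ ⟨fun _ => 0, ![0, 1, 0], fun _ => 0⟩ 0 (q' - q)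
    (by linarith) (by linarith) (fun i => rfl) (by simp) rfl
    (by intro i; fin_cases i <;> simp) rfl (by simp) (by simp)
    (by
      intro s hs i hi
      have hs1 := hs.1
      have hs2 := hs.2
      fin_cases i
      · left
        simp only [ray, Fin.zero_eta, Fin.isValue, Matrix.cons_val_zero]
        exact ⟨by linarith, by linarith, by ring⟩
      · left
        simp only [ray, Fin.mk_one, Fin.isValue, Matrix.cons_val_one, Matrix.cons_val_zero]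
        exact ⟨by linarith, by linarith, by ring⟩
      · exact absurd rfl hi)
  have e1 : ray ⟨![n, n, T], ![p, q, as], ![0, 0, 0]⟩ ⟨fun _ => 0, ![0, 1, 0], fun _ => 0⟩ 0 =
      ⟨![n, n, T], ![p, q, as], ![0, 0, 0]⟩ := by
    refine pm_Fin1_ext ?_ ?_ ?_ <;> intro i <;> fin_cases i <;> simp [ray]
  have e2 : ray ⟨![n, n, T], ![p, q, as], ![0, 0, 0]⟩ ⟨fun _ => 0, ![0, 1, 0], fun _ => 0⟩ (q' - q) =
      ⟨![n, n, T], ![p, q', as], ![0, 0, 0]⟩ := by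
    refine pm_Fin1_ext ?_ ?_ ?_ <;> intro i <;> fin_cases i <;> simp [ray]
  have h2 := (dP_ray B b _ _ (show (0 : ℝ) ≤ q' - q by linarith)).trans h1
  rw [e1, e2] at h2
  exact h2

/-- the handle 0, at `τ`, is twisted once -/
private theorem pm_Fin1_th {B : Base} {as τ T n δ : ℝ} {b : Fin 3 → Bool}
    (H : PmFin1Mv B as τ T n δ b) {q : ℝ} (hτ : 0 ≤ τ) (hq : 0 ≤ q) (hq' : q ≤ τ) :
    dP (B.repI b ⟨![n, n, T], ![τ, q, as], ![0, 0, 0]⟩) (B.repI b ⟨![n, n, T], ![τ, q, as], ![1, 0, 0]⟩) ≤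
      ENNReal.ofReal δ := by
  have h1 := H ⟨![n, n, T], ![τ, q, as], ![0, 0, 0]⟩ ⟨fun _ => 0, fun _ => 0, ![1, 0, 0]⟩ 0 1
    (by linarith) (by linarith) (fun i => rfl) rfl (by simp)
    (by intro i; fin_cases i <;> simp) rfl (by simp) (by simp)
    (by
      intro s hs i hi
      have hs1 := hs.1
      have hs2 := hs.2
      fin_cases i
      · right
        simp only [ray, Fin.zero_eta, Fin.isValue, Matrix.cons_val_zero]
        exact ⟨by ring, by linarith, by linarith⟩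
      · left
        simp only [ray, Fin.mk_one, Fin.isValue, Matrix.cons_val_one, Matrix.cons_val_zero]
        exact ⟨by linarith, by linarith, by ring⟩
      · exact absurd rfl hi)
  have e1 : ray ⟨![n, n, T], ![τ, q, as], ![0, 0, 0]⟩ ⟨fun _ => 0, fun _ => 0, ![1, 0, 0]⟩ 0 =
      ⟨![n, n, T], ![τ, q, as], ![0, 0, 0]⟩ := by
    refine pm_Fin1_ext ?_ ?_ ?_ <;> intro i <;> fin_cases i <;> simp [ray]
  have e2 : ray ⟨![n, n, T], ![τ, q, as], ![0, 0, 0]⟩ ⟨fun _ => 0, fun _ => 0, ![1, 0, 0]⟩ 1 =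
      ⟨![n, n, T], ![τ, q, as], ![1, 0, 0]⟩ := by
    refine pm_Fin1_ext ?_ ?_ ?_ <;> intro i <;> fin_cases i <;> simp [ray]
  have h2 := (dP_ray B b _ _ (show (0 : ℝ) ≤ 1 by norm_num)).trans h1
  rw [e1, e2] at h2
  exact h2

/-- all the moves combined: the twists of the handle 0 and along `c_0` have small displacement at the
symmetric base states -/
theorem twists_small (B : Base) : ∃ as : ℝ, ∀ ε > (0 : ℝ), ∃ n₀ : ℝ, ∀ n ≥ n₀, ∀ f : MulAut Surf,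
    (IsTwX 0 f ∨ IsTwY 0 f ∨ IsTwC 0 f) →
    dP (B.repI b0 ⟨fun _ => n, fun _ => as, fun _ => 0⟩)
      (act f (B.repI b0 ⟨fun _ => n, fun _ => as, fun _ => 0⟩)) ≤ ENNReal.ofReal ε := by
  obtain ⟨τw, as, Mx, hτw, has, hasw, hMx, hE, hM1, hM2⟩ := exists_params B
  obtain ⟨τ1, hτ1, H1⟩ := move1' (B := B) has hMx hE
  obtain ⟨τ4, hτ4, H4⟩ := move4 (B := B) has hMx hE
  obtain ⟨τ5, hτ5, H5⟩ := move5 (B := B) has hMx hE
  obtain ⟨τ, ht0, ht1, ht4, ht5⟩ : ∃ τ : ℝ, τw + 1 ≤ τ ∧ τ1 ≤ τ ∧ τ4 ≤ τ ∧ τ5 ≤ τ :=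
    ⟨max (τw + 1) (max τ1 (max τ4 τ5)), le_max_left _ _, (le_max_left _ _).trans (le_max_right _ _),
      ((le_max_left _ _).trans (le_max_right _ _)).trans (le_max_right _ _),
      ((le_max_right _ _).trans (le_max_right _ _)).trans (le_max_right _ _)⟩
  have hτ0 : 0 < τ := by linarith
  have hasτ : as < τ := by linarith
  obtain ⟨τc, hτc, H5⟩ := H5 τ ht5
  refine ⟨as, fun ε hε => ?_⟩
  obtain ⟨δ, hδ, hδε⟩ : ∃ δ : ℝ, 0 < δ ∧ 20 * δ ≤ ε := ⟨ε / 20, by positivity, by linarith⟩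
  obtain ⟨Ta, hTa, Ha⟩ := move1 (B := B) has hMx hE δ hδ
  obtain ⟨Tb, hTb, Hb⟩ := H1 τ ht1 δ hδ
  obtain ⟨T, hT1, hT2⟩ : ∃ T : ℝ, Ta ≤ T ∧ Tb ≤ T := ⟨max Ta Tb, le_max_left _ _, le_max_right _ _⟩
  have hT : 0 < T := by linarith
  have hM1' : ∀ a, 0 ≤ a → a ≤ τ → B.EH a 0 ≤ Mx := fun a ha _ => hM1 a ha
  have hM2' : ∀ th, 0 ≤ th → th ≤ 1 → B.EH τ th ≤ Mx := fun th h0 h1 => hM2 τ th (by linarith) h0 h1
  obtain ⟨n1, hn1⟩ := move2 (B := B) has hasτ.le hMx hE hM1' hM2' b0 rfl T hT.le δ hδ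
  obtain ⟨n2, hn2⟩ := move2 (B := B) has hasτ.le hMx hE hM1' hM2' by0 (by simp [by0]) T hT.le δ hδ
  obtain ⟨n4, hn4, H4⟩ := H4 τ ht4 δ hδ
  obtain ⟨n5, hn5, H5⟩ := H5 δ hδ
  refine ⟨max T (max n1 (max n2 (max n4 n5))), fun n hn f hf => ?_⟩
  have hnT : T ≤ n := (le_max_left _ _).trans hn
  have hnn := (le_max_right _ _).trans hn
  have hnn1 : n1 ≤ n := (le_max_left _ _).trans hnn
  have hnn := (le_max_right _ _).trans hnn
  have hnn2 : n2 ≤ n := (le_max_left _ _).trans hnn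
  have hnn := (le_max_right _ _).trans hnn
  have hnn4 : n4 ≤ n := (le_max_left _ _).trans hnn
  have hnn5 : n5 ≤ n := (le_max_right _ _).trans hnn
  have e3 : (fun _ => n : Fin 3 → ℝ) = ![n, n, n] := by
    funext i; fin_cases i <;> rfl
  have eas : (fun _ => as : Fin 3 → ℝ) = ![as, as, as] := by
    funext i; fin_cases i <;> rfl
  have e0 : (fun _ => 0 : Fin 3 → ℝ) = ![0, 0, 0] := by
    funext i; fin_cases i <;> rfl
  have hA := Ha T hT1 n hnT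
  have hB := Hb T hT2 n hnT
  have hC := H4 n hnn4
  have hD := H5 n hnn5
  rw [e3, eas, e0]
  rw [eas, e0] at hA
  rw [e0] at hB hC hD
  have m1 : PmFin1Mv B as τ T n δ b0 := hn1 n hnn1
  have m2 : PmFin1Mv B as τ T n δ by0 := hn2 n hnn2
  have hδ0 := hδ.le
  -- the handle 0 goes to `τ`
  have g1 := pm_Fin1_tri hδ0 hδ0 hA (pm_Fin1_a0 m1 has hτ0.le hasτ.le le_rfl has hasτ.le)
  rcases hf with hf | hf | hf
  · have g2 := pm_Fin1_tri (by positivity) hδ0 g1 (pm_Fin1_th m1 hτ0.le has hasτ.le)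
    have tw := twistX (B := B) ⟨![n, n, T], ![τ, as, as], ![0, 0, 0]⟩ ⟨![n, n, T], ![τ, as, as], ![1, 0, 0]⟩
      rfl rfl (by simp) rfl rfl f hf
    exact (pm_Fin1_tw (by positivity) (by positivity) f g1 g2 tw).trans
      (ENNReal.ofReal_le_ofReal (by linarith))
  · have k1 := pm_Fin1_tri hδ0 hδ0 hA (pm_Fin1_a0 m1 has le_rfl hasτ.le hτ0.le has hasτ.le)
    rw [← type_change ⟨![n, n, T], ![0, as, as], ![0, 0, 0]⟩ (by simp) (by simp)] at k1
    have k2 := pm_Fin1_tri (by positivity) hδ0 k1 (pm_Fin1_a0 m2 le_rfl hτ0.le hτ0.le le_rfl has hasτ.le)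
    have k3 := pm_Fin1_tri (by positivity) hδ0 k2 (pm_Fin1_th m2 hτ0.le has hasτ.le)
    have tw := twistY (B := B) ⟨![n, n, T], ![τ, as, as], ![0, 0, 0]⟩ ⟨![n, n, T], ![τ, as, as], ![1, 0, 0]⟩
      rfl rfl (by simp) rfl rfl f hf
    exact (pm_Fin1_tw (by positivity) (by positivity) f k2 k3 tw).trans
      (ENNReal.ofReal_le_ofReal (by linarith))
  · have k1 := pm_Fin1_tri (by positivity) hδ0 g1 (pm_Fin1_a1 m1 hτ0.le le_rfl has hasτ le_rfl)
    have k2 := pm_Fin1_tri (by positivity) hδ0 k1 hB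
    have k3 := pm_Fin1_tri (by positivity) hδ0 k2 hC
    rw [← B.repII_eq_repI ⟨n, ![τ, τ, as], ![0, 0, 0], 0, 0⟩ rfl rfl ⟨![0, 0, n], ![τ, τ, as], ![0, 0, 0]⟩
      rfl rfl rfl rfl rfl b0 (fun _ => rfl)] at k3
    have k4 := pm_Fin1_tri (by positivity) hδ0 k3 hD.1
    have k5 := pm_Fin1_tri (by positivity) hδ0 k4 hD.2
    have tw := twistC (B := B) ⟨n, ![τ, τ, as], ![0, 0, 0], τc, 0⟩ ⟨n, ![τ, τ, as], ![0, 0, 0], τc, 1⟩
      rfl rfl rfl rfl (by simp) f hf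
    exact (pm_Fin1_tw (by positivity) (by positivity) f k4 k5 tw).trans
      (ENNReal.ofReal_le_ofReal (by linarith))

private theorem pm_Fin2_conj (r : Rep) (g : SL(3, ℝ)) : dP r ((MulAut.conj g).toMonoidHom.comp r) = 0 :=
  le_antisymm (sInf_le (Reach.conj r g)) zero_le

/-- displacements of conjugate automorphisms -/
private theorem pm_Fin2_dP (r : Rep) (σ f : MulAut Surf) (h : dP r (act σ r) = 0) :
    dP r (act f r) ≤ dP r (act (σ⁻¹ * f * σ) r) := by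
  have e : ∀ ρ : Rep, act σ (act σ⁻¹ ρ) = ρ := by
    intro ρ
    rw [← act_mul, mul_inv_cancel]
    exact MonoidHom.ext fun γ => rfl
  have h' : dP r (act σ⁻¹ r) = 0 := by
    rw [← dP_act σ, e, dP_symm, h]
  have hf : act f r = act σ (act (σ⁻¹ * f * σ) (act σ⁻¹ r)) := by
    rw [← act_mul, ← act_mul]
    congr 1
    group
  rw [hf]
  calc dP r (act σ (act (σ⁻¹ * f * σ) (act σ⁻¹ r)))
      ≤ dP r (act σ r) + dP (act σ r) (act σ (act (σ⁻¹ * f * σ) (act σ⁻¹ r))) := dP_triangle _ _ _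
    _ = dP r (act (σ⁻¹ * f * σ) (act σ⁻¹ r)) := by rw [h, zero_add, dP_act]
    _ ≤ dP r (act (σ⁻¹ * f * σ) r) + dP (act (σ⁻¹ * f * σ) r) (act (σ⁻¹ * f * σ) (act σ⁻¹ r)) :=
        dP_triangle _ _ _
    _ = dP r (act (σ⁻¹ * f * σ) r) := by rw [dP_act, h', add_zero]

private theorem pm_Fin2_step {σ f : MulAut Surf} (hx : ∀ i, σ (sx i) = sx (i + 1))
    (hy : ∀ i, σ (sy i) = sy (i + 1)) (i : Fin 3)
    (h : IsTwX (i + 1) f ∨ IsTwY (i + 1) f ∨ IsTwC (i + 1) f) :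
    IsTwX i (σ⁻¹ * f * σ) ∨ IsTwY i (σ⁻¹ * f * σ) ∨ IsTwC i (σ⁻¹ * f * σ) := by
  have hx' : ∀ i, σ⁻¹ (sx (i + 1)) = sx i := by
    intro i
    rw [← hx i]
    exact σ.symm_apply_apply _
  have hy' : ∀ i, σ⁻¹ (sy (i + 1)) = sy i := by
    intro i
    rw [← hy i]
    exact σ.symm_apply_apply _
  have hcc : σ⁻¹ (cc (i + 1)) = cc i := by
    unfold cc
    rw [map_mul, map_mul, map_mul, map_inv, map_inv, hx', hy', hx']
  have ap : ∀ g, (σ⁻¹ * f * σ) g = σ⁻¹ (f (σ g)) := fun g => rfl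
  rcases h with h | h | h
  · left
    refine ⟨fun j => ?_, fun j hj => ?_, ?_⟩
    · rw [ap, hx, h.1, hx']
    · rw [ap, hy, h.2.1 (j + 1) (fun e => hj (add_right_cancel e)), hy']
    · rw [ap, hy, h.2.2, map_mul, hy', hx']
  · right; left
    refine ⟨fun j => ?_, fun j hj => ?_, ?_⟩
    · rw [ap, hy, h.1, hy']
    · rw [ap, hx, h.2.1 (j + 1) (fun e => hj (add_right_cancel e)), hx']
    · rw [ap, hx, h.2.2, map_mul, hx', hy']
  · right; right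
    obtain ⟨h1, h2, h3, h4, h5⟩ := h
    refine ⟨?_, ?_, ?_, ?_, fun j hj hj' => ⟨?_, ?_⟩⟩
    · rw [ap, hx, h1, hx']
    · rw [ap, hy, h2, map_mul, hcc, hy']
    · rw [ap, hx, h3, map_mul, map_mul, map_inv, hcc, hx']
    · rw [ap, hy, h4, map_mul, map_inv, hcc, hy']
    · rw [ap, hx, (h5 (j + 1) (fun e => hj (add_right_cancel e)) (fun e => hj' (add_right_cancel e))).1, hx']
    · rw [ap, hy, (h5 (j + 1) (fun e => hj (add_right_cancel e)) (fun e => hj' (add_right_cancel e))).2, hy']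

/-- all Lickorish twists -/
theorem twists_small' (B : Base) : ∃ as : ℝ, ∀ ε > (0 : ℝ), ∃ n₀ : ℝ, ∀ n ≥ n₀, ∀ f : MulAut Surf, ∀ i,
    (IsTwX i f ∨ IsTwY i f ∨ IsTwC i f) →
    dP (B.repI b0 ⟨fun _ => n, fun _ => as, fun _ => 0⟩)
      (act f (B.repI b0 ⟨fun _ => n, fun _ => as, fun _ => 0⟩)) ≤ ENNReal.ofReal ε := by
  obtain ⟨as, H⟩ := twists_small B
  refine ⟨as, fun ε hε => ?_⟩
  obtain ⟨n₀, hn₀⟩ := H ε hε
  refine ⟨n₀, fun n hn => ?_⟩
  obtain ⟨σ, hx, hy, g, hg⟩ := rotation (B := B) n as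
  have h0 : dP (B.repI b0 ⟨fun _ => n, fun _ => as, fun _ => 0⟩)
      (act σ (B.repI b0 ⟨fun _ => n, fun _ => as, fun _ => 0⟩)) = 0 := by
    rw [hg]
    exact pm_Fin2_conj _ _
  have step : ∀ i : Fin 3, (∀ f : MulAut Surf, (IsTwX i f ∨ IsTwY i f ∨ IsTwC i f) →
      dP (B.repI b0 ⟨fun _ => n, fun _ => as, fun _ => 0⟩)
      (act f (B.repI b0 ⟨fun _ => n, fun _ => as, fun _ => 0⟩)) ≤ ENNReal.ofReal ε) →
      ∀ f : MulAut Surf, (IsTwX (i + 1) f ∨ IsTwY (i + 1) f ∨ IsTwC (i + 1) f) →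
      dP (B.repI b0 ⟨fun _ => n, fun _ => as, fun _ => 0⟩)
      (act f (B.repI b0 ⟨fun _ => n, fun _ => as, fun _ => 0⟩)) ≤ ENNReal.ofReal ε :=
    fun i hi f hf => (pm_Fin2_dP _ σ f h0).trans (hi _ (pm_Fin2_step hx hy i hf))
  have s0 := hn₀ n hn
  have s1 := step 0 s0
  have s2 := step 1 s1
  intro f i hf
  fin_cases i
  · exact s0 f hf
  · exact s1 f hf
  · exact s2 f hf

/-- the translation length of every mapping class on `H_3(S)` with the pressure metric is zero -/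
theorem tau_eq_zero : ∀ φ ∈ mcg, tau φ = 0 := by
  obtain ⟨B⟩ := exists_base
  obtain ⟨as, H⟩ := twists_small' B
  have key : ∀ (i : Fin 3) (f : MulAut Surf), (IsTwX i f ∨ IsTwY i f ∨ IsTwC i f) →
      Tendsto (fun n : ℕ => dP (B.repI b0 ⟨fun _ => (n : ℝ), fun _ => as, fun _ => 0⟩)
        (act f (B.repI b0 ⟨fun _ => (n : ℝ), fun _ => as, fun _ => 0⟩))) atTop (𝓝 0) := by
    intro i f hf
    rw [ENNReal.tendsto_nhds_zero]
    intro ε hε
    obtain ⟨δ, hδ, hδε⟩ : ∃ δ : ℝ, 0 < δ ∧ ENNReal.ofReal δ ≤ ε := by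
      rcases eq_or_ne ε ⊤ with h | h
      · exact ⟨1, one_pos, by rw [h]; exact le_top⟩
      · exact ⟨ε.toReal, ENNReal.toReal_pos hε.ne' h, (ENNReal.ofReal_toReal h).le⟩
    obtain ⟨n₀, hn₀⟩ := H δ hδ
    filter_upwards [eventually_ge_atTop ⌈n₀⌉₊] with n hn
    exact (hn₀ n ((Nat.le_ceil n₀).trans (by exact_mod_cast hn)) f i hf).trans hδε
  exact tau_zero_of_gens (fun n : ℕ => B.repI b0 ⟨fun _ => (n : ℝ), fun _ => as, fun _ => 0⟩)
    (fun n => repI_hit B b0 _) (fun i f hf => key i f (Or.inl hf))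
    (fun i f hf => key i f (Or.inr (Or.inl hf))) (fun i f hf => key i f (Or.inr (Or.inr hf)))

end

end PM3
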