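import Pool.Agent.LibPM3.Mat

/-! Graphs of groups with frames: definitions. -/

namespace PM3
open Matrix Filter Topology

noncomputable section

/-- `Sym² (0 -1; 1 0)` -/
def J3 : M3 := !![0, 0, 1; 0, -1, 0; 1, 0, 0]

/-- the holonomy `diag(e^{-kL}, 1, e^{kL})` -/
def Cd (L : ℝ) (k : ℤ) : M3 := diagonal ![Real.exp (-(k * L)), 1, Real.exp (k * L)]

/-- A port system: an ambient group `Γ`, a family `r z` of representations, and oriented curves
(ports) `p : Q` with boundary elements `c p`, frames `F p z`, partner `bar p`, transporter `t p`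
(`t p` carries the frame of `bar p` to the flipped frame of `p`, up to the diagonal `D0 p z`). -/
structure PS (Γ Z Q : Type) [Group Γ] where
  r : Z → Γ →* GL (Fin 3) ℝ
  c : Q → Γ
  F : Q → Z → GL (Fin 3) ℝ
  L : Q → ℝ
  bar : Q → Q
  t : Q → Γ
  D0 : Q → Z → Fin 3 → ℝ
  L_pos : ∀ p, 0 < L p
  D0_pos : ∀ p z, PosD (D0 p z)
  bar_bar : ∀ p, bar (bar p) = p
  bar_ne : ∀ p, bar p ≠ p
  L_bar : ∀ p, L (bar p) = L p
  t_bar : ∀ p, t (bar p) = (t p)⁻¹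
  t_c : ∀ p, t p * c (bar p) * (t p)⁻¹ = (c p)⁻¹
  rc : ∀ p z, (r z (c p) : M3) * (F p z : M3) = (F p z : M3) * Cd (L p) 1
  glue : ∀ p z, (r z (t p) : M3) * (F (bar p) z : M3) = (F p z : M3) * J3 * diagonal (D0 p z)

variable {Γ Z Q V : Type} [Group Γ]

namespace PS

/-- transition matrix from the inner frame of `p` to the outer frame of `q` -/
def TT (ps : PS Γ Z Q) (z : Z) (p : Q) (g : Γ) (q : Q) : M3 :=
  (((ps.F p z)⁻¹ : GL (Fin 3) ℝ) : M3) * (ps.r z g : M3) * (ps.F q z : M3) * J3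

/-- crossing diagonal with twist `k` -/
def Dl (ps : PS Γ Z Q) (p : Q) (k : ℤ) (z : Z) : Fin 3 → ℝ :=
  fun i => ps.D0 p z i * (![Real.exp (-(k * ps.L p)), 1, Real.exp (k * ps.L p)] : Fin 3 → ℝ) i

end PS

/-- a word `B₀ D₁ B₁ ⋯ D_l B_l`; letters of the tail are `(port, twist, matrix)` -/
structure Word (Q : Type) where
  hd : M3
  tl : List (Q × ℤ × M3)

/-- evaluation of a list of letters -/
def PS.evL (ps : PS Γ Z Q) (l : List (Q × ℤ × M3)) (z : Z) : M3 :=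
  prodL (l.map (fun x => (ps.Dl x.1 x.2.1 z, x.2.2)))

def PS.eval (ps : PS Γ Z Q) (w : Word Q) (z : Z) : M3 := w.hd * ps.evL w.tl z

/-- all matrices of the list are balanced and all labels are in `Λ` -/
def OkL (K κ : ℝ) (Λ : Set Q) (l : List (Q × ℤ × M3)) : Prop := ∀ x ∈ l, x.1 ∈ Λ ∧ Bal K κ x.2.2

def Word.Ok (K κ : ℝ) (Λ : Set Q) (w : Word Q) : Prop := Bal K κ w.hd ∧ OkL K κ Λ w.tl

/-- the vertex condition for a subgroup `G` with set of ports `S` and labels in `Λ` -/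
def VC (ps : PS Γ Z Q) (K κ : ℝ) (Λ : Set Q) (G : Subgroup Γ) (S : Set Q) : Prop :=
  ∀ p ∈ S, ∀ q ∈ S, ∀ g ∈ G, ¬ (p = q ∧ g ∈ Subgroup.zpowers (ps.c p)) →
    ∃ (k k' : ℤ) (w : Word Q), w.Ok K κ Λ ∧
      ∀ z, ps.TT z p g q = Cd (ps.L p) k * ps.eval w z * Cd (ps.L q) k'

/-- cyclic words -/
inductive CW (Q : Type) : Type
  | cst (B : M3) : CW Q
  | cyc (l : List (Q × ℤ × M3)) : CW Q

def PS.evC (ps : PS Γ Z Q) (z : Z) : CW Q → M3
  | CW.cst B => B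
  | CW.cyc l => ps.evL l z

def CW.Ok (K κ : ℝ) (Λ : Set Q) : CW Q → Prop
  | CW.cst B => Bal K κ B
  | CW.cyc l => l ≠ [] ∧ OkL K κ Λ l

open Classical in
/-- number of letters with label in `M` -/
def cntL (M : Set Q) (l : List (Q × ℤ × M3)) : ℕ := (l.filter (fun x => x.1 ∈ M)).length

def CW.cnt (M : Set Q) : CW Q → ℕ
  | CW.cst _ => 0
  | CW.cyc l => cntL M l

/-- class representation: every nontrivial element of `G` is conjugate to an element whose matrix in one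
of the frames of `Φ` is a cyclic word (the same for all parameters) -/
def CR (ps : PS Γ Z Q) (K κ : ℝ) (Λ : Set Q) (G : Subgroup Γ) (Φ : Set (Z → GL (Fin 3) ℝ)) : Prop :=
  ∀ g ∈ G, g ≠ 1 → ∃ γ' ∈ G, IsConj g γ' ∧ ∃ φ ∈ Φ, ∃ cw : CW Q, cw.Ok K κ Λ ∧
    ∀ z, (((φ z)⁻¹ : GL (Fin 3) ℝ) : M3) * (ps.r z γ' : M3) * (φ z : M3) = ps.evC z cw

/-- normalised port-to-port elements -/
def Nrm (ps : PS Γ Z Q) (K κ : ℝ) (Λ : Set Q) (p : Q) (g : Γ) (q : Q) : Prop :=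
  ∃ w : Word Q, w.Ok K κ Λ ∧ ∀ z, ps.TT z p g q = ps.eval w z

/-- `∑ mn(T)^{-s}` over the normalised elements of `G` from `p` to `q` -/
def Zs (ps : PS Γ Z Q) (K κ : ℝ) (Λ : Set Q) (G : Subgroup Γ) (z : Z) (s : ℝ) (p q : Q) : ENNReal :=
  ∑' g : {g : Γ // g ∈ G ∧ Nrm ps K κ Λ p g q}, ENNReal.ofReal ((mn (ps.TT z p g q)) ^ (-s))

/-- `∑_k max(D_e(k))^{-s}` -/
def Xs (ps : PS Γ Z Q) (z : Z) (s : ℝ) (e : Q) : ENNReal :=
  ∑' k : ℤ, ENNReal.ofReal ((mxd (ps.Dl e k z)) ^ (-s))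

/-! ### paths -/

/-- `IsPath ps at_ G I v l gl w`: a path from `v` to `w` with steps `(g,e) ∈ l` (an element of the current
vertex group followed by a crossing of the internal port `e`) and last element `gl` -/
inductive IsPath (ps : PS Γ Z Q) (at_ : Q → V) (G : V → Subgroup Γ) (I : Set Q) :
    V → List (Γ × Q) → Γ → V → Prop
  | nil {v : V} {g : Γ} : g ∈ G v → IsPath ps at_ G I v [] g v
  | cons {v w : V} {g gl : Γ} {e : Q} {l : List (Γ × Q)} : g ∈ G v → e ∈ I → at_ e = v →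
      IsPath ps at_ G I (at_ (ps.bar e)) l gl w → IsPath ps at_ G I v ((g, e) :: l) gl w

/-- the value of a list of steps -/
def PS.pval (ps : PS Γ Z Q) (l : List (Γ × Q)) : Γ := (l.map (fun x => x.1 * ps.t x.2)).prod

/-- no backtracking between consecutive steps -/
def PS.NB (ps : PS Γ Z Q) (x y : Γ × Q) : Prop :=
  y.2 = ps.bar x.2 → y.1 ∉ Subgroup.zpowers (ps.c (ps.bar x.2))

/-- reduced lists of steps -/
def PS.Red (ps : PS Γ Z Q) (l : List (Γ × Q)) : Prop := l.IsChain ps.NB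

/-- standing hypotheses for a graph of groups inside a port system -/
structure GH (ps : PS Γ Z Q) (at_ : Q → V) (G : V → Subgroup Γ) (S : V → Set Q) (I : Set Q)
    (Gn : Subgroup Γ) : Prop where
  hS : ∀ v p, p ∈ S v → at_ p = v
  hI : ∀ p ∈ I, ps.bar p ∈ I ∧ p ∈ S (at_ p)
  hc : ∀ p ∈ I, ps.c p ∈ G (at_ p)
  hG : ∀ v, G v ≤ Gn
  ht : ∀ p ∈ I, ps.t p ∈ Gn
  conn : ∀ v w : V, ∃ l gl, IsPath ps at_ G I v l gl w ∧ ps.pval l * gl = 1
  gen : Gn ≤ Subgroup.closure ({g | ∃ v, g ∈ G v} ∪ {g | ∃ p ∈ I, g = ps.t p})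

end

end PM3
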