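import Pool.Agent.LibPM3.GoG

/-! [PM3 GoGA] paths in a graph of groups. -/

namespace PM3
open Matrix Filter Topology

variable {Γ Z Q V : Type} [Group Γ] {ps : PS Γ Z Q} {at_ : Q → V} {G : V → Subgroup Γ} {S : V → Set Q}
  {I : Set Q} {Gn : Subgroup Γ}

private theorem pm_GoGA1_pval_cons (ps : PS Γ Z Q) (g : Γ) (e : Q) (l : List (Γ × Q)) :
    ps.pval ((g, e) :: l) = g * ps.t e * ps.pval l := by
  simp [PS.pval]

private theorem pm_GoGA1_pval_nil (ps : PS Γ Z Q) : ps.pval [] = 1 := by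
  simp [PS.pval]

private theorem pm_GoGA1_lmul {v w : V} {l : List (Γ × Q)} {gl : Γ}
    (h : IsPath ps at_ G I v l gl w) {g : Γ} (hg : g ∈ G v) :
    ∃ l' gl', IsPath ps at_ G I v l' gl' w ∧ ps.pval l' * gl' = g * (ps.pval l * gl) := by
  cases h with
  | nil h1 =>
    refine ⟨[], g * gl, IsPath.nil ((G v).mul_mem hg h1), ?_⟩
    simp [pm_GoGA1_pval_nil]
  | cons h1 h2 h3 h4 =>
    refine ⟨_, gl, IsPath.cons ((G v).mul_mem hg h1) h2 h3 h4, ?_⟩
    simp only [pm_GoGA1_pval_cons, mul_assoc]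

private theorem pm_GoGA1_concat {v u : V} {l : List (Γ × Q)} {gl : Γ}
    (h : IsPath ps at_ G I v l gl u) {w : V} {l2 : List (Γ × Q)} {gl2 : Γ}
    (h2 : IsPath ps at_ G I u l2 gl2 w) :
    ∃ l' gl', IsPath ps at_ G I v l' gl' w ∧
      ps.pval l' * gl' = (ps.pval l * gl) * (ps.pval l2 * gl2) := by
  induction h with
  | nil hg =>
    obtain ⟨l', gl', hp, hv⟩ := pm_GoGA1_lmul h2 hg
    exact ⟨l', gl', hp, by rw [hv, pm_GoGA1_pval_nil, one_mul]⟩
  | cons hg he hat _ ih =>
    obtain ⟨l', gl', hp, hv⟩ := ih h2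
    refine ⟨_, gl', IsPath.cons hg he hat hp, ?_⟩
    rw [pm_GoGA1_pval_cons, pm_GoGA1_pval_cons, mul_assoc, hv]
    simp only [mul_assoc]

private theorem pm_GoGA1_inv (H : GH ps at_ G S I Gn) {v w : V} {l : List (Γ × Q)} {gl : Γ}
    (h : IsPath ps at_ G I v l gl w) :
    ∃ l' gl', IsPath ps at_ G I w l' gl' v ∧ ps.pval l' * gl' = (ps.pval l * gl)⁻¹ := by
  induction h with
  | nil hg =>
    exact ⟨[], _, IsPath.nil ((G _).inv_mem hg), by simp [pm_GoGA1_pval_nil]⟩
  | @cons v w g gl e l hg he hat _ ih =>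
    obtain ⟨l', gl', hp, hv⟩ := ih
    have hstep : IsPath ps at_ G I (at_ (ps.bar e)) [(1, ps.bar e)] g⁻¹ v := by
      refine IsPath.cons (G _).one_mem (H.hI e he).1 rfl ?_
      rw [ps.bar_bar, hat]
      exact IsPath.nil ((G v).inv_mem hg)
    obtain ⟨l'', gl'', hp'', hv''⟩ := pm_GoGA1_concat hp hstep
    refine ⟨l'', gl'', hp'', ?_⟩
    rw [hv'', hv, pm_GoGA1_pval_cons, pm_GoGA1_pval_cons, pm_GoGA1_pval_nil, ps.t_bar]
    group

/-- every element of `Gn` is the value of a path between any two vertices -/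
theorem paths_exist (H : GH ps at_ G S I Gn) (v w : V) {g : Γ} (hg : g ∈ Gn) :
    ∃ l gl, IsPath ps at_ G I v l gl w ∧ ps.pval l * gl = g := by
  have hg' := H.gen hg
  clear hg
  induction hg' using Subgroup.closure_induction generalizing v w with
  | mem x hx =>
    rcases hx with ⟨u, hu⟩ | ⟨p, hp, rfl⟩
    · obtain ⟨l1, g1, p1, v1⟩ := H.conn v u
      obtain ⟨l2, g2, p2, v2⟩ := H.conn u w
      obtain ⟨l3, g3, p3, v3⟩ := pm_GoGA1_lmul p2 hu
      obtain ⟨l4, g4, p4, v4⟩ := pm_GoGA1_concat p1 p3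
      exact ⟨l4, g4, p4, by rw [v4, v1, v3, v2]; simp⟩
    · obtain ⟨l1, g1, p1, v1⟩ := H.conn v (at_ p)
      obtain ⟨l2, g2, p2, v2⟩ := H.conn (at_ (ps.bar p)) w
      have p3 : IsPath ps at_ G I (at_ p) ((1, p) :: l2) g2 w :=
        IsPath.cons (G _).one_mem hp rfl p2
      obtain ⟨l4, g4, p4, v4⟩ := pm_GoGA1_concat p1 p3
      refine ⟨l4, g4, p4, ?_⟩
      rw [v4, v1, pm_GoGA1_pval_cons, mul_assoc, v2]
      simp
  | one => exact H.conn v w
  | mul x y _ _ hx hy =>
    obtain ⟨l1, g1, p1, v1⟩ := hx v v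
    obtain ⟨l2, g2, p2, v2⟩ := hy v w
    obtain ⟨l4, g4, p4, v4⟩ := pm_GoGA1_concat p1 p2
    exact ⟨l4, g4, p4, by rw [v4, v1, v2]⟩
  | inv x _ hx =>
    obtain ⟨l1, g1, p1, v1⟩ := hx w v
    obtain ⟨l4, g4, p4, v4⟩ := pm_GoGA1_inv H p1
    exact ⟨l4, g4, p4, by rw [v4, v1]⟩

/-- the value of a path lies in `Gn` -/
theorem path_mem (H : GH ps at_ G S I Gn) {v w : V} {l : List (Γ × Q)} {gl : Γ}
    (h : IsPath ps at_ G I v l gl w) : ps.pval l * gl ∈ Gn := by
  induction h with
  | nil hg =>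
    rw [pm_GoGA1_pval_nil, one_mul]
    exact H.hG _ hg
  | cons hg he hat _ ih =>
    rw [pm_GoGA1_pval_cons, mul_assoc]
    exact Gn.mul_mem (Gn.mul_mem (H.hG _ hg) (H.ht _ he)) ih

private theorem pm_GoGA2_pval_cons (x : Γ × Q) (l : List (Γ × Q)) :
    ps.pval (x :: l) = x.1 * ps.t x.2 * ps.pval l := by
  simp [PS.pval]

private theorem pm_GoGA2_pval_append (l l' : List (Γ × Q)) :
    ps.pval (l ++ l') = ps.pval l * ps.pval l' := by
  simp [PS.pval]

/-- multiply the first element -/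
private theorem pm_GoGA2_mul_first {v w : V} {l : List (Γ × Q)} {gl h : Γ}
    (hp : IsPath ps at_ G I v l gl w) (hh : h ∈ G v) :
    ∃ l' gl', IsPath ps at_ G I v l' gl' w ∧ ps.pval l' * gl' = h * (ps.pval l * gl) ∧
      l'.length = l.length := by
  cases hp with
  | nil hg => exact ⟨[], h * gl, .nil (mul_mem hh hg), by simp [PS.pval], rfl⟩
  | @cons _ _ g gl e l hg he hv hr =>
    exact ⟨(h * g, e) :: l, gl, .cons (mul_mem hh hg) he hv hr, by
      simp only [pm_GoGA2_pval_cons]; group, rfl⟩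

/-- the crossing of a backtrack -/
private theorem pm_GoGA2_cross (H : GH ps at_ G S I Gn) {e : Q} (he : e ∈ I) {g : Γ}
    (hg : g ∈ Subgroup.zpowers (ps.c (ps.bar e))) :
    ps.t e * g * ps.t (ps.bar e) ∈ G (at_ e) := by
  obtain ⟨k, rfl⟩ := Subgroup.mem_zpowers_iff.mp hg
  have h1 : ps.t e * ps.c (ps.bar e) ^ k * ps.t (ps.bar e) = ((ps.c e)⁻¹) ^ k := by
    rw [ps.t_bar, ← conj_zpow, ps.t_c]
  rw [h1]
  exact zpow_mem (inv_mem (H.hc e he)) k

/-- a path which is not reduced can be shortened -/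
private theorem pm_GoGA2_shorten (H : GH ps at_ G S I Gn) {v w : V} {l : List (Γ × Q)} {gl : Γ}
    (h : IsPath ps at_ G I v l gl w) (hr : ¬ ps.Red l) :
    ∃ l' gl', IsPath ps at_ G I v l' gl' w ∧ ps.pval l' * gl' = ps.pval l * gl ∧
      l'.length < l.length := by
  induction h with
  | nil hg => exact absurd (by simp [PS.Red]) hr
  | @cons v w g gl e l hg he hv hp ih =>
    by_cases hl : ps.Red l
    · cases hp with
      | nil hg' => exact absurd (by simp [PS.Red]) hr
      | @cons _ _ g2 gl e2 l2 hg2 he2 hv2 hp2 =>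
        have hnb : ¬ ps.NB (g, e) (g2, e2) := by
          intro hnb
          exact hr (List.isChain_cons_cons.mpr ⟨hnb, hl⟩)
        simp only [PS.NB, not_forall, not_not] at hnb
        obtain ⟨hb, hz⟩ := hnb
        subst hb
        have hc := pm_GoGA2_cross H he hz
        rw [hv] at hc
        rw [ps.bar_bar, hv] at hp2
        obtain ⟨l', gl', h1, h2, h3⟩ := pm_GoGA2_mul_first hp2 (mul_mem hg hc)
        refine ⟨l', gl', h1, ?_, by simp [h3]⟩
        rw [h2]
        simp only [pm_GoGA2_pval_cons, mul_assoc]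
    · obtain ⟨l', gl', h1, h2, h3⟩ := ih hl
      refine ⟨(g, e) :: l', gl', .cons hg he hv h1, ?_, by simpa using h3⟩
      simp only [pm_GoGA2_pval_cons, mul_assoc]
      rw [h2]

/-- reduction of a path -/
theorem reduce (H : GH ps at_ G S I Gn) {v w : V} {l : List (Γ × Q)} {gl : Γ}
    (h : IsPath ps at_ G I v l gl w) :
    ∃ l' gl', IsPath ps at_ G I v l' gl' w ∧ ps.Red l' ∧ ps.pval l' * gl' = ps.pval l * gl ∧
      l'.length ≤ l.length := by
  induction hn : l.length using Nat.strong_induction_on generalizing l gl with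
  | _ n ih =>
    by_cases hr : ps.Red l
    · exact ⟨l, gl, h, hr, rfl, hn.le⟩
    · obtain ⟨l₁, gl₁, h1, h2, h3⟩ := pm_GoGA2_shorten H h hr
      obtain ⟨l', gl', h4, h5, h6, h7⟩ := ih _ (hn ▸ h3) h1 rfl
      exact ⟨l', gl', h4, h5, h6.trans h2, by omega⟩

private theorem pm_GoGA3_last_mem {v w : V} {l : List (Γ × Q)} {gl : Γ}
    (h : IsPath ps at_ G I v l gl w) : gl ∈ G w := by
  induction h with
  | nil hg => exact hg
  | cons _ _ _ _ ih => exact ih

private theorem pm_GoGA3_change_last {v w : V} {l : List (Γ × Q)} {gl : Γ}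
    (h : IsPath ps at_ G I v l gl w) {gl' : Γ} (h' : gl' ∈ G w) : IsPath ps at_ G I v l gl' w := by
  induction h with
  | nil hg => exact .nil h'
  | cons hg he hv _ ih => exact .cons hg he hv (ih h')

private theorem pm_GoGA3_init {v w : V} {l : List (Γ × Q)} {g gl : Γ} {e : Q}
    (h : IsPath ps at_ G I v (l ++ [(g, e)]) gl w) :
    IsPath ps at_ G I v l g (at_ e) ∧ e ∈ I ∧ w = at_ (ps.bar e) := by
  induction l generalizing v with
  | nil =>
    cases h with
    | cons hg he hv hp =>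
      cases hp with
      | nil hg' => subst hv; exact ⟨.nil hg, he, rfl⟩
  | cons x l ih =>
    cases h with
    | cons hg he hv hp =>
      obtain ⟨h1, h2, h3⟩ := ih hp
      exact ⟨.cons hg he hv h1, h2, h3⟩

private theorem pm_GoGA3_conj {g a b : Γ} (h : IsConj g (a * b)) : IsConj g (b * a) :=
  h.trans (isConj_iff.mpr ⟨a⁻¹, by group⟩)

/-- cyclic reduction: every element of `Gn` is conjugate into a vertex group or to the value of a
cyclically reduced closed path -/
theorem class_split [Nonempty V] (H : GH ps at_ G S I Gn) {g : Γ} (hg : g ∈ Gn) :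
    (∃ v, ∃ g' ∈ G v, IsConj g g') ∨
    (∃ (l : List (Γ × Q)) (v : V), l ≠ [] ∧ IsPath ps at_ G I v l 1 v ∧ (l ++ l).IsChain ps.NB ∧
      ps.pval l ∈ Gn ∧ IsConj g (ps.pval l)) := by
  classical
  let P : ℕ → Prop := fun n => ∃ (l : List (Γ × Q)) (v : V) (gl : Γ), l.length = n ∧
    IsPath ps at_ G I v l gl v ∧ IsConj g (ps.pval l * gl)
  have hP : ∃ n, P n := by
    obtain ⟨v⟩ := ‹Nonempty V›
    obtain ⟨l, gl, h1, h2⟩ := paths_exist H v v hg
    exact ⟨_, l, v, gl, rfl, h1, by rw [h2]⟩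
  obtain ⟨l, v, gl, hn, hp, hc⟩ := Nat.find_spec hP
  have hmin : ∀ (l' : List (Γ × Q)) (v' : V) (gl' : Γ), IsPath ps at_ G I v' l' gl' v' →
      IsConj g (ps.pval l' * gl') → l.length ≤ l'.length := by
    intro l' v' gl' h1 h2
    rw [hn]
    exact Nat.find_min' hP ⟨l', v', gl', rfl, h1, h2⟩
  have hglm := pm_GoGA3_last_mem hp
  cases hp with
  | nil hg' =>
    left
    exact ⟨v, gl, hg', by simpa [PS.pval] using hc⟩
  | @cons _ _ g1 gl e l₁ hg1 he hv hp1 =>
    right
    -- the closed path with last element `1`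
    have hp' : IsPath ps at_ G I v ((gl * g1, e) :: l₁) 1 v :=
      .cons (mul_mem hglm hg1) he hv (pm_GoGA3_change_last hp1 (one_mem _))
    have hval : IsConj g (ps.pval ((gl * g1, e) :: l₁)) := by
      have := pm_GoGA3_conj hc
      simp only [pm_GoGA2_pval_cons, ← mul_assoc] at this ⊢
      exact this
    have hlen : ((gl * g1, e) :: l₁).length = ((g1, e) :: l₁).length := rfl
    set g1' := gl * g1 with hg1'
    refine ⟨(g1', e) :: l₁, v, by simp, hp', ?_, by simpa using path_mem H hp', hval⟩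
    have hred : ps.Red ((g1', e) :: l₁) := by
      by_contra hr
      obtain ⟨l', gl', h1, h2, h3⟩ := pm_GoGA2_shorten H hp' hr
      have := hmin l' v gl' h1 (by rw [h2, mul_one]; exact hval)
      rw [← hlen] at this
      omega
    rw [List.isChain_append]
    refine ⟨hred, hred, ?_⟩
    intro x hx y hy
    simp only [List.head?_cons, Option.mem_def, Option.some.injEq] at hy
    subst hy
    intro hb hz
    simp only at hb hz
    -- `e = bar x.2`, `g1' ∈ zpowers (c (bar x.2))`
    rcases List.eq_nil_or_concat l₁ with hl | ⟨mid, z, hl⟩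
    · subst hl
      simp only [List.getLast?_singleton, Option.mem_def, Option.some.injEq] at hx
      subst hx
      exact ps.bar_ne e hb.symm
    · rw [List.concat_eq_append] at hl
      subst hl
      have hxz : z = x := by
        rw [← List.cons_append, List.getLast?_append] at hx
        simpa using hx
      subst hxz
      obtain ⟨gm, em⟩ := z
      simp only at hb hz
      cases hp' with
      | cons _ _ _ hp2 =>
        obtain ⟨h1, h2, h3⟩ := pm_GoGA3_init hp2
        have hce : at_ (ps.bar e) = at_ em := by rw [hb, ps.bar_bar]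
        rw [hce] at h1
        have hcr := pm_GoGA2_cross H h2 hz
        have hgm := pm_GoGA3_last_mem h1
        have h4 := pm_GoGA3_change_last h1 (mul_mem hgm hcr)
        have h5 : IsConj g (ps.pval mid * (gm * (ps.t em * g1' * ps.t (ps.bar em)))) := by
          have h6 : ps.pval ((g1', e) :: (mid ++ [(gm, em)])) =
              (g1' * ps.t e) * (ps.pval mid * (gm * ps.t em)) := by
            simp only [pm_GoGA2_pval_cons, pm_GoGA2_pval_append]
            simp [PS.pval]
          rw [h6] at hval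
          have := pm_GoGA3_conj hval
          rw [← hb]
          simpa only [mul_assoc] using this
        have := hmin mid _ _ h4 h5
        simp at this

end PM3
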