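import Pool.Agent.LibPM3.MatA

/-! [PM3 M2] products of balanced matrices and diagonals. -/

namespace PM3
open Matrix Filter Topology

theorem mn_le (A : M3) (i j : Fin 3) : mn A ≤ A i j :=
  ciInf_le (f := fun p : Fin 3 × Fin 3 => A p.1 p.2) (Set.finite_range _).bddBelow (i, j)

theorem le_mx (A : M3) (i j : Fin 3) : A i j ≤ mx A :=
  le_ciSup (f := fun p : Fin 3 × Fin 3 => A p.1 p.2) (Set.finite_range _).bddAbove (i, j)

theorem exists_mn (A : M3) : ∃ i j, mn A = A i j := by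
  obtain ⟨p, hp⟩ := exists_eq_ciInf_of_finite (f := fun p : Fin 3 × Fin 3 => A p.1 p.2)
  exact ⟨p.1, p.2, hp.symm⟩

theorem exists_mx (A : M3) : ∃ i j, mx A = A i j := by
  obtain ⟨p, hp⟩ := exists_eq_ciSup_of_finite (f := fun p : Fin 3 × Fin 3 => A p.1 p.2)
  exact ⟨p.1, p.2, hp.symm⟩

theorem le_mxd (d : Fin 3 → ℝ) (i : Fin 3) : d i ≤ mxd d := by
  unfold mxd
  fin_cases i
  · exact le_max_left _ _
  · exact (le_max_left _ _).trans (le_max_right _ _)
  · exact (le_max_right _ _).trans (le_max_right _ _)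

theorem exists_mxd (d : Fin 3 → ℝ) : ∃ i, mxd d = d i := by
  unfold mxd
  rcases max_choice (d 0) (max (d 1) (d 2)) with h | h
  · exact ⟨0, h⟩
  · rcases max_choice (d 1) (d 2) with h' | h'
    · exact ⟨1, h.trans h'⟩
    · exact ⟨2, h.trans h'⟩

theorem one_le_mxd {d : Fin 3 → ℝ} (h : PosD d) : 1 ≤ mxd d := by
  by_contra hc
  push Not at hc
  have h0 := (le_mxd d 0).trans_lt hc
  have h1 := (le_mxd d 1).trans_lt hc
  have h2 := (le_mxd d 2).trans_lt hc
  have e := h.2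
  have p0 := h.1 0
  have p1 := h.1 1
  have p2 := h.1 2
  have a : d 0 * d 1 < 1 := by nlinarith
  have b : d 0 * d 1 * d 2 < 1 := by nlinarith [mul_pos p0 p1]
  linarith

private theorem pm_MatB_mn_pos {A : M3} (h : ∀ i j, 0 < A i j) : 0 < mn A := by
  obtain ⟨i, j, e⟩ := exists_mn A
  rw [e]
  exact h i j

private theorem pm_MatB_mx_pos {A : M3} (h : ∀ i j, 0 < A i j) : 0 < mx A :=
  (h 0 0).trans_le (le_mx A 0 0)

private theorem pm_MatB_mxd_pos {d : Fin 3 → ℝ} (h : PosD d) : 0 < mxd d :=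
  (h.1 0).trans_le (le_mxd d 0)

theorem Bal.mn_pos {K κ : ℝ} {A : M3} (h : Bal K κ A) : 0 < mn A := pm_MatB_mn_pos h.pos

theorem Bal.one_le {K κ : ℝ} {A : M3} (h : Bal K κ A) : 1 ≤ K := by
  have h1 := h.row 0 0 0
  have h2 := h.pos 0 0
  by_contra hc
  push Not at hc
  nlinarith

/-- all entries of a balanced matrix are comparable -/
theorem Bal.mx_le {K κ : ℝ} {A : M3} (h : Bal K κ A) : mx A ≤ K ^ 2 * mn A := by
  obtain ⟨i, j, e⟩ := exists_mx A
  obtain ⟨i', j', e'⟩ := exists_mn A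
  rw [e, e']
  have h1 := h.row i i' j
  have h2 := mul_le_mul_of_nonneg_left (h.col i' j j') (zero_le_one.trans h.one_le)
  calc A i j ≤ K * A i' j := h1
    _ ≤ K * (K * A i' j') := h2
    _ = K ^ 2 * A i' j' := by ring

/-- the largest entry of a matrix with diagonal product `≥ 1+κ` -/
theorem Bal.dp_le {K κ : ℝ} {A : M3} (h : Bal K κ A) : 1 + κ ≤ mx A ^ 3 := by
  refine h.dp_ge.trans ?_
  have h0 := le_mx A 0 0
  have h1 := le_mx A 1 1
  have h2 := le_mx A 2 2
  have hm := (pm_MatB_mx_pos h.pos).le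
  calc dp A = A 0 0 * A 1 1 * A 2 2 := rfl
    _ ≤ mx A * mx A * mx A :=
      mul_le_mul (mul_le_mul h0 h1 (h.pos 1 1).le hm) h2 (h.pos 2 2).le (mul_nonneg hm hm)
    _ = mx A ^ 3 := by ring

private theorem pm_MatB_entry (A B : M3) (d : Fin 3 → ℝ) (i j : Fin 3) :
    (A * diagonal d * B) i j = ∑ k, A i k * d k * B k j := by
  rw [Matrix.mul_apply]
  refine Finset.sum_congr rfl fun k _ => ?_
  rw [Matrix.mul_diagonal]

private theorem pm_MatB_pos {A B : M3} {d : Fin 3 → ℝ} (hA : ∀ i j, 0 < A i j) (hd : PosD d)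
    (hB : ∀ i j, 0 < B i j) (i j : Fin 3) : 0 < (A * diagonal d * B) i j := by
  rw [pm_MatB_entry]
  exact Finset.sum_pos (fun k _ => mul_pos (mul_pos (hA i k) (hd.1 k)) (hB k j))
    Finset.univ_nonempty

/-- the diagonal product is supermultiplicative -/
theorem dp_mul {A B : M3} {d : Fin 3 → ℝ} (hA : ∀ i j, 0 < A i j) (hd : PosD d)
    (hB : ∀ i j, 0 < B i j) : dp A * dp B ≤ dp (A * diagonal d * B) := by
  have h1 : ∀ i, A i i * d i * B i i ≤ (A * diagonal d * B) i i := by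
    intro i
    rw [pm_MatB_entry]
    exact Finset.single_le_sum (f := fun k => A i k * d k * B k i)
      (fun k _ => (mul_pos (mul_pos (hA i k) (hd.1 k)) (hB k i)).le) (Finset.mem_univ i)
  have p : ∀ i, 0 < A i i * d i * B i i := fun i => mul_pos (mul_pos (hA i i) (hd.1 i)) (hB i i)
  have q : ∀ i, 0 < (A * diagonal d * B) i i := fun i => pm_MatB_pos hA hd hB i i
  have e : dp A * dp B = (A 0 0 * d 0 * B 0 0) * (A 1 1 * d 1 * B 1 1) * (A 2 2 * d 2 * B 2 2) := by
    unfold dp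
    linear_combination (-(A 0 0 * A 1 1 * A 2 2 * (B 0 0 * B 1 1 * B 2 2))) * hd.2
  rw [e]
  exact mul_le_mul (mul_le_mul (h1 0) (h1 1) (p 1).le (q 0).le) (h1 2) (p 2).le
    (mul_nonneg (q 0).le (q 1).le)

/-- `A D B` is balanced with the same constant -/
theorem Bal.mul {K κ : ℝ} (hκ : 0 ≤ κ) {A B : M3} {d : Fin 3 → ℝ} (hA : Bal K κ A) (hd : PosD d)
    (hB : Bal K κ B) : Bal K κ (A * diagonal d * B) := by
  refine ⟨pm_MatB_pos hA.pos hd hB.pos, fun i i' j => ?_, fun i j j' => ?_, ?_⟩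
  · rw [pm_MatB_entry, pm_MatB_entry, Finset.mul_sum]
    refine Finset.sum_le_sum fun k _ => ?_
    have h := mul_le_mul_of_nonneg_right (hA.row i i' k) (mul_pos (hd.1 k) (hB.pos k j)).le
    linarith
  · rw [pm_MatB_entry, pm_MatB_entry, Finset.mul_sum]
    refine Finset.sum_le_sum fun k _ => ?_
    have h := mul_le_mul_of_nonneg_left (hB.col k j j') (mul_pos (hA.pos i k) (hd.1 k)).le
    linarith
  · refine le_trans ?_ (dp_mul hA.pos hd hB.pos)
    have a := hA.dp_ge
    have b := hB.dp_ge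
    have c := mul_le_mul a b (by linarith) (by linarith)
    nlinarith

theorem mn_mul {A B : M3} {d : Fin 3 → ℝ} (hA : ∀ i j, 0 < A i j) (hd : PosD d)
    (hB : ∀ i j, 0 < B i j) : mn A * mxd d * mn B ≤ mn (A * diagonal d * B) := by
  obtain ⟨i, j, e⟩ := exists_mn (A * diagonal d * B)
  obtain ⟨k, ek⟩ := exists_mxd d
  rw [e, pm_MatB_entry, ek]
  refine le_trans ?_ (Finset.single_le_sum (f := fun k => A i k * d k * B k j)
      (fun k _ => (mul_pos (mul_pos (hA i k) (hd.1 k)) (hB k j)).le) (Finset.mem_univ k))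
  exact mul_le_mul (mul_le_mul_of_nonneg_right (mn_le A i k) (hd.1 k).le) (mn_le B k j)
    (pm_MatB_mn_pos hB).le (mul_pos (hA i k) (hd.1 k)).le

theorem mx_mul {A B : M3} {d : Fin 3 → ℝ} (hA : ∀ i j, 0 < A i j) (hd : PosD d)
    (hB : ∀ i j, 0 < B i j) : mx (A * diagonal d * B) ≤ 3 * (mx A * mxd d * mx B) := by
  obtain ⟨i, j, e⟩ := exists_mx (A * diagonal d * B)
  rw [e, pm_MatB_entry]
  have h : ∀ k ∈ Finset.univ, A i k * d k * B k j ≤ mx A * mxd d * mx B := by
    intro k _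
    exact mul_le_mul (mul_le_mul (le_mx A i k) (le_mxd d k) (hd.1 k).le (pm_MatB_mx_pos hA).le)
      (le_mx B k j) (hB k j).le (mul_pos (pm_MatB_mx_pos hA) (pm_MatB_mxd_pos hd)).le
  have h2 := Finset.sum_le_sum h
  simpa using h2

/-- a word `B₀ D₁ B₁ ⋯ D_l B_l` of balanced matrices is balanced -/
theorem Bal.word {K κ : ℝ} (hκ : 0 ≤ κ) {A : M3} (hA : Bal K κ A)
    (l : List ((Fin 3 → ℝ) × M3)) (hl : ∀ x ∈ l, PosD x.1 ∧ Bal K κ x.2) :
    Bal K κ (A * prodL l) ∧ dp A * (l.map (fun x => dp x.2)).prod ≤ dp (A * prodL l) ∧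
    mn A * (l.map (fun x => mxd x.1 * mn x.2)).prod ≤ mn (A * prodL l) ∧
    mx (A * prodL l) ≤ mx A * (l.map (fun x => 3 * (mxd x.1 * mx x.2))).prod := by
  induction l generalizing A with
  | nil => simp [prodL, hA]
  | cons x l ih =>
    have hx := hl x (by simp)
    have hl' : ∀ y ∈ l, PosD y.1 ∧ Bal K κ y.2 := fun y hy => hl y (by simp [hy])
    have e : A * prodL (x :: l) = (A * diagonal x.1 * x.2) * prodL l := by
      simp only [prodL, List.map_cons, List.prod_cons, Matrix.mul_assoc]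
    have hA' := Bal.mul hκ hA hx.1 hx.2
    obtain ⟨i1, i2, i3, i4⟩ := ih hA' hl'
    rw [e]
    have q1 : 0 ≤ (l.map (fun x => dp x.2)).prod := by
      refine List.prod_nonneg fun y hy => ?_
      rw [List.mem_map] at hy
      obtain ⟨z, hz, rfl⟩ := hy
      have := (hl' z hz).2.dp_ge
      linarith
    have q2 : 0 ≤ (l.map (fun x => mxd x.1 * mn x.2)).prod := by
      refine List.prod_nonneg fun y hy => ?_
      rw [List.mem_map] at hy
      obtain ⟨z, hz, rfl⟩ := hy
      exact mul_nonneg (pm_MatB_mxd_pos (hl' z hz).1).le (hl' z hz).2.mn_pos.le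
    have q3 : 0 ≤ (l.map (fun x => 3 * (mxd x.1 * mx x.2))).prod := by
      refine List.prod_nonneg fun y hy => ?_
      rw [List.mem_map] at hy
      obtain ⟨z, hz, rfl⟩ := hy
      exact mul_nonneg (by norm_num)
        (mul_nonneg (pm_MatB_mxd_pos (hl' z hz).1).le (pm_MatB_mx_pos (hl' z hz).2.pos).le)
    refine ⟨i1, ?_, ?_, ?_⟩
    · rw [List.map_cons, List.prod_cons, ← mul_assoc]
      exact (mul_le_mul_of_nonneg_right (dp_mul hA.pos hx.1 hx.2.pos) q1).trans i2
    · rw [List.map_cons, List.prod_cons, ← mul_assoc, ← mul_assoc]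
      exact (mul_le_mul_of_nonneg_right (mn_mul hA.pos hx.1 hx.2.pos) q2).trans i3
    · rw [List.map_cons, List.prod_cons]
      refine i4.trans ?_
      have := mul_le_mul_of_nonneg_right (mx_mul hA.pos hx.1 hx.2.pos) q3
      refine this.trans (le_of_eq ?_)
      ring

private theorem pm_MatB_cons (x : (Fin 3 → ℝ) × M3) (l : List ((Fin 3 → ℝ) × M3)) :
    prodL (x :: l) = diagonal x.1 * (x.2 * prodL l) := by
  simp only [prodL, List.map_cons, List.prod_cons, Matrix.mul_assoc]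

/-- cyclic products, lower bound through the largest diagonal entries -/
theorem lam_cyc_ge {K κ : ℝ} (hκ : 0 ≤ κ) (l : List ((Fin 3 → ℝ) × M3)) (hne : l ≠ [])
    (hl : ∀ x ∈ l, PosD x.1 ∧ Bal K κ x.2) :
    (l.map (fun x => mxd x.1 * mn x.2)).prod ≤ lam (prodL l) := by
  match l, hne with
  | x :: l, _ =>
    have hx := hl x (by simp)
    have hl' : ∀ y ∈ l, PosD y.1 ∧ Bal K κ y.2 := fun y hy => hl y (by simp [hy])
    obtain ⟨i1, i2, i3, i4⟩ := Bal.word hκ hx.2 l hl'
    rw [pm_MatB_cons, List.map_cons, List.prod_cons]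
    obtain ⟨k, ek⟩ := exists_mxd x.1
    have hnn : ∀ i j, 0 ≤ (diagonal x.1 * (x.2 * prodL l)) i j := by
      intro i j
      rw [Matrix.diagonal_mul]
      exact (mul_pos (hx.1.1 i) (i1.pos i j)).le
    refine le_trans ?_ (diag_le_lam hnn k)
    rw [Matrix.diagonal_mul, mul_assoc, ek]
    exact mul_le_mul_of_nonneg_left (i3.trans (mn_le _ k k)) (hx.1.1 k).le

/-- cyclic products, lower bound through the diagonal products (independent of the diagonals) -/
theorem lam_cyc_ge' {K κ : ℝ} (hκ : 0 ≤ κ) (l : List ((Fin 3 → ℝ) × M3))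
    (hl : ∀ x ∈ l, PosD x.1 ∧ Bal K κ x.2) :
    (l.map (fun x => dp x.2)).prod ≤ lam (prodL l) ^ 3 := by
  match l with
  | [] => simp [prodL, lam_one]
  | x :: l =>
    have hx := hl x (by simp)
    have hl' : ∀ y ∈ l, PosD y.1 ∧ Bal K κ y.2 := fun y hy => hl y (by simp [hy])
    obtain ⟨i1, i2, i3, i4⟩ := Bal.word hκ hx.2 l hl'
    rw [pm_MatB_cons, List.map_cons, List.prod_cons]
    have hnn : ∀ i j, 0 ≤ (diagonal x.1 * (x.2 * prodL l)) i j := by
      intro i j
      rw [Matrix.diagonal_mul]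
      exact (mul_pos (hx.1.1 i) (i1.pos i j)).le
    have h0 := diag_le_lam hnn 0
    have h1 := diag_le_lam hnn 1
    have h2 := diag_le_lam hnn 2
    rw [Matrix.diagonal_mul] at h0 h1 h2
    refine i2.trans ?_
    have e : dp (x.2 * prodL l) = (x.1 0 * (x.2 * prodL l) 0 0) * (x.1 1 * (x.2 * prodL l) 1 1) *
        (x.1 2 * (x.2 * prodL l) 2 2) := by
      unfold dp
      linear_combination (-((x.2 * prodL l) 0 0 * (x.2 * prodL l) 1 1 * (x.2 * prodL l) 2 2)) * hx.1.2
    rw [e]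
    have hL := lam_nonneg (diagonal x.1 * (x.2 * prodL l))
    calc _ ≤ lam (diagonal x.1 * (x.2 * prodL l)) * lam (diagonal x.1 * (x.2 * prodL l)) *
          lam (diagonal x.1 * (x.2 * prodL l)) :=
        mul_le_mul (mul_le_mul h0 h1 (mul_pos (hx.1.1 1) (i1.pos 1 1)).le hL) h2
          (mul_pos (hx.1.1 2) (i1.pos 2 2)).le (mul_nonneg hL hL)
      _ = _ := by ring

/-- cyclic products: norm against spectral radius -/
theorem nrm_cyc_le {K κ : ℝ} (hκ : 0 ≤ κ) (l : List ((Fin 3 → ℝ) × M3)) (hne : l ≠ [])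
    (hl : ∀ x ∈ l, PosD x.1 ∧ Bal K κ x.2) :
    nrm (prodL l) ≤ 9 * K ^ 2 * lam (prodL l) := by
  match l, hne with
  | x :: l, _ =>
    have hx := hl x (by simp)
    have hl' : ∀ y ∈ l, PosD y.1 ∧ Bal K κ y.2 := fun y hy => hl y (by simp [hy])
    obtain ⟨i1, i2, i3, i4⟩ := Bal.word hκ hx.2 l hl'
    rw [pm_MatB_cons]
    obtain ⟨k, ek⟩ := exists_mxd x.1
    have hnn : ∀ i j, 0 ≤ (diagonal x.1 * (x.2 * prodL l)) i j := by
      intro i j
      rw [Matrix.diagonal_mul]
      exact (mul_pos (hx.1.1 i) (i1.pos i j)).le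
    have h1 := diag_le_lam hnn k
    rw [Matrix.diagonal_mul] at h1
    have h2 : mxd x.1 * mn (x.2 * prodL l) ≤ lam (diagonal x.1 * (x.2 * prodL l)) := by
      rw [ek]
      exact (mul_le_mul_of_nonneg_left (mn_le _ k k) (hx.1.1 k).le).trans h1
    have h3 : nrm (diagonal x.1 * (x.2 * prodL l)) ≤ 9 * (mxd x.1 * mx (x.2 * prodL l)) := by
      have h : ∀ i ∈ Finset.univ, ∑ j, |(diagonal x.1 * (x.2 * prodL l)) i j| ≤
          3 * (mxd x.1 * mx (x.2 * prodL l)) := by
        intro i _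
        have h' : ∀ j ∈ Finset.univ, |(diagonal x.1 * (x.2 * prodL l)) i j| ≤
            mxd x.1 * mx (x.2 * prodL l) := by
          intro j _
          rw [abs_of_nonneg (hnn i j), Matrix.diagonal_mul]
          exact mul_le_mul (le_mxd _ i) (le_mx _ i j) (i1.pos i j).le (pm_MatB_mxd_pos hx.1).le
        simpa using Finset.sum_le_sum h'
      have h'' := Finset.sum_le_sum h
      have h4 : nrm (diagonal x.1 * (x.2 * prodL l)) ≤
          ∑ _i : Fin 3, 3 * (mxd x.1 * mx (x.2 * prodL l)) := h''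
      refine h4.trans (le_of_eq ?_)
      rw [Finset.sum_const, Finset.card_univ, Fintype.card_fin, nsmul_eq_mul]
      push_cast
      ring
    have h5 := mul_le_mul_of_nonneg_left i1.mx_le (pm_MatB_mxd_pos hx.1).le
    have h6 := mul_le_mul_of_nonneg_left h2 (by positivity : (0 : ℝ) ≤ 9 * K ^ 2)
    nlinarith

theorem nrm_le_mx {A : M3} (hA : ∀ i j, 0 < A i j) : mx A ≤ nrm A ∧ nrm A ≤ 9 * mx A := by
  constructor
  · obtain ⟨i, j, e⟩ := exists_mx A
    rw [e]
    refine (le_abs_self _).trans ?_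
    refine (Finset.single_le_sum (f := fun j => |A i j|) (fun _ _ => abs_nonneg _)
      (Finset.mem_univ j)).trans ?_
    exact Finset.single_le_sum (f := fun i => ∑ j, |A i j|)
      (fun k' _ => Finset.sum_nonneg fun _ _ => abs_nonneg _) (Finset.mem_univ i)
  · have h : ∀ i ∈ Finset.univ, ∑ j, |A i j| ≤ 3 * mx A := by
      intro i _
      have h' : ∀ j ∈ Finset.univ, |A i j| ≤ mx A := by
        intro j _
        rw [abs_of_pos (hA i j)]
        exact le_mx A i j
      simpa using Finset.sum_le_sum h'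
    have h4 : nrm A ≤ ∑ _i : Fin 3, 3 * mx A := Finset.sum_le_sum h
    refine h4.trans (le_of_eq ?_)
    rw [Finset.sum_const, Finset.card_univ, Fintype.card_fin, nsmul_eq_mul]
    push_cast
    ring

end PM3
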