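import Pool.Agent.LibPM3.GoGA
import Pool.Agent.LibPM3.MatB

/-! [PM3 GoGB] transition matrices along paths; the vertex condition for the glued group. -/

namespace PM3
open Matrix Filter Topology

variable {Γ Z Q V : Type} [Group Γ] {ps : PS Γ Z Q} {at_ : Q → V} {G : V → Subgroup Γ} {S : V → Set Q}
  {I : Set Q} {Gn : Subgroup Γ}

theorem J3_mul_J3 : J3 * J3 = 1 := by
  ext i j
  fin_cases i <;> fin_cases j <;> simp [J3, Matrix.mul_apply, Fin.sum_univ_three]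

theorem Cd_add (L : ℝ) (k m : ℤ) : Cd L (k + m) = Cd L k * Cd L m := by
  unfold Cd
  rw [diagonal_mul_diagonal]
  congr 1
  ext i
  fin_cases i
  · simp only [Fin.zero_eta, cons_val_zero]
    rw [← Real.exp_add]
    congr 1
    push_cast
    ring
  · simp
  · simp only [Fin.reduceFinMk, cons_val]
    rw [← Real.exp_add]
    congr 1
    push_cast
    ring

private theorem pm_GoGB1_Cd_zero (L : ℝ) : Cd L 0 = 1 := by
  unfold Cd
  ext i j
  fin_cases i <;> fin_cases j <;> simp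

theorem J3_Cd (L : ℝ) (k : ℤ) : J3 * Cd L k * J3 = Cd L (-k) := by
  unfold Cd J3
  ext i j
  simp only [Matrix.mul_apply, Fin.sum_univ_three, diagonal_apply]
  fin_cases i <;> fin_cases j <;> simp

/-- `Cd k * diagonal (D0) * Cd m` is the crossing diagonal with twist `k + m` -/
theorem Cd_D0_Cd (ps : PS Γ Z Q) (p : Q) (z : Z) (k m : ℤ) :
    Cd (ps.L p) k * diagonal (ps.D0 p z) * Cd (ps.L p) m = diagonal (ps.Dl p (k + m) z) := by
  unfold Cd PS.Dl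
  rw [diagonal_mul_diagonal, diagonal_mul_diagonal]
  congr 1
  ext i
  fin_cases i
  · simp only [Fin.zero_eta, cons_val_zero]
    have e : Real.exp (-(((k + m : ℤ) : ℝ) * ps.L p)) =
        Real.exp (-(k * ps.L p)) * Real.exp (-(m * ps.L p)) := by
      rw [← Real.exp_add]; congr 1; push_cast; ring
    rw [e]; ring
  · simp
  · simp only [Fin.reduceFinMk, cons_val]
    have e : Real.exp (((k + m : ℤ) : ℝ) * ps.L p) =
        Real.exp (k * ps.L p) * Real.exp (m * ps.L p) := by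
      rw [← Real.exp_add]; congr 1; push_cast; ring
    rw [e]; ring

theorem Dl_pos (ps : PS Γ Z Q) (p : Q) (k : ℤ) (z : Z) : PosD (ps.Dl p k z) := by
  obtain ⟨h1, h2⟩ := ps.D0_pos p z
  constructor
  · intro i
    unfold PS.Dl
    apply mul_pos (h1 i)
    fin_cases i
    · simpa using Real.exp_pos _
    · simp
    · simpa using Real.exp_pos _
  · have e : Real.exp (-(k * ps.L p)) * Real.exp (k * ps.L p) = 1 := by
      rw [← Real.exp_add]; simp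
    simp only [PS.Dl, cons_val_zero, cons_val_one, cons_val]
    calc ps.D0 p z 0 * Real.exp (-(k * ps.L p)) * (ps.D0 p z 1 * 1) *
          (ps.D0 p z 2 * Real.exp (k * ps.L p))
        = (ps.D0 p z 0 * ps.D0 p z 1 * ps.D0 p z 2) *
          (Real.exp (-(k * ps.L p)) * Real.exp (k * ps.L p)) := by ring
      _ = 1 := by rw [h2, e]; ring

private theorem pm_GoGB1_inv_mul (g : GL (Fin 3) ℝ) :
    ((g⁻¹ : GL (Fin 3) ℝ) : M3) * (g : M3) = 1 := by
  rw [← Units.val_mul]; simp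

private theorem pm_GoGB1_mul_inv (g : GL (Fin 3) ℝ) :
    (g : M3) * ((g⁻¹ : GL (Fin 3) ℝ) : M3) = 1 := by
  rw [← Units.val_mul]; simp

private theorem pm_GoGB1_zpow (ps : PS Γ Z Q) (p : Q) (z : Z) (k : ℤ) :
    (ps.r z ((ps.c p) ^ k) : M3) * (ps.F p z : M3) = (ps.F p z : M3) * Cd (ps.L p) k := by
  induction k using Int.induction_on with
  | zero => simp [pm_GoGB1_Cd_zero]
  | succ n ih =>
    rw [_root_.zpow_add_one, map_mul, Units.val_mul, mul_assoc, ps.rc, ← mul_assoc, ih, mul_assoc,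
      ← Cd_add]
  | pred n ih =>
    have hinv : (ps.r z (ps.c p)⁻¹ : M3) * (ps.F p z : M3) =
        (ps.F p z : M3) * Cd (ps.L p) (-1) := by
      have h1 := ps.rc p z
      have h2 : (ps.r z (ps.c p)⁻¹ : M3) * ((ps.r z (ps.c p) : M3) * (ps.F p z : M3)) =
          (ps.F p z : M3) := by
        rw [← mul_assoc, ← Units.val_mul, ← map_mul]
        simp
      rw [h1] at h2
      have h3 : (ps.r z (ps.c p)⁻¹ : M3) * ((ps.F p z : M3) * Cd (ps.L p) 1) * Cd (ps.L p) (-1) =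
          (ps.F p z : M3) * Cd (ps.L p) (-1) := congrArg (fun A => A * Cd (ps.L p) (-1)) h2
      rw [mul_assoc, mul_assoc, ← Cd_add, show (1 : ℤ) + -1 = 0 by norm_num, pm_GoGB1_Cd_zero,
        mul_one] at h3
      exact h3
    rw [_root_.zpow_sub_one, map_mul, Units.val_mul, mul_assoc, hinv, ← mul_assoc, ih, mul_assoc,
      ← Cd_add]
    congr 1

private theorem pm_GoGB1_inv_zpow (ps : PS Γ Z Q) (p : Q) (z : Z) (k : ℤ) :
    (((ps.F p z)⁻¹ : GL (Fin 3) ℝ) : M3) * (ps.r z ((ps.c p) ^ k) : M3) =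
      Cd (ps.L p) k * (((ps.F p z)⁻¹ : GL (Fin 3) ℝ) : M3) := by
  have h := pm_GoGB1_zpow ps p z k
  have h2 : (((ps.F p z)⁻¹ : GL (Fin 3) ℝ) : M3) * ((ps.r z ((ps.c p) ^ k) : M3) * (ps.F p z : M3)) *
      (((ps.F p z)⁻¹ : GL (Fin 3) ℝ) : M3) = (((ps.F p z)⁻¹ : GL (Fin 3) ℝ) : M3) *
      ((ps.F p z : M3) * Cd (ps.L p) k) * (((ps.F p z)⁻¹ : GL (Fin 3) ℝ) : M3) :=
    congrArg (fun A => (((ps.F p z)⁻¹ : GL (Fin 3) ℝ) : M3) * A *
    (((ps.F p z)⁻¹ : GL (Fin 3) ℝ) : M3)) h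
  calc (((ps.F p z)⁻¹ : GL (Fin 3) ℝ) : M3) * (ps.r z ((ps.c p) ^ k) : M3)
      = (((ps.F p z)⁻¹ : GL (Fin 3) ℝ) : M3) * ((ps.r z ((ps.c p) ^ k) : M3) * (ps.F p z : M3)) *
        (((ps.F p z)⁻¹ : GL (Fin 3) ℝ) : M3) := by
        rw [mul_assoc, mul_assoc, pm_GoGB1_mul_inv, mul_one]
    _ = _ := h2
    _ = _ := by rw [← mul_assoc, pm_GoGB1_inv_mul, one_mul]

private theorem pm_GoGB1_Cd_J3 (L : ℝ) (k : ℤ) : Cd L k * J3 = J3 * Cd L (-k) := by
  rw [← J3_Cd, ← mul_assoc, ← mul_assoc, J3_mul_J3, one_mul]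

/-- powers of the boundary elements -/
theorem TT_c (ps : PS Γ Z Q) (z : Z) (p q : Q) (g : Γ) (k m : ℤ) :
    ps.TT z p ((ps.c p) ^ k * g * (ps.c q) ^ m) q = Cd (ps.L p) k * ps.TT z p g q * Cd (ps.L q) (-m) := by
  unfold PS.TT
  rw [map_mul, map_mul, Units.val_mul, Units.val_mul]
  calc (((ps.F p z)⁻¹ : GL (Fin 3) ℝ) : M3) * ((ps.r z (ps.c p ^ k) : M3) * (ps.r z g : M3) *
        (ps.r z (ps.c q ^ m) : M3)) * (ps.F q z : M3) * J3
      = ((((ps.F p z)⁻¹ : GL (Fin 3) ℝ) : M3) * (ps.r z (ps.c p ^ k) : M3)) * (ps.r z g : M3) *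
        ((ps.r z (ps.c q ^ m) : M3) * (ps.F q z : M3)) * J3 := by simp only [mul_assoc]
    _ = (Cd (ps.L p) k * (((ps.F p z)⁻¹ : GL (Fin 3) ℝ) : M3)) * (ps.r z g : M3) *
        ((ps.F q z : M3) * Cd (ps.L q) m) * J3 := by
        rw [pm_GoGB1_inv_zpow, pm_GoGB1_zpow]
    _ = Cd (ps.L p) k * ((((ps.F p z)⁻¹ : GL (Fin 3) ℝ) : M3) * (ps.r z g : M3) *
        (ps.F q z : M3)) * (Cd (ps.L q) m * J3) := by simp only [mul_assoc]
    _ = _ := by rw [pm_GoGB1_Cd_J3]; simp only [mul_assoc]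

/-- crossing the port `e` -/
theorem TT_cross (ps : PS Γ Z Q) (z : Z) (p e q : Q) (g g' : Γ) :
    ps.TT z p (g * ps.t e * g') q =
      ps.TT z p g e * diagonal (ps.D0 e z) * ps.TT z (ps.bar e) g' q := by
  have ht : (ps.r z (ps.t e) : M3) = (ps.F e z : M3) * J3 * diagonal (ps.D0 e z) *
      (((ps.F (ps.bar e) z)⁻¹ : GL (Fin 3) ℝ) : M3) := by
    rw [← ps.glue e z, mul_assoc, pm_GoGB1_mul_inv, mul_one]
  unfold PS.TT
  rw [map_mul, map_mul, Units.val_mul, Units.val_mul, ht]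
  simp only [mul_assoc]

/-- the transition of a power of `c p` is not positive -/
theorem TT_degenerate (ps : PS Γ Z Q) (z : Z) (p : Q) {g : Γ} (hg : g ∈ Subgroup.zpowers (ps.c p)) :
    ps.TT z p g p 0 0 = 0 := by
  obtain ⟨k, rfl⟩ := Subgroup.mem_zpowers_iff.mp hg
  unfold PS.TT
  rw [mul_assoc (((ps.F p z)⁻¹ : GL (Fin 3) ℝ) : M3), pm_GoGB1_zpow, ← mul_assoc,
    pm_GoGB1_inv_mul, one_mul]
  simp only [Cd, J3, Matrix.mul_apply, Fin.sum_univ_three, diagonal_apply]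
  simp

/-- words are balanced -/
theorem Word.bal {K κ : ℝ} (hκ : 0 ≤ κ) {Λ : Set Q} {w : Word Q} (h : w.Ok K κ Λ) (ps : PS Γ Z Q) (z : Z) :
    Bal K κ (ps.eval w z) := by
  refine (Bal.word hκ h.1 (w.tl.map (fun x => (ps.Dl x.1 x.2.1 z, x.2.2))) ?_).1
  intro x hx
  obtain ⟨y, hy, rfl⟩ := List.mem_map.mp hx
  exact ⟨Dl_pos ps _ _ _, (h.2 y hy).2⟩

theorem Bal.mono {K K' κ κ' : ℝ} (hK : K ≤ K') (hκ : κ' ≤ κ) {A : M3} (h : Bal K κ A) : Bal K' κ' A where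
  pos := h.pos
  row i i' j := (h.row i i' j).trans (mul_le_mul_of_nonneg_right hK (h.pos i' j).le)
  col i j j' := (h.col i j j').trans (mul_le_mul_of_nonneg_right hK (h.pos i j').le)
  dp_ge := by have := h.dp_ge; linarith

private theorem pm_GoGB1_OkL {K K' κ κ' : ℝ} (hK : K ≤ K') (hκ : κ' ≤ κ) {Λ Λ' : Set Q}
    (hΛ : Λ ⊆ Λ') {l : List (Q × ℤ × M3)} (h : OkL K κ Λ l) : OkL K' κ' Λ' l :=
  fun x hx => ⟨hΛ (h x hx).1, (h x hx).2.mono hK hκ⟩

theorem VC.mono {K K' κ κ' : ℝ} (hK : K ≤ K') (hκ : κ' ≤ κ) {Λ Λ' : Set Q} (hΛ : Λ ⊆ Λ')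
    {G : Subgroup Γ} {S S' : Set Q} (hS : S' ⊆ S) (h : VC ps K κ Λ G S) : VC ps K' κ' Λ' G S' := by
  intro p hp q hq g hg hn
  obtain ⟨k, k', w, hw, he⟩ := h p (hS hp) q (hS hq) g hg hn
  exact ⟨k, k', w, ⟨hw.1.mono hK hκ, pm_GoGB1_OkL hK hκ hΛ hw.2⟩, he⟩

theorem CR.mono {K K' κ κ' : ℝ} (hK : K ≤ K') (hκ : κ' ≤ κ) {Λ Λ' : Set Q} (hΛ : Λ ⊆ Λ')
    {G : Subgroup Γ} {Φ Φ' : Set (Z → GL (Fin 3) ℝ)} (hΦ : Φ ⊆ Φ') (h : CR ps K κ Λ G Φ) :
    CR ps K' κ' Λ' G Φ' := by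
  intro g hg hn
  obtain ⟨γ', h1, h2, φ, h3, cw, h4, h5⟩ := h g hg hn
  refine ⟨γ', h1, h2, φ, hΦ h3, cw, ?_, h5⟩
  cases cw with
  | cst B => exact Bal.mono hK hκ h4
  | cyc l => exact ⟨h4.1, pm_GoGB1_OkL hK hκ hΛ h4.2⟩

theorem pm_GoGB2_evL_append (ps : PS Γ Z Q) (l l' : List (Q × ℤ × M3)) (z : Z) :
    ps.evL (l ++ l') z = ps.evL l z * ps.evL l' z := by
  simp [PS.evL, prodL, List.map_append, List.prod_append]

theorem pm_GoGB2_evL_cons (ps : PS Γ Z Q) (e : Q) (k : ℤ) (B : M3) (l : List (Q × ℤ × M3)) (z : Z) :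
    ps.evL ((e, k, B) :: l) z = diagonal (ps.Dl e k z) * B * ps.evL l z := by
  simp [PS.evL, prodL]

/-- the first transition is not degenerate -/
def pm_GoGB2_ND (ps : PS Γ Z Q) (p q : Q) : List (Γ × Q) → Γ → Prop
  | [], gl => ¬ (p = q ∧ gl ∈ Subgroup.zpowers (ps.c p))
  | x :: _, _ => ¬ (p = x.2 ∧ x.1 ∈ Subgroup.zpowers (ps.c p))

theorem pm_GoGB2_path (H : GH ps at_ G S I Gn) {K κ : ℝ} {Λ : Set Q} (hΛ : I ⊆ Λ)
    (hV : ∀ v, VC ps K κ Λ (G v) (S v)) {q : Q} (hqI : q ∉ I) {v w : V} {l : List (Γ × Q)} {gl : Γ}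
    (h : IsPath ps at_ G I v l gl w) : ps.Red l → q ∈ S w → ∀ p ∈ S v, pm_GoGB2_ND ps p q l gl →
    ∃ (k k' : ℤ) (wd : Word Q), wd.Ok K κ Λ ∧
      ∀ z, ps.TT z p (ps.pval l * gl) q = Cd (ps.L p) k * ps.eval wd z * Cd (ps.L q) k' := by
  induction h with
  | nil hg =>
    intro _ hq p hp hnd
    obtain ⟨k, k', wd, hok, he⟩ := hV _ p hp q hq _ hg hnd
    refine ⟨k, k', wd, hok, fun z => ?_⟩
    simp only [PS.pval, List.map_nil, List.prod_nil, one_mul]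
    exact he z
  | @cons v w g1 gl e l hg he hat hpath ih =>
    intro hred hq p hp hnd
    obtain ⟨hbI, heS⟩ := H.hI e he
    obtain ⟨_, hbS⟩ := H.hI (ps.bar e) hbI
    rw [hat] at heS
    obtain ⟨k1, k1', w1, hok1, he1⟩ := hV v p hp e heS g1 hg hnd
    have hred' : ps.Red l := List.IsChain.tail hred
    have hnd' : pm_GoGB2_ND ps (ps.bar e) q l gl := by
      cases l with
      | nil =>
        rintro ⟨h1, _⟩
        exact hqI (h1 ▸ hbI)
      | cons y l' =>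
        rintro ⟨h1, h2⟩
        have h3 : ps.NB (g1, e) y := (List.isChain_cons_cons.mp hred).1
        exact h3 h1.symm h2
    obtain ⟨k2, k2', w2, hok2, he2⟩ := ih hred' hq (ps.bar e) hbS hnd'
    refine ⟨k1, k2', ⟨w1.hd, w1.tl ++ (e, k1' + k2, w2.hd) :: w2.tl⟩, ⟨hok1.1, ?_⟩, fun z => ?_⟩
    · intro x hx
      rcases List.mem_append.mp hx with hx | hx
      · exact hok1.2 x hx
      · rcases List.mem_cons.mp hx with hx | hx
        · subst hx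
          exact ⟨hΛ he, hok2.1⟩
        · exact hok2.2 x hx
    · have hval : ps.pval ((g1, e) :: l) * gl = g1 * ps.t e * (ps.pval l * gl) := by
        simp [PS.pval, mul_assoc]
      rw [hval, TT_cross, he1 z, he2 z, ps.L_bar]
      have hc := Cd_D0_Cd ps e z k1' k2
      simp only [PS.eval]
      rw [pm_GoGB2_evL_append, pm_GoGB2_evL_cons, ← hc]
      simp only [Matrix.mul_assoc]

/-- the vertex condition is inherited by the glued group -/
theorem VC_glue (H : GH ps at_ G S I Gn) {K κ : ℝ} {Λ : Set Q} (hΛ : I ⊆ Λ)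
    (hV : ∀ v, VC ps K κ Λ (G v) (S v)) (Sn : Set Q) (hSn : ∀ p ∈ Sn, p ∈ S (at_ p) ∧ p ∉ I) :
    VC ps K κ Λ Gn Sn := by
  intro p hp q hq g hg hdeg
  obtain ⟨hpS, hpI⟩ := hSn p hp
  obtain ⟨hqS, hqI⟩ := hSn q hq
  obtain ⟨l, gl, hpath, hval⟩ := paths_exist H (at_ p) (at_ q) hg
  obtain ⟨l', gl', hpath', hred, hval', _⟩ := reduce H hpath
  have hnd : pm_GoGB2_ND ps p q l' gl' := by
    cases l' with
    | nil =>
      have h1 : gl' = g := by
        rw [← hval, ← hval']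
        simp [PS.pval]
      show ¬ (p = q ∧ gl' ∈ Subgroup.zpowers (ps.c p))
      rw [h1]
      exact hdeg
    | cons y l'' =>
      rintro ⟨h1, _⟩
      cases hpath' with
      | cons _ he _ _ => exact hpI (h1 ▸ he)
  obtain ⟨k, k', w, hok, he⟩ := pm_GoGB2_path H hΛ hV hqI hpath' hred hqS p hpS hnd
  refine ⟨k, k', w, hok, fun z => ?_⟩
  rw [← hval, ← hval']
  exact he z

end PM3
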