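import Pool.Agent.LibPM3.GoGB

/-! [PM3 GoGC] representation of conjugacy classes by cyclic words. -/

namespace PM3
open Matrix Filter Topology

noncomputable section

/-- `J3` as an invertible matrix -/
def J3GL : GL (Fin 3) ℝ where
  val := J3
  inv := J3
  val_inv := J3_mul_J3
  inv_val := J3_mul_J3

variable {Γ Z Q V : Type} [Group Γ] {ps : PS Γ Z Q} {at_ : Q → V} {G : V → Subgroup Γ} {S : V → Set Q}
  {I : Set Q} {Gn : Subgroup Γ}

/-- the outer frame of the port `e` -/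
def PS.FJ (ps : PS Γ Z Q) (e : Q) (z : Z) : GL (Fin 3) ℝ := ps.F e z * J3GL

/-- the cyclic word `cw` represents the class `C` -/
def RepBy (ps : PS Γ Z Q) (K κ : ℝ) (Λ : Set Q) (Φ : Set (Z → GL (Fin 3) ℝ)) (C : ConjClasses Γ)
    (cw : CW Q) : Prop :=
  cw.Ok K κ Λ ∧ ∃ γ', ConjClasses.mk γ' = C ∧ ∃ φ ∈ Φ,
    ∀ z, (((φ z)⁻¹ : GL (Fin 3) ℝ) : M3) * (ps.r z γ' : M3) * (φ z : M3) = ps.evC z cw

/-- minimal number of letters in `M` over all cyclic words representing the class `C` -/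
def icnt (ps : PS Γ Z Q) (K κ : ℝ) (Λ : Set Q) (Φ : Set (Z → GL (Fin 3) ℝ)) (M : Set Q)
    (C : ConjClasses Γ) : ℕ := sInf {n | ∃ cw, RepBy ps K κ Λ Φ C cw ∧ cw.cnt M = n}

/-- a letter of a closed path: crossing of `e` with twist `k` followed by a normalised element `g` from
`bar e` to `e'` in the vertex group -/
structure Ltr (ps : PS Γ Z Q) (K κ : ℝ) (at_ : Q → V) (G : V → Subgroup Γ) (Λv : V → Set Q)
    (I : Set Q) where
  e : Q
  k : ℤ
  e' : Q
  g : Γ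
  he : e ∈ I
  he' : e' ∈ I
  hat : at_ e' = at_ (ps.bar e)
  hg : g ∈ G (at_ (ps.bar e))
  hn : Nrm ps K κ (Λv (at_ (ps.bar e))) (ps.bar e) g e'

/-- the chosen word of a letter -/
def Ltr.w {K κ : ℝ} {Λv : V → Set Q} (x : Ltr ps K κ at_ G Λv I) : Word Q := x.hn.choose

/-- the part `(e, k, B₀) :: tail` of the cyclic word given by a letter -/
def Ltr.list {K κ : ℝ} {Λv : V → Set Q} (x : Ltr ps K κ at_ G Λv I) : List (Q × ℤ × M3) :=
  (x.e, x.k, x.w.hd) :: x.w.tl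

/-- the group element of a letter -/
def Ltr.val {K κ : ℝ} {Λv : V → Set Q} (x : Ltr ps K κ at_ G Λv I) : Γ :=
  ps.t x.e * ps.c (ps.bar x.e) ^ x.k * x.g

theorem pm_GoGC1_evL_cons (ps : PS Γ Z Q) (a : Q × ℤ × M3) (l : List (Q × ℤ × M3)) (z : Z) :
    ps.evL (a :: l) z = diagonal (ps.Dl a.1 a.2.1 z) * a.2.2 * ps.evL l z := by
  simp [PS.evL, prodL]

theorem pm_GoGC1_evL_append (ps : PS Γ Z Q) (l l' : List (Q × ℤ × M3)) (z : Z) :
    ps.evL (l ++ l') z = ps.evL l z * ps.evL l' z := by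
  simp [PS.evL, prodL]

theorem pm_GoGC1_Cd_zero (L : ℝ) : Cd L 0 = 1 := by
  unfold Cd
  rw [← diagonal_one]
  congr 1
  funext i
  fin_cases i <;> simp

theorem pm_GoGC1_FJ_inv (ps : PS Γ Z Q) (e : Q) (z : Z) :
    (((ps.FJ e z)⁻¹ : GL (Fin 3) ℝ) : M3) = J3 * (((ps.F e z)⁻¹ : GL (Fin 3) ℝ) : M3) := by
  unfold PS.FJ
  rw [_root_.mul_inv_rev, Units.val_mul]
  rfl

theorem pm_GoGC1_FJ_TT (ps : PS Γ Z Q) (e e' : Q) (g : Γ) (z : Z) :
    (((ps.FJ e z)⁻¹ : GL (Fin 3) ℝ) : M3) * (ps.r z g : M3) * (ps.FJ e' z : M3) =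
      J3 * ps.TT z e g e' := by
  rw [pm_GoGC1_FJ_inv]
  unfold PS.TT PS.FJ
  rw [Units.val_mul]
  have h : ((J3GL : GL (Fin 3) ℝ) : M3) = J3 := rfl
  rw [h]
  simp only [Matrix.mul_assoc]

theorem pm_GoGC1_TT_one (ps : PS Γ Z Q) (e : Q) (z : Z) : ps.TT z e 1 e = J3 := by
  unfold PS.TT
  rw [map_one, Units.val_one, Matrix.mul_one, ← Units.val_mul, inv_mul_cancel, Units.val_one,
    Matrix.one_mul]

theorem pm_GoGC1_D0_Cd (ps : PS Γ Z Q) (p : Q) (k : ℤ) (z : Z) :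
    diagonal (ps.D0 p z) * Cd (ps.L p) k = diagonal (ps.Dl p k z) := by
  unfold Cd PS.Dl
  rw [diagonal_mul_diagonal]

/-- matrix of a letter -/
theorem Ltr.mat {K κ : ℝ} {Λv : V → Set Q} (x : Ltr ps K κ at_ G Λv I) (z : Z) :
    (((ps.FJ x.e z)⁻¹ : GL (Fin 3) ℝ) : M3) * (ps.r z x.val : M3) * (ps.FJ x.e' z : M3) =
      ps.evL x.list z ∧
    ps.evL x.list z = diagonal (ps.Dl x.e x.k z) * ps.TT z (ps.bar x.e) x.g x.e' := by
  have h2 : ps.evL x.list z =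
      diagonal (ps.Dl x.e x.k z) * ps.TT z (ps.bar x.e) x.g x.e' := by
    have hw : ps.TT z (ps.bar x.e) x.g x.e' = ps.eval x.w z := x.hn.choose_spec.2 z
    rw [hw]
    unfold Ltr.list
    rw [pm_GoGC1_evL_cons]
    unfold PS.eval
    rw [Matrix.mul_assoc]
  refine ⟨?_, h2⟩
  rw [h2, pm_GoGC1_FJ_TT]
  have hval : x.val = 1 * ps.t x.e * (ps.c (ps.bar x.e) ^ x.k * x.g) := by
    unfold Ltr.val
    group
  have hc := TT_c ps z (ps.bar x.e) x.e' x.g x.k 0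
  rw [zpow_zero, mul_one, neg_zero, pm_GoGC1_Cd_zero, Matrix.mul_one] at hc
  rw [hval, TT_cross, pm_GoGC1_TT_one, hc, ps.L_bar, ← pm_GoGC1_D0_Cd]
  calc J3 * (J3 * diagonal (ps.D0 x.e z) * (Cd (ps.L x.e) x.k * ps.TT z (ps.bar x.e) x.g x.e'))
      = (J3 * J3) * (diagonal (ps.D0 x.e z) * Cd (ps.L x.e) x.k *
          ps.TT z (ps.bar x.e) x.g x.e') := by
        simp only [Matrix.mul_assoc]
    _ = _ := by rw [J3_mul_J3, Matrix.one_mul]

/-- matrix of a list of letters -/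
theorem letters_mat {K κ : ℝ} {Λv : V → Set Q} (x : Ltr ps K κ at_ G Λv I)
    (l : List (Ltr ps K κ at_ G Λv I))
    (hch : (x :: l).IsChain (fun x y => x.e' = y.e)) (z : Z) :
    (((ps.FJ x.e z)⁻¹ : GL (Fin 3) ℝ) : M3) * (ps.r z (((x :: l).map Ltr.val).prod) : M3) *
      (ps.FJ ((x :: l).getLast (by simp)).e' z : M3) = ps.evL ((x :: l).flatMap Ltr.list) z := by
  induction l generalizing x with
  | nil =>
    have := (Ltr.mat x z).1
    simpa using this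
  | cons y l ih =>
    have hch' := List.isChain_cons_cons.1 hch
    have hy := ih y hch'.2
    have hx := (Ltr.mat x z).1
    have hlast : (x :: y :: l).getLast (by simp) = (y :: l).getLast (by simp) := by
      rw [List.getLast_cons]
    rw [hlast, List.flatMap_cons, pm_GoGC1_evL_append, ← hx, ← hy, List.map_cons, List.prod_cons,
      map_mul, Units.val_mul]
    have hF : (ps.FJ x.e' z : M3) * (((ps.FJ y.e z)⁻¹ : GL (Fin 3) ℝ) : M3) = 1 := by
      rw [hch'.1, ← Units.val_mul, mul_inv_cancel, Units.val_one]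
    calc _ = (((ps.FJ x.e z)⁻¹ : GL (Fin 3) ℝ) : M3) * (ps.r z x.val : M3) * 1 *
          (ps.r z (((y :: l).map Ltr.val).prod) : M3) *
          (ps.FJ ((y :: l).getLast (by simp)).e' z : M3) := by
          rw [Matrix.mul_one]
          simp only [Matrix.mul_assoc]
      _ = _ := by
          rw [← hF]
          simp only [Matrix.mul_assoc]

theorem pm_GoGC2_Cd_zero (L : ℝ) : Cd L 0 = 1 := by
  ext i j
  fin_cases i <;> fin_cases j <;> simp [Cd]

theorem pm_GoGC2_Cd_neg_mul (L : ℝ) (k : ℤ) : Cd L (-k) * Cd L k = 1 := by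
  rw [← Cd_add, neg_add_cancel, pm_GoGC2_Cd_zero]

theorem pm_GoGC2_Cd_mul_neg (L : ℝ) (k : ℤ) : Cd L k * Cd L (-k) = 1 := by
  rw [← Cd_add, add_neg_cancel, pm_GoGC2_Cd_zero]

theorem pm_GoGC2_exists_nrm {K κ : ℝ} {Λ : Set Q} {G : Subgroup Γ} {S : Set Q}
    (hV : VC ps K κ Λ G S) {p q : Q}
    (hp : p ∈ S) (hq : q ∈ S) {g : Γ} (hg : g ∈ G) (hdeg : ¬ (p = q ∧ g ∈ Subgroup.zpowers (ps.c p))) :
    ∃ (k m : ℤ) (g' : Γ), g = (ps.c p) ^ k * g' * (ps.c q) ^ m ∧ Nrm ps K κ Λ p g' q := by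
  obtain ⟨k, k', w, hw, hz⟩ := hV p hp q hq g hg hdeg
  refine ⟨k, -k', (ps.c p) ^ (-k) * g * (ps.c q) ^ k', ?_, w, hw, fun z => ?_⟩
  · group
  · rw [TT_c, hz z]
    calc Cd (ps.L p) (-k) * (Cd (ps.L p) k * ps.eval w z * Cd (ps.L q) k') * Cd (ps.L q) (-k')
        = (Cd (ps.L p) (-k) * Cd (ps.L p) k) * ps.eval w z * (Cd (ps.L q) k' * Cd (ps.L q) (-k')) := by
          simp only [Matrix.mul_assoc]
      _ = ps.eval w z := by
          rw [pm_GoGC2_Cd_neg_mul, pm_GoGC2_Cd_mul_neg, Matrix.one_mul, Matrix.mul_one]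

theorem pm_GoGC2_nrm (H : GH ps at_ G S I Gn) {K κ : ℝ} {Λv : V → Set Q}
    (hV : ∀ v, VC ps K κ (Λv v) (G v) (S v)) {e e' : Q} (he : e ∈ I) (he' : e' ∈ I)
    (hat : at_ e' = at_ (ps.bar e)) {g : Γ} (hg : g ∈ G (at_ (ps.bar e)))
    (hdeg : e' = ps.bar e → g ∉ Subgroup.zpowers (ps.c (ps.bar e))) :
    ∃ (k m : ℤ) (g' : Γ), g = (ps.c (ps.bar e)) ^ k * g' * (ps.c e') ^ m ∧
      g' ∈ G (at_ (ps.bar e)) ∧ Nrm ps K κ (Λv (at_ (ps.bar e))) (ps.bar e) g' e' := by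
  have hbe : ps.bar e ∈ I := (H.hI e he).1
  have h1 : ps.bar e ∈ S (at_ (ps.bar e)) := (H.hI _ hbe).2
  have h2 : e' ∈ S (at_ (ps.bar e)) := by rw [← hat]; exact (H.hI _ he').2
  obtain ⟨k, m, g', hgg, hn⟩ := pm_GoGC2_exists_nrm (hV (at_ (ps.bar e))) h1 h2 hg
    (fun h => hdeg h.1.symm h.2)
  refine ⟨k, m, g', hgg, ?_, hn⟩
  have hc1 : ps.c (ps.bar e) ∈ G (at_ (ps.bar e)) := H.hc _ hbe
  have hc2 : ps.c e' ∈ G (at_ (ps.bar e)) := by rw [← hat]; exact H.hc _ he'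
  have : g' = (ps.c (ps.bar e)) ^ (-k) * g * (ps.c e') ^ (-m) := by rw [hgg]; group
  rw [this]
  exact mul_mem (mul_mem (zpow_mem hc1 _) hg) (zpow_mem hc2 _)

/-- `t` conjugates the boundary elements -/
theorem pm_GoGC2_tc (ps : PS Γ Z Q) (e : Q) (m : ℤ) :
    ps.c e ^ m * ps.t e = ps.t e * ps.c (ps.bar e) ^ (-m) := by
  have h : (ps.c e) ^ (-m) = ps.t e * ps.c (ps.bar e) ^ m * (ps.t e)⁻¹ := by
    rw [← conj_zpow, ps.t_c, _root_.inv_zpow']
  have h' : (ps.c e) ^ m = ps.t e * ps.c (ps.bar e) ^ (-m) * (ps.t e)⁻¹ := by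
    have := congrArg (fun x => x⁻¹) h
    simp only [_root_.zpow_neg, inv_inv, _root_.mul_inv_rev] at this
    rw [this, _root_.zpow_neg]; group
  rw [h']; group

/-- chains of letters from `e` to `f` -/
def pm_GoGC2_LC {K κ : ℝ} {Λv : V → Set Q} : Q → List (Ltr ps K κ at_ G Λv I) → Q → Prop
  | e, [], f => e = f
  | e, x :: l, f => x.e = e ∧ pm_GoGC2_LC x.e' l f

theorem pm_GoGC2_LC_append {K κ : ℝ} {Λv : V → Set Q} (l : List (Ltr ps K κ at_ G Λv I))
    (x : Ltr ps K κ at_ G Λv I) : ∀ {e f : Q}, pm_GoGC2_LC e l f → x.e = f →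
      pm_GoGC2_LC e (l ++ [x]) x.e' := by
  induction l with
  | nil =>
    intro e f h hx
    simp only [pm_GoGC2_LC] at h
    simp only [List.nil_append, pm_GoGC2_LC, and_true]
    rw [hx, h]
  | cons y l ih =>
    intro e f h hx
    simp only [pm_GoGC2_LC] at h
    simp only [List.cons_append, pm_GoGC2_LC]
    exact ⟨h.1, ih h.2 hx⟩

theorem pm_GoGC2_LC_chain {K κ : ℝ} {Λv : V → Set Q} (l : List (Ltr ps K κ at_ G Λv I)) :
    ∀ (x : Ltr ps K κ at_ G Λv I) {e f : Q}, pm_GoGC2_LC e (x :: l) f →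
      (x :: l).IsChain (fun x y => x.e' = y.e) ∧ ((x :: l).getLast (by simp)).e' = f ∧ x.e = e := by
  induction l with
  | nil =>
    intro x e f h
    simp only [pm_GoGC2_LC] at h
    exact ⟨List.isChain_singleton _, by simpa using h.2, h.1⟩
  | cons y l ih =>
    intro x e f h
    have h' : x.e = e ∧ pm_GoGC2_LC x.e' (y :: l) f := h
    obtain ⟨h1, h2, h3⟩ := ih y h'.2
    refine ⟨List.isChain_cons_cons.mpr ⟨h3.symm, h1⟩, ?_, h'.1⟩
    rw [List.getLast_cons (by simp)]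
    exact h2

/-- the main induction -/
theorem pm_GoGC2_main (H : GH ps at_ G S I Gn) {K κ : ℝ} {Λv : V → Set Q}
    (hV : ∀ v, VC ps K κ (Λv v) (G v) (S v)) {u w : V} {l : List (Γ × Q)} {gl : Γ}
    (hp : IsPath ps at_ G I u l gl w) :
    ∀ (x0 : Γ) (e0 : Q) (m0 : ℤ), e0 ∈ I → u = at_ (ps.bar e0) →
      ((x0, e0) :: l).IsChain ps.NB →
      ∃ (L : List (Ltr ps K κ at_ G Λv I)) (m : ℤ) (en : Q),
        en = (((x0, e0) :: l).getLast (by simp)).2 ∧ en ∈ I ∧ at_ (ps.bar en) = w ∧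
        pm_GoGC2_LC e0 L en ∧
        ps.t e0 * ps.c (ps.bar e0) ^ m0 * ps.pval l =
          (L.map Ltr.val).prod * (ps.t en * ps.c (ps.bar en) ^ m) := by
  induction hp with
  | nil hg =>
    intro x0 e0 m0 he0 hu _
    refine ⟨[], m0, e0, by simp, he0, hu.symm, ?_, ?_⟩
    · simp [pm_GoGC2_LC]
    · simp [PS.pval]
  | @cons v w g gl e l hg he hat hpath ih =>
    intro x0 e0 m0 he0 hu hch
    rw [List.isChain_cons_cons] at hch
    have hg' : g ∈ G (at_ (ps.bar e0)) := by rw [← hu]; exact hg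
    have hat' : at_ e = at_ (ps.bar e0) := by rw [hat, hu]
    obtain ⟨k, m, g', hgg, hgm, hn⟩ := pm_GoGC2_nrm H hV he0 he hat' hg'
      (fun h => hch.1 h)
    obtain ⟨L, m', en, hen, henI, hatn, hLC, hval⟩ := ih g e (-m) he rfl hch.2
    let x : Ltr ps K κ at_ G Λv I :=
      { e := e0, k := m0 + k, e' := e, g := g', he := he0, he' := he, hat := hat', hg := hgm, hn := hn }
    refine ⟨x :: L, m', en, ?_, henI, hatn, ⟨rfl, hLC⟩, ?_⟩
    · rw [List.getLast_cons (by simp)]; exact hen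
    · have e1 : ps.pval ((g, e) :: l) = g * ps.t e * ps.pval l := by simp [PS.pval]
      rw [e1, List.map_cons, List.prod_cons, mul_assoc x.val, ← hval, hgg]
      have e2 : x.val = ps.t e0 * ps.c (ps.bar e0) ^ (m0 + k) * g' := rfl
      rw [e2]
      have e3 := pm_GoGC2_tc ps e m
      calc ps.t e0 * ps.c (ps.bar e0) ^ m0 * (ps.c (ps.bar e0) ^ k * g' * ps.c e ^ m * ps.t e * ps.pval l)
          = ps.t e0 * ps.c (ps.bar e0) ^ m0 * (ps.c (ps.bar e0) ^ k * g' * (ps.c e ^ m * ps.t e) * ps.pval l) := by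
            simp only [mul_assoc]
        _ = ps.t e0 * ps.c (ps.bar e0) ^ (m0 + k) * g' * (ps.t e * ps.c (ps.bar e) ^ (-m) * ps.pval l) := by
            rw [e3, _root_.zpow_add]; simp only [mul_assoc]

theorem pm_GoGC2_val_mem (H : GH ps at_ G S I Gn) {K κ : ℝ} {Λv : V → Set Q}
    (x : Ltr ps K κ at_ G Λv I) : x.val ∈ Gn := by
  have hb : ps.bar x.e ∈ I := (H.hI _ x.he).1
  exact mul_mem (mul_mem (H.ht _ x.he) (zpow_mem (H.hG _ (H.hc _ hb)) _)) (H.hG _ x.hg)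

/-- every class which does not meet a vertex group is given by a cyclic list of letters -/
theorem class_letters [Nonempty V] (H : GH ps at_ G S I Gn) {K κ : ℝ} {Λv : V → Set Q}
    (hV : ∀ v, VC ps K κ (Λv v) (G v) (S v)) {g : Γ} (hg : g ∈ Gn)
    (hno : ¬ ∃ v, ∃ g' ∈ G v, IsConj g g') :
    ∃ (x : Ltr ps K κ at_ G Λv I) (l : List (Ltr ps K κ at_ G Λv I)),
      (x :: l).IsChain (fun x y => x.e' = y.e) ∧ ((x :: l).getLast (by simp)).e' = x.e ∧
      ((x :: l).map Ltr.val).prod ∈ Gn ∧ IsConj g (((x :: l).map Ltr.val).prod) := by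
  rcases class_split H hg with h | ⟨l, v, hne, hpath, hch, hmem, hconj⟩
  · exact absurd h hno
  cases hpath with
  | nil _ => exact absurd rfl hne
  | @cons _ _ g1 _ e1 l' hg1 he1 hat1 hp =>
    have hch1 : ((g1, e1) :: l').IsChain ps.NB := (List.isChain_append.mp hch).1
    have hend := (List.isChain_append.mp hch).2.2
    -- the last port
    obtain ⟨L0, m0, en, hen, henI, hatn, -, -⟩ := pm_GoGC2_main H hV hp g1 e1 0 he1 rfl hch1
    have hNB : ps.NB (((g1, e1) :: l').getLast (by simp)) (g1, e1) := by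
      apply hend
      · exact List.getLast_mem_getLast? (by simp)
      · simp
    have hdeg : e1 = ps.bar en → g1 ∉ Subgroup.zpowers (ps.c (ps.bar en)) := by
      rw [hen]; exact hNB
    have hatt : at_ e1 = at_ (ps.bar en) := by rw [hat1, hatn]
    have hg1' : g1 ∈ G (at_ (ps.bar en)) := by rw [hatn]; exact hg1
    obtain ⟨a, m, g', hgg, hgm, hn⟩ := pm_GoGC2_nrm H hV henI he1 hatt hg1' hdeg
    obtain ⟨L, m', en', hen', henI', hatn', hLC, hval⟩ :=
      pm_GoGC2_main H hV hp g1 e1 (-m) he1 rfl hch1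
    have hee : en' = en := by rw [hen, hen']
    subst hee
    let y : Ltr ps K κ at_ G Λv I :=
      { e := en', k := m' + a, e' := e1, g := g', he := henI, he' := he1, hat := hatt, hg := hgm, hn := hn }
    have hLC' : pm_GoGC2_LC e1 (L ++ [y]) y.e' := pm_GoGC2_LC_append L y hLC rfl
    have hprod : IsConj (ps.pval ((g1, e1) :: l')) ((L ++ [y]).map Ltr.val).prod := by
      have e1' : ps.pval ((g1, e1) :: l') = g1 * ps.t e1 * ps.pval l' := by simp [PS.pval]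
      have e2 : y.val = ps.t en' * ps.c (ps.bar en') ^ (m' + a) * g' := rfl
      have e3 := pm_GoGC2_tc ps e1 m
      have e4 : ps.pval ((g1, e1) :: l') =
          (ps.c (ps.bar en') ^ a * g') * ((L.map Ltr.val).prod * (ps.t en' * ps.c (ps.bar en') ^ m')) := by
        rw [e1', ← hval]
        conv_lhs => rw [hgg]
        calc ps.c (ps.bar en') ^ a * g' * ps.c e1 ^ m * ps.t e1 * ps.pval l'
            = ps.c (ps.bar en') ^ a * g' * (ps.c e1 ^ m * ps.t e1) * ps.pval l' := by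
              simp only [mul_assoc]
          _ = _ := by rw [e3]; simp only [mul_assoc]
      rw [e4, isConj_iff]
      refine ⟨(ps.c (ps.bar en') ^ a * g')⁻¹, ?_⟩
      rw [List.map_append, List.prod_append, List.map_singleton, List.prod_singleton, e2, _root_.zpow_add]
      group
    have hmem' : ((L ++ [y]).map Ltr.val).prod ∈ Gn := by
      apply Subgroup.list_prod_mem
      intro z hz
      obtain ⟨x, -, rfl⟩ := List.mem_map.mp hz
      exact pm_GoGC2_val_mem H x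
    obtain ⟨x, l2, hxl⟩ : ∃ x l2, L ++ [y] = x :: l2 := by
      cases L with
      | nil => exact ⟨y, [], rfl⟩
      | cons z L => exact ⟨z, L ++ [y], rfl⟩
    rw [hxl] at hLC' hprod hmem'
    obtain ⟨c1, c2, c3⟩ := pm_GoGC2_LC_chain l2 x hLC'
    exact ⟨x, l2, c1, by rw [c2, c3], hmem', hconj.trans hprod⟩

private theorem pm_GoGC3_okL {K κ : ℝ} {Λ : Set Q} (hΛ : I ⊆ Λ)
    (l : List (Ltr ps K κ at_ G (fun _ => Λ) I)) : OkL K κ Λ (l.flatMap Ltr.list) := by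
  intro y hy
  rw [List.mem_flatMap] at hy
  obtain ⟨x, _, hx⟩ := hy
  have hok : x.w.Ok K κ Λ := x.hn.choose_spec.1
  rw [Ltr.list, List.mem_cons] at hx
  rcases hx with hx | hx
  · subst hx
    exact ⟨hΛ x.he, hok.1⟩
  · exact hok.2 y hx

/-- class representation for the glued group -/
theorem CR_glue [Nonempty V] (H : GH ps at_ G S I Gn) {K κ : ℝ} {Λ : Set Q} (hΛ : I ⊆ Λ)
    {Φ : Set (Z → GL (Fin 3) ℝ)} (hV : ∀ v, VC ps K κ Λ (G v) (S v))
    (hC : ∀ v, CR ps K κ Λ (G v) Φ) (hΦ : ∀ e ∈ I, ps.FJ e ∈ Φ) : CR ps K κ Λ Gn Φ := by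
  intro g hg hg1
  by_cases hno : ∃ v, ∃ g' ∈ G v, IsConj g g'
  · obtain ⟨v, g', hg', hcj⟩ := hno
    have hne : g' ≠ 1 := by
      intro h
      rw [h, isConj_one_left] at hcj
      exact hg1 hcj
    obtain ⟨γ', hγ', hcj', φ, hφ, cw, hok, hz⟩ := hC v g' hg' hne
    exact ⟨γ', H.hG v hγ', hcj.trans hcj', φ, hφ, cw, hok, hz⟩
  · obtain ⟨x, l, hch, hlast, hmem, hcj⟩ := class_letters H (Λv := fun _ => Λ) hV hg hno
    refine ⟨_, hmem, hcj, ps.FJ x.e, hΦ x.e x.he, CW.cyc ((x :: l).flatMap Ltr.list),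
      ⟨?_, pm_GoGC3_okL hΛ _⟩, ?_⟩
    · rw [List.flatMap_cons, Ltr.list]
      simp
    · intro z
      have h := letters_mat x l hch z
      rw [hlast] at h
      exact h

end

end PM3
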