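import Pool.Agent.LibPM3.GoGB

/-! [PM3 GoGD] sums over port-to-port elements. -/

namespace PM3
open Matrix Filter Topology

noncomputable section

variable {Γ Z Q V : Type} [Group Γ] {ps : PS Γ Z Q} {at_ : Q → V} {G : V → Subgroup Γ} {S : V → Set Q}
  {I : Set Q} {Gn : Subgroup Γ}

/-- multiplicity of normalisations -/
def amb (K L : ℝ) : ℝ := 2 * Real.log K / L + 1

theorem pm_GoGD1_Cd_zero (L : ℝ) : Cd L 0 = 1 := by
  ext i j
  fin_cases i <;> fin_cases j <;> simp [Cd]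

/-- the entries of `Cd k * A * Cd (-m)` -/
theorem pm_GoGD1_entry (L L' : ℝ) (k m : ℤ) (A : M3) (i j : Fin 3) :
    (Cd L k * A * Cd L' (-m)) i j =
      (![Real.exp (-(k * L)), 1, Real.exp (k * L)] : Fin 3 → ℝ) i * A i j *
        (![Real.exp (m * L'), 1, Real.exp (-(m * L'))] : Fin 3 → ℝ) j := by
  rw [Cd, Cd, Matrix.mul_diagonal, Matrix.diagonal_mul]
  congr 1
  fin_cases j <;> simp

/-- normalisation: every non-degenerate element becomes normalised after multiplication by powers of the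
boundary elements -/
theorem exists_nrm {K κ : ℝ} {Λ : Set Q} {G : Subgroup Γ} {S : Set Q} (hV : VC ps K κ Λ G S) {p q : Q}
    (hp : p ∈ S) (hq : q ∈ S) {g : Γ} (hg : g ∈ G) (hdeg : ¬ (p = q ∧ g ∈ Subgroup.zpowers (ps.c p))) :
    ∃ (k m : ℤ) (g' : Γ), g = (ps.c p) ^ k * g' * (ps.c q) ^ m ∧ Nrm ps K κ Λ p g' q := by
  obtain ⟨k, k', w, hw, hT⟩ := hV p hp q hq g hg hdeg
  refine ⟨k, -k', (ps.c p) ^ (-k) * g * (ps.c q) ^ k', ?_, w, hw, fun z => ?_⟩
  · group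
  · rw [TT_c, hT z]
    have h1 : Cd (ps.L p) (-k) * (Cd (ps.L p) k * ps.eval w z * Cd (ps.L q) k') * Cd (ps.L q) (-k') =
        (Cd (ps.L p) (-k) * Cd (ps.L p) k) * ps.eval w z * (Cd (ps.L q) k' * Cd (ps.L q) (-k')) := by
      simp only [mul_assoc]
    rw [h1, ← Cd_add, ← Cd_add, neg_add_cancel, add_neg_cancel, pm_GoGD1_Cd_zero,
      pm_GoGD1_Cd_zero, one_mul, mul_one]

/-- two normalised elements in the same double coset differ by bounded powers -/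
theorem nrm_amb {K κ : ℝ} {Λ Λ' : Set Q} (hκ : 0 ≤ κ) (hZ : Nonempty Z) {p q : Q} {g : Γ} {k m : ℤ}
    (h : Nrm ps K κ Λ p g q) (h' : Nrm ps K κ Λ' p ((ps.c p) ^ k * g * (ps.c q) ^ m) q) :
    |(k : ℝ)| * ps.L p ≤ Real.log K ∧ |(m : ℝ)| * ps.L q ≤ Real.log K := by
  obtain ⟨z⟩ := hZ
  obtain ⟨w, hw, hwT⟩ := h
  obtain ⟨w', hw', hwT'⟩ := h'
  have hA := Word.bal hκ hw ps z
  have hB := Word.bal hκ hw' ps z
  rw [← hwT z] at hA
  rw [← hwT' z, TT_c] at hB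
  set A := ps.TT z p g q with hAdef
  have hK : 1 ≤ K := hA.one_le
  have hK0 : 0 < K := by linarith
  have hlp := ps.L_pos p
  have hlq := ps.L_pos q
  have e : ∀ i j, (Cd (ps.L p) k * A * Cd (ps.L q) (-m)) i j =
      (![Real.exp (-(k * ps.L p)), 1, Real.exp (k * ps.L p)] : Fin 3 → ℝ) i * A i j *
        (![Real.exp (m * ps.L q), 1, Real.exp (-(m * ps.L q))] : Fin 3 → ℝ) j :=
    fun i j => pm_GoGD1_entry _ _ _ _ _ _ _
  have key : ∀ x : ℝ, Real.exp (2 * x) ≤ K ^ 2 → x ≤ Real.log K := by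
    intro x hx
    have h1 := Real.log_le_log (Real.exp_pos _) hx
    rw [Real.log_exp, Real.log_pow] at h1
    push_cast at h1
    linarith
  have gen : ∀ x a b : ℝ, 0 < a → 0 < b → a ≤ K * b → Real.exp x * b ≤ K * (Real.exp (-x) * a) →
      Real.exp (2 * x) ≤ K ^ 2 := by
    intro x a b ha hb hab h1
    have h2 : Real.exp (2 * x) = Real.exp x * Real.exp x := by rw [← Real.exp_add]; ring_nf
    have h3 : Real.exp (-x) * Real.exp x = 1 := by rw [← Real.exp_add]; simp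
    have hx := Real.exp_pos x
    have h4 : Real.exp (2 * x) * b ≤ K ^ 2 * b := by
      calc Real.exp (2 * x) * b = Real.exp x * (Real.exp x * b) := by rw [h2]; ring
        _ ≤ Real.exp x * (K * (Real.exp (-x) * a)) := mul_le_mul_of_nonneg_left h1 hx.le
        _ = K * a * (Real.exp (-x) * Real.exp x) := by ring
        _ = K * a := by rw [h3, mul_one]
        _ ≤ K * (K * b) := mul_le_mul_of_nonneg_left hab hK0.le
        _ = K ^ 2 * b := by ring
    exact le_of_mul_le_mul_right h4 hb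
  have hneg : ∀ x : ℝ, Real.exp (- -x) = Real.exp x := fun x => by rw [neg_neg]
  constructor
  · rw [← abs_of_pos hlp, ← abs_mul, abs_le]
    have r1 := hB.row 2 0 0
    have r2 := hB.row 0 2 0
    rw [e, e] at r1 r2
    simp only [Matrix.cons_val_zero, Matrix.cons_val] at r1 r2
    have hm := Real.exp_pos (m * ps.L q)
    constructor
    · have h1 : -(k * ps.L p) ≤ Real.log K := by
        apply key
        refine gen (-(k * ps.L p)) (A 2 0) (A 0 0) (hA.pos _ _) (hA.pos _ _) (hA.row _ _ _) ?_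
        rw [hneg]
        refine le_of_mul_le_mul_right ?_ hm
        calc _ ≤ _ := r2
          _ = _ := by ring
      linarith
    · apply key
      refine gen (k * ps.L p) (A 0 0) (A 2 0) (hA.pos _ _) (hA.pos _ _) (hA.row _ _ _) ?_
      refine le_of_mul_le_mul_right ?_ hm
      calc _ ≤ _ := r1
        _ = _ := by ring
  · rw [← abs_of_pos hlq, ← abs_mul, abs_le]
    have r1 := hB.col 0 0 2
    have r2 := hB.col 0 2 0
    rw [e, e] at r1 r2
    simp only [Matrix.cons_val_zero, Matrix.cons_val] at r1 r2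
    have hm := Real.exp_pos (-(k * ps.L p))
    constructor
    · have h1 : -(m * ps.L q) ≤ Real.log K := by
        apply key
        refine gen (-(m * ps.L q)) (A 0 0) (A 0 2) (hA.pos _ _) (hA.pos _ _) (hA.col _ _ _) ?_
        rw [hneg]
        refine le_of_mul_le_mul_right ?_ hm
        calc _ = Real.exp (-(k * ps.L p)) * A 0 2 * Real.exp (-(m * ps.L q)) := by ring
          _ ≤ _ := r2
          _ = _ := by ring
      linarith
    · apply key
      refine gen (m * ps.L q) (A 0 2) (A 0 0) (hA.pos _ _) (hA.pos _ _) (hA.col _ _ _) ?_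
      refine le_of_mul_le_mul_right ?_ hm
      calc _ = Real.exp (-(k * ps.L p)) * A 0 0 * Real.exp (m * ps.L q) := by ring
        _ ≤ _ := r1
        _ = _ := by ring

/-- values of normalised data of length `n` from the port `p` to the port `q` -/
def pm_GoGD2_NP (ps : PS Γ Z Q) (at_ : Q → V) (G : V → Subgroup Γ) (I : Set Q) (K κ : ℝ) (Λ : Set Q)
    (q : Q) : ℕ → Q → Set Γ
  | 0, p => {g | at_ p = at_ q ∧ g ∈ G (at_ p) ∧ Nrm ps K κ Λ p g q}
  | n + 1, p => {g | ∃ e ∈ I, at_ e = at_ p ∧ ∃ g1 ∈ G (at_ p), Nrm ps K κ Λ p g1 e ∧ ∃ k : ℤ,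
      ∃ g' ∈ pm_GoGD2_NP ps at_ G I K κ Λ q n (ps.bar e),
        g = g1 * ps.t e * ps.c (ps.bar e) ^ k * g'}

theorem pm_GoGD2_TT (ps : PS Γ Z Q) (z : Z) (p e q : Q) (g1 g' : Γ) (k : ℤ) :
    ps.TT z p (g1 * ps.t e * ps.c (ps.bar e) ^ k * g') q =
      ps.TT z p g1 e * diagonal (ps.Dl e k z) * ps.TT z (ps.bar e) g' q := by
  rw [mul_assoc (g1 * ps.t e), TT_cross]
  have h1 : ps.c (ps.bar e) ^ k * g' = ps.c (ps.bar e) ^ k * g' * ps.c q ^ (0 : ℤ) := by simp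
  rw [h1, TT_c, neg_zero, pm_GoGD1_Cd_zero, mul_one, ps.L_bar]
  have h2 := Cd_D0_Cd ps e z 0 k
  rw [pm_GoGD1_Cd_zero, one_mul, zero_add] at h2
  rw [← h2]
  simp only [mul_assoc]

theorem pm_GoGD2_nrm_cons {K κ : ℝ} {Λ : Set Q} {p e q : Q} {g1 g' : Γ} (k : ℤ) (he : e ∈ Λ)
    (h1 : Nrm ps K κ Λ p g1 e) (h2 : Nrm ps K κ Λ (ps.bar e) g' q) :
    Nrm ps K κ Λ p (g1 * ps.t e * ps.c (ps.bar e) ^ k * g') q := by
  obtain ⟨w1, hw1, hT1⟩ := h1
  obtain ⟨w2, hw2, hT2⟩ := h2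
  refine ⟨⟨w1.hd, w1.tl ++ (e, k, w2.hd) :: w2.tl⟩, ⟨hw1.1, ?_⟩, fun z => ?_⟩
  · intro x hx
    rw [List.mem_append, List.mem_cons] at hx
    rcases hx with hx | hx | hx
    · exact hw1.2 x hx
    · rw [hx]
      exact ⟨he, hw2.1⟩
    · exact hw2.2 x hx
  · rw [pm_GoGD2_TT, hT1 z, hT2 z]
    simp only [PS.eval, PS.evL, prodL, List.map_append, List.prod_append, List.map_cons,
      List.prod_cons, mul_assoc]

theorem pm_GoGD2_NP_nrm {K κ : ℝ} {Λ : Set Q} (hΛ : I ⊆ Λ) {q : Q} :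
    ∀ (n : ℕ) (p : Q) (g : Γ), g ∈ pm_GoGD2_NP ps at_ G I K κ Λ q n p → Nrm ps K κ Λ p g q := by
  intro n
  induction n with
  | zero => exact fun p g hg => hg.2.2
  | succ n ih =>
    rintro p g ⟨e, he, _, g1, _, hN, k, g', hg', rfl⟩
    exact pm_GoGD2_nrm_cons k (hΛ he) hN (ih _ _ hg')

/-- a finite sum over a subset of `I` -/
theorem pm_GoGD2_sum_le {J : Set Q} (hI : I.Finite) (hJ : J ⊆ I) (c : ENNReal) :
    ∑' _ : J, c ≤ (I.ncard : ENNReal) * c := by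
  refine (ENNReal.tsum_comp_le_tsum_of_injective (Set.inclusion_injective hJ)
    (fun _ : I => c)).trans ?_
  rw [ENNReal.tsum_set_const, ← hI.cast_ncard_eq]
  simp

/-- the bound for one more crossing -/
theorem pm_GoGD2_step (H : GH ps at_ G S I Gn) {K κ : ℝ} (hκ : 0 ≤ κ) {Λ : Set Q} (hΛ : I ⊆ Λ)
    (hI : I.Finite) (h : Q → ℝ) (hh : ∀ e ∈ I, h (ps.bar e) = h e) {B C δ s : ℝ} (hs : 0 ≤ s)
    (hB0 : 0 ≤ B) (hC0 : 0 ≤ C) (hδ : 0 ≤ δ) (z : Z)
    (hX : ∀ e ∈ I, Xs ps z s e ≤ ENNReal.ofReal δ) {p q : Q} (n : ℕ)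
    (hB : ∀ e ∈ I, at_ e = at_ p →
      Zs ps K κ Λ (G (at_ p)) z s p e ≤ ENNReal.ofReal (B * Real.exp (s * (h p - h e))))
    (hC : ∀ e ∈ I, ∑' g : {g // g ∈ pm_GoGD2_NP ps at_ G I K κ Λ q n (ps.bar e)},
        ENNReal.ofReal ((mn (ps.TT z (ps.bar e) g q)) ^ (-s)) ≤
      ENNReal.ofReal (C * Real.exp (s * (h (ps.bar e) - h q)))) :
    ∑' g : {g // g ∈ pm_GoGD2_NP ps at_ G I K κ Λ q (n + 1) p},
        ENNReal.ofReal ((mn (ps.TT z p g q)) ^ (-s)) ≤
      ENNReal.ofReal (I.ncard * B * δ * C * Real.exp (s * (h p - h q))) := by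
  classical
  let J : Set Q := {e | e ∈ I ∧ at_ e = at_ p}
  let T : J → Type := fun e => ({g1 : Γ // g1 ∈ G (at_ p) ∧ Nrm ps K κ Λ p g1 e} × ℤ) ×
    {g' : Γ // g' ∈ pm_GoGD2_NP ps at_ G I K κ Λ q n (ps.bar e)}
  let dec : (Σ e : J, T e) → Γ := fun x =>
    x.2.1.1.1 * ps.t x.1 * ps.c (ps.bar x.1) ^ x.2.1.2 * x.2.2.1
  let F : (Σ e : J, T e) → ENNReal := fun x =>
    ENNReal.ofReal ((mn (ps.TT z p x.2.1.1.1 x.1)) ^ (-s)) *
      ENNReal.ofReal ((mxd (ps.Dl x.1 x.2.1.2 z)) ^ (-s)) *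
      ENNReal.ofReal ((mn (ps.TT z (ps.bar x.1) x.2.2.1 q)) ^ (-s))
  have hcode : ∀ g : {g // g ∈ pm_GoGD2_NP ps at_ G I K κ Λ q (n + 1) p},
      ∃ x : (Σ e : J, T e), dec x = g.1 ∧
        ENNReal.ofReal ((mn (ps.TT z p g q)) ^ (-s)) ≤ F x := by
    rintro ⟨g, e, he, hat, g1, hg1, hN, k, g', hg', rfl⟩
    refine ⟨⟨⟨e, he, hat⟩, ((⟨g1, hg1, hN⟩, k), ⟨g', hg'⟩)⟩, rfl, ?_⟩
    have hN' := pm_GoGD2_NP_nrm hΛ n _ _ hg'
    obtain ⟨w1, hw1, hT1⟩ := hN
    obtain ⟨w2, hw2, hT2⟩ := hN'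
    have hB1 := Word.bal hκ hw1 ps z
    have hB2 := Word.bal hκ hw2 ps z
    rw [← hT1 z] at hB1
    rw [← hT2 z] at hB2
    have hD := Dl_pos ps e k z
    have hm1 := hB1.mn_pos
    have hm2 := hB2.mn_pos
    have hm3 : 0 < mxd (ps.Dl e k z) := lt_of_lt_of_le one_pos (one_le_mxd hD)
    have hmul := mn_mul hB1.pos hD hB2.pos
    simp only [F]
    rw [pm_GoGD2_TT, ← ENNReal.ofReal_mul (by positivity), ← ENNReal.ofReal_mul (by positivity),
      ← Real.mul_rpow hm1.le hm3.le, ← Real.mul_rpow (by positivity) hm2.le]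
    exact ENNReal.ofReal_le_ofReal (Real.rpow_le_rpow_of_nonpos (by positivity) hmul
      (by linarith))
  choose code hdec hle using hcode
  have hinj : Function.Injective code := by
    intro x y hxy
    apply Subtype.ext
    rw [← hdec x, ← hdec y, hxy]
  refine (ENNReal.tsum_le_tsum hle).trans
    ((ENNReal.tsum_comp_le_tsum_of_injective hinj F).trans ?_)
  rw [ENNReal.tsum_sigma']
  have hterm : ∀ e : J, ∑' x : T e, F ⟨e, x⟩ ≤
      ENNReal.ofReal (B * δ * C * Real.exp (s * (h p - h q))) := by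
    rintro ⟨e, he, hat⟩
    have hsum : ∑' x : T ⟨e, he, hat⟩, F ⟨⟨e, he, hat⟩, x⟩ =
        Zs ps K κ Λ (G (at_ p)) z s p e * Xs ps z s e *
          ∑' g' : {g' : Γ // g' ∈ pm_GoGD2_NP ps at_ G I K κ Λ q n (ps.bar e)},
            ENNReal.ofReal ((mn (ps.TT z (ps.bar e) g' q)) ^ (-s)) := by
      rw [ENNReal.tsum_prod']
      simp only [F]
      simp_rw [ENNReal.tsum_mul_left]
      rw [ENNReal.tsum_mul_right, ENNReal.tsum_prod']
      simp_rw [ENNReal.tsum_mul_left]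
      rw [ENNReal.tsum_mul_right]
      rfl
    rw [hsum]
    refine (mul_le_mul' (mul_le_mul' (hB e he hat) (hX e he)) (hC e he)).trans ?_
    rw [← ENNReal.ofReal_mul (by positivity), ← ENNReal.ofReal_mul (by positivity), hh e he]
    apply ENNReal.ofReal_le_ofReal
    apply le_of_eq
    have h3 : Real.exp (s * (h p - h q)) =
        Real.exp (s * (h p - h e)) * Real.exp (s * (h e - h q)) := by
      rw [← Real.exp_add]
      ring_nf
    rw [h3]
    ring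
  refine (ENNReal.tsum_le_tsum hterm).trans ?_
  refine (pm_GoGD2_sum_le hI (J := J) (fun e he => he.1) _).trans (le_of_eq ?_)
  rw [← ENNReal.ofReal_natCast, ← ENNReal.ofReal_mul (by positivity)]
  congr 1
  ring

/-- the sum over normalised data of length `0` -/
theorem pm_GoGD2_zero {K κ : ℝ} {Λ : Set Q} (h : Q → ℝ) {A s : ℝ} (z : Z)
    (hZ : ∀ v, ∀ p ∈ S v, ∀ q ∈ S v,
      Zs ps K κ Λ (G v) z s p q ≤ ENNReal.ofReal (A * Real.exp (s * (h p - h q))))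
    {p q : Q} (hp : p ∈ S (at_ p)) (hq : q ∈ S (at_ q)) :
    ∑' g : {g // g ∈ pm_GoGD2_NP ps at_ G I K κ Λ q 0 p},
        ENNReal.ofReal ((mn (ps.TT z p g q)) ^ (-s)) ≤
      ENNReal.ofReal (A * Real.exp (s * (h p - h q))) := by
  by_cases hpq : at_ p = at_ q
  · have hq' : q ∈ S (at_ p) := by rw [hpq]; exact hq
    let c : {g // g ∈ pm_GoGD2_NP ps at_ G I K κ Λ q 0 p} →
        {g : Γ // g ∈ G (at_ p) ∧ Nrm ps K κ Λ p g q} := fun g => ⟨g.1, g.2.2⟩
    have hc : Function.Injective c := by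
      intro x y hxy
      exact Subtype.ext (congrArg (fun u : {g : Γ // g ∈ G (at_ p) ∧ Nrm ps K κ Λ p g q} => u.1) hxy)
    exact (ENNReal.tsum_comp_le_tsum_of_injective hc
      (fun g => ENNReal.ofReal ((mn (ps.TT z p g q)) ^ (-s)))).trans (hZ _ p hp q hq')
  · have : IsEmpty {g // g ∈ pm_GoGD2_NP ps at_ G I K κ Λ q 0 p} := ⟨fun g => hpq g.2.1⟩
    rw [tsum_empty]
    exact zero_le

/-- interior starting ports -/
theorem pm_GoGD2_sum (H : GH ps at_ G S I Gn) {K κ : ℝ} (hκ : 0 ≤ κ) {Λ : Set Q} (hΛ : I ⊆ Λ)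
    (hI : I.Finite) (h : Q → ℝ) (hh : ∀ e ∈ I, h (ps.bar e) = h e) {A Ai δ s : ℝ} (hs : 0 ≤ s)
    (hA : 0 ≤ A) (hAi : 0 ≤ Ai) (hδ : 0 ≤ δ) (z : Z)
    (hZ : ∀ v, ∀ p ∈ S v, ∀ q ∈ S v,
      Zs ps K κ Λ (G v) z s p q ≤ ENNReal.ofReal (A * Real.exp (s * (h p - h q))))
    (hZi : ∀ e ∈ I, ∀ e' ∈ I, at_ e' = at_ (ps.bar e) → Zs ps K κ Λ (G (at_ e')) z s (ps.bar e) e' ≤
      ENNReal.ofReal (Ai * Real.exp (s * (h (ps.bar e) - h e'))))
    (hX : ∀ e ∈ I, Xs ps z s e ≤ ENNReal.ofReal δ) {q : Q} (hq : q ∈ S (at_ q)) :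
    ∀ (n : ℕ), ∀ e ∈ I,
      ∑' g : {g // g ∈ pm_GoGD2_NP ps at_ G I K κ Λ q n (ps.bar e)},
        ENNReal.ofReal ((mn (ps.TT z (ps.bar e) g q)) ^ (-s)) ≤
      ENNReal.ofReal ((I.ncard * Ai * δ) ^ n * A * Real.exp (s * (h (ps.bar e) - h q))) := by
  intro n
  induction n with
  | zero =>
    intro e he
    rw [pow_zero, one_mul]
    exact pm_GoGD2_zero h z hZ (H.hI _ (H.hI e he).1).2 hq
  | succ n ih =>
    intro e he
    refine (pm_GoGD2_step H hκ hΛ hI h hh (B := Ai) (C := (I.ncard * Ai * δ) ^ n * A) hs hAi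
      (by positivity) hδ z hX n ?_ ih).trans (le_of_eq ?_)
    · intro e' he' hat
      have h1 := hZi e he e' he' hat
      rw [hat] at h1
      exact h1
    · congr 1
      rw [pow_succ]
      ring

/-- decomposition of a reduced path -/
theorem pm_GoGD2_path (H : GH ps at_ G S I Gn) {K κ : ℝ} {Λ : Set Q}
    (hV : ∀ v, VC ps K κ Λ (G v) (S v)) {q : Q} (hq : q ∈ S (at_ q)) (hqI : q ∉ I)
    (hcq : ps.c q ∈ G (at_ q)) {v w : V} {l : List (Γ × Q)} {gl : Γ}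
    (hpath : IsPath ps at_ G I v l gl w) :
    w = at_ q → ps.Red l → ∀ p ∈ S v, ps.c p ∈ G v →
      (l = [] → ¬ (p = q ∧ gl ∈ Subgroup.zpowers (ps.c p))) →
      (∀ x l', l = x :: l' → ¬ (p = x.2 ∧ x.1 ∈ Subgroup.zpowers (ps.c p))) →
      ∃ (k m : ℤ) (g0 : Γ), ps.pval l * gl = ps.c p ^ k * g0 * ps.c q ^ m ∧
        g0 ∈ pm_GoGD2_NP ps at_ G I K κ Λ q l.length p := by
  induction hpath with
  | @nil v g hg =>
    intro hw _ p hp hcp h0 _
    have hat : at_ p = v := H.hS v p hp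
    have hq' : q ∈ S v := by rw [hw]; exact hq
    obtain ⟨k, m, g', hgg, hN⟩ := exists_nrm (hV v) hp hq' hg (h0 rfl)
    have hg' : g' ∈ G v := by
      have h1 : g' = ps.c p ^ (-k) * g * ps.c q ^ (-m) := by rw [hgg]; group
      rw [h1]
      refine (G v).mul_mem ((G v).mul_mem ((G v).zpow_mem hcp _) hg) ((G v).zpow_mem ?_ _)
      rw [hw]
      exact hcq
    refine ⟨k, m, g', ?_, ?_⟩
    · simpa [PS.pval] using hgg
    · refine ⟨by rw [hat, hw], by rw [hat]; exact hg', hN⟩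
  | @cons v w g gl e l hg he hat hp' ih =>
    intro hw hred p hp hcp _ h1
    have hatp : at_ p = v := H.hS v p hp
    have he' : e ∈ S v := by rw [← hat]; exact (H.hI e he).2
    obtain ⟨k, m, g1, hgg, hN⟩ := exists_nrm (hV v) hp he' hg (h1 _ _ rfl)
    have hce : ps.c e ∈ G v := by rw [← hat]; exact H.hc e he
    have hg1 : g1 ∈ G v := by
      have h2 : g1 = ps.c p ^ (-k) * g * ps.c e ^ (-m) := by rw [hgg]; group
      rw [h2]
      exact (G v).mul_mem ((G v).mul_mem ((G v).zpow_mem hcp _) hg) ((G v).zpow_mem hce _)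
    have hbI : ps.bar e ∈ I := (H.hI e he).1
    have hred' : ps.Red l := by
      cases l with
      | nil => exact List.isChain_nil
      | cons y l' => exact (List.isChain_cons_cons.1 hred).2
    obtain ⟨k', m', g2, hgg2, hg2⟩ := ih hw hred' (ps.bar e) (H.hI _ hbI).2 (H.hc _ hbI)
      (fun _ hc => hqI (hc.1 ▸ hbI)) (by
        rintro y l' rfl ⟨hy1, hy2⟩
        have h3 : ps.NB (g, e) y := (List.isChain_cons_cons.1 hred).1
        exact h3 hy1.symm hy2)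
    refine ⟨k, m', g1 * ps.t e * ps.c (ps.bar e) ^ (-m + k') * g2, ?_, ?_⟩
    · have h4 : ps.c e ^ m * ps.t e = ps.t e * ps.c (ps.bar e) ^ (-m) := by
        have h5 : ps.c e = ps.t e * (ps.c (ps.bar e))⁻¹ * (ps.t e)⁻¹ := by
          have := ps.t_c e
          have h6 : ps.c e = (ps.t e * ps.c (ps.bar e) * (ps.t e)⁻¹)⁻¹ := by rw [this, inv_inv]
          rw [h6]
          group
        have h7 : ps.c e ^ m = ps.t e * (ps.c (ps.bar e))⁻¹ ^ m * (ps.t e)⁻¹ := by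
          conv_lhs => rw [h5]
          rw [conj_zpow]
        rw [h7, _root_.inv_zpow, _root_.zpow_neg]
        group
      have h8 : ps.pval ((g, e) :: l) * gl = g * ps.t e * (ps.pval l * gl) := by
        simp [PS.pval, mul_assoc]
      rw [h8, hgg2, hgg]
      calc ps.c p ^ k * g1 * ps.c e ^ m * ps.t e * (ps.c (ps.bar e) ^ k' * g2 * ps.c q ^ m')
          = ps.c p ^ k * g1 * (ps.c e ^ m * ps.t e) *
              (ps.c (ps.bar e) ^ k' * g2 * ps.c q ^ m') := by simp only [mul_assoc]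
        _ = ps.c p ^ k * g1 * (ps.t e * ps.c (ps.bar e) ^ (-m)) *
              (ps.c (ps.bar e) ^ k' * g2 * ps.c q ^ m') := by rw [h4]
        _ = _ := by rw [_root_.zpow_add]; simp only [mul_assoc]
    · refine ⟨e, he, by rw [hat, hatp], g1, by rw [hatp]; exact hg1, hN, -m + k', g2, hg2, rfl⟩

/-- number of twists -/
theorem pm_GoGD2_card {K L : ℝ} (hK : 1 ≤ K) (hL : 0 < L) :
    ∑' _ : {k : ℤ | |(k : ℝ)| * L ≤ Real.log K}, (1 : ENNReal) ≤ ENNReal.ofReal (amb K L) := by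
  have hlog : 0 ≤ Real.log K := Real.log_nonneg hK
  set x := Real.log K / L with hx
  have hx0 : 0 ≤ x := by positivity
  have hsub : {k : ℤ | |(k : ℝ)| * L ≤ Real.log K} ⊆ (Finset.Icc (-(⌊x⌋)) ⌊x⌋ : Set ℤ) := by
    intro k hk
    have h1 : |(k : ℝ)| ≤ x := by rw [hx, le_div_iff₀ hL]; exact hk
    rw [abs_le] at h1
    rw [Finset.coe_Icc, Set.mem_Icc]
    have h2 : k ≤ ⌊x⌋ := Int.le_floor.2 h1.2
    have h3 : -k ≤ ⌊x⌋ := Int.le_floor.2 (by push_cast; linarith)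
    exact ⟨by linarith, h2⟩
  refine (ENNReal.tsum_comp_le_tsum_of_injective (Set.inclusion_injective hsub)
    (fun _ => (1 : ENNReal))).trans ?_
  rw [ENNReal.tsum_set_one, Set.encard_coe_eq_coe_finsetCard]
  have h4 : ((Finset.Icc (-(⌊x⌋)) ⌊x⌋).card : ℝ) ≤ amb K L := by
    rw [Int.card_Icc]
    have h5 : 0 ≤ ⌊x⌋ := Int.floor_nonneg.2 hx0
    have h6 : (⌊x⌋ : ℝ) ≤ x := Int.floor_le x
    have h7 : ((⌊x⌋ + 1 - -⌊x⌋).toNat : ℝ) = 2 * (⌊x⌋ : ℝ) + 1 := by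
      have h8 : (((⌊x⌋ + 1 - -⌊x⌋).toNat : ℤ) : ℝ) = ((⌊x⌋ + 1 - -⌊x⌋ : ℤ) : ℝ) := by
        rw [Int.toNat_of_nonneg (by linarith)]
      rw [Int.cast_natCast] at h8
      rw [h8]
      push_cast
      ring
    rw [h7, amb]
    have h9 : 2 * Real.log K / L = 2 * x := by rw [hx]; ring
    rw [h9]
    linarith
  have h10 : (((Finset.Icc (-(⌊x⌋)) ⌊x⌋).card : ℕ∞) : ENNReal) =
      ENNReal.ofReal ((Finset.Icc (-(⌊x⌋)) ⌊x⌋).card : ℝ) := by
    rw [ENNReal.ofReal_natCast]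
    simp
  rw [h10]
  exact ENNReal.ofReal_le_ofReal h4

/-- composition of the sums, with potentials `h` -/
theorem Z_glue (H : GH ps at_ G S I Gn) {K κ : ℝ} (hκ : 0 ≤ κ) {Λ : Set Q} (hΛ : I ⊆ Λ)
    (hV : ∀ v, VC ps K κ Λ (G v) (S v)) (Sn : Set Q) (hSn : ∀ p ∈ Sn, p ∈ S (at_ p) ∧ p ∉ I)
    (hcn : ∀ p ∈ Sn, ps.c p ∈ G (at_ p)) (hI : I.Finite) (h : Q → ℝ)
    (hh : ∀ e ∈ I, h (ps.bar e) = h e) {A Ai δ s : ℝ} (hs : 0 ≤ s)
    (hA : 0 ≤ A) (hAi : 0 ≤ Ai) (hδ : 0 ≤ δ) (z : Z)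
    (hZ : ∀ v, ∀ p ∈ S v, ∀ q ∈ S v,
      Zs ps K κ Λ (G v) z s p q ≤ ENNReal.ofReal (A * Real.exp (s * (h p - h q))))
    (hZi : ∀ e ∈ I, ∀ e' ∈ I, at_ e' = at_ (ps.bar e) → Zs ps K κ Λ (G (at_ e')) z s (ps.bar e) e' ≤
      ENNReal.ofReal (Ai * Real.exp (s * (h (ps.bar e) - h e'))))
    (hX : ∀ e ∈ I, Xs ps z s e ≤ ENNReal.ofReal δ) (hsm : I.ncard * Ai * δ ≤ 1 / 2)
    {p q : Q} (hp : p ∈ Sn) (hq : q ∈ Sn) :
    Zs ps K κ Λ Gn z s p q ≤
      ENNReal.ofReal (amb K (ps.L p) * amb K (ps.L q) * K ^ (2 * s) *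
        (A + 2 * I.ncard * A ^ 2 * δ) * Real.exp (s * (h p - h q))) := by
  classical
  rcases isEmpty_or_nonempty {g : Γ // g ∈ Gn ∧ Nrm ps K κ Λ p g q} with hemp | ⟨⟨g₀, hg₀, w₀, hw₀, hT₀⟩⟩
  · rw [Zs, tsum_empty]
    exact zero_le
  have hK : 1 ≤ K := (Word.bal hκ hw₀ ps z).one_le
  have hK0 : 0 < K := by linarith
  have hp' := hSn p hp
  have hq' := hSn q hq
  let NP := pm_GoGD2_NP ps at_ G I K κ Λ q
  let Kp : Set ℤ := {k : ℤ | |(k : ℝ)| * ps.L p ≤ Real.log K}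
  let Kq : Set ℤ := {k : ℤ | |(k : ℝ)| * ps.L q ≤ Real.log K}
  let T := (Kp × Kq) × (Σ n : ℕ, {g // g ∈ NP n p})
  let dec : T → Γ := fun x => ps.c p ^ (x.1.1 : ℤ) * x.2.2.1 * ps.c q ^ (x.1.2 : ℤ)
  let F : T → ENNReal := fun x =>
    ENNReal.ofReal (K ^ (2 * s)) * ENNReal.ofReal ((mn (ps.TT z p x.2.2.1 q)) ^ (-s))
  have hcode : ∀ g : {g : Γ // g ∈ Gn ∧ Nrm ps K κ Λ p g q}, ∃ x : T, dec x = g.1 ∧
      ENNReal.ofReal ((mn (ps.TT z p g q)) ^ (-s)) ≤ F x := by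
    rintro ⟨g, hg, hN⟩
    obtain ⟨l0, gl0, hl0, hv0⟩ := paths_exist H (at_ p) (at_ q) hg
    obtain ⟨l, gl, hl, hred, hv, _⟩ := reduce H hl0
    obtain ⟨k, m, g0, hg0, hNP⟩ := pm_GoGD2_path H hV hq'.1 hq'.2 (hcn q hq) hl rfl hred p hp'.1
      (hcn p hp) (by
        rintro rfl ⟨rfl, hz⟩
        have hgl : gl = g := by rw [← hv0, ← hv]; simp [PS.pval]
        rw [hgl] at hz
        obtain ⟨w, hw, hT⟩ := hN
        have hB := (Word.bal hκ hw ps z).pos 0 0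
        rw [← hT z, TT_degenerate ps z p hz] at hB
        exact lt_irrefl _ hB) (by
        rintro x l' rfl ⟨hx, _⟩
        have hxI : x.2 ∈ I := by
          cases hl with
          | cons _ he _ _ => exact he
        exact hp'.2 (hx ▸ hxI))
    have hgeq : g = ps.c p ^ k * g0 * ps.c q ^ m := by rw [← hg0, hv, hv0]
    have hN0 := pm_GoGD2_NP_nrm hΛ _ _ _ hNP
    have hamb := nrm_amb hκ ⟨z⟩ hN0 (hgeq ▸ hN)
    refine ⟨((⟨k, hamb.1⟩, ⟨m, hamb.2⟩), ⟨l.length, ⟨g0, hNP⟩⟩), hgeq.symm, ?_⟩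
    obtain ⟨w, hw, hT⟩ := hN
    obtain ⟨w0, hw0, hT0⟩ := hN0
    have hB := Word.bal hκ hw ps z
    have hB0 := Word.bal hκ hw0 ps z
    rw [← hT z] at hB
    rw [← hT0 z] at hB0
    have hm := hB.mn_pos
    have hm0 := hB0.mn_pos
    have h11 : mn (ps.TT z p g0 q) ≤ K ^ 2 * mn (ps.TT z p g q) := by
      refine (mn_le _ 1 1).trans ?_
      have h1 : ps.TT z p g q 1 1 = ps.TT z p g0 q 1 1 := by
        rw [hgeq, TT_c, pm_GoGD1_entry]
        simp
      rw [← h1]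
      exact (le_mx _ 1 1).trans hB.mx_le
    simp only [F]
    rw [← ENNReal.ofReal_mul (by positivity)]
    apply ENNReal.ofReal_le_ofReal
    have h12 : (K ^ 2 * mn (ps.TT z p g q)) ^ (-s) ≤ mn (ps.TT z p g0 q) ^ (-s) :=
      Real.rpow_le_rpow_of_nonpos hm0 h11 (by linarith)
    rw [Real.mul_rpow (by positivity) hm.le] at h12
    have h13 : K ^ (2 * s) * (K ^ 2) ^ (-s) = 1 := by
      rw [Real.rpow_mul hK0.le, Real.rpow_two, ← Real.rpow_add (by positivity)]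
      simp
    calc mn (ps.TT z p g q) ^ (-s)
        = K ^ (2 * s) * ((K ^ 2) ^ (-s) * mn (ps.TT z p g q) ^ (-s)) := by
          rw [← mul_assoc, h13, one_mul]
      _ ≤ _ := mul_le_mul_of_nonneg_left h12 (by positivity)
  choose code hdec hle using hcode
  have hinj : Function.Injective code := by
    intro x y hxy
    apply Subtype.ext
    rw [← hdec x, ← hdec y, hxy]
  rw [Zs]
  refine (ENNReal.tsum_le_tsum hle).trans
    ((ENNReal.tsum_comp_le_tsum_of_injective hinj F).trans ?_)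
  have hsum : ∑' x : T, F x = (∑' _ : Kp, (1 : ENNReal)) * (∑' _ : Kq, (1 : ENNReal)) *
      (ENNReal.ofReal (K ^ (2 * s)) * ∑' n : ℕ, ∑' g : {g // g ∈ NP n p},
        ENNReal.ofReal ((mn (ps.TT z p g q)) ^ (-s))) := by
    rw [ENNReal.tsum_prod']
    simp only [F]
    simp_rw [ENNReal.tsum_mul_left]
    have h1 : ∀ c : ENNReal, ∑' _ : Kp × Kq, c = (∑' _ : Kp, (1 : ENNReal)) *
        (∑' _ : Kq, (1 : ENNReal)) * c := by
      intro c
      rw [ENNReal.tsum_prod']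
      have h2 : ∑' _ : Kq, c = (∑' _ : Kq, (1 : ENNReal)) * c := by
        rw [← ENNReal.tsum_mul_right]
        simp
      rw [h2]
      have h3 : ∀ d : ENNReal, ∑' _ : Kp, d = (∑' _ : Kp, (1 : ENNReal)) * d := by
        intro d
        rw [← ENNReal.tsum_mul_right]
        simp
      rw [h3, mul_assoc]
    rw [h1, ENNReal.tsum_sigma']
    ring
  rw [hsum]
  have hx0 : (0 : ℝ) ≤ I.ncard * Ai * δ := by positivity
  have hE0 : 0 < Real.exp (s * (h p - h q)) := Real.exp_pos _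
  have hgeo : ∑' n : ℕ, ∑' g : {g // g ∈ NP n p}, ENNReal.ofReal ((mn (ps.TT z p g q)) ^ (-s)) ≤
      ENNReal.ofReal ((A + 2 * I.ncard * A ^ 2 * δ) * Real.exp (s * (h p - h q))) := by
    rw [tsum_eq_zero_add' ENNReal.summable]
    have h15 : (A + 2 * I.ncard * A ^ 2 * δ) * Real.exp (s * (h p - h q)) =
        A * Real.exp (s * (h p - h q)) +
          2 * (I.ncard * A * δ * A * Real.exp (s * (h p - h q))) := by ring
    rw [h15, ENNReal.ofReal_add (by positivity) (by positivity)]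
    refine add_le_add (pm_GoGD2_zero h z hZ hp'.1 hq'.1) ?_
    refine (ENNReal.tsum_le_tsum fun n => (pm_GoGD2_step H hκ hΛ hI h hh (B := A)
      (C := (I.ncard * Ai * δ) ^ n * A) hs hA (by positivity) hδ z hX n
      (fun e he hat => hZ _ p hp'.1 e (by rw [← hat]; exact (H.hI e he).2))
      (pm_GoGD2_sum H hκ hΛ hI h hh hs hA hAi hδ z hZ hZi hX hq'.1 n)).trans
      (ENNReal.ofReal_le_ofReal
        (q := (1 / 2 : ℝ) ^ n * (I.ncard * A * δ * A * Real.exp (s * (h p - h q)))) ?_)).trans ?_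
    · have h16 : I.ncard * A * δ * ((I.ncard * Ai * δ) ^ n * A) * Real.exp (s * (h p - h q)) =
          (I.ncard * Ai * δ) ^ n * (I.ncard * A * δ * A * Real.exp (s * (h p - h q))) := by ring
      rw [h16]
      exact mul_le_mul_of_nonneg_right (pow_le_pow_left₀ hx0 hsm n) (by positivity)
    · have h14 : HasSum (fun n : ℕ => (1 / 2 : ℝ) ^ n *
          (I.ncard * A * δ * A * Real.exp (s * (h p - h q))))
          (2 * (I.ncard * A * δ * A * Real.exp (s * (h p - h q)))) :=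
        hasSum_geometric_two.mul_right _
      rw [← ENNReal.ofReal_tsum_of_nonneg (fun n => by positivity) h14.summable, h14.tsum_eq]
  have hcp := pm_GoGD2_card hK (ps.L_pos p)
  have hcq := pm_GoGD2_card hK (ps.L_pos q)
  have hlog : 0 ≤ Real.log K := Real.log_nonneg hK
  have ha1 : 0 ≤ amb K (ps.L p) := by
    have := ps.L_pos p
    rw [amb]
    positivity
  have ha2 : 0 ≤ amb K (ps.L q) := by
    have := ps.L_pos q
    rw [amb]
    positivity
  refine (mul_le_mul' (mul_le_mul' hcp hcq) (mul_le_mul' le_rfl hgeo)).trans (le_of_eq ?_)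
  rw [← ENNReal.ofReal_mul ha1, ← ENNReal.ofReal_mul (by positivity),
    ← ENNReal.ofReal_mul (by positivity)]
  congr 1
  ring

/-- size of an element in the frame of `p` -/
def PS.N (ps : PS Γ Z Q) (p : Q) (z : Z) (g : Γ) : ℝ :=
  nrm ((((ps.F p z)⁻¹ : GL (Fin 3) ℝ) : M3) * (ps.r z g : M3) * (ps.F p z : M3))

theorem pm_GoGD3_nrm_J (A : M3) : nrm (A * J3) = nrm A := by
  simp only [nrm, J3, Fin.sum_univ_three, Matrix.mul_apply, Matrix.of_apply, Matrix.cons_val',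
    Matrix.cons_val_zero, Matrix.cons_val_one, Matrix.cons_val, Matrix.cons_val_fin_one]
  simp only [mul_zero, mul_one, zero_add, add_zero, mul_neg, abs_neg]
  ring

theorem pm_GoGD3_N (p : Q) (z : Z) (g : Γ) : ps.N p z g = nrm (ps.TT z p g p) := by
  rw [PS.N, PS.TT, pm_GoGD3_nrm_J]

/-- the sum over normalised elements is bounded by the Poincaré series -/
theorem Zs_le_poin {K κ : ℝ} (hκ : 0 ≤ κ) {Λ : Set Q} {G : Subgroup Γ} (z : Z) {s : ℝ} (hs : 0 ≤ s)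
    (p : Q) : Zs ps K κ Λ G z s p p ≤
      ENNReal.ofReal ((9 * K ^ 2) ^ s) * ∑' g : G, ENNReal.ofReal ((ps.N p z g) ^ (-s)) := by
  rw [← ENNReal.tsum_mul_left, Zs]
  let c : {g : Γ // g ∈ G ∧ Nrm ps K κ Λ p g p} → G := fun g => ⟨g.1, g.2.1⟩
  have hc : Function.Injective c := by
    intro x y hxy
    exact Subtype.ext (congrArg (fun u : G => (u : Γ)) hxy)
  refine (ENNReal.tsum_le_tsum fun g => ?_).trans (ENNReal.tsum_comp_le_tsum_of_injective hc
    (fun g : G => ENNReal.ofReal ((9 * K ^ 2) ^ s) * ENNReal.ofReal ((ps.N p z g) ^ (-s))))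
  obtain ⟨g, hg, w, hw, hT⟩ := g
  simp only [c]
  have hA := Word.bal hκ hw ps z
  rw [← hT z] at hA
  rw [pm_GoGD3_N]
  set A := ps.TT z p g p with hAdef
  have hK : 1 ≤ K := hA.one_le
  have hmn := hA.mn_pos
  have h1 : nrm A ≤ 9 * K ^ 2 * mn A := by
    have h2 := (nrm_le_mx hA.pos).2
    have h3 := hA.mx_le
    linarith
  have h4 : 0 < nrm A := lt_of_lt_of_le (lt_of_lt_of_le (hA.pos 0 0) (le_mx A 0 0))
    (nrm_le_mx hA.pos).1
  rw [← ENNReal.ofReal_mul (by positivity)]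
  apply ENNReal.ofReal_le_ofReal
  have h5 : (9 * K ^ 2 * mn A) ^ (-s) ≤ nrm A ^ (-s) :=
    Real.rpow_le_rpow_of_nonpos h4 h1 (by linarith)
  rw [Real.mul_rpow (by positivity) hmn.le] at h5
  have h6 : (9 * K ^ 2) ^ s * (9 * K ^ 2) ^ (-s) = 1 := by
    rw [← Real.rpow_add (by positivity)]
    simp
  calc mn A ^ (-s) = (9 * K ^ 2) ^ s * ((9 * K ^ 2) ^ (-s) * mn A ^ (-s)) := by
        rw [← mul_assoc, h6, one_mul]
    _ ≤ _ := mul_le_mul_of_nonneg_left h5 (by positivity)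

/-- the norm of `Cd k * A * Cd (-m)` -/
theorem pm_GoGD3_low (L L' : ℝ) (k m : ℤ) {A : M3}
    (hA : ∀ i j, 0 ≤ A i j) (c : ℝ) (hc : 0 ≤ c) (hcA : ∀ i j, c ≤ A i j) :
    Real.exp (|(k : ℝ)| * L) * Real.exp (|(m : ℝ)| * L') * c ≤ nrm (Cd L k * A * Cd L' (-m)) := by
  obtain ⟨i, hi⟩ : ∃ i : Fin 3, Real.exp (|(k : ℝ)| * L) ≤
      (![Real.exp (-(k * L)), 1, Real.exp (k * L)] : Fin 3 → ℝ) i := by
    rcases le_total 0 (k : ℝ) with h | h
    · exact ⟨2, by simp [abs_of_nonneg h]⟩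
    · exact ⟨0, by simp [abs_of_nonpos h]⟩
  obtain ⟨j, hj⟩ : ∃ j : Fin 3, Real.exp (|(m : ℝ)| * L') ≤
      (![Real.exp (m * L'), 1, Real.exp (-(m * L'))] : Fin 3 → ℝ) j := by
    rcases le_total 0 (m : ℝ) with h | h
    · exact ⟨0, by simp [abs_of_nonneg h]⟩
    · exact ⟨2, by simp [abs_of_nonpos h]⟩
  have h1 : (Cd L k * A * Cd L' (-m)) i j ≤ nrm (Cd L k * A * Cd L' (-m)) := by
    refine (le_abs_self _).trans ?_
    refine (Finset.single_le_sum (f := fun j => |(Cd L k * A * Cd L' (-m)) i j|)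
      (fun j _ => abs_nonneg _) (Finset.mem_univ j)).trans ?_
    exact Finset.single_le_sum (f := fun i => ∑ j, |(Cd L k * A * Cd L' (-m)) i j|)
      (fun i _ => Finset.sum_nonneg fun j _ => abs_nonneg _) (Finset.mem_univ i)
  refine le_trans ?_ h1
  rw [pm_GoGD1_entry]
  have h2 := Real.exp_pos (|(k : ℝ)| * L)
  have h3 := Real.exp_pos (|(m : ℝ)| * L')
  calc Real.exp (|(k : ℝ)| * L) * Real.exp (|(m : ℝ)| * L') * c
      = Real.exp (|(k : ℝ)| * L) * c * Real.exp (|(m : ℝ)| * L') := by ring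
    _ ≤ _ := mul_le_mul (mul_le_mul hi (hcA i j) hc (h2.le.trans hi)) hj h3.le
        (mul_nonneg (h2.le.trans hi) (hA i j))

/-- `∑_k e^{-s|k|L} ≤ 1 + 2/(sL)` -/
theorem pm_GoGD3_geom {a : ℝ} (ha : 0 < a) :
    ∑' k : ℤ, ENNReal.ofReal (Real.exp (-(a * |(k : ℝ)|))) ≤ ENNReal.ofReal (1 + 2 / a) := by
  have hr0 : 0 < Real.exp (-a) := Real.exp_pos _
  have hr1 : Real.exp (-a) < 1 := by rw [Real.exp_lt_one_iff]; linarith
  have hg : HasSum (fun n : ℕ => Real.exp (-a) ^ n) (1 - Real.exp (-a))⁻¹ :=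
    hasSum_geometric_of_lt_one hr0.le hr1
  have hpos : ∀ n : ℕ, Real.exp (-(a * |((n : ℤ) : ℝ)|)) = Real.exp (-a) ^ n := by
    intro n
    rw [← Real.exp_nat_mul]
    congr 1
    rw [Int.cast_natCast, abs_of_nonneg (Nat.cast_nonneg n)]
    ring
  have hneg : ∀ n : ℕ, Real.exp (-(a * |((-((n : ℤ) + 1) : ℤ) : ℝ)|)) =
      Real.exp (-a) * Real.exp (-a) ^ n := by
    intro n
    rw [← Real.exp_nat_mul, ← Real.exp_add]
    congr 1
    push_cast
    rw [abs_neg, abs_of_nonneg (by positivity)]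
    ring
  have hs : HasSum (fun k : ℤ => Real.exp (-(a * |(k : ℝ)|)))
      ((1 - Real.exp (-a))⁻¹ + Real.exp (-a) * (1 - Real.exp (-a))⁻¹) := by
    apply HasSum.of_nat_of_neg_add_one
    · simpa only [hpos] using hg
    · simpa only [hneg] using hg.mul_left _
  rw [← ENNReal.ofReal_tsum_of_nonneg (fun k => (Real.exp_pos _).le) hs.summable, hs.tsum_eq]
  apply ENNReal.ofReal_le_ofReal
  have h1 : 0 < 1 - Real.exp (-a) := by linarith
  have h2 : a * Real.exp (-a) ≤ 1 - Real.exp (-a) := by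
    have h3 := Real.add_one_le_exp a
    have h4 : Real.exp a * Real.exp (-a) = 1 := by rw [← Real.exp_add]; simp
    nlinarith
  have h3 : (1 - Real.exp (-a))⁻¹ + Real.exp (-a) * (1 - Real.exp (-a))⁻¹ =
      1 + 2 * (Real.exp (-a) / (1 - Real.exp (-a))) := by
    field_simp
    ring
  rw [h3]
  have h4 : Real.exp (-a) / (1 - Real.exp (-a)) ≤ 1 / a := by
    rw [div_le_div_iff₀ h1 ha]
    linarith
  have h5 : 2 / a = 2 * (1 / a) := by ring
  rw [h5]
  linarith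

/-- the Poincaré series is bounded by the sum over normalised elements -/
theorem poin_le_Zs {K κ : ℝ} (hκ : 0 ≤ κ) {Λ : Set Q} {G : Subgroup Γ} {S : Set Q}
    (hV : VC ps K κ Λ G S) (z : Z) {s : ℝ} (hs : 0 < s) {p : Q} (hp : p ∈ S) (hcp : ps.c p ∈ G) :
    ∑' g : G, ENNReal.ofReal ((ps.N p z g) ^ (-s)) ≤
      ENNReal.ofReal ((1 + 2 / (s * ps.L p)) ^ 2) * (1 + Zs ps K κ Λ G z s p p) := by
  classical
  have hL := ps.L_pos p
  let X := {g : Γ // g ∈ G ∧ Nrm ps K κ Λ p g p}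
  let dec : (ℤ × ℤ) × (Unit ⊕ X) → Γ := fun x =>
    ps.c p ^ x.1.1 * Sum.elim (fun _ => 1) (fun g => g.1) x.2 * ps.c p ^ x.1.2
  let E : ℤ → ENNReal := fun k => ENNReal.ofReal (Real.exp (-(s * ps.L p * |(k : ℝ)|)))
  let W : Unit ⊕ X → ENNReal :=
    Sum.elim (fun _ => 1) (fun g => ENNReal.ofReal ((mn (ps.TT z p g.1 p)) ^ (-s)))
  let F : (ℤ × ℤ) × (Unit ⊕ X) → ENNReal := fun x => E x.1.1 * E x.1.2 * W x.2
  have hexp : ∀ (k m : ℤ) (c N : ℝ), 0 < c →
      Real.exp (|(k : ℝ)| * ps.L p) * Real.exp (|(m : ℝ)| * ps.L p) * c ≤ N →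
      ENNReal.ofReal (N ^ (-s)) ≤ E k * E m * ENNReal.ofReal (c ^ (-s)) := by
    intro k m c N hc hN
    have h1 := Real.exp_pos (|(k : ℝ)| * ps.L p)
    have h2 := Real.exp_pos (|(m : ℝ)| * ps.L p)
    have h3 : N ^ (-s) ≤ (Real.exp (|(k : ℝ)| * ps.L p) * Real.exp (|(m : ℝ)| * ps.L p) * c) ^ (-s) :=
      Real.rpow_le_rpow_of_nonpos (by positivity) hN (by linarith)
    refine (ENNReal.ofReal_le_ofReal h3).trans (le_of_eq ?_)
    rw [Real.mul_rpow (by positivity) hc.le, Real.mul_rpow h1.le h2.le,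
      ENNReal.ofReal_mul (by positivity), ENNReal.ofReal_mul (by positivity)]
    congr 1
    congr 1
    · simp only [E]
      rw [← Real.exp_mul]
      congr 2
      ring
    · simp only [E]
      rw [← Real.exp_mul]
      congr 2
      ring
  have hcode : ∀ g : G, ∃ x : (ℤ × ℤ) × (Unit ⊕ X), dec x = g ∧
      ENNReal.ofReal ((ps.N p z g) ^ (-s)) ≤ F x := by
    intro g
    by_cases hg : (g : Γ) ∈ Subgroup.zpowers (ps.c p)
    · obtain ⟨k, hk⟩ := Subgroup.mem_zpowers_iff.1 hg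
      refine ⟨((k, 0), Sum.inl ()), by simp [dec, hk], ?_⟩
      have h1 : ps.N p z g = nrm (Cd (ps.L p) k * (1 : M3) * Cd (ps.L p) (-0)) := by
        have h2 : (g : Γ) = ps.c p ^ k * 1 * ps.c p ^ (0 : ℤ) := by simp [hk]
        rw [pm_GoGD3_N, h2, TT_c]
        have h3 : ps.TT z p 1 p = J3 := by
          rw [PS.TT, map_one]
          have h4 : (((ps.F p z)⁻¹ : GL (Fin 3) ℝ) : M3) * ((1 : GL (Fin 3) ℝ) : M3) *
              (ps.F p z : M3) = 1 := by
            rw [← Units.val_mul, ← Units.val_mul, mul_one, inv_mul_cancel, Units.val_one]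
          rw [h4, one_mul]
        rw [h3, neg_zero, pm_GoGD1_Cd_zero, mul_one, mul_one, mul_one, pm_GoGD3_nrm_J]
      have h5 := hexp k 0 1 (ps.N p z g) one_pos (by
        rw [h1]
        have h6 : Real.exp (|(k : ℝ)| * ps.L p) ≤
            nrm (Cd (ps.L p) k * (1 : M3) * Cd (ps.L p) (-0)) := by
          rw [neg_zero, pm_GoGD1_Cd_zero, mul_one, mul_one]
          have h7 : nrm (Cd (ps.L p) k) = Real.exp (-(k * ps.L p)) + 1 + Real.exp (k * ps.L p) := by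
            simp [nrm, Cd, Fin.sum_univ_three, Matrix.diagonal, abs_of_pos, Real.exp_pos]
          rw [h7]
          have h8 := Real.exp_pos (-(k * ps.L p))
          have h9 := Real.exp_pos (k * ps.L p)
          rcases le_total 0 (k : ℝ) with h | h
          · rw [abs_of_nonneg h]; linarith
          · rw [abs_of_nonpos h, neg_mul]; linarith
        simpa using h6)
      simpa [F, W] using h5
    · obtain ⟨k, m, g', hgg, hN⟩ := exists_nrm hV hp hp g.2 (fun h => hg h.2)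
      have hg' : g' ∈ G := by
        have h1 : g' = ps.c p ^ (-k) * g * ps.c p ^ (-m) := by rw [hgg]; group
        rw [h1]
        exact G.mul_mem (G.mul_mem (G.zpow_mem hcp _) g.2) (G.zpow_mem hcp _)
      refine ⟨((k, m), Sum.inr ⟨g', hg', hN⟩), by simp [dec, hgg], ?_⟩
      obtain ⟨w, hw, hT⟩ := hN
      have hA := Word.bal hκ hw ps z
      rw [← hT z] at hA
      refine hexp k m (mn (ps.TT z p g' p)) (ps.N p z g) hA.mn_pos ?_
      rw [pm_GoGD3_N, hgg, TT_c]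
      exact pm_GoGD3_low _ _ k m (fun i j => (hA.pos i j).le) _ hA.mn_pos.le
        (fun i j => mn_le _ i j)
  choose code hdec hle using hcode
  have hinj : Function.Injective code := by
    intro x y hxy
    apply Subtype.ext
    rw [← hdec x, ← hdec y, hxy]
  refine (ENNReal.tsum_le_tsum hle).trans
    ((ENNReal.tsum_comp_le_tsum_of_injective hinj F).trans ?_)
  have hE : ∑' k : ℤ, E k ≤ ENNReal.ofReal (1 + 2 / (s * ps.L p)) :=
    pm_GoGD3_geom (mul_pos hs hL)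
  have hF : ∑' x, F x = (∑' k, E k) * (∑' k, E k) * ∑' y, W y := by
    rw [ENNReal.tsum_prod']
    simp only [F]
    simp_rw [ENNReal.tsum_mul_left]
    rw [ENNReal.tsum_mul_right, ENNReal.tsum_prod']
    simp_rw [ENNReal.tsum_mul_left]
    rw [ENNReal.tsum_mul_right]
  have hW : ∑' y, W y = 1 + Zs ps K κ Λ G z s p p := by
    rw [Summable.tsum_sum ENNReal.summable ENNReal.summable]
    simp [W, Zs, X]
  rw [hF, hW, ENNReal.ofReal_pow (by positivity), sq]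
  gcongr

end

end PM3
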