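import Pool.Agent.LibPM3.GoGC
import Pool.Agent.LibPM3.GoGD

/-! [PM3 GoGE] sums over conjugacy classes. -/

namespace PM3
open Matrix Filter Topology

noncomputable section

variable {Γ Z Q V : Type} [Group Γ] {ps : PS Γ Z Q} {at_ : Q → V} {G : V → Subgroup Γ} {S : V → Set Q}
  {I : Set Q}

/-- the evaluated list of letters is admissible -/
private theorem pm_GoGE1_adm {K κ : ℝ} {Λ : Set Q} {l : List (Q × ℤ × M3)} (h : OkL K κ Λ l)
    (ps : PS Γ Z Q) (z : Z) :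
    ∀ x ∈ l.map (fun x => (ps.Dl x.1 x.2.1 z, x.2.2)), PosD x.1 ∧ Bal K κ x.2 := by
  intro y hy
  rw [List.mem_map] at hy
  obtain ⟨x, hx, rfl⟩ := hy
  exact ⟨Dl_pos ps _ _ z, (h x hx).2⟩

private theorem pm_GoGE1_pow {K κ : ℝ} (hκ : 0 < κ) (l : List ((Fin 3 → ℝ) × M3))
    (h : ∀ x ∈ l, PosD x.1 ∧ Bal K κ x.2) :
    (1 + κ) ^ l.length ≤ (l.map (fun x => dp x.2)).prod := by
  induction l with
  | nil => simp
  | cons a l ih =>
    have h1 := ih (fun x hx => h x (List.mem_cons_of_mem _ hx))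
    have h2 : 1 + κ ≤ dp a.2 := (h a List.mem_cons_self).2.dp_ge
    rw [List.map_cons, List.prod_cons, List.length_cons, pow_succ']
    exact mul_le_mul h2 h1 (by positivity) (by linarith)

private theorem pm_GoGE1_cnt (M : Set Q) (l : List (Q × ℤ × M3)) : cntL M l ≤ l.length := by
  unfold cntL
  exact List.length_filter_le _ _

private theorem pm_GoGE1_lam {K κ : ℝ} (hκ : 0 < κ) (l : List ((Fin 3 → ℝ) × M3))
    (h : ∀ x ∈ l, PosD x.1 ∧ Bal K κ x.2) :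
    (l.length : ℝ) * Real.log (1 + κ) ≤ 3 * Real.log (lam (prodL l)) := by
  have h1 := pm_GoGE1_pow hκ l h
  have h2 := lam_cyc_ge' hκ.le l h
  have h3 : (1 + κ) ^ l.length ≤ lam (prodL l) ^ 3 := h1.trans h2
  have h4 := Real.log_le_log (by positivity) h3
  rw [Real.log_pow, Real.log_pow] at h4
  push_cast at h4
  exact h4

private theorem pm_GoGE1_cst {K κ : ℝ} {B : M3} (h : Bal K κ B) :
    (∀ x ∈ [((fun _ => (1 : ℝ) : Fin 3 → ℝ), B)], PosD x.1 ∧ Bal K κ x.2) ∧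
    prodL [((fun _ => (1 : ℝ) : Fin 3 → ℝ), B)] = B := by
  constructor
  · intro x hx
    rw [List.mem_singleton] at hx
    subst hx
    exact ⟨⟨fun i => one_pos, by norm_num⟩, h⟩
  · unfold prodL
    simp

/-- number of letters of a word against its entries -/
theorem cntL_le {K κ : ℝ} (hκ : 0 < κ) {Λ : Set Q} {w : Word Q} (h : w.Ok K κ Λ) (ps : PS Γ Z Q) (z : Z)
    {κ₀ : ℝ} (hκ₀ : 0 ≤ κ₀) (M : Set Q) :
    Real.exp (κ₀ * cntL M w.tl) ≤
      K ^ (6 * κ₀ / Real.log (1 + κ)) * (mn (ps.eval w z)) ^ (3 * κ₀ / Real.log (1 + κ)) := by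
  have hlog : 0 < Real.log (1 + κ) := Real.log_pos (by linarith)
  have hA := Word.bal hκ.le h ps z
  have hK : 1 ≤ K := hA.one_le
  have hmn := hA.mn_pos
  set A := ps.eval w z with hAdef
  have h1 := (Bal.word hκ.le h.1 _ (pm_GoGE1_adm h.2 ps z)).2.1
  have h2 := pm_GoGE1_pow hκ _ (pm_GoGE1_adm h.2 ps z)
  rw [List.length_map] at h2
  have h3 : (1 + κ) ^ w.tl.length ≤ dp A := by
    have h4 : 1 + κ ≤ dp w.hd := h.1.dp_ge
    have h5 : (1 : ℝ) * (1 + κ) ^ w.tl.length ≤ dp w.hd *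
        ((w.tl.map (fun x => (ps.Dl x.1 x.2.1 z, x.2.2))).map (fun x => dp x.2)).prod :=
      mul_le_mul (by linarith) h2 (by positivity) (by linarith)
    rw [one_mul] at h5
    exact h5.trans h1
  have h4 : dp A ≤ (K ^ 2 * mn A) ^ 3 := by
    have hm : ∀ i j, A i j ≤ K ^ 2 * mn A := fun i j => (le_mx A i j).trans hA.mx_le
    have hp := hA.pos
    unfold dp
    have e : (K ^ 2 * mn A) ^ 3 = (K ^ 2 * mn A) * (K ^ 2 * mn A) * (K ^ 2 * mn A) := by ring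
    rw [e]
    have q1 := hp 0 0
    have q2 := hp 1 1
    have q3 := hp 2 2
    exact mul_le_mul (mul_le_mul (hm 0 0) (hm 1 1) q2.le (by positivity)) (hm 2 2) q3.le
      (by positivity)
  have h5 : (1 + κ) ^ (cntL M w.tl) ≤ (K ^ 2 * mn A) ^ 3 :=
    (pow_le_pow_right₀ (by linarith) (pm_GoGE1_cnt M w.tl)).trans (h3.trans h4)
  have hK0 : 0 < K := by linarith
  set t : ℝ := κ₀ / Real.log (1 + κ) with ht
  have ht0 : 0 ≤ t := by positivity
  have h6 := Real.rpow_le_rpow (by positivity) h5 ht0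
  have e1 : ((1 + κ) ^ (cntL M w.tl)) ^ t = Real.exp (κ₀ * cntL M w.tl) := by
    rw [← Real.rpow_natCast, ← Real.rpow_mul (by linarith), Real.rpow_def_of_pos (by linarith)]
    congr 1
    rw [ht]
    field_simp
  have e2 : ((K ^ 2 * mn A) ^ 3) ^ t =
      K ^ (6 * κ₀ / Real.log (1 + κ)) * (mn A) ^ (3 * κ₀ / Real.log (1 + κ)) := by
    rw [mul_pow, ← pow_mul, Real.mul_rpow (by positivity) (by positivity),
      ← Real.rpow_natCast, ← Real.rpow_natCast, ← Real.rpow_mul hK0.le, ← Real.rpow_mul hmn.le]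
    congr 2
    · rw [ht]; push_cast; ring
    · rw [ht]; push_cast; ring
  rw [e1, e2] at h6
  exact h6

/-- number of letters of a cyclic word against its spectral radius -/
theorem cnt_le {K κ : ℝ} (hκ : 0 < κ) {Λ : Set Q} {cw : CW Q} (h : cw.Ok K κ Λ) (ps : PS Γ Z Q) (z : Z)
    (M : Set Q) : (cw.cnt M : ℝ) ≤ 3 * Real.log (lam (ps.evC z cw)) / Real.log (1 + κ) := by
  have hlog : 0 < Real.log (1 + κ) := Real.log_pos (by linarith)
  rw [le_div_iff₀ hlog]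
  cases cw with
  | cst B =>
    obtain ⟨h1, h2⟩ := pm_GoGE1_cst (show Bal K κ B from h)
    have h4 := pm_GoGE1_lam hκ _ h1
    rw [h2] at h4
    have h5 : ((CW.cst B : CW Q).cnt M : ℝ) = 0 := by simp [CW.cnt]
    rw [h5, zero_mul]
    have h6 : (0 : ℝ) ≤ (([((fun _ => (1 : ℝ) : Fin 3 → ℝ), B)] : List _).length : ℝ) *
        Real.log (1 + κ) := by positivity
    exact h6.trans h4
  | cyc l =>
    have h1 := pm_GoGE1_adm (show OkL K κ Λ l from h.2) ps z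
    have hne : l.map (fun x => (ps.Dl x.1 x.2.1 z, x.2.2)) ≠ [] := by
      have : l ≠ [] := h.1
      simpa using this
    have h4 := pm_GoGE1_lam hκ _ h1
    rw [List.length_map] at h4
    have h5 : ((CW.cyc l).cnt M : ℝ) ≤ (l.length : ℝ) := by
      have : (CW.cyc l).cnt M ≤ l.length := pm_GoGE1_cnt M l
      exact_mod_cast this
    exact (mul_le_mul_of_nonneg_right h5 hlog.le).trans h4

/-- cyclic words: norm against spectral radius, and positivity of the length -/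
theorem nrm_evC_le {K κ : ℝ} (hκ : 0 < κ) {Λ : Set Q} {cw : CW Q} (h : cw.Ok K κ Λ) (ps : PS Γ Z Q)
    (z : Z) : nrm (ps.evC z cw) ≤ 9 * K ^ 2 * lam (ps.evC z cw) ∧
      Real.log (1 + κ) ≤ 3 * Real.log (lam (ps.evC z cw)) := by
  have hlog : 0 < Real.log (1 + κ) := Real.log_pos (by linarith)
  cases cw with
  | cst B =>
    obtain ⟨h1, h2⟩ := pm_GoGE1_cst (show Bal K κ B from h)
    have h3 := nrm_cyc_le hκ.le _ (by simp) h1
    have h4 := pm_GoGE1_lam hκ _ h1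
    rw [h2] at h3 h4
    refine ⟨h3, ?_⟩
    show Real.log (1 + κ) ≤ 3 * Real.log (lam B)
    simpa using h4
  | cyc l =>
    have h1 := pm_GoGE1_adm (show OkL K κ Λ l from h.2) ps z
    have hne : l.map (fun x => (ps.Dl x.1 x.2.1 z, x.2.2)) ≠ [] := by
      have : l ≠ [] := h.1
      simpa using this
    have h3 := nrm_cyc_le hκ.le _ hne h1
    have h4 := pm_GoGE1_lam hκ _ h1
    refine ⟨h3, ?_⟩
    have h5 : (1 : ℝ) ≤ ((l.map (fun x => (ps.Dl x.1 x.2.1 z, x.2.2))).length : ℝ) := by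
      have : 0 < (l.map (fun x => (ps.Dl x.1 x.2.1 z, x.2.2))).length :=
        List.length_pos_iff.mpr hne
      exact_mod_cast this
    have h6 := mul_le_mul_of_nonneg_right h5 hlog.le
    rw [one_mul] at h6
    exact h6.trans h4

/-! helper lemmas for `class_sum` -/

/-- weights of chains of length `n` starting at `e` -/
private def pm_GoGE2_wt {α P : Type} (st en : α → P) (W : α → ENNReal) : ℕ → P → List α → ENNReal
  | 0, _, [] => 1
  | 0, _, _ :: _ => 0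
  | _ + 1, _, [] => 0
  | n + 1, e, x :: l =>
    haveI := Classical.propDecidable (st x = e)
    if st x = e then W x * pm_GoGE2_wt st en W n (en x) l else 0

private theorem pm_GoGE2_wt_chain {α P : Type} (st en : α → P) (W : α → ENNReal) (l : List α) :
    ∀ x, (x :: l).IsChain (fun x y => en x = st y) →
      ((x :: l).map W).prod = pm_GoGE2_wt st en W (l.length + 1) (st x) (x :: l) := by
  induction l with
  | nil => intro x _; simp [pm_GoGE2_wt]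
  | cons y l ih =>
    intro x h
    rw [List.isChain_cons_cons] at h
    have h1 := ih y h.2
    rw [List.map_cons, List.prod_cons, h1, List.length_cons]
    conv_rhs => rw [pm_GoGE2_wt]
    rw [if_pos rfl, h.1]

private theorem pm_GoGE2_wt_sum {α P : Type} (st en : α → P) (W : α → ENNReal) {I : Set P}
    (hen : ∀ x, en x ∈ I) (hrow : ∀ e ∈ I, ∑' x : {x // st x = e}, W x ≤ 1 / 2) (n : ℕ) :
    ∀ e ∈ I, ∑' l : List α, pm_GoGE2_wt st en W n e l ≤ (1 / 2) ^ n := by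
  classical
  induction n with
  | zero =>
    intro e _
    rw [tsum_eq_single ([] : List α), pow_zero]
    · simp [pm_GoGE2_wt]
    · intro l hl
      cases l with
      | nil => exact absurd rfl hl
      | cons x l => simp [pm_GoGE2_wt]
  | succ n ih =>
    intro e he
    have hinj : Function.Injective (fun p : α × List α => p.1 :: p.2) := by
      rintro ⟨a, l⟩ ⟨a', l'⟩ h
      simp only [List.cons.injEq] at h
      exact Prod.ext h.1 h.2
    have hsupp : Function.support (pm_GoGE2_wt st en W (n + 1) e) ⊆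
        Set.range (fun p : α × List α => p.1 :: p.2) := by
      intro l hl
      cases l with
      | nil => exact absurd (by simp [pm_GoGE2_wt]) hl
      | cons x l => exact ⟨(x, l), rfl⟩
    rw [← hinj.tsum_eq hsupp, ENNReal.tsum_prod']
    have h1 : ∀ x : α, ∑' l : List α, pm_GoGE2_wt st en W (n + 1) e (x :: l) ≤
        ({x | st x = e} : Set α).indicator W x * (1 / 2) ^ n := by
      intro x
      by_cases hx : st x = e
      · rw [Set.indicator_of_mem (show x ∈ {x | st x = e} from hx)]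
        have : ∀ l, pm_GoGE2_wt st en W (n + 1) e (x :: l) =
            W x * pm_GoGE2_wt st en W n (en x) l := by
          intro l
          rw [pm_GoGE2_wt, if_pos hx]
        simp_rw [this]
        rw [ENNReal.tsum_mul_left]
        exact mul_le_mul' le_rfl (ih (en x) (hen x))
      · have : ∀ l, pm_GoGE2_wt st en W (n + 1) e (x :: l) = 0 := by
          intro l
          rw [pm_GoGE2_wt, if_neg hx]
        simp_rw [this]
        rw [tsum_zero]
        exact zero_le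
    refine (ENNReal.tsum_le_tsum h1).trans ?_
    rw [ENNReal.tsum_mul_right, ← tsum_subtype, pow_succ, mul_comm]
    exact mul_le_mul' le_rfl (hrow e he)

private theorem pm_GoGE2_lists {α P : Type} (st en : α → P) (W : α → ENNReal) {I : Set P}
    (hI : I.Finite) (hen : ∀ x, en x ∈ I)
    (hrow : ∀ e ∈ I, ∑' x : {x // st x = e}, W x ≤ 1 / 2) {β : Type} (L : β → List α)
    (hL : Function.Injective L)
    (hch : ∀ b, ∃ x l, L b = x :: l ∧ st x ∈ I ∧ (x :: l).IsChain (fun x y => en x = st y)) :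
    ∑' b, ((L b).map W).prod ≤ I.ncard := by
  classical
  have h1 : ∀ b, ((L b).map W).prod ≤
      ∑' n : ℕ, ∑' e : I, pm_GoGE2_wt st en W (n + 1) e (L b) := by
    intro b
    obtain ⟨x, l, hb, hx, hc⟩ := hch b
    rw [hb, pm_GoGE2_wt_chain st en W l x hc]
    refine le_trans ?_ (ENNReal.le_tsum l.length)
    exact ENNReal.le_tsum (f := fun e : I => pm_GoGE2_wt st en W (l.length + 1) e (x :: l))
      ⟨st x, hx⟩
  refine (ENNReal.tsum_le_tsum h1).trans ?_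
  refine (ENNReal.tsum_comp_le_tsum_of_injective hL
    (fun l => ∑' n : ℕ, ∑' e : I, pm_GoGE2_wt st en W (n + 1) e l)).trans ?_
  rw [ENNReal.tsum_comm]
  have h2 : ∀ n : ℕ, ∑' l : List α, ∑' e : I, pm_GoGE2_wt st en W (n + 1) e l ≤
      I.ncard * (2⁻¹ * 2⁻¹ ^ n) := by
    intro n
    rw [ENNReal.tsum_comm]
    have := hI.fintype
    rw [tsum_fintype]
    refine (Finset.sum_le_card_nsmul _ _ (2⁻¹ * 2⁻¹ ^ n) ?_).trans ?_
    · intro e _
      refine (pm_GoGE2_wt_sum st en W hen hrow (n + 1) e e.2).trans ?_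
      rw [pow_succ', one_div]
    · rw [nsmul_eq_mul, Finset.card_univ, Set.ncard_eq_toFinset_card', Set.toFinset_card]
  refine (ENNReal.tsum_le_tsum h2).trans ?_
  rw [ENNReal.tsum_mul_left, ENNReal.tsum_mul_left, ENNReal.tsum_geometric,
    ENNReal.one_sub_inv_two, inv_inv, ENNReal.inv_mul_cancel (by norm_num) (by norm_num), mul_one]

private theorem pm_GoGE2_cnt_append (M : Set Q) (a b : List (Q × ℤ × M3)) :
    cntL M (a ++ b) = cntL M a + cntL M b := by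
  unfold cntL
  rw [List.filter_append, List.length_append]

private theorem pm_GoGE2_cnt_cons (M : Set Q) (x : Q × ℤ × M3) (l : List (Q × ℤ × M3)) :
    cntL M (x :: l) ≤ 1 + cntL M l := by
  unfold cntL
  rw [List.filter_cons]
  split_ifs
  · rw [List.length_cons]; omega
  · omega

private theorem pm_GoGE2_cnt_zero (M : Set Q) (l : List (Q × ℤ × M3)) (h : ∀ x ∈ l, x.1 ∉ M) :
    cntL M l = 0 := by
  unfold cntL
  rw [List.length_eq_zero_iff, List.filter_eq_nil_iff]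
  intro x hx
  simpa using h x hx

/-- the real weight of a letter -/
private def pm_GoGE2_W {K κ : ℝ} {Λv : V → Set Q} (s κ₀ : ℝ) (sv : V → ℝ) (z : Z)
    (x : Ltr ps K κ at_ G Λv I) : ℝ :=
  Real.exp κ₀ * (mxd (ps.Dl x.e x.k z)) ^ (-s) *
    (K ^ (6 * κ₀ / Real.log (1 + κ)) *
      (mn (ps.TT z (ps.bar x.e) x.g x.e')) ^ (-(sv (at_ (ps.bar x.e)))))

private theorem pm_GoGE2_bal {K κ : ℝ} (hκ : 0 ≤ κ) {Λv : V → Set Q}
    (x : Ltr ps K κ at_ G Λv I) (z : Z) : Bal K κ (ps.TT z (ps.bar x.e) x.g x.e') := by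
  have h := x.hn.choose_spec
  rw [h.2 z]
  exact Word.bal hκ h.1 ps z

private theorem pm_GoGE2_mxd (x : Q) (k : ℤ) (z : Z) : 0 < mxd (ps.Dl x k z) :=
  lt_of_lt_of_le zero_lt_one (one_le_mxd (Dl_pos ps x k z))

private theorem pm_GoGE2_W_nonneg {K κ : ℝ} (hκ : 0 ≤ κ) {Λv : V → Set Q} (s κ₀ : ℝ)
    (sv : V → ℝ) (z : Z) (x : Ltr ps K κ at_ G Λv I) : 0 ≤ pm_GoGE2_W s κ₀ sv z x := by
  have hB := pm_GoGE2_bal hκ x z
  have h1 := hB.mn_pos
  have h2 := hB.one_le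
  have h3 := pm_GoGE2_mxd (ps := ps) x.e x.k z
  unfold pm_GoGE2_W
  positivity

/-- estimate for one letter -/
private theorem pm_GoGE2_letter {K κ : ℝ} (hκ : 0 < κ) {Λv : V → Set Q} {M : Set Q} {s κ₀ : ℝ}
    (hκ₀ : 0 ≤ κ₀) (sv : V → ℝ)
    (hsv : ∀ v, (Λv v ∩ M = ∅ ∧ sv v = s) ∨ sv v = s - 3 * κ₀ / Real.log (1 + κ)) (z : Z)
    (x : Ltr ps K κ at_ G Λv I) :
    Real.exp (κ₀ * cntL M x.list) *
      (mxd (ps.Dl x.e x.k z) * mn (ps.TT z (ps.bar x.e) x.g x.e')) ^ (-s) ≤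
      pm_GoGE2_W s κ₀ sv z x := by
  have hB := pm_GoGE2_bal hκ.le x z
  have h1 := hB.mn_pos
  have h2 := hB.one_le
  have h3 := pm_GoGE2_mxd (ps := ps) x.e x.k z
  have h := x.hn.choose_spec
  have hw : x.w = x.hn.choose := rfl
  set v := at_ (ps.bar x.e) with hv
  have hlog : 0 < Real.log (1 + κ) := Real.log_pos (by linarith)
  have hK : 1 ≤ K ^ (6 * κ₀ / Real.log (1 + κ)) :=
    Real.one_le_rpow h2 (div_nonneg (by linarith) hlog.le)
  have h4 : Real.exp (κ₀ * cntL M x.w.tl) * (mn (ps.TT z (ps.bar x.e) x.g x.e')) ^ (-s) ≤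
      K ^ (6 * κ₀ / Real.log (1 + κ)) *
        (mn (ps.TT z (ps.bar x.e) x.g x.e')) ^ (-(sv v)) := by
    rcases hsv v with ⟨ha, hb⟩ | hb
    · have : cntL M x.w.tl = 0 := by
        refine pm_GoGE2_cnt_zero M _ fun y hy hyM => ?_
        have : y.1 ∈ Λv v ∩ M := ⟨(h.1.2 y (by rw [← hw]; exact hy)).1, hyM⟩
        rw [ha] at this
        exact this
      rw [this, hb, Nat.cast_zero, mul_zero, Real.exp_zero]
      exact mul_le_mul_of_nonneg_right hK (Real.rpow_nonneg h1.le _)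
    · have h5 := cntL_le hκ (w := x.w) (by rw [hw]; exact h.1) ps z hκ₀ M
      have h6 : ps.eval x.w z = ps.TT z (ps.bar x.e) x.g x.e' := by
        rw [hw]; exact (h.2 z).symm
      rw [h6] at h5
      refine (mul_le_mul_of_nonneg_right h5 (Real.rpow_nonneg h1.le _)).trans ?_
      rw [mul_assoc, ← Real.rpow_add h1, hb]
      refine le_of_eq ?_
      congr 2
      ring
  have h7 : (cntL M x.list : ℝ) ≤ 1 + cntL M x.w.tl := by
    exact_mod_cast pm_GoGE2_cnt_cons M (x.e, x.k, x.w.hd) x.w.tl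
  have h8 : Real.exp (κ₀ * cntL M x.list) ≤ Real.exp κ₀ * Real.exp (κ₀ * cntL M x.w.tl) := by
    rw [← Real.exp_add, Real.exp_le_exp]
    nlinarith
  unfold pm_GoGE2_W
  rw [Real.mul_rpow h3.le h1.le]
  have h9 : 0 ≤ (mxd (ps.Dl x.e x.k z)) ^ (-s) := Real.rpow_nonneg h3.le _
  have h10 : 0 ≤ (mn (ps.TT z (ps.bar x.e) x.g x.e')) ^ (-s) := Real.rpow_nonneg h1.le _
  calc Real.exp (κ₀ * cntL M x.list) * ((mxd (ps.Dl x.e x.k z)) ^ (-s) *
        (mn (ps.TT z (ps.bar x.e) x.g x.e')) ^ (-s))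
      ≤ (Real.exp κ₀ * Real.exp (κ₀ * cntL M x.w.tl)) * ((mxd (ps.Dl x.e x.k z)) ^ (-s) *
        (mn (ps.TT z (ps.bar x.e) x.g x.e')) ^ (-s)) :=
        mul_le_mul_of_nonneg_right h8 (mul_nonneg h9 h10)
    _ = (Real.exp κ₀ * (mxd (ps.Dl x.e x.k z)) ^ (-s)) * (Real.exp (κ₀ * cntL M x.w.tl) *
        (mn (ps.TT z (ps.bar x.e) x.g x.e')) ^ (-s)) := by ring
    _ ≤ _ := mul_le_mul_of_nonneg_left h4 (mul_nonneg (Real.exp_pos _).le h9)

/-- the coarse list -/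
private def pm_GoGE2_co {K κ : ℝ} {Λv : V → Set Q} (z : Z) (x : Ltr ps K κ at_ G Λv I) :
    (Fin 3 → ℝ) × M3 := (ps.Dl x.e x.k z, ps.TT z (ps.bar x.e) x.g x.e')

private theorem pm_GoGE2_evL_append (a b : List (Q × ℤ × M3)) (z : Z) :
    ps.evL (a ++ b) z = ps.evL a z * ps.evL b z := by
  unfold PS.evL prodL
  rw [List.map_append, List.map_append, List.prod_append]

private theorem pm_GoGE2_coarse {K κ : ℝ} {Λv : V → Set Q} (z : Z)
    (L : List (Ltr ps K κ at_ G Λv I)) :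
    ps.evL (L.flatMap Ltr.list) z = prodL (L.map (pm_GoGE2_co z)) := by
  induction L with
  | nil => simp [PS.evL, prodL]
  | cons x L ih =>
    rw [List.flatMap_cons, pm_GoGE2_evL_append, ih, (x.mat z).2]
    simp [prodL, pm_GoGE2_co]

/-- estimate for a list of letters -/
private theorem pm_GoGE2_list {K κ : ℝ} (hκ : 0 < κ) {Λv : V → Set Q} {M : Set Q} {s κ₀ : ℝ}
    (hκ₀ : 0 ≤ κ₀) (sv : V → ℝ)
    (hsv : ∀ v, (Λv v ∩ M = ∅ ∧ sv v = s) ∨ sv v = s - 3 * κ₀ / Real.log (1 + κ)) (z : Z)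
    (L : List (Ltr ps K κ at_ G Λv I)) :
    0 < ((L.map (pm_GoGE2_co z)).map (fun x => mxd x.1 * mn x.2)).prod ∧
    Real.exp (κ₀ * cntL M (L.flatMap Ltr.list)) *
      ((L.map (pm_GoGE2_co z)).map (fun x => mxd x.1 * mn x.2)).prod ^ (-s) ≤
      (L.map (pm_GoGE2_W s κ₀ sv z)).prod := by
  induction L with
  | nil => simp [cntL]
  | cons x L ih =>
    have hB := pm_GoGE2_bal hκ.le x z
    have h1 := hB.mn_pos
    have h3 := pm_GoGE2_mxd (ps := ps) x.e x.k z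
    have hp : 0 < mxd (ps.Dl x.e x.k z) * mn (ps.TT z (ps.bar x.e) x.g x.e') := mul_pos h3 h1
    have h4 := pm_GoGE2_letter hκ hκ₀ sv hsv z x
    rw [List.map_cons, List.map_cons, List.prod_cons, List.flatMap_cons, pm_GoGE2_cnt_append,
      List.map_cons, List.prod_cons]
    refine ⟨mul_pos hp ih.1, ?_⟩
    have h5 : Real.exp (κ₀ * ((cntL M x.list + cntL M (L.flatMap Ltr.list) : ℕ) : ℝ)) =
        Real.exp (κ₀ * cntL M x.list) * Real.exp (κ₀ * cntL M (L.flatMap Ltr.list)) := by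
      rw [← Real.exp_add]
      push_cast
      ring_nf
    rw [h5, show (pm_GoGE2_co z x).1 = ps.Dl x.e x.k z from rfl,
      show (pm_GoGE2_co z x).2 = ps.TT z (ps.bar x.e) x.g x.e' from rfl,
      Real.mul_rpow hp.le ih.1.le]
    calc _ = (Real.exp (κ₀ * cntL M x.list) *
          (mxd (ps.Dl x.e x.k z) * mn (ps.TT z (ps.bar x.e) x.g x.e')) ^ (-s)) *
          (Real.exp (κ₀ * cntL M (L.flatMap Ltr.list)) *
            ((L.map (pm_GoGE2_co z)).map (fun x => mxd x.1 * mn x.2)).prod ^ (-s)) := by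
            ring
      _ ≤ _ := mul_le_mul h4 ih.2 (mul_nonneg (Real.exp_pos _).le (Real.rpow_nonneg ih.1.le _))
            (pm_GoGE2_W_nonneg hκ.le _ _ _ _ _)

private theorem pm_GoGE2_ofReal_prod {α : Type} (f : α → ℝ) (hf : ∀ x, 0 ≤ f x) (L : List α) :
    (L.map (fun x => ENNReal.ofReal (f x))).prod = ENNReal.ofReal (L.map f).prod := by
  induction L with
  | nil => simp
  | cons x L ih =>
    rw [List.map_cons, List.prod_cons, ih, List.map_cons, List.prod_cons,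
      ENNReal.ofReal_mul (hf x)]

/-- the row sums -/
private theorem pm_GoGE2_row {K κ : ℝ} (hκ : 0 < κ) {Λv : V → Set Q} (s κ₀ : ℝ) (sv : V → ℝ) (z : Z)
    (e : Q) :
    ∑' x : {x : Ltr ps K κ at_ G Λv I // x.e = e},
      ENNReal.ofReal (pm_GoGE2_W s κ₀ sv z x.1) ≤
    ENNReal.ofReal (Real.exp κ₀) * Xs ps z s e *
      ∑' e' : {e' : Q // e' ∈ I ∧ at_ e' = at_ (ps.bar e)},
        (ENNReal.ofReal (K ^ (6 * κ₀ / Real.log (1 + κ))) *
          Zs ps K κ (Λv (at_ (ps.bar e))) (G (at_ (ps.bar e))) z (sv (at_ (ps.bar e)))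
            (ps.bar e) e') := by
  classical
  let J : Type := Σ e' : {e' : Q // e' ∈ I ∧ at_ e' = at_ (ps.bar e)},
    {g : Γ // g ∈ G (at_ (ps.bar e)) ∧ Nrm ps K κ (Λv (at_ (ps.bar e))) (ps.bar e) g e'}
  let φ : {x : Ltr ps K κ at_ G Λv I // x.e = e} → ℤ × J := fun x =>
    (x.1.k, ⟨⟨x.1.e', x.1.he', by have := x.1.hat; rw [x.2] at this; exact this⟩,
      ⟨x.1.g, by have := x.1.hg; rw [x.2] at this; exact this,
        by have := x.1.hn; rw [x.2] at this; exact this⟩⟩)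
  have hφ : Function.Injective φ := by
    rintro ⟨⟨a1, a2, a3, a4, a5, a6, a7, a8, a9⟩, ha⟩ ⟨⟨b1, b2, b3, b4, b5, b6, b7, b8, b9⟩, hb⟩ h
    have ha' : a1 = e := ha
    have hb' : b1 = e := hb
    have h1 := congrArg (fun p : ℤ × J => (p.1, p.2.1.1, p.2.2.1)) h
    simp only [φ, Prod.mk.injEq] at h1
    obtain ⟨h1, h2, h3⟩ := h1
    subst ha' hb' h1 h2 h3
    rfl
  let F : ℤ × J → ENNReal := fun j =>
    (ENNReal.ofReal (Real.exp κ₀) * ENNReal.ofReal ((mxd (ps.Dl e j.1 z)) ^ (-s))) *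
      (ENNReal.ofReal (K ^ (6 * κ₀ / Real.log (1 + κ))) *
        ENNReal.ofReal ((mn (ps.TT z (ps.bar e) j.2.2.1 j.2.1.1)) ^ (-(sv (at_ (ps.bar e))))))
  have h1 : ∀ x : {x : Ltr ps K κ at_ G Λv I // x.e = e},
      ENNReal.ofReal (pm_GoGE2_W s κ₀ sv z x.1) = F (φ x) := by
    rintro ⟨x, rfl⟩
    have hB := pm_GoGE2_bal hκ.le x z
    have h1 := hB.mn_pos
    have h2 := hB.one_le
    have h3 := pm_GoGE2_mxd (ps := ps) x.e x.k z
    simp only [F, φ, pm_GoGE2_W]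
    rw [ENNReal.ofReal_mul (by positivity), ENNReal.ofReal_mul (by positivity),
      ENNReal.ofReal_mul (by positivity)]
  simp_rw [h1]
  refine (ENNReal.tsum_comp_le_tsum_of_injective hφ F).trans ?_
  refine le_of_eq ?_
  rw [ENNReal.tsum_prod']
  simp only [F]
  simp_rw [ENNReal.tsum_mul_left]
  rw [ENNReal.tsum_mul_right, ENNReal.tsum_mul_left]
  congr 1
  rw [ENNReal.tsum_sigma']
  rfl

/-- sum over the classes which do not meet a vertex group -/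
theorem class_sum [Nonempty V] (H : GH ps at_ G S I ⊤) {K κ : ℝ} (hκ : 0 < κ) {Λv : V → Set Q}
    {Λ M : Set Q} (hΛ : I ⊆ Λ) (hΛv : ∀ v, Λv v ⊆ Λ)
    (hV : ∀ v, VC ps K κ (Λv v) (G v) (S v)) {Φ : Set (Z → GL (Fin 3) ℝ)} (hΦ : ∀ e ∈ I, ps.FJ e ∈ Φ)
    (hI : I.Finite) {s κ₀ : ℝ} (hs : 0 ≤ s) (hκ₀ : 0 ≤ κ₀) (sv : V → ℝ)
    (hsv : ∀ v, (Λv v ∩ M = ∅ ∧ sv v = s) ∨ sv v = s - 3 * κ₀ / Real.log (1 + κ)) (z : Z)
    (hrow : ∀ e ∈ I, ENNReal.ofReal (Real.exp κ₀) * Xs ps z s e *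
      ∑' e' : {e' : Q // e' ∈ I ∧ at_ e' = at_ (ps.bar e)},
        (ENNReal.ofReal (K ^ (6 * κ₀ / Real.log (1 + κ))) *
          Zs ps K κ (Λv (at_ (ps.bar e))) (G (at_ (ps.bar e))) z (sv (at_ (ps.bar e)))
            (ps.bar e) e') ≤ 1 / 2) :
    ∑' C : {C : ConjClasses Γ // ¬ ∃ v, ∃ g ∈ G v, ConjClasses.mk g = C},
      ENNReal.ofReal (Real.exp (κ₀ * icnt ps K κ Λ Φ M C) *
        (lam (ps.r z (Quotient.out C.1) : M3)) ^ (-s)) ≤ I.ncard := by
  classical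
  have hno : ∀ C : {C : ConjClasses Γ // ¬ ∃ v, ∃ g ∈ G v, ConjClasses.mk g = C},
      ¬ ∃ v, ∃ g' ∈ G v, IsConj (Quotient.out C.1) g' := by
    rintro C ⟨v, g', hg', hc⟩
    refine C.2 ⟨v, g', hg', ?_⟩
    rw [← ConjClasses.mk_eq_mk_iff_isConj.mpr hc]
    exact Quotient.out_eq C.1
  choose x l hch hlast hmem hconj using fun C => class_letters H hV
    (Subgroup.mem_top (Quotient.out C.1)) (hno C)
  have hmk : ∀ C, ConjClasses.mk ((x C :: l C).map Ltr.val).prod = C.1 := by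
    intro C
    rw [← ConjClasses.mk_eq_mk_iff_isConj.mpr (hconj C)]
    exact Quotient.out_eq C.1
  have hinj : Function.Injective (fun C => x C :: l C) := by
    intro C C' h
    apply Subtype.ext
    rw [← hmk C, ← hmk C']
    exact congrArg (fun L => ConjClasses.mk (L.map Ltr.val).prod) h
  have hterm : ∀ C : {C : ConjClasses Γ // ¬ ∃ v, ∃ g ∈ G v, ConjClasses.mk g = C},
      ENNReal.ofReal (Real.exp (κ₀ * icnt ps K κ Λ Φ M C) *
        (lam (ps.r z (Quotient.out C.1) : M3)) ^ (-s)) ≤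
      ((x C :: l C).map (fun y => ENNReal.ofReal (pm_GoGE2_W s κ₀ sv z y))).prod := by
    intro C
    rw [pm_GoGE2_ofReal_prod _ (fun y => pm_GoGE2_W_nonneg hκ.le s κ₀ sv z y)]
    refine ENNReal.ofReal_le_ofReal ?_
    obtain ⟨hp, hle⟩ := pm_GoGE2_list hκ hκ₀ sv hsv z (x C :: l C) (M := M)
    refine le_trans ?_ hle
    have hmat := letters_mat (x C) (l C) (hch C) z
    rw [hlast C] at hmat
    -- the cyclic word
    have hrep : RepBy ps K κ Λ Φ C.1 (CW.cyc ((x C :: l C).flatMap Ltr.list)) := by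
      refine ⟨⟨?_, ?_⟩, _, hmk C, ps.FJ (x C).e, hΦ _ (x C).he, ?_⟩
      · rw [List.flatMap_cons]
        simp [Ltr.list]
      · intro y hy
        rw [List.mem_flatMap] at hy
        obtain ⟨w, -, hw⟩ := hy
        have h := w.hn.choose_spec
        rcases List.mem_cons.mp hw with rfl | hw'
        · exact ⟨hΛ w.he, h.1.1⟩
        · exact ⟨hΛv _ (h.1.2 y hw').1, (h.1.2 y hw').2⟩
      · intro z'
        have h := letters_mat (x C) (l C) (hch C) z'
        rw [hlast C] at h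
        exact h
    have hicnt : icnt ps K κ Λ Φ M C.1 ≤ cntL M ((x C :: l C).flatMap Ltr.list) :=
      Nat.sInf_le ⟨_, hrep, rfl⟩
    have h1 : Real.exp (κ₀ * icnt ps K κ Λ Φ M C.1) ≤
        Real.exp (κ₀ * cntL M ((x C :: l C).flatMap Ltr.list)) := by
      rw [Real.exp_le_exp]
      exact mul_le_mul_of_nonneg_left (by exact_mod_cast hicnt) hκ₀
    -- the spectral radius
    have hlam : lam (ps.r z (Quotient.out C.1) : M3) =
        lam (prodL ((x C :: l C).map (pm_GoGE2_co z))) := by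
      rw [← pm_GoGE2_coarse, ← hmat]
      have h2 := lam_conj ((ps.FJ (x C).e z)⁻¹) (ps.r z (((x C :: l C).map Ltr.val).prod) : M3)
      rw [inv_inv] at h2
      rw [h2]
      obtain ⟨c, hc⟩ := isConj_iff.mp (hconj C)
      rw [← hc, map_mul, map_mul, map_inv]
      exact (lam_conj (ps.r z c) (ps.r z (Quotient.out C.1) : M3)).symm
    have h2 : (((x C :: l C).map (pm_GoGE2_co z)).map (fun x => mxd x.1 * mn x.2)).prod ≤
        lam (ps.r z (Quotient.out C.1) : M3) := by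
      rw [hlam]
      refine lam_cyc_ge (K := K) hκ.le _ (by simp) ?_
      intro y hy
      rw [List.mem_map] at hy
      obtain ⟨w, -, rfl⟩ := hy
      exact ⟨Dl_pos ps w.e w.k z, pm_GoGE2_bal hκ.le w z⟩
    have h3 : (lam (ps.r z (Quotient.out C.1) : M3)) ^ (-s) ≤
        (((x C :: l C).map (pm_GoGE2_co z)).map (fun x => mxd x.1 * mn x.2)).prod ^ (-s) :=
      Real.rpow_le_rpow_of_nonpos hp h2 (by linarith)
    exact mul_le_mul h1 h3 (Real.rpow_nonneg (hp.le.trans h2) _) (Real.exp_pos _).le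
  refine (ENNReal.tsum_le_tsum hterm).trans ?_
  refine pm_GoGE2_lists (fun y : Ltr ps K κ at_ G Λv I => y.e) (fun y => y.e')
    (fun y => ENNReal.ofReal (pm_GoGE2_W s κ₀ sv z y)) hI (fun y => y.he') ?_
    (fun C => x C :: l C) hinj ?_
  · intro e he
    exact (pm_GoGE2_row hκ s κ₀ sv z e).trans (hrow e he)
  · intro C
    exact ⟨x C, l C, rfl, (x C).he, hch C⟩

theorem pm_GoGE3_okL {K κ : ℝ} {Λ' Λ : Set Q} (hΛ : Λ' ⊆ Λ) {cw : CW Q} (h : cw.Ok K κ Λ') :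
    cw.Ok K κ Λ := by
  cases cw with
  | cst B => exact h
  | cyc l => exact ⟨h.1, fun x hx => ⟨hΛ (h.2 x hx).1, (h.2 x hx).2⟩⟩

theorem pm_GoGE3_lam (ps : PS Γ Z Q) (z : Z) {a b : Γ} (h : IsConj a b) :
    lam (ps.r z a : M3) = lam (ps.r z b : M3) := by
  obtain ⟨c, hc⟩ := isConj_iff.1 h
  rw [← hc, map_mul, map_mul, map_inv, Units.val_mul, Units.val_mul, lam_conj]

theorem pm_GoGE3_lam' (φ A : GL (Fin 3) ℝ) :
    lam (((φ⁻¹ : GL (Fin 3) ℝ) : M3) * (A : M3) * (φ : M3)) = lam (A : M3) := by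
  have := lam_conj φ⁻¹ (A : M3)
  rw [inv_inv] at this
  exact this

theorem pm_GoGE3_real {l n c i κ₀ s s' q : ℝ} (hl : 1 < l) (hn : 0 < n) (hnl : n ≤ c * l)
    (hq : 0 < q) (hi : i ≤ 3 * Real.log l / q) (hκ₀ : 0 ≤ κ₀) (hs' : 0 ≤ s')
    (hsv : s' = s - 3 * κ₀ / q) : Real.exp (κ₀ * i) * l ^ (-s) ≤ c ^ s' * n ^ (-s') := by
  have hl0 : 0 < l := by linarith
  have hc0 : 0 < c := by
    by_contra hcon
    push Not at hcon
    nlinarith
  have h1 : Real.exp (κ₀ * i) ≤ l ^ (3 * κ₀ / q) := by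
    rw [Real.rpow_def_of_pos hl0]
    apply Real.exp_le_exp.2
    calc κ₀ * i ≤ κ₀ * (3 * Real.log l / q) := mul_le_mul_of_nonneg_left hi hκ₀
      _ = Real.log l * (3 * κ₀ / q) := by ring
  have h2 : 0 < l ^ (-s) := Real.rpow_pos_of_pos hl0 _
  calc Real.exp (κ₀ * i) * l ^ (-s) ≤ l ^ (3 * κ₀ / q) * l ^ (-s) :=
        mul_le_mul_of_nonneg_right h1 h2.le
    _ = l ^ (-s') := by
        rw [← Real.rpow_add hl0, hsv]
        congr 1
        ring
    _ = c ^ s' * (c * l) ^ (-s') := by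
        rw [Real.mul_rpow hc0.le hl0.le, ← mul_assoc, ← Real.rpow_add hc0]
        simp
    _ ≤ c ^ s' * n ^ (-s') := by
        apply mul_le_mul_of_nonneg_left _ (Real.rpow_nonneg hc0.le _)
        exact Real.rpow_le_rpow_of_nonpos hn hnl (by linarith)

/-- sum over the classes which meet the subgroup `G` -/
theorem class_sum_vertex {K κ : ℝ} (hκ : 0 < κ) {Λ' Λ M : Set Q} (hΛ : Λ' ⊆ Λ) {G : Subgroup Γ}
    {Φ' : Finset (Z → GL (Fin 3) ℝ)} {Φ : Set (Z → GL (Fin 3) ℝ)} (hΦ : (Φ' : Set _) ⊆ Φ)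
    (hC : CR ps K κ Λ' G Φ') {s s' κ₀ : ℝ} (hs' : 0 ≤ s') (hκ₀ : 0 ≤ κ₀)
    (hsv : s' = s - 3 * κ₀ / Real.log (1 + κ)) (z : Z) :
    ∑' C : {C : ConjClasses Γ // C ≠ 1 ∧ ∃ g ∈ G, ConjClasses.mk g = C},
      ENNReal.ofReal (Real.exp (κ₀ * icnt ps K κ Λ Φ M C) *
        (lam (ps.r z (Quotient.out C.1) : M3)) ^ (-s)) ≤
    ∑ φ ∈ Φ', ∑' g : G, ENNReal.ofReal ((9 * K ^ 2) ^ s' *
      (nrm ((((φ z)⁻¹ : GL (Fin 3) ℝ) : M3) * (ps.r z g : M3) * (φ z : M3))) ^ (-s')) := by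
  classical
  have hch : ∀ C : {C : ConjClasses Γ // C ≠ 1 ∧ ∃ g ∈ G, ConjClasses.mk g = C},
      ∃ (φ : {φ : Z → GL (Fin 3) ℝ // φ ∈ Φ'}) (γ' : G), ConjClasses.mk (γ' : Γ) = C.1 ∧
        Real.exp (κ₀ * icnt ps K κ Λ Φ M C.1) * (lam (ps.r z (Quotient.out C.1) : M3)) ^ (-s) ≤
        (9 * K ^ 2) ^ s' * (nrm ((((φ.1 z)⁻¹ : GL (Fin 3) ℝ) : M3) * (ps.r z (γ' : Γ) : M3) *
          (φ.1 z : M3))) ^ (-s') := by
    rintro ⟨C, hC1, g, hg, hgC⟩
    have hg1 : g ≠ 1 := by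
      rintro rfl
      exact hC1 (hgC.symm.trans rfl)
    obtain ⟨γ', hγ', hconj, φ, hφ, cw, hok, hcw⟩ := hC g hg hg1
    have hmk : ConjClasses.mk γ' = C := by
      rw [← hgC]
      exact ConjClasses.mk_eq_mk_iff_isConj.2 hconj.symm
    have hrep : RepBy ps K κ Λ Φ C cw :=
      ⟨pm_GoGE3_okL hΛ hok, γ', hmk, φ, hΦ hφ, hcw⟩
    have hic : icnt ps K κ Λ Φ M C ≤ cw.cnt M := Nat.sInf_le ⟨cw, hrep, rfl⟩
    have hcnt := cnt_le hκ hok ps z M
    obtain ⟨hn1, hn2⟩ := nrm_evC_le hκ hok ps z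
    have hlog : 0 < Real.log (1 + κ) := Real.log_pos (by linarith)
    have hl1 : 1 < lam (ps.evC z cw) := by
      have h1 : 0 < Real.log (lam (ps.evC z cw)) := by linarith
      exact (Real.log_pos_iff (lam_nonneg _)).1 h1
    have hlam : lam (ps.r z (Quotient.out C) : M3) = lam (ps.evC z cw) := by
      rw [← hcw z, pm_GoGE3_lam']
      apply pm_GoGE3_lam
      apply ConjClasses.mk_eq_mk_iff_isConj.1
      rw [hmk]
      exact Quotient.out_eq C
    refine ⟨⟨φ, hφ⟩, ⟨γ', hγ'⟩, hmk, ?_⟩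
    simp only
    rw [hlam, hcw z]
    refine pm_GoGE3_real hl1 ?_ hn1 hlog ?_ hκ₀ hs' hsv
    · have := lam_le_nrm (ps.evC z cw)
      linarith
    · refine le_trans ?_ hcnt
      exact_mod_cast hic
  choose F1 F2 hF hle using hch
  obtain ⟨b, hb⟩ : ∃ b : {φ : Z → GL (Fin 3) ℝ // φ ∈ Φ'} × G → ENNReal,
      b = fun x => ENNReal.ofReal ((9 * K ^ 2) ^ s' *
        (nrm ((((x.1.1 z)⁻¹ : GL (Fin 3) ℝ) : M3) * (ps.r z (x.2 : Γ) : M3) *
          (x.1.1 z : M3))) ^ (-s')) := ⟨_, rfl⟩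
  have hinj : Function.Injective
      (fun C : {C : ConjClasses Γ // C ≠ 1 ∧ ∃ g ∈ G, ConjClasses.mk g = C} => (F1 C, F2 C)) := by
    intro C C' h
    have h2 : F2 C = F2 C' := congrArg Prod.snd h
    apply Subtype.ext
    rw [← hF C, ← hF C', h2]
  calc ∑' C : {C : ConjClasses Γ // C ≠ 1 ∧ ∃ g ∈ G, ConjClasses.mk g = C},
        ENNReal.ofReal (Real.exp (κ₀ * icnt ps K κ Λ Φ M C) *
          (lam (ps.r z (Quotient.out C.1) : M3)) ^ (-s))
      ≤ ∑' C : {C : ConjClasses Γ // C ≠ 1 ∧ ∃ g ∈ G, ConjClasses.mk g = C},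
          b (F1 C, F2 C) := by
        apply ENNReal.tsum_le_tsum
        intro C
        rw [hb]
        exact ENNReal.ofReal_le_ofReal (hle C)
    _ ≤ ∑' x, b x := ENNReal.tsum_comp_le_tsum_of_injective hinj b
    _ = ∑' (φ : {φ : Z → GL (Fin 3) ℝ // φ ∈ Φ'}), ∑' g : G, b (φ, g) := ENNReal.tsum_prod'
    _ = _ := by
        rw [hb]
        exact Finset.tsum_subtype Φ' (fun φ => ∑' g : G, ENNReal.ofReal ((9 * K ^ 2) ^ s' *
          (nrm ((((φ z)⁻¹ : GL (Fin 3) ℝ) : M3) * (ps.r z (g : Γ) : M3) * (φ z : M3))) ^ (-s')))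

/-- a class which meets a subgroup without labels in `M` has no letters in `M` -/
theorem icnt_zero {K κ : ℝ} {Λ' Λ M : Set Q} (hΛ : Λ' ⊆ Λ) (hM : Λ' ∩ M = ∅) {G : Subgroup Γ}
    {Φ' Φ : Set (Z → GL (Fin 3) ℝ)} (hΦ : Φ' ⊆ Φ) (hC : CR ps K κ Λ' G Φ') {C : ConjClasses Γ}
    (hne : C ≠ 1) (h : ∃ g ∈ G, ConjClasses.mk g = C) : icnt ps K κ Λ Φ M C = 0 := by
  obtain ⟨g, hg, hgC⟩ := h
  have hg1 : g ≠ 1 := by
    intro h1
    apply hne
    rw [← hgC, h1]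
    rfl
  obtain ⟨γ', hγ', hcj, φ, hφ, cw, hok, hz⟩ := hC g hg hg1
  have hcnt : cw.cnt M = 0 := by
    cases cw with
    | cst B => rfl
    | cyc l =>
      have hl : OkL K κ Λ' l := hok.2
      show cntL M l = 0
      unfold cntL
      rw [List.length_eq_zero_iff, List.filter_eq_nil_iff]
      intro x hx
      have h1 := (hl x hx).1
      have h2 : x.1 ∉ M := fun h3 => by
        have : x.1 ∈ Λ' ∩ M := ⟨h1, h3⟩
        rw [hM] at this
        exact this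
      simpa using h2
  have hok' : cw.Ok K κ Λ := by
    cases cw with
    | cst B => exact hok
    | cyc l => exact ⟨hok.1, fun x hx => ⟨hΛ (hok.2 x hx).1, (hok.2 x hx).2⟩⟩
  have hrep : RepBy ps K κ Λ Φ C cw :=
    ⟨hok', γ', by rw [← hgC]; exact (ConjClasses.mk_eq_mk_iff_isConj.mpr hcj).symm, φ, hΦ hφ, hz⟩
  have : icnt ps K κ Λ Φ M C ≤ 0 := Nat.sInf_le ⟨cw, hrep, hcnt⟩
  omega

/-- change of frame -/
theorem nrm_frame_change (φ ψ : GL (Fin 3) ℝ) : ∃ c > 0, ∀ A : M3,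
    nrm (((φ⁻¹ : GL (Fin 3) ℝ) : M3) * A * (φ : M3)) ≤
      c * nrm (((ψ⁻¹ : GL (Fin 3) ℝ) : M3) * A * (ψ : M3)) := by
  refine ⟨nrm ((((φ⁻¹ : GL (Fin 3) ℝ) : M3)) * (ψ : M3)) *
    nrm (((ψ⁻¹ : GL (Fin 3) ℝ) : M3) * (φ : M3)) + 1, ?_, ?_⟩
  · have h1 := nrm_nonneg ((((φ⁻¹ : GL (Fin 3) ℝ) : M3)) * (ψ : M3))
    have h2 := nrm_nonneg (((ψ⁻¹ : GL (Fin 3) ℝ) : M3) * (φ : M3))
    have h3 := mul_nonneg h1 h2
    linarith
  · intro A
    have e : ((φ⁻¹ : GL (Fin 3) ℝ) : M3) * A * (φ : M3) =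
        ((((φ⁻¹ : GL (Fin 3) ℝ) : M3)) * (ψ : M3)) *
          (((ψ⁻¹ : GL (Fin 3) ℝ) : M3) * A * (ψ : M3)) *
          (((ψ⁻¹ : GL (Fin 3) ℝ) : M3) * (φ : M3)) := by
      have h1 : (ψ : M3) * ((ψ⁻¹ : GL (Fin 3) ℝ) : M3) = 1 := Units.mul_inv ψ
      calc ((φ⁻¹ : GL (Fin 3) ℝ) : M3) * A * (φ : M3) =
          ((φ⁻¹ : GL (Fin 3) ℝ) : M3) * 1 * A * 1 * (φ : M3) := by
            simp only [mul_one]
        _ = ((φ⁻¹ : GL (Fin 3) ℝ) : M3) * ((ψ : M3) * ((ψ⁻¹ : GL (Fin 3) ℝ) : M3)) * A *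
            ((ψ : M3) * ((ψ⁻¹ : GL (Fin 3) ℝ) : M3)) * (φ : M3) := by rw [h1]
        _ = _ := by simp only [mul_assoc]
    rw [e]
    have h0 := nrm_nonneg (((ψ⁻¹ : GL (Fin 3) ℝ) : M3) * A * (ψ : M3))
    have h2 := nrm_nonneg (((ψ⁻¹ : GL (Fin 3) ℝ) : M3) * (φ : M3))
    calc _ ≤ nrm (((((φ⁻¹ : GL (Fin 3) ℝ) : M3)) * (ψ : M3)) *
          (((ψ⁻¹ : GL (Fin 3) ℝ) : M3) * A * (ψ : M3))) *
          nrm (((ψ⁻¹ : GL (Fin 3) ℝ) : M3) * (φ : M3)) := nrm_mul_le _ _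
      _ ≤ (nrm ((((φ⁻¹ : GL (Fin 3) ℝ) : M3)) * (ψ : M3)) *
          nrm (((ψ⁻¹ : GL (Fin 3) ℝ) : M3) * A * (ψ : M3))) *
          nrm (((ψ⁻¹ : GL (Fin 3) ℝ) : M3) * (φ : M3)) :=
            mul_le_mul_of_nonneg_right (nrm_mul_le _ _) h2
      _ ≤ _ := by nlinarith

end

end PM3
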