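import Pool.Agent.LibPM3.GoGD

/-! [PM3 GoGF] comparison of sizes for two parameters. -/

namespace PM3
open Matrix Filter Topology

noncomputable section

variable {Γ Z Q V : Type} [Group Γ] {ps : PS Γ Z Q} {at_ : Q → V} {G : V → Subgroup Γ} {S : V → Set Q}
  {I : Set Q} {Gn : Subgroup Γ}

/-- admissible outer diagonals: constant powers `Cd` or crossing diagonals with label in `Λ` -/
def OutD (ps : PS Γ Z Q) (Λ : Set Q) (D : Z → M3) : Prop :=
  (∃ (L : ℝ) (k : ℤ), ∀ z, D z = Cd L k) ∨ (∃ e ∈ Λ, ∃ k : ℤ, ∀ z, D z = diagonal (ps.Dl e k z))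

private theorem pm_GoGF1_nrm_mul_J3 (A : M3) : nrm (A * J3) = nrm A := by
  simp only [nrm, J3, Matrix.mul_apply, Fin.sum_univ_three]
  simp
  ring

private theorem pm_GoGF1_nrm_J3_mul (A : M3) : nrm (J3 * A) = nrm A := by
  simp only [nrm, J3, Matrix.mul_apply, Fin.sum_univ_three]
  simp
  ring

private theorem pm_GoGF1_N_eq (ps : PS Γ Z Q) (p : Q) (z : Z) (g : Γ) :
    ps.N p z g = nrm (ps.TT z p g p) := by
  unfold PS.N PS.TT
  rw [pm_GoGF1_nrm_mul_J3]

private theorem pm_GoGF1_Cd_zero (L : ℝ) : Cd L 0 = 1 := by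
  unfold Cd
  rw [← diagonal_one]
  congr 1
  ext i
  fin_cases i <;> simp

private theorem pm_GoGF1_TT_one (ps : PS Γ Z Q) (z : Z) (p : Q) : ps.TT z p 1 p = J3 := by
  unfold PS.TT
  rw [map_one, Units.val_one, Matrix.mul_one, ← Units.val_mul, inv_mul_cancel, Units.val_one,
    Matrix.one_mul]

private theorem pm_GoGF1_TT_zpow (ps : PS Γ Z Q) (z : Z) (p : Q) (k : ℤ) :
    ps.TT z p (ps.c p ^ k) p = Cd (ps.L p) k * J3 := by
  have h := TT_c ps z p p 1 k 0
  rw [mul_one, zpow_zero, mul_one, neg_zero, pm_GoGF1_TT_one, pm_GoGF1_Cd_zero,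
    Matrix.mul_one] at h
  exact h

/-- normal form of the size of an element in a vertex group or glued group, at a free port -/
theorem N_form_free {K κ : ℝ} {Λ : Set Q} {S : Set Q} (hV : VC ps K κ Λ Gn S) {p : Q} (hp : p ∈ S)
    {g : Γ} (hg : g ∈ Gn) :
    (∃ k : ℤ, ∀ z, ps.N p z g = nrm (Cd (ps.L p) k)) ∨
    ∃ (D D' : Z → M3) (w : Word Q), OutD ps Λ D ∧ OutD ps Λ D' ∧ w.Ok K κ Λ ∧
      ∀ z, ps.N p z g = nrm (D z * ps.eval w z * D' z) := by
  by_cases h : g ∈ Subgroup.zpowers (ps.c p)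
  · obtain ⟨k, rfl⟩ := Subgroup.mem_zpowers_iff.mp h
    left
    refine ⟨k, fun z => ?_⟩
    rw [pm_GoGF1_N_eq, pm_GoGF1_TT_zpow, pm_GoGF1_nrm_mul_J3]
  · right
    obtain ⟨k, k', w, hw, he⟩ := hV p hp p hp g hg (fun h' => h h'.2)
    refine ⟨fun _ => Cd (ps.L p) k, fun _ => Cd (ps.L p) k', w, Or.inl ⟨_, _, fun _ => rfl⟩,
      Or.inl ⟨_, _, fun _ => rfl⟩, hw, fun z => ?_⟩
    rw [pm_GoGF1_N_eq, he]

/-- nondegenerate chains of transitions -/
private def pm_GoGF1_ND (ps : PS Γ Z Q) : Q → List (Γ × Q) → Γ → Q → Prop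
  | q, [], gl, p => ¬ (q = p ∧ gl ∈ Subgroup.zpowers (ps.c q))
  | q, x :: l, gl, p => ¬ (q = x.2 ∧ x.1 ∈ Subgroup.zpowers (ps.c q)) ∧
      pm_GoGF1_ND ps (ps.bar x.2) l gl p

private theorem pm_GoGF1_ND_of {l : List (Γ × Q)} {q p : Q} {gl : Γ} (hr : l.IsChain ps.NB)
    (h1 : ∀ x ∈ l.head?, ¬ (q = x.2 ∧ x.1 ∈ Subgroup.zpowers (ps.c q)))
    (h2 : ∀ x ∈ l.getLast?, ¬ (ps.bar x.2 = p ∧ gl ∈ Subgroup.zpowers (ps.c (ps.bar x.2))))
    (h3 : l = [] → ¬ (q = p ∧ gl ∈ Subgroup.zpowers (ps.c q))) :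
    pm_GoGF1_ND ps q l gl p := by
  induction l generalizing q with
  | nil => exact h3 rfl
  | cons x l ih =>
    refine ⟨h1 x (by simp), ih hr.tail ?_ ?_ ?_⟩
    · intro y hy hh
      cases l with
      | nil => simp at hy
      | cons a l =>
        simp only [List.head?_cons, Option.mem_def, Option.some.injEq] at hy
        subst hy
        have := (List.isChain_cons_cons.mp hr).1
        exact this hh.1.symm hh.2
    · intro y hy
      apply h2 y
      cases l with
      | nil => simp at hy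
      | cons a l => rw [List.getLast?_cons_cons]; exact hy
    · intro hl
      subst hl
      exact h2 x (by simp)

private theorem pm_GoGF1_evL_append (ps : PS Γ Z Q) (l l' : List (Q × ℤ × M3)) (z : Z) :
    ps.evL (l ++ l') z = ps.evL l z * ps.evL l' z := by
  simp [PS.evL, prodL]

private theorem pm_GoGF1_evL_cons (ps : PS Γ Z Q) (x : Q × ℤ × M3) (l : List (Q × ℤ × M3)) (z : Z) :
    ps.evL (x :: l) z = diagonal (ps.Dl x.1 x.2.1 z) * x.2.2 * ps.evL l z := by
  simp [PS.evL, prodL]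

private theorem pm_GoGF1_pval_cons (x : Γ × Q) (l : List (Γ × Q)) :
    ps.pval (x :: l) = x.1 * ps.t x.2 * ps.pval l := by
  simp [PS.pval]

private theorem pm_GoGF1_pval_append (l l' : List (Γ × Q)) :
    ps.pval (l ++ l') = ps.pval l * ps.pval l' := by
  simp [PS.pval]

/-- the transition matrix of a nondegenerate chain -/
private theorem pm_GoGF1_M (H : GH ps at_ G S I Gn) {K κ : ℝ} {Λ : Set Q} (hΛ : I ⊆ Λ)
    (hV : ∀ v, VC ps K κ Λ (G v) (S v)) {v w : V} {l : List (Γ × Q)} {gl : Γ}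
    (h : IsPath ps at_ G I v l gl w) {q p : Q} (hq : q ∈ S v) (hp : p ∈ S w)
    (hN : pm_GoGF1_ND ps q l gl p) :
    ∃ (k k' : ℤ) (w : Word Q), w.Ok K κ Λ ∧
      ∀ z, ps.TT z q (ps.pval l * gl) p = Cd (ps.L q) k * ps.eval w z * Cd (ps.L p) k' := by
  induction h generalizing q with
  | @nil v g hg =>
    obtain ⟨k, k', w, hw, he⟩ := hV v q hq p hp g hg hN
    exact ⟨k, k', w, hw, fun z => by rw [← he]; simp [PS.pval]⟩
  | @cons v w g gl e l hg he hv hp1 ih =>
    subst hv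
    obtain ⟨k, k', w1, hw1, he1⟩ := hV (at_ e) q hq e (H.hI e he).2 g hg hN.1
    obtain ⟨m, m', w2, hw2, he2⟩ := ih (q := ps.bar e) (H.hI _ (H.hI e he).1).2 hp hN.2
    refine ⟨k, m', ⟨w1.hd, w1.tl ++ (e, k' + m, w2.hd) :: w2.tl⟩, ⟨hw1.1, ?_⟩, fun z => ?_⟩
    · intro x hx
      rcases List.mem_append.mp hx with hx | hx
      · exact hw1.2 x hx
      · rcases List.mem_cons.mp hx with hx | hx
        · subst hx; exact ⟨hΛ he, hw2.1⟩
        · exact hw2.2 x hx
    · rw [pm_GoGF1_pval_cons, mul_assoc, TT_cross, he1, he2]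
      simp only [PS.eval, pm_GoGF1_evL_append, pm_GoGF1_evL_cons]
      rw [← Cd_D0_Cd, ps.L_bar]
      simp only [Matrix.mul_assoc]

private theorem pm_GoGF1_left (ps : PS Γ Z Q) (z : Z) (p q : Q) (g' : Γ) (k : ℤ) :
    ps.TT z p (ps.c p ^ k * ps.t p * g') q =
      J3 * (diagonal (ps.Dl p (-k) z) * ps.TT z (ps.bar p) g' q) := by
  rw [TT_cross, pm_GoGF1_TT_zpow]
  have h1 : Cd (ps.L p) k * J3 = J3 * Cd (ps.L p) (-k) := by
    rw [← J3_Cd, ← Matrix.mul_assoc, ← Matrix.mul_assoc, J3_mul_J3, Matrix.one_mul]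
  have h2 := Cd_D0_Cd ps p z (-k) 0
  rw [pm_GoGF1_Cd_zero, Matrix.mul_one, add_zero] at h2
  rw [h1, ← h2]
  simp only [Matrix.mul_assoc]

private theorem pm_GoGF1_right (ps : PS Γ Z Q) (z : Z) (q e : Q) (g' : Γ) (m : ℤ) :
    ps.TT z q (g' * ps.t e * ps.c (ps.bar e) ^ m) (ps.bar e) =
      ps.TT z q g' e * diagonal (ps.Dl e m z) * J3 := by
  rw [TT_cross, pm_GoGF1_TT_zpow]
  have h2 := Cd_D0_Cd ps e z 0 m
  rw [pm_GoGF1_Cd_zero, Matrix.one_mul, zero_add] at h2
  rw [ps.L_bar, ← h2]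
  simp only [Matrix.mul_assoc]

private theorem pm_GoGF1_Dl_Cd (ps : PS Γ Z Q) (e : Q) (z : Z) (k m : ℤ) :
    diagonal (ps.Dl e k z) * Cd (ps.L e) m = diagonal (ps.Dl e (k + m) z) := by
  have h1 := Cd_D0_Cd ps e z k 0
  have h2 := Cd_D0_Cd ps e z k m
  rw [pm_GoGF1_Cd_zero, Matrix.mul_one, add_zero] at h1
  rw [← h1, h2]

private theorem pm_GoGF1_Cd_Dl (ps : PS Γ Z Q) (e : Q) (z : Z) (k m : ℤ) :
    Cd (ps.L e) m * diagonal (ps.Dl e k z) = diagonal (ps.Dl e (m + k) z) := by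
  have h1 := Cd_D0_Cd ps e z 0 k
  have h2 := Cd_D0_Cd ps e z m k
  rw [pm_GoGF1_Cd_zero, Matrix.one_mul, zero_add] at h1
  rw [← h1, ← h2]
  simp only [Matrix.mul_assoc]

private theorem pm_GoGF1_init {v w : V} {l : List (Γ × Q)} {g gl : Γ} {e : Q}
    (h : IsPath ps at_ G I v (l ++ [(g, e)]) gl w) :
    IsPath ps at_ G I v l g (at_ e) ∧ e ∈ I := by
  induction l generalizing v with
  | nil =>
    cases h with
    | cons hg he hv hp => subst hv; exact ⟨.nil hg, he⟩
  | cons x l ih =>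
    cases h with
    | cons hg he hv hp =>
      obtain ⟨h1, h2⟩ := ih hp
      exact ⟨.cons hg he hv h1, h2⟩

/-- the same at an internal port -/
theorem N_form_int (H : GH ps at_ G S I Gn) {K κ : ℝ} {Λ : Set Q} (hΛ : I ⊆ Λ)
    (hV : ∀ v, VC ps K κ Λ (G v) (S v)) {p : Q} (hp : p ∈ I) {g : Γ} (hg : g ∈ Gn) :
    (∃ (L : ℝ) (k : ℤ), ∀ z, ps.N p z g = nrm (Cd L k)) ∨
    (∃ e ∈ Λ, ∃ k : ℤ, ∀ z, ps.N p z g = nrm (diagonal (ps.Dl e k z))) ∨
    ∃ (D D' : Z → M3) (w : Word Q), OutD ps Λ D ∧ OutD ps Λ D' ∧ w.Ok K κ Λ ∧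
      ∀ z, ps.N p z g = nrm (D z * ps.eval w z * D' z) := by
  obtain ⟨l0, gl0, hp0, hv0⟩ := paths_exist H (at_ p) (at_ p) hg
  obtain ⟨l, gl, hpath, hred, hval, -⟩ := reduce H hp0
  rw [hv0] at hval
  have hpS : p ∈ S (at_ p) := (H.hI p hp).2
  have hbar : ps.bar p ∈ S (at_ (ps.bar p)) := (H.hI _ (H.hI p hp).1).2
  rcases List.eq_nil_or_concat l with hl | ⟨l', z0, hl⟩
  · subst hl
    by_cases h : gl ∈ Subgroup.zpowers (ps.c p)
    · left
      obtain ⟨k, rfl⟩ := Subgroup.mem_zpowers_iff.mp h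
      refine ⟨ps.L p, k, fun z => ?_⟩
      rw [pm_GoGF1_N_eq, ← hval]
      simp only [PS.pval, List.map_nil, List.prod_nil, one_mul]
      rw [pm_GoGF1_TT_zpow, pm_GoGF1_nrm_mul_J3]
    · right; right
      obtain ⟨k, k', w, hw, he⟩ := pm_GoGF1_M H hΛ hV hpath hpS hpS (fun h' => h h'.2)
      refine ⟨fun _ => Cd (ps.L p) k, fun _ => Cd (ps.L p) k', w, Or.inl ⟨_, _, fun _ => rfl⟩,
        Or.inl ⟨_, _, fun _ => rfl⟩, hw, fun z => ?_⟩
      rw [pm_GoGF1_N_eq, ← hval, he]
  right; right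
  rw [List.concat_eq_append] at hl
  obtain ⟨gn, en⟩ := z0
  by_cases hB : ps.bar en = p ∧ gl ∈ Subgroup.zpowers (ps.c (ps.bar en))
  · -- the last transition is degenerate
    obtain ⟨hB1, hB2⟩ := hB
    obtain ⟨m, rfl⟩ := Subgroup.mem_zpowers_iff.mp hB2
    have hpath' := hpath
    rw [hl] at hpath'
    obtain ⟨hpath2, hen⟩ := pm_GoGF1_init hpath'
    have henS : en ∈ S (at_ en) := (H.hI _ hen).2
    have hgv : g = ps.pval l' * gn * ps.t en * ps.c (ps.bar en) ^ m := by
      rw [← hval, hl, pm_GoGF1_pval_append]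
      simp [PS.pval, mul_assoc]
    have hred' : (l' ++ [(gn, en)]).IsChain ps.NB := by rw [← hl]; exact hred
    rw [List.isChain_append] at hred'
    obtain ⟨hr1, -, hr2⟩ := hred'
    have hlast : ∀ x ∈ l'.getLast?, ¬ (ps.bar x.2 = en ∧ gn ∈ Subgroup.zpowers (ps.c (ps.bar x.2))) := by
      intro x hx hh
      exact hr2 x hx (gn, en) (by simp) hh.1.symm hh.2
    have hR : ∀ z, ps.N p z g = nrm (ps.TT z p (ps.pval l' * gn) en * diagonal (ps.Dl en m z)) := by
      intro z
      rw [pm_GoGF1_N_eq, hgv]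
      conv_lhs => rw [← hB1]
      rw [hB1]
      have := pm_GoGF1_right ps z p en (ps.pval l' * gn) m
      rw [hB1] at this
      rw [this, pm_GoGF1_nrm_mul_J3]
    by_cases hA : ∀ x ∈ l.head?, ¬ (p = x.2 ∧ x.1 ∈ Subgroup.zpowers (ps.c p))
    · -- the first transition is not degenerate
      have hN : pm_GoGF1_ND ps p l' gn en := by
        apply pm_GoGF1_ND_of hr1
        · intro x hx
          apply hA x
          rw [hl]
          cases l' with
          | nil => simp at hx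
          | cons a l' => simpa using hx
        · exact hlast
        · intro h0
          apply hA (gn, en)
          rw [hl, h0]
          simp
      obtain ⟨k, k', w, hw, he⟩ := pm_GoGF1_M H hΛ hV hpath2 hpS henS hN
      refine ⟨fun _ => Cd (ps.L p) k, fun z => diagonal (ps.Dl en (k' + m) z), w,
        Or.inl ⟨_, _, fun _ => rfl⟩, Or.inr ⟨en, hΛ hen, _, fun _ => rfl⟩, hw, fun z => ?_⟩
      beta_reduce
      rw [hR, he, ← pm_GoGF1_Cd_Dl]
      simp only [Matrix.mul_assoc]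
    · push Not at hA
      obtain ⟨x, hx, hx1, hx2⟩ := hA
      -- `l = x :: l₁`
      cases l' with
      | nil =>
        rw [hl] at hx
        simp only [List.nil_append, List.head?_cons, Option.mem_def, Option.some.injEq] at hx
        subst hx
        simp only at hx1
        exact absurd (hB1.trans hx1) (ps.bar_ne en)
      | cons a l'' =>
        rw [hl] at hx
        simp only [List.cons_append, List.head?_cons, Option.mem_def, Option.some.injEq] at hx
        subst hx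
        obtain ⟨g1, e1⟩ := a
        simp only at hx1 hx2
        subst hx1
        obtain ⟨k0, rfl⟩ := Subgroup.mem_zpowers_iff.mp hx2
        cases hpath2 with
        | cons _ _ _ hpath3 =>
          have hN : pm_GoGF1_ND ps (ps.bar p) l'' gn en := by
            apply pm_GoGF1_ND_of (l := l'') hr1.tail
            · intro y hy hh
              cases l'' with
              | nil => simp at hy
              | cons b l'' =>
                simp only [List.head?_cons, Option.mem_def, Option.some.injEq] at hy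
                subst hy
                exact (List.isChain_cons_cons.mp hr1).1 hh.1.symm hh.2
            · intro y hy
              apply hlast y
              cases l'' with
              | nil => simp at hy
              | cons b l'' => rw [List.getLast?_cons_cons]; exact hy
            · intro h0
              subst h0
              exact hlast (ps.c p ^ k0, p) (by simp)
          obtain ⟨k, k', w, hw, he⟩ := pm_GoGF1_M H hΛ hV hpath3 hbar henS hN
          refine ⟨fun z => diagonal (ps.Dl p (-k0 + k) z), fun z => diagonal (ps.Dl en (k' + m) z), w,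
            Or.inr ⟨p, hΛ hp, _, fun _ => rfl⟩, Or.inr ⟨en, hΛ hen, _, fun _ => rfl⟩, hw,
            fun z => ?_⟩
          beta_reduce
          rw [hR, pm_GoGF1_pval_cons, mul_assoc, pm_GoGF1_left, he,
            ← pm_GoGF1_Cd_Dl ps en z m k', ← pm_GoGF1_Dl_Cd ps p z (-k0) k, ps.L_bar, Matrix.mul_assoc J3, pm_GoGF1_nrm_J3_mul]
          simp only [Matrix.mul_assoc]
  · -- the last transition is not degenerate
    have hlast : ∀ x ∈ l.getLast?, ¬ (ps.bar x.2 = p ∧ gl ∈ Subgroup.zpowers (ps.c (ps.bar x.2))) := by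
      intro x hx
      rw [hl] at hx
      simp only [List.getLast?_append, List.getLast?_singleton, Option.some_or, Option.mem_def,
        Option.some.injEq] at hx
      subst hx
      exact hB
    by_cases hA : ∀ x ∈ l.head?, ¬ (p = x.2 ∧ x.1 ∈ Subgroup.zpowers (ps.c p))
    · have hN : pm_GoGF1_ND ps p l gl p := by
        apply pm_GoGF1_ND_of hred hA hlast
        intro h0
        rw [hl] at h0
        simp at h0
      obtain ⟨k, k', w, hw, he⟩ := pm_GoGF1_M H hΛ hV hpath hpS hpS hN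
      refine ⟨fun _ => Cd (ps.L p) k, fun _ => Cd (ps.L p) k', w, Or.inl ⟨_, _, fun _ => rfl⟩,
        Or.inl ⟨_, _, fun _ => rfl⟩, hw, fun z => ?_⟩
      rw [pm_GoGF1_N_eq, ← hval, he]
    · push Not at hA
      obtain ⟨x, hx, hx1, hx2⟩ := hA
      clear hl
      cases l with
      | nil => simp at hx
      | cons a l₁ =>
        simp only [List.head?_cons, Option.mem_def, Option.some.injEq] at hx
        subst hx
        obtain ⟨g1, e1⟩ := a
        simp only at hx1 hx2
        subst hx1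
        obtain ⟨k0, rfl⟩ := Subgroup.mem_zpowers_iff.mp hx2
        cases hpath with
        | cons _ _ _ hpath3 =>
          have hN : pm_GoGF1_ND ps (ps.bar p) l₁ gl p := by
            apply pm_GoGF1_ND_of (l := l₁) hred.tail
            · intro y hy hh
              cases l₁ with
              | nil => simp at hy
              | cons b l'' =>
                simp only [List.head?_cons, Option.mem_def, Option.some.injEq] at hy
                subst hy
                exact (List.isChain_cons_cons.mp hred).1 hh.1.symm hh.2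
            · intro y hy
              apply hlast y
              cases l₁ with
              | nil => simp at hy
              | cons b l'' => rw [List.getLast?_cons_cons]; exact hy
            · intro _ hh
              exact ps.bar_ne p hh.1
          obtain ⟨k, k', w, hw, he⟩ := pm_GoGF1_M H hΛ hV hpath3 hbar hpS hN
          refine ⟨fun z => diagonal (ps.Dl p (-k0 + k) z), fun z => Cd (ps.L p) k', w,
            Or.inr ⟨p, hΛ hp, _, fun _ => rfl⟩, Or.inl ⟨_, _, fun _ => rfl⟩, hw,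
            fun z => ?_⟩
          beta_reduce
          rw [pm_GoGF1_N_eq, ← hval, pm_GoGF1_pval_cons, mul_assoc, pm_GoGF1_left, he,
            ← pm_GoGF1_Dl_Cd, ps.L_bar, pm_GoGF1_nrm_J3_mul]
          simp only [Matrix.mul_assoc]

private theorem pm_GoGF2_entry (A : M3) (i j : Fin 3) : |A i j| ≤ nrm A := by
  unfold nrm
  refine le_trans (Finset.single_le_sum (f := fun j => |A i j|) (fun j _ => abs_nonneg _)
    (Finset.mem_univ j)) ?_
  exact Finset.single_le_sum (f := fun i => ∑ j, |A i j|)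
    (fun i _ => Finset.sum_nonneg fun j _ => abs_nonneg _) (Finset.mem_univ i)

private theorem pm_GoGF2_apply (d d' : Fin 3 → ℝ) (W : M3) (i j : Fin 3) :
    (diagonal d * W * diagonal d') i j = d i * W i j * d' j := by
  rw [Matrix.mul_diagonal, Matrix.diagonal_mul]

private theorem pm_GoGF2_nrm_diag {d : Fin 3 → ℝ} (h : PosD d) :
    mxd d ≤ nrm (diagonal d) ∧ nrm (diagonal d) ≤ 3 * mxd d := by
  have e : nrm (diagonal d) = d 0 + d 1 + d 2 := by
    simp only [nrm, Fin.sum_univ_three, Matrix.diagonal_apply]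
    simp [abs_of_pos (h.1 0), abs_of_pos (h.1 1), abs_of_pos (h.1 2)]
  have h0 := h.1 0
  have h1 := h.1 1
  have h2 := h.1 2
  rw [e]
  constructor
  · obtain ⟨i, hi⟩ := exists_mxd d
    rw [hi]
    fin_cases i <;> simp <;> linarith
  · linarith [le_mxd d 0, le_mxd d 1, le_mxd d 2]

private theorem pm_GoGF2_PosD_Cd (L : ℝ) (k : ℤ) :
    PosD (![Real.exp (-(k * L)), 1, Real.exp (k * L)] : Fin 3 → ℝ) := by
  constructor
  · intro i
    fin_cases i
    · exact Real.exp_pos _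
    · exact one_pos
    · exact Real.exp_pos _
  · simp [← Real.exp_add]

private theorem pm_GoGF2_outD {ps : PS Γ Z Q} {Λ : Set Q} {D : Z → M3} (h : OutD ps Λ D) :
    ∃ d : Z → Fin 3 → ℝ, (∀ z, D z = diagonal (d z) ∧ PosD (d z)) ∧
      ((∀ z z', d z = d z') ∨ ∃ e ∈ Λ, ∃ k : ℤ, ∀ z, d z = ps.Dl e k z) := by
  rcases h with ⟨L, k, h⟩ | ⟨e, he, k, h⟩
  · exact ⟨fun _ => ![Real.exp (-(k * L)), 1, Real.exp (k * L)],
      fun z => ⟨h z, pm_GoGF2_PosD_Cd L k⟩, Or.inl fun _ _ => rfl⟩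
  · exact ⟨fun z => ps.Dl e k z, fun z => ⟨h z, Dl_pos ps e k z⟩, Or.inr ⟨e, he, k, fun _ => rfl⟩⟩

private theorem pm_GoGF2_word {K κ : ℝ} (hκ : 0 ≤ κ) {Λ : Set Q} {w : Word Q} (h : w.Ok K κ Λ)
    (ps : PS Γ Z Q) (z : Z) :
    Bal K κ (ps.eval w z) ∧ dp w.hd * (w.tl.map (fun x => dp x.2.2)).prod ≤ dp (ps.eval w z) ∧
    mn w.hd * (w.tl.map (fun x => mxd (ps.Dl x.1 x.2.1 z) * mn x.2.2)).prod ≤
      mn (ps.eval w z) ∧
    mx (ps.eval w z) ≤
      mx w.hd * (w.tl.map (fun x => 3 * (mxd (ps.Dl x.1 x.2.1 z) * mx x.2.2))).prod := by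
  have := Bal.word hκ h.1 (w.tl.map (fun x => (ps.Dl x.1 x.2.1 z, x.2.2))) (by
    intro x hx
    obtain ⟨y, hy, rfl⟩ := List.mem_map.mp hx
    exact ⟨Dl_pos _ _ _ _, (h.2 y hy).2⟩)
  simp only [List.map_map] at this
  exact this

private theorem pm_GoGF2_log_prod {α : Type} (l : List α) (f : α → ℝ) (hf : ∀ x ∈ l, 0 < f x) :
    0 < (l.map f).prod ∧ Real.log (l.map f).prod = (l.map (fun x => Real.log (f x))).sum := by
  induction l with
  | nil => simp
  | cons a l ih =>
    obtain ⟨h1, h2⟩ := ih (fun x hx => hf x (List.mem_cons_of_mem _ hx))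
    have h0 := hf a (List.mem_cons_self)
    simp only [List.map_cons, List.prod_cons, List.sum_cons]
    exact ⟨mul_pos h0 h1, by rw [Real.log_mul h0.ne' h1.ne', h2]⟩

private theorem pm_GoGF2_sum_le {α : Type} (l : List α) (f g : α → ℝ) (hf : ∀ x ∈ l, f x ≤ g x) :
    (l.map f).sum ≤ (l.map g).sum := by
  induction l with
  | nil => simp
  | cons a l ih =>
    simp only [List.map_cons, List.sum_cons]
    exact add_le_add (hf a (List.mem_cons_self)) (ih fun x hx => hf x (List.mem_cons_of_mem _ hx))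

private theorem pm_GoGF2_sum_const {α : Type} (l : List α) (c : ℝ) :
    (l.map (fun _ => c)).sum = l.length * c := by
  induction l with
  | nil => simp
  | cons a l ih =>
    simp only [List.map_cons, List.sum_cons, ih, List.length_cons]
    push_cast; ring

private theorem pm_GoGF2_sum_add {α : Type} (l : List α) (f g : α → ℝ) :
    (l.map (fun x => f x + g x)).sum = (l.map f).sum + (l.map g).sum := by
  induction l with
  | nil => simp
  | cons a l ih =>
    simp only [List.map_cons, List.sum_cons, ih]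
    ring

private theorem pm_GoGF2_sum_mul {α : Type} (l : List α) (f : α → ℝ) (c : ℝ) :
    (l.map (fun x => c * f x)).sum = c * (l.map f).sum := by
  induction l with
  | nil => simp
  | cons a l ih =>
    simp only [List.map_cons, List.sum_cons, ih]
    ring

/-- lower bounds of the norm -/
private theorem pm_GoGF2_lower {K κ : ℝ} {d d' : Fin 3 → ℝ} (hd : PosD d) (hd' : PosD d') {W : M3}
    (hW : Bal K κ W) :
    mxd d * mn W * mxd d' ≤ nrm (diagonal d * W * diagonal d') ∧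
      dp W ≤ nrm (diagonal d * W * diagonal d') ^ 3 ∧
      0 < nrm (diagonal d * W * diagonal d') := by
  have hmn := hW.mn_pos
  have hpos : ∀ i j, 0 < (diagonal d * W * diagonal d') i j := by
    intro i j
    rw [pm_GoGF2_apply]
    exact mul_pos (mul_pos (hd.1 i) (hW.pos i j)) (hd'.1 j)
  have hent : ∀ i j, (diagonal d * W * diagonal d') i j ≤ nrm (diagonal d * W * diagonal d') :=
    fun i j => (le_abs_self _).trans (pm_GoGF2_entry _ i j)
  refine ⟨?_, ?_, lt_of_lt_of_le (hpos 0 0) (hent 0 0)⟩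
  · obtain ⟨i, hi⟩ := exists_mxd d
    obtain ⟨j, hj⟩ := exists_mxd d'
    rw [hi, hj]
    refine le_trans ?_ (hent i j)
    rw [pm_GoGF2_apply]
    exact mul_le_mul_of_nonneg_right (mul_le_mul_of_nonneg_left (mn_le W i j) (hd.1 i).le)
      (hd'.1 j).le
  · have e : dp W = (diagonal d * W * diagonal d') 0 0 * (diagonal d * W * diagonal d') 1 1 *
        (diagonal d * W * diagonal d') 2 2 := by
      simp only [pm_GoGF2_apply, dp]
      have h1 := hd.2
      have h2 := hd'.2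
      calc W 0 0 * W 1 1 * W 2 2 = (W 0 0 * W 1 1 * W 2 2) * (d 0 * d 1 * d 2) *
            (d' 0 * d' 1 * d' 2) := by rw [h1, h2]; ring
        _ = _ := by ring
    rw [e, pow_succ, pow_succ, pow_one]
    exact mul_le_mul (mul_le_mul (hent 0 0) (hent 1 1) (hpos 1 1).le
      ((hpos 0 0).le.trans (hent 0 0))) (hent 2 2) (hpos 2 2).le
      (mul_nonneg ((hpos 0 0).le.trans (hent 0 0)) ((hpos 0 0).le.trans (hent 0 0)))

/-- the number of letters against the norm -/
private theorem pm_GoGF2_len {K κ : ℝ} (hκ : 0 < κ) {Λ : Set Q} {w : Word Q} (h : w.Ok K κ Λ)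
    (ps : PS Γ Z Q) (z : Z) {d d' : Fin 3 → ℝ} (hd : PosD d) (hd' : PosD d') :
    ((w.tl.length : ℝ) + 1) * Real.log (1 + κ) ≤
      3 * Real.log (nrm (diagonal d * ps.eval w z * diagonal d')) := by
  obtain ⟨hB, hdp, -, -⟩ := pm_GoGF2_word hκ.le h ps z
  obtain ⟨-, h2, h3⟩ := pm_GoGF2_lower hd hd' hB
  have hdpos : ∀ x ∈ w.tl, 0 < dp x.2.2 := fun x hx =>
    lt_of_lt_of_le (by linarith) ((h.2 x hx).2.dp_ge)
  obtain ⟨p1, p2⟩ := pm_GoGF2_log_prod w.tl (fun x => dp x.2.2) hdpos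
  have h0 : 0 < dp w.hd := lt_of_lt_of_le (by linarith) h.1.dp_ge
  have h4 : Real.log (dp w.hd) + (w.tl.map (fun x => Real.log (dp x.2.2))).sum ≤
      3 * Real.log (nrm (diagonal d * ps.eval w z * diagonal d')) := by
    rw [← p2, ← Real.log_mul h0.ne' p1.ne']
    have e : 3 * Real.log (nrm (diagonal d * ps.eval w z * diagonal d')) =
        Real.log (nrm (diagonal d * ps.eval w z * diagonal d') ^ 3) := by
      rw [Real.log_pow]; norm_num
    rw [e]
    exact Real.log_le_log (mul_pos h0 p1) (hdp.trans h2)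
  have h5 : Real.log (1 + κ) ≤ Real.log (dp w.hd) := Real.log_le_log (by linarith) h.1.dp_ge
  have h6 : (w.tl.length : ℝ) * Real.log (1 + κ) ≤ (w.tl.map (fun x => Real.log (dp x.2.2))).sum := by
    rw [← pm_GoGF2_sum_const]
    exact pm_GoGF2_sum_le _ _ _ fun x hx => Real.log_le_log (by linarith) (h.2 x hx).2.dp_ge
  linarith

private theorem pm_GoGF2_balLog {K κ : ℝ} (hκ : 0 < κ) {A : M3} (h : Bal K κ A) :
    0 < mn A ∧ 0 < mx A ∧ Real.log (mx A) ≤ 2 * Real.log K + Real.log (mn A) ∧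
      -(2 * Real.log K) ≤ Real.log (mn A) := by
  have h1 := h.mn_pos
  have h2 := h.mx_le
  have h3 := h.dp_le
  have h4 : 0 < mx A := lt_of_lt_of_le (h.pos 0 0) (le_mx A 0 0)
  have hK := h.one_le
  have hK0 : 0 < K := by linarith
  have h5 : Real.log (mx A) ≤ 2 * Real.log K + Real.log (mn A) := by
    have := Real.log_le_log h4 h2
    rw [Real.log_mul (by positivity) h1.ne', Real.log_pow] at this
    exact_mod_cast this
  have h6 : 0 ≤ Real.log (mx A) := by
    apply Real.log_nonneg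
    by_contra hlt
    push Not at hlt
    have : mx A ^ 3 ≤ 1 := pow_le_one₀ h4.le hlt.le
    linarith
  exact ⟨h1, h4, h5, by linarith⟩

/-- quasi-isometry: the size at `z₀` is bounded by a power of the size at `z` -/
theorem N_qi {K κ c₁ : ℝ} (hκ : 0 < κ) (hc₁ : 0 ≤ c₁) : ∃ c > 0, ∀ {Γ Z Q : Type} [Group Γ]
    (ps : PS Γ Z Q) (Λ : Set Q) (z₀ z : Z),
    (∀ e ∈ Λ, ∀ k : ℤ, Real.log (mxd (ps.Dl e k z₀)) ≤ c₁ * (1 + Real.log (mxd (ps.Dl e k z)))) →
    ∀ (D D' : Z → M3) (w : Word Q), OutD ps Λ D → OutD ps Λ D' → w.Ok K κ Λ →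
      Real.log (nrm (D z₀ * ps.eval w z₀ * D' z₀)) ≤
        c * (1 + Real.log (nrm (D z * ps.eval w z * D' z))) := by
  set lam0 := Real.log (1 + κ) with hlam
  set Lk := |Real.log K| with hLk
  have hlam0 : 0 < lam0 := Real.log_pos (by linarith)
  have hLk0 : 0 ≤ Lk := abs_nonneg _
  have hl3 : 0 < Real.log 3 := Real.log_pos (by norm_num)
  have hR0 : 0 < (1 + c₁) * (3 / lam0 + 1 + 6 * Lk / lam0) + 3 * Real.log 3 / lam0 +
      6 * Lk / lam0 + 1 := by positivity
  have hP0 : 0 < 4 * Real.log 3 + (1 + c₁) := by positivity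
  refine ⟨(4 * Real.log 3 + (1 + c₁)) + ((1 + c₁) * (3 / lam0 + 1 + 6 * Lk / lam0) +
    3 * Real.log 3 / lam0 + 6 * Lk / lam0 + 1), by positivity, ?_⟩
  intro Γ Z Q _ ps Λ z₀ z hΛ D D' w hD hD' hw
  obtain ⟨d, hd, hd2⟩ := pm_GoGF2_outD hD
  obtain ⟨d', hd', hd2'⟩ := pm_GoGF2_outD hD'
  rw [(hd z).1, (hd' z).1, (hd z₀).1, (hd' z₀).1]
  have hlen := pm_GoGF2_len hκ hw ps z (hd z).2 (hd' z).2
  obtain ⟨hB, -, hmn, -⟩ := pm_GoGF2_word hκ.le hw ps z
  obtain ⟨hB₀, -, -, hmx⟩ := pm_GoGF2_word hκ.le hw ps z₀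
  obtain ⟨lo1, -, lo3⟩ := pm_GoGF2_lower (hd z).2 (hd' z).2 hB
  obtain ⟨-, -, lo3₀⟩ := pm_GoGF2_lower (hd z₀).2 (hd' z₀).2 hB₀
  set N := Real.log (nrm (diagonal (d z) * ps.eval w z * diagonal (d' z))) with hN
  set n : ℝ := (w.tl.length : ℝ) with hn
  have hn0 : 0 ≤ n := Nat.cast_nonneg _
  have hN0 : 0 ≤ N := by nlinarith
  -- the sums
  set A := (w.tl.map (fun x => Real.log (mxd (ps.Dl x.1 x.2.1 z)))).sum with hA
  set A₀ := (w.tl.map (fun x => Real.log (mxd (ps.Dl x.1 x.2.1 z₀)))).sum with hA₀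
  set B := (w.tl.map (fun x => Real.log (mn x.2.2))).sum with hBd
  set M := (w.tl.map (fun x => Real.log (mx x.2.2))).sum with hM
  have one1 : ∀ z (x : Q × ℤ × M3), 0 ≤ Real.log (mxd (ps.Dl x.1 x.2.1 z)) := fun z x =>
    Real.log_nonneg (one_le_mxd (Dl_pos ps x.1 x.2.1 z))
  have one2 : ∀ z (x : Q × ℤ × M3), 0 < mxd (ps.Dl x.1 x.2.1 z) := fun z x =>
    lt_of_lt_of_le one_pos (one_le_mxd (Dl_pos ps x.1 x.2.1 z))
  have hAnn : 0 ≤ A := by
    have := pm_GoGF2_sum_le w.tl (fun _ => (0 : ℝ)) _ (fun x _ => one1 z x)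
    rw [pm_GoGF2_sum_const, mul_zero] at this
    exact this
  have hmd : ∀ z, 0 < mxd (d z) ∧ 0 ≤ Real.log (mxd (d z)) := fun z =>
    ⟨lt_of_lt_of_le one_pos (one_le_mxd (hd z).2), Real.log_nonneg (one_le_mxd (hd z).2)⟩
  have hmd' : ∀ z, 0 < mxd (d' z) ∧ 0 ≤ Real.log (mxd (d' z)) := fun z =>
    ⟨lt_of_lt_of_le one_pos (one_le_mxd (hd' z).2), Real.log_nonneg (one_le_mxd (hd' z).2)⟩
  obtain ⟨hh1, hh2, hh3, hh4⟩ := pm_GoGF2_balLog hκ hw.1
  have hKL : Real.log K ≤ Lk := le_abs_self _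
  -- lower bound
  have low : Real.log (mxd (d z)) + Real.log (mxd (d' z)) + A + (Real.log (mn w.hd) + B) ≤ N := by
    have q1 := pm_GoGF2_log_prod w.tl (fun x => mxd (ps.Dl x.1 x.2.1 z) * mn x.2.2)
      (fun x hx => mul_pos (one2 z x) (pm_GoGF2_balLog hκ (hw.2 x hx).2).1)
    have q2 : (w.tl.map (fun x => Real.log (mxd (ps.Dl x.1 x.2.1 z) * mn x.2.2))).sum = A + B := by
      rw [hA, hBd, ← pm_GoGF2_sum_add]
      congr 1
      apply List.map_congr_left
      intro x hx
      exact Real.log_mul (one2 z x).ne' (pm_GoGF2_balLog hκ (hw.2 x hx).2).1.ne'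
    rw [q2] at q1
    have q3 : Real.log (mn w.hd) + (A + B) ≤ Real.log (mn (ps.eval w z)) := by
      rw [← q1.2, ← Real.log_mul hh1.ne' q1.1.ne']
      exact Real.log_le_log (mul_pos hh1 q1.1) hmn
    have q4 : Real.log (mxd (d z)) + Real.log (mn (ps.eval w z)) + Real.log (mxd (d' z)) ≤ N := by
      rw [← Real.log_mul (hmd z).1.ne' hB.mn_pos.ne',
        ← Real.log_mul (mul_pos (hmd z).1 hB.mn_pos).ne' (hmd' z).1.ne']
      exact Real.log_le_log (mul_pos (mul_pos (hmd z).1 hB.mn_pos) (hmd' z).1) lo1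
    linarith
  -- upper bound
  have upp : Real.log (nrm (diagonal (d z₀) * ps.eval w z₀ * diagonal (d' z₀))) ≤
      4 * Real.log 3 + Real.log (mxd (d z₀)) + Real.log (mxd (d' z₀)) +
        (Real.log (mx w.hd) + (n * Real.log 3 + A₀ + M)) := by
    have q1 := pm_GoGF2_log_prod w.tl (fun x => 3 * (mxd (ps.Dl x.1 x.2.1 z₀) * mx x.2.2))
      (fun x hx => mul_pos (by norm_num)
        (mul_pos (one2 z₀ x) (pm_GoGF2_balLog hκ (hw.2 x hx).2).2.1))
    have q2 : (w.tl.map (fun x => Real.log (3 * (mxd (ps.Dl x.1 x.2.1 z₀) * mx x.2.2)))).sum =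
        n * Real.log 3 + A₀ + M := by
      rw [hA₀, hM, ← pm_GoGF2_sum_const, ← pm_GoGF2_sum_add, ← pm_GoGF2_sum_add]
      congr 1
      apply List.map_congr_left
      intro x hx
      have := (pm_GoGF2_balLog hκ (hw.2 x hx).2).2.1
      rw [Real.log_mul (by norm_num) (mul_pos (one2 z₀ x) this).ne',
        Real.log_mul (one2 z₀ x).ne' this.ne']
      ring
    rw [q2] at q1
    have hmxW : 0 < mx (ps.eval w z₀) := (pm_GoGF2_balLog hκ hB₀).2.1
    have q3 : Real.log (mx (ps.eval w z₀)) ≤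
        Real.log (mx w.hd) + (n * Real.log 3 + A₀ + M) := by
      rw [← q1.2, ← Real.log_mul hh2.ne' q1.1.ne']
      exact Real.log_le_log hmxW hmx
    have q4 : nrm (diagonal (d z₀) * ps.eval w z₀ * diagonal (d' z₀)) ≤
        3 * mxd (d z₀) * (9 * mx (ps.eval w z₀)) * (3 * mxd (d' z₀)) := by
      refine (nrm_mul_le _ _).trans ?_
      refine mul_le_mul ((nrm_mul_le _ _).trans (mul_le_mul (pm_GoGF2_nrm_diag (hd z₀).2).2
        (nrm_le_mx hB₀.pos).2 (nrm_nonneg _) ?_)) (pm_GoGF2_nrm_diag (hd' z₀).2).2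
        (nrm_nonneg _) ?_
      · have := (hmd z₀).1; positivity
      · have := (hmd z₀).1; positivity
    have q5 := Real.log_le_log lo3₀ q4
    have e3 := (hmd z₀).1
    have e3' := (hmd' z₀).1
    rw [Real.log_mul (by positivity) (by positivity), Real.log_mul (by positivity) (by positivity),
      Real.log_mul (by positivity) (by positivity), Real.log_mul (by positivity) (by positivity),
      Real.log_mul (by positivity) (by positivity)] at q5
    have h9 : Real.log 9 = 2 * Real.log 3 := by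
      rw [show (9 : ℝ) = 3 ^ 2 by norm_num, Real.log_pow]; norm_num
    rw [h9] at q5
    linarith
  -- comparison
  have hMle : M ≤ n * (2 * Real.log K) + B := by
    rw [hM, hBd, ← pm_GoGF2_sum_const, ← pm_GoGF2_sum_add]
    exact pm_GoGF2_sum_le _ _ _ fun x hx => (pm_GoGF2_balLog hκ (hw.2 x hx).2).2.2.1
  have hBge : n * (-(2 * Real.log K)) ≤ B := by
    rw [hBd, ← pm_GoGF2_sum_const]
    exact pm_GoGF2_sum_le _ _ _ fun x hx => (pm_GoGF2_balLog hκ (hw.2 x hx).2).2.2.2
  have hA₀le : A₀ ≤ c₁ * (n + A) := by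
    have e : c₁ * (n + A) =
        (w.tl.map (fun x => c₁ * (1 + Real.log (mxd (ps.Dl x.1 x.2.1 z))))).sum := by
      rw [pm_GoGF2_sum_mul, pm_GoGF2_sum_add, pm_GoGF2_sum_const, mul_one]
    rw [e, hA₀]
    exact pm_GoGF2_sum_le _ _ _ fun x hx => hΛ x.1 (hw.2 x hx).1 x.2.1
  have hdz : Real.log (mxd (d z₀)) ≤ (1 + c₁) * (1 + Real.log (mxd (d z))) := by
    have h0 := (hmd z).2
    rcases hd2 with hc | ⟨e, he, k, hk⟩
    · rw [hc z₀ z]; nlinarith
    · have := hΛ e he k
      rw [← hk z, ← hk z₀] at this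
      nlinarith
  have hdz' : Real.log (mxd (d' z₀)) ≤ (1 + c₁) * (1 + Real.log (mxd (d' z))) := by
    have h0 := (hmd' z).2
    rcases hd2' with hc | ⟨e, he, k, hk⟩
    · rw [hc z₀ z]; nlinarith
    · have := hΛ e he k
      rw [← hk z, ← hk z₀] at this
      nlinarith
  clear_value A A₀ B M N n
  set a := Real.log (mxd (d z)) + Real.log (mxd (d' z)) + A with ha
  have ha0 : 0 ≤ a := by
    have := (hmd z).2
    have := (hmd' z).2
    linarith
  have hnK : (n + 1) * (2 * Real.log K) ≤ (n + 1) * (2 * Lk) :=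
    mul_le_mul_of_nonneg_left (by linarith) (by linarith)
  have ha1 : a ≤ N + (n + 1) * (2 * Lk) := by linarith
  have hn1 : n + 1 ≤ 3 * N / lam0 := by
    rw [le_div_iff₀ hlam0]; exact hlen
  have step : Real.log (nrm (diagonal (d z₀) * ps.eval w z₀ * diagonal (d' z₀))) ≤
      4 * Real.log 3 + (1 + c₁) * (1 + (n + 1) + a) + (n + 1) * Real.log 3 +
        (n + 1) * (2 * Lk) + N := by
    have t1 : c₁ * (n + A) ≤ (1 + c₁) * (n + A) :=
      mul_le_mul_of_nonneg_right (by linarith) (by linarith)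
    have t2 : (1 + c₁) * (1 + (n + 1) + a) = (1 + c₁) * (1 + Real.log (mxd (d z))) +
        (1 + c₁) * (1 + Real.log (mxd (d' z))) + (1 + c₁) * (n + A) := by rw [ha]; ring
    rw [t2]
    linarith
  have step2 : (1 + c₁) * (1 + (n + 1) + a) ≤
      (1 + c₁) * (1 + (n + 1) + (N + (n + 1) * (2 * Lk))) :=
    mul_le_mul_of_nonneg_left (by linarith) (by linarith)
  have step3 : (1 + c₁) * (1 + (n + 1) + (N + (n + 1) * (2 * Lk))) ≤
      (1 + c₁) * (1 + 3 * N / lam0 + (N + 3 * N / lam0 * (2 * Lk))) := by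
    apply mul_le_mul_of_nonneg_left _ (by linarith)
    have := mul_le_mul_of_nonneg_right hn1 (show 0 ≤ 2 * Lk by linarith)
    linarith
  have step4 : (n + 1) * Real.log 3 ≤ 3 * N / lam0 * Real.log 3 :=
    mul_le_mul_of_nonneg_right hn1 hl3.le
  have step5 : (n + 1) * (2 * Lk) ≤ 3 * N / lam0 * (2 * Lk) :=
    mul_le_mul_of_nonneg_right hn1 (by linarith)
  set R := (1 + c₁) * (3 / lam0 + 1 + 6 * Lk / lam0) + 3 * Real.log 3 / lam0 +
      6 * Lk / lam0 + 1 with hR
  have fin1 : 4 * Real.log 3 + (1 + c₁) * (1 + 3 * N / lam0 + (N + 3 * N / lam0 * (2 * Lk))) +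
      3 * N / lam0 * Real.log 3 + 3 * N / lam0 * (2 * Lk) + N =
      (4 * Real.log 3 + (1 + c₁)) + R * N := by
    rw [hR]; field_simp; ring
  have fin2 : (4 * Real.log 3 + (1 + c₁)) + R * N ≤
      (4 * Real.log 3 + (1 + c₁) + R) * (1 + N) := by
    have : 0 ≤ (4 * Real.log 3 + (1 + c₁)) * N := mul_nonneg hP0.le hN0
    nlinarith
  linarith

/-- continuity: if the diagonals at `z'` are at most `e^δ` times those at `z` then
`N_{z'} ≤ e^{2δ} N_z^{1+3δ/log(1+κ)}` -/
theorem N_cont {K κ : ℝ} (hκ : 0 < κ) (ps : PS Γ Z Q) (Λ : Set Q) {z z' : Z} {δ : ℝ} (hδ : 0 ≤ δ)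
    (hD : ∀ e ∈ Λ, ∀ k : ℤ, ∀ i, ps.Dl e k z' i ≤ Real.exp δ * ps.Dl e k z i)
    (D D' : Z → M3) (w : Word Q) (hD1 : OutD ps Λ D) (hD2 : OutD ps Λ D') (hw : w.Ok K κ Λ) :
    nrm (D z' * ps.eval w z' * D' z') ≤
      Real.exp (2 * δ) * (nrm (D z * ps.eval w z * D' z)) ^ (1 + 3 * δ / Real.log (1 + κ)) := by
  obtain ⟨d, hd, hd2⟩ := pm_GoGF2_outD hD1
  obtain ⟨d', hd', hd2'⟩ := pm_GoGF2_outD hD2
  rw [(hd z).1, (hd' z).1, (hd z').1, (hd' z').1]
  have hlen := pm_GoGF2_len hκ hw ps z (hd z).2 (hd' z).2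
  obtain ⟨hB, -, -, -⟩ := pm_GoGF2_word hκ.le hw ps z
  obtain ⟨hB', -, -, -⟩ := pm_GoGF2_word hκ.le hw ps z'
  obtain ⟨-, -, lo3⟩ := pm_GoGF2_lower (hd z).2 (hd' z).2 hB
  have hlam0 : 0 < Real.log (1 + κ) := Real.log_pos (by linarith)
  set N := nrm (diagonal (d z) * ps.eval w z * diagonal (d' z)) with hN
  have he1 : 1 ≤ Real.exp δ := Real.one_le_exp hδ
  -- entries of the word
  have hev : ∀ (l : List (Q × ℤ × M3)), (∀ x ∈ l, x.1 ∈ Λ ∧ Bal K κ x.2.2) →
      ∀ i j, 0 ≤ ps.evL l z' i j ∧ 0 ≤ ps.evL l z i j ∧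
        ps.evL l z' i j ≤ Real.exp δ ^ l.length * ps.evL l z i j := by
    intro l
    induction l with
    | nil =>
      intro _ i j
      have h01 : (0 : ℝ) ≤ (1 : M3) i j := by
        rw [Matrix.one_apply]; split_ifs <;> norm_num
      simp only [PS.evL, prodL, List.map_nil, List.prod_nil, List.length_nil, pow_zero, one_mul]
      exact ⟨h01, h01, le_refl _⟩
    | cons x l ih =>
      intro hl i j
      have ih' := ih (fun y hy => hl y (List.mem_cons_of_mem _ hy))
      obtain ⟨hx1, hx2⟩ := hl x List.mem_cons_self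
      have e : ∀ z, ps.evL (x :: l) z i j =
          ∑ k, ps.Dl x.1 x.2.1 z i * x.2.2 i k * ps.evL l z k j := by
        intro z
        rw [pm_GoGF1_evL_cons, Matrix.mul_apply]
        simp only [Matrix.diagonal_mul]
      have hDz := (Dl_pos ps x.1 x.2.1 z).1 i
      have hDz' := (Dl_pos ps x.1 x.2.1 z').1 i
      rw [e, e]
      refine ⟨Finset.sum_nonneg fun k _ => mul_nonneg (mul_nonneg hDz'.le (hx2.pos i k).le)
        (ih' k j).1, Finset.sum_nonneg fun k _ => mul_nonneg (mul_nonneg hDz.le (hx2.pos i k).le)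
        (ih' k j).2.1, ?_⟩
      rw [Finset.mul_sum]
      apply Finset.sum_le_sum
      intro k _
      calc ps.Dl x.1 x.2.1 z' i * x.2.2 i k * ps.evL l z' k j
          ≤ (Real.exp δ * ps.Dl x.1 x.2.1 z i * x.2.2 i k) *
            (Real.exp δ ^ l.length * ps.evL l z k j) := by
            apply mul_le_mul _ (ih' k j).2.2 (ih' k j).1
            · exact mul_nonneg (mul_nonneg (Real.exp_pos _).le hDz.le) (hx2.pos i k).le
            · exact mul_le_mul_of_nonneg_right (hD x.1 hx1 x.2.1 i) (hx2.pos i k).le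
        _ = _ := by rw [List.length_cons, pow_succ]; ring
  have hevw : ∀ i j, ps.eval w z' i j ≤ Real.exp δ ^ w.tl.length * ps.eval w z i j := by
    intro i j
    simp only [PS.eval, Matrix.mul_apply]
    rw [Finset.mul_sum]
    apply Finset.sum_le_sum
    intro k _
    have := (hev w.tl hw.2 k j).2.2
    calc w.hd i k * ps.evL w.tl z' k j
        ≤ w.hd i k * (Real.exp δ ^ w.tl.length * ps.evL w.tl z k j) :=
          mul_le_mul_of_nonneg_left this (hw.1.pos i k).le
      _ = _ := by ring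
  have hdd : ∀ i, d z' i ≤ Real.exp δ * d z i := by
    intro i
    rcases hd2 with hc | ⟨e, he, k, hk⟩
    · rw [hc z' z]
      have := (hd z).2.1 i
      nlinarith
    · rw [hk z', hk z]; exact hD e he k i
  have hdd' : ∀ i, d' z' i ≤ Real.exp δ * d' z i := by
    intro i
    rcases hd2' with hc | ⟨e, he, k, hk⟩
    · rw [hc z' z]
      have := (hd' z).2.1 i
      nlinarith
    · rw [hk z', hk z]; exact hD e he k i
  have hE0 : 0 < Real.exp δ ^ w.tl.length := pow_pos (Real.exp_pos _) _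
  have main : nrm (diagonal (d z') * ps.eval w z' * diagonal (d' z')) ≤
      Real.exp (2 * δ) * Real.exp δ ^ w.tl.length * N := by
    rw [hN]
    unfold nrm
    rw [Finset.mul_sum]
    apply Finset.sum_le_sum
    intro i _
    rw [Finset.mul_sum]
    apply Finset.sum_le_sum
    intro j _
    rw [pm_GoGF2_apply, pm_GoGF2_apply]
    have p1 := (hd z).2.1 i
    have p2 := (hd z').2.1 i
    have p3 := (hd' z).2.1 j
    have p4 := (hd' z').2.1 j
    have p5 := hB.pos i j
    have p6 := hB'.pos i j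
    rw [abs_of_pos (mul_pos (mul_pos p2 p6) p4), abs_of_pos (mul_pos (mul_pos p1 p5) p3)]
    calc d z' i * ps.eval w z' i j * d' z' j
        ≤ (Real.exp δ * d z i) * (Real.exp δ ^ w.tl.length * ps.eval w z i j) *
          (Real.exp δ * d' z j) := by
          apply mul_le_mul (mul_le_mul (hdd i) (hevw i j) p6.le _) (hdd' j) p4.le
          · have := Real.exp_pos δ; positivity
          · have := Real.exp_pos δ; positivity
      _ = _ := by
        rw [show Real.exp (2 * δ) = Real.exp δ * Real.exp δ by rw [← Real.exp_add]; ring_nf]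
        ring
  refine main.trans ?_
  rw [mul_assoc]
  apply mul_le_mul_of_nonneg_left _ (Real.exp_pos _).le
  rw [Real.rpow_add lo3, Real.rpow_one, mul_comm]
  apply mul_le_mul_of_nonneg_left _ lo3.le
  rw [Real.rpow_def_of_pos lo3, ← Real.exp_nat_mul]
  apply Real.exp_le_exp.mpr
  have : (w.tl.length : ℝ) * Real.log (1 + κ) ≤ 3 * Real.log N := by linarith
  rw [show Real.log N * (3 * δ / Real.log (1 + κ)) = (3 * Real.log N / Real.log (1 + κ)) * δ by
    ring]
  apply mul_le_mul_of_nonneg_right _ hδ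
  rw [le_div_iff₀ hlam0]
  exact this

/-- sizes of a diagonal -/
theorem log_nrm_diag {d : Fin 3 → ℝ} (h : PosD d) :
    Real.log (mxd d) ≤ Real.log (nrm (diagonal d)) ∧
      Real.log (nrm (diagonal d)) ≤ Real.log 3 + Real.log (mxd d) := by
  obtain ⟨h1, h2⟩ := pm_GoGF2_nrm_diag h
  have h0 : 0 < mxd d := lt_of_lt_of_le one_pos (one_le_mxd h)
  refine ⟨Real.log_le_log h0 h1, ?_⟩
  rw [← Real.log_mul (by norm_num) h0.ne']
  exact Real.log_le_log (lt_of_lt_of_le h0 h1) h2

end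

end PM3
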