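import Pool.Agent.LibPM3.GrowthDefs

/-! [PM3 G2, G3] packing. -/

namespace PM3
open Matrix Filter Topology
open scoped MatrixGroups

variable {Γ : Type*} [Group Γ]

private theorem pm_GrowB_bal_mul {X Y : Matrix (Fin 2) (Fin 2) ℝ} (hX : Bal2 2 X) (hY : Bal2 2 Y) :
    Bal2 2 (X * Y) := by
  refine ⟨fun i j => ?_, fun i i' j => ?_, fun i j j' => ?_⟩
  · rw [Matrix.mul_apply]
    exact Finset.sum_pos (fun k _ => mul_pos (hX.pos i k) (hY.pos k j)) Finset.univ_nonempty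
  · rw [Matrix.mul_apply, Matrix.mul_apply, Finset.mul_sum]
    refine Finset.sum_le_sum fun k _ => ?_
    rw [← mul_assoc]
    exact mul_le_mul_of_nonneg_right (hX.row i i' k) (hY.pos k j).le
  · rw [Matrix.mul_apply, Matrix.mul_apply, Finset.mul_sum]
    refine Finset.sum_le_sum fun k _ => ?_
    have h := mul_le_mul_of_nonneg_left (hY.col k j j') (hX.pos i k).le
    linarith

theorem SG_mul {ρ₀ : Γ →* SL(2, ℝ)} {G : GL (Fin 2) ℝ} {a b : Γ} (ha : a ∈ SG ρ₀ G) (hb : b ∈ SG ρ₀ G) :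
    a * b ∈ SG ρ₀ G := by
  obtain ⟨s, hs, ha⟩ := ha
  obtain ⟨t, ht, hb⟩ := hb
  refine ⟨s * t, ?_, ?_⟩
  · rcases hs with rfl | rfl <;> rcases ht with rfl | rfl <;> simp
  · have h := pm_GrowB_bal_mul ha hb
    have hG : (G : Matrix (Fin 2) (Fin 2) ℝ) * ((G⁻¹ : GL (Fin 2) ℝ) : Matrix (Fin 2) (Fin 2) ℝ) = 1 := by
      rw [← Units.val_mul, mul_inv_cancel, Units.val_one]
    have e : (s • (((G⁻¹ : GL (Fin 2) ℝ) : Matrix (Fin 2) (Fin 2) ℝ) *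
      (ρ₀ a : Matrix (Fin 2) (Fin 2) ℝ) * (G : Matrix (Fin 2) (Fin 2) ℝ))) *
      (t • (((G⁻¹ : GL (Fin 2) ℝ) : Matrix (Fin 2) (Fin 2) ℝ) *
      (ρ₀ b : Matrix (Fin 2) (Fin 2) ℝ) * (G : Matrix (Fin 2) (Fin 2) ℝ))) =
      (s * t) • (((G⁻¹ : GL (Fin 2) ℝ) : Matrix (Fin 2) (Fin 2) ℝ) *
      (ρ₀ (a * b) : Matrix (Fin 2) (Fin 2) ℝ) * (G : Matrix (Fin 2) (Fin 2) ℝ)) := by
      rw [Matrix.smul_mul, Matrix.mul_smul, smul_smul, map_mul, Matrix.SpecialLinearGroup.coe_mul]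
      congr 1
      simp only [Matrix.mul_assoc]
      rw [← Matrix.mul_assoc (G : Matrix (Fin 2) (Fin 2) ℝ) ((G⁻¹ : GL (Fin 2) ℝ) : Matrix (Fin 2) (Fin 2) ℝ),
        hG, Matrix.one_mul]
    rw [e] at h
    exact h

private theorem pm_GrowB_nrm_eq (A : Matrix (Fin 2) (Fin 2) ℝ) :
    nrm2 A = |A 0 0| + |A 0 1| + (|A 1 0| + |A 1 1|) := by
  simp [nrm2, Fin.sum_univ_two]

private theorem pm_GrowB_nrm_nonneg (A : Matrix (Fin 2) (Fin 2) ℝ) : 0 ≤ nrm2 A :=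
  Finset.sum_nonneg fun _ _ => Finset.sum_nonneg fun _ _ => abs_nonneg _

private theorem pm_GrowB_nrm_mul (A B : Matrix (Fin 2) (Fin 2) ℝ) : nrm2 (A * B) ≤ nrm2 A * nrm2 B := by
  have h1 : ∀ i j, |(A * B) i j| ≤ ∑ k, |A i k| * |B k j| := by
    intro i j
    rw [Matrix.mul_apply]
    refine (Finset.abs_sum_le_sum_abs _ _).trans (le_of_eq ?_)
    exact Finset.sum_congr rfl fun k _ => abs_mul _ _
  calc nrm2 (A * B) = ∑ i, ∑ j, |(A * B) i j| := rfl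
    _ ≤ ∑ i, ∑ j, ∑ k, |A i k| * |B k j| :=
        Finset.sum_le_sum fun i _ => Finset.sum_le_sum fun j _ => h1 i j
    _ = ∑ i, ∑ k, |A i k| * ∑ j, |B k j| := by
        refine Finset.sum_congr rfl fun i _ => ?_
        rw [Finset.sum_comm]
        refine Finset.sum_congr rfl fun k _ => ?_
        rw [Finset.mul_sum]
    _ ≤ ∑ i, ∑ k, |A i k| * ∑ k', ∑ j, |B k' j| := by
        refine Finset.sum_le_sum fun i _ => Finset.sum_le_sum fun k _ => ?_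
        refine mul_le_mul_of_nonneg_left ?_ (abs_nonneg _)
        exact Finset.single_le_sum (f := fun k' => ∑ j, |B k' j|)
          (fun k' _ => Finset.sum_nonneg fun _ _ => abs_nonneg _) (Finset.mem_univ k)
    _ = (∑ i, ∑ j, |A i j|) * ∑ i, ∑ j, |B i j| := by
        simp only [Finset.sum_mul]
    _ = nrm2 A * nrm2 B := rfl

private theorem pm_GrowB_nrm_smul {s : ℝ} (hs : s = 1 ∨ s = -1) (A : Matrix (Fin 2) (Fin 2) ℝ) :
    nrm2 (s • A) = nrm2 A := by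
  rcases hs with rfl | rfl <;> simp [nrm2]

private theorem pm_GrowB_det_smul {s : ℝ} (hs : s = 1 ∨ s = -1) (A : Matrix (Fin 2) (Fin 2) ℝ) :
    (s • A).det = A.det := by
  rw [Matrix.det_smul]
  rcases hs with rfl | rfl <;> simp

private theorem pm_GrowB_one_le {A : Matrix (Fin 2) (Fin 2) ℝ} (h : A.det = 1) : 1 ≤ nrm2 A := by
  by_contra hc
  push Not at hc
  have h0 := pm_GrowB_nrm_nonneg A
  rw [Matrix.det_fin_two] at h
  have h1 : (1 : ℝ) ≤ |A 0 0| * |A 1 1| + |A 0 1| * |A 1 0| := by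
    rw [← abs_mul, ← abs_mul]
    calc (1 : ℝ) = |A 0 0 * A 1 1 - A 0 1 * A 1 0| := by rw [h, abs_one]
      _ ≤ _ := abs_sub _ _
  have h2 : |A 0 0| * |A 1 1| + |A 0 1| * |A 1 0| ≤ nrm2 A * nrm2 A := by
    rw [pm_GrowB_nrm_eq]
    nlinarith [abs_nonneg (A 0 0), abs_nonneg (A 0 1), abs_nonneg (A 1 0), abs_nonneg (A 1 1),
      mul_nonneg (abs_nonneg (A 0 0)) (abs_nonneg (A 1 1)),
      mul_nonneg (abs_nonneg (A 0 1)) (abs_nonneg (A 1 0)),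
      mul_nonneg (abs_nonneg (A 0 0)) (abs_nonneg (A 0 1)),
      mul_nonneg (abs_nonneg (A 0 0)) (abs_nonneg (A 1 0)),
      mul_nonneg (abs_nonneg (A 0 1)) (abs_nonneg (A 1 1)),
      mul_nonneg (abs_nonneg (A 1 0)) (abs_nonneg (A 1 1))]
  nlinarith

private theorem pm_GrowB_nrm_bal {A : Matrix (Fin 2) (Fin 2) ℝ} (h : Bal2 2 A) :
    nrm2 A = A 0 0 + A 0 1 + (A 1 0 + A 1 1) := by
  rw [pm_GrowB_nrm_eq, abs_of_pos (h.pos 0 0), abs_of_pos (h.pos 0 1), abs_of_pos (h.pos 1 0),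
    abs_of_pos (h.pos 1 1)]

private theorem pm_GrowB_lower {X Y : Matrix (Fin 2) (Fin 2) ℝ} (hX : Bal2 2 X) (hY : Bal2 2 Y) :
    nrm2 X * nrm2 Y ≤ 3 * nrm2 (X * Y) := by
  rw [pm_GrowB_nrm_bal hX, pm_GrowB_nrm_bal hY, pm_GrowB_nrm_bal (pm_GrowB_bal_mul hX hY)]
  simp only [Matrix.mul_apply, Fin.sum_univ_two]
  have c1 : X 0 0 + X 1 0 ≤ 2 * (X 0 1 + X 1 1) := by
    linarith [hX.col 0 0 1, hX.col 1 0 1]
  have c2 : X 0 1 + X 1 1 ≤ 2 * (X 0 0 + X 1 0) := by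
    linarith [hX.col 0 1 0, hX.col 1 1 0]
  have r0 : 0 < Y 0 0 + Y 0 1 := add_pos (hY.pos 0 0) (hY.pos 0 1)
  have r1 : 0 < Y 1 0 + Y 1 1 := add_pos (hY.pos 1 0) (hY.pos 1 1)
  have k1 := mul_le_mul_of_nonneg_right c1 r1.le
  have k2 := mul_le_mul_of_nonneg_right c2 r0.le
  nlinarith [k1, k2]

/-- bound of the cross products -/
private theorem pm_GrowB_cross {X Y X' Y' : Matrix (Fin 2) (Fin 2) ℝ} (hX : Bal2 2 X) (hY : Bal2 2 Y)
    (hX' : Bal2 2 X') (hY' : Bal2 2 Y') (dX : X.det = 1) (dX' : X'.det = 1)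
    (hM : X * Y = X' * Y') (h1 : nrm2 X ≤ 3 * nrm2 X') (h2 : nrm2 X' ≤ 3 * nrm2 X) (i j : Fin 2) :
    |X 0 i * X' 1 j - X 1 i * X' 0 j| ≤ 162 := by
  have hMb := pm_GrowB_bal_mul hX hY
  set r := (X * Y) 1 0 with hr
  set p := (X * Y) 0 0 with hp
  have hrpos : 0 < r := hMb.pos 1 0
  have hnM : nrm2 (X * Y) ≤ 9 * r := by
    rw [pm_GrowB_nrm_bal hMb]
    have a1 := hMb.row 0 1 0
    have a2 := hMb.col 1 1 0
    have a3 := hMb.row 0 1 1
    linarith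
  have key : ∀ {A B : Matrix (Fin 2) (Fin 2) ℝ}, Bal2 2 A → Bal2 2 B → A.det = 1 →
      ∀ i : Fin 2, |A 0 i * (A * B) 1 0 - A 1 i * (A * B) 0 0| ≤ nrm2 B := by
    intro A B hA hB dA i
    rw [Matrix.det_fin_two] at dA
    rw [pm_GrowB_nrm_bal hB]
    have b00 := hB.pos 0 0
    have b01 := hB.pos 0 1
    have b10 := hB.pos 1 0
    have b11 := hB.pos 1 1
    fin_cases i
    · have e : A 0 0 * (A * B) 1 0 - A 1 0 * (A * B) 0 0 = B 1 0 := by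
        simp only [Matrix.mul_apply, Fin.sum_univ_two]
        linear_combination (B 1 0) * dA
      show |A 0 0 * (A * B) 1 0 - A 1 0 * (A * B) 0 0| ≤ _
      rw [e, abs_of_pos b10]
      linarith
    · have e : A 0 1 * (A * B) 1 0 - A 1 1 * (A * B) 0 0 = -B 0 0 := by
        simp only [Matrix.mul_apply, Fin.sum_univ_two]
        linear_combination (-(B 0 0)) * dA
      show |A 0 1 * (A * B) 1 0 - A 1 1 * (A * B) 0 0| ≤ _
      rw [e, abs_neg, abs_of_pos b00]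
      linarith
  have t1 := key hX hY dX i
  have t2 := key hX' hY' dX' j
  rw [← hM] at t2
  rw [← hr, ← hp] at t1 t2
  have e : r * (X 0 i * X' 1 j - X 1 i * X' 0 j) =
      (X 0 i * r - X 1 i * p) * X' 1 j - (X' 0 j * r - X' 1 j * p) * X 1 i := by ring
  have hent : ∀ {A : Matrix (Fin 2) (Fin 2) ℝ}, Bal2 2 A → ∀ i, A 1 i ≤ nrm2 A := by
    intro A hA i
    rw [pm_GrowB_nrm_bal hA]
    have b00 := hA.pos 0 0
    have b01 := hA.pos 0 1
    have b10 := hA.pos 1 0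
    have b11 := hA.pos 1 1
    fin_cases i
    · show A 1 0 ≤ _
      linarith
    · show A 1 1 ≤ _
      linarith
  have nX := pm_GrowB_nrm_nonneg X
  have nY := pm_GrowB_nrm_nonneg Y
  have nX' := pm_GrowB_nrm_nonneg X'
  have nY' := pm_GrowB_nrm_nonneg Y'
  have u1 : |(X 0 i * r - X 1 i * p) * X' 1 j| ≤ nrm2 Y * nrm2 X' := by
    rw [abs_mul, abs_of_pos (hX'.pos 1 j)]
    exact mul_le_mul t1 (hent hX' j) (hX'.pos 1 j).le nY
  have u2 : |(X' 0 j * r - X' 1 j * p) * X 1 i| ≤ nrm2 Y' * nrm2 X := by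
    rw [abs_mul, abs_of_pos (hX.pos 1 i)]
    exact mul_le_mul t2 (hent hX i) (hX.pos 1 i).le nY'
  have l1 := pm_GrowB_lower hX hY
  have l2 := pm_GrowB_lower hX' hY'
  rw [← hM] at l2
  have v1 : nrm2 Y * nrm2 X' ≤ 9 * nrm2 (X * Y) := by
    have := mul_le_mul_of_nonneg_left h2 nY
    nlinarith
  have v2 : nrm2 Y' * nrm2 X ≤ 9 * nrm2 (X * Y) := by
    have := mul_le_mul_of_nonneg_left h1 nY'
    nlinarith
  have w : r * |X 0 i * X' 1 j - X 1 i * X' 0 j| ≤ 162 * r := by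
    calc r * |X 0 i * X' 1 j - X 1 i * X' 0 j| = |r * (X 0 i * X' 1 j - X 1 i * X' 0 j)| := by
          rw [abs_mul, abs_of_pos hrpos]
      _ = |(X 0 i * r - X 1 i * p) * X' 1 j - (X' 0 j * r - X' 1 j * p) * X 1 i| := by rw [e]
      _ ≤ |(X 0 i * r - X 1 i * p) * X' 1 j| + |(X' 0 j * r - X' 1 j * p) * X 1 i| := abs_sub _ _
      _ ≤ 162 * r := by linarith
  have w' : r * |X 0 i * X' 1 j - X 1 i * X' 0 j| ≤ r * 162 := by linarith
  exact le_of_mul_le_mul_left w' hrpos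

/-- if `X Z = X'` then `Z` is bounded -/
private theorem pm_GrowB_quot {X Y X' Y' Z : Matrix (Fin 2) (Fin 2) ℝ} (hX : Bal2 2 X) (hY : Bal2 2 Y)
    (hX' : Bal2 2 X') (hY' : Bal2 2 Y') (dX : X.det = 1) (dX' : X'.det = 1)
    (hM : X * Y = X' * Y') (h1 : nrm2 X ≤ 3 * nrm2 X') (h2 : nrm2 X' ≤ 3 * nrm2 X)
    (hZ : X * Z = X') : nrm2 Z ≤ 648 := by
  have hc := fun i j => pm_GrowB_cross hX hY hX' hY' dX dX' hM h1 h2 i j
  rw [Matrix.det_fin_two] at dX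
  have z00 : |Z 0 0| ≤ 162 := by
    have e : Z 0 0 = -(X 0 1 * X' 1 0 - X 1 1 * X' 0 0) := by
      rw [← hZ]
      simp only [Matrix.mul_apply, Fin.sum_univ_two]
      linear_combination (-(Z 0 0)) * dX
    rw [e, abs_neg]
    exact hc 1 0
  have z01 : |Z 0 1| ≤ 162 := by
    have e : Z 0 1 = -(X 0 1 * X' 1 1 - X 1 1 * X' 0 1) := by
      rw [← hZ]
      simp only [Matrix.mul_apply, Fin.sum_univ_two]
      linear_combination (-(Z 0 1)) * dX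
    rw [e, abs_neg]
    exact hc 1 1
  have z10 : |Z 1 0| ≤ 162 := by
    have e : Z 1 0 = (X 0 0 * X' 1 0 - X 1 0 * X' 0 0) := by
      rw [← hZ]
      simp only [Matrix.mul_apply, Fin.sum_univ_two]
      linear_combination (-(Z 1 0)) * dX
    rw [e]
    exact hc 0 0
  have z11 : |Z 1 1| ≤ 162 := by
    have e : Z 1 1 = (X 0 0 * X' 1 1 - X 1 0 * X' 0 1) := by
      rw [← hZ]
      simp only [Matrix.mul_apply, Fin.sum_univ_two]
      linear_combination (-(Z 1 1)) * dX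
    rw [e]
    exact hc 0 1
  rw [pm_GrowB_nrm_eq]
  linarith

/-- P2: factorisations inside the semigroup -/
theorem packing_two (ρ₀ : Γ →* SL(2, ℝ)) (G : GL (Fin 2) ℝ)
    (hfin : ∀ C : ℝ, {γ : Γ | nrm2 (ρ₀ γ : Matrix (Fin 2) (Fin 2) ℝ) ≤ C}.Finite) :
    ∃ C > 0, ∀ γ : Γ, {p : Γ × Γ | p.1 ∈ SG ρ₀ G ∧ p.2 ∈ SG ρ₀ G ∧ p.1 * p.2 = γ}.Finite ∧
      (({p : Γ × Γ | p.1 ∈ SG ρ₀ G ∧ p.2 ∈ SG ρ₀ G ∧ p.1 * p.2 = γ}.ncard : ℝ)
        ≤ C * (1 + Real.log (nrm2 (ρ₀ γ : Matrix (Fin 2) (Fin 2) ℝ)))) := by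
  classical
  set P : Γ → Matrix (Fin 2) (Fin 2) ℝ := fun g =>
    ((G⁻¹ : GL (Fin 2) ℝ) : Matrix (Fin 2) (Fin 2) ℝ) *
      (ρ₀ g : Matrix (Fin 2) (Fin 2) ℝ) * (G : Matrix (Fin 2) (Fin 2) ℝ) with hP
  have hGi : (G : Matrix (Fin 2) (Fin 2) ℝ) * ((G⁻¹ : GL (Fin 2) ℝ) : Matrix (Fin 2) (Fin 2) ℝ) = 1 := by
    rw [← Units.val_mul, mul_inv_cancel, Units.val_one]
  have hiG : ((G⁻¹ : GL (Fin 2) ℝ) : Matrix (Fin 2) (Fin 2) ℝ) * (G : Matrix (Fin 2) (Fin 2) ℝ) = 1 := by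
    rw [← Units.val_mul, inv_mul_cancel, Units.val_one]
  have Pmul : ∀ g h, P (g * h) = P g * P h := by
    intro g h
    simp only [hP]
    rw [map_mul, Matrix.SpecialLinearGroup.coe_mul]
    simp only [Matrix.mul_assoc]
    rw [← Matrix.mul_assoc (G : Matrix (Fin 2) (Fin 2) ℝ) ((G⁻¹ : GL (Fin 2) ℝ) : Matrix (Fin 2) (Fin 2) ℝ),
        hGi, Matrix.one_mul]
  have Pdet : ∀ g, (P g).det = 1 := by
    intro g
    simp only [hP]
    rw [Matrix.det_mul, Matrix.det_mul, (ρ₀ g).2, mul_one, ← Matrix.det_mul, hiG, Matrix.det_one]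
  set K : ℝ := nrm2 (G : Matrix (Fin 2) (Fin 2) ℝ) *
    nrm2 ((G⁻¹ : GL (Fin 2) ℝ) : Matrix (Fin 2) (Fin 2) ℝ) with hK
  have hK2 : 2 ≤ K := by
    have h := pm_GrowB_nrm_mul (G : Matrix (Fin 2) (Fin 2) ℝ)
      ((G⁻¹ : GL (Fin 2) ℝ) : Matrix (Fin 2) (Fin 2) ℝ)
    rw [hGi] at h
    have h1 : nrm2 (1 : Matrix (Fin 2) (Fin 2) ℝ) = 2 := by
      rw [pm_GrowB_nrm_eq]; norm_num
    linarith
  have PleK : ∀ g, nrm2 (P g) ≤ K * nrm2 (ρ₀ g : Matrix (Fin 2) (Fin 2) ℝ) := by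
    intro g
    have h1 := pm_GrowB_nrm_mul (((G⁻¹ : GL (Fin 2) ℝ) : Matrix (Fin 2) (Fin 2) ℝ) *
      (ρ₀ g : Matrix (Fin 2) (Fin 2) ℝ)) (G : Matrix (Fin 2) (Fin 2) ℝ)
    have h2 := pm_GrowB_nrm_mul ((G⁻¹ : GL (Fin 2) ℝ) : Matrix (Fin 2) (Fin 2) ℝ)
      (ρ₀ g : Matrix (Fin 2) (Fin 2) ℝ)
    have h3 := mul_le_mul_of_nonneg_right h2 (pm_GrowB_nrm_nonneg (G : Matrix (Fin 2) (Fin 2) ℝ))
    calc nrm2 (P g) ≤ _ := h1
      _ ≤ _ := h3
      _ = _ := by rw [hK]; ring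
  have KleP : ∀ g, nrm2 (ρ₀ g : Matrix (Fin 2) (Fin 2) ℝ) ≤ K * nrm2 (P g) := by
    intro g
    have e : (ρ₀ g : Matrix (Fin 2) (Fin 2) ℝ) = (G : Matrix (Fin 2) (Fin 2) ℝ) * P g *
        ((G⁻¹ : GL (Fin 2) ℝ) : Matrix (Fin 2) (Fin 2) ℝ) := by
      simp only [hP]
      simp only [Matrix.mul_assoc]
      rw [hGi, Matrix.mul_one, ← Matrix.mul_assoc, hGi, Matrix.one_mul]
    have h1 := pm_GrowB_nrm_mul ((G : Matrix (Fin 2) (Fin 2) ℝ) * P g)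
      ((G⁻¹ : GL (Fin 2) ℝ) : Matrix (Fin 2) (Fin 2) ℝ)
    have h2 := pm_GrowB_nrm_mul (G : Matrix (Fin 2) (Fin 2) ℝ) (P g)
    have h3 := mul_le_mul_of_nonneg_right h2
      (pm_GrowB_nrm_nonneg ((G⁻¹ : GL (Fin 2) ℝ) : Matrix (Fin 2) (Fin 2) ℝ))
    rw [← e] at h1
    calc nrm2 (ρ₀ g : Matrix (Fin 2) (Fin 2) ℝ) ≤ _ := h1
      _ ≤ _ := h3
      _ = _ := by rw [hK]; ring
  set B : Set Γ := {γ : Γ | nrm2 (ρ₀ γ : Matrix (Fin 2) (Fin 2) ℝ) ≤ K * 648} with hB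
  have hBfin : B.Finite := hfin _
  have hlogK : 0 ≤ Real.log (3 * K) := Real.log_nonneg (by linarith)
  refine ⟨(B.ncard : ℝ) * (1 + Real.log (3 * K)) + 1, by positivity, fun γ => ?_⟩
  set F : Set (Γ × Γ) := {p : Γ × Γ | p.1 ∈ SG ρ₀ G ∧ p.2 ∈ SG ρ₀ G ∧ p.1 * p.2 = γ} with hF
  set n : ℝ := nrm2 (ρ₀ γ : Matrix (Fin 2) (Fin 2) ℝ) with hn
  have hn1 : 1 ≤ n := pm_GrowB_one_le (ρ₀ γ).2
  set m : Γ × Γ → ℕ := fun p => ⌊Real.log (nrm2 (P p.1))⌋₊ with hm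
  set L : ℕ := ⌊Real.log (3 * K * n)⌋₊ with hL
  set rep : ℕ → Γ := fun k => if h : ∃ p, p ∈ F ∧ m p = k then h.choose.1 else 1 with hrep
  -- the positive representatives
  have pos_rep : ∀ p ∈ F, ∃ s t : ℝ, (s = 1 ∨ s = -1) ∧ (t = 1 ∨ t = -1) ∧ Bal2 2 (s • P p.1) ∧
      Bal2 2 (t • P p.2) ∧ (s • P p.1) * (t • P p.2) = (s * t) • P γ := by
    intro p hp
    obtain ⟨⟨s, hs, h1⟩, ⟨t, ht, h2⟩, h3⟩ := hp
    refine ⟨s, t, hs, ht, h1, h2, ?_⟩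
    rw [Matrix.smul_mul, Matrix.mul_smul, smul_smul, ← Pmul, h3]
  have size_le : ∀ p ∈ F, nrm2 (P p.1) ≤ 3 * K * n := by
    intro p hp
    obtain ⟨s, t, hs, ht, h1, h2, h3⟩ := pos_rep p hp
    have h4 := pm_GrowB_lower h1 h2
    have hst : s * t = 1 ∨ s * t = -1 := by
      rcases hs with rfl | rfl <;> rcases ht with rfl | rfl <;> simp
    rw [h3, pm_GrowB_nrm_smul hs, pm_GrowB_nrm_smul ht, pm_GrowB_nrm_smul hst] at h4
    have h5 := pm_GrowB_one_le (Pdet p.2)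
    have h6 := PleK γ
    have h7 : nrm2 (P p.1) * 1 ≤ nrm2 (P p.1) * nrm2 (P p.2) :=
      mul_le_mul_of_nonneg_left h5 (pm_GrowB_nrm_nonneg _)
    calc nrm2 (P p.1) = nrm2 (P p.1) * 1 := (mul_one _).symm
      _ ≤ _ := h7
      _ ≤ 3 * nrm2 (P γ) := h4
      _ ≤ 3 * (K * n) := by linarith
      _ = 3 * K * n := by ring
  have same : ∀ p ∈ F, ∀ q ∈ F, m p = m q → nrm2 (P p.1) ≤ 3 * nrm2 (P q.1) := by
    intro p hp q hq hpq
    have h1 := pm_GrowB_one_le (Pdet p.1)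
    have h2 := pm_GrowB_one_le (Pdet q.1)
    have h3 : Real.log (nrm2 (P p.1)) < m p + 1 := Nat.lt_floor_add_one _
    have h4 : (m q : ℝ) ≤ Real.log (nrm2 (P q.1)) := Nat.floor_le (Real.log_nonneg h2)
    rw [hpq] at h3
    have h5 : Real.log (nrm2 (P p.1)) < Real.log (nrm2 (P q.1)) + 1 := by linarith
    have h6 : nrm2 (P p.1) < Real.exp (Real.log (nrm2 (P q.1)) + 1) := by
      rw [← Real.log_lt_iff_lt_exp (by linarith)]
      exact h5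
    rw [Real.exp_add, Real.exp_log (by linarith)] at h6
    have h7 : Real.exp 1 < 3 := by
      have := Real.exp_one_lt_d9
      linarith
    nlinarith
  have quot : ∀ p ∈ F, ∀ q ∈ F, m p = m q → p.1⁻¹ * q.1 ∈ B := by
    intro p hp q hq hpq
    obtain ⟨s, t, hs, ht, h1, h2, h3⟩ := pos_rep p hp
    obtain ⟨s', t', hs', ht', h1', h2', h3'⟩ := pos_rep q hq
    -- same sign
    have hst : s * t = s' * t' := by
      have b1 := (pm_GrowB_bal_mul h1 h2).pos 0 0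
      have b2 := (pm_GrowB_bal_mul h1' h2').pos 0 0
      rw [h3] at b1
      rw [h3'] at b2
      simp only [Matrix.smul_apply, smul_eq_mul] at b1 b2
      rcases hs with rfl | rfl <;> rcases ht with rfl | rfl <;> rcases hs' with rfl | rfl <;>
        rcases ht' with rfl | rfl <;> first | (exfalso; linarith) | norm_num
    have hM : (s • P p.1) * (t • P p.2) = (s' • P q.1) * (t' • P q.2) := by rw [h3, h3', hst]
    have n1 : nrm2 (s • P p.1) ≤ 3 * nrm2 (s' • P q.1) := by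
      rw [pm_GrowB_nrm_smul hs, pm_GrowB_nrm_smul hs']
      exact same p hp q hq hpq
    have n2 : nrm2 (s' • P q.1) ≤ 3 * nrm2 (s • P p.1) := by
      rw [pm_GrowB_nrm_smul hs, pm_GrowB_nrm_smul hs']
      exact same q hq p hp hpq.symm
    have hss : s * s = 1 := by rcases hs with rfl | rfl <;> norm_num
    have hZ : (s • P p.1) * ((s * s') • P (p.1⁻¹ * q.1)) = s' • P q.1 := by
      rw [Matrix.smul_mul, Matrix.mul_smul, smul_smul, ← Pmul, mul_inv_cancel_left, ← mul_assoc, hss,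
        one_mul]
    have h4 := pm_GrowB_quot h1 h2 h1' h2' (by rw [pm_GrowB_det_smul hs, Pdet])
      (by rw [pm_GrowB_det_smul hs', Pdet]) hM n1 n2 hZ
    have hss' : s * s' = 1 ∨ s * s' = -1 := by
      rcases hs with rfl | rfl <;> rcases hs' with rfl | rfl <;> simp
    rw [pm_GrowB_nrm_smul hss'] at h4
    have h5 := KleP (p.1⁻¹ * q.1)
    show nrm2 (ρ₀ (p.1⁻¹ * q.1) : Matrix (Fin 2) (Fin 2) ℝ) ≤ K * 648
    exact h5.trans (mul_le_mul_of_nonneg_left h4 (by linarith))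
  set f : Γ × Γ → ℕ × Γ := fun p => (m p, (rep (m p))⁻¹ * p.1) with hf
  set T : Set (ℕ × Γ) := (Set.Iic L) ×ˢ B with hT
  have hTfin : T.Finite := (Set.finite_Iic L).prod hBfin
  have hmaps : ∀ p ∈ F, f p ∈ T := by
    intro p hp
    refine ⟨?_, ?_⟩
    · show m p ≤ L
      exact Nat.floor_mono (Real.log_le_log (by linarith [pm_GrowB_one_le (Pdet p.1)]) (size_le p hp))
    · show (rep (m p))⁻¹ * p.1 ∈ B
      have hex : ∃ q, q ∈ F ∧ m q = m p := ⟨p, hp, rfl⟩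
      have hr : rep (m p) = hex.choose.1 := by
        simp only [hrep]
        rw [dif_pos hex]
      rw [hr]
      exact quot _ hex.choose_spec.1 p hp hex.choose_spec.2
  have hinj : Set.InjOn f F := by
    intro p hp q hq hpq
    have h1 : m p = m q := congrArg Prod.fst hpq
    have h2 : (rep (m p))⁻¹ * p.1 = (rep (m q))⁻¹ * q.1 := congrArg Prod.snd hpq
    rw [h1] at h2
    have h3 : p.1 = q.1 := mul_left_cancel h2
    have h4 : p.2 = q.2 := by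
      have h5 := hp.2.2
      have h6 := hq.2.2
      rw [← h6, h3] at h5
      exact mul_left_cancel h5
    exact Prod.ext h3 h4
  have hFfin : F.Finite := Set.Finite.of_finite_image (hTfin.subset (Set.image_subset_iff.2 hmaps)) hinj
  refine ⟨hFfin, ?_⟩
  have hcard : F.ncard ≤ T.ncard := Set.ncard_le_ncard_of_injOn f hmaps hinj hTfin
  have hTcard : T.ncard = (L + 1) * B.ncard := by
    rw [hT, Set.ncard_prod]
    congr 1
    rw [← Nat.card_coe_set_eq]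
    simp
  have hlog : 0 ≤ Real.log (3 * K * n) := Real.log_nonneg (by nlinarith)
  have hLle : (L : ℝ) ≤ Real.log (3 * K) + Real.log n := by
    rw [← Real.log_mul (by linarith) (by linarith)]
    exact Nat.floor_le hlog
  have hlogn : 0 ≤ Real.log n := Real.log_nonneg hn1
  have hb : (0 : ℝ) ≤ B.ncard := by positivity
  have hc : (F.ncard : ℝ) ≤ ((L : ℝ) + 1) * B.ncard := by
    have : F.ncard ≤ (L + 1) * B.ncard := hTcard ▸ hcard
    exact_mod_cast this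
  calc (F.ncard : ℝ) ≤ ((L : ℝ) + 1) * B.ncard := hc
    _ ≤ (Real.log (3 * K) + Real.log n + 1) * B.ncard :=
        mul_le_mul_of_nonneg_right (by linarith) hb
    _ ≤ ((B.ncard : ℝ) * (1 + Real.log (3 * K)) + 1) * (1 + Real.log n) := by
        have h1 : 0 ≤ (B.ncard : ℝ) * Real.log (3 * K) := mul_nonneg hb hlogK
        have h2 : 0 ≤ (B.ncard : ℝ) * Real.log (3 * K) * Real.log n := mul_nonneg h1 hlogn
        nlinarith [mul_nonneg hb hlogn]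

end PM3
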