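import Pool.Agent.LibPM3.GrowthDefs

/-! [PM3 G3] packing of a conjugacy class. -/

namespace PM3
open Matrix Filter Topology
open scoped MatrixGroups

variable {Γ : Type*} [Group Γ]

/-- conjugation by the frame -/
private noncomputable def pm_GrowC_cj (G : GL (Fin 2) ℝ) (A : Matrix (Fin 2) (Fin 2) ℝ) :
    Matrix (Fin 2) (Fin 2) ℝ :=
  ((G⁻¹ : GL (Fin 2) ℝ) : Matrix (Fin 2) (Fin 2) ℝ) * A * (G : Matrix (Fin 2) (Fin 2) ℝ)

private theorem pm_GrowC_cj_one (G : GL (Fin 2) ℝ) : pm_GrowC_cj G 1 = 1 := by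
  unfold pm_GrowC_cj
  rw [mul_one]
  exact Units.inv_mul G

private theorem pm_GrowC_cj_mul (G : GL (Fin 2) ℝ) (U W : Matrix (Fin 2) (Fin 2) ℝ) :
    pm_GrowC_cj G (U * W) = pm_GrowC_cj G U * pm_GrowC_cj G W := by
  unfold pm_GrowC_cj
  have h : (G : Matrix (Fin 2) (Fin 2) ℝ) * ((G⁻¹ : GL (Fin 2) ℝ) : Matrix (Fin 2) (Fin 2) ℝ) = 1 :=
    Units.mul_inv G
  generalize ((G⁻¹ : GL (Fin 2) ℝ) : Matrix (Fin 2) (Fin 2) ℝ) = X at *
  generalize (G : Matrix (Fin 2) (Fin 2) ℝ) = Y at *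
  calc X * (U * W) * Y = X * U * 1 * W * Y := by rw [mul_one]; simp only [mul_assoc]
    _ = X * U * (Y * X) * W * Y := by rw [h]
    _ = _ := by simp only [mul_assoc]

private theorem pm_GrowC_cj_det (G : GL (Fin 2) ℝ) (U : Matrix (Fin 2) (Fin 2) ℝ) :
    (pm_GrowC_cj G U).det = U.det := Matrix.det_units_conj' G U

private theorem pm_GrowC_cj_inv (G : GL (Fin 2) ℝ) (U : Matrix (Fin 2) (Fin 2) ℝ) :
    U = (G : Matrix (Fin 2) (Fin 2) ℝ) * pm_GrowC_cj G U *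
      ((G⁻¹ : GL (Fin 2) ℝ) : Matrix (Fin 2) (Fin 2) ℝ) := by
  unfold pm_GrowC_cj
  have h : (G : Matrix (Fin 2) (Fin 2) ℝ) * ((G⁻¹ : GL (Fin 2) ℝ) : Matrix (Fin 2) (Fin 2) ℝ) = 1 :=
    Units.mul_inv G
  generalize ((G⁻¹ : GL (Fin 2) ℝ) : Matrix (Fin 2) (Fin 2) ℝ) = X at *
  generalize (G : Matrix (Fin 2) (Fin 2) ℝ) = Y at *
  calc U = 1 * U * 1 := by simp
    _ = (Y * X) * U * (Y * X) := by rw [h]
    _ = _ := by simp only [mul_assoc]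

/-- the representation in the frame `G` -/
private noncomputable def pm_GrowC_R (ρ₀ : Γ →* SL(2, ℝ)) (G : GL (Fin 2) ℝ) : Γ →* SL(2, ℝ) where
  toFun γ := ⟨pm_GrowC_cj G (ρ₀ γ : Matrix (Fin 2) (Fin 2) ℝ),
    (pm_GrowC_cj_det G _).trans (ρ₀ γ).2⟩
  map_one' := by
    apply Subtype.ext
    have h : (ρ₀ 1 : Matrix (Fin 2) (Fin 2) ℝ) = 1 := by
      rw [map_one]
      exact Matrix.SpecialLinearGroup.coe_one
    exact (congrArg (pm_GrowC_cj G) h).trans (pm_GrowC_cj_one G)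
  map_mul' a b := by
    apply Subtype.ext
    have h : (ρ₀ (a * b) : Matrix (Fin 2) (Fin 2) ℝ) =
        (ρ₀ a : Matrix (Fin 2) (Fin 2) ℝ) * (ρ₀ b : Matrix (Fin 2) (Fin 2) ℝ) := by
      rw [map_mul]
      exact Matrix.SpecialLinearGroup.coe_mul _ _
    exact (congrArg (pm_GrowC_cj G) h).trans (pm_GrowC_cj_mul G _ _)

private theorem pm_GrowC_R_coe (ρ₀ : Γ →* SL(2, ℝ)) (G : GL (Fin 2) ℝ) (γ : Γ) :
    (pm_GrowC_R ρ₀ G γ : Matrix (Fin 2) (Fin 2) ℝ) =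
      ((G⁻¹ : GL (Fin 2) ℝ) : Matrix (Fin 2) (Fin 2) ℝ) *
      (ρ₀ γ : Matrix (Fin 2) (Fin 2) ℝ) * (G : Matrix (Fin 2) (Fin 2) ℝ) := rfl

private theorem pm_GrowC_rho (ρ₀ : Γ →* SL(2, ℝ)) (G : GL (Fin 2) ℝ) (γ : Γ) :
    (ρ₀ γ : Matrix (Fin 2) (Fin 2) ℝ) = (G : Matrix (Fin 2) (Fin 2) ℝ) *
      (pm_GrowC_R ρ₀ G γ : Matrix (Fin 2) (Fin 2) ℝ) *
      ((G⁻¹ : GL (Fin 2) ℝ) : Matrix (Fin 2) (Fin 2) ℝ) :=
  pm_GrowC_cj_inv G _

/-- diagonal matrices -/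
private noncomputable def pm_GrowC_D : ℝˣ →* SL(2, ℝ) where
  toFun x := ⟨!![(x : ℝ), 0; 0, ((x⁻¹ : ℝˣ) : ℝ)], by simp [Matrix.det_fin_two]⟩
  map_one' := by
    apply Subtype.ext
    ext i j
    fin_cases i <;> fin_cases j <;> simp
  map_mul' x y := by
    apply Subtype.ext
    ext i j
    fin_cases i <;> fin_cases j <;> simp [Matrix.mul_apply, Fin.sum_univ_two, mul_comm]

private theorem pm_GrowC_D_coe (x : ℝˣ) : (pm_GrowC_D x : Matrix (Fin 2) (Fin 2) ℝ) =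
    !![(x : ℝ), 0; 0, ((x⁻¹ : ℝˣ) : ℝ)] := rfl

private theorem pm_GrowC_nrm_mul (A B : Matrix (Fin 2) (Fin 2) ℝ) :
    nrm2 (A * B) ≤ nrm2 A * nrm2 B := by
  have h : ∀ i j, |(A * B) i j| ≤ |A i 0| * |B 0 j| + |A i 1| * |B 1 j| := by
    intro i j
    rw [Matrix.mul_apply, Fin.sum_univ_two, ← abs_mul, ← abs_mul]
    exact abs_add_le _ _
  have h00 := h 0 0
  have h01 := h 0 1
  have h10 := h 1 0
  have h11 := h 1 1
  simp only [nrm2, Fin.sum_univ_two]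
  have p1 := mul_nonneg (abs_nonneg (A 0 0)) (abs_nonneg (B 1 0))
  have p2 := mul_nonneg (abs_nonneg (A 0 0)) (abs_nonneg (B 1 1))
  have p3 := mul_nonneg (abs_nonneg (A 0 1)) (abs_nonneg (B 0 0))
  have p4 := mul_nonneg (abs_nonneg (A 0 1)) (abs_nonneg (B 0 1))
  have p5 := mul_nonneg (abs_nonneg (A 1 0)) (abs_nonneg (B 1 0))
  have p6 := mul_nonneg (abs_nonneg (A 1 0)) (abs_nonneg (B 1 1))
  have p7 := mul_nonneg (abs_nonneg (A 1 1)) (abs_nonneg (B 0 0))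
  have p8 := mul_nonneg (abs_nonneg (A 1 1)) (abs_nonneg (B 0 1))
  nlinarith

private theorem pm_GrowC_nrm_nonneg (A : Matrix (Fin 2) (Fin 2) ℝ) : 0 ≤ nrm2 A :=
  Finset.sum_nonneg fun _ _ => Finset.sum_nonneg fun _ _ => abs_nonneg _

private theorem pm_GrowC_diag (A : SL(2, ℝ)) (s : ℝ) (hs : s = 1 ∨ s = -1)
    (hB : Bal2 2 (s • (A : Matrix (Fin 2) (Fin 2) ℝ))) :
    ∃ (P : SL(2, ℝ)) (y : ℝˣ), 1 < |(y : ℝ)| ∧
      |(y : ℝ)| ≤ |(A : Matrix (Fin 2) (Fin 2) ℝ).trace| ∧ A = P * pm_GrowC_D y * P⁻¹ ∧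
      ∀ i j, |(P : Matrix (Fin 2) (Fin 2) ℝ) i j| ≤ 3 := by
  have hss : s * s = 1 := by rcases hs with rfl | rfl <;> norm_num
  have hdet : (A : Matrix (Fin 2) (Fin 2) ℝ) 0 0 * (A : Matrix (Fin 2) (Fin 2) ℝ) 1 1 -
      (A : Matrix (Fin 2) (Fin 2) ℝ) 0 1 * (A : Matrix (Fin 2) (Fin 2) ℝ) 1 0 = 1 := by
    have := A.2
    rwa [Matrix.det_fin_two] at this
  obtain ⟨a, ha⟩ : ∃ a, a = s * (A : Matrix (Fin 2) (Fin 2) ℝ) 0 0 := ⟨_, rfl⟩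
  obtain ⟨b, hb⟩ : ∃ b, b = s * (A : Matrix (Fin 2) (Fin 2) ℝ) 0 1 := ⟨_, rfl⟩
  obtain ⟨c, hc⟩ : ∃ c, c = s * (A : Matrix (Fin 2) (Fin 2) ℝ) 1 0 := ⟨_, rfl⟩
  obtain ⟨d, hd⟩ : ∃ d, d = s * (A : Matrix (Fin 2) (Fin 2) ℝ) 1 1 := ⟨_, rfl⟩
  have a0 : 0 < a := by have := hB.pos 0 0; rw [Matrix.smul_apply, smul_eq_mul] at this; rwa [ha]
  have b0 : 0 < b := by have := hB.pos 0 1; rw [Matrix.smul_apply, smul_eq_mul] at this; rwa [hb]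
  have c0 : 0 < c := by have := hB.pos 1 0; rw [Matrix.smul_apply, smul_eq_mul] at this; rwa [hc]
  have d0 : 0 < d := by have := hB.pos 1 1; rw [Matrix.smul_apply, smul_eq_mul] at this; rwa [hd]
  have e1 : a ≤ 2 * b := by
    have := hB.col 0 0 1; simp only [Matrix.smul_apply, smul_eq_mul] at this; rwa [ha, hb]
  have e2 : d ≤ 2 * b := by
    have := hB.row 1 0 1; simp only [Matrix.smul_apply, smul_eq_mul] at this; rwa [hd, hb]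
  have e3 : b ≤ 2 * a := by
    have := hB.col 0 1 0; simp only [Matrix.smul_apply, smul_eq_mul] at this; rwa [ha, hb]
  have e4 : b ≤ 2 * d := by
    have := hB.row 0 1 1; simp only [Matrix.smul_apply, smul_eq_mul] at this; rwa [hd, hb]
  have e5 : a ≤ 2 * c := by
    have := hB.row 0 1 0; simp only [Matrix.smul_apply, smul_eq_mul] at this; rwa [ha, hc]
  have e6 : d ≤ 2 * c := by
    have := hB.col 1 1 0; simp only [Matrix.smul_apply, smul_eq_mul] at this; rwa [hd, hc]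
  have hD : a * d - b * c = 1 := by
    rw [ha, hb, hc, hd]
    linear_combination s * s * hdet + hss
  -- discriminant
  have hbc : a * d ≤ 4 * (b * c) := by nlinarith
  have had : 4 / 3 ≤ a * d := by nlinarith
  obtain ⟨τ, hτ⟩ : ∃ τ, τ = a + d := ⟨_, rfl⟩
  have τ0 : 0 < τ := by rw [hτ]; positivity
  have hdisc : τ ^ 2 / 4 ≤ τ ^ 2 - 4 := by
    rw [hτ]
    nlinarith [sq_nonneg (a - d)]
  obtain ⟨Δ, hΔ⟩ : ∃ Δ, Δ = Real.sqrt (τ ^ 2 - 4) := ⟨_, rfl⟩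
  have hpos : 0 < τ ^ 2 - 4 := lt_of_lt_of_le (by positivity) hdisc
  have Δ0 : 0 < Δ := by rw [hΔ]; exact Real.sqrt_pos.2 hpos
  have Δ2 : Δ ^ 2 = τ ^ 2 - 4 := by rw [hΔ]; exact Real.sq_sqrt hpos.le
  have Δh : τ / 2 ≤ Δ := by
    rw [hΔ]
    apply Real.le_sqrt_of_sq_le
    nlinarith
  have Δτ : Δ < τ := by nlinarith
  obtain ⟨Λ, hΛ⟩ : ∃ Λ, Λ = (τ + Δ) / 2 := ⟨_, rfl⟩
  obtain ⟨Λ', hΛ'⟩ : ∃ Λ', Λ' = (τ - Δ) / 2 := ⟨_, rfl⟩
  have hΛΛ : Λ * Λ' = 1 := by rw [hΛ, hΛ']; nlinarith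
  have hsum : Λ + Λ' = a + d := by rw [hΛ, hΛ', hτ]; ring
  have Λ0 : 0 < Λ := by rw [hΛ]; positivity
  have Λ'0 : 0 < Λ' := by rw [hΛ']; linarith
  have hlt : Λ' < Λ := by rw [hΛ, hΛ']; linarith
  have Λ1 : 1 < Λ := by nlinarith
  have hdiff : Λ - Λ' = Δ := by rw [hΛ, hΛ']; ring
  have q1 : Λ ^ 2 - (a + d) * Λ + 1 = 0 := by rw [← hsum, ← hΛΛ]; ring
  have q2 : Λ' ^ 2 - (a + d) * Λ' + 1 = 0 := by rw [← hsum, ← hΛΛ]; ring
  obtain ⟨r, hr⟩ : ∃ r, r = Real.sqrt (b * Δ) := ⟨_, rfl⟩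
  have r0 : 0 < r := by rw [hr]; exact Real.sqrt_pos.2 (by positivity)
  have r2 : r ^ 2 = b * Δ := by rw [hr]; exact Real.sq_sqrt (by positivity)
  have r3 : τ / 3 ≤ r := by
    rw [hr]
    apply Real.le_sqrt_of_sq_le
    have : τ ≤ 4 * b := by rw [hτ]; linarith
    nlinarith
  let P : SL(2, ℝ) := ⟨!![b / r, -(b / r); (Λ - a) / r, (a - Λ') / r], by
    rw [Matrix.det_fin_two]
    simp only [Matrix.of_apply, Matrix.cons_val', Matrix.cons_val_zero, Matrix.cons_val_one,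
      Matrix.cons_val_fin_one]
    have : r ≠ 0 := r0.ne'
    field_simp
    nlinarith⟩
  let y : ℝˣ := ⟨s * Λ, s * Λ', by linear_combination s * s * hΛΛ + hss,
    by linear_combination s * s * hΛΛ + hss⟩
  have hy : (y : ℝ) = s * Λ := rfl
  have hyi : ((y⁻¹ : ℝˣ) : ℝ) = s * Λ' := rfl
  have habs : |s| = 1 := by rcases hs with rfl | rfl <;> simp
  have hAe : ∀ z w : ℝ, z = s * w → w = s * z := by
    intro z w h
    rw [h]
    linear_combination -w * hss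
  refine ⟨P, y, ?_, ?_, ?_, ?_⟩
  · rw [hy, abs_mul, habs, one_mul, abs_of_pos Λ0]
    exact Λ1
  · rw [hy, abs_mul, habs, one_mul, abs_of_pos Λ0, Matrix.trace_fin_two, hAe _ _ ha, hAe _ _ hd,
      ← mul_add, abs_mul, habs, one_mul, abs_of_pos (by positivity : 0 < a + d)]
    linarith
  · have hPD : A * P = P * pm_GrowC_D y := by
      apply Subtype.ext
      show (A : Matrix (Fin 2) (Fin 2) ℝ) * (P : Matrix (Fin 2) (Fin 2) ℝ) =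
        (P : Matrix (Fin 2) (Fin 2) ℝ) * (pm_GrowC_D y : Matrix (Fin 2) (Fin 2) ℝ)
      rw [pm_GrowC_D_coe, hy, hyi]
      have rn : r ≠ 0 := r0.ne'
      have k1 := hAe _ _ ha
      have k2 := hAe _ _ hb
      have k3 := hAe _ _ hc
      have k4 := hAe _ _ hd
      ext i j
      fin_cases i <;> fin_cases j
      · simp only [Matrix.mul_apply, Fin.sum_univ_two, P, Fin.zero_eta, Fin.mk_one,
          Matrix.of_apply, Matrix.cons_val', Matrix.cons_val_zero, Matrix.cons_val_one,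
          Matrix.cons_val_fin_one]
        rw [k1, k2]
        field_simp
        ring
      · simp only [Matrix.mul_apply, Fin.sum_univ_two, P, Fin.zero_eta, Fin.mk_one,
          Matrix.of_apply, Matrix.cons_val', Matrix.cons_val_zero, Matrix.cons_val_one,
          Matrix.cons_val_fin_one]
        rw [k1, k2]
        field_simp
        ring
      · simp only [Matrix.mul_apply, Fin.sum_univ_two, P, Fin.zero_eta, Fin.mk_one,
          Matrix.of_apply, Matrix.cons_val', Matrix.cons_val_zero, Matrix.cons_val_one,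
          Matrix.cons_val_fin_one]
        rw [k3, k4]
        field_simp
        linear_combination -s * hD - s * q1
      · simp only [Matrix.mul_apply, Fin.sum_univ_two, P, Fin.zero_eta, Fin.mk_one,
          Matrix.of_apply, Matrix.cons_val', Matrix.cons_val_zero, Matrix.cons_val_one,
          Matrix.cons_val_fin_one]
        rw [k3, k4]
        field_simp
        linear_combination s * hD + s * q2
    rw [← hPD, mul_inv_cancel_right]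
  · have hb3 : b ≤ 3 * r := by linarith
    have hΛa : |Λ - a| ≤ 3 * r := by
      rw [abs_le]
      constructor <;> linarith
    have hΛa' : |a - Λ'| ≤ 3 * r := by
      rw [abs_le]
      constructor <;> linarith
    have k : ∀ z, |z| ≤ 3 * r → |z / r| ≤ 3 := by
      intro z hz
      rw [abs_div, abs_of_pos r0, div_le_iff₀ r0]
      exact hz
    intro i j
    fin_cases i <;> fin_cases j
    · exact k b (by rwa [abs_of_pos b0])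
    · show |-(b / r)| ≤ 3
      rw [abs_neg]
      exact k b (by rwa [abs_of_pos b0])
    · exact k _ hΛa
    · exact k _ hΛa'

/-- matrices commuting with a diagonal matrix -/
private theorem pm_GrowC_comm (X : SL(2, ℝ)) (y : ℝˣ) (hy : 1 < |(y : ℝ)|)
    (h : X * pm_GrowC_D y = pm_GrowC_D y * X) : ∃ x : ℝˣ, X = pm_GrowC_D x := by
  have hm : (X : Matrix (Fin 2) (Fin 2) ℝ) * !![(y : ℝ), 0; 0, ((y⁻¹ : ℝˣ) : ℝ)] =
      !![(y : ℝ), 0; 0, ((y⁻¹ : ℝˣ) : ℝ)] * (X : Matrix (Fin 2) (Fin 2) ℝ) := by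
    rw [← pm_GrowC_D_coe]
    exact congrArg Subtype.val h
  have h01 := congrFun (congrFun hm 0) 1
  have h10 := congrFun (congrFun hm 1) 0
  simp only [Matrix.mul_apply, Fin.sum_univ_two, Matrix.of_apply, Matrix.cons_val',
    Matrix.cons_val_zero, Matrix.cons_val_one, Matrix.cons_val_fin_one, mul_zero, zero_add,
    add_zero, zero_mul] at h01 h10
  have hne : (y : ℝ) ≠ ((y⁻¹ : ℝˣ) : ℝ) := by
    intro hc
    have h1 : (y : ℝ) * ((y⁻¹ : ℝˣ) : ℝ) = 1 := Units.mul_inv y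
    rw [← hc] at h1
    have h2 : |(y : ℝ)| * |(y : ℝ)| = 1 := by rw [← abs_mul, h1, abs_one]
    nlinarith
  have z01 : (X : Matrix (Fin 2) (Fin 2) ℝ) 0 1 = 0 := by
    have : ((y : ℝ) - ((y⁻¹ : ℝˣ) : ℝ)) * (X : Matrix (Fin 2) (Fin 2) ℝ) 0 1 = 0 := by
      linear_combination -h01
    rcases mul_eq_zero.1 this with h | h
    · exact absurd (sub_eq_zero.1 h) hne
    · exact h
  have z10 : (X : Matrix (Fin 2) (Fin 2) ℝ) 1 0 = 0 := by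
    have : ((y : ℝ) - ((y⁻¹ : ℝˣ) : ℝ)) * (X : Matrix (Fin 2) (Fin 2) ℝ) 1 0 = 0 := by
      linear_combination h10
    rcases mul_eq_zero.1 this with h | h
    · exact absurd (sub_eq_zero.1 h) hne
    · exact h
  have hdet := X.2
  rw [Matrix.det_fin_two] at hdet
  have z : (X : Matrix (Fin 2) (Fin 2) ℝ) 0 0 * (X : Matrix (Fin 2) (Fin 2) ℝ) 1 1 = 1 := by
    have e : (X : Matrix (Fin 2) (Fin 2) ℝ) 0 1 * (X : Matrix (Fin 2) (Fin 2) ℝ) 1 0 = 0 := by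
      rw [z01, zero_mul]
    linear_combination hdet + e
  refine ⟨⟨(X : Matrix (Fin 2) (Fin 2) ℝ) 0 0, (X : Matrix (Fin 2) (Fin 2) ℝ) 1 1, z,
    by rw [mul_comm]; exact z⟩, ?_⟩
  apply Matrix.SpecialLinearGroup.ext
  intro i j
  fin_cases i <;> fin_cases j
  · rfl
  · exact z01
  · exact z10
  · rfl

/-- conjugate matrices in diagonal form -/
private theorem pm_GrowC_key (A B H P Q : SL(2, ℝ)) (y z : ℝˣ) (hy : 1 < |(y : ℝ)|)
    (hz : 1 < |(z : ℝ)|) (hA : A = P * pm_GrowC_D y * P⁻¹) (hB : B = Q * pm_GrowC_D z * Q⁻¹)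
    (hH : H * A * H⁻¹ = B) : ∃ x : ℝˣ, H = Q * pm_GrowC_D x * P⁻¹ := by
  have htr : (A : Matrix (Fin 2) (Fin 2) ℝ).trace = (B : Matrix (Fin 2) (Fin 2) ℝ).trace := by
    have e : (B : Matrix (Fin 2) (Fin 2) ℝ) = (H : Matrix (Fin 2) (Fin 2) ℝ) *
        (A : Matrix (Fin 2) (Fin 2) ℝ) * ((H⁻¹ : SL(2, ℝ)) : Matrix (Fin 2) (Fin 2) ℝ) := by
      rw [← hH]; rfl
    have e' : ((H⁻¹ : SL(2, ℝ)) : Matrix (Fin 2) (Fin 2) ℝ) *
        (H : Matrix (Fin 2) (Fin 2) ℝ) = 1 := congrArg Subtype.val (inv_mul_cancel H)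
    rw [e, Matrix.trace_mul_comm, ← mul_assoc, e', one_mul]
  have htrD : ∀ (C R : SL(2, ℝ)) (w : ℝˣ), C = R * pm_GrowC_D w * R⁻¹ →
      (C : Matrix (Fin 2) (Fin 2) ℝ).trace = (w : ℝ) + ((w⁻¹ : ℝˣ) : ℝ) := by
    intro C R w h
    have e : (C : Matrix (Fin 2) (Fin 2) ℝ) = (R : Matrix (Fin 2) (Fin 2) ℝ) *
        (pm_GrowC_D w : Matrix (Fin 2) (Fin 2) ℝ) *
        ((R⁻¹ : SL(2, ℝ)) : Matrix (Fin 2) (Fin 2) ℝ) := by
      rw [h]; rfl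
    have e' : ((R⁻¹ : SL(2, ℝ)) : Matrix (Fin 2) (Fin 2) ℝ) *
        (R : Matrix (Fin 2) (Fin 2) ℝ) = 1 := congrArg Subtype.val (inv_mul_cancel R)
    rw [e, Matrix.trace_mul_comm, ← mul_assoc, e', one_mul, pm_GrowC_D_coe,
      Matrix.trace_fin_two]
    simp
  rw [htrD A P y hA, htrD B Q z hB] at htr
  have hyz : y = z := by
    have m1 : (y : ℝ) * ((y⁻¹ : ℝˣ) : ℝ) = 1 := Units.mul_inv y
    have m2 : (z : ℝ) * ((z⁻¹ : ℝˣ) : ℝ) = 1 := Units.mul_inv z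
    have m3 : ((y : ℝ) - z) * ((y : ℝ) * z - 1) = 0 := by
      linear_combination (y : ℝ) * z * htr - z * m1 + y * m2
    rcases mul_eq_zero.1 m3 with h | h
    · exact Units.ext (sub_eq_zero.1 h)
    · exfalso
      have h1 : (y : ℝ) * z = 1 := by linarith
      have h2 : |(y : ℝ)| * |(z : ℝ)| = 1 := by rw [← abs_mul, h1, abs_one]
      nlinarith
  subst hyz
  have hc : (Q⁻¹ * H * P) * pm_GrowC_D y = pm_GrowC_D y * (Q⁻¹ * H * P) := by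
    have h1 : H * A = B * H := by rw [← hH]; group
    rw [hA, hB] at h1
    calc (Q⁻¹ * H * P) * pm_GrowC_D y = Q⁻¹ * (H * (P * pm_GrowC_D y * P⁻¹)) * P := by group
      _ = Q⁻¹ * (Q * pm_GrowC_D y * Q⁻¹ * H) * P := by rw [h1]
      _ = _ := by group
  obtain ⟨x, hx⟩ := pm_GrowC_comm _ y hy hc
  refine ⟨x, ?_⟩
  rw [← hx]
  group

/-- bounds of the inverse -/
private theorem pm_GrowC_inv_bd (P : SL(2, ℝ))
    (hP : ∀ i j, |(P : Matrix (Fin 2) (Fin 2) ℝ) i j| ≤ 3) (i j : Fin 2) :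
    |((P⁻¹ : SL(2, ℝ)) : Matrix (Fin 2) (Fin 2) ℝ) i j| ≤ 3 := by
  have e : ((P⁻¹ : SL(2, ℝ)) : Matrix (Fin 2) (Fin 2) ℝ) =
      !![(P : Matrix (Fin 2) (Fin 2) ℝ) 1 1, -(P : Matrix (Fin 2) (Fin 2) ℝ) 0 1;
        -(P : Matrix (Fin 2) (Fin 2) ℝ) 1 0, (P : Matrix (Fin 2) (Fin 2) ℝ) 0 0] := by
    have := Matrix.SpecialLinearGroup.coe_inv P
    rw [Matrix.adjugate_fin_two] at this
    exact this
  rw [e]
  fin_cases i <;> fin_cases j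
  · exact hP 1 1
  · show |-(P : Matrix (Fin 2) (Fin 2) ℝ) 0 1| ≤ 3
    rw [abs_neg]; exact hP 0 1
  · show |-(P : Matrix (Fin 2) (Fin 2) ℝ) 1 0| ≤ 3
    rw [abs_neg]; exact hP 1 0
  · exact hP 0 0

private theorem pm_GrowC_nrm_bd (P Q : SL(2, ℝ)) (x : ℝˣ)
    (hP : ∀ i j, |(P : Matrix (Fin 2) (Fin 2) ℝ) i j| ≤ 3)
    (hQ : ∀ i j, |(Q : Matrix (Fin 2) (Fin 2) ℝ) i j| ≤ 3)
    (hx : |(x : ℝ)| ≤ 3) (hx' : |((x⁻¹ : ℝˣ) : ℝ)| ≤ 3) :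
    nrm2 ((Q * pm_GrowC_D x * P⁻¹ : SL(2, ℝ)) : Matrix (Fin 2) (Fin 2) ℝ) ≤ 12 * 6 * 12 := by
  have hb : ∀ A : Matrix (Fin 2) (Fin 2) ℝ, (∀ i j, |A i j| ≤ 3) → nrm2 A ≤ 12 := by
    intro A hA
    simp only [nrm2, Fin.sum_univ_two]
    linarith [hA 0 0, hA 0 1, hA 1 0, hA 1 1]
  have h1 := hb _ hQ
  have h2 := hb _ (pm_GrowC_inv_bd P hP)
  have h3 : nrm2 (pm_GrowC_D x : Matrix (Fin 2) (Fin 2) ℝ) ≤ 6 := by
    rw [pm_GrowC_D_coe]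
    simp only [nrm2, Fin.sum_univ_two, Matrix.of_apply, Matrix.cons_val', Matrix.cons_val_zero,
      Matrix.cons_val_one, Matrix.cons_val_fin_one, abs_zero]
    linarith
  have e : ((Q * pm_GrowC_D x * P⁻¹ : SL(2, ℝ)) : Matrix (Fin 2) (Fin 2) ℝ) =
      (Q : Matrix (Fin 2) (Fin 2) ℝ) * (pm_GrowC_D x : Matrix (Fin 2) (Fin 2) ℝ) *
      ((P⁻¹ : SL(2, ℝ)) : Matrix (Fin 2) (Fin 2) ℝ) := rfl
  rw [e]
  refine (pm_GrowC_nrm_mul _ _).trans ?_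
  refine mul_le_mul ((pm_GrowC_nrm_mul _ _).trans ?_) h2 (pm_GrowC_nrm_nonneg _) (by norm_num)
  exact mul_le_mul h1 h3 (pm_GrowC_nrm_nonneg _) (by norm_num)

/-- the normal form of a conjugation -/
private theorem pm_GrowC_norm (ρ₀ : Γ →* SL(2, ℝ)) (G : GL (Fin 2) ℝ) {γ : Γ} (P : SL(2, ℝ))
    (y : ℝˣ) (hy : 1 < |(y : ℝ)|) (hA : pm_GrowC_R ρ₀ G γ = P * pm_GrowC_D y * P⁻¹) {γ' : Γ}
    (hS : γ' ∈ SG ρ₀ G) (hc : IsConj γ γ') :
    ∃ (h : Γ) (Q : SL(2, ℝ)) (x : ℝˣ), h * γ * h⁻¹ = γ' ∧ 1 ≤ |(x : ℝ)| ∧ |(x : ℝ)| < |(y : ℝ)| ∧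
      (∀ i j, |(Q : Matrix (Fin 2) (Fin 2) ℝ) i j| ≤ 3) ∧
      pm_GrowC_R ρ₀ G h = Q * pm_GrowC_D x * P⁻¹ := by
  obtain ⟨s, hs, hB⟩ := hS
  obtain ⟨Q, z, hz, -, hQ, hQb⟩ := pm_GrowC_diag (pm_GrowC_R ρ₀ G γ') s hs hB
  obtain ⟨h, hh⟩ := isConj_iff.1 hc
  have hH : pm_GrowC_R ρ₀ G h * pm_GrowC_R ρ₀ G γ * (pm_GrowC_R ρ₀ G h)⁻¹ =
      pm_GrowC_R ρ₀ G γ' := by rw [← hh, map_mul, map_mul, map_inv]
  obtain ⟨x, hx⟩ := pm_GrowC_key _ _ _ P Q y z hy hz hA hQ hH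
  have x0 : 0 < |(x : ℝ)| := abs_pos.2 x.ne_zero
  obtain ⟨n, hn1, hn2⟩ := exists_mem_Ico_zpow x0 hy
  have y0 : 0 < |(y : ℝ)| := lt_trans one_pos hy
  refine ⟨h * γ ^ (-n), Q, x * y ^ (-n), ?_, ?_, ?_, hQb, ?_⟩
  · rw [← hh]
    have : Commute (γ ^ (-n)) γ := (Commute.refl γ).zpow_left _
    calc h * γ ^ (-n) * γ * (h * γ ^ (-n))⁻¹ = h * (γ ^ (-n) * γ) * (γ ^ (-n))⁻¹ * h⁻¹ := by
          rw [_root_.mul_inv_rev]; simp only [mul_assoc]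
      _ = h * (γ * γ ^ (-n)) * (γ ^ (-n))⁻¹ * h⁻¹ := by rw [this.eq]
      _ = h * γ * h⁻¹ := by group
  · rw [Units.val_mul, abs_mul, Units.val_zpow_eq_zpow_val, abs_zpow, _root_.zpow_neg,
      ← div_eq_mul_inv, le_div_iff₀ (zpow_pos y0 n), one_mul]
    exact hn1
  · rw [Units.val_mul, abs_mul, Units.val_zpow_eq_zpow_val, abs_zpow, _root_.zpow_neg,
      ← div_eq_mul_inv, div_lt_iff₀ (zpow_pos y0 n)]
    rwa [zpow_add_one₀ y0.ne', mul_comm] at hn2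
  · rw [map_mul, map_zpow, hx, hA, conj_zpow, map_mul, map_zpow]
    group

/-- P1: conjugates inside the semigroup -/
theorem packing_one (ρ₀ : Γ →* SL(2, ℝ)) (G : GL (Fin 2) ℝ)
    (hfin : ∀ C : ℝ, {γ : Γ | nrm2 (ρ₀ γ : Matrix (Fin 2) (Fin 2) ℝ) ≤ C}.Finite) :
    ∃ C > 0, ∀ γ ∈ SG ρ₀ G, {γ' : Γ | γ' ∈ SG ρ₀ G ∧ IsConj γ γ'}.Finite ∧
      (({γ' : Γ | γ' ∈ SG ρ₀ G ∧ IsConj γ γ'}.ncard : ℝ)
        ≤ C * (1 + Real.log (nrm2 (ρ₀ γ : Matrix (Fin 2) (Fin 2) ℝ)))) := by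
  classical
  obtain ⟨C₁, hC₁⟩ : ∃ C₁, C₁ = nrm2 (G : Matrix (Fin 2) (Fin 2) ℝ) * (12 * 6 * 12) *
    nrm2 ((G⁻¹ : GL (Fin 2) ℝ) : Matrix (Fin 2) (Fin 2) ℝ) := ⟨_, rfl⟩
  obtain ⟨F, hF⟩ : ∃ F : Finset Γ, ∀ g, g ∈ F ↔ nrm2 (ρ₀ g : Matrix (Fin 2) (Fin 2) ℝ) ≤ C₁ :=
    ⟨(hfin C₁).toFinset, fun g => by simp⟩
  refine ⟨F.card + 1, by positivity, fun γ hγ => ?_⟩
  obtain ⟨s, hs, hB⟩ := hγ
  obtain ⟨P, y, hy, hyt, hA, hPb⟩ := pm_GrowC_diag (pm_GrowC_R ρ₀ G γ) s hs hB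
  -- the trace
  have htr : |(y : ℝ)| ≤ nrm2 (ρ₀ γ : Matrix (Fin 2) (Fin 2) ℝ) := by
    refine hyt.trans ?_
    have e : (pm_GrowC_R ρ₀ G γ : Matrix (Fin 2) (Fin 2) ℝ).trace =
        (ρ₀ γ : Matrix (Fin 2) (Fin 2) ℝ).trace := by
      have e' : (G : Matrix (Fin 2) (Fin 2) ℝ) *
          ((G⁻¹ : GL (Fin 2) ℝ) : Matrix (Fin 2) (Fin 2) ℝ) = 1 := Units.mul_inv G
      rw [pm_GrowC_R_coe, Matrix.trace_mul_comm, ← mul_assoc, e', one_mul]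
    rw [e, Matrix.trace_fin_two]
    simp only [nrm2, Fin.sum_univ_two]
    have := abs_add_le ((ρ₀ γ : Matrix (Fin 2) (Fin 2) ℝ) 0 0) ((ρ₀ γ : Matrix (Fin 2) (Fin 2) ℝ) 1 1)
    linarith [abs_nonneg ((ρ₀ γ : Matrix (Fin 2) (Fin 2) ℝ) 0 1),
      abs_nonneg ((ρ₀ γ : Matrix (Fin 2) (Fin 2) ℝ) 1 0)]
  have y0 : 0 < |(y : ℝ)| := lt_trans one_pos hy
  have ly0 : 0 ≤ Real.log |(y : ℝ)| := Real.log_nonneg hy.le
  -- choice of the conjugations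
  have hch : ∀ γ' : Γ, ∃ (h : Γ) (Q : SL(2, ℝ)) (x : ℝˣ),
      (γ' ∈ SG ρ₀ G ∧ IsConj γ γ') → h * γ * h⁻¹ = γ' ∧ 1 ≤ |(x : ℝ)| ∧ |(x : ℝ)| < |(y : ℝ)| ∧
      (∀ i j, |(Q : Matrix (Fin 2) (Fin 2) ℝ) i j| ≤ 3) ∧
      pm_GrowC_R ρ₀ G h = Q * pm_GrowC_D x * P⁻¹ := by
    intro γ'
    by_cases hγ' : γ' ∈ SG ρ₀ G ∧ IsConj γ γ'
    · obtain ⟨h, Q, x, hh⟩ := pm_GrowC_norm ρ₀ G P y hy hA hγ'.1 hγ'.2
      exact ⟨h, Q, x, fun _ => hh⟩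
    · exact ⟨1, 1, 1, fun h => absurd h hγ'⟩
  choose h Q x hhx using hch
  let j : Γ → ℕ := fun γ' => ⌊Real.log |((x γ' : ℝˣ) : ℝ)|⌋₊
  -- each fibre is small
  have hcard : ∀ t : Finset Γ, (∀ γ' ∈ t, γ' ∈ SG ρ₀ G ∧ IsConj γ γ') →
      t.card ≤ F.card * (⌊Real.log |(y : ℝ)|⌋₊ + 1) := by
    intro t ht
    have him : t.image j ⊆ Finset.range (⌊Real.log |(y : ℝ)|⌋₊ + 1) := by
      intro n hn
      obtain ⟨γ', hγ', rfl⟩ := Finset.mem_image.1 hn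
      obtain ⟨-, h1, h2, -, -⟩ := hhx γ' (ht γ' hγ')
      rw [Finset.mem_range, Nat.lt_succ_iff]
      apply Nat.floor_mono
      exact Real.log_le_log (by linarith) h2.le
    have hfib : ∀ n ∈ t.image j, (t.filter fun γ' => j γ' = n).card ≤ F.card := by
      intro n hn
      obtain ⟨γ₀, hγ₀, hn0⟩ := Finset.mem_image.1 hn
      obtain ⟨a1, a2, a3, a4, a5⟩ := hhx γ₀ (ht γ₀ hγ₀)
      apply Finset.card_le_card_of_injOn (fun γ' => h γ' * (h γ₀)⁻¹)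
      · intro γ' hγ'
        rw [Finset.coe_filter] at hγ'
        obtain ⟨hγ't, hjn⟩ := hγ'
        obtain ⟨b1, b2, b3, b4, b5⟩ := hhx γ' (ht γ' hγ't)
        show h γ' * (h γ₀)⁻¹ ∈ F
        rw [hF, pm_GrowC_rho ρ₀ G]
        have e : pm_GrowC_R ρ₀ G (h γ' * (h γ₀)⁻¹) =
            Q γ' * pm_GrowC_D (x γ' * (x γ₀)⁻¹) * (Q γ₀)⁻¹ := by
          rw [map_mul, map_inv, a5, b5, map_mul, map_inv]
          group
        rw [e, hC₁]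
        have l1 : abs (Real.log (abs ((x γ' : ℝˣ) : ℝ)) - Real.log (abs ((x γ₀ : ℝˣ) : ℝ))) < 1 := by
          have f1 : (⌊Real.log |((x γ' : ℝˣ) : ℝ)|⌋₊ : ℝ) = n := by exact_mod_cast hjn
          have f0 : (⌊Real.log |((x γ₀ : ℝˣ) : ℝ)|⌋₊ : ℝ) = n := by exact_mod_cast hn0
          have g1 := Nat.floor_le (Real.log_nonneg b2)
          have g2 := Nat.lt_floor_add_one (Real.log |((x γ' : ℝˣ) : ℝ)|)
          have g3 := Nat.floor_le (Real.log_nonneg a2)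
          have g4 := Nat.lt_floor_add_one (Real.log |((x γ₀ : ℝˣ) : ℝ)|)
          rw [f1] at g1 g2
          rw [f0] at g3 g4
          rw [abs_lt]
          constructor <;> linarith
        have p1 : 0 < |((x γ' : ℝˣ) : ℝ)| := by linarith
        have p0 : 0 < |((x γ₀ : ℝˣ) : ℝ)| := by linarith
        have e3 : Real.exp 1 ≤ 3 := by
          have := Real.exp_one_lt_d9
          linarith
        have w1 : |((x γ' * (x γ₀)⁻¹ : ℝˣ) : ℝ)| ≤ 3 := by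
          rw [Units.val_mul, abs_mul, Units.val_inv_eq_inv_val, abs_inv, ← div_eq_mul_inv,
            ← Real.exp_log (div_pos p1 p0), Real.log_div p1.ne' p0.ne']
          refine (Real.exp_le_exp.2 ?_).trans e3
          linarith [(abs_lt.1 l1).2]
        have w2 : |(((x γ' * (x γ₀)⁻¹)⁻¹ : ℝˣ) : ℝ)| ≤ 3 := by
          rw [mul_inv, inv_inv, mul_comm, Units.val_mul, abs_mul, Units.val_inv_eq_inv_val,
            abs_inv, ← div_eq_mul_inv,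
            ← Real.exp_log (div_pos p0 p1), Real.log_div p0.ne' p1.ne']
          refine (Real.exp_le_exp.2 ?_).trans e3
          linarith [(abs_lt.1 l1).1]
        refine (pm_GrowC_nrm_mul _ _).trans ?_
        refine mul_le_mul_of_nonneg_right ?_ (pm_GrowC_nrm_nonneg _)
        refine (pm_GrowC_nrm_mul _ _).trans ?_
        exact mul_le_mul_of_nonneg_left (pm_GrowC_nrm_bd _ _ _ a4 b4 w1 w2)
          (pm_GrowC_nrm_nonneg _)
      · intro γ₁ h₁ γ₂ h₂ he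
        rw [Finset.coe_filter] at h₁ h₂
        have he' : h γ₁ = h γ₂ := mul_right_cancel he
        rw [← (hhx γ₁ (ht γ₁ h₁.1)).1, ← (hhx γ₂ (ht γ₂ h₂.1)).1, he']
    calc t.card ≤ F.card * (t.image j).card := Finset.card_le_mul_card_image t F.card hfib
      _ ≤ F.card * (Finset.range (⌊Real.log |(y : ℝ)|⌋₊ + 1)).card :=
          Nat.mul_le_mul_left _ (Finset.card_le_card him)
      _ = _ := by rw [Finset.card_range]
  have hfinS : {γ' : Γ | γ' ∈ SG ρ₀ G ∧ IsConj γ γ'}.Finite := by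
    by_contra hinf
    obtain ⟨t, ht, htc⟩ := Set.Infinite.exists_subset_card_eq hinf
      (F.card * (⌊Real.log |(y : ℝ)|⌋₊ + 1) + 1)
    have := hcard t fun γ' hγ' => ht hγ'
    omega
  refine ⟨hfinS, ?_⟩
  have h1 := hcard hfinS.toFinset fun γ' hγ' => by simpa using hγ'
  rw [Set.ncard_eq_toFinset_card _ hfinS]
  have h2 : (hfinS.toFinset.card : ℝ) ≤ (F.card : ℝ) * (⌊Real.log |(y : ℝ)|⌋₊ + 1) := by
    exact_mod_cast h1
  have h3 : (⌊Real.log |(y : ℝ)|⌋₊ : ℝ) ≤ Real.log |(y : ℝ)| := Nat.floor_le ly0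
  have h4 : Real.log |(y : ℝ)| ≤ Real.log (nrm2 (ρ₀ γ : Matrix (Fin 2) (Fin 2) ℝ)) :=
    Real.log_le_log y0 htr
  have h5 : (0 : ℝ) ≤ F.card := Nat.cast_nonneg _
  nlinarith

end PM3
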