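import Pool.Agent.LibPM3.GrowthDefs

/-! [PM3 G4] a Fekete lemma with logarithmic errors; polynomial growth of discrete sets in `SL(2,ℝ)`. -/

namespace PM3
open Matrix Filter Topology
open scoped MatrixGroups

private theorem pm_GrowD1_bal {c : ℝ} (hc : 1 ≤ c) {a : ℝ → ℝ} (h0 : ∀ T, 0 ≤ a T)
    (hsub : ∀ S T, 0 ≤ S → 0 ≤ T → a S * a T ≤ c * (1 + S + T) * a (S + T))
    {U V : ℝ} (hU : 1 ≤ U) (hUV : U ≤ V) (hVU : V ≤ 2 * U) :
    a U / (27 * c / 4 * U) * (a V / (27 * c / 4 * V)) ≤ a (U + V) / (27 * c / 4 * (U + V)) := by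
  have hc0 : 0 < c := by linarith
  have hU0 : 0 < U := by linarith
  have hV0 : 0 < V := by linarith
  have h1 := hsub U V hU0.le hV0.le
  have ha := h0 (U + V)
  rw [div_mul_div_comm, div_le_div_iff₀ (by positivity) (by positivity)]
  have h2 : c * (1 + U + V) * (27 * c / 4 * (U + V)) ≤ 27 * c / 4 * U * (27 * c / 4 * V) := by
    have h3 : (1 + U + V) * (U + V) ≤ 27 / 4 * (U * V) := by
      have h4 : (1 + U + V) ≤ 3 / 2 * (U + V) := by linarith
      have h5 : (U + V) * (U + V) ≤ 9 / 2 * (U * V) := by nlinarith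
      calc (1 + U + V) * (U + V) ≤ 3 / 2 * (U + V) * (U + V) :=
            mul_le_mul_of_nonneg_right h4 (by linarith)
        _ = 3 / 2 * ((U + V) * (U + V)) := by ring
        _ ≤ 3 / 2 * (9 / 2 * (U * V)) := by linarith
        _ = _ := by ring
    calc c * (1 + U + V) * (27 * c / 4 * (U + V)) = 27 / 4 * c ^ 2 * ((1 + U + V) * (U + V)) := by ring
      _ ≤ 27 / 4 * c ^ 2 * (27 / 4 * (U * V)) := mul_le_mul_of_nonneg_left h3 (by positivity)
      _ = _ := by ring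
  calc a U * a V * (27 * c / 4 * (U + V)) ≤ c * (1 + U + V) * a (U + V) * (27 * c / 4 * (U + V)) :=
        mul_le_mul_of_nonneg_right h1 (by positivity)
    _ = a (U + V) * (c * (1 + U + V) * (27 * c / 4 * (U + V))) := by ring
    _ ≤ _ := mul_le_mul_of_nonneg_left h2 ha

private theorem pm_GrowD1_pow {c : ℝ} (hc : 1 ≤ c) {a : ℝ → ℝ} (h0 : ∀ T, 0 ≤ a T)
    (hsub : ∀ S T, 0 ≤ S → 0 ≤ T → a S * a T ≤ c * (1 + S + T) * a (S + T))
    {S : ℝ} (hS : 1 ≤ S) :
    ∀ k : ℕ, 1 ≤ k → (a S / (27 * c / 4 * S)) ^ k ≤ a (k * S) / (27 * c / 4 * (k * S)) := by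
  intro k
  induction k using Nat.strong_induction_on with
  | _ k ih =>
    intro hk
    rcases Nat.lt_or_ge k 2 with h | h
    · obtain rfl : k = 1 := by omega
      simp
    · have hS0 : 0 < S := by linarith
      have hx : 0 ≤ a S / (27 * c / 4 * S) := div_nonneg (h0 S) (by positivity)
      set m := k / 2 with hm
      set n := k - m with hn
      have hmn : m + n = k := by omega
      have h1 := ih m (by omega) (by omega)
      have h2 := ih n (by omega) (by omega)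
      have hm1 : (1 : ℝ) ≤ m := by exact_mod_cast (show 1 ≤ m by omega)
      have hmn1 : (m : ℝ) ≤ n := by exact_mod_cast (show m ≤ n by omega)
      have hmn2 : (n : ℝ) ≤ 2 * m := by exact_mod_cast (show n ≤ 2 * m by omega)
      have h3 := pm_GrowD1_bal hc h0 hsub (U := m * S) (V := n * S) (by nlinarith) (by nlinarith)
        (by nlinarith)
      have hk' : (k : ℝ) = m + n := by rw [← hmn]; push_cast; ring
      calc (a S / (27 * c / 4 * S)) ^ k
          = (a S / (27 * c / 4 * S)) ^ m * (a S / (27 * c / 4 * S)) ^ n := by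
            rw [← pow_add, hmn]
        _ ≤ (a (m * S) / (27 * c / 4 * (m * S))) * (a (n * S) / (27 * c / 4 * (n * S))) :=
            mul_le_mul h1 h2 (pow_nonneg hx _) (div_nonneg (h0 _) (by positivity))
        _ ≤ a (m * S + n * S) / (27 * c / 4 * (m * S + n * S)) := h3
        _ = a (k * S) / (27 * c / 4 * (k * S)) := by rw [hk']; ring_nf

/-- nondecreasing `a : ℝ → ℝ` with `a(S) a(T) ≤ c (1+S+T) a(S+T)` and `a(T) ≤ c e^{cT}`, eventually `≥ 1`. -/
theorem fekete_log {c T₀ : ℝ} (hc : 1 ≤ c) (hT₀ : 0 ≤ T₀) :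
    ∃ C > 0, ∀ a : ℝ → ℝ, Monotone a → (∀ T, 0 ≤ a T) → (∀ T, T₀ ≤ T → 1 ≤ a T) →
      (∀ S T, 0 ≤ S → 0 ≤ T → a S * a T ≤ c * (1 + S + T) * a (S + T)) →
      (∀ T, 0 ≤ T → a T ≤ c * Real.exp (c * T)) →
      ∃ E : ℝ, 0 ≤ E ∧ E ≤ c ∧ Tendsto (fun T : ℝ => Real.log (a T) / T) atTop (𝓝 E) ∧
        ∀ T, 0 ≤ T → a T ≤ C * (1 + T) * Real.exp (E * T) := by
  set T₁ := max T₀ 1 with hT₁
  have hT₁1 : 1 ≤ T₁ := le_max_right _ _
  have hT₁0 : T₀ ≤ T₁ := le_max_left _ _
  have hc0 : 0 < c := by linarith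
  set K := 27 * c / 4 with hK
  have hK0 : 0 < K := by positivity
  have hKc : c ≤ K := by rw [hK]; linarith
  refine ⟨K * T₁ * Real.exp (c * T₁), by positivity, ?_⟩
  intro a hmono h0 h1 hsub hup
  -- the function `L(S) = log (a S / (K S))`
  set L : ℝ → ℝ := fun S => Real.log (a S / (K * S)) with hL
  have hapos : ∀ T, T₁ ≤ T → 0 < a T := fun T hT => lt_of_lt_of_le one_pos (h1 T (hT₁0.trans hT))
  have hLeq : ∀ T, T₁ ≤ T → L T = Real.log (a T) - Real.log (K * T) := by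
    intro T hT
    have : 0 < T := by linarith
    exact Real.log_div (hapos T hT).ne' (by positivity)
  -- upper bound
  have hLle : ∀ T, T₁ ≤ T → L T / T ≤ c := by
    intro T hT
    have hT0 : 0 < T := by linarith
    have hT1 : 1 ≤ T := hT₁1.trans hT
    rw [div_le_iff₀ hT0]
    have h2 : a T / (K * T) ≤ Real.exp (c * T) := by
      rw [div_le_iff₀ (by positivity)]
      calc a T ≤ c * Real.exp (c * T) := hup T hT0.le
        _ ≤ K * T * Real.exp (c * T) := by
            apply mul_le_mul_of_nonneg_right _ (Real.exp_pos _).le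
            nlinarith
        _ = _ := by ring
    calc L T ≤ Real.log (Real.exp (c * T)) :=
          Real.log_le_log (div_pos (hapos T hT) (by positivity)) h2
      _ = c * T := Real.log_exp _
  set X : Set ℝ := (fun S => L S / S) '' Set.Ici T₁ with hX
  have hXne : X.Nonempty := ⟨_, T₁, Set.self_mem_Ici, rfl⟩
  have hXbdd : BddAbove X := ⟨c, by rintro _ ⟨S, hS, rfl⟩; exact hLle S hS⟩
  set E := sSup X with hE
  have hLE : ∀ T, T₁ ≤ T → L T / T ≤ E := fun T hT => le_csSup hXbdd ⟨T, hT, rfl⟩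
  have hEc : E ≤ c := csSup_le hXne (by rintro _ ⟨S, hS, rfl⟩; exact hLle S hS)
  -- lower bound
  have hlow : ∀ S, T₁ ≤ S → ∀ T, S ≤ T → L S / S - |L S| / T ≤ Real.log (a T) / T := by
    intro S hS T hT
    have hS1 : 1 ≤ S := hT₁1.trans hS
    have hS0 : 0 < S := by linarith
    have hT0 : 0 < T := by linarith
    set k := ⌊T / S⌋₊ with hk
    have hk1 : 1 ≤ k := by
      rw [hk, Nat.one_le_floor_iff]
      rwa [one_le_div hS0]
    have hkle : (k : ℝ) ≤ T / S := Nat.floor_le (by positivity)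
    have hklt : T / S < k + 1 := Nat.lt_floor_add_one _
    have hk1' : (1 : ℝ) ≤ k := by exact_mod_cast hk1
    have h2 := pm_GrowD1_pow hc h0 hsub hS1 k hk1
    have hkS : (k : ℝ) * S ≤ T := by rwa [← le_div_iff₀ hS0]
    have h3 : a (k * S) ≤ a T := hmono hkS
    have h4 : (a S / (K * S)) ^ k ≤ a T := by
      calc (a S / (K * S)) ^ k ≤ a (k * S) / (K * (k * S)) := h2
        _ ≤ a (k * S) / 1 := by
            apply div_le_div_of_nonneg_left (h0 _) one_pos
            have : 1 ≤ (k : ℝ) * S := by nlinarith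
            nlinarith
        _ ≤ a T := by rw [div_one]; exact h3
    have hq : 0 < a S / (K * S) := div_pos (hapos S hS) (by positivity)
    have h5 : k * L S ≤ Real.log (a T) := by
      rw [hL]
      show (k : ℝ) * Real.log (a S / (K * S)) ≤ _
      rw [← Real.log_pow]
      exact Real.log_le_log (pow_pos hq k) h4
    have h6 : (L S / S - |L S| / T) * T ≤ k * L S := by
      have : (L S / S - |L S| / T) * T = L S * (T / S) - |L S| := by
        field_simp
      rw [this]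
      rcases le_total 0 (L S) with hl | hl
      · rw [abs_of_nonneg hl]; nlinarith
      · rw [abs_of_nonpos hl]; nlinarith
    rw [le_div_iff₀ hT0]
    linarith
  -- error term
  have herr : Tendsto (fun T : ℝ => Real.log (K * T) / T) atTop (𝓝 0) := by
    have h2 : Tendsto (fun T : ℝ => Real.log K / T + Real.log T / T) atTop (𝓝 (0 + 0)) := by
      apply Tendsto.add
      · exact tendsto_const_nhds.div_atTop tendsto_id
      · have := Real.isLittleO_log_id_atTop.tendsto_div_nhds_zero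
        exact this
    rw [add_zero] at h2
    refine h2.congr' ?_
    filter_upwards [eventually_gt_atTop (0 : ℝ)] with T hT
    rw [Real.log_mul hK0.ne' hT.ne']
    ring
  have hupT : ∀ T, T₁ ≤ T → Real.log (a T) / T ≤ E + Real.log (K * T) / T := by
    intro T hT
    have h2 := hLE T hT
    rw [hLeq T hT, sub_div] at h2
    linarith
  have htend : Tendsto (fun T : ℝ => Real.log (a T) / T) atTop (𝓝 E) := by
    rw [tendsto_order]
    constructor
    · intro x hx
      obtain ⟨_, ⟨S, hS, rfl⟩, hxS⟩ := exists_lt_of_lt_csSup hXne hx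
      have hS' : T₁ ≤ S := hS
      have h2 : Tendsto (fun T : ℝ => L S / S - |L S| / T) atTop (𝓝 (L S / S - 0)) :=
        tendsto_const_nhds.sub (tendsto_const_nhds.div_atTop tendsto_id)
      rw [sub_zero] at h2
      filter_upwards [h2.eventually (lt_mem_nhds hxS), eventually_ge_atTop S] with T hT hT2
      exact lt_of_lt_of_le hT (hlow S hS' T hT2)
    · intro x hx
      have h2 : Tendsto (fun T : ℝ => E + Real.log (K * T) / T) atTop (𝓝 (E + 0)) :=
        tendsto_const_nhds.add herr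
      rw [add_zero] at h2
      filter_upwards [h2.eventually (gt_mem_nhds hx), eventually_ge_atTop T₁] with T hT hT2
      exact lt_of_le_of_lt (hupT T hT2) hT
  have hE0 : 0 ≤ E := by
    refine ge_of_tendsto htend ?_
    filter_upwards [eventually_ge_atTop T₁] with T hT
    have h2 := h1 T (hT₁0.trans hT)
    have : 0 < T := by linarith
    exact div_nonneg (Real.log_nonneg h2) this.le
  have hbig : ∀ T, T₁ ≤ T → a T ≤ K * T * Real.exp (E * T) := by
    intro T hT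
    have hT0 : 0 < T := by linarith
    have h2 := hLE T hT
    rw [div_le_iff₀ hT0] at h2
    have hq : 0 < a T / (K * T) := div_pos (hapos T hT) (by positivity)
    have h3 : a T / (K * T) ≤ Real.exp (E * T) := by
      rw [← Real.log_le_iff_le_exp hq]
      exact h2
    rw [div_le_iff₀ (by positivity)] at h3
    linarith
  refine ⟨E, hE0, hEc, htend, fun T hT => ?_⟩
  have hexp : 1 ≤ Real.exp (c * T₁) := Real.one_le_exp (by positivity)
  rcases le_total T₁ T with h | h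
  · calc a T ≤ K * T * Real.exp (E * T) := hbig T h
      _ ≤ K * T₁ * Real.exp (c * T₁) * (1 + T) * Real.exp (E * T) := by
          apply mul_le_mul_of_nonneg_right _ (Real.exp_pos _).le
          have h2 : K ≤ K * T₁ * Real.exp (c * T₁) := by
            have h3 : K * 1 ≤ K * T₁ := mul_le_mul_of_nonneg_left hT₁1 hK0.le
            have h4 : K * T₁ * 1 ≤ K * T₁ * Real.exp (c * T₁) :=
              mul_le_mul_of_nonneg_left hexp (by positivity)
            linarith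
          have h5 : K * T ≤ K * T₁ * Real.exp (c * T₁) * T := mul_le_mul_of_nonneg_right h2 hT
          have h6 : 0 ≤ K * T₁ * Real.exp (c * T₁) := by positivity
          nlinarith
  · calc a T ≤ a T₁ := hmono h
      _ ≤ K * T₁ * Real.exp (E * T₁) := hbig T₁ le_rfl
      _ ≤ K * T₁ * Real.exp (c * T₁) := by
          apply mul_le_mul_of_nonneg_left _ (by positivity)
          apply Real.exp_le_exp.mpr
          nlinarith
      _ ≤ K * T₁ * Real.exp (c * T₁) * (1 + T) * Real.exp (E * T) := by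
          have h2 : 1 ≤ Real.exp (E * T) := Real.one_le_exp (by positivity)
          have h3 : 0 ≤ K * T₁ * Real.exp (c * T₁) := by positivity
          have h4 : K * T₁ * Real.exp (c * T₁) * 1 ≤ K * T₁ * Real.exp (c * T₁) * (1 + T) :=
            mul_le_mul_of_nonneg_left (by linarith) h3
          have h5 : K * T₁ * Real.exp (c * T₁) * (1 + T) * 1 ≤
              K * T₁ * Real.exp (c * T₁) * (1 + T) * Real.exp (E * T) :=
            mul_le_mul_of_nonneg_left h2 (by positivity)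
          linarith

private theorem pm_GrowD2_entry_le (A : Matrix (Fin 2) (Fin 2) ℝ) (i j : Fin 2) : |A i j| ≤ nrm2 A := by
  refine (Finset.single_le_sum (f := fun j => |A i j|) (fun _ _ => abs_nonneg _)
      (Finset.mem_univ j)).trans ?_
  exact Finset.single_le_sum (f := fun i => ∑ j, |A i j|)
      (fun k' _ => Finset.sum_nonneg fun _ _ => abs_nonneg _) (Finset.mem_univ i)

private theorem pm_GrowD2_nrm_nonneg (A : Matrix (Fin 2) (Fin 2) ℝ) : 0 ≤ nrm2 A :=
  Finset.sum_nonneg fun _ _ => Finset.sum_nonneg fun _ _ => abs_nonneg _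

private theorem pm_GrowD2_nrm_eq (A : Matrix (Fin 2) (Fin 2) ℝ) :
    nrm2 A = |A 0 0| + |A 0 1| + (|A 1 0| + |A 1 1|) := by
  simp [nrm2, Fin.sum_univ_two]

private theorem pm_GrowD2_nrm_mul (A B : Matrix (Fin 2) (Fin 2) ℝ) : nrm2 (A * B) ≤ nrm2 A * nrm2 B := by
  have h1 : ∀ i j, |(A * B) i j| ≤ ∑ k, |A i k| * |B k j| := by
    intro i j
    rw [Matrix.mul_apply]
    refine (Finset.abs_sum_le_sum_abs _ _).trans (le_of_eq ?_)
    exact Finset.sum_congr rfl fun k _ => abs_mul _ _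
  calc nrm2 (A * B) = ∑ i, ∑ j, |(A * B) i j| := rfl
    _ ≤ ∑ i, ∑ j, ∑ k, |A i k| * |B k j| :=
        Finset.sum_le_sum fun i _ => Finset.sum_le_sum fun j _ => h1 i j
    _ = ∑ i, ∑ k, |A i k| * ∑ j, |B k j| := by
        refine Finset.sum_congr rfl fun i _ => ?_
        rw [Finset.sum_comm]
        refine Finset.sum_congr rfl fun k _ => ?_
        rw [Finset.mul_sum]
    _ ≤ ∑ i, ∑ k, |A i k| * ∑ k', ∑ j, |B k' j| := by
        refine Finset.sum_le_sum fun i _ => Finset.sum_le_sum fun k _ => ?_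
        refine mul_le_mul_of_nonneg_left ?_ (abs_nonneg _)
        exact Finset.single_le_sum (f := fun k' => ∑ j, |B k' j|)
          (fun k' _ => Finset.sum_nonneg fun _ _ => abs_nonneg _) (Finset.mem_univ k)
    _ = (∑ i, ∑ j, |A i j|) * ∑ i, ∑ j, |B i j| := by
        simp only [Finset.sum_mul]
    _ = nrm2 A * nrm2 B := rfl

private theorem pm_GrowD2_nrm_inv (A : SL(2, ℝ)) :
    nrm2 ((A⁻¹ : SL(2, ℝ)) : Matrix (Fin 2) (Fin 2) ℝ) = nrm2 (A : Matrix (Fin 2) (Fin 2) ℝ) := by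
  rw [Matrix.SpecialLinearGroup.coe_inv, Matrix.adjugate_fin_two, pm_GrowD2_nrm_eq,
    pm_GrowD2_nrm_eq]
  simp
  ring

/-- elements in the same cell are close -/
private theorem pm_GrowD2_close {R : ℝ} (hR : 1 ≤ R) {A B : SL(2, ℝ)}
    (hA : nrm2 (A : Matrix (Fin 2) (Fin 2) ℝ) ≤ R)
    (hAB : ∀ i j, |(B : Matrix (Fin 2) (Fin 2) ℝ) i j - (A : Matrix (Fin 2) (Fin 2) ℝ) i j| ≤
      1 / (4 * R)) :
    nrm2 ((A⁻¹ * B : SL(2, ℝ)) : Matrix (Fin 2) (Fin 2) ℝ) ≤ 3 := by
  have hR0 : 0 < R := by linarith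
  have h1 : nrm2 ((B : Matrix (Fin 2) (Fin 2) ℝ) - (A : Matrix (Fin 2) (Fin 2) ℝ)) ≤ 1 / R := by
    rw [pm_GrowD2_nrm_eq]
    simp only [Matrix.sub_apply]
    have e : 1 / R = 4 * (1 / (4 * R)) := by field_simp
    rw [e]
    linarith [hAB 0 0, hAB 0 1, hAB 1 0, hAB 1 1]
  have h2 := pm_GrowD2_nrm_mul ((A⁻¹ : SL(2, ℝ)) : Matrix (Fin 2) (Fin 2) ℝ)
    ((B : Matrix (Fin 2) (Fin 2) ℝ) - (A : Matrix (Fin 2) (Fin 2) ℝ))
  rw [pm_GrowD2_nrm_inv] at h2
  have h3 : nrm2 (A : Matrix (Fin 2) (Fin 2) ℝ) *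
      nrm2 ((B : Matrix (Fin 2) (Fin 2) ℝ) - (A : Matrix (Fin 2) (Fin 2) ℝ)) ≤ R * (1 / R) :=
    mul_le_mul hA h1 (pm_GrowD2_nrm_nonneg _) hR0.le
  rw [mul_one_div_cancel hR0.ne'] at h3
  have h4 : ((A⁻¹ * B : SL(2, ℝ)) : Matrix (Fin 2) (Fin 2) ℝ) = 1 +
      ((A⁻¹ : SL(2, ℝ)) : Matrix (Fin 2) (Fin 2) ℝ) *
      ((B : Matrix (Fin 2) (Fin 2) ℝ) - (A : Matrix (Fin 2) (Fin 2) ℝ)) := by
    rw [Matrix.mul_sub, Matrix.SpecialLinearGroup.coe_mul, ← Matrix.SpecialLinearGroup.coe_mul A⁻¹ A,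
      inv_mul_cancel, Matrix.SpecialLinearGroup.coe_one]
    abel
  set D := ((A⁻¹ : SL(2, ℝ)) : Matrix (Fin 2) (Fin 2) ℝ) *
      ((B : Matrix (Fin 2) (Fin 2) ℝ) - (A : Matrix (Fin 2) (Fin 2) ℝ)) with hD
  have h5 : nrm2 D ≤ 1 := h2.trans h3
  rw [h4, pm_GrowD2_nrm_eq]
  rw [pm_GrowD2_nrm_eq] at h5
  have a0 : |(1 + D) 0 0| ≤ 1 + |D 0 0| := by
    rw [Matrix.add_apply, Matrix.one_apply_eq]
    refine (abs_add_le _ _).trans ?_
    rw [abs_one]
  have a1 : |(1 + D) 1 1| ≤ 1 + |D 1 1| := by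
    rw [Matrix.add_apply, Matrix.one_apply_eq]
    refine (abs_add_le _ _).trans ?_
    rw [abs_one]
  have a2 : |(1 + D) 0 1| = |D 0 1| := by
    rw [Matrix.add_apply, Matrix.one_apply_ne (by decide), zero_add]
  have a3 : |(1 + D) 1 0| = |D 1 0| := by
    rw [Matrix.add_apply, Matrix.one_apply_ne (by decide), zero_add]
  linarith

/-- a discrete subgroup of `SL(2,ℝ)` has at most polynomial growth in the norm -/
theorem poly_growth {Γ : Type*} [Group Γ] (ρ₀ : Γ →* SL(2, ℝ))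
    (hfin : ∀ C : ℝ, {γ : Γ | nrm2 (ρ₀ γ : Matrix (Fin 2) (Fin 2) ℝ) ≤ C}.Finite) :
    ∃ C > 0, ∀ R : ℝ, 1 ≤ R →
      (({γ : Γ | nrm2 (ρ₀ γ : Matrix (Fin 2) (Fin 2) ℝ) ≤ R}.ncard : ℝ) ≤ C * R ^ 8) := by
  classical
  set F₀ : Set Γ := {γ : Γ | nrm2 (ρ₀ γ : Matrix (Fin 2) (Fin 2) ℝ) ≤ 3} with hF₀
  have hF₀fin : F₀.Finite := hfin _
  refine ⟨11 ^ 4 * (F₀.ncard : ℝ) + 1, by positivity, fun R hR => ?_⟩
  have hR0 : 0 < R := by linarith
  set S : Set Γ := {γ : Γ | nrm2 (ρ₀ γ : Matrix (Fin 2) (Fin 2) ℝ) ≤ R} with hS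
  set e : Γ → Fin 2 → Fin 2 → ℤ := fun γ i j =>
    ⌊4 * R * (ρ₀ γ : Matrix (Fin 2) (Fin 2) ℝ) i j⌋ with he
  set cell : Γ → ℤ × ℤ × ℤ × ℤ := fun γ => (e γ 0 0, e γ 0 1, e γ 1 0, e γ 1 1) with hcell
  set rep : ℤ × ℤ × ℤ × ℤ → Γ := fun c => if h : ∃ γ, γ ∈ S ∧ cell γ = c then h.choose else 1
    with hrep
  set K : ℕ := ⌊4 * R ^ 2⌋₊ + 1 with hK
  have hKlt : 4 * R ^ 2 < K := by
    rw [hK]; push_cast; exact Nat.lt_floor_add_one _
  have hKle : (K : ℝ) ≤ 4 * R ^ 2 + 1 := by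
    rw [hK]; push_cast
    have := Nat.floor_le (by positivity : 0 ≤ 4 * R ^ 2)
    linarith
  set I : Finset ℤ := Finset.Icc (-(K : ℤ)) K with hI
  set T : Set ((ℤ × ℤ × ℤ × ℤ) × Γ) := (↑(I ×ˢ I ×ˢ I ×ˢ I) : Set (ℤ × ℤ × ℤ × ℤ)) ×ˢ F₀ with hT
  have hTfin : T.Finite := (Finset.finite_toSet _).prod hF₀fin
  have hent : ∀ γ ∈ S, ∀ i j, e γ i j ∈ I := by
    intro γ hγ i j
    have h1 : |(ρ₀ γ : Matrix (Fin 2) (Fin 2) ℝ) i j| ≤ R := (pm_GrowD2_entry_le _ i j).trans hγ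
    have h2 := abs_le.1 h1
    have h3 : 4 * R * (ρ₀ γ : Matrix (Fin 2) (Fin 2) ℝ) i j ≤ 4 * R ^ 2 := by nlinarith [h2.2]
    have h4 : -(4 * R ^ 2) ≤ 4 * R * (ρ₀ γ : Matrix (Fin 2) (Fin 2) ℝ) i j := by nlinarith [h2.1]
    rw [hI, Finset.mem_Icc]
    constructor
    · rw [he]
      rw [Int.le_floor]
      push_cast
      linarith
    · have h5 : (e γ i j : ℝ) ≤ (K : ℝ) := by
        refine (Int.floor_le _).trans ?_
        linarith
      exact_mod_cast h5
  have hclose : ∀ γ γ', γ ∈ S → cell γ = cell γ' → γ⁻¹ * γ' ∈ F₀ := by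
    intro γ γ' hγ hcc
    have hee : ∀ i j, e γ i j = e γ' i j := by
      have h0 := congrArg Prod.fst hcc
      have h1 := congrArg (fun p => p.2.1) hcc
      have h2 := congrArg (fun p => p.2.2.1) hcc
      have h3 := congrArg (fun p => p.2.2.2) hcc
      intro i j
      fin_cases i <;> fin_cases j
      · exact h0
      · exact h1
      · exact h2
      · exact h3
    show nrm2 (ρ₀ (γ⁻¹ * γ') : Matrix (Fin 2) (Fin 2) ℝ) ≤ 3
    rw [map_mul, map_inv]
    refine pm_GrowD2_close hR hγ fun i j => ?_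
    have h1 := Int.abs_sub_lt_one_of_floor_eq_floor (hee i j)
    rw [← mul_sub, abs_mul, abs_of_pos (by positivity : (0 : ℝ) < 4 * R)] at h1
    rw [abs_sub_comm, le_div_iff₀ (by positivity)]
    linarith
  set f : Γ → (ℤ × ℤ × ℤ × ℤ) × Γ := fun γ => (cell γ, (rep (cell γ))⁻¹ * γ) with hf
  have hmaps : ∀ γ ∈ S, f γ ∈ T := by
    intro γ hγ
    refine ⟨?_, ?_⟩
    · show cell γ ∈ (↑(I ×ˢ I ×ˢ I ×ˢ I) : Set (ℤ × ℤ × ℤ × ℤ))
      rw [Finset.mem_coe, Finset.mem_product, Finset.mem_product, Finset.mem_product]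
      exact ⟨hent γ hγ 0 0, hent γ hγ 0 1, hent γ hγ 1 0, hent γ hγ 1 1⟩
    · show (rep (cell γ))⁻¹ * γ ∈ F₀
      have hex : ∃ q, q ∈ S ∧ cell q = cell γ := ⟨γ, hγ, rfl⟩
      have hr : rep (cell γ) = hex.choose := by
        simp only [hrep]
        rw [dif_pos hex]
      rw [hr]
      exact hclose _ _ hex.choose_spec.1 hex.choose_spec.2
  have hinj : Set.InjOn f S := by
    intro p hp q hq hpq
    have h1 : cell p = cell q := congrArg Prod.fst hpq
    have h2 : (rep (cell p))⁻¹ * p = (rep (cell q))⁻¹ * q := congrArg Prod.snd hpq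
    rw [h1] at h2
    exact mul_left_cancel h2
  have hcard : S.ncard ≤ T.ncard := Set.ncard_le_ncard_of_injOn f hmaps hinj hTfin
  have hIcard : I.card = 2 * K + 1 := by
    rw [hI, Int.card_Icc]
    omega
  have hTcard : T.ncard = (2 * K + 1) ^ 4 * F₀.ncard := by
    rw [hT, Set.ncard_prod, Set.ncard_coe_finset, Finset.card_product, Finset.card_product,
      Finset.card_product, hIcard]
    ring
  have h1 : (S.ncard : ℝ) ≤ (2 * (K : ℝ) + 1) ^ 4 * F₀.ncard := by
    have : S.ncard ≤ (2 * K + 1) ^ 4 * F₀.ncard := hTcard ▸ hcard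
    exact_mod_cast this
  have h2 : 2 * (K : ℝ) + 1 ≤ 11 * R ^ 2 := by nlinarith
  have h3 : (2 * (K : ℝ) + 1) ^ 4 ≤ (11 * R ^ 2) ^ 4 :=
    pow_le_pow_left₀ (by positivity) h2 4
  calc (S.ncard : ℝ) ≤ (2 * (K : ℝ) + 1) ^ 4 * F₀.ncard := h1
    _ ≤ (11 * R ^ 2) ^ 4 * F₀.ncard := mul_le_mul_of_nonneg_right h3 (by positivity)
    _ = 11 ^ 4 * (F₀.ncard : ℝ) * R ^ 8 := by ring
    _ ≤ (11 ^ 4 * (F₀.ncard : ℝ) + 1) * R ^ 8 := by
        have : 0 ≤ R ^ 8 := by positivity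
        nlinarith

end PM3
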