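import Pool.Agent.LibPM3.GrowthA
import Pool.Agent.LibPM3.GrowthB
import Pool.Agent.LibPM3.GrowthC
import Pool.Agent.LibPM3.GrowthD

/-! [PM3 G5] the growth theorem. -/

namespace PM3
open Matrix Filter Topology
open scoped MatrixGroups

variable {Γ : Type*} [Group Γ]

/-- counting by fibres -/
private theorem pm_GrowE_fiber {P Q : Type*} {s : Set P} {t : Set Q} (hs : s.Finite)
    (ht : t.Finite) (f : P → Q) (hf : ∀ a ∈ s, f a ∈ t) {K : ℝ} (hK : 0 ≤ K)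
    (h : ∀ b ∈ t, (({a | a ∈ s ∧ f a = b}.ncard : ℕ) : ℝ) ≤ K) :
    (s.ncard : ℝ) ≤ K * t.ncard := by
  classical
  have h1 := Finset.card_le_mul_card_image_of_maps_to (s := hs.toFinset) (t := ht.toFinset)
    (f := f) (fun a ha => by
      rw [Set.Finite.mem_toFinset] at ha ⊢
      exact hf a ha) ⌊K⌋₊ (fun b hb => by
      rw [Set.Finite.mem_toFinset] at hb
      rw [← Set.ncard_coe_finset]
      refine Nat.le_floor ?_
      refine le_trans (le_of_eq ?_) (h b hb)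
      congr 2
      ext a
      simp)
  rw [Set.ncard_eq_toFinset_card s hs, Set.ncard_eq_toFinset_card t ht]
  calc ((hs.toFinset.card : ℕ) : ℝ) ≤ ((⌊K⌋₊ * ht.toFinset.card : ℕ) : ℝ) := by exact_mod_cast h1
    _ = (⌊K⌋₊ : ℝ) * ht.toFinset.card := by push_cast; ring
    _ ≤ K * ht.toFinset.card := by
      refine mul_le_mul_of_nonneg_right (Nat.floor_le hK) (Nat.cast_nonneg _)

section size

variable {ρ₀ : Γ →* SL(2, ℝ)} {α β : Γ} {c : ℝ} {X : Subgroup Γ} {N : Γ → ℝ}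

private theorem pm_GrowE_c (H : IsSize ρ₀ α β c X N) : 1 ≤ c := (H.one_le α H.hα).trans H.gens.1

private theorem pm_GrowE_log (H : IsSize ρ₀ α β c X N) {T : ℝ} {g : Γ} (hg : g ∈ nX X N T) :
    Real.log (N g) ≤ T := by
  have h1 := H.one_le g hg.1
  rw [Real.log_le_iff_le_exp (by linarith)]
  exact hg.2

private theorem pm_GrowE_nrm (H : IsSize ρ₀ α β c X N) {T : ℝ} {g : Γ} (hg : g ∈ nX X N T) :
    Real.log (nrm2 (ρ₀ g : Matrix (Fin 2) (Fin 2) ℝ)) ≤ c * (1 + T) := by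
  have h1 := H.qi g hg.1
  have h2 := pm_GrowE_log H hg
  have h3 := pm_GrowE_c H
  nlinarith

private theorem pm_GrowE_nrm' (H : IsSize ρ₀ α β c X N) {T : ℝ} {g : Γ} (hg : g ∈ nX X N T) :
    nrm2 (ρ₀ g : Matrix (Fin 2) (Fin 2) ℝ) ≤ Real.exp (c * (1 + T)) := by
  have h1 := pm_GrowE_nrm H hg
  rcases le_or_gt (nrm2 (ρ₀ g : Matrix (Fin 2) (Fin 2) ℝ)) 0 with h2 | h2
  · exact h2.trans (Real.exp_pos _).le
  · exact (Real.log_le_iff_le_exp h2).1 h1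

private theorem pm_GrowE_fin (hfin : ∀ C : ℝ, {γ : Γ | nrm2 (ρ₀ γ : Matrix (Fin 2) (Fin 2) ℝ) ≤ C}.Finite)
    (H : IsSize ρ₀ α β c X N) (T : ℝ) : (nX X N T).Finite :=
  (hfin (Real.exp (c * (1 + T)))).subset fun _ hg => pm_GrowE_nrm' H hg

private theorem pm_GrowE_one (H : IsSize ρ₀ α β c X N) : N 1 ≤ c ^ 2 := by
  have h1 := H.mul_le α H.hα α⁻¹ (X.inv_mem H.hα)
  rw [mul_inv_cancel] at h1
  have h2 := H.one_le α H.hα
  have h3 := H.one_le α⁻¹ (X.inv_mem H.hα)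
  have h4 := H.gens.1
  have h5 := H.gens.2.1
  calc N 1 ≤ N α * N α⁻¹ := h1
    _ ≤ c * c := mul_le_mul h4 h5 (by linarith) (by linarith)
    _ = c ^ 2 := (sq c).symm

private theorem pm_GrowE_pow (H : IsSize ρ₀ α β c X N) {x : Γ} (hx : x ∈ X) (hxc : N x ≤ c) (n : ℕ) :
    N (x ^ n) ≤ c ^ (n + 2) := by
  have hc := pm_GrowE_c H
  induction n with
  | zero => simpa using pm_GrowE_one H
  | succ n ih =>
    rw [pow_succ]
    have h1 := H.mul_le (x ^ n) (X.pow_mem hx n) x hx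
    have h2 := H.one_le (x ^ n) (X.pow_mem hx n)
    have h3 := H.one_le x hx
    calc N (x ^ n * x) ≤ N (x ^ n) * N x := h1
      _ ≤ c ^ (n + 2) * c := mul_le_mul ih hxc (by linarith) (by positivity)
      _ = c ^ (n + 1 + 2) := by ring

/-- the connector map -/
private def pm_GrowE_phi (α β : Γ) (n : ℕ) (b : Bool × Bool) (g : Γ) : Γ :=
  α ^ n * β ^ ((if b.1 then (1 : ℤ) else -1) * (n : ℤ)) * g *
    β ^ ((if b.2 then (1 : ℤ) else -1) * (n : ℤ)) * α ^ n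

private theorem pm_GrowE_phi_inj (α β : Γ) (n : ℕ) (b : Bool × Bool) :
    Function.Injective (pm_GrowE_phi α β n b) := by
  intro g h hgh
  unfold pm_GrowE_phi at hgh
  exact mul_left_cancel (mul_right_cancel (mul_right_cancel hgh))

private theorem pm_GrowE_zpow (H : IsSize ρ₀ α β c X N) (n : ℕ) (b : Bool) :
    β ^ ((if b then (1 : ℤ) else -1) * (n : ℤ)) ∈ X ∧
      N (β ^ ((if b then (1 : ℤ) else -1) * (n : ℤ))) ≤ c ^ (n + 2) := by
  cases b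
  · have h1 : β ^ ((if false then (1 : ℤ) else -1) * (n : ℤ)) = β⁻¹ ^ n := by
      simp
    rw [h1]
    exact ⟨X.pow_mem (X.inv_mem H.hβ) n, pm_GrowE_pow H (X.inv_mem H.hβ) H.gens.2.2.2 n⟩
  · have h1 : β ^ ((if true then (1 : ℤ) else -1) * (n : ℤ)) = β ^ n := by
      simp
    rw [h1]
    exact ⟨X.pow_mem H.hβ n, pm_GrowE_pow H H.hβ H.gens.2.2.1 n⟩

private theorem pm_GrowE_phi_mem (H : IsSize ρ₀ α β c X N) (n : ℕ) (b : Bool × Bool) {g : Γ} {T : ℝ}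
    (hg : g ∈ nX X N T) : pm_GrowE_phi α β n b g ∈ nX X N (T + 4 * (n + 2) * Real.log c) := by
  have hc := pm_GrowE_c H
  obtain ⟨h1, h2⟩ := pm_GrowE_zpow H n b.1
  obtain ⟨h3, h4⟩ := pm_GrowE_zpow H n b.2
  have h5 : α ^ n ∈ X := X.pow_mem H.hα n
  have h6 : N (α ^ n) ≤ c ^ (n + 2) := pm_GrowE_pow H H.hα H.gens.1 n
  unfold pm_GrowE_phi
  set u := β ^ ((if b.1 then (1 : ℤ) else -1) * (n : ℤ)) with hu
  set v := β ^ ((if b.2 then (1 : ℤ) else -1) * (n : ℤ)) with hv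
  have m1 : α ^ n * u ∈ X := X.mul_mem h5 h1
  have m2 : α ^ n * u * g ∈ X := X.mul_mem m1 hg.1
  have m3 : α ^ n * u * g * v ∈ X := X.mul_mem m2 h3
  refine ⟨X.mul_mem m3 h5, ?_⟩
  have p0 : (0 : ℝ) ≤ c ^ (n + 2) := by positivity
  have e1 : N (α ^ n * u) ≤ c ^ (n + 2) * c ^ (n + 2) :=
    (H.mul_le _ h5 _ h1).trans (mul_le_mul h6 h2 (by linarith [H.one_le _ h1]) p0)
  have e2 : N (α ^ n * u * g) ≤ c ^ (n + 2) * c ^ (n + 2) * Real.exp T :=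
    (H.mul_le _ m1 _ hg.1).trans (mul_le_mul e1 hg.2 (by linarith [H.one_le _ hg.1])
      (by positivity))
  have e3 : N (α ^ n * u * g * v) ≤ c ^ (n + 2) * c ^ (n + 2) * Real.exp T * c ^ (n + 2) :=
    (H.mul_le _ m2 _ h3).trans (mul_le_mul e2 h4 (by linarith [H.one_le _ h3])
      (by positivity))
  have e4 : N (α ^ n * u * g * v * α ^ n) ≤
      c ^ (n + 2) * c ^ (n + 2) * Real.exp T * c ^ (n + 2) * c ^ (n + 2) :=
    (H.mul_le _ m3 _ h5).trans (mul_le_mul e3 h6 (by linarith [H.one_le _ h5])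
      (by positivity))
  refine e4.trans (le_of_eq ?_)
  have e5 : Real.exp (T + 4 * (n + 2) * Real.log c) = Real.exp T * c ^ (4 * (n + 2)) := by
    rw [Real.exp_add]
    congr 1
    have : (4 : ℝ) * (n + 2) * Real.log c = ((4 * (n + 2) : ℕ) : ℝ) * Real.log c := by
      push_cast; ring
    rw [this, Real.exp_nat_mul, Real.exp_log (by linarith)]
  rw [e5]
  ring

/-- few elements outside the semigroup -/
private theorem pm_GrowE_four {G : GL (Fin 2) ℝ} {n : ℕ}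
    (hfin : ∀ C : ℝ, {γ : Γ | nrm2 (ρ₀ γ : Matrix (Fin 2) (Fin 2) ℝ) ≤ C}.Finite)
    (hG : ∀ g : Γ, ∃ b : Bool × Bool, pm_GrowE_phi α β n b g ∈ SG ρ₀ G)
    (H : IsSize ρ₀ α β c X N) (T : ℝ) :
    ((nX X N T).ncard : ℝ) ≤ 4 * (SG ρ₀ G ∩ nX X N (T + 4 * (n + 2) * Real.log c)).ncard := by
  choose b hb using hG
  have hA : (SG ρ₀ G ∩ nX X N (T + 4 * (n + 2) * Real.log c)).Finite :=
    (pm_GrowE_fin hfin H _).subset Set.inter_subset_right
  have h1 : (nX X N T).ncard ≤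
      ((Set.univ : Set (Bool × Bool)) ×ˢ (SG ρ₀ G ∩ nX X N (T + 4 * (n + 2) * Real.log c))).ncard := by
    refine Set.ncard_le_ncard_of_injOn (fun g => (b g, pm_GrowE_phi α β n (b g) g)) ?_ ?_
      (Set.finite_univ.prod hA)
    · intro g hg
      exact ⟨Set.mem_univ _, hb g, pm_GrowE_phi_mem H n (b g) hg⟩
    · intro g _ h _ hgh
      simp only [Prod.mk.injEq] at hgh
      have h2 := hgh.2
      have h3 : b g = b h := hgh.1
      rw [← h3] at h2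
      exact pm_GrowE_phi_inj α β n (b g) h2
  rw [Set.ncard_prod] at h1
  have h2 : (Set.univ : Set (Bool × Bool)).ncard = 4 := by
    rw [Set.ncard_univ]
    simp
  rw [h2] at h1
  exact_mod_cast h1

/-- the semigroup does not contain `1` -/
private theorem pm_GrowE_one_notMem (G : GL (Fin 2) ℝ) : (1 : Γ) ∉ SG ρ₀ G := by
  rintro ⟨s, -, hs⟩
  have h1 := hs.pos 0 1
  rw [map_one] at h1
  have h2 : (((G⁻¹ : GL (Fin 2) ℝ) : Matrix (Fin 2) (Fin 2) ℝ) *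
      ((1 : SL(2, ℝ)) : Matrix (Fin 2) (Fin 2) ℝ) * (G : Matrix (Fin 2) (Fin 2) ℝ)) = 1 := by
    rw [Matrix.SpecialLinearGroup.coe_one, mul_one, ← Units.val_mul, inv_mul_cancel, Units.val_one]
  rw [h2] at h1
  simp at h1

/-- P2 for the counting function -/
private theorem pm_GrowE_mul {G : GL (Fin 2) ℝ} {Cp : ℝ} (hCp : 0 < Cp)
    (hfin : ∀ C : ℝ, {γ : Γ | nrm2 (ρ₀ γ : Matrix (Fin 2) (Fin 2) ℝ) ≤ C}.Finite)
    (hp : ∀ γ : Γ, {p : Γ × Γ | p.1 ∈ SG ρ₀ G ∧ p.2 ∈ SG ρ₀ G ∧ p.1 * p.2 = γ}.Finite ∧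
      (({p : Γ × Γ | p.1 ∈ SG ρ₀ G ∧ p.2 ∈ SG ρ₀ G ∧ p.1 * p.2 = γ}.ncard : ℝ)
        ≤ Cp * (1 + Real.log (nrm2 (ρ₀ γ : Matrix (Fin 2) (Fin 2) ℝ)))))
    (H : IsSize ρ₀ α β c X N) {S T : ℝ} (hS : 0 ≤ S) (hT : 0 ≤ T) :
    ((SG ρ₀ G ∩ nX X N S).ncard : ℝ) * (SG ρ₀ G ∩ nX X N T).ncard ≤
      Cp * (1 + c * (1 + (S + T))) * (SG ρ₀ G ∩ nX X N (S + T)).ncard := by
  have hc := pm_GrowE_c H
  have hA : ∀ T, (SG ρ₀ G ∩ nX X N T).Finite := fun T =>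
    (pm_GrowE_fin hfin H T).subset Set.inter_subset_right
  have hK : 0 ≤ Cp * (1 + c * (1 + (S + T))) := by positivity
  have h1 := pm_GrowE_fiber ((hA S).prod (hA T)) (hA (S + T)) (fun p : Γ × Γ => p.1 * p.2)
    (fun p hp => by
      refine ⟨SG_mul hp.1.1 hp.2.1, X.mul_mem hp.1.2.1 hp.2.2.1, ?_⟩
      rw [Real.exp_add]
      exact (H.mul_le _ hp.1.2.1 _ hp.2.2.1).trans (mul_le_mul hp.1.2.2 hp.2.2.2
        (by linarith [H.one_le _ hp.2.2.1]) (Real.exp_pos _).le)) hK (fun γ hγ => by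
      obtain ⟨hf, hb⟩ := hp γ
      have h2 : {a | a ∈ (SG ρ₀ G ∩ nX X N S) ×ˢ (SG ρ₀ G ∩ nX X N T) ∧ a.1 * a.2 = γ} ⊆
          {p : Γ × Γ | p.1 ∈ SG ρ₀ G ∧ p.2 ∈ SG ρ₀ G ∧ p.1 * p.2 = γ} := by
        rintro a ⟨ha, hγ⟩
        exact ⟨ha.1.1, ha.2.1, hγ⟩
      have h3 := Set.ncard_le_ncard h2 hf
      have h4 := pm_GrowE_nrm H hγ.2
      calc (({a | a ∈ (SG ρ₀ G ∩ nX X N S) ×ˢ (SG ρ₀ G ∩ nX X N T) ∧ a.1 * a.2 = γ}.ncard : ℕ) : ℝ)
          ≤ ({p : Γ × Γ | p.1 ∈ SG ρ₀ G ∧ p.2 ∈ SG ρ₀ G ∧ p.1 * p.2 = γ}.ncard : ℝ) := by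
            exact_mod_cast h3
        _ ≤ Cp * (1 + Real.log (nrm2 (ρ₀ γ : Matrix (Fin 2) (Fin 2) ℝ))) := hb
        _ ≤ Cp * (1 + c * (1 + (S + T))) := by
            refine mul_le_mul_of_nonneg_left ?_ hCp.le
            linarith)
  rw [Set.ncard_prod] at h1
  push_cast at h1
  exact h1

/-- classes -/
private theorem pm_GrowE_classes {G : GL (Fin 2) ℝ} {C1 : ℝ} (hC1 : 0 < C1)
    (hfin : ∀ C : ℝ, {γ : Γ | nrm2 (ρ₀ γ : Matrix (Fin 2) (Fin 2) ℝ) ≤ C}.Finite)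
    (hp : ∀ γ ∈ SG ρ₀ G, {γ' : Γ | γ' ∈ SG ρ₀ G ∧ IsConj γ γ'}.Finite ∧
      (({γ' : Γ | γ' ∈ SG ρ₀ G ∧ IsConj γ γ'}.ncard : ℝ)
        ≤ C1 * (1 + Real.log (nrm2 (ρ₀ γ : Matrix (Fin 2) (Fin 2) ℝ)))))
    (H : IsSize ρ₀ α β c X N) {T : ℝ} (hT : 0 ≤ T) :
    ((SG ρ₀ G ∩ nX X N T).ncard : ℝ) ≤ C1 * (1 + c * (1 + T)) * (nC X N T).ncard := by
  have hc := pm_GrowE_c H
  have hnX := pm_GrowE_fin hfin H T
  have hA : (SG ρ₀ G ∩ nX X N T).Finite := hnX.subset Set.inter_subset_right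
  have hC : (nC X N T).Finite := by
    refine (hnX.image ConjClasses.mk).subset ?_
    rintro κ ⟨-, g, hg, rfl⟩
    exact ⟨g, hg, rfl⟩
  have hK : 0 ≤ C1 * (1 + c * (1 + T)) := by positivity
  refine pm_GrowE_fiber hA hC ConjClasses.mk (fun g hg => ⟨?_, g, hg.2, rfl⟩) hK (fun κ hκ => ?_)
  · intro h1
    rw [ConjClasses.one_eq_mk_one, ConjClasses.mk_eq_mk_iff_isConj, isConj_comm,
      isConj_one_right] at h1
    subst h1
    exact pm_GrowE_one_notMem G hg.1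
  · rcases Set.eq_empty_or_nonempty {a | a ∈ SG ρ₀ G ∩ nX X N T ∧ ConjClasses.mk a = κ} with h1 | h1
    · rw [h1]
      simpa using hK
    · obtain ⟨γ, hγ, hγκ⟩ := h1
      obtain ⟨hf, hb⟩ := hp γ hγ.1
      have h2 : {a | a ∈ SG ρ₀ G ∩ nX X N T ∧ ConjClasses.mk a = κ} ⊆
          {γ' : Γ | γ' ∈ SG ρ₀ G ∧ IsConj γ γ'} := by
        rintro a ⟨ha, haκ⟩
        exact ⟨ha.1, ConjClasses.mk_eq_mk_iff_isConj.1 (hγκ.trans haκ.symm)⟩
      have h3 := Set.ncard_le_ncard h2 hf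
      have h4 := pm_GrowE_nrm H hγ.2
      calc (({a | a ∈ SG ρ₀ G ∩ nX X N T ∧ ConjClasses.mk a = κ}.ncard : ℕ) : ℝ)
          ≤ ({γ' : Γ | γ' ∈ SG ρ₀ G ∧ IsConj γ γ'}.ncard : ℝ) := by exact_mod_cast h3
        _ ≤ C1 * (1 + Real.log (nrm2 (ρ₀ γ : Matrix (Fin 2) (Fin 2) ℝ))) := hb
        _ ≤ C1 * (1 + c * (1 + T)) := by
            refine mul_le_mul_of_nonneg_left ?_ hC1.le
            linarith

/-- a priori bound -/
private theorem pm_GrowE_apriori {Cg : ℝ}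
    (hfin : ∀ C : ℝ, {γ : Γ | nrm2 (ρ₀ γ : Matrix (Fin 2) (Fin 2) ℝ) ≤ C}.Finite)
    (hg : ∀ R : ℝ, 1 ≤ R →
      (({γ : Γ | nrm2 (ρ₀ γ : Matrix (Fin 2) (Fin 2) ℝ) ≤ R}.ncard : ℝ) ≤ Cg * R ^ 8))
    (H : IsSize ρ₀ α β c X N) {T : ℝ} (hT : 0 ≤ T) :
    ((nX X N T).ncard : ℝ) ≤ Cg * Real.exp (8 * c) * Real.exp (8 * c * T) := by
  have hc := pm_GrowE_c H
  have h1 : ((nX X N T).ncard : ℝ) ≤
      ({γ : Γ | nrm2 (ρ₀ γ : Matrix (Fin 2) (Fin 2) ℝ) ≤ Real.exp (c * (1 + T))}.ncard : ℝ) := by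
    exact_mod_cast Set.ncard_le_ncard (fun g hg => pm_GrowE_nrm' H hg)
      (hfin (Real.exp (c * (1 + T))))
  refine h1.trans ((hg _ (Real.one_le_exp (by positivity))).trans (le_of_eq ?_))
  rw [← Real.exp_nat_mul, mul_assoc, ← Real.exp_add]
  congr 2
  push_cast
  ring

private theorem pm_GrowE_mono {G : GL (Fin 2) ℝ}
    (hfin : ∀ C : ℝ, {γ : Γ | nrm2 (ρ₀ γ : Matrix (Fin 2) (Fin 2) ℝ) ≤ C}.Finite)
    (H : IsSize ρ₀ α β c X N) :
    Monotone fun T : ℝ => ((SG ρ₀ G ∩ nX X N T).ncard : ℝ) := by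
  intro S T hST
  have h1 : SG ρ₀ G ∩ nX X N S ⊆ SG ρ₀ G ∩ nX X N T := fun g hg =>
    ⟨hg.1, hg.2.1, hg.2.2.trans (Real.exp_le_exp.2 hST)⟩
  have h2 := Set.ncard_le_ncard h1 ((pm_GrowE_fin hfin H T).subset Set.inter_subset_right)
  change ((SG ρ₀ G ∩ nX X N S).ncard : ℝ) ≤ ((SG ρ₀ G ∩ nX X N T).ncard : ℝ)
  exact_mod_cast h2

private theorem pm_GrowE_ge_one {G : GL (Fin 2) ℝ} {n : ℕ}
    (hfin : ∀ C : ℝ, {γ : Γ | nrm2 (ρ₀ γ : Matrix (Fin 2) (Fin 2) ℝ) ≤ C}.Finite)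
    (hG : ∀ g : Γ, ∃ b : Bool × Bool, pm_GrowE_phi α β n b g ∈ SG ρ₀ G)
    (H : IsSize ρ₀ α β c X N) {T : ℝ} (hT : 2 * Real.log c + 4 * (n + 2) * Real.log c ≤ T) :
    1 ≤ ((SG ρ₀ G ∩ nX X N T).ncard : ℝ) := by
  obtain ⟨b, hb⟩ := hG 1
  have hc := pm_GrowE_c H
  have h1 : (1 : Γ) ∈ nX X N (2 * Real.log c) := by
    refine ⟨X.one_mem, (pm_GrowE_one H).trans (le_of_eq ?_)⟩
    have : (2 : ℝ) * Real.log c = ((2 : ℕ) : ℝ) * Real.log c := by norm_num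
    rw [this, Real.exp_nat_mul, Real.exp_log (by linarith)]
  have h2 := pm_GrowE_phi_mem H n b h1
  have h3 : pm_GrowE_phi α β n b 1 ∈ SG ρ₀ G ∩ nX X N T :=
    ⟨hb, h2.1, h2.2.trans (Real.exp_le_exp.2 hT)⟩
  have h4 : 0 < (SG ρ₀ G ∩ nX X N T).ncard :=
    (Set.ncard_pos ((pm_GrowE_fin hfin H T).subset Set.inter_subset_right)).2 ⟨_, h3⟩
  exact_mod_cast h4

end size

/-- comparison of exponents -/
private theorem pm_GrowE_squeeze {A n : ℝ → ℝ} {L E T₀ : ℝ} (hL : 0 ≤ L)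
    (h1 : ∀ T, A T ≤ n T) (h2 : ∀ T, n T ≤ 4 * A (T + L)) (h3 : ∀ T, T₀ ≤ T → 1 ≤ A T)
    (h4 : Tendsto (fun T : ℝ => Real.log (A T) / T) atTop (𝓝 E)) :
    Tendsto (fun T : ℝ => Real.log (n T) / T) atTop (𝓝 E) := by
  have h5 : Tendsto (fun T : ℝ => T + L) atTop atTop := tendsto_atTop_add_const_right _ _ tendsto_id
  have h6 : Tendsto (fun T : ℝ => Real.log (A (T + L)) / (T + L)) atTop (𝓝 E) := h4.comp h5
  have h7 : Tendsto (fun T : ℝ => Real.log 4 / T) atTop (𝓝 0) :=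
    tendsto_const_nhds.div_atTop tendsto_id
  have h8 : Tendsto (fun T : ℝ => 1 + L / T) atTop (𝓝 (1 + 0)) :=
    tendsto_const_nhds.add (tendsto_const_nhds.div_atTop tendsto_id)
  have h9 : Tendsto (fun T : ℝ => Real.log 4 / T + Real.log (A (T + L)) / (T + L) * (1 + L / T))
      atTop (𝓝 (0 + E * (1 + 0))) := h7.add (h6.mul h8)
  rw [add_zero, mul_one, zero_add] at h9
  refine tendsto_of_tendsto_of_tendsto_of_le_of_le' h4 h9 ?_ ?_
  · filter_upwards [eventually_ge_atTop T₀, eventually_gt_atTop 0] with T hT hT0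
    have h10 := h3 T hT
    exact div_le_div_of_nonneg_right (Real.log_le_log (by linarith) (h1 T)) hT0.le
  · filter_upwards [eventually_ge_atTop T₀, eventually_gt_atTop 0] with T hT hT0
    have h10 := h3 T hT
    have h11 := h3 (T + L) (by linarith)
    have h12 : Real.log (n T) ≤ Real.log 4 + Real.log (A (T + L)) := by
      rw [← Real.log_mul (by norm_num) (by linarith)]
      exact Real.log_le_log (by linarith [h1 T]) (h2 T)
    have h13 : Real.log 4 / T + Real.log (A (T + L)) / (T + L) * (1 + L / T) =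
        (Real.log 4 + Real.log (A (T + L))) / T := by
      have : T + L ≠ 0 := by positivity
      field_simp
    rw [h13]
    exact div_le_div_of_nonneg_right h12 hT0.le

/-- the series -/
private theorem pm_GrowE_series {x : ℝ} (h0 : 0 < x) (h1 : x ≤ 1) :
    Summable (fun m : ℕ => ((m : ℝ) + 1) * Real.exp (-x) ^ m) ∧
      ∑' m : ℕ, ((m : ℝ) + 1) * Real.exp (-x) ^ m ≤ 4 / x ^ 2 := by
  have h2 : ‖Real.exp (-x)‖ < 1 := by
    rw [Real.norm_eq_abs, abs_of_pos (Real.exp_pos _)]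
    exact (Real.exp_lt_exp.2 (by linarith : -x < 0)).trans_eq Real.exp_zero
  have h3 := hasSum_choose_mul_geometric_of_norm_lt_one 1 h2
  have h4 : (fun n : ℕ => ((n + 1).choose 1 : ℝ) * Real.exp (-x) ^ n) =
      fun m : ℕ => ((m : ℝ) + 1) * Real.exp (-x) ^ m := by
    funext m
    rw [Nat.choose_one_right]
    push_cast
    ring
  rw [h4] at h3
  refine ⟨h3.summable, ?_⟩
  rw [h3.tsum_eq]
  have h5 : x / 2 ≤ 1 - Real.exp (-x) := by
    have h6 : x + 1 ≤ Real.exp x := Real.add_one_le_exp x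
    have h7 : Real.exp (-x) * Real.exp x = 1 := by rw [← Real.exp_add]; simp
    have h8 := Real.exp_pos (-x)
    nlinarith
  have h6 : (x / 2) ^ 2 ≤ (1 - Real.exp (-x)) ^ (1 + 1) := by
    have : (0 : ℝ) ≤ x / 2 := by linarith
    nlinarith
  calc 1 / (1 - Real.exp (-x)) ^ (1 + 1) ≤ 1 / (x / 2) ^ 2 :=
        one_div_le_one_div_of_le (by positivity) h6
    _ = 4 / x ^ 2 := by field_simp; norm_num

/-- one slice of the Poincaré series -/
private theorem pm_GrowE_slice {ρ₀ : Γ →* SL(2, ℝ)} {α β : Γ} {c : ℝ} {X : Subgroup Γ}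
    {N : Γ → ℝ} (H : IsSize ρ₀ α β c X N) (hf : ∀ T, (nX X N T).Finite) {s : ℝ} (hs : 0 < s)
    (m : ℕ) : ∑' g : {g : X // ⌊Real.log (N g)⌋₊ = m}, ENNReal.ofReal ((N (g.1 : Γ)) ^ (-s)) ≤
      ENNReal.ofReal (((nX X N ((m : ℝ) + 1)).ncard : ℝ) * Real.exp (-(s * m))) := by
  have hmem : ∀ g : {g : X // ⌊Real.log (N g)⌋₊ = m}, (g.1 : Γ) ∈ nX X N ((m : ℝ) + 1) := by
    rintro ⟨g, hg⟩
    refine ⟨g.2, ?_⟩
    have h1 := Nat.lt_floor_add_one (Real.log (N (g : Γ)))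
    rw [hg] at h1
    have h2 := H.one_le (g : Γ) g.2
    exact (Real.log_le_iff_le_exp (by linarith)).1 h1.le
  have hinj : Function.Injective (fun g : {g : X // ⌊Real.log (N g)⌋₊ = m} =>
      (⟨(g.1 : Γ), hmem g⟩ : nX X N ((m : ℝ) + 1))) := by
    intro g h hgh
    have h1 := congrArg Subtype.val hgh
    exact Subtype.ext (Subtype.ext h1)
  have : Finite (nX X N ((m : ℝ) + 1)) := (hf _).to_subtype
  have hfin : Finite {g : X // ⌊Real.log (N g)⌋₊ = m} := Finite.of_injective _ hinj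
  have hcard : Nat.card {g : X // ⌊Real.log (N g)⌋₊ = m} ≤ (nX X N ((m : ℝ) + 1)).ncard :=
    Nat.card_le_card_of_injective _ hinj
  have hft : Fintype {g : X // ⌊Real.log (N g)⌋₊ = m} := Fintype.ofFinite _
  have hterm : ∀ g : {g : X // ⌊Real.log (N g)⌋₊ = m},
      ENNReal.ofReal ((N (g.1 : Γ)) ^ (-s)) ≤ ENNReal.ofReal (Real.exp (-(s * m))) := by
    rintro ⟨g, hg⟩
    refine ENNReal.ofReal_le_ofReal ?_
    have h2 := H.one_le (g : Γ) g.2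
    have h3 : (m : ℝ) ≤ Real.log (N (g : Γ)) := by
      rw [← hg]
      exact Nat.floor_le (Real.log_nonneg h2)
    rw [Real.rpow_def_of_pos (by linarith)]
    refine Real.exp_le_exp.2 ?_
    nlinarith
  calc ∑' g : {g : X // ⌊Real.log (N g)⌋₊ = m}, ENNReal.ofReal ((N (g.1 : Γ)) ^ (-s))
      ≤ ∑' _ : {g : X // ⌊Real.log (N g)⌋₊ = m}, ENNReal.ofReal (Real.exp (-(s * m))) :=
        ENNReal.tsum_le_tsum hterm
    _ = (Nat.card {g : X // ⌊Real.log (N g)⌋₊ = m} : ENNReal) *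
          ENNReal.ofReal (Real.exp (-(s * m))) := by
        rw [tsum_fintype, Finset.sum_const, nsmul_eq_mul, Finset.card_univ, Nat.card_eq_fintype_card]
    _ ≤ ((nX X N ((m : ℝ) + 1)).ncard : ENNReal) * ENNReal.ofReal (Real.exp (-(s * m))) := by
        gcongr
    _ = ENNReal.ofReal (((nX X N ((m : ℝ) + 1)).ncard : ℝ) * Real.exp (-(s * m))) := by
        rw [ENNReal.ofReal_mul (Nat.cast_nonneg _), ENNReal.ofReal_natCast]

/-- the Poincaré series -/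
private theorem pm_GrowE_poin {ρ₀ : Γ →* SL(2, ℝ)} {α β : Γ} {c : ℝ} {X : Subgroup Γ}
    {N : Γ → ℝ} (H : IsSize ρ₀ α β c X N) (hf : ∀ T, (nX X N T).Finite) {K E : ℝ} (hK : 0 ≤ K)
    (hE : 0 ≤ E) (hb : ∀ T, 0 ≤ T → ((nX X N T).ncard : ℝ) ≤ K * (1 + T) * Real.exp (E * T))
    {s : ℝ} (hs : E < s) (hs1 : s ≤ E + 1) :
    poin X N s ≤ ENNReal.ofReal (8 * K * Real.exp E / (s - E) ^ 2) := by
  have hs0 : 0 < s := by linarith
  have h1 : poin X N s = ∑' m : ℕ, ∑' g : {g : X // ⌊Real.log (N g)⌋₊ = m},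
      ENNReal.ofReal ((N (g.1 : Γ)) ^ (-s)) := by
    unfold poin
    rw [← (Equiv.sigmaFiberEquiv (fun g : X => ⌊Real.log (N g)⌋₊)).tsum_eq, ENNReal.tsum_sigma']
    rfl
  obtain ⟨hsum, hle⟩ := pm_GrowE_series (x := s - E) (by linarith) (by linarith)
  rw [h1]
  have h2 : ∀ m : ℕ, ∑' g : {g : X // ⌊Real.log (N g)⌋₊ = m},
      ENNReal.ofReal ((N (g.1 : Γ)) ^ (-s)) ≤
      ENNReal.ofReal (2 * K * Real.exp E * (((m : ℝ) + 1) * Real.exp (-(s - E)) ^ m)) := by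
    intro m
    refine (pm_GrowE_slice H hf hs0 m).trans (ENNReal.ofReal_le_ofReal ?_)
    have h3 := hb ((m : ℝ) + 1) (by positivity)
    have h4 : Real.exp (-(s - E)) ^ m * Real.exp E = Real.exp (E * (m + 1)) * Real.exp (-(s * m)) := by
      rw [← Real.exp_nat_mul, ← Real.exp_add, ← Real.exp_add]
      congr 1
      ring
    calc ((nX X N ((m : ℝ) + 1)).ncard : ℝ) * Real.exp (-(s * m))
        ≤ K * (1 + ((m : ℝ) + 1)) * Real.exp (E * ((m : ℝ) + 1)) * Real.exp (-(s * m)) :=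
          mul_le_mul_of_nonneg_right h3 (Real.exp_pos _).le
      _ = K * (1 + ((m : ℝ) + 1)) * (Real.exp (-(s - E)) ^ m * Real.exp E) := by
          rw [h4]; ring
      _ ≤ K * (2 * ((m : ℝ) + 1)) * (Real.exp (-(s - E)) ^ m * Real.exp E) := by
          refine mul_le_mul_of_nonneg_right ?_ (by positivity)
          refine mul_le_mul_of_nonneg_left ?_ hK
          have : (0 : ℝ) ≤ m := Nat.cast_nonneg m
          linarith
      _ = 2 * K * Real.exp E * (((m : ℝ) + 1) * Real.exp (-(s - E)) ^ m) := by ring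
  refine (ENNReal.tsum_le_tsum h2).trans ?_
  rw [← ENNReal.ofReal_tsum_of_nonneg (fun m => by positivity) (hsum.mul_left _), tsum_mul_left]
  refine ENNReal.ofReal_le_ofReal ?_
  calc 2 * K * Real.exp E * ∑' m : ℕ, ((m : ℝ) + 1) * Real.exp (-(s - E)) ^ m
      ≤ 2 * K * Real.exp E * (4 / (s - E) ^ 2) := mul_le_mul_of_nonneg_left hle (by positivity)
    _ = 8 * K * Real.exp E / (s - E) ^ 2 := by ring

private theorem pm_GrowE_poin_anti {ρ₀ : Γ →* SL(2, ℝ)} {α β : Γ} {c : ℝ} {X : Subgroup Γ}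
    {N : Γ → ℝ} (H : IsSize ρ₀ α β c X N) {s t : ℝ} (hst : s ≤ t) : poin X N t ≤ poin X N s := by
  unfold poin
  refine ENNReal.tsum_le_tsum fun g => ENNReal.ofReal_le_ofReal ?_
  exact Real.rpow_le_rpow_of_exponent_le (H.one_le _ g.2) (by linarith)

/-- the growth theorem, with constants depending only on `ρ₀, α, β, c` -/
theorem growth (ρ₀ : Γ →* SL(2, ℝ)) (α β : Γ)
    (hfin : ∀ C : ℝ, {γ : Γ | nrm2 (ρ₀ γ : Matrix (Fin 2) (Fin 2) ℝ) ≤ C}.Finite)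
    (hα : 2 < |(ρ₀ α : Matrix (Fin 2) (Fin 2) ℝ).trace|)
    (hβ : 2 < |(ρ₀ β : Matrix (Fin 2) (Fin 2) ℝ).trace|)
    (hαβ : ((ρ₀ (α * β * α⁻¹ * β⁻¹)) : Matrix (Fin 2) (Fin 2) ℝ).trace ≠ 2) (c : ℝ) :
    ∃ C > 0, ∀ (X : Subgroup Γ) (N : Γ → ℝ), IsSize ρ₀ α β c X N →
      0 ≤ expo X N ∧ expo X N ≤ C ∧
      (∀ T, (nX X N T).Finite) ∧
      Tendsto (fun T : ℝ => Real.log ((nX X N T).ncard) / T) atTop (𝓝 (expo X N)) ∧
      (∀ T, 0 ≤ T → ((nX X N T).ncard : ℝ) ≤ C * (1 + T) * Real.exp (expo X N * T)) ∧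
      (∀ T, 0 ≤ T → ((nX X N T).ncard : ℝ) ≤ C * (1 + T) * ((nC X N (T + C)).ncard + 1)) ∧
      (∀ s, expo X N < s → s ≤ expo X N + 1 →
        poin X N s ≤ ENNReal.ofReal (C / (s - expo X N) ^ 2)) ∧
      (∀ s, poin X N s = ⊤ → s ≤ expo X N) := by
  by_cases hc : 1 ≤ c
  swap
  · exact ⟨1, one_pos, fun X N H => absurd (pm_GrowE_c H) hc⟩
  obtain ⟨G, n, hGn⟩ := connectors hα hβ (by
    have h1 : ρ₀ (α * β * α⁻¹ * β⁻¹) = ρ₀ α * ρ₀ β * (ρ₀ α)⁻¹ * (ρ₀ β)⁻¹ := by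
      simp only [map_mul, map_inv]
    rwa [h1] at hαβ)
  have hG : ∀ g : Γ, ∃ b : Bool × Bool, pm_GrowE_phi α β n b g ∈ SG ρ₀ G := by
    intro g
    obtain ⟨i, j, hi, hj, s, hs, hbal⟩ := hGn (ρ₀ g)
    refine ⟨(decide (i = 1), decide (j = 1)), s, hs, ?_⟩
    have h1 : ρ₀ (pm_GrowE_phi α β n (decide (i = 1), decide (j = 1)) g) =
        ρ₀ α ^ n * ρ₀ β ^ (i * n) * ρ₀ g * ρ₀ β ^ (j * n) * ρ₀ α ^ n := by
      unfold pm_GrowE_phi
      rcases hi with rfl | rfl <;> rcases hj with rfl | rfl <;>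
        simp [map_mul, map_pow, map_inv]
    rw [h1]
    exact hbal
  obtain ⟨Cp, hCp, hp2⟩ := packing_two ρ₀ G hfin
  obtain ⟨C1, hC1, hp1⟩ := packing_one ρ₀ G hfin
  obtain ⟨Cg, hCg, hpg⟩ := poly_growth ρ₀ hfin
  have hlogc : 0 ≤ Real.log c := Real.log_nonneg hc
  obtain ⟨L, hL⟩ : ∃ L : ℝ, L = 4 * (n + 2) * Real.log c := ⟨_, rfl⟩
  have hL0 : 0 ≤ L := by rw [hL]; positivity
  obtain ⟨c', hc'⟩ : ∃ c' : ℝ, c' = 1 + Cp * (1 + c) + Cg * Real.exp (8 * c) + 8 * c := ⟨_, rfl⟩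
  have hp_a : 0 ≤ Cp * (1 + c) := by positivity
  have hp_b : 0 ≤ Cg * Real.exp (8 * c) := by positivity
  have hc'1 : 1 ≤ c' := by rw [hc']; linarith
  have hc'2 : Cp * (1 + c) ≤ c' := by rw [hc']; linarith
  have hc'3 : Cg * Real.exp (8 * c) ≤ c' := by rw [hc']; linarith
  have hc'4 : 8 * c ≤ c' := by rw [hc']; linarith
  obtain ⟨CF, hCF, hfek⟩ := fekete_log (c := c') (T₀ := 2 * Real.log c + L) hc'1 (by linarith)
  obtain ⟨K, hK⟩ : ∃ K : ℝ, K = 4 * CF * (1 + L) * Real.exp (c' * L) := ⟨_, rfl⟩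
  obtain ⟨K6, hK6⟩ : ∃ K : ℝ, K = 4 * C1 * (1 + c) * (1 + L) := ⟨_, rfl⟩
  have hK0 : 0 ≤ K := by rw [hK]; positivity
  have hK60 : 0 ≤ K6 := by rw [hK6]; positivity
  have hK70 : 0 ≤ 8 * K * Real.exp c' := by positivity
  obtain ⟨C, hC⟩ : ∃ C : ℝ, C = c' + L + K + K6 + 8 * K * Real.exp c' := ⟨_, rfl⟩
  have hCc' : c' ≤ C := by rw [hC]; linarith
  have hCL : L ≤ C := by rw [hC]; linarith
  have hCK : K ≤ C := by rw [hC]; linarith
  have hCK6 : K6 ≤ C := by rw [hC]; linarith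
  have hCK7 : 8 * K * Real.exp c' ≤ C := by rw [hC]; linarith
  refine ⟨C, by linarith, fun X N H => ?_⟩
  have hnf : ∀ T, (nX X N T).Finite := pm_GrowE_fin hfin H
  have hAf : ∀ T, (SG ρ₀ G ∩ nX X N T).Finite := fun T => (hnf T).subset Set.inter_subset_right
  have hAn : ∀ T, ((SG ρ₀ G ∩ nX X N T).ncard : ℝ) ≤ ((nX X N T).ncard : ℝ) := fun T => by
    exact_mod_cast Set.ncard_le_ncard Set.inter_subset_right (hnf T)
  have hfour : ∀ T, ((nX X N T).ncard : ℝ) ≤ 4 * ((SG ρ₀ G ∩ nX X N (T + L)).ncard : ℝ) := by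
    intro T
    rw [hL]
    exact pm_GrowE_four hfin hG H T
  have hone : ∀ T, 2 * Real.log c + L ≤ T → 1 ≤ ((SG ρ₀ G ∩ nX X N T).ncard : ℝ) := by
    intro T hT
    rw [hL] at hT
    exact pm_GrowE_ge_one hfin hG H hT
  obtain ⟨E, hE0, hEc, hElim, hEb⟩ := hfek (fun T : ℝ => ((SG ρ₀ G ∩ nX X N T).ncard : ℝ))
    (pm_GrowE_mono hfin H) (fun T => Nat.cast_nonneg _) hone (fun S T hS hT => by
      refine (pm_GrowE_mul hCp hfin hp2 H hS hT).trans ?_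
      refine mul_le_mul_of_nonneg_right ?_ (Nat.cast_nonneg _)
      have h1 : 1 + c * (1 + (S + T)) ≤ (1 + c) * (1 + S + T) := by nlinarith
      calc Cp * (1 + c * (1 + (S + T))) ≤ Cp * ((1 + c) * (1 + S + T)) :=
            mul_le_mul_of_nonneg_left h1 hCp.le
        _ = Cp * (1 + c) * (1 + S + T) := by ring
        _ ≤ c' * (1 + S + T) := mul_le_mul_of_nonneg_right hc'2 (by linarith)) (fun T hT => by
      refine (hAn T).trans ((pm_GrowE_apriori hfin hpg H hT).trans ?_)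
      refine mul_le_mul hc'3 (Real.exp_le_exp.2 ?_) (Real.exp_pos _).le (by linarith)
      exact mul_le_mul_of_nonneg_right hc'4 hT)
  have hlim : Tendsto (fun T : ℝ => Real.log ((nX X N T).ncard) / T) atTop (𝓝 E) :=
    pm_GrowE_squeeze (A := fun T : ℝ => ((SG ρ₀ G ∩ nX X N T).ncard : ℝ))
      (n := fun T : ℝ => ((nX X N T).ncard : ℝ)) hL0 hAn hfour hone hElim
  have hexpo : expo X N = E := hlim.limsup_eq
  rw [hexpo]
  have hb : ∀ T, 0 ≤ T → ((nX X N T).ncard : ℝ) ≤ K * (1 + T) * Real.exp (E * T) := by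
    intro T hT
    have h1 := hEb (T + L) (by linarith)
    have h2 : (1 + (T + L)) ≤ (1 + L) * (1 + T) := by nlinarith
    have h3 : Real.exp (E * (T + L)) ≤ Real.exp (c' * L) * Real.exp (E * T) := by
      rw [← Real.exp_add]
      refine Real.exp_le_exp.2 ?_
      nlinarith
    calc ((nX X N T).ncard : ℝ) ≤ 4 * ((SG ρ₀ G ∩ nX X N (T + L)).ncard : ℝ) := hfour T
      _ ≤ 4 * (CF * (1 + (T + L)) * Real.exp (E * (T + L))) := by linarith
      _ ≤ 4 * (CF * ((1 + L) * (1 + T)) * (Real.exp (c' * L) * Real.exp (E * T))) := by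
          refine mul_le_mul_of_nonneg_left ?_ (by norm_num)
          refine mul_le_mul ?_ h3 (Real.exp_pos _).le (by positivity)
          exact mul_le_mul_of_nonneg_left h2 hCF.le
      _ = K * (1 + T) * Real.exp (E * T) := by rw [hK]; ring
  have hpoin : ∀ s, E < s → s ≤ E + 1 → poin X N s ≤ ENNReal.ofReal (C / (s - E) ^ 2) := by
    intro s hs hs1
    refine (pm_GrowE_poin H hnf hK0 hE0 hb hs hs1).trans (ENNReal.ofReal_le_ofReal ?_)
    refine div_le_div_of_nonneg_right ?_ (sq_nonneg _)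
    refine le_trans ?_ hCK7
    exact mul_le_mul_of_nonneg_left (Real.exp_le_exp.2 hEc) (by positivity)
  refine ⟨hE0, hEc.trans hCc', hnf, hlim, fun T hT => ?_, fun T hT => ?_, hpoin, fun s hs => ?_⟩
  · refine (hb T hT).trans ?_
    refine mul_le_mul_of_nonneg_right ?_ (Real.exp_pos _).le
    exact mul_le_mul_of_nonneg_right hCK (by linarith)
  · have h1 := pm_GrowE_classes hC1 hfin hp1 H (T := T + L) (by linarith)
    have h2 : 1 + c * (1 + (T + L)) ≤ (1 + c) * ((1 + L) * (1 + T)) := by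
      have h3 : (1 + (T + L)) ≤ (1 + L) * (1 + T) := by nlinarith
      have h4 : 1 + c * (1 + (T + L)) ≤ (1 + c) * (1 + (T + L)) := by nlinarith
      exact h4.trans (mul_le_mul_of_nonneg_left h3 (by linarith))
    have h5 : nC X N (T + L) ⊆ nC X N (T + C) := by
      rintro κ ⟨h6, g, hg, h7⟩
      exact ⟨h6, g, ⟨hg.1, hg.2.trans (Real.exp_le_exp.2 (by linarith))⟩, h7⟩
    have h6 : (nC X N (T + C)).Finite := by
      refine ((hnf (T + C)).image ConjClasses.mk).subset ?_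
      rintro κ ⟨-, g, hg, rfl⟩
      exact ⟨g, hg, rfl⟩
    have h7 : ((nC X N (T + L)).ncard : ℝ) ≤ ((nC X N (T + C)).ncard : ℝ) := by
      exact_mod_cast Set.ncard_le_ncard h5 h6
    calc ((nX X N T).ncard : ℝ) ≤ 4 * ((SG ρ₀ G ∩ nX X N (T + L)).ncard : ℝ) := hfour T
      _ ≤ 4 * (C1 * (1 + c * (1 + (T + L))) * (nC X N (T + L)).ncard) := by linarith
      _ ≤ 4 * (C1 * ((1 + c) * ((1 + L) * (1 + T))) * ((nC X N (T + C)).ncard + 1)) := by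
          refine mul_le_mul_of_nonneg_left ?_ (by norm_num)
          refine mul_le_mul (mul_le_mul_of_nonneg_left h2 hC1.le) (by linarith)
            (Nat.cast_nonneg _) (by positivity)
      _ = K6 * (1 + T) * ((nC X N (T + C)).ncard + 1) := by rw [hK6]; ring
      _ ≤ C * (1 + T) * ((nC X N (T + C)).ncard + 1) := by
          refine mul_le_mul_of_nonneg_right ?_ (by positivity)
          exact mul_le_mul_of_nonneg_right hCK6 (by linarith)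
  · by_contra hlt
    rw [not_le] at hlt
    have h1 : poin X N s < ⊤ := by
      rcases le_or_gt s (E + 1) with h2 | h2
      · exact (hpoin s hlt h2).trans_lt ENNReal.ofReal_lt_top
      · exact (pm_GrowE_poin_anti H h2.le).trans_lt
          ((hpoin (E + 1) (by linarith) le_rfl).trans_lt ENNReal.ofReal_lt_top)
    exact h1.ne hs

end PM3
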