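import Pool.Agent.LibPM3.MatB

/-! [PM3 M3] regularity of the spectral radius of a cyclic product along a one-parameter deformation of the
diagonals. -/

namespace PM3
open Matrix Filter Topology

/-- `D(t) = d e^{t h}` -/
noncomputable def expd (d h : Fin 3 → ℝ) (t : ℝ) : Fin 3 → ℝ := fun i => d i * Real.exp (t * h i)

/-- the deformed cyclic product; an item is `(d, h, B)` -/
noncomputable def defL (l : List ((Fin 3 → ℝ) × (Fin 3 → ℝ) × M3)) (t : ℝ) : M3 :=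
  prodL (l.map (fun x => (expd x.1 x.2.1 t, x.2.2)))

open Classical in
/-- number of deformed items -/
noncomputable def cntH (l : List ((Fin 3 → ℝ) × (Fin 3 → ℝ) × M3)) : ℕ :=
  (l.filter (fun x => x.2.1 ≠ 0)).length

/-- items are admissible: positive diagonals, `|h| ≤ H`, balanced matrices -/
def AdmL (K H : ℝ) (l : List ((Fin 3 → ℝ) × (Fin 3 → ℝ) × M3)) : Prop :=
  ∀ x ∈ l, (∀ i, 0 < x.1 i) ∧ (∀ i, |x.2.1 i| ≤ H) ∧
    (∀ i j, 0 < x.2.2 i j) ∧ (∀ i i' j, x.2.2 i j ≤ K * x.2.2 i' j) ∧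
    (∀ i j j', x.2.2 i j ≤ K * x.2.2 i j')

private theorem pm_MatC1_lam_smul {c : ℝ} (hc : 0 ≤ c) (A : M3) : lam (c • A) = c * lam A := by
  have h1 := lam_tendsto (c • A)
  have h2 := (lam_tendsto A).const_mul c
  refine tendsto_nhds_unique (h1.congr' ?_) h2
  filter_upwards [eventually_ge_atTop 1] with n hn
  have hn' : (n : ℝ) ≠ 0 := by exact_mod_cast (by omega : n ≠ 0)
  have e : nrm ((c • A) ^ n) = c ^ n * nrm (A ^ n) := by
    rw [smul_pow]
    simp only [nrm, Matrix.smul_apply, smul_eq_mul, abs_mul, abs_of_nonneg (pow_nonneg hc n),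
      Finset.mul_sum]
  rw [e, Real.mul_rpow (pow_nonneg hc n) (nrm_nonneg _), ← Real.rpow_natCast, ← Real.rpow_mul hc,
    mul_one_div_cancel hn', Real.rpow_one]

private theorem pm_MatC1_cons (x : (Fin 3 → ℝ) × (Fin 3 → ℝ) × M3)
    (l : List ((Fin 3 → ℝ) × (Fin 3 → ℝ) × M3)) (t : ℝ) (i j : Fin 3) :
    defL (x :: l) t i j = x.1 i * Real.exp (t * x.2.1 i) * ∑ k, x.2.2 i k * defL l t k j := by
  have e : defL (x :: l) t = diagonal (expd x.1 x.2.1 t) * (x.2.2 * defL l t) := by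
    simp only [defL, prodL, List.map_cons, List.prod_cons, Matrix.mul_assoc]
  rw [e, Matrix.diagonal_mul, Matrix.mul_apply]
  rfl

private theorem pm_MatC1_pos {K H : ℝ} (l : List ((Fin 3 → ℝ) × (Fin 3 → ℝ) × M3))
    (hl : AdmL K H l) (t : ℝ) : (∀ i j, 0 ≤ defL l t i j) ∧ (∀ j, 0 < defL l t j j) ∧
      (l ≠ [] → ∀ i j, 0 < defL l t i j) := by
  induction l with
  | nil =>
    have e : defL [] t = 1 := by simp [defL, prodL]
    rw [e]
    refine ⟨fun i j => ?_, fun j => ?_, fun h => absurd rfl h⟩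
    · rw [Matrix.one_apply]
      split_ifs <;> norm_num
    · rw [Matrix.one_apply_eq]
      norm_num
  | cons x l ih =>
    have hx := hl x (by simp)
    have hl' : AdmL K H l := fun y hy => hl y (by simp [hy])
    obtain ⟨i1, i2, i3⟩ := ih hl'
    have key : ∀ i j, 0 < defL (x :: l) t i j := by
      intro i j
      rw [pm_MatC1_cons]
      refine mul_pos (mul_pos (hx.1 i) (Real.exp_pos _)) ?_
      refine lt_of_lt_of_le (mul_pos (hx.2.2.1 i j) (i2 j)) ?_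
      exact Finset.single_le_sum (f := fun k => x.2.2 i k * defL l t k j)
        (fun k _ => mul_nonneg (hx.2.2.1 i k).le (i1 k j)) (Finset.mem_univ j)
    exact ⟨fun i j => (key i j).le, fun j => key j j, fun _ => key⟩

private theorem pm_MatC1_le {K H : ℝ} (l : List ((Fin 3 → ℝ) × (Fin 3 → ℝ) × M3))
    (hl : AdmL K H l) (s t : ℝ) (i j : Fin 3) :
    defL l s i j ≤ Real.exp (H * cntH l * |s - t|) * defL l t i j := by
  induction l generalizing i with
  | nil =>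
    have e : ∀ t, defL [] t = 1 := by intro t; simp [defL, prodL]
    rw [e, e]
    simp [cntH]
  | cons x l ih =>
    have hx := hl x (by simp)
    have hl' : AdmL K H l := fun y hy => hl y (by simp [hy])
    have ih' := ih hl'
    rw [pm_MatC1_cons, pm_MatC1_cons]
    have hsum : ∑ k, x.2.2 i k * defL l s k j ≤
        Real.exp (H * cntH l * |s - t|) * ∑ k, x.2.2 i k * defL l t k j := by
      rw [Finset.mul_sum]
      refine Finset.sum_le_sum fun k _ => ?_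
      have := mul_le_mul_of_nonneg_left (ih' k) (hx.2.2.1 i k).le
      linarith
    have hs0 : 0 ≤ ∑ k, x.2.2 i k * defL l s k j :=
      Finset.sum_nonneg fun k _ => mul_nonneg (hx.2.2.1 i k).le ((pm_MatC1_pos l hl' s).1 k j)
    have ht0 : 0 ≤ ∑ k, x.2.2 i k * defL l t k j :=
      Finset.sum_nonneg fun k _ => mul_nonneg (hx.2.2.1 i k).le ((pm_MatC1_pos l hl' t).1 k j)
    by_cases h0 : x.2.1 = 0
    · have hc : cntH (x :: l) = cntH l := by simp [cntH, h0]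
      rw [hc]
      have e0 : ∀ t, Real.exp (t * x.2.1 i) = 1 := by intro t; rw [h0]; simp
      rw [e0, e0, mul_one]
      have := mul_le_mul_of_nonneg_left hsum (hx.1 i).le
      linarith
    · have hc : cntH (x :: l) = cntH l + 1 := by simp [cntH, h0]
      rw [hc]
      have e1 : Real.exp (s * x.2.1 i) ≤ Real.exp (H * |s - t|) * Real.exp (t * x.2.1 i) := by
        rw [← Real.exp_add]
        refine Real.exp_le_exp.2 ?_
        have h1 : (s - t) * x.2.1 i ≤ |s - t| * H := by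
          refine (le_abs_self _).trans ?_
          rw [abs_mul]
          exact mul_le_mul_of_nonneg_left (hx.2.1 i) (abs_nonneg _)
        linarith
      have e2 : Real.exp (H * ((cntH l + 1 : ℕ) : ℝ) * |s - t|) =
          Real.exp (H * |s - t|) * Real.exp (H * cntH l * |s - t|) := by
        rw [← Real.exp_add]
        congr 1
        push_cast
        ring
      rw [e2]
      have h2 : x.1 i * Real.exp (s * x.2.1 i) ≤
          x.1 i * (Real.exp (H * |s - t|) * Real.exp (t * x.2.1 i)) :=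
        mul_le_mul_of_nonneg_left e1 (hx.1 i).le
      calc x.1 i * Real.exp (s * x.2.1 i) * ∑ k, x.2.2 i k * defL l s k j
          ≤ x.1 i * (Real.exp (H * |s - t|) * Real.exp (t * x.2.1 i)) *
            (Real.exp (H * cntH l * |s - t|) * ∑ k, x.2.2 i k * defL l t k j) :=
            mul_le_mul h2 hsum hs0 (mul_nonneg (hx.1 i).le (by positivity))
        _ = _ := by ring

private theorem pm_MatC1_half {K H : ℝ} (l : List ((Fin 3 → ℝ) × (Fin 3 → ℝ) × M3)) (hne : l ≠ [])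
    (hl : AdmL K H l) (s t : ℝ) :
    Real.log (lam (defL l s)) - Real.log (lam (defL l t)) ≤ H * cntH l * |s - t| := by
  have ps := pm_MatC1_pos l hl s
  have pt := pm_MatC1_pos l hl t
  have ls : 0 < lam (defL l s) := (ps.2.1 0).trans_le (diag_le_lam ps.1 0)
  have lt : 0 < lam (defL l t) := (pt.2.1 0).trans_le (diag_le_lam pt.1 0)
  have h1 : lam (defL l s) ≤ Real.exp (H * cntH l * |s - t|) * lam (defL l t) := by
    rw [← pm_MatC1_lam_smul (Real.exp_pos _).le]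
    exact lam_mono ps.1 (fun i j => pm_MatC1_le l hl s t i j)
  have h2 := Real.log_le_log ls h1
  rw [Real.log_mul (Real.exp_pos _).ne' lt.ne', Real.log_exp] at h2
  linarith

theorem log_lam_lip {K H : ℝ} (l : List ((Fin 3 → ℝ) × (Fin 3 → ℝ) × M3)) (hne : l ≠ [])
    (hl : AdmL K H l) (s t : ℝ) :
    |Real.log (lam (defL l s)) - Real.log (lam (defL l t))| ≤ H * cntH l * |s - t| := by
  rw [abs_sub_le_iff]
  refine ⟨pm_MatC1_half l hne hl s t, ?_⟩
  rw [abs_sub_comm s t]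
  exact pm_MatC1_half l hne hl t s

/-- the state of the comparison of three positive vectors -/
structure pm_MatC2_St (b δ : ℝ) (x y z : Fin 3 → ℝ) : Prop where
  xp : ∀ i, 0 < x i
  yp : ∀ i, 0 < y i
  zp : ∀ i, 0 < z i
  osc : ∀ i j, x i * z j ≤ Real.exp δ * (x j * z i)
  bd : ∀ i, x i * y i ≤ Real.exp b * (z i * z i)

theorem pm_MatC2_mulVec_pos {B : M3} (hB : ∀ i j, 0 < B i j) {x : Fin 3 → ℝ} (hx : ∀ i, 0 < x i)
    (i : Fin 3) : 0 < (B *ᵥ x) i := by
  rw [Matrix.mulVec, dotProduct]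
  exact Finset.sum_pos (fun j _ => mul_pos (hB i j) (hx j)) ⟨0, Finset.mem_univ _⟩

/-- the smallest ratio -/
theorem pm_MatC2_min {δ : ℝ} {x z : Fin 3 → ℝ} (hx : ∀ i, 0 < x i) (hz : ∀ i, 0 < z i)
    (h : ∀ i j, x i * z j ≤ Real.exp δ * (x j * z i)) :
    ∃ m : ℝ, 0 < m ∧ ∀ i, m * z i ≤ x i ∧ x i ≤ Real.exp δ * m * z i := by
  obtain ⟨k, hk⟩ := Finite.exists_min (fun i : Fin 3 => x i / z i)
  refine ⟨x k / z k, div_pos (hx k) (hz k), fun i => ⟨?_, ?_⟩⟩
  · have := hk i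
    rwa [le_div_iff₀ (hz i)] at this
  · have h1 := h i k
    rw [mul_assoc, div_mul_eq_mul_div, mul_div_assoc', le_div_iff₀ (hz k)]
    exact h1

/-- convexity of the exponential function -/
theorem pm_MatC2_exp {κ δ : ℝ} (h0 : 0 ≤ κ) (h1 : κ ≤ 1) :
    Real.exp (-((1 - κ) * δ)) ≤ κ + (1 - κ) * Real.exp (-δ) := by
  have h := convexOn_exp.2 (Set.mem_univ (0 : ℝ)) (Set.mem_univ (-δ)) h0 (sub_nonneg.2 h1)
    (by ring)
  simp only [smul_eq_mul, mul_zero, zero_add, Real.exp_zero, mul_one] at h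
  rwa [mul_neg] at h

/-- a positive matrix contracts the oscillation -/
theorem pm_MatC2_contract {K δ : ℝ} (hK : 1 ≤ K) {B : M3} (hB : ∀ i j, 0 < B i j)
    (hr : ∀ i i' j, B i j ≤ K * B i' j) {x z : Fin 3 → ℝ} (hx : ∀ i, 0 < x i) (hz : ∀ i, 0 < z i)
    (h : ∀ i j, x i * z j ≤ Real.exp δ * (x j * z i)) (i j : Fin 3) :
    (B *ᵥ x) i * (B *ᵥ z) j ≤ Real.exp ((1 - (K ^ 2)⁻¹) * δ) * ((B *ᵥ x) j * (B *ᵥ z) i) := by
  obtain ⟨m, hm, hmx⟩ := pm_MatC2_min hx hz h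
  have hK2 : (0 : ℝ) < K ^ 2 := by positivity
  set κ : ℝ := (K ^ 2)⁻¹ with hκ
  have hκ0 : 0 < κ := inv_pos.2 hK2
  have hκ1 : κ ≤ 1 := inv_le_one_of_one_le₀ (one_le_pow₀ hK)
  have hX := pm_MatC2_mulVec_pos hB hx
  have hZ := pm_MatC2_mulVec_pos hB hz
  -- comparison of the weights
  have hzz : ∀ i j, (B *ᵥ z) i ≤ K * (B *ᵥ z) j := by
    intro i j
    rw [Matrix.mulVec, Matrix.mulVec, dotProduct, dotProduct, Finset.mul_sum]
    refine Finset.sum_le_sum fun k _ => ?_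
    rw [← mul_assoc]
    exact mul_le_mul_of_nonneg_right (hr i j k) (hz k).le
  have hw : ∀ k, κ * (B i k * (B *ᵥ z) j) ≤ B j k * (B *ᵥ z) i := by
    intro k
    have h1 : B i k * (B *ᵥ z) j ≤ (K * B j k) * (K * (B *ᵥ z) i) :=
      mul_le_mul (hr i j k) (hzz j i) (hZ j).le (mul_nonneg (by linarith) (hB j k).le)
    have h2 : κ * (B i k * (B *ᵥ z) j) ≤ κ * ((K * B j k) * (K * (B *ᵥ z) i)) :=
      mul_le_mul_of_nonneg_left h1 hκ0.le
    have h3 : κ * ((K * B j k) * (K * (B *ᵥ z) i)) = (κ * K ^ 2) * (B j k * (B *ᵥ z) i) := by ring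
    have h4 : κ * K ^ 2 = 1 := inv_mul_cancel₀ hK2.ne'
    rw [h3, h4, one_mul] at h2
    exact h2
  -- lower bound
  have h1 : κ * ((B *ᵥ x) i * (B *ᵥ z) j) + (1 - κ) * m * ((B *ᵥ z) i * (B *ᵥ z) j) ≤
      (B *ᵥ x) j * (B *ᵥ z) i := by
    have h2 : ∑ k, (B j k * (B *ᵥ z) i - κ * (B i k * (B *ᵥ z) j)) * (m * z k) ≤
        ∑ k, (B j k * (B *ᵥ z) i - κ * (B i k * (B *ᵥ z) j)) * x k :=
      Finset.sum_le_sum fun k _ => mul_le_mul_of_nonneg_left (hmx k).1 (sub_nonneg.2 (hw k))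
    have h3 : ∀ v : Fin 3 → ℝ, ∑ k, (B j k * (B *ᵥ z) i - κ * (B i k * (B *ᵥ z) j)) * v k =
        (B *ᵥ v) j * (B *ᵥ z) i - κ * ((B *ᵥ v) i * (B *ᵥ z) j) := by
      intro v
      have h4 : (B *ᵥ v) j = ∑ k, B j k * v k := rfl
      have h5 : (B *ᵥ v) i = ∑ k, B i k * v k := rfl
      rw [h4, h5, Finset.sum_mul, Finset.sum_mul, Finset.mul_sum, ← Finset.sum_sub_distrib]
      refine Finset.sum_congr rfl fun k _ => ?_
      ring
    have h4 : ∑ k, (B j k * (B *ᵥ z) i - κ * (B i k * (B *ᵥ z) j)) * (m * z k) =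
        m * ∑ k, (B j k * (B *ᵥ z) i - κ * (B i k * (B *ᵥ z) j)) * z k := by
      rw [Finset.mul_sum]
      refine Finset.sum_congr rfl fun k _ => ?_
      ring
    rw [h4, h3, h3] at h2
    nlinarith [h2]
  -- upper bound
  have h2 : (B *ᵥ x) i ≤ Real.exp δ * m * (B *ᵥ z) i := by
    rw [Matrix.mulVec, Matrix.mulVec, dotProduct, dotProduct, Finset.mul_sum]
    refine Finset.sum_le_sum fun k _ => ?_
    have := mul_le_mul_of_nonneg_left (hmx k).2 (hB i k).le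
    linarith [this, mul_comm (B i k) (Real.exp δ * m * z k)]
  have h3 : Real.exp (-δ) * (B *ᵥ x) i ≤ m * (B *ᵥ z) i := by
    have h4 := mul_le_mul_of_nonneg_left h2 (Real.exp_pos (-δ)).le
    have h5 : Real.exp (-δ) * (Real.exp δ * m * (B *ᵥ z) i) = m * (B *ᵥ z) i := by
      rw [← mul_assoc, ← mul_assoc, ← Real.exp_add]
      simp
    rwa [h5] at h4
  have h4 : (κ + (1 - κ) * Real.exp (-δ)) * ((B *ᵥ x) i * (B *ᵥ z) j) ≤
      (B *ᵥ x) j * (B *ᵥ z) i := by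
    refine le_trans ?_ h1
    have h5 : (1 - κ) * (Real.exp (-δ) * (B *ᵥ x) i) * (B *ᵥ z) j ≤
        (1 - κ) * (m * (B *ᵥ z) i) * (B *ᵥ z) j :=
      mul_le_mul_of_nonneg_right (mul_le_mul_of_nonneg_left h3 (sub_nonneg.2 hκ1)) (hZ j).le
    nlinarith [h5]
  have h5 : Real.exp (-((1 - κ) * δ)) * ((B *ᵥ x) i * (B *ᵥ z) j) ≤ (B *ᵥ x) j * (B *ᵥ z) i :=
    le_trans (mul_le_mul_of_nonneg_right (pm_MatC2_exp hκ0.le hκ1)
      (mul_nonneg (hX i).le (hZ j).le)) h4
  have h6 := mul_le_mul_of_nonneg_left h5 (Real.exp_pos ((1 - κ) * δ)).le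
  rw [← mul_assoc, ← Real.exp_add] at h6
  simpa using h6

/-- the Kantorovich inequality -/
theorem pm_MatC2_kant {δ m : ℝ} (hm : 0 < m) {w x z : Fin 3 → ℝ} (hw : ∀ i, 0 < w i)
    (hx : ∀ i, 0 < x i) (hz : ∀ i, 0 < z i)
    (h : ∀ i, m * z i ≤ x i ∧ x i ≤ Real.exp δ * m * z i) :
    (∑ i, w i * x i) * (∑ i, w i * (z i * z i / x i)) ≤
      Real.exp (δ ^ 2 / 4) * ((∑ i, w i * z i) * (∑ i, w i * z i)) := by
  set e := Real.exp δ with he
  have he0 : 0 < e := Real.exp_pos δ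
  have h1 : (∑ i, w i * x i) + e * m ^ 2 * (∑ i, w i * (z i * z i / x i)) ≤
      (1 + e) * m * ∑ i, w i * z i := by
    rw [Finset.mul_sum, Finset.mul_sum, ← Finset.sum_add_distrib]
    refine Finset.sum_le_sum fun i _ => ?_
    have h2 : x i + e * m ^ 2 * (z i * z i / x i) ≤ (1 + e) * m * z i := by
      have h3 : 0 ≤ (x i - m * z i) * (e * m * z i - x i) :=
        mul_nonneg (sub_nonneg.2 (h i).1) (sub_nonneg.2 (h i).2)
      have h4 : x i + e * m ^ 2 * (z i * z i / x i) =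
          (x i * x i + e * m ^ 2 * (z i * z i)) / x i := by
        field_simp [(hx i).ne']
      rw [h4, div_le_iff₀ (hx i)]
      nlinarith [h3]
    have h5 := mul_le_mul_of_nonneg_left h2 (hw i).le
    nlinarith [h5]
  set P := ∑ i, w i * x i
  set Q := ∑ i, w i * (z i * z i / x i)
  set Z := ∑ i, w i * z i
  have hP : 0 < P := Finset.sum_pos (fun i _ => mul_pos (hw i) (hx i)) ⟨0, Finset.mem_univ _⟩
  have hQ : 0 < Q := Finset.sum_pos (fun i _ => mul_pos (hw i)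
    (div_pos (mul_pos (hz i) (hz i)) (hx i))) ⟨0, Finset.mem_univ _⟩
  have hZ : 0 < Z := Finset.sum_pos (fun i _ => mul_pos (hw i) (hz i)) ⟨0, Finset.mem_univ _⟩
  have h2 : 4 * (e * m ^ 2) * (P * Q) ≤ ((1 + e) * m * Z) ^ 2 := by
    have h3 : 0 ≤ P + e * m ^ 2 * Q := by positivity
    have h4 : (P + e * m ^ 2 * Q) ^ 2 ≤ ((1 + e) * m * Z) ^ 2 := pow_le_pow_left₀ h3 h1 2
    nlinarith [sq_nonneg (P - e * m ^ 2 * Q), h4]
  have h3 : (1 + e) ^ 2 ≤ 4 * e * Real.exp (δ ^ 2 / 4) := by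
    have h4 := Real.cosh_le_exp_half_sq (δ / 2)
    have h5 : Real.cosh (δ / 2) ^ 2 ≤ Real.exp ((δ / 2) ^ 2 / 2) ^ 2 :=
      pow_le_pow_left₀ (Real.cosh_pos _).le h4 2
    have h6 : Real.exp ((δ / 2) ^ 2 / 2) ^ 2 = Real.exp (δ ^ 2 / 4) := by
      rw [← Real.exp_nat_mul]
      congr 1
      push_cast
      ring
    have h7 : (1 + e) ^ 2 = 4 * e * Real.cosh (δ / 2) ^ 2 := by
      have h8 : e = Real.exp (δ / 2) ^ 2 := by
        rw [he, ← Real.exp_nat_mul]
        congr 1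
        push_cast
        ring
      have h9 : Real.exp (δ / 2) * Real.exp (-(δ / 2)) = 1 := by
        rw [← Real.exp_add]
        simp
      rw [Real.cosh_eq, h8]
      have h10 : 4 * Real.exp (δ / 2) ^ 2 *
          ((Real.exp (δ / 2) + Real.exp (-(δ / 2))) / 2) ^ 2 =
          (Real.exp (δ / 2) ^ 2 + Real.exp (δ / 2) * Real.exp (-(δ / 2))) ^ 2 := by ring
      rw [h10, h9]
      ring
    rw [h7, ← h6]
    exact mul_le_mul_of_nonneg_left h5 (by positivity)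
  have h4 : 4 * (e * m ^ 2) * (P * Q) ≤
      4 * (e * m ^ 2) * (Real.exp (δ ^ 2 / 4) * (Z * Z)) := by
    refine le_trans h2 ?_
    have h5 : ((1 + e) * m * Z) ^ 2 = (1 + e) ^ 2 * (m ^ 2 * Z ^ 2) := by ring
    rw [h5]
    have h6 := mul_le_mul_of_nonneg_right h3 (by positivity : (0 : ℝ) ≤ m ^ 2 * Z ^ 2)
    refine le_trans h6 (le_of_eq ?_)
    ring
  exact le_of_mul_le_mul_left h4 (by positivity)

theorem pm_MatC2_stepB {K b δ : ℝ} (hK : 1 ≤ K) {B : M3} (hB : ∀ i j, 0 < B i j)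
    (hr : ∀ i i' j, B i j ≤ K * B i' j) {x y z : Fin 3 → ℝ} (h : pm_MatC2_St b δ x y z) :
    pm_MatC2_St (b + δ ^ 2 / 4) ((1 - (K ^ 2)⁻¹) * δ) (B *ᵥ x) (B *ᵥ y) (B *ᵥ z) := by
  refine ⟨pm_MatC2_mulVec_pos hB h.xp, pm_MatC2_mulVec_pos hB h.yp, pm_MatC2_mulVec_pos hB h.zp,
    pm_MatC2_contract hK hB hr h.xp h.zp h.osc, fun i => ?_⟩
  obtain ⟨m, hm, hmx⟩ := pm_MatC2_min h.xp h.zp h.osc
  have h1 := pm_MatC2_kant hm (w := fun j => B i j) (fun j => hB i j) h.xp h.zp hmx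
  have h2 : (B *ᵥ y) i ≤ Real.exp b * ∑ j, B i j * (z j * z j / x j) := by
    rw [Matrix.mulVec, dotProduct, Finset.mul_sum]
    refine Finset.sum_le_sum fun j _ => ?_
    have h3 : y j ≤ Real.exp b * (z j * z j / x j) := by
      rw [← mul_div_assoc, le_div_iff₀ (h.xp j), mul_comm]
      exact h.bd j
    have h4 := mul_le_mul_of_nonneg_left h3 (hB i j).le
    linarith [h4]
  have hX := pm_MatC2_mulVec_pos hB h.xp i
  have h3 : (B *ᵥ x) i = ∑ j, B i j * x j := rfl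
  have h4 : (B *ᵥ z) i = ∑ j, B i j * z j := rfl
  calc (B *ᵥ x) i * (B *ᵥ y) i ≤ (B *ᵥ x) i * (Real.exp b * ∑ j, B i j * (z j * z j / x j)) :=
        mul_le_mul_of_nonneg_left h2 hX.le
    _ = Real.exp b * ((∑ j, B i j * x j) * ∑ j, B i j * (z j * z j / x j)) := by
        rw [h3]; ring
    _ ≤ Real.exp b * (Real.exp (δ ^ 2 / 4) * ((∑ j, B i j * z j) * (∑ j, B i j * z j))) :=
        mul_le_mul_of_nonneg_left h1 (Real.exp_pos b).le
    _ = Real.exp (b + δ ^ 2 / 4) * ((B *ᵥ z) i * (B *ᵥ z) i) := by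
        rw [h4, Real.exp_add]; ring

theorem pm_MatC2_stepD {b δ η t u : ℝ} {d h : Fin 3 → ℝ} (hd : ∀ i, 0 < d i)
    (hη : ∀ i j, u * h i ≤ η + u * h j) {x y z : Fin 3 → ℝ} (hS : pm_MatC2_St b δ x y z) :
    pm_MatC2_St b (δ + η) (fun i => expd d h (t + u) i * x i) (fun i => expd d h (t - u) i * y i)
      (fun i => expd d h t i * z i) := by
  have hp : ∀ s i, 0 < expd d h s i := fun s i => mul_pos (hd i) (Real.exp_pos _)
  refine ⟨fun i => mul_pos (hp _ i) (hS.xp i), fun i => mul_pos (hp _ i) (hS.yp i),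
    fun i => mul_pos (hp _ i) (hS.zp i), fun i j => ?_, fun i => ?_⟩
  · have h1 : expd d h (t + u) i * expd d h t j ≤
        Real.exp η * (expd d h (t + u) j * expd d h t i) := by
      unfold expd
      have h2 : d i * Real.exp ((t + u) * h i) * (d j * Real.exp (t * h j)) =
          d i * d j * Real.exp ((t + u) * h i + t * h j) := by
        rw [Real.exp_add]; ring
      have h3 : Real.exp η * (d j * Real.exp ((t + u) * h j) * (d i * Real.exp (t * h i))) =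
          d i * d j * Real.exp (η + ((t + u) * h j + t * h i)) := by
        rw [Real.exp_add, Real.exp_add]; ring
      rw [h2, h3]
      refine mul_le_mul_of_nonneg_left (Real.exp_le_exp.2 ?_) (mul_pos (hd i) (hd j)).le
      have := hη i j
      nlinarith [this]
    have h2 := mul_le_mul h1 (hS.osc i j) (mul_pos (hS.xp i) (hS.zp j)).le
      (mul_pos (Real.exp_pos η) (mul_pos (hp _ j) (hp _ i))).le
    have h3 : Real.exp (δ + η) = Real.exp η * Real.exp δ := by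
      rw [← Real.exp_add, add_comm]
    rw [h3]
    calc _ = expd d h (t + u) i * expd d h t j * (x i * z j) := by ring
      _ ≤ _ := h2
      _ = _ := by ring
  · have h1 : expd d h (t + u) i * expd d h (t - u) i = expd d h t i * expd d h t i := by
      unfold expd
      have h2 : Real.exp ((t + u) * h i) * Real.exp ((t - u) * h i) =
          Real.exp (t * h i) * Real.exp (t * h i) := by
        rw [← Real.exp_add, ← Real.exp_add]
        congr 1
        ring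
      calc _ = d i * d i * (Real.exp ((t + u) * h i) * Real.exp ((t - u) * h i)) := by ring
        _ = _ := by rw [h2]; ring
    have h2 := mul_le_mul_of_nonneg_left (hS.bd i) (mul_pos (hp t i) (hp t i)).le
    calc expd d h (t + u) i * x i * (expd d h (t - u) i * y i)
        = (expd d h (t + u) i * expd d h (t - u) i) * (x i * y i) := by ring
      _ = expd d h t i * expd d h t i * (x i * y i) := by rw [h1]
      _ ≤ expd d h t i * expd d h t i * (Real.exp b * (z i * z i)) := h2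
      _ = Real.exp b * (expd d h t i * z i * (expd d h t i * z i)) := by ring

theorem pm_MatC2_defL_cons (x : (Fin 3 → ℝ) × (Fin 3 → ℝ) × M3)
    (l : List ((Fin 3 → ℝ) × (Fin 3 → ℝ) × M3)) (t : ℝ) :
    defL (x :: l) t = diagonal (expd x.1 x.2.1 t) * x.2.2 * defL l t := by
  simp [defL, prodL]

theorem pm_MatC2_defL_nil (t : ℝ) : defL [] t = 1 := by
  simp [defL, prodL]

theorem pm_MatC2_defL_mulVec (x : (Fin 3 → ℝ) × (Fin 3 → ℝ) × M3)
    (l : List ((Fin 3 → ℝ) × (Fin 3 → ℝ) × M3)) (t : ℝ) (v : Fin 3 → ℝ) :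
    defL (x :: l) t *ᵥ v = fun i => expd x.1 x.2.1 t i * (x.2.2 *ᵥ (defL l t *ᵥ v)) i := by
  rw [pm_MatC2_defL_cons, ← Matrix.mulVec_mulVec, ← Matrix.mulVec_mulVec]
  ext i
  rw [Matrix.mulVec_diagonal]

/-- one passage through the word -/
theorem pm_MatC2_word {K H : ℝ} (hK : 1 ≤ K) (hH : 0 ≤ H) (t u : ℝ)
    (l : List ((Fin 3 → ℝ) × (Fin 3 → ℝ) × M3)) (hl : AdmL K H l) {b δ : ℝ} (hδ : 0 ≤ δ)
    {x y z : Fin 3 → ℝ} (hS : pm_MatC2_St b δ x y z) :
    ∃ b' δ', 0 ≤ δ' ∧ pm_MatC2_St b' δ' (defL l (t + u) *ᵥ x) (defL l (t - u) *ᵥ y)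
      (defL l t *ᵥ z) ∧
      b' + K ^ 2 / 4 * δ' ^ 2 ≤ b + K ^ 2 / 4 * δ ^ 2 + K ^ 4 * H ^ 2 * cntH l * u ^ 2 := by
  induction l with
  | nil =>
    refine ⟨b, δ, hδ, ?_, ?_⟩
    · simpa [pm_MatC2_defL_nil] using hS
    · simp [cntH]
  | cons a l ih =>
    obtain ⟨b₁, δ₁, hδ₁, hS₁, hle⟩ := ih (fun x hx => hl x (List.mem_cons_of_mem _ hx))
    obtain ⟨had, hah, haB, har, -⟩ := hl a List.mem_cons_self
    have hK2 : (0 : ℝ) < K ^ 2 := by positivity
    have hS₂ := pm_MatC2_stepB hK haB har hS₁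
    set κ : ℝ := (K ^ 2)⁻¹ with hκ
    have hκ0 : 0 < κ := inv_pos.2 hK2
    have hκ1 : κ ≤ 1 := inv_le_one_of_one_le₀ (one_le_pow₀ hK)
    have hκK : K ^ 2 * κ = 1 := mul_inv_cancel₀ hK2.ne'
    by_cases h0 : a.2.1 = 0
    · have hcnt : cntH (a :: l) = cntH l := by
        simp [cntH, h0]
      have hS₃ := pm_MatC2_stepD (t := t) (u := u) (η := 0) (h := a.2.1) had
        (by intro i j; simp [h0]) hS₂
      refine ⟨b₁ + δ₁ ^ 2 / 4, (1 - κ) * δ₁ + 0,
        by have := mul_nonneg (sub_nonneg.2 hκ1) hδ₁; linarith, ?_, ?_⟩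
      · rw [pm_MatC2_defL_mulVec, pm_MatC2_defL_mulVec, pm_MatC2_defL_mulVec]
        exact hS₃
      · rw [hcnt]
        refine le_trans ?_ hle
        have h1 : (1 - κ) ^ 2 ≤ 1 - κ := by nlinarith
        have h2 : K ^ 2 / 4 * ((1 - κ) * δ₁ + 0) ^ 2 ≤ K ^ 2 / 4 * ((1 - κ) * δ₁ ^ 2) := by
          refine mul_le_mul_of_nonneg_left ?_ (by positivity)
          nlinarith [mul_le_mul_of_nonneg_right h1 (sq_nonneg δ₁)]
        have h3 : K ^ 2 / 4 * ((1 - κ) * δ₁ ^ 2) = K ^ 2 / 4 * δ₁ ^ 2 - δ₁ ^ 2 / 4 := by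
          linear_combination (-(δ₁ ^ 2) / 4) * hκK
        linarith
    · have hcnt : cntH (a :: l) = cntH l + 1 := by
        simp [cntH, h0]
      have hη : ∀ i j, u * a.2.1 i ≤ 2 * H * |u| + u * a.2.1 j := by
        intro i j
        have h1 : u * a.2.1 i ≤ |u| * H := by
          refine le_trans (le_abs_self _) ?_
          rw [abs_mul]
          exact mul_le_mul_of_nonneg_left (hah i) (abs_nonneg u)
        have h2 : -(u * a.2.1 j) ≤ |u| * H := by
          refine le_trans (neg_le_abs _) ?_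
          rw [abs_mul]
          exact mul_le_mul_of_nonneg_left (hah j) (abs_nonneg u)
        nlinarith
      have hS₃ := pm_MatC2_stepD (t := t) (u := u) (η := 2 * H * |u|) (h := a.2.1) had hη hS₂
      have hη0 : 0 ≤ 2 * H * |u| := by positivity
      refine ⟨b₁ + δ₁ ^ 2 / 4, (1 - κ) * δ₁ + 2 * H * |u|,
        by have := mul_nonneg (sub_nonneg.2 hκ1) hδ₁; linarith, ?_, ?_⟩
      · rw [pm_MatC2_defL_mulVec, pm_MatC2_defL_mulVec, pm_MatC2_defL_mulVec]
        exact hS₃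
      · rw [hcnt]
        set η := 2 * H * |u| with hηdef
        have hη2 : η ^ 2 = 4 * (H ^ 2 * u ^ 2) := by
          rw [hηdef, mul_pow, mul_pow, sq_abs]; ring
        -- convexity of the square
        have h1 : ((1 - κ) * δ₁ + η) ^ 2 ≤ (1 - κ) * δ₁ ^ 2 + K ^ 2 * η ^ 2 := by
          have h2 : (1 - κ) * δ₁ ^ 2 + K ^ 2 * η ^ 2 - ((1 - κ) * δ₁ + η) ^ 2 =
              κ * (1 - κ) * (δ₁ - K ^ 2 * η) ^ 2 := by
            have h3 : κ * (1 - κ) * (δ₁ - K ^ 2 * η) ^ 2 =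
              κ * (1 - κ) * δ₁ ^ 2 - 2 * (1 - κ) * (K ^ 2 * κ) * δ₁ * η +
                (K ^ 2 * κ) * (K ^ 2 - K ^ 2 * κ) * η ^ 2 := by ring
            rw [h3, hκK]
            ring
          have h3 : 0 ≤ κ * (1 - κ) * (δ₁ - K ^ 2 * η) ^ 2 :=
            mul_nonneg (mul_nonneg hκ0.le (sub_nonneg.2 hκ1)) (sq_nonneg _)
          linarith
        have h2 : K ^ 2 / 4 * ((1 - κ) * δ₁ + η) ^ 2 ≤
            K ^ 2 / 4 * ((1 - κ) * δ₁ ^ 2 + K ^ 2 * η ^ 2) :=
          mul_le_mul_of_nonneg_left h1 (by positivity)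
        have h3 : K ^ 2 / 4 * ((1 - κ) * δ₁ ^ 2 + K ^ 2 * η ^ 2) =
            K ^ 2 / 4 * δ₁ ^ 2 - δ₁ ^ 2 / 4 + K ^ 4 * H ^ 2 * u ^ 2 := by
          rw [hη2]
          linear_combination (-(δ₁ ^ 2) / 4) * hκK
        push_cast
        have h4 : K ^ 4 * H ^ 2 * ((cntH l : ℝ) + 1) * u ^ 2 =
            K ^ 4 * H ^ 2 * (cntH l : ℝ) * u ^ 2 + K ^ 4 * H ^ 2 * u ^ 2 := by ring
        rw [h4]
        linarith

/-- several passages -/
theorem pm_MatC2_pow {K H : ℝ} (hK : 1 ≤ K) (hH : 0 ≤ H) (t u : ℝ)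
    (l : List ((Fin 3 → ℝ) × (Fin 3 → ℝ) × M3)) (hl : AdmL K H l) (n : ℕ) :
    ∃ b δ, 0 ≤ δ ∧ pm_MatC2_St b δ (defL l (t + u) ^ n *ᵥ 1) (defL l (t - u) ^ n *ᵥ 1)
      (defL l t ^ n *ᵥ 1) ∧
      b + K ^ 2 / 4 * δ ^ 2 ≤ n * (K ^ 4 * H ^ 2 * cntH l * u ^ 2) := by
  induction n with
  | zero =>
    refine ⟨0, 0, le_rfl, ?_, by simp⟩
    simp only [pow_zero, Matrix.one_mulVec]
    exact ⟨by simp, by simp, by simp, by simp, by simp⟩
  | succ n ih =>
    obtain ⟨b, δ, hδ, hS, hle⟩ := ih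
    obtain ⟨b', δ', hδ', hS', hle'⟩ := pm_MatC2_word hK hH t u l hl hδ hS
    refine ⟨b', δ', hδ', ?_, ?_⟩
    · simp only [pow_succ', ← Matrix.mulVec_mulVec]
      exact hS'
    · push_cast
      linarith

theorem pm_MatC2_pos {K H : ℝ} (l : List ((Fin 3 → ℝ) × (Fin 3 → ℝ) × M3)) (hne : l ≠ [])
    (hl : AdmL K H l) (t : ℝ) (i j : Fin 3) : 0 < defL l t i j := by
  induction l generalizing i j with
  | nil => exact absurd rfl hne
  | cons a l ih =>
    obtain ⟨had, -, haB, -, -⟩ := hl a List.mem_cons_self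
    have h1 : ∀ i j, 0 < (diagonal (expd a.1 a.2.1 t) * a.2.2) i j := by
      intro i j
      rw [Matrix.diagonal_mul]
      exact mul_pos (mul_pos (had i) (Real.exp_pos _)) (haB i j)
    rw [pm_MatC2_defL_cons]
    by_cases h2 : l = []
    · rw [h2, pm_MatC2_defL_nil, mul_one]
      exact h1 i j
    · rw [Matrix.mul_apply]
      exact Finset.sum_pos (fun k _ => mul_pos (h1 i k)
        (ih h2 (fun x hx => hl x (List.mem_cons_of_mem _ hx)) k j)) ⟨0, Finset.mem_univ _⟩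

theorem pm_MatC2_pow_nonneg {A : M3} (hA : ∀ i j, 0 < A i j) (n : ℕ) (i j : Fin 3) :
    0 ≤ (A ^ n) i j := by
  induction n generalizing i j with
  | zero =>
    rw [pow_zero, Matrix.one_apply]
    split_ifs <;> norm_num
  | succ n ih =>
    rw [pow_succ, Matrix.mul_apply]
    exact Finset.sum_nonneg fun k _ => mul_nonneg (ih i k) (hA k j).le

theorem pm_MatC2_nrm_pow {A : M3} (hA : ∀ i j, 0 < A i j) (n : ℕ) :
    nrm (A ^ n) = ∑ i, (A ^ n *ᵥ 1) i := by
  unfold nrm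
  refine Finset.sum_congr rfl fun i _ => ?_
  rw [Matrix.mulVec, dotProduct]
  refine Finset.sum_congr rfl fun j _ => ?_
  rw [abs_of_nonneg (pm_MatC2_pow_nonneg hA n i j)]
  simp

theorem pm_MatC2_lam_pos {A : M3} (hA : ∀ i j, 0 < A i j) : 0 < lam A :=
  lt_of_lt_of_le (hA 0 0) (diag_le_lam (fun i j => (hA i j).le) 0)

theorem pm_MatC2_log {A : M3} (hA : ∀ i j, 0 < A i j) :
    Tendsto (fun n : ℕ => (1 / (n : ℝ)) * Real.log (∑ i, (A ^ n *ᵥ 1) i)) atTop
      (𝓝 (Real.log (lam A))) := by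
  have h1 := (Real.continuousAt_log (pm_MatC2_lam_pos hA).ne').tendsto.comp (lam_tendsto A)
  refine h1.congr fun n => ?_
  simp only [Function.comp_apply]
  rw [pm_MatC2_nrm_pow hA n, Real.log_rpow]
  rw [← pm_MatC2_nrm_pow hA n]
  have h2 : 0 < nrm (A ^ n) := by
    rw [pm_MatC2_nrm_pow hA n]
    have h3 : ∀ i, 0 < (A ^ n *ᵥ 1) i := by
      induction n with
      | zero => intro i; simp
      | succ n ih =>
        intro i
        rw [pow_succ', ← Matrix.mulVec_mulVec]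
        exact pm_MatC2_mulVec_pos hA ih i
    exact Finset.sum_pos (fun i _ => h3 i) ⟨0, Finset.mem_univ _⟩
  exact h2

/-- the second difference of the logarithm of the spectral radius -/
theorem log_lam_second {K H : ℝ} (hK : 1 ≤ K) (hH : 0 ≤ H) :
    ∃ C > 0, ∃ u₀ > 0, ∀ (l : List ((Fin 3 → ℝ) × (Fin 3 → ℝ) × M3)), l ≠ [] → AdmL K H l →
      ∀ t u : ℝ, |u| ≤ u₀ →
        Real.log (lam (defL l (t + u))) + Real.log (lam (defL l (t - u)))
          - 2 * Real.log (lam (defL l t)) ≤ C * cntH l * u ^ 2 := by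
  refine ⟨K ^ 4 * H ^ 2 + 1, by positivity, 1, one_pos, fun l hne hl t u _ => ?_⟩
  have hpos := fun s => pm_MatC2_pos l hne hl s
  have h1 := ((pm_MatC2_log (hpos (t + u))).add (pm_MatC2_log (hpos (t - u)))).sub
    ((pm_MatC2_log (hpos t)).const_mul 2)
  have h2 : Tendsto (fun n : ℕ => K ^ 4 * H ^ 2 * cntH l * u ^ 2 + (K ^ 2)⁻¹ * (1 / (n : ℝ)))
      atTop (𝓝 (K ^ 4 * H ^ 2 * cntH l * u ^ 2 + (K ^ 2)⁻¹ * 0)) :=
    tendsto_const_nhds.add (tendsto_one_div_atTop_nhds_zero_nat.const_mul _)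
  have h3 : Real.log (lam (defL l (t + u))) + Real.log (lam (defL l (t - u)))
      - 2 * Real.log (lam (defL l t)) ≤ K ^ 4 * H ^ 2 * cntH l * u ^ 2 + (K ^ 2)⁻¹ * 0 := by
    refine le_of_tendsto_of_tendsto h1 h2 ?_
    filter_upwards [eventually_ge_atTop 1] with n hn
    have hn0 : (0 : ℝ) < n := by exact_mod_cast hn
    obtain ⟨b, δ, hδ, hS, hle⟩ := pm_MatC2_pow hK hH t u l hl n
    set x := defL l (t + u) ^ n *ᵥ 1
    set y := defL l (t - u) ^ n *ᵥ 1
    set z := defL l t ^ n *ᵥ 1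
    have hx : 0 < ∑ i, x i := Finset.sum_pos (fun i _ => hS.xp i) ⟨0, Finset.mem_univ _⟩
    have hy : 0 < ∑ i, y i := Finset.sum_pos (fun i _ => hS.yp i) ⟨0, Finset.mem_univ _⟩
    have hz : 0 < ∑ i, z i := Finset.sum_pos (fun i _ => hS.zp i) ⟨0, Finset.mem_univ _⟩
    have h4 : (∑ i, x i) * (∑ i, y i) ≤
        Real.exp (δ + b) * ((∑ i, z i) * (∑ i, z i)) := by
      rw [Finset.sum_mul_sum, Finset.sum_mul_sum, Finset.mul_sum]
      refine Finset.sum_le_sum fun i _ => ?_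
      rw [Finset.mul_sum]
      refine Finset.sum_le_sum fun j _ => ?_
      -- x i y j ≤ e^{δ+b} z i z j
      have h5 : x i * z j * (x j * y j) ≤ Real.exp δ * (x j * z i) * (Real.exp b * (z j * z j)) :=
        mul_le_mul (hS.osc i j) (hS.bd j) (mul_pos (hS.xp j) (hS.yp j)).le
          (mul_pos (Real.exp_pos _) (mul_pos (hS.xp j) (hS.zp i))).le
      have h6 : (x j * z j) * (x i * y j) ≤ (x j * z j) * (Real.exp (δ + b) * (z i * z j)) := by
        rw [Real.exp_add]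
        calc _ = x i * z j * (x j * y j) := by ring
          _ ≤ _ := h5
          _ = _ := by ring
      exact le_of_mul_le_mul_left h6 (mul_pos (hS.xp j) (hS.zp j))
    have h5 : Real.log (∑ i, x i) + Real.log (∑ i, y i) ≤ δ + b + 2 * Real.log (∑ i, z i) := by
      rw [← Real.log_mul hx.ne' hy.ne']
      refine le_trans (Real.log_le_log (mul_pos hx hy) h4) (le_of_eq ?_)
      rw [Real.log_mul (Real.exp_pos _).ne' (mul_pos hz hz).ne', Real.log_exp,
        Real.log_mul hz.ne' hz.ne']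
      ring
    have h6 : δ + b ≤ n * (K ^ 4 * H ^ 2 * cntH l * u ^ 2) + (K ^ 2)⁻¹ := by
      refine le_trans ?_ (add_le_add_left hle _)
      have h7 : 0 ≤ (K / 2 * δ - K⁻¹) ^ 2 := sq_nonneg _
      have hK0 : K ≠ 0 := by positivity
      have h8 : (K / 2 * δ - K⁻¹) ^ 2 = K ^ 2 / 4 * δ ^ 2 - δ + (K ^ 2)⁻¹ := by
        field_simp
        ring
      rw [h8] at h7
      linarith
    have h7 : 1 / (n : ℝ) * (Real.log (∑ i, x i) + Real.log (∑ i, y i) -
        2 * Real.log (∑ i, z i)) ≤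
        1 / (n : ℝ) * (n * (K ^ 4 * H ^ 2 * cntH l * u ^ 2) + (K ^ 2)⁻¹) := by
      refine mul_le_mul_of_nonneg_left ?_ (by positivity)
      linarith
    have h8 : 1 / (n : ℝ) * (n * (K ^ 4 * H ^ 2 * cntH l * u ^ 2) + (K ^ 2)⁻¹) =
        K ^ 4 * H ^ 2 * cntH l * u ^ 2 + (K ^ 2)⁻¹ * (1 / (n : ℝ)) := by
      field_simp
    rw [h8] at h7
    refine le_trans (le_of_eq ?_) h7
    ring
  refine le_trans h3 ?_
  have h4 : (0 : ℝ) ≤ cntH l * u ^ 2 := by positivity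
  nlinarith [h4]

end PM3
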