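import Mathlib

/-! [PM3 A3] real analysis: second differences of a Lipschitz semiconvex function. -/

namespace PM3
open Filter Topology MeasureTheory

/-- strictly positive second differences for small steps give convexity -/
theorem pm_MoveC_convex_pos {g : ℝ → ℝ} {a b : ℝ} (hc : ContinuousOn g (Set.Icc a b))
    (h2 : ∃ u₀ > 0, ∀ t u, 0 < u → u ≤ u₀ → t - u ∈ Set.Icc a b → t + u ∈ Set.Icc a b →
      0 < g (t + u) + g (t - u) - 2 * g t) : ConvexOn ℝ (Set.Icc a b) g := by
  obtain ⟨u₀, hu₀, h2⟩ := h2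
  refine LinearOrder.convexOn_of_lt (convex_Icc a b) fun x hx y hy hxy p q hp hq hpq => ?_
  simp only [smul_eq_mul]
  by_contra hcon
  rw [not_le] at hcon
  obtain ⟨s, hs⟩ : ∃ s, s = (g y - g x) / (y - x) := ⟨_, rfl⟩
  have hyx : 0 < y - x := by linarith
  have hs' : s * (y - x) = g y - g x := by rw [hs]; field_simp
  have hsub : Set.Icc x y ⊆ Set.Icc a b := Set.Icc_subset_Icc hx.1 hy.2
  have hcont : ContinuousOn (fun t => g t - (g x + (t - x) * s)) (Set.Icc x y) :=
    (hc.mono hsub).sub (by fun_prop)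
  obtain ⟨m, hm, hmax⟩ := isCompact_Icc.exists_isMaxOn (Set.nonempty_Icc.2 hxy.le) hcont
  have hz : p * x + q * y ∈ Set.Icc x y := by
    have hp1 : p = 1 - q := by linarith
    constructor
    · rw [hp1]
      nlinarith [mul_nonneg hq.le hyx.le]
    · have hq1 : q = 1 - p := by linarith
      rw [hq1]
      nlinarith [mul_nonneg hp.le hyx.le]
  have h3 := hmax hz
  simp only [Set.mem_ofPred_eq] at h3
  have h4 : 0 < g m - (g x + (m - x) * s) := by
    refine lt_of_lt_of_le ?_ h3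
    have h5 : (p * x + q * y - x) * s = q * (g y - g x) := by
      rw [← hs']
      have : p = 1 - q := by linarith
      rw [this]
      ring
    rw [h5]
    have : p = 1 - q := by linarith
    rw [this] at hcon ⊢
    linarith
  have hmx : m ≠ x := by
    rintro rfl
    simp at h4
  have hmy : m ≠ y := by
    rintro rfl
    have h5 : (m - x) * s = g m - g x := by rw [← hs']; ring
    rw [h5] at h4
    linarith
  have hxm : x < m := lt_of_le_of_ne hm.1 (Ne.symm hmx)
  have hmy' : m < y := lt_of_le_of_ne hm.2 hmy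
  obtain ⟨u, hu⟩ : ∃ u, u = min u₀ (min (m - x) (y - m)) := ⟨_, rfl⟩
  have hu0 : 0 < u := by
    rw [hu]
    exact lt_min hu₀ (lt_min (by linarith) (by linarith))
  have hu1 : u ≤ u₀ := hu ▸ min_le_left _ _
  have hu2 : u ≤ m - x := hu ▸ (min_le_right _ _).trans (min_le_left _ _)
  have hu3 : u ≤ y - m := hu ▸ (min_le_right _ _).trans (min_le_right _ _)
  have h5 : m - u ∈ Set.Icc x y := ⟨by linarith, by linarith⟩
  have h6 : m + u ∈ Set.Icc x y := ⟨by linarith, by linarith⟩
  have h7 := h2 m u hu0 hu1 (hsub h5) (hsub h6)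
  have h8 := hmax h5
  have h9 := hmax h6
  simp only [Set.mem_ofPred_eq] at h8 h9
  linarith

/-- nonnegative second differences for small steps and continuity give convexity -/
theorem pm_MoveC_convex {g : ℝ → ℝ} {a b : ℝ} (hc : ContinuousOn g (Set.Icc a b))
    (h2 : ∃ u₀ > 0, ∀ t u, 0 < u → u ≤ u₀ → t - u ∈ Set.Icc a b → t + u ∈ Set.Icc a b →
      0 ≤ g (t + u) + g (t - u) - 2 * g t) : ConvexOn ℝ (Set.Icc a b) g := by
  obtain ⟨u₀, hu₀, h2⟩ := h2
  have h3 : ∀ ε > 0, ConvexOn ℝ (Set.Icc a b) fun t => g t + ε * t ^ 2 := by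
    intro ε hε
    refine pm_MoveC_convex_pos (hc.add (by fun_prop)) ⟨u₀, hu₀, fun t u hu hu' h h' => ?_⟩
    have h4 := h2 t u hu hu' h h'
    have h5 : 0 < ε * u ^ 2 := by positivity
    nlinarith
  refine ⟨convex_Icc a b, fun x hx y hy p q hp hq hpq => ?_⟩
  have h4 : ∀ ε > 0, g (p • x + q • y) + ε * (p • x + q • y) ^ 2 ≤
      p • (g x + ε * x ^ 2) + q • (g y + ε * y ^ 2) := fun ε hε => (h3 ε hε).2 hx hy hp hq hpq
  have h5 : Tendsto (fun ε : ℝ => g (p • x + q • y) + ε * (p • x + q • y) ^ 2) (𝓝[>] 0)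
      (𝓝 (g (p • x + q • y) + 0 * (p • x + q • y) ^ 2)) := by
    refine Tendsto.mono_left ?_ nhdsWithin_le_nhds
    exact (Continuous.tendsto (by fun_prop) 0)
  have h6 : Tendsto (fun ε : ℝ => p • (g x + ε * x ^ 2) + q • (g y + ε * y ^ 2)) (𝓝[>] 0)
      (𝓝 (p • (g x + 0 * x ^ 2) + q • (g y + 0 * y ^ 2))) := by
    refine Tendsto.mono_left ?_ nhdsWithin_le_nhds
    exact (Continuous.tendsto (by fun_prop) 0)
  have h7 := le_of_tendsto_of_tendsto h5 h6 (by
    filter_upwards [self_mem_nhdsWithin] with ε hε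
    exact h4 ε hε)
  simpa using h7

/-- the second difference near a point where the right derivative is differentiable -/
theorem pm_MoveC_second {g P : ℝ → ℝ} {a b t q : ℝ} (ht : t ∈ Set.Ioo a b)
    (hc : ContinuousOn g (Set.Icc a b))
    (hg : ∀ x ∈ Set.Ioo a b, HasDerivWithinAt g (P x) (Set.Ioi x) x) (hP : HasDerivAt P q t)
    {ε : ℝ} (hε : 0 < ε) :
    ∀ᶠ u in 𝓝[>] (0 : ℝ), g (t + u) + g (t - u) - 2 * g t ≤ (q + ε) * u ^ 2 := by
  have h1 : ∀ᶠ x in 𝓝 t, |P x - P t - (x - t) * q| ≤ ε * |x - t| := by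
    have h2 := (hasDerivAt_iff_isLittleO.1 hP).def hε
    filter_upwards [h2] with x hx
    simpa [Real.norm_eq_abs, smul_eq_mul] using hx
  obtain ⟨δ, hδ, h2⟩ := Metric.eventually_nhds_iff.1 h1
  have h3 : ∀ᶠ u in 𝓝[>] (0 : ℝ), 0 < u ∧ u < min δ (min (t - a) (b - t)) := by
    have h4 : 0 < min δ (min (t - a) (b - t)) :=
      lt_min hδ (lt_min (by linarith [ht.1]) (by linarith [ht.2]))
    filter_upwards [Ioo_mem_nhdsGT h4] with u hu
    exact hu
  filter_upwards [h3] with u hu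
  obtain ⟨hu0, hu1⟩ := hu
  have hu2 : u < δ := hu1.trans_le (min_le_left _ _)
  have hu3 : u < t - a := hu1.trans_le ((min_le_right _ _).trans (min_le_left _ _))
  have hu4 : u < b - t := hu1.trans_le ((min_le_right _ _).trans (min_le_right _ _))
  have hg' : ∀ x ∈ Set.Ioo a b, HasDerivWithinAt g (P x) (Set.Ici x) x := fun x hx =>
    (hg x hx).Ici_of_Ioi
  -- the right side
  have hR : g (t + u) ≤ g t + P t * u + (q + ε) * u ^ 2 / 2 := by
    have hB : ∀ x, HasDerivAt (fun x => g t + P t * (x - t) + (q + ε) * (x - t) ^ 2 / 2)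
        (P t + (q + ε) * (x - t)) x := by
      intro x
      have e1 : HasDerivAt (fun x : ℝ => x - t) 1 x := (hasDerivAt_id x).sub_const t
      have e2 := ((e1.const_mul (P t)).const_add (g t)).add
        (((e1.pow 2).const_mul (q + ε)).div_const 2)
      refine HasDerivAt.congr_deriv e2 ?_
      push_cast
      ring
    have h4 := image_le_of_deriv_right_le_deriv_boundary (f := g) (f' := P) (a := t) (b := t + u)
      (B := fun x => g t + P t * (x - t) + (q + ε) * (x - t) ^ 2 / 2)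
      (B' := fun x => P t + (q + ε) * (x - t))
      (hc.mono (Set.Icc_subset_Icc ht.1.le (by linarith)))
      (fun x hx => hg' x ⟨by linarith [ht.1, hx.1], by linarith [hx.2]⟩)
      (by simp) (fun x _ => (hB x).continuousAt.continuousWithinAt)
      (fun x _ => (hB x).hasDerivWithinAt) (fun x hx => by
        have h5 := h2 (y := x) (by
          rw [Real.dist_eq, abs_of_nonneg (by linarith [hx.1])]
          linarith [hx.2])
        rw [abs_of_nonneg (by linarith [hx.1] : 0 ≤ x - t)] at h5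
        have h6 := (abs_le.1 h5).2
        linarith)
    have h5 := h4 (Set.right_mem_Icc.2 (by linarith : t ≤ t + u))
    simp only [add_sub_cancel_left] at h5
    exact h5
  have hL : g (t - u) + P t * u - (q + ε) * u ^ 2 / 2 ≤ g t := by
    have hB : ∀ x, HasDerivAt (fun x => g (t - u) + P t * (x - (t - u)) +
        (q + ε) * ((x - t) ^ 2 - u ^ 2) / 2) (P t + (q + ε) * (x - t)) x := by
      intro x
      have e1 : HasDerivAt (fun x : ℝ => x - t) 1 x := (hasDerivAt_id x).sub_const t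
      have e0 : HasDerivAt (fun x : ℝ => x - (t - u)) 1 x := (hasDerivAt_id x).sub_const (t - u)
      have e2 := ((e0.const_mul (P t)).const_add (g (t - u))).add
        ((((e1.pow 2).sub_const (u ^ 2)).const_mul (q + ε)).div_const 2)
      refine HasDerivAt.congr_deriv e2 ?_
      push_cast
      ring
    have h4 := image_le_of_deriv_right_le_deriv_boundary (B := g) (B' := P) (a := t - u) (b := t)
      (f := fun x => g (t - u) + P t * (x - (t - u)) + (q + ε) * ((x - t) ^ 2 - u ^ 2) / 2)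
      (f' := fun x => P t + (q + ε) * (x - t))
      (fun x _ => (hB x).continuousAt.continuousWithinAt)
      (fun x _ => (hB x).hasDerivWithinAt) (by simp)
      (hc.mono (Set.Icc_subset_Icc (by linarith) ht.2.le))
      (fun x hx => hg' x ⟨by linarith [hx.1], by linarith [hx.2, ht.2]⟩)
      (fun x hx => by
        have h5 := h2 (y := x) (by
          rw [Real.dist_eq, abs_of_neg (by linarith [hx.2])]
          linarith [hx.1])
        rw [abs_of_neg (by linarith [hx.2] : x - t < 0)] at h5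
        have h6 := (abs_le.1 h5).1
        linarith)
    have h5 := h4 (Set.right_mem_Icc.2 (by linarith : t - u ≤ t))
    simp only [sub_sub_cancel, sub_self] at h5
    have h6 : (q + ε) * ((0 : ℝ) ^ 2 - u ^ 2) / 2 = -((q + ε) * u ^ 2 / 2) := by ring
    rw [h6] at h5
    linarith
  linarith

theorem semiconvex_integral {f : ℝ → ℝ} {a b M Lp : ℝ} (hab : a < b) (hM : 0 ≤ M) (hLp : 0 ≤ Lp)
    (hL : ∀ s ∈ Set.Icc a b, ∀ t ∈ Set.Icc a b, |f s - f t| ≤ Lp * |s - t|)
    (h2 : ∃ u₀ > 0, ∀ t u, 0 < u → u ≤ u₀ → t - u ∈ Set.Icc a b → t + u ∈ Set.Icc a b →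
      -(M * u ^ 2) ≤ f (t + u) + f (t - u) - 2 * f t) :
    ∃ G : ℝ → ENNReal, Measurable G ∧
      (∀ᵐ t, t ∈ Set.Icc a b → limsup (fun u : ℝ =>
        ENNReal.ofReal ((f (t + u) + f (t - u) - 2 * f t) / u ^ 2 + M)) (𝓝[>] 0) ≤ G t) ∧
      ∫⁻ t in Set.Icc a b, G t ≤ ENNReal.ofReal (2 * Lp + M * (b - a)) := by
  classical
  obtain ⟨g, hg⟩ : ∃ g : ℝ → ℝ, g = fun t => f t + M * t ^ 2 / 2 := ⟨_, rfl⟩
  have hgt : ∀ t, g t = f t + M * t ^ 2 / 2 := fun t => by rw [hg]
  have hfc : ContinuousOn f (Set.Icc a b) := by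
    intro t ht
    have hlip : LipschitzOnWith (Real.toNNReal Lp) f (Set.Icc a b) := by
      refine LipschitzOnWith.of_dist_le_mul fun x hx y hy => ?_
      rw [Real.dist_eq, Real.dist_eq, Real.coe_toNNReal _ hLp]
      exact hL x hx y hy
    exact hlip.continuousOn t ht
  have hgc : ContinuousOn g (Set.Icc a b) := by
    rw [hg]
    exact hfc.add (by fun_prop)
  have hconv : ConvexOn ℝ (Set.Icc a b) g := by
    refine pm_MoveC_convex hgc ?_
    obtain ⟨u₀, hu₀, h2⟩ := h2
    refine ⟨u₀, hu₀, fun t u hu hu' h h' => ?_⟩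
    have h3 := h2 t u hu hu' h h'
    rw [hgt, hgt, hgt]
    nlinarith
  have hint : interior (Set.Icc a b) = Set.Ioo a b := interior_Icc
  -- the slopes
  have hslope : ∀ s ∈ Set.Icc a b, ∀ t ∈ Set.Icc a b, s < t →
      -Lp + M * a ≤ slope g s t ∧ slope g s t ≤ Lp + M * b := by
    intro s hs t ht hst
    rw [slope_def_field, hgt, hgt]
    have h3 := hL t ht s hs
    rw [abs_of_pos (by linarith : 0 < t - s)] at h3
    have h4 := abs_le.1 h3
    have h5 : 0 < t - s := by linarith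
    constructor
    · rw [le_div_iff₀ h5]
      nlinarith [mul_nonneg hM h5.le, hs.1, ht.1, mul_nonneg (mul_nonneg hM h5.le)
        (by linarith [hs.1, ht.1] : 0 ≤ s + t - 2 * a)]
    · rw [div_le_iff₀ h5]
      nlinarith [mul_nonneg hM h5.le, hs.1, ht.1, mul_nonneg (mul_nonneg hM h5.le)
        (by linarith [hs.2, ht.2] : 0 ≤ 2 * b - s - t)]
  have hp : ∀ x ∈ Set.Ioo a b, HasDerivWithinAt g (derivWithin g (Set.Ioi x) x) (Set.Ioi x) x :=
    fun x hx => hconv.hasDerivWithinAt_rightDeriv_of_mem_interior (by rwa [hint])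
  have hpb : ∀ x ∈ Set.Ioo a b, -Lp + M * a ≤ derivWithin g (Set.Ioi x) x ∧
      derivWithin g (Set.Ioi x) x ≤ Lp + M * b := by
    intro x hx
    have h3 := (hasDerivWithinAt_iff_tendsto_slope' Set.self_notMem_Ioi).mp (hp x hx)
    have h4 : ∀ᶠ y in 𝓝[>] x, y ∈ Set.Ioo x b := Ioo_mem_nhdsGT hx.2
    constructor
    · refine ge_of_tendsto h3 ?_
      filter_upwards [h4] with y hy
      exact (hslope x ⟨hx.1.le, hx.2.le⟩ y ⟨by linarith [hx.1, hy.1], hy.2.le⟩ hy.1).1
    · refine le_of_tendsto h3 ?_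
      filter_upwards [h4] with y hy
      exact (hslope x ⟨hx.1.le, hx.2.le⟩ y ⟨by linarith [hx.1, hy.1], hy.2.le⟩ hy.1).2
  have hmon := hconv.monotoneOn_rightDeriv
  rw [hint] at hmon
  have hlow : -Lp + M * a ≤ Lp + M * b := by nlinarith
  obtain ⟨P, hP⟩ : ∃ P : ℝ → ℝ, P = fun x => if x ≤ a then -Lp + M * a else
    if b ≤ x then Lp + M * b else derivWithin g (Set.Ioi x) x := ⟨_, rfl⟩
  have hP1 : ∀ x, x ≤ a → P x = -Lp + M * a := fun x hx => by rw [hP]; simp [hx]
  have hP2 : ∀ x, b ≤ x → P x = Lp + M * b := fun x hx => by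
    rw [hP]; simp [hx, (hab.trans_le hx)]
  have hP3 : ∀ x ∈ Set.Ioo a b, P x = derivWithin g (Set.Ioi x) x := fun x hx => by
    rw [hP]
    simp only [if_neg (not_le.2 hx.1), if_neg (not_le.2 hx.2)]
  have hPb : ∀ x, -Lp + M * a ≤ P x ∧ P x ≤ Lp + M * b := by
    intro x
    rcases le_or_gt x a with h | h
    · rw [hP1 x h]; exact ⟨le_rfl, hlow⟩
    · rcases le_or_gt b x with h' | h'
      · rw [hP2 x h']; exact ⟨hlow, le_rfl⟩
      · rw [hP3 x ⟨h, h'⟩]; exact hpb x ⟨h, h'⟩
  have hPm : Monotone P := by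
    intro x y hxy
    rcases le_or_gt x a with h | h
    · rw [hP1 x h]; exact (hPb y).1
    · rcases le_or_gt b y with h' | h'
      · rw [hP2 y h']; exact (hPb x).2
      · rw [hP3 x ⟨h, hxy.trans_lt h'⟩, hP3 y ⟨h.trans_le hxy, h'⟩]
        exact hmon ⟨h, hxy.trans_lt h'⟩ ⟨h.trans_le hxy, h'⟩ hxy
  refine ⟨hPm.stieltjesFunction.measure.rnDeriv volume, Measure.measurable_rnDeriv _ _, ?_, ?_⟩
  · have hnull : ∀ᵐ t : ℝ, t ≠ a ∧ t ≠ b := by
      have h3 : ∀ᵐ t : ℝ, t ≠ a := by
        rw [ae_iff]; simp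
      have h4 : ∀ᵐ t : ℝ, t ≠ b := by
        rw [ae_iff]; simp
      filter_upwards [h3, h4] with t h h' using ⟨h, h'⟩
    filter_upwards [hPm.ae_hasDerivAt, hnull,
      Measure.rnDeriv_ne_top hPm.stieltjesFunction.measure volume] with t ht1 ht2 ht3 ht
    have ht' : t ∈ Set.Ioo a b :=
      ⟨lt_of_le_of_ne ht.1 (Ne.symm ht2.1), lt_of_le_of_ne ht.2 ht2.2⟩
    refine ENNReal.le_of_forall_pos_le_add fun ε hε _ => ?_
    have h3 := pm_MoveC_second ht' hgc (fun x hx => by rw [hP3 x hx]; exact hp x hx) ht1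
      (ε := (ε : ℝ)) (by exact_mod_cast hε)
    refine limsup_le_of_le (by isBoundedDefault) ?_
    filter_upwards [h3, self_mem_nhdsWithin] with u hu hu0
    have hu0' : (0 : ℝ) < u := hu0
    have h4 : (f (t + u) + f (t - u) - 2 * f t) / u ^ 2 + M =
        (g (t + u) + g (t - u) - 2 * g t) / u ^ 2 := by
      rw [hgt, hgt, hgt]
      field_simp
      ring
    rw [h4]
    have h5 : (g (t + u) + g (t - u) - 2 * g t) / u ^ 2 ≤
        (hPm.stieltjesFunction.measure.rnDeriv volume t).toReal + ε := by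
      rw [div_le_iff₀ (by positivity)]
      exact hu
    refine (ENNReal.ofReal_le_ofReal h5).trans ?_
    rw [ENNReal.ofReal_add ENNReal.toReal_nonneg (NNReal.coe_nonneg ε), ENNReal.ofReal_toReal ht3,
      ENNReal.ofReal_coe_nnreal]
  · have h3 : ∫⁻ t in Set.Icc a b, hPm.stieltjesFunction.measure.rnDeriv volume t =
        ∫⁻ t in Set.Ioc a b, hPm.stieltjesFunction.measure.rnDeriv volume t :=
      setLIntegral_congr Ioc_ae_eq_Icc.symm
    rw [h3]
    refine (Measure.setLIntegral_rnDeriv_le _).trans ?_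
    rw [StieltjesFunction.measure_Ioc]
    refine ENNReal.ofReal_le_ofReal ?_
    have h4 : hPm.stieltjesFunction b ≤ Lp + M * b := by
      have h5 : hPm.stieltjesFunction b ≤ P (b + 1) := hPm.rightLim_le (by linarith)
      exact h5.trans (hPb _).2
    have h5 : -Lp + M * a ≤ hPm.stieltjesFunction a :=
      (hPb a).1.trans (hPm.le_rightLim le_rfl)
    linarith

end PM3
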