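import Pool.Agent.LibPM3.MoveB
import Pool.Agent.LibPM3.MoveC

/-! [PM3 A4] the move lemma. -/

namespace PM3
open Filter Topology MeasureTheory

variable {𝒞 : Type*}

/-- second differences from the second order bound -/
theorem pm_MoveD_low {A B c : ℝ} (h : 1 ≤ Real.exp A * (2 + c - Real.exp B)) : B - A ≤ c := by
  have h1 : Real.exp (-A) ≤ 2 + c - Real.exp B := by
    have h2 := mul_le_mul_of_nonneg_left h (Real.exp_pos (-A)).le
    rwa [mul_one, ← mul_assoc, ← Real.exp_add, neg_add_cancel, Real.exp_zero, one_mul] at h2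
  have h3 := Real.add_one_le_exp (-A)
  have h4 := Real.add_one_le_exp B
  linarith

theorem pm_MoveD_up {A B c x J : ℝ} (hJ : J ≤ Real.exp A * (2 + c - Real.exp B)) (hc : 0 ≤ c)
    (hA : Real.exp A ≤ 2) (hx : A - B ≤ x) (hx0 : 0 ≤ x) (hx1 : x ≤ 1) :
    J - 1 ≤ x + x ^ 2 + 2 * c := by
  have h1 : 2 - Real.exp B ≤ Real.exp (-B) := by
    have h3 := Real.add_one_le_exp B
    have h4 := Real.add_one_le_exp (-B)
    linarith
  have h2 : Real.exp A * (2 - Real.exp B) ≤ Real.exp (A - B) := by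
    rw [sub_eq_add_neg A B, Real.exp_add]
    exact mul_le_mul_of_nonneg_left h1 (Real.exp_pos A).le
  have h3 : Real.exp (A - B) ≤ Real.exp x := Real.exp_le_exp.2 hx
  have h4 : Real.exp x ≤ 1 + x + x ^ 2 := by
    have h5 := Real.abs_exp_sub_one_sub_id_le (x := x) (by rw [abs_of_nonneg hx0]; exact hx1)
    have h6 := (abs_le.1 h5).2
    linarith
  have h5 : Real.exp A * c ≤ 2 * c := mul_le_mul_of_nonneg_right hA hc
  have h6 : Real.exp A * (2 + c - Real.exp B) = Real.exp A * (2 - Real.exp B) + Real.exp A * c := by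
    ring
  linarith

/-- the speed at a good point -/
theorem pm_MoveD_speed {ℓ : ℝ → 𝒞 → ℝ} {a b C β C₁ u₀ g t : ℝ} (hC : 0 ≤ C) (hβ : 0 < β)
    (hu₀ : 0 < u₀) (hg : 0 ≤ g) (ht : t ∈ Set.Ioo a b)
    (hlip : ∀ s ∈ Set.Icc a b, ∀ t ∈ Set.Icc a b,
      |Real.log (cEnt (ℓ s)) - Real.log (cEnt (ℓ t))| ≤ C₁ * β * |s - t|)
    (hsec : ∀ t u, |u| ≤ u₀ → t - u ∈ Set.Icc a b → t + u ∈ Set.Icc a b →
      1 ≤ cJ (ℓ t) (ℓ (t + u)) ∧
      cJ (ℓ t) (ℓ (t + u)) ≤
        Real.exp (Real.log (cEnt (ℓ (t + u))) - Real.log (cEnt (ℓ t))) *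
          (2 + C * β * u ^ 2 - Real.exp (Real.log (cEnt (ℓ t)) - Real.log (cEnt (ℓ (t - u))))))
    (hG : ∀ᶠ u in 𝓝[>] (0 : ℝ), Real.log (cEnt (ℓ (t + u))) + Real.log (cEnt (ℓ (t - u))) -
      2 * Real.log (cEnt (ℓ t)) ≤ (g + β) * u ^ 2) :
    cSpeedSq ℓ t ≤ ENNReal.ofReal (2 * g + (4 + 4 * C) * β) := by
  unfold cSpeedSq
  refine limsup_le_of_le (by isBoundedDefault) ?_
  have hgβ : 0 ≤ g + β := by linarith
  have ht0 : Tendsto (fun s : ℝ => |s - t|) (𝓝[≠] t) (𝓝[>] 0) := by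
    rw [tendsto_nhdsWithin_iff]
    constructor
    · have h1 : Tendsto (fun s : ℝ => |s - t|) (𝓝 t) (𝓝 |t - t|) :=
        (Continuous.tendsto (by fun_prop) t)
      rw [sub_self, abs_zero] at h1
      exact h1.mono_left nhdsWithin_le_nhds
    · filter_upwards [self_mem_nhdsWithin] with s hs
      exact abs_pos.2 (sub_ne_zero.2 hs)
  have e1 := ht0.eventually hG
  have e2 : ∀ᶠ s in 𝓝[≠] t, |s - t| < min u₀ (min (t - a) (b - t)) := by
    have h4 : 0 < min u₀ (min (t - a) (b - t)) :=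
      lt_min hu₀ (lt_min (by linarith [ht.1]) (by linarith [ht.2]))
    exact (ht0.mono_right nhdsWithin_le_nhds).eventually (gt_mem_nhds h4)
  have e3 : ∀ᶠ s in 𝓝[≠] t, (g + β) ^ 2 * (s - t) ^ 2 < β := by
    have h1 : Tendsto (fun s : ℝ => (g + β) ^ 2 * (s - t) ^ 2) (𝓝 t)
        (𝓝 ((g + β) ^ 2 * (t - t) ^ 2)) := (Continuous.tendsto (by fun_prop) t)
    have h2 : (g + β) ^ 2 * (t - t) ^ 2 = 0 := by ring
    rw [h2] at h1
    exact (h1.mono_left nhdsWithin_le_nhds).eventually (gt_mem_nhds hβ)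
  have e4 : ∀ᶠ s in 𝓝[≠] t, (g + β) * (s - t) ^ 2 < 1 := by
    have h1 : Tendsto (fun s : ℝ => (g + β) * (s - t) ^ 2) (𝓝 t)
        (𝓝 ((g + β) * (t - t) ^ 2)) := (Continuous.tendsto (by fun_prop) t)
    have h2 : (g + β) * (t - t) ^ 2 = 0 := by ring
    rw [h2] at h1
    exact (h1.mono_left nhdsWithin_le_nhds).eventually (gt_mem_nhds one_pos)
  have e5 : ∀ᶠ s in 𝓝[≠] t, Real.exp (C₁ * β * |s - t|) < 2 := by
    have h1 : Tendsto (fun s : ℝ => Real.exp (C₁ * β * |s - t|)) (𝓝 t)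
        (𝓝 (Real.exp (C₁ * β * |t - t|))) := (Continuous.tendsto (by fun_prop) t)
    have h2 : Real.exp (C₁ * β * |t - t|) = 1 := by simp
    rw [h2] at h1
    exact (h1.mono_left nhdsWithin_le_nhds).eventually (gt_mem_nhds one_lt_two)
  filter_upwards [e1, e2, e3, e4, e5, self_mem_nhdsWithin] with s h1 h2 h3 h4 h5 hs
  obtain ⟨u, hu⟩ : ∃ u, u = s - t := ⟨_, rfl⟩
  have hsu : s = t + u := by rw [hu]; ring
  have hu0 : u ≠ 0 := by rw [hu]; exact sub_ne_zero.2 hs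
  rw [← hu] at h1 h2 h3 h4 h5
  have h6 : |u| ≤ u₀ := (h2.trans_le (min_le_left _ _)).le
  have h7 : |u| < t - a := h2.trans_le ((min_le_right _ _).trans (min_le_left _ _))
  have h8 : |u| < b - t := h2.trans_le ((min_le_right _ _).trans (min_le_right _ _))
  have h9 := abs_lt.1 h7
  have h10 := abs_lt.1 h8
  have hm : t - u ∈ Set.Icc a b := ⟨by linarith, by linarith⟩
  have hp : t + u ∈ Set.Icc a b := ⟨by linarith, by linarith⟩
  have htI : t ∈ Set.Icc a b := ⟨ht.1.le, ht.2.le⟩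
  have hΔ : Real.log (cEnt (ℓ (t + u))) + Real.log (cEnt (ℓ (t - u))) -
      2 * Real.log (cEnt (ℓ t)) ≤ (g + β) * u ^ 2 := by
    rcases abs_cases u with ⟨h11, -⟩ | ⟨h11, -⟩
    · rwa [h11] at h1
    · rw [h11] at h1
      rw [sub_neg_eq_add, ← sub_eq_add_neg, neg_sq] at h1
      linarith
  have hA : Real.exp (Real.log (cEnt (ℓ (t + u))) - Real.log (cEnt (ℓ t))) ≤ 2 := by
    refine le_trans (Real.exp_le_exp.2 ?_) h5.le
    have h11 := hlip _ hp _ htI
    rw [add_sub_cancel_left] at h11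
    exact (le_abs_self _).trans h11
  have hu2 : 0 < u ^ 2 := by positivity
  have h11 := pm_MoveD_up (hsec t u h6 hm hp).2 (by positivity) hA
    (x := (g + β) * u ^ 2) (by linarith) (by positivity) h4.le
  rw [hsu, add_sub_cancel_left]
  refine ENNReal.ofReal_le_ofReal ?_
  rw [div_le_iff₀ hu2]
  have h12 : ((g + β) * u ^ 2) ^ 2 ≤ β * u ^ 2 := by
    have : ((g + β) * u ^ 2) ^ 2 = ((g + β) ^ 2 * u ^ 2) * u ^ 2 := by ring
    rw [this]
    exact mul_le_mul_of_nonneg_right h3.le hu2.le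
  have h13 : (2 * g + (4 + 4 * C) * β) * u ^ 2 =
      2 * ((g + β) * u ^ 2 + β * u ^ 2 + 2 * (C * β * u ^ 2)) := by ring
  rw [h13]
  linarith

/-- the move lemma: the pressure length of a path is at most `C' (1 + (b-a)) √β` -/
theorem move_bound (𝒞 : Type*) {C : ℝ} (hC : 0 ≤ C) : ∃ C' > 0, ∀ {ℓ : ℝ → 𝒞 → ℝ} {i : 𝒞 → ℝ} {a b β : ℝ},
    MoveHyp ℓ i a b C β → cLen ℓ a b ≤ ENNReal.ofReal (C' * (1 + (b - a)) * Real.sqrt β) := by
  obtain ⟨C₁, hC₁, hlip⟩ := MoveHyp.lip (𝒞 := 𝒞) hC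
  have hD : 0 < 4 * C₁ + 2 * C + (4 + 4 * C) := by positivity
  refine ⟨Real.sqrt (4 * C₁ + 2 * C + (4 + 4 * C)), Real.sqrt_pos.2 hD, ?_⟩
  intro ℓ i a b β H
  have hβ := H.hβ
  have hab := H.hab
  obtain ⟨u₀, hu₀, hsec⟩ := H.second
  obtain ⟨G, hGm, hG1, hG2⟩ := semiconvex_integral (f := fun t => Real.log (cEnt (ℓ t)))
    (M := C * β) (Lp := C₁ * β) hab (by positivity) (by positivity) (hlip H)
    ⟨u₀, hu₀, fun t u hu hu' h h' => by
      have h1 := hsec t u (by rwa [abs_of_pos hu]) h h'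
      have h2 := pm_MoveD_low (h1.1.trans h1.2)
      linarith⟩
  have hnull : ∀ᵐ t : ℝ, t ≠ a ∧ t ≠ b := by
    have h3 : ∀ᵐ t : ℝ, t ≠ a := by
      rw [ae_iff]; simp
    have h4 : ∀ᵐ t : ℝ, t ≠ b := by
      rw [ae_iff]; simp
    filter_upwards [h3, h4] with t h h' using ⟨h, h'⟩
  have hspeed : ∀ᵐ t : ℝ, t ∈ Set.Icc a b →
      cSpeedSq ℓ t ≤ 2 * G t + ENNReal.ofReal ((4 + 4 * C) * β) := by
    filter_upwards [hG1, hnull] with t ht1 ht2 ht
    have ht' : t ∈ Set.Ioo a b :=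
      ⟨lt_of_le_of_ne ht.1 (Ne.symm ht2.1), lt_of_le_of_ne ht.2 ht2.2⟩
    by_cases hGt : G t = ⊤
    · rw [hGt]
      simp
    · have h1 : limsup (fun u : ℝ => ENNReal.ofReal ((Real.log (cEnt (ℓ (t + u))) +
          Real.log (cEnt (ℓ (t - u))) - 2 * Real.log (cEnt (ℓ t))) / u ^ 2 + C * β)) (𝓝[>] 0) <
          ENNReal.ofReal ((G t).toReal + β) := by
        refine (ht1 ht).trans_lt ?_
        rw [ENNReal.ofReal_add ENNReal.toReal_nonneg hβ.le, ENNReal.ofReal_toReal hGt]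
        exact ENNReal.lt_add_right hGt (by simpa using hβ)
      have h2 := eventually_lt_of_limsup_lt h1
      have h3 := pm_MoveD_speed (ℓ := ℓ) (C₁ := C₁) (g := (G t).toReal) hC hβ hu₀
        ENNReal.toReal_nonneg ht' (hlip H) hsec (by
          filter_upwards [h2, self_mem_nhdsWithin] with u hu hu0
          have hu0' : (0 : ℝ) < u := hu0
          have h4 : (Real.log (cEnt (ℓ (t + u))) + Real.log (cEnt (ℓ (t - u))) -
              2 * Real.log (cEnt (ℓ t))) / u ^ 2 + C * β < (G t).toReal + β := by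
            by_contra hcon
            exact absurd (ENNReal.ofReal_le_ofReal (not_lt.1 hcon)) (not_le.2 hu)
          have h5 : (Real.log (cEnt (ℓ (t + u))) + Real.log (cEnt (ℓ (t - u))) -
              2 * Real.log (cEnt (ℓ t))) / u ^ 2 ≤ (G t).toReal + β := by
            have : 0 ≤ C * β := by positivity
            linarith
          rwa [div_le_iff₀ (by positivity)] at h5)
      refine h3.trans (le_of_eq ?_)
      rw [ENNReal.ofReal_add (by positivity) (by positivity), ENNReal.ofReal_mul (by norm_num),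
        ENNReal.ofReal_toReal hGt]
      norm_num
  -- the integral
  have hHm : Measurable fun t => 2 * G t + ENNReal.ofReal ((4 + 4 * C) * β) :=
    (hGm.const_mul 2).add_const _
  have h1 : cLen ℓ a b ≤ ∫⁻ t in Set.Icc a b,
      (2 * G t + ENNReal.ofReal ((4 + 4 * C) * β)) ^ ((1 : ℝ) / 2) := by
    unfold cLen
    refine lintegral_mono_ae ?_
    rw [ae_restrict_iff' measurableSet_Icc]
    filter_upwards [hspeed] with t ht ht'
    exact ENNReal.rpow_le_rpow (ht ht') (by norm_num)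
  have h2 : ∫⁻ t in Set.Icc a b, (2 * G t + ENNReal.ofReal ((4 + 4 * C) * β)) ^ ((1 : ℝ) / 2) ≤
      (∫⁻ t in Set.Icc a b, (2 * G t + ENNReal.ofReal ((4 + 4 * C) * β))) ^ ((1 : ℝ) / 2) *
        (ENNReal.ofReal (b - a)) ^ ((1 : ℝ) / 2) := by
    have h3 := ENNReal.lintegral_mul_le_Lp_mul_Lq (volume.restrict (Set.Icc a b))
      (p := 2) (q := 2) (by constructor <;> norm_num)
      (f := fun t => (2 * G t + ENNReal.ofReal ((4 + 4 * C) * β)) ^ ((1 : ℝ) / 2))
      (g := fun _ => 1) (hHm.pow_const _).aemeasurable aemeasurable_const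
    simp only [Pi.mul_apply, mul_one, ENNReal.one_rpow, lintegral_const, one_mul,
      Measure.restrict_apply_univ, Real.volume_Icc, ← ENNReal.rpow_mul] at h3
    norm_num at h3 ⊢
    exact h3
  have h3 : ∫⁻ t in Set.Icc a b, (2 * G t + ENNReal.ofReal ((4 + 4 * C) * β)) ≤
      ENNReal.ofReal (2 * (2 * (C₁ * β) + C * β * (b - a)) + (4 + 4 * C) * β * (b - a)) := by
    rw [lintegral_add_right _ measurable_const, lintegral_const_mul _ hGm, lintegral_const,
      Measure.restrict_apply_univ, Real.volume_Icc]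
    have hba : 0 ≤ b - a := by linarith
    rw [ENNReal.ofReal_add (by positivity) (by positivity), ENNReal.ofReal_mul (p := 2) (by norm_num),
      ENNReal.ofReal_mul (p := (4 + 4 * C) * β) (by positivity)]
    refine add_le_add ?_ le_rfl
    rw [show ENNReal.ofReal 2 = 2 by norm_num]
    gcongr
  have hba : 0 ≤ b - a := by linarith
  refine h1.trans (h2.trans ?_)
  refine (mul_le_mul_left (ENNReal.rpow_le_rpow h3 (by norm_num)) _).trans ?_
  rw [ENNReal.ofReal_rpow_of_nonneg (by positivity) (by norm_num),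
    ENNReal.ofReal_rpow_of_nonneg hba (by norm_num), ← Real.sqrt_eq_rpow, ← Real.sqrt_eq_rpow,
    ← ENNReal.ofReal_mul (Real.sqrt_nonneg _), ← Real.sqrt_mul (by positivity)]
  refine ENNReal.ofReal_le_ofReal ?_
  have h4 : Real.sqrt (4 * C₁ + 2 * C + (4 + 4 * C)) * (1 + (b - a)) * Real.sqrt β =
      Real.sqrt ((4 * C₁ + 2 * C + (4 + 4 * C)) * (1 + (b - a)) ^ 2 * β) := by
    rw [Real.sqrt_mul (by positivity), Real.sqrt_mul hD.le, Real.sqrt_sq (by positivity)]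
  rw [h4]
  refine Real.sqrt_le_sqrt ?_
  have h5 : (2 * (2 * (C₁ * β) + C * β * (b - a)) + (4 + 4 * C) * β * (b - a)) * (b - a) =
      (4 * C₁ * (b - a) + (2 * C + (4 + 4 * C)) * (b - a) ^ 2) * β := by ring
  rw [h5]
  refine mul_le_mul_of_nonneg_right ?_ hβ.le
  have h6 : (4 * C₁ + 2 * C + (4 + 4 * C)) * (1 + (b - a)) ^ 2 -
      (4 * C₁ * (b - a) + (2 * C + (4 + 4 * C)) * (b - a) ^ 2) =
      4 * C₁ * (1 + (b - a) + (b - a) ^ 2) + (2 * C + (4 + 4 * C)) * (1 + 2 * (b - a)) := by ring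
  have h7 : 0 ≤ 4 * C₁ * (1 + (b - a) + (b - a) ^ 2) +
      (2 * C + (4 + 4 * C)) * (1 + 2 * (b - a)) := by positivity
  linarith

end PM3
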