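import Pool.Agent.LibPM3.MoveDefs

/-! [PM3 MoveE] bound of the average of `i/ℓ` by an exponential sum. -/

namespace PM3
open Filter Topology MeasureTheory

variable {𝒞 : Type*}

private lemma pm_MoveE_exp_tendsto {c : ℝ} (hc : c < 0) (K : ℝ) :
    Tendsto (fun T : ℝ => K * Real.exp (c * T)) atTop (𝓝 0) := by
  have h1 : Tendsto (fun T : ℝ => c * T) atTop atBot :=
    tendsto_id.const_mul_atTop_of_neg hc
  have h2 := (Real.tendsto_exp_atBot.comp h1).const_mul K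
  simpa using h2

private lemma pm_MoveE_count {ℓ i : 𝒞 → ℝ} {s κ₀ : ℝ} (hℓ : ∀ κ, 0 < ℓ κ)
    (hκ₀ : 0 < κ₀)
    (hsum : ∑' κ : {κ : 𝒞 // i κ ≠ 0}, ENNReal.ofReal (Real.exp (κ₀ * i κ - s * ℓ κ)) < ⊤)
    {T a : ℝ} (haT : 0 < a * T) (G : Finset 𝒞) (hG : ∀ κ ∈ G, ℓ κ ≤ T ∧ a * T < i κ) :
    (G.card : ℝ) * Real.exp ((κ₀ * a - max s 0) * T) ≤
      (∑' κ : {κ : 𝒞 // i κ ≠ 0}, ENNReal.ofReal (Real.exp (κ₀ * i κ - s * ℓ κ))).toReal := by
  classical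
  set f : 𝒞 → ENNReal := fun κ => ENNReal.ofReal (Real.exp (κ₀ * i κ - s * ℓ κ)) with hf
  have e1 : (∑' κ : {κ : 𝒞 // i κ ≠ 0}, f κ) = ∑' κ, ({κ : 𝒞 | i κ ≠ 0}).indicator f κ :=
    tsum_subtype {κ : 𝒞 | i κ ≠ 0} f
  have e2 : ∑ κ ∈ G, ({κ : 𝒞 | i κ ≠ 0}).indicator f κ ≤
      ∑' κ, ({κ : 𝒞 | i κ ≠ 0}).indicator f κ := ENNReal.sum_le_tsum _
  have e3 : ∑ _κ ∈ G, ENNReal.ofReal (Real.exp ((κ₀ * a - max s 0) * T)) ≤
      ∑ κ ∈ G, ({κ : 𝒞 | i κ ≠ 0}).indicator f κ := by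
    refine Finset.sum_le_sum fun κ hκ => ?_
    obtain ⟨h1, h2⟩ := hG κ hκ
    have h3 : κ ∈ {κ : 𝒞 | i κ ≠ 0} := by
      have : 0 < i κ := haT.trans h2
      exact this.ne'
    rw [Set.indicator_of_mem h3]
    refine ENNReal.ofReal_le_ofReal (Real.exp_le_exp.2 ?_)
    have h4 : s * ℓ κ ≤ max s 0 * T := by
      have h5 : s * ℓ κ ≤ max s 0 * ℓ κ :=
        mul_le_mul_of_nonneg_right (le_max_left _ _) (hℓ κ).le
      have h6 : max s 0 * ℓ κ ≤ max s 0 * T :=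
        mul_le_mul_of_nonneg_left h1 (le_max_right _ _)
      exact h5.trans h6
    have h7 : κ₀ * (a * T) ≤ κ₀ * i κ := mul_le_mul_of_nonneg_left h2.le hκ₀.le
    nlinarith
  have e4 : (G.card : ENNReal) * ENNReal.ofReal (Real.exp ((κ₀ * a - max s 0) * T)) ≤
      ∑' κ : {κ : 𝒞 // i κ ≠ 0}, f κ := by
    rw [e1]
    refine le_trans ?_ (e3.trans e2)
    rw [Finset.sum_const, nsmul_eq_mul]
  have e5 := ENNReal.toReal_mono hsum.ne e4
  rw [ENNReal.toReal_mul, ENNReal.toReal_natCast, ENNReal.toReal_ofReal (Real.exp_pos _).le] at e5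
  exact e5

theorem avg_bound {ℓ i : 𝒞 → ℝ} {h s κ₀ C : ℝ} (hℓ : ∀ κ, 0 < ℓ κ) (hi : ∀ κ, 0 ≤ i κ)
    (hC : ∀ κ, i κ ≤ C * ℓ κ) (fin : ∀ T, (cR ℓ T).Finite)
    (lim : Tendsto (fun T : ℝ => Real.log ((cR ℓ T).ncard) / T) atTop (𝓝 h)) (hh : 0 < h)
    (hκ₀ : 0 < κ₀)
    (hsum : ∑' κ : {κ : 𝒞 // i κ ≠ 0}, ENNReal.ofReal (Real.exp (κ₀ * i κ - s * ℓ κ)) < ⊤)
    {β' : ℝ} (hβ : 0 < β') (hβ' : (s - h) / κ₀ < β') :
    ∀ᶠ T in atTop, (∑ᶠ κ ∈ cR ℓ T, i κ / ℓ κ) / ((cR ℓ T).ncard : ℝ) ≤ β' := by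
  classical
  obtain ⟨K, hK0, hiK⟩ : ∃ K : ℝ, 0 ≤ K ∧ ∀ κ, i κ ≤ K * ℓ κ :=
    ⟨max C 0, le_max_right _ _, fun κ =>
      (hC κ).trans (mul_le_mul_of_nonneg_right (le_max_left _ _) (hℓ κ).le)⟩
  obtain ⟨a, ha1, ha2⟩ := exists_between (max_lt hβ hβ' : max 0 ((s - h) / κ₀) < β')
  have ha0 : 0 < a := (le_max_left _ _).trans_lt ha1
  have has : s - h < κ₀ * a := by
    have := (le_max_right _ _).trans_lt ha1
    rw [div_lt_iff₀ hκ₀] at this
    linarith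
  obtain ⟨r, hr1, hr2⟩ : ∃ r, a / β' < r ∧ r < 1 := exists_between ((div_lt_one hβ).2 ha2)
  have hr0 : 0 < r := (div_pos ha0 hβ).trans hr1
  have harb : a / r < β' := by
    rw [div_lt_iff₀ hr0]
    rw [div_lt_iff₀ hβ] at hr1
    linarith
  obtain ⟨sp, hspdef⟩ : ∃ sp, sp = max s 0 := ⟨_, rfl⟩
  have hsp : sp - κ₀ * a < h := by
    rw [hspdef]
    rcases le_total s 0 with h' | h'
    · rw [max_eq_right h']
      have := mul_pos hκ₀ ha0
      linarith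
    · rw [max_eq_left h']
      linarith
  have hhr : h * r < h := by nlinarith
  obtain ⟨h1, hh1, hh1'⟩ : ∃ h1, max (max (h * r) (sp - κ₀ * a)) 0 < h1 ∧ h1 < h :=
    exists_between (max_lt (max_lt hhr hsp) hh)
  have hh1a : h * r < h1 := ((le_max_left _ _).trans (le_max_left _ _)).trans_lt hh1
  have hh1b : sp - κ₀ * a < h1 := ((le_max_right _ _).trans (le_max_left _ _)).trans_lt hh1
  have hh1c : 0 < h1 := (le_max_right _ _).trans_lt hh1
  obtain ⟨h2, hh2, hh2'⟩ : ∃ h2, h < h2 ∧ h2 < h1 / r :=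
    exists_between ((lt_div_iff₀ hr0).2 hh1a)
  have hh2r : h2 * r < h1 := (lt_div_iff₀ hr0).1 hh2'
  set M : ℝ := (∑' κ : {κ : 𝒞 // i κ ≠ 0},
    ENNReal.ofReal (Real.exp (κ₀ * i κ - s * ℓ κ))).toReal with hM
  have hM0 : 0 ≤ M := ENNReal.toReal_nonneg
  have hγ : 0 < (β' - a / r) / 2 := by linarith
  have limr : Tendsto (fun T : ℝ => Real.log ((cR ℓ (r * T)).ncard) / (r * T)) atTop (𝓝 h) :=
    lim.comp (tendsto_id.const_mul_atTop hr0)
  have t1 := (pm_MoveE_exp_tendsto (c := h2 * r - h1) (by linarith) K).eventually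
    (gt_mem_nhds hγ)
  have t2 := (pm_MoveE_exp_tendsto (c := sp - κ₀ * a - h1) (by linarith) (K * M)).eventually
    (gt_mem_nhds hγ)
  filter_upwards [lim.eventually (lt_mem_nhds hh1'), limr.eventually (gt_mem_nhds hh2), t1, t2,
    eventually_gt_atTop 0] with T hA hB hE1 hE2 hT
  -- lower bound of the count
  have hlogA : h1 * T < Real.log ((cR ℓ T).ncard) := (lt_div_iff₀ hT).1 hA
  have hn0 : (0 : ℝ) < ((cR ℓ T).ncard : ℝ) := by
    rcases Nat.eq_zero_or_pos (cR ℓ T).ncard with h0 | h0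
    · rw [h0] at hlogA
      simp at hlogA
      nlinarith [mul_pos hh1c hT]
    · exact_mod_cast h0
  have hnlow : Real.exp (h1 * T) ≤ ((cR ℓ T).ncard : ℝ) := by
    rw [← Real.exp_log hn0]
    exact Real.exp_le_exp.2 hlogA.le
  have hrT : 0 < r * T := mul_pos hr0 hT
  have hlogB : Real.log ((cR ℓ (r * T)).ncard) < h2 * (r * T) := (div_lt_iff₀ hrT).1 hB
  have hnup : ((cR ℓ (r * T)).ncard : ℝ) ≤ Real.exp (h2 * (r * T)) := by
    rcases Nat.eq_zero_or_pos (cR ℓ (r * T)).ncard with h0 | h0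
    · rw [h0]
      simpa using (Real.exp_pos _).le
    · have h0' : (0 : ℝ) < ((cR ℓ (r * T)).ncard : ℝ) := by exact_mod_cast h0
      rw [← Real.exp_log h0']
      exact Real.exp_le_exp.2 hlogB.le
  set F := (fin T).toFinset with hF
  have hcard : ((cR ℓ T).ncard : ℝ) = (F.card : ℝ) := by
    rw [Set.ncard_eq_toFinset_card _ (fin T)]
  rw [finsum_mem_eq_finite_toFinset_sum _ (fin T)]
  have hFmem : ∀ κ ∈ F, ℓ κ ≤ T := by
    intro κ hκ
    have := (fin T).mem_toFinset.1 hκ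
    exact this
  set G1 := F.filter (fun κ => ℓ κ ≤ r * T) with hG1
  set G2 := F.filter (fun κ => a * T < i κ) with hG2
  have hpt : ∀ κ ∈ F, i κ / ℓ κ ≤ a / r + (if ℓ κ ≤ r * T then K else 0) +
      (if a * T < i κ then K else 0) := by
    intro κ hκ
    have hK1 : i κ / ℓ κ ≤ K := (div_le_iff₀ (hℓ κ)).2 (hiK κ)
    have har0 : 0 ≤ a / r := (div_pos ha0 hr0).le
    by_cases c1 : ℓ κ ≤ r * T
    · rw [if_pos c1]
      split_ifs <;> linarith
    · rw [if_neg c1]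
      by_cases c2 : a * T < i κ
      · rw [if_pos c2]
        linarith
      · rw [if_neg c2]
        push Not at c1 c2
        have : i κ / ℓ κ ≤ a / r := by
          rw [div_le_div_iff₀ (hℓ κ) hr0]
          nlinarith
        linarith
  have hsumle : ∑ κ ∈ F, i κ / ℓ κ ≤ a / r * F.card + K * G1.card + K * G2.card := by
    refine (Finset.sum_le_sum hpt).trans (le_of_eq ?_)
    rw [Finset.sum_add_distrib, Finset.sum_add_distrib, Finset.sum_const, nsmul_eq_mul,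
      ← Finset.sum_filter, ← Finset.sum_filter, Finset.sum_const, Finset.sum_const,
      nsmul_eq_mul, nsmul_eq_mul]
    ring
  have hG1card : (G1.card : ℝ) ≤ ((cR ℓ (r * T)).ncard : ℝ) := by
    rw [Set.ncard_eq_toFinset_card _ (fin (r * T))]
    exact_mod_cast Finset.card_le_card (fun κ hκ =>
      (fin (r * T)).mem_toFinset.2 (Finset.mem_filter.1 hκ).2)
  have hG2card : (G2.card : ℝ) * Real.exp ((κ₀ * a - max s 0) * T) ≤ M :=
    pm_MoveE_count hℓ hκ₀ hsum (mul_pos ha0 hT) G2 (fun κ hκ =>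
      ⟨hFmem κ (Finset.mem_filter.1 hκ).1, (Finset.mem_filter.1 hκ).2⟩)
  rw [← hspdef] at hG2card
  have hG2' : (G2.card : ℝ) ≤ M * Real.exp ((sp - κ₀ * a) * T) := by
    have e : Real.exp ((sp - κ₀ * a) * T) * Real.exp ((κ₀ * a - sp) * T) = 1 := by
      rw [← Real.exp_add, ← Real.exp_zero]
      congr 1
      ring
    have hp := (Real.exp_pos ((sp - κ₀ * a) * T)).le
    calc (G2.card : ℝ) = (G2.card : ℝ) * Real.exp ((κ₀ * a - sp) * T) *
          Real.exp ((sp - κ₀ * a) * T) := by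
          rw [mul_assoc, mul_comm (Real.exp ((κ₀ * a - sp) * T)), e, mul_one]
      _ ≤ M * Real.exp ((sp - κ₀ * a) * T) := mul_le_mul_of_nonneg_right hG2card hp
  rw [div_le_iff₀ hn0]
  have hx1 : K * (G1.card : ℝ) ≤ (β' - a / r) / 2 * ((cR ℓ T).ncard : ℝ) := by
    have e1 : K * (G1.card : ℝ) ≤ K * Real.exp (h2 * (r * T)) :=
      mul_le_mul_of_nonneg_left (hG1card.trans hnup) hK0
    have e2 : K * Real.exp (h2 * (r * T)) =
        K * Real.exp ((h2 * r - h1) * T) * Real.exp (h1 * T) := by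
      rw [mul_assoc, ← Real.exp_add]
      congr 2
      ring
    rw [e2] at e1
    refine e1.trans ?_
    exact mul_le_mul hE1.le hnlow (Real.exp_pos _).le hγ.le
  have hx2 : K * (G2.card : ℝ) ≤ (β' - a / r) / 2 * ((cR ℓ T).ncard : ℝ) := by
    have e1 : K * (G2.card : ℝ) ≤ K * (M * Real.exp ((sp - κ₀ * a) * T)) :=
      mul_le_mul_of_nonneg_left hG2' hK0
    have e2 : K * (M * Real.exp ((sp - κ₀ * a) * T)) =
        K * M * Real.exp ((sp - κ₀ * a - h1) * T) * Real.exp (h1 * T) := by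
      rw [mul_assoc (K * M), ← Real.exp_add, mul_assoc]
      congr 3
      ring
    rw [e2] at e1
    refine e1.trans ?_
    exact mul_le_mul hE2.le hnlow (Real.exp_pos _).le hγ.le
  have hcard' : a / r * (F.card : ℝ) = a / r * ((cR ℓ T).ncard : ℝ) := by rw [hcard]
  calc ∑ κ ∈ F, i κ / ℓ κ ≤ a / r * F.card + K * G1.card + K * G2.card := hsumle
    _ ≤ a / r * ((cR ℓ T).ncard : ℝ) + (β' - a / r) / 2 * ((cR ℓ T).ncard : ℝ) +
        (β' - a / r) / 2 * ((cR ℓ T).ncard : ℝ) := by rw [hcard']; linarith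
    _ = β' * ((cR ℓ T).ncard : ℝ) := by ring

end PM3
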