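import Pool.Agent.LibPM3.GoGE
import Pool.Agent.LibPM3.GoGF
import Pool.Agent.LibPM3.MatC
import Pool.Agent.LibPM3.MoveD
import Pool.Agent.LibPM3.MoveE
import Pool.Agent.LibPM3.GrowthE
import Pool.Agent.LibPM3.Bridge

/-! [PM3 GoGG] regularity along a path of parameters; the application of the move lemma. -/

namespace PM3
open Matrix Filter Topology
open scoped MatrixGroups

noncomputable section

/-- a one-parameter deformation inside the family: the crossing diagonals of the ports in `M` are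
multiplied by `e^{t h}`, the others are constant -/
structure DefPath {Γ Z Q : Type} [Group Γ] (ps : PS Γ Z Q) (ζ : ℝ → Z) (M : Set Q)
    (hd : Q → Fin 3 → ℝ) (H : ℝ) : Prop where
  hD : ∀ p t i, ps.D0 p (ζ t) i = ps.D0 p (ζ 0) i * Real.exp (t * hd p i)
  hH : ∀ p i, |hd p i| ≤ H
  hM : ∀ p, p ∉ M → hd p = 0

section
variable {Γ Z Q : Type} [Group Γ] {ps : PS Γ Z Q}

theorem pm_GoGG1_out_lam {K κ : ℝ} {Λ : Set Q} {Φ : Set (Z → GL (Fin 3) ℝ)} {C : ConjClasses Γ}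
    {cw : CW Q} (hcw : RepBy ps K κ Λ Φ C cw) (z : Z) :
    lam (ps.r z (Quotient.out C) : M3) = lam (ps.evC z cw) := by
  obtain ⟨_, γ', hγ', φ, _, he⟩ := hcw
  have h1 : IsConj γ' (Quotient.out C) := by
    rw [← ConjClasses.mk_eq_mk_iff_isConj, hγ']
    exact (Quotient.out_eq C).symm
  obtain ⟨c, hc⟩ := isConj_iff.mp h1
  rw [← he z, ← hc]
  have h2 : (ps.r z (c * γ' * c⁻¹) : M3) =
      (ps.r z c : M3) * (ps.r z γ' : M3) * (((ps.r z c)⁻¹ : GL (Fin 3) ℝ) : M3) := by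
    simp [map_mul, map_inv]
  rw [h2, lam_conj]
  have h3 := lam_conj (φ z)⁻¹ (ps.r z γ' : M3)
  rw [inv_inv] at h3
  exact h3.symm

theorem pm_GoGG1_defL {K κ : ℝ} {Λ M : Set Q} {ζ : ℝ → Z} {hd : Q → Fin 3 → ℝ} {H : ℝ}
    (hζ : DefPath ps ζ M hd H) {l : List (Q × ℤ × M3)} (t : ℝ) :
    ps.evL l (ζ t) =
      defL (l.map (fun x => (ps.Dl x.1 x.2.1 (ζ 0), hd x.1, x.2.2))) t := by
  unfold PS.evL defL
  rw [List.map_map]
  congr 1
  apply List.map_congr_left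
  intro x _
  simp only [Function.comp]
  congr 1
  funext i
  simp only [expd, PS.Dl, hζ.hD x.1 t i]
  ring

theorem pm_GoGG1_adm {K κ : ℝ} {Λ M : Set Q} {ζ : ℝ → Z} {hd : Q → Fin 3 → ℝ} {H : ℝ}
    (hζ : DefPath ps ζ M hd H) {l : List (Q × ℤ × M3)} (hl : OkL K κ Λ l) :
    AdmL K H (l.map (fun x => (ps.Dl x.1 x.2.1 (ζ 0), hd x.1, x.2.2))) := by
  intro y hy
  obtain ⟨x, hx, rfl⟩ := List.mem_map.mp hy
  obtain ⟨_, hB⟩ := hl x hx
  exact ⟨(Dl_pos ps x.1 x.2.1 (ζ 0)).1, hζ.hH x.1, hB.pos, hB.row, hB.col⟩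

theorem pm_GoGG1_cnt {M : Set Q} {ζ : ℝ → Z} {hd : Q → Fin 3 → ℝ} {H : ℝ}
    (hζ : DefPath ps ζ M hd H) (l : List (Q × ℤ × M3)) :
    cntH (l.map (fun x => (ps.Dl x.1 x.2.1 (ζ 0), hd x.1, x.2.2))) ≤ cntL M l := by
  unfold cntH cntL
  rw [List.filter_map, List.length_map]
  apply List.Sublist.length_le
  apply List.monotone_filter_right
  intro x hx
  simp only [Function.comp, decide_eq_true_eq] at hx ⊢
  by_contra hcon
  exact hx (hζ.hM x.1 hcon)

theorem reg_lip {K κ : ℝ} {Λ M : Set Q} {Φ : Set (Z → GL (Fin 3) ℝ)} {ζ : ℝ → Z}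
    {hd : Q → Fin 3 → ℝ} {H : ℝ} (hζ : DefPath ps ζ M hd H) {C : ConjClasses Γ} {cw : CW Q}
    (hcw : RepBy ps K κ Λ Φ C cw) (s t : ℝ) :
    |Real.log (lam (ps.r (ζ s) (Quotient.out C) : M3)) - Real.log (lam (ps.r (ζ t) (Quotient.out C) : M3))|
      ≤ H * cw.cnt M * |s - t| := by
  rw [pm_GoGG1_out_lam hcw, pm_GoGG1_out_lam hcw]
  obtain ⟨hok, _⟩ := hcw
  cases cw with
  | cst B =>
    simp [PS.evC, CW.cnt]
  | cyc l =>
    obtain ⟨hne, hl⟩ := hok
    simp only [PS.evC, CW.cnt]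
    rw [pm_GoGG1_defL (K := K) (κ := κ) (Λ := Λ) hζ s, pm_GoGG1_defL (K := K) (κ := κ) (Λ := Λ) hζ t]
    have h1 := log_lam_lip _ (by simpa using hne) (pm_GoGG1_adm hζ hl) s t
    refine h1.trans ?_
    apply mul_le_mul_of_nonneg_right _ (abs_nonneg _)
    have hH : 0 ≤ H := by
      obtain ⟨x, hx⟩ := List.exists_mem_of_ne_nil l hne
      exact (abs_nonneg _).trans (hζ.hH x.1 0)
    apply mul_le_mul_of_nonneg_left _ hH
    exact_mod_cast pm_GoGG1_cnt hζ l

theorem reg_second {K κ H : ℝ} (hK : 1 ≤ K) (hH : 0 ≤ H) : ∃ C₂ > 0, ∃ u₀ > 0,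
    ∀ {Γ Z Q : Type} [Group Γ] {ps : PS Γ Z Q} {Λ M : Set Q} {Φ : Set (Z → GL (Fin 3) ℝ)} {ζ : ℝ → Z}
    {hd : Q → Fin 3 → ℝ} (_ : DefPath ps ζ M hd H) {C : ConjClasses Γ} {cw : CW Q}
    (_ : RepBy ps K κ Λ Φ C cw) (t u : ℝ), |u| ≤ u₀ →
    Real.log (lam (ps.r (ζ (t + u)) (Quotient.out C) : M3))
      + Real.log (lam (ps.r (ζ (t - u)) (Quotient.out C) : M3))
      - 2 * Real.log (lam (ps.r (ζ t) (Quotient.out C) : M3)) ≤ C₂ * cw.cnt M * u ^ 2 := by
  obtain ⟨C₂, hC₂, u₀, hu₀, key⟩ := log_lam_second hK hH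
  refine ⟨C₂, hC₂, u₀, hu₀, ?_⟩
  intro Γ Z Q _ ps Λ M Φ ζ hd hζ C cw hcw t u hu
  rw [pm_GoGG1_out_lam hcw, pm_GoGG1_out_lam hcw, pm_GoGG1_out_lam hcw]
  obtain ⟨hok, _⟩ := hcw
  cases cw with
  | cst B =>
    simp only [PS.evC, CW.cnt, Nat.cast_zero, mul_zero, zero_mul]
    linarith
  | cyc l =>
    obtain ⟨hne, hl⟩ := hok
    simp only [PS.evC, CW.cnt]
    rw [pm_GoGG1_defL (K := K) (κ := κ) (Λ := Λ) hζ (t + u),
      pm_GoGG1_defL (K := K) (κ := κ) (Λ := Λ) hζ (t - u),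
      pm_GoGG1_defL (K := K) (κ := κ) (Λ := Λ) hζ t]
    have h1 := key _ (by simpa using hne) (pm_GoGG1_adm hζ hl) t u hu
    refine h1.trans ?_
    apply mul_le_mul_of_nonneg_right _ (sq_nonneg _)
    apply mul_le_mul_of_nonneg_left _ hC₂.le
    exact_mod_cast pm_GoGG1_cnt hζ l
end

theorem pm_GoGG2_logmono {a b : ℕ} (h : a ≤ b) : Real.log a ≤ Real.log b := by
  rcases Nat.eq_zero_or_pos a with h0 | h0
  · subst h0
    simp only [Nat.cast_zero, Real.log_zero]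
    exact Real.log_natCast_nonneg b
  · exact Real.log_le_log (by exact_mod_cast h0) (by exact_mod_cast h)

/-- squeezing two counting functions -/
theorem pm_GoGG2_squeeze {n a : ℝ → ℕ} {E C C₁ : ℝ} (hC : 0 < C) (hC₁ : 0 ≤ C₁)
    (hn : Tendsto (fun T : ℝ => Real.log (n T) / T) atTop (𝓝 E))
    (h1 : ∀ T, a T ≤ n (T + C₁))
    (h2 : ∀ T, 0 ≤ T → (n T : ℝ) ≤ C * (1 + T) * (a (T + C) + 1)) :
    Tendsto (fun T : ℝ => Real.log (a T) / T) atTop (𝓝 E) := by
  have hquot : ∀ c : ℝ, Tendsto (fun T : ℝ => (T + c) / T) atTop (𝓝 1) := by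
    intro c
    have h3 : Tendsto (fun T : ℝ => 1 + c / T) atTop (𝓝 (1 + 0)) :=
      tendsto_const_nhds.add (tendsto_const_nhds.div_atTop tendsto_id)
    rw [add_zero] at h3
    refine h3.congr' ?_
    filter_upwards [eventually_gt_atTop (0 : ℝ)] with T hT
    field_simp
  have hshift : ∀ c : ℝ, Tendsto (fun T : ℝ => Real.log (n (T + c)) / T) atTop (𝓝 E) := by
    intro c
    have h3 : Tendsto (fun T : ℝ => T + c) atTop atTop := tendsto_atTop_add_const_right _ _ tendsto_id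
    have h4 := (hn.comp h3).mul (hquot c)
    rw [mul_one] at h4
    refine h4.congr' ?_
    filter_upwards [eventually_gt_atTop (0 : ℝ), eventually_gt_atTop (-c)] with T hT hT2
    have h5 : T + c ≠ 0 := by linarith
    simp only [Function.comp]
    field_simp
  have hlog : Tendsto (fun T : ℝ => Real.log (2 * (C * (1 + (T - C)))) / T) atTop (𝓝 0) := by
    have h3 : Tendsto (fun T : ℝ => 2 * (C * (1 + (T - C)))) atTop atTop := by
      apply Tendsto.const_mul_atTop (by norm_num)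
      apply Tendsto.const_mul_atTop hC
      apply tendsto_atTop_add_const_left
      exact tendsto_atTop_add_const_right _ _ tendsto_id
    have h4 := (Real.isLittleO_log_id_atTop.comp_tendsto h3).tendsto_div_nhds_zero
    have h5 : Tendsto (fun T : ℝ => 2 * (C * (1 + (T - C))) / T) atTop (𝓝 (2 * C)) := by
      have h6 := (hquot (1 - C)).const_mul (2 * C)
      rw [mul_one] at h6
      refine h6.congr' ?_
      filter_upwards [eventually_gt_atTop (0 : ℝ)] with T hT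
      field_simp
      ring
    have h6 := h4.mul h5
    rw [zero_mul] at h6
    refine h6.congr' ?_
    filter_upwards [eventually_gt_atTop (0 : ℝ), eventually_gt_atTop C] with T hT hT2
    have h7 : 2 * (C * (1 + (T - C))) ≠ 0 := by
      have : 0 < 1 + (T - C) := by linarith
      positivity
    simp only [Function.comp, id]
    field_simp
  have hlow : Tendsto (fun T : ℝ => Real.log (n (T + -C)) / T -
      Real.log (2 * (C * (1 + (T - C)))) / T) atTop (𝓝 (E - 0)) := (hshift (-C)).sub hlog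
  rw [sub_zero] at hlow
  refine tendsto_of_tendsto_of_tendsto_of_le_of_le' hlow (hshift C₁) ?_ ?_
  · filter_upwards [eventually_gt_atTop (0 : ℝ), eventually_ge_atTop C,
      eventually_ge_atTop (C + 1 / C)] with T hT hT2 hT3
    have h3 := h2 (T - C) (by linarith)
    rw [sub_add_cancel] at h3
    have h4 : (a T : ℝ) + 1 ≤ 2 * max (a T : ℝ) 1 := by
      have := le_max_left (a T : ℝ) 1
      have := le_max_right (a T : ℝ) 1
      linarith
    have hlogmax : Real.log (max (a T : ℝ) 1) = Real.log (a T) := by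
      rcases Nat.eq_zero_or_pos (a T) with h0 | h0
      · rw [h0]; simp
      · rw [max_eq_left (by exact_mod_cast h0)]
    have hm0 : 0 < max (a T : ℝ) 1 := lt_of_lt_of_le one_pos (le_max_right _ _)
    have hpos : 0 < 2 * (C * (1 + (T - C))) := by
      have : 0 < 1 + (T - C) := by linarith
      positivity
    have h5 : (n (T - C) : ℝ) ≤ 2 * (C * (1 + (T - C))) * max (a T : ℝ) 1 := by
      calc (n (T - C) : ℝ) ≤ C * (1 + (T - C)) * (a T + 1) := h3
        _ ≤ C * (1 + (T - C)) * (2 * max (a T : ℝ) 1) := by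
            apply mul_le_mul_of_nonneg_left h4
            have : 0 < 1 + (T - C) := by linarith
            positivity
        _ = _ := by ring
    have hge : 1 ≤ 2 * (C * (1 + (T - C))) := by
      have h6 : 1 / C ≤ T - C := by linarith
      have h7 : 1 ≤ C * (T - C) := by
        rw [div_le_iff₀ hC] at h6
        linarith
      nlinarith
    have h6 : Real.log (n (T - C)) ≤ Real.log (2 * (C * (1 + (T - C)))) + Real.log (a T) := by
      rw [← hlogmax, ← Real.log_mul hpos.ne' hm0.ne']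
      rcases Nat.eq_zero_or_pos (n (T - C)) with h0 | h0
      · rw [h0, Nat.cast_zero, Real.log_zero]
        apply Real.log_nonneg
        have := le_max_right (a T : ℝ) 1
        nlinarith
      · exact Real.log_le_log (by exact_mod_cast h0) h5
    rw [← sub_div, ← sub_eq_add_neg]
    apply div_le_div_of_nonneg_right _ hT.le
    linarith
  · filter_upwards [eventually_gt_atTop (0 : ℝ)] with T hT
    apply div_le_div_of_nonneg_right _ hT.le
    exact pm_GoGG2_logmono (h1 T)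

/-- counting of the classes of the closed group by the sizes -/
theorem lim_classes {Z Q : Type} {ps : PS Surf Z Q} {K κ : ℝ} (hκ : 0 < κ) {Λ : Set Q}
    {Φ : Finset (Z → GL (Fin 3) ℝ)} (hC : CR ps K κ Λ ⊤ (Φ : Set _)) (ρ₀ : Surf →* SL(2, ℝ)) (α β : Surf)
    (hfin : ∀ C : ℝ, {γ : Surf | nrm2 (ρ₀ γ : Matrix (Fin 2) (Fin 2) ℝ) ≤ C}.Finite)
    (hα : 2 < |(ρ₀ α : Matrix (Fin 2) (Fin 2) ℝ).trace|)
    (hβ : 2 < |(ρ₀ β : Matrix (Fin 2) (Fin 2) ℝ).trace|)
    (hαβ : ((ρ₀ (α * β * α⁻¹ * β⁻¹)) : Matrix (Fin 2) (Fin 2) ℝ).trace ≠ 2) {c : ℝ} (p : Q) (z : Z)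
    (hN : IsSize ρ₀ α β c ⊤ (ps.N p z)) :
    (∀ T, {κ : Cls | Real.log (lam (ps.r z (Quotient.out κ.1) : M3)) ≤ T}.Finite) ∧
    Tendsto (fun T : ℝ => Real.log
      ({κ : Cls | Real.log (lam (ps.r z (Quotient.out κ.1) : M3)) ≤ T}.ncard) / T) atTop
      (𝓝 (expo ⊤ (ps.N p z))) := by
  classical
  obtain ⟨B₀, hB₀, hg⟩ := growth ρ₀ α β hfin hα hβ hαβ c
  obtain ⟨_, _, hfinX, hlim, _, hcls, _, _⟩ := hg ⊤ (ps.N p z) hN
  -- frame change constants
  have hfc : ∀ φ : Z → GL (Fin 3) ℝ, ∃ c > 0, ∀ A : M3,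
      nrm ((((ps.F p z)⁻¹ : GL (Fin 3) ℝ) : M3) * A * (ps.F p z : M3)) ≤
        c * nrm ((((φ z)⁻¹ : GL (Fin 3) ℝ) : M3) * A * (φ z : M3)) :=
    fun φ => nrm_frame_change (ps.F p z) (φ z)
  choose cf hcf0 hcf using hfc
  set c₀ : ℝ := 1 + ∑ φ ∈ Φ, cf φ with hc₀
  have hc₀pos : 0 < c₀ := by
    have : 0 ≤ ∑ φ ∈ Φ, cf φ := Finset.sum_nonneg fun φ _ => (hcf0 φ).le
    linarith
  have hc₀le : ∀ φ ∈ Φ, cf φ ≤ c₀ := by
    intro φ hφ
    have := Finset.single_le_sum (f := cf) (fun φ _ => (hcf0 φ).le) hφ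
    linarith
  -- representatives
  have hrep : ∀ x : Cls, ∃ γ' : Surf, ConjClasses.mk γ' = x.1 ∧
      1 < lam (ps.r z (Quotient.out x.1) : M3) ∧
      ps.N p z γ' ≤ c₀ * (9 * K ^ 2 * lam (ps.r z (Quotient.out x.1) : M3)) := by
    intro x
    have hne : (Quotient.out x.1 : Surf) ≠ 1 := by
      intro h0
      apply x.2
      have h1 : ConjClasses.mk (Quotient.out x.1 : Surf) = x.1 := Quotient.out_eq x.1
      rw [← h1, h0]
      rfl
    obtain ⟨γ', _, hconj, φ, hφ, cw, hok, he⟩ := hC _ (Subgroup.mem_top _) hne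
    have hmk : ConjClasses.mk γ' = x.1 := by
      rw [← Quotient.out_eq x.1]
      exact (ConjClasses.mk_eq_mk_iff_isConj.mpr hconj).symm
    have hrb : RepBy ps K κ Λ (Φ : Set _) x.1 cw := ⟨hok, γ', hmk, φ, hφ, he⟩
    have hlam := pm_GoGG1_out_lam hrb z
    obtain ⟨hn1, hn2⟩ := nrm_evC_le hκ hok ps z
    have hlogpos : 0 < Real.log (lam (ps.evC z cw)) := by
      have : 0 < Real.log (1 + κ) := Real.log_pos (by linarith)
      linarith
    have hl0 := lam_nonneg (ps.evC z cw)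
    have hl1 : 1 < lam (ps.evC z cw) := by
      by_contra hcon
      have := Real.log_nonpos hl0 (not_lt.mp hcon)
      linarith
    refine ⟨γ', hmk, by rw [hlam]; exact hl1, ?_⟩
    rw [hlam]
    have h1 := hcf φ (ps.r z γ' : M3)
    rw [he z] at h1
    have h2 : 0 ≤ nrm (ps.evC z cw) := nrm_nonneg _
    calc ps.N p z γ' ≤ cf φ * nrm (ps.evC z cw) := h1
      _ ≤ c₀ * nrm (ps.evC z cw) := mul_le_mul_of_nonneg_right (hc₀le φ hφ) h2
      _ ≤ _ := mul_le_mul_of_nonneg_left hn1 hc₀pos.le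
  choose rep hrep1 hrep2 hrep3 using hrep
  -- the shift
  set C₁ : ℝ := |Real.log (c₀ * (9 * K ^ 2))| with hC₁
  have hexpC₁ : c₀ * (9 * K ^ 2) ≤ Real.exp C₁ := by
    rcases le_or_gt (c₀ * (9 * K ^ 2)) 0 with h | h
    · exact h.trans (Real.exp_pos _).le
    · rw [← Real.log_le_iff_le_exp h]
      exact le_abs_self _
  have hmaps : ∀ T : ℝ, ∀ x ∈ {x : Cls | Real.log (lam (ps.r z (Quotient.out x.1) : M3)) ≤ T},
      rep x ∈ nX ⊤ (ps.N p z) (T + C₁) := by
    intro T x hx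
    refine ⟨Subgroup.mem_top _, ?_⟩
    have h1 : lam (ps.r z (Quotient.out x.1) : M3) ≤ Real.exp T := by
      rw [← Real.log_le_iff_le_exp (by linarith [hrep2 x])]
      exact hx
    calc ps.N p z (rep x) ≤ c₀ * (9 * K ^ 2 * lam (ps.r z (Quotient.out x.1) : M3)) := hrep3 x
      _ = (c₀ * (9 * K ^ 2)) * lam (ps.r z (Quotient.out x.1) : M3) := by ring
      _ ≤ Real.exp C₁ * Real.exp T := by
          apply mul_le_mul hexpC₁ h1 (lam_nonneg _) (Real.exp_pos _).le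
      _ = Real.exp (T + C₁) := by rw [← Real.exp_add, add_comm]
  have hinj : Function.Injective rep := by
    intro x y hxy
    apply Subtype.ext
    rw [← hrep1 x, ← hrep1 y, hxy]
  have hfinA : ∀ T : ℝ,
      {x : Cls | Real.log (lam (ps.r z (Quotient.out x.1) : M3)) ≤ T}.Finite := by
    intro T
    exact Set.Finite.of_injOn (f := rep) (fun x hx => hmaps T x hx) hinj.injOn (hfinX (T + C₁))
  refine ⟨hfinA, ?_⟩
  refine pm_GoGG2_squeeze (n := fun T => (nX ⊤ (ps.N p z) T).ncard)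
    (a := fun T => {x : Cls | Real.log (lam (ps.r z (Quotient.out x.1) : M3)) ≤ T}.ncard)
    (C₁ := C₁) hB₀ (abs_nonneg _) hlim ?_ ?_
  · intro T
    exact Set.ncard_le_ncard_of_injOn rep (hmaps T) hinj.injOn (hfinX (T + C₁))
  · intro T hT
    refine (hcls T hT).trans ?_
    have h1 : (nC ⊤ (ps.N p z) (T + B₀)).ncard ≤
        {x : Cls | Real.log (lam (ps.r z (Quotient.out x.1) : M3)) ≤ T + B₀}.ncard := by
      have hsub : nC ⊤ (ps.N p z) (T + B₀) ⊆ Subtype.val ''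
          {x : Cls | Real.log (lam (ps.r z (Quotient.out x.1) : M3)) ≤ T + B₀} := by
        rintro k ⟨hk, g, ⟨_, hgN⟩, hmk⟩
        refine ⟨⟨k, hk⟩, ?_, rfl⟩
        have h2 : lam (ps.r z (Quotient.out k) : M3) ≤ Real.exp (T + B₀) := by
          have h3 : IsConj g (Quotient.out k) := by
            rw [← ConjClasses.mk_eq_mk_iff_isConj, hmk]
            exact (Quotient.out_eq k).symm
          obtain ⟨u, hu⟩ := isConj_iff.mp h3
          have h4 : (ps.r z (u * g * u⁻¹) : M3) =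
              (ps.r z u : M3) * (ps.r z g : M3) * (((ps.r z u)⁻¹ : GL (Fin 3) ℝ) : M3) := by
            simp [map_mul, map_inv]
          rw [← hu, h4, lam_conj]
          have h5 := lam_conj (ps.F p z)⁻¹ (ps.r z g : M3)
          rw [inv_inv] at h5
          rw [← h5]
          exact (lam_le_nrm _).trans hgN
        have h6 := hrep2 ⟨k, hk⟩
        show Real.log (lam (ps.r z (Quotient.out k) : M3)) ≤ T + B₀
        rw [Real.log_le_iff_le_exp (lt_trans one_pos h6)]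
        exact h2
      refine (Set.ncard_le_ncard hsub ((hfinA (T + B₀)).image _)).trans ?_
      exact Set.ncard_image_le (hfinA (T + B₀))
    have h2 : ((nC ⊤ (ps.N p z) (T + B₀)).ncard : ℝ) ≤
        ({x : Cls | Real.log (lam (ps.r z (Quotient.out x.1) : M3)) ≤ T + B₀}.ncard : ℝ) := by
      exact_mod_cast h1
    apply mul_le_mul_of_nonneg_left _ (by positivity)
    linarith

/-- monotonicity of the exponent -/
theorem expo_mono {Γ : Type*} [Group Γ] {X Y : Subgroup Γ} (h : X ≤ Y) {N : Γ → ℝ}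
    (hY : ∀ T, (nX Y N T).Finite) (hlY : ∃ E, Tendsto (fun T : ℝ => Real.log ((nX Y N T).ncard) / T) atTop (𝓝 E))
    (hlX : ∃ E, Tendsto (fun T : ℝ => Real.log ((nX X N T).ncard) / T) atTop (𝓝 E)) :
    expo X N ≤ expo Y N := by
  obtain ⟨E, hE⟩ := hlY
  obtain ⟨E', hE'⟩ := hlX
  unfold expo
  rw [hE.limsup_eq, hE'.limsup_eq]
  refine le_of_tendsto_of_tendsto hE' hE ?_
  filter_upwards [eventually_gt_atTop (0 : ℝ)] with T hT
  apply div_le_div_of_nonneg_right _ hT.le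
  apply pm_GoGG2_logmono
  refine Set.ncard_le_ncard ?_ (hY T)
  rintro g ⟨hg1, hg2⟩
  exact ⟨h hg1, hg2⟩

theorem pm_GoGG3_lam {Γ Z Q : Type} [Group Γ] (ps : PS Γ Z Q) (z : Z) {a b : Γ} (h : IsConj a b) :
    lam (ps.r z a : M3) = lam (ps.r z b : M3) := by
  obtain ⟨c, hc⟩ := isConj_iff.1 h
  rw [← hc, map_mul, map_mul, map_inv, Units.val_mul, Units.val_mul, lam_conj]

theorem pm_GoGG3_lam' (φ A : GL (Fin 3) ℝ) :
    lam (((φ⁻¹ : GL (Fin 3) ℝ) : M3) * (A : M3) * (φ : M3)) = lam (A : M3) := by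
  have := lam_conj φ⁻¹ (A : M3)
  rw [inv_inv] at this
  exact this

theorem pm_GoGG3_rep {Γ Z Q : Type} [Group Γ] {ps : PS Γ Z Q} {K κ : ℝ} {Λ : Set Q}
    {Φ : Set (Z → GL (Fin 3) ℝ)} {C : ConjClasses Γ} {cw : CW Q} (h : RepBy ps K κ Λ Φ C cw) (z : Z) :
    lam (ps.r z (Quotient.out C) : M3) = lam (ps.evC z cw) := by
  obtain ⟨hok, γ', hmk, φ, hφ, hcw⟩ := h
  rw [← hcw z, pm_GoGG3_lam']
  apply pm_GoGG3_lam
  apply ConjClasses.mk_eq_mk_iff_isConj.1
  rw [hmk]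
  exact Quotient.out_eq C

theorem pm_GoGG3_exists {Γ Z Q : Type} [Group Γ] {ps : PS Γ Z Q} {K κ : ℝ} {Λ : Set Q}
    {Φ : Set (Z → GL (Fin 3) ℝ)} (M : Set Q) (hC : CR ps K κ Λ ⊤ Φ) {C : ConjClasses Γ}
    (hne : C ≠ 1) : ∃ cw : CW Q, RepBy ps K κ Λ Φ C cw ∧ cw.cnt M = icnt ps K κ Λ Φ M C := by
  have hout : ConjClasses.mk (Quotient.out C) = C := Quotient.out_eq C
  have h1 : (Quotient.out C : Γ) ≠ 1 := by
    intro h
    apply hne
    rw [← hout, h]
    rfl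
  obtain ⟨γ', hγ', hconj, φ, hφ, cw, hok, hcw⟩ := hC (Quotient.out C) (Subgroup.mem_top _) h1
  have hmk : ConjClasses.mk γ' = C := by
    rw [← hout]
    exact ConjClasses.mk_eq_mk_iff_isConj.2 hconj.symm
  have hn : {n | ∃ cw, RepBy ps K κ Λ Φ C cw ∧ cw.cnt M = n}.Nonempty :=
    ⟨cw.cnt M, cw, ⟨hok, γ', hmk, φ, hφ, hcw⟩, rfl⟩
  exact Nat.sInf_mem hn

/-- the pressure length of a deformation path, in terms of `β = (s - M₀)/κ₀` -/
theorem move_app {K κ H : ℝ} (hK : 1 ≤ K) (hκ : 0 < κ) (hH : 0 ≤ H) : ∃ C' > 0,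
    ∀ {Z Q : Type} {ps : PS Surf Z Q} {Λ M : Set Q} {Φ : Finset (Z → GL (Fin 3) ℝ)}
    (_ : CR ps K κ Λ ⊤ (Φ : Set _)) {ζ : ℝ → Z} {hd : Q → Fin 3 → ℝ} (_ : DefPath ps ζ M hd H)
    (c : ℝ → Rep) (_ : ∀ t γ, (c t γ : M3) = (ps.r (ζ t) γ : M3)) {a b : ℝ} (_ : a < b)
    {s κ₀ β : ℝ} (_ : 0 < κ₀) (_ : 0 < β) (_ : β ≤ 1)
    (_ : ∀ t ∈ Set.Icc a b, ∃ h : ℝ, 0 < h ∧ (s - h) / κ₀ ≤ β ∧
      (∀ T, (cR (fun κ : Cls => ellC (c t) κ.1) T).Finite) ∧
      Tendsto (fun T : ℝ => Real.log ((cR (fun κ : Cls => ellC (c t) κ.1) T).ncard) / T) atTop (𝓝 h) ∧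
      ∑' C : {C : ConjClasses Surf // C ≠ 1 ∧ icnt ps K κ Λ (Φ : Set _) M C ≠ 0},
        ENNReal.ofReal (Real.exp (κ₀ * icnt ps K κ Λ (Φ : Set _) M C) *
          (lam (ps.r (ζ t) (Quotient.out C.1) : M3)) ^ (-s)) < ⊤),
    len c a b ≤ ENNReal.ofReal (C' * (1 + (b - a)) * Real.sqrt β) := by
  obtain ⟨C₂, hC₂, u₀, hu₀, hsec⟩ := reg_second (K := K) (κ := κ) (H := H) hK hH
  have hC1 : 0 ≤ max H C₂ := le_max_of_le_left hH
  obtain ⟨C', hC', hmove⟩ := move_bound Cls hC1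
  refine ⟨C', hC', ?_⟩
  intro Z Q ps Λ M Φ hCR ζ hd hdef c hc a b hab s κ₀ β hκ₀ hβ hβ1 hyp
  have hlog : 0 < Real.log (1 + κ) := Real.log_pos (by linarith)
  have hell : ∀ (t : ℝ) (x : Cls), ellC (c t) x.1 =
      Real.log (lam (ps.r (ζ t) (Quotient.out x.1) : M3)) := by
    intro t x
    unfold ellC ell
    rw [hc]
  have hrep : ∀ x : Cls, ∃ cw : CW Q, RepBy ps K κ Λ (Φ : Set _) x.1 cw ∧
      cw.cnt M = icnt ps K κ Λ (Φ : Set _) M x.1 := fun x => pm_GoGG3_exists M hCR x.2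
  have hlow : ∀ (t : ℝ) (x : Cls), Real.log (1 + κ) ≤ 3 * ellC (c t) x.1 := by
    intro t x
    obtain ⟨cw, h1, h2⟩ := hrep x
    rw [hell, pm_GoGG3_rep h1]
    exact (nrm_evC_le hκ h1.1 ps (ζ t)).2
  have hpos : ∀ (t : ℝ) (x : Cls), 0 < ellC (c t) x.1 := by
    intro t x
    have := hlow t x
    linarith
  have hicnt : ∀ (t : ℝ) (x : Cls), ((icnt ps K κ Λ (Φ : Set _) M x.1 : ℕ) : ℝ) ≤
      3 / Real.log (1 + κ) * ellC (c t) x.1 := by
    intro t x
    obtain ⟨cw, h1, h2⟩ := hrep x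
    rw [hell, pm_GoGG3_rep h1, ← h2]
    calc (cw.cnt M : ℝ) ≤ 3 * Real.log (lam (ps.evC (ζ t) cw)) / Real.log (1 + κ) :=
          cnt_le hκ h1.1 ps (ζ t) M
      _ = _ := by ring
  have hM : MoveHyp (fun t (x : Cls) => ellC (c t) x.1)
      (fun x : Cls => ((icnt ps K κ Λ (Φ : Set _) M x.1 : ℕ) : ℝ)) a b (max H C₂) β := by
    refine
      { hab := hab
        hC := hC1
        hβ := hβ
        hβ1 := hβ1
        pos := fun t _ x => hpos t x
        inn := fun x => Nat.cast_nonneg _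
        fin := ?_
        reg1 := ?_
        reg2 := ?_
        lim := ?_
        bd := ?_ }
    · intro t ht T
      obtain ⟨h, h1, h2, h3, h4, h5⟩ := hyp t ht
      exact h3 T
    · intro s' _ t _ x
      obtain ⟨cw, h1, h2⟩ := hrep x
      have h3 := reg_lip hdef h1 s' t
      rw [hell, hell, ← h2]
      refine h3.trans ?_
      have h4 : H * (cw.cnt M : ℝ) ≤ max H C₂ * (cw.cnt M : ℝ) :=
        mul_le_mul_of_nonneg_right (le_max_left _ _) (Nat.cast_nonneg _)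
      exact mul_le_mul_of_nonneg_right h4 (abs_nonneg _)
    · refine ⟨u₀, hu₀, ?_⟩
      intro t u hu _ _ x
      obtain ⟨cw, h1, h2⟩ := hrep x
      have h3 := hsec hdef h1 t u hu
      rw [hell, hell, hell, ← h2]
      refine h3.trans ?_
      have h4 : C₂ * (cw.cnt M : ℝ) ≤ max H C₂ * (cw.cnt M : ℝ) :=
        mul_le_mul_of_nonneg_right (le_max_right _ _) (Nat.cast_nonneg _)
      exact mul_le_mul_of_nonneg_right h4 (sq_nonneg _)
    · intro t ht
      obtain ⟨h, h1, h2, h3, h4, h5⟩ := hyp t ht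
      exact ⟨h, h1, h4⟩
    · intro t ht β' hβ'
      obtain ⟨h, h1, h2, h3, h4, h5⟩ := hyp t ht
      have key := avg_bound (ℓ := fun x : Cls => ellC (c t) x.1)
        (i := fun x : Cls => ((icnt ps K κ Λ (Φ : Set _) M x.1 : ℕ) : ℝ)) (h := h) (s := s)
        (κ₀ := κ₀) (C := 3 / Real.log (1 + κ)) (hpos t) (fun x => Nat.cast_nonneg _)
        (hicnt t) h3 h4 h1 hκ₀ ?_ (hβ.trans hβ') (lt_of_le_of_lt h2 hβ')
      · exact key
      · refine lt_of_le_of_lt ?_ h5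
        obtain ⟨e, he⟩ : ∃ e : {x : Cls // ((icnt ps K κ Λ (Φ : Set _) M x.1 : ℕ) : ℝ) ≠ 0} →
            {C : ConjClasses Surf // C ≠ 1 ∧ icnt ps K κ Λ (Φ : Set _) M C ≠ 0},
            ∀ x, (e x).1 = x.1.1 :=
          ⟨fun x => ⟨x.1.1, x.1.2, fun h => x.2 (by rw [h, Nat.cast_zero])⟩, fun x => rfl⟩
        have hinj : Function.Injective e := by
          intro x y hxy
          apply Subtype.ext
          apply Subtype.ext
          rw [← he x, ← he y, hxy]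
        refine le_trans (le_of_eq ?_) (ENNReal.tsum_comp_le_tsum_of_injective hinj _)
        apply tsum_congr
        intro x
        have hl0 : 0 < Real.log (lam (ps.r (ζ t) (Quotient.out x.1.1) : M3)) := by
          rw [← hell]
          exact hpos t x.1
        have hlpos : 0 < lam (ps.r (ζ t) (Quotient.out x.1.1) : M3) := by
          have h6 := (Real.log_pos_iff (lam_nonneg _)).1 hl0
          linarith
        rw [he x]
        congr 1
        rw [hell, Real.rpow_def_of_pos hlpos, ← Real.exp_add]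
        congr 1
        ring
  rw [len_eq]
  exact hmove hM

end

end PM3
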