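import Pool.Agent.LibPM3.GrowthDefs

/-! [PM3 G1] connectors. -/

namespace PM3
open Matrix Filter Topology
open scoped MatrixGroups

private def pm_GrowA_C : Matrix (Fin 2) (Fin 2) ℝ := !![1, 1; 1, -1]

private theorem pm_GrowA_CC : pm_GrowA_C * pm_GrowA_C = (2 : ℝ) • 1 := by
  ext i j
  fin_cases i <;> fin_cases j <;> simp [pm_GrowA_C] <;> norm_num

private theorem pm_GrowA_CRC (R : Matrix (Fin 2) (Fin 2) ℝ) : pm_GrowA_C * R * pm_GrowA_C =
    !![R 0 0 + R 1 0 + (R 0 1 + R 1 1), R 0 0 + R 1 0 - (R 0 1 + R 1 1);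
      R 0 0 - R 1 0 + (R 0 1 - R 1 1), R 0 0 - R 1 0 - (R 0 1 - R 1 1)] := by
  have h : ∀ a b c d : ℝ, pm_GrowA_C * !![a, b; c, d] * pm_GrowA_C =
    !![a + c + (b + d), a + c - (b + d); a - c + (b - d), a - c - (b - d)] := by
    intro a b c d
    rw [pm_GrowA_C, Matrix.mul_fin_two, Matrix.mul_fin_two]
    ext i j
    fin_cases i <;> fin_cases j <;> simp <;> ring
  have h2 := h (R 0 0) (R 0 1) (R 1 0) (R 1 1)
  rw [← Matrix.eta_fin_two R] at h2
  exact h2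

private theorem pm_GrowA_dom {R : Matrix (Fin 2) (Fin 2) ℝ} (h0 : R 0 0 ≠ 0)
    (h : |R 0 1| + |R 1 0| + |R 1 1| ≤ |R 0 0| / 3) :
    ∃ s : ℝ, (s = 1 ∨ s = -1) ∧ Bal2 2 (s • ((1 / 2 : ℝ) • (pm_GrowA_C * R * pm_GrowA_C))) := by
  have h1 := abs_le.1 (le_refl |R 0 1|)
  have h2 := abs_le.1 (le_refl |R 1 0|)
  have h3 := abs_le.1 (le_refl |R 1 1|)
  rw [pm_GrowA_CRC]
  have key : ∀ s : ℝ, (s = 1 ∨ s = -1) → s * R 0 0 = |R 0 0| →
      ∀ i j, |R 0 0| / 3 ≤ (s • ((1 / 2 : ℝ) • !![R 0 0 + R 1 0 + (R 0 1 + R 1 1), R 0 0 + R 1 0 - (R 0 1 + R 1 1);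
      R 0 0 - R 1 0 + (R 0 1 - R 1 1), R 0 0 - R 1 0 - (R 0 1 - R 1 1)])) i j ∧
        (s • ((1 / 2 : ℝ) • !![R 0 0 + R 1 0 + (R 0 1 + R 1 1), R 0 0 + R 1 0 - (R 0 1 + R 1 1);
      R 0 0 - R 1 0 + (R 0 1 - R 1 1), R 0 0 - R 1 0 - (R 0 1 - R 1 1)])) i j ≤ 2 * (|R 0 0| / 3) := by
    intro s hs hsr i j
    simp only [Matrix.smul_apply, smul_eq_mul]
    fin_cases i <;> fin_cases j
    · show |R 0 0| / 3 ≤ s * (1 / 2 * (R 0 0 + R 1 0 + (R 0 1 + R 1 1))) ∧ s * (1 / 2 * (R 0 0 + R 1 0 + (R 0 1 + R 1 1))) ≤ 2 * (|R 0 0| / 3)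
      rcases hs with rfl | rfl <;> constructor <;> linarith [h1.1, h1.2, h2.1, h2.2, h3.1, h3.2]
    · show |R 0 0| / 3 ≤ s * (1 / 2 * (R 0 0 + R 1 0 - (R 0 1 + R 1 1))) ∧ s * (1 / 2 * (R 0 0 + R 1 0 - (R 0 1 + R 1 1))) ≤ 2 * (|R 0 0| / 3)
      rcases hs with rfl | rfl <;> constructor <;> linarith [h1.1, h1.2, h2.1, h2.2, h3.1, h3.2]
    · show |R 0 0| / 3 ≤ s * (1 / 2 * (R 0 0 - R 1 0 + (R 0 1 - R 1 1))) ∧ s * (1 / 2 * (R 0 0 - R 1 0 + (R 0 1 - R 1 1))) ≤ 2 * (|R 0 0| / 3)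
      rcases hs with rfl | rfl <;> constructor <;> linarith [h1.1, h1.2, h2.1, h2.2, h3.1, h3.2]
    · show |R 0 0| / 3 ≤ s * (1 / 2 * (R 0 0 - R 1 0 - (R 0 1 - R 1 1))) ∧ s * (1 / 2 * (R 0 0 - R 1 0 - (R 0 1 - R 1 1))) ≤ 2 * (|R 0 0| / 3)
      rcases hs with rfl | rfl <;> constructor <;> linarith [h1.1, h1.2, h2.1, h2.2, h3.1, h3.2]
  have hpos : 0 < |R 0 0| := abs_pos.2 h0
  have fin : ∀ s : ℝ, (s = 1 ∨ s = -1) → s * R 0 0 = |R 0 0| →
      Bal2 2 (s • ((1 / 2 : ℝ) • !![R 0 0 + R 1 0 + (R 0 1 + R 1 1), R 0 0 + R 1 0 - (R 0 1 + R 1 1);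
      R 0 0 - R 1 0 + (R 0 1 - R 1 1), R 0 0 - R 1 0 - (R 0 1 - R 1 1)])) := by
    intro s hs hsr
    have k := key s hs hsr
    refine ⟨fun i j => ?_, fun i i' j => ?_, fun i j j' => ?_⟩
    · linarith [(k i j).1]
    · linarith [(k i j).2, (k i' j).1]
    · linarith [(k i j).2, (k i j').1]
  rcases lt_or_gt_of_ne h0 with h4 | h4
  · exact ⟨-1, Or.inr rfl, fin _ (Or.inr rfl) (by rw [abs_of_neg h4]; ring)⟩
  · exact ⟨1, Or.inl rfl, fin _ (Or.inl rfl) (by rw [abs_of_pos h4]; ring)⟩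

private theorem pm_GrowA_fricke (X Y : Matrix (Fin 2) (Fin 2) ℝ) :
    (X * Y * X.adjugate * Y.adjugate).trace = X.trace ^ 2 * Y.det + Y.trace ^ 2 * X.det +
      (X * Y).trace ^ 2 - X.trace * Y.trace * (X * Y).trace - 2 * X.det * Y.det := by
  simp [Matrix.adjugate_fin_two, Matrix.trace_fin_two, Matrix.det_fin_two, Matrix.mul_apply,
    Fin.sum_univ_two]
  ring

private theorem pm_GrowA_eig {t : ℝ} (ht : 2 < |t|) :
    ∃ l l' : ℝ, l + l' = t ∧ l * l' = 1 ∧ 1 < |l| := by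
  have h4 : 4 < t ^ 2 := by
    rw [← sq_abs]
    nlinarith
  have hs := Real.sq_sqrt (by linarith : (0 : ℝ) ≤ t ^ 2 - 4)
  have hs0 := Real.sqrt_nonneg (t ^ 2 - 4)
  set s := Real.sqrt (t ^ 2 - 4)
  rcases lt_or_ge t 0 with h | h
  · rw [abs_of_neg h] at ht
    refine ⟨(t - s) / 2, (t + s) / 2, by ring, by nlinarith, ?_⟩
    rw [abs_of_neg (by linarith)]
    linarith
  · rw [abs_of_nonneg h] at ht
    refine ⟨(t + s) / 2, (t - s) / 2, by ring, by nlinarith, ?_⟩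
    rw [abs_of_pos (by linarith)]
    linarith

private theorem pm_GrowA_diag (X : Matrix (Fin 2) (Fin 2) ℝ) (hdet : X.det = 1)
    (htr : 2 < |X.trace|) :
    ∃ (P P' : Matrix (Fin 2) (Fin 2) ℝ) (l l' : ℝ), P * P' = 1 ∧ P' * P = 1 ∧ l * l' = 1 ∧
      1 < |l| ∧ X = P * diagonal ![l, l'] * P' := by
  obtain ⟨l, l', h1, h2, h3⟩ := pm_GrowA_eig htr
  rw [Matrix.trace_fin_two] at h1
  rw [Matrix.det_fin_two] at hdet
  have hne : l ≠ l' := by
    rintro rfl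
    have : |l| * |l| = 1 := by rw [← abs_mul, h2, abs_one]
    nlinarith
  have fin : ∀ P : Matrix (Fin 2) (Fin 2) ℝ, P.det ≠ 0 → X * P = P * diagonal ![l, l'] →
      ∃ (P P' : Matrix (Fin 2) (Fin 2) ℝ) (l l' : ℝ), P * P' = 1 ∧ P' * P = 1 ∧ l * l' = 1 ∧
      1 < |l| ∧ X = P * diagonal ![l, l'] * P' := by
    intro P hP hXP
    have hu : IsUnit P.det := isUnit_iff_ne_zero.2 hP
    refine ⟨P, P⁻¹, l, l', Matrix.mul_nonsing_inv P hu, Matrix.nonsing_inv_mul P hu, h2, h3, ?_⟩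
    rw [← hXP, Matrix.mul_assoc, Matrix.mul_nonsing_inv P hu, Matrix.mul_one]
  by_cases hb : X 0 1 = 0
  · by_cases hc : X 1 0 = 0
    · have hprod : (X 0 0 - l) * (X 0 0 - l') = 0 := by
        rw [hb, hc] at hdet
        have e : l' = X 0 0 + X 1 1 - l := by linarith
        subst e
        nlinarith
      rcases mul_eq_zero.1 hprod with h | h
      · refine fin 1 (by simp) ?_
        have e0 : X 0 0 = l := by linarith
        have e1 : X 1 1 = l' := by linarith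
        ext i j
        fin_cases i <;> fin_cases j <;> simp [hb, hc, e0, e1]
      · refine fin !![0, 1; 1, 0] (by simp [Matrix.det_fin_two]) ?_
        have e0 : X 0 0 = l' := by linarith
        have e1 : X 1 1 = l := by linarith
        ext i j
        fin_cases i <;> fin_cases j <;>
          simp [Matrix.mul_apply, Fin.sum_univ_two, hb, hc, e0, e1]
    · refine fin !![l - X 1 1, l' - X 1 1; X 1 0, X 1 0] ?_ ?_
      · rw [Matrix.det_fin_two]
        simp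
        intro h
        have : (l - l') * X 1 0 = 0 := by linarith
        rcases mul_eq_zero.1 this with h' | h'
        · exact hne (by linarith)
        · exact hc h'
      · have e : l' = X 0 0 + X 1 1 - l := by linarith
        ext i j
        fin_cases i <;> fin_cases j <;>
          simp [Matrix.mul_apply, Fin.sum_univ_two] <;> subst e <;> nlinarith
  · refine fin !![X 0 1, X 0 1; l - X 0 0, l' - X 0 0] ?_ ?_
    · rw [Matrix.det_fin_two]
      simp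
      intro h
      have : (l' - l) * X 0 1 = 0 := by linarith
      rcases mul_eq_zero.1 this with h' | h'
      · exact hne (by linarith)
      · exact hb h'
    · have e : l' = X 0 0 + X 1 1 - l := by linarith
      ext i j
      fin_cases i <;> fin_cases j <;>
        simp [Matrix.mul_apply, Fin.sum_univ_two] <;> subst e <;> nlinarith

private theorem pm_GrowA_pow {P P' : Matrix (Fin 2) (Fin 2) ℝ} (h1 : P * P' = 1) (h2 : P' * P = 1)
    (l l' : ℝ) (n : ℕ) :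
    (P * diagonal ![l, l'] * P') ^ n = P * diagonal ![l ^ n, l' ^ n] * P' := by
  induction n with
  | zero =>
    have : diagonal ![(1 : ℝ), 1] = (1 : Matrix (Fin 2) (Fin 2) ℝ) := by
      ext i j
      fin_cases i <;> fin_cases j <;> simp
    simp only [pow_zero, this, Matrix.mul_one, h1]
  | succ n ih =>
    rw [pow_succ, ih]
    have e : diagonal ![l ^ n, l' ^ n] * diagonal ![l, l'] =
        (diagonal ![l ^ (n + 1), l' ^ (n + 1)] : Matrix (Fin 2) (Fin 2) ℝ) := by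
      rw [Matrix.diagonal_mul_diagonal]
      congr 1
      funext i
      fin_cases i <;> simp [pow_succ]
    calc P * diagonal ![l ^ n, l' ^ n] * P' * (P * diagonal ![l, l'] * P')
        = P * diagonal ![l ^ n, l' ^ n] * (P' * P) * diagonal ![l, l'] * P' := by
          simp only [Matrix.mul_assoc]
      _ = P * (diagonal ![l ^ n, l' ^ n] * diagonal ![l, l']) * P' := by
          rw [h2]; simp only [Matrix.mul_assoc, Matrix.one_mul]
      _ = _ := by rw [e]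

private theorem pm_GrowA_inv {P P' : Matrix (Fin 2) (Fin 2) ℝ} (h1 : P * P' = 1) (h2 : P' * P = 1)
    {l l' : ℝ} (hl : l * l' = 1) (A : SL(2, ℝ))
    (hA : (A : Matrix (Fin 2) (Fin 2) ℝ) = P * diagonal ![l, l'] * P') :
    ((A⁻¹ : SL(2, ℝ)) : Matrix (Fin 2) (Fin 2) ℝ) = P * diagonal ![l', l] * P' := by
  have e1 : ((A⁻¹ : SL(2, ℝ)) : Matrix (Fin 2) (Fin 2) ℝ) * (A : Matrix (Fin 2) (Fin 2) ℝ) = 1 := by
    rw [← Matrix.SpecialLinearGroup.coe_mul, inv_mul_cancel, Matrix.SpecialLinearGroup.coe_one]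
  have e : diagonal ![l, l'] * diagonal ![l', l] = (1 : Matrix (Fin 2) (Fin 2) ℝ) := by
    rw [Matrix.diagonal_mul_diagonal, ← Matrix.diagonal_one]
    congr 1
    funext i
    fin_cases i
    · simp [hl]
    · simp [mul_comm l' l, hl]
  have e2 : (A : Matrix (Fin 2) (Fin 2) ℝ) * (P * diagonal ![l', l] * P') = 1 := by
    rw [hA]
    calc P * diagonal ![l, l'] * P' * (P * diagonal ![l', l] * P')
        = P * diagonal ![l, l'] * (P' * P) * diagonal ![l', l] * P' := by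
          simp only [Matrix.mul_assoc]
      _ = P * (diagonal ![l, l'] * diagonal ![l', l]) * P' := by
          rw [h2]; simp only [Matrix.mul_assoc, Matrix.one_mul]
      _ = 1 := by rw [e, Matrix.mul_one, h1]
  exact left_inv_eq_right_inv e1 e2

private theorem pm_GrowA_entry (Z h Z' : Matrix (Fin 2) (Fin 2) ℝ) (x y : Fin 2 → ℝ) (a b : Fin 2) :
    (Z * diagonal x * h * diagonal y * Z') a b =
      Z a 0 * x 0 * h 0 0 * y 0 * Z' 0 b + Z a 0 * x 0 * h 0 1 * y 1 * Z' 1 b +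
      (Z a 1 * x 1 * h 1 0 * y 0 * Z' 0 b + Z a 1 * x 1 * h 1 1 * y 1 * Z' 1 b) := by
  simp [Matrix.mul_apply, Fin.sum_univ_two, Matrix.diagonal]
  ring

private theorem pm_GrowA_term {Z h Z' : Matrix (Fin 2) (Fin 2) ℝ} {x y : Fin 2 → ℝ}
    {z z' H u v : ℝ} (hz : ∀ i j, |Z i j| ≤ z) (hz' : ∀ i j, |Z' i j| ≤ z')
    (hH : ∀ i j, |h i j| ≤ H) (a b k l : Fin 2) (hx : |x k| ≤ u) (hy : |y l| ≤ v) :
    |Z a k * x k * h k l * y l * Z' l b| ≤ z * u * H * v * z' := by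
  have z0 : 0 ≤ z := (abs_nonneg _).trans (hz 0 0)
  have H0 : 0 ≤ H := (abs_nonneg _).trans (hH 0 0)
  have u0 : 0 ≤ u := (abs_nonneg _).trans hx
  have v0 : 0 ≤ v := (abs_nonneg _).trans hy
  rw [abs_mul, abs_mul, abs_mul, abs_mul]
  gcongr
  · exact hz a k
  · exact hH k l
  · exact hz' l b

private theorem pm_GrowA_upper {Z h Z' : Matrix (Fin 2) (Fin 2) ℝ} {x y : Fin 2 → ℝ}
    {z z' H M : ℝ} (hz : ∀ i j, |Z i j| ≤ z) (hz' : ∀ i j, |Z' i j| ≤ z')
    (hH : ∀ i j, |h i j| ≤ H) (hx : ∀ i, |x i| ≤ M) (hy : ∀ i, |y i| ≤ M) (a b : Fin 2) :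
    |(Z * diagonal x * h * diagonal y * Z') a b| ≤ 4 * (z * M * H * M * z') := by
  rw [pm_GrowA_entry]
  have t := fun k l => pm_GrowA_term hz hz' hH a b k l (hx k) (hy l)
  refine (abs_add_le _ _).trans ?_
  have := (abs_add_le (Z a 0 * x 0 * h 0 0 * y 0 * Z' 0 b) (Z a 0 * x 0 * h 0 1 * y 1 * Z' 1 b)).trans
    (add_le_add (t 0 0) (t 0 1))
  have := (abs_add_le (Z a 1 * x 1 * h 1 0 * y 0 * Z' 0 b) (Z a 1 * x 1 * h 1 1 * y 1 * Z' 1 b)).trans
    (add_le_add (t 1 0) (t 1 1))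
  linarith

private theorem pm_GrowA_lower {Z h Z' : Matrix (Fin 2) (Fin 2) ℝ} {x y : Fin 2 → ℝ}
    {z z' H M ζ : ℝ} (hM : 1 ≤ M) (hz : ∀ i j, |Z i j| ≤ z) (hz' : ∀ i j, |Z' i j| ≤ z')
    (hH : ∀ i j, |h i j| ≤ H) (k l : Fin 2) (hxk : |x k| = M) (hyl : |y l| = M)
    (hx : ∀ i, i ≠ k → |x i| ≤ 1) (hy : ∀ i, i ≠ l → |y i| ≤ 1) (hkl : |h k l| = H)
    (hζ : ∀ i j, ζ ≤ |Z 0 i| * |Z' j 0|) :
    ζ * M ^ 2 * H - 3 * (z * z' * M * H) ≤ |(Z * diagonal x * h * diagonal y * Z') 0 0| := by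
  rw [pm_GrowA_entry]
  have z0 : 0 ≤ z := (abs_nonneg _).trans (hz 0 0)
  have z0' : 0 ≤ z' := (abs_nonneg _).trans (hz' 0 0)
  have H0 : 0 ≤ H := (abs_nonneg _).trans (hH 0 0)
  set T : Fin 2 → Fin 2 → ℝ := fun k l => Z 0 k * x k * h k l * y l * Z' l 0 with hT
  have main : ζ * M ^ 2 * H ≤ |T k l| := by
    simp only [hT]
    rw [abs_mul, abs_mul, abs_mul, abs_mul, hxk, hyl, hkl]
    have := mul_le_mul_of_nonneg_right (hζ k l) (by positivity : (0 : ℝ) ≤ M ^ 2 * H)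
    calc ζ * M ^ 2 * H = ζ * (M ^ 2 * H) := by ring
      _ ≤ |Z 0 k| * |Z' l 0| * (M ^ 2 * H) := this
      _ = |Z 0 k| * M * H * M * |Z' l 0| := by ring
  have bM : ∀ i, |x i| ≤ M := fun i => by
    by_cases hi : i = k
    · rw [hi, hxk]
    · exact (hx i hi).trans hM
  have bM' : ∀ i, |y i| ≤ M := fun i => by
    by_cases hi : i = l
    · rw [hi, hyl]
    · exact (hy i hi).trans hM
  have other : ∀ k' l', (k' ≠ k ∨ l' ≠ l) → |T k' l'| ≤ z * z' * M * H := by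
    intro k' l' h'
    rcases h' with h' | h'
    · refine (pm_GrowA_term hz hz' hH 0 0 k' l' (hx k' h') (bM' l')).trans (le_of_eq ?_)
      ring
    · refine (pm_GrowA_term hz hz' hH 0 0 k' l' (bM k') (hy l' h')).trans (le_of_eq ?_)
      ring
  have tri : ∀ p q r s : ℝ, |p| - (|q| + |r| + |s|) ≤ |p + q + (r + s)| := by
    intro p q r s
    have h1 := abs_sub_abs_le_abs_sub p (-(q + (r + s)))
    have h2 : p - -(q + (r + s)) = p + q + (r + s) := by ring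
    rw [h2, abs_neg] at h1
    have h3 := abs_add_le q (r + s)
    have h4 := abs_add_le r s
    linarith
  show _ ≤ |T 0 0 + T 0 1 + (T 1 0 + T 1 1)|
  fin_cases k <;> fin_cases l
  · have := tri (T 0 0) (T 0 1) (T 1 0) (T 1 1)
    have o1 := other 0 1 (Or.inr (by decide))
    have o2 := other 1 0 (Or.inl (by decide))
    have o3 := other 1 1 (Or.inl (by decide))
    have m : ζ * M ^ 2 * H ≤ |T 0 0| := main
    linarith
  · have := tri (T 0 1) (T 0 0) (T 1 0) (T 1 1)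
    have o1 := other 0 0 (Or.inr (by decide))
    have o2 := other 1 0 (Or.inl (by decide))
    have o3 := other 1 1 (Or.inl (by decide))
    have m : ζ * M ^ 2 * H ≤ |T 0 1| := main
    have e : T 0 1 + T 0 0 + (T 1 0 + T 1 1) = T 0 0 + T 0 1 + (T 1 0 + T 1 1) := by ring
    rw [e] at this
    linarith
  · have := tri (T 1 0) (T 1 1) (T 0 0) (T 0 1)
    have o1 := other 0 0 (Or.inl (by decide))
    have o2 := other 0 1 (Or.inl (by decide))
    have o3 := other 1 1 (Or.inr (by decide))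
    have m : ζ * M ^ 2 * H ≤ |T 1 0| := main
    have e : T 1 0 + T 1 1 + (T 0 0 + T 0 1) = T 0 0 + T 0 1 + (T 1 0 + T 1 1) := by ring
    rw [e] at this
    linarith
  · have := tri (T 1 1) (T 1 0) (T 0 0) (T 0 1)
    have o1 := other 0 0 (Or.inl (by decide))
    have o2 := other 0 1 (Or.inl (by decide))
    have o3 := other 1 0 (Or.inr (by decide))
    have m : ζ * M ^ 2 * H ≤ |T 1 1| := main
    have e : T 1 1 + T 1 0 + (T 0 0 + T 0 1) = T 0 0 + T 0 1 + (T 1 0 + T 1 1) := by ring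
    rw [e] at this
    linarith

private theorem pm_GrowA_entry_le (A : Matrix (Fin 2) (Fin 2) ℝ) (i j : Fin 2) : |A i j| ≤ nrm2 A := by
  refine (Finset.single_le_sum (f := fun j => |A i j|) (fun _ _ => abs_nonneg _)
      (Finset.mem_univ j)).trans ?_
  exact Finset.single_le_sum (f := fun i => ∑ j, |A i j|)
      (fun k' _ => Finset.sum_nonneg fun _ _ => abs_nonneg _) (Finset.mem_univ i)

/-- no common eigenvector -/
private theorem pm_GrowA_nonzero {A B : SL(2, ℝ)} {P P' Q Q' : Matrix (Fin 2) (Fin 2) ℝ}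
    {l l' m m' : ℝ} (hP : P * P' = 1) (hP' : P' * P = 1) (hQ : Q * Q' = 1)
    (hl : l * l' = 1)
    (hA : (A : Matrix (Fin 2) (Fin 2) ℝ) = P * diagonal ![l, l'] * P')
    (hB : (B : Matrix (Fin 2) (Fin 2) ℝ) = Q * diagonal ![m, m'] * Q')
    (hAB : ((A * B * A⁻¹ * B⁻¹ : SL(2, ℝ)) : Matrix (Fin 2) (Fin 2) ℝ).trace ≠ 2) :
    (∀ i, (P' * Q) 0 i ≠ 0) ∧ (∀ i, (Q' * P) i 0 ≠ 0) := by
  have hZ : (P' * Q) * (Q' * P) = 1 := by
    calc (P' * Q) * (Q' * P) = P' * (Q * Q') * P := by simp only [Matrix.mul_assoc]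
      _ = 1 := by rw [hQ, Matrix.mul_one, hP']
  set Y : Matrix (Fin 2) (Fin 2) ℝ := P' * (B : Matrix (Fin 2) (Fin 2) ℝ) * P with hY
  have hYZ : Y = (P' * Q) * diagonal ![m, m'] * (Q' * P) := by
    rw [hY, hB]; simp only [Matrix.mul_assoc]
  have dA : (A : Matrix (Fin 2) (Fin 2) ℝ).det = 1 := A.2
  have dB : (B : Matrix (Fin 2) (Fin 2) ℝ).det = 1 := B.2
  have trA : (A : Matrix (Fin 2) (Fin 2) ℝ).trace = l + l' := by
    rw [hA, Matrix.mul_assoc, Matrix.trace_mul_comm, Matrix.mul_assoc, hP', Matrix.mul_one]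
    simp [Matrix.trace_fin_two]
  have trB : (B : Matrix (Fin 2) (Fin 2) ℝ).trace = Y 0 0 + Y 1 1 := by
    rw [← Matrix.trace_fin_two, hY, Matrix.trace_mul_comm, ← Matrix.mul_assoc, hP, Matrix.one_mul]
  have trAB : ((A : Matrix (Fin 2) (Fin 2) ℝ) * (B : Matrix (Fin 2) (Fin 2) ℝ)).trace =
      l * Y 0 0 + l' * Y 1 1 := by
    have : ((A : Matrix (Fin 2) (Fin 2) ℝ) * (B : Matrix (Fin 2) (Fin 2) ℝ)).trace =
        (diagonal ![l, l'] * Y).trace := by
      rw [hA, hY]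
      calc (P * diagonal ![l, l'] * P' * (B : Matrix (Fin 2) (Fin 2) ℝ)).trace
          = (P * (diagonal ![l, l'] * P' * (B : Matrix (Fin 2) (Fin 2) ℝ))).trace := by
            simp only [Matrix.mul_assoc]
        _ = ((diagonal ![l, l'] * P' * (B : Matrix (Fin 2) (Fin 2) ℝ)) * P).trace :=
            Matrix.trace_mul_comm _ _
        _ = _ := by simp only [Matrix.mul_assoc]
    rw [this, Matrix.trace_fin_two]
    simp
  have detY : Y 0 0 * Y 1 1 - Y 0 1 * Y 1 0 = 1 := by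
    rw [← Matrix.det_fin_two, hY, Matrix.det_mul, Matrix.det_mul, dB, mul_one, ← Matrix.det_mul,
      hP', Matrix.det_one]
  have hcomm : Y 0 1 * Y 1 0 ≠ 0 := by
    intro h0
    apply hAB
    have e : ((A * B * A⁻¹ * B⁻¹ : SL(2, ℝ)) : Matrix (Fin 2) (Fin 2) ℝ) =
        (A : Matrix (Fin 2) (Fin 2) ℝ) * (B : Matrix (Fin 2) (Fin 2) ℝ) *
        (A : Matrix (Fin 2) (Fin 2) ℝ).adjugate * (B : Matrix (Fin 2) (Fin 2) ℝ).adjugate := by
      simp only [Matrix.SpecialLinearGroup.coe_mul, Matrix.SpecialLinearGroup.coe_inv]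
    rw [e, pm_GrowA_fricke, dA, dB, trA, trB, trAB]
    have h1 : Y 0 0 * Y 1 1 = 1 := by linarith
    have expand : (l + l') ^ 2 * 1 + (Y 0 0 + Y 1 1) ^ 2 * 1 + (l * Y 0 0 + l' * Y 1 1) ^ 2 -
        (l + l') * (Y 0 0 + Y 1 1) * (l * Y 0 0 + l' * Y 1 1) - 2 * 1 * 1 - 2 =
        (2 * (l * l') + 2 * (Y 0 0 * Y 1 1) + (l * l') * (Y 0 0 * Y 1 1) * 2 - 2 - 2)
        - ((l * l') * (Y 0 0 * Y 1 1) * 2 + (l * l' - 1) * (Y 0 0 ^ 2 + Y 1 1 ^ 2) +
          (Y 0 0 * Y 1 1 - 1) * (l ^ 2 + l' ^ 2)) := by ring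
    rw [h1, hl] at expand
    linarith
  have z01 : (P' * Q) 0 0 * (Q' * P) 0 1 + (P' * Q) 0 1 * (Q' * P) 1 1 = 0 := by
    have := congrFun (congrFun hZ 0) 1
    rw [Matrix.mul_apply, Fin.sum_univ_two] at this
    simpa using this
  have z10 : (P' * Q) 1 0 * (Q' * P) 0 0 + (P' * Q) 1 1 * (Q' * P) 1 0 = 0 := by
    have := congrFun (congrFun hZ 1) 0
    rw [Matrix.mul_apply, Fin.sum_univ_two] at this
    simpa using this
  have y01 : Y 0 1 = (P' * Q) 0 0 * m * (Q' * P) 0 1 + (P' * Q) 0 1 * m' * (Q' * P) 1 1 := by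
    rw [hYZ, Matrix.mul_apply, Fin.sum_univ_two, Matrix.mul_diagonal, Matrix.mul_diagonal]
    simp
  have y10 : Y 1 0 = (P' * Q) 1 0 * m * (Q' * P) 0 0 + (P' * Q) 1 1 * m' * (Q' * P) 1 0 := by
    rw [hYZ, Matrix.mul_apply, Fin.sum_univ_two, Matrix.mul_diagonal, Matrix.mul_diagonal]
    simp
  refine ⟨fun i hi => hcomm ?_, fun i hi => hcomm ?_⟩
  · have : Y 0 1 = 0 := by
      fin_cases i
      · have hi' : (P' * Q) 0 0 = 0 := hi
        rw [hi', zero_mul, zero_add] at z01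
        rw [y01, hi']
        linear_combination m' * z01
      · have hi' : (P' * Q) 0 1 = 0 := hi
        rw [hi', zero_mul, add_zero] at z01
        rw [y01, hi']
        linear_combination m * z01
    rw [this, zero_mul]
  · have : Y 1 0 = 0 := by
      fin_cases i
      · have hi' : (Q' * P) 0 0 = 0 := hi
        rw [hi', mul_zero, zero_add] at z10
        rw [y10, hi']
        linear_combination m' * z10
      · have hi' : (Q' * P) 1 0 = 0 := hi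
        rw [hi', mul_zero, add_zero] at z10
        rw [y10, hi']
        linear_combination m * z10
    rw [this, mul_zero]

/-- For hyperbolic `A, B` without common fixed point there are a frame `G` and `n` such that for every
`g ∈ SL(2,ℝ)` one of the four products `A^n B^{±n} g B^{±n} A^n` is `±` positive and 2-balanced in the
frame `G`. -/
theorem connectors {A B : SL(2, ℝ)} (hA : 2 < |(A : Matrix (Fin 2) (Fin 2) ℝ).trace|)
    (hB : 2 < |(B : Matrix (Fin 2) (Fin 2) ℝ).trace|)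
    (hAB : ((A * B * A⁻¹ * B⁻¹ : SL(2, ℝ)) : Matrix (Fin 2) (Fin 2) ℝ).trace ≠ 2) :
    ∃ (G : GL (Fin 2) ℝ) (n : ℕ), ∀ g : SL(2, ℝ), ∃ i j : ℤ, (i = 1 ∨ i = -1) ∧ (j = 1 ∨ j = -1) ∧
      ∃ s : ℝ, (s = 1 ∨ s = -1) ∧
      Bal2 2 (s • (((G⁻¹ : GL (Fin 2) ℝ) : Matrix (Fin 2) (Fin 2) ℝ) *
        ((A ^ n * B ^ (i * n) * g * B ^ (j * n) * A ^ n : SL(2, ℝ)) : Matrix (Fin 2) (Fin 2) ℝ) *
        (G : Matrix (Fin 2) (Fin 2) ℝ))) := by
  obtain ⟨P, P', l, l', hP, hP', hl, hl1, eA⟩ := pm_GrowA_diag _ A.2 hA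
  obtain ⟨Q, Q', m, m', hQ, hQ', hm, hm1, eB⟩ := pm_GrowA_diag _ B.2 hB
  obtain ⟨nz, nz'⟩ := pm_GrowA_nonzero hP hP' hQ hl eA eB hAB
  set Z := P' * Q with hZ
  set Z' := Q' * P with hZ'
  set z := nrm2 Z with hz
  set z' := nrm2 Z' with hz'
  have z0 : 0 ≤ z := (abs_nonneg _).trans (pm_GrowA_entry_le Z 0 0)
  have z0' : 0 ≤ z' := (abs_nonneg _).trans (pm_GrowA_entry_le Z' 0 0)
  -- the lower bound of the products
  obtain ⟨ζ, hζ0, hζ⟩ : ∃ ζ : ℝ, 0 < ζ ∧ ∀ i j, ζ ≤ |Z 0 i| * |Z' j 0| := by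
    refine ⟨min (|Z 0 0|) (|Z 0 1|) * min (|Z' 0 0|) (|Z' 1 0|),
      mul_pos (lt_min (abs_pos.2 (nz 0)) (abs_pos.2 (nz 1)))
        (lt_min (abs_pos.2 (nz' 0)) (abs_pos.2 (nz' 1))), fun i j => ?_⟩
    refine mul_le_mul ?_ ?_ (le_min (abs_nonneg _) (abs_nonneg _)) (abs_nonneg _)
    · fin_cases i
      · exact min_le_left _ _
      · exact min_le_right _ _
    · fin_cases j
      · exact min_le_left _ _
      · exact min_le_right _ _
  obtain ⟨n, hn1, hn2⟩ : ∃ n : ℕ, 6 * (z * z') / ζ ≤ |m| ^ n ∧ 72 * (z * z') / ζ ≤ (|l| ^ 2) ^ n := by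
    have t1 := (tendsto_pow_atTop_atTop_of_one_lt hm1).eventually_ge_atTop (6 * (z * z') / ζ)
    have t2 := (tendsto_pow_atTop_atTop_of_one_lt (by nlinarith : (1 : ℝ) < |l| ^ 2)).eventually_ge_atTop
      (72 * (z * z') / ζ)
    exact (t1.and t2).exists
  set M := |m| ^ n with hM
  have hM1 : 1 ≤ M := one_le_pow₀ hm1.le
  have hm'1 : |m' ^ n| ≤ 1 := by
    rw [abs_pow]
    refine pow_le_one₀ (abs_nonneg _) ?_
    have : |m| * |m'| = 1 := by rw [← abs_mul, hm, abs_one]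
    nlinarith [abs_nonneg m']
  have hl'1 : |l' ^ n| ≤ 1 := by
    rw [abs_pow]
    refine pow_le_one₀ (abs_nonneg _) ?_
    have : |l| * |l'| = 1 := by rw [← abs_mul, hl, abs_one]
    nlinarith [abs_nonneg l']
  have hln : l ^ n * l' ^ n = 1 := by rw [← mul_pow, hl, one_pow]
  -- the frame
  have hGG : (P * pm_GrowA_C) * ((1 / 2 : ℝ) • (pm_GrowA_C * P')) = 1 := by
    rw [Matrix.mul_smul, ← Matrix.mul_assoc, Matrix.mul_assoc P, pm_GrowA_CC, Matrix.mul_smul,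
      Matrix.mul_one, Matrix.smul_mul, hP, smul_smul]
    norm_num
  have hGG' : ((1 / 2 : ℝ) • (pm_GrowA_C * P')) * (P * pm_GrowA_C) = 1 := by
    rw [Matrix.smul_mul, ← Matrix.mul_assoc, Matrix.mul_assoc pm_GrowA_C, hP', Matrix.mul_one,
      pm_GrowA_CC, smul_smul]
    norm_num
  refine ⟨⟨P * pm_GrowA_C, (1 / 2 : ℝ) • (pm_GrowA_C * P'), hGG, hGG'⟩, n, fun g => ?_⟩
  set h := Q' * (g : Matrix (Fin 2) (Fin 2) ℝ) * Q with hh
  -- the largest entry
  obtain ⟨⟨k, r⟩, hkr⟩ := Finite.exists_max (fun p : Fin 2 × Fin 2 => |h p.1 p.2|)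
  set H := |h k r| with hHdef
  have hH : ∀ i j, |h i j| ≤ H := fun i j => hkr (i, j)
  have hHpos : 0 < H := by
    by_contra hc
    push Not at hc
    have h0 : h = 0 := by
      ext i j
      have := (hH i j).trans hc
      simpa using this
    have hdet : h.det = 1 := by
      rw [hh, Matrix.det_mul, Matrix.det_mul, g.2, mul_one, ← Matrix.det_mul, hQ', Matrix.det_one]
    rw [h0] at hdet
    simp [Matrix.det_fin_two] at hdet
  -- the powers of B
  have hBn : ((B ^ n : SL(2, ℝ)) : Matrix (Fin 2) (Fin 2) ℝ) = Q * diagonal ![m ^ n, m' ^ n] * Q' := by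
    rw [Matrix.SpecialLinearGroup.coe_pow, eB, pm_GrowA_pow hQ hQ']
  have hBn' : (((B ^ n)⁻¹ : SL(2, ℝ)) : Matrix (Fin 2) (Fin 2) ℝ) =
      Q * diagonal ![m' ^ n, m ^ n] * Q' :=
    pm_GrowA_inv hQ hQ' (by rw [← mul_pow, hm, one_pow]) _ hBn
  have hchoice : ∀ k : Fin 2, ∃ i : ℤ, (i = 1 ∨ i = -1) ∧ ∃ x : Fin 2 → ℝ, |x k| = M ∧
      (∀ i, i ≠ k → |x i| ≤ 1) ∧
      ((B ^ (i * n) : SL(2, ℝ)) : Matrix (Fin 2) (Fin 2) ℝ) = Q * diagonal x * Q' := by
    intro k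
    fin_cases k
    · refine ⟨1, Or.inl rfl, ![m ^ n, m' ^ n], ?_, ?_, ?_⟩
      · simp [hM, abs_pow]
      · intro i hi
        fin_cases i
        · exact absurd rfl hi
        · simpa using hm'1
      · rw [one_mul, zpow_natCast]
        exact hBn
    · refine ⟨-1, Or.inr rfl, ![m' ^ n, m ^ n], ?_, ?_, ?_⟩
      · simp [hM, abs_pow]
      · intro i hi
        fin_cases i
        · simpa using hm'1
        · exact absurd rfl hi
      · rw [neg_one_mul, _root_.zpow_neg, zpow_natCast]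
        exact hBn'
  obtain ⟨i, hi, x, hxk, hx, ei⟩ := hchoice k
  obtain ⟨j, hj, y, hyr, hy, ej⟩ := hchoice r
  refine ⟨i, j, hi, hj, ?_⟩
  have bx : ∀ i, |x i| ≤ M := fun i => by
    by_cases hi : i = k
    · rw [hi, hxk]
    · exact (hx i hi).trans hM1
  have bY : ∀ i, |y i| ≤ M := fun i => by
    by_cases hi : i = r
    · rw [hi, hyr]
    · exact (hy i hi).trans hM1
  set R := Z * diagonal x * h * diagonal y * Z' with hR
  have up := fun a b => pm_GrowA_upper (pm_GrowA_entry_le Z) (pm_GrowA_entry_le Z') hH bx bY a b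
  have lo := pm_GrowA_lower hM1 (pm_GrowA_entry_le Z) (pm_GrowA_entry_le Z') hH k r hxk hyr hx hy
    rfl hζ
  rw [← hR, ← hz, ← hz'] at up lo
  have hAn : ((A ^ n : SL(2, ℝ)) : Matrix (Fin 2) (Fin 2) ℝ) = P * diagonal ![l ^ n, l' ^ n] * P' := by
    rw [Matrix.SpecialLinearGroup.coe_pow, eA, pm_GrowA_pow hP hP']
  set D : Matrix (Fin 2) (Fin 2) ℝ := diagonal ![l ^ n, l' ^ n] with hD
  have total : ((1 / 2 : ℝ) • (pm_GrowA_C * P')) *
      ((A ^ n * B ^ (i * n) * g * B ^ (j * n) * A ^ n : SL(2, ℝ)) : Matrix (Fin 2) (Fin 2) ℝ) *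
      (P * pm_GrowA_C) = (1 / 2 : ℝ) • (pm_GrowA_C * (D * R * D) * pm_GrowA_C) := by
    simp only [Matrix.SpecialLinearGroup.coe_mul]
    rw [hAn, ei, ej, Matrix.smul_mul, Matrix.smul_mul]
    congr 1
    rw [hR, hh, hZ, hZ']
    calc pm_GrowA_C * P' * (P * D * P' * (Q * diagonal x * Q') * (g : Matrix (Fin 2) (Fin 2) ℝ) *
          (Q * diagonal y * Q') * (P * D * P')) * (P * pm_GrowA_C)
        = pm_GrowA_C * (P' * P) * D * P' * Q * diagonal x * Q' * (g : Matrix (Fin 2) (Fin 2) ℝ) *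
          Q * diagonal y * Q' * P * D * (P' * P) * pm_GrowA_C := by simp only [Matrix.mul_assoc]
      _ = _ := by rw [hP']; simp only [Matrix.mul_assoc, Matrix.mul_one, Matrix.one_mul]
  have r00 : (D * R * D) 0 0 = l ^ n * R 0 0 * l ^ n := by
    rw [hD, Matrix.mul_diagonal, Matrix.diagonal_mul]; simp
  have r01 : (D * R * D) 0 1 = R 0 1 := by
    rw [hD, Matrix.mul_diagonal, Matrix.diagonal_mul]
    simp
    linear_combination (R 0 1) * hln
  have r10 : (D * R * D) 1 0 = R 1 0 := by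
    rw [hD, Matrix.mul_diagonal, Matrix.diagonal_mul]
    simp
    linear_combination (R 1 0) * hln
  have r11 : (D * R * D) 1 1 = l' ^ n * R 1 1 * l' ^ n := by
    rw [hD, Matrix.mul_diagonal, Matrix.diagonal_mul]; simp
  have b11 : |(D * R * D) 1 1| ≤ 4 * (z * M * H * M * z') := by
    rw [r11, abs_mul, abs_mul]
    have h1 := up 1 1
    have h2 := abs_nonneg (R 1 1)
    calc |l' ^ n| * |R 1 1| * |l' ^ n| ≤ 1 * |R 1 1| * 1 := by gcongr
      _ = |R 1 1| := by ring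
      _ ≤ _ := h1
  have b01 : |(D * R * D) 0 1| ≤ 4 * (z * M * H * M * z') := by rw [r01]; exact up 0 1
  have b10 : |(D * R * D) 1 0| ≤ 4 * (z * M * H * M * z') := by rw [r10]; exact up 1 0
  -- lower bound of the (0,0) entry
  have hL : (0 : ℝ) < (|l| ^ 2) ^ n := by positivity
  have c1 : 6 * (z * z') ≤ ζ * M := by
    rw [div_le_iff₀ hζ0] at hn1
    linarith
  have c2 : 72 * (z * z') ≤ ζ * (|l| ^ 2) ^ n := by
    rw [div_le_iff₀ hζ0] at hn2
    linarith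
  have c3 : ζ * M ^ 2 * H / 2 ≤ |R 0 0| := by
    have h1 := mul_le_mul_of_nonneg_right c1 (by positivity : (0 : ℝ) ≤ M * H / 2)
    have h1' : 3 * (z * z' * M * H) ≤ ζ * M ^ 2 * H / 2 := by
      calc 3 * (z * z' * M * H) = 6 * (z * z') * (M * H / 2) := by ring
        _ ≤ ζ * M * (M * H / 2) := h1
        _ = _ := by ring
    linarith
  have c4 : |(D * R * D) 0 0| = (|l| ^ 2) ^ n * |R 0 0| := by
    rw [r00, abs_mul, abs_mul, abs_pow, ← pow_mul, mul_comm 2 n, pow_mul]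
    ring
  have c5 : 36 * (z * z') * (M ^ 2 * H) ≤ |(D * R * D) 0 0| := by
    rw [c4]
    have h1 := mul_le_mul_of_nonneg_left c3 hL.le
    have h2 := mul_le_mul_of_nonneg_right c2 (by positivity : (0 : ℝ) ≤ M ^ 2 * H / 2)
    calc 36 * (z * z') * (M ^ 2 * H) = 72 * (z * z') * (M ^ 2 * H / 2) := by ring
      _ ≤ ζ * (|l| ^ 2) ^ n * (M ^ 2 * H / 2) := h2
      _ = (|l| ^ 2) ^ n * (ζ * M ^ 2 * H / 2) := by ring
      _ ≤ _ := h1
  have c6 : (D * R * D) 0 0 ≠ 0 := by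
    rw [← abs_pos, c4]
    refine mul_pos hL (lt_of_lt_of_le ?_ c3)
    positivity
  obtain ⟨s, hs, hbal⟩ := pm_GrowA_dom c6 (by
    have : 4 * (z * M * H * M * z') = 36 * (z * z') * (M ^ 2 * H) / 9 := by ring
    linarith)
  refine ⟨s, hs, ?_⟩
  rw [← total] at hbal
  exact hbal

end PM3
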