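import Mathlib

/-! Growth of discrete subgroups of `SL(2,ℝ)` with respect to a submultiplicative size. -/

namespace PM3
open Matrix Filter Topology
open scoped MatrixGroups

noncomputable section

/-- entrywise `ℓ¹` norm of a 2 x 2 matrix -/
def nrm2 (A : Matrix (Fin 2) (Fin 2) ℝ) : ℝ := ∑ i, ∑ j, |A i j|

/-- positive 2 x 2 matrices with row and column ratios at most `K` -/
structure Bal2 (K : ℝ) (A : Matrix (Fin 2) (Fin 2) ℝ) : Prop where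
  pos : ∀ i j, 0 < A i j
  row : ∀ i i' j, A i j ≤ K * A i' j
  col : ∀ i j j', A i j ≤ K * A i j'

/-- the semigroup of elements which are positive and `2`-balanced, up to sign, in the frame `G` -/
def SG {Γ : Type*} [Group Γ] (ρ₀ : Γ →* SL(2, ℝ)) (G : GL (Fin 2) ℝ) : Set Γ :=
  {γ | ∃ s : ℝ, (s = 1 ∨ s = -1) ∧
    Bal2 2 (s • (((G⁻¹ : GL (Fin 2) ℝ) : Matrix (Fin 2) (Fin 2) ℝ) *
      (ρ₀ γ : Matrix (Fin 2) (Fin 2) ℝ) * (G : Matrix (Fin 2) (Fin 2) ℝ)))}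

/-- elements of `X` of size at most `e^T` -/
def nX {Γ : Type*} [Group Γ] (X : Subgroup Γ) (N : Γ → ℝ) (T : ℝ) : Set Γ := {g | g ∈ X ∧ N g ≤ Real.exp T}

/-- nontrivial conjugacy classes of `Γ` met by `nX X N T` -/
def nC {Γ : Type*} [Group Γ] (X : Subgroup Γ) (N : Γ → ℝ) (T : ℝ) : Set (ConjClasses Γ) :=
  {κ | κ ≠ 1 ∧ ∃ g ∈ nX X N T, ConjClasses.mk g = κ}

/-- exponent of growth -/
def expo {Γ : Type*} [Group Γ] (X : Subgroup Γ) (N : Γ → ℝ) : ℝ :=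
  limsup (fun T : ℝ => Real.log ((nX X N T).ncard) / T) atTop

/-- the Poincaré series -/
def poin {Γ : Type*} [Group Γ] (X : Subgroup Γ) (N : Γ → ℝ) (s : ℝ) : ENNReal :=
  ∑' g : X, ENNReal.ofReal ((N g) ^ (-s))

/-- a size on `X`: `N ≥ 1`, submultiplicative, controlled on `α, β` and controlling `ρ₀` -/
structure IsSize {Γ : Type*} [Group Γ] (ρ₀ : Γ →* SL(2, ℝ)) (α β : Γ) (c : ℝ) (X : Subgroup Γ) (N : Γ → ℝ) :
    Prop where
  hα : α ∈ X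
  hβ : β ∈ X
  one_le : ∀ g ∈ X, 1 ≤ N g
  mul_le : ∀ g ∈ X, ∀ h ∈ X, N (g * h) ≤ N g * N h
  gens : N α ≤ c ∧ N α⁻¹ ≤ c ∧ N β ≤ c ∧ N β⁻¹ ≤ c
  qi : ∀ g ∈ X, Real.log (nrm2 (ρ₀ g : Matrix (Fin 2) (Fin 2) ℝ)) ≤ c * (1 + Real.log (N g))

end

end PM3
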