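import Pool.Agent.LibPM3.Defs

/-! Positive matrices: definitions and interface lemmas. -/

namespace PM3
open Matrix Filter Topology

noncomputable section

/-- entrywise `ℓ¹` norm (submultiplicative) -/
def nrm (A : M3) : ℝ := ∑ i, ∑ j, |A i j|

/-- largest entry of a diagonal -/
def mxd (d : Fin 3 → ℝ) : ℝ := max (d 0) (max (d 1) (d 2))

/-- smallest entry of a matrix -/
def mn (A : M3) : ℝ := ⨅ p : Fin 3 × Fin 3, A p.1 p.2

/-- largest entry of a matrix -/
def mx (A : M3) : ℝ := ⨆ p : Fin 3 × Fin 3, A p.1 p.2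

/-- product of the diagonal entries -/
def dp (A : M3) : ℝ := A 0 0 * A 1 1 * A 2 2

/-- positive diagonal data of determinant one -/
def PosD (d : Fin 3 → ℝ) : Prop := (∀ i, 0 < d i) ∧ d 0 * d 1 * d 2 = 1

/-- `K`-balanced positive matrix whose diagonal product is at least `1 + κ` -/
structure Bal (K κ : ℝ) (A : M3) : Prop where
  pos : ∀ i j, 0 < A i j
  row : ∀ i i' j, A i j ≤ K * A i' j
  col : ∀ i j j', A i j ≤ K * A i j'
  dp_ge : 1 + κ ≤ dp A

/-- `∏ D_j B_j` -/
def prodL (l : List ((Fin 3 → ℝ) × M3)) : M3 := (l.map (fun x => diagonal x.1 * x.2)).prod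

end

end PM3
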