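import Pool.Agent.LibPM3.Mat

/-! [PM3 M1] norm and spectral radius. -/

namespace PM3
open Matrix Filter Topology

theorem nrm_nonneg (A : M3) : 0 ≤ nrm A :=
  Finset.sum_nonneg fun _ _ => Finset.sum_nonneg fun _ _ => abs_nonneg _

theorem nrm_mul_le (A B : M3) : nrm (A * B) ≤ nrm A * nrm B := by
  have h1 : ∀ i j, |(A * B) i j| ≤ ∑ k, |A i k| * |B k j| := by
    intro i j
    rw [Matrix.mul_apply]
    refine (Finset.abs_sum_le_sum_abs _ _).trans (le_of_eq ?_)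
    exact Finset.sum_congr rfl fun k _ => abs_mul _ _
  calc nrm (A * B) = ∑ i, ∑ j, |(A * B) i j| := rfl
    _ ≤ ∑ i, ∑ j, ∑ k, |A i k| * |B k j| :=
        Finset.sum_le_sum fun i _ => Finset.sum_le_sum fun j _ => h1 i j
    _ = ∑ i, ∑ k, |A i k| * ∑ j, |B k j| := by
        refine Finset.sum_congr rfl fun i _ => ?_
        rw [Finset.sum_comm]
        refine Finset.sum_congr rfl fun k _ => ?_
        rw [Finset.mul_sum]
    _ ≤ ∑ i, ∑ k, |A i k| * ∑ k', ∑ j, |B k' j| := by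
        refine Finset.sum_le_sum fun i _ => Finset.sum_le_sum fun k _ => ?_
        refine mul_le_mul_of_nonneg_left ?_ (abs_nonneg _)
        exact Finset.single_le_sum (f := fun k' => ∑ j, |B k' j|)
          (fun k' _ => Finset.sum_nonneg fun _ _ => abs_nonneg _) (Finset.mem_univ k)
    _ = (∑ i, ∑ j, |A i j|) * ∑ i, ∑ j, |B i j| := by
        simp only [Finset.sum_mul]
    _ = nrm A * nrm B := rfl

theorem nrm_le_of_le {A B : M3} (h : ∀ i j, |A i j| ≤ |B i j|) : nrm A ≤ nrm B :=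
  Finset.sum_le_sum fun i _ => Finset.sum_le_sum fun j _ => h i j

section gelfand

attribute [local instance] Matrix.linftyOpNormedRing Matrix.linftyOpNormedAlgebra

private abbrev pm_MatA_cx : M3 →+* Matrix (Fin 3) (Fin 3) ℂ :=
  (Complex.ofRealHom).mapMatrix

private theorem pm_MatA_map (A : M3) :
    A.map (fun r : ℝ => (r : ℂ)) = pm_MatA_cx A := rfl

private theorem pm_MatA_norm_le (A : M3) : ‖pm_MatA_cx A‖ ≤ nrm A := by
  rw [Matrix.linfty_opNorm_def]
  have : ∀ i, (∑ j, ‖(pm_MatA_cx A) i j‖₊ : NNReal) ≤ (nrm A).toNNReal := by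
    intro i
    rw [Real.le_toNNReal_iff_coe_le (nrm_nonneg A)]
    push_cast
    have h1 : ∀ j, ‖(pm_MatA_cx A) i j‖ = |A i j| := by
      intro j
      simp [pm_MatA_cx, Complex.norm_real]
    simp only [h1]
    exact Finset.single_le_sum (f := fun i => ∑ j, |A i j|)
      (fun k' _ => Finset.sum_nonneg fun _ _ => abs_nonneg _) (Finset.mem_univ i)
  have h2 : (Finset.univ.sup fun i => ∑ j, ‖(pm_MatA_cx A) i j‖₊) ≤
      (nrm A).toNNReal := Finset.sup_le fun i _ => this i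
  have h3 := (Real.le_toNNReal_iff_coe_le (nrm_nonneg A)).1 h2
  exact h3

private theorem pm_MatA_le_norm (A : M3) : nrm A ≤ 3 * ‖pm_MatA_cx A‖ := by
  have : ∀ i, (∑ j, |A i j|) ≤ ‖pm_MatA_cx A‖ := by
    intro i
    rw [Matrix.linfty_opNorm_def]
    have h2 : (∑ j, ‖(pm_MatA_cx A) i j‖₊) ≤
      (Finset.univ.sup fun i => ∑ j, ‖(pm_MatA_cx A) i j‖₊) :=
        Finset.le_sup (f := fun i => ∑ j, ‖(pm_MatA_cx A) i j‖₊) (Finset.mem_univ i)
    have h3 : ((∑ j, ‖(pm_MatA_cx A) i j‖₊ : NNReal) : ℝ) ≤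
      ((Finset.univ.sup fun i => ∑ j, ‖(pm_MatA_cx A) i j‖₊ : NNReal) : ℝ) := by
        exact_mod_cast h2
    refine le_trans (le_of_eq ?_) h3
    push_cast
    refine Finset.sum_congr rfl fun j _ => ?_
    simp [pm_MatA_cx, Complex.norm_real]
  have h3 : nrm A ≤ ∑ _i : Fin 3, ‖pm_MatA_cx A‖ := Finset.sum_le_sum fun i _ => this i
  simpa using h3

private theorem pm_MatA_tendsto_norm (A : M3) :
    Tendsto (fun n : ℕ => ‖pm_MatA_cx (A ^ n)‖ ^ (1 / (n : ℝ))) atTop (𝓝 (lam A)) := by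
  have h := spectrum.pow_norm_pow_one_div_tendsto_nhds_spectralRadius (pm_MatA_cx A)
  have hfin : spectralRadius ℂ (pm_MatA_cx A) ≠ ⊤ :=
    ne_top_of_le_ne_top ENNReal.coe_ne_top (spectrum.spectralRadius_le_nnnorm (𝕜 := ℂ) (pm_MatA_cx A))
  have h2 := (ENNReal.tendsto_toReal hfin).comp h
  refine h2.congr fun n => ?_
  simp only [Function.comp]
  rw [ENNReal.toReal_ofReal (Real.rpow_nonneg (norm_nonneg _) _), map_pow]

private theorem pm_MatA_const {C : ℝ} (hC : 0 < C) :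
    Tendsto (fun n : ℕ => C ^ (1 / (n : ℝ))) atTop (𝓝 1) := by
  have h : Tendsto (fun n : ℕ => 1 / (n : ℝ)) atTop (𝓝 0) := tendsto_one_div_atTop_nhds_zero_nat
  have h2 := (Real.continuousAt_const_rpow hC.ne').tendsto.comp h
  rw [Real.rpow_zero] at h2
  exact h2

/-- Gelfand's formula for the spectral radius `lam` with the norm `nrm` -/
theorem lam_tendsto (A : M3) :
    Tendsto (fun n : ℕ => (nrm (A ^ n)) ^ (1 / (n : ℝ))) atTop (𝓝 (lam A)) := by
  have h1 := pm_MatA_tendsto_norm A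
  have h2 : Tendsto (fun n : ℕ => (3 : ℝ) ^ (1 / (n : ℝ)) * ‖pm_MatA_cx (A ^ n)‖ ^ (1 / (n : ℝ)))
      atTop (𝓝 (lam A)) := by
    simpa using (pm_MatA_const (by norm_num : (0 : ℝ) < 3)).mul h1
  refine tendsto_of_tendsto_of_tendsto_of_le_of_le h1 h2 (fun n => ?_) (fun n => ?_)
  · exact Real.rpow_le_rpow (norm_nonneg _) (pm_MatA_norm_le _) (by positivity)
  · show nrm (A ^ n) ^ (1 / (n : ℝ)) ≤ (3 : ℝ) ^ (1 / (n : ℝ)) * ‖pm_MatA_cx (A ^ n)‖ ^ (1 / (n : ℝ))
    rw [← Real.mul_rpow (by norm_num) (norm_nonneg _)]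
    exact Real.rpow_le_rpow (nrm_nonneg _) (pm_MatA_le_norm _) (by positivity)

end gelfand

theorem lam_nonneg (A : M3) : 0 ≤ lam A := ENNReal.toReal_nonneg

private theorem pm_MatA_pow_le (A : M3) (n : ℕ) : nrm (A ^ (n + 1)) ≤ nrm A ^ (n + 1) := by
  induction n with
  | zero => simp
  | succ n ih =>
    rw [pow_succ A (n + 1), pow_succ (nrm A) (n + 1)]
    exact (nrm_mul_le _ _).trans (mul_le_mul_of_nonneg_right ih (nrm_nonneg _))

theorem lam_le_nrm (A : M3) : lam A ≤ nrm A := by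
  refine le_of_tendsto (lam_tendsto A) ?_
  filter_upwards [eventually_ge_atTop 1] with n hn
  obtain ⟨m, rfl⟩ : ∃ m, n = m + 1 := ⟨n - 1, by omega⟩
  have h1 := pm_MatA_pow_le A m
  have h2 := Real.rpow_le_rpow (nrm_nonneg _) h1 (z := 1 / ((m + 1 : ℕ) : ℝ)) (by positivity)
  refine h2.trans (le_of_eq ?_)
  rw [← Real.rpow_natCast, ← Real.rpow_mul (nrm_nonneg _), mul_one_div_cancel (by positivity),
    Real.rpow_one]

theorem lam_mul_comm (A B : M3) : lam (A * B) = lam (B * A) := by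
  unfold lam
  congr 1
  rw [pm_MatA_map, pm_MatA_map, map_mul, map_mul]
  have key : ∀ a b : Matrix (Fin 3) (Fin 3) ℂ,
      spectralRadius ℂ (a * b) ≤ spectralRadius ℂ (b * a) := by
    intro a b
    refine iSup₂_le fun k hk => ?_
    by_cases h0 : k = 0
    · simp [h0]
    · have h1 : k ∈ spectrum ℂ (a * b) \ {0} := ⟨hk, h0⟩
      rw [spectrum.nonzero_mul_comm] at h1
      exact le_iSup₂ (f := fun k (_ : k ∈ spectrum ℂ (b * a)) => (‖k‖₊ : ENNReal)) k h1.1
  exact le_antisymm (key _ _) (key _ _)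

theorem lam_conj (P : GL (Fin 3) ℝ) (A : M3) : lam ((P : M3) * A * ((P⁻¹ : GL (Fin 3) ℝ) : M3)) = lam A := by
  rw [lam_mul_comm, ← Matrix.mul_assoc]
  have : ((P⁻¹ : GL (Fin 3) ℝ) : M3) * (P : M3) = 1 := by
    rw [← Units.val_mul, inv_mul_cancel, Units.val_one]
  rw [this, Matrix.one_mul]

private theorem pm_MatA_det_le (A : M3) : |A.det| ≤ nrm A ^ 3 := by
  have h1 : |A.det| ≤ (|A 0 0| + |A 1 0| + |A 2 0|) * (|A 0 1| + |A 1 1| + |A 2 1|) *
      (|A 0 2| + |A 1 2| + |A 2 2|) := by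
    rw [Matrix.det_fin_three]
    have h2 : |A 0 0 * A 1 1 * A 2 2 - A 0 0 * A 1 2 * A 2 1 - A 0 1 * A 1 0 * A 2 2 +
        A 0 1 * A 1 2 * A 2 0 + A 0 2 * A 1 0 * A 2 1 - A 0 2 * A 1 1 * A 2 0| ≤
        |A 0 0| * |A 1 1| * |A 2 2| + |A 0 0| * |A 1 2| * |A 2 1| + |A 0 1| * |A 1 0| * |A 2 2| +
        |A 0 1| * |A 1 2| * |A 2 0| + |A 0 2| * |A 1 0| * |A 2 1| + |A 0 2| * |A 1 1| * |A 2 0| := by
      simp only [← abs_mul]
      refine (abs_sub _ _).trans (add_le_add ?_ le_rfl)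
      refine (abs_add_le _ _).trans (add_le_add ?_ le_rfl)
      refine (abs_add_le _ _).trans (add_le_add ?_ le_rfl)
      refine (abs_sub _ _).trans (add_le_add ?_ le_rfl)
      exact abs_sub _ _
    refine h2.trans ?_
    have h3 : (|A 0 0| + |A 1 0| + |A 2 0|) * (|A 0 1| + |A 1 1| + |A 2 1|) *
      (|A 0 2| + |A 1 2| + |A 2 2|) - (|A 0 0| * |A 1 1| * |A 2 2| + |A 0 0| * |A 1 2| * |A 2 1| +
        |A 0 1| * |A 1 0| * |A 2 2| + |A 0 1| * |A 1 2| * |A 2 0| + |A 0 2| * |A 1 0| * |A 2 1| +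
        |A 0 2| * |A 1 1| * |A 2 0|) =
        |A 0 0| * |A 0 1| * (|A 0 2| + |A 1 2| + |A 2 2|) +
        |A 0 0| * |A 1 1| * (|A 0 2| + |A 1 2|) +
        |A 0 0| * |A 2 1| * (|A 0 2| + |A 2 2|) +
        |A 1 0| * |A 0 1| * (|A 0 2| + |A 1 2|) +
        |A 1 0| * |A 1 1| * (|A 0 2| + |A 1 2| + |A 2 2|) +
        |A 1 0| * |A 2 1| * (|A 1 2| + |A 2 2|) +
        |A 2 0| * |A 0 1| * (|A 0 2| + |A 2 2|) +
        |A 2 0| * |A 1 1| * (|A 1 2| + |A 2 2|) +
        |A 2 0| * |A 2 1| * (|A 0 2| + |A 1 2| + |A 2 2|) := by ring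
    have h4 : 0 ≤ |A 0 0| * |A 0 1| * (|A 0 2| + |A 1 2| + |A 2 2|) +
        |A 0 0| * |A 1 1| * (|A 0 2| + |A 1 2|) +
        |A 0 0| * |A 2 1| * (|A 0 2| + |A 2 2|) +
        |A 1 0| * |A 0 1| * (|A 0 2| + |A 1 2|) +
        |A 1 0| * |A 1 1| * (|A 0 2| + |A 1 2| + |A 2 2|) +
        |A 1 0| * |A 2 1| * (|A 1 2| + |A 2 2|) +
        |A 2 0| * |A 0 1| * (|A 0 2| + |A 2 2|) +
        |A 2 0| * |A 1 1| * (|A 1 2| + |A 2 2|) +
        |A 2 0| * |A 2 1| * (|A 0 2| + |A 1 2| + |A 2 2|) := by positivity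
    linarith
  have hn : nrm A = |A 0 0| + |A 0 1| + |A 0 2| + (|A 1 0| + |A 1 1| + |A 1 2|) +
      (|A 2 0| + |A 2 1| + |A 2 2|) := by
    simp [nrm, Fin.sum_univ_three]
  have e0 : |A 0 0| + |A 1 0| + |A 2 0| ≤ nrm A := by
    rw [hn]
    linarith [abs_nonneg (A 0 1), abs_nonneg (A 0 2), abs_nonneg (A 1 1), abs_nonneg (A 1 2),
      abs_nonneg (A 2 1), abs_nonneg (A 2 2)]
  have e1 : |A 0 1| + |A 1 1| + |A 2 1| ≤ nrm A := by
    rw [hn]
    linarith [abs_nonneg (A 0 0), abs_nonneg (A 0 2), abs_nonneg (A 1 0), abs_nonneg (A 1 2),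
      abs_nonneg (A 2 0), abs_nonneg (A 2 2)]
  have e2 : |A 0 2| + |A 1 2| + |A 2 2| ≤ nrm A := by
    rw [hn]
    linarith [abs_nonneg (A 0 0), abs_nonneg (A 0 1), abs_nonneg (A 1 0), abs_nonneg (A 1 1),
      abs_nonneg (A 2 0), abs_nonneg (A 2 1)]
  refine h1.trans ?_
  have h5 := mul_le_mul (mul_le_mul e0 e1 (by positivity) (nrm_nonneg A)) e2 (by positivity)
    (mul_nonneg (nrm_nonneg A) (nrm_nonneg A))
  calc _ ≤ nrm A * nrm A * nrm A := h5
    _ = nrm A ^ 3 := by ring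

/-- `|det A| ≤ lam(A)^3`; in particular `1 ≤ lam A` if `det A = 1` -/
theorem one_le_lam {A : M3} (h : A.det = 1) : 1 ≤ lam A := by
  refine ge_of_tendsto (lam_tendsto A) (Eventually.of_forall fun n => ?_)
  have h1 : 1 ≤ nrm (A ^ n) := by
    by_contra hc
    push Not at hc
    have h2 := pm_MatA_det_le (A ^ n)
    rw [Matrix.det_pow, h, one_pow, abs_one] at h2
    have h3 : nrm (A ^ n) ^ 3 < 1 := pow_lt_one₀ (nrm_nonneg _) hc (by norm_num)
    linarith
  exact Real.one_le_rpow h1 (by positivity)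

theorem lam_one : lam (1 : M3) = 1 := by
  unfold lam
  rw [pm_MatA_map, map_one]
  have : spectralRadius ℂ (1 : Matrix (Fin 3) (Fin 3) ℂ) = 1 := by
    unfold spectralRadius
    rw [spectrum.one_eq]
    simp
  rw [this]
  simp

private theorem pm_MatA_pow_nonneg {A : M3} (h : ∀ i j, 0 ≤ A i j) (n : ℕ) :
    ∀ i j, 0 ≤ (A ^ n) i j := by
  induction n with
  | zero =>
    intro i j
    rw [pow_zero, Matrix.one_apply]
    split_ifs <;> norm_num
  | succ n ih =>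
    intro i j
    rw [pow_succ, Matrix.mul_apply]
    exact Finset.sum_nonneg fun k _ => mul_nonneg (ih i k) (h k j)

/-- diagonal entries of a nonnegative matrix -/
theorem diag_le_lam {A : M3} (h : ∀ i j, 0 ≤ A i j) (i : Fin 3) : A i i ≤ lam A := by
  have hp : ∀ n : ℕ, (A i i) ^ n ≤ (A ^ n) i i := by
    intro n
    induction n with
    | zero => simp
    | succ n ih =>
      rw [pow_succ, pow_succ, Matrix.mul_apply]
      refine (mul_le_mul_of_nonneg_right ih (h i i)).trans ?_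
      exact Finset.single_le_sum (f := fun k => (A ^ n) i k * A k i)
        (fun k _ => mul_nonneg (pm_MatA_pow_nonneg h n i k) (h k i)) (Finset.mem_univ i)
  refine ge_of_tendsto (lam_tendsto A) ?_
  filter_upwards [eventually_ge_atTop 1] with n hn
  have h1 : (A ^ n) i i ≤ nrm (A ^ n) := by
    refine (le_abs_self _).trans ?_
    refine (Finset.single_le_sum (f := fun j => |(A ^ n) i j|) (fun _ _ => abs_nonneg _)
      (Finset.mem_univ i)).trans ?_
    exact Finset.single_le_sum (f := fun i => ∑ j, |(A ^ n) i j|)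
      (fun k' _ => Finset.sum_nonneg fun _ _ => abs_nonneg _) (Finset.mem_univ i)
  have h2 := Real.rpow_le_rpow (pow_nonneg (h i i) n) ((hp n).trans h1) (z := 1 / (n : ℝ))
    (by positivity)
  refine le_trans (le_of_eq ?_) h2
  have hn' : (n : ℝ) ≠ 0 := by exact_mod_cast (by omega : n ≠ 0)
  rw [← Real.rpow_natCast, ← Real.rpow_mul (h i i), mul_one_div_cancel hn', Real.rpow_one]

theorem lam_mono {A B : M3} (h : ∀ i j, 0 ≤ A i j) (h' : ∀ i j, A i j ≤ B i j) : lam A ≤ lam B := by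
  have hB : ∀ i j, 0 ≤ B i j := fun i j => (h i j).trans (h' i j)
  have hp : ∀ n : ℕ, ∀ i j, (A ^ n) i j ≤ (B ^ n) i j := by
    intro n
    induction n with
    | zero => intro i j; simp
    | succ n ih =>
      intro i j
      rw [pow_succ, pow_succ, Matrix.mul_apply, Matrix.mul_apply]
      exact Finset.sum_le_sum fun k _ => mul_le_mul (ih i k) (h' k j) (h k j)
        (pm_MatA_pow_nonneg hB n i k)
  refine le_of_tendsto_of_tendsto (lam_tendsto A) (lam_tendsto B) (Eventually.of_forall fun n => ?_)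
  refine Real.rpow_le_rpow (nrm_nonneg _) (nrm_le_of_le fun i j => ?_) (by positivity)
  rw [abs_of_nonneg (pm_MatA_pow_nonneg h n i j), abs_of_nonneg (pm_MatA_pow_nonneg hB n i j)]
  exact hp n i j

end PM3
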