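import Pool.Agent.LibPM3.Hand

/-! Moves in family I. -/

namespace PM3
open Matrix Filter Topology
open scoped MatrixGroups

noncomputable section

/-- handle types -/
def b0 : Fin 3 → Bool := fun _ => false
def by0 : Fin 3 → Bool := fun i => decide (i = 0)

/-- a path of parameters: the coordinate functions are affine -/
def ray (z : ZI) (u : ZI) (s : ℝ) : ZI where
  t i := z.t i + s * u.t i
  a i := z.a i + s * u.a i
  th i := z.th i + s * u.th i

/-- entrywise smooth paths of matrices -/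
def pm_MI1_SM (A : ℝ → M3) : Prop := ∀ i j, ContDiff ℝ (⊤ : ℕ∞) (fun s => A s i j)

theorem pm_MI1_const (A : M3) : pm_MI1_SM (fun _ => A) := fun _ _ => contDiff_const

theorem pm_MI1_mul {A C : ℝ → M3} (hA : pm_MI1_SM A) (hC : pm_MI1_SM C) :
    pm_MI1_SM (fun s => A s * C s) := by
  intro i j
  simp only [Matrix.mul_apply, Fin.sum_univ_three]
  exact (((hA _ _).mul (hC _ _)).add ((hA _ _).mul (hC _ _))).add ((hA _ _).mul (hC _ _))

theorem pm_MI1_inv {A : ℝ → M3} (hA : pm_MI1_SM A) (hd : ∀ s, (A s).det ≠ 0) :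
    pm_MI1_SM (fun s => (A s)⁻¹) := by
  have h2 : ∀ a b c d : Fin 3, ContDiff ℝ (⊤ : ℕ∞) (fun s => A s a b * A s c d) :=
    fun a b c d => (hA a b).mul (hA c d)
  have hdet : ContDiff ℝ (⊤ : ℕ∞) (fun s => (A s).det) := by
    simp only [Matrix.det_fin_three]
    have h3 : ∀ a b c d e f : Fin 3, ContDiff ℝ (⊤ : ℕ∞) (fun s => A s a b * A s c d * A s e f) :=
      fun a b c d e f => (h2 a b c d).mul (hA e f)
    exact (((((h3 _ _ _ _ _ _).sub (h3 _ _ _ _ _ _)).sub (h3 _ _ _ _ _ _)).add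
      (h3 _ _ _ _ _ _)).add (h3 _ _ _ _ _ _)).sub (h3 _ _ _ _ _ _)
  have hadj : pm_MI1_SM (fun s => (A s).adjugate) := by
    intro i j
    simp only [Matrix.adjugate_fin_three]
    fin_cases i <;> fin_cases j <;>
      simp only [Fin.zero_eta, Fin.mk_one, Fin.reduceFinMk, Matrix.of_apply, Matrix.cons_val] <;>
      first
        | exact (h2 _ _ _ _).sub (h2 _ _ _ _)
        | exact (h2 _ _ _ _).neg.add (h2 _ _ _ _)
  intro i j
  have e : (fun s => (A s)⁻¹ i j) = fun s => ((A s).det)⁻¹ * (A s).adjugate i j := by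
    funext s
    rw [Matrix.inv_def, Ring.inverse_eq_inv', Matrix.smul_apply, smul_eq_mul]
  rw [e]
  exact (hdet.inv hd).mul (hadj i j)

theorem pm_MI1_cj (f : M2) {a th : ℝ → ℝ} (ha : ContDiff ℝ (⊤ : ℕ∞) a) (hth : ContDiff ℝ (⊤ : ℕ∞) th) :
    pm_MI1_SM (fun s => cj f (dgv (a s) (th s))) := by
  unfold cj
  refine pm_MI1_mul (pm_MI1_mul (pm_MI1_const _) ?_) (pm_MI1_const _)
  intro i j
  by_cases h : i = j
  · subst h
    simp only [Matrix.diagonal_apply_eq, dgv]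
    fin_cases i
    · exact (ha.add hth).exp
    · exact (contDiff_const.mul ha).neg.exp
    · exact (ha.sub hth).exp
  · simp only [Matrix.diagonal_apply_ne _ h]
    exact contDiff_const

section
variable (B : Base) (b : Fin 3 → Bool)

/-- smoothness of the family along rays -/
theorem smooth_ray (z u : ZI) : SmoothPath (fun s => B.repI b (ray z u s)) := by
  have haff : ∀ x y : ℝ, ContDiff ℝ (⊤ : ℕ∞) (fun s : ℝ => x + s * y) := fun x y =>
    contDiff_const.add (contDiff_id.mul contDiff_const)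
  have hg : ∀ i, pm_MI1_SM (fun s => B.gI b (ray z u s) i) := by
    intro i
    exact pm_MI1_mul (pm_MI1_cj _ (haff _ _) contDiff_const) (pm_MI1_const _)
  have hgi : ∀ i, pm_MI1_SM (fun s => (B.gI b (ray z u s) i)⁻¹) := fun i =>
    pm_MI1_inv (hg i) (fun s => B.gI_det b _ i)
  have hY : ∀ i, pm_MI1_SM (fun s => B.hY i ((ray z u s).a i) ((ray z u s).th i)) := by
    intro i
    refine pm_MI1_mul (pm_MI1_const _) (pm_MI1_cj _ (haff _ _) ?_)
    exact ((haff _ _).mul contDiff_const).neg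
  apply smoothPath_of_gens
  intro k i j
  constructor
  · simp only [Base.repI_x]
    refine pm_MI1_mul (pm_MI1_mul (hg k) ?_) (hgi k) i j
    by_cases hb : b k = true
    · simp only [hb, if_true]; exact hY k
    · simp only [hb]; exact pm_MI1_const _
  · simp only [Base.repI_y]
    refine pm_MI1_mul (pm_MI1_mul (hg k) ?_) (hgi k) i j
    by_cases hb : b k = true
    · simp only [hb, if_true]; exact pm_MI1_const _
    · simp only [hb]; exact hY k

theorem pm_MI1_e1 (c x y w : ℝ) (h : x = y + w) :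
    c * Real.exp x = c * Real.exp y * Real.exp w := by
  rw [h, Real.exp_add, mul_assoc]

theorem pm_MI1_e2 (c x y w : ℝ) (h : -x = -y + w) :
    (c * Real.exp x)⁻¹ = (c * Real.exp y)⁻¹ * Real.exp w := by
  rw [mul_inv, mul_inv, ← Real.exp_neg, ← Real.exp_neg, h, Real.exp_add, mul_assoc]

theorem pm_MI1_e3 (x y w : ℝ) (h : x = y + w) :
    Real.exp x = Real.exp y * Real.exp w := by
  rw [h, Real.exp_add]

theorem pm_MI1_e4 (x y w : ℝ) (h : -x = -y + w) :
    (Real.exp x)⁻¹ = (Real.exp y)⁻¹ * Real.exp w := by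
  rw [← Real.exp_neg, ← Real.exp_neg, h, Real.exp_add]

/-- logarithmic derivatives of the crossing diagonals along a ray -/
def pm_MI1_hd (u : ZI) : QI → Fin 3 → ℝ
  | QI.dP i => ![u.t i, -(2 * u.t i), u.t i]
  | QI.dH i => ![-(u.t i), 2 * u.t i, -(u.t i)]
  | QI.mp i => if b i then ![-(u.a i - u.th i * B.Lm), 2 * u.a i, -(u.a i + u.th i * B.Lm)]
      else ![-(u.a i + u.th i * B.Lm), 2 * u.a i, -(u.a i - u.th i * B.Lm)]
  | QI.mm i => if b i then ![u.a i + u.th i * B.Lm, -(2 * u.a i), u.a i - u.th i * B.Lm]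
      else ![u.a i - u.th i * B.Lm, -(2 * u.a i), u.a i + u.th i * B.Lm]

/-- deformation data of a ray: `M` is the set of ports whose crossing changes -/
theorem defPath_ray (z u : ZI) (M : Set QI)
    (hM : ∀ i, (u.t i ≠ 0 → QI.dP i ∈ M ∧ QI.dH i ∈ M) ∧
      ((u.a i ≠ 0 ∨ u.th i ≠ 0) → QI.mp i ∈ M ∧ QI.mm i ∈ M))
    (hu : ∀ i, |u.t i| ≤ 1 ∧ |u.a i| ≤ 1 ∧ |u.th i| ≤ 1) :
    ∃ hd, DefPath (B.psI b) (ray z u) M hd (2 + B.Lm) := by
  refine ⟨pm_MI1_hd B b u, ?_, ?_, ?_⟩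
  · intro p s i
    show B.D0I b p (ray z u s) i = B.D0I b p (ray z u 0) i * Real.exp (s * pm_MI1_hd B b u p i)
    cases p with
    | dP k =>
      fin_cases i
      · exact pm_MI1_e1 _ _ _ _ (by simp only [ray, pm_MI1_hd, Fin.zero_eta, Fin.mk_one, Fin.reduceFinMk, Matrix.cons_val]; ring)
      · exact pm_MI1_e3 _ _ _ (by simp only [ray, pm_MI1_hd, Fin.zero_eta, Fin.mk_one, Fin.reduceFinMk, Matrix.cons_val]; ring)
      · exact pm_MI1_e1 _ _ _ _ (by simp only [ray, pm_MI1_hd, Fin.zero_eta, Fin.mk_one, Fin.reduceFinMk, Matrix.cons_val]; ring)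
    | dH k =>
      fin_cases i
      · exact pm_MI1_e2 _ _ _ _ (by simp only [ray, pm_MI1_hd, Fin.zero_eta, Fin.mk_one, Fin.reduceFinMk, Matrix.cons_val]; ring)
      · exact pm_MI1_e4 _ _ _ (by simp only [ray, pm_MI1_hd, Fin.zero_eta, Fin.mk_one, Fin.reduceFinMk, Matrix.cons_val]; ring)
      · exact pm_MI1_e2 _ _ _ _ (by simp only [ray, pm_MI1_hd, Fin.zero_eta, Fin.mk_one, Fin.reduceFinMk, Matrix.cons_val]; ring)
    | mp k =>
      by_cases hb : b k = true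
      · simp only [Base.D0I, hb, if_true, pm_MI1_hd]
        fin_cases i
        · exact pm_MI1_e2 _ _ _ _ (by simp only [ray, pm_MI1_hd, Fin.zero_eta, Fin.mk_one, Fin.reduceFinMk, Matrix.cons_val]; ring)
        · exact pm_MI1_e4 _ _ _ (by simp only [ray, pm_MI1_hd, Fin.zero_eta, Fin.mk_one, Fin.reduceFinMk, Matrix.cons_val]; ring)
        · exact pm_MI1_e2 _ _ _ _ (by simp only [ray, pm_MI1_hd, Fin.zero_eta, Fin.mk_one, Fin.reduceFinMk, Matrix.cons_val]; ring)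
      · simp only [Base.D0I, hb, pm_MI1_hd, Bool.false_eq_true, if_false]
        fin_cases i
        · exact pm_MI1_e2 _ _ _ _ (by simp only [ray, pm_MI1_hd, Fin.zero_eta, Fin.mk_one, Fin.reduceFinMk, Matrix.cons_val]; ring)
        · exact pm_MI1_e4 _ _ _ (by simp only [ray, pm_MI1_hd, Fin.zero_eta, Fin.mk_one, Fin.reduceFinMk, Matrix.cons_val]; ring)
        · exact pm_MI1_e2 _ _ _ _ (by simp only [ray, pm_MI1_hd, Fin.zero_eta, Fin.mk_one, Fin.reduceFinMk, Matrix.cons_val]; ring)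
    | mm k =>
      by_cases hb : b k = true
      · simp only [Base.D0I, hb, if_true, pm_MI1_hd]
        fin_cases i
        · exact pm_MI1_e1 _ _ _ _ (by simp only [ray, pm_MI1_hd, Fin.zero_eta, Fin.mk_one, Fin.reduceFinMk, Matrix.cons_val]; ring)
        · exact pm_MI1_e3 _ _ _ (by simp only [ray, pm_MI1_hd, Fin.zero_eta, Fin.mk_one, Fin.reduceFinMk, Matrix.cons_val]; ring)
        · exact pm_MI1_e1 _ _ _ _ (by simp only [ray, pm_MI1_hd, Fin.zero_eta, Fin.mk_one, Fin.reduceFinMk, Matrix.cons_val]; ring)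
      · simp only [Base.D0I, hb, pm_MI1_hd, Bool.false_eq_true, if_false]
        fin_cases i
        · exact pm_MI1_e1 _ _ _ _ (by simp only [ray, pm_MI1_hd, Fin.zero_eta, Fin.mk_one, Fin.reduceFinMk, Matrix.cons_val]; ring)
        · exact pm_MI1_e3 _ _ _ (by simp only [ray, pm_MI1_hd, Fin.zero_eta, Fin.mk_one, Fin.reduceFinMk, Matrix.cons_val]; ring)
        · exact pm_MI1_e1 _ _ _ _ (by simp only [ray, pm_MI1_hd, Fin.zero_eta, Fin.mk_one, Fin.reduceFinMk, Matrix.cons_val]; ring)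
  · intro p i
    have hL := B.hLm
    have h1 : ∀ k, |u.a k - u.th k * B.Lm| ≤ 2 + B.Lm := by
      intro k
      obtain ⟨_, h2, h3⟩ := hu k
      have h4 : |u.th k * B.Lm| ≤ B.Lm := by
        rw [abs_mul, abs_of_pos hL]
        nlinarith [abs_nonneg (u.th k)]
      calc |u.a k - u.th k * B.Lm| ≤ |u.a k| + |u.th k * B.Lm| := abs_sub _ _
        _ ≤ 2 + B.Lm := by linarith
    have h2 : ∀ k, |u.a k + u.th k * B.Lm| ≤ 2 + B.Lm := by
      intro k
      obtain ⟨_, h2, h3⟩ := hu k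
      have h4 : |u.th k * B.Lm| ≤ B.Lm := by
        rw [abs_mul, abs_of_pos hL]
        nlinarith [abs_nonneg (u.th k)]
      calc |u.a k + u.th k * B.Lm| ≤ |u.a k| + |u.th k * B.Lm| := abs_add_le _ _
        _ ≤ 2 + B.Lm := by linarith
    have h3 : ∀ k, |u.t k| ≤ 2 + B.Lm ∧ |2 * u.t k| ≤ 2 + B.Lm ∧ |2 * u.a k| ≤ 2 + B.Lm := by
      intro k
      obtain ⟨h4, h5, _⟩ := hu k
      refine ⟨by linarith, ?_, ?_⟩ <;> rw [abs_mul, abs_two] <;> linarith
    cases p with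
    | dP k =>
      fin_cases i <;> simp [pm_MI1_hd] <;> first | exact (h3 k).1 | simpa using (h3 k).2.1
    | dH k =>
      fin_cases i <;> simp [pm_MI1_hd] <;> first | exact (h3 k).1 | simpa using (h3 k).2.1
    | mp k =>
      by_cases hb : b k = true
      · simp only [pm_MI1_hd, hb, if_true]
        fin_cases i
        · show |(-(u.a k - u.th k * B.Lm))| ≤ _
          rw [abs_neg]; exact h1 k
        · exact (h3 k).2.2
        · show |(-(u.a k + u.th k * B.Lm))| ≤ _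
          rw [abs_neg]; exact h2 k
      · simp only [pm_MI1_hd, hb]
        fin_cases i
        · show |(-(u.a k + u.th k * B.Lm))| ≤ _
          rw [abs_neg]; exact h2 k
        · exact (h3 k).2.2
        · show |(-(u.a k - u.th k * B.Lm))| ≤ _
          rw [abs_neg]; exact h1 k
    | mm k =>
      by_cases hb : b k = true
      · simp only [pm_MI1_hd, hb, if_true]
        fin_cases i
        · exact h2 k
        · show |(-(2 * u.a k))| ≤ _
          rw [abs_neg]; exact (h3 k).2.2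
        · exact h1 k
      · simp only [pm_MI1_hd, hb]
        fin_cases i
        · exact h1 k
        · show |(-(2 * u.a k))| ≤ _
          rw [abs_neg]; exact (h3 k).2.2
        · exact h2 k
  · intro p hp
    cases p with
    | dP k =>
      have h0 : u.t k = 0 := by
        by_contra h
        exact hp ((hM k).1 h).1
      funext i
      fin_cases i <;> simp [pm_MI1_hd, h0]
    | dH k =>
      have h0 : u.t k = 0 := by
        by_contra h
        exact hp ((hM k).1 h).2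
      funext i
      fin_cases i <;> simp [pm_MI1_hd, h0]
    | mp k =>
      have h0 : u.a k = 0 ∧ u.th k = 0 := by
        constructor
        · by_contra h
          exact hp ((hM k).2 (Or.inl h)).1
        · by_contra h
          exact hp ((hM k).2 (Or.inr h)).1
      funext i
      by_cases hb : b k = true
      · fin_cases i <;> simp [pm_MI1_hd, h0.1, h0.2, hb]
      · fin_cases i <;> simp [pm_MI1_hd, h0.1, h0.2, hb]
    | mm k =>
      have h0 : u.a k = 0 ∧ u.th k = 0 := by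
        constructor
        · by_contra h
          exact hp ((hM k).2 (Or.inl h)).2
        · by_contra h
          exact hp ((hM k).2 (Or.inr h)).2
      funext i
      by_cases hb : b k = true
      · fin_cases i <;> simp [pm_MI1_hd, h0.1, h0.2, hb]
      · fin_cases i <;> simp [pm_MI1_hd, h0.1, h0.2, hb]

theorem dP_ray (z u : ZI) {x y : ℝ} (hxy : x ≤ y) :
    dP (B.repI b (ray z u x)) (B.repI b (ray z u y)) ≤ len (fun s => B.repI b (ray z u s)) x y :=
  sInf_le (Reach.path (fun s => B.repI b (ray z u s)) x y hxy (smooth_ray B b z u)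
    (fun _ _ => repI_hit (B := B) (b := b) _))

end

/-! ### helper lemmas for `move1_unit` (MI2) -/

def pm_MI2_code : QI → Fin 4 × Fin 3
  | QI.dP i => (0, i)
  | QI.dH i => (1, i)
  | QI.mp i => (2, i)
  | QI.mm i => (3, i)

theorem pm_MI2_code_inj : Function.Injective pm_MI2_code := by
  intro p q h
  cases p <;> cases q <;> simp_all [pm_MI2_code]

/-- crude bound of a sum over a set of ports -/
theorem pm_MI2_tsum_le (S : Set QI) (f : S → ENNReal) (X : ENNReal) (h : ∀ e, f e ≤ X) :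
    ∑' e : S, f e ≤ 12 * X := by
  calc ∑' e : S, f e ≤ ∑' _ : S, X := ENNReal.tsum_le_tsum h
    _ ≤ ∑' _ : Fin 4 × Fin 3, X := by
        have h1 := ENNReal.tsum_comp_le_tsum_of_injective
          (f := fun e : S => pm_MI2_code e.1) (fun a b hab => Subtype.ext (pm_MI2_code_inj hab))
          (fun _ : Fin 4 × Fin 3 => X)
        exact h1
    _ = 12 * X := by
        rw [tsum_fintype, Finset.sum_const, nsmul_eq_mul]
        norm_num

theorem pm_MI2_finI : {p : QI | ∃ i, p = QI.dP i ∨ p = QI.dH i}.Finite := by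
  apply Set.Finite.of_finite_image (f := pm_MI2_code) (Set.toFinite _)
  exact pm_MI2_code_inj.injOn

/-- the exponent of a handle is at most the exponent of the closed group -/
theorem pm_MI2_handle_le (B : Base) (b : Fin 3 → Bool) (z : ZI) (i : Fin 3) (ha : 0 ≤ z.a i)
    (hth0 : 0 ≤ z.th i) (hth1 : z.th i ≤ 1) :
    B.EH (z.a i) (z.th i) ≤ expo ⊤ ((B.psI b).N (QI.dP i) z) := by
  obtain ⟨Cg, hCg, hG⟩ := handle_growth B (z.a i)
  obtain ⟨-, -, hfinH, hlimH, -⟩ := hG (z.a i) (z.th i) ha le_rfl hth0 hth1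
  obtain ⟨-, -, -, hfinP, hfinD, hlimP⟩ := closed_lim B b z i
  obtain ⟨c, hc, hN⟩ := nrm_frame_change ((B.psI b).F (QI.dP i) z) ((B.psI b).F (QI.dH i) z)
  have hNle : ∀ g : Surf, (B.psI b).N (QI.dP i) z g ≤ c * (B.psI b).N (QI.dH i) z g := fun g =>
    hN ((B.psI b).r z g : M3)
  set D : ℝ := |Real.log c| with hD
  have hD0 : 0 ≤ D := abs_nonneg _
  have hcD : c ≤ Real.exp D := by
    rw [← Real.log_le_iff_le_exp hc]
    exact le_abs_self _
  have hsub : ∀ T : ℝ, (nX (⊤ : Subgroup F2) (B.NH (z.a i) (z.th i)) T).ncard ≤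
      (nX (⊤ : Subgroup Surf) ((B.psI b).N (QI.dP i) z) (T + D)).ncard := by
    intro T
    refine Set.ncard_le_ncard_of_injOn (phi (b i) i) ?_ (phi_inj (b i) i).injOn (hfinP _)
    rintro g ⟨-, hg⟩
    refine ⟨Subgroup.mem_top _, (hNle _).trans ?_⟩
    rw [N_handle, Real.exp_add, mul_comm (Real.exp T)]
    have h0 : 0 ≤ B.NH (z.a i) (z.th i) g := nrm_nonneg _
    exact mul_le_mul hcD hg h0 (Real.exp_pos _).le
  have h1 : Tendsto (fun T : ℝ => Real.log
      ((nX (⊤ : Subgroup Surf) ((B.psI b).N (QI.dP i) z) (T + D)).ncard) / (T + D) *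
      ((T + D) / T)) atTop (𝓝 (expo ⊤ ((B.psI b).N (QI.dP i) z) * 1)) := by
    refine Tendsto.mul (hlimP.comp (tendsto_atTop_add_const_right _ _ tendsto_id)) ?_
    have h2 : Tendsto (fun T : ℝ => 1 + D / T) atTop (𝓝 (1 + 0)) :=
      tendsto_const_nhds.add (tendsto_const_nhds.div_atTop tendsto_id)
    rw [add_zero] at h2
    refine h2.congr' ?_
    filter_upwards [eventually_gt_atTop (0 : ℝ)] with T hT
    field_simp
  rw [mul_one] at h1
  refine le_of_tendsto_of_tendsto hlimH h1 ?_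
  filter_upwards [eventually_gt_atTop (0 : ℝ)] with T hT
  have hTD : 0 < T + D := by linarith
  have h3 : Real.log ((nX (⊤ : Subgroup Surf) ((B.psI b).N (QI.dP i) z) (T + D)).ncard) / (T + D) *
      ((T + D) / T) =
      Real.log ((nX (⊤ : Subgroup Surf) ((B.psI b).N (QI.dP i) z) (T + D)).ncard) / T := by
    field_simp
  rw [h3]
  apply div_le_div_of_nonneg_right _ hT.le
  rcases Nat.eq_zero_or_pos (nX (⊤ : Subgroup F2) (B.NH (z.a i) (z.th i)) T).ncard with h4 | h4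
  · rw [h4, Nat.cast_zero, Real.log_zero]
    exact Real.log_natCast_nonneg _
  · apply Real.log_le_log
    · exact_mod_cast h4
    · exact_mod_cast hsub T

/-- a vertex family with labels -/
theorem pm_MI2_exists_u0 (D r : ℝ) (hr : 0 < r) : ∃ u₀ > (0 : ℝ), ∀ u ≥ u₀,
    D * Real.exp (-(r * u)) ≤ 1 / 2 := by
  have h1 : Tendsto (fun u : ℝ => D * Real.exp (-(r * u))) atTop (𝓝 (D * 0)) := by
    apply Tendsto.const_mul
    exact Real.tendsto_exp_neg_atTop_nhds_zero.comp (tendsto_id.const_mul_atTop hr)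
  rw [mul_zero] at h1
  obtain ⟨u₁, hu₁⟩ := eventually_atTop.1 (h1.eventually_le_const (by norm_num : (0 : ℝ) < 1 / 2))
  exact ⟨max u₁ 1, lt_max_of_lt_right one_pos, fun u hu => hu₁ u ((le_max_left _ _).trans hu)⟩


theorem pm_MI2_half : ENNReal.ofReal (1 / 2) = 1 / 2 := by
  rw [ENNReal.ofReal_div_of_pos (by norm_num)]
  simp

theorem pm_MI2_move1_unit {B : Base} {as Mx : ℝ} (has : 0 ≤ as) (hMx : 1 / 7 ≤ Mx) (hE : B.EH as 0 = Mx) :
    ∃ C > (0 : ℝ), ∃ c > (0 : ℝ), ∃ u₀ > (0 : ℝ), ∀ (u n : ℝ), u₀ ≤ u → u ≤ n →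
      len (fun s => B.repI b0 ⟨![n, n, s], fun _ => as, fun _ => 0⟩) u (u + 1) ≤
        ENNReal.ofReal (C * Real.exp (-(c * u))) := by
  obtain ⟨K, κ, Φ, P⟩ := exists_PkI B b0
  have hLm := B.hLm
  obtain ⟨C', hC', hmove⟩ := move_app (K := K) (κ := κ) (H := 2 + B.Lm) P.hK P.hκ (by positivity)
  obtain ⟨Cx, hCx, hX⟩ := crossI B b0
  obtain ⟨A₀, hA₀, hZ⟩ := P.zz (Mx + 1)
  obtain ⟨Cg, hCg, hG⟩ := handle_growth B as
  have hK := P.hK
  have hK0 : 0 < K := by linarith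
  have hK9 : 1 ≤ 9 * K ^ 2 := by nlinarith
  set α : ℝ := 6 * 1 / Real.log (1 + κ) with hα
  have hKα : 0 < K ^ α := Real.rpow_pos_of_pos hK0 _
  have hK9s : 0 < (9 * K ^ 2) ^ (Mx + 1) := Real.rpow_pos_of_pos (by linarith) _
  set D1 : ℝ := Real.exp 1 * Cx * 12 * K ^ α * (9 * K ^ 2) ^ (Mx + 1) * Cg with hD1
  set D2 : ℝ := Real.exp 1 * Cx * 12 * K ^ α * A₀ with hD2
  have hD1p : 0 < D1 := by positivity
  have hD2p : 0 < D2 := by positivity
  obtain ⟨u₀, hu₀, hsmall⟩ := pm_MI2_exists_u0 (D1 + D2) (1 / 20) (by norm_num)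
  refine ⟨C' * 2, by positivity, 1 / 400, by norm_num, u₀, hu₀, fun u n hu hun => ?_⟩
  have hu0 : 0 < u := lt_of_lt_of_le hu₀ hu
  set η : ℝ := Real.exp (-(u / 200)) with hη
  have hη0 : 0 < η := Real.exp_pos _
  have hη1 : η ≤ 1 := by
    rw [hη]; apply Real.exp_le_one_iff.2; linarith
  set s : ℝ := Mx + η with hs
  have hs7 : 1 / 7 ≤ s := by linarith
  have hs1 : s ≤ Mx + 1 := by linarith
  -- the path of parameters
  have hζ : ray ⟨![n, n, 0], fun _ => as, fun _ => 0⟩ ⟨![0, 0, 1], fun _ => 0, fun _ => 0⟩ =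
      fun y : ℝ => (⟨![n, n, y], fun _ => as, fun _ => 0⟩ : ZI) := by
    funext y
    simp only [ray, ZI.mk.injEq]
    refine ⟨?_, ?_, ?_⟩
    · funext i; fin_cases i <;> simp
    · funext i; simp
    · funext i; simp
  obtain ⟨hd, hdef⟩ := defPath_ray B b0 ⟨![n, n, 0], fun _ => as, fun _ => 0⟩
    ⟨![0, 0, 1], fun _ => 0, fun _ => 0⟩ {QI.dP 2, QI.dH 2} (by
      intro i
      fin_cases i <;> simp) (by intro i; fin_cases i <;> simp)
  rw [hζ] at hdef
  have hsum : ∀ y ∈ Set.Icc u (u + 1),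
      ∑' C : {C : ConjClasses Surf // C ≠ 1 ∧
        icnt (B.psI b0) K κ Set.univ (Φ : Set _) {QI.dP 2, QI.dH 2} C ≠ 0},
        ENNReal.ofReal (Real.exp (1 * icnt (B.psI b0) K κ Set.univ (Φ : Set _)
          {QI.dP 2, QI.dH 2} C) *
          (lam ((B.psI b0).r ⟨![n, n, y], fun _ => as, fun _ => 0⟩ (Quotient.out C.1) : M3)) ^ (-s))
          < ⊤ := by
    intro y hy
    set z : ZI := ⟨![n, n, y], fun _ => as, fun _ => 0⟩ with hz
    have hzt : ∀ i, u ≤ z.t i := by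
      intro i
      fin_cases i
      · exact hun
      · exact hun
      · exact hy.1
    have hexps : ∀ i, Real.exp (-(s / 2) * z.t i) ≤ Real.exp (-(1 / 14) * u) := by
      intro i
      apply Real.exp_le_exp.2
      have h1 := hzt i
      nlinarith
    have h8 : 1 / 8 ≤ s := by linarith
    refine closed_sum (gh7 B b0) P.hκ (Λv := fun v : Option (Fin 3) => v.elim ∅ LB)
      (Set.subset_univ _) (fun _ => Set.subset_univ _) ?_ (fun e _ => P.fj e) ?_ pm_MI2_finI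
      (by linarith) zero_le_one (fun _ => s) z ?_ ?_
    · intro v
      cases v with
      | none => exact P.vz.vc _
      | some i => exact (P.vB i).1
    · intro v
      cases v with
      | none => exact P.cz
      | some i => exact (P.vB i).2
    · intro v
      left
      refine ⟨?_, rfl⟩
      cases v with
      | none => simp
      | some i =>
        ext p
        simp only [Option.elim, LB, Set.mem_inter_iff, Set.mem_insert_iff, Set.mem_singleton_iff,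
          Set.mem_empty_iff_false, iff_false, not_and]
        rintro (rfl | rfl) <;> simp
    · rintro e ⟨i, rfl | rfl⟩
      · -- `e = dP i`
        have hterm : ∀ e' : {e' : QI // e' ∈ {p : QI | ∃ i, p = QI.dP i ∨ p = QI.dH i} ∧
            at7 e' = at7 ((B.psI b0).bar (QI.dP i))},
            (ENNReal.ofReal (K ^ (6 * 1 / Real.log (1 + κ))) *
              Zs (B.psI b0) K κ ((fun v : Option (Fin 3) => v.elim ∅ LB)
                (at7 ((B.psI b0).bar (QI.dP i))))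
                ((at7 ((B.psI b0).bar (QI.dP i))).elim PZ BH) z s ((B.psI b0).bar (QI.dP i)) e') ≤
            ENNReal.ofReal (K ^ α * ((9 * K ^ 2) ^ (Mx + 1) * (Cg / η ^ 2))) := by
          rintro ⟨e', he', hat⟩
          have he'' : e' = QI.dH i := by
            obtain ⟨j, rfl | rfl⟩ := he'
            · exact absurd hat (by simp [at7, Base.psI, Base.barI])
            · have : some j = some i := hat
              rw [Option.some_inj.1 this]
          subst he''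
          rw [ENNReal.ofReal_mul hKα.le]
          refine mul_le_mul' le_rfl ?_
          have h1 : Zs (B.psI b0) K κ (LB i) (BH i) z s (QI.dH i) (QI.dH i) ≤
              ENNReal.ofReal ((9 * K ^ 2) ^ s) *
                ∑' g : BH i, ENNReal.ofReal (((B.psI b0).N (QI.dH i) z g) ^ (-s)) :=
            Zs_le_poin P.hκ.le z (by linarith) (QI.dH i)
          rw [poin_handle] at h1
          have h2 := (hG as 0 has le_rfl le_rfl zero_le_one).2.2.2.2 s (by rw [hE]; linarith)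
            (by rw [hE]; linarith)
          have h3 : s - B.EH as 0 = η := by rw [hE]; ring
          rw [h3] at h2
          refine h1.trans ?_
          rw [ENNReal.ofReal_mul hK9s.le]
          refine mul_le_mul' (ENNReal.ofReal_le_ofReal ?_) h2
          exact Real.rpow_le_rpow_of_exponent_le hK9 hs1
        refine (mul_le_mul' (mul_le_mul' le_rfl (hX (QI.dP i) z s (hu0.le.trans (hzt i)) h8))
          (pm_MI2_tsum_le _ _ _ hterm)).trans ?_
        have h12 : (12 : ENNReal) = ENNReal.ofReal 12 := by norm_num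
        rw [h12, ← ENNReal.ofReal_mul (show (0 : ℝ) ≤ Real.exp 1 from (Real.exp_pos _).le),
          ← ENNReal.ofReal_mul (show (0 : ℝ) ≤ 12 by norm_num),
          ← ENNReal.ofReal_mul (by positivity), ← pm_MI2_half]
        apply ENNReal.ofReal_le_ofReal
        refine le_trans ?_ (hsmall u hu)
        have h4 : 1 / η ^ 2 = Real.exp (u / 100) := by
          rw [hη, ← Real.exp_nat_mul, one_div, ← Real.exp_neg]
          congr 1
          push_cast
          ring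
        have h5 : Real.exp (-(1 / 14) * u) * Real.exp (u / 100) ≤ Real.exp (-(1 / 20 * u)) := by
          rw [← Real.exp_add]
          apply Real.exp_le_exp.2
          nlinarith
        calc Real.exp 1 * (Cx * Real.exp (-(s / 2) * blI (QI.dP i) z)) *
              (12 * (K ^ α * ((9 * K ^ 2) ^ (Mx + 1) * (Cg / η ^ 2))))
            = D1 * (Real.exp (-(s / 2) * z.t i) * (1 / η ^ 2)) := by
              rw [hD1]; simp only [blI]; ring
          _ ≤ D1 * (Real.exp (-(1 / 14) * u) * (1 / η ^ 2)) := by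
              refine mul_le_mul_of_nonneg_left ?_ hD1p.le
              exact mul_le_mul_of_nonneg_right (hexps i) (by positivity)
          _ ≤ D1 * Real.exp (-(1 / 20 * u)) := by
              rw [h4]
              exact mul_le_mul_of_nonneg_left h5 hD1p.le
          _ ≤ (D1 + D2) * Real.exp (-(1 / 20 * u)) :=
              mul_le_mul_of_nonneg_right (by linarith) (Real.exp_pos _).le
      · -- `e = dH i`
        have hterm : ∀ e' : {e' : QI // e' ∈ {p : QI | ∃ i, p = QI.dP i ∨ p = QI.dH i} ∧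
            at7 e' = at7 ((B.psI b0).bar (QI.dH i))},
            (ENNReal.ofReal (K ^ (6 * 1 / Real.log (1 + κ))) *
              Zs (B.psI b0) K κ ((fun v : Option (Fin 3) => v.elim ∅ LB)
                (at7 ((B.psI b0).bar (QI.dH i))))
                ((at7 ((B.psI b0).bar (QI.dH i))).elim PZ BH) z s ((B.psI b0).bar (QI.dH i)) e') ≤
            ENNReal.ofReal (K ^ α * A₀) := by
          rintro ⟨e', he', hat⟩
          rw [ENNReal.ofReal_mul hKα.le]
          refine mul_le_mul' le_rfl ?_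
          have hSZ : ∀ j, QI.dP j ∈ SZ := by
            intro j; fin_cases j <;> simp [SZ]
          have he'' : e' ∈ SZ := by
            obtain ⟨j, rfl | rfl⟩ := he'
            · exact hSZ j
            · exact absurd hat (by simp [at7, Base.psI, Base.barI])
          exact hZ ∅ z s h8 hs1 (QI.dP i) (hSZ i) e' he''
        refine (mul_le_mul' (mul_le_mul' le_rfl (hX (QI.dH i) z s (hu0.le.trans (hzt i)) h8))
          (pm_MI2_tsum_le _ _ _ hterm)).trans ?_
        have h12 : (12 : ENNReal) = ENNReal.ofReal 12 := by norm_num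
        rw [h12, ← ENNReal.ofReal_mul (show (0 : ℝ) ≤ Real.exp 1 from (Real.exp_pos _).le),
          ← ENNReal.ofReal_mul (show (0 : ℝ) ≤ 12 by norm_num),
          ← ENNReal.ofReal_mul (by positivity), ← pm_MI2_half]
        apply ENNReal.ofReal_le_ofReal
        refine le_trans ?_ (hsmall u hu)
        have h5 : Real.exp (-(1 / 14) * u) ≤ Real.exp (-(1 / 20 * u)) := by
          apply Real.exp_le_exp.2
          nlinarith
        calc Real.exp 1 * (Cx * Real.exp (-(s / 2) * blI (QI.dH i) z)) *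
              (12 * (K ^ α * A₀))
            = D2 * Real.exp (-(s / 2) * z.t i) := by
              rw [hD2]; simp only [blI]; ring
          _ ≤ D2 * Real.exp (-(1 / 20 * u)) :=
              mul_le_mul_of_nonneg_left ((hexps i).trans h5) hD2p.le
          _ ≤ (D1 + D2) * Real.exp (-(1 / 20 * u)) :=
              mul_le_mul_of_nonneg_right (by linarith) (Real.exp_pos _).le
  have hfin := hmove (Z := ZI) (Q := QI) (ps := B.psI b0) (Λ := Set.univ)
    (M := {QI.dP 2, QI.dH 2}) (Φ := Φ) P.top hdef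
    (fun y => B.repI b0 ⟨![n, n, y], fun _ => as, fun _ => 0⟩) (fun _ _ => rfl)
    (show u < u + 1 by linarith) (s := s) (κ₀ := 1) (β := η) one_pos hη0 hη1 (by
      intro y hy
      set z : ZI := ⟨![n, n, y], fun _ => as, fun _ => 0⟩ with hz
      have h1 := pm_MI2_handle_le B b0 z 2 has le_rfl zero_le_one
      have h2 : B.EH (z.a 2) (z.th 2) = Mx := hE
      rw [h2] at h1
      obtain ⟨hc1, hc2, -, -, -, -⟩ := closed_lim B b0 z 2
      refine ⟨expo ⊤ ((B.psI b0).N (QI.dP 2) z), by linarith, ?_, hc1, hc2, hsum y hy⟩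
      rw [div_one]
      linarith)
  refine hfin.trans (ENNReal.ofReal_le_ofReal ?_)
  have h6 : Real.sqrt η = Real.exp (-(1 / 400 * u)) := by
    rw [hη, Real.sqrt_eq_rpow, ← Real.exp_mul]
    congr 1
    ring
  rw [h6]
  apply le_of_eq
  ring

section
variable {B : Base}

/-- M1: all handles at `a*`, `d_2` moves from `u` to `u+1`, `d_0, d_1 ≥ u` -/
theorem move1_unit {as τ Mx : ℝ} (has : 0 ≤ as) (hMx : 1 / 7 ≤ Mx) (hE : B.EH as 0 = Mx) :
    ∃ C > (0 : ℝ), ∃ c > (0 : ℝ), ∃ u₀ > (0 : ℝ), ∀ (u n : ℝ), u₀ ≤ u → u ≤ n →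
      len (fun s => B.repI b0 ⟨![n, n, s], fun _ => as, fun _ => 0⟩) u (u + 1) ≤
        ENNReal.ofReal (C * Real.exp (-(c * u))) :=
  pm_MI2_move1_unit has hMx hE

theorem pm_MI3_ray (n as s : ℝ) :
    ray ⟨![n, n, 0], fun _ => as, fun _ => 0⟩ ⟨![0, 0, 1], fun _ => 0, fun _ => 0⟩ s =
      ⟨![n, n, s], fun _ => as, fun _ => 0⟩ := by
  unfold ray
  congr 1
  · funext i
    fin_cases i <;> simp
  · funext i; simp
  · funext i; simp

theorem pm_MI3_len_mono (c : ℝ → Rep) {a b b' : ℝ} (h : b ≤ b') : len c a b ≤ len c a b' := by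
  unfold len
  exact MeasureTheory.lintegral_mono_set (Set.Icc_subset_Icc_right h)

theorem pm_MI3_len_add (c : ℝ → Rep) (a b b' : ℝ) : len c a b' ≤ len c a b + len c b b' := by
  unfold len
  refine (MeasureTheory.lintegral_mono_set (t := Set.Icc a b ∪ Set.Icc b b') ?_).trans
    (MeasureTheory.lintegral_union_le _ _ _)
  intro x hx
  rcases le_total x b with h | h
  · exact Or.inl ⟨hx.1, h⟩
  · exact Or.inr ⟨h, hx.2⟩

theorem pm_MI3_sum (c : ℝ → Rep) (C k : ℝ) (hC : 0 ≤ C) (T n : ℝ)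
    (h : ∀ u, T ≤ u → u ≤ n → len c u (u + 1) ≤ ENNReal.ofReal (C * Real.exp (-(k * u)))) :
    ∀ m : ℕ, (∀ j : ℕ, j < m → T + j ≤ n) →
      len c T (T + m) ≤ ENNReal.ofReal (∑ j ∈ Finset.range m, C * Real.exp (-(k * (T + j)))) := by
  intro m
  induction m with
  | zero =>
    intro _
    simp [len]
  | succ m ih =>
    intro hm
    have h1 := ih (fun j hj => hm j (Nat.lt_succ_of_lt hj))
    have h2 := h (T + m) (le_add_of_nonneg_right (Nat.cast_nonneg m)) (hm m (Nat.lt_succ_self m))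
    refine (pm_MI3_len_add c T (T + m) _).trans ?_
    rw [Finset.sum_range_succ, ENNReal.ofReal_add (Finset.sum_nonneg fun j _ =>
      mul_nonneg hC (Real.exp_pos _).le) (mul_nonneg hC (Real.exp_pos _).le)]
    refine add_le_add h1 ?_
    have e : T + ((m + 1 : ℕ) : ℝ) = T + m + 1 := by push_cast; ring
    rw [e]
    exact h2

theorem pm_MI3_geom (C k T : ℝ) (hC : 0 ≤ C) (hk : 0 < k) (m : ℕ) :
    ∑ j ∈ Finset.range m, C * Real.exp (-(k * (T + j))) ≤
      C * Real.exp (-(k * T)) / (1 - Real.exp (-k)) := by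
  have hr0 : 0 ≤ Real.exp (-k) := (Real.exp_pos _).le
  have hr1 : Real.exp (-k) < 1 := by
    rw [Real.exp_lt_one_iff]; linarith
  have e : ∀ j ∈ Finset.range m, C * Real.exp (-(k * (T + j))) =
      C * Real.exp (-(k * T)) * Real.exp (-k) ^ j := by
    intro j _
    rw [← Real.exp_nat_mul, mul_assoc, ← Real.exp_add]
    congr 2
    ring
  rw [Finset.sum_congr rfl e, ← Finset.mul_sum, div_eq_mul_inv, ← tsum_geometric_of_lt_one hr0 hr1]
  exact mul_le_mul_of_nonneg_left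
    ((summable_geometric_of_lt_one hr0 hr1).sum_le_tsum _ fun j _ => pow_nonneg hr0 j)
    (mul_nonneg hC (Real.exp_pos _).le)

/-- M1: from `d_2 = T` to `d_2 = n` -/
theorem move1 {as Mx : ℝ} (has : 0 ≤ as) (hMx : 1 / 7 ≤ Mx) (hE : B.EH as 0 = Mx) :
    ∀ ε > (0 : ℝ), ∃ T₀ > (0 : ℝ), ∀ T ≥ T₀, ∀ n ≥ T,
      dP (B.repI b0 ⟨![n, n, n], fun _ => as, fun _ => 0⟩)
        (B.repI b0 ⟨![n, n, T], fun _ => as, fun _ => 0⟩) ≤ ENNReal.ofReal ε := by
  obtain ⟨C, hC, k, hk, u₀, hu₀, h⟩ := move1_unit (B := B) (τ := 0) has hMx hE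
  intro ε hε
  have hlim : Tendsto (fun T : ℝ => C * Real.exp (-(k * T)) / (1 - Real.exp (-k))) atTop (𝓝 0) := by
    have h1 : Tendsto (fun T : ℝ => Real.exp (-(k * T))) atTop (𝓝 0) :=
      Real.tendsto_exp_neg_atTop_nhds_zero.comp (tendsto_id.const_mul_atTop hk)
    have h2 := (h1.const_mul C).div_const (1 - Real.exp (-k))
    simpa using h2
  obtain ⟨T₁, hT₁⟩ := (Filter.eventually_atTop.1 (hlim.eventually (gt_mem_nhds hε)))
  refine ⟨max T₁ u₀, lt_max_of_lt_right hu₀, fun T hT n hn => ?_⟩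
  have hTu : u₀ ≤ T := (le_max_right _ _).trans hT
  have hT1 : T₁ ≤ T := (le_max_left _ _).trans hT
  rw [dP_symm]
  have hd := dP_ray B b0 ⟨![n, n, 0], fun _ => as, fun _ => 0⟩
    ⟨![0, 0, 1], fun _ => 0, fun _ => 0⟩ (x := T) (y := n) hn
  simp only [pm_MI3_ray] at hd
  refine hd.trans ?_
  set c : ℝ → Rep := fun s => B.repI b0 ⟨![n, n, s], fun _ => as, fun _ => 0⟩ with hcdef
  have hm : ∀ j : ℕ, j < ⌊n - T⌋₊ + 1 → T + j ≤ n := by
    intro j hj
    have h1 : j ≤ ⌊n - T⌋₊ := Nat.lt_succ_iff.1 hj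
    have h2 : (j : ℝ) ≤ n - T := (Nat.le_floor_iff (by linarith)).1 h1
    linarith
  have h3 := pm_MI3_sum c C k hC.le T n (fun u hu hu' => h u n (hTu.trans hu) hu') _ hm
  have h4 : n ≤ T + ((⌊n - T⌋₊ + 1 : ℕ) : ℝ) := by
    have := Nat.lt_floor_add_one (n - T)
    push_cast
    linarith
  refine (pm_MI3_len_mono c h4).trans (h3.trans (ENNReal.ofReal_le_ofReal ?_))
  exact (pm_MI3_geom C k T hC.le hk _).trans (hT₁ T hT1).le

/-- admissible states of the weak handles -/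
def HOk (τ a th : ℝ) : Prop := (0 ≤ a ∧ a ≤ τ ∧ th = 0) ∨ (a = τ ∧ 0 ≤ th ∧ th ≤ 1)

theorem pm_MI4_toTop (B : Base) (b : Fin 3 → Bool) (z : ZI) (i : Fin 3) (g : Surf) :
    1 ≤ (B.psI b).N (QI.dP i) z g :=
  (N_basic (B.psI b) (QI.dP i) z (fun g => (B.repI b z g).2)).1 g

theorem pm_MI4_one_NH (B : Base) {a th A : ℝ} (h0 : 0 ≤ a) (h1 : a ≤ A) (h2 : 0 ≤ th) (h3 : th ≤ 1)
    (g : F2) : 1 ≤ B.NH a th g := by
  obtain ⟨c, hc⟩ := handle_size B A
  exact (hc a th h0 h1 h2 h3).one_le g (Subgroup.mem_top g)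

theorem pm_MI4_HOk {τ a th : ℝ} (hτ : 0 ≤ τ) (h : HOk τ a th) :
    0 ≤ a ∧ a ≤ τ ∧ 0 ≤ th ∧ th ≤ 1 := by
  rcases h with ⟨h1, h2, h3⟩ | ⟨h1, h2, h3⟩
  · exact ⟨h1, h2, by rw [h3], by rw [h3]; norm_num⟩
  · exact ⟨by rw [h1]; exact hτ, by rw [h1], h2, h3⟩

theorem pm_MI4_HOkE (B : Base) {τ Mx a th : ℝ}
    (hM1 : ∀ a, 0 ≤ a → a ≤ τ → B.EH a 0 ≤ Mx) (hM2 : ∀ th, 0 ≤ th → th ≤ 1 → B.EH τ th ≤ Mx)
    (h : HOk τ a th) : B.EH a th ≤ Mx := by
  rcases h with ⟨h1, h2, h3⟩ | ⟨h1, h2, h3⟩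
  · rw [h3]; exact hM1 a h1 h2
  · rw [h1]; exact hM2 th h2 h3

/-- uniform bound of the Poincaré series of the admissible handles -/
theorem pm_MI4_poin (B : Base) {τ Mx δ : ℝ} (hτ : 0 ≤ τ) (hδ : 0 < δ) (hδ1 : δ ≤ 1)
    (hM1 : ∀ a, 0 ≤ a → a ≤ τ → B.EH a 0 ≤ Mx) (hM2 : ∀ th, 0 ≤ th → th ≤ 1 → B.EH τ th ≤ Mx) :
    ∃ C > (0 : ℝ), ∀ a th σ : ℝ, HOk τ a th → Mx + δ ≤ σ →
      poin (⊤ : Subgroup F2) (B.NH a th) σ ≤ ENNReal.ofReal C := by
  obtain ⟨C, hC, hg⟩ := handle_growth B τ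
  refine ⟨C / δ ^ 2, by positivity, ?_⟩
  intro a th σ hH hσ
  obtain ⟨h1, h2, h3, h4⟩ := pm_MI4_HOk hτ hH
  have hE := pm_MI4_HOkE B hM1 hM2 hH
  obtain ⟨_, _, _, _, hp⟩ := hg a th h1 h2 h3 h4
  have h5 := hp (B.EH a th + δ) (by linarith) (by linarith)
  have h6 : poin (⊤ : Subgroup F2) (B.NH a th) σ ≤
      poin (⊤ : Subgroup F2) (B.NH a th) (B.EH a th + δ) :=
    poin_anti (fun g _ => pm_MI4_one_NH B h1 h2 h3 h4 g) (by linarith)
  refine h6.trans (h5.trans (le_of_eq ?_))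
  rw [add_sub_cancel_left]

/-- the sum over the handle group -/
theorem pm_MI4_Zh (B : Base) (b : Fin 3 → Bool) {K κ : ℝ} (hK : 1 ≤ K) (hκ : 0 < κ) {τ Mx δ sM : ℝ}
    (hτ : 0 ≤ τ) (hMx : 0 ≤ Mx) (hδ : 0 < δ) (hδ1 : δ ≤ 1)
    (hM1 : ∀ a, 0 ≤ a → a ≤ τ → B.EH a 0 ≤ Mx) (hM2 : ∀ th, 0 ≤ th → th ≤ 1 → B.EH τ th ≤ Mx) :
    ∃ C > (0 : ℝ), ∀ (z : ZI) (i : Fin 3) (σ : ℝ) (Λ : Set QI), HOk τ (z.a i) (z.th i) → Mx + δ ≤ σ →
      σ ≤ sM →
      Zs (B.psI b) K κ Λ (BH i) z σ (QI.dH i) (QI.dH i) ≤ ENNReal.ofReal C ∧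
      ∑' g : BH i, ENNReal.ofReal (((B.psI b).N (QI.dH i) z g) ^ (-σ)) < ⊤ := by
  obtain ⟨C, hC, hp⟩ := pm_MI4_poin B hτ hδ hδ1 hM1 hM2
  have h9 : (1 : ℝ) ≤ 9 * K ^ 2 := by nlinarith
  refine ⟨(9 * K ^ 2) ^ sM * C, by positivity, ?_⟩
  intro z i σ Λ hH hσ hσM
  have h1 := hp _ _ σ hH hσ
  have h2 := poin_handle B b z i σ
  have h3 : Zs (B.psI b) K κ Λ (BH i) z σ (QI.dH i) (QI.dH i) ≤
      ENNReal.ofReal ((9 * K ^ 2) ^ σ) *
        ∑' g : BH i, ENNReal.ofReal (((B.psI b).N (QI.dH i) z g) ^ (-σ)) :=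
    Zs_le_poin hκ.le z (by linarith) (QI.dH i)
  constructor
  · refine h3.trans ?_
    rw [h2, ENNReal.ofReal_mul (by positivity)]
    refine mul_le_mul' (ENNReal.ofReal_le_ofReal ?_) h1
    exact Real.rpow_le_rpow_of_exponent_le h9 hσM
  · rw [h2]
    exact lt_of_le_of_lt h1 ENNReal.ofReal_lt_top

theorem pm_MI4_F (B : Base) (b : Fin 3 → Bool) (z z' : ZI) (i : Fin 3) :
    (B.psI b).F (QI.dP i) z = (B.psI b).F (QI.dP i) z' := rfl

/-- the sum over `W` -/
theorem pm_MI4_ZW (B : Base) (b : Fin 3 → Bool) (hb : b 2 = false) {K κ : ℝ} (hK : 1 ≤ K) (hκ : 0 < κ)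
    (T as EW : ℝ) (has : 0 ≤ as) (hEW : 0 ≤ EW)
    (hE : ∀ z : ZI, z.t 2 = T → z.a 2 = as → z.th 2 = 0 → expo WG ((B.psI b).N (QI.dP 0) z) = EW) :
    ∃ C > (0 : ℝ), ∀ (z : ZI) (i j : Fin 3) (s : ℝ) (Λ : Set QI), z.t 2 = T → z.a 2 = as → z.th 2 = 0 →
      EW < s → s ≤ EW + 1 →
      Zs (B.psI b) K κ Λ WG z s (QI.dP i) (QI.dP j) ≤ ENNReal.ofReal (C / (s - EW) ^ 2) := by
  obtain ⟨CW, hCW, hW⟩ := W_growth B b hb T as has
  let z₀ : ZI := ⟨fun _ => T, fun _ => as, fun _ => 0⟩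
  have hfc : ∀ i : Fin 3, ∃ c > 0, ∀ A : M3,
      nrm (((((B.psI b).F (QI.dP 0) z₀)⁻¹ : GL (Fin 3) ℝ) : M3) * A * ((B.psI b).F (QI.dP 0) z₀ : M3)) ≤
      c * nrm (((((B.psI b).F (QI.dP i) z₀)⁻¹ : GL (Fin 3) ℝ) : M3) * A *
        ((B.psI b).F (QI.dP i) z₀ : M3)) := fun i =>
    nrm_frame_change _ _
  choose cf hcf0 hcf using hfc
  let nf : Fin 3 → Fin 3 → ℝ := fun i j =>
    nrm (((((B.psI b).F (QI.dP j) z₀)⁻¹ : GL (Fin 3) ℝ) : M3) * ((B.psI b).F (QI.dP i) z₀ : M3))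
  have hnf : ∀ i j, 0 ≤ nf i j := fun i j => nrm_nonneg _
  set c₁ : ℝ := 1 + ∑ i, cf i with hc₁
  set c₂ : ℝ := 1 + ∑ i, ∑ j, nf i j with hc₂
  have hc₁1 : 1 ≤ c₁ := by
    have : 0 ≤ ∑ i, cf i := Finset.sum_nonneg fun i _ => (hcf0 i).le
    linarith
  have hc₁le : ∀ i, cf i ≤ c₁ := by
    intro i
    have := Finset.single_le_sum (f := cf) (fun i _ => (hcf0 i).le) (Finset.mem_univ i)
    linarith
  have hc₂1 : 1 ≤ c₂ := by
    have : 0 ≤ ∑ i, ∑ j, nf i j := Finset.sum_nonneg fun i _ => Finset.sum_nonneg fun j _ => hnf i j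
    linarith
  have hc₂le : ∀ i j, nf i j ≤ c₂ := by
    intro i j
    have h1 := Finset.single_le_sum (f := fun j => nf i j) (fun j _ => hnf i j) (Finset.mem_univ j)
    have h2 := Finset.single_le_sum (f := fun i => ∑ j, nf i j)
      (fun i _ => Finset.sum_nonneg fun j _ => hnf i j) (Finset.mem_univ i)
    linarith
  have h9 : (1 : ℝ) ≤ 9 * K ^ 2 * c₂ := by
    have : (1 : ℝ) ≤ 9 * K ^ 2 := by nlinarith
    nlinarith
  refine ⟨(9 * K ^ 2 * c₂) ^ (EW + 1) * (c₁ ^ (EW + 1) * CW), by positivity, ?_⟩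
  intro z i j s Λ ht ha hth hs hs1
  have hs0 : 0 ≤ s := by linarith
  obtain ⟨_, _, hp⟩ := hW z ht ha hth
  rw [hE z ht ha hth] at hp
  have h1 := hp s hs hs1
  have h2 : Zs (B.psI b) K κ Λ WG z s (QI.dP i) (QI.dP j) ≤
      ENNReal.ofReal ((9 * K ^ 2 * nf i j) ^ s) *
        ∑' g : WG, ENNReal.ofReal (((B.psI b).N (QI.dP i) z g) ^ (-s)) :=
    Zs_le_poin' hκ.le z hs0 (QI.dP i) (QI.dP j)
  have hN0 : ∀ i g, 0 < (B.psI b).N (QI.dP i) z g := fun i g =>
    lt_of_lt_of_le one_pos (pm_MI4_toTop B b z i g)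
  have h3 : poin WG ((B.psI b).N (QI.dP i) z) s ≤
      ENNReal.ofReal (c₁ ^ s) * poin WG ((B.psI b).N (QI.dP 0) z) s := by
    refine poin_comp (fun g _ => hN0 0 g) (by linarith) (fun g _ => ?_) (fun g _ => hN0 i g) hs0
    have h4 := hcf i ((B.psI b).r z g : M3)
    have h5 : (B.psI b).N (QI.dP 0) z g ≤ cf i * (B.psI b).N (QI.dP i) z g := h4
    exact h5.trans (mul_le_mul_of_nonneg_right (hc₁le i) (hN0 i g).le)
  refine h2.trans ?_
  change ENNReal.ofReal ((9 * K ^ 2 * nf i j) ^ s) * poin WG ((B.psI b).N (QI.dP i) z) s ≤ _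
  have h6 : (9 * K ^ 2 * nf i j) ^ s ≤ (9 * K ^ 2 * c₂) ^ (EW + 1) := by
    refine (Real.rpow_le_rpow (by have := hnf i j; positivity) ?_ hs0).trans
      (Real.rpow_le_rpow_of_exponent_le h9 hs1)
    exact mul_le_mul_of_nonneg_left (hc₂le i j) (by positivity)
  have h7 : c₁ ^ s ≤ c₁ ^ (EW + 1) := Real.rpow_le_rpow_of_exponent_le hc₁1 hs1
  have hc₁0 : 0 ≤ c₁ := by linarith
  have hc₂0 : 0 ≤ c₂ := by linarith
  refine (mul_le_mul' (ENNReal.ofReal_le_ofReal h6)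
    (h3.trans (mul_le_mul' (ENNReal.ofReal_le_ofReal h7) h1))).trans (le_of_eq ?_)
  rw [← ENNReal.ofReal_mul (by positivity), ← ENNReal.ofReal_mul (by positivity)]
  congr 1
  ring

/-- one row -/
theorem pm_MI4_row {J I : Set QI} (hI : I.Finite) (hI4 : I.ncard ≤ 4) (hJ : J ⊆ I) {f : J → ENNReal}
    {κ₀ cx n s Kp cz η A : ℝ} {X : ENNReal} (hcx : 0 ≤ cx) (hKp : 0 ≤ Kp) (hcz : 0 ≤ cz)
    (hn : 0 ≤ n) (hs : 1 / 8 ≤ s) (hη : η = Real.exp (-(n / 64)))
    (hX : X ≤ ENNReal.ofReal (cx * Real.exp (-(s / 2) * n)))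
    (hf : ∀ e, f e ≤ ENNReal.ofReal Kp * ENNReal.ofReal (cz / η ^ 2))
    (hA : Real.exp κ₀ * cx * 4 * Kp * cz ≤ A) (hsm : A * Real.exp (-(n / 32)) ≤ 1 / 2) :
    ENNReal.ofReal (Real.exp κ₀) * X * ∑' e : J, f e ≤ 1 / 2 := by
  have h1 : ∑' e : J, f e ≤ 4 * (ENNReal.ofReal Kp * ENNReal.ofReal (cz / η ^ 2)) := by
    refine (ENNReal.tsum_le_tsum hf).trans ((pm_GoGD2_sum_le hI hJ _).trans ?_)
    refine mul_le_mul' ?_ le_rfl
    exact_mod_cast hI4
  have h4 : (4 : ENNReal) = ENNReal.ofReal 4 := by norm_num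
  have hη0 : 0 < η := by rw [hη]; exact Real.exp_pos _
  refine (mul_le_mul' (mul_le_mul' le_rfl hX) h1).trans ?_
  rw [h4, ← ENNReal.ofReal_mul hKp, ← ENNReal.ofReal_mul (by norm_num : (0 : ℝ) ≤ 4),
    ← ENNReal.ofReal_mul (Real.exp_pos κ₀).le,
    ← ENNReal.ofReal_mul (by have := Real.exp_pos (-(s / 2) * n); have := Real.exp_pos κ₀; positivity)]
  have h2 : (1 / 2 : ENNReal) = ENNReal.ofReal (1 / 2) := by
    rw [ENNReal.ofReal_div_of_pos (by norm_num)]; norm_num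
  rw [h2]
  refine ENNReal.ofReal_le_ofReal (le_trans ?_ hsm)
  have h3 : Real.exp (-(s / 2) * n) ≤ Real.exp (-(n / 16)) := by
    apply Real.exp_le_exp.2; nlinarith
  have h5 : η ^ 2 = Real.exp (-(n / 32)) := by
    rw [hη, ← Real.exp_nat_mul]; congr 1; push_cast; ring
  have h6 : Real.exp (-(n / 16)) / η ^ 2 = Real.exp (-(n / 32)) := by
    rw [h5, ← Real.exp_sub]; congr 1; ring
  calc Real.exp κ₀ * (cx * Real.exp (-(s / 2) * n)) * (4 * (Kp * (cz / η ^ 2)))
      = (Real.exp κ₀ * cx * 4 * Kp * cz) * (Real.exp (-(s / 2) * n) / η ^ 2) := by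
        field_simp
    _ ≤ (Real.exp κ₀ * cx * 4 * Kp * cz) * (Real.exp (-(n / 16)) / η ^ 2) := by
        have := Real.exp_pos κ₀
        refine mul_le_mul_of_nonneg_left ?_ (by positivity)
        exact div_le_div_of_nonneg_right h3 (by positivity)
    _ = (Real.exp κ₀ * cx * 4 * Kp * cz) * Real.exp (-(n / 32)) := by rw [h6]
    _ ≤ A * Real.exp (-(n / 32)) := mul_le_mul_of_nonneg_right hA (Real.exp_pos _).le

/-- the summability at one parameter -/
theorem pm_MI4_sum {B : Base} {b : Fin 3 → Bool} {K κ : ℝ} {Φ : Finset (ZI → GL (Fin 3) ℝ)}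
    (P : PkI B b K κ Φ) {cx : ℝ} (hcx : 0 < cx)
    (hcross : ∀ (p : QI) (z : ZI) (s : ℝ), 0 ≤ blI p z → 1 / 8 ≤ s →
      Xs (B.psI b) z s p ≤ ENNReal.ofReal (cx * Real.exp (-(s / 2) * blI p z)))
    {s κ₀ n η ch cw A : ℝ} (z : ZI) (hκ₀ : 0 < κ₀) (hn : 0 ≤ n) (hs : 1 / 8 ≤ s)
    (ht0 : z.t 0 = n) (ht1 : z.t 1 = n)
    (hη : η = Real.exp (-(n / 64))) (hch : 0 < ch) (hcw : 0 < cw)
    (hσ : 0 ≤ s - 3 * κ₀ / Real.log (1 + κ))
    (hZh : ∀ i : Fin 3, i ≠ 2 → ∀ Λ : Set QI,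
      Zs (B.psI b) K κ Λ (BH i) z (s - 3 * κ₀ / Real.log (1 + κ)) (QI.dH i) (QI.dH i) ≤
        ENNReal.ofReal ch ∧
      ∑' g : BH i, ENNReal.ofReal (((B.psI b).N (QI.dH i) z g) ^ (-(s - 3 * κ₀ / Real.log (1 + κ)))) < ⊤)
    (hZW : ∀ (i j : Fin 3) (Λ : Set QI),
      Zs (B.psI b) K κ Λ WG z s (QI.dP i) (QI.dP j) ≤ ENNReal.ofReal (cw / η ^ 2))
    (hA : Real.exp κ₀ * cx * 4 * (K ^ (6 * κ₀ / Real.log (1 + κ))) * (ch + cw) ≤ A)
    (hsm : A * Real.exp (-(n / 32)) ≤ 1 / 2) :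
    ∑' C : {C : ConjClasses Surf // C ≠ 1 ∧
        icnt (B.psI b) K κ Set.univ (Φ : Set _) {QI.mp 0, QI.mm 0, QI.mp 1, QI.mm 1} C ≠ 0},
        ENNReal.ofReal (Real.exp (κ₀ * icnt (B.psI b) K κ Set.univ (Φ : Set _)
          {QI.mp 0, QI.mm 0, QI.mp 1, QI.mm 1} C) *
          (lam ((B.psI b).r z (Quotient.out C.1) : M3)) ^ (-s)) < ⊤ := by
  have hKp : 0 ≤ K ^ (6 * κ₀ / Real.log (1 + κ)) := Real.rpow_nonneg (by linarith [P.hK]) _
  have hη0 : 0 < η := by rw [hη]; exact Real.exp_pos _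
  have hη1 : η ≤ 1 := by rw [hη]; exact Real.exp_le_one_iff.2 (by linarith)
  have hη2 : η ^ 2 ≤ 1 := by nlinarith
  set σ : ℝ := s - 3 * κ₀ / Real.log (1 + κ) with hσd
  have hI : ({QI.dP 0, QI.dH 0, QI.dP 1, QI.dH 1} : Set QI).Finite := Set.toFinite _
  have hI4 : ({QI.dP 0, QI.dH 0, QI.dP 1, QI.dH 1} : Set QI).ncard ≤ 4 := by
    refine (Set.ncard_insert_le _ _).trans ?_
    have h1 := Set.ncard_insert_le (QI.dH 0) ({QI.dP 1, QI.dH 1} : Set QI)
    have h2 := Set.ncard_insert_le (QI.dP 1) ({QI.dH 1} : Set QI)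
    have h3 := Set.ncard_singleton (QI.dH 1)
    omega
  have hcz : ENNReal.ofReal ch ≤ ENNReal.ofReal ((ch + cw) / η ^ 2) := by
    refine ENNReal.ofReal_le_ofReal ?_
    rw [le_div_iff₀ (by positivity)]
    nlinarith
  have hcz' : ENNReal.ofReal (cw / η ^ 2) ≤ ENNReal.ofReal ((ch + cw) / η ^ 2) := by
    refine ENNReal.ofReal_le_ofReal ?_
    exact div_le_div_of_nonneg_right (by linarith) (by positivity)
  refine closed_sum (gh8 B b) P.hκ (Λv := ![LB 0, LB 1, LW]) (Λ := Set.univ)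
    (M := {QI.mp 0, QI.mm 0, QI.mp 1, QI.mm 1}) (Set.subset_univ _) (fun v => Set.subset_univ _)
    ?_ (fun e _ => P.fj e) ?_ hI (by linarith) hκ₀.le ![σ, σ, s] z ?_ ?_
  · intro v
    fin_cases v
    · exact (P.vB 0).1
    · exact (P.vB 1).1
    · exact P.vW.1
  · intro v
    fin_cases v
    · exact (P.vB 0).2
    · exact (P.vB 1).2
    · exact P.vW.2
  · intro v
    fin_cases v
    · exact Or.inr ⟨rfl, hσ, QI.dH 0, (hZh 0 (by decide) ∅).2⟩
    · exact Or.inr ⟨rfl, hσ, QI.dH 1, (hZh 1 (by decide) ∅).2⟩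
    · refine Or.inl ⟨?_, rfl⟩
      change LW ∩ _ = ∅
      ext q
      simp only [LW, Set.mem_inter_iff, Set.mem_insert_iff, Set.mem_singleton_iff,
        Set.mem_empty_iff_false, iff_false, not_and, not_or]
      rintro (rfl | rfl | rfl | rfl) <;> simp
  · rintro e (rfl | rfl | rfl | rfl)
    · have hX := hcross (QI.dP 0) z s (by change 0 ≤ z.t 0; rw [ht0]; exact hn) hs
      change _ ≤ ENNReal.ofReal (cx * Real.exp (-(s / 2) * z.t 0)) at hX
      rw [ht0] at hX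
      refine pm_MI4_row hI hI4 (fun q hq => hq.1) hcx.le hKp (by linarith) hn hs hη hX ?_ hA hsm
      rintro ⟨e', he', hat⟩
      refine mul_le_mul' le_rfl ?_
      change at5 e' = 0 at hat
      rcases he' with rfl | rfl | rfl | rfl
      · exact absurd hat (by decide)
      · exact ((hZh 0 (by decide) _).1).trans hcz
      · exact absurd hat (by decide)
      · exact absurd hat (by decide)
    · have hX := hcross (QI.dH 0) z s (by change 0 ≤ z.t 0; rw [ht0]; exact hn) hs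
      change _ ≤ ENNReal.ofReal (cx * Real.exp (-(s / 2) * z.t 0)) at hX
      rw [ht0] at hX
      refine pm_MI4_row hI hI4 (fun q hq => hq.1) hcx.le hKp (by linarith) hn hs hη hX ?_ hA hsm
      rintro ⟨e', he', hat⟩
      refine mul_le_mul' le_rfl ?_
      change at5 e' = 2 at hat
      rcases he' with rfl | rfl | rfl | rfl
      · exact (hZW 0 0 _).trans hcz'
      · exact absurd hat (by decide)
      · exact (hZW 0 1 _).trans hcz'
      · exact absurd hat (by decide)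
    · have hX := hcross (QI.dP 1) z s (by change 0 ≤ z.t 1; rw [ht1]; exact hn) hs
      change _ ≤ ENNReal.ofReal (cx * Real.exp (-(s / 2) * z.t 1)) at hX
      rw [ht1] at hX
      refine pm_MI4_row hI hI4 (fun q hq => hq.1) hcx.le hKp (by linarith) hn hs hη hX ?_ hA hsm
      rintro ⟨e', he', hat⟩
      refine mul_le_mul' le_rfl ?_
      change at5 e' = 1 at hat
      rcases he' with rfl | rfl | rfl | rfl
      · exact absurd hat (by decide)
      · exact absurd hat (by decide)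
      · exact absurd hat (by decide)
      · exact ((hZh 1 (by decide) _).1).trans hcz
    · have hX := hcross (QI.dH 1) z s (by change 0 ≤ z.t 1; rw [ht1]; exact hn) hs
      change _ ≤ ENNReal.ofReal (cx * Real.exp (-(s / 2) * z.t 1)) at hX
      rw [ht1] at hX
      refine pm_MI4_row hI hI4 (fun q hq => hq.1) hcx.le hKp (by linarith) hn hs hη hX ?_ hA hsm
      rintro ⟨e', he', hat⟩
      refine mul_le_mul' le_rfl ?_
      change at5 e' = 2 at hat
      rcases he' with rfl | rfl | rfl | rfl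
      · exact (hZW 1 0 _).trans hcz'
      · exact absurd hat (by decide)
      · exact (hZW 1 1 _).trans hcz'
      · exact absurd hat (by decide)

/-- the exponent depends only on the values on the subgroup -/
theorem pm_MI4_expo {X : Subgroup Surf} {N N' : Surf → ℝ} (h : ∀ g ∈ X, N g = N' g) :
    expo X N = expo X N' := by
  have : ∀ T, nX X N T = nX X N' T := by
    intro T
    ext g
    constructor
    · rintro ⟨h1, h2⟩; exact ⟨h1, by rw [← h g h1]; exact h2⟩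
    · rintro ⟨h1, h2⟩; exact ⟨h1, by rw [h g h1]; exact h2⟩
  unfold expo
  simp only [this]

theorem pm_MI4_lim (A κ₀ C' τ ε : ℝ) (hε : 0 < ε) :
    ∃ n₀ : ℝ, ∀ n ≥ n₀, 0 ≤ n ∧ A * Real.exp (-(n / 32)) ≤ 1 / 2 ∧
      Real.exp (-(n / 64)) / κ₀ ≤ 1 ∧
      C' * (2 + τ) * Real.sqrt (Real.exp (-(n / 64)) / κ₀) ≤ ε := by
  have t1 : Tendsto (fun n : ℝ => Real.exp (-(n / 32))) atTop (𝓝 0) :=
    Real.tendsto_exp_neg_atTop_nhds_zero.comp (tendsto_id.atTop_div_const (by norm_num))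
  have t2 : Tendsto (fun n : ℝ => Real.exp (-(n / 64))) atTop (𝓝 0) :=
    Real.tendsto_exp_neg_atTop_nhds_zero.comp (tendsto_id.atTop_div_const (by norm_num))
  have t3 : Tendsto (fun n : ℝ => A * Real.exp (-(n / 32))) atTop (𝓝 0) := by
    simpa using t1.const_mul A
  have t4 : Tendsto (fun n : ℝ => Real.exp (-(n / 64)) / κ₀) atTop (𝓝 0) := by
    simpa using t2.div_const κ₀
  have t5 : Tendsto (fun n : ℝ => C' * (2 + τ) * Real.sqrt (Real.exp (-(n / 64)) / κ₀)) atTop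
      (𝓝 0) := by
    have := ((Real.continuous_sqrt.tendsto 0).comp t4).const_mul (C' * (2 + τ))
    simpa using this
  have e1 := t3.eventually (ge_mem_nhds (show (0 : ℝ) < 1 / 2 by norm_num))
  have e2 := t4.eventually (ge_mem_nhds (show (0 : ℝ) < 1 by norm_num))
  have e3 := t5.eventually (ge_mem_nhds hε)
  obtain ⟨n₀, h⟩ := Filter.eventually_atTop.1 ((eventually_ge_atTop (0 : ℝ)).and (e1.and (e2.and e3)))
  exact ⟨n₀, fun n hn => h n hn⟩

/-- M2: `d_2 = T` fixed, `W_2(T)` dominates; one of the handles 0, 1 moves through admissible states at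
unit speed over an interval of length at most `τ + 1`; the cost tends to 0 as `n → ∞` -/
theorem move2 {as τ Mx : ℝ} (has : 0 ≤ as) (hasτ : as ≤ τ) (hMx : 1 / 7 ≤ Mx) (hE : B.EH as 0 = Mx)
    (hM1 : ∀ a, 0 ≤ a → a ≤ τ → B.EH a 0 ≤ Mx) (hM2 : ∀ th, 0 ≤ th → th ≤ 1 → B.EH τ th ≤ Mx)
    (b : Fin 3 → Bool) (hb : b 2 = false) (T : ℝ) (hT : 0 ≤ T) (ε : ℝ) (hε : 0 < ε) :
    ∃ n₀ : ℝ, ∀ n ≥ n₀, ∀ (z u : ZI) (x y : ℝ), x < y → y - x ≤ τ + 1 →
      (∀ i, u.t i = 0) → u.a 2 = 0 → u.th 2 = 0 → (∀ i, |u.a i| ≤ 1 ∧ |u.th i| ≤ 1) →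
      z.t = ![n, n, T] → z.a 2 = as → z.th 2 = 0 →
      (∀ s ∈ Set.Icc x y, ∀ i, i ≠ 2 → HOk τ ((ray z u s).a i) ((ray z u s).th i)) →
      len (fun s => B.repI b (ray z u s)) x y ≤ ENNReal.ofReal ε := by
  have hτ : 0 ≤ τ := has.trans hasτ
  obtain ⟨K, κ, Φ, P⟩ := exists_PkI B b
  have hlog : 0 < Real.log (1 + κ) := Real.log_pos (by linarith [P.hκ])
  obtain ⟨C', hC', happ⟩ := move_app (K := K) (κ := κ) (H := 2 + B.Lm) P.hK P.hκ
    (by linarith [B.hLm])
  obtain ⟨cx, hcx, hcross⟩ := crossI B b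
  -- the exponent of `W`
  let z₀ : ZI := ⟨fun _ => T, fun _ => as, fun _ => 0⟩
  set EW : ℝ := expo WG ((B.psI b).N (QI.dP 0) z₀) with hEW
  have hEWz : ∀ z : ZI, z.t 2 = T → z.a 2 = as → z.th 2 = 0 →
      expo WG ((B.psI b).N (QI.dP 0) z) = EW := by
    intro z h1 h2 h3
    refine pm_MI4_expo fun g hg => ?_
    exact N_W B b b hb hb (z := z) (z' := z₀) h1 h2 h3 hg
  have hgap : Mx < EW := by
    have h := W_strict B b hb has (by rw [hE]; linarith) z₀ rfl rfl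
    rw [hE] at h
    exact h
  set gap : ℝ := min (EW - Mx) 1 with hgapd
  have hg0 : 0 < gap := lt_min (by linarith) one_pos
  have hg1 : gap ≤ 1 := min_le_right _ _
  have hgE : gap ≤ EW - Mx := min_le_left _ _
  set κ₀ : ℝ := gap * Real.log (1 + κ) / 6 with hκ₀d
  have hκ₀ : 0 < κ₀ := by positivity
  have h3κ : 3 * κ₀ / Real.log (1 + κ) = gap / 2 := by
    rw [hκ₀d]; field_simp; ring
  obtain ⟨ch, hch, hZh⟩ := pm_MI4_Zh B b P.hK P.hκ (τ := τ) (Mx := Mx) (δ := gap / 2) (sM := EW + 1)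
    hτ (by linarith) (by linarith) (by linarith) hM1 hM2
  obtain ⟨cw, hcw, hZW⟩ := pm_MI4_ZW B b hb P.hK P.hκ T as EW has (by linarith) hEWz
  obtain ⟨n₀, hn₀⟩ := pm_MI4_lim (Real.exp κ₀ * cx * 4 * (K ^ (6 * κ₀ / Real.log (1 + κ))) * (ch + cw))
    κ₀ C' τ ε hε
  refine ⟨n₀, ?_⟩
  intro n hn z u x y hxy hyx hut hua huth hu hzt hza hzth hOk
  obtain ⟨hn0, hsm, hβ1, hfin⟩ := hn₀ n hn
  obtain ⟨hd, hdef⟩ := defPath_ray B b z u {QI.mp 0, QI.mm 0, QI.mp 1, QI.mm 1}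
    (by
      intro i
      refine ⟨fun h => absurd (hut i) h, fun h => ?_⟩
      fin_cases i
      · constructor <;> simp
      · constructor <;> simp
      · rcases h with h | h
        · exact absurd hua h
        · exact absurd huth h)
    (by
      intro i
      refine ⟨?_, (hu i).1, (hu i).2⟩
      rw [hut i]; simp)
  have key := happ (P.top) hdef (fun s => B.repI b (ray z u s)) (fun t γ => rfl) hxy
    (s := EW + Real.exp (-(n / 64))) (κ₀ := κ₀) (β := Real.exp (-(n / 64)) / κ₀) hκ₀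
    (div_pos (Real.exp_pos _) hκ₀) hβ1 ?_
  · refine key.trans (ENNReal.ofReal_le_ofReal (le_trans ?_ hfin))
    refine mul_le_mul_of_nonneg_right ?_ (Real.sqrt_nonneg _)
    refine mul_le_mul_of_nonneg_left ?_ hC'.le
    linarith
  · intro t ht
    have hη0 : 0 < Real.exp (-(n / 64)) := Real.exp_pos _
    have hη1 : Real.exp (-(n / 64)) ≤ 1 := Real.exp_le_one_iff.2 (by linarith)
    have r0 : (ray z u t).t 0 = n := by
      change z.t 0 + t * u.t 0 = n
      rw [hut 0, hzt]; simp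
    have r1 : (ray z u t).t 1 = n := by
      change z.t 1 + t * u.t 1 = n
      rw [hut 1, hzt]; simp
    have r2 : (ray z u t).t 2 = T := by
      change z.t 2 + t * u.t 2 = T
      rw [hut 2, hzt]; simp
    have ra : (ray z u t).a 2 = as := by
      change z.a 2 + t * u.a 2 = as
      rw [hua, hza]; simp
    have rth : (ray z u t).th 2 = 0 := by
      change z.th 2 + t * u.th 2 = 0
      rw [huth, hzth]; simp
    obtain ⟨hcl1, hcl2, _, hcl4, _, hcl6⟩ := closed_lim B b (ray z u t) 0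
    obtain ⟨hW1, hW2, _⟩ := (W_growth B b hb T as has).choose_spec.2 (ray z u t) r2 ra rth
    have hle : EW ≤ expo ⊤ ((B.psI b).N (QI.dP 0) (ray z u t)) := by
      rw [← hEWz (ray z u t) r2 ra rth]
      exact expo_mono le_top hcl4 ⟨_, hcl6⟩ ⟨_, hW2⟩
    refine ⟨expo ⊤ ((B.psI b).N (QI.dP 0) (ray z u t)), by linarith, ?_, hcl1, hcl2, ?_⟩
    · exact div_le_div_of_nonneg_right (by linarith) hκ₀.le
    · refine pm_MI4_sum P hcx hcross (ray z u t) hκ₀ hn0 (by linarith) r0 r1 rfl hch hcw ?_ ?_ ?_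
        le_rfl hsm
      · rw [h3κ]; linarith
      · intro i hi Λ
        rw [h3κ]
        exact hZh (ray z u t) i _ Λ (hOk t ht i hi) (by linarith) (by linarith)
      · intro i j Λ
        have h := hZW (ray z u t) i j (EW + Real.exp (-(n / 64))) Λ r2 ra rth (by linarith)
          (by linarith)
        rw [add_sub_cancel_left] at h
        exact h

/-- the limit transfers between comparable sizes -/
theorem pm_MI5_lim {Γ : Type*} [Group Γ] {X : Subgroup Γ} {N N' : Γ → ℝ} {c E : ℝ}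
    (h1 : ∀ g, N' g ≤ c * N g) (h2 : ∀ g, N g ≤ c * N' g) (hN : ∀ g, 0 ≤ N g) (hN' : ∀ g, 0 ≤ N' g)
    (hfin : ∀ T, (nX X N T).Finite)
    (hlim : Tendsto (fun T : ℝ => Real.log ((nX X N T).ncard) / T) atTop (𝓝 E)) :
    Tendsto (fun T : ℝ => Real.log ((nX X N' T).ncard) / T) atTop (𝓝 E) := by
  set c' : ℝ := max 1 c with hc'
  have hc1 : 1 ≤ c' := le_max_left _ _
  have h1' : ∀ g, N' g ≤ c' * N g := fun g =>
    (h1 g).trans (mul_le_mul_of_nonneg_right (le_max_right _ _) (hN g))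
  have h2' : ∀ g, N g ≤ c' * N' g := fun g =>
    (h2 g).trans (mul_le_mul_of_nonneg_right (le_max_right _ _) (hN' g))
  have hl : 0 ≤ Real.log c' := Real.log_nonneg hc1
  have hc0 : 0 < c' := by linarith
  have hsub1 : ∀ T, nX X N' T ⊆ nX X N (T + Real.log c') := by
    rintro T g ⟨hg, hg'⟩
    refine ⟨hg, ?_⟩
    rw [Real.exp_add, Real.exp_log hc0, mul_comm]
    exact (h2' g).trans (mul_le_mul_of_nonneg_left hg' hc0.le)
  have hfin' : ∀ T, (nX X N' T).Finite := fun T => (hfin _).subset (hsub1 T)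
  have hsub2 : ∀ T D, Real.log c' ≤ D → nX X N T ⊆ nX X N' (T + D) := by
    rintro T D hD g ⟨hg, hg'⟩
    refine ⟨hg, ?_⟩
    rw [Real.exp_add, mul_comm]
    have h3 : c' ≤ Real.exp D := by
      rw [← Real.exp_log hc0]; exact Real.exp_le_exp.2 hD
    exact (h1' g).trans (mul_le_mul h3 hg' (hN g) (Real.exp_pos D).le)
  refine pm_GoGG2_squeeze (n := fun T => (nX X N T).ncard) (C := max 1 (Real.log c'))
    (lt_of_lt_of_le one_pos (le_max_left _ _)) hl hlim
    (fun T => Set.ncard_le_ncard (hsub1 T) (hfin _)) ?_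
  intro T hT
  have h3 : ((nX X N T).ncard : ℝ) ≤ ((nX X N' (T + max 1 (Real.log c'))).ncard : ℝ) := by
    exact_mod_cast Set.ncard_le_ncard (hsub2 T _ (le_max_right _ _)) (hfin' _)
  have h4 : (1 : ℝ) ≤ max 1 (Real.log c') * (1 + T) := by
    have := le_max_left (1 : ℝ) (Real.log c')
    nlinarith
  have h5 : (0 : ℝ) ≤ ((nX X N' (T + max 1 (Real.log c'))).ncard : ℝ) := Nat.cast_nonneg _
  nlinarith

section
variable {B : Base} {b : Fin 3 → Bool}

theorem pm_MI5_N (p q : QI) (z : ZI) : ∃ c : ℝ, ∀ g : Surf,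
    (B.psI b).N p z g ≤ c * (B.psI b).N q z g ∧ (B.psI b).N q z g ≤ c * (B.psI b).N p z g := by
  set P : GL (Fin 3) ℝ := ((B.psI b).F p z)⁻¹ * (B.psI b).F q z with hP
  have key : ∀ (F F' : GL (Fin 3) ℝ) (A : M3),
      nrm (((F⁻¹ : GL (Fin 3) ℝ) : M3) * A * (F : M3)) ≤
        nrm (((F⁻¹ * F' : GL (Fin 3) ℝ) : M3)) * nrm (((F'⁻¹ * F : GL (Fin 3) ℝ) : M3)) *
        nrm (((F'⁻¹ : GL (Fin 3) ℝ) : M3) * A * (F' : M3)) := by
    intro F F' A
    have e : ((F⁻¹ : GL (Fin 3) ℝ) : M3) * A * (F : M3) =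
        ((F⁻¹ * F' : GL (Fin 3) ℝ) : M3) * (((F'⁻¹ : GL (Fin 3) ℝ) : M3) * A * (F' : M3)) *
          ((F'⁻¹ * F : GL (Fin 3) ℝ) : M3) := by
      have h1 : (F' : M3) * ((F'⁻¹ : GL (Fin 3) ℝ) : M3) = 1 := by
        rw [← Units.val_mul, mul_inv_cancel, Units.val_one]
      rw [Units.val_mul, Units.val_mul]
      calc ((F⁻¹ : GL (Fin 3) ℝ) : M3) * A * (F : M3)
          = ((F⁻¹ : GL (Fin 3) ℝ) : M3) * ((F' : M3) * ((F'⁻¹ : GL (Fin 3) ℝ) : M3)) * A *
            ((F' : M3) * ((F'⁻¹ : GL (Fin 3) ℝ) : M3)) * (F : M3) := by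
              rw [h1, mul_one, mul_one]
        _ = _ := by simp only [mul_assoc]
    rw [e]
    calc _ ≤ nrm (((F⁻¹ * F' : GL (Fin 3) ℝ) : M3) * (((F'⁻¹ : GL (Fin 3) ℝ) : M3) * A * (F' : M3))) *
          nrm (((F'⁻¹ * F : GL (Fin 3) ℝ) : M3)) := nrm_mul_le _ _
      _ ≤ nrm (((F⁻¹ * F' : GL (Fin 3) ℝ) : M3)) *
          nrm (((F'⁻¹ : GL (Fin 3) ℝ) : M3) * A * (F' : M3)) *
          nrm (((F'⁻¹ * F : GL (Fin 3) ℝ) : M3)) :=
            mul_le_mul_of_nonneg_right (nrm_mul_le _ _) (nrm_nonneg _)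
      _ = _ := by ring
  refine ⟨_, fun g => ⟨key ((B.psI b).F p z) ((B.psI b).F q z) ((B.psI b).r z g : M3), ?_⟩⟩
  have := key ((B.psI b).F q z) ((B.psI b).F p z) ((B.psI b).r z g : M3)
  rw [mul_comm (nrm _) (nrm _)] at this
  exact this

/-- the exponent of the closed group is at least that of the handle 2 -/
theorem pm_MI5_h {as Mx : ℝ} (has : 0 ≤ as) (hE : B.EH as 0 = Mx) {z : ZI} (ha : z.a 2 = as)
    (hth : z.th 2 = 0) : Mx ≤ expo ⊤ ((B.psI b).N (QI.dP 2) z) := by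
  obtain ⟨_, _, heq, hfP, hfH, hlP⟩ := closed_lim B b z 2
  obtain ⟨C, hC, hg⟩ := handle_growth B as
  obtain ⟨_, _, hfin, hlim, _⟩ := hg as 0 has le_rfl le_rfl zero_le_one
  rw [heq, ← hE, ← ha, ← hth, ← expo_handle B b z 2]
  obtain ⟨c, hc⟩ := pm_MI5_N (B := B) (b := b) (QI.dH 2) (QI.dP 2) z
  refine expo_mono le_top hfH ⟨_, pm_MI5_lim (fun g => (hc g).1) (fun g => (hc g).2)
    (fun g => nrm_nonneg _) (fun g => nrm_nonneg _) hfP hlP⟩ ⟨B.EH as 0, ?_⟩
  have h1 : ∀ T, nX (BH 2) ((B.psI b).N (QI.dH 2) z) T =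
      (phi (b 2) 2) '' nX (⊤ : Subgroup F2) (B.NH as 0) T := by
    intro T
    ext g
    constructor
    · rintro ⟨hg, hg'⟩
      rw [← phi_range (b 2) 2] at hg
      obtain ⟨g', rfl⟩ := hg
      refine ⟨g', ⟨Subgroup.mem_top _, ?_⟩, rfl⟩
      rw [N_handle, ha, hth] at hg'
      exact hg'
    · rintro ⟨g', ⟨_, hg'⟩, rfl⟩
      refine ⟨?_, ?_⟩
      · rw [← phi_range (b 2) 2]; exact ⟨g', rfl⟩
      · rw [N_handle, ha, hth]; exact hg'
  have h2 : ∀ T, (nX (BH 2) ((B.psI b).N (QI.dH 2) z) T).ncard =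
      (nX (⊤ : Subgroup F2) (B.NH as 0) T).ncard := by
    intro T
    rw [h1, Set.ncard_image_of_injective _ (phi_inj (b 2) 2)]
  simp only [h2]
  exact hlim

/-- the sums over the handle 2 -/
theorem pm_MI5_ZB {K κ : ℝ} {Φ : Finset (ZI → GL (Fin 3) ℝ)} (P : PkI B b K κ Φ) {as Mx : ℝ}
    (has : 0 ≤ as) (hMx : 1 / 7 ≤ Mx) (hE : B.EH as 0 = Mx) : ∃ C > (0 : ℝ), ∀ z : ZI, z.a 2 = as →
      z.th 2 = 0 → ∀ η : ℝ, 0 < η → η ≤ 1 → ∀ Λ,
      Zs (B.psI b) K κ Λ (BH 2) z (Mx + η) (QI.dH 2) (QI.dH 2) ≤ ENNReal.ofReal (C / η ^ 2) := by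
  obtain ⟨C, hC, hg⟩ := handle_growth B as
  obtain ⟨_, _, _, _, hp⟩ := hg as 0 has le_rfl le_rfl zero_le_one
  have hK := P.hK
  have hK2 : 1 ≤ 9 * K ^ 2 := by nlinarith
  refine ⟨(9 * K ^ 2) ^ (Mx + 1) * C, by positivity, ?_⟩
  intro z ha hth η hη hη1 Λ
  have hs0 : 0 ≤ Mx + η := by linarith
  have h1 := Zs_le_poin (ps := B.psI b) (K := K) P.hκ.le (Λ := Λ) (G := BH 2) z hs0 (QI.dH 2)
  rw [poin_handle, ha, hth] at h1
  refine h1.trans ?_
  have h2 := hp (Mx + η) (by rw [hE]; linarith) (by rw [hE]; linarith)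
  rw [hE] at h2
  have e : Mx + η - Mx = η := by ring
  rw [e] at h2
  calc _ ≤ ENNReal.ofReal ((9 * K ^ 2) ^ (Mx + 1)) * ENNReal.ofReal (C / η ^ 2) := by
        refine mul_le_mul' (ENNReal.ofReal_le_ofReal ?_) h2
        exact Real.rpow_le_rpow_of_exponent_le hK2 (by linarith)
    _ = _ := by
        rw [← ENNReal.ofReal_mul (by positivity)]
        congr 1
        ring

theorem pm_MI5_case {K κ : ℝ} {Φ : Finset (ZI → GL (Fin 3) ℝ)} (P : PkI B b K κ Φ)
    (h0 : b 0 = false) (h1 : b 1 = false) {Cx CB A₁ s sR κ₀ D G : ℝ} {M : Set QI} (hM : LB 2 ∩ M = ∅)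
    (z : ZI) (hs : 1 / 8 ≤ s) (hκ₀ : 0 ≤ κ₀) (hsR : sR = s - 3 * κ₀ / Real.log (1 + κ)) (hsR0 : 0 < sR)
    (hD : 0 ≤ D) (hDz : D ≤ z.t 2) (hCx : 0 < Cx) (hCB : 0 < CB) (hA₁ : 0 < A₁)
    (hX : ∀ e, e = QI.dP 2 ∨ e = QI.dH 2 → Xs (B.psI b) z s e ≤ ENNReal.ofReal (Cx * Real.exp (-(s / 2) * z.t 2)))
    (hB : Zs (B.psI b) K κ (LB 2) (BH 2) z s (QI.dH 2) (QI.dH 2) ≤ ENNReal.ofReal (CB * G))
    (hR : Zs (B.psI b) K κ LR RG z sR (QI.dP 2) (QI.dP 2) ≤ ENNReal.ofReal A₁)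
    (hG : 1 ≤ G)
    (hbig : Real.exp κ₀ * Cx * K ^ (6 * κ₀ / Real.log (1 + κ)) * (CB + A₁) * (Real.exp (-(1 / 16) * D) * G) ≤ 1 / 2) :
    ∑' C : {C : ConjClasses Surf // C ≠ 1 ∧ icnt (B.psI b) K κ Set.univ (Φ : Set _) M C ≠ 0},
        ENNReal.ofReal (Real.exp (κ₀ * icnt (B.psI b) K κ Set.univ (Φ : Set _) M C) *
          (lam ((B.psI b).r z (Quotient.out C.1) : M3)) ^ (-s)) < ⊤ := by
  have hK := P.hK
  have hK0 : 0 < K := by linarith
  have hKp : 0 < K ^ (6 * κ₀ / Real.log (1 + κ)) := Real.rpow_pos_of_pos hK0 _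
  have hexp : Real.exp (-(s / 2) * z.t 2) ≤ Real.exp (-(1 / 16) * D) := by
    apply Real.exp_le_exp.2
    nlinarith
  have hvR := P.vR h0 h1
  refine closed_sum (gh9 B b) P.hκ (Λv := fun v : Bool => if v then LB 2 else LR) (Λ := Set.univ) (M := M)
    (Set.subset_univ _) (fun v => Set.subset_univ _) ?_ (Φ := Φ) (fun e _ => P.fj e) ?_
    (Set.toFinite _) (s := s) (κ₀ := κ₀) (by linarith) hκ₀ (fun v : Bool => if v then s else sR) z ?_ ?_
  · rintro (_ | _)
    · exact hvR.1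
    · exact (P.vB 2).1
  · rintro (_ | _)
    · exact hvR.2
    · exact (P.vB 2).2
  · rintro (_ | _)
    · right
      refine ⟨hsR, hsR0.le, QI.dP 2, ?_⟩
      have h3 : (B.psI b).c (QI.dP 2) ∈ RG := by
        have := (gh9 B b).hc (QI.dP 2) (Or.inl rfl)
        exact this
      refine lt_of_le_of_lt (poin_le_Zs P.hκ.le hvR.1 z hsR0 (show QI.dP 2 ∈ ({QI.dP 2} : Set QI) from rfl) h3) ?_
      refine ENNReal.mul_lt_top ENNReal.ofReal_lt_top ?_
      exact ENNReal.add_lt_top.2 ⟨ENNReal.one_lt_top, lt_of_le_of_lt hR ENNReal.ofReal_lt_top⟩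
    · left
      exact ⟨hM, rfl⟩
  · intro e he
    have hfin : ∀ (Y A : ℝ), 0 ≤ A → Y ≤ (CB + A₁) * G → ∀ (X : ENNReal), X ≤ ENNReal.ofReal Y →
        ENNReal.ofReal (Real.exp κ₀) * Xs (B.psI b) z s e *
          (ENNReal.ofReal (K ^ (6 * κ₀ / Real.log (1 + κ))) * X) ≤ 1 / 2 := by
      intro Y A _ hY X hX'
      calc ENNReal.ofReal (Real.exp κ₀) * Xs (B.psI b) z s e *
          (ENNReal.ofReal (K ^ (6 * κ₀ / Real.log (1 + κ))) * X)
          ≤ ENNReal.ofReal (Real.exp κ₀) * ENNReal.ofReal (Cx * Real.exp (-(s / 2) * z.t 2)) *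
            (ENNReal.ofReal (K ^ (6 * κ₀ / Real.log (1 + κ))) * ENNReal.ofReal ((CB + A₁) * G)) := by
              gcongr
              · exact hX e he
              · exact hX'.trans (ENNReal.ofReal_le_ofReal hY)
        _ = ENNReal.ofReal (Real.exp κ₀ * (Cx * Real.exp (-(s / 2) * z.t 2)) *
            (K ^ (6 * κ₀ / Real.log (1 + κ)) * ((CB + A₁) * G))) := by
              rw [← ENNReal.ofReal_mul (Real.exp_pos _).le, ← ENNReal.ofReal_mul hKp.le,
                ← ENNReal.ofReal_mul (by positivity)]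
        _ ≤ ENNReal.ofReal (1 / 2) := by
              apply ENNReal.ofReal_le_ofReal
              refine le_trans ?_ hbig
              have e1 : Real.exp κ₀ * Cx * K ^ (6 * κ₀ / Real.log (1 + κ)) * (CB + A₁) *
                  (Real.exp (-(1 / 16) * D) * G) =
                  (Real.exp κ₀ * Cx * K ^ (6 * κ₀ / Real.log (1 + κ)) * (CB + A₁) * G) *
                    Real.exp (-(1 / 16) * D) := by ring
              have e2 : Real.exp κ₀ * (Cx * Real.exp (-(s / 2) * z.t 2)) *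
                  (K ^ (6 * κ₀ / Real.log (1 + κ)) * ((CB + A₁) * G)) =
                  (Real.exp κ₀ * Cx * K ^ (6 * κ₀ / Real.log (1 + κ)) * (CB + A₁) * G) *
                    Real.exp (-(s / 2) * z.t 2) := by ring
              rw [e1, e2]
              exact mul_le_mul_of_nonneg_left hexp (by positivity)
        _ = 1 / 2 := by
              rw [ENNReal.ofReal_div_of_pos (by norm_num)]
              simp
    rcases he with rfl | he
    · have hu : ∀ e' : {e' : QI // e' ∈ ({QI.dP 2, QI.dH 2} : Set QI) ∧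
          at9 e' = at9 ((B.psI b).bar (QI.dP 2))}, e'.1 = QI.dH 2 := by
        rintro ⟨e', h | h, h'⟩
        · subst h; exact absurd (show false = true from h') (by decide)
        · exact h
      rw [tsum_eq_single (⟨QI.dH 2, Or.inr rfl, rfl⟩ : {e' : QI // e' ∈ ({QI.dP 2, QI.dH 2} : Set QI) ∧
          at9 e' = at9 ((B.psI b).bar (QI.dP 2))})
          (fun e' he' => absurd (Subtype.ext (hu e')) he')]
      exact hfin (CB * G) 1 zero_le_one (by nlinarith) _ hB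
    · have he' : e = QI.dH 2 := he
      subst he'
      have hu : ∀ e' : {e' : QI // e' ∈ ({QI.dP 2, QI.dH 2} : Set QI) ∧
          at9 e' = at9 ((B.psI b).bar (QI.dH 2))}, e'.1 = QI.dP 2 := by
        rintro ⟨e', h | h, h'⟩
        · exact h
        · have h2 : e' = QI.dH 2 := h
          subst h2; exact absurd (show true = false from h') (by decide)
      rw [tsum_eq_single (⟨QI.dP 2, Or.inl rfl, rfl⟩ : {e' : QI // e' ∈ ({QI.dP 2, QI.dH 2} : Set QI) ∧
          at9 e' = at9 ((B.psI b).bar (QI.dH 2))})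
          (fun e' he' => absurd (Subtype.ext (hu e')) he')]
      refine hfin A₁ 1 zero_le_one (by nlinarith) _ ?_
      exact hR

/-- the common estimate: handles 0, 1 weak, the boundary of the handle 2 bulged by at least `D` -/
theorem pm_MI5_main {as Mx : ℝ} (has : 0 ≤ as) (hMx : 1 / 7 ≤ Mx) (hE : B.EH as 0 = Mx) (M : Set QI)
    (hM : LB 2 ∩ M = ∅) :
    ∃ τ₀ > (0 : ℝ), ∀ τ ≥ τ₀, ∃ C > (0 : ℝ), ∃ c > (0 : ℝ), ∃ u₀ > (0 : ℝ), ∀ (z u : ZI) (x D : ℝ),
      u₀ ≤ D → (∀ i, (u.t i ≠ 0 → QI.dP i ∈ M ∧ QI.dH i ∈ M) ∧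
        ((u.a i ≠ 0 ∨ u.th i ≠ 0) → QI.mp i ∈ M ∧ QI.mm i ∈ M)) →
      (∀ i, |u.t i| ≤ 1 ∧ |u.a i| ≤ 1 ∧ |u.th i| ≤ 1) →
      (∀ s ∈ Set.Icc x (x + 1), D ≤ (ray z u s).t 2 ∧ (ray z u s).a 0 = τ ∧ (ray z u s).a 1 = τ ∧
        (ray z u s).a 2 = as ∧ (ray z u s).th 2 = 0) →
      len (fun s => B.repI b0 (ray z u s)) x (x + 1) ≤ ENNReal.ofReal (C * Real.exp (-(c * D))) := by
  obtain ⟨K, κ, Φ, P⟩ := exists_PkI B b0
  have hK := P.hK
  have hK0 : 0 < K := by linarith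
  have hκ := P.hκ
  have hlog : 0 < Real.log (1 + κ) := Real.log_pos (by linarith)
  obtain ⟨Cx, hCx, hX⟩ := crossI B b0
  obtain ⟨CB, hCB, hZB⟩ := pm_MI5_ZB P has hMx hE
  obtain ⟨τ₀, hτ₀, A₁, hA₁, hZR⟩ := P.zR rfl rfl (Mx + 1)
  obtain ⟨C', hC', hm⟩ := move_app (K := K) (κ := κ) (H := 2 + B.Lm) hK hκ (by linarith [B.hLm])
  refine ⟨τ₀, hτ₀, fun τ hτ => ?_⟩
  set κ₀ : ℝ := Real.log (1 + κ) / 168 with hκ₀d
  have hκ₀ : 0 < κ₀ := by positivity
  have h3κ : 3 * κ₀ / Real.log (1 + κ) = 1 / 56 := by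
    rw [hκ₀d]; field_simp; norm_num
  set Big : ℝ := Real.exp κ₀ * Cx * K ^ (6 * κ₀ / Real.log (1 + κ)) * (CB + A₁) with hBig
  have hKp : 0 < K ^ (6 * κ₀ / Real.log (1 + κ)) := Real.rpow_pos_of_pos hK0 _
  have hBigp : 0 < Big := by positivity
  refine ⟨2 * C' / Real.sqrt κ₀, by positivity, 1 / 112, by norm_num,
    max 1 (max (56 * Real.log (2 * Big)) (56 * Real.log (1 / κ₀))), by positivity, ?_⟩
  intro z u x D hD hMu hu hz
  have hD1 : 1 ≤ D := (le_max_left _ _).trans hD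
  have hD2 : 56 * Real.log (2 * Big) ≤ D := ((le_max_left _ _).trans (le_max_right _ _)).trans hD
  have hD3 : 56 * Real.log (1 / κ₀) ≤ D := ((le_max_right _ _).trans (le_max_right _ _)).trans hD
  set η : ℝ := Real.exp (-(1 / 56 * D)) with hη
  have hηp : 0 < η := Real.exp_pos _
  have hη1 : η ≤ 1 := by
    rw [hη]; apply Real.exp_le_one_iff.2; linarith
  have hβ1 : η / κ₀ ≤ 1 := by
    rw [div_le_one hκ₀]
    have h1 : Real.log (1 / κ₀) ≤ 1 / 56 * D := by linarith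
    have h2 : 1 / κ₀ ≤ Real.exp (1 / 56 * D) := by
      rw [← Real.exp_log (show (0 : ℝ) < 1 / κ₀ by positivity)]
      exact Real.exp_le_exp.2 h1
    rw [hη, Real.exp_neg]
    rw [one_div] at h2
    exact inv_le_of_inv_le₀ hκ₀ h2
  obtain ⟨hd, hdef⟩ := defPath_ray B b0 z u M hMu hu
  have key := hm P.top hdef (fun s => B.repI b0 (ray z u s)) (fun t γ => rfl) (a := x) (b := x + 1)
    (lt_add_one x) (s := Mx + η) hκ₀ (β := η / κ₀) (by positivity) hβ1 ?_
  · refine key.trans (ENNReal.ofReal_le_ofReal ?_)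
    have e1 : Real.sqrt (η / κ₀) = Real.exp (-(1 / 112 * D)) / Real.sqrt κ₀ := by
      rw [Real.sqrt_div hηp.le, hη]
      congr 1
      rw [Real.sqrt_eq_rpow, ← Real.exp_mul]
      congr 1
      ring
    rw [e1]
    apply le_of_eq
    ring
  · intro t ht
    obtain ⟨hz2, hza0, hza1, hza2, hzth⟩ := hz t ht
    obtain ⟨hf, hl, _⟩ := closed_lim B b0 (ray z u t) 2
    have hh := pm_MI5_h (B := B) (b := b0) has hE hza2 hzth
    refine ⟨_, lt_of_lt_of_le (by linarith) hh, ?_, hf, hl, ?_⟩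
    · apply div_le_div_of_nonneg_right _ hκ₀.le
      linarith
    · have hs : 1 / 8 ≤ Mx + η := by linarith
      have hbl : ∀ e, e = QI.dP 2 ∨ e = QI.dH 2 → blI e (ray z u t) = (ray z u t).t 2 := by
        rintro e (rfl | rfl) <;> rfl
      refine pm_MI5_case P rfl rfl hM (ray z u t) (Cx := Cx) (CB := CB) (A₁ := A₁) (s := Mx + η)
        (sR := Mx + η - 1 / 56) (D := D) (G := Real.exp (1 / 28 * D)) hs hκ₀.le (by rw [h3κ]) (by linarith)
        (by linarith) hz2 hCx hCB hA₁ ?_ ?_ ?_ ?_ ?_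
      · intro e he
        have h1 := hX e (ray z u t) (Mx + η) (by rw [hbl e he]; linarith) hs
        rw [hbl e he] at h1
        exact h1
      · have h1 := hZB (ray z u t) hza2 hzth η hηp hη1 (LB 2)
        have e1 : CB / η ^ 2 = CB * Real.exp (1 / 28 * D) := by
          rw [div_eq_mul_inv, hη, ← Real.exp_nat_mul, ← Real.exp_neg]
          congr 2
          push_cast
          ring
        rw [e1] at h1
        exact h1
      · exact hZR (ray z u t) (by rw [hza0]; exact hτ) (by rw [hza1]; exact hτ) (Mx + η - 1 / 56)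
          (by linarith) (by linarith) LR subset_rfl
      · apply Real.one_le_exp; linarith
      · rw [← hBig, ← Real.exp_add]
        have h1 : Real.exp (-(1 / 16) * D + 1 / 28 * D) ≤ Real.exp (-(1 / 56 * D)) := by
          apply Real.exp_le_exp.2; linarith
        have h2 : 2 * Big ≤ Real.exp (1 / 56 * D) := by
          rw [← Real.exp_log (show (0 : ℝ) < 2 * Big by positivity)]
          apply Real.exp_le_exp.2; linarith
        have h3 : Real.exp (1 / 56 * D) * Real.exp (-(1 / 56 * D)) = 1 := by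
          rw [← Real.exp_add]; simp
        have h4 : 0 < Real.exp (-(1 / 56 * D)) := Real.exp_pos _
        calc Big * Real.exp (-(1 / 16) * D + 1 / 28 * D) ≤ Big * Real.exp (-(1 / 56 * D)) :=
              mul_le_mul_of_nonneg_left h1 hBigp.le
          _ ≤ 1 / 2 := by nlinarith

/-- a long path is cut into unit pieces -/
theorem pm_MI5_cut (c : ℝ → Rep) (T : ℝ) (m : ℕ) {n : ℝ} (hn : n ≤ T + m) :
    len c T n ≤ ∑ k ∈ Finset.range m, len c (T + k) (T + k + 1) := by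
  have h1 : len c T (T + m) ≤ ∑ k ∈ Finset.range m, len c (T + k) (T + k + 1) := by
    clear hn
    induction m with
    | zero =>
      unfold len
      simp
    | succ m ih =>
      rw [Finset.sum_range_succ]
      refine le_trans ?_ (add_le_add_left ih _)
      unfold len
      refine le_trans (MeasureTheory.lintegral_mono_set ?_) (MeasureTheory.lintegral_union_le _ _ _)
      intro t ht
      push_cast at ht
      rcases le_total t (T + m) with h | h
      · left; exact ⟨ht.1, h⟩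
      · right; exact ⟨h, by linarith [ht.2]⟩
  refine le_trans ?_ h1
  unfold len
  exact MeasureTheory.lintegral_mono_set (Set.Icc_subset_Icc le_rfl hn)

theorem pm_MI5_tend (C c : ℝ) (hc : 0 < c) {ε : ℝ} (hε : 0 < ε) :
    ∀ᶠ T : ℝ in atTop, C * Real.exp (-(c * T)) ≤ ε := by
  have h1 : Tendsto (fun T : ℝ => C * Real.exp (-(c * T))) atTop (𝓝 (C * 0)) := by
    refine Tendsto.const_mul C ?_
    exact Real.tendsto_exp_neg_atTop_nhds_zero.comp (Filter.tendsto_id.const_mul_atTop hc)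
  rw [mul_zero] at h1
  exact (h1.eventually (gt_mem_nhds hε)).mono fun T hT => le_of_lt hT

theorem pm_MI5_rayT (t τ as s : ℝ) : ray ⟨![t, t, 0], ![τ, τ, as], fun _ => 0⟩
    ⟨![0, 0, 1], fun _ => 0, fun _ => 0⟩ s = ⟨![t, t, s], ![τ, τ, as], fun _ => 0⟩ := by
  unfold ray
  congr 1
  · funext i; fin_cases i <;> simp
  · funext i; simp
  · funext i; simp

theorem pm_MI6_rayT (n τ as s : ℝ) : ray ⟨![0, 0, n], ![τ, τ, as], fun _ => 0⟩
    ⟨![1, 1, 0], fun _ => 0, fun _ => 0⟩ s = ⟨![s, s, n], ![τ, τ, as], fun _ => 0⟩ := by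
  unfold ray
  congr 1
  · funext i; fin_cases i <;> simp
  · funext i; simp
  · funext i; simp

end

/-- M1': handles 0, 1 weak, `d_2` moves; arbitrary nonnegative bulges along `d_0`, `d_1` -/
theorem move1'_unit {as Mx : ℝ} (has : 0 ≤ as) (hMx : 1 / 7 ≤ Mx) (hE : B.EH as 0 = Mx) :
    ∃ τ₀ > (0 : ℝ), ∀ τ ≥ τ₀, ∃ C > (0 : ℝ), ∃ c > (0 : ℝ), ∃ u₀ > (0 : ℝ), ∀ (u t : ℝ), u₀ ≤ u → 0 ≤ t →
      len (fun s => B.repI b0 ⟨![t, t, s], ![τ, τ, as], fun _ => 0⟩) u (u + 1) ≤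
        ENNReal.ofReal (C * Real.exp (-(c * u))) := by
  obtain ⟨τ₀, hτ₀, h⟩ := pm_MI5_main (B := B) has hMx hE {QI.dP 2, QI.dH 2} (by
    ext p; simp only [LB, Set.mem_inter_iff, Set.mem_insert_iff, Set.mem_singleton_iff,
      Set.mem_empty_iff_false, iff_false]
    rintro ⟨rfl | rfl, h | h⟩ <;> cases h)
  refine ⟨τ₀, hτ₀, fun τ hτ => ?_⟩
  obtain ⟨C, hC, c, hc, u₀, hu₀, h⟩ := h τ hτ
  refine ⟨C, hC, c, hc, u₀, hu₀, fun u t hu _ => ?_⟩
  have key := h ⟨![t, t, 0], ![τ, τ, as], fun _ => 0⟩ ⟨![0, 0, 1], fun _ => 0, fun _ => 0⟩ u u hu ?_ ?_ ?_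
  · simp only [pm_MI5_rayT] at key
    exact key
  · intro i
    fin_cases i <;> simp
  · intro i
    fin_cases i <;> simp
  · intro s hs
    rw [pm_MI5_rayT]
    exact ⟨hs.1, rfl, rfl, rfl, rfl⟩

theorem move1' {as Mx : ℝ} (has : 0 ≤ as) (hMx : 1 / 7 ≤ Mx) (hE : B.EH as 0 = Mx) :
    ∃ τ₀ > (0 : ℝ), ∀ τ ≥ τ₀, ∀ ε > (0 : ℝ), ∃ T₀ > (0 : ℝ), ∀ T ≥ T₀, ∀ n ≥ T,
      dP (B.repI b0 ⟨![n, n, T], ![τ, τ, as], fun _ => 0⟩)
        (B.repI b0 ⟨![n, n, n], ![τ, τ, as], fun _ => 0⟩) ≤ ENNReal.ofReal ε := by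
  obtain ⟨τ₀, hτ₀, h⟩ := move1'_unit (B := B) has hMx hE
  refine ⟨τ₀, hτ₀, fun τ hτ ε hε => ?_⟩
  obtain ⟨C, hC, c, hc, u₀, hu₀, h⟩ := h τ hτ
  have hr : Real.exp (-c) < 1 := by
    rw [Real.exp_lt_one_iff]; linarith
  have hr0 : 0 ≤ Real.exp (-c) := (Real.exp_pos _).le
  obtain ⟨T₁, hT₁⟩ := eventually_atTop.1 (pm_MI5_tend (C * (1 - Real.exp (-c))⁻¹) c hc hε)
  refine ⟨max u₀ T₁, lt_of_lt_of_le hu₀ (le_max_left _ _), fun T hT n hn => ?_⟩
  have hTu : u₀ ≤ T := (le_max_left _ _).trans hT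
  have hTT : T₁ ≤ T := (le_max_right _ _).trans hT
  have h1 := dP_ray B b0 ⟨![n, n, 0], ![τ, τ, as], fun _ => 0⟩ ⟨![0, 0, 1], fun _ => 0, fun _ => 0⟩ hn
  simp only [pm_MI5_rayT] at h1
  refine h1.trans ((pm_MI5_cut _ T ⌈n - T⌉₊ (by linarith [Nat.le_ceil (n - T)])).trans ?_)
  calc _ ≤ ∑ k ∈ Finset.range ⌈n - T⌉₊, ENNReal.ofReal (C * Real.exp (-(c * (T + k)))) := by
        refine Finset.sum_le_sum fun k _ => ?_
        have hk : (0 : ℝ) ≤ k := Nat.cast_nonneg k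
        exact h (T + k) n (by linarith) (by linarith)
    _ = ENNReal.ofReal (∑ k ∈ Finset.range ⌈n - T⌉₊, C * Real.exp (-(c * (T + k)))) := by
        rw [ENNReal.ofReal_sum_of_nonneg]
        intro i _; positivity
    _ ≤ ENNReal.ofReal ε := by
        apply ENNReal.ofReal_le_ofReal
        refine le_trans ?_ (hT₁ T hTT)
        have e1 : ∀ k : ℕ, C * Real.exp (-(c * (T + k))) =
            C * Real.exp (-(c * T)) * Real.exp (-c) ^ k := by
          intro k
          rw [← Real.exp_nat_mul, mul_assoc, ← Real.exp_add]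
          congr 2
          ring
        simp only [e1]
        rw [← Finset.mul_sum]
        have h2 : ∑ k ∈ Finset.range ⌈n - T⌉₊, Real.exp (-c) ^ k ≤ (1 - Real.exp (-c))⁻¹ := by
          rw [← tsum_geometric_of_lt_one hr0 hr]
          exact (summable_geometric_of_lt_one hr0 hr).sum_le_tsum _ (fun i _ => by positivity)
        calc _ ≤ C * Real.exp (-(c * T)) * (1 - Real.exp (-c))⁻¹ :=
              mul_le_mul_of_nonneg_left h2 (by positivity)
          _ = _ := by ring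

/-- M4: handles 0, 1 weak, `d_2 = n`, `d_0 = d_1` move by at most one unit -/
theorem move4_unit {as Mx : ℝ} (has : 0 ≤ as) (hMx : 1 / 7 ≤ Mx) (hE : B.EH as 0 = Mx) :
    ∃ τ₀ > (0 : ℝ), ∀ τ ≥ τ₀, ∃ C > (0 : ℝ), ∃ c > (0 : ℝ), ∃ n₀ > (0 : ℝ), ∀ (u n : ℝ), n₀ ≤ n → 0 ≤ u →
      len (fun s => B.repI b0 ⟨![s, s, n], ![τ, τ, as], fun _ => 0⟩) u (u + 1) ≤
        ENNReal.ofReal (C * Real.exp (-(c * n))) := by
  obtain ⟨τ₀, hτ₀, h⟩ := pm_MI5_main (B := B) has hMx hE {QI.dP 0, QI.dH 0, QI.dP 1, QI.dH 1} (by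
    ext p; simp only [LB, Set.mem_inter_iff, Set.mem_insert_iff, Set.mem_singleton_iff,
      Set.mem_empty_iff_false, iff_false]
    rintro ⟨rfl | rfl, h | h | h | h⟩ <;> cases h)
  refine ⟨τ₀, hτ₀, fun τ hτ => ?_⟩
  obtain ⟨C, hC, c, hc, u₀, hu₀, h⟩ := h τ hτ
  refine ⟨C, hC, c, hc, u₀, hu₀, fun u n hn _ => ?_⟩
  have key := h ⟨![0, 0, n], ![τ, τ, as], fun _ => 0⟩ ⟨![1, 1, 0], fun _ => 0, fun _ => 0⟩ u n hn ?_ ?_ ?_
  · simp only [pm_MI6_rayT] at key
    exact key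
  · intro i
    fin_cases i <;> simp
  · intro i
    fin_cases i <;> simp
  · intro s hs
    rw [pm_MI6_rayT]
    exact ⟨le_rfl, rfl, rfl, rfl, rfl⟩

theorem move4 {as Mx : ℝ} (has : 0 ≤ as) (hMx : 1 / 7 ≤ Mx) (hE : B.EH as 0 = Mx) :
    ∃ τ₀ > (0 : ℝ), ∀ τ ≥ τ₀, ∀ ε > (0 : ℝ), ∃ n₀ > (0 : ℝ), ∀ n ≥ n₀,
      dP (B.repI b0 ⟨![n, n, n], ![τ, τ, as], fun _ => 0⟩)
        (B.repI b0 ⟨![0, 0, n], ![τ, τ, as], fun _ => 0⟩) ≤ ENNReal.ofReal ε := by
  obtain ⟨τ₀, hτ₀, h⟩ := move4_unit (B := B) has hMx hE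
  refine ⟨τ₀, hτ₀, fun τ hτ ε hε => ?_⟩
  obtain ⟨C, hC, c, hc, u₀, hu₀, h⟩ := h τ hτ
  obtain ⟨T₁, hT₁⟩ := eventually_atTop.1 (pm_MI5_tend (C * (2 / c + 1)) (c / 2) (by positivity) hε)
  refine ⟨max u₀ T₁, lt_of_lt_of_le hu₀ (le_max_left _ _), fun n hn => ?_⟩
  have hnu : u₀ ≤ n := (le_max_left _ _).trans hn
  have hnT : T₁ ≤ n := (le_max_right _ _).trans hn
  have hn0 : 0 ≤ n := by linarith
  have h1 := dP_ray B b0 ⟨![0, 0, n], ![τ, τ, as], fun _ => 0⟩ ⟨![1, 1, 0], fun _ => 0, fun _ => 0⟩ hn0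
  simp only [pm_MI6_rayT] at h1
  rw [dP_symm]
  refine h1.trans ((pm_MI5_cut _ 0 ⌈n⌉₊ (by linarith [Nat.le_ceil n])).trans ?_)
  calc _ ≤ ∑ k ∈ Finset.range ⌈n⌉₊, ENNReal.ofReal (C * Real.exp (-(c * n))) := by
        refine Finset.sum_le_sum fun k _ => ?_
        have hk : (0 : ℝ) ≤ k := Nat.cast_nonneg k
        exact h (0 + k) n hnu (by linarith)
    _ = ENNReal.ofReal (⌈n⌉₊ * (C * Real.exp (-(c * n)))) := by
        rw [Finset.sum_const, Finset.card_range, nsmul_eq_mul,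
          ENNReal.ofReal_mul (Nat.cast_nonneg _), ENNReal.ofReal_natCast]
    _ ≤ ENNReal.ofReal ε := by
        apply ENNReal.ofReal_le_ofReal
        refine le_trans ?_ (hT₁ n hnT)
        have h2 : (⌈n⌉₊ : ℝ) ≤ n + 1 := (Nat.ceil_lt_add_one hn0).le
        have h3 : n + 1 ≤ (2 / c + 1) * Real.exp (c / 2 * n) := by
          have h4 := Real.add_one_le_exp (c / 2 * n)
          have h5 : 1 ≤ Real.exp (c / 2 * n) := Real.one_le_exp (by positivity)
          have h6 : n ≤ 2 / c * Real.exp (c / 2 * n) := by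
            have h7 : c / 2 * n ≤ Real.exp (c / 2 * n) := by linarith
            have h8 : 2 / c * (c / 2 * n) ≤ 2 / c * Real.exp (c / 2 * n) :=
              mul_le_mul_of_nonneg_left h7 (by positivity)
            have h9 : 2 / c * (c / 2 * n) = n := by field_simp
            linarith
          linarith
        have e1 : Real.exp (c / 2 * n) * Real.exp (-(c * n)) = Real.exp (-(c / 2 * n)) := by
          rw [← Real.exp_add]; congr 1; ring
        calc (⌈n⌉₊ : ℝ) * (C * Real.exp (-(c * n))) ≤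
              ((2 / c + 1) * Real.exp (c / 2 * n)) * (C * Real.exp (-(c * n))) :=
              mul_le_mul_of_nonneg_right (h2.trans h3) (by positivity)
          _ = C * (2 / c + 1) * (Real.exp (c / 2 * n) * Real.exp (-(c * n))) := by ring
          _ = _ := by rw [e1]

/-! ### twists and identifications -/

private theorem pm_MI7_eg (L : ℝ) : symMat (eg L) = diagonal (dgv 0 (-L)) := by
  have e1 : Real.exp (-(L / 2)) * Real.exp (-(L / 2)) = Real.exp (-L) := by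
    rw [← Real.exp_add]; congr 1; ring
  have e2 : Real.exp (L / 2) * Real.exp (L / 2) = Real.exp L := by
    rw [← Real.exp_add]; congr 1; ring
  have e3 : Real.exp (-(L / 2)) * Real.exp (L / 2) = 1 := by
    rw [← Real.exp_add]; simp
  ext i j
  fin_cases i <;> fin_cases j <;> simp [symMat, eg, dgv, e1, e2, e3]

private theorem pm_MI7_dgv (a ϑ ϑ' : ℝ) : diagonal (dgv a ϑ) * diagonal (dgv 0 ϑ') =
    (diagonal (dgv a (ϑ + ϑ')) : M3) := by
  rw [diagonal_mul_diagonal]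
  congr 1
  ext i
  fin_cases i
  · simp only [dgv, Fin.zero_eta, cons_val_zero]
    rw [← Real.exp_add]; congr 1; ring
  · simp [dgv]
  · simp only [dgv, Fin.reduceFinMk, cons_val]
    rw [← Real.exp_add]; congr 1; ring

private theorem pm_MI7_unit {A : M2} (h : A.det ≠ 0) : IsUnit (symMat A).det := by
  rw [symMat_det]
  exact isUnit_iff_ne_zero.mpr (pow_ne_zero 3 h)

private theorem pm_MI7_X (B : Base) (i : Fin 3) : symMat (B.X i) = cj (B.fp i) (dgv 0 (-B.Lm)) := by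
  have h : symMat (B.X i) * symMat (B.fp i) = symMat (B.fp i) * diagonal (dgv 0 (-B.Lm)) := by
    rw [← pm_MI7_eg, ← symMat_mul, ← symMat_mul]
    congr 1
    exact B.fp_eig i
  have hu : IsUnit (symMat (B.fp i)).det := pm_MI7_unit (by rw [B.fp_det]; norm_num)
  unfold cj
  rw [← h, Matrix.mul_assoc, Matrix.mul_nonsing_inv _ hu, Matrix.mul_one]

private theorem pm_MI7_Dm (B : Base) (i : Fin 3) (a th : ℝ) :
    B.Dm i a (th + 1) = B.Dm i a th * symMat (B.X i) := by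
  have hu : IsUnit (symMat (B.fp i)).det := pm_MI7_unit (by rw [B.fp_det]; norm_num)
  rw [pm_MI7_X]
  unfold Base.Dm cj
  have e : (symMat (B.fp i) * diagonal (dgv a (-(th * B.Lm))) * (symMat (B.fp i))⁻¹ *
      (symMat (B.fp i) * diagonal (dgv 0 (-B.Lm)) * (symMat (B.fp i))⁻¹)) =
      symMat (B.fp i) * (diagonal (dgv a (-(th * B.Lm))) * diagonal (dgv 0 (-B.Lm))) *
        (symMat (B.fp i))⁻¹ := by
    have := Matrix.nonsing_inv_mul _ hu
    calc _ = symMat (B.fp i) * diagonal (dgv a (-(th * B.Lm))) * ((symMat (B.fp i))⁻¹ *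
        symMat (B.fp i)) * (diagonal (dgv 0 (-B.Lm)) * (symMat (B.fp i))⁻¹) := by
          simp only [Matrix.mul_assoc]
      _ = _ := by rw [this, Matrix.mul_one]; simp only [Matrix.mul_assoc]
  rw [e, pm_MI7_dgv]
  congr 4
  ring

private theorem pm_MI7_hY (B : Base) (i : Fin 3) (a th : ℝ) :
    B.hY i a (th + 1) = B.hY i a th * B.hX i := by
  unfold Base.hY Base.hX
  rw [pm_MI7_Dm, Matrix.mul_assoc]

/-- `act f ρ' = ρ` if `ρ' = ρ ∘ f` -/
private theorem pm_MI7_act {f : MulAut Surf} {ρ ρ' : Rep} (h : ρ' = ρ.comp f.toMonoidHom) :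
    act f ρ' = ρ := by
  rw [h]
  refine MonoidHom.ext fun γ => ?_
  show ρ (f ((f⁻¹ : MulAut Surf) γ)) = ρ γ
  rw [MulAut.apply_inv_self]

private theorem pm_MI7_gI {b : Fin 3 → Bool} {z z' : ZI} (ht : z'.t = z.t) (i : Fin 3) :
    B.gI b z' i = B.gI b z i := by
  unfold Base.gI Base.Zb
  rw [ht]

private theorem pm_MI7_conj (g A C : M3) (hg : g.det ≠ 0) :
    g * (A * C) * g⁻¹ = g * A * g⁻¹ * (g * C * g⁻¹) := by
  have hu : g⁻¹ * g = 1 := Matrix.nonsing_inv_mul _ (isUnit_iff_ne_zero.mpr hg)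
  calc g * (A * C) * g⁻¹ = g * A * 1 * C * g⁻¹ := by simp only [Matrix.mul_assoc, Matrix.mul_one]
    _ = _ := by rw [← hu]; simp only [Matrix.mul_assoc]

theorem twistX (z z' : ZI) (ht : z'.t = z.t) (ha : z'.a = z.a)
    (hth : z'.th 0 = z.th 0 + 1) (hth1 : z'.th 1 = z.th 1) (hth2 : z'.th 2 = z.th 2)
    (f : MulAut Surf) (hf : IsTwX 0 f) : act f (B.repI b0 z') = B.repI b0 z := by
  obtain ⟨f1, f2, f3⟩ := hf
  apply pm_MI7_act
  apply surf_ext
  · intro i
    show B.repI b0 z' (sx i) = B.repI b0 z (f (sx i))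
    rw [f1]
    apply Subtype.ext
    rw [B.repI_x, B.repI_x]
    unfold Base.mX
    rw [pm_MI7_gI ht]
    simp [b0]
  · intro i
    show B.repI b0 z' (sy i) = B.repI b0 z (f (sy i))
    by_cases hi : i = 0
    · subst hi
      rw [f3, map_mul]
      apply Subtype.ext
      rw [Matrix.SpecialLinearGroup.coe_mul, B.repI_x, B.repI_y, B.repI_y]
      unfold Base.mX Base.mY
      rw [pm_MI7_gI ht, ← pm_MI7_conj _ _ _ (B.gI_det b0 z 0)]
      simp only [b0, Bool.false_eq_true, if_false]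
      rw [ha, hth, pm_MI7_hY]
    · rw [f2 i hi]
      apply Subtype.ext
      rw [B.repI_y, B.repI_y]
      unfold Base.mY
      have h : z'.th i = z.th i := by
        revert hi; fin_cases i
        · intro h; exact absurd rfl h
        · intro _; exact hth1
        · intro _; exact hth2
      rw [pm_MI7_gI ht, ha, h]

theorem twistY (z z' : ZI) (ht : z'.t = z.t) (ha : z'.a = z.a)
    (hth : z'.th 0 = z.th 0 + 1) (hth1 : z'.th 1 = z.th 1) (hth2 : z'.th 2 = z.th 2)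
    (f : MulAut Surf) (hf : IsTwY 0 f) : act f (B.repI by0 z') = B.repI by0 z := by
  obtain ⟨f1, f2, f3⟩ := hf
  apply pm_MI7_act
  apply surf_ext
  · intro i
    show B.repI by0 z' (sx i) = B.repI by0 z (f (sx i))
    by_cases hi : i = 0
    · subst hi
      rw [f3, map_mul]
      apply Subtype.ext
      rw [Matrix.SpecialLinearGroup.coe_mul, B.repI_x, B.repI_x, B.repI_y]
      unfold Base.mX Base.mY
      rw [pm_MI7_gI ht, ← pm_MI7_conj _ _ _ (B.gI_det by0 z 0)]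
      simp only [by0, decide_true, if_true]
      rw [ha, hth, pm_MI7_hY]
    · rw [f2 i hi]
      apply Subtype.ext
      rw [B.repI_x, B.repI_x]
      unfold Base.mX
      rw [pm_MI7_gI ht]
      simp [by0, hi]
  · intro i
    show B.repI by0 z' (sy i) = B.repI by0 z (f (sy i))
    rw [f1]
    apply Subtype.ext
    rw [B.repI_y, B.repI_y]
    unfold Base.mY
    rw [pm_MI7_gI ht]
    by_cases hi : i = 0
    · simp [by0, hi]
    · have h : z'.th i = z.th i := by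
        revert hi; fin_cases i
        · intro h; exact absurd rfl h
        · intro _; exact hth1
        · intro _; exact hth2
      rw [ha, h]

private theorem pm_MI7_hY0 (B : Base) (i : Fin 3) : B.hY i 0 0 = symMat (B.Y i) := by
  have hu : IsUnit (symMat (B.fp i)).det := pm_MI7_unit (by rw [B.fp_det]; norm_num)
  have hd : (diagonal (dgv 0 (-(0 * B.Lm))) : M3) = 1 := by
    ext i j
    fin_cases i <;> fin_cases j <;> simp [dgv]
  unfold Base.hY Base.Dm cj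
  rw [hd, Matrix.mul_one, Matrix.mul_nonsing_inv _ hu, Matrix.mul_one]

private theorem pm_MI7_sw (B : Base) (i : Fin 3) (Z : M3) {A C : M2} (h : B.sw i * A = C * B.sw i) :
    Z * symMat (B.sw i) * symMat A * (Z * symMat (B.sw i))⁻¹ = Z * symMat C * Z⁻¹ := by
  have hu : IsUnit (symMat (B.sw i)).det := pm_MI7_unit (by rw [B.sw_det]; norm_num)
  rw [Matrix.mul_inv_rev]
  calc Z * symMat (B.sw i) * symMat A * ((symMat (B.sw i))⁻¹ * Z⁻¹)
      = Z * symMat (B.sw i * A) * (symMat (B.sw i))⁻¹ * Z⁻¹ := by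
        rw [symMat_mul]; simp only [Matrix.mul_assoc]
    _ = Z * symMat C * (symMat (B.sw i) * (symMat (B.sw i))⁻¹) * Z⁻¹ := by
        rw [h, symMat_mul]; simp only [Matrix.mul_assoc]
    _ = _ := by rw [Matrix.mul_nonsing_inv _ hu, Matrix.mul_one]

/-- at a Fuchsian handle the two types agree -/
theorem type_change (z : ZI) (ha : z.a 0 = 0) (hth : z.th 0 = 0) : B.repI by0 z = B.repI b0 z := by
  apply surf_ext
  · intro i
    apply Subtype.ext
    rw [B.repI_x, B.repI_x]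
    unfold Base.mX Base.gI
    by_cases hi : i = 0
    · subst hi
      simp only [by0, b0, decide_true, if_true, Bool.false_eq_true, if_false]
      rw [ha, hth, pm_MI7_hY0, pm_MI7_sw B 0 _ (B.sw_Y 0), Matrix.mul_one]
      rfl
    · simp [by0, b0, hi]
  · intro i
    apply Subtype.ext
    rw [B.repI_y, B.repI_y]
    unfold Base.mY Base.gI
    by_cases hi : i = 0
    · subst hi
      simp only [by0, b0, decide_true, if_true, Bool.false_eq_true, if_false]
      rw [ha, hth, pm_MI7_hY0, Matrix.mul_one]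
      exact pm_MI7_sw B 0 _ (B.sw_X 0)
    · simp [by0, b0, hi]

/-- the rotation automorphism -/
private theorem pm_MI7_aut : ∃ σ : MulAut Surf, (∀ i, σ (sx i) = sx (i + 1)) ∧
    (∀ i, σ (sy i) = sy (i + 1)) := by
  have hr : dd 0 * dd 1 * dd 2 = 1 := surf_rel
  have h1 : com (sx 1) (sy 1) * com (sx 2) (sy 2) * com (sx 0) (sy 0) = 1 := by
    show dd 1 * dd 2 * dd 0 = 1
    have e : dd 1 * dd 2 * dd 0 = (dd 0)⁻¹ * (dd 0 * dd 1 * dd 2) * dd 0 := by group
    rw [e, hr]; group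
  have h2 : com (sx 2) (sy 2) * com (sx 0) (sy 0) * com (sx 1) (sy 1) = 1 := by
    show dd 2 * dd 0 * dd 1 = 1
    have e : dd 2 * dd 0 * dd 1 = dd 2 * (dd 0 * dd 1 * dd 2) * (dd 2)⁻¹ := by group
    rw [e, hr]; group
  obtain ⟨φ, hφx, hφy⟩ := surf_lift (fun i : Fin 3 => sx (i + 1)) (fun i : Fin 3 => sy (i + 1)) h1
  obtain ⟨ψ, hψx, hψy⟩ := surf_lift (fun i : Fin 3 => sx (i + 2)) (fun i : Fin 3 => sy (i + 2)) h2
  have e1 : ∀ i : Fin 3, i + 1 + 2 = i := by decide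
  have e2 : ∀ i : Fin 3, i + 2 + 1 = i := by decide
  have c1 : ψ.comp φ = MonoidHom.id Surf := by
    apply surf_ext
    · intro i
      show ψ (φ (sx i)) = sx i
      rw [hφx, hψx, e1]
    · intro i
      show ψ (φ (sy i)) = sy i
      rw [hφy, hψy, e1]
  have c2 : φ.comp ψ = MonoidHom.id Surf := by
    apply surf_ext
    · intro i
      show φ (ψ (sx i)) = sx i
      rw [hψx, hφx, e2]
    · intro i
      show φ (ψ (sy i)) = sy i
      rw [hψy, hφy, e2]
  exact ⟨MonoidHom.toMulEquiv φ ψ c1 c2, hφx, hφy⟩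

private theorem pm_MI7_ofmul {S A A' : M3} (hS : IsUnit S.det) (h : A' * S = S * A) :
    A' = S * A * S⁻¹ := by
  rw [← h, Matrix.mul_assoc, Matrix.mul_nonsing_inv _ hS, Matrix.mul_one]

private theorem pm_MI7_conj3 {S : M3} (hS : IsUnit S.det) (P Q T : M3) :
    (S * P * S⁻¹) * (S * Q * S⁻¹) * (S * T * S⁻¹) = S * (P * Q * T) * S⁻¹ := by
  have hu : S⁻¹ * S = 1 := Matrix.nonsing_inv_mul _ hS
  calc (S * P * S⁻¹) * (S * Q * S⁻¹) * (S * T * S⁻¹)
      = S * P * (S⁻¹ * S) * Q * (S⁻¹ * S) * T * S⁻¹ := by simp only [Matrix.mul_assoc]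
    _ = _ := by rw [hu]; simp only [Matrix.mul_assoc, Matrix.mul_one]

private theorem pm_MI7_conj2 {S : M3} (hS : IsUnit S.det) (P Q : M3) :
    (S * P * S⁻¹) * (S * Q * S⁻¹) = S * (P * Q) * S⁻¹ := by
  have hu : S⁻¹ * S = 1 := Matrix.nonsing_inv_mul _ hS
  calc (S * P * S⁻¹) * (S * Q * S⁻¹)
      = S * P * (S⁻¹ * S) * Q * S⁻¹ := by simp only [Matrix.mul_assoc]
    _ = _ := by rw [hu]; simp only [Matrix.mul_assoc, Matrix.mul_one]

private theorem pm_MI7_inv {S : M3} (hS : IsUnit S.det) (P : M3) :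
    (S * P * S⁻¹)⁻¹ = S * P⁻¹ * S⁻¹ := by
  rw [Matrix.mul_inv_rev, Matrix.mul_inv_rev, Matrix.nonsing_inv_nonsing_inv _ hS, Matrix.mul_assoc]

private theorem pm_MI7_cj {S : M3} {f f' : M2} (d : Fin 3 → ℝ) (h : symMat f' = S * symMat f) :
    cj f' d = S * cj f d * S⁻¹ := by
  unfold cj
  rw [h, Matrix.mul_inv_rev]
  simp only [Matrix.mul_assoc]

/-- at the symmetric parameters the handle `i+1` is the rotated handle `i` -/
private theorem pm_MI7_rot (B : Base) (n a : ℝ) (i : Fin 3) :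
    B.mX b0 ⟨fun _ => n, fun _ => a, fun _ => 0⟩ (i + 1) =
      symMat B.rt * B.mX b0 ⟨fun _ => n, fun _ => a, fun _ => 0⟩ i * (symMat B.rt)⁻¹ ∧
    B.mY b0 ⟨fun _ => n, fun _ => a, fun _ => 0⟩ (i + 1) =
      symMat B.rt * B.mY b0 ⟨fun _ => n, fun _ => a, fun _ => 0⟩ i * (symMat B.rt)⁻¹ := by
  have hS : IsUnit (symMat B.rt).det := pm_MI7_unit (by rw [B.rt_det]; norm_num)
  have hZ : B.Zb ⟨fun _ => n, fun _ => a, fun _ => 0⟩ (i + 1) =
      symMat B.rt * B.Zb ⟨fun _ => n, fun _ => a, fun _ => 0⟩ i * (symMat B.rt)⁻¹ :=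
    pm_MI7_cj _ (B.fd_rot i)
  have hD : B.Dm (i + 1) a 0 = symMat B.rt * B.Dm i a 0 * (symMat B.rt)⁻¹ :=
    pm_MI7_cj _ (B.fp_rot i)
  have hX : B.hX (i + 1) = symMat B.rt * B.hX i * (symMat B.rt)⁻¹ := by
    apply pm_MI7_ofmul hS
    unfold Base.hX
    rw [← symMat_mul, ← symMat_mul, B.X_rot]
  have hY : B.hY (i + 1) a 0 = symMat B.rt * B.hY i a 0 * (symMat B.rt)⁻¹ := by
    have hY' : symMat (B.Y (i + 1)) = symMat B.rt * symMat (B.Y i) * (symMat B.rt)⁻¹ := by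
      apply pm_MI7_ofmul hS
      rw [← symMat_mul, ← symMat_mul, B.Y_rot]
    unfold Base.hY
    rw [hY', hD, pm_MI7_conj2 hS]
  constructor
  · unfold Base.mX Base.gI
    simp only [b0, Bool.false_eq_true, if_false, Matrix.mul_one]
    rw [hZ, hX, pm_MI7_inv hS, pm_MI7_conj3 hS]
  · unfold Base.mY Base.gI
    simp only [b0, Bool.false_eq_true, if_false, Matrix.mul_one]
    rw [hZ, hY, pm_MI7_inv hS, pm_MI7_conj3 hS]

private theorem pm_MI7_back {S A A' : M3} (hS : IsUnit S.det) (h : A = S * A' * S⁻¹) :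
    A' = S⁻¹ * A * S := by
  have hu : S⁻¹ * S = 1 := Matrix.nonsing_inv_mul _ hS
  rw [h]
  calc A' = (S⁻¹ * S) * A' * (S⁻¹ * S) := by rw [hu, Matrix.one_mul, Matrix.mul_one]
    _ = _ := by simp only [Matrix.mul_assoc]

/-- rotation symmetry of the base states -/
theorem rotation (n a : ℝ) : ∃ σ : MulAut Surf, (∀ i, σ (sx i) = sx (i + 1)) ∧ (∀ i, σ (sy i) = sy (i + 1)) ∧
    ∃ g : SL(3, ℝ), act σ (B.repI b0 ⟨fun _ => n, fun _ => a, fun _ => 0⟩) =
      (MulAut.conj g).toMonoidHom.comp (B.repI b0 ⟨fun _ => n, fun _ => a, fun _ => 0⟩) := by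
  obtain ⟨σ, hx, hy⟩ := pm_MI7_aut
  have hS : IsUnit (symMat B.rt).det := pm_MI7_unit (by rw [B.rt_det]; norm_num)
  have hS1 : (symMat B.rt).det = 1 := by rw [symMat_det, B.rt_det]; norm_num
  have e2 : ∀ i : Fin 3, i + 2 + 1 = i := by decide
  let S : SL(3, ℝ) := ⟨symMat B.rt, hS1⟩
  have hSi : ((S⁻¹ : SL(3, ℝ)) : M3) = (symMat B.rt)⁻¹ := by
    have h1 : ((S⁻¹ : SL(3, ℝ)) : M3) * symMat B.rt = 1 := by
      have h2 : ((S⁻¹ * S : SL(3, ℝ)) : M3) = ((1 : SL(3, ℝ)) : M3) := by rw [inv_mul_cancel]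
      rw [Matrix.SpecialLinearGroup.coe_mul, Matrix.SpecialLinearGroup.coe_one] at h2
      exact h2
    exact (Matrix.inv_eq_left_inv h1).symm
  have sx' : ∀ i, (σ⁻¹ : MulAut Surf) (sx i) = sx (i + 2) := by
    intro i
    have h : σ (sx (i + 2)) = sx i := by rw [hx, e2]
    rw [← h, MulAut.inv_apply_self]
  have sy' : ∀ i, (σ⁻¹ : MulAut Surf) (sy i) = sy (i + 2) := by
    intro i
    have h : σ (sy (i + 2)) = sy i := by rw [hy, e2]
    rw [← h, MulAut.inv_apply_self]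
  refine ⟨σ, hx, hy, S⁻¹, ?_⟩
  apply surf_ext
  · intro i
    show B.repI b0 _ ((σ⁻¹ : MulAut Surf) (sx i)) = S⁻¹ * B.repI b0 _ (sx i) * (S⁻¹)⁻¹
    rw [sx', inv_inv]
    apply Subtype.ext
    rw [Matrix.SpecialLinearGroup.coe_mul, Matrix.SpecialLinearGroup.coe_mul, B.repI_x, B.repI_x, hSi]
    have h := (pm_MI7_rot B n a (i + 2)).1
    rw [e2] at h
    exact pm_MI7_back hS h
  · intro i
    show B.repI b0 _ ((σ⁻¹ : MulAut Surf) (sy i)) = S⁻¹ * B.repI b0 _ (sy i) * (S⁻¹)⁻¹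
    rw [sy', inv_inv]
    apply Subtype.ext
    rw [Matrix.SpecialLinearGroup.coe_mul, Matrix.SpecialLinearGroup.coe_mul, B.repI_y, B.repI_y, hSi]
    have h := (pm_MI7_rot B n a (i + 2)).2
    rw [e2] at h
    exact pm_MI7_back hS h

end

end

end PM3
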