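import Pool.Agent.LibPM3.CompII
import Pool.Agent.LibPM3.MovI

/-! Moves in family II. -/

namespace PM3
open Matrix Filter Topology
open scoped MatrixGroups

noncomputable section

/-- entrywise smooth paths of matrices -/
def pm_MII1_SM (A : ℝ → M3) : Prop := ∀ i j, ContDiff ℝ (⊤ : ℕ∞) (fun s => A s i j)

theorem pm_MII1_const (A : M3) : pm_MII1_SM (fun _ => A) := fun _ _ => contDiff_const

theorem pm_MII1_mul {A C : ℝ → M3} (hA : pm_MII1_SM A) (hC : pm_MII1_SM C) :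
    pm_MII1_SM (fun s => A s * C s) := by
  intro i j
  simp only [Matrix.mul_apply, Fin.sum_univ_three]
  exact (((hA _ _).mul (hC _ _)).add ((hA _ _).mul (hC _ _))).add ((hA _ _).mul (hC _ _))

theorem pm_MII1_inv {A : ℝ → M3} (hA : pm_MII1_SM A) (hd : ∀ s, (A s).det ≠ 0) :
    pm_MII1_SM (fun s => (A s)⁻¹) := by
  have h2 : ∀ a b c d : Fin 3, ContDiff ℝ (⊤ : ℕ∞) (fun s => A s a b * A s c d) :=
    fun a b c d => (hA a b).mul (hA c d)
  have hdet : ContDiff ℝ (⊤ : ℕ∞) (fun s => (A s).det) := by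
    simp only [Matrix.det_fin_three]
    have h3 : ∀ a b c d e f : Fin 3, ContDiff ℝ (⊤ : ℕ∞) (fun s => A s a b * A s c d * A s e f) :=
      fun a b c d e f => (h2 a b c d).mul (hA e f)
    exact (((((h3 _ _ _ _ _ _).sub (h3 _ _ _ _ _ _)).sub (h3 _ _ _ _ _ _)).add
      (h3 _ _ _ _ _ _)).add (h3 _ _ _ _ _ _)).sub (h3 _ _ _ _ _ _)
  have hadj : pm_MII1_SM (fun s => (A s).adjugate) := by
    intro i j
    simp only [Matrix.adjugate_fin_three]
    fin_cases i <;> fin_cases j <;>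
      simp only [Fin.zero_eta, Fin.mk_one, Fin.reduceFinMk, Matrix.of_apply, Matrix.cons_val] <;>
      first
        | exact (h2 _ _ _ _).sub (h2 _ _ _ _)
        | exact (h2 _ _ _ _).neg.add (h2 _ _ _ _)
  intro i j
  have e : (fun s => (A s)⁻¹ i j) = fun s => ((A s).det)⁻¹ * (A s).adjugate i j := by
    funext s
    rw [Matrix.inv_def, Ring.inverse_eq_inv', Matrix.smul_apply, smul_eq_mul]
  rw [e]
  exact (hdet.inv hd).mul (hadj i j)

theorem pm_MII1_cj (f : M2) {a th : ℝ → ℝ} (ha : ContDiff ℝ (⊤ : ℕ∞) a) (hth : ContDiff ℝ (⊤ : ℕ∞) th) :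
    pm_MII1_SM (fun s => cj f (dgv (a s) (th s))) := by
  unfold cj
  refine pm_MII1_mul (pm_MII1_mul (pm_MII1_const _) ?_) (pm_MII1_const _)
  intro i j
  by_cases h : i = j
  · subst h
    simp only [Matrix.diagonal_apply_eq, dgv]
    fin_cases i
    · exact (ha.add hth).exp
    · exact (contDiff_const.mul ha).neg.exp
    · exact (ha.sub hth).exp
  · simp only [Matrix.diagonal_apply_ne _ h]
    exact contDiff_const

theorem pm_MII1_e1 (c x y w : ℝ) (h : x = y + w) :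
    c * Real.exp x = c * Real.exp y * Real.exp w := by
  rw [h, Real.exp_add, mul_assoc]

theorem pm_MII1_e2 (c x y w : ℝ) (h : -x = -y + w) :
    (c * Real.exp x)⁻¹ = (c * Real.exp y)⁻¹ * Real.exp w := by
  rw [mul_inv, mul_inv, ← Real.exp_neg, ← Real.exp_neg, h, Real.exp_add, mul_assoc]

theorem pm_MII1_e3 (x y w : ℝ) (h : x = y + w) :
    Real.exp x = Real.exp y * Real.exp w := by
  rw [h, Real.exp_add]

theorem pm_MII1_e4 (x y w : ℝ) (h : -x = -y + w) :
    (Real.exp x)⁻¹ = (Real.exp y)⁻¹ * Real.exp w := by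
  rw [← Real.exp_neg, ← Real.exp_neg, h, Real.exp_add]


section
variable (B : Base)

def rayII (z : ZII) (u1 u2 : ℝ) (s : ℝ) : ZII where
  t2 := z.t2
  a := z.a
  th := z.th
  ac := z.ac + s * u1
  tc := z.tc + s * u2

theorem smooth_rayII (z : ZII) (u1 u2 : ℝ) : SmoothPath (fun s => B.repII (rayII z u1 u2 s)) := by
  have haff : ∀ x y : ℝ, ContDiff ℝ (⊤ : ℕ∞) (fun s : ℝ => x + s * y) := fun x y =>
    contDiff_const.add (contDiff_id.mul contDiff_const)
  have hz : pm_MII1_SM (fun s => B.Zc (rayII z u1 u2 s)) :=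
    pm_MII1_cj _ (haff _ _) ((haff _ _).mul contDiff_const).neg
  have hzi : pm_MII1_SM (fun s => (B.Zc (rayII z u1 u2 s))⁻¹) :=
    pm_MII1_inv hz (fun s => by rw [B.Zc_det]; exact one_ne_zero)
  apply smoothPath_of_gens
  intro k i j
  constructor
  · simp only [Base.repII_x, Base.mX']
    by_cases h0 : k = 0
    · simp only [h0, if_true]
      exact (contDiff_const : ContDiff ℝ (⊤ : ℕ∞) (fun _ : ℝ => (B.hX 0) i j))
    · by_cases h1 : k = 1
      · subst h1
        simp only [show (1 : Fin 3) ≠ 0 by decide, if_false, if_true]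
        exact pm_MII1_mul (pm_MII1_mul hz (pm_MII1_const (B.hX 1))) hzi i j
      · simp only [h0, h1, if_false]
        exact (contDiff_const : ContDiff ℝ (⊤ : ℕ∞)
          (fun _ : ℝ => (B.Z2 z * B.hX 2 * (B.Z2 z)⁻¹) i j))
  · simp only [Base.repII_y, Base.mY']
    by_cases h0 : k = 0
    · simp only [h0, if_true]
      exact pm_MII1_mul hz (pm_MII1_const (B.hY 0 (z.a 0) (z.th 0))) i j
    · by_cases h1 : k = 1
      · subst h1
        simp only [show (1 : Fin 3) ≠ 0 by decide, if_false, if_true]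
        exact pm_MII1_mul (pm_MII1_const (B.hY 1 (z.a 1) (z.th 1))) hzi i j
      · simp only [h0, h1, if_false]
        exact (contDiff_const : ContDiff ℝ (⊤ : ℕ∞)
          (fun _ : ℝ => (B.Z2 z * B.hY 2 (z.a 2) (z.th 2) * (B.Z2 z)⁻¹) i j))

/-- logarithmic derivatives of the crossing diagonals along a ray -/
def pm_MII1_hd (u1 u2 : ℝ) : QII → Fin 3 → ℝ
  | QII.cQ => ![u1 + u2 * B.Lc, -(2 * u1), u1 - u2 * B.Lc]
  | QII.cP => ![-(u1 - u2 * B.Lc), 2 * u1, -(u1 + u2 * B.Lc)]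
  | _ => 0

theorem defPath_rayII (z : ZII) (u1 u2 : ℝ) (h1 : |u1| ≤ 1) (h2 : |u2| ≤ 1) :
    ∃ hd, DefPath B.psII (rayII z u1 u2) {QII.cQ, QII.cP} hd (2 + B.Lc) := by
  refine ⟨pm_MII1_hd B u1 u2, ?_, ?_, ?_⟩
  · intro p s i
    show B.D0II p (rayII z u1 u2 s) i =
      B.D0II p (rayII z u1 u2 0) i * Real.exp (s * pm_MII1_hd B u1 u2 p i)
    cases p with
    | dP2 => simp [pm_MII1_hd, Base.D0II, rayII]
    | dH2 => simp [pm_MII1_hd, Base.D0II, rayII]
    | mp k => simp [pm_MII1_hd, Base.D0II, Base.dMM', rayII]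
    | mm k => simp [pm_MII1_hd, Base.D0II, Base.dMM', rayII]
    | cQ =>
      fin_cases i
      · exact pm_MII1_e3 _ _ _ (by simp only [rayII, pm_MII1_hd, Fin.zero_eta, Matrix.cons_val]; ring)
      · exact pm_MII1_e3 _ _ _ (by simp only [rayII, pm_MII1_hd, Fin.mk_one, Matrix.cons_val]; ring)
      · exact pm_MII1_e3 _ _ _ (by simp only [rayII, pm_MII1_hd, Fin.reduceFinMk, Matrix.cons_val]; ring)
    | cP =>
      fin_cases i
      · exact pm_MII1_e4 _ _ _ (by simp only [rayII, pm_MII1_hd, Fin.zero_eta, Matrix.cons_val]; ring)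
      · exact pm_MII1_e4 _ _ _ (by simp only [rayII, pm_MII1_hd, Fin.mk_one, Matrix.cons_val]; ring)
      · exact pm_MII1_e4 _ _ _ (by simp only [rayII, pm_MII1_hd, Fin.reduceFinMk, Matrix.cons_val]; ring)
  · intro p i
    have hL := B.hLc
    have h4 : |u2 * B.Lc| ≤ B.Lc := by
      rw [abs_mul, abs_of_pos hL]
      nlinarith [abs_nonneg u2]
    have h5 : |u1 + u2 * B.Lc| ≤ 2 + B.Lc :=
      (abs_add_le _ _).trans (by linarith)
    have h6 : |u1 - u2 * B.Lc| ≤ 2 + B.Lc :=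
      (abs_sub _ _).trans (by linarith)
    have h7 : |2 * u1| ≤ 2 + B.Lc := by
      rw [abs_mul, abs_two]; linarith
    have h8 : |(0 : ℝ)| ≤ 2 + B.Lc := by rw [abs_zero]; linarith
    cases p with
    | dP2 => exact h8
    | dH2 => exact h8
    | mp k => exact h8
    | mm k => exact h8
    | cQ =>
      fin_cases i
      · exact h5
      · show |(-(2 * u1))| ≤ _
        rw [abs_neg]; exact h7
      · exact h6
    | cP =>
      fin_cases i
      · show |(-(u1 - u2 * B.Lc))| ≤ _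
        rw [abs_neg]; exact h6
      · exact h7
      · show |(-(u1 + u2 * B.Lc))| ≤ _
        rw [abs_neg]; exact h5
  · intro p hp
    cases p with
    | dP2 => rfl
    | dH2 => rfl
    | mp k => rfl
    | mm k => rfl
    | cQ => exact absurd (by simp) hp
    | cP => exact absurd (by simp) hp

theorem dP_rayII (z : ZII) (u1 u2 : ℝ) {x y : ℝ} (hxy : x ≤ y) :
    dP (B.repII (rayII z u1 u2 x)) (B.repII (rayII z u1 u2 y)) ≤
      len (fun s => B.repII (rayII z u1 u2 s)) x y :=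
  sInf_le (Reach.path (fun s => B.repII (rayII z u1 u2 s)) x y hxy (smooth_rayII B z u1 u2)
    (fun _ _ => repII_hit (B := B) _))

/-- a full twist multiplies `Zc` by the matrix of `c` -/
theorem pm_MII1_Zc (z z' : ZII) (hac : z'.ac = z.ac) (htc : z'.tc = z.tc + 1) :
    B.Zc z' = (B.repII z (cc 0) : M3) * B.Zc z := by
  have hd : (symMat B.fc).det ≠ 0 := by
    rw [symMat_det, B.fc_det]; norm_num
  have hu : IsUnit (symMat B.fc).det := isUnit_iff_ne_zero.mpr hd
  have h1 : (B.repII z (cc 0) : M3) * symMat B.fc = symMat B.fc * Cd B.Lc 1 := B.rcII QII.cQ z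
  have h2 : diagonal (dgv z'.ac (-(z'.tc * B.Lc))) =
      Cd B.Lc 1 * diagonal (dgv z.ac (-(z.tc * B.Lc))) := by
    rw [Cd, Matrix.diagonal_mul_diagonal]
    congr 1
    funext i
    rw [hac, htc]
    fin_cases i
    · show Real.exp _ = Real.exp _ * Real.exp _
      rw [← Real.exp_add]; congr 1; push_cast; ring
    · show Real.exp _ = 1 * Real.exp _
      rw [one_mul]
    · show Real.exp _ = Real.exp _ * Real.exp _
      rw [← Real.exp_add]; congr 1; push_cast; ring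
  unfold Base.Zc cj
  rw [h2, ← Matrix.mul_assoc, ← Matrix.mul_assoc, ← h1]
  simp only [Matrix.mul_assoc]

end

section
variable {B : Base}

theorem pm_MII2_lim (z : ZII) (h0 : 0 ≤ z.a 2) (h1 : 0 ≤ z.th 2) (h2 : z.th 2 ≤ 1) :
    ∃ E, Tendsto (fun T : ℝ => Real.log ((nX (BH 2) (B.psII.N QII.dH2 z) T).ncard) / T) atTop (𝓝 E) := by
  obtain ⟨C, hC, hg⟩ := handle_growth B (z.a 2)
  obtain ⟨-, -, -, hlim, -⟩ := hg (z.a 2) (z.th 2) h0 le_rfl h1 h2
  refine ⟨B.EH (z.a 2) (z.th 2), ?_⟩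
  have hset : ∀ T, nX (BH 2) (B.psII.N QII.dH2 z) T =
      phi false 2 '' nX (⊤ : Subgroup F2) (B.NH (z.a 2) (z.th 2)) T := by
    intro T
    ext g
    constructor
    · rintro ⟨hg1, hg2⟩
      rw [← phi_range false 2] at hg1
      obtain ⟨x, rfl⟩ := hg1
      refine ⟨x, ⟨Subgroup.mem_top _, ?_⟩, rfl⟩
      rw [← N_handle' B z x]
      exact hg2
    · rintro ⟨x, ⟨-, hx⟩, rfl⟩
      refine ⟨?_, ?_⟩
      · rw [← phi_range false 2]
        exact ⟨x, rfl⟩
      · rw [N_handle' B z x]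
        exact hx
  have hcard : ∀ T, (nX (BH 2) (B.psII.N QII.dH2 z) T).ncard =
      (nX (⊤ : Subgroup F2) (B.NH (z.a 2) (z.th 2)) T).ncard := by
    intro T
    rw [hset T]
    exact Set.ncard_image_of_injective _ (phi_inj false 2)
  simpa only [hcard] using hlim

theorem pm_MII2_h (z : ZII) (h0 : 0 ≤ z.a 2) (h1 : 0 ≤ z.th 2) (h2 : z.th 2 ≤ 1) :
    B.EH (z.a 2) (z.th 2) ≤ expo ⊤ (B.psII.N QII.dH2 z) := by
  rw [← expo_handle' B z]
  obtain ⟨-, -, hfin, hlim⟩ := closed_lim' B z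
  exact expo_mono le_top hfin ⟨_, hlim⟩ (pm_MII2_lim z h0 h1 h2)

theorem pm_MII2_tsum {I : Set QII} {at_ : QII → Bool} {v : Bool} (x : QII)
    (hx : x ∈ I ∧ at_ x = v) (hu : ∀ y, y ∈ I → at_ y = v → y = x) (f : QII → ENNReal) :
    ∑' e' : {e' : QII // e' ∈ I ∧ at_ e' = v}, f e' = f x := by
  rw [tsum_eq_single (⟨x, hx⟩ : {e' : QII // e' ∈ I ∧ at_ e' = v})]
  intro b hb
  exact absurd (Subtype.ext (hu b.1 b.2.1 b.2.2)) hb

theorem pm_MII2_sum {K κ : ℝ} {Φ : Finset (ZII → GL (Fin 3) ℝ)} (P : PkII B K κ Φ)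
    {as Mx κ₀ σ A₁ Cx Cg n : ℝ} (hκ₀ : 0 < κ₀) (hσ : 0 < σ) (hσ1 : σ ≤ 1) (hMx : 1 / 7 ≤ Mx)
    (hE : B.EH as 0 = Mx) (has : 0 ≤ as)
    (hk : 3 * κ₀ / Real.log (1 + κ) = Mx - 1 / 8)
    (hA₁ : 0 < A₁) (hCx : 0 < Cx) (hCg : 0 < Cg) (hn : 0 ≤ n)
    (hx : ∀ (p : QII) (z : ZII) (s : ℝ), 0 ≤ blII p z → 1 / 8 ≤ s →
      Xs B.psII z s p ≤ ENNReal.ofReal (Cx * Real.exp (-(s / 2) * blII p z)))
    (hg : ∀ s, B.EH as 0 < s → s ≤ B.EH as 0 + 1 →
      poin (⊤ : Subgroup F2) (B.NH as 0) s ≤ ENNReal.ofReal (Cg / (s - B.EH as 0) ^ 2))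
    (hsmall : Real.exp κ₀ * (Cx * Real.exp (-(n / 16))) * (K ^ (6 * κ₀ / Real.log (1 + κ)) *
      ((9 * K ^ 2) ^ (Mx + σ) * (Cg / σ ^ 2) + A₁)) ≤ 1 / 2)
    (z : ZII) (hz2 : z.t2 = n) (hza : z.a 2 = as) (hzt : z.th 2 = 0)
    (hR : ∀ s : ℝ, 1 / 8 ≤ s → s ≤ Mx + 1 →
      ∀ Λ, LR' ⊆ Λ → Zs B.psII K κ Λ RG z s QII.dP2 QII.dP2 ≤ ENNReal.ofReal A₁) :
    ∑' C : {C : ConjClasses Surf // C ≠ 1 ∧ icnt B.psII K κ Set.univ (Φ : Set _) {QII.cQ, QII.cP} C ≠ 0},
        ENNReal.ofReal (Real.exp (κ₀ * icnt B.psII K κ Set.univ (Φ : Set _) {QII.cQ, QII.cP} C) *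
          (lam (B.psII.r z (Quotient.out C.1) : M3)) ^ (-(Mx + σ))) < ⊤ := by
  have hlog : 0 < Real.log (1 + κ) := Real.log_pos (by linarith [P.hκ])
  have hK0 : 0 < K := by linarith [P.hK]
  have hvR := P.vR
  have hvB := P.vB
  have hgh := gh9' B
  have hsR : Mx + σ - 3 * κ₀ / Real.log (1 + κ) = 1 / 8 + σ := by rw [hk]; ring
  have hZR : Zs B.psII K κ LR' RG z (1 / 8 + σ) QII.dP2 QII.dP2 ≤ ENNReal.ofReal A₁ :=
    hR _ (by linarith) (by linarith) _ le_rfl
  have hZB : Zs B.psII K κ LB2 (BH 2) z (Mx + σ) QII.dH2 QII.dH2 ≤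
      ENNReal.ofReal ((9 * K ^ 2) ^ (Mx + σ) * (Cg / σ ^ 2)) := by
    refine (Zs_le_poin P.hκ.le z (by linarith) QII.dH2).trans ?_
    rw [poin_handle' B z (Mx + σ), hza, hzt, ENNReal.ofReal_mul (by positivity)]
    gcongr
    have := hg (Mx + σ) (by rw [hE]; linarith) (by rw [hE]; linarith)
    rw [hE] at this
    rwa [show Mx + σ - Mx = σ by ring] at this
  have hX : ∀ p, p = QII.dP2 ∨ p = QII.dH2 → Xs B.psII z (Mx + σ) p ≤
      ENNReal.ofReal (Cx * Real.exp (-(n / 16))) := by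
    intro p hp
    have hb : blII p z = n := by
      rcases hp with rfl | rfl <;> exact hz2
    refine (hx p z (Mx + σ) (by rw [hb]; exact hn) (by linarith)).trans ?_
    rw [hb]
    apply ENNReal.ofReal_le_ofReal
    apply mul_le_mul_of_nonneg_left _ hCx.le
    apply Real.exp_le_exp.2
    nlinarith
  refine closed_sum (ps := B.psII) (at_ := at9') (G := fun v => if v then BH 2 else RG)
    (S := fun v => if v then {QII.dH2} else {QII.dP2}) (I := {QII.dP2, QII.dH2}) hgh P.hκ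
    (Λv := fun v => if v then LB2 else LR') (Λ := Set.univ) (M := {QII.cQ, QII.cP})
    (Set.subset_univ _) (fun _ => Set.subset_univ _) ?_ (fun e _ => P.fj e) ?_ (Set.toFinite _)
    (by linarith) hκ₀.le (fun v => if v then Mx + σ else 1 / 8 + σ) z ?_ ?_
  · intro v
    cases v
    · simpa using hvR.1
    · simpa using hvB.1
  · intro v
    cases v
    · simpa using hvR.2
    · simpa using hvB.2
  · intro v
    cases v
    · right
      refine ⟨?_, ?_, QII.dP2, ?_⟩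
      · simp only [Bool.false_eq_true, if_false]
        exact hsR.symm
      · simp only [Bool.false_eq_true, if_false]
        linarith
      · simp only [Bool.false_eq_true, if_false]
        have hc : B.psII.c QII.dP2 ∈ RG := by
          have := hgh.hc QII.dP2 (by simp)
          simpa [at9'] using this
        refine lt_of_le_of_lt (poin_le_Zs P.hκ.le hvR.1 z (by linarith) (Set.mem_singleton _) hc) ?_
        exact ENNReal.mul_lt_top ENNReal.ofReal_lt_top (ENNReal.add_lt_top.2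
          ⟨ENNReal.one_lt_top, lt_of_le_of_lt hZR ENNReal.ofReal_lt_top⟩)
    · left
      refine ⟨?_, by simp⟩
      simp only [if_true]
      ext p
      simp only [LB2, Set.mem_inter_iff, Set.mem_insert_iff, Set.mem_singleton_iff, Set.mem_empty_iff_false,
        iff_false]
      rintro ⟨h1 | h1, h2 | h2⟩ <;> rw [h1] at h2 <;> cases h2
  · intro e he
    have hmain : ∀ Aq : ℝ, 0 ≤ Aq → Aq ≤ (9 * K ^ 2) ^ (Mx + σ) * (Cg / σ ^ 2) + A₁ →
        ENNReal.ofReal (Real.exp κ₀) * ENNReal.ofReal (Cx * Real.exp (-(n / 16))) *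
          (ENNReal.ofReal (K ^ (6 * κ₀ / Real.log (1 + κ))) * ENNReal.ofReal Aq) ≤ 1 / 2 := by
      intro Aq hAq hAq'
      rw [← ENNReal.ofReal_mul (by positivity), ← ENNReal.ofReal_mul (by positivity),
        ← ENNReal.ofReal_mul (by positivity)]
      have h12 : (1 / 2 : ENNReal) = ENNReal.ofReal (1 / 2) := by
        rw [ENNReal.ofReal_div_of_pos (by norm_num)]; simp
      rw [h12]
      apply ENNReal.ofReal_le_ofReal
      refine le_trans ?_ hsmall
      gcongr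
    rcases he with rfl | he
    · have hbar : B.psII.bar QII.dP2 = QII.dH2 := rfl
      rw [hbar]
      have hat : at9' QII.dH2 = true := rfl
      have ht := pm_MII2_tsum (I := {QII.dP2, QII.dH2}) (at_ := at9') (v := at9' QII.dH2) QII.dH2
        ⟨by simp, rfl⟩ (by
          intro y hy hy2
          rcases hy with rfl | hy
          · rw [hat] at hy2; simp [at9'] at hy2
          · exact hy)
        (fun e' => ENNReal.ofReal (K ^ (6 * κ₀ / Real.log (1 + κ))) *
          Zs B.psII K κ ((fun v => if v then LB2 else LR') (at9' QII.dH2))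
            ((fun v => if v then BH 2 else RG) (at9' QII.dH2)) z
            ((fun v => if v then Mx + σ else 1 / 8 + σ) (at9' QII.dH2)) QII.dH2 e')
      rw [ht]
      refine le_trans ?_ (hmain ((9 * K ^ 2) ^ (Mx + σ) * (Cg / σ ^ 2)) (by positivity) (by linarith))
      have h1 := hX QII.dP2 (Or.inl rfl)
      have h2 : Zs B.psII K κ ((fun v => if v then LB2 else LR') (at9' QII.dH2))
            ((fun v => if v then BH 2 else RG) (at9' QII.dH2)) z
            ((fun v => if v then Mx + σ else 1 / 8 + σ) (at9' QII.dH2)) QII.dH2 QII.dH2 ≤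
            ENNReal.ofReal ((9 * K ^ 2) ^ (Mx + σ) * (Cg / σ ^ 2)) := by
        rw [hat]; simpa using hZB
      gcongr
    · rw [Set.mem_singleton_iff] at he
      subst he
      have hbar : B.psII.bar QII.dH2 = QII.dP2 := rfl
      rw [hbar]
      have hat : at9' QII.dP2 = false := rfl
      have ht := pm_MII2_tsum (I := {QII.dP2, QII.dH2}) (at_ := at9') (v := at9' QII.dP2) QII.dP2
        ⟨by simp, rfl⟩ (by
          intro y hy hy2
          rcases hy with rfl | hy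
          · rfl
          · rw [Set.mem_singleton_iff] at hy
            subst hy
            rw [hat] at hy2; simp [at9'] at hy2)
        (fun e' => ENNReal.ofReal (K ^ (6 * κ₀ / Real.log (1 + κ))) *
          Zs B.psII K κ ((fun v => if v then LB2 else LR') (at9' QII.dP2))
            ((fun v => if v then BH 2 else RG) (at9' QII.dP2)) z
            ((fun v => if v then Mx + σ else 1 / 8 + σ) (at9' QII.dP2)) QII.dP2 e')
      rw [ht]
      refine le_trans ?_ (hmain A₁ hA₁.le (by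
        have : 0 ≤ (9 * K ^ 2) ^ (Mx + σ) * (Cg / σ ^ 2) := by positivity
        linarith))
      have h1 := hX QII.dH2 (Or.inr rfl)
      have h2 : Zs B.psII K κ ((fun v => if v then LB2 else LR') (at9' QII.dP2))
            ((fun v => if v then BH 2 else RG) (at9' QII.dP2)) z
            ((fun v => if v then Mx + σ else 1 / 8 + σ) (at9' QII.dP2)) QII.dP2 QII.dP2 ≤
            ENNReal.ofReal A₁ := by
        rw [hat]; simpa using hZR
      gcongr

theorem pm_MII2_len {C' κ₀ L : ℝ} (hC' : 0 < C') (hκ₀ : 0 < κ₀) (hL : 0 ≤ L) {ε : ℝ} (hε : 0 < ε) :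
    ∃ σ > (0 : ℝ), σ ≤ 1 ∧ σ / κ₀ ≤ 1 ∧ ∀ x, 0 ≤ x → x ≤ L → C' * (1 + x) * Real.sqrt (σ / κ₀) ≤ ε := by
  have hq : 0 < ε / (C' * (1 + L)) := by positivity
  refine ⟨min 1 (min κ₀ (κ₀ * (ε / (C' * (1 + L))) ^ 2)), by positivity, min_le_left _ _, ?_, ?_⟩
  · rw [div_le_one hκ₀]
    exact (min_le_right _ _).trans (min_le_left _ _)
  · intro x hx hxL
    have h1 : Real.sqrt (min 1 (min κ₀ (κ₀ * (ε / (C' * (1 + L))) ^ 2)) / κ₀) ≤ ε / (C' * (1 + L)) := by
      apply Real.sqrt_le_iff.2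
      refine ⟨hq.le, ?_⟩
      rw [div_le_iff₀ hκ₀]
      refine ((min_le_right _ _).trans (min_le_right _ _)).trans (le_of_eq ?_)
      ring
    calc C' * (1 + x) * Real.sqrt (min 1 (min κ₀ (κ₀ * (ε / (C' * (1 + L))) ^ 2)) / κ₀)
        ≤ C' * (1 + L) * (ε / (C' * (1 + L))) := by gcongr
      _ = ε := by field_simp

theorem pm_MII2_small {D : ℝ} (hD : 0 < D) : ∃ n₀ > (0 : ℝ), ∀ n ≥ n₀, D * Real.exp (-(n / 16)) ≤ 1 / 2 := by
  refine ⟨16 * (2 * D), by positivity, fun n hn => ?_⟩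
  have h1 : Real.exp (-(n / 16)) ≤ 1 / (2 * D) := by
    rw [Real.exp_neg, ← one_div]
    apply one_div_le_one_div_of_le (by positivity)
    have h2 : 2 * D ≤ n / 16 := by linarith
    have := Real.add_one_le_exp (n / 16)
    linarith
  calc D * Real.exp (-(n / 16)) ≤ D * (1 / (2 * D)) := by gcongr
    _ = 1 / 2 := by field_simp

/-- M5: handles 0, 1 weak, `d_2 = n`: bulging along `c` up to `τc`, then a full twist -/
theorem move5 {as Mx : ℝ} (has : 0 ≤ as) (hMx : 1 / 7 ≤ Mx) (hE : B.EH as 0 = Mx) :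
    ∃ τ₀ > (0 : ℝ), ∀ τ ≥ τ₀, ∃ τc > (0 : ℝ), ∀ ε > (0 : ℝ), ∃ n₀ > (0 : ℝ), ∀ n ≥ n₀,
      dP (B.repII ⟨n, ![τ, τ, as], fun _ => 0, 0, 0⟩) (B.repII ⟨n, ![τ, τ, as], fun _ => 0, τc, 0⟩) ≤
        ENNReal.ofReal ε ∧
      dP (B.repII ⟨n, ![τ, τ, as], fun _ => 0, τc, 0⟩) (B.repII ⟨n, ![τ, τ, as], fun _ => 0, τc, 1⟩) ≤
        ENNReal.ofReal ε := by
  obtain ⟨K, κ, Φ, P⟩ := exists_PkII B
  have hlog : 0 < Real.log (1 + κ) := Real.log_pos (by linarith [P.hκ])
  have hK0 : 0 < K := by linarith [P.hK]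
  obtain ⟨C', hC', hmove⟩ := move_app (H := 2 + B.Lc) P.hK P.hκ (by linarith [B.hLc])
  obtain ⟨κ₀, hκ₀d⟩ : ∃ κ₀ : ℝ, κ₀ = (Mx - 1 / 8) * Real.log (1 + κ) / 3 := ⟨_, rfl⟩
  have hM8 : 0 < Mx - 1 / 8 := by linarith
  have hκ₀ : 0 < κ₀ := by rw [hκ₀d]; positivity
  have hk : 3 * κ₀ / Real.log (1 + κ) = Mx - 1 / 8 := by rw [hκ₀d]; field_simp
  obtain ⟨τc, hτc, τ₀, hτ₀, A₁, hA₁, hzR⟩ := P.zR (Mx + 1)
  obtain ⟨Cx, hCx, hx⟩ := crossII B
  obtain ⟨Cg, hCg, hgr⟩ := handle_growth B as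
  obtain ⟨-, -, -, -, hg⟩ := hgr as 0 has le_rfl le_rfl zero_le_one
  refine ⟨τ₀, hτ₀, fun τ hτ => ⟨τc, hτc, fun ε hε => ?_⟩⟩
  obtain ⟨σ, hσ, hσ1, hβ1, hlen⟩ := pm_MII2_len hC' hκ₀ (L := max τc 1) (by positivity) hε
  obtain ⟨n₀, hn₀, hn⟩ := pm_MII2_small (D := Real.exp κ₀ * Cx * (K ^ (6 * κ₀ / Real.log (1 + κ)) *
      ((9 * K ^ 2) ^ (Mx + σ) * (Cg / σ ^ 2) + A₁))) (by positivity)
  refine ⟨n₀, hn₀, fun n hnn => ?_⟩
  have hsmall : Real.exp κ₀ * (Cx * Real.exp (-(n / 16))) * (K ^ (6 * κ₀ / Real.log (1 + κ)) *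
      ((9 * K ^ 2) ^ (Mx + σ) * (Cg / σ ^ 2) + A₁)) ≤ 1 / 2 := by
    refine le_trans (le_of_eq ?_) (hn n hnn)
    ring
  have key : ∀ (z : ZII) (u1 u2 x : ℝ), |u1| ≤ 1 → |u2| ≤ 1 → 0 < x → x ≤ max τc 1 → z.t2 = n →
      z.a = ![τ, τ, as] → z.th = (fun _ => 0) →
      (∀ t ∈ Set.Icc (0 : ℝ) x, (0 ≤ (rayII z u1 u2 t).ac ∧ (rayII z u1 u2 t).ac ≤ τc ∧
        (rayII z u1 u2 t).tc = 0) ∨ (rayII z u1 u2 t).ac = τc) →
      dP (B.repII (rayII z u1 u2 0)) (B.repII (rayII z u1 u2 x)) ≤ ENNReal.ofReal ε := by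
    intro z u1 u2 x hu1 hu2 hx0 hxm hz2 hza hzt hz
    obtain ⟨hd, hdef⟩ := defPath_rayII B z u1 u2 hu1 hu2
    refine (dP_rayII B z u1 u2 hx0.le).trans ?_
    refine (hmove P.top hdef (fun t => B.repII (rayII z u1 u2 t)) (fun t γ => rfl) hx0 (s := Mx + σ)
      (β := σ / κ₀) hκ₀ (by positivity) hβ1 ?_).trans ?_
    · intro t ht
      have hh := pm_MII2_h (B := B) (rayII z u1 u2 t) (by
        show 0 ≤ z.a 2
        rw [hza]; exact has) (by
        show 0 ≤ z.th 2
        rw [hzt]) (by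
        show z.th 2 ≤ 1
        rw [hzt]; exact zero_le_one)
      have hEE : B.EH ((rayII z u1 u2 t).a 2) ((rayII z u1 u2 t).th 2) = Mx := by
        rw [← hE]
        show B.EH (z.a 2) (z.th 2) = B.EH as 0
        rw [hza, hzt]; rfl
      rw [hEE] at hh
      obtain ⟨hfin, hlim, -, -⟩ := closed_lim' B (rayII z u1 u2 t)
      refine ⟨_, by linarith, ?_, hfin, hlim, ?_⟩
      · apply div_le_div_of_nonneg_right _ hκ₀.le
        linarith
      · refine pm_MII2_sum P hκ₀ hσ hσ1 hMx hE has hk hA₁ hCx hCg (by linarith) hx hg hsmall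
          (rayII z u1 u2 t) hz2 ?_ ?_ ?_
        · show z.a 2 = as
          rw [hza]; rfl
        · show z.th 2 = 0
          rw [hzt]
        · intro s hs1 hs2 Λ hΛ
          exact hzR (rayII z u1 u2 t) (by
            show τ₀ ≤ z.a 0
            rw [hza]; exact hτ) (by
            show τ₀ ≤ z.a 1
            rw [hza]; exact hτ) (hz t ht) s hs1 hs2 Λ hΛ
    · apply ENNReal.ofReal_le_ofReal
      rw [sub_zero]
      exact hlen x hx0.le hxm
  constructor
  · have h := key ⟨n, ![τ, τ, as], fun _ => 0, 0, 0⟩ 1 0 τc (by simp) (by simp) hτc (le_max_left _ _) rfl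
      rfl rfl (by
        intro t ht
        left
        simp only [rayII, mul_one, mul_zero, add_zero, zero_add]
        exact ⟨ht.1, ht.2, trivial⟩)
    simpa only [rayII, mul_one, mul_zero, add_zero, zero_add] using h
  · have h := key ⟨n, ![τ, τ, as], fun _ => 0, τc, 0⟩ 0 1 1 (by simp) (by simp) one_pos (le_max_right _ _) rfl
      rfl rfl (by
        intro t ht
        right
        simp only [rayII, mul_zero, add_zero])
    simpa only [rayII, mul_one, mul_zero, add_zero, zero_add] using h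

theorem twistC (z z' : ZII) (h2 : z'.t2 = z.t2) (ha : z'.a = z.a) (hth : z'.th = z.th) (hac : z'.ac = z.ac)
    (htc : z'.tc = z.tc + 1) (f : MulAut Surf) (hf : IsTwC 0 f) :
    act f (B.repII z') = B.repII z := by
  obtain ⟨hf1, hf2, hf3, hf4, hf5⟩ := hf
  have hZ : B.Zc z' = (B.repII z (cc 0) : M3) * B.Zc z := pm_MII1_Zc B z z' hac htc
  have hZ2 : B.Z2 z' = B.Z2 z := by unfold Base.Z2; rw [h2]
  have hcd : ((B.repII z (cc 0) : M3)).det ≠ 0 := by
    rw [(B.repII z (cc 0)).2]; exact one_ne_zero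
  have hcu : IsUnit ((B.repII z (cc 0) : M3)).det := isUnit_iff_ne_zero.mpr hcd
  have hzu : IsUnit (B.Zc z).det := by rw [B.Zc_det]; exact isUnit_one
  set c : SL(3, ℝ) := B.repII z (cc 0) with hc
  -- the values at `z'`
  have e1 : B.repII z' (sx 0) = B.repII z (sx 0) := by
    apply Subtype.ext
    rw [B.repII_x, B.repII_x]
    simp only [Base.mX', if_true]
  have e2 : B.repII z' (sy 0) = c * B.repII z (sy 0) := by
    apply Subtype.ext
    rw [Matrix.SpecialLinearGroup.coe_mul, B.repII_y, B.repII_y]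
    simp only [Base.mY', if_true]
    rw [hZ, ha, hth, Matrix.mul_assoc]
  have e3 : B.repII z' (sx 1) = c * B.repII z (sx 1) * c⁻¹ := by
    apply eq_mul_inv_of_mul_eq
    apply Subtype.ext
    rw [Matrix.SpecialLinearGroup.coe_mul, Matrix.SpecialLinearGroup.coe_mul, B.repII_x, B.repII_x]
    simp only [Base.mX', show (1 : Fin 3) ≠ 0 by decide, if_false, if_true]
    rw [hZ, Matrix.mul_inv_rev]
    simp only [Matrix.mul_assoc]
    rw [Matrix.nonsing_inv_mul _ hcu, Matrix.mul_one]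
  have e4 : B.repII z' (sy 1) = B.repII z (sy 1) * c⁻¹ := by
    apply eq_mul_inv_of_mul_eq
    apply Subtype.ext
    rw [Matrix.SpecialLinearGroup.coe_mul, B.repII_y, B.repII_y]
    simp only [Base.mY', show (1 : Fin 3) ≠ 0 by decide, if_false, if_true]
    rw [hZ, Matrix.mul_inv_rev, ha, hth]
    simp only [Matrix.mul_assoc]
    rw [Matrix.nonsing_inv_mul _ hcu, Matrix.mul_one]
  have e5 : B.repII z' (sx 2) = B.repII z (sx 2) := by
    apply Subtype.ext
    rw [B.repII_x, B.repII_x]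
    simp only [Base.mX', show (2 : Fin 3) ≠ 0 by decide, show (2 : Fin 3) ≠ 1 by decide, if_false]
    rw [hZ2]
  have e6 : B.repII z' (sy 2) = B.repII z (sy 2) := by
    apply Subtype.ext
    rw [B.repII_y, B.repII_y]
    simp only [Base.mY', show (2 : Fin 3) ≠ 0 by decide, show (2 : Fin 3) ≠ 1 by decide, if_false]
    rw [hZ2, ha, hth]
  have key : B.repII z' = (B.repII z).comp f.toMonoidHom := by
    apply surf_ext
    · intro i
      show _ = B.repII z (f (sx i))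
      fin_cases i
      · show B.repII z' (sx 0) = B.repII z (f (sx 0))
        rw [e1, hf1]
      · show B.repII z' (sx 1) = B.repII z (f (sx (0 + 1)))
        rw [e3, hf3, map_mul, map_mul, map_inv]
        rfl
      · show B.repII z' (sx 2) = B.repII z (f (sx 2))
        rw [e5, (hf5 2 (by decide) (by decide)).1]
    · intro i
      show _ = B.repII z (f (sy i))
      fin_cases i
      · show B.repII z' (sy 0) = B.repII z (f (sy 0))
        rw [e2, hf2, map_mul]
      · show B.repII z' (sy 1) = B.repII z (f (sy (0 + 1)))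
        rw [e4, hf4, map_mul, map_inv]
        rfl
      · show B.repII z' (sy 2) = B.repII z (f (sy 2))
        rw [e6, (hf5 2 (by decide) (by decide)).2]
  unfold act
  rw [key]
  refine MonoidHom.ext fun γ => ?_
  show B.repII z (f ((f⁻¹ : MulAut Surf) γ)) = B.repII z γ
  rw [MulAut.apply_inv_self]

end

end

end PM3
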