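import Pool.Agent.LibPM3.MoveDefs

/-! [PM3 A1] Markov's inequality for the renormalised intersection. -/

namespace PM3
open Filter Topology MeasureTheory

variable {𝒞 : Type*}

theorem pm_MoveA_cAvg_eq (ℓ f : 𝒞 → ℝ) (T : ℝ) (fin : (cR ℓ T).Finite) :
    cAvg ℓ f T = (∑ κ ∈ fin.toFinset, f κ / ℓ κ) / (fin.toFinset.card : ℝ) := by
  unfold cAvg
  rw [finsum_mem_eq_finite_toFinset_sum _ fin, Set.ncard_eq_toFinset_card _ fin]

theorem pm_MoveA_count {ℓ f : 𝒞 → ℝ} {A A' T : ℝ} (hℓ : ∀ κ, 0 < ℓ κ) (hf : ∀ κ, 0 < f κ)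
    (fin : ∀ T, (cR ℓ T).Finite) (fin' : ∀ T, (cR f T).Finite) (hA' : 0 < A')
    (hne : (cR ℓ T).Nonempty) (hA : cAvg ℓ f T ≤ A) :
    ((cR ℓ T).ncard : ℝ) * ((A' - A) / A') ≤ ((cR f (A' * T)).ncard : ℝ) := by
  classical
  rw [pm_MoveA_cAvg_eq ℓ f T (fin T)] at hA
  obtain ⟨s, hs⟩ : ∃ s, s = (fin T).toFinset := ⟨_, rfl⟩
  rw [← hs] at hA
  have hms : ∀ κ, κ ∈ s ↔ ℓ κ ≤ T := by
    intro κ
    rw [hs, Set.Finite.mem_toFinset]
    rfl
  have hcard : (cR ℓ T).ncard = s.card := by rw [hs, Set.ncard_eq_toFinset_card _ (fin T)]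
  have hspos : 0 < (s.card : ℝ) := by
    have : s.Nonempty := by
      obtain ⟨κ, hκ⟩ := hne
      exact ⟨κ, (hms κ).2 hκ⟩
    exact_mod_cast this.card_pos
  rw [div_le_iff₀ hspos] at hA
  -- the bad elements
  have h1 : ((s.filter fun κ => ¬ f κ ≤ A' * ℓ κ).card : ℝ) * A' ≤ ∑ κ ∈ s, f κ / ℓ κ := by
    calc ((s.filter fun κ => ¬ f κ ≤ A' * ℓ κ).card : ℝ) * A' =
        ∑ κ ∈ s.filter (fun κ => ¬ f κ ≤ A' * ℓ κ), A' := by
          rw [Finset.sum_const, nsmul_eq_mul]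
      _ ≤ ∑ κ ∈ s.filter (fun κ => ¬ f κ ≤ A' * ℓ κ), f κ / ℓ κ := by
          refine Finset.sum_le_sum fun κ hκ => ?_
          rw [Finset.mem_filter, not_le] at hκ
          rw [le_div_iff₀ (hℓ κ)]
          exact hκ.2.le
      _ ≤ ∑ κ ∈ s, f κ / ℓ κ :=
          Finset.sum_le_sum_of_subset_of_nonneg (Finset.filter_subset _ _)
            fun κ _ _ => (div_pos (hf κ) (hℓ κ)).le
  have h2 : ((s.filter fun κ => f κ ≤ A' * ℓ κ).card : ℝ) +
      ((s.filter fun κ => ¬ f κ ≤ A' * ℓ κ).card : ℝ) = s.card := by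
    exact_mod_cast Finset.card_filter_add_card_filter_not (s := s) (fun κ => f κ ≤ A' * ℓ κ)
  have h3 : ((s.filter fun κ => f κ ≤ A' * ℓ κ).card : ℝ) ≤ ((cR f (A' * T)).ncard : ℝ) := by
    rw [Set.ncard_eq_toFinset_card _ (fin' (A' * T))]
    refine Nat.cast_le.2 (Finset.card_le_card fun κ hκ => ?_)
    rw [Finset.mem_filter, hms] at hκ
    rw [Set.Finite.mem_toFinset]
    exact hκ.2.trans (mul_le_mul_of_nonneg_left hκ.1 hA'.le)
  rw [hcard]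
  refine le_trans ?_ h3
  rw [mul_div_assoc', div_le_iff₀ hA']
  nlinarith

/-- if the average of `f/ℓ` over `R_T(ℓ)` is `≤ A` for arbitrarily large `T`, then `h(ℓ) ≤ h(f) A` -/
theorem markov_ent {ℓ f : 𝒞 → ℝ} {h h' A : ℝ} (hℓ : ∀ κ, 0 < ℓ κ) (hf : ∀ κ, 0 < f κ)
    (fin : ∀ T, (cR ℓ T).Finite) (fin' : ∀ T, (cR f T).Finite)
    (lim : Tendsto (fun T : ℝ => Real.log ((cR ℓ T).ncard) / T) atTop (𝓝 h)) (hh : 0 < h)
    (lim' : Tendsto (fun T : ℝ => Real.log ((cR f T).ncard) / T) atTop (𝓝 h')) (hh' : 0 < h')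
    (hA : ∃ᶠ T in atTop, cAvg ℓ f T ≤ A) : h ≤ h' * A := by
  have hev : ∀ᶠ T : ℝ in atTop, 0 < T ∧ 0 < Real.log ((cR ℓ T).ncard) := by
    filter_upwards [lim.eventually (lt_mem_nhds hh), eventually_gt_atTop (0 : ℝ)] with T h1 h2
    refine ⟨h2, ?_⟩
    by_contra hcon
    exact absurd h1 (not_lt.2 (div_nonpos_of_nonpos_of_nonneg (not_lt.1 hcon) h2.le))
  have hev' : ∀ᶠ T : ℝ in atTop, 0 < T ∧ (cR ℓ T).Nonempty := by
    filter_upwards [hev] with T h1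
    refine ⟨h1.1, ?_⟩
    by_contra hcon
    rw [Set.not_nonempty_iff_eq_empty] at hcon
    have h2 := h1.2
    rw [hcon] at h2
    simp at h2
  have hApos : 0 < A := by
    obtain ⟨T, h1, h2, h3⟩ := (hA.and_eventually hev').exists
    refine lt_of_lt_of_le ?_ h1
    rw [pm_MoveA_cAvg_eq ℓ f T (fin T)]
    have hne : (fin T).toFinset.Nonempty := by
      obtain ⟨κ, hκ⟩ := h3
      exact ⟨κ, (Set.Finite.mem_toFinset _).2 hκ⟩
    refine div_pos (Finset.sum_pos (fun κ _ => div_pos (hf κ) (hℓ κ)) hne) ?_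
    exact_mod_cast hne.card_pos
  refine le_of_forall_pos_le_add fun δ hδ => ?_
  obtain ⟨ε, hε, hε'⟩ : ∃ ε > 0, h' * ε = δ := ⟨δ / h', div_pos hδ hh', by field_simp⟩
  have hA' : 0 < A + ε := by linarith
  -- the frequent inequality
  have hfr : ∃ᶠ T : ℝ in atTop, Real.log ((cR ℓ T).ncard) / T +
      Real.log (ε / (A + ε)) / T - (A + ε) * (Real.log ((cR f ((A + ε) * T)).ncard) /
        ((A + ε) * T)) ≤ 0 := by
    refine (hA.and_eventually hev').mono fun T hT => ?_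
    obtain ⟨h1, h2, h3⟩ := hT
    have h4 := pm_MoveA_count hℓ hf fin fin' hA' h3 h1
    have h5 : (A + ε - A) / (A + ε) = ε / (A + ε) := by ring
    rw [h5] at h4
    have hN : 0 < ((cR ℓ T).ncard : ℝ) := by
      have : 0 < (cR ℓ T).ncard := (Set.ncard_pos (fin T)).2 h3
      exact_mod_cast this
    have h6 : Real.log ((cR ℓ T).ncard) + Real.log (ε / (A + ε)) ≤
        Real.log ((cR f ((A + ε) * T)).ncard) := by
      rw [← Real.log_mul hN.ne' (div_pos hε hA').ne']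
      exact Real.log_le_log (mul_pos hN (div_pos hε hA')) h4
    have h7 : (A + ε) * (Real.log ((cR f ((A + ε) * T)).ncard) / ((A + ε) * T)) =
        Real.log ((cR f ((A + ε) * T)).ncard) / T := by
      field_simp
    rw [h7, ← add_div, sub_nonpos]
    exact div_le_div_of_nonneg_right h6 h2.le
  have hT' : Tendsto (fun T : ℝ => (A + ε) * T) atTop atTop :=
    tendsto_id.const_mul_atTop hA'
  have hlim : Tendsto (fun T : ℝ => Real.log ((cR ℓ T).ncard) / T +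
      Real.log (ε / (A + ε)) / T - (A + ε) * (Real.log ((cR f ((A + ε) * T)).ncard) /
        ((A + ε) * T))) atTop (𝓝 (h + 0 - (A + ε) * h')) := by
    refine (lim.add ?_).sub ?_
    · exact tendsto_const_nhds.div_atTop tendsto_id
    · exact (lim'.comp hT').const_mul _
  have h8 := le_of_tendsto_of_frequently hlim hfr
  have h9 : h' * A + δ = (A + ε) * h' := by rw [← hε']; ring
  rw [h9]
  linarith

/-- averages are linear and monotone on nonempty finite `R_T` -/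
theorem cAvg_add (ℓ f g : 𝒞 → ℝ) (T : ℝ) (fin : (cR ℓ T).Finite) :
    cAvg ℓ (fun κ => f κ + g κ) T = cAvg ℓ f T + cAvg ℓ g T := by
  rw [pm_MoveA_cAvg_eq _ _ _ fin, pm_MoveA_cAvg_eq _ _ _ fin, pm_MoveA_cAvg_eq _ _ _ fin,
    ← add_div, ← Finset.sum_add_distrib]
  simp only [add_div]

theorem cAvg_smul (ℓ f : 𝒞 → ℝ) (c T : ℝ) : cAvg ℓ (fun κ => c * f κ) T = c * cAvg ℓ f T := by
  by_cases fin : (cR ℓ T).Finite
  · rw [pm_MoveA_cAvg_eq _ _ _ fin, pm_MoveA_cAvg_eq _ _ _ fin]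
    simp only [mul_div_assoc]
    rw [← Finset.mul_sum, mul_div_assoc]
  · unfold cAvg
    rw [Set.Infinite.ncard fin]
    simp

theorem cAvg_mono {ℓ f g : 𝒞 → ℝ} {T : ℝ} (hℓ : ∀ κ, 0 < ℓ κ) (fin : (cR ℓ T).Finite)
    (h : ∀ κ, f κ ≤ g κ) : cAvg ℓ f T ≤ cAvg ℓ g T := by
  rw [pm_MoveA_cAvg_eq _ _ _ fin, pm_MoveA_cAvg_eq _ _ _ fin]
  refine div_le_div_of_nonneg_right (Finset.sum_le_sum fun κ _ => ?_) (Nat.cast_nonneg _)
  exact div_le_div_of_nonneg_right (h κ) (hℓ κ).le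

theorem cAvg_self {ℓ : 𝒞 → ℝ} {T : ℝ} (hℓ : ∀ κ, 0 < ℓ κ) (fin : (cR ℓ T).Finite)
    (hne : (cR ℓ T).Nonempty) : cAvg ℓ ℓ T = 1 := by
  rw [pm_MoveA_cAvg_eq _ _ _ fin]
  have h1 : ∑ κ ∈ fin.toFinset, ℓ κ / ℓ κ = (fin.toFinset.card : ℝ) := by
    rw [Finset.sum_congr rfl fun κ _ => div_self (hℓ κ).ne', Finset.sum_const, nsmul_eq_mul,
      mul_one]
  rw [h1]
  refine div_self ?_
  have hne' : fin.toFinset.Nonempty := by
    obtain ⟨κ, hκ⟩ := hne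
    exact ⟨κ, (Set.Finite.mem_toFinset _).2 hκ⟩
  exact_mod_cast hne'.card_pos.ne'

end PM3
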