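import Pool.Agent.LibPM3.MoveA

/-! [PM3 A2] the entropy is Lipschitz and semiconvex along the path, and the second order bound for `J`. -/

namespace PM3
open Filter Topology MeasureTheory

variable {𝒞 : Type*}

/-- the entropy is the limit -/
private theorem pm_MoveB_lim {ℓ : ℝ → 𝒞 → ℝ} {i : 𝒞 → ℝ} {a b C β : ℝ} (H : MoveHyp ℓ i a b C β)
    {t : ℝ} (ht : t ∈ Set.Icc a b) : 0 < cEnt (ℓ t) ∧
      Tendsto (fun T : ℝ => Real.log ((cR (ℓ t) T).ncard) / T) atTop (𝓝 (cEnt (ℓ t))) := by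
  obtain ⟨h, hh, hlim⟩ := H.lim t ht
  have h1 : cEnt (ℓ t) = h := hlim.limsup_eq
  rw [h1]
  exact ⟨hh, hlim⟩

private theorem pm_MoveB_ne {ℓ : ℝ → 𝒞 → ℝ} {i : 𝒞 → ℝ} {a b C β : ℝ} (H : MoveHyp ℓ i a b C β)
    {t : ℝ} (ht : t ∈ Set.Icc a b) : ∀ᶠ T in atTop, (cR (ℓ t) T).Nonempty := by
  obtain ⟨h0, hlim⟩ := pm_MoveB_lim H ht
  have h1 := hlim.eventually (lt_mem_nhds h0)
  filter_upwards [h1] with T hT
  by_contra hne
  rw [Set.not_nonempty_iff_eq_empty] at hne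
  rw [hne] at hT
  simp at hT

/-- first order upper bound of the averages -/
private theorem pm_MoveB_avg {ℓ : ℝ → 𝒞 → ℝ} {i : 𝒞 → ℝ} {a b C β : ℝ} (H : MoveHyp ℓ i a b C β)
    {s t : ℝ} (hs : s ∈ Set.Icc a b) (ht : t ∈ Set.Icc a b) {β' : ℝ} (hβ' : β < β') :
    ∀ᶠ T in atTop, cAvg (ℓ t) (ℓ s) T ≤ 1 + C * |s - t| * β' := by
  filter_upwards [pm_MoveB_ne H ht, H.bd t ht β' hβ'] with T hne hT
  have h1 : cAvg (ℓ t) (ℓ s) T ≤ cAvg (ℓ t) (fun κ => ℓ t κ + C * |s - t| * i κ) T := by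
    refine cAvg_mono (H.pos t ht) (H.fin t ht T) fun κ => ?_
    have h2 := H.reg1 s hs t ht κ
    have h3 := (abs_le.1 h2).2
    nlinarith
  have h4 : cAvg (ℓ t) (fun κ => ℓ t κ + C * |s - t| * i κ) T =
      1 + C * |s - t| * cAvg (ℓ t) i T := by
    rw [cAvg_add (ℓ t) (ℓ t) (fun κ => C * |s - t| * i κ) T (H.fin t ht T),
      cAvg_self (H.pos t ht) (H.fin t ht T) hne, cAvg_smul]
  have h5 : 0 ≤ C * |s - t| := mul_nonneg H.hC (abs_nonneg _)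
  have h6 := mul_le_mul_of_nonneg_left hT h5
  linarith

private theorem pm_MoveB_nonneg {ℓ f : 𝒞 → ℝ} (hℓ : ∀ κ, 0 < ℓ κ) (hf : ∀ κ, 0 < f κ) (T : ℝ) :
    0 ≤ cAvg ℓ f T := by
  unfold cAvg
  refine div_nonneg ?_ (Nat.cast_nonneg _)
  exact finsum_nonneg fun κ => finsum_nonneg fun _ => (div_pos (hf κ) (hℓ κ)).le

/-- entropies are positive -/
theorem MoveHyp.ent_pos {ℓ : ℝ → 𝒞 → ℝ} {i : 𝒞 → ℝ} {a b C β : ℝ} (H : MoveHyp ℓ i a b C β)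
    {t : ℝ} (ht : t ∈ Set.Icc a b) : 0 < cEnt (ℓ t) := (pm_MoveB_lim H ht).1

/-- Markov for the path -/
private theorem pm_MoveB_markov {ℓ : ℝ → 𝒞 → ℝ} {i : 𝒞 → ℝ} {a b C β : ℝ}
    (H : MoveHyp ℓ i a b C β) {s t : ℝ} (hs : s ∈ Set.Icc a b) (ht : t ∈ Set.Icc a b) {A : ℝ}
    (hA : ∃ᶠ T in atTop, cAvg (ℓ t) (ℓ s) T ≤ A) : cEnt (ℓ t) ≤ cEnt (ℓ s) * A :=
  markov_ent (H.pos t ht) (H.pos s hs) (H.fin t ht) (H.fin s hs) (pm_MoveB_lim H ht).2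
    (pm_MoveB_lim H ht).1 (pm_MoveB_lim H hs).2 (pm_MoveB_lim H hs).1 hA

private theorem pm_MoveB_le_of {x y k : ℝ} (hk : 0 ≤ k) (h : ∀ ε > 0, x ≤ y + k * ε) : x ≤ y := by
  refine le_of_forall_pos_le_add fun δ hδ => ?_
  have h1 := h (δ / (k + 1)) (by positivity)
  have h2 : k * (δ / (k + 1)) ≤ δ := by
    rw [mul_div_assoc', div_le_iff₀ (by positivity)]
    nlinarith
  linarith

private theorem pm_MoveB_one {ℓ : ℝ → 𝒞 → ℝ} {i : 𝒞 → ℝ} {a b C β : ℝ}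
    (H : MoveHyp ℓ i a b C β) {s t : ℝ} (hs : s ∈ Set.Icc a b) (ht : t ∈ Set.Icc a b) :
    cEnt (ℓ t) ≤ cEnt (ℓ s) * (1 + C * |s - t| * β) := by
  have hpos := H.ent_pos hs
  have hnn : 0 ≤ cEnt (ℓ s) * (C * |s - t|) :=
    mul_nonneg hpos.le (mul_nonneg H.hC (abs_nonneg _))
  refine pm_MoveB_le_of hnn fun ε hε => ?_
  have h1 := pm_MoveB_markov H hs ht
    (pm_MoveB_avg H hs ht (β' := β + ε) (by linarith)).frequently
  calc cEnt (ℓ t) ≤ cEnt (ℓ s) * (1 + C * |s - t| * (β + ε)) := h1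
    _ = cEnt (ℓ s) * (1 + C * |s - t| * β) + cEnt (ℓ s) * (C * |s - t|) * ε := by ring

/-- `λ = log h` is Lipschitz with constant `C' β` -/
theorem MoveHyp.lip {C : ℝ} (hC : 0 ≤ C) : ∃ C' > 0, ∀ {ℓ : ℝ → 𝒞 → ℝ} {i : 𝒞 → ℝ} {a b β : ℝ},
    MoveHyp ℓ i a b C β → ∀ s ∈ Set.Icc a b, ∀ t ∈ Set.Icc a b,
      |Real.log (cEnt (ℓ s)) - Real.log (cEnt (ℓ t))| ≤ C' * β * |s - t| := by
  refine ⟨C + 1, by linarith, ?_⟩
  intro ℓ i a b β H s hs t ht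
  have key : ∀ s ∈ Set.Icc a b, ∀ t ∈ Set.Icc a b,
      Real.log (cEnt (ℓ t)) - Real.log (cEnt (ℓ s)) ≤ (C + 1) * β * |s - t| := by
    intro s hs t ht
    have h1 := pm_MoveB_one H hs ht
    have hps := H.ent_pos hs
    have hpt := H.ent_pos ht
    have h2 : 0 ≤ C * |s - t| * β := mul_nonneg (mul_nonneg hC (abs_nonneg _)) H.hβ.le
    have h3 : Real.log (cEnt (ℓ t)) ≤ Real.log (cEnt (ℓ s) * (1 + C * |s - t| * β)) :=
      Real.log_le_log hpt h1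
    rw [Real.log_mul hps.ne' (by linarith)] at h3
    have h4 : Real.log (1 + C * |s - t| * β) ≤ C * |s - t| * β := by
      have := Real.log_le_sub_one_of_pos (x := 1 + C * |s - t| * β) (by linarith)
      linarith
    have h5 : 0 ≤ β * |s - t| := mul_nonneg H.hβ.le (abs_nonneg _)
    nlinarith
  rw [abs_le]
  constructor
  · have h1 := key s hs t ht
    linarith
  · have h1 := key t ht s hs
    rw [abs_sub_comm t s] at h1
    linarith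

/-- the second order bound -/
theorem MoveHyp.second {ℓ : ℝ → 𝒞 → ℝ} {i : 𝒞 → ℝ} {a b C β : ℝ} (H : MoveHyp ℓ i a b C β) :
    ∃ u₀ > 0, ∀ t u, |u| ≤ u₀ → t - u ∈ Set.Icc a b → t + u ∈ Set.Icc a b →
      1 ≤ cJ (ℓ t) (ℓ (t + u)) ∧
      cJ (ℓ t) (ℓ (t + u)) ≤
        Real.exp (Real.log (cEnt (ℓ (t + u))) - Real.log (cEnt (ℓ t))) *
          (2 + C * β * u ^ 2 - Real.exp (Real.log (cEnt (ℓ t)) - Real.log (cEnt (ℓ (t - u))))) := by
  obtain ⟨u₀, hu₀, hreg⟩ := H.reg2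
  refine ⟨u₀, hu₀, fun t u hu hm hp => ?_⟩
  have ht : t ∈ Set.Icc a b := by
    rw [Set.mem_Icc] at hm hp ⊢
    constructor <;> linarith [hm.1, hm.2, hp.1, hp.2]
  have hpt := H.ent_pos ht
  have hpp := H.ent_pos hp
  have hpm := H.ent_pos hm
  -- boundedness of the averages
  have hbd : IsBoundedUnder (· ≤ ·) atTop (fun T : ℝ => cAvg (ℓ t) (ℓ (t + u)) T) :=
    ⟨_, Filter.eventually_map.2 (pm_MoveB_avg H hp ht (β' := β + 1) (by linarith))⟩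
  have hbd' : IsBoundedUnder (· ≥ ·) atTop (fun T : ℝ => cAvg (ℓ t) (ℓ (t + u)) T) :=
    ⟨0, Filter.eventually_map.2 (Eventually.of_forall fun T =>
      pm_MoveB_nonneg (H.pos t ht) (H.pos _ hp) T)⟩
  have hcob : IsCoboundedUnder (· ≤ ·) atTop (fun T : ℝ => cAvg (ℓ t) (ℓ (t + u)) T) :=
    hbd'.isCoboundedUnder_le
  -- lower bound of `I`
  have hI1 : cEnt (ℓ t) ≤ cEnt (ℓ (t + u)) * cInt (ℓ t) (ℓ (t + u)) := by
    refine pm_MoveB_le_of hpp.le fun ε hε => ?_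
    have h1 : ∀ᶠ T in atTop, cAvg (ℓ t) (ℓ (t + u)) T < cInt (ℓ t) (ℓ (t + u)) + ε :=
      eventually_lt_of_limsup_lt (by unfold cInt; linarith) hbd
    have h2 := pm_MoveB_markov H hp ht (h1.mono fun T hT => hT.le).frequently
    linarith
  -- upper bound of `I`
  have hI2 : cInt (ℓ t) (ℓ (t + u)) ≤ 2 + C * β * u ^ 2 - cEnt (ℓ t) / cEnt (ℓ (t - u)) := by
    have hk : 0 ≤ C * u ^ 2 + 1 := by
      have := mul_nonneg H.hC (sq_nonneg u)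
      linarith
    refine pm_MoveB_le_of hk fun ε hε => ?_
    have h1 : ∀ᶠ T in atTop, cAvg (ℓ t) (ℓ (t + u)) T + cAvg (ℓ t) (ℓ (t - u)) T ≤
        2 + C * u ^ 2 * (β + ε) := by
      filter_upwards [pm_MoveB_ne H ht, H.bd t ht (β + ε) (by linarith)] with T hne hT
      have h2 : cAvg (ℓ t) (ℓ (t + u)) T + cAvg (ℓ t) (ℓ (t - u)) T =
          cAvg (ℓ t) (fun κ => ℓ (t + u) κ + ℓ (t - u) κ) T :=
        (cAvg_add (ℓ t) (ℓ (t + u)) (ℓ (t - u)) T (H.fin t ht T)).symm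
      have h3 : cAvg (ℓ t) (fun κ => ℓ (t + u) κ + ℓ (t - u) κ) T ≤
          cAvg (ℓ t) (fun κ => 2 * ℓ t κ + C * u ^ 2 * i κ) T := by
        refine cAvg_mono (H.pos t ht) (H.fin t ht T) fun κ => ?_
        have h4 := hreg t u hu hm hp κ
        nlinarith
      have h5 : cAvg (ℓ t) (fun κ => 2 * ℓ t κ + C * u ^ 2 * i κ) T =
          2 * 1 + C * u ^ 2 * cAvg (ℓ t) i T := by
        rw [cAvg_add (ℓ t) (fun κ => 2 * ℓ t κ) (fun κ => C * u ^ 2 * i κ) T (H.fin t ht T),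
          cAvg_smul, cAvg_smul, cAvg_self (H.pos t ht) (H.fin t ht T) hne]
      have h6 : 0 ≤ C * u ^ 2 := mul_nonneg H.hC (sq_nonneg u)
      have h7 := mul_le_mul_of_nonneg_left hT h6
      linarith
    have h2 : ∀ᶠ T in atTop, cEnt (ℓ t) / cEnt (ℓ (t - u)) - ε < cAvg (ℓ t) (ℓ (t - u)) T := by
      by_contra hcon
      rw [not_eventually] at hcon
      have h3 := pm_MoveB_markov H hm ht (hcon.mono fun T hT => not_lt.1 hT)
      have h4 : cEnt (ℓ (t - u)) * (cEnt (ℓ t) / cEnt (ℓ (t - u)) - ε) =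
          cEnt (ℓ t) - cEnt (ℓ (t - u)) * ε := by
        field_simp
      rw [h4] at h3
      have h5 := mul_pos hpm hε
      linarith
    have h3 : ∀ᶠ T in atTop, cAvg (ℓ t) (ℓ (t + u)) T ≤
        2 + C * β * u ^ 2 - cEnt (ℓ t) / cEnt (ℓ (t - u)) + (C * u ^ 2 + 1) * ε := by
      filter_upwards [h1, h2] with T hT1 hT2
      nlinarith
    exact limsup_le_of_le hcob h3
  have he1 : Real.exp (Real.log (cEnt (ℓ (t + u))) - Real.log (cEnt (ℓ t))) =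
      cEnt (ℓ (t + u)) / cEnt (ℓ t) := by
    rw [Real.exp_sub, Real.exp_log hpp, Real.exp_log hpt]
  have he2 : Real.exp (Real.log (cEnt (ℓ t)) - Real.log (cEnt (ℓ (t - u)))) =
      cEnt (ℓ t) / cEnt (ℓ (t - u)) := by
    rw [Real.exp_sub, Real.exp_log hpt, Real.exp_log hpm]
  rw [he1, he2]
  unfold cJ
  constructor
  · rw [div_mul_eq_mul_div, le_div_iff₀ hpt, one_mul]
    exact hI1
  · exact mul_le_mul_of_nonneg_left hI2 (div_pos hpp hpt).le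

end PM3
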