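import Pool.Agent.LibPM3.PolyDefs
import Pool.Agent.LibPM3.GoGD

/-! [PM3 PolyA] polygon groups. -/

namespace PM3
open Matrix Filter Topology

noncomputable section

private theorem pm_PolyA1_mul {A B : M2} {σ τ a b : ℝ} (ha : 0 ≤ a) (hb : 0 ≤ b)
    (hA : ∀ i j, a ≤ σ * A i j) (hB : ∀ i j, b ≤ τ * B i j) (i j : Fin 2) :
    a * b ≤ (σ * τ) * (A * B) i j := by
  rw [Matrix.mul_apply, Fin.sum_univ_two]
  have h1 : a * b ≤ (σ * A i 0) * (τ * B 0 j) :=
    mul_le_mul (hA i 0) (hB 0 j) hb (le_trans ha (hA i 0))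
  have h2 : a * b ≤ (σ * A i 1) * (τ * B 1 j) :=
    mul_le_mul (hA i 1) (hB 1 j) hb (le_trans ha (hA i 1))
  have h3 : 0 ≤ a * b := mul_nonneg ha hb
  calc a * b ≤ (σ * A i 0) * (τ * B 0 j) + (σ * A i 1) * (τ * B 1 j) := by linarith
    _ = (σ * τ) * (A i 0 * B 0 j + A i 1 * B 1 j) := by ring

private theorem pm_PolyA1_col {A B : M2} {σ τ c : ℝ}
    (hA : ∀ i j, 0 ≤ σ * A i j) (hB : ∀ i j j', τ * B i j ≤ c * (τ * B i j')) (i j j' : Fin 2) :
    (σ * τ) * (A * B) i j ≤ c * ((σ * τ) * (A * B) i j') := by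
  rw [Matrix.mul_apply, Matrix.mul_apply, Fin.sum_univ_two, Fin.sum_univ_two]
  have h1 := mul_le_mul_of_nonneg_left (hB 0 j j') (hA i 0)
  have h2 := mul_le_mul_of_nonneg_left (hB 1 j j') (hA i 1)
  calc (σ * τ) * (A i 0 * B 0 j + A i 1 * B 1 j)
      = σ * A i 0 * (τ * B 0 j) + σ * A i 1 * (τ * B 1 j) := by ring
    _ ≤ σ * A i 0 * (c * (τ * B 0 j')) + σ * A i 1 * (c * (τ * B 1 j')) := add_le_add h1 h2
    _ = c * ((σ * τ) * (A i 0 * B 0 j' + A i 1 * B 1 j')) := by ring

private theorem pm_PolyA1_row {A B : M2} {σ τ c : ℝ}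
    (hA : ∀ i i' j, σ * A i j ≤ c * (σ * A i' j)) (hB : ∀ i j, 0 ≤ τ * B i j) (i i' j : Fin 2) :
    (σ * τ) * (A * B) i j ≤ c * ((σ * τ) * (A * B) i' j) := by
  rw [Matrix.mul_apply, Matrix.mul_apply, Fin.sum_univ_two, Fin.sum_univ_two]
  have h1 := mul_le_mul_of_nonneg_right (hA i i' 0) (hB 0 j)
  have h2 := mul_le_mul_of_nonneg_right (hA i i' 1) (hB 1 j)
  calc (σ * τ) * (A i 0 * B 0 j + A i 1 * B 1 j)
      = σ * A i 0 * (τ * B 0 j) + σ * A i 1 * (τ * B 1 j) := by ring
    _ ≤ c * (σ * A i' 0) * (τ * B 0 j) + c * (σ * A i' 1) * (τ * B 1 j) := add_le_add h1 h2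
    _ = c * ((σ * τ) * (A i' 0 * B 0 j + A i' 1 * B 1 j)) := by ring

private theorem pm_PolyA1_sgn {σ τ : ℝ} (h1 : σ = 1 ∨ σ = -1) (h2 : τ = 1 ∨ τ = -1) :
    σ * τ = 1 ∨ σ * τ = -1 := by
  rcases h1 with rfl | rfl <;> rcases h2 with rfl | rfl <;> norm_num

private theorem pm_PolyA1_cmp {x y mu M : ℝ} (hmu : 0 < mu) (hM : 0 ≤ M) (hx : x ≤ M) (hy : mu ≤ y) :
    x ≤ M / mu * y := by
  calc x ≤ M := hx
    _ = M / mu * mu := by field_simp
    _ ≤ M / mu * y := mul_le_mul_of_nonneg_left hy (by positivity)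

/-- the tail of the word -/
private theorem pm_PolyA1_tail {ι Q : Type} {A : Finset ι} {S : Set Q} {R k : ι → M2} {f : Q → M2}
    {a b : Q → ι} {lb mu M : ℝ} (hP : PolySys A S R k f a b lb mu M) {q : Q} (hq : q ∈ S)
    (l : List ι) : ∀ (x : ι), (∀ y ∈ x :: l, y ∈ A) → (x :: l).IsChain (· ≠ ·) →
      (∀ y ∈ (x :: l).getLast?, y ≠ a q ∧ y ≠ b q) →
    ∃ σ : ℝ, (σ = 1 ∨ σ = -1) ∧
      (∀ i j, mu * lb ^ l.length ≤ σ * ((k x)⁻¹ * ((x :: l).map R).prod * f q * J2) i j) ∧
      (∀ i j j', σ * ((k x)⁻¹ * ((x :: l).map R).prod * f q * J2) i j ≤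
        M / mu * (σ * ((k x)⁻¹ * ((x :: l).map R).prod * f q * J2) i j')) := by
  have hmu := hP.hmu
  have hlb := hP.hl
  have hM := hP.hM
  induction l with
  | nil =>
    intro x hA _ h2
    have hx : x ∈ A := hA x (by simp)
    have hxq := h2 x (by simp)
    obtain ⟨σ, hσ, h⟩ := hP.hout q hq x hx hxq.1 hxq.2
    refine ⟨σ, hσ, ?_, ?_⟩
    · intro i j
      have := (h i j).1
      simpa using this
    · intro i j j'
      have h3 := (h i j).2
      have h4 := (h i j').1
      have h5 := pm_PolyA1_cmp hmu (by linarith) h3 h4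
      simpa using h5
  | cons y l ih =>
    intro x hA hc h2
    have hx : x ∈ A := hA x (by simp)
    have hy : y ∈ A := hA y (by simp)
    have hxy : x ≠ y := by
      have := (List.isChain_cons_cons.mp hc).1
      exact this
    obtain ⟨τ, hτ, h3, h4⟩ := ih y (fun u hu => hA u (List.mem_cons_of_mem _ hu))
      (List.isChain_cons_cons.mp hc).2 (by
        intro u hu
        exact h2 u (by simpa [List.getLast?_cons_cons] using hu))
    obtain ⟨σ, hσ, h⟩ := hP.hL x hx y hy hxy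
    have hk : k y * (k y)⁻¹ = 1 := Matrix.mul_nonsing_inv _ (by rw [hP.hkd y hy]; exact isUnit_one)
    have hE : (k x)⁻¹ * ((x :: y :: l).map R).prod * f q * J2 =
        ((k x)⁻¹ * R x * k y) * ((k y)⁻¹ * ((y :: l).map R).prod * f q * J2) := by
      have e1 : ((x :: y :: l).map R).prod = R x * ((y :: l).map R).prod := by
        rw [List.map_cons, List.prod_cons]
      rw [e1]
      calc (k x)⁻¹ * (R x * ((y :: l).map R).prod) * f q * J2
          = (k x)⁻¹ * R x * 1 * ((y :: l).map R).prod * f q * J2 := by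
            simp only [Matrix.mul_assoc, Matrix.mul_one, Matrix.one_mul]
        _ = (k x)⁻¹ * R x * (k y * (k y)⁻¹) * ((y :: l).map R).prod * f q * J2 := by rw [hk]
        _ = _ := by simp only [Matrix.mul_assoc]
    rw [hE]
    have hpos : ∀ i j, 0 ≤ σ * ((k x)⁻¹ * R x * k y) i j := fun i j =>
      le_trans (by linarith) (h i j).1
    refine ⟨σ * τ, pm_PolyA1_sgn hσ hτ, ?_, pm_PolyA1_col hpos h4⟩
    intro i j
    have h5 := pm_PolyA1_mul (a := lb) (b := mu * lb ^ l.length) (by linarith) (by positivity)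
      (fun i j => (h i j).1) h3 i j
    have h6 : mu * lb ^ (y :: l).length = lb * (mu * lb ^ l.length) := by
      rw [List.length_cons, pow_succ]; ring
    rw [h6]
    exact h5

/-- matrices of reduced words -/
theorem word_mat {ι Q : Type} {A : Finset ι} {S : Set Q} {R k : ι → M2} {f : Q → M2} {a b : Q → ι}
    {lb mu M : ℝ} (hP : PolySys A S R k f a b lb mu M) {p q : Q} (hp : p ∈ S) (hq : q ∈ S)
    (w : List ι) (hne : w ≠ []) (hw : ∀ x ∈ w, x ∈ A) (hr : w.IsChain (· ≠ ·))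
    (h1 : ∀ x ∈ w.head?, x ≠ a p ∧ x ≠ b p) (h2 : ∀ x ∈ w.getLast?, x ≠ a q ∧ x ≠ b q) :
    ∃ σ : ℝ, (σ = 1 ∨ σ = -1) ∧
      (∀ i j, mu ^ 2 * lb ^ (w.length - 1) ≤ σ * ((f p)⁻¹ * (w.map R).prod * f q * J2) i j) ∧
      (∀ i i' j, σ * ((f p)⁻¹ * (w.map R).prod * f q * J2) i j ≤
        M / mu * (σ * ((f p)⁻¹ * (w.map R).prod * f q * J2) i' j)) ∧
      (∀ i j j', σ * ((f p)⁻¹ * (w.map R).prod * f q * J2) i j ≤
        M / mu * (σ * ((f p)⁻¹ * (w.map R).prod * f q * J2) i j')) := by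
  have hmu := hP.hmu
  have hlb := hP.hl
  have hM := hP.hM
  obtain ⟨x, l, rfl⟩ := List.exists_cons_of_ne_nil hne
  have hx : x ∈ A := hw x (by simp)
  have hxp := h1 x (by simp)
  obtain ⟨τ, hτ, h3, h4⟩ := pm_PolyA1_tail hP hq l x hw hr h2
  obtain ⟨σ, hσ, h⟩ := hP.hin p hp x hx hxp.1 hxp.2
  have hk : k x * (k x)⁻¹ = 1 := Matrix.mul_nonsing_inv _ (by rw [hP.hkd x hx]; exact isUnit_one)
  have hE : (f p)⁻¹ * ((x :: l).map R).prod * f q * J2 =
      ((f p)⁻¹ * k x) * ((k x)⁻¹ * ((x :: l).map R).prod * f q * J2) := by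
    calc (f p)⁻¹ * ((x :: l).map R).prod * f q * J2
        = (f p)⁻¹ * 1 * ((x :: l).map R).prod * f q * J2 := by
          simp only [Matrix.mul_assoc, Matrix.mul_one, Matrix.one_mul]
      _ = (f p)⁻¹ * (k x * (k x)⁻¹) * ((x :: l).map R).prod * f q * J2 := by rw [hk]
      _ = _ := by simp only [Matrix.mul_assoc]
  rw [hE]
  have hpos : ∀ i j, 0 ≤ σ * ((f p)⁻¹ * k x) i j := fun i j => le_trans hmu.le (h i j).1
  have hpos' : ∀ i j, 0 ≤ τ * ((k x)⁻¹ * ((x :: l).map R).prod * f q * J2) i j := fun i j =>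
    le_trans (by positivity) (h3 i j)
  refine ⟨σ * τ, pm_PolyA1_sgn hσ hτ, ?_, ?_, pm_PolyA1_col hpos h4⟩
  · intro i j
    have h5 := pm_PolyA1_mul (a := mu) (b := mu * lb ^ l.length) hmu.le (by positivity)
      (fun i j => (h i j).1) h3 i j
    have h6 : mu ^ 2 * lb ^ ((x :: l).length - 1) = mu * (mu * lb ^ l.length) := by
      rw [List.length_cons, Nat.add_sub_cancel]; ring
    rw [h6]
    exact h5
  · exact pm_PolyA1_row (fun i i' j => pm_PolyA1_cmp hmu (by linarith) (h i j).2 (h i' j).1) hpos'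

/-- symmetric squares of balanced positive matrices of determinant one -/
theorem symMat_bal {K₂ u₀ : ℝ} (hK : 1 ≤ K₂) (hu : 0 < u₀) {T : M2} (hT : ∀ i j, 0 < T i j)
    (hdet : T.det = 1) (hrow : ∀ i i' j, T i j ≤ K₂ * T i' j) (hcol : ∀ i j j', T i j ≤ K₂ * T i j')
    (hoff : u₀ ≤ T 0 1 * T 1 0) :
    Bal (2 * K₂ ^ 2) u₀ (symMat T) := by
  have hK0 : 0 < K₂ := by linarith
  have hp := hT 0 0
  have hq := hT 0 1
  have hr := hT 1 0
  have hs := hT 1 1
  have r1 := hrow 0 1 0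
  have r2 := hrow 1 0 0
  have r3 := hrow 0 1 1
  have r4 := hrow 1 0 1
  have c1 := hcol 0 0 1
  have c2 := hcol 0 1 0
  have c3 := hcol 1 0 1
  have c4 := hcol 1 1 0
  have I : ∀ {x : ℝ}, 0 < x → x ≤ K₂ * x := fun hx => by nlinarith
  have ip := I hp
  have iq := I hq
  have ir := I hr
  have is := I hs
  have F : ∀ {x z y w : ℝ}, 0 < x → 0 < z → 0 < y → 0 < w → x ≤ K₂ * y → z ≤ K₂ * w →
      x * z ≤ K₂ ^ 2 * (y * w) := by
    intro x z y w hx hz hy hw h1 h2
    calc x * z ≤ (K₂ * y) * (K₂ * w) := mul_le_mul h1 h2 hz.le (by positivity)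
      _ = K₂ ^ 2 * (y * w) := by ring
  have hd : T 0 0 * T 1 1 = 1 + T 0 1 * T 1 0 := by
    have h := hdet
    rw [Matrix.det_fin_two] at h
    linarith
  have m1 := mul_pos hp hp
  have m2 := mul_pos hp hq
  have m3 := mul_pos hp hr
  have m4 := mul_pos hp hs
  have m5 := mul_pos hq hq
  have m6 := mul_pos hq hr
  have m7 := mul_pos hq hs
  have m8 := mul_pos hr hr
  have m9 := mul_pos hr hs
  have m10 := mul_pos hs hs
  refine ⟨?_, ?_, ?_, ?_⟩
  · intro i j
    fin_cases i <;> fin_cases j <;> simp only [symMat, Matrix.of_apply, Matrix.cons_val', Matrix.cons_val_zero, Matrix.cons_val_one, Matrix.cons_val, Fin.zero_eta, Fin.mk_one, Fin.reduceFinMk] <;> positivity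
  · clear hd
    have f0 := F hp hp hp hp ip ip
    have f1 := F hp hp hp hr ip r1
    have f2 := F hp hp hr hr r1 r1
    have f3 := F hp hr hp hp ip r2
    have f4 := F hp hr hp hr ip ir
    have f5 := F hp hr hr hr r1 ir
    have f6 := F hr hr hp hp r2 r2
    have f7 := F hr hr hp hr r2 ir
    have f8 := F hr hr hr hr ir ir
    have f9 := F hp hq hp hq ip iq
    have f10 := F hp hq hp hs ip r3
    have f11 := F hp hq hr hq r1 iq
    have f12 := F hp hq hr hs r1 r3
    have f13 := F hp hs hp hq ip r4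
    have f14 := F hp hs hp hs ip is
    have f15 := F hp hs hr hq r1 r4
    have f16 := F hp hs hr hs r1 is
    have f17 := F hr hq hp hq r2 iq
    have f18 := F hr hq hp hs r2 r3
    have f19 := F hr hq hr hq ir iq
    have f20 := F hr hq hr hs ir r3
    have f21 := F hr hs hp hq r2 r4
    have f22 := F hr hs hp hs r2 is
    have f23 := F hr hs hr hq ir r4
    have f24 := F hr hs hr hs ir is
    have f25 := F hq hq hq hq iq iq
    have f26 := F hq hq hq hs iq r3
    have f27 := F hq hq hs hs r3 r3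
    have f28 := F hq hs hq hq iq r4
    have f29 := F hq hs hq hs iq is
    have f30 := F hq hs hs hs r3 is
    have f31 := F hs hs hq hq r4 r4
    have f32 := F hs hs hq hs r4 is
    have f33 := F hs hs hs hs is is
    intro i i' j
    fin_cases i <;> fin_cases i' <;> fin_cases j <;> simp only [symMat, Matrix.of_apply, Matrix.cons_val', Matrix.cons_val_zero, Matrix.cons_val_one, Matrix.cons_val, Fin.zero_eta, Fin.mk_one, Fin.reduceFinMk] <;> linarith
  · clear hd
    have g0 := F hp hp hp hp ip ip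
    have g1 := F hp hp hp hq ip c1
    have g2 := F hp hp hq hq c1 c1
    have g3 := F hp hq hp hp ip c2
    have g4 := F hp hq hp hq ip iq
    have g5 := F hp hq hq hq c1 iq
    have g6 := F hq hq hp hp c2 c2
    have g7 := F hq hq hp hq c2 iq
    have g8 := F hq hq hq hq iq iq
    have g9 := F hp hr hp hr ip ir
    have g10 := F hp hr hp hs ip c3
    have g11 := F hp hr hq hr c1 ir
    have g12 := F hp hr hq hs c1 c3
    have g13 := F hp hs hp hr ip c4
    have g14 := F hp hs hp hs ip is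
    have g15 := F hp hs hq hr c1 c4
    have g16 := F hp hs hq hs c1 is
    have g17 := F hq hr hp hr c2 ir
    have g18 := F hq hr hp hs c2 c3
    have g19 := F hq hr hq hr iq ir
    have g20 := F hq hr hq hs iq c3
    have g21 := F hq hs hp hr c2 c4
    have g22 := F hq hs hp hs c2 is
    have g23 := F hq hs hq hr iq c4
    have g24 := F hq hs hq hs iq is
    have g25 := F hr hr hr hr ir ir
    have g26 := F hr hr hr hs ir c3
    have g27 := F hr hr hs hs c3 c3
    have g28 := F hr hs hr hr ir c4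
    have g29 := F hr hs hr hs ir is
    have g30 := F hr hs hs hs c3 is
    have g31 := F hs hs hr hr c4 c4
    have g32 := F hs hs hr hs c4 is
    have g33 := F hs hs hs hs is is
    intro i j j'
    fin_cases i <;> fin_cases j <;> fin_cases j' <;> simp only [symMat, Matrix.of_apply, Matrix.cons_val', Matrix.cons_val_zero, Matrix.cons_val_one, Matrix.cons_val, Fin.zero_eta, Fin.mk_one, Fin.reduceFinMk] <;> linarith
  · have e : dp (symMat T) = (T 0 0 * T 1 1) ^ 2 * (T 0 0 * T 1 1 + T 0 1 * T 1 0) := by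
      simp only [dp, symMat, Matrix.of_apply, Matrix.cons_val', Matrix.cons_val_zero, Matrix.cons_val_one, Matrix.cons_val]
      ring
    rw [e, hd]
    set u := T 0 1 * T 1 0 with hu'
    have h0 : 0 < u := lt_of_lt_of_le hu hoff
    have h1 : (1 + u) ^ 2 * (1 + u + u) = 1 + u + (3 * u + 5 * u ^ 2 + 2 * u ^ 3) := by ring
    rw [h1]
    have h2 : 0 ≤ 3 * u + 5 * u ^ 2 + 2 * u ^ 3 := by positivity
    linarith

theorem mn_symMat {T : M2} {c : ℝ} (hc : 0 ≤ c) (hT : ∀ i j, c ≤ T i j) : c ^ 2 ≤ mn (symMat T) := by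
  have hcc : c * c = c ^ 2 := by ring
  obtain ⟨i, j, hij⟩ := exists_mn (symMat T)
  rw [hij]
  have key : ∀ a b a' b', c ^ 2 ≤ T a b * T a' b' := fun a b a' b' => by
    have := mul_le_mul (hT a b) (hT a' b') hc (le_trans hc (hT a b))
    linarith
  have h0 : 0 ≤ c ^ 2 := sq_nonneg c
  have k1 := key 0 0 0 0
  have k2 := key 0 0 0 1
  have k3 := key 0 1 0 1
  have k4 := key 0 0 1 0
  have k5 := key 0 0 1 1
  have k6 := key 0 1 1 0
  have k7 := key 0 1 1 1
  have k8 := key 1 0 1 0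
  have k9 := key 1 0 1 1
  have k10 := key 1 1 1 1
  fin_cases i <;> fin_cases j <;> simp only [symMat, Matrix.of_apply, Matrix.cons_val', Matrix.cons_val_zero, Matrix.cons_val_one, Matrix.cons_val, Fin.zero_eta, Fin.mk_one, Fin.reduceFinMk] <;> linarith

private theorem pm_PolyA3_append {Γ ι : Type} [Group Γ] (el : ι → ι → Γ) :
    ∀ (u v : List ι), Even u.length → evw el (u ++ v) = evw el u * evw el v
  | [], v, _ => by simp [evw]
  | [x], v, h => by simp at h
  | x :: y :: u, v, h => by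
    have h' : Even u.length := by
      rw [List.length_cons, List.length_cons, add_assoc] at h
      exact (Nat.even_add.mp h).mpr (by norm_num)
    rw [List.cons_append, List.cons_append]
    show el x y * evw el (u ++ v) = el x y * evw el u * evw el v
    rw [pm_PolyA3_append el u v h', mul_assoc]

private theorem pm_PolyA3_inv {Γ ι : Type} [Group Γ] (el : ι → ι → Γ) (A : Finset ι)
    (h1 : ∀ x ∈ A, el x x = 1) (h2 : ∀ x ∈ A, ∀ y ∈ A, ∀ w ∈ A, el x y * el y w = el x w) :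
    ∀ (w : List ι), (∀ x ∈ w, x ∈ A) → Even w.length →
      ∃ w' : List ι, (∀ x ∈ w', x ∈ A) ∧ Even w'.length ∧ evw el w' = (evw el w)⁻¹
  | [], _, _ => ⟨[], by simp, by simp, by simp [evw]⟩
  | [x], _, h => by simp at h
  | x :: y :: u, hA, h => by
    have h' : Even u.length := by
      rw [List.length_cons, List.length_cons, add_assoc] at h
      exact (Nat.even_add.mp h).mpr (by norm_num)
    obtain ⟨w', hw, he, hv⟩ := pm_PolyA3_inv el A h1 h2 u
      (fun z hz => hA z (List.mem_cons_of_mem _ (List.mem_cons_of_mem _ hz))) h'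
    have hx : x ∈ A := hA x List.mem_cons_self
    have hy : y ∈ A := hA y (List.mem_cons_of_mem _ List.mem_cons_self)
    refine ⟨w' ++ [y, x], ?_, ?_, ?_⟩
    · intro z hz
      rw [List.mem_append] at hz
      rcases hz with hz | hz
      · exact hw z hz
      · rw [List.mem_cons, List.mem_singleton] at hz
        rcases hz with rfl | rfl
        · exact hy
        · exact hx
    · rw [List.length_append]
      exact he.add (by simp)
    · rw [pm_PolyA3_append el w' _ he, hv]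
      show (evw el u)⁻¹ * (el y x * 1) = (el x y * evw el u)⁻¹
      have e : el y x = (el x y)⁻¹ := by
        rw [eq_inv_iff_mul_eq_one, h2 y hy x hx y hy, h1 y hy]
      rw [mul_one, _root_.mul_inv_rev, e]

private theorem pm_PolyA3_cancel {Γ ι : Type} [Group Γ] (el : ι → ι → Γ) (A : Finset ι)
    (h1 : ∀ x ∈ A, el x x = 1) (h2 : ∀ x ∈ A, ∀ y ∈ A, ∀ w ∈ A, el x y * el y w = el x w)
    (x : ι) (hx : x ∈ A) (v : List ι) (hv : ∀ y ∈ v, y ∈ A) :
    ∀ (u : List ι), (∀ y ∈ u, y ∈ A) → Even (u ++ x :: x :: v).length →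
      evw el (u ++ x :: x :: v) = evw el (u ++ v)
  | [], _, _ => by
    show el x x * evw el v = evw el v
    rw [h1 x hx, one_mul]
  | [y], hu, h => by
    have hy : y ∈ A := hu y List.mem_cons_self
    cases v with
    | nil => simp at h; exact absurd h (by decide)
    | cons z v' =>
      have hz : z ∈ A := hv z List.mem_cons_self
      show el y x * (el x z * evw el v') = el y z * evw el v'
      rw [← mul_assoc, h2 y hy x hx z hz]
  | y :: y' :: u, hu, h => by
    have h' : Even (u ++ x :: x :: v).length := by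
      rw [List.cons_append, List.cons_append, List.length_cons, List.length_cons, add_assoc] at h
      exact (Nat.even_add.mp h).mpr (by norm_num)
    show el y y' * evw el (u ++ x :: x :: v) = el y y' * evw el (u ++ v)
    rw [pm_PolyA3_cancel el A h1 h2 x hx v hv u
      (fun z hz => hu z (List.mem_cons_of_mem _ (List.mem_cons_of_mem _ hz))) h']

/-- every element of the polygon group is the value of a reduced even word -/
theorem poly_word {Γ Z Q ι : Type} [Group Γ] {ps : PS Γ Z Q} {G : Subgroup Γ} {S : Set Q} {Z0 : Set Z}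
    {A : Finset ι} {R : ι → M2} {f : Q → M2} {a b : Q → ι} {el : ι → ι → Γ} {Zc : Z → GL (Fin 3) ℝ}
    (hV : PolyV ps G S Z0 A R f a b el Zc) (hA : A.Nonempty) {g : Γ} (hg : g ∈ G) :
    ∃ w : List ι, (∀ x ∈ w, x ∈ A) ∧ w.IsChain (· ≠ ·) ∧ Even w.length ∧ evw el w = g := by
  classical
  have h1 := hV.el_self
  have h2 := hV.el_mul
  have hex : ∃ w : List ι, (∀ x ∈ w, x ∈ A) ∧ Even w.length ∧ evw el w = g := by
    have hcl := hV.gen hg
    clear hg
    induction hcl using Subgroup.closure_induction with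
    | mem y hy =>
      obtain ⟨x, hx, y', hy', rfl⟩ := hy
      refine ⟨[x, y'], ?_, by simp, by simp [evw]⟩
      intro z hz
      rw [List.mem_cons, List.mem_singleton] at hz
      rcases hz with rfl | rfl
      · exact hx
      · exact hy'
    | one => exact ⟨[], by simp, by simp, rfl⟩
    | mul y z _ _ ihy ihz =>
      obtain ⟨w1, a1, a2, a3⟩ := ihy
      obtain ⟨w2, b1, b2, b3⟩ := ihz
      refine ⟨w1 ++ w2, ?_, ?_, ?_⟩
      · intro t ht
        rw [List.mem_append] at ht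
        rcases ht with ht | ht
        · exact a1 t ht
        · exact b1 t ht
      · rw [List.length_append]; exact a2.add b2
      · rw [pm_PolyA3_append el w1 w2 a2, a3, b3]
    | inv y _ ihy =>
      obtain ⟨w1, a1, a2, a3⟩ := ihy
      obtain ⟨w', b1, b2, b3⟩ := pm_PolyA3_inv el A h1 h2 w1 a1 a2
      exact ⟨w', b1, b2, by rw [b3, a3]⟩
  have hex' : ∃ n : ℕ, ∃ w : List ι, w.length = n ∧ (∀ x ∈ w, x ∈ A) ∧ Even w.length ∧
      evw el w = g := by
    obtain ⟨w, hw⟩ := hex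
    exact ⟨w.length, w, rfl, hw⟩
  obtain ⟨w, hlen, hwA, hwe, hwg⟩ := Nat.find_spec hex'
  refine ⟨w, hwA, ?_, hwe, hwg⟩
  rw [List.isChain_iff_forall_rel_of_append_cons_cons]
  rintro x y u v hdec hxy
  subst hxy
  have hx : x ∈ A := hwA x (by rw [hdec]; simp)
  have hu : ∀ y ∈ u, y ∈ A := fun y hy => hwA y (by rw [hdec]; simp [hy])
  have hv : ∀ y ∈ v, y ∈ A := fun y hy => hwA y (by rw [hdec]; simp [hy])
  have hl : w.length = (u ++ v).length + 2 := by
    rw [hdec, List.length_append, List.length_append, List.length_cons, List.length_cons]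
    ring
  have hcan := pm_PolyA3_cancel el A h1 h2 x hx v hv u hu (by rw [← hdec]; exact hwe)
  refine Nat.find_min hex' (m := (u ++ v).length) (by omega) ⟨u ++ v, rfl, ?_, ?_, ?_⟩
  · intro t ht
    rw [List.mem_append] at ht
    rcases ht with ht | ht
    · exact hu t ht
    · exact hv t ht
  · rw [hl] at hwe
    exact (Nat.even_add.mp hwe).mpr (by norm_num)
  · rw [← hcan, ← hdec]
    exact hwg

/-! ### Helpers for `poly_core` -/

private theorem pm_PolyA4_evw_append {Γ ι : Type} [Group Γ] (el : ι → ι → Γ) :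
    ∀ (n : ℕ) (u v : List ι), u.length = 2 * n → evw el (u ++ v) = evw el u * evw el v := by
  intro n
  induction n with
  | zero =>
    intro u v hu
    have : u = [] := List.length_eq_zero_iff.mp (by omega)
    subst this
    simp [evw]
  | succ n ih =>
    intro u v hu
    match u, hu with
    | [], h => simp at h
    | [_], h => simp at h; omega
    | x :: y :: l, h =>
      have hl : l.length = 2 * n := by simp at h; omega
      simp only [List.cons_append, evw]
      rw [ih l v hl, mul_assoc]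

private theorem pm_PolyA4_inv {Γ ι : Type} [Group Γ] {A : Finset ι} {el : ι → ι → Γ}
    (h1 : ∀ x ∈ A, el x x = 1)
    (h2 : ∀ x ∈ A, ∀ y ∈ A, ∀ w ∈ A, el x y * el y w = el x w) {x y : ι} (hx : x ∈ A)
    (hy : y ∈ A) : el y x = (el x y)⁻¹ := by
  rw [eq_inv_iff_mul_eq_one, h2 y hy x hx y hy, h1 y hy]

private theorem pm_PolyA4_rev {Γ ι : Type} [Group Γ] {A : Finset ι} {el : ι → ι → Γ}
    (h1 : ∀ x ∈ A, el x x = 1)
    (h2 : ∀ x ∈ A, ∀ y ∈ A, ∀ w ∈ A, el x y * el y w = el x w) :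
    ∀ (n : ℕ) (u : List ι), u.length = 2 * n → (∀ x ∈ u, x ∈ A) →
      evw el u.reverse = (evw el u)⁻¹ := by
  intro n
  induction n with
  | zero =>
    intro u hu _
    have : u = [] := List.length_eq_zero_iff.mp (by omega)
    subst this
    simp [evw]
  | succ n ih =>
    intro u hu hA
    match u, hu, hA with
    | [], h, _ => simp at h
    | [_], h, _ => simp at h; omega
    | x :: y :: l, h, hA =>
      have hl : l.length = 2 * n := by simp at h; omega
      have hx : x ∈ A := hA x (by simp)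
      have hy : y ∈ A := hA y (by simp)
      have hlA : ∀ z ∈ l, z ∈ A := fun z hz => hA z (by simp [hz])
      have e : (x :: y :: l).reverse = l.reverse ++ [y, x] := by simp
      rw [e, pm_PolyA4_evw_append el n l.reverse [y, x] (by simpa using hl), ih l hl hlA]
      have e2 : evw el [y, x] = (el x y)⁻¹ := by
        simp only [evw, mul_one]
        exact pm_PolyA4_inv h1 h2 hx hy
      rw [e2, ← _root_.mul_inv_rev]
      rfl

private theorem pm_PolyA4_pre {Γ ι : Type} [Group Γ] {A : Finset ι} {el : ι → ι → Γ}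
    (h1 : ∀ x ∈ A, el x x = 1)
    (h2 : ∀ x ∈ A, ∀ y ∈ A, ∀ w ∈ A, el x y * el y w = el x w) {a b : ι} (ha : a ∈ A)
    (hb : b ∈ A) : ∀ (n : ℕ) (u rest : List ι), u.length = n → (∀ x ∈ u, x = a ∨ x = b) →
      u.IsChain (· ≠ ·) → (∀ x ∈ rest, x ∈ A) → Even (u ++ rest).length →
      ∃ (m : ℤ) (s : Bool), Even (opt s a ++ rest).length ∧
        evw el (u ++ rest) = (el a b) ^ m * evw el (opt s a ++ rest) := by
  have hba : el b a = (el a b)⁻¹ := pm_PolyA4_inv h1 h2 ha hb
  intro n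
  induction n using Nat.strong_induction_on with
  | _ n ih =>
    intro u rest hu hab hch hA hev
    match u, hu, hab, hch, hev with
    | [], _, _, _, hev => exact ⟨0, false, by simpa [opt] using hev, by simp [opt]⟩
    | [x], _, hab, _, hev =>
      have hr : Even (opt true a ++ rest).length := by simpa [opt] using hev
      rcases hab x (by simp) with h | h
      · subst h
        exact ⟨0, true, hr, by simp [opt]⟩
      · subst h
        refine ⟨-1, true, hr, ?_⟩
        match rest, hA, hev with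
        | [], _, hev => simp at hev
        | y :: l, hA, _ =>
          simp only [opt, if_true, List.cons_append, List.nil_append, evw]
          rw [_root_.zpow_neg_one, ← mul_assoc, ← hba, h2 x hb a ha y (hA y (by simp))]
    | x :: y :: l, hu, hab, hch, hev =>
      have hx := hab x (by simp)
      have hy := hab y (by simp)
      have hxy : x ≠ y := by
        rw [List.isChain_cons_cons] at hch
        exact hch.1
      have hl : l.IsChain (· ≠ ·) := by
        rw [List.isChain_cons_cons] at hch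
        have := hch.2
        exact List.IsChain.tail this
      obtain ⟨m, s, g1, g2⟩ := ih l.length (by simp at hu; omega) l rest rfl
        (fun z hz => hab z (by simp [hz])) hl hA (by
          simp only [List.cons_append, List.length_cons] at hev
          rw [Nat.even_add_one, Nat.even_add_one, not_not] at hev
          exact hev)
      have hxy' : ∃ e : ℤ, el x y = (el a b) ^ e := by
        rcases hx with rfl | rfl <;> rcases hy with rfl | rfl
        · exact absurd rfl hxy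
        · exact ⟨1, by simp⟩
        · exact ⟨-1, by rw [_root_.zpow_neg_one, hba]⟩
        · exact absurd rfl hxy
      obtain ⟨e, he⟩ := hxy'
      refine ⟨e + m, s, g1, ?_⟩
      simp only [List.cons_append, evw]
      rw [g2, he, _root_.zpow_add, mul_assoc]

private theorem pm_PolyA4_suf {Γ ι : Type} [Group Γ] {A : Finset ι} {el : ι → ι → Γ}
    (h1 : ∀ x ∈ A, el x x = 1)
    (h2 : ∀ x ∈ A, ∀ y ∈ A, ∀ w ∈ A, el x y * el y w = el x w) {a b : ι} (ha : a ∈ A)
    (hb : b ∈ A) (u rest : List ι) (hab : ∀ x ∈ u, x = a ∨ x = b)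
    (hch : u.IsChain (· ≠ ·)) (hA : ∀ x ∈ rest, x ∈ A) (hev : Even (rest ++ u).length) :
    ∃ (m : ℤ) (s : Bool), Even (rest ++ opt s a).length ∧
      evw el (rest ++ u) = evw el (rest ++ opt s a) * (el a b) ^ m := by
  have huA : ∀ x ∈ u, x ∈ A := fun x hx => by
    rcases hab x hx with rfl | rfl
    · exact ha
    · exact hb
  obtain ⟨m, s, g1, g2⟩ := pm_PolyA4_pre h1 h2 ha hb u.reverse.length u.reverse rest.reverse rfl
    (fun x hx => hab x (List.mem_reverse.mp hx))
    (by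
      rw [List.isChain_reverse]
      exact hch.imp fun _ _ h => h.symm)
    (fun x hx => hA x (List.mem_reverse.mp hx))
    (by
      rw [← List.reverse_append, List.length_reverse]
      exact hev)
  have hopt : (opt s a).reverse = opt s a := by cases s <;> simp [opt]
  have hoA : ∀ x ∈ opt s a, x ∈ A := by
    intro x hx
    cases s
    · simp [opt] at hx
    · simp only [opt, if_true, List.mem_singleton] at hx
      rw [hx]; exact ha
  have e1 : opt s a ++ rest.reverse = (rest ++ opt s a).reverse := by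
    rw [List.reverse_append, hopt]
  have g1' : Even (rest ++ opt s a).length := by
    rw [e1, List.length_reverse] at g1
    exact g1
  obtain ⟨k, hk⟩ := hev
  obtain ⟨k', hk'⟩ := id g1'
  have r1 := pm_PolyA4_rev h1 h2 k (rest ++ u) (by omega) (by
    intro x hx
    rcases List.mem_append.mp hx with h | h
    · exact hA x h
    · exact huA x h)
  have r2 := pm_PolyA4_rev h1 h2 k' (rest ++ opt s a) (by omega) (by
    intro x hx
    rcases List.mem_append.mp hx with h | h
    · exact hA x h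
    · exact hoA x h)
  refine ⟨-m, s, g1', ?_⟩
  rw [← List.reverse_append, e1, r1, r2] at g2
  rw [← _root_.inv_inv (evw el (rest ++ u)), g2, _root_.mul_inv_rev, _root_.inv_inv,
    _root_.zpow_neg]

private theorem pm_PolyA4_split {ι : Type} (P : ι → Prop) [DecidablePred P] :
    ∀ l : List ι, ∃ u v : List ι, l = u ++ v ∧ (∀ x ∈ u, P x) ∧ (∀ x ∈ v.head?, ¬ P x) := by
  intro l
  induction l with
  | nil => exact ⟨[], [], rfl, by simp, by simp⟩
  | cons x l ih =>
    by_cases hx : P x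
    · obtain ⟨u, v, h1, h2, h3⟩ := ih
      refine ⟨x :: u, v, by rw [h1]; rfl, ?_, h3⟩
      intro y hy
      rcases List.mem_cons.mp hy with rfl | h
      · exact hx
      · exact h2 y h
    · exact ⟨[], x :: l, rfl, by simp, by simpa using hx⟩

private theorem pm_PolyA4_split' {ι : Type} (P : ι → Prop) [DecidablePred P] (l : List ι) :
    ∃ v u : List ι, l = v ++ u ∧ (∀ x ∈ u, P x) ∧ (∀ x ∈ v.getLast?, ¬ P x) := by
  obtain ⟨u, v, h1, h2, h3⟩ := pm_PolyA4_split P l.reverse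
  refine ⟨v.reverse, u.reverse, ?_, ?_, ?_⟩
  · rw [← List.reverse_append, ← h1, List.reverse_reverse]
  · intro x hx
    exact h2 x (List.mem_reverse.mp hx)
  · rw [List.getLast?_reverse]
    exact h3

private theorem pm_PolyA4_det {ι : Type} {A : Finset ι} {R : ι → M2}
    (hRd : ∀ x ∈ A, (R x).det = -1) : ∀ w : List ι, (∀ x ∈ w, x ∈ A) →
      ((w.map R).prod).det = (-1) ^ w.length := by
  intro w
  induction w with
  | nil => intro _; simp
  | cons x l ih =>
    intro hw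
    rw [List.map_cons, List.prod_cons, Matrix.det_mul, hRd x (hw x (by simp)),
      ih (fun y hy => hw y (by simp [hy])), List.length_cons, pow_succ']

private theorem pm_PolyA4_symJ : symMat J2 = J3 := by
  ext i j
  fin_cases i <;> fin_cases j <;> simp [symMat, J2, J3]

private theorem pm_PolyA4_symneg {σ : ℝ} (hσ : σ = 1 ∨ σ = -1) (N : M2) :
    symMat (σ • N) = symMat N := by
  rcases hσ with rfl | rfl
  · rw [one_smul]
  · ext i j
    fin_cases i <;> fin_cases j <;> simp [symMat]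

/-- transition matrices of even words -/
private theorem pm_PolyA4_TT {Γ Z Q ι : Type} [Group Γ] {ps : PS Γ Z Q} {G : Subgroup Γ}
    {S : Set Q} {Z0 : Set Z} {A : Finset ι} {R : ι → M2} {f : Q → M2} {a b : Q → ι}
    {el : ι → ι → Γ} {Zc : Z → GL (Fin 3) ℝ} (hV : PolyV ps G S Z0 A R f a b el Zc)
    (hfd : ∀ p ∈ S, (f p).det = 1) {p q : Q} (hp : p ∈ S) (hq : q ∈ S) {z : Z} (hz : z ∈ Z0)
    (n : ℕ) (W : List ι) (hW : W.length = 2 * n) (hA : ∀ x ∈ W, x ∈ A) :
    ps.TT z p (evw el W) q = symMat ((f p)⁻¹ * (W.map R).prod * f q * J2) := by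
  have key : ∀ (n : ℕ) (W : List ι), W.length = 2 * n → (∀ x ∈ W, x ∈ A) →
      (ps.r z (evw el W) : M3) * (Zc z : M3) = (Zc z : M3) * symMat (W.map R).prod := by
    intro n
    induction n with
    | zero =>
      intro u hu _
      have : u = [] := List.length_eq_zero_iff.mp (by omega)
      subst this
      simp [evw, symMat_one]
    | succ n ih =>
      intro u hu hA
      match u, hu, hA with
      | [], h, _ => simp at h
      | [_], h, _ => simp at h; omega
      | x :: y :: l, h, hA =>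
        have hl : l.length = 2 * n := by simp at h; omega
        have hx : x ∈ A := hA x (by simp)
        have hy : y ∈ A := hA y (by simp)
        have hlA : ∀ z ∈ l, z ∈ A := fun z hz => hA z (by simp [hz])
        have e1 : evw el (x :: y :: l) = el x y * evw el l := rfl
        have e2 : (((x :: y :: l).map R).prod) = (R x * R y) * (l.map R).prod := by
          simp [mul_assoc]
        rw [e1, e2, map_mul, Units.val_mul, Matrix.mul_assoc, ih l hl hlA, ← Matrix.mul_assoc,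
          hV.hr z hz x hx y hy, Matrix.mul_assoc, ← symMat_mul]
  have hk := key n W hW hA
  have hFp := hV.hF z hz p hp
  have hFq := hV.hF z hz q hq
  have hdp : IsUnit (f p).det := by rw [hfd p hp]; exact isUnit_one
  have hinv : (((ps.F p z)⁻¹ : GL (Fin 3) ℝ) : M3) * (Zc z : M3) = symMat (f p)⁻¹ := by
    have h1 : (((ps.F p z)⁻¹ : GL (Fin 3) ℝ) : M3) * (ps.F p z : M3) = 1 := Units.inv_mul _
    rw [hFp, ← Matrix.mul_assoc] at h1
    have h2 : symMat (f p) * symMat (f p)⁻¹ = 1 := by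
      rw [← symMat_mul, Matrix.mul_nonsing_inv _ hdp, symMat_one]
    calc (((ps.F p z)⁻¹ : GL (Fin 3) ℝ) : M3) * (Zc z : M3)
        = (((ps.F p z)⁻¹ : GL (Fin 3) ℝ) : M3) * (Zc z : M3) *
            (symMat (f p) * symMat (f p)⁻¹) := by rw [h2, Matrix.mul_one]
      _ = ((((ps.F p z)⁻¹ : GL (Fin 3) ℝ) : M3) * (Zc z : M3) * symMat (f p)) *
            symMat (f p)⁻¹ := by simp only [Matrix.mul_assoc]
      _ = _ := by rw [h1, Matrix.one_mul]
  rw [PS.TT, hFq, ← pm_PolyA4_symJ, symMat_mul, symMat_mul, symMat_mul, ← hinv]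
  calc (((ps.F p z)⁻¹ : GL (Fin 3) ℝ) : M3) * (ps.r z (evw el W) : M3) *
        ((Zc z : M3) * symMat (f q)) * symMat J2
      = (((ps.F p z)⁻¹ : GL (Fin 3) ℝ) : M3) * ((ps.r z (evw el W) : M3) * (Zc z : M3)) *
        symMat (f q) * symMat J2 := by simp only [Matrix.mul_assoc]
    _ = _ := by rw [hk]; simp only [Matrix.mul_assoc]

/-- positive up to sign, with bounds -/
private def pm_PolyA4_Q (c Kr Kc : ℝ) (N : M2) : Prop :=
  ∃ σ : ℝ, (σ = 1 ∨ σ = -1) ∧ (∀ i j, c ≤ σ * N i j) ∧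
    (∀ i i' j, σ * N i j ≤ Kr * (σ * N i' j)) ∧ (∀ i j j', σ * N i j ≤ Kc * (σ * N i j'))

private theorem pm_PolyA4_Q_mono {c c' Kr Kr' Kc Kc' : ℝ} {N : M2} (hc : 0 < c') (hcc : c' ≤ c)
    (h1 : Kr ≤ Kr') (h2 : Kc ≤ Kc') (h : pm_PolyA4_Q c Kr Kc N) : pm_PolyA4_Q c' Kr' Kc' N := by
  obtain ⟨σ, hσ, g1, g2, g3⟩ := h
  have hpos : ∀ i j, 0 < σ * N i j := fun i j => lt_of_lt_of_le (lt_of_lt_of_le hc hcc) (g1 i j)
  exact ⟨σ, hσ, fun i j => hcc.trans (g1 i j),
    fun i i' j => (g2 i i' j).trans (mul_le_mul_of_nonneg_right h1 (hpos i' j).le),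
    fun i j j' => (g3 i j j').trans (mul_le_mul_of_nonneg_right h2 (hpos i j').le)⟩

private theorem pm_PolyA4_Q_left {c Kr Kc M m : ℝ} {N : M2} (hc : 0 < c) (hM : 1 ≤ M)
    (hm1 : 1 / M ≤ |m|) (hm2 : |m| ≤ M) (h : pm_PolyA4_Q c Kr Kc N) :
    pm_PolyA4_Q (c / M) (M ^ 2 * Kr) Kc (!![0, m; 1 / m, 0] * N) := by
  obtain ⟨σ, hσ, g1, g2, g3⟩ := h
  have hM0 : 0 < M := by linarith
  have hma : 0 < |m| := lt_of_lt_of_le (by positivity) hm1
  have hm0 : m ≠ 0 := abs_pos.mp hma
  have hpos : ∀ i j, 0 < σ * N i j := fun i j => lt_of_lt_of_le hc (g1 i j)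
  have hinv1 : 1 / M ≤ 1 / |m| := one_div_le_one_div_of_le hma hm2
  have hinv2 : 1 / |m| ≤ M := by
    rw [div_le_iff₀ hma]
    have := mul_le_mul_of_nonneg_left hm1 hM0.le
    rwa [mul_one_div_cancel hM0.ne'] at this
  have hKr : 1 ≤ Kr := by
    have := g2 0 0 0
    have h0 := hpos 0 0
    by_contra hlt
    push Not at hlt
    nlinarith
  have hM2 : 1 ≤ M ^ 2 := one_le_pow₀ hM
  have e0 : ∀ j, (!![0, m; 1 / m, 0] * N) 0 j = m * N 1 j := by
    intro j; simp [Matrix.mul_apply, Fin.sum_univ_two]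
  have e1 : ∀ j, (!![0, m; 1 / m, 0] * N) 1 j = 1 / m * N 0 j := by
    intro j; simp [Matrix.mul_apply, Fin.sum_univ_two]
  obtain ⟨τ, hτ, hτm⟩ : ∃ τ : ℝ, (τ = 1 ∨ τ = -1) ∧ τ * m = |m| := by
    rcases le_total 0 m with h | h
    · exact ⟨1, Or.inl rfl, by rw [abs_of_nonneg h, one_mul]⟩
    · exact ⟨-1, Or.inr rfl, by rw [abs_of_nonpos h]; ring⟩
  have hττ : τ * τ = 1 := by rcases hτ with rfl | rfl <;> norm_num
  have hτm' : τ * (1 / m) = 1 / |m| := by
    rw [← hτm]
    have hτ0 : τ ≠ 0 := by rcases hτ with rfl | rfl <;> norm_num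
    field_simp
    rw [pow_two, hττ]
  have f0 : ∀ j, (σ * τ) * (!![0, m; 1 / m, 0] * N) 0 j = |m| * (σ * N 1 j) := by
    intro j; rw [e0, ← hτm]; ring
  have f1 : ∀ j, (σ * τ) * (!![0, m; 1 / m, 0] * N) 1 j = 1 / |m| * (σ * N 0 j) := by
    intro j; rw [e1, ← hτm']; ring
  have hsc : ∀ t y : ℝ, 1 / M ≤ t → c ≤ y → c / M ≤ t * y := by
    intro t y ht hy
    calc c / M = 1 / M * c := by ring
      _ ≤ t * y := mul_le_mul ht hy hc.le ((by positivity : (0:ℝ) ≤ 1 / M).trans ht)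
  have hswap : ∀ s t y y' : ℝ, 0 < s → s ≤ M → 1 / M ≤ t → 0 < y' → y ≤ Kr * y' →
      s * y ≤ M ^ 2 * Kr * (t * y') := by
    intro s t y y' hs hsM ht hy' hyy
    have h1 : 1 ≤ M * t := by
      have := mul_le_mul_of_nonneg_left ht hM0.le
      rwa [mul_one_div_cancel hM0.ne'] at this
    calc s * y ≤ s * (Kr * y') := mul_le_mul_of_nonneg_left hyy hs.le
      _ ≤ M * (Kr * y') := mul_le_mul_of_nonneg_right hsM (by positivity)
      _ ≤ M * (Kr * y') * (M * t) := le_mul_of_one_le_right (by positivity) h1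
      _ = _ := by ring
  have hself : ∀ y : ℝ, 0 < y → y ≤ M ^ 2 * Kr * y := by
    intro y hy
    apply le_mul_of_one_le_left hy.le
    nlinarith
  refine ⟨σ * τ, ?_, ?_, ?_, ?_⟩
  · rcases hσ with rfl | rfl <;> rcases hτ with rfl | rfl <;> norm_num
  · intro i j
    fin_cases i
    · show c / M ≤ (σ * τ) * (!![0, m; 1 / m, 0] * N) 0 j
      rw [f0]; exact hsc _ _ hm1 (g1 1 j)
    · show c / M ≤ (σ * τ) * (!![0, m; 1 / m, 0] * N) 1 j
      rw [f1]; exact hsc _ _ hinv1 (g1 0 j)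
  · intro i i' j
    fin_cases i <;> fin_cases i'
    · show (σ * τ) * (!![0, m; 1 / m, 0] * N) 0 j ≤
        M ^ 2 * Kr * ((σ * τ) * (!![0, m; 1 / m, 0] * N) 0 j)
      rw [f0]; exact hself _ (mul_pos hma (hpos 1 j))
    · show (σ * τ) * (!![0, m; 1 / m, 0] * N) 0 j ≤
        M ^ 2 * Kr * ((σ * τ) * (!![0, m; 1 / m, 0] * N) 1 j)
      rw [f0, f1]; exact hswap _ _ _ _ hma hm2 hinv1 (hpos 0 j) (g2 1 0 j)
    · show (σ * τ) * (!![0, m; 1 / m, 0] * N) 1 j ≤
        M ^ 2 * Kr * ((σ * τ) * (!![0, m; 1 / m, 0] * N) 0 j)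
      rw [f0, f1]; exact hswap _ _ _ _ (by positivity) hinv2 hm1 (hpos 1 j) (g2 0 1 j)
    · show (σ * τ) * (!![0, m; 1 / m, 0] * N) 1 j ≤
        M ^ 2 * Kr * ((σ * τ) * (!![0, m; 1 / m, 0] * N) 1 j)
      rw [f1]; exact hself _ (mul_pos (by positivity) (hpos 0 j))
  · intro i j j'
    fin_cases i
    · show (σ * τ) * (!![0, m; 1 / m, 0] * N) 0 j ≤
        Kc * ((σ * τ) * (!![0, m; 1 / m, 0] * N) 0 j')
      rw [f0, f0]
      have := mul_le_mul_of_nonneg_left (g3 1 j j') hma.le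
      linarith
    · show (σ * τ) * (!![0, m; 1 / m, 0] * N) 1 j ≤
        Kc * ((σ * τ) * (!![0, m; 1 / m, 0] * N) 1 j')
      rw [f1, f1]
      have := mul_le_mul_of_nonneg_left (g3 0 j j') (by positivity : (0:ℝ) ≤ 1 / |m|)
      linarith

private theorem pm_PolyA4_Q_tr {c Kr Kc : ℝ} {N : M2} (h : pm_PolyA4_Q c Kr Kc N) :
    pm_PolyA4_Q c Kc Kr N.transpose := by
  obtain ⟨σ, hσ, g1, g2, g3⟩ := h
  exact ⟨σ, hσ, fun i j => g1 j i, fun i i' j => g3 j i i', fun i j j' => g2 j j' i⟩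

private theorem pm_PolyA4_Q_right {c Kr Kc M m : ℝ} {N : M2} (hc : 0 < c) (hM : 1 ≤ M)
    (hm1 : 1 / M ≤ |m|) (hm2 : |m| ≤ M) (h : pm_PolyA4_Q c Kr Kc N) :
    pm_PolyA4_Q (c / M) Kr (M ^ 2 * Kc) (N * !![0, -(1 / m); -m, 0]) := by
  have h1 := pm_PolyA4_Q_left (m := -m) hc hM (by rwa [abs_neg]) (by rwa [abs_neg])
    (pm_PolyA4_Q_tr h)
  have h2 := pm_PolyA4_Q_tr h1
  rw [Matrix.transpose_mul, Matrix.transpose_transpose] at h2
  have e : (!![0, -m; 1 / -m, 0] : M2).transpose = !![0, -(1 / m); -m, 0] := by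
    ext i j
    fin_cases i <;> fin_cases j <;> simp [Matrix.transpose_apply]
  rwa [e] at h2

/-- normal form relative to two ports -/
theorem poly_core {mu M : ℝ} (hmu : 0 < mu) (hM : 1 ≤ M) : ∃ K ≥ (1 : ℝ), ∃ κ > (0 : ℝ), ∃ lo > (0 : ℝ),
    ∀ {Γ Z Q ι : Type} [Group Γ] {ps : PS Γ Z Q} {G : Subgroup Γ} {S : Set Q} {Z0 : Set Z}
    {A : Finset ι} {R k : ι → M2} {f : Q → M2} {a b : Q → ι} {el : ι → ι → Γ} {Zc : Z → GL (Fin 3) ℝ}
    {lb : ℝ} (_ : PolySys A S R k f a b lb mu M) (_ : PolyV ps G S Z0 A R f a b el Zc)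
    {p q : Q} (_ : p ∈ S) (_ : q ∈ S) {g : Γ} (_ : g ∈ G)
    (_ : ¬ (p = q ∧ g ∈ Subgroup.zpowers (ps.c p))),
    ∃ (m m' : ℤ) (w : List ι) (s s' : Bool) (T : M2),
      (∀ x ∈ w, x ∈ A) ∧ Even (opt s (a p) ++ w ++ opt s' (a q)).length ∧
      g = (ps.c p) ^ m * evw el (opt s (a p) ++ w ++ opt s' (a q)) * (ps.c q) ^ m' ∧
      (∀ i j, 0 < T i j) ∧ Bal K κ (symMat T) ∧ lo * lb ^ (2 * w.length) ≤ mn (symMat T) ∧
      ∀ z ∈ Z0, ps.TT z p (evw el (opt s (a p) ++ w ++ opt s' (a q))) q = symMat T := by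
  classical
  have hM0 : 0 < M := by linarith
  set c₀ : ℝ := min (mu ^ 2) mu with hc₀
  have hc₀p : 0 < c₀ := lt_min (by positivity) hmu
  set K₂ : ℝ := max 1 (M ^ 2 * (M / mu)) with hK₂
  have hK₂1 : 1 ≤ K₂ := le_max_left _ _
  have hK₂M : M ^ 2 * (M / mu) ≤ K₂ := le_max_right _ _
  refine ⟨2 * K₂ ^ 2, by nlinarith, (c₀ / M ^ 2) ^ 2, by positivity, (c₀ / M ^ 3) ^ 2,
    by positivity, ?_⟩
  intro Γ Z Q ι _ ps G S Z0 A R k f a b el Zc lb hP hV p q hp hq g hg hng
  obtain ⟨hap, hbp, habp⟩ := hP.hab p hp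
  obtain ⟨haq, hbq, habq⟩ := hP.hab q hq
  have h1 := hV.el_self
  have h2 := hV.el_mul
  have hlbM : lb ≤ M := by
    obtain ⟨σ, _, h⟩ := hP.hL (a p) hap (b p) hbp habp
    exact (h 0 0).1.trans (h 0 0).2
  have hlb := hP.hl
  obtain ⟨w0, hw0A, hw0c, hw0e, hw0g⟩ := poly_word hV ⟨a p, hap⟩ hg
  obtain ⟨wp, w1, e01, hwp, hw1⟩ := pm_PolyA4_split (fun x => x = a p ∨ x = b p) w0
  obtain ⟨w, wq, e1, hwq, hwl⟩ := pm_PolyA4_split' (fun x => x = a q ∨ x = b q) w1
  subst e01
  subst e1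
  have hwpc : wp.IsChain (· ≠ ·) := hw0c.left_of_append
  have hw1c : (w ++ wq).IsChain (· ≠ ·) := hw0c.right_of_append
  have hwc : w.IsChain (· ≠ ·) := hw1c.left_of_append
  have hwqc : wq.IsChain (· ≠ ·) := hw1c.right_of_append
  have hwA : ∀ x ∈ w, x ∈ A := fun x hx => hw0A x (by simp [hx])
  have hwqA : ∀ x ∈ wq, x ∈ A := fun x hx => hw0A x (by simp [hx])
  obtain ⟨m, s, g1, g2⟩ := pm_PolyA4_pre h1 h2 hap hbp wp.length wp (w ++ wq) rfl hwp hwpc
    (fun x hx => by
      rcases List.mem_append.mp hx with h | h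
      · exact hwA x h
      · exact hwqA x h) hw0e
  have hoA : ∀ (s : Bool) (c : ι), c ∈ A → ∀ x ∈ opt s c, x ∈ A := by
    intro s c hc x hx
    cases s
    · simp [opt] at hx
    · simp only [opt, if_true, List.mem_singleton] at hx
      rw [hx]; exact hc
  obtain ⟨m', s', g3, g4⟩ := pm_PolyA4_suf h1 h2 haq hbq wq (opt s (a p) ++ w) hwq hwqc
    (fun x hx => by
      rcases List.mem_append.mp hx with h | h
      · exact hoA s _ hap x h
      · exact hwA x h)
    (by rw [List.append_assoc]; exact g1)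
  have hgval : g = (ps.c p) ^ m * evw el (opt s (a p) ++ w ++ opt s' (a q)) * (ps.c q) ^ m' := by
    rw [← hw0g, g2, ← List.append_assoc (opt s (a p)) w wq, g4, hV.hc p hp, hV.hc q hq, mul_assoc]
  have hWA : ∀ x ∈ opt s (a p) ++ w ++ opt s' (a q), x ∈ A := by
    intro x hx
    rcases List.mem_append.mp hx with h | h
    · rcases List.mem_append.mp h with h | h
      · exact hoA s _ hap x h
      · exact hwA x h
    · exact hoA s' _ haq x h
  -- the middle matrix
  have hY : pm_PolyA4_Q (c₀ * lb ^ (w.length - 1)) (M / mu) (M / mu)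
      ((f p)⁻¹ * (w.map R).prod * f q * J2) := by
    by_cases hw : w = []
    · subst hw
      have hpq : p ≠ q := by
        rintro rfl
        apply hng
        refine ⟨rfl, ?_⟩
        have hev : evw el (opt s (a p) ++ [] ++ opt s' (a p)) = 1 := by
          cases s <;> cases s'
          · simp [opt, evw]
          · simp [opt] at g3
          · simp [opt] at g3
          · simp [opt, evw, h1 _ hap]
        rw [hgval, hev, mul_one, ← _root_.zpow_add]
        exact Subgroup.zpow_mem_zpowers _ _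
      obtain ⟨σ, hσ, h⟩ := hP.hdir p hp q hq hpq
      have e : (f p)⁻¹ * (([] : List ι).map R).prod * f q * J2 = (f p)⁻¹ * f q * J2 := by simp
      rw [e]
      have hr : ∀ x y : ℝ, x ≤ M → mu ≤ y → x ≤ M / mu * y := by
        intro x y hx hy
        calc x ≤ M := hx
          _ = M / mu * mu := by field_simp
          _ ≤ M / mu * y := mul_le_mul_of_nonneg_left hy (by positivity)
      refine ⟨σ, hσ, fun i j => ?_, fun i i' j => hr _ _ (h i j).2 (h i' j).1,
        fun i j j' => hr _ _ (h i j).2 (h i j').1⟩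
      rw [List.length_nil, Nat.zero_sub, pow_zero, mul_one]
      exact (min_le_right _ _).trans (h i j).1
    · obtain ⟨σ, hσ, k1, k2, k3⟩ := word_mat hP hp hq w hw hwA hwc
        (fun x hx => by
          have hx' : x ∈ (w ++ wq).head? := by
            cases w with
            | nil => exact absurd rfl hw
            | cons y l => simpa using hx
          have := hw1 x hx'
          push Not at this
          exact this)
        (fun x hx => by
          have := hwl x hx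
          push Not at this
          exact this)
      refine ⟨σ, hσ, fun i j => ?_, k2, k3⟩
      refine le_trans ?_ (k1 i j)
      exact mul_le_mul_of_nonneg_right (min_le_left _ _) (by positivity)
  have hcp : 0 < c₀ * lb ^ (w.length - 1) := by
    have : 0 < lb := by linarith
    positivity
  obtain ⟨mp, mp1, mp2, hEp⟩ := hP.hE p hp
  obtain ⟨mq, mq1, mq2, hEq⟩ := hP.hE q hq
  have hdp : IsUnit (f p).det := by rw [hP.hfd p hp]; exact isUnit_one
  have hdq : IsUnit (f q).det := by rw [hP.hfd q hq]; exact isUnit_one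
  have hKK : M / mu ≤ M ^ 2 * (M / mu) :=
    le_mul_of_one_le_left (by positivity) (one_le_pow₀ hM)
  -- left factor
  have hL : pm_PolyA4_Q (c₀ * lb ^ (w.length - 1) / M) (M ^ 2 * (M / mu)) (M / mu)
      ((f p)⁻¹ * ((opt s (a p) ++ w).map R).prod * f q * J2) := by
    cases s with
    | false =>
      have e : (opt false (a p) ++ w) = w := by simp [opt]
      rw [e]
      exact pm_PolyA4_Q_mono (by positivity) (div_le_self hcp.le hM) hKK le_rfl hY
    | true =>
      have e : (f p)⁻¹ * ((opt true (a p) ++ w).map R).prod * f q * J2 =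
          !![0, mp; 1 / mp, 0] * ((f p)⁻¹ * (w.map R).prod * f q * J2) := by
        have e1 : ((opt true (a p) ++ w).map R).prod = R (a p) * (w.map R).prod := by
          simp [opt]
        rw [e1, ← hEp]
        calc (f p)⁻¹ * (R (a p) * (w.map R).prod) * f q * J2
            = (f p)⁻¹ * R (a p) * 1 * ((w.map R).prod * f q * J2) := by
              simp only [Matrix.mul_assoc, Matrix.one_mul]
          _ = (f p)⁻¹ * R (a p) * (f p * (f p)⁻¹) * ((w.map R).prod * f q * J2) := by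
              rw [Matrix.mul_nonsing_inv _ hdp]
          _ = _ := by simp only [Matrix.mul_assoc]
      rw [e]
      exact pm_PolyA4_Q_left hcp hM mp1 mp2 hY
  have hN : pm_PolyA4_Q (c₀ * lb ^ (w.length - 1) / M / M) (M ^ 2 * (M / mu)) (M ^ 2 * (M / mu))
      ((f p)⁻¹ * ((opt s (a p) ++ w ++ opt s' (a q)).map R).prod * f q * J2) := by
    have hcp' : 0 < c₀ * lb ^ (w.length - 1) / M := by positivity
    cases s' with
    | false =>
      have e : (opt s (a p) ++ w ++ opt false (a q)) = opt s (a p) ++ w := by simp [opt]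
      rw [e]
      exact pm_PolyA4_Q_mono (by positivity) (div_le_self hcp'.le hM) le_rfl hKK hL
    | true =>
      have hJ : J2 * !![0, 1; -1, 0] = 1 := by
        ext i j
        fin_cases i <;> fin_cases j <;> simp [J2, Matrix.mul_apply, Fin.sum_univ_two]
      have hJE : !![0, 1; -1, 0] * (!![0, mq; 1 / mq, 0] : M2) * J2 =
          !![0, -(1 / mq); -mq, 0] := by
        ext i j
        fin_cases i <;> fin_cases j <;> simp [J2, Matrix.mul_apply, Fin.sum_univ_two]
      have e : (f p)⁻¹ * ((opt s (a p) ++ w ++ opt true (a q)).map R).prod * f q * J2 =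
          ((f p)⁻¹ * ((opt s (a p) ++ w).map R).prod * f q * J2) * !![0, -(1 / mq); -mq, 0] := by
        have e1 : ((opt s (a p) ++ w ++ opt true (a q)).map R).prod =
            ((opt s (a p) ++ w).map R).prod * R (a q) := by
          simp [opt, mul_assoc]
        rw [e1, ← hJE, ← hEq]
        calc (f p)⁻¹ * (((opt s (a p) ++ w).map R).prod * R (a q)) * f q * J2
            = (f p)⁻¹ * ((opt s (a p) ++ w).map R).prod * 1 * R (a q) * f q * J2 := by
              simp only [Matrix.mul_assoc, Matrix.one_mul]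
          _ = (f p)⁻¹ * ((opt s (a p) ++ w).map R).prod * (f q * (f q)⁻¹) * R (a q) * f q * J2 := by
              rw [Matrix.mul_nonsing_inv _ hdq]
          _ = (f p)⁻¹ * ((opt s (a p) ++ w).map R).prod * f q * 1 *
                ((f q)⁻¹ * R (a q) * f q * J2) := by
              simp only [Matrix.mul_assoc, Matrix.one_mul]
          _ = (f p)⁻¹ * ((opt s (a p) ++ w).map R).prod * f q * (J2 * !![0, 1; -1, 0]) *
                ((f q)⁻¹ * R (a q) * f q * J2) := by rw [hJ]
          _ = _ := by simp only [Matrix.mul_assoc]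
      rw [e]
      exact pm_PolyA4_Q_right hcp' hM mq1 mq2 hL
  set N : M2 := (f p)⁻¹ * ((opt s (a p) ++ w ++ opt s' (a q)).map R).prod * f q * J2 with hNdef
  obtain ⟨σ, hσ, k1, k2, k3⟩ := hN
  set c₁ : ℝ := c₀ * lb ^ (w.length - 1) / M / M with hc₁
  have hc₁p : 0 < c₁ := by positivity
  have hTe : ∀ i j, (σ • N) i j = σ * N i j := fun i j => rfl
  have hTpos : ∀ i j, 0 < (σ • N) i j := fun i j => lt_of_lt_of_le hc₁p (k1 i j)
  have hσ2 : σ ^ 2 = 1 := by rcases hσ with rfl | rfl <;> norm_num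
  have hdet : (σ • N).det = 1 := by
    rw [Matrix.det_smul, Fintype.card_fin, hσ2, one_mul, hNdef, Matrix.det_mul, Matrix.det_mul,
      Matrix.det_mul, pm_PolyA4_det hP.hRd _ hWA, g3.neg_one_pow, hP.hfd q hq]
    have e1 : ((f p)⁻¹).det = 1 := by
      have h := Matrix.nonsing_inv_mul (f p) hdp
      have h' := congrArg Matrix.det h
      rw [Matrix.det_mul, hP.hfd p hp, mul_one, Matrix.det_one] at h'
      exact h'
    have e2 : J2.det = 1 := by simp [J2, Matrix.det_fin_two]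
    rw [e1, e2]
    norm_num
  have hlow : c₀ / M ^ 2 ≤ c₁ := by
    rw [hc₁]
    have : 1 ≤ lb ^ (w.length - 1) := one_le_pow₀ hlb
    calc c₀ / M ^ 2 = c₀ * 1 / M / M := by field_simp
      _ ≤ c₀ * lb ^ (w.length - 1) / M / M := by gcongr
  have hoff : (c₀ / M ^ 2) ^ 2 ≤ (σ • N) 0 1 * (σ • N) 1 0 := by
    rw [pow_two]
    exact mul_le_mul (hlow.trans (k1 0 1)) (hlow.trans (k1 1 0)) (by positivity)
      (hTpos 0 1).le
  refine ⟨m, m', w, s, s', σ • N, hwA, g3, hgval, hTpos, ?_, ?_, ?_⟩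
  · refine symMat_bal hK₂1 (by positivity) hTpos hdet (fun i i' j => ?_) (fun i j j' => ?_) hoff
    · exact (k2 i i' j).trans (mul_le_mul_of_nonneg_right hK₂M (hTpos i' j).le)
    · exact (k3 i j j').trans (mul_le_mul_of_nonneg_right hK₂M (hTpos i j').le)
  · refine le_trans ?_ (mn_symMat hc₁p.le k1)
    have e : (c₀ / M ^ 3) ^ 2 * lb ^ (2 * w.length) = (c₀ / M ^ 3 * lb ^ w.length) ^ 2 := by
      rw [mul_pow, ← pow_mul, Nat.mul_comm w.length 2]
    rw [e]
    have hlbp : 0 < lb := by linarith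
    have h3 : lb ^ w.length ≤ M * lb ^ (w.length - 1) := by
      rcases Nat.eq_zero_or_pos w.length with h0 | h0
      · rw [h0]; simpa using hM
      · obtain ⟨n, hn⟩ : ∃ n, w.length = n + 1 := ⟨w.length - 1, by omega⟩
        rw [hn, Nat.add_sub_cancel, pow_succ']
        exact mul_le_mul_of_nonneg_right hlbM (by positivity)
    have h4 : c₀ / M ^ 3 * lb ^ w.length ≤ c₁ := by
      rw [hc₁]
      calc c₀ / M ^ 3 * lb ^ w.length ≤ c₀ / M ^ 3 * (M * lb ^ (w.length - 1)) :=
            mul_le_mul_of_nonneg_left h3 (by positivity)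
        _ = c₀ * lb ^ (w.length - 1) / M / M := by field_simp
    exact pow_le_pow_left₀ (by positivity) h4 2
  · intro z hz
    obtain ⟨n, hn⟩ := g3
    rw [pm_PolyA4_TT hV hP.hfd hp hq hz n _ (by omega) hWA, pm_PolyA4_symneg hσ]

/-- the vertex condition of a polygon group -/
theorem poly_VC {Γ Z Q ι : Type} [Group Γ] {ps : PS Γ Z Q} {G : Subgroup Γ} {S : Set Q}
    {A : Finset ι} {R k : ι → M2} {f : Q → M2} {a b : Q → ι} {el : ι → ι → Γ} {Zc : Z → GL (Fin 3) ℝ}
    {lb mu M : ℝ} (hP : PolySys A S R k f a b lb mu M) (hV : PolyV ps G S Set.univ A R f a b el Zc) :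
    ∃ K ≥ (1 : ℝ), ∃ κ > (0 : ℝ), VCs ps K κ G S := by
  obtain ⟨K, hK, κ, hκ, lo, hlo, h⟩ := poly_core hP.hmu hP.hM
  refine ⟨K, hK, κ, hκ, ?_⟩
  intro p hp q hq g hg hdeg
  obtain ⟨m, m', w, s, s', T, -, -, hgeq, hT, hbal, -, hz⟩ := h hP hV hp hq hg hdeg
  refine ⟨m, -m', T, hT, hbal, ?_⟩
  intro z
  have h1 := TT_c ps z p q (evw el (opt s (a p) ++ w ++ opt s' (a q))) m m'
  rw [hgeq]
  rw [h1, hz z (Set.mem_univ z)]

theorem VCs.vc {Γ Z Q : Type} [Group Γ] {ps : PS Γ Z Q} {K κ : ℝ} {G : Subgroup Γ} {S : Set Q}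
    (h : VCs ps K κ G S) (Λ : Set Q) : VC ps K κ Λ G S := by
  intro p hp q hq g hg hne
  obtain ⟨k, k', T, _, hB, hz⟩ := h p hp q hq g hg hne
  refine ⟨k, k', ⟨symMat T, []⟩, ⟨hB, ?_⟩, ?_⟩
  · intro x hx
    exact absurd hx (List.not_mem_nil)
  · intro z
    rw [hz z]
    simp [PS.eval, PS.evL, prodL]

theorem VCs.mono {Γ Z Q : Type} [Group Γ] {ps : PS Γ Z Q} {K κ K' κ' : ℝ} {G : Subgroup Γ} {S : Set Q}
    (h : VCs ps K κ G S) (hK : K ≤ K') (hκ : κ' ≤ κ) : VCs ps K' κ' G S := by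
  intro p hp q hq g hg hne
  obtain ⟨k, k', T, hT, hB, hz⟩ := h p hp q hq g hg hne
  exact ⟨k, k', T, hT, hB.mono hK hκ, hz⟩

theorem pm_PolyA6_append {Γ ι : Type} [Group Γ] (el : ι → ι → Γ) : ∀ (u v : List ι),
    Even u.length → evw el (u ++ v) = evw el u * evw el v
  | [], v, _ => by simp [evw]
  | [x], v, h => by
    exfalso
    simp at h
  | x :: y :: l, v, h => by
    have h' : Even l.length := by
      have : (x :: y :: l).length = l.length + 2 := rfl
      rw [this] at h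
      exact (Nat.even_add.mp h).mpr even_two
    have := pm_PolyA6_append el l v h'
    simp only [List.cons_append, evw, this, mul_assoc]

theorem pm_PolyA6_cancel {Γ Z Q ι : Type} [Group Γ] {ps : PS Γ Z Q} {G : Subgroup Γ} {S : Set Q}
    {Z0 : Set Z} {A : Finset ι} {R : ι → M2} {f : Q → M2} {a b : Q → ι} {el : ι → ι → Γ}
    {Zc : Z → GL (Fin 3) ℝ} (hV : PolyV ps G S Z0 A R f a b el Zc) (u v : List ι) (x : ι)
    (hx : x ∈ A) (hu : ∀ y ∈ u, y ∈ A) (hv : ∀ y ∈ v, y ∈ A) (he : Even (u ++ v).length) :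
    evw el (u ++ x :: x :: v) = evw el (u ++ v) := by
  rcases Nat.even_or_odd u.length with h | h
  · rw [pm_PolyA6_append el u _ h, pm_PolyA6_append el u v h]
    congr 1
    simp only [evw, hV.el_self x hx, one_mul]
  · -- u = u' ++ [y], v = z :: v'
    have hu0 : u ≠ [] := by
      rintro rfl
      simp at h
    obtain ⟨u', y, rfl⟩ : ∃ u' y, u = u' ++ [y] :=
      ⟨u.dropLast, u.getLast hu0, (List.dropLast_append_getLast hu0).symm⟩
    have h1 : Even u'.length := by
      rw [List.length_append, List.length_singleton] at h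
      rcases Nat.even_or_odd u'.length with h2 | h2
      · exact h2
      · exfalso
        have := h2.add_one
        exact (Nat.not_even_iff_odd.mpr h) this
    cases v with
    | nil =>
      exfalso
      rw [List.append_nil] at he
      exact (Nat.not_even_iff_odd.mpr h) he
    | cons z v' =>
      have hy : y ∈ A := hu y (by simp)
      have hz : z ∈ A := hv z (by simp)
      have e1 : (u' ++ [y]) ++ x :: x :: z :: v' = u' ++ (y :: x :: x :: z :: v') := by simp
      have e2 : (u' ++ [y]) ++ z :: v' = u' ++ (y :: z :: v') := by simp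
      rw [e1, e2, pm_PolyA6_append el u' _ h1, pm_PolyA6_append el u' _ h1]
      congr 1
      simp only [evw]
      rw [← mul_assoc, hV.el_mul y hy x hx z hz]

theorem pm_PolyA6_mem {Γ Z Q ι : Type} [Group Γ] {ps : PS Γ Z Q} {G : Subgroup Γ} {S : Set Q}
    {Z0 : Set Z} {A : Finset ι} {R : ι → M2} {f : Q → M2} {a b : Q → ι} {el : ι → ι → Γ}
    {Zc : Z → GL (Fin 3) ℝ} (hV : PolyV ps G S Z0 A R f a b el Zc) : ∀ (w : List ι),
    (∀ y ∈ w, y ∈ A) → evw el w ∈ G
  | [], _ => by simpa [evw] using G.one_mem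
  | [x], _ => by simpa [evw] using G.one_mem
  | x :: y :: l, h => by
    simp only [evw]
    exact G.mul_mem (hV.el_mem x (h x (by simp)) y (h y (by simp)))
      (pm_PolyA6_mem hV l (fun z hz => h z (by simp [hz])))

theorem pm_PolyA6_val {Γ Z Q ι : Type} [Group Γ] {ps : PS Γ Z Q} {G : Subgroup Γ} {S : Set Q}
    {Z0 : Set Z} {A : Finset ι} {R : ι → M2} {f : Q → M2} {a b : Q → ι} {el : ι → ι → Γ}
    {Zc : Z → GL (Fin 3) ℝ} (hV : PolyV ps G S Z0 A R f a b el Zc) (z : Z) (hz : z ∈ Z0) :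
    ∀ (w : List ι), (∀ y ∈ w, y ∈ A) → Even w.length →
      (ps.r z (evw el w) : M3) * (Zc z : M3) = (Zc z : M3) * symMat ((w.map R).prod)
  | [], _, _ => by
    simp [evw, symMat_one]
  | [x], _, h => by
    exfalso
    simp at h
  | x :: y :: l, h, he => by
    have h' : Even l.length := by
      have : (x :: y :: l).length = l.length + 2 := rfl
      rw [this] at he
      exact (Nat.even_add.mp he).mpr even_two
    have ih := pm_PolyA6_val hV z hz l (fun z hz => h z (by simp [hz])) h'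
    have h2 := hV.hr z hz x (h x (by simp)) y (h y (by simp))
    simp only [evw, List.map_cons, List.prod_cons]
    rw [map_mul, Units.val_mul, Matrix.mul_assoc, ih, ← Matrix.mul_assoc, h2, Matrix.mul_assoc,
      ← symMat_mul, ← mul_assoc (R x)]

theorem pm_PolyA6_split {ι : Type} : ∀ (w : List ι), ¬ w.IsChain (· ≠ ·) →
    ∃ u x v, w = u ++ x :: x :: v
  | [], h => absurd List.isChain_nil h
  | [x], h => absurd (List.isChain_singleton x) h
  | x :: y :: l, h => by
    by_cases hxy : x = y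
    · subst hxy
      exact ⟨[], x, l, rfl⟩
    · have h2 : ¬ (y :: l).IsChain (· ≠ ·) := by
        intro h3
        exact h (List.isChain_cons_cons.mpr ⟨hxy, h3⟩)
      obtain ⟨u, z, v, e⟩ := pm_PolyA6_split (y :: l) h2
      exact ⟨x :: u, z, v, by rw [e]; rfl⟩

/-- a cyclically reduced even word in the conjugacy class -/
theorem pm_PolyA6_min {Γ Z Q ι : Type} [Group Γ] {ps : PS Γ Z Q} {G : Subgroup Γ} {S : Set Q}
    {Z0 : Set Z} {A : Finset ι} {R : ι → M2} {f : Q → M2} {a b : Q → ι} {el : ι → ι → Γ}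
    {Zc : Z → GL (Fin 3) ℝ} (hV : PolyV ps G S Z0 A R f a b el Zc) (hA : A.Nonempty) {g : Γ}
    (hg : g ∈ G) (hg1 : g ≠ 1) :
    ∃ (x : ι) (w : List ι), (∀ y ∈ x :: w, y ∈ A) ∧ Even (x :: w).length ∧
      IsConj g (evw el (x :: w)) ∧ ((x :: w) ++ [x]).IsChain (· ≠ ·) := by
  classical
  let P : ℕ → Prop := fun n => ∃ w : List ι, (∀ y ∈ w, y ∈ A) ∧ Even w.length ∧
    IsConj g (evw el w) ∧ w.length = n
  have hP : ∃ n, P n := by
    obtain ⟨w, h1, -, h3, h4⟩ := poly_word hV hA hg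
    exact ⟨w.length, w, h1, h3, by rw [h4], rfl⟩
  obtain ⟨w, h1, h2, h3, h4⟩ := Nat.find_spec hP
  have hmin : ∀ w' : List ι, (∀ y ∈ w', y ∈ A) → Even w'.length → IsConj g (evw el w') →
      w.length ≤ w'.length := by
    intro w' a1 a2 a3
    rw [h4]
    exact Nat.find_min' hP ⟨w', a1, a2, a3, rfl⟩
  have hchain : w.IsChain (· ≠ ·) := by
    by_contra hcon
    obtain ⟨u, x, v, e⟩ := pm_PolyA6_split w hcon
    have e1 : w.length = (u ++ v).length + 2 := by
      rw [e]
      simp only [List.length_append, List.length_cons]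
      omega
    have e2 : Even (u ++ v).length := by
      rw [e1] at h2
      exact (Nat.even_add.mp h2).mpr even_two
    have hx : x ∈ A := h1 x (by rw [e]; simp)
    have hu : ∀ y ∈ u, y ∈ A := fun y hy => h1 y (by rw [e]; simp [hy])
    have hv : ∀ y ∈ v, y ∈ A := fun y hy => h1 y (by rw [e]; simp [hy])
    have e3 := pm_PolyA6_cancel hV u v x hx hu hv e2
    have h5 := hmin (u ++ v) (fun y hy => by
      rcases List.mem_append.mp hy with h | h
      · exact hu y h
      · exact hv y h) e2 (by rw [← e3, ← e]; exact h3)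
    omega
  cases w with
  | nil =>
    exfalso
    simp only [evw] at h3
    exact hg1 (isConj_one_left.mp h3)
  | cons x w1 =>
    refine ⟨x, w1, h1, h2, h3, ?_⟩
    have hw1 : w1 ≠ [] := by
      rintro rfl
      simp at h2
    obtain ⟨w2, y, rfl⟩ : ∃ u' y, w1 = u' ++ [y] :=
      ⟨w1.dropLast, w1.getLast hw1, (List.dropLast_append_getLast hw1).symm⟩
    by_cases hxy : y = x
    · exfalso
      subst hxy
      cases w2 with
      | nil =>
        simp at hchain
      | cons z w3 =>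
        have hy : y ∈ A := h1 y (by simp)
        have hz : z ∈ A := h1 z (by simp)
        have hw3 : ∀ t ∈ w3, t ∈ A := fun t ht => h1 t (by simp [ht])
        have e1 : (y :: (z :: w3 ++ [y])).length = w3.length + 3 := by simp
        have e2 : Even (w3 ++ [z]).length := by
          rw [e1] at h2
          rw [List.length_append, List.length_singleton]
          have : w3.length + 3 = (w3.length + 1) + 2 := by omega
          rw [this] at h2
          exact (Nat.even_add.mp h2).mpr even_two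
        have e3 : evw el (y :: (z :: w3 ++ [y])) = el y z * evw el (w3 ++ [y]) := rfl
        have e4 : evw el (w3 ++ [y]) * el y z = evw el (w3 ++ [z]) := by
          have e5 : Even (w3 ++ [y]).length := by
            rw [List.length_append, List.length_singleton] at e2 ⊢
            exact e2
          have e6 : evw el (w3 ++ [y]) * el y z = evw el ((w3 ++ [y]) ++ [y, z]) := by
            rw [pm_PolyA6_append el _ _ e5]
            simp [evw]
          have e7 : (w3 ++ [y]) ++ [y, z] = w3 ++ y :: y :: [z] := by simp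
          rw [e6, e7, pm_PolyA6_cancel hV w3 [z] y hy hw3 (by simpa using hz) e2]
        have h5 : IsConj g (evw el (w3 ++ [z])) := by
          refine h3.trans ?_
          rw [e3, ← e4, isConj_iff]
          exact ⟨(el y z)⁻¹, by group⟩
        have h6 := hmin (w3 ++ [z]) (fun t ht => by
          rcases List.mem_append.mp ht with h | h
          · exact hw3 t h
          · rw [List.mem_singleton] at h
            rw [h]
            exact hz) e2 h5
        rw [e1, List.length_append, List.length_singleton] at h6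
        omega
    · rw [List.isChain_append]
      refine ⟨hchain, List.isChain_singleton x, ?_⟩
      intro s hs t ht
      have hs' : s = y := by
        have : (x :: (w2 ++ [y])).getLast? = some y := by
          rw [← List.cons_append, List.getLast?_append]
          simp
        rw [this] at hs
        simpa using hs.symm
      have ht' : t = x := by simpa using ht.symm
      rw [hs', ht']
      exact hxy

theorem pm_PolyA6_inv {B : M2} (h : B.det = 1) : B * B⁻¹ = 1 ∧ B⁻¹ * B = 1 := by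
  have hu : IsUnit B.det := by rw [h]; exact isUnit_one
  exact ⟨Matrix.mul_nonsing_inv B hu, Matrix.nonsing_inv_mul B hu⟩

/-- positivity of the matrix of a reduced word between two frames -/
theorem pm_PolyA6_pos {ι Q : Type} {A : Finset ι} {S : Set Q} {R k : ι → M2} {f : Q → M2}
    {a b : Q → ι} {lb mu M : ℝ} (hP : PolySys A S R k f a b lb mu M) :
    ∀ (l : List ι) (x y : ι), (∀ t ∈ (x :: l) ++ [y], t ∈ A) →
      ((x :: l) ++ [y]).IsChain (· ≠ ·) →
      ∃ σ : ℝ, (σ = 1 ∨ σ = -1) ∧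
        (∀ i j, 1 ≤ σ * ((k x)⁻¹ * ((x :: l).map R).prod * k y) i j) ∧
        (∀ i i' j, σ * ((k x)⁻¹ * ((x :: l).map R).prod * k y) i j ≤
          M * (σ * ((k x)⁻¹ * ((x :: l).map R).prod * k y) i' j)) ∧
        (∀ i j j', σ * ((k x)⁻¹ * ((x :: l).map R).prod * k y) i j ≤
          M * (σ * ((k x)⁻¹ * ((x :: l).map R).prod * k y) i j')) := by
  intro l
  have hlb := hP.hl
  have hM := hP.hM
  induction l with
  | nil =>
    intro x y hm hc
    have hxy : x ≠ y := by
      simpa using hc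
    obtain ⟨σ, hσ, hb⟩ := hP.hL x (hm x (by simp)) y (hm y (by simp)) hxy
    have e : ((k x)⁻¹ * (([x] : List ι).map R).prod * k y) = (k x)⁻¹ * R x * k y := by simp
    rw [e]
    refine ⟨σ, hσ, fun i j => hlb.trans (hb i j).1, fun i i' j => ?_, fun i j j' => ?_⟩
    · have h1 := (hb i j).2
      have h2 := (hb i' j).1
      nlinarith
    · have h1 := (hb i j).2
      have h2 := (hb i j').1
      nlinarith
  | cons z l ih =>
    intro x y hm hc
    have hx : x ∈ A := hm x (by simp)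
    have hz : z ∈ A := hm z (by simp)
    have hc' : x ≠ z ∧ ((z :: l) ++ [y]).IsChain (· ≠ ·) := by
      have : (x :: z :: (l ++ [y])).IsChain (· ≠ ·) := hc
      rw [List.isChain_cons_cons] at this
      exact this
    obtain ⟨σ₁, hσ₁, hb⟩ := hP.hL x hx z hz hc'.1
    obtain ⟨σ₂, hσ₂, h1, h2, h3⟩ := ih z y (fun t ht => hm t (by
      have e : (x :: z :: l) ++ [y] = x :: ((z :: l) ++ [y]) := rfl
      rw [e]
      exact List.mem_cons_of_mem x ht)) hc'.2
    set N : M2 := (k z)⁻¹ * ((z :: l).map R).prod * k y with hN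
    have e : (k x)⁻¹ * ((x :: z :: l).map R).prod * k y = ((k x)⁻¹ * R x * k z) * N := by
      rw [hN]
      have hk := (pm_PolyA6_inv (hP.hkd z hz)).1
      rw [List.map_cons (l := z :: l), List.prod_cons]
      calc (k x)⁻¹ * (R x * ((z :: l).map R).prod) * k y
          = (k x)⁻¹ * R x * (1 * (((z :: l).map R).prod * k y)) := by
            rw [one_mul]
            simp only [mul_assoc]
        _ = (k x)⁻¹ * R x * ((k z * (k z)⁻¹) * (((z :: l).map R).prod * k y)) := by rw [hk]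
        _ = _ := by simp only [mul_assoc]
    rw [e]
    have e2 : ∀ i j, σ₁ * σ₂ * (((k x)⁻¹ * R x * k z) * N) i j =
        (σ₁ * ((k x)⁻¹ * R x * k z) i 0) * (σ₂ * N 0 j) +
        (σ₁ * ((k x)⁻¹ * R x * k z) i 1) * (σ₂ * N 1 j) := by
      intro i j
      rw [Matrix.mul_apply, Fin.sum_univ_two]
      ring
    refine ⟨σ₁ * σ₂, ?_, fun i j => ?_, fun i i' j => ?_, fun i j j' => ?_⟩
    · rcases hσ₁ with h | h <;> rcases hσ₂ with h' | h' <;> rw [h, h'] <;> norm_num
    · rw [e2]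
      have a1 := (hb i 0).1
      have a2 := (hb i 1).1
      have a3 := h1 0 j
      have a4 := h1 1 j
      nlinarith
    · rw [e2, e2]
      have b1 : σ₁ * ((k x)⁻¹ * R x * k z) i 0 ≤ M * (σ₁ * ((k x)⁻¹ * R x * k z) i' 0) := by
        have c1 := (hb i 0).2
        have c2 := (hb i' 0).1
        nlinarith
      have b2 : σ₁ * ((k x)⁻¹ * R x * k z) i 1 ≤ M * (σ₁ * ((k x)⁻¹ * R x * k z) i' 1) := by
        have c1 := (hb i 1).2
        have c2 := (hb i' 1).1
        nlinarith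
      have a3 := h1 0 j
      have a4 := h1 1 j
      have d1 := mul_le_mul_of_nonneg_right b1 (by linarith : 0 ≤ σ₂ * N 0 j)
      have d2 := mul_le_mul_of_nonneg_right b2 (by linarith : 0 ≤ σ₂ * N 1 j)
      linarith
    · rw [e2, e2]
      have b1 := h3 0 j j'
      have b2 := h3 1 j j'
      have a1 := (hb i 0).1
      have a2 := (hb i 1).1
      have d1 := mul_le_mul_of_nonneg_left b1
        (by linarith : 0 ≤ σ₁ * ((k x)⁻¹ * R x * k z) i 0)
      have d2 := mul_le_mul_of_nonneg_left b2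
        (by linarith : 0 ≤ σ₁ * ((k x)⁻¹ * R x * k z) i 1)
      linarith

theorem pm_PolyA6_det {ι Q : Type} {A : Finset ι} {S : Set Q} {R k : ι → M2} {f : Q → M2}
    {a b : Q → ι} {lb mu M : ℝ} (hP : PolySys A S R k f a b lb mu M) :
    ∀ (l : List ι), (∀ t ∈ l, t ∈ A) → ((l.map R).prod).det = (-1) ^ l.length := by
  intro l
  induction l with
  | nil => simp
  | cons x l ih =>
    intro h
    rw [List.map_cons, List.prod_cons, Matrix.det_mul, hP.hRd x (h x (by simp)),
      ih (fun t ht => h t (by simp [ht])), List.length_cons, pow_succ]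
    ring

theorem pm_PolyA6_neg (T : M2) : symMat (-T) = symMat T := by
  ext i j
  fin_cases i <;> fin_cases j <;> simp [symMat]

theorem pm_PolyA6_symG {B : M2} (h : B.det = 1) : (symG B : M3) = symMat B := by
  unfold symG
  rw [dif_pos (by rw [h]; exact one_ne_zero)]
  rfl

/-- class representation of a polygon group -/
theorem poly_CR {Γ Z Q ι : Type} [Group Γ] {ps : PS Γ Z Q} {G : Subgroup Γ} {S : Set Q}
    {A : Finset ι} {R k : ι → M2} {f : Q → M2} {a b : Q → ι} {el : ι → ι → Γ} {Zc : Z → GL (Fin 3) ℝ}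
    {lb mu M : ℝ} (hA : A.Nonempty) (hP : PolySys A S R k f a b lb mu M)
    (hV : PolyV ps G S Set.univ A R f a b el Zc) :
    ∃ K ≥ (1 : ℝ), ∃ κ > (0 : ℝ), ∀ Λ : Set Q,
      CR ps K κ Λ G {φ | ∃ x ∈ A, φ = fun z => Zc z * symG (k x)} := by
  have hM := hP.hM
  refine ⟨2 * M ^ 2, by nlinarith, 1, one_pos, ?_⟩
  intro Λ g hg hg1
  obtain ⟨x, w, h1, h2, h3, h4⟩ := pm_PolyA6_min hV hA hg hg1
  have hx : x ∈ A := h1 x (by simp)
  obtain ⟨σ, hσ, p1, p2, p3⟩ := pm_PolyA6_pos hP w x x (fun t ht => by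
    rcases List.mem_append.mp ht with h | h
    · exact h1 t h
    · rw [List.mem_singleton] at h
      rw [h]
      exact hx) h4
  set T0 : M2 := (k x)⁻¹ * ((x :: w).map R).prod * k x with hT0
  have hk := pm_PolyA6_inv (hP.hkd x hx)
  have hdet0 : T0.det = 1 := by
    rw [hT0, Matrix.det_mul, Matrix.det_mul, pm_PolyA6_det hP _ h1, hP.hkd x hx]
    have : ((k x)⁻¹).det = 1 := by
      rw [Matrix.det_nonsing_inv, hP.hkd x hx]
      simp
    rw [this, h2.neg_one_pow]
    norm_num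
  have hdet : (σ • T0).det = 1 := by
    rw [Matrix.det_smul, hdet0]
    rcases hσ with h | h <;> rw [h] <;> norm_num
  have hsym : symMat (σ • T0) = symMat T0 := by
    rcases hσ with h | h
    · rw [h, one_smul]
    · rw [h, neg_smul, one_smul, pm_PolyA6_neg]
  have hbal : Bal (2 * M ^ 2) 1 (symMat (σ • T0)) := by
    apply symMat_bal hM one_pos _ hdet
    · intro i i' j
      exact p2 i i' j
    · intro i j j'
      exact p3 i j j'
    · have a1 : 1 ≤ (σ • T0) 0 1 := p1 0 1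
      have a2 : 1 ≤ (σ • T0) 1 0 := p1 1 0
      nlinarith
    · intro i j
      have : 1 ≤ (σ • T0) i j := p1 i j
      linarith
  refine ⟨evw el (x :: w), pm_PolyA6_mem hV _ h1, h3, fun z => Zc z * symG (k x), ⟨x, hx, rfl⟩,
    CW.cst (symMat (σ • T0)), hbal, ?_⟩
  intro z
  have hval := pm_PolyA6_val hV z (Set.mem_univ z) _ h1 h2
  have key : (ps.r z (evw el (x :: w)) : M3) * ((Zc z * symG (k x) : GL (Fin 3) ℝ) : M3) =
      ((Zc z * symG (k x) : GL (Fin 3) ℝ) : M3) * symMat (σ • T0) := by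
    rw [hsym, Units.val_mul, pm_PolyA6_symG (hP.hkd x hx), ← Matrix.mul_assoc, hval,
      Matrix.mul_assoc, Matrix.mul_assoc, ← symMat_mul, ← symMat_mul, hT0]
    congr 2
    rw [← mul_assoc, ← mul_assoc, hk.1, one_mul]
  show (((Zc z * symG (k x) : GL (Fin 3) ℝ)⁻¹ : GL (Fin 3) ℝ) : M3) *
    (ps.r z (evw el (x :: w)) : M3) * ((Zc z * symG (k x) : GL (Fin 3) ℝ) : M3) =
      symMat (σ • T0)
  rw [Matrix.mul_assoc, key, ← Matrix.mul_assoc, ← Units.val_mul, inv_mul_cancel, Units.val_one,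
    Matrix.one_mul]

private theorem pm_PolyA7_d {K L : ℝ} (hK : 1 ≤ K) {k : ℤ} (h : |(k : ℝ)| * L ≤ Real.log K) (hL : 0 < L)
    (i : Fin 3) : K⁻¹ ≤ (![Real.exp (-(k * L)), 1, Real.exp (k * L)] : Fin 3 → ℝ) i := by
  have hK0 : 0 < K := lt_of_lt_of_le one_pos hK
  have h1 : K⁻¹ = Real.exp (-Real.log K) := by rw [Real.exp_neg, Real.exp_log hK0]
  have h2 : |(k : ℝ) * L| ≤ Real.log K := by rwa [abs_mul, abs_of_pos hL]
  have h3 := abs_le.1 h2
  fin_cases i
  · change K⁻¹ ≤ Real.exp (-(k * L))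
    rw [h1]
    exact Real.exp_le_exp.2 (by linarith)
  · change K⁻¹ ≤ 1
    exact inv_le_one_of_one_le₀ hK
  · change K⁻¹ ≤ Real.exp (k * L)
    rw [h1]
    exact Real.exp_le_exp.2 (by linarith)

private theorem pm_PolyA7_mn {K L L' : ℝ} (hK : 1 ≤ K) {k k' : ℤ} (h : |(k : ℝ)| * L ≤ Real.log K)
    (h' : |(k' : ℝ)| * L' ≤ Real.log K) (hL : 0 < L) (hL' : 0 < L') {X : M3} (hX : ∀ i j, 0 < X i j) :
    K⁻¹ * K⁻¹ * mn X ≤ mn (Cd L k * X * Cd L' k') := by
  obtain ⟨i, j, hij⟩ := exists_mn (Cd L k * X * Cd L' k')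
  rw [hij]
  have hK0 : 0 < K⁻¹ := inv_pos.2 (lt_of_lt_of_le one_pos hK)
  unfold Cd
  rw [Matrix.mul_diagonal, Matrix.diagonal_mul]
  have a1 := pm_PolyA7_d hK h hL i
  have a2 := pm_PolyA7_d hK h' hL' j
  have a3 := mn_le X i j
  calc K⁻¹ * K⁻¹ * mn X ≤ K⁻¹ * K⁻¹ * X i j := mul_le_mul_of_nonneg_left a3 (mul_pos hK0 hK0).le
    _ = K⁻¹ * X i j * K⁻¹ := by ring
    _ ≤ _ := mul_le_mul (mul_le_mul_of_nonneg_right a1 (hX i j).le) a2 hK0.le
        (mul_nonneg (hK0.le.trans a1) (hX i j).le)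

private theorem pm_PolyA7_ok {Q : Type} {K κ K' κ' : ℝ} {Λ : Set Q} {w : Word Q} (hK : K ≤ K')
    (hκ : κ' ≤ κ) (h : w.Ok K κ Λ) : w.Ok K' κ' Λ :=
  ⟨Bal.mono hK hκ h.1, fun x hx => ⟨(h.2 x hx).1, Bal.mono hK hκ (h.2 x hx).2⟩⟩

private theorem pm_PolyA7_real {lb c s s₁ mnv : ℝ} (hlb : 1 ≤ lb) (hc : 0 < c) (hs : 1 / 8 ≤ s)
    (hs₁ : s ≤ s₁) {n : ℕ} (h : c * lb ^ (2 * n) ≤ mnv) :
    mnv ^ (-s) ≤ (max 1 c⁻¹) ^ s₁ * (lb ^ (-(1 / 4 : ℝ))) ^ n := by
  have hlb0 : 0 < lb := lt_of_lt_of_le one_pos hlb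
  have h1 : 0 < c * lb ^ (2 * n) := by positivity
  have h2 : mnv ^ (-s) ≤ (c * lb ^ (2 * n)) ^ (-s) :=
    Real.rpow_le_rpow_of_nonpos h1 h (by linarith)
  refine h2.trans ?_
  rw [Real.mul_rpow hc.le (by positivity)]
  refine mul_le_mul ?_ ?_ (by positivity) (by positivity)
  · rw [Real.rpow_neg hc.le, ← Real.inv_rpow hc.le]
    calc c⁻¹ ^ s ≤ (max 1 c⁻¹) ^ s :=
          Real.rpow_le_rpow (by positivity) (le_max_right _ _) (by linarith)
      _ ≤ (max 1 c⁻¹) ^ s₁ := Real.rpow_le_rpow_of_exponent_le (le_max_left _ _) hs₁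
  · have e1 : (lb ^ (2 * n)) ^ (-s) = lb ^ ((2 * n : ℝ) * (-s)) := by
      rw [← Real.rpow_natCast, ← Real.rpow_mul hlb0.le]
      push_cast
      rfl
    have e2 : (lb ^ (-(1 / 4 : ℝ))) ^ n = lb ^ (-(1 / 4 : ℝ) * n) := by
      rw [← Real.rpow_natCast, ← Real.rpow_mul hlb0.le]
    rw [e1, e2]
    refine Real.rpow_le_rpow_of_exponent_le hlb ?_
    have hn : (0 : ℝ) ≤ n := Nat.cast_nonneg n
    nlinarith

private theorem pm_PolyA7_lists {ι : Type} (A : Finset ι) {θ : ℝ} (hθ : 0 ≤ θ)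
    (h : (A.card : ℝ) * θ ≤ 1 / 2) (C : ℝ) (hC : 0 ≤ C) :
    ∑' w : List {x // x ∈ A}, ENNReal.ofReal (C * θ ^ w.length) ≤ ENNReal.ofReal (C * 2) := by
  have h1 : ∑' w : List {x // x ∈ A}, ENNReal.ofReal (C * θ ^ w.length) =
      ∑' y : (Σ n : ℕ, (Fin n → {x // x ∈ A})), ENNReal.ofReal (C * θ ^ y.1) := by
    rw [← Equiv.tsum_eq (List.equivSigmaTuple (α := {x // x ∈ A}))]
    rfl
  have h0 : ∑' y : (Σ n : ℕ, (Fin n → {x // x ∈ A})), ENNReal.ofReal (C * θ ^ y.1) =
      ∑' n : ℕ, ∑' _ : (Fin n → {x // x ∈ A}), ENNReal.ofReal (C * θ ^ n) :=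
    ENNReal.tsum_sigma (fun (n : ℕ) (_ : Fin n → {x // x ∈ A}) => ENNReal.ofReal (C * θ ^ n))
  rw [h1, h0]
  have h2 : ∀ n : ℕ, ∑' _ : (Fin n → {x // x ∈ A}), ENNReal.ofReal (C * θ ^ n) ≤
      ENNReal.ofReal C * (2⁻¹) ^ n := by
    intro n
    rw [tsum_fintype, Finset.sum_const, nsmul_eq_mul, Finset.card_univ, Fintype.card_fun,
      Fintype.card_fin, Fintype.card_coe]
    change ((A.card ^ n : ℕ) : ENNReal) * ENNReal.ofReal (C * θ ^ n) ≤ _
    have e1 : ((A.card ^ n : ℕ) : ENNReal) = ENNReal.ofReal ((A.card : ℝ) ^ n) := by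
      rw [← Nat.cast_pow, ENNReal.ofReal_natCast]
    have e2 : ((2 : ENNReal)⁻¹) ^ n = ENNReal.ofReal ((1 / 2 : ℝ) ^ n) := by
      rw [ENNReal.ofReal_pow (by norm_num), one_div, ENNReal.ofReal_inv_of_pos (by norm_num)]
      norm_num
    rw [e1, e2, ← ENNReal.ofReal_mul (by positivity), ← ENNReal.ofReal_mul hC]
    refine ENNReal.ofReal_le_ofReal ?_
    have h3 : ((A.card : ℝ) * θ) ^ n ≤ (1 / 2) ^ n := pow_le_pow_left₀ (by positivity) h n
    calc (A.card : ℝ) ^ n * (C * θ ^ n) = C * ((A.card : ℝ) * θ) ^ n := by rw [mul_pow]; ring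
      _ ≤ C * (1 / 2) ^ n := mul_le_mul_of_nonneg_left h3 hC
  refine (ENNReal.tsum_le_tsum h2).trans ?_
  rw [ENNReal.tsum_mul_left, ENNReal.tsum_geometric, ENNReal.one_sub_inv_two, inv_inv,
    ENNReal.ofReal_mul hC]
  refine mul_le_mul' (le_refl _) ?_
  norm_num

/-- sums over the normalised elements of a polygon group, uniformly for `1/8 ≤ s ≤ s₁` -/
theorem poly_Z {Γ Z Q ι : Type} [Group Γ] [Nonempty Z] {ps : PS Γ Z Q} {G : Subgroup Γ} {S : Set Q}
    (hS : S.Finite)
    {A : Finset ι} {R k : ι → M2} {f : Q → M2} {a b : Q → ι} {el : ι → ι → Γ} {Zc : Z → GL (Fin 3) ℝ}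
    {lb mu M : ℝ} (hP : PolySys A S R k f a b lb mu M) (hV : PolyV ps G S Set.univ A R f a b el Zc)
    (hlb : (A.card : ℝ) * lb ^ (-(1 / 4 : ℝ)) ≤ 1 / 2) {K κ : ℝ} (hK : 1 ≤ K) (hκ : 0 ≤ κ)
    (s₁ : ℝ) :
    ∃ A₀ > (0 : ℝ), ∀ (Λ : Set Q) (z : Z) (s : ℝ), 1 / 8 ≤ s → s ≤ s₁ → ∀ p ∈ S, ∀ q ∈ S,
      Zs ps K κ Λ G z s p q ≤ ENNReal.ofReal A₀ := by
  obtain ⟨Kc, hKc, κc, hκc, lo, hlo, core⟩ := poly_core hP.hmu hP.hM
  set K' := max K Kc with hK'
  have hK'1 : 1 ≤ K' := hK.trans (le_max_left _ _)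
  have hK'0 : 0 < K' := lt_of_lt_of_le one_pos hK'1
  set κ' := min κ κc with hκ'
  have hκ'0 : 0 ≤ κ' := le_min hκ hκc.le
  obtain ⟨B, hB⟩ : ∃ B : ℕ, ∀ p ∈ S, Real.log K' / ps.L p ≤ B := by
    obtain ⟨y, hy⟩ := (hS.image (fun p => Real.log K' / ps.L p)).bddAbove
    obtain ⟨B, hB⟩ := exists_nat_ge y
    exact ⟨B, fun p hp => (hy ⟨p, hp, rfl⟩).trans hB⟩
  have hint : ∀ p ∈ S, ∀ m : ℤ, |(m : ℝ)| * ps.L p ≤ Real.log K' → m ∈ Finset.Icc (-(B : ℤ)) B := by
    intro p hp m hm
    have h1 : |(m : ℝ)| ≤ B := ((le_div_iff₀ (ps.L_pos p)).2 hm).trans (hB p hp)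
    have h2 := abs_le.1 h1
    rw [Finset.mem_Icc]
    exact ⟨by exact_mod_cast h2.1, by exact_mod_cast h2.2⟩
  set c := K'⁻¹ * K'⁻¹ * lo with hc
  have hc0 : 0 < c := by positivity
  set C0 := (max 1 c⁻¹) ^ s₁ with hC0
  have hC0p : 0 < C0 := Real.rpow_pos_of_pos (lt_of_lt_of_le one_pos (le_max_left _ _)) _
  set θ := lb ^ (-(1 / 4 : ℝ)) with hθ
  have hθ0 : 0 ≤ θ := Real.rpow_nonneg (zero_le_one.trans hP.hl) _
  let X : Type := (↥(Finset.Icc (-(B : ℤ)) B) × ↥(Finset.Icc (-(B : ℤ)) B)) × (Bool × Bool)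
  refine ⟨(Fintype.card X : ℝ) * (C0 * 2) + 1, by positivity, ?_⟩
  intro Λ z s hs hs1 p hp q hq
  let val : X × List {x // x ∈ A} → Γ := fun x =>
    (ps.c p) ^ (x.1.1.1 : ℤ) * evw el (opt x.1.2.1 (a p) ++ x.2.map Subtype.val ++ opt x.1.2.2 (a q)) *
      (ps.c q) ^ (x.1.1.2 : ℤ)
  have key : ∀ g : {g : Γ // g ∈ G ∧ Nrm ps K κ Λ p g q}, ∃ x : X × List {x // x ∈ A},
      (mn (ps.TT z p g q)) ^ (-s) ≤ C0 * θ ^ x.2.length ∧ g.1 = val x := by
    rintro ⟨g, hg, hn⟩
    have hdeg : ¬ (p = q ∧ g ∈ Subgroup.zpowers (ps.c p)) := by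
      rintro ⟨rfl, hz⟩
      obtain ⟨w, hw, hT⟩ := hn
      have h1 := (Word.bal hκ hw ps z).pos 0 0
      rw [← hT z, TT_degenerate ps z p hz] at h1
      exact lt_irrefl _ h1
    obtain ⟨m, m', w, σ, σ', T, hwA, -, hgeq, hT, hB2, hmn, hTT⟩ := core hP hV hp hq hg hdeg
    set g' := evw el (opt σ (a p) ++ w ++ opt σ' (a q)) with hg'
    have hn' : Nrm ps K' κ' Λ p ((ps.c p) ^ m * g' * (ps.c q) ^ m') q := by
      rw [← hgeq]
      obtain ⟨w2, hw2, hT2⟩ := hn
      exact ⟨w2, pm_PolyA7_ok (le_max_left _ _) (min_le_left _ _) hw2, hT2⟩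
    have hn0 : Nrm ps K' κ' Λ p g' q := by
      refine ⟨⟨symMat T, []⟩, ⟨Bal.mono (le_max_right _ _) (min_le_right _ _) hB2, fun x hx =>
        absurd hx List.not_mem_nil⟩, fun y => ?_⟩
      rw [hTT y (Set.mem_univ _)]
      change symMat T = symMat T * 1
      rw [mul_one]
    obtain ⟨ha1, ha2⟩ := nrm_amb hκ'0 inferInstance hn0 hn'
    obtain ⟨w', hw'⟩ : ∃ w' : List {x // x ∈ A}, w'.map Subtype.val = w := by
      refine ⟨w.attachWith _ hwA, ?_⟩
      simp
    refine ⟨⟨⟨⟨⟨m, hint p hp m ha1⟩, ⟨m', hint q hq m' ha2⟩⟩, ⟨σ, σ'⟩⟩, w'⟩, ?_, ?_⟩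
    · have hlen : w'.length = w.length := by rw [← hw', List.length_map]
      change mn (ps.TT z p g q) ^ (-s) ≤ C0 * θ ^ w'.length
      rw [hlen]
      refine pm_PolyA7_real hP.hl hc0 hs hs1 ?_
      rw [hgeq, TT_c, hTT z (Set.mem_univ _)]
      have ha2' : |((-m' : ℤ) : ℝ)| * ps.L q ≤ Real.log K' := by
        rw [Int.cast_neg, abs_neg]
        exact ha2
      refine le_trans ?_ (pm_PolyA7_mn hK'1 ha1 ha2' (ps.L_pos p) (ps.L_pos q) hB2.pos)
      rw [hc, mul_assoc (K'⁻¹ * K'⁻¹)]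
      exact mul_le_mul_of_nonneg_left hmn (by positivity)
    · change g = (ps.c p) ^ m * evw el (opt σ (a p) ++ w'.map Subtype.val ++ opt σ' (a q)) *
        (ps.c q) ^ m'
      rw [hw']
      exact hgeq
  choose F hF1 hF2 using key
  have hinj : Function.Injective F := by
    intro g1 g2 h
    apply Subtype.ext
    rw [hF2 g1, hF2 g2, h]
  unfold Zs
  calc ∑' g : {g : Γ // g ∈ G ∧ Nrm ps K κ Λ p g q}, ENNReal.ofReal ((mn (ps.TT z p g q)) ^ (-s))
      ≤ ∑' g : {g : Γ // g ∈ G ∧ Nrm ps K κ Λ p g q}, ENNReal.ofReal (C0 * θ ^ (F g).2.length) :=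
        ENNReal.tsum_le_tsum fun g => ENNReal.ofReal_le_ofReal (hF1 g)
    _ ≤ ∑' x : X × List {x // x ∈ A}, ENNReal.ofReal (C0 * θ ^ x.2.length) :=
        ENNReal.tsum_comp_le_tsum_of_injective hinj
          (fun x : X × List {x // x ∈ A} => ENNReal.ofReal (C0 * θ ^ x.2.length))
    _ = ∑' _ : X, ∑' w : List {x // x ∈ A}, ENNReal.ofReal (C0 * θ ^ w.length) :=
        ENNReal.tsum_prod (f := fun (_ : X) (w : List {x // x ∈ A}) =>
          ENNReal.ofReal (C0 * θ ^ w.length))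
    _ ≤ ∑' _ : X, ENNReal.ofReal (C0 * 2) :=
        ENNReal.tsum_le_tsum fun _ => pm_PolyA7_lists A hθ0 hlb C0 hC0p.le
    _ = ENNReal.ofReal ((Fintype.card X : ℝ) * (C0 * 2)) := by
        have h9 : (0 : ℝ) ≤ (Fintype.card X : ℝ) := Nat.cast_nonneg _
        rw [tsum_fintype, Finset.sum_const, nsmul_eq_mul, Finset.card_univ,
          ENNReal.ofReal_mul h9, ENNReal.ofReal_natCast]
    _ ≤ _ := ENNReal.ofReal_le_ofReal (by linarith)

end

end PM3
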