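import Pool.Agent.LibPM3.GoGB

/-! Polygon groups inside a port system: definitions. -/

namespace PM3
open Matrix Filter Topology

noncomputable section

def J2 : M2 := !![0, -1; 1, 0]

/-- `±` positive 2 x 2 matrix with entries between `lo` and `hi` -/
def PB (lo hi : ℝ) (A : M2) : Prop :=
  ∃ σ : ℝ, (σ = 1 ∨ σ = -1) ∧ ∀ i j, lo ≤ σ * A i j ∧ σ * A i j ≤ hi

/-- the symmetric square of an invertible matrix as an invertible matrix -/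
def symG (A : M2) : GL (Fin 3) ℝ :=
  if h : A.det ≠ 0 then Matrix.GeneralLinearGroup.mkOfDetNeZero (symMat A)
    (by rw [symMat_det]; exact pow_ne_zero 3 h) else 1

/-- 2 x 2 data of a polygon: reflections `R x`, frames `k x` of the letters `x ∈ A`, frames `f p` of the
ports `p ∈ S`, adjacent letters `a p`, `b p` of the port `p` -/
structure PolySys {ι Q : Type} (A : Finset ι) (S : Set Q) (R k : ι → M2) (f : Q → M2) (a b : Q → ι)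
    (lb mu M : ℝ) : Prop where
  hl : 1 ≤ lb
  hmu : 0 < mu
  hM : 1 ≤ M
  hRR : ∀ x ∈ A, R x * R x = 1
  hRd : ∀ x ∈ A, (R x).det = -1
  hkd : ∀ x ∈ A, (k x).det = 1
  hfd : ∀ p ∈ S, (f p).det = 1
  hab : ∀ p ∈ S, a p ∈ A ∧ b p ∈ A ∧ a p ≠ b p
  hL : ∀ x ∈ A, ∀ y ∈ A, x ≠ y → PB lb M ((k x)⁻¹ * R x * k y)
  hin : ∀ p ∈ S, ∀ x ∈ A, x ≠ a p → x ≠ b p → PB mu M ((f p)⁻¹ * k x)
  hout : ∀ p ∈ S, ∀ x ∈ A, x ≠ a p → x ≠ b p → PB mu M ((k x)⁻¹ * R x * f p * J2)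
  hdir : ∀ p ∈ S, ∀ q ∈ S, p ≠ q → PB mu M ((f p)⁻¹ * f q * J2)
  hE : ∀ p ∈ S, ∃ m : ℝ, 1 / M ≤ |m| ∧ |m| ≤ M ∧ (f p)⁻¹ * R (a p) * f p = !![0, m; 1 / m, 0]

/-- value of an even word in letters; `el x y` represents `R x * R y` -/
def evw {Γ ι : Type} [Group Γ] (el : ι → ι → Γ) : List ι → Γ
  | [] => 1
  | [_] => 1
  | x :: y :: l => el x y * evw el l

/-- `G` is a polygon group in the port system `ps` for the parameters in `Z0` -/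
structure PolyV {Γ Z Q ι : Type} [Group Γ] (ps : PS Γ Z Q) (G : Subgroup Γ) (S : Set Q) (Z0 : Set Z)
    (A : Finset ι) (R : ι → M2) (f : Q → M2) (a b : Q → ι) (el : ι → ι → Γ)
    (Zc : Z → GL (Fin 3) ℝ) : Prop where
  el_mem : ∀ x ∈ A, ∀ y ∈ A, el x y ∈ G
  el_self : ∀ x ∈ A, el x x = 1
  el_mul : ∀ x ∈ A, ∀ y ∈ A, ∀ w ∈ A, el x y * el y w = el x w
  gen : G ≤ Subgroup.closure {g | ∃ x ∈ A, ∃ y ∈ A, g = el x y}
  hc : ∀ p ∈ S, ps.c p = el (a p) (b p)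
  hr : ∀ z ∈ Z0, ∀ x ∈ A, ∀ y ∈ A,
    (ps.r z (el x y) : M3) * (Zc z : M3) = (Zc z : M3) * symMat (R x * R y)
  hF : ∀ z ∈ Z0, ∀ p ∈ S, (ps.F p z : M3) = (Zc z : M3) * symMat (f p)

/-- the vertex condition with words consisting of one symmetric square -/
def VCs {Γ Z Q : Type} [Group Γ] (ps : PS Γ Z Q) (K κ : ℝ) (G : Subgroup Γ) (S : Set Q) : Prop :=
  ∀ p ∈ S, ∀ q ∈ S, ∀ g ∈ G, ¬ (p = q ∧ g ∈ Subgroup.zpowers (ps.c p)) →
    ∃ (k k' : ℤ) (T : M2), (∀ i j, 0 < T i j) ∧ Bal K κ (symMat T) ∧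
      ∀ z, ps.TT z p g q = Cd (ps.L p) k * symMat T * Cd (ps.L q) k'

/-- optional letter -/
def opt {ι : Type} (s : Bool) (x : ι) : List ι := if s then [x] else []

end

end PM3
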