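import Pool.Agent.LibPM3.Surf

/-! Sanity checks for the definitions: the Lickorish twists exist as automorphisms of the surface
group, so that the group `mcg` contains all of them. -/

namespace PM3

noncomputable section

/-- automorphism from two mutually inverse homomorphisms -/
theorem sn_equiv (f g : Surf →* Surf) (hx : ∀ i, g (f (sx i)) = sx i) (hy : ∀ i, g (f (sy i)) = sy i)
    (hx' : ∀ i, f (g (sx i)) = sx i) (hy' : ∀ i, f (g (sy i)) = sy i) :
    ∃ F : MulAut Surf, ∀ γ, F γ = f γ := by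
  have h1 : g.comp f = MonoidHom.id Surf := surf_ext (by simpa using hx) (by simpa using hy)
  have h2 : f.comp g = MonoidHom.id Surf := surf_ext (by simpa using hx') (by simpa using hy')
  exact ⟨MonoidHom.toMulEquiv f g h1 h2, fun γ => rfl⟩

theorem sn_rel : com (sx 0) (sy 0) * com (sx 1) (sy 1) * com (sx 2) (sy 2) = 1 := surf_rel

theorem exists_twX (i : Fin 3) : ∃ f : MulAut Surf, IsTwX i f := by
  have hF : ∀ e : ℤ, ∃ F : Surf →* Surf, (∀ j, F (sx j) = sx j) ∧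
      ∀ j, F (sy j) = if j = i then sy j * sx j ^ e else sy j := by
    intro e
    have hc : ∀ j, com (sx j) (if j = i then sy j * sx j ^ e else sy j) = com (sx j) (sy j) := by
      intro j
      split_ifs with h
      · unfold com; group
      · rfl
    obtain ⟨F, h1, h2⟩ := surf_lift (fun j => sx j) (fun j => if j = i then sy j * sx j ^ e else sy j)
      (by simp only [hc]; exact sn_rel)
    exact ⟨F, h1, h2⟩
  obtain ⟨F, hx, hy⟩ := hF 1
  obtain ⟨F', hx', hy'⟩ := hF (-1)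
  obtain ⟨G, hG⟩ := sn_equiv F F' (fun j => by rw [hx, hx'])
    (fun j => by
      rw [hy]
      split_ifs with h
      · rw [map_mul, map_zpow, hx', hy', if_pos h]; group
      · rw [hy', if_neg h])
    (fun j => by rw [hx', hx])
    (fun j => by
      rw [hy']
      split_ifs with h
      · rw [map_mul, map_zpow, hx, hy, if_pos h]; group
      · rw [hy, if_neg h])
  refine ⟨G, fun j => by rw [hG, hx], fun j hj => by rw [hG, hy, if_neg hj], ?_⟩
  rw [hG, hy, if_pos rfl, zpow_one]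

theorem exists_twY (i : Fin 3) : ∃ f : MulAut Surf, IsTwY i f := by
  have hF : ∀ e : ℤ, ∃ F : Surf →* Surf, (∀ j, F (sy j) = sy j) ∧
      ∀ j, F (sx j) = if j = i then sx j * sy j ^ e else sx j := by
    intro e
    have hc : ∀ j, com (if j = i then sx j * sy j ^ e else sx j) (sy j) = com (sx j) (sy j) := by
      intro j
      split_ifs with h
      · unfold com; group
      · rfl
    obtain ⟨F, h1, h2⟩ := surf_lift (fun j => if j = i then sx j * sy j ^ e else sx j) (fun j => sy j)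
      (by simp only [hc]; exact sn_rel)
    exact ⟨F, h2, h1⟩
  obtain ⟨F, hy, hx⟩ := hF 1
  obtain ⟨F', hy', hx'⟩ := hF (-1)
  obtain ⟨G, hG⟩ := sn_equiv F F'
    (fun j => by
      rw [hx]
      split_ifs with h
      · rw [map_mul, map_zpow, hx', hy', if_pos h]; group
      · rw [hx', if_neg h])
    (fun j => by rw [hy, hy'])
    (fun j => by
      rw [hx']
      split_ifs with h
      · rw [map_mul, map_zpow, hx, hy, if_pos h]; group
      · rw [hx, if_neg h])
    (fun j => by rw [hy', hy])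
  refine ⟨G, fun j => by rw [hG, hy], fun j hj => by rw [hG, hx, if_neg hj], ?_⟩
  rw [hG, hx, if_pos rfl, zpow_one]

theorem sn_twC_rel {G : Type*} [Group G] (x y x' y' E : G)
    (hE : E * (y * x⁻¹ * y⁻¹ * x') = (y * x⁻¹ * y⁻¹ * x') * E) :
    com x (E * y) * com (E * x' * E⁻¹) (y' * E⁻¹) = com x y * com x' y' := by
  have h1 : com x (E * y) * com (E * x' * E⁻¹) (y' * E⁻¹) =
      x * (E * (y * x⁻¹ * y⁻¹ * x')) * E⁻¹ * y' * x'⁻¹ * y'⁻¹ := by unfold com; group
  rw [h1, hE]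
  unfold com; group

theorem exists_twC0 : ∃ f : MulAut Surf, IsTwC 0 f := by
  have hc : cc 0 = sy 0 * (sx 0)⁻¹ * (sy 0)⁻¹ * sx 1 := rfl
  have hF : ∀ e : ℤ, ∃ F : Surf →* Surf, F (sx 0) = sx 0 ∧ F (sy 0) = cc 0 ^ e * sy 0 ∧
      F (sx 1) = cc 0 ^ e * sx 1 * (cc 0 ^ e)⁻¹ ∧ F (sy 1) = sy 1 * (cc 0 ^ e)⁻¹ ∧
      F (sx 2) = sx 2 ∧ F (sy 2) = sy 2 ∧ F (cc 0) = cc 0 := by
    intro e
    have hE : cc 0 ^ e * (sy 0 * (sx 0)⁻¹ * (sy 0)⁻¹ * sx 1) =
        (sy 0 * (sx 0)⁻¹ * (sy 0)⁻¹ * sx 1) * cc 0 ^ e := by rw [← hc]; group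
    obtain ⟨F, h1, h2⟩ := surf_lift ![sx 0, cc 0 ^ e * sx 1 * (cc 0 ^ e)⁻¹, sx 2]
      ![cc 0 ^ e * sy 0, sy 1 * (cc 0 ^ e)⁻¹, sy 2]
      (by
        have := sn_twC_rel (sx 0) (sy 0) (sx 1) (sy 1) (cc 0 ^ e) hE
        simp only [Matrix.cons_val_zero, Matrix.cons_val_one, Matrix.cons_val]
        rw [this]; exact sn_rel)
    have a0 : F (sx 0) = sx 0 := h1 0
    have a1 : F (sx 1) = cc 0 ^ e * sx 1 * (cc 0 ^ e)⁻¹ := h1 1
    have a2 : F (sx 2) = sx 2 := h1 2
    have b0 : F (sy 0) = cc 0 ^ e * sy 0 := h2 0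
    have b1 : F (sy 1) = sy 1 * (cc 0 ^ e)⁻¹ := h2 1
    have b2 : F (sy 2) = sy 2 := h2 2
    refine ⟨F, a0, b0, a1, b1, a2, b2, ?_⟩
    have : F (cc 0) = cc 0 ^ e * (sy 0 * (sx 0)⁻¹ * (sy 0)⁻¹ * sx 1) * (cc 0 ^ e)⁻¹ := by
      nth_rewrite 1 [hc]
      rw [map_mul, map_mul, map_mul, map_inv, map_inv, a0, b0, a1]
      group
    rw [this, hE, ← hc]; group
  obtain ⟨F, a0, b0, a1, b1, a2, b2, hcc⟩ := hF 1
  obtain ⟨F', a0', b0', a1', b1', a2', b2', hcc'⟩ := hF (-1)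
  obtain ⟨G, hG⟩ := sn_equiv F F'
    (fun j => by
      fin_cases j
      · show F' (F (sx 0)) = sx 0
        rw [a0, a0']
      · show F' (F (sx 1)) = sx 1
        rw [a1, map_mul, map_mul, map_inv, map_zpow, hcc', a1']; group
      · show F' (F (sx 2)) = sx 2
        rw [a2, a2'])
    (fun j => by
      fin_cases j
      · show F' (F (sy 0)) = sy 0
        rw [b0, map_mul, map_zpow, hcc', b0']; group
      · show F' (F (sy 1)) = sy 1
        rw [b1, map_mul, map_inv, map_zpow, hcc', b1']; group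
      · show F' (F (sy 2)) = sy 2
        rw [b2, b2'])
    (fun j => by
      fin_cases j
      · show F (F' (sx 0)) = sx 0
        rw [a0', a0]
      · show F (F' (sx 1)) = sx 1
        rw [a1', map_mul, map_mul, map_inv, map_zpow, hcc, a1]; group
      · show F (F' (sx 2)) = sx 2
        rw [a2', a2])
    (fun j => by
      fin_cases j
      · show F (F' (sy 0)) = sy 0
        rw [b0', map_mul, map_zpow, hcc, b0]; group
      · show F (F' (sy 1)) = sy 1
        rw [b1', map_mul, map_inv, map_zpow, hcc, b1]; group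
      · show F (F' (sy 2)) = sy 2
        rw [b2', b2])
  refine ⟨G, by rw [hG, a0], by rw [hG, b0, zpow_one], ?_, ?_, ?_⟩
  · show G (sx 1) = _
    rw [hG, a1, zpow_one]; rfl
  · show G (sy 1) = _
    rw [hG, b1, zpow_one]; rfl
  · intro j h0 h1
    fin_cases j
    · exact absurd rfl h0
    · exact absurd rfl h1
    · exact ⟨by rw [hG]; exact a2, by rw [hG]; exact b2⟩

theorem exists_twC1 : ∃ f : MulAut Surf, IsTwC 1 f := by
  have hc : cc 1 = sy 1 * (sx 1)⁻¹ * (sy 1)⁻¹ * sx 2 := rfl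
  have hF : ∀ e : ℤ, ∃ F : Surf →* Surf, F (sx 1) = sx 1 ∧ F (sy 1) = cc 1 ^ e * sy 1 ∧
      F (sx 2) = cc 1 ^ e * sx 2 * (cc 1 ^ e)⁻¹ ∧ F (sy 2) = sy 2 * (cc 1 ^ e)⁻¹ ∧
      F (sx 0) = sx 0 ∧ F (sy 0) = sy 0 ∧ F (cc 1) = cc 1 := by
    intro e
    have hE : cc 1 ^ e * (sy 1 * (sx 1)⁻¹ * (sy 1)⁻¹ * sx 2) =
        (sy 1 * (sx 1)⁻¹ * (sy 1)⁻¹ * sx 2) * cc 1 ^ e := by rw [← hc]; group
    obtain ⟨F, h1, h2⟩ := surf_lift ![sx 0, sx 1, cc 1 ^ e * sx 2 * (cc 1 ^ e)⁻¹]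
      ![sy 0, cc 1 ^ e * sy 1, sy 2 * (cc 1 ^ e)⁻¹]
      (by
        have := sn_twC_rel (sx 1) (sy 1) (sx 2) (sy 2) (cc 1 ^ e) hE
        simp only [Matrix.cons_val_zero, Matrix.cons_val_one, Matrix.cons_val]
        rw [mul_assoc, this, ← mul_assoc]; exact sn_rel)
    have a0 : F (sx 0) = sx 0 := h1 0
    have a1 : F (sx 1) = sx 1 := h1 1
    have a2 : F (sx 2) = cc 1 ^ e * sx 2 * (cc 1 ^ e)⁻¹ := h1 2
    have b0 : F (sy 0) = sy 0 := h2 0
    have b1 : F (sy 1) = cc 1 ^ e * sy 1 := h2 1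
    have b2 : F (sy 2) = sy 2 * (cc 1 ^ e)⁻¹ := h2 2
    refine ⟨F, a1, b1, a2, b2, a0, b0, ?_⟩
    have : F (cc 1) = cc 1 ^ e * (sy 1 * (sx 1)⁻¹ * (sy 1)⁻¹ * sx 2) * (cc 1 ^ e)⁻¹ := by
      nth_rewrite 1 [hc]
      rw [map_mul, map_mul, map_mul, map_inv, map_inv, a1, b1, a2]
      group
    rw [this, hE, ← hc]; group
  obtain ⟨F, a1, b1, a2, b2, a0, b0, hcc⟩ := hF 1
  obtain ⟨F', a1', b1', a2', b2', a0', b0', hcc'⟩ := hF (-1)
  obtain ⟨G, hG⟩ := sn_equiv F F'
    (fun j => by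
      fin_cases j
      · show F' (F (sx 0)) = sx 0
        rw [a0, a0']
      · show F' (F (sx 1)) = sx 1
        rw [a1, a1']
      · show F' (F (sx 2)) = sx 2
        rw [a2, map_mul, map_mul, map_inv, map_zpow, hcc', a2']; group)
    (fun j => by
      fin_cases j
      · show F' (F (sy 0)) = sy 0
        rw [b0, b0']
      · show F' (F (sy 1)) = sy 1
        rw [b1, map_mul, map_zpow, hcc', b1']; group
      · show F' (F (sy 2)) = sy 2
        rw [b2, map_mul, map_inv, map_zpow, hcc', b2']; group)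
    (fun j => by
      fin_cases j
      · show F (F' (sx 0)) = sx 0
        rw [a0', a0]
      · show F (F' (sx 1)) = sx 1
        rw [a1', a1]
      · show F (F' (sx 2)) = sx 2
        rw [a2', map_mul, map_mul, map_inv, map_zpow, hcc, a2]; group)
    (fun j => by
      fin_cases j
      · show F (F' (sy 0)) = sy 0
        rw [b0', b0]
      · show F (F' (sy 1)) = sy 1
        rw [b1', map_mul, map_zpow, hcc, b1]; group
      · show F (F' (sy 2)) = sy 2
        rw [b2', map_mul, map_inv, map_zpow, hcc, b2]; group)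
  refine ⟨G, by rw [hG, a1], by rw [hG, b1, zpow_one], ?_, ?_, ?_⟩
  · show G (sx 2) = _
    rw [hG, a2, zpow_one]; rfl
  · show G (sy 2) = _
    rw [hG, b2, zpow_one]; rfl
  · intro j h0 h1
    fin_cases j
    · exact ⟨by rw [hG]; exact a0, by rw [hG]; exact b0⟩
    · exact absurd rfl h0
    · exact absurd rfl h1

end

end PM3
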