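import Pool.Agent.LibPM3.PolyDefs

/-! The surface group: letters, subgroups. -/

namespace PM3
open Matrix Filter Topology
open scoped MatrixGroups

noncomputable section

/-- boundary elements of the handles -/
def dd (i : Fin 3) : Surf := com (sx i) (sy i)

/-- `p_f`, corresponding to `ρ_0 ρ_f` -/
def pf : Fin 6 → Surf
  | 0 => 1
  | 1 => sx 0
  | 2 => dd 0
  | 3 => dd 0 * sx 1
  | 4 => dd 0 * dd 1
  | 5 => dd 0 * dd 1 * sx 2

/-- the element corresponding to `ρ_f ρ_g` -/
def elS (f g : Fin 6) : Surf := (pf f)⁻¹ * pf g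

/-- letters `2i`, `2i+1`, `2i+2` -/
def l0 (i : Fin 3) : Fin 6 := ![0, 2, 4] i
def l1 (i : Fin 3) : Fin 6 := ![1, 3, 5] i
def l2 (i : Fin 3) : Fin 6 := ![2, 4, 0] i

/-- mirrored `p_f` of the handle `i` (for the letters of the handle) -/
def qf (i : Fin 3) (f : Fin 6) : Surf :=
  if f = l0 i then 1 else if f = l1 i then sy i else com (sy i) (sx i)

/-- mirrored elements of the handle `i` -/
def elM (i : Fin 3) (f g : Fin 6) : Surf := (qf i f)⁻¹ * qf i g

/-- elements of the handle `i` of type `b` -/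
def elH (b : Bool) (i : Fin 3) (f g : Fin 6) : Surf := if b then elM i f g else elS f g

/-- subgroups generated by the elements `el f g` of a set of letters -/
def elG (el : Fin 6 → Fin 6 → Surf) (A : Finset (Fin 6)) : Subgroup Surf :=
  Subgroup.closure {g | ∃ x ∈ A, ∃ y ∈ A, g = el x y}

def AH (i : Fin 3) : Finset (Fin 6) := {l0 i, l1 i, l2 i}
def AZ : Finset (Fin 6) := {0, 2, 4}
def A5 : Finset (Fin 6) := {0, 1, 2, 3, 4}
def APc : Finset (Fin 6) := {1, 2, 3}
def AQc : Finset (Fin 6) := {0, 1, 3, 4}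

def PZ : Subgroup Surf := elG elS AZ
def PH (b : Bool) (i : Fin 3) : Subgroup Surf := elG (elH b i) (AH i)
def V5 : Subgroup Surf := elG elS A5
def PC : Subgroup Surf := elG elS APc
def QC : Subgroup Surf := elG elS AQc
def BH (i : Fin 3) : Subgroup Surf := Subgroup.closure {sx i, sy i}
def WG : Subgroup Surf := Subgroup.closure {dd 0, dd 1, sx 2, sy 2}
def RG : Subgroup Surf := Subgroup.closure {sx 0, sy 0, sx 1, sy 1}

/-- the relation -/
theorem surf_rel : dd 0 * dd 1 * dd 2 = 1 := by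
  have h : (PresentedGroup.mk ({relator} : Set (FreeGroup Gen))) relator = 1 :=
    PresentedGroup.one_of_mem (Set.mem_singleton _)
  simp only [relator, com] at h
  exact h

/-- the value of `dd 2` -/
private theorem pm_SurfA_dd2 : dd 0 * dd 1 = (dd 2)⁻¹ :=
  eq_inv_of_mul_eq_one_left surf_rel

theorem elS_self (f : Fin 6) : elS f f = 1 := by simp [elS]
theorem elS_mul (f g h : Fin 6) : elS f g * elS g h = elS f h := by simp [elS, mul_assoc]
theorem elM_self (i : Fin 3) (f : Fin 6) : elM i f f = 1 := by simp [elM]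
theorem elM_mul (i : Fin 3) (f g h : Fin 6) : elM i f g * elM i g h = elM i f h := by simp [elM, mul_assoc]
theorem elH_self (b : Bool) (i : Fin 3) (f : Fin 6) : elH b i f f = 1 := by
  cases b <;> simp [elH, elS_self, elM_self]
theorem elH_mul (b : Bool) (i : Fin 3) (f g h : Fin 6) : elH b i f g * elH b i g h = elH b i f h := by
  cases b <;> simp [elH, elS_mul, elM_mul]

/-- values on consecutive letters -/
theorem elS_l01 (i : Fin 3) : elS (l0 i) (l1 i) = sx i := by
  fin_cases i
  · change (1 : Surf)⁻¹ * sx 0 = sx 0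
    group
  · change (dd 0)⁻¹ * (dd 0 * sx 1) = sx 1
    group
  · change (dd 0 * dd 1)⁻¹ * (dd 0 * dd 1 * sx 2) = sx 2
    group
theorem elS_l02 (i : Fin 3) : elS (l0 i) (l2 i) = dd i := by
  fin_cases i
  · change (1 : Surf)⁻¹ * dd 0 = dd 0
    group
  · change (dd 0)⁻¹ * (dd 0 * dd 1) = dd 1
    group
  · change (dd 0 * dd 1)⁻¹ * (1 : Surf) = dd 2
    rw [pm_SurfA_dd2]
    group
theorem elS_l12 (i : Fin 3) : elS (l1 i) (l2 i) = sy i * (sx i)⁻¹ * (sy i)⁻¹ := by
  have h : elS (l1 i) (l2 i) = (elS (l0 i) (l1 i))⁻¹ * elS (l0 i) (l2 i) := by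
    simp only [elS]
    group
  rw [h, elS_l01, elS_l02]
  simp only [dd, com]
  group
theorem elM_l01 (i : Fin 3) : elM i (l0 i) (l1 i) = sy i := by
  fin_cases i <;> simp [elM, qf, l0, l1]
theorem elM_l02 (i : Fin 3) : elM i (l0 i) (l2 i) = (dd i)⁻¹ := by
  have h : elM i (l0 i) (l2 i) = com (sy i) (sx i) := by
    fin_cases i <;> simp [elM, qf, l0, l1, l2]
  rw [h]
  simp only [dd, com]
  group
theorem elM_l12 (i : Fin 3) : elM i (l1 i) (l2 i) = sx i * (sy i)⁻¹ * (sx i)⁻¹ := by
  have h : elM i (l1 i) (l2 i) = (elM i (l0 i) (l1 i))⁻¹ * elM i (l0 i) (l2 i) := by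
    simp only [elM]
    group
  rw [h, elM_l01, elM_l02]
  simp only [dd, com]
  group
theorem elS_13 : elS 1 3 = cc 0 := by
  change (sx 0)⁻¹ * (dd 0 * sx 1) = sy 0 * (sx 0)⁻¹ * (sy 0)⁻¹ * sx (0 + 1)
  rw [zero_add]
  simp only [dd, com]
  group

/-- the universal property, with values in a group -/
theorem surf_lift {G : Type*} [Group G] (X Y : Fin 3 → G)
    (h : com (X 0) (Y 0) * com (X 1) (Y 1) * com (X 2) (Y 2) = 1) :
    ∃ φ : Surf →* G, (∀ i, φ (sx i) = X i) ∧ (∀ i, φ (sy i) = Y i) := by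
  let f : Gen → G := fun g => match g with
    | Gen.x i => X i
    | Gen.y i => Y i
  have hf : ∀ r ∈ ({relator} : Set (FreeGroup Gen)), FreeGroup.lift f r = 1 := by
    intro r hr
    rw [Set.mem_singleton_iff] at hr
    subst hr
    simp only [relator, com, map_mul, map_inv, FreeGroup.lift_apply_of]
    exact h
  refine ⟨PresentedGroup.toGroup hf, fun i => ?_, fun i => ?_⟩
  · exact PresentedGroup.toGroup.of hf
  · exact PresentedGroup.toGroup.of hf

/-- homomorphisms out of the surface group are determined by the generators -/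
theorem surf_ext {G : Type*} [Group G] {φ ψ : Surf →* G} (hx : ∀ i, φ (sx i) = ψ (sx i))
    (hy : ∀ i, φ (sy i) = ψ (sy i)) : φ = ψ := by
  refine PresentedGroup.ext (fun g => ?_)
  cases g with
  | x i => exact hx i
  | y i => exact hy i

end

end PM3
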